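import Pool.Agent.QCV.H_CCE

/-!
# QCV, block H: each integral variety, four quadratic forms and a cubic hypersurface
-/

set_option autoImplicit false

open CategoryTheory AlgebraicGeometry Limits Polynomial TopologicalSpace

namespace QCV

open Pool.Agent.Lib_helper55.Beil Pool.Agent.Lib_helper66.OneP CUB

universe v

section

variable {k : Type} [Field k]

/-- The zero set of the tail belongs to the class. -/
lemma member_tail (h2 : (2 : k) ≠ 0) (d : ℕ) {N : ℕ}
    (f : Fin (d + 1 + 1 + 1) → MvPolynomial (Fin N) k) (hf : ∀ j, (f j).IsHomogeneous 2)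
    (hodd : Odd ((gram (gen fun j : Fin (d + 1 + 1) => f j.succ)).map
      (algebraMap (MvPolynomial (Fin (d + 1)) k)
        (FractionRing (MvPolynomial (Fin (d + 1)) k)))).rank) :
    Member k d (zer fun j : Fin (d + 1 + 1) => f j.succ) :=
  Member.zeros (MvPolynomial (Fin N) k) (d + 1) (fun j : Fin (d + 1 + 1) => f j.succ)
    (t_OVS2 k (fun A [CommRing A] [Algebra k A] [Algebra.FiniteType k A] => Member k d (aff k A)) d
      h2 (cls_member k d) (fun A _ _ _ m a ha h => Member.odd A m a ha h) k N (d + 1) 0 _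
      (Nat.zero_le d) le_rfl (dl_field k) (fun j => hf j.succ) hodd)

/-- The zero sets of the forms `f_1, ..., f_j` belong to the class. -/
lemma member_sub (h2 : (2 : k) ≠ 0) (d : ℕ) {N : ℕ}
    (f : Fin (d + 1 + 1 + 1) → MvPolynomial (Fin N) k) (hf : ∀ j, (f j).IsHomogeneous 2)
    (hodd : Odd ((gram (gen fun j : Fin (d + 1 + 1) => f j.succ)).map
      (algebraMap (MvPolynomial (Fin (d + 1)) k)
        (FractionRing (MvPolynomial (Fin (d + 1)) k)))).rank) (j : ℕ) (hj : j ≤ d + 1 + 1) :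
    Member k d (aff k (MvPolynomial (Fin N) k ⧸
      Ideal.span (Set.range fun l : Fin j => f ⟨l.1 + 1, by have := l.2; omega⟩))) := by
  rcases Nat.eq_zero_or_pos j with rfl | hj0
  · refine (cls_member k d).iso (A := MvPolynomial (Fin N) k) ?_ (member_poly k N d)
    have h1 : Ideal.span (Set.range (fun l : Fin 0 =>
        f ⟨l.1 + 1, by have := l.2; omega⟩)) = ⊥ := by
      rw [Set.range_eq_empty, Ideal.span_empty]
    exact ((Ideal.quotientEquivAlgOfEq k h1).trans
      (AlgEquiv.quotientBot k (MvPolynomial (Fin N) k))).symm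
  · rcases Nat.lt_or_ge j (d + 2) with hj2 | hj2
    · exact member_of_built (built_quadrics (e := 0) _ hj0 (by omega)
        (dimLE_of_DL (dl_field k)) (fun l => (hf _).totalDegree_le))
    · obtain rfl : j = d + 1 + 1 := by omega
      exact member_tail h2 d f hf hodd

end

variable {k : Type} [Field k] {E : Type} [Field E] [Finite k] [CharZero E]
variable {T : ∀ i : ℕ, Homology.{v} k E i} {hT : Full T}

/-- The affine and the projective zero set of homogeneous polynomials. -/
lemma tate_proj_iff2 (hP : Pub2 T hT) {ι : Type} {n : ℕ} (f : ι → MvPolynomial (Fin (n + 1)) k)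
    (m : ι → ℕ) (hf : ∀ j, (f j).IsHomogeneous (m j)) (hm : ∀ j, 1 ≤ m j) {X : Var k}
    (S : ProjSub f X) :
    Tate T X ↔ Tate T (aff k (MvPolynomial (Fin (n + 1)) k ⧸ Ideal.span (Set.range f))) := by
  rw [tate_cone_iff hP f m hf hm (tate_field hP)]
  constructor
  · intro h Y SY
    obtain ⟨Q, a, b, hab⟩ := exists_ambient f S SY
    exact (gg_iff Y).mp (gg_same_range (ggc hP) a b hab ((gg_iff X).mpr h))
  · exact fun h => h X S

/-- The cubic hypersurface: the conjecture of Tate. -/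
theorem gg_ccone_iff (hP : Pub2 T hT) (h2 : (2 : k) ≠ 0) (d : ℕ)
    (hlow : ∀ X : Var k, X.DimLE d → GG T X) (g : MvPolynomial (Fin (d + 1 + 1)) k) {N : ℕ}
    (f : Fin (d + 1 + 1 + 1) → MvPolynomial (Fin N) k) (hr : RepG.{v} g f)
    (hodd : Odd ((gram (gen fun j : Fin (d + 1 + 1) => f j.succ)).map
      (algebraMap (MvPolynomial (Fin (d + 1)) k)
        (FractionRing (MvPolynomial (Fin (d + 1)) k)))).rank) :
    GG T (hyV g) ↔ GG T (ccone f) := by
  have hc := cls_gg hP d hlow
  constructor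
  · intro h
    exact cls_ccone k (fun A [CommRing A] [Algebra k A] [Algebra.FiniteType k A] => GG T (aff k A))
      hc.toCls0 hc.line f
      (fun j hj => gg_of_member (ggEven hP) hP d hlow _ (member_sub h2 d f hr.quad hodd j hj))
      ((gg_rep_iff hP h2 d hlow g f hr hodd).mp h)
  · intro h
    obtain ⟨e1⟩ := t_QSW k k N (d + 1 + 1) f
    exact hr.down E T hT hP ((clsT_gg (ggc hP)).iso e1 (gg_fs_of_ccone hP f h))

/-- The cubic hypersurface: the strong form of the generalised conjecture of Beilinson. -/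
theorem ppf_ccone (hP : Pub2 T hT) (h2 : (2 : k) ≠ 0) (d : ℕ)
    (hlow : ∀ X : Var k, X.DimLE d → PPF T X) (g : MvPolynomial (Fin (d + 1 + 1)) k) {N : ℕ}
    (f : Fin (d + 1 + 1 + 1) → MvPolynomial (Fin N) k) (hr : RepG.{v} g f)
    (hodd : Odd ((gram (gen fun j : Fin (d + 1 + 1) => f j.succ)).map
      (algebraMap (MvPolynomial (Fin (d + 1)) k)
        (FractionRing (MvPolynomial (Fin (d + 1)) k)))).rank)
    (h : PPF T (hyV g)) : PPF T (ccone f) := by
  have hc := cls_ppf hP d hlow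
  exact cls_ccone k (fun A [CommRing A] [Algebra k A] [Algebra.FiniteType k A] => PPF T (aff k A))
    hc.toCls0 hc.line f
    (fun j hj => ppf_of_member hT hP.toPub hP.sectionZero (pfEt hP) (ppfOdd hP) (ppfEven hP)
      (ppfBun hP) d (fun X hX => (pp_iff hT.toExtra _).mpr (hlow X hX)) _
      (member_sub h2 d f hr.quad hodd j hj))
    (ppf_rep hP h2 d hlow g f hr hodd h)

/-- The conjectures for `X` and for `Y` are equivalent: of Tate; the conjecture of Tate for `X` and the
generalised conjecture of Beilinson for `Y`. -/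
def EqT {k E : Type} [Field k] [Field E] (T : ∀ i : ℕ, Homology.{v} k E i) (X Y : Var k) : Prop :=
  Tate T X ↔ Tate T Y

/-- See `EqT`. -/
def EqQ {k E : Type} [Field k] [Field E] (T : ∀ i : ℕ, Homology.{v} k E i) (X Y : Var k) : Prop :=
  Tate T X ↔ ∀ i, Q1 (T i) Y

/-- The property `R` holds for the affine and projective zero sets of the system `f` and for the cubic
hypersurface of the system `f`. -/
def Three (R : Var k → Prop) {n q : ℕ} (f : Fin (q + 1) → MvPolynomial (Fin (n + 1)) k) : Prop :=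
  R (zer f) ∧ (∀ (Y : Var k) (_ : ProjSub f Y), R Y) ∧ R (ccone f) ∧
    ∀ (Y : Var k) (_ : ProjSub (n := n + 1 + q) (fun _ : Fin 1 => cubf f) Y), R Y

/-- Each integral variety `X` of dimension at most `d + 1` and the zero set of `d + 3` quadratic forms
in an odd number of variables, and a cubic hypersurface. -/
theorem each3 (h2 : (2 : k) ≠ 0) {d : ℕ} (X : Var k) (hX : IsIntegral X.X)
    (hd : X.DimLE (d + 1 : ℕ)) :
    ∃ (n : ℕ) (f : Fin (d + 1 + 1 + 1) → MvPolynomial (Fin (n + 1)) k), Odd (n + 1) ∧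
      (∀ j, (f j).IsHomogeneous 2) ∧ (gram (gen f)).det ≠ 0 ∧
      ∀ (E : Type) [Field E] [CharZero E] (T : ∀ i : ℕ, Homology.{v} k E i) (hT : Full T),
        Pub2 T hT → ((∀ Y : Var k, Y.DimLE d → Tate T Y) → Three (EqT T X) f) ∧
        (d ≤ 1 → Three (EqQ T X) f) := by
  obtain ⟨g, hg, hgX⟩ := exists_hyp.{v} X hX hd
  obtain ⟨N, f, hr, hodd⟩ := exists_rep.{v} h2 g hg
  obtain ⟨n, rfl⟩ : ∃ n, N = n + 1 := by
    obtain ⟨s, hs⟩ := hr.odd
    exact ⟨2 * s, hs⟩
  refine ⟨n, f, hr.odd, hr.quad, hr.det, ?_⟩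
  intro E _ _ T hT hP
  have key : (∀ Y : Var k, Y.DimLE d → Tate T Y) → Three (EqT T X) f := by
    intro hlow
    have hlow' : ∀ Y : Var k, Y.DimLE d → GG T Y := (tate_iff (T := T) _).mp hlow
    have h3 : Tate T X ↔ Tate T (zer f) := by
      rw [← gg_iff, ← gg_iff, hgX E T hT hP hlow']
      exact gg_rep_iff hP h2 d hlow' g f hr hodd
    have h4 : Tate T X ↔ Tate T (ccone f) := by
      rw [← gg_iff, ← gg_iff, hgX E T hT hP hlow']
      exact gg_ccone_iff hP h2 d hlow' g f hr hodd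
    exact ⟨h3, fun Y S => h3.trans (tate_proj_iff hP f hr.quad S).symm, h4, fun Y S => h4.trans
      (tate_proj_iff2 hP (fun _ : Fin 1 => cubf f) (fun _ => 3) (fun _ => cubf_homogeneous f hr.quad)
        (fun _ => by norm_num) S).symm⟩
  refine ⟨key, fun hd1 => ?_⟩
  have hlow : ∀ Y : Var k, Y.DimLE d → Tate T Y := fun Y hY =>
    tate_one hP Y fun y => (hY y).trans (by exact_mod_cast hd1)
  have hlowP : ∀ Y : Var k, Y.DimLE d → PPF T Y := fun Y hY =>
    ppf_of_dimLE_one hT hP.toPub Y fun y => (hY y).trans (by exact_mod_cast hd1)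
  obtain ⟨h3, h4, h5, h6⟩ := key hlow
  have h7 : Tate T X → PPF T (hyV g) := by
    intro h
    have hlow' : ∀ Y : Var k, Y.DimLE d → GG T Y := (tate_iff (T := T) _).mp hlow
    have h8 : Tate T (hyV g) := (gg_iff _).mp ((hgX E T hT hP hlow').mp ((gg_iff _).mpr h))
    refine ppf_surface hP _ ?_ h8
    exact fun y => (dimLE_hyV hg y).trans (by exact_mod_cast Nat.succ_le_succ hd1)
  have h8 : Tate T X → PPF T (zer f) := fun h => ppf_rep hP h2 d hlowP g f hr hodd (h7 h)
  have h9 : Tate T X → PPF T (ccone f) := fun h => ppf_ccone hP h2 d hlowP g f hr hodd (h7 h)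
  have hq : ∀ {Y : Var k}, (∀ i, Q1 (T i) Y) → Tate T Y := fun h i => ⟨(h i).2.1, (h i).2.2⟩
  have hp : ∀ {Y : Var k}, PPF T Y → ∀ i, Q1 (T i) Y := fun h i => q1_of_pf (T i) _ (h i)
  refine ⟨⟨fun h => hp (h8 h), fun h => h3.mpr (hq h)⟩,
    fun Y S => ⟨fun h => hp (ppf_of_cone hP (ppf_field hP.toPub) f (fun _ => 2)
      hr.quad (fun _ => by norm_num) (h8 h) S), fun h => (h4 Y S).mpr (hq h)⟩,
    ⟨fun h => hp (h9 h), fun h => h5.mpr (hq h)⟩,
    fun Y S => ⟨fun h => hp (ppf_of_cone hP (ppf_field hP.toPub) (fun _ : Fin 1 => cubf f)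
      (fun _ => 3) (fun _ => cubf_homogeneous f hr.quad) (fun _ => by norm_num) (h9 h) S),
      fun h => (h6 Y S).mpr (hq h)⟩⟩

end QCV
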