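import Pool.Agent.QCV.H_THR

/-!
# QCV, block H: projective zero sets of systems of quadratic forms
-/

set_option autoImplicit false

open CategoryTheory AlgebraicGeometry Limits Polynomial TopologicalSpace

namespace QCV

open Pool.Agent.Lib_helper55.Beil Pool.Agent.Lib_helper66.OneP CUB

universe v

variable {k : Type} [Field k] {E : Type} [Field E]
variable {T : ∀ i : ℕ, Homology.{v} k E i} {hT : Full T}

/-- The property `P` holds for the projective zero sets of `q + 1` quadratic forms in an odd number of
variables over `k` whose generic linear combination is nondegenerate. -/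
def OddSystemsP (P : Var k → Prop) (q : ℕ) : Prop :=
  ∀ (n : ℕ) (f : Fin (q + 1) → MvPolynomial (Fin (n + 1)) k), Odd (n + 1) →
    (∀ j, (f j).IsHomogeneous 2) → (gram (gen f)).det ≠ 0 → ∀ (X : Var k) (_ : ProjSub f X), P X

/-- The property `P` holds for the projective zero sets of any `q + 1` quadratic forms over `k`. -/
def AllSystemsP (P : Var k → Prop) (q : ℕ) : Prop :=
  ∀ (n : ℕ) (f : Fin (q + 1) → MvPolynomial (Fin (n + 1)) k), (∀ j, (f j).IsHomogeneous 2) →
    ∀ (X : Var k) (_ : ProjSub f X), P X

/-- The projective varieties defined by `d + 2` quadratic forms in an odd number of variables belong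
to the class. -/
lemma member_oddSystemsP (h2 : (2 : k) ≠ 0) (d : ℕ) : OddSystemsP (Member k d) (d + 1) := by
  intro n f hn hf hd X S
  exact member_of_cone
    (Member.small _ (fun x => (dimLE_of_DL (dl_field k) x).trans (by exact_mod_cast Nat.zero_le d)))
    f (fun _ => 2) hf (fun _ => by norm_num) (member_oddSystems h2 d (n + 1) f hn hf hd) S

variable [Finite k] [CharZero E]

lemma oddP_iff (hP : Pub2 T hT) (q : ℕ) :
    OddSystemsP (Tate T) q ↔ OddSystems (Tate T) q := by
  constructor
  · intro h n f hn hf hd
    rcases n with _ | n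
    · exact absurd hn (by decide)
    · exact (tate_zer_iff hP f hf).mpr (h n f hn hf hd)
  · intro h n f hn hf hd
    exact (tate_zer_iff hP f hf).mp (h (n + 1) f hn hf hd)

lemma allP_iff (hP : Pub2 T hT) (q : ℕ) :
    AllSystemsP (Tate T) q ↔ AllSystems (Tate T) q := by
  constructor
  · intro h n f hf
    rcases n with _ | n
    · exact tate_zer_zero hP f hf
    · exact (tate_zer_iff hP f hf).mpr (h n f hf)
  · intro h n f hf
    exact (tate_zer_iff hP f hf).mp (h (n + 1) f hf)

end QCV
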