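import Pool.Agent.QCV.F_CLO
import Pool.Agent.CUB2.H_REDI

/-!
# QCV, block F: the class of varieties is closed under glueing and open complements
-/

set_option autoImplicit false

open CategoryTheory AlgebraicGeometry Limits Polynomial TopologicalSpace

namespace QCV

open Pool.Agent.Lib_helper55.Beil Pool.Agent.Lib_helper66.OneP CUB

universe v

variable {k : Type} [Field k] {E : Type} [Field E]

/-! ## Varieties of dimension at most `i` -/

lemma good_aux_dim [PerfectField k] {i : ℕ} (T : Homology.{v} k E i) (X₀ : Var k)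
    (C : Closeds X₀.X) :
    ∀ (Y : Var k) (g : Y.X ⟶ X₀.X), g ≫ X₀.f = Y.f → IsPreimmersion g → (∀ y, g y ∈ C) →
      Y.DimLE i → T.gen Y ≤ T.alg Y := by
  induction C using WellFoundedLT.induction with
  | ind C ih =>
  intro Y g comm hg hC hdim
  apply T.good_of_red
  have hred := isReduced_redVar Y
  have hcl := (redVarIn Y).closed
  have hdim' := dimLE_red hdim
  set Y' := redVar Y
  set g' : Y'.X ⟶ X₀.X := (redVarIn Y).g ≫ g
  have comm' : g' ≫ X₀.f = Y'.f := by
    rw [Category.assoc, comm, (redVarIn Y).comm]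
  have hC' : ∀ y, g' y ∈ C := fun y => hC _
  rcases isEmpty_or_nonempty Y'.X with he | ⟨⟨x⟩⟩
  · exact T.good_of_subsingleton _ (T.empty _ _ he)
  obtain ⟨η, -, hη⟩ := exists_maximal Y' x
  obtain ⟨U, hU1, -, hU3, hU4, hU5, hU6⟩ := exists_nice Y' η hη ⊤ trivial
  have hop := (openVarIn Y' U).isOpen
  refine T.glue (closedVarIn Y' U.compl) (openVarIn Y' U) (complementary_open Y' U) ?_ ?_
  · have hcl := (closedVarIn Y' U.compl).closed
    refine ih (Closeds.closure (g' '' (U.compl : Set Y'.X)))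
      (lt_of_closed g' C hC' U.compl η (fun hcon => hcon hU1))
      (closedVar Y' U.compl) ((closedVarIn Y' U.compl).g ≫ g') ?_ inferInstance ?_
      (dimLE_closed (closedVarIn Y' U.compl) hdim')
    · rw [Category.assoc, comm', (closedVarIn Y' U.compl).comm]
    · intro y
      have h1 : (closedVarIn Y' U.compl).g y ∈ (U.compl : Set Y'.X) := by
        rw [← range_closedVarIn]
        exact ⟨y, rfl⟩
      exact subset_closure ⟨_, h1, rfl⟩
  · have h1 : (openVar Y' U).dim (genericPoint (openVar Y' U).X) ≤ i := by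
      rw [← dim_map (openVarIn Y' U).g (openVarIn Y' U).comm]
      exact hdim' _
    rcases lt_or_eq_of_le h1 with h | h
    · obtain ⟨d, hd⟩ := Cardinal.lt_aleph0.1 (h.trans (Cardinal.natCast_lt_aleph0))
      rw [hd, Nat.cast_lt] at h
      exact T.good_of_subsingleton _ (T.vanish (2 * i) _ hU5 d hd (by omega))
    · refine (T.fundamental _ hU5 h).trans (Submodule.span_mono ?_)
      rintro _ rfl
      exact ⟨_, rfl⟩

/-- For a variety of dimension at most `i` the generalised eigenspace is spanned by cycle classes. -/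
theorem good_of_dimLE [PerfectField k] {i : ℕ} (T : Homology.{v} k E i) (X : Var k)
    (hX : X.DimLE i) : T.gen X ≤ T.alg X :=
  good_aux_dim T X ⊤ X (𝟙 _) (Category.id_comp _) inferInstance (fun _ => trivial) hX

/-! ## The boundary of a class with small support -/

variable {T : ∀ i : ℕ, Homology.{v} k E i}

/-- The boundary map as a linear map. -/
def bdl (hT : Full T) (i n : ℕ) {Z U X : Var k} (a : ClosedIn Z X) (j : OpenIn U X)
    (h : Complementary a j) : (T i).H (n + 1) U →ₗ[E] (T i).H n Z := hT.bd i n a j h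

lemma bdl_frob (hT : Full T) (hP : Pub T hT) (i n : ℕ) {Z U X : Var k} (a : ClosedIn Z X) (j : OpenIn U X)
    (h : Complementary a j) (u : (T i).H (n + 1) U) :
    bdl hT i n a j h ((T i).frob (n + 1) U u) = (T i).frob n Z (bdl hT i n a j h u) :=
  hP.bdFrob i n a j h u

lemma bdl_push (hT : Full T) (i n : ℕ) {Z' U' X' Z U X : Var k} (a' : ClosedIn Z' X')
    (j' : OpenIn U' X') (h' : Complementary a' j') (a : ClosedIn Z X) (j : OpenIn U X)
    (h : Complementary a j) (fZ : ClosedIn Z' Z) (fU : ClosedIn U' U) (fX : ClosedIn X' X)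
    (h1 : a'.g ≫ fX.g = fZ.g ≫ a.g) (h2 : j'.g ≫ fX.g = fU.g ≫ j.g)
    (u : (T i).H (n + 1) U') :
    (T i).P n fZ (bdl hT i n a' j' h' u) = bdl hT i n a j h ((T i).P (n + 1) fU u) := by
  have h3 := hT.pfBoundary i n a' j' h' a j h (clPr fZ) (clPr fU) (clPr fX) h1 h2 u
  rw [hT.pfClosed i n fZ (clPr fZ) rfl, hT.pfClosed i (n + 1) fU (clPr fU) rfl] at h3
  exact h3

/-- The data of `bd_supp`. -/
structure BdData (hT : Full T) (i : ℕ) {Z U X : Var k} (a : ClosedIn Z X) (j : OpenIn U X)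
    (h : Complementary a j) (u : (T i).H (2 * i + 1) U) where
  D : Var k
  b : ClosedIn D U
  red : IsReduced D.X
  β : (T i).H (2 * i + 1) D
  hβ : β ∈ gen1 (T i) D
  hu : (T i).P (2 * i + 1) b β = u
  W : Var k
  w : ClosedIn W X
  o : OpenIn D W
  B : Var k
  p : ClosedIn B W
  q : ClosedIn B Z
  hc : Complementary p o
  h1 : p.g ≫ w.g = q.g ≫ a.g
  h2 : o.g ≫ w.g = b.g ≫ j.g
  hW : W.DimLE (i + 1 : ℕ)
  redW : IsReduced W.X
  v : Pts i B →₀ E
  hv : bdl hT i (2 * i) p o hc β = cls (T i) B v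
  hv0 : pushCyc p v ∈ ratZero E i W
  hbd : bdl hT i (2 * i) a j h u = cls (T i) Z (pushCyc q v)

lemma push_cls' {i : ℕ} (T : Homology.{v} k E i) {Z X : Var k} (a : ClosedIn Z X)
    (c : Pts i Z →₀ E) : T.P (2 * i) a (cls T Z c) = cls T X (pushCyc a c) := push_cls T a c

theorem bd_supp [PerfectField k] (hT : Full T) (hP : Pub T hT) (i : ℕ) {Z U X : Var k} (a : ClosedIn Z X)
    (j : OpenIn U X) (h : Complementary a j) (u : (T i).H (2 * i + 1) U) (hu : u ∈ gen1 (T i) U)
    (hs : Supp (T i) (2 * i + 1) (i + 1) U u) : Nonempty (BdData hT i a j h u) := by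
  obtain ⟨D₀, b₀, β₀, hD₀, hβ₀, rfl⟩ := supp_gen i (2 * i + 1) (i + 1) U u hs hu
  -- replace `D₀` by the reduced subvariety
  obtain ⟨β₁, hβ₁⟩ := push_red_surjective (T i) (2 * i + 1) D₀ β₀
  obtain ⟨β, hβ, hβ2⟩ := maxGen_lift ((T i).frob (2 * i + 1) (redVar D₀))
    ((T i).frob (2 * i + 1) D₀) ((T i).push (2 * i + 1) (redVarIn D₀))
    ((T i).push_frob (2 * i + 1) (redVarIn D₀)) (m := β₁) (by
      rw [show (T i).push (2 * i + 1) (redVarIn D₀) β₁ = β₀ from hβ₁]
      exact hβ₀)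
  have hβ3 : (T i).P (2 * i + 1) (redVarIn D₀) β = β₀ := hβ2.trans hβ₁
  have hred := isReduced_redVar D₀
  have hdim : (redVar D₀).DimLE (i + 1 : ℕ) := dimLE_red hD₀
  obtain ⟨W, w, o, B, p, q, hc, h1, h2, hW, hB, hr⟩ := exists_boundary a j h
    ((redVarIn D₀).trans b₀) i hdim
  have h3 : bdl hT i (2 * i) p o hc β ∈ (T i).gen B :=
    maxGen_map ((T i).frob (2 * i + 1) (redVar D₀)) ((T i).frob (2 * i) B)
      (bdl hT i (2 * i) p o hc) (bdl_frob hT hP i (2 * i) p o hc) hβ
  obtain ⟨v, hv⟩ := exists_cls (T i) B _ (good_of_dimLE (T i) B hB h3)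
  have h4 : cls (T i) W (pushCyc p v) = 0 := by
    rw [← push_cls', hv]
    exact (hT.bdExact i (2 * i) p o hc _).mpr ⟨β, rfl⟩
  have h5 : pushCyc p v ∈ ratZero E i W :=
    ((T i).inj_iff W).mp (hP.divisors i W hW) _ h4
  refine ⟨⟨redVar D₀, (redVarIn D₀).trans b₀, hred, β, hβ, ?_, W, w, o, B, p, q, hc, h1, h2, hW,
    hr hred, v, hv.symm, h5, ?_⟩⟩
  · rw [← hT.push_comp i (2 * i + 1) _ _ _ (redVarIn D₀) b₀ _ rfl, hβ3]
  · have h6 := bdl_push hT i (2 * i) p o hc a j h q ((redVarIn D₀).trans b₀) w h1 h2 β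
    rw [← hT.push_comp i (2 * i + 1) _ _ _ (redVarIn D₀) b₀ _ rfl, hβ3, ← hv, push_cls'] at h6
    exact h6.symm

/-! ## Injectivity -/

theorem injC_glue3 [PerfectField k] (hT : Full T) (hP : Pub T hT) (i : ℕ) {Z U X : Var k} (a : ClosedIn Z X)
    (j : OpenIn U X) (h : Complementary a j) (hU : (T i).InjC U)
    (hUs : ∀ m ∈ gen1 (T i) U, Supp (T i) (2 * i + 1) (i + 1) U m) (hZ : (T i).InjC Z) :
    (T i).InjC X := by
  rw [injC_iff] at hU hZ ⊢
  intro c hc
  have h1 : cls (T i) U (resCyc j c) = 0 := by rw [← res_cls, hc, map_zero]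
  obtain ⟨c₁, hc₁, h2⟩ := exists_ratZero j _ (hU _ h1)
  obtain ⟨z, hz⟩ := exists_pushCyc a j h (c - c₁) (by rw [map_sub, h2, sub_self])
  have h3 : cls (T i) X c₁ = 0 := (T i).cl_rat X c₁ hc₁
  have h4 : (T i).P (2 * i) a (cls (T i) Z z) = 0 := by
    rw [push_cls', hz, cls_sub, hc, h3, sub_self]
  obtain ⟨u, hu⟩ := (hT.bdExact i (2 * i) a j h _).mp h4
  have hu' : bdl hT i (2 * i) a j h u ∈ Module.End.maxGenEigenspace ((T i).frob (2 * i) Z) 1 := by
    have h8 : bdl hT i (2 * i) a j h u = cls (T i) Z z := hu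
    rw [h8]
    exact cls_mem_gen (T i) Z z
  obtain ⟨u', hu1, hu2⟩ := maxGen_lift ((T i).frob (2 * i + 1) U) ((T i).frob (2 * i) Z)
    (bdl hT i (2 * i) a j h) (bdl_frob hT hP i (2 * i) a j h) hu'
  obtain ⟨d⟩ := bd_supp hT hP i a j h u' hu1 (hUs u' hu1)
  have h5 : cls (T i) Z (z - pushCyc d.q d.v) = 0 := by
    rw [cls_sub, ← d.hbd, hu2]
    exact sub_eq_zero.mpr hu.symm
  have h6 := pushCyc_ratZero a _ (hZ _ h5)
  have h7 : pushCyc a (z - pushCyc d.q d.v) = pushCyc a z - pushCyc a (pushCyc d.q d.v) :=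
    (Finsupp.lmapDomain E E (ptsMap i a)).map_sub z _
  have h8 : pushCyc a (pushCyc d.q d.v) ∈ ratZero E i X := by
    have h9 := pushCyc_comp d.q a (d.q.trans a) rfl d.v
    have h10 := pushCyc_comp d.p d.w (d.q.trans a) d.h1 d.v
    rw [h9, ← h10]
    exact pushCyc_ratZero d.w _ d.hv0
  rw [h7] at h6
  have h13 : pushCyc a z ∈ ratZero E i X := by
    have := add_mem h6 h8
    rwa [sub_add_cancel] at this
  rw [hz] at h13
  have := add_mem h13 hc₁
  rwa [sub_add_cancel] at this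

/-! ## Supports -/

/-- Restriction after push-forward, for a cartesian square of closed and open immersions. -/
lemma res_push (hT : Full T) (i n : ℕ) {U' X' U X : Var k} (f : ClosedIn X' X)
    (f' : ClosedIn U' U) (j' : OpenIn U' X') (j : OpenIn U X)
    (h : IsPullback j'.g f'.g f.g j.g) (m : (T i).H n X') :
    (T i).R n j ((T i).P n f m) = (T i).P n f' ((T i).R n j' m) := by
  have h1 := hT.pfRestriction i n (clPr f) (clPr f') j' j h m
  rw [hT.pfClosed i n f (clPr f) rfl, hT.pfClosed i n f' (clPr f') rfl] at h1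
  exact h1

/-- The intersection of a closed and an open subvariety. -/
lemma exists_cart {W X U : Var k} (w : ClosedIn W X) (j : OpenIn U X) :
    ∃ (D : Var k) (o : OpenIn D W) (b : ClosedIn D U), IsPullback o.g b.g w.g j.g := by
  have hw := w.closed
  have hj := j.isOpen
  have h1 : IsOpenImmersion (pullback.fst w.g j.g) := inferInstance
  have h2 : IsClosedImmersion (pullback.snd w.g j.g) := inferInstance
  refine ⟨interVar w j, ⟨pullback.fst w.g j.g, ?_, h1⟩, ⟨pullback.snd w.g j.g, rfl, h2⟩,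
    IsPullback.of_hasPullback w.g j.g⟩
  change pullback.fst w.g j.g ≫ W.f = pullback.snd w.g j.g ≫ U.f
  rw [← w.comm, ← j.comm, ← Category.assoc, ← Category.assoc, pullback.condition]

/-- A closed immersion into a fibre product. -/
lemma lift_closed {V W D U X : Var k} {o : D.X ⟶ W.X} {b : D.X ⟶ U.X} {w : W.X ⟶ X.X}
    {j : U.X ⟶ X.X} (h : IsPullback o b w j) (hD : b ≫ U.f = D.f) (c : V.X ⟶ W.X)
    (e : V.X ⟶ U.X) (he : e ≫ U.f = V.f) [IsClosedImmersion e] [IsSeparated b]
    (hc : c ≫ w = e ≫ j) :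
    ∃ l : ClosedIn V D, l.g ≫ o = c ∧ l.g ≫ b = e := by
  have h1 : IsClosedImmersion (h.lift c e hc ≫ b) := by
    rw [h.lift_snd]
    infer_instance
  refine ⟨⟨h.lift c e hc, ?_, IsClosedImmersion.of_comp (h.lift c e hc) b⟩, h.lift_fst c e hc,
    h.lift_snd c e hc⟩
  rw [← hD, ← Category.assoc, h.lift_snd, he]

theorem supp_glue [PerfectField k] (hT : Full T) (hP : Pub T hT) (i : ℕ) {Z U X : Var k} (a : ClosedIn Z X)
    (j : OpenIn U X) (h : Complementary a j) 
    (hUs : ∀ m ∈ gen1 (T i) U, Supp (T i) (2 * i + 1) (i + 1) U m) (hZ : (T i).InjC Z)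
    (hZs : ∀ m ∈ gen1 (T i) Z, Supp (T i) (2 * i + 1) (i + 1) Z m) :
    ∀ m ∈ gen1 (T i) X, Supp (T i) (2 * i + 1) (i + 1) X m := by
  intro m hm
  have hu : (T i).R (2 * i + 1) j m ∈ gen1 (T i) U :=
    maxGen_map ((T i).frob (2 * i + 1) X) ((T i).frob (2 * i + 1) U) ((T i).res (2 * i + 1) j)
      ((T i).res_frob (2 * i + 1) j) hm
  obtain ⟨d⟩ := bd_supp hT hP i a j h _ hu (hUs _ hu)
  -- the cycle `d.v` is rationally equivalent to zero on a closed subset of `Z`
  have h1 : cls (T i) Z (pushCyc d.q d.v) = 0 := by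
    rw [← d.hbd]
    exact (hP.resExact i (2 * i) a j h _).mpr ⟨m, rfl⟩
  obtain ⟨C, hC, c, hc, hcv⟩ := ratZero_supp Z _ ((injC_iff (T i) Z).1 hZ _ h1)
  -- the closed subvariety `Y = W ∪ C` of `X`
  let e : ClosedIn (closedVar Z C) X := (closedVarIn Z C).trans a
  have hredC := REDI.isReduced_closedVar Z C
  have hredW := d.redW
  let K : Closeds X.X := ran d.w ⊔ ran e
  let Y := closedVar X K
  let y : ClosedIn Y X := closedVarIn X K
  let wY : ClosedIn d.W Y := factorC d.w K fun x => Or.inl ⟨x, rfl⟩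
  let eY : ClosedIn (closedVar Z C) Y := factorC e K fun x => Or.inr ⟨x, rfl⟩
  have hwY : wY.g ≫ y.g = d.w.g := factorC_comp _ _ _
  have heY : eY.g ≫ y.g = e.g := factorC_comp _ _ _
  have hYdim : Y.DimLE (i + 1 : ℕ) := by
    intro x
    have h2 : y.g x ∈ (K : Set X.X) := by
      rw [← range_closedVarIn]
      exact ⟨x, rfl⟩
    have h3 := y.closed
    rw [← dim_map y.g y.comm]
    rcases h2 with ⟨x', hx'⟩ | ⟨x', hx'⟩
    · rw [← hx']
      have := d.w.closed
      rw [dim_map d.w.g d.w.comm]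
      exact d.hW x'
    · rw [← hx']
      have := e.closed
      have h4 := (closedVarIn Z C).closed
      rw [dim_map e.g e.comm, ← dim_map (closedVarIn Z C).g (closedVarIn Z C).comm]
      refine hC _ ?_
      have h5 : (closedVarIn Z C).g x' ∈ (C : Set Z.X) := by
        rw [← range_closedVarIn]
        exact ⟨x', rfl⟩
      exact h5
  -- its open part `D'` and closed part `B'`
  obtain ⟨D', o', b', hD'⟩ := exists_cart y j
  have hya := y.closed
  have haa := a.closed
  have hja := j.isOpen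
  let B' : Var k :=
    { X := pullback y.g a.g
      f := pullback.snd y.g a.g ≫ Z.f
      sep := inferInstance
      lft := inferInstance
      qc := inferInstance }
  have hB' : IsPullback (pullback.fst y.g a.g) (pullback.snd y.g a.g) y.g a.g :=
    IsPullback.of_hasPullback y.g a.g
  have hp1 : IsClosedImmersion (pullback.fst y.g a.g) := inferInstance
  have hp2 : IsClosedImmersion (pullback.snd y.g a.g) := inferInstance
  let p' : ClosedIn B' Y := ⟨pullback.fst y.g a.g, by
    change pullback.fst y.g a.g ≫ Y.f = pullback.snd y.g a.g ≫ Z.f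
    rw [← y.comm, ← a.comm, ← Category.assoc, ← Category.assoc, hB'.w], hp1⟩
  let q' : ClosedIn B' Z := ⟨pullback.snd y.g a.g, rfl, hp2⟩
  have hcomp : Complementary p' o' := by
    have h2 : Set.range p'.g = y.g ⁻¹' Set.range a.g := Scheme.Pullback.range_fst y.g a.g
    have h3 : Set.range o'.g = y.g ⁻¹' Set.range j.g := by
      have h4 := Scheme.Pullback.range_fst y.g j.g
      have h5 : o'.g = hD'.isoPullback.hom ≫ pullback.fst y.g j.g :=
        (hD'.isoPullback_hom_fst).symm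
      rw [← h4, h5]
      ext x
      constructor
      · rintro ⟨z, rfl⟩
        exact ⟨hD'.isoPullback.hom z, by rw [Scheme.Hom.comp_apply]⟩
      · rintro ⟨z, rfl⟩
        refine ⟨hD'.isoPullback.inv z, ?_⟩
        rw [← Scheme.Hom.comp_apply, ← Category.assoc, Iso.inv_hom_id, Category.id_comp]
    rw [Complementary, h2, h3, show Set.range a.g = (Set.range j.g)ᶜ from h]
    rfl
  -- the morphisms to them
  have hbs := d.b.closed
  have hqs := d.q.closed
  have hb's := b'.closed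
  obtain ⟨fU, hfU1, hfU2⟩ := lift_closed hD' b'.comm (d.o.g ≫ wY.g) d.b.g d.b.comm (by
    rw [Category.assoc, hwY]
    exact d.h2)
  obtain ⟨fZ, hfZ1, hfZ2⟩ := lift_closed (D := B') hB' rfl (d.p.g ≫ wY.g) d.q.g d.q.comm (by
    rw [Category.assoc, hwY]
    exact d.h1)
  have hCs := (closedVarIn Z C).closed
  obtain ⟨fC, hfC1, hfC2⟩ := lift_closed (D := B') hB' rfl eY.g (closedVarIn Z C).g
    (closedVarIn Z C).comm heY
  -- the class on `D'`
  let β' := (T i).P (2 * i + 1) fU d.β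
  have hβ' : β' ∈ gen1 (T i) D' :=
    maxGen_map ((T i).frob (2 * i + 1) d.D) ((T i).frob (2 * i + 1) D')
      ((T i).push (2 * i + 1) fU) ((T i).push_frob (2 * i + 1) fU) d.hβ
  have h6 : bdl hT i (2 * i) p' o' hcomp β' = 0 := by
    have h7 := bdl_push hT i (2 * i) d.p d.o d.hc p' o' hcomp fZ fU wY hfZ1.symm hfU1.symm d.β
    rw [← h7, d.hv, push_cls']
    have h8 : pushCyc fZ d.v = pushCyc fC c := by
      apply Finsupp.mapDomain_injective (ptsMap_injective i q')
      change pushCyc q' (pushCyc fZ d.v) = pushCyc q' (pushCyc fC c)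
      rw [pushCyc_comp fZ q' d.q hfZ2, pushCyc_comp fC q' (closedVarIn Z C) hfC2, hcv]
    rw [h8]
    exact (T i).cl_rat _ _ (pushCyc_ratZero fC c hc)
  obtain ⟨γ, hγ⟩ := (hP.resExact i (2 * i) p' o' hcomp β').mp h6
  obtain ⟨γ', hγ', hγ2⟩ := maxGen_lift ((T i).frob (2 * i + 1) Y) ((T i).frob (2 * i + 1) D')
    ((T i).res (2 * i + 1) o') ((T i).res_frob (2 * i + 1) o') (m := γ) (by
      rw [show (T i).res (2 * i + 1) o' γ = β' from hγ]
      exact hβ')
  have hγ3 : (T i).R (2 * i + 1) o' γ' = β' := hγ2.trans hγ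
  -- the difference comes from `Z`
  have h9 : (T i).R (2 * i + 1) j (m - (T i).P (2 * i + 1) y γ') = 0 := by
    have h10 : (T i).R (2 * i + 1) j ((T i).P (2 * i + 1) y γ') = (T i).R (2 * i + 1) j m := by
      rw [res_push hT i (2 * i + 1) y b' o' j hD', hγ3,
        hT.push_comp i (2 * i + 1) _ _ _ fU b' d.b hfU2, d.hu]
    have h11 : (T i).R (2 * i + 1) j (m - (T i).P (2 * i + 1) y γ') =
      (T i).R (2 * i + 1) j m - (T i).R (2 * i + 1) j ((T i).P (2 * i + 1) y γ') :=
        map_sub ((T i).res (2 * i + 1) j) _ _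
    rw [h11, h10, sub_self]
  obtain ⟨z, hz⟩ := ((T i).exact_X (2 * i + 1) a j h _).mp h9
  have h12 : (T i).P (2 * i + 1) y γ' ∈ gen1 (T i) X :=
    maxGen_map ((T i).frob (2 * i + 1) Y) ((T i).frob (2 * i + 1) X)
      ((T i).push (2 * i + 1) y) ((T i).push_frob (2 * i + 1) y) hγ'
  obtain ⟨z', hz', hz2⟩ := maxGen_lift ((T i).frob (2 * i + 1) Z) ((T i).frob (2 * i + 1) X)
    ((T i).push (2 * i + 1) a) ((T i).push_frob (2 * i + 1) a) (m := z) (by
      rw [hz]
      exact sub_mem hm h12)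
  have h13 : m = (T i).P (2 * i + 1) a z' + (T i).P (2 * i + 1) y γ' := by
    have h14 : (T i).P (2 * i + 1) a z' = m - (T i).P (2 * i + 1) y γ' := hz2.trans hz
    rw [h14, sub_add_cancel]
  rw [h13]
  exact supp_add hT.toExtra i _ _ X _ _ (supp_push hT.toExtra i _ _ a z' (hZs z' hz'))
    (supp_mk hT.toExtra i _ _ y hYdim γ')

/-- The class of varieties is closed under glueing. -/
theorem pf_glue [PerfectField k] (hT : Full T) (hP : Pub T hT) (i : ℕ) {Z U X : Var k} (a : ClosedIn Z X)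
    (j : OpenIn U X) (h : Complementary a j) (hZ : PF (T i) Z) (hU : PF (T i) U) :
    PF (T i) X :=
  ⟨(T i).glue a j h hZ.1 hU.1, injC_glue3 hT hP i a j h hU.2.1 hU.2.2 hZ.2.1,
    supp_glue hT hP i a j h hU.2.2 hZ.2.1 hZ.2.2⟩

end QCV
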