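import Pool.Agent.CUB2.H_OPEN
import Pool.Agent.LOWD.Asm
import Pool.Agent.QCV.F_GLU

/-!
# QCV, block F: small dimensions, zero-cycles, noetherian induction
-/

set_option autoImplicit false

open CategoryTheory AlgebraicGeometry Limits Polynomial TopologicalSpace

namespace QCV

open Pool.Agent.Lib_helper55.Beil Pool.Agent.Lib_helper66.OneP CUB

universe v

variable {k : Type} [Field k] {E : Type} [Field E] {T : ∀ i : ℕ, Homology.{v} k E i}

/-! ## F6 -/

theorem q1_of_pf {i : ℕ} (T : Homology.{v} k E i) (X : Var k) (h : PF T X) : Q1 T X :=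
  ⟨(T.inj_iff X).mpr h.2.1, T.surj_of_good X h.1, T.semisimple_of_good X h.1⟩

/-! ## Empty varieties and reduced structures -/

theorem pf_of_isEmpty (hT : Full T) (i : ℕ) (X : Var k) (h : IsEmpty X.X) : PF (T i) X := by
  refine ⟨(T i).good_of_subsingleton X ((T i).empty _ X h), ?_, ?_⟩
  · rw [injC_iff]
    intro c _
    have : c = 0 := by
      ext p
      exact (h.false p.1).elim
    rw [this]
    exact zero_mem _
  · intro m _
    exact supp_of_dimLE hT.toExtra i _ _ X (fun x => (h.false x).elim) m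

theorem pf_of_red [PerfectField k] (hT : Full T) (hP : Pub T hT) (i : ℕ) (X : Var k)
    (h : PF (T i) (redVar X)) : PF (T i) X :=
  pf_glue hT hP i (redVarIn X) (openVarIn X ⊥) (complementary_red X) h
    (pf_of_isEmpty hT i _ (isEmpty_openVar_bot X))

/-- The class is invariant under isomorphisms. -/
theorem pf_viso [PerfectField k] (hT : Full T) (hP : Pub T hT) (i : ℕ) {X Y : Var k}
    (s : VIso X Y) (h : PF (T i) X) : PF (T i) Y := by
  have hc : Complementary s.cl (openVarIn Y ⊥) := by
    rw [Complementary, s.range, range_openVarIn]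
    simp
  exact pf_glue hT hP i s.cl (openVarIn Y ⊥) hc h
    (pf_of_isEmpty hT i _ (isEmpty_openVar_bot Y))

/-! ## Noetherian induction -/

lemma pf_aux [PerfectField k] (hT : Full T) (hP : Pub T hT) (i : ℕ)
    (hN : ∀ (V : Var k) (_ : IsIntegral V.X), IsAffine V.X → Smooth V.f → PF (T i) V)
    (X₀ : Var k) (C : Closeds X₀.X) :
    ∀ (Y : Var k) (g : Y.X ⟶ X₀.X), g ≫ X₀.f = Y.f → IsPreimmersion g → (∀ y, g y ∈ C) →
      PF (T i) Y := by
  induction C using WellFoundedLT.induction with
  | ind C ih =>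
  intro Y g comm hg hC
  apply pf_of_red hT hP
  have hred := isReduced_redVar Y
  have hcl := (redVarIn Y).closed
  set Y' := redVar Y
  set g' : Y'.X ⟶ X₀.X := (redVarIn Y).g ≫ g
  have comm' : g' ≫ X₀.f = Y'.f := by
    rw [Category.assoc, comm, (redVarIn Y).comm]
  have hC' : ∀ y, g' y ∈ C := fun y => hC _
  rcases isEmpty_or_nonempty Y'.X with he | ⟨⟨x⟩⟩
  · exact pf_of_isEmpty hT i _ he
  obtain ⟨η, -, hη⟩ := exists_maximal Y' x
  obtain ⟨U, hU1, -, hU3, hU4, hU5, hU6⟩ := exists_nice Y' η hη ⊤ trivial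
  have hop := (openVarIn Y' U).isOpen
  refine pf_glue hT hP i (closedVarIn Y' U.compl) (openVarIn Y' U) (complementary_open Y' U) ?_
    (hN _ hU5 hU3 hU4)
  have hcl := (closedVarIn Y' U.compl).closed
  refine ih (Closeds.closure (g' '' (U.compl : Set Y'.X)))
    (lt_of_closed g' C hC' U.compl η (fun hcon => hcon hU1))
    (closedVar Y' U.compl) ((closedVarIn Y' U.compl).g ≫ g') ?_ inferInstance ?_
  · rw [Category.assoc, comm', (closedVarIn Y' U.compl).comm]
  · intro y
    have h1 : (closedVarIn Y' U.compl).g y ∈ (U.compl : Set Y'.X) := by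
      rw [← range_closedVarIn]
      exact ⟨y, rfl⟩
    exact subset_closure ⟨_, h1, rfl⟩

/-- It is enough to treat smooth affine integral varieties. -/
theorem pf_ind [PerfectField k] (hT : Full T) (hP : Pub T hT) (i : ℕ)
    (hN : ∀ (V : Var k) (_ : IsIntegral V.X), IsAffine V.X → Smooth V.f → PF (T i) V)
    (X : Var k) : PF (T i) X :=
  pf_aux hT hP i hN X ⊤ X (𝟙 _) (Category.id_comp _) inferInstance (fun _ => trivial)

/-! ## F5 and varieties of dimension at most `i` -/

theorem pf_of_dimLE [PerfectField k] (hT : Full T) (hP : Pub T hT) (i : ℕ) (X : Var k)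
    (h : X.DimLE i) : PF (T i) X := by
  have h1 : X.DimLE (i + 1 : ℕ) := fun x => (h x).trans (by exact_mod_cast Nat.le_succ i)
  exact ⟨good_of_dimLE (T i) X h, ((T i).inj_iff X).mp (hP.divisors i X h1),
    fun m _ => supp_of_dimLE hT.toExtra i _ _ X h1 m⟩

/-- F5. -/
theorem good_inj_of_dimLE [PerfectField k] (hT : Full T) (hP : Pub T hT) (i : ℕ) (X : Var k)
    (h : X.DimLE i) : (T i).gen X ≤ (T i).alg X ∧ (T i).Inj X :=
  ⟨good_of_dimLE (T i) X h, ((T i).inj_iff X).mpr (pf_of_dimLE hT hP i X h).2.1⟩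

/-! ## Zero-cycles -/

/-- Every zero-cycle on an integral affine variety of positive dimension over a finite field is
rationally equivalent to zero (rational coefficients). -/
theorem zero_cycles [Finite k] [CharZero E] (A : Type) [CommRing A] [IsDomain A] [Algebra k A]
    [Algebra.FiniteType k A] (h : 0 < Algebra.trdeg k A) (c : RP k A 0 →₀ E) :
    c ∈ rat k A E 0 := by
  induction c using Finsupp.induction_linear with
  | zero => exact zero_mem _
  | add f g hf hg => exact add_mem hf hg
  | single p e =>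
    have h1 : Finsupp.single p e = e • Finsupp.single p (1 : E) := by
      rw [Finsupp.smul_single, smul_eq_mul, mul_one]
    rw [h1]
    refine Submodule.smul_mem _ _ ?_
    have : IsNoetherianRing A := Algebra.FiniteType.isNoetherianRing k A
    have hp0 : rdim k p.1 = 0 := by
      have := p.2
      simpa using this
    have hlt : (⊥ : Ideal A) < p.1.asIdeal := by
      rw [bot_lt_iff_ne_bot]
      intro hb
      have h2 : p.1 = ⟨⊥, Ideal.isPrime_bot⟩ := PrimeSpectrum.ext hb
      rw [h2, rdim_bot] at hp0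
      rw [hp0] at h
      exact lt_irrefl _ h
    obtain ⟨q, hq⟩ := LOWD.ZER.exists_covBy p.1 ⊥ Ideal.isPrime_bot hlt
    have h1 := LOWD.Asm.c_DIM2 k A q p.1 hq
    rw [hp0, zero_add] at h1
    have h2 : rdim k q = ((1 : ℕ) : Cardinal) := by
      rw [← h1]
      simp
    exact LOWD.Asm.s_CLG k A E ⟨q, h2⟩ p hq.lt.le

/-- F3 for `i = 0`: all varieties. -/
theorem pf_zero [Finite k] [CharZero E] (hT : Full T) (hP : Pub T hT) (X : Var k) :
    PF (T 0) X := by
  refine pf_ind hT hP 0 (fun V hint haff hsm => ?_) X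
  obtain ⟨d, hd⟩ := t_DST.2.1 k V (genericPoint V.X)
  have hdim : V.DimLE d := fun x => by
    rw [← hd]
    exact dim_le_of_specializes V (genericPoint_specializes x)
  rcases Nat.lt_or_ge 1 d with h | h
  · have h0 : Subsingleton ((T 0).H 0 V) := (T 0).artin 0 V hint haff hsm (by
      rw [hd]
      exact_mod_cast (by omega : 0 < d))
    have h1 : Subsingleton ((T 0).H 1 V) := (T 0).artin 1 V hint haff hsm (by
      rw [hd]
      exact_mod_cast h)
    refine ⟨(T 0).good_of_subsingleton V h0, ?_, ?_⟩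
    · obtain ⟨A, _, _, _, ⟨s⟩⟩ := exists_aff V
      refine injC_of_viso (T 0) s.symm ?_
      have hne : Nonempty (aff k A).X := ⟨s.symm.cl.g (genericPoint V.X)⟩
      have hs : IsIntegral (aff k A).X := isIntegral_of_isOpenImmersion s.e.hom
      have hdom : IsDomain A := by
        have h3 : IsIntegral (Spec (.of A)) := hs
        exact (affine_isIntegral_iff (CommRingCat.of A)).mp h3
      have htr : 0 < Algebra.trdeg k A := by
        have hcl := s.symm.cl.closed
        have h4 : rdim k (ofPt (s.symm.cl.g (genericPoint V.X))) = (d : Cardinal) := by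
          rw [← dim_toPt, toPt_ofPt, dim_map s.symm.cl.g s.symm.cl.comm, hd]
        have h5 : rdim k (ofPt (s.symm.cl.g (genericPoint V.X))) ≤
            rdim k (⟨⊥, Ideal.isPrime_bot⟩ : PrimeSpectrum A) := rdim_le bot_le
        rw [h4, rdim_bot] at h5
        refine lt_of_lt_of_le ?_ h5
        exact_mod_cast (by omega : 0 < d)
      rw [injC_iff]
      intro c _
      obtain ⟨c, rfl⟩ := (cyE (k := k) (A := A) E 0).surjective c
      exact (cyE_mem c).mpr (zero_cycles A htr c)
    · intro m _
      have : m = 0 := Subsingleton.elim (α := (T 0).H 1 V) _ _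
      rw [this]
      exact supp_zero _ _ _ _
  · rcases Nat.eq_zero_or_pos d with h' | h'
    · subst h'
      exact pf_of_dimLE hT hP 0 V hdim
    · have h2 : d = 1 := by omega
      subst h2
      have h0 : Subsingleton ((T 0).H 0 V) := (T 0).artin 0 V hint haff hsm (by
        rw [hd]
        exact_mod_cast Nat.one_pos)
      exact ⟨(T 0).good_of_subsingleton V h0, ((T 0).inj_iff V).mp (hP.divisors 0 V hdim),
        fun m _ => supp_of_dimLE hT.toExtra 0 _ _ V hdim m⟩

/-- F3. -/
theorem ppf_of_dimLE_one [Finite k] [CharZero E] (hT : Full T) (hP : Pub T hT) (X : Var k)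
    (h : X.DimLE (1 : ℕ)) : PPF T X := by
  intro i
  rcases Nat.eq_zero_or_pos i with h0 | h0
  · subst h0
    exact pf_zero hT hP X
  · exact pf_of_dimLE hT hP i X fun x => (h x).trans (by exact_mod_cast h0)

/-- F4. -/
theorem ppf_of_dimLE_two [Finite k] [CharZero E] (hT : Full T) (hP : Pub T hT)
    (hTate : ∀ X : Var k, X.DimLE (2 : ℕ) → (T 1).Surj X ∧ (T 1).Semisimple X) (X : Var k)
    (h : X.DimLE (2 : ℕ)) : PPF T X := by
  intro i
  rcases Nat.lt_or_ge 1 i with h1 | h1
  · exact pf_of_dimLE hT hP i X fun x => (h x).trans (by exact_mod_cast h1)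
  rcases Nat.eq_zero_or_pos i with h0 | h0
  · subst h0
    exact pf_zero hT hP X
  · have h2 : i = 1 := by omega
    subst h2
    exact ⟨CUB.OPEN.good (T 1) X (hTate X h).1 (hTate X h).2,
      ((T 1).inj_iff X).mp (hP.divisors 1 X h), fun m _ => supp_of_dimLE hT.toExtra 1 _ _ X h m⟩

end QCV
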