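import Pool.Agent.QCV.F_GLU
import Pool.Agent.Lib_helper66.OneP.Main

/-!
# QCV, block F: the class of varieties is closed under open complements
-/

set_option autoImplicit false

open CategoryTheory AlgebraicGeometry Limits Polynomial TopologicalSpace

namespace QCV

open Pool.Agent.Lib_helper55.Beil Pool.Agent.Lib_helper66.OneP CUB

universe v

variable {k : Type} [Field k] {E : Type} [Field E] {T : ∀ i : ℕ, Homology.{v} k E i}

lemma dimLE_open {U X : Var k} (j : OpenIn U X) {d : ℕ} (h : X.DimLE d) : U.DimLE d := by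
  intro x
  have := j.isOpen
  rw [← dim_map j.g j.comm]
  exact h _

lemma dimLE_of_mem {X : Var k} {e : ℕ} (C : Closeds X.X) (hC : ∀ x ∈ C, X.dim x ≤ e) :
    (closedVar X C).DimLE e := by
  intro x
  have h1 : (closedVarIn X C).g x ∈ (C : Set X.X) := by
    rw [← range_closedVarIn]
    exact ⟨x, rfl⟩
  have := (closedVarIn X C).closed
  rw [← dim_map (closedVarIn X C).g (closedVarIn X C).comm]
  exact hC _ h1

/-- Restriction to an open subvariety. -/
lemma supp_res (hT : Full T) (i n e : ℕ) {U X : Var k} (j : OpenIn U X) (m : (T i).H n X)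
    (h : Supp (T i) n e X m) : Supp (T i) n e U ((T i).R n j m) := by
  obtain ⟨C, hC, b, rfl⟩ := h
  obtain ⟨D, o, b', hD⟩ := exists_cart (closedVarIn X C) j
  rw [res_push hT i n _ b' o j hD]
  exact supp_mk hT.toExtra i n e b' (dimLE_open o (dimLE_of_mem C hC)) _

/-- The open and the closed part of a closed subvariety. -/
lemma exists_parts {Z U X Y : Var k} (a : ClosedIn Z X) (j : OpenIn U X) (h : Complementary a j)
    (y : ClosedIn Y X) : ∃ (D B : Var k) (o : OpenIn D Y) (b : ClosedIn D U) (p : ClosedIn B Y)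
      (q : ClosedIn B Z), IsPullback o.g b.g y.g j.g ∧ IsPullback p.g q.g y.g a.g ∧
      Complementary p o := by
  obtain ⟨D', o', b', hD'⟩ := exists_cart y j
  have hya := y.closed
  have haa := a.closed
  have hja := j.isOpen
  let B' : Var k :=
    { X := pullback y.g a.g
      f := pullback.snd y.g a.g ≫ Z.f
      sep := inferInstance
      lft := inferInstance
      qc := inferInstance }
  have hB' : IsPullback (pullback.fst y.g a.g) (pullback.snd y.g a.g) y.g a.g :=
    IsPullback.of_hasPullback y.g a.g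
  have hp1 : IsClosedImmersion (pullback.fst y.g a.g) := inferInstance
  have hp2 : IsClosedImmersion (pullback.snd y.g a.g) := inferInstance
  let p' : ClosedIn B' Y := ⟨pullback.fst y.g a.g, by
    change pullback.fst y.g a.g ≫ Y.f = pullback.snd y.g a.g ≫ Z.f
    rw [← y.comm, ← a.comm, ← Category.assoc, ← Category.assoc, hB'.w], hp1⟩
  let q' : ClosedIn B' Z := ⟨pullback.snd y.g a.g, rfl, hp2⟩
  refine ⟨D', B', o', b', p', q', hD', hB', ?_⟩
  have h2 : Set.range p'.g = y.g ⁻¹' Set.range a.g := Scheme.Pullback.range_fst y.g a.g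
  have h3 : Set.range o'.g = y.g ⁻¹' Set.range j.g := by
    have h4 := Scheme.Pullback.range_fst y.g j.g
    have h5 : o'.g = hD'.isoPullback.hom ≫ pullback.fst y.g j.g :=
      (hD'.isoPullback_hom_fst).symm
    rw [← h4, h5]
    ext x
    constructor
    · rintro ⟨z, rfl⟩
      exact ⟨hD'.isoPullback.hom z, by rw [Scheme.Hom.comp_apply]⟩
    · rintro ⟨z, rfl⟩
      refine ⟨hD'.isoPullback.inv z, ?_⟩
      rw [← Scheme.Hom.comp_apply, ← Category.assoc, Iso.inv_hom_id, Category.id_comp]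
  rw [Complementary, h2, h3, show Set.range a.g = (Set.range j.g)ᶜ from h]
  rfl

lemma pushCyc_injective {i : ℕ} {Z X : Var k} (a : ClosedIn Z X) :
    Function.Injective (pushCyc (i := i) (E := E) a) :=
  Finsupp.mapDomain_injective (ptsMap_injective i a)

/-- A cycle which is supported on both of two closed subvarieties. -/
lemma exists_common {i : ℕ} {Z U X Y D B : Var k} (a : ClosedIn Z X) (j : OpenIn U X)
    (h : Complementary a j) (y : ClosedIn Y X) (o : OpenIn D Y) (b : ClosedIn D U)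
    (p : ClosedIn B Y) (q : ClosedIn B Z) (hD : o.g ≫ y.g = b.g ≫ j.g)
    (hB : p.g ≫ y.g = q.g ≫ a.g) (hc : Complementary p o) (c : Pts i Y →₀ E)
    (w : Pts i Z →₀ E) (hcw : pushCyc y c = pushCyc a w) :
    ∃ z : Pts i B →₀ E, pushCyc p z = c ∧ pushCyc q z = w := by
  have h1 : resCyc o c = 0 := by
    ext u
    rw [resCyc_apply, Finsupp.coe_zero, Pi.zero_apply]
    have h2 : pushCyc y c (ptsMap i y (ptsMapO i o u)) = c (ptsMapO i o u) :=
      Finsupp.mapDomain_apply (ptsMap_injective i y) _ _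
    rw [← h2, hcw]
    apply Finsupp.mapDomain_of_notMem_range
    rintro ⟨z, hz⟩
    have h3 : a.g z.1 = y.g (o.g u.1) := congrArg Subtype.val hz
    have h4 : a.g z.1 ∈ Set.range a.g := ⟨_, rfl⟩
    rw [h3, show Set.range a.g = (Set.range j.g)ᶜ from h] at h4
    refine h4 ⟨b.g u.1, ?_⟩
    rw [← Scheme.Hom.comp_apply, ← Scheme.Hom.comp_apply, hD]
  obtain ⟨z, hz⟩ := exists_pushCyc p o hc c h1
  refine ⟨z, hz, ?_⟩
  apply pushCyc_injective a
  rw [← hcw, ← hz, pushCyc_comp q a (q.trans a) rfl, pushCyc_comp p y (q.trans a) hB]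

/-- Injectivity for an open subvariety. -/
lemma injC_open2 {i : ℕ} (T : Homology.{v} k E i) {Z U X : Var k} (a : ClosedIn Z X)
    (j : OpenIn U X) (h : Complementary a j) (hZ : T.gen Z ≤ T.alg Z) (hX : T.InjC X) :
    T.InjC U := by
  rw [injC_iff] at hX ⊢
  intro c hc
  obtain ⟨c', rfl⟩ := exists_resCyc j c
  have h1 : T.res (2 * i) j (cls T X c') = 0 := by rw [res_cls, hc]
  obtain ⟨z, hz⟩ := (T.exact_X (2 * i) a j h _).mp h1
  obtain ⟨z', hz', h3⟩ := maxGen_lift (T.frob (2 * i) Z) (T.frob (2 * i) X) (T.push (2 * i) a)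
    (T.push_frob (2 * i) a) (m := z) (by rw [hz]; exact cls_mem_gen T X c')
  obtain ⟨d, hd⟩ := exists_cls T Z z' (hZ hz')
  have h4 : cls T X (c' - pushCyc a d) = 0 := by
    rw [cls_sub, ← push_cls, hd, h3, hz, sub_self]
  have h5 := resCyc_ratZero j _ (hX _ h4)
  rwa [map_sub, resCyc_pushCyc a j h, sub_zero] at h5

/-- The generalised eigenspace in degree `2 i` for an open subvariety. -/
lemma good_open (hT : Full T) (hP : Pub T hT) (i : ℕ) {Z U X : Var k} (a : ClosedIn Z X) (j : OpenIn U X)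
    (h : Complementary a j) (hX : (T (i + 1)).gen X ≤ (T (i + 1)).alg X) :
    (T (i + 1)).gen U ≤ (T (i + 1)).alg U := by
  intro m hm
  have h1 : bdl hT (i + 1) (2 * i + 1) a j h m = 0 := by
    apply maxGen_eq_bot ((T (i + 1)).frob (2 * i + 1) Z)
      (fun z hz => hP.weights (i + 1) (2 * i + 1) (by omega) Z z hz)
    exact maxGen_map ((T (i + 1)).frob (2 * i + 1 + 1) U) ((T (i + 1)).frob (2 * i + 1) Z)
      (bdl hT (i + 1) (2 * i + 1) a j h) (bdl_frob hT hP (i + 1) (2 * i + 1) a j h) hm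
  obtain ⟨x, hx⟩ := (hP.resExact (i + 1) (2 * i + 1) a j h m).mp h1
  obtain ⟨x', hx', h2⟩ := maxGen_lift ((T (i + 1)).frob (2 * (i + 1)) X)
    ((T (i + 1)).frob (2 * (i + 1)) U) ((T (i + 1)).res (2 * (i + 1)) j)
    ((T (i + 1)).res_frob (2 * (i + 1)) j) (m := x) (by
      rw [show (T (i + 1)).res (2 * (i + 1)) j x = m from hx]
      exact hm)
  rw [← show (T (i + 1)).res (2 * (i + 1)) j x' = m from h2.trans hx]
  exact res_alg (T (i + 1)) j (hX hx')

/-- Supports for an open subvariety. -/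
theorem supp_open (hT : Full T) (hP : Pub T hT) (i : ℕ) {Z U X : Var k} (a : ClosedIn Z X) (j : OpenIn U X)
    (h : Complementary a j) (hZ : (T i).gen Z ≤ (T i).alg Z) (hX : (T i).InjC X)
    (hXs : ∀ m ∈ gen1 (T i) X, Supp (T i) (2 * i + 1) (i + 1) X m) :
    ∀ m ∈ gen1 (T i) U, Supp (T i) (2 * i + 1) (i + 1) U m := by
  intro m hm
  have h1 : bdl hT i (2 * i) a j h m ∈ (T i).gen Z :=
    maxGen_map ((T i).frob (2 * i + 1) U) ((T i).frob (2 * i) Z) (bdl hT i (2 * i) a j h)
      (bdl_frob hT hP i (2 * i) a j h) hm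
  obtain ⟨w, hw⟩ := exists_cls (T i) Z _ (hZ h1)
  have h2 : cls (T i) X (pushCyc a w) = 0 := by
    rw [← push_cls', hw]
    exact (hT.bdExact i (2 * i) a j h _).mpr ⟨m, rfl⟩
  obtain ⟨C, hC, c, hc, hcw⟩ := ratZero_supp X _ ((injC_iff (T i) X).1 hX _ h2)
  obtain ⟨D, B, o, b, p, q, hD, hB, hcomp⟩ := exists_parts a j h (closedVarIn X C)
  obtain ⟨z, hz1, hz2⟩ := exists_common a j h (closedVarIn X C) o b p q hD.w hB.w hcomp c w hcw
  have h3 : (T i).P (2 * i) p (cls (T i) B z) = 0 := by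
    rw [push_cls', hz1]
    exact (T i).cl_rat _ _ hc
  obtain ⟨β, hβ⟩ := (hT.bdExact i (2 * i) p o hcomp _).mp h3
  obtain ⟨β', hβ', hβ2⟩ := maxGen_lift ((T i).frob (2 * i + 1) D) ((T i).frob (2 * i) B)
    (bdl hT i (2 * i) p o hcomp) (bdl_frob hT hP i (2 * i) p o hcomp) (m := β) (by
      rw [show bdl hT i (2 * i) p o hcomp β = cls (T i) B z from hβ]
      exact cls_mem_gen (T i) B z)
  have hβ3 : bdl hT i (2 * i) p o hcomp β' = cls (T i) B z := hβ2.trans hβ
  have h4 := bdl_push hT i (2 * i) p o hcomp a j h q b (closedVarIn X C) hB.w hD.w β'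
  rw [hβ3, push_cls', hz2, hw] at h4
  have h5 : bdl hT i (2 * i) a j h (m - (T i).P (2 * i + 1) b β') = 0 := by
    rw [map_sub, ← h4, sub_self]
  obtain ⟨x, hx⟩ := (hP.resExact i (2 * i) a j h _).mp h5
  have h6 : (T i).P (2 * i + 1) b β' ∈ gen1 (T i) U :=
    maxGen_map ((T i).frob (2 * i + 1) D) ((T i).frob (2 * i + 1) U)
      ((T i).push (2 * i + 1) b) ((T i).push_frob (2 * i + 1) b) hβ'
  obtain ⟨x', hx', hx2⟩ := maxGen_lift ((T i).frob (2 * i + 1) X) ((T i).frob (2 * i + 1) U)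
    ((T i).res (2 * i + 1) j) ((T i).res_frob (2 * i + 1) j) (m := x) (by
      rw [show (T i).res (2 * i + 1) j x = _ from hx]
      exact sub_mem hm h6)
  have h7 : (T i).R (2 * i + 1) j x' = m - (T i).P (2 * i + 1) b β' := hx2.trans hx
  have h8 : m = (T i).R (2 * i + 1) j x' + (T i).P (2 * i + 1) b β' := by
    rw [h7, sub_add_cancel]
  rw [h8]
  exact supp_add hT.toExtra i _ _ U _ _ (supp_res hT i _ _ j x' (hXs x' hx'))
    (supp_mk hT.toExtra i _ _ b (dimLE_open o (dimLE_of_mem C hC)) β')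

/-- The class of varieties is closed under open complements (cycles of positive dimension). -/
theorem pf_open (hT : Full T) (hP : Pub T hT) (i : ℕ) {Z U X : Var k} (a : ClosedIn Z X) (j : OpenIn U X)
    (h : Complementary a j) (hX : PF (T (i + 1)) X) (hZ : PF (T (i + 1)) Z) :
    PF (T (i + 1)) U :=
  ⟨good_open hT hP i a j h hX.1, injC_open2 (T (i + 1)) a j h hZ.1 hX.2.1,
    supp_open hT hP (i + 1) a j h hZ.1 hX.2.1 hX.2.2⟩

end QCV
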