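import Pool.Agent.QCV.Defs2
import Pool.Agent.QCV.F_BAS
import Pool.Agent.QCV.F_OPE

/-!
# QCV, block F: rings
-/

set_option autoImplicit false

open CategoryTheory AlgebraicGeometry Limits Polynomial TopologicalSpace

namespace QCV

open Pool.Agent.Lib_helper55.Beil Pool.Agent.Lib_helper66.OneP CUB

universe v

variable {k : Type} [Field k] {E : Type} [Field E] {T : ∀ i : ℕ, Homology.{v} k E i}

/-- The two formulations of the property agree. -/
theorem pi_iff (hT : Extra T) (i : ℕ) (X : Var k) : PI (T i) X ↔ PF (T i) X := by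
  constructor
  · rintro ⟨h1, h2, h3⟩
    refine ⟨h1, ((T i).inj_iff X).mp h2, fun m hm => ?_⟩
    obtain ⟨W, hW, a, hdim, w, rfl⟩ := h3 m hm
    exact supp_mk hT i _ _ a hdim w
  · rintro ⟨h1, h2, h3⟩
    refine ⟨h1, ((T i).inj_iff X).mpr h2, fun m hm => ?_⟩
    obtain ⟨C, hC, b, rfl⟩ := h3 m hm
    exact ⟨closedVar X C, REDI.isReduced_closedVar X C, closedVarIn X C, dimLE_of_mem C hC, b, rfl⟩

theorem pp_iff (hT : Extra T) (X : Var k) : PP T X ↔ PPF T X :=
  ⟨fun h i => (pi_iff hT i X).mp (h i), fun h i => (pi_iff hT i X).mpr (h i)⟩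

lemma isEmpty_aff (A : Type) [CommRing A] [Algebra k A] [Algebra.FiniteType k A]
    (h : Subsingleton A) : IsEmpty (aff k A).X := by
  have : IsEmpty (PrimeSpectrum A) := inferInstance
  exact this

theorem cls0_pf [Finite k] [CharZero E] (hT : Full T) (hP : Pub T hT) (i : ℕ) :
    Cls0 k (fun A [CommRing A] [Algebra k A] [Algebra.FiniteType k A] => PF (T i) (aff k A)) where
  iso := fun e h => pf_viso hT hP i (viso e.symm) h
  triv := fun A _ _ _ h => pf_of_isEmpty hT i _ (isEmpty_aff A h)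
  glue := fun a z u s hZ hU => pf_glue hT hP i _ _
    (complementary_away u a s.away z s.surj s.ker) hZ hU
  opn := fun a z u s hA hZ => by
    rcases i with _ | i
    · exact pf_zero hT hP _
    · exact pf_open hT hP i _ _ (complementary_away u a s.away z s.surj s.ker) hA hZ

/-- F1. -/
theorem cls0_pi [Finite k] [CharZero E] (hT : Full T) (hP : Pub T hT) (i : ℕ) :
    Cls0 k (fun A [CommRing A] [Algebra k A] [Algebra.FiniteType k A] => PI (T i) (aff k A)) := by
  have h := cls0_pf hT hP i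
  simp only [pi_iff hT.toExtra]
  exact h

theorem cls0_ppf [Finite k] [CharZero E] (hT : Full T) (hP : Pub T hT) :
    Cls0 k (fun A [CommRing A] [Algebra k A] [Algebra.FiniteType k A] => PPF T (aff k A)) where
  iso := fun e h i => (cls0_pf hT hP i).iso e (h i)
  triv := fun A _ _ _ h i => (cls0_pf hT hP i).triv A h
  glue := fun a z u s hZ hU i => (cls0_pf hT hP i).glue a z u s (hZ i) (hU i)
  opn := fun a z u s hA hZ i => (cls0_pf hT hP i).opn a z u s (hA i) (hZ i)

/-- The dimension of `Spec A`. -/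
lemma dimLE_of_DL {A : Type} [CommRing A] [Algebra k A] [Algebra.FiniteType k A] {d : ℕ}
    (h : DL k A d) : (aff k A).DimLE d := by
  intro x
  have h1 := h (ofPt x)
  rwa [← dim_toPt, toPt_ofPt] at h1

/-- F3. -/
theorem pp_of_dimLE_one [Finite k] [CharZero E] (hT : Full T) (hP : Pub T hT) (X : Var k)
    (h : X.DimLE (1 : ℕ)) : PP T X :=
  (pp_iff hT.toExtra X).mpr (ppf_of_dimLE_one hT hP X h)

/-- F4. -/
theorem pp_of_dimLE_two [Finite k] [CharZero E] (hT : Full T) (hP : Pub T hT)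
    (hTate : ∀ X : Var k, X.DimLE (2 : ℕ) → (T 1).Surj X ∧ (T 1).Semisimple X) (X : Var k)
    (h : X.DimLE (2 : ℕ)) : PP T X :=
  (pp_iff hT.toExtra X).mpr (ppf_of_dimLE_two hT hP hTate X h)

/-- F6. -/
theorem q1_of_pi {i : ℕ} (T : Homology.{v} k E i) (X : Var k) (h : PI T X) : Q1 T X :=
  ⟨h.inj, T.surj_of_good X h.gg, T.semisimple_of_good X h.gg⟩

end QCV
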