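import Pool.Agent.CUB.Asm
import Pool.Agent.QCV.F_RNG

/-!
# QCV, block F: products with the affine line
-/

set_option autoImplicit false

open CategoryTheory AlgebraicGeometry Limits Polynomial TopologicalSpace

namespace QCV

open Pool.Agent.Lib_helper55.Beil Pool.Agent.Lib_helper66.OneP CUB

universe v

variable {k : Type} [Field k] {E : Type} [Field E] {T : ∀ i : ℕ, Homology.{v} k E i}

/-- The restriction of a line to an open subvariety. -/
lemma exists_lineRes {Y X V : Var k} (L : Line Y X) (j : OpenIn V X) :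
    ∃ (Y' : Var k) (L' : Line Y' V) (l : OpenIn Y' Y), l.g ≫ L.q = L'.q ≫ j.g ∧
      Set.range l.g = L.q ⁻¹' Set.range j.g := by
  have hj := j.isOpen
  have e1 : LocallyOfFiniteType (L.q ≫ X.f) := by
    rw [L.comm]
    infer_instance
  have e2 : QuasiCompact (L.q ≫ X.f) := by
    rw [L.comm]
    infer_instance
  have e3 : IsSeparated (L.q ≫ X.f) := by
    rw [L.comm]
    infer_instance
  have h1 : LocallyOfFiniteType L.q := locallyOfFiniteType_of_comp L.q X.f
  have h2 : QuasiCompact L.q := QuasiCompact.of_comp L.q X.f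
  have h3 : IsSeparated L.q := IsSeparated.of_comp L.q X.f
  have hP : IsPullback (pullback.fst L.q j.g) (pullback.snd L.q j.g) L.q j.g :=
    IsPullback.of_hasPullback L.q j.g
  let Y' : Var k :=
    { X := pullback L.q j.g
      f := pullback.snd L.q j.g ≫ V.f
      sep := inferInstance
      lft := inferInstance
      qc := inferInstance }
  have hc : pullback.fst L.q j.g ≫ Y.f = pullback.snd L.q j.g ≫ V.f := by
    rw [← L.comm, ← Category.assoc, hP.w, Category.assoc, j.comm]
  have h5 : IsOpenImmersion (pullback.fst L.q j.g) := inferInstance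
  let l : OpenIn Y' Y := ⟨pullback.fst L.q j.g, hc, h5⟩
  let L' : Line Y' V :=
    { q := pullback.snd L.q j.g
      t := pullback.fst L.q j.g ≫ L.t
      comm := rfl
      prod := by
        have h4 := (hP.paste_horiz L.prod.flip).flip
        rw [j.comm] at h4
        exact h4 }
  exact ⟨Y', L', l, hP.w, Scheme.Pullback.range_fst L.q j.g⟩

/-- Supports for a product with the affine line. -/
theorem supp_line (hT : Full T) (hP : Pub T hT) (i : ℕ) {Y X : Var k} (L : Line Y X)
    (hdim : ∀ y, Y.dim y ≤ X.dim (L.q y) + 1)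
    (hX : ∀ m ∈ gen1 (T i) X, Supp (T i) (2 * i + 1) (i + 1) X m) :
    ∀ m ∈ gen1 (T (i + 1)) Y, Supp (T (i + 1)) (2 * (i + 1) + 1) (i + 1 + 1) Y m := by
  intro m hm
  obtain ⟨x, hx⟩ := (hT.line_bij i (2 * i + 1) L).surjective m
  obtain ⟨x', hx', hx2⟩ := maxGen_lift ((T i).frob (2 * i + 1) X)
    ((T (i + 1)).frob (2 * (i + 1) + 1) Y) (hT.line i (2 * i + 1) L)
    (hT.line_frob i (2 * i + 1) L) (m := x) (by
      rw [show hT.line i (2 * i + 1) L x = m from hx]
      exact hm)
  have hx3 : hT.line i (2 * i + 1) L x' = m := hx2.trans hx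
  obtain ⟨C, hC, b, hb⟩ := hX x' hx'
  let j : OpenIn (openVar X C.compl) X := openVarIn X C.compl
  have hc : Complementary (closedVarIn X C) j := by
    rw [Complementary, range_closedVarIn, range_openVarIn]
    simp
  have h1 : (T i).R (2 * i + 1) j x' = 0 := by
    rw [← hb]
    exact ((T i).exact_X (2 * i + 1) _ j hc).apply_apply_eq_zero b
  obtain ⟨Y', L', l, h2, h3⟩ := exists_lineRes L j
  have h4 : (T (i + 1)).R (2 * i + 1 + 2) l (hT.line i (2 * i + 1) L x') =
      hT.line i (2 * i + 1) L' ((T i).R (2 * i + 1) j x') :=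
    hP.lineRes i (2 * i + 1) L L' l j h2 x'
  rw [h1, map_zero, hx3] at h4
  let C' : Closeds Y.X := C.preimage L.q.continuous
  have hc' : Complementary (closedVarIn Y C') l := by
    rw [Complementary, range_closedVarIn, h3, range_openVarIn]
    ext y
    simp [C']
  obtain ⟨z, hz⟩ := ((T (i + 1)).exact_X (2 * i + 1 + 2) (closedVarIn Y C') l hc' m).mp h4
  refine ⟨C', ?_, z, hz⟩
  intro y hy
  have h5 : X.dim (L.q y) ≤ (i + 1 : ℕ) := hC _ hy
  calc Y.dim y ≤ X.dim (L.q y) + 1 := hdim y
    _ ≤ (i + 1 : ℕ) + 1 := by gcongr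
    _ = ((i + 1 + 1 : ℕ) : Cardinal) := by push_cast; ring

theorem inj_line (hT : Extra T) (i : ℕ) (A : Type) [CommRing A] [Algebra k A]
    [Algebra.FiniteType k A] (h : (T i).Inj (aff k A)) : (T (i + 1)).Inj (aff k A[X]) := by
  rw [inj_iff_cls] at h ⊢
  intro c hc
  obtain ⟨v, d, h1, h2⟩ := (CUB.Asm.s_L0 k A E).1 i c
  have h3 : CUB.cls T (i + 1) d = 0 := by
    have := cls_rat T (i + 1) (c - d) h2
    rw [map_sub, hc, zero_sub, neg_eq_zero] at this
    exact this
  have h4 := line_cls T hT (CC k A) (RingEquiv.refl _) (fun _ => rfl) v d h1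
  have h5 : CUB.cls T i v = 0 := (hT.line_bij i (2 * i) _).injective (by
    rw [map_zero]
    exact h4.trans h3)
  have h7 : d ∈ rat k A[X] E (i + 1) := by
    have := CUB.Asm.s_FP k A A[X] E 1 i (CC k A) (CUB.Asm.s_GX.1 k A) ⊥ v d h1 (h v h5)
    rwa [Ideal.map_bot] at this
  have := add_mem h2 h7
  rwa [sub_add_cancel] at this

theorem good_line (hT : Extra T) (i : ℕ) (A : Type) [CommRing A] [Algebra k A]
    [Algebra.FiniteType k A] (h : (T i).gen (aff k A) ≤ (T i).alg (aff k A)) :
    (T (i + 1)).gen (aff k A[X]) ≤ (T (i + 1)).alg (aff k A[X]) := by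
  intro m hm
  let L : Line (aff k A[X]) (aff k A) := lineE (CC k A) (RingEquiv.refl _) (fun _ => rfl)
  obtain ⟨x, hx⟩ := (hT.line_bij i (2 * i) L).surjective m
  obtain ⟨x', hx', hx2⟩ := maxGen_lift ((T i).frob (2 * i) (aff k A))
    ((T (i + 1)).frob (2 * (i + 1)) (aff k A[X])) (hT.line i (2 * i) L)
    (hT.line_frob i (2 * i) L) (m := x) (by
      rw [show hT.line i (2 * i) L x = m from hx]
      exact hm)
  have hx3 : hT.line i (2 * i) L x' = m := hx2.trans hx
  obtain ⟨c, hc⟩ := exists_cls (T i) _ x' (h hx')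
  obtain ⟨c, rfl⟩ := (cyE (k := k) (A := A) E i).surjective c
  have h2 := line_cls T hT (CC k A) (RingEquiv.refl _) (fun _ => rfl) c _
    ((isPull_line_iff (CC k A) (RingEquiv.refl _) (fun _ => rfl) c _).mpr rfl)
  have h3 : m = CUB.cls T (i + 1) (Finsupp.mapDomain (lineP (CC k A) (RingEquiv.refl _)
      (fun _ => rfl)) c) := by
    rw [← hx3, ← hc]
    exact h2
  rw [h3]
  exact (T (i + 1)).linComb_mem_alg _ _

/-- The class is closed under products with the affine line. -/
theorem pf_line (hT : Full T) (hP : Pub T hT) (i : ℕ) (A : Type) [CommRing A] [Algebra k A]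
    [Algebra.FiniteType k A] (h : PF (T i) (aff k A)) : PF (T (i + 1)) (aff k A[X]) := by
  refine ⟨good_line hT.toExtra i A h.1, ((T (i + 1)).inj_iff _).mp
    (inj_line hT.toExtra i A (((T i).inj_iff _).mpr h.2.1)), ?_⟩
  refine supp_line hT hP i (lineE (CC k A) (RingEquiv.refl _) (fun _ => rfl)) ?_ h.2.2
  intro y
  have h1 := ((CUB.Asm.s_GX.1 k A).at' (ofPt y)).1
  have h2 := dim_toPt (k := k) (ofPt y)
  have h3 := dim_toPt (k := k) (PrimeSpectrum.comap (CC k A).toRingHom (ofPt y))
  have h4 : (aff k A[X]).dim y ≤ (aff k A).dim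
      (toPt (PrimeSpectrum.comap (CC k A).toRingHom (ofPt y))) + 1 := by
    have h5 : (aff k A[X]).dim y = rdim k (ofPt y) := h2
    rw [h5, h3]
    have h6 := h1
    rw [Nat.cast_one] at h6
    exact h6
  exact h4

theorem ppf_line [Finite k] [CharZero E] (hT : Full T) (hP : Pub T hT) (A : Type) [CommRing A]
    [Algebra k A] [Algebra.FiniteType k A] (h : PPF T (aff k A)) : PPF T (aff k A[X]) := by
  intro i
  rcases i with _ | i
  · exact pf_zero hT hP _
  · exact pf_line hT hP i A (h i)

end QCV
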