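import Pool.Agent.CUB2.Asm2
import Pool.Agent.QCV.F_LIN

/-!
# QCV, block F: descent along double covers
-/

set_option autoImplicit false

open CategoryTheory AlgebraicGeometry Limits Polynomial TopologicalSpace

namespace QCV

open Pool.Agent.Lib_helper55.Beil Pool.Agent.Lib_helper66.OneP CUB

universe v

variable {k : Type} [Field k] {E : Type} [Field E] {T : ∀ i : ℕ, Homology.{v} k E i}

/-! ## Dimensions -/

section

variable {A : Type} [CommRing A] [Algebra k A] (b c : A)

lemma finOn_drHom : LOWD.FinOn (drHom b c k) ⊤ := by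
  intro h _
  obtain ⟨M, hM⟩ := (inferInstance : Module.Finite A (Dr A b c)).fg_top
  refine ⟨M, fun x => ?_⟩
  have hx : x ∈ Submodule.span A (M : Set (Dr A b c)) := by
    rw [hM]
    trivial
  rw [Submodule.mem_span_finset] at hx
  obtain ⟨f, _, hf⟩ := hx
  refine ⟨0, f, ?_⟩
  rw [pow_zero, one_mul, ← hf]
  refine Finset.sum_congr rfl fun m _ => ?_
  exact Algebra.smul_def _ _

lemma rdim_drHom (q : PrimeSpectrum (Dr A b c)) :
    rdim k (PrimeSpectrum.comap (drHom b c k).toRingHom q) = rdim k q := by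
  refine (LOWD.Asm.s_FLD k A _ (drHom b c k) ⊤ (finOn_drHom b c) q ?_).2.2.1
  intro h
  exact (PrimeSpectrum.comap (drHom b c k).toRingHom q).2.ne_top (top_le_iff.mp h)

variable [Algebra.FiniteType k A]

lemma dim_dbl (y : (aff k (Dr A b c)).X) :
    (aff k A).dim ((dbl b c k).g y) = (aff k (Dr A b c)).dim y := by
  have h1 := dim_toPt (k := k) (ofPt y)
  have h2 := dim_toPt (k := k) (PrimeSpectrum.comap (drHom b c k).toRingHom (ofPt y))
  rw [rdim_drHom] at h2
  exact h2.trans h1.symm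

end

/-! ## The generalised eigenspace in degree `2 i` -/

theorem good_dbl [CharZero E] (hT : Full T) (S : DblMaps T) (hF : S.Frobenius)
    (hD : S.Degree hT.toProperMaps) (i : ℕ) (A : Type) [CommRing A] [Algebra k A]
    [Algebra.FiniteType k A] (b c : A)
    (h : (T i).gen (aff k (Dr A b c)) ≤ (T i).alg (aff k (Dr A b c))) :
    (T i).gen (aff k A) ≤ (T i).alg (aff k A) := by
  intro m hm
  have h1 : S.pb i (2 * i) A b c m ∈ (T i).gen (aff k (Dr A b c)) :=
    maxGen_map ((T i).frob (2 * i) (aff k A)) ((T i).frob (2 * i) (aff k (Dr A b c)))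
      (S.pb i (2 * i) A b c) (hF i (2 * i) A b c) hm
  obtain ⟨z, hz⟩ := exists_cls (T i) _ _ (h h1)
  have h2 := (CUB.Asm2.s_PFC.{v}).2.2.2.1 k E T hT i _ _ (dbl b c k) z
  have h3 : hT.G i (2 * i) (dbl b c k) (clz (T i) _ z) = (2 : E) • m := by
    have h4 := hD i (2 * i) A b c m
    have h5 : clz (T i) _ z = S.D i (2 * i) A b c m := hz
    rw [h5]
    exact h4
  rw [h3] at h2
  have h6 : m = (2 : E)⁻¹ • clz (T i) _ (pfc E i (dbl b c k) z) := by
    rw [h2, smul_smul, inv_mul_cancel₀ (two_ne_zero), one_smul]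
  rw [h6]
  exact Submodule.smul_mem _ _ ((T i).linComb_mem_alg _ _)

/-! ## Injectivity -/

lemma exists_dbl (S : DblMaps T) (hC : S.Classes) (i : ℕ) (A : Type) [CommRing A] [Algebra k A]
    [Algebra.FiniteType k A] (b c : A) (x : Pts i (aff k A) →₀ E) :
    ∃ z : Pts i (aff k (Dr A b c)) →₀ E,
      clz (T i) _ z = S.pb i (2 * i) A b c (clz (T i) _ x) ∧
        pfc E i (dbl b c k) z = (2 : E) • x := by
  induction x using Finsupp.induction_linear with
  | zero =>
    refine ⟨0, ?_, ?_⟩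
    · have h1 : clz (T i) (aff k (Dr A b c)) (0 : Pts i (aff k (Dr A b c)) →₀ E) = 0 := map_zero _
      have h2 : clz (T i) (aff k A) (0 : Pts i (aff k A) →₀ E) = 0 := map_zero _
      rw [h1, h2, map_zero]
    · rw [map_zero, smul_zero]
  | add x y hx hy =>
    obtain ⟨z, h1, h2⟩ := hx
    obtain ⟨w, h3, h4⟩ := hy
    refine ⟨z + w, ?_, ?_⟩
    · have h5 := cls_add (T i) (aff k (Dr A b c)) z w
      have h6 := cls_add (T i) (aff k A) x y
      change Pool.Agent.Lib_helper66.OneP.cls (T i) _ (z + w) =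
        S.pb i (2 * i) A b c (Pool.Agent.Lib_helper66.OneP.cls (T i) _ (x + y))
      rw [h5, h6, map_add, ← h1, ← h3]
    · rw [map_add, h2, h4, smul_add]
  | single p e =>
    obtain ⟨z, h1, h2⟩ := hC i A b c p
    refine ⟨e • z, ?_, ?_⟩
    · have h5 : clz (T i) (aff k (Dr A b c)) (e • z) = e • clz (T i) (aff k (Dr A b c)) z :=
        map_smul (Finsupp.linearCombination E ((T i).cl (aff k (Dr A b c)))) e z
      have h6 : clz (T i) (aff k A) (Finsupp.single p e) = e • (T i).cl (aff k A) p :=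
        Finsupp.linearCombination_single E e p
      rw [h5, h6, map_smul]
      congr 1
    · rw [map_smul, h2, Finsupp.smul_single, Finsupp.smul_single, smul_eq_mul, smul_eq_mul,
        mul_comm]

theorem injC_dbl [CharZero E] (S : DblMaps T) (hC : S.Classes) (i : ℕ) (A : Type) [CommRing A]
    [Algebra k A] [Algebra.FiniteType k A] (b c : A) (h : (T i).InjC (aff k (Dr A b c))) :
    (T i).InjC (aff k A) := by
  rw [injC_iff] at h ⊢
  intro x hx
  obtain ⟨z, h1, h2⟩ := exists_dbl S hC i A b c x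
  have h3 : clz (T i) _ z = 0 := by
    rw [h1, show clz (T i) _ x = 0 from hx, map_zero]
  have h4 := CUB.Asm2.s_PUSHG k E i _ _ (dbl b c k) (fun y hy => by rw [dim_dbl, hy]) z (h z h3)
  rw [h2] at h4
  have h5 := Submodule.smul_mem _ (2 : E)⁻¹ h4
  rwa [smul_smul, inv_mul_cancel₀ (two_ne_zero), one_smul] at h5

/-! ## Supports -/

/-- The image of a closed set under a proper morphism. -/
lemma supp_pf (hT : Full T) (i n e : ℕ) {X Y : Var k} (f : PrMor X Y) (m : (T i).H n X)
    (h : Supp (T i) n e X m) : Supp (T i) n e Y (hT.G i n f m) := by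
  obtain ⟨C, hC, b, rfl⟩ := h
  have hred := REDI.isReduced_closedVar X C
  have hpr := f.proper
  let C' : Closeds Y.X := ⟨f.g '' (C : Set X.X), f.g.isClosedMap _ C.2⟩
  have h1 : ∀ w, ((closedVarIn X C).g ≫ f.g) w ∈ C' := by
    intro w
    rw [Scheme.Hom.comp_apply]
    refine ⟨_, ?_, rfl⟩
    rw [← range_closedVarIn]
    exact ⟨w, rfl⟩
  obtain ⟨l, h2⟩ : ∃ l : (closedVar X C).X ⟶ (closedVar Y C').X,
      l ≫ (closedVarIn Y C').g = (closedVarIn X C).g ≫ f.g := ⟨liftC _ C' h1, liftC_comp _ _ _⟩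
  let g : PrMor (closedVar X C) (closedVar Y C') :=
    { g := l
      comm := by
        rw [← (closedVarIn Y C').comm, ← Category.assoc, h2, Category.assoc, f.comm,
          (closedVarIn X C).comm]
      proper := by
        have h3 : IsProper (l ≫ (closedVarIn Y C').g) := by
          rw [h2]
          infer_instance
        exact IsProper.of_comp l (closedVarIn Y C').g }
  refine ⟨C', ?_, hT.G i n g b, ?_⟩
  · rintro _ ⟨x, hx, rfl⟩
    exact ((CUB.Asm2.s_PFC.{v}).1 k X Y f.g f.comm x).trans (hC x hx)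
  · rw [← hT.pfClosed i n (closedVarIn Y C') (clPr (closedVarIn Y C')) rfl,
      ← hT.pfClosed i n (closedVarIn X C) (clPr (closedVarIn X C)) rfl]
    rw [hT.pfFunctorial i n g (clPr (closedVarIn Y C')) ((clPr (closedVarIn X C)).trans f) h2,
      hT.pfFunctorial i n (clPr (closedVarIn X C)) f ((clPr (closedVarIn X C)).trans f) rfl]

lemma supp_smul (i n e : ℕ) (X : Var k) (r : E) (m : (T i).H n X)
    (h : Supp (T i) n e X m) : Supp (T i) n e X (r • m) := by
  obtain ⟨C, hC, b, rfl⟩ := h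
  exact ⟨C, hC, r • b, map_smul ((T i).push n (closedVarIn X C)) r b⟩

theorem supp_dbl [CharZero E] (hT : Full T) (S : DblMaps T) (hF : S.Frobenius)
    (hD : S.Degree hT.toProperMaps) (i : ℕ) (A : Type) [CommRing A] [Algebra k A]
    [Algebra.FiniteType k A] (b c : A)
    (h : ∀ m ∈ gen1 (T i) (aff k (Dr A b c)), Supp (T i) (2 * i + 1) (i + 1) _ m) :
    ∀ m ∈ gen1 (T i) (aff k A), Supp (T i) (2 * i + 1) (i + 1) (aff k A) m := by
  intro m hm
  have h1 : S.pb i (2 * i + 1) A b c m ∈ gen1 (T i) (aff k (Dr A b c)) :=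
    maxGen_map ((T i).frob (2 * i + 1) (aff k A)) ((T i).frob (2 * i + 1) (aff k (Dr A b c)))
      (S.pb i (2 * i + 1) A b c) (hF i (2 * i + 1) A b c) hm
  have h2 := supp_pf hT i _ _ (dbl b c k) _ (h _ h1)
  have h3 : hT.G i (2 * i + 1) (dbl b c k) (S.pb i (2 * i + 1) A b c m) = (2 : E) • m :=
    hD i (2 * i + 1) A b c m
  rw [h3] at h2
  have h4 := supp_smul i _ _ _ (2 : E)⁻¹ _ h2
  rwa [smul_smul, inv_mul_cancel₀ (two_ne_zero), one_smul] at h4

theorem pf_dbl [CharZero E] (hT : Full T) (hP : Pub T hT) (i : ℕ) (A : Type) [CommRing A]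
    [Algebra k A] [Algebra.FiniteType k A] (b c : A) (h : PF (T i) (aff k (Dr A b c))) :
    PF (T i) (aff k A) := by
  obtain ⟨S, hF, hD, hC⟩ := hP.dbl
  exact ⟨good_dbl hT S hF hD i A b c h.1, injC_dbl S hC i A b c h.2.1,
    supp_dbl hT S hF hD i A b c h.2.2⟩

/-! ## F2 -/

/-- F2. -/
theorem cls_pp [Finite k] [CharZero E] (hT : Full T) (hP : Pub T hT) (d : ℕ)
    (hd : ∀ X : Var k, X.DimLE d → PP T X) :
    Cls k d (fun A [CommRing A] [Algebra k A] [Algebra.FiniteType k A] => PP T (aff k A)) where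
  iso := fun e h i => (cls0_pi hT hP i).iso e (h i)
  triv := fun A _ _ _ h i => (cls0_pi hT hP i).triv A h
  glue := fun a z u s hZ hU i => (cls0_pi hT hP i).glue a z u s (hZ i) (hU i)
  opn := fun a z u s hA hZ i => (cls0_pi hT hP i).opn a z u s (hA i) (hZ i)
  line := fun A _ _ _ h => (pp_iff hT.toExtra _).mpr
    (ppf_line hT hP A ((pp_iff hT.toExtra _).mp h))
  dbl := fun A _ _ _ b c h i => (pi_iff hT.toExtra i _).mpr
    (pf_dbl hT hP i A b c ((pi_iff hT.toExtra i _).mp (h i)))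
  base := fun A _ _ _ h => hd _ (dimLE_of_DL h)

/-- F5. -/
theorem pi_of_dimLE [PerfectField k] (hT : Full T) (hP : Pub T hT) (i : ℕ) (X : Var k)
    (h : X.DimLE i) : PI (T i) X :=
  (pi_iff hT.toExtra i X).mpr (pf_of_dimLE hT hP i X h)

end QCV
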