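import Pool.Agent.QCV.StRed
import Pool.Agent.CUB.V_RED
import Pool.Agent.CUB.Asm

/-!
# QCV: the reduction of several equations to one, for generalised eigenspaces
-/

set_option autoImplicit false

open Polynomial CategoryTheory AlgebraicGeometry

namespace QCV

open Pool.Agent.Lib_helper55.Beil Pool.Agent.Lib_helper66.OneP CUB

universe v

variable {k : Type} [Field k] {E : Type} [Field E]

section Red

variable (T : ∀ i : ℕ, Homology.{v} k E i)
  {R R' : Type} [CommRing R] [CommRing R'] [Algebra k R] [Algebra k R']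
  [Algebra.FiniteType k R] [Algebra.FiniteType k R']

lemma exists_cls_of_alg {A : Type} [CommRing A] [Algebra k A] [Algebra.FiniteType k A] (n : ℕ)
    (m : (T n).H (2 * n) (aff k A)) (hm : m ∈ (T n).alg (aff k A)) :
    ∃ ζ : RP k A n →₀ E, cls T n ζ = m := by
  rw [Homology.alg, ← Finsupp.range_linearCombination] at hm
  obtain ⟨c, hc⟩ := hm
  refine ⟨(cyE E n).symm c, ?_⟩
  rw [cls_eq, LinearEquiv.apply_symm_apply]
  exact hc

lemma cls_mem_alg {A : Type} [CommRing A] [Algebra k A] [Algebra.FiniteType k A] (n : ℕ)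
    (ζ : RP k A n →₀ E) : cls T n ζ ∈ (T n).alg (aff k A) := by
  rw [cls_eq]
  exact (T n).linComb_mem_alg _ _

/-- RED, for generalised eigenspaces. -/
theorem red_gen (X : Extra T) [PerfectField k] [CharZero E] (hKERQ : S_KERQ) (hVRL : S_VRL)
    (hPLIN : S_PLIN) (hGX : S_GX)
    (hGCO : S_GCO) (hFPX : S_FPX) (hCSU : S_CSU) (i m : ℕ) (f : Fin (m + 1) → R)
    (ψ : R →ₐ[k] R') (hψ : Function.Surjective ψ)
    (hk : RingHom.ker ψ.toRingHom = Ideal.span (Set.range f)) (h : ∀ j, ψ (f j) = 0)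
    (hzr : ∀ z : RP k R i →₀ E, z ∈ rat k R E i)
    (hS : (T (i + (m + 1))).gen (aff k (VR R f)) ≤ (T (i + (m + 1))).alg (aff k (VR R f))) :
    (T i).gen (aff k R') ≤ (T i).alg (aff k R') := by
  intro α hα
  obtain ⟨lam, hlam⟩ := hline T X hPLIN hGX hGCO hFPX R' i (m + 1)
  have h' : ∀ j, AlgHom.id k R' (ψ (f j)) = 0 := h
  -- notation
  let N := i + (m + 1)
  let g : Fin (m + 1) → R' := fun j => ψ (f j)
  let s0 := sheet (AlgHom.id k R') g h' false
  let s1 := sheet (AlgHom.id k R') g h' true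
  have hs0 : Function.Surjective s0 := sheet_surjective _ Function.surjective_id _ h' false
  have hs1 : Function.Surjective s1 := sheet_surjective _ Function.surjective_id _ h' true
  let I0 := (T N).push (2 * N) (clo s0 hs0)
  let I1 := (T N).push (2 * N) (clo s1 hs1)
  let V := (T N).push (2 * N) (clo (VRmap ψ f) (VRmap_surjective ψ hψ f))
  let τ := (T N).push (2 * N) (vcl (tau (k := k) (lin g)))
  let F := (T N).frob (2 * N) (aff k (MvPolynomial (Fin (m + 1)) R'))
  let a := lam α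
  have ha : a ∈ (T N).gen (aff k (MvPolynomial (Fin (m + 1)) R')) :=
    maxGen_map ((T i).frob (2 * i) (aff k R')) F lam (fun x => hlam.frob x) hα
  -- the sheets are exchanged
  have hτ0 : ∀ x, τ (I0 x) = I1 x := fun x => X.push_comp N (2 * N) _ _ _ (clo s0 hs0)
    (vcl (tau (k := k) (lin g))) (clo s1 hs1) (by
      change spm s0 ≫ spm (tauH (k := k) (lin g)) = spm s1
      rw [spm_comp]
      exact congrArg spm (sheet_tau (AlgHom.id k R') g h')) x
  have hττ : ∀ x, τ (τ x) = x := fun x => P_tau_tau T X N (2 * N) (lin g) x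
  have hτ1 : ∀ x, τ (I1 x) = I0 x := fun x => by rw [← hτ0, hττ]
  -- the class of the difference of the sheets
  let δ := I0 a - I1 a
  have hFV : V δ ∈ (T N).gen (aff k (VR R f)) := by
    have e2 : I0 a ∈ (T N).gen _ := maxGen_map F ((T N).frob (2 * N) _) I0
      (fun x => (T N).push_frob (2 * N) _ x) ha
    have e3 : I1 a ∈ (T N).gen _ := maxGen_map F ((T N).frob (2 * N) _) I1
      (fun x => (T N).push_frob (2 * N) _ x) ha
    exact maxGen_map ((T N).frob (2 * N) _) ((T N).frob (2 * N) _) V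
      (fun x => (T N).push_frob (2 * N) _ x) (sub_mem e2 e3)
  obtain ⟨ζ, hζ⟩ := exists_cls_of_alg T N (V δ) (hS hFV)
  obtain ⟨z₀, z₁, d₀, d₁, hd₀, hd₁, hrat⟩ := hCSU k R R' E m i f ψ hψ h hk hzr ζ
  let b0 := lam (cls T i z₀)
  let b1 := lam (cls T i z₁)
  have hb0 : b0 = cls T N d₀ := hlam.cls z₀ d₀ hd₀
  have hb1 : b1 = cls T N d₁ := hlam.cls z₁ d₁ hd₁
  have hsh : ∀ ε (hs : Function.Surjective (sheet (AlgHom.id k R') g h' ε)) x,
      (T N).P (2 * N) (clo (sheet ψ f h ε) (sheet_surjective ψ hψ f h ε)) x =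
        V ((T N).push (2 * N) (clo (sheet (AlgHom.id k R') g h' ε) hs) x) := by
    intro ε hs x
    refine (X.push_comp N (2 * N) _ _ _ (clo (sheet (AlgHom.id k R') g h' ε) hs)
      (clo (VRmap ψ f) (VRmap_surjective ψ hψ f))
      (clo (sheet ψ f h ε) (sheet_surjective ψ hψ f h ε)) ?_ x).symm
    change spm (sheet (AlgHom.id k R') g h' ε) ≫ spm (VRmap ψ f) = spm (sheet ψ f h ε)
    rw [spm_comp]
    exact congrArg spm (sheet_factor ψ f h h' ε)
  have hVδ : V δ = V (I0 b0) + V (I1 b1) := by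
    have e1 := cls_rat T N _ hrat
    rw [map_sub, map_sub, ← cls_push, ← cls_push] at e1
    have e2 : cls T N ζ = V δ := hζ
    rw [e2, ← hb0, ← hb1, hsh false hs0, hsh true hs1] at e1
    have e3 : V δ - V (I0 b0) - V (I1 b1) = 0 := e1
    rw [sub_sub, sub_eq_zero] at e3
    exact e3
  let δ' := δ - I0 b0 - I1 b1
  have hVδ' : V δ' = 0 := by
    change V (δ - I0 b0 - I1 b1) = 0
    rw [map_sub, map_sub, hVδ]
    abel
  have hτV : ∀ x, V (τ x) = (T N).push (2 * N) (vcl (tau (k := k) (lin f))) (V x) := fun x =>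
    (P_tau_VRmap T X N (2 * N) f ψ hψ x).symm
  have hδ'' : δ' - τ δ' = 0 := by
    refine hchain T X hKERQ hVRL (i + m) (2 * (i + m) + 1) m (List.finRange (m + 1)) f ψ hψ ?_
      (δ' - τ δ') ?_ ?_
    · rw [hk]
      congr 1
      ext x
      simp
    · change τ (δ' - τ δ') = -(δ' - τ δ')
      rw [map_sub, hττ]
      abel
    · change V (δ' - τ δ') = 0
      rw [map_sub, hVδ', hτV, hVδ', map_zero, sub_zero]
  let w := a - b0 + (a + b1)
  have hδI : δ' = I0 (a - b0) - I1 (a + b1) := by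
    change I0 a - I1 a - I0 b0 - I1 b1 = _
    rw [map_sub, map_add]
    abel
  have hτδ : τ δ' = I1 (a - b0) - I0 (a + b1) := by
    have e1 : τ δ' = τ (I0 (a - b0)) - τ (I1 (a + b1)) := (congrArg τ hδI).trans (map_sub τ _ _)
    rw [e1, hτ0, hτ1]
  have hw : I0 w = I1 w := by
    have e1 : I0 (a - b0) - I1 (a + b1) = I1 (a - b0) - I0 (a + b1) :=
      hδI.symm.trans ((sub_eq_zero.mp hδ'').trans hτδ)
    change I0 (a - b0 + (a + b1)) = I1 (a - b0 + (a + b1))
    rw [map_add I0, map_add I1]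
    exact sub_eq_sub_iff_add_eq_add.mp e1
  -- restriction to the first sheet
  have hloc := isLocalization_sheet_false (k := k) g h'
  have hc := complementary_away s0 (1 - yy (lin g)) hloc s1 hs1 (ker_sheet_true g h')
  have e0 : (T N).R (2 * N) (opn s0 (isOpenImmersion_spm s0 _ hloc)) (I0 w) = w :=
    X.clopen N (2 * N) _ _ (clo s0 hs0) (opn s0 (isOpenImmersion_spm s0 _ hloc)) rfl w
  have e1 : (T N).R (2 * N) (opn s0 (isOpenImmersion_spm s0 _ hloc)) (I1 w) = 0 :=
    (((T N).localisation (2 * N) _ _ _ _ _ hc).1 (I1 w)).mpr ⟨w, rfl⟩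
  rw [hw, e1] at e0
  have e2 : lam ((2 : E) • α) = lam (cls T i (z₀ - z₁)) := by
    rw [map_smul, map_sub, map_sub, two_smul]
    have e3 : a - b0 + (a + b1) = 0 := e0.symm
    have e4 : a + a = b0 - b1 := by
      rw [← sub_eq_zero]
      rw [← e3]
      abel
    exact e4
  have e5 := hlam.inj e2
  have e6 : α = cls T i ((2 : E)⁻¹ • (z₀ - z₁)) := by
    rw [map_smul, ← e5, smul_smul, inv_mul_cancel₀ two_ne_zero, one_smul]
  rw [e6]
  exact cls_mem_alg T i _

end Red

/-- RED2. -/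
theorem t_RED2 : S_RED2.{v} := by
  intro k E _ _ _ _ T X R R' _ _ _ _ _ _ m i f ψ hψ hk hzr hG
  have h : ∀ j, ψ (f j) = 0 := by
    intro j
    have h1 : f j ∈ RingHom.ker ψ.toRingHom := by
      rw [hk]
      exact Ideal.subset_span ⟨j, rfl⟩
    exact h1
  exact red_gen T X Asm.s_KERQ Asm.s_VRL Asm.s_PLIN Asm.s_GX Asm.s_GCO Asm.s_FPX Asm.s_CSU i m f ψ
    hψ hk h hzr hG

end QCV
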