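import Pool.Agent.QCV.StR
import Pool.Agent.QCV.F_RED2

/-!
# QCV: assembly of the two halves
-/

set_option autoImplicit false

open CategoryTheory AlgebraicGeometry Polynomial

namespace QCV

open Pool.Agent.Lib_helper55.Beil Pool.Agent.Lib_helper66.OneP CUB

universe v

variable {k : Type} [Field k] {E : Type} [Field E]

lemma Q1_of_PI {i : ℕ} (T : Homology.{v} k E i) (X : Var k) (h : PI T X) : Q1 T X :=
  ⟨h.inj, T.surj_of_good X h.gg, T.semisimple_of_good X h.gg⟩

/-- dimension of affine varieties and of their primes -/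
lemma dimLE_aff {A : Type} [CommRing A] [Algebra k A] [Algebra.FiniteType k A] (d : ℕ) :
    (aff k A).DimLE d ↔ DL k A d := by
  constructor
  · intro h p
    rw [← dim_toPt]
    exact h _
  · intro h x
    have := h (ofPt x)
    rw [← dim_toPt] at this
    exact this

/-- The results of the homology half used in the assembly. -/
structure HomBlock (T : ∀ i : ℕ, Homology.{v} k E i) : Prop where
  cls0 : ∀ i, Cls0 k (fun A _ _ _ => PI (T i) (aff k A))
  cls : ∀ d, (∀ X : Var k, X.DimLE d → PP T X) → Cls k d (fun A _ _ _ => PP T (aff k A))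
  small : ∀ (i : ℕ) (X : Var k), X.DimLE i → PI (T i) X

/-- The main theorem, given the base case. -/
theorem main_of (hPLY : S_PLY) (hQUA : S_QUA) (hVRP : S_VRP)
    (hIGE : S_IGE) [Finite k] [CharZero E] (T : ∀ i : ℕ, Homology.{v} k E i) (hT : Full T)
    (hH : HomBlock T) (d : ℕ) (hd1 : 1 ≤ d) (hd2 : d ≤ 2)
    (hB : ∀ X : Var k, X.DimLE d → PP T X)
    (R : Type) [CommRing R] [Algebra k R] [Algebra.FiniteType k R] (e n r : ℕ)
    (f : Fin r → MvPolynomial (Fin n) R) (hR : DL k R e) (hr : 1 ≤ r) (her : e + r ≤ d + 1)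
    (hf : ∀ j, (f j).totalDegree ≤ 2) (i : ℕ) : Q1 (T i) (aff k (ER f)) := by
  have hC := hH.cls d hB
  have mono : ∀ (A : Type) [CommRing A] [Algebra k A] (a b : ℕ), a ≤ b → DL k A a → DL k A b := by
    intro A _ _ a b hab h p
    exact (h p).trans (by exact_mod_cast hab)
  obtain ⟨m, rfl⟩ : ∃ m, r = m + 1 := ⟨r - 1, by omega⟩
  rcases Nat.eq_zero_or_pos m with rfl | hm
  · have h1 : PP T (aff k (ER f)) := hQUA k _ d hC n R f (mono R e d (by omega) hR) hf
    exact Q1_of_PI _ _ (h1 i)
  have he : e ≤ 1 := by omega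
  by_cases hin : i < n
  · have h1 : PP T (aff k (VR (MvPolynomial (Fin n) R) f)) :=
      hVRP k _ d e n (m + 1) hC (by omega) (by omega) R f hR hf
    have h2 := h1 (i + (m + 1))
    let ψ : MvPolynomial (Fin n) R →ₐ[k] ER f := Ideal.Quotient.mkₐ k _
    have hψ : Function.Surjective ψ := Ideal.Quotient.mkₐ_surjective k _
    have hk : RingHom.ker ψ.toRingHom = Ideal.span (Set.range f) := Ideal.mk_ker
    have hz : ∀ z : RP k (MvPolynomial (Fin n) R) i →₀ E,
        z ∈ rat k (MvPolynomial (Fin n) R) E i := (Asm.s_L0M k R E n).2 i hin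
    have h3 := (Asm.s_RED k E T hT.toExtra (MvPolynomial (Fin n) R) (ER f) m i f ψ hψ hk hz).1
      h2.inj
    have h4 := t_RED2 k E T hT.toExtra (MvPolynomial (Fin n) R) (ER f) m i f ψ hψ hk hz h2.gg
    exact ⟨h3, (T i).surj_of_good _ h4, (T i).semisimple_of_good _ h4⟩
  · have h1 : PI (T i) (aff k (ER f)) := by
      refine hIGE k (Fin (m + 1)) (fun A _ _ _ => PI (T i) (aff k A)) n (hH.cls0 i) ?_ ?_ R f
        (mono R e 1 he hR)
      · intro A _ _ _ hA
        have h2 := (hPLY k (fun A _ _ _ => PP T (aff k A)) hC.toCls0 hC.line A n).1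
          (hC.base A (mono A 1 d hd1 hA))
        exact h2 i
      · intro A _ _ _ hA
        exact hH.small i _ ((dimLE_aff i).2 (mono A n i (not_lt.mp hin) hA))
    exact Q1_of_PI _ _ h1

end QCV
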