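import Pool.Agent.QCV.StR
import Pool.Agent.LOWD.FLD

set_option autoImplicit false

open Polynomial

namespace QCV

open CUB

theorem t_DLR : S_DLR := by
  refine ⟨?_, ?_, ?_, ?_, ?_⟩
  · intro k A B _ _ _ _ _ d φ hφ h p
    rw [← rdim_comap φ hφ p]
    exact h _
  · intro k A B _ _ _ _ _ _ _ d a φ hφ h p
    rw [← rdim_comap_opn φ (isOpenImmersion_spm φ a hφ) p]
    exact h _
  · intro k A B _ _ _ _ _ _ _ _ _ _ d h p
    have hfin : LOWD.FinOn (IsScalarTower.toAlgHom k A B) ⊤ := by
      intro t _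
      obtain ⟨M, hM⟩ := (inferInstance : Module.Finite A B).fg_top
      refine ⟨M, fun x => ?_⟩
      have hx : x ∈ Submodule.span A (M : Set B) := by
        rw [hM]
        trivial
      rw [Submodule.mem_span_finset] at hx
      obtain ⟨f, _, hf⟩ := hx
      refine ⟨0, f, ?_⟩
      rw [pow_zero, one_mul, ← hf]
      refine Finset.sum_congr rfl fun m _ => ?_
      exact Algebra.smul_def _ _
    have h1 : rdim k (PrimeSpectrum.comap (IsScalarTower.toAlgHom k A B).toRingHom p) =
        rdim k p := by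
      refine (LOWD.t_FLD k A B (IsScalarTower.toAlgHom k A B) ⊤ hfin p ?_).2.2.1
      intro h2
      exact (PrimeSpectrum.comap (IsScalarTower.toAlgHom k A B).toRingHom p).2.ne_top
        (top_le_iff.mp h2)
    rw [← h1]
    exact h _
  · intro k A _ _ _ _ d h P
    have h1 := pX_le (PrimeSpectrum.comap C P) P rfl
    calc rdim k P ≤ rdim k (pX (PrimeSpectrum.comap C P)) := rdim_le h1
      _ = rdim k (PrimeSpectrum.comap C P) + 1 := rdim_pX _
      _ ≤ (d : Cardinal) + 1 := by
        gcongr
        exact h _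
      _ = ((d + 1 : ℕ) : Cardinal) := by push_cast; rfl
  · intro k B _ _ _ _ _ d f hf h P
    have hs : Function.Surjective (Ideal.Quotient.mkₐ k (Ideal.span {f})) :=
      Ideal.Quotient.mkₐ_surjective k _
    rw [← rdim_comap (Ideal.Quotient.mkₐ k (Ideal.span {f})) hs P]
    set Q := PrimeSpectrum.comap (Ideal.Quotient.mkₐ k (Ideal.span {f})).toRingHom P with hQ
    have hlt : (⟨⊥, Ideal.isPrime_bot⟩ : PrimeSpectrum B) < Q := by
      refine lt_of_le_of_ne bot_le ?_
      intro h1
      have h2 : f ∈ Q.asIdeal := by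
        change (Ideal.Quotient.mkₐ k (Ideal.span {f})) f ∈ P.asIdeal
        have h3 : Ideal.Quotient.mkₐ k (Ideal.span {f}) f = 0 :=
          Ideal.Quotient.eq_zero_iff_mem.mpr (Ideal.subset_span rfl)
        rw [h3]
        exact zero_mem _
      rw [← h1] at h2
      exact hf h2
    have h1 := (rdim_add_one_le hlt).trans (h _)
    obtain ⟨n, hn⟩ := exists_rdim (k := k) Q
    rw [hn] at h1 ⊢
    have h2 : n + 1 ≤ d + 1 := by exact_mod_cast h1
    exact_mod_cast (by omega : n ≤ d)

end QCV
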