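import Pool.Agent.QCV.StR

/-!
# QCV: double covers of the base (`S_DRI`)
-/

set_option autoImplicit false

open CategoryTheory AlgebraicGeometry Polynomial

namespace QCV

namespace DRI

variable {k R ι : Type} [Field k] [CommRing R] [Algebra k R] {n : ℕ}
  (f : ι → MvPolynomial (Fin n) R) (b c : R)

/-- The double cover of the family. -/
abbrev A0 : Type := Dr (ER f) (Ideal.Quotient.mk _ (MvPolynomial.C b))
  (Ideal.Quotient.mk _ (MvPolynomial.C c))

/-- The family over the double cover. -/
abbrev B0 : Type := ER (mf (algebraMap R (Dr R b c)) f)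

theorem dpoly_eval {A B : Type} [CommRing A] [CommRing B] (φ : A →+* B) (b c : A) (x : B)
    (h : x ^ 2 + φ b * x + φ c = 0) : (dpoly b c).eval₂ φ x = 0 := by
  unfold dpoly
  simp only [Polynomial.eval₂_add, Polynomial.eval₂_mul, Polynomial.eval₂_pow,
    Polynomial.eval₂_X, Polynomial.eval₂_C]
  exact h

theorem root_eq {A : Type} [CommRing A] (b c : A) :
    (AdjoinRoot.root (dpoly b c)) ^ 2 + AdjoinRoot.of (dpoly b c) b * AdjoinRoot.root (dpoly b c) +
      AdjoinRoot.of (dpoly b c) c = 0 := by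
  have h := AdjoinRoot.eval₂_root (dpoly b c)
  unfold dpoly at h
  simp only [Polynomial.eval₂_add, Polynomial.eval₂_mul, Polynomial.eval₂_pow,
    Polynomial.eval₂_X, Polynomial.eval₂_C] at h
  exact h

/-- The base change map. -/
noncomputable def F0 : ER f →+* B0 f b c :=
  Ideal.Quotient.lift _ ((Ideal.Quotient.mk _).comp (MvPolynomial.map (algebraMap R (Dr R b c))))
    (by
      have h : Ideal.span (Set.range f) ≤ RingHom.ker ((Ideal.Quotient.mk
          (Ideal.span (Set.range (mf (algebraMap R (Dr R b c)) f)))).comp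
          (MvPolynomial.map (algebraMap R (Dr R b c)))) := by
        rw [Ideal.span_le]
        rintro _ ⟨j, rfl⟩
        rw [SetLike.mem_coe, RingHom.mem_ker, RingHom.comp_apply]
        exact Ideal.Quotient.eq_zero_iff_mem.2 (Ideal.subset_span ⟨j, rfl⟩)
      exact fun a ha => h ha)

/-- The map from the double cover of the family. -/
noncomputable def F1 : A0 f b c →+* B0 f b c :=
  AdjoinRoot.lift (F0 f b c) (Ideal.Quotient.mk _ (MvPolynomial.C (AdjoinRoot.root (dpoly b c))))
    (dpoly_eval _ _ _ _ (by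
      change Ideal.Quotient.mk (Ideal.span (Set.range (mf (algebraMap R (Dr R b c)) f)))
          (MvPolynomial.C (AdjoinRoot.root (dpoly b c))) ^ 2 +
        Ideal.Quotient.mk _ (MvPolynomial.map (algebraMap R (Dr R b c)) (MvPolynomial.C b)) *
          Ideal.Quotient.mk _ (MvPolynomial.C (AdjoinRoot.root (dpoly b c))) +
        Ideal.Quotient.mk _ (MvPolynomial.map (algebraMap R (Dr R b c)) (MvPolynomial.C c)) = 0
      rw [MvPolynomial.map_C, MvPolynomial.map_C, ← map_pow, ← map_mul, ← map_add, ← map_add,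
        ← map_pow, ← map_mul, ← map_add, ← map_add]
      have h := root_eq b c
      change AdjoinRoot.root (dpoly b c) ^ 2 + algebraMap R (Dr R b c) b *
        AdjoinRoot.root (dpoly b c) + algebraMap R (Dr R b c) c = 0 at h
      rw [h, map_zero, map_zero]))

/-- The map of the bases. -/
noncomputable def G0 : Dr R b c →+* A0 f b c :=
  AdjoinRoot.lift ((AdjoinRoot.of _).comp ((Ideal.Quotient.mk _).comp MvPolynomial.C))
    (AdjoinRoot.root _) (dpoly_eval _ _ _ _ (root_eq _ _))

theorem G0_of (x : R) : G0 f b c (AdjoinRoot.of _ x) =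
    AdjoinRoot.of _ (Ideal.Quotient.mk _ (MvPolynomial.C x)) :=
  AdjoinRoot.lift_of (f := dpoly b c) _

theorem G0_comp : (G0 f b c).comp (algebraMap R (Dr R b c)) =
    (AdjoinRoot.of (dpoly (Ideal.Quotient.mk (Ideal.span (Set.range f)) (MvPolynomial.C b))
      (Ideal.Quotient.mk _ (MvPolynomial.C c)))).comp
      ((Ideal.Quotient.mk _).comp MvPolynomial.C) := by
  refine RingHom.ext fun x => ?_
  exact G0_of f b c x

/-- The map to the double cover of the family. -/
noncomputable def G1 : B0 f b c →+* A0 f b c :=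
  Ideal.Quotient.lift _ (MvPolynomial.eval₂Hom (G0 f b c)
    (fun j => AdjoinRoot.of _ (Ideal.Quotient.mk _ (MvPolynomial.X j))))
    (by
      have h : Ideal.span (Set.range (mf (algebraMap R (Dr R b c)) f)) ≤
          RingHom.ker (MvPolynomial.eval₂Hom (G0 f b c) (fun j => AdjoinRoot.of
            (dpoly (Ideal.Quotient.mk (Ideal.span (Set.range f)) (MvPolynomial.C b))
              (Ideal.Quotient.mk _ (MvPolynomial.C c)))
            (Ideal.Quotient.mk _ (MvPolynomial.X j)))) := by
        rw [Ideal.span_le]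
        rintro _ ⟨j, rfl⟩
        rw [SetLike.mem_coe, RingHom.mem_ker]
        change MvPolynomial.eval₂Hom (G0 f b c) _ (MvPolynomial.map _ (f j)) = 0
        have h1 : (MvPolynomial.eval₂Hom (G0 f b c) (fun j => AdjoinRoot.of
            (dpoly (Ideal.Quotient.mk (Ideal.span (Set.range f)) (MvPolynomial.C b))
              (Ideal.Quotient.mk _ (MvPolynomial.C c)))
            (Ideal.Quotient.mk _ (MvPolynomial.X j)))).comp
            (MvPolynomial.map (algebraMap R (Dr R b c))) =
            (AdjoinRoot.of (dpoly (Ideal.Quotient.mk (Ideal.span (Set.range f)) (MvPolynomial.C b))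
              (Ideal.Quotient.mk _ (MvPolynomial.C c)))).comp (Ideal.Quotient.mk _) := by
          refine MvPolynomial.ringHom_ext (fun r => ?_) (fun i => ?_)
          · rw [RingHom.comp_apply, MvPolynomial.map_C, MvPolynomial.eval₂Hom_C]
            exact congrArg (fun φ : R →+* _ => φ r) (G0_comp f b c)
          · rw [RingHom.comp_apply, MvPolynomial.map_X, MvPolynomial.eval₂Hom_X']
            rfl
        have h2 := congrArg (fun φ : MvPolynomial (Fin n) R →+* _ => φ (f j)) h1
        refine h2.trans ?_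
        change AdjoinRoot.of _ (Ideal.Quotient.mk _ (f j)) = 0
        rw [(Ideal.Quotient.eq_zero_iff_mem (I := Ideal.span (Set.range f))).2
          (Ideal.subset_span (Set.mem_range_self j)), map_zero]
      exact fun a ha => h ha)

theorem F1_of (y : ER f) : F1 f b c (AdjoinRoot.of _ y) = F0 f b c y :=
  AdjoinRoot.lift_of (f := dpoly (Ideal.Quotient.mk (Ideal.span (Set.range f)) (MvPolynomial.C b))
    (Ideal.Quotient.mk _ (MvPolynomial.C c))) _

theorem F1_root : F1 f b c (AdjoinRoot.root _) =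
    Ideal.Quotient.mk _ (MvPolynomial.C (AdjoinRoot.root (dpoly b c))) :=
  AdjoinRoot.lift_root (f := dpoly (Ideal.Quotient.mk (Ideal.span (Set.range f)) (MvPolynomial.C b))
    (Ideal.Quotient.mk _ (MvPolynomial.C c))) _

theorem G0_root : G0 f b c (AdjoinRoot.root _) = AdjoinRoot.root _ :=
  AdjoinRoot.lift_root (f := dpoly b c) _

theorem G1_C (r : Dr R b c) : G1 f b c (Ideal.Quotient.mk _ (MvPolynomial.C r)) = G0 f b c r :=
  MvPolynomial.eval₂Hom_C _ _ _

theorem G1_X (i : Fin n) : G1 f b c (Ideal.Quotient.mk _ (MvPolynomial.X i)) =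
    AdjoinRoot.of _ (Ideal.Quotient.mk _ (MvPolynomial.X i)) :=
  MvPolynomial.eval₂Hom_X' _ _ _

theorem F0_C (x : R) : F0 f b c (Ideal.Quotient.mk _ (MvPolynomial.C x)) =
    Ideal.Quotient.mk _ (MvPolynomial.C (AdjoinRoot.of (dpoly b c) x)) := by
  change Ideal.Quotient.mk _ (MvPolynomial.map (algebraMap R (Dr R b c)) (MvPolynomial.C x)) = _
  rw [MvPolynomial.map_C]
  rfl

theorem F0_X (i : Fin n) : F0 f b c (Ideal.Quotient.mk _ (MvPolynomial.X i)) =
    Ideal.Quotient.mk _ (MvPolynomial.X i) := by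
  change Ideal.Quotient.mk _ (MvPolynomial.map (algebraMap R (Dr R b c)) (MvPolynomial.X i)) = _
  rw [MvPolynomial.map_X]

theorem FG : (F1 f b c).comp (G1 f b c) = RingHom.id _ := by
  refine Ideal.Quotient.ringHom_ext ?_
  refine MvPolynomial.ringHom_ext (fun r => ?_) (fun i => ?_)
  · have h : ((F1 f b c).comp (G1 f b c)).comp ((Ideal.Quotient.mk _).comp MvPolynomial.C) =
        (Ideal.Quotient.mk (Ideal.span (Set.range (mf (algebraMap R (Dr R b c)) f)))).comp
          MvPolynomial.C := by
      refine AdjoinRoot.ringHom_ext ?_ ?_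
      · refine RingHom.ext fun x => ?_
        change F1 f b c (G1 f b c (Ideal.Quotient.mk _ (MvPolynomial.C (AdjoinRoot.of _ x)))) =
          Ideal.Quotient.mk _ (MvPolynomial.C (AdjoinRoot.of _ x))
        rw [G1_C, G0_of, F1_of, F0_C]
      · change F1 f b c (G1 f b c (Ideal.Quotient.mk _ (MvPolynomial.C (AdjoinRoot.root _)))) =
          Ideal.Quotient.mk _ (MvPolynomial.C (AdjoinRoot.root _))
        rw [G1_C, G0_root, F1_root]
    exact congrArg (fun φ : Dr R b c →+* _ => φ r) h
  · change F1 f b c (G1 f b c (Ideal.Quotient.mk _ (MvPolynomial.X i))) =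
      Ideal.Quotient.mk _ (MvPolynomial.X i)
    rw [G1_X, F1_of, F0_X]

theorem GF : (G1 f b c).comp (F1 f b c) = RingHom.id _ := by
  refine AdjoinRoot.ringHom_ext ?_ ?_
  · refine Ideal.Quotient.ringHom_ext ?_
    refine MvPolynomial.ringHom_ext (fun r => ?_) (fun i => ?_)
    · change G1 f b c (F1 f b c (AdjoinRoot.of _ (Ideal.Quotient.mk _ (MvPolynomial.C r)))) =
        AdjoinRoot.of _ (Ideal.Quotient.mk _ (MvPolynomial.C r))
      rw [F1_of, F0_C, G1_C, G0_of]
    · change G1 f b c (F1 f b c (AdjoinRoot.of _ (Ideal.Quotient.mk _ (MvPolynomial.X i)))) =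
        AdjoinRoot.of _ (Ideal.Quotient.mk _ (MvPolynomial.X i))
      rw [F1_of, F0_X, G1_X]
  · change G1 f b c (F1 f b c (AdjoinRoot.root _)) = AdjoinRoot.root _
    rw [F1_root, G1_C, G0_root]

end DRI

open DRI in
/-- Module DRI. -/
theorem t_DRI : S_DRI := by
  intro k R ι _ _ _ n f b c
  refine ⟨AlgEquiv.ofRingEquiv (f := RingEquiv.ofRingHom (F1 f b c) (G1 f b c) (FG f b c)
    (GF f b c)) ?_⟩
  intro x
  change F1 f b c (AdjoinRoot.of _ (Ideal.Quotient.mk _ (MvPolynomial.C (algebraMap k R x)))) =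
    Ideal.Quotient.mk _ (MvPolynomial.C (AdjoinRoot.of _ (algebraMap k R x)))
  rw [F1_of, F0_C]

end QCV
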