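import Pool.Agent.QCV.StR

set_option autoImplicit false

open Polynomial

namespace QCV

open CUB

namespace ELI

variable {R : Type} [CommRing R]

/-- Substitution of polynomials of degree at most one does not raise the degree. -/
lemma totalDegree_aeval_le {m n : ℕ} (g : Fin m → MvPolynomial (Fin n) R)
    (hg : ∀ i, (g i).totalDegree ≤ 1) (p : MvPolynomial (Fin m) R) :
    (MvPolynomial.aeval g p).totalDegree ≤ p.totalDegree := by
  have h0 : MvPolynomial.aeval g p =
      ∑ d ∈ p.support, MvPolynomial.C (MvPolynomial.coeff d p) * ∏ i, g i ^ d i := by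
    rw [MvPolynomial.aeval_def, MvPolynomial.eval₂_eq']
    rfl
  rw [h0]
  refine MvPolynomial.totalDegree_finsetSum_le fun d hd => ?_
  refine (MvPolynomial.totalDegree_mul _ _).trans ?_
  rw [MvPolynomial.totalDegree_C, zero_add]
  refine (MvPolynomial.totalDegree_finsetProd _ _).trans ?_
  have h1 : ∀ i ∈ (Finset.univ : Finset (Fin m)), (g i ^ d i).totalDegree ≤ d i := by
    intro i _
    refine (MvPolynomial.totalDegree_pow _ _).trans ?_
    calc d i * (g i).totalDegree ≤ d i * 1 := Nat.mul_le_mul_left _ (hg i)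
      _ = d i := mul_one _
  refine (Finset.sum_le_sum h1).trans ?_
  have h2 := MvPolynomial.le_totalDegree hd
  rwa [Finsupp.sum_fintype _ _ (fun _ => rfl)] at h2

/-- A polynomial of degree at most one is affine linear. -/
lemma deg_one {n : ℕ} (p : MvPolynomial (Fin n) R) (hp : p.totalDegree ≤ 1) :
    p = MvPolynomial.C (MvPolynomial.coeff 0 p) +
      ∑ i, MvPolynomial.C (MvPolynomial.coeff (Finsupp.single i 1) p) * MvPolynomial.X i := by
  classical
  ext d
  rw [MvPolynomial.coeff_add, MvPolynomial.coeff_C, MvPolynomial.coeff_sum]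
  simp_rw [MvPolynomial.coeff_C_mul, MvPolynomial.coeff_X]
  by_cases h0 : d = 0
  · subst h0
    rw [if_pos rfl, Finset.sum_eq_zero, add_zero]
    intro i _
    rw [if_neg, mul_zero]
    exact Finsupp.single_ne_zero.2 one_ne_zero
  · rw [if_neg (Ne.symm h0), zero_add]
    by_cases h1 : ∃ i, Finsupp.single i 1 = d
    · obtain ⟨i, rfl⟩ := h1
      rw [Finset.sum_eq_single i, if_pos rfl, mul_one]
      · intro b _ hb
        rw [if_neg, mul_zero]
        intro h
        exact hb (Finsupp.single_left_injective one_ne_zero h)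
      · intro h
        exact absurd (Finset.mem_univ i) h
    · rw [Finset.sum_eq_zero]
      · apply MvPolynomial.coeff_eq_zero_of_totalDegree_lt
        refine lt_of_le_of_lt hp ?_
        rw [← Finsupp.degree_apply]
        have h2 : d.degree ≠ 0 := by
          rw [Ne, Finsupp.degree_eq_zero_iff]
          exact h0
        have h3 : d.degree ≠ 1 := by
          intro h
          have : d ∈ Set.range (fun a : Fin n => Finsupp.single a 1) := by
            rw [Finsupp.range_single_one]
            exact h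
          obtain ⟨i, hi⟩ := this
          exact h1 ⟨i, hi⟩
        omega
      · intro i _
        rw [if_neg, mul_zero]
        exact fun h => h1 ⟨i, h⟩

/-- Inverse isomorphisms of quotients from homomorphisms which are inverse to each other modulo
the ideals. -/
lemma equiv_of {k A B : Type} [Field k] [CommRing A] [Algebra k A] [CommRing B] [Algebra k B]
    (I : Ideal A) (J : Ideal B) (σ : A →ₐ[k] B) (ι : B →ₐ[k] A) (h1 : I ≤ J.comap σ)
    (h2 : J ≤ I.comap ι) (h3 : ∀ b, σ (ι b) - b ∈ J) (h4 : ∀ a, ι (σ a) - a ∈ I) :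
    Nonempty ((A ⧸ I) ≃ₐ[k] (B ⧸ J)) := by
  refine ⟨AlgEquiv.ofAlgHom (Ideal.quotientMapₐ J σ h1) (Ideal.quotientMapₐ I ι h2) ?_ ?_⟩
  · ext b
    obtain ⟨b, rfl⟩ := Ideal.Quotient.mk_surjective b
    exact (Ideal.Quotient.eq).2 (h3 b)
  · ext a
    obtain ⟨a, rfl⟩ := Ideal.Quotient.mk_surjective a
    exact (Ideal.Quotient.eq).2 (h4 a)

end ELI

theorem t_ELI : S_ELI := by
  classical
  intro k R _ _ _ n f j h0 h1 hu
  obtain ⟨u, hu⟩ := hu
  rcases subsingleton_or_nontrivial R with hR | hR
  · refine ⟨fun _ => 0, by simp, ?_⟩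
    refine ELI.equiv_of _ _ (IsScalarTower.toAlgHom k R (MvPolynomial (Fin n) R) |>.comp
      ((MvPolynomial.aeval (fun _ => (0 : R))).restrictScalars k)) (IsScalarTower.toAlgHom k R
      (MvPolynomial (Fin (n + 1)) R) |>.comp
      ((MvPolynomial.aeval (fun _ => (0 : R))).restrictScalars k)) ?_ ?_ ?_ ?_
    · intro x _
      rw [Subsingleton.elim x 0]
      exact zero_mem _
    · intro x _
      rw [Subsingleton.elim x 0]
      exact zero_mem _
    · intro b
      rw [Subsingleton.elim (_ - b) 0]
      exact zero_mem _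
    · intro b
      rw [Subsingleton.elim (_ - b) 0]
      exact zero_mem _
  -- the linear form in the other variables
  let l : MvPolynomial (Fin n) R := MvPolynomial.C (MvPolynomial.coeff 0 (f 0)) +
    ∑ i, MvPolynomial.C (MvPolynomial.coeff (Finsupp.single (j.succAbove i) 1) (f 0)) *
      MvPolynomial.X i
  let v : MvPolynomial (Fin n) R := - (MvPolynomial.C ((u⁻¹ : Rˣ) : R) * l)
  let σ : MvPolynomial (Fin (n + 1)) R →ₐ[R] MvPolynomial (Fin n) R :=
    MvPolynomial.aeval (j.insertNth v MvPolynomial.X)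
  let ι : MvPolynomial (Fin n) R →ₐ[R] MvPolynomial (Fin (n + 1)) R :=
    MvPolynomial.rename j.succAbove
  have hσj : σ (MvPolynomial.X j) = v := by
    change MvPolynomial.aeval _ _ = _
    rw [MvPolynomial.aeval_X, Fin.insertNth_apply_same]
  have hσi : ∀ i, σ (MvPolynomial.X (j.succAbove i)) = MvPolynomial.X i := by
    intro i
    change MvPolynomial.aeval _ _ = _
    rw [MvPolynomial.aeval_X, Fin.insertNth_apply_succAbove]
  have hιi : ∀ i, ι (MvPolynomial.X i) = MvPolynomial.X (j.succAbove i) := fun i =>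
    MvPolynomial.rename_X _ _
  have hσC : ∀ r : R, σ (MvPolynomial.C r) = MvPolynomial.C r := fun r => σ.commutes r
  have hιC : ∀ r : R, ι (MvPolynomial.C r) = MvPolynomial.C r := fun r => ι.commutes r
  have hdl : l.totalDegree ≤ 1 := by
    refine (MvPolynomial.totalDegree_add _ _).trans (max_le ?_ ?_)
    · rw [MvPolynomial.totalDegree_C]
      exact Nat.zero_le _
    · refine MvPolynomial.totalDegree_finsetSum_le fun i _ => ?_
      refine (MvPolynomial.totalDegree_mul _ _).trans ?_
      rw [MvPolynomial.totalDegree_C, MvPolynomial.totalDegree_X]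
  have hdv : v.totalDegree ≤ 1 := by
    change (- _ : MvPolynomial (Fin n) R).totalDegree ≤ 1
    rw [MvPolynomial.totalDegree_neg]
    refine (MvPolynomial.totalDegree_mul _ _).trans ?_
    rw [MvPolynomial.totalDegree_C, zero_add]
    exact hdl
  have hdσ : ∀ i, ((j.insertNth v MvPolynomial.X : Fin (n + 1) → MvPolynomial (Fin n) R)
      i).totalDegree ≤ 1 := by
    intro i
    rcases Fin.eq_self_or_eq_succAbove j i with rfl | ⟨i, rfl⟩
    · rw [Fin.insertNth_apply_same]
      exact hdv
    · rw [Fin.insertNth_apply_succAbove, MvPolynomial.totalDegree_X]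
  have hιl : ι l = MvPolynomial.C (MvPolynomial.coeff 0 (f 0)) +
      ∑ i, MvPolynomial.C (MvPolynomial.coeff (Finsupp.single (j.succAbove i) 1) (f 0)) *
        MvPolynomial.X (j.succAbove i) := by
    change ι (_ + _) = _
    rw [map_add, hιC, map_sum]
    congr 1
    refine Finset.sum_congr rfl fun i _ => ?_
    rw [map_mul, hιC, hιi]
  have hf0 : f 0 = MvPolynomial.C (u : R) * MvPolynomial.X j + ι l := by
    conv_lhs => rw [ELI.deg_one (f 0) h0, Fin.sum_univ_succAbove _ j, ← hu]
    rw [hιl]
    ring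
  have huu : MvPolynomial.C (u : R) * MvPolynomial.C ((u⁻¹ : Rˣ) : R) =
      (1 : MvPolynomial (Fin n) R) := by
    rw [← map_mul, Units.mul_inv, map_one]
  have huu' : MvPolynomial.C ((u⁻¹ : Rˣ) : R) * MvPolynomial.C (u : R) =
      (1 : MvPolynomial (Fin (n + 1)) R) := by
    rw [← map_mul, Units.inv_mul, map_one]
  have hσι : ∀ x, σ (ι x) = x := by
    intro x
    have : σ.comp ι = AlgHom.id R _ := by
      ext i
      change MvPolynomial.coeff _ (σ (ι (MvPolynomial.X i))) = _
      rw [hιi, hσi]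
      rfl
    exact DFunLike.congr_fun this x
  have hσf0 : σ (f 0) = 0 := by
    rw [hf0, map_add, map_mul, hσC, hσj, hσι]
    change MvPolynomial.C (u : R) * (- (MvPolynomial.C ((u⁻¹ : Rˣ) : R) * l)) + l = 0
    rw [mul_neg, ← mul_assoc, huu, one_mul, neg_add_cancel]
  have hισ : ∀ x, ι (σ x) - x ∈ Ideal.span {f 0} := by
    intro x
    have : ((Ideal.Quotient.mkₐ R (Ideal.span {f 0})).comp ι).comp σ =
        Ideal.Quotient.mkₐ R (Ideal.span {f 0}) := by
      apply MvPolynomial.algHom_ext
      intro i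
      change Ideal.Quotient.mk _ (ι (σ (MvPolynomial.X i))) = Ideal.Quotient.mk _ _
      rcases Fin.eq_self_or_eq_succAbove j i with rfl | ⟨i, rfl⟩
      · rw [hσj, Ideal.Quotient.eq, Ideal.mem_span_singleton']
        refine ⟨- MvPolynomial.C ((u⁻¹ : Rˣ) : R), ?_⟩
        change _ = ι (- (MvPolynomial.C ((u⁻¹ : Rˣ) : R) * l)) - _
        rw [map_neg, map_mul, hιC, hf0, mul_add, ← mul_assoc, neg_mul, huu']
        ring
      · rw [hσi, hιi]
    rw [← Ideal.Quotient.eq]
    exact DFunLike.congr_fun this x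
  refine ⟨fun _ => σ (f 1), (ELI.totalDegree_aeval_le _ hdσ (f 1)).trans h1, ?_⟩
  have hm0 : f 0 ∈ Ideal.span (Set.range f) := Ideal.subset_span ⟨0, rfl⟩
  have hm1 : f 1 ∈ Ideal.span (Set.range f) := Ideal.subset_span ⟨1, rfl⟩
  have hle : Ideal.span {f 0} ≤ Ideal.span (Set.range f) := by
    rw [Ideal.span_singleton_le_iff_mem]
    exact hm0
  refine ELI.equiv_of _ _ (σ.restrictScalars k) (ι.restrictScalars k) ?_ ?_ ?_ ?_
  · rw [Ideal.span_le]
    rintro _ ⟨i, rfl⟩
    fin_cases i
    · change σ (f 0) ∈ Ideal.span (Set.range fun _ : Fin 1 => σ (f 1))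
      rw [hσf0]
      exact zero_mem _
    · exact Ideal.subset_span ⟨0, rfl⟩
  · rw [Ideal.span_le]
    rintro _ ⟨i, rfl⟩
    change ι (σ (f 1)) ∈ Ideal.span (Set.range f)
    have := add_mem (hle (hισ (f 1))) hm1
    rwa [sub_add_cancel] at this
  · intro b
    change σ (ι b) - b ∈ _
    rw [hσι, sub_self]
    exact zero_mem _
  · intro a
    exact hle (hισ a)

end QCV
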