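import Pool.Agent.QCV.StR

set_option autoImplicit false

open Polynomial

namespace QCV

open CUB

namespace FAM

/-- The map of polynomial rings. -/
noncomputable def mpa {k R S : Type} [Field k] [CommRing R] [Algebra k R] [CommRing S]
    [Algebra k S] (n : ℕ) (ψ : R →ₐ[k] S) : MvPolynomial (Fin n) R →ₐ[k] MvPolynomial (Fin n) S where
  toRingHom := MvPolynomial.map ψ.toRingHom
  commutes' r := by
    rw [IsScalarTower.algebraMap_apply k R (MvPolynomial (Fin n) R),
      IsScalarTower.algebraMap_apply k S (MvPolynomial (Fin n) S)]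
    change MvPolynomial.map ψ.toRingHom (MvPolynomial.C _) = MvPolynomial.C _
    rw [MvPolynomial.map_C]
    congr 1
    exact ψ.commutes r

lemma mpa_apply {k R S : Type} [Field k] [CommRing R] [Algebra k R] [CommRing S]
    [Algebra k S] (n : ℕ) (ψ : R →ₐ[k] S) (x : MvPolynomial (Fin n) R) :
    mpa n ψ x = MvPolynomial.map ψ.toRingHom x := rfl

lemma map_span {R S ι : Type} [CommRing R] [CommRing S] (n : ℕ) (ψ : R →+* S)
    (f : ι → MvPolynomial (Fin n) R) :
    (Ideal.span (Set.range f)).map (MvPolynomial.map ψ) = Ideal.span (Set.range (mf ψ f)) := by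
  rw [Ideal.map_span, ← Set.range_comp]
  rfl

/-- The induced map. -/
noncomputable def ind {k R S ι : Type} [Field k] [CommRing R] [Algebra k R] [CommRing S]
    [Algebra k S] (n : ℕ) (ψ : R →ₐ[k] S) (f : ι → MvPolynomial (Fin n) R) :
    ER f →ₐ[k] ER (mf ψ.toRingHom f) :=
  Ideal.quotientMapₐ _ (mpa n ψ) (by
    rw [← Ideal.map_le_iff_le_comap]
    exact (map_span n ψ.toRingHom f).le)

lemma ind_mk {k R S ι : Type} [Field k] [CommRing R] [Algebra k R] [CommRing S]
    [Algebra k S] (n : ℕ) (ψ : R →ₐ[k] S) (f : ι → MvPolynomial (Fin n) R)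
    (x : MvPolynomial (Fin n) R) :
    ind n ψ f (Ideal.Quotient.mk _ x) = Ideal.Quotient.mk _ (MvPolynomial.map ψ.toRingHom x) := rfl

lemma ind_surj {k R S ι : Type} [Field k] [CommRing R] [Algebra k R] [CommRing S]
    [Algebra k S] (n : ℕ) (ψ : R →ₐ[k] S) (f : ι → MvPolynomial (Fin n) R)
    (h : Function.Surjective ψ) : Function.Surjective (ind n ψ f) := by
  intro y
  obtain ⟨y, rfl⟩ := Ideal.Quotient.mk_surjective y
  obtain ⟨x, rfl⟩ := MvPolynomial.map_surjective ψ.toRingHom h y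
  exact ⟨Ideal.Quotient.mk _ x, rfl⟩

lemma ind_ker {k R S ι : Type} [Field k] [CommRing R] [Algebra k R] [CommRing S]
    [Algebra k S] (n : ℕ) (ψ : R →ₐ[k] S) (f : ι → MvPolynomial (Fin n) R)
    (h : Function.Surjective ψ) (a : R) (ha : RingHom.ker ψ.toRingHom = Ideal.span {a}) :
    RingHom.ker (ind n ψ f).toRingHom =
      Ideal.span {(Ideal.Quotient.mk _ (MvPolynomial.C a) : ER f)} := by
  have hk : RingHom.ker (MvPolynomial.map (σ := Fin n) ψ.toRingHom) =
      Ideal.span {MvPolynomial.C a} := by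
    rw [MvPolynomial.ker_map, ha, Ideal.map_span, Set.image_singleton]
  apply le_antisymm
  · intro x hx
    obtain ⟨x, rfl⟩ := Ideal.Quotient.mk_surjective x
    have h1 : MvPolynomial.map ψ.toRingHom x ∈ Ideal.span (Set.range (mf ψ.toRingHom f)) := by
      rw [← Ideal.Quotient.eq_zero_iff_mem]
      exact hx
    rw [← map_span, Ideal.mem_map_iff_of_surjective _
      (MvPolynomial.map_surjective ψ.toRingHom h)] at h1
    obtain ⟨y, hy, hxy⟩ := h1
    have h2 : x - y ∈ Ideal.span {MvPolynomial.C a} := by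
      rw [← hk, RingHom.mem_ker, map_sub, hxy, sub_self]
    rw [Ideal.mem_span_singleton'] at h2
    obtain ⟨c, hc⟩ := h2
    have h3 : (Ideal.Quotient.mk (Ideal.span (Set.range f)) x) =
        Ideal.Quotient.mk _ c * Ideal.Quotient.mk _ (MvPolynomial.C a) := by
      rw [← map_mul, hc, map_sub, Ideal.Quotient.eq_zero_iff_mem.2 hy, sub_zero]
    rw [h3]
    exact Ideal.mul_mem_left _ _ (Ideal.mem_span_singleton_self _)
  · rw [Ideal.span_le]
    rintro _ rfl
    change ind n ψ f (Ideal.Quotient.mk _ (MvPolynomial.C a)) = 0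
    rw [ind_mk, MvPolynomial.map_C]
    have : ψ.toRingHom a = 0 := by
      rw [← RingHom.mem_ker, ha]
      exact Ideal.mem_span_singleton_self _
    rw [this, map_zero, map_zero]

attribute [local instance] MvPolynomial.algebraMvPolynomial in
lemma ind_away {k R S ι : Type} [Field k] [CommRing R] [Algebra k R] [CommRing S]
    [Algebra k S] (n : ℕ) (ψ : R →ₐ[k] S) (f : ι → MvPolynomial (Fin n) R) (a : R)
    (h : @IsLocalization.Away R _ a S _ ψ.toRingHom.toAlgebra) :
    @IsLocalization.Away (ER f) _ (Ideal.Quotient.mk _ (MvPolynomial.C a)) (ER (mf ψ.toRingHom f)) _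
      (ind n ψ f).toRingHom.toAlgebra := by
  let _i1 := ψ.toRingHom.toAlgebra
  have h' : IsLocalization.Away a S := h
  have hloc : IsLocalization ((Submonoid.powers a).map (MvPolynomial.C (σ := Fin n)))
      (MvPolynomial (Fin n) S) := MvPolynomial.isLocalization _ _
  have halg : algebraMap (MvPolynomial (Fin n) R) (MvPolynomial (Fin n) S) =
      MvPolynomial.map ψ.toRingHom := rfl
  let _i2 : Algebra (ER f) (ER (mf ψ.toRingHom f)) := (ind n ψ f).toRingHom.toAlgebra
  change IsLocalization.Away (Ideal.Quotient.mk _ (MvPolynomial.C a) : ER f) (ER (mf ψ.toRingHom f))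
  have hmap : ∀ x : MvPolynomial (Fin n) R, algebraMap (ER f) (ER (mf ψ.toRingHom f))
      (Ideal.Quotient.mk _ x) = Ideal.Quotient.mk _ (MvPolynomial.map ψ.toRingHom x) :=
    fun x => rfl
  have hpow : ∀ m : ℕ, ∃ s : (Submonoid.powers a).map (MvPolynomial.C (σ := Fin n)),
      (s : MvPolynomial (Fin n) R) = (MvPolynomial.C a) ^ m := fun m =>
    ⟨⟨(MvPolynomial.C a) ^ m, ⟨a ^ m, ⟨m, rfl⟩, by rw [map_pow]⟩⟩, rfl⟩
  have hpow' : ∀ s : (Submonoid.powers a).map (MvPolynomial.C (σ := Fin n)), ∃ m : ℕ,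
      (s : MvPolynomial (Fin n) R) = (MvPolynomial.C a) ^ m := by
    rintro ⟨_, _, ⟨m, rfl⟩, rfl⟩
    exact ⟨m, by simp⟩
  refine ⟨⟨?_, ?_, ?_⟩⟩
  · rintro ⟨_, m, rfl⟩
    change IsUnit (algebraMap _ _ ((Ideal.Quotient.mk _ (MvPolynomial.C a)) ^ m))
    rw [← map_pow, hmap]
    obtain ⟨s, hs⟩ := hpow m
    have := IsLocalization.map_units (MvPolynomial (Fin n) S) s
    rw [hs, halg] at this
    exact this.map _
  · intro z
    obtain ⟨z, rfl⟩ := Ideal.Quotient.mk_surjective z
    obtain ⟨⟨x, s⟩, hz⟩ := IsLocalization.surj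
      ((Submonoid.powers a).map (MvPolynomial.C (σ := Fin n))) z
    obtain ⟨m, hm⟩ := hpow' s
    refine ⟨⟨Ideal.Quotient.mk _ x, ⟨(Ideal.Quotient.mk _ (MvPolynomial.C a)) ^ m, m, rfl⟩⟩, ?_⟩
    change Ideal.Quotient.mk _ z * algebraMap (ER f) (ER (mf ψ.toRingHom f))
      ((Ideal.Quotient.mk _ (MvPolynomial.C a)) ^ m) =
      algebraMap (ER f) (ER (mf ψ.toRingHom f)) (Ideal.Quotient.mk _ x)
    rw [← map_pow, hmap, hmap, ← map_mul]
    congr 1
    simp only [hm, halg] at hz
    exact hz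
  · intro x y hxy
    obtain ⟨x, rfl⟩ := Ideal.Quotient.mk_surjective x
    obtain ⟨y, rfl⟩ := Ideal.Quotient.mk_surjective y
    rw [hmap, hmap, ← sub_eq_zero, ← map_sub, ← map_sub, Ideal.Quotient.eq_zero_iff_mem,
      ← map_span, ← halg] at hxy
    obtain ⟨⟨⟨w, hw⟩, s⟩, hws⟩ := (IsLocalization.mem_map_algebraMap_iff
      ((Submonoid.powers a).map (MvPolynomial.C (σ := Fin n))) (MvPolynomial (Fin n) S)).1 hxy
    rw [← map_mul] at hws
    obtain ⟨c, hc⟩ := IsLocalization.exists_of_eq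
      (M := (Submonoid.powers a).map (MvPolynomial.C (σ := Fin n))) hws
    obtain ⟨m, hm⟩ := hpow' s
    obtain ⟨l, hl⟩ := hpow' c
    have h1 : (MvPolynomial.C a) ^ (l + m) * (x - y) ∈ Ideal.span (Set.range f) := by
      have : (MvPolynomial.C a) ^ (l + m) * (x - y) =
          (c : MvPolynomial (Fin n) R) * ((x - y) * (s : MvPolynomial (Fin n) R)) := by
        rw [hm, hl]
        ring
      rw [this, hc]
      exact Ideal.mul_mem_left _ _ hw
    refine ⟨⟨(Ideal.Quotient.mk _ (MvPolynomial.C a)) ^ (l + m), l + m, rfl⟩, ?_⟩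
    change (Ideal.Quotient.mk _ (MvPolynomial.C a)) ^ (l + m) * Ideal.Quotient.mk _ x =
      (Ideal.Quotient.mk _ (MvPolynomial.C a)) ^ (l + m) * Ideal.Quotient.mk _ y
    rw [← sub_eq_zero, ← mul_sub, ← map_sub, ← map_pow, ← map_mul]
    exact Ideal.Quotient.eq_zero_iff_mem.2 h1

end FAM

theorem t_FAM : S_FAM := by
  refine ⟨?_, ?_⟩
  · intro k R Z U ι _ _ _ _ _ _ _ n a z u f hs
    exact ⟨FAM.ind n z f, FAM.ind n u f, FAM.ind_surj n z f hs.surj, FAM.ind_ker n z f hs.surj a hs.ker,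
      FAM.ind_away n u f a hs.away⟩
  · intro k R S ι _ _ _ _ _ n e f
    have hbij : Function.Bijective (FAM.ind n e.toAlgHom f) := by
      refine ⟨?_, FAM.ind_surj n _ f e.surjective⟩
      rw [injective_iff_map_eq_zero]
      intro x hx
      obtain ⟨x, rfl⟩ := Ideal.Quotient.mk_surjective x
      have h1 : MvPolynomial.map e.toAlgHom.toRingHom x ∈
          Ideal.span (Set.range (mf e.toAlgHom.toRingHom f)) := by
        rw [← Ideal.Quotient.eq_zero_iff_mem]
        exact hx
      rw [← FAM.map_span, Ideal.mem_map_iff_of_surjective _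
        (MvPolynomial.map_surjective e.toAlgHom.toRingHom e.surjective)] at h1
      obtain ⟨y, hy, hxy⟩ := h1
      have : y = x := MvPolynomial.map_injective _ e.injective hxy
      rw [← this]
      exact Ideal.Quotient.eq_zero_iff_mem.2 hy
    exact ⟨AlgEquiv.ofBijective _ hbij⟩

end QCV
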