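import Pool.Agent.QCV.StR

set_option autoImplicit false

open Polynomial

namespace QCV

open CUB

theorem t_IGE : M_IGE := by
  intro hDLR hDLM hSPR k ι _ P n hP hA hB R _ _ _ f hR
  refine hSPR k ι P hP 1 n (fun _ _ _ => True) (fun _ _ _ _ _ _ _ => trivial) ?_ R f hR trivial
  intro D _ _ _ _ f hD _
  refine ⟨1, one_ne_zero, ?_⟩
  have hD' : DL k (Localization.Away (1 : D)) 1 :=
    hDLR.2.1 k D (Localization.Away (1 : D)) 1 1 (awayHom k 1) (isLocalization_awayHom 1) hD
  have hinj : Function.Injective (algebraMap D (Localization.Away (1 : D))) :=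
    IsLocalization.injective _ (powers_le_nonZeroDivisors_of_noZeroDivisors one_ne_zero)
  have hdom : IsDomain (Localization.Away (1 : D)) :=
    IsLocalization.isDomain_localization
      (powers_le_nonZeroDivisors_of_noZeroDivisors one_ne_zero)
  by_cases h0 : ∀ j, f j = 0
  · have h1 := hA (Localization.Away (1 : D)) hD'
    have h2 : Ideal.span (Set.range (mf (algebraMap D (Localization.Away (1 : D))) f)) = ⊥ := by
      rw [Ideal.span_eq_bot]
      rintro _ ⟨j, rfl⟩
      change MvPolynomial.map _ (f j) = 0
      rw [h0 j, map_zero]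
    exact hP.iso ((AlgEquiv.quotientBot k (MvPolynomial (Fin n) (Localization.Away (1 : D)))).symm.trans
      (Ideal.quotientEquivAlgOfEq k h2.symm)) h1
  · push Not at h0
    obtain ⟨j, hj⟩ := h0
    apply hB
    have h1 : mf (algebraMap D (Localization.Away (1 : D))) f j ≠ 0 := by
      change MvPolynomial.map _ (f j) ≠ 0
      rw [Ne, ← map_zero (MvPolynomial.map (algebraMap D (Localization.Away (1 : D))))]
      exact fun h => hj (MvPolynomial.map_injective _ hinj h)
    have h2 : DL k (MvPolynomial (Fin n) (Localization.Away (1 : D))) (n + 1) := by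
      rw [add_comm]
      exact hDLM k _ 1 n hD'
    have h3 := hDLR.2.2.2.2 k (MvPolynomial (Fin n) (Localization.Away (1 : D))) n _ h1 h2
    have hle : Ideal.span {mf (algebraMap D (Localization.Away (1 : D))) f j} ≤
        Ideal.span (Set.range (mf (algebraMap D (Localization.Away (1 : D))) f)) := by
      rw [Ideal.span_singleton_le_iff_mem]
      exact Ideal.subset_span ⟨j, rfl⟩
    exact hDLR.1 k _ _ n (Ideal.Quotient.factorₐ k hle) (Ideal.Quotient.factor_surjective hle) h3

end QCV
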