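import Pool.Agent.QCV.StR

set_option autoImplicit false

open Polynomial

namespace QCV

open CUB

theorem t_LIN : S_LIN := by
  intro k R _ _ _ m f hf h0
  set q := MvPolynomial.finSuccEquiv R m (f 0) with hq
  have hdeg : ∀ i, q.coeff i ≠ 0 → (q.coeff i).totalDegree + i ≤ 2 := fun i hi =>
    (MvPolynomial.totalDegree_coeff_finSuccEquiv_add_le (f 0) i hi).trans hf
  have h2 : q.coeff 2 = 0 := by
    by_contra hne
    have h3 := hdeg 2 hne
    have h4 : (q.coeff 2).totalDegree = 0 := by omega
    rw [MvPolynomial.totalDegree_eq_zero_iff_eq_C] at h4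
    have h5 : MvPolynomial.coeff 0 (q.coeff 2) = 0 := by
      rw [hq, MvPolynomial.finSuccEquiv_coeff_coeff]
      have e : Finsupp.cons 2 (0 : Fin m →₀ ℕ) = Finsupp.single 0 2 := by
        ext j
        refine Fin.cases ?_ (fun j => ?_) j
        · simp
        · simp
      rw [e]
      exact h0
    rw [h5, MvPolynomial.C_0] at h4
    exact hne h4
  have h3 : q.natDegree ≤ 1 := by
    rw [Polynomial.natDegree_le_iff_coeff_eq_zero]
    intro N hN
    by_contra hne
    have h4 := hdeg N hne
    have h5 : N = 2 := by omega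
    rw [h5] at hne
    exact hne h2
  refine ⟨q.coeff 1, q.coeff 0, ?_, ?_, ⟨?_⟩⟩
  · by_cases h4 : q.coeff 1 = 0
    · rw [h4, MvPolynomial.totalDegree_zero]; omega
    · have := hdeg 1 h4
      omega
  · by_cases h4 : q.coeff 0 = 0
    · rw [h4, MvPolynomial.totalDegree_zero]; omega
    · have := hdeg 0 h4
      omega
  · refine Ideal.quotientEquivAlg _ _ ((MvPolynomial.finSuccEquiv R m).restrictScalars k) ?_
    rw [Ideal.map_span]
    congr 1
    have e1 : Set.range f = {f 0} := by
      ext x
      constructor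
      · rintro ⟨j, rfl⟩
        fin_cases j
        rfl
      · rintro rfl
        exact ⟨0, rfl⟩
    rw [e1, Set.image_singleton]
    congr 1
    exact (Polynomial.eq_X_add_C_of_natDegree_le_one h3).symm

end QCV
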