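import Pool.Agent.QCV.StR

set_option autoImplicit false

open Polynomial

namespace QCV

open CUB

theorem t_LNF : M_LNF := by
  intro hPLY hLNR k _ P d m hP hL R _ _ _ g h hR hg hh
  have hPS : P (MvPolynomial (Fin m) R) := (hPLY k P hP.toCls0 hP.line R m).1 (hP.base R hR)
  have h1 : P (MvPolynomial (Fin m) R ⧸ Ideal.span {g, h}) := by
    have := hL R ![g, h] hR hg hh
    have e : Ideal.span (Set.range ![g, h]) = Ideal.span {g, h} := by
      congr 1
      ext x
      simp only [Matrix.range_cons, Matrix.range_empty, Set.union_empty, Set.singleton_union]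
    exact hP.iso (Ideal.quotientEquivAlgOfEq k e) this
  have h2 : P (MvPolynomial (Fin m) R ⧸ Ideal.span {g}) := by
    have := hL R ![g, 0] hR hg (by simp)
    have e : Ideal.span (Set.range ![g, 0]) = Ideal.span {g} := by
      apply le_antisymm
      · rw [Ideal.span_le]
        rintro _ ⟨j, rfl⟩
        fin_cases j
        · exact Ideal.subset_span rfl
        · exact zero_mem _
      · rw [Ideal.span_le]
        rintro _ rfl
        exact Ideal.subset_span ⟨0, rfl⟩
    exact hP.iso (Ideal.quotientEquivAlgOfEq k e) this
  have h3 : P (Localization.Away g) := by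
    refine hP.opn g (Ideal.Quotient.mkₐ k (Ideal.span {g})) (awayHom k g) ⟨?_, ?_, ?_⟩ hPS h2
    · exact Ideal.Quotient.mkₐ_surjective k _
    · exact Ideal.mk_ker
    · exact isLocalization_awayHom g
  obtain ⟨z', u', hs⟩ := hLNR k (MvPolynomial (Fin m) R) (Localization.Away g) g h (awayHom k g)
    (isLocalization_awayHom g)
  exact hP.glue _ z' u' hs (hP.line _ h1) h3

end QCV
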