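import Pool.Agent.QCV.R_VRQ

set_option autoImplicit false

open Polynomial

namespace QCV

open CUB VRQ

theorem t_LNR : S_LNR := by
  intro k S U _ _ _ _ _ g h u hu
  let I : Ideal S := Ideal.span {g, h}
  let J : Ideal S[X] := Ideal.span {C g * X + C h}
  let mk : S[X] →ₐ[k] S[X] ⧸ J := Ideal.Quotient.mkₐ k J
  have hmk : Function.Surjective mk := Ideal.Quotient.mkₐ_surjective k J
  have hrel : mk (C g) * mk X + mk (C h) = 0 := by
    rw [← map_mul, ← map_add]
    exact Ideal.Quotient.eq_zero_iff_mem.mpr (Ideal.subset_span rfl)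
  -- the closed part
  have hg0 : Ideal.Quotient.mkₐ k I g = 0 :=
    Ideal.Quotient.eq_zero_iff_mem.mpr (Ideal.subset_span (Or.inl rfl))
  have hh0 : Ideal.Quotient.mkₐ k I h = 0 :=
    Ideal.Quotient.eq_zero_iff_mem.mpr (Ideal.subset_span (Or.inr rfl))
  have hmC : ∀ s, mapX (Ideal.Quotient.mkₐ k I) (C s) = C (Ideal.Quotient.mkₐ k I s) :=
    fun s => Polynomial.map_C _
  have hz0 : ∀ a ∈ J, mapX (Ideal.Quotient.mkₐ k I) a = 0 := by
    intro a ha
    obtain ⟨c, rfl⟩ := Ideal.mem_span_singleton.mp ha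
    rw [map_mul, map_add, map_mul, hmC, hmC, hg0, hh0, C_0, zero_mul, add_zero, zero_mul]
  let z' : (S[X] ⧸ J) →ₐ[k] (S ⧸ I)[X] := Ideal.Quotient.liftₐ J (mapX (Ideal.Quotient.mkₐ k I)) hz0
  have hz' : ∀ p, z' (mk p) = mapX (Ideal.Quotient.mkₐ k I) p := fun p => rfl
  have hzs : Function.Surjective z' := by
    intro x
    obtain ⟨p, hp⟩ := mapX_surjective _ (Ideal.Quotient.mkₐ_surjective k I) x
    exact ⟨mk p, hp⟩
  have hzk : RingHom.ker z'.toRingHom = Ideal.span {mk (C g)} := by
    apply le_antisymm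
    · intro x hx
      obtain ⟨p, rfl⟩ := hmk x
      have h1 : p ∈ RingHom.ker (mapRingHom (Ideal.Quotient.mk I)) := hx
      rw [Polynomial.ker_mapRingHom, Ideal.mk_ker, Ideal.map_span, Set.image_pair,
        Ideal.mem_span_pair] at h1
      obtain ⟨a, b, rfl⟩ := h1
      have h2 : mk (C h) = - (mk (C g) * mk X) := by
        rw [eq_neg_iff_add_eq_zero, add_comm]
        exact hrel
      rw [map_add, map_mul, map_mul, h2, Ideal.mem_span_singleton]
      exact ⟨mk a - mk b * mk X, by ring⟩
    · rw [Ideal.span_singleton_le_iff_mem]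
      change z' (mk (C g)) = 0
      rw [hz', hmC, hg0, C_0]
  -- the open part
  let _ : Algebra S U := u.toRingHom.toAlgebra
  have hst : IsScalarTower k S U := IsScalarTower.of_algebraMap_eq' u.comp_algebraMap.symm
  have hu' : IsLocalization.Away g U := hu
  let iv : U := IsLocalization.Away.invSelf (R := S) g
  have hiv : u g * iv = 1 := IsLocalization.Away.mul_invSelf (R := S) g
  have hu0 : ∀ a ∈ J, evs u (-(u h * iv)) a = 0 := by
    intro a ha
    obtain ⟨c, rfl⟩ := Ideal.mem_span_singleton.mp ha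
    rw [map_mul, map_add, map_mul, evs_C, evs_C, evs_X]
    have h1 : u g * -(u h * iv) + u h = 0 := by linear_combination (- u h) * hiv
    rw [h1, zero_mul]
  let u' : (S[X] ⧸ J) →ₐ[k] U := Ideal.Quotient.liftₐ J (evs u (-(u h * iv))) hu0
  have hu'C : ∀ s, u' (mk (C s)) = u s := fun s => evs_C _ _ _
  have hu'X : u' (mk X) = -(u h * iv) := evs_X _ _
  refine ⟨z', u', hzs, hzk, ?_⟩
  let a : S[X] ⧸ J := mk (C g)
  let aw : (S[X] ⧸ J) →ₐ[k] Localization.Away a := awayHom k a
  let ba : S →ₐ[k] Localization.Away a := (aw.comp mk).comp (CC k S)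
  have hau : IsUnit (ba g) := IsLocalization.Away.algebraMap_isUnit a
  have hyu : ∀ y : Submonoid.powers g, IsUnit (ba y) := by
    rintro ⟨_, n, rfl⟩
    change IsUnit (ba (g ^ n))
    rw [map_pow]
    exact hau.pow n
  let β : U →ₐ[k] Localization.Away a :=
    IsLocalization.liftAlgHom (M := Submonoid.powers g) (f := ba) hyu
  have hβ : ∀ x : S, β (u x) = ba x := fun x =>
    IsLocalization.lift_eq (M := Submonoid.powers g) (g := ba.toRingHom) hyu x
  have hua : IsUnit (u'.toRingHom a) := by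
    change IsUnit (u' (mk (C g)))
    rw [hu'C]
    exact IsUnit.of_mul_eq_one iv hiv
  let α : Localization.Away a →+* U := IsLocalization.Away.lift a hua
  have hα : ∀ x, α (algebraMap (S[X] ⧸ J) _ x) = u' x := fun x => IsLocalization.Away.lift_eq a hua x
  have h0 : (β.comp u').comp mk = aw.comp mk := by
    apply pl_ext
    · intro x
      change β (u' (mk (C x))) = aw (mk (C x))
      rw [hu'C, hβ]
      rfl
    · change β (u' (mk X)) = aw (mk X)
      have h2 : aw (mk (C g)) * β iv = 1 := by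
        have h3 : aw (mk (C g)) = β (u g) := (hβ g).symm
        rw [h3, ← map_mul, hiv, map_one]
      have h4 : β (u h) = aw (mk (C h)) := hβ h
      have h5 := congrArg aw hrel
      rw [map_add, map_mul, map_zero] at h5
      rw [hu'X, map_neg, map_mul, h4]
      linear_combination (-β iv) * h5 + aw (mk X) * h2
  refine away_of_inv a _ α β.toRingHom hα ?_ ?_
  · apply IsLocalization.ringHom_ext (Submonoid.powers a)
    refine RingHom.ext fun x => ?_
    obtain ⟨p, rfl⟩ := hmk x
    change β (α (algebraMap (S[X] ⧸ J) _ (mk p))) = algebraMap (S[X] ⧸ J) _ (mk p)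
    rw [hα]
    exact AlgHom.congr_fun h0 p
  · apply IsLocalization.ringHom_ext (Submonoid.powers g)
    refine RingHom.ext fun x => ?_
    change α (β (u x)) = u x
    rw [hβ]
    exact (hα _).trans (hu'C x)

end QCV
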