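import Pool.Agent.QCV.StR

set_option autoImplicit false

open Polynomial

namespace QCV

open CUB

namespace NOE

variable {k R : Type} [Field k] [CommRing R] [Algebra k R]

lemma ker_factor {I J : Ideal R} (h : I ≤ J) (a : R) (hJ : J = I ⊔ Ideal.span {a}) :
    RingHom.ker (Ideal.Quotient.factorₐ k h).toRingHom = Ideal.span {Ideal.Quotient.mk I a} := by
  have h1 : RingHom.ker (Ideal.Quotient.factorₐ k h).toRingHom = J.map (Ideal.Quotient.mk I) :=
    Ideal.Quotient.factor_ker h
  rw [h1, hJ, Ideal.map_sup, Ideal.map_quotient_self, bot_sup_eq, Ideal.map_span,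
    Set.image_singleton]

lemma strat_away {I J : Ideal R} (h : I ≤ J) (a : R) (hJ : J = I ⊔ Ideal.span {a}) :
    Strat (Ideal.Quotient.mk I a) (Ideal.Quotient.factorₐ k h)
      (awayHom k (Ideal.Quotient.mk I a)) :=
  ⟨Ideal.Quotient.factor_surjective h, ker_factor h a hJ, isLocalization_awayHom _⟩

/-- The open part does not see the ideal generated by `b` if `a * b = 0`. -/
lemma away_comp {A B U : Type} [CommRing A] [CommRing B] [CommRing U] [Algebra k A] [Algebra k B]
    [Algebra k U] (w : A →ₐ[k] B) (u : B →ₐ[k] U) (a b : A) (hw : Function.Surjective w)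
    (hk : RingHom.ker w.toRingHom = Ideal.span {b}) (hab : a * b = 0)
    (hu : @IsLocalization.Away B _ (w a) U _ u.toRingHom.toAlgebra) :
    @IsLocalization.Away A _ a U _ (u.comp w).toRingHom.toAlgebra := by
  let _i1 := u.toRingHom.toAlgebra
  have hu' : IsLocalization.Away (w a) U := hu
  let i2 : Algebra A U := (u.comp w).toRingHom.toAlgebra
  change IsLocalization.Away a U
  have hmap : ∀ x : A, algebraMap A U x = algebraMap B U (w x) := fun x => rfl
  refine ⟨⟨?_, ?_, ?_⟩⟩
  · rintro ⟨_, n, rfl⟩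
    rw [hmap]
    have := IsLocalization.map_units U (⟨(w a) ^ n, n, rfl⟩ : Submonoid.powers (w a))
    simpa using this
  · intro z
    obtain ⟨⟨y, ⟨_, n, rfl⟩⟩, hz⟩ := IsLocalization.surj (Submonoid.powers (w a)) z
    obtain ⟨x, rfl⟩ := hw y
    refine ⟨⟨x, ⟨a ^ n, n, rfl⟩⟩, ?_⟩
    rw [hmap, hmap]
    simpa using hz
  · intro x y hxy
    rw [hmap, hmap] at hxy
    obtain ⟨⟨_, n, rfl⟩, hc⟩ := IsLocalization.exists_of_eq (M := Submonoid.powers (w a)) hxy
    have h1 : a ^ n * x - a ^ n * y ∈ RingHom.ker w.toRingHom := by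
      rw [RingHom.mem_ker]
      change w _ = 0
      rw [map_sub, map_mul, map_mul, map_pow]
      exact sub_eq_zero.2 hc
    rw [hk, Ideal.mem_span_singleton'] at h1
    obtain ⟨r, hr⟩ := h1
    refine ⟨⟨a ^ (n + 1), n + 1, rfl⟩, ?_⟩
    have h2 : a * (a ^ n * x - a ^ n * y) = 0 := by
      rw [← hr, mul_left_comm, hab, mul_zero]
    change a ^ (n + 1) * x = a ^ (n + 1) * y
    rw [← sub_eq_zero, ← h2]
    ring

end NOE

theorem t_NOE : S_NOE := by
  intro k R _ _ _ _ F hF hD
  have : IsNoetherianRing R := Algebra.FiniteType.isNoetherianRing k R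
  have key : ∀ I : Ideal R, F (R ⧸ I) (Ideal.Quotient.mkₐ k I) := by
    intro I
    induction I using WellFoundedGT.induction with
    | _ I ih =>
    by_cases hp : I.IsPrime
    · obtain ⟨a, ha, hFa⟩ := hD (R ⧸ I) (Ideal.Quotient.mkₐ k I) (Ideal.Quotient.mkₐ_surjective k I)
      obtain ⟨a, rfl⟩ := Ideal.Quotient.mk_surjective a
      have haI : a ∉ I := fun h => ha (Ideal.Quotient.eq_zero_iff_mem.2 h)
      have hle : I ≤ I ⊔ Ideal.span {a} := le_sup_left
      have hlt : I < I ⊔ Ideal.span {a} := by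
        refine lt_of_le_of_ne hle fun h => haI ?_
        rw [h]
        exact Ideal.mem_sup_right (Ideal.mem_span_singleton_self a)
      refine hF.glue _ _ _ _ (NOE.strat_away hle a rfl) ?_ hFa
      exact ih _ hlt
    · rw [Ideal.not_isPrime_iff] at hp
      rcases hp with rfl | ⟨a, ha, b, hb, hab⟩
      · exact hF.triv _ _ (Ideal.Quotient.subsingleton_iff.2 rfl)
      · have hlea : I ≤ I ⊔ Ideal.span {a} := le_sup_left
        have hlta : I < I ⊔ Ideal.span {a} := by
          refine lt_of_le_of_ne hlea fun h => ha ?_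
          rw [h]
          exact Ideal.mem_sup_right (Ideal.mem_span_singleton_self a)
        have hleb : I ≤ I ⊔ Ideal.span {b} := le_sup_left
        have hltb : I < I ⊔ Ideal.span {b} := by
          refine lt_of_le_of_ne hleb fun h => hb ?_
          rw [h]
          exact Ideal.mem_sup_right (Ideal.mem_span_singleton_self b)
        have hleab : I ⊔ Ideal.span {b} ≤ (I ⊔ Ideal.span {b}) ⊔ Ideal.span {a} := le_sup_left
        have h1 := hF.opn _ _ _ (Ideal.Quotient.mkₐ k (I ⊔ Ideal.span {b}))
          (NOE.strat_away hleab a rfl) (ih _ hltb) (ih _ (lt_of_lt_of_le hltb hleab))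
        refine hF.glue (Ideal.Quotient.mk I a) (Ideal.Quotient.factorₐ k hlea)
          ((awayHom k (Ideal.Quotient.mk (I ⊔ Ideal.span {b}) a)).comp
            (Ideal.Quotient.factorₐ k hleb)) (Ideal.Quotient.mkₐ k I) ⟨?_, ?_, ?_⟩ (ih _ hlta) h1
        · exact Ideal.Quotient.factor_surjective hlea
        · exact NOE.ker_factor hlea a rfl
        · refine NOE.away_comp (Ideal.Quotient.factorₐ k hleb) _ _ (Ideal.Quotient.mk I b)
            (Ideal.Quotient.factor_surjective hleb) (NOE.ker_factor hleb b rfl) ?_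
            (isLocalization_awayHom _)
          rw [← map_mul]
          exact Ideal.Quotient.eq_zero_iff_mem.2 hab
  have := hF.iso (AlgEquiv.quotientBot k R) _ (key ⊥)
  exact this

end QCV
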