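import Pool.Agent.QCV.StR

set_option autoImplicit false

open Polynomial

namespace QCV

open CUB

theorem t_PLY : S_PLY := by
  intro k _ P hP hl R _ _ _ n
  have h1 : ∀ n : ℕ, P R → P (MvPolynomial (Fin n) R) := by
    intro n hR
    induction n with
    | zero =>
      exact hP.iso ((MvPolynomial.isEmptyAlgEquiv R (Fin 0)).restrictScalars k).symm hR
    | succ n ih =>
      exact hP.iso ((MvPolynomial.finSuccEquiv R n).restrictScalars k).symm (hl _ ih)
  refine ⟨h1 n, ?_, ?_⟩
  · intro ι f hf hR
    have h2 : Ideal.span (Set.range f) = ⊥ := by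
      rw [Ideal.span_eq_bot]
      rintro _ ⟨j, rfl⟩
      exact hf j
    exact hP.iso ((AlgEquiv.quotientBot k (MvPolynomial (Fin n) R)).symm.trans
      (Ideal.quotientEquivAlgOfEq k h2.symm)) (h1 n hR)
  · intro ι f h
    apply hP.triv
    rw [Ideal.Quotient.subsingleton_iff, Ideal.eq_top_iff_one]
    exact h

end QCV
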