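import Pool.Agent.QCV.StR

set_option autoImplicit false

open Polynomial

namespace QCV

open CUB

section

variable {k A : Type} [Field k] [CommRing A] [Algebra k A]

/-- the homomorphism `y ↦ ε`, where `ε ^ 2 = ε` -/
noncomputable def pr01 (ε : A) (h : ε ^ 2 - ε = 0) : Q A 0 →ₐ[k] A :=
  Qlift (AlgHom.id k A) ε (h.trans (map_zero _).symm)

lemma pr01_yy (ε : A) (h : ε ^ 2 - ε = 0) : pr01 (k := k) ε h (yy 0) = ε := Qlift_yy _ _ _

lemma pr01_alg (ε : A) (h : ε ^ 2 - ε = 0) (a : A) :
    pr01 (k := k) ε h (algebraMap A (Q A 0) a) = a := Qlift_algebraMap _ _ _ _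

lemma pr01_surjective (ε : A) (h : ε ^ 2 - ε = 0) : Function.Surjective (pr01 (k := k) ε h) :=
  fun a => ⟨algebraMap A (Q A 0) a, pr01_alg _ _ _⟩

lemma yy0_idem : (yy (0 : A)) * (yy (0 : A)) = yy 0 := by
  have h1 := yy_eq (0 : A)
  rw [map_zero, sub_zero, sub_eq_zero, sq] at h1
  exact h1

end

theorem t_PRD : S_PRD := by
  intro k _ P hP A _ _ _ hA
  refine hP.glue (yy (0 : A)) (pr01 (k := k) (0 : A) (by ring)) (pr01 (k := k) (1 : A) (by ring))
    ⟨pr01_surjective _ _, ?_, ?_⟩ hA hA
  · apply le_antisymm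
    · intro x hx
      obtain ⟨a, b, rfl⟩ := Q_span x
      have h1 : pr01 (k := k) (0 : A) (by ring)
        (algebraMap A (Q A 0) a + algebraMap A (Q A 0) b * yy 0) = 0 := hx
      rw [map_add, map_mul, pr01_alg, pr01_alg, pr01_yy, mul_zero, add_zero] at h1
      rw [h1, map_zero, zero_add]
      exact Ideal.mul_mem_left _ _ (Ideal.subset_span rfl)
    · rw [Ideal.span_singleton_le_iff_mem]
      exact pr01_yy (k := k) (0 : A) (by ring)
  · let : Algebra (Q A 0) A := (pr01 (k := k) (1 : A) (by ring)).toRingHom.toAlgebra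
    apply IsLocalization.away_of_isIdempotentElem
    · exact yy0_idem
    · apply le_antisymm
      · intro x hx
        obtain ⟨a, b, rfl⟩ := Q_span x
        have h1 : pr01 (k := k) (1 : A) (by ring)
          (algebraMap A (Q A 0) a + algebraMap A (Q A 0) b * yy 0) = 0 := hx
        rw [map_add, map_mul, pr01_alg, pr01_alg, pr01_yy, mul_one] at h1
        rw [Ideal.mem_span_singleton]
        refine ⟨algebraMap A (Q A 0) a, ?_⟩
        have h2 : b = -a := by linear_combination h1
        rw [h2, map_neg]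
        ring
      · rw [Ideal.span_singleton_le_iff_mem]
        change pr01 (k := k) (1 : A) (by ring) (1 - yy 0) = 0
        rw [map_sub, map_one, pr01_yy, sub_self]
    · exact pr01_surjective (k := k) (1 : A) (by ring)

end QCV
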