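import Pool.Agent.QCV.StR

set_option autoImplicit false

open Polynomial

namespace QCV

open CUB

theorem t_Q01 : M_Q01 := by
  intro hDLR hDLM hSPR hPLY k _ P d hP
  constructor
  · intro R _ _ _ f hR _
    apply hP.base
    have h1 : DL k (MvPolynomial (Fin 0) R) d := hDLM k R d 0 hR
    exact hDLR.1 k _ _ d (Ideal.Quotient.mkₐ k _) (Ideal.Quotient.mkₐ_surjective k _) h1
  · intro R _ _ _ f hR hf
    refine hSPR k (Fin 1) P hP.toCls0 d 1 (fun _ _ _ => True) (fun _ _ _ _ _ _ _ => trivial) ?_ R f
      hR trivial
    intro D _ _ _ _ f hD _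
    refine ⟨1, one_ne_zero, ?_⟩
    have hD' : DL k (Localization.Away (1 : D)) d :=
      hDLR.2.1 k D (Localization.Away (1 : D)) d 1 (awayHom k 1) (isLocalization_awayHom 1) hD
    have hinj : Function.Injective (algebraMap D (Localization.Away (1 : D))) :=
      IsLocalization.injective _ (powers_le_nonZeroDivisors_of_noZeroDivisors one_ne_zero)
    have hdom : IsDomain (Localization.Away (1 : D)) :=
      IsLocalization.isDomain_localization
        (powers_le_nonZeroDivisors_of_noZeroDivisors one_ne_zero)
    by_cases h0 : f 0 = 0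
    · refine (hPLY k P hP.toCls0 hP.line _ 1).2.1 (Fin 1) _ ?_ (hP.base _ hD')
      intro j
      fin_cases j
      change MvPolynomial.map _ (f 0) = 0
      rw [h0, map_zero]
    · apply hP.base
      have h1 : mf (algebraMap D (Localization.Away (1 : D))) f 0 ≠ 0 := by
        change MvPolynomial.map _ (f 0) ≠ 0
        rw [Ne, ← map_zero (MvPolynomial.map (algebraMap D (Localization.Away (1 : D))))]
        exact fun h => h0 (MvPolynomial.map_injective _ hinj h)
      have h2 : DL k (MvPolynomial (Fin 1) (Localization.Away (1 : D))) (d + 1) :=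
        hDLM k _ d 1 hD'
      have h3 := hDLR.2.2.2.2 k (MvPolynomial (Fin 1) (Localization.Away (1 : D))) d _ h1 h2
      have hle : Ideal.span {mf (algebraMap D (Localization.Away (1 : D))) f 0} ≤
          Ideal.span (Set.range (mf (algebraMap D (Localization.Away (1 : D))) f)) := by
        rw [Ideal.span_singleton_le_iff_mem]
        exact Ideal.subset_span ⟨0, rfl⟩
      exact hDLR.1 k _ _ d (Ideal.Quotient.factorₐ k hle) (Ideal.Quotient.factor_surjective hle) h3

end QCV
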