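import Pool.Agent.QCV.Aux0

set_option autoImplicit false

open Polynomial

namespace QCV

open CUB

lemma eval_dpoly {T S : Type} [CommRing T] [CommRing S] (φ : T →+* S) (b c : T) (x : S) :
    (dpoly b c).eval₂ φ x = x ^ 2 + φ b * x + φ c := by
  simp [dpoly]

theorem t_QST : M_QST := by
  intro hDLR hSPR hTWQ hLNF hLIN hSUB hDRI k _ P d n hP hQ R _ _ _ f hR hf
  have hL : Ln k P d (n + 1) := hTWQ k P d (n + 1) hP hQ
  refine hSPR k (Fin 1) P hP.toCls0 d (n + 2) (fun _ _ f => ∀ j, (f j).totalDegree ≤ 2) ?_ ?_ R f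
    hR hf
  · intro R S _ _ ψ f hf j
    exact (totalDegree_map_le _ _).trans (hf j)
  clear hf hR f
  intro D _ _ _ _ f hD hf
  -- the case of a polynomial without `x_0 ^ 2`
  have key : ∀ (A : Type) [CommRing A] [Algebra k A] [Algebra.FiniteType k A]
      (g : Fin 1 → MvPolynomial (Fin (n + 2)) A), DL k A d → (g 0).totalDegree ≤ 2 →
      MvPolynomial.coeff (Finsupp.single 0 2) (g 0) = 0 → P (ER g) := by
    intro A _ _ _ g hA hg h0
    obtain ⟨a, b, ha, hb, ⟨e⟩⟩ := hLIN k A (n + 1) g hg h0
    exact hP.iso e.symm (hLNF k P d (n + 1) hP hL A a b hA ha hb)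
  by_cases h0 : MvPolynomial.coeff (Finsupp.single 0 2) (f 0) = 0
  · refine ⟨1, one_ne_zero, ?_⟩
    have hD' : DL k (Localization.Away (1 : D)) d :=
      hDLR.2.1 k D (Localization.Away (1 : D)) d 1 (awayHom k 1) (isLocalization_awayHom 1) hD
    refine key _ _ hD' ((totalDegree_map_le _ _).trans (hf 0)) ?_
    change MvPolynomial.coeff (Finsupp.single 0 2) (MvPolynomial.map _ (f 0)) = 0
    rw [MvPolynomial.coeff_map, h0, map_zero]
  · set a := MvPolynomial.coeff (Finsupp.single 0 2) (f 0) with ha
    refine ⟨a, h0, ?_⟩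
    have hD' : DL k (Localization.Away a) d :=
      hDLR.2.1 k D (Localization.Away a) d a (awayHom k a) (isLocalization_awayHom a) hD
    let R := Localization.Away a
    let φ : D →+* R := algebraMap D (Localization.Away a)
    let g : Fin 1 → MvPolynomial (Fin (n + 2)) R := mf φ f
    change P (ER g)
    obtain ⟨v, hv⟩ : ∃ v : R, φ a * v = 1 :=
      (IsLocalization.Away.algebraMap_isUnit a).exists_right_inv
    let b' : R := v * φ (MvPolynomial.coeff (Finsupp.single 0 1 + Finsupp.single 1 1) (f 0))
    let c' : R := v * φ (MvPolynomial.coeff (Finsupp.single 1 2) (f 0))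
    let T := Dr R b' c'
    have hT : DL k T d := hDLR.2.2.1 k R T d hD'
    let t : T := AdjoinRoot.root (dpoly b' c')
    have ht : t ^ 2 + algebraMap R T b' * t + algebraMap R T c' = 0 := by
      have h1 := AdjoinRoot.eval₂_root (dpoly b' c')
      rw [eval_dpoly] at h1
      exact h1
    obtain ⟨f', hf', hf0, ⟨e⟩⟩ := hSUB k T n (mf (algebraMap R T) g) t
      ((totalDegree_map_le _ _).trans ((totalDegree_map_le _ _).trans (hf 0))) (by
        change MvPolynomial.coeff (Finsupp.single 0 2)
            (MvPolynomial.map (algebraMap R T) (MvPolynomial.map φ (f 0))) * t ^ 2 +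
          MvPolynomial.coeff (Finsupp.single 0 1 + Finsupp.single 1 1)
            (MvPolynomial.map (algebraMap R T) (MvPolynomial.map φ (f 0))) * t +
          MvPolynomial.coeff (Finsupp.single 1 2)
            (MvPolynomial.map (algebraMap R T) (MvPolynomial.map φ (f 0))) = 0
        rw [MvPolynomial.coeff_map, MvPolynomial.coeff_map, MvPolynomial.coeff_map,
          MvPolynomial.coeff_map, MvPolynomial.coeff_map, MvPolynomial.coeff_map]
        have e0 : algebraMap R T (φ a) * algebraMap R T v = 1 := by
          rw [← map_mul, hv, map_one]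
        have e1 : algebraMap R T b' = algebraMap R T v * algebraMap R T
            (φ (MvPolynomial.coeff (Finsupp.single 0 1 + Finsupp.single 1 1) (f 0))) :=
          map_mul _ _ _
        have e2 : algebraMap R T c' = algebraMap R T v * algebraMap R T
            (φ (MvPolynomial.coeff (Finsupp.single 1 2) (f 0))) := map_mul _ _ _
        rw [e1, e2] at ht
        linear_combination (algebraMap R T (φ a)) * ht -
          (algebraMap R T (φ (MvPolynomial.coeff (Finsupp.single 0 1 + Finsupp.single 1 1) (f 0)))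
            * t + algebraMap R T (φ (MvPolynomial.coeff (Finsupp.single 1 2) (f 0)))) * e0)
    have h1 : P (ER (mf (algebraMap R T) g)) := hP.iso e.symm (key T f' hT hf' hf0)
    obtain ⟨e2⟩ := hDRI k R (Fin 1) (n + 2) g b' c'
    exact hP.dbl _ _ _ (hP.iso e2.symm h1)

end QCV
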