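import Pool.Agent.QCV.StR

set_option autoImplicit false

namespace QCV

theorem t_QUA : M_QUA := by
  intro h01 hst k _ P d hP n
  induction n using Nat.strong_induction_on with
  | _ n ih =>
    match n, ih with
    | 0, _ => exact (h01 k P d hP).1
    | 1, _ => exact (h01 k P d hP).2
    | n + 2, ih => exact hst k P d n hP (fun m hm => ih m (by omega))

end QCV
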