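import Pool.Agent.QCV.StR

set_option autoImplicit false

open Polynomial

namespace QCV

open CUB

theorem t_SPR : M_SPR := by
  intro hDLR hNOE hFAM k ι _ P hP d n Θ hΘ h R _ _ _ f hR hf
  have hmf : ∀ (S S' : Type) [CommRing S] [Algebra k S] [CommRing S'] [Algebra k S']
      (ψ : R →ₐ[k] S) (φ : S →ₐ[k] S'), mf (φ.comp ψ).toRingHom f =
        mf φ.toRingHom (mf ψ.toRingHom f) := by
    intro S S' _ _ _ _ ψ φ
    funext j
    exact (MvPolynomial.map_map _ _ _).symm
  have h1 : Cls1 k R (fun S _ _ _ ψ => P (ER (mf ψ.toRingHom f))) := by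
    constructor
    · intro S S' _ _ _ _ _ _ e ψ hS
      obtain ⟨e'⟩ := hFAM.2 k S S' ι n e (mf ψ.toRingHom f)
      have := hP.iso e' hS
      rw [← hmf] at this
      exact this
    · intro S _ _ _ ψ hS
      apply hP.triv
      have : Subsingleton (MvPolynomial (Fin n) S) := Module.subsingleton S _
      exact Function.Surjective.subsingleton (Ideal.Quotient.mk_surjective
        (I := Ideal.span (Set.range (mf ψ.toRingHom f))))
    · intro A Z U _ _ _ _ _ _ _ _ _ a z u ψ hs hZ hU
      obtain ⟨z', u', hs'⟩ := hFAM.1 k A Z U ι n a z u (mf ψ.toRingHom f) hs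
      refine hP.glue _ z' u' hs' ?_ ?_
      · rw [← hmf]
        exact hZ
      · rw [← hmf]
        exact hU
    · intro A Z U _ _ _ _ _ _ _ _ _ a z u ψ hs hA hZ
      obtain ⟨z', u', hs'⟩ := hFAM.1 k A Z U ι n a z u (mf ψ.toRingHom f) hs
      have := hP.opn _ z' u' hs' hA (by rw [← hmf]; exact hZ)
      rw [← hmf] at this
      exact this
  have h2 := hNOE k R _ h1 (by
    intro D _ _ _ _ ψ hψ
    have hD : DL k D d := hDLR.1 k R D d ψ hψ hR
    obtain ⟨a, ha, h3⟩ := h D (mf ψ.toRingHom f) hD (hΘ R D ψ.toRingHom f hf)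
    refine ⟨a, ha, ?_⟩
    rw [hmf]
    exact h3)
  have h3 : mf (AlgHom.id k R).toRingHom f = f := by
    funext j
    exact MvPolynomial.map_id _
  rw [h3] at h2
  exact h2

end QCV
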