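import Pool.Agent.QCV.Aux0

set_option autoImplicit false

open Polynomial

namespace QCV

open CUB

theorem t_SWP : S_SWP := by
  intro k R _ _ _ n r f hf
  let e : MvPolynomial (Fin r) (MvPolynomial (Fin n) R) ≃ₐ[k]
      MvPolynomial (Fin n) (MvPolynomial (Fin r) R) :=
    (MvPolynomial.commAlgEquiv R (Fin r) (Fin n)).restrictScalars k
  have he : e (fs f) = MvPolynomial.map MvPolynomial.C (f 0) +
      ∑ j : Fin r, MvPolynomial.C (MvPolynomial.X j) * MvPolynomial.map MvPolynomial.C (f j.succ) := by
    change MvPolynomial.commAlgEquiv R (Fin r) (Fin n) (fs f) = _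
    unfold fs
    rw [map_add, map_sum, MvPolynomial.commAlgEquiv_C]
    congr 1
    apply Finset.sum_congr rfl
    intro j _
    rw [map_mul, MvPolynomial.commAlgEquiv_C, MvPolynomial.commAlgEquiv_X]
  refine ⟨fun _ => e (fs f), ?_, ⟨?_⟩⟩
  · intro _
    rw [he]
    refine (MvPolynomial.totalDegree_add _ _).trans (max_le ?_ ?_)
    · exact (totalDegree_map_le _ _).trans (hf 0)
    · refine (MvPolynomial.totalDegree_finsetSum _ _).trans ?_
      apply Finset.sup_le
      intro j _
      refine (MvPolynomial.totalDegree_mul _ _).trans ?_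
      rw [MvPolynomial.totalDegree_C, zero_add]
      exact (totalDegree_map_le _ _).trans (hf _)
  · refine Ideal.quotientEquivAlg _ _ e ?_
    rw [Ideal.map_span, Set.image_singleton, Set.range_const]
    rfl

end QCV
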