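import Pool.Agent.QCV.Aux0

set_option autoImplicit false

open Polynomial

namespace QCV

open CUB

/-- A polynomial of degree at most one without linear terms is constant. -/
lemma eq_C_of_linear {R : Type} [CommRing R] {n : ℕ} (g : MvPolynomial (Fin n) R)
    (hg : g.totalDegree ≤ 1) (h : ∀ j, MvPolynomial.coeff (Finsupp.single j 1) g = 0) :
    g = MvPolynomial.C (MvPolynomial.coeff 0 g) := by
  ext m
  rw [MvPolynomial.coeff_C]
  split_ifs with hm
  · rw [← hm]
  · by_contra hne
    have h1 : m ∈ g.support := MvPolynomial.mem_support_iff.mpr hne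
    have h2 := MvPolynomial.le_totalDegree h1
    have h3 : m.degree ≤ 1 := by
      refine le_trans ?_ (h2.trans hg)
      rw [Finsupp.degree_eq_sum]
      rw [Finsupp.sum_fintype]
      intro i
      rfl
    have h4 : m.degree ≠ 0 := by
      intro h0
      rw [Finsupp.degree_eq_zero_iff] at h0
      exact hm h0.symm
    have h5 : m.degree = 1 := by omega
    obtain ⟨j, hj⟩ : ∃ j, m = Finsupp.single j 1 := by
      have h6 : m ≠ 0 := fun h => hm h.symm
      obtain ⟨j, hj⟩ := Finsupp.ne_iff.mp h6
      refine ⟨j, ?_⟩
      have hle : Finsupp.single j 1 ≤ m := by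
        rw [Finsupp.single_le_iff]
        have : m j ≠ 0 := hj
        omega
      obtain ⟨c, hc⟩ := exists_add_of_le hle
      have h7 : m.degree = 1 + c.degree := by
        rw [hc, map_add, Finsupp.degree_single]
      have h8 : c.degree = 0 := by omega
      rw [Finsupp.degree_eq_zero_iff] at h8
      rw [hc, h8, add_zero]
    rw [hj] at hne
    exact hne (h j)

theorem t_TWQ : M_TWQ := by
  intro hDLR hSPR hPLY hELI k _ P d n hP hQ R _ _ _ f hR hf0 hf1
  refine hSPR k (Fin 2) P hP.toCls0 d n
    (fun _ _ f => (f 0).totalDegree ≤ 1 ∧ (f 1).totalDegree ≤ 2) ?_ ?_ R f hR ⟨hf0, hf1⟩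
  · intro R S _ _ ψ f hf
    exact ⟨(totalDegree_map_le _ _).trans hf.1,
      (totalDegree_map_le _ _).trans hf.2⟩
  clear hf0 hf1 hR f
  intro D _ _ _ _ f hD hf
  by_cases h0 : f 0 = 0
  · refine ⟨1, one_ne_zero, ?_⟩
    have hD' : DL k (Localization.Away (1 : D)) d :=
      hDLR.2.1 k D (Localization.Away (1 : D)) d 1 (awayHom k 1) (isLocalization_awayHom 1) hD
    have h1 := hQ n le_rfl (Localization.Away (1 : D))
      (fun _ : Fin 1 => mf (algebraMap D (Localization.Away (1 : D))) f 1) hD'
      (fun _ => (totalDegree_map_le _ _).trans hf.2)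
    have e : Ideal.span (Set.range
        (fun _ : Fin 1 => mf (algebraMap D (Localization.Away (1 : D))) f 1)) =
        Ideal.span (Set.range (mf (algebraMap D (Localization.Away (1 : D))) f)) := by
      apply le_antisymm
      · rw [Ideal.span_le]
        rintro _ ⟨j, rfl⟩
        exact Ideal.subset_span ⟨1, rfl⟩
      · rw [Ideal.span_le]
        rintro _ ⟨j, rfl⟩
        fin_cases j
        · have : mf (algebraMap D (Localization.Away (1 : D))) f 0 = 0 := by
            change MvPolynomial.map _ (f 0) = 0
            rw [h0, map_zero]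
          change mf (algebraMap D (Localization.Away (1 : D))) f 0 ∈ Ideal.span _
          rw [this]
          exact zero_mem _
        · exact Ideal.subset_span ⟨0, rfl⟩
    exact hP.iso (Ideal.quotientEquivAlgOfEq k e) h1
  by_cases hj : ∀ j, MvPolynomial.coeff (Finsupp.single j 1) (f 0) = 0
  · have h1 := eq_C_of_linear (f 0) hf.1 hj
    set u := MvPolynomial.coeff 0 (f 0) with hu
    have hu0 : u ≠ 0 := by
      intro h
      rw [h, MvPolynomial.C_0] at h1
      exact h0 h1
    refine ⟨u, hu0, ?_⟩
    refine (hPLY k P hP.toCls0 hP.line (Localization.Away u) n).2.2 (Fin 2) _ ?_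
    have h2 : mf (algebraMap D (Localization.Away u)) f 0 =
        MvPolynomial.C (algebraMap D (Localization.Away u) u) := by
      change MvPolynomial.map _ (f 0) = _
      rw [h1, MvPolynomial.map_C]
    have h3 : IsUnit (mf (algebraMap D (Localization.Away u)) f 0) := by
      rw [h2]
      exact (IsLocalization.Away.algebraMap_isUnit u).map MvPolynomial.C
    have h4 : Ideal.span (Set.range (mf (algebraMap D (Localization.Away u)) f)) = ⊤ :=
      Ideal.eq_top_of_isUnit_mem _ (Ideal.subset_span ⟨0, rfl⟩) h3
    rw [h4]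
    trivial
  · push Not at hj
    obtain ⟨j, hj⟩ := hj
    obtain ⟨n, rfl⟩ : ∃ n', n = n' + 1 := ⟨n - 1, by have := j.2; omega⟩
    set u := MvPolynomial.coeff (Finsupp.single j 1) (f 0) with hu
    refine ⟨u, hj, ?_⟩
    have hD' : DL k (Localization.Away u) d :=
      hDLR.2.1 k D (Localization.Away u) d u (awayHom k u) (isLocalization_awayHom u) hD
    have h1 : IsUnit (MvPolynomial.coeff (Finsupp.single j 1)
        (mf (algebraMap D (Localization.Away u)) f 0)) := by
      change IsUnit (MvPolynomial.coeff (Finsupp.single j 1) (MvPolynomial.map _ (f 0)))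
      rw [MvPolynomial.coeff_map]
      exact IsLocalization.Away.algebraMap_isUnit u
    obtain ⟨h, hh, ⟨e⟩⟩ := hELI k (Localization.Away u) n
      (mf (algebraMap D (Localization.Away u)) f) j
      ((totalDegree_map_le _ _).trans hf.1)
      ((totalDegree_map_le _ _).trans hf.2) h1
    refine hP.iso e.symm (hQ n (by omega) (Localization.Away u) h hD' ?_)
    intro i
    fin_cases i
    exact hh

end QCV
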