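import Pool.Agent.QCV.Aux1

set_option autoImplicit false

open Polynomial

namespace QCV

open CUB

theorem t_V1P : M_V1P := by
  intro hPRD hV1R k _ P hP hl A _ _ _ F hA hZ
  have h3 : P (Localization.Away F) := by
    refine hP.opn F (Ideal.Quotient.mkₐ k (Ideal.span {F})) (awayHom k F) ⟨?_, ?_, ?_⟩ hA hZ
    · exact Ideal.Quotient.mkₐ_surjective k _
    · exact Ideal.mk_ker
    · exact isLocalization_awayHom F
  obtain ⟨z', u', hs⟩ := hV1R k A (Localization.Away F) F (awayHom k F)
    (isLocalization_awayHom F)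
  have hV : P (Q A[X] (X * C F)) :=
    hP.glue _ z' u' hs (hPRD k P hP _ (hl _ hZ)) (hl _ h3)
  -- the quotient by `t`
  have e0 : evs (AlgHom.id k A) (0 : A) (X * C F) = 0 := by
    rw [map_mul, evs_X, zero_mul]
  let z : Q A[X] (X * C F) →ₐ[k] Q A 0 := Qmap (evs (AlgHom.id k A) (0 : A)) e0
  have hker : RingHom.ker (evs (AlgHom.id k A) (0 : A)).toRingHom = Ideal.span {(X : A[X])} := by
    have h1 : (evs (AlgHom.id k A) (0 : A)).toRingHom = evalRingHom (0 : A) := by
      apply Polynomial.ringHom_ext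
      · intro a
        have := evs_C (AlgHom.id k A) (0 : A) a
        simpa using this
      · have := evs_X (AlgHom.id k A) (0 : A)
        simpa using this
    rw [h1, Polynomial.ker_evalRingHom]
    simp
  refine hP.opn (algebraMap A[X] (Q A[X] (X * C F)) X) z
    (awayHom k (algebraMap A[X] (Q A[X] (X * C F)) X)) ⟨?_, ?_, ?_⟩ hV (hPRD k P hP A hA)
  · refine Qmap_surjective _ _ ?_
    intro a
    exact ⟨C a, evs_C _ _ _⟩
  · exact ker_Qmap _ _ X hker
  · exact isLocalization_awayHom _

end QCV
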