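import Pool.Agent.QCV.R_VRQ

set_option autoImplicit false

open Polynomial

namespace QCV

open CUB VRQ

namespace V1R

section

variable {k A U : Type} [Field k] [CommRing A] [Algebra k A] [CommRing U] [Algebra k U] (F : A)
  (u : A →ₐ[k] U) (iv : U) (hiv : u F * iv = 1)

/-- `t ↦ (y ^ 2 - y) / F`. -/
noncomputable def u0 : A[X] →ₐ[k] U[X] := evs ((CC k U).comp u) ((X ^ 2 - X) * C iv)

lemma u0_C (a : A) : u0 u iv (C a) = C (u a) := evs_C _ _ _

lemma u0_X : u0 u iv X = (X ^ 2 - X) * C iv := evs_X _ _

include hiv in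
lemma u0_XF : u0 u iv (X * C F) = X ^ 2 - X := by
  rw [map_mul, u0_C, u0_X, mul_assoc, ← C_mul, mul_comm iv, hiv, C_1, mul_one]

/-- `y ↦ X`. -/
noncomputable def u1 : Q A[X] (X * C F) →ₐ[k] U[X] := Qlift (u0 u iv) X (u0_XF F u iv hiv).symm

lemma u1_base (p : A[X]) : u1 F u iv hiv (algebraMap _ _ p) = u0 u iv p := Qlift_algebraMap _ _ _ _

lemma u1_yy : u1 F u iv hiv (yy _) = X := Qlift_yy _ _ _

end

end V1R

open V1R in
theorem t_V1R : S_V1R := by
  intro k A U _ _ _ _ _ F u hu
  let I : Ideal A := Ideal.span {F}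
  have e0 : mapX (Ideal.Quotient.mkₐ k I) (X * C F) = 0 := by
    have h1 : Ideal.Quotient.mkₐ k I F = 0 :=
      Ideal.Quotient.eq_zero_iff_mem.mpr (Ideal.subset_span rfl)
    rw [map_mul]
    have h2 : mapX (Ideal.Quotient.mkₐ k I) (C F) = C (Ideal.Quotient.mkₐ k I F) :=
      Polynomial.map_C _
    rw [h2, h1, C_0, mul_zero]
  have hker : RingHom.ker (mapX (Ideal.Quotient.mkₐ k I)).toRingHom = Ideal.span {(C F : A[X])} := by
    have h1 : (mapX (Ideal.Quotient.mkₐ k I)).toRingHom = mapRingHom (Ideal.Quotient.mk I) := rfl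
    rw [h1, Polynomial.ker_mapRingHom, Ideal.mk_ker, Ideal.map_span, Set.image_singleton]
  let _ : Algebra A U := u.toRingHom.toAlgebra
  have hst : IsScalarTower k A U := IsScalarTower.of_algebraMap_eq' u.comp_algebraMap.symm
  have hu' : IsLocalization.Away F U := hu
  let iv : U := IsLocalization.Away.invSelf (R := A) F
  have hiv : u F * iv = 1 := IsLocalization.Away.mul_invSelf (R := A) F
  refine ⟨Qmap (mapX (Ideal.Quotient.mkₐ k I)) e0, u1 F u iv hiv,
    Qmap_surjective _ _ (mapX_surjective _ (Ideal.Quotient.mkₐ_surjective k I)),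
    ker_Qmap _ _ _ hker, ?_⟩
  let V := Q A[X] (X * C F)
  let a : V := algebraMap A[X] V (C F)
  let aw : V →ₐ[k] Localization.Away a := awayHom k a
  let ba : A[X] →ₐ[k] Localization.Away a := aw.comp (Qbase _)
  have hau : IsUnit (ba (C F)) := IsLocalization.Away.algebraMap_isUnit a
  -- the homomorphism `U → V_F`
  have hyu : ∀ y : Submonoid.powers F, IsUnit ((ba.comp (CC k A)) y) := by
    rintro ⟨_, n, rfl⟩
    change IsUnit (ba (C (F ^ n)))
    rw [C_pow, map_pow]
    exact hau.pow n
  let bU : U →ₐ[k] Localization.Away a :=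
    IsLocalization.liftAlgHom (M := Submonoid.powers F) (f := ba.comp (CC k A)) hyu
  have hbU : ∀ x : A, bU (u x) = ba (C x) := fun x =>
    IsLocalization.lift_eq (M := Submonoid.powers F) (g := (ba.comp (CC k A)).toRingHom) hyu x
  let β : U[X] →ₐ[k] Localization.Away a := evs bU (aw (yy _))
  have hβC : ∀ x, β (C x) = bU x := fun x => evs_C _ _ _
  have hβX : β X = aw (yy _) := evs_X _ _
  -- the homomorphism `V_F → U[X]`
  have hua : IsUnit ((u1 F u iv hiv).toRingHom a) := by
    change IsUnit (u1 F u iv hiv (algebraMap _ _ (C F)))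
    rw [u1_base, u0_C]
    exact (IsUnit.of_mul_eq_one iv hiv).map C
  let α : Localization.Away a →+* U[X] := IsLocalization.Away.lift a hua
  have hα : ∀ x, α (algebraMap V _ x) = u1 F u iv hiv x := fun x => IsLocalization.Away.lift_eq a hua x
  have h0 : β.comp (u1 F u iv hiv) = aw := by
    apply Q_ext
    · intro p
      rw [AlgHom.comp_apply, u1_base]
      have h1 : β.comp (u0 u iv) = ba := by
        apply pl_ext
        · intro x
          rw [AlgHom.comp_apply, u0_C, hβC, hbU]
        · have h2 : ba (C F) * bU iv = 1 := by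
            rw [← hbU, ← map_mul, hiv, map_one]
          have h3 : aw (yy (X * C F)) ^ 2 - aw (yy (X * C F)) = ba X * ba (C F) := by
            rw [← map_pow, ← map_sub, ← map_mul]
            change _ = aw (algebraMap _ _ (X * C F))
            congr 1
            have h := yy_eq (X * C F)
            linear_combination h
          rw [AlgHom.comp_apply, u0_X, map_mul, map_sub, map_pow, hβX, hβC, h3, mul_assoc, h2,
            mul_one]
      exact AlgHom.congr_fun h1 p
    · rw [AlgHom.comp_apply, u1_yy, hβX]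
  refine away_of_inv a _ α β.toRingHom hα ?_ ?_
  · apply IsLocalization.ringHom_ext (Submonoid.powers a)
    refine RingHom.ext fun x => ?_
    change β (α (algebraMap V _ x)) = algebraMap V _ x
    rw [hα]
    exact AlgHom.congr_fun h0 x
  · apply Polynomial.ringHom_ext
    · intro c
      change α (β (C c)) = C c
      rw [hβC]
      have h1 : α.comp bU.toRingHom = (C : U →+* U[X]) := by
        apply IsLocalization.ringHom_ext (Submonoid.powers F)
        ext1 x
        change α (bU (u x)) = C (u x)
        rw [hbU]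
        have h2 := hα (algebraMap _ _ (C x))
        rw [u1_base, u0_C] at h2
        exact h2
      exact RingHom.congr_fun h1 c
    · change α (β X) = X
      rw [hβX]
      exact (hα _).trans (u1_yy F u iv hiv)

end QCV
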