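import Pool.Agent.QCV.StR

set_option autoImplicit false

open Polynomial

namespace QCV

open CUB

lemma DL.mono {k A : Type} [Field k] [CommRing A] [Algebra k A] {a b : ℕ} (h : DL k A a)
    (hab : a ≤ b) : DL k A b := fun p => (h p).trans (by exact_mod_cast hab)

theorem t_VRP : M_VRP := by
  intro hDLM hPLY hQUA hPRD hV1P hVRQ hSWP k _ P d e n r hP hed
  induction r with
  | zero =>
    intro _ R _ _ _ f hR hf
    have h1 : P (MvPolynomial (Fin 0) (MvPolynomial (Fin n) R)) :=
      (hPLY k P hP.toCls0 hP.line _ 0).1 ((hPLY k P hP.toCls0 hP.line R n).1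
        (hP.base R (hR.mono hed)))
    have h2 := hPRD k P hP.toCls0 _ h1
    have h3 : lin f = 0 := by
      unfold lin
      simp
    have h4 : ∀ g : MvPolynomial (Fin 0) (MvPolynomial (Fin n) R), g = 0 →
        P (Q (MvPolynomial (Fin 0) (MvPolynomial (Fin n) R)) g) := by
      rintro g rfl
      exact h2
    exact h4 _ h3
  | succ r ih =>
    intro her R _ _ _ f hR hf
    have hS' : P (MvPolynomial (Fin r) (MvPolynomial (Fin n) R)) :=
      (hPLY k P hP.toCls0 hP.line _ r).1 ((hPLY k P hP.toCls0 hP.line R n).1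
        (hP.base R (hR.mono hed)))
    have hDL : DL k (MvPolynomial (Fin r) R) d := (hDLM k R e r hR).mono (by omega)
    obtain ⟨F, hF, ⟨eF⟩⟩ := hSWP k R n r f hf
    have h1 : P (ER F) := hQUA k P d hP n (MvPolynomial (Fin r) R) F hDL hF
    have h2 : P (MvPolynomial (Fin r) (MvPolynomial (Fin n) R) ⧸ Ideal.span {fs f}) :=
      hP.iso eF.symm h1
    have h3 := hV1P k P hP.toCls0 hP.line (MvPolynomial (Fin r) (MvPolynomial (Fin n) R)) (fs f)
      hS' h2
    have h4 := ih (by omega) R (fun j : Fin r => f j.succ) hR (fun j => hf _)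
    obtain ⟨z', u', hs⟩ := hVRQ k (MvPolynomial (Fin n) R) r f
    exact hP.glue _ z' u' hs h4 h3

end QCV
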