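import Pool.Agent.QCV.Aux1

set_option autoImplicit false

open Polynomial

namespace QCV

open CUB

namespace VRQ

/-- A homomorphism isomorphic to a localisation away from an element is one. -/
lemma away_of_inv {A U V : Type} [CommRing A] [CommRing U] [CommRing V] (a : A) [Algebra A U]
    [IsLocalization.Away a U] (g : A →+* V) (α : U →+* V) (β : V →+* U)
    (h1 : ∀ x, α (algebraMap A U x) = g x) (h2 : β.comp α = RingHom.id U)
    (h3 : α.comp β = RingHom.id V) : @IsLocalization.Away A _ a V _ g.toAlgebra := by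
  let : Algebra A V := g.toAlgebra
  let e : U ≃+* V := RingEquiv.ofRingHom α β h3 h2
  let e' : U ≃ₐ[A] V := AlgEquiv.ofRingEquiv (f := e) h1
  exact IsLocalization.isLocalization_of_algEquiv (Submonoid.powers a) e'

/-- The localisations of two rings away from an element are isomorphic. -/
lemma away_of_psi {k A B : Type} [Field k] [CommRing A] [Algebra k A] [CommRing B] [Algebra k B]
    (a : A) (φ : A →ₐ[k] B) (a' : B) (ha : φ a = a') (ψ : B →ₐ[k] Localization.Away a)
    (h1 : ∀ x, ψ (φ x) = algebraMap A _ x)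
    (h2 : ∀ α : Localization.Away a →ₐ[k] Localization.Away a',
      (∀ x : A, α (algebraMap A _ x) = algebraMap B _ (φ x)) → α.comp ψ = awayHom k a') :
    @IsLocalization.Away A _ a (Localization.Away a') _
      ((awayHom k a').comp φ).toRingHom.toAlgebra := by
  have hu : ∀ y : Submonoid.powers a, IsUnit (((awayHom k a').comp φ) y) := by
    rintro ⟨_, n, rfl⟩
    change IsUnit (algebraMap B (Localization.Away a') (φ (a ^ n)))
    rw [map_pow, ha, map_pow]
    exact (IsLocalization.Away.algebraMap_isUnit a').pow n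
  let α : Localization.Away a →ₐ[k] Localization.Away a' :=
    IsLocalization.liftAlgHom (M := Submonoid.powers a) (f := (awayHom k a').comp φ) hu
  have hα : ∀ x : A, α (algebraMap A _ x) = algebraMap B _ (φ x) := fun x =>
    IsLocalization.lift_eq (M := Submonoid.powers a) (g := ((awayHom k a').comp φ).toRingHom) hu x
  have hv : IsUnit (ψ.toRingHom a') := by
    change IsUnit (ψ a')
    rw [← ha, h1]
    exact IsLocalization.Away.algebraMap_isUnit a
  let β : Localization.Away a' →+* Localization.Away a := IsLocalization.Away.lift a' hv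
  have hβ : ∀ x : B, β (algebraMap B _ x) = ψ x := fun x => IsLocalization.Away.lift_eq a' hv x
  refine away_of_inv a _ α.toRingHom β hα ?_ ?_
  · apply IsLocalization.ringHom_ext (Submonoid.powers a)
    ext x
    change β (α (algebraMap A _ x)) = algebraMap A _ x
    rw [hα, hβ, h1]
  · apply IsLocalization.ringHom_ext (Submonoid.powers a')
    ext x
    change α (β (algebraMap B _ x)) = algebraMap B _ x
    rw [hβ]
    exact AlgHom.congr_fun (h2 α hα) x

section

variable {k : Type} [Field k]

/-- The homomorphism on a polynomial ring which is `θ` on the coefficients and maps the variables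
to `s`. -/
noncomputable def mvs {σ R K : Type} [CommRing R] [CommRing K] [Algebra k R] [Algebra k K]
    (θ : R →ₐ[k] K) (s : σ → K) : MvPolynomial σ R →ₐ[k] K where
  toRingHom := MvPolynomial.eval₂Hom θ.toRingHom s
  commutes' r := by
    have h : algebraMap k (MvPolynomial σ R) r = MvPolynomial.C (algebraMap k R r) := rfl
    rw [h]
    simp

@[simp] lemma mvs_C {σ R K : Type} [CommRing R] [CommRing K] [Algebra k R] [Algebra k K]
    (θ : R →ₐ[k] K) (s : σ → K) (r : R) : mvs θ s (MvPolynomial.C r) = θ r :=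
  MvPolynomial.eval₂_C _ _ _

@[simp] lemma mvs_X {σ R K : Type} [CommRing R] [CommRing K] [Algebra k R] [Algebra k K]
    (θ : R →ₐ[k] K) (s : σ → K) (j : σ) : mvs θ s (MvPolynomial.X j) = s j :=
  MvPolynomial.eval₂_X _ _ _

lemma mv_ext {σ R K : Type} [CommRing R] [CommRing K] [Algebra k R] [Algebra k K]
    {α β : MvPolynomial σ R →ₐ[k] K} (h1 : ∀ r, α (MvPolynomial.C r) = β (MvPolynomial.C r))
    (h2 : ∀ j, α (MvPolynomial.X j) = β (MvPolynomial.X j)) : α = β := by
  have h : α.toRingHom = β.toRingHom := MvPolynomial.ringHom_ext h1 h2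
  exact AlgHom.ext fun x => RingHom.congr_fun h x

lemma pl_ext {R K : Type} [CommRing R] [CommRing K] [Algebra k R] [Algebra k K]
    {α β : R[X] →ₐ[k] K} (h1 : ∀ r, α (C r) = β (C r)) (h2 : α X = β X) : α = β := by
  have h : α.toRingHom = β.toRingHom := Polynomial.ringHom_ext h1 h2
  exact AlgHom.ext fun x => RingHom.congr_fun h x

variable (k) in
/-- The inclusion of the coefficients. -/
noncomputable def mC (σ R : Type) [CommRing R] [Algebra k R] : R →ₐ[k] MvPolynomial σ R :=
  IsScalarTower.toAlgHom k R (MvPolynomial σ R)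

@[simp] lemma mC_apply {σ R : Type} [CommRing R] [Algebra k R] (r : R) :
    mC k σ R r = MvPolynomial.C r := rfl

end

section

variable {k S : Type} [Field k] [CommRing S] [Algebra k S] {r : ℕ} (f : Fin (r + 1) → S)

/-- `t_0 ↦ 0`, `t_(j+1) ↦ t_j`. -/
noncomputable def p0 : MvPolynomial (Fin (r + 1)) S →ₐ[k] MvPolynomial (Fin r) S :=
  mvs (mC k (Fin r) S) (Fin.cons 0 MvPolynomial.X : Fin (r + 1) → MvPolynomial (Fin r) S)

/-- `t_(j+1) ↤ t_j`. -/
noncomputable def i0 : MvPolynomial (Fin r) S →ₐ[k] MvPolynomial (Fin (r + 1)) S :=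
  mvs (mC k (Fin (r + 1)) S) (fun j => MvPolynomial.X j.succ)

lemma p0_i0 : (p0 (k := k)).comp (i0 (r := r)) = AlgHom.id k (MvPolynomial (Fin r) S) := by
  apply mv_ext
  · intro s
    simp [p0, i0]
  · intro j
    simp [p0, i0]

lemma ker_p0 : RingHom.ker (p0 (k := k) (S := S) (r := r)).toRingHom =
    Ideal.span {(MvPolynomial.X 0 : MvPolynomial (Fin (r + 1)) S)} := by
  apply le_antisymm
  · intro x hx
    let I : Ideal (MvPolynomial (Fin (r + 1)) S) := Ideal.span {MvPolynomial.X 0}
    have h1 : Ideal.Quotient.mkₐ k I = ((Ideal.Quotient.mkₐ k I).comp (i0 (r := r))).comp p0 := by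
      apply mv_ext
      · intro s
        simp [p0, i0]
      · intro j
        refine Fin.cases ?_ (fun j => ?_) j
        · have h2 : Ideal.Quotient.mkₐ k I (MvPolynomial.X 0) = 0 :=
            Ideal.Quotient.eq_zero_iff_mem.mpr (Ideal.subset_span rfl)
          rw [h2]
          simp [p0]
        · simp [p0, i0]
    have h2 := AlgHom.congr_fun h1 x
    have h3 : p0 (k := k) x = 0 := hx
    rw [AlgHom.comp_apply, h3, map_zero] at h2
    exact Ideal.Quotient.eq_zero_iff_mem.mp h2
  · rw [Ideal.span_singleton_le_iff_mem]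
    change p0 (k := k) (MvPolynomial.X 0) = 0
    simp [p0]

lemma p0_surjective : Function.Surjective (p0 (k := k) (S := S) (r := r)) := fun x =>
  ⟨i0 x, AlgHom.congr_fun p0_i0 x⟩

lemma p0_lin : p0 (k := k) (lin f) = lin (fun j : Fin r => f j.succ) := by
  simp [lin, p0, Fin.sum_univ_succ]

/-- `t_0 ↦ X`, `t_(j+1) ↦ X s_j`. -/
noncomputable def q0 : MvPolynomial (Fin (r + 1)) S →ₐ[k] (MvPolynomial (Fin r) S)[X] :=
  mvs ((CC k (MvPolynomial (Fin r) S)).comp (mC k (Fin r) S))
    (Fin.cons X (fun j => X * C (MvPolynomial.X j)))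

lemma q0_C (s : S) : q0 (k := k) (r := r) (MvPolynomial.C s) = C (MvPolynomial.C s) := by
  simp [q0]

lemma q0_X0 : q0 (k := k) (r := r) (S := S) (MvPolynomial.X 0) = X := by
  simp [q0]

lemma q0_Xs (j : Fin r) : q0 (k := k) (S := S) (MvPolynomial.X j.succ) =
    X * C (MvPolynomial.X j) := by
  simp [q0]

lemma q0_lin : q0 (k := k) (lin f) = X * C (fs f) := by
  have h1 : lin f = MvPolynomial.X 0 * MvPolynomial.C (f 0) +
      ∑ j : Fin r, MvPolynomial.X j.succ * MvPolynomial.C (f j.succ) := by
    rw [lin, Fin.sum_univ_succ]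
  have h2 : (C (fs f) : (MvPolynomial (Fin r) S)[X]) = C (MvPolynomial.C (f 0)) +
      ∑ j : Fin r, C (MvPolynomial.X j) * C (MvPolynomial.C (f j.succ)) := by
    rw [fs, C_add, map_sum]
    congr 1
    refine Finset.sum_congr rfl fun j _ => ?_
    rw [C_mul]
  rw [h1, h2, map_add, map_mul, map_sum, q0_X0, q0_C, mul_add, Finset.mul_sum]
  congr 1
  refine Finset.sum_congr rfl fun j _ => ?_
  rw [map_mul, q0_Xs, q0_C, mul_assoc]

variable (k) in
/-- The homomorphism from the base to the localisation. -/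
noncomputable def bs : MvPolynomial (Fin (r + 1)) S →ₐ[k] Localization.Away
    (algebraMap (MvPolynomial (Fin (r + 1)) S) (VR S f) (MvPolynomial.X 0)) :=
  (awayHom k _).comp (Qbase (lin f))

/-- The inverse of `t_0`. -/
noncomputable def iv : Localization.Away
    (algebraMap (MvPolynomial (Fin (r + 1)) S) (VR S f) (MvPolynomial.X 0)) :=
  IsLocalization.Away.invSelf (R := VR S f) (algebraMap (MvPolynomial (Fin (r + 1)) S) (VR S f)
    (MvPolynomial.X 0))

lemma bs_iv : bs k f (MvPolynomial.X 0) * iv f = 1 :=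
  IsLocalization.Away.mul_invSelf (R := VR S f) (S := Localization.Away
    (algebraMap (MvPolynomial (Fin (r + 1)) S) (VR S f) (MvPolynomial.X 0)))
    (algebraMap (MvPolynomial (Fin (r + 1)) S) (VR S f) (MvPolynomial.X 0))

variable (k) in
/-- `s_j ↦ t_(j+1) / t_0`. -/
noncomputable def th : MvPolynomial (Fin r) S →ₐ[k] Localization.Away
    (algebraMap (MvPolynomial (Fin (r + 1)) S) (VR S f) (MvPolynomial.X 0)) :=
  mvs ((bs k f).comp (mC k (Fin (r + 1)) S)) (fun j => bs k f (MvPolynomial.X j.succ) * iv f)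

lemma th_C (s : S) : th k f (MvPolynomial.C s) = bs k f (MvPolynomial.C s) := mvs_C _ _ _

lemma th_X (j : Fin r) : th k f (MvPolynomial.X j) = bs k f (MvPolynomial.X j.succ) * iv f :=
  mvs_X _ _ _

variable (k) in
/-- `X ↦ t_0`. -/
noncomputable def ps : (MvPolynomial (Fin r) S)[X] →ₐ[k] Localization.Away
    (algebraMap (MvPolynomial (Fin (r + 1)) S) (VR S f) (MvPolynomial.X 0)) :=
  evs (th k f) (bs k f (MvPolynomial.X 0))

lemma ps_C (p : MvPolynomial (Fin r) S) : ps k f (C p) = th k f p := evs_C _ _ _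

lemma ps_X : ps k f X = bs k f (MvPolynomial.X 0) := evs_X _ _

lemma ps_q0 : (ps k f).comp q0 = bs k f := by
  apply mv_ext
  · intro s
    rw [AlgHom.comp_apply, q0_C, ps_C, th_C]
  · intro j
    refine Fin.cases ?_ (fun j => ?_) j
    · rw [AlgHom.comp_apply, q0_X0, ps_X]
    · rw [AlgHom.comp_apply, q0_Xs, map_mul, ps_X, ps_C, th_X, mul_left_comm, bs_iv, mul_one]

variable (k) in
/-- The homomorphism in the other direction. -/
noncomputable def psi : Q (MvPolynomial (Fin r) S)[X] (X * C (fs f)) →ₐ[k] Localization.Away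
    (algebraMap (MvPolynomial (Fin (r + 1)) S) (VR S f) (MvPolynomial.X 0)) :=
  Qlift (ps k f) (awayHom k _ (yy (lin f))) (by
    rw [← q0_lin (k := k) f, ← AlgHom.comp_apply, ps_q0, ← map_pow, ← map_sub]
    change _ = awayHom k _ (algebraMap _ _ (lin f))
    congr 1
    have h := yy_eq (lin f)
    linear_combination h)

lemma psi_comp : (psi k f).comp (Qmap q0 (q0_lin f)) = awayHom k _ := by
  apply Q_ext
  · intro t
    rw [AlgHom.comp_apply, Qmap_algebraMap, psi, Qlift_algebraMap, ← AlgHom.comp_apply, ps_q0]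
    rfl
  · rw [AlgHom.comp_apply, Qmap_yy, psi, Qlift_yy]

end

end VRQ

open VRQ in
theorem t_VRQ : S_VRQ := by
  intro k S _ _ _ r f
  let φ : VR S f →ₐ[k] Q (MvPolynomial (Fin r) S)[X] (X * C (fs f)) := Qmap q0 (q0_lin f)
  let a' : Q (MvPolynomial (Fin r) S)[X] (X * C (fs f)) :=
    algebraMap (MvPolynomial (Fin r) S)[X] (Q (MvPolynomial (Fin r) S)[X] (X * C (fs f))) X
  have ha : φ (algebraMap (MvPolynomial (Fin (r + 1)) S) (VR S f) (MvPolynomial.X 0)) = a' := by
    change Qmap q0 (q0_lin f) _ = _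
    rw [Qmap_algebraMap, q0_X0]
  refine ⟨Qmap p0 (p0_lin f), (awayHom k a').comp φ, Qmap_surjective _ _ p0_surjective,
    ker_Qmap _ _ _ ker_p0, ?_⟩
  refine away_of_psi _ φ a' ha (psi k f) (fun x => AlgHom.congr_fun (psi_comp f) x) ?_
  intro α hα
  let bB : (MvPolynomial (Fin r) S)[X] →ₐ[k] Localization.Away a' :=
    (awayHom k a').comp (Qbase _)
  have hbs : ∀ x : MvPolynomial (Fin (r + 1)) S, α (bs k f x) = bB (q0 (k := k) x) := by
    intro x
    have h1 := hα (algebraMap _ _ x)
    have h2 : φ (algebraMap _ _ x) = algebraMap _ _ (q0 (k := k) x) := Qmap_algebraMap _ _ _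
    rw [h2] at h1
    exact h1
  have hiv : ∀ x : MvPolynomial (Fin r) S, bB (X * C x) * α (iv f) = bB (C x) := by
    intro x
    have h1 := congrArg α (bs_iv (k := k) f)
    rw [map_mul, hbs, q0_X0, map_one] at h1
    rw [map_mul, mul_right_comm, h1, one_mul]
  apply Q_ext
  · intro t
    rw [AlgHom.comp_apply, psi, Qlift_algebraMap]
    have h1 : α.comp (ps k f) = bB := by
      apply pl_ext
      · intro p
        rw [AlgHom.comp_apply, ps_C]
        have h2 : α.comp (th k f) = bB.comp (CC k _) := by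
          apply mv_ext
          · intro s
            rw [AlgHom.comp_apply, th_C, hbs, q0_C]
            rfl
          · intro j
            rw [AlgHom.comp_apply, th_X, map_mul, hbs, q0_Xs, hiv]
            rfl
        exact AlgHom.congr_fun h2 p
      · rw [AlgHom.comp_apply, ps_X, hbs, q0_X0]
    exact AlgHom.congr_fun h1 t
  · rw [AlgHom.comp_apply, psi, Qlift_yy]
    have h1 := hα (yy (lin f))
    have h2 : φ (yy (lin f)) = yy _ := Qmap_yy _ _
    rw [h2] at h1
    exact h1

end QCV
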