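import Pool.Agent.QCV.R_DLM
import Pool.Agent.QCV.R_DLR
import Pool.Agent.QCV.R_DRI
import Pool.Agent.QCV.R_ELI
import Pool.Agent.QCV.R_FAM
import Pool.Agent.QCV.R_IGE
import Pool.Agent.QCV.R_LIN
import Pool.Agent.QCV.R_LNF
import Pool.Agent.QCV.R_LNR
import Pool.Agent.QCV.R_NOE
import Pool.Agent.QCV.R_PLY
import Pool.Agent.QCV.R_PRD
import Pool.Agent.QCV.R_Q01
import Pool.Agent.QCV.R_QST
import Pool.Agent.QCV.R_QUA
import Pool.Agent.QCV.R_SPR
import Pool.Agent.QCV.R_SUB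
import Pool.Agent.QCV.R_SWP
import Pool.Agent.QCV.R_TWQ
import Pool.Agent.QCV.R_V1P
import Pool.Agent.QCV.R_V1R
import Pool.Agent.QCV.R_VRP
import Pool.Agent.QCV.R_VRQ
import Pool.Agent.QCV.Fin
import Pool.Agent.QCV.F_DBL

/-!
# QCV: assembly
-/

set_option autoImplicit false

open CategoryTheory AlgebraicGeometry Polynomial

namespace QCV

open Pool.Agent.Lib_helper55.Beil Pool.Agent.Lib_helper66.OneP CUB

universe v

namespace Asm

theorem s_DLR : S_DLR := t_DLR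

theorem s_DLM : S_DLM := t_DLM s_DLR

theorem s_NOE : S_NOE := t_NOE

theorem s_FAM : S_FAM := t_FAM

theorem s_SPR : S_SPR := t_SPR s_DLR s_NOE s_FAM

theorem s_PLY : S_PLY := t_PLY

theorem s_ELI : S_ELI := t_ELI

theorem s_TWQ : S_TWQ := t_TWQ s_DLR s_SPR s_PLY s_ELI

theorem s_LNR : S_LNR := t_LNR

theorem s_LNF : S_LNF := t_LNF s_PLY s_LNR

theorem s_LIN : S_LIN := t_LIN

theorem s_SUB : S_SUB := t_SUB

theorem s_DRI : S_DRI := t_DRI

theorem s_QST : S_QST := t_QST s_DLR s_SPR s_TWQ s_LNF s_LIN s_SUB s_DRI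

theorem s_Q01 : S_Q01 := t_Q01 s_DLR s_DLM s_SPR s_PLY

theorem s_QUA : S_QUA := t_QUA s_Q01 s_QST

theorem s_PRD : S_PRD := t_PRD

theorem s_V1R : S_V1R := t_V1R

theorem s_V1P : S_V1P := t_V1P s_PRD s_V1R

theorem s_VRQ : S_VRQ := t_VRQ

theorem s_SWP : S_SWP := t_SWP

theorem s_VRP : S_VRP := t_VRP s_DLM s_PLY s_QUA s_PRD s_V1P s_VRQ s_SWP

theorem s_IGE : S_IGE := t_IGE s_DLR s_DLM s_SPR

end Asm

variable {k : Type} [Field k] {E : Type} [Field E]

/-- The conjecture for the varieties defined by `r` equations of degree at most two over a base of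
dimension at most `e`. -/
def QuadricCase (T : ∀ i : ℕ, Homology.{v} k E i) (r e : ℕ) : Prop :=
  ∀ (R : Type) [CommRing R] [Algebra k R] [Algebra.FiniteType k R] (n : ℕ)
    (f : Fin r → MvPolynomial (Fin n) R), (aff k R).DimLE e → (∀ j, (f j).totalDegree ≤ 2) →
    ∀ i, Q1 (T i) (aff k (MvPolynomial (Fin n) R ⧸ Ideal.span (Set.range f)))

theorem homBlock [Finite k] [CharZero E] (T : ∀ i : ℕ, Homology.{v} k E i) (hT : Full T)
    (hP : Pub T hT) : HomBlock T where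
  cls0 := cls0_pi hT hP
  cls := cls_pp hT hP
  small := pi_of_dimLE hT hP

theorem main [Finite k] [CharZero E] (T : ∀ i : ℕ, Homology.{v} k E i) (hT : Full T)
    (hP : Pub T hT) :
    (∀ r e : ℕ, 1 ≤ r → r + e ≤ 2 → QuadricCase T r e) ∧
    ((∀ X : Var k, X.DimLE 2 → (T 1).Surj X ∧ (T 1).Semisimple X) →
      ∀ r e : ℕ, 1 ≤ r → r + e ≤ 3 → QuadricCase T r e) := by
  constructor
  · intro r e hr her R _ _ _ n f hR hf i
    exact main_of Asm.s_PLY Asm.s_QUA Asm.s_VRP Asm.s_IGE T hT (homBlock T hT hP) 1 le_rfl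
      (by omega) (fun X hX => pp_of_dimLE_one hT hP X hX) R e n r f ((dimLE_aff e).1 hR) hr
      (by omega) hf i
  · intro h r e hr her R _ _ _ n f hR hf i
    exact main_of Asm.s_PLY Asm.s_QUA Asm.s_VRP Asm.s_IGE T hT (homBlock T hT hP) 2 (by omega)
      le_rfl (fun X hX => pp_of_dimLE_two hT hP h X hX) R e n r f ((dimLE_aff e).1 hR) hr
      (by omega) hf i

end QCV
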