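import Pool.Agent.QCV.StO
import Pool.Agent.QCV.Asm

/-!
# QCV, block C: statements (conic bundles over surfaces, cubic hypersurfaces)

Goals.  (1) One quadratic form of odd generic rank over `R[y_1, ..., y_a]`, `e ≤ d`, `e + a ≤ d + 1`
(`S_QOP`; for example conic bundles over the affine plane, `d = 1`).
(2) Cubic hypersurfaces in `P^(a+s)_R` which contain the linear subspace `y_0 = ... = y_a = 0`, and
whose residual quadrics have odd generic rank, `e + a ≤ d + 1`, `e + s ≤ d + 1` (`S_CUB`; for example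
cubic threefolds with a line, `a = s = 2`, `d = 1`).
The cubic form is written as `G(1, x_1, ..., x_s)`, where `G` is a quadratic form in `x_0, ..., x_s`
over `R[y_0, ..., y_a]`, in which the coefficient of the monomial `μ` is homogeneous of degree
`1 + μ_0`.
-/

set_option autoImplicit false

open Polynomial

namespace QCV

open CUB

/-- The homomorphism `x_0 ↦ c`, `x_(j+1) ↦ x_j`. -/
noncomputable def sp {R : Type} [CommRing R] {n : ℕ} (c : R) :
    MvPolynomial (Fin (n + 1)) R →ₐ[R] MvPolynomial (Fin n) R :=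
  MvPolynomial.aeval (Fin.cons (MvPolynomial.C c) MvPolynomial.X)

/-- The closure property: from the product with the punctured affine line to the base. -/
def GmCl (k : Type) [Field k]
    (P : ∀ (A : Type) [CommRing A] [Algebra k A] [Algebra.FiniteType k A], Prop) : Prop :=
  ∀ (A : Type) [CommRing A] [Algebra k A] [Algebra.FiniteType k A],
    P (Localization.Away (X : A[X])) → P A

/-- The quadratic form `f` over `R[y_1, ..., y_a]` has odd rank over the generic point of the affine
space over every prime of `R` of dimension at least `e`. -/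
def OddOne (k : Type) [Field k] {R : Type} [CommRing R] [Algebra k R] {n a : ℕ} (e : ℕ)
    (f : MvPolynomial (Fin n) (MvPolynomial (Fin a) R)) : Prop :=
  ∀ p : PrimeSpectrum R, (e : Cardinal) ≤ rdim k p → Odd ((gram f).map (genHom a p)).rank

/-- **QOP**: one quadratic form of odd generic rank over a polynomial ring.
Proof.  That of `t_QNO` (O_QNO.lean), word by word, with `q = a`, and `f` over `MvPolynomial (Fin a) R`
instead of `gen f`, `MvPolynomial.map (FAM.mpa a ψ) f` instead of `gen (mf ψ f)`; the last step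
(`hQSW`) is not needed. -/
def S_QOP : Prop :=
  ∀ (k : Type) [Field k]
    (P : ∀ (A : Type) [CommRing A] [Algebra k A] [Algebra.FiniteType k A], Prop) (d : ℕ),
    (2 : k) ≠ 0 → Cls k d P → OddCl k P →
    ∀ (R : Type) [CommRing R] [Algebra k R] [Algebra.FiniteType k R] (n a e : ℕ)
      (f : MvPolynomial (Fin n) (MvPolynomial (Fin a) R)), e ≤ d → e + a ≤ d + 1 → DL k R e →
      f.IsHomogeneous 2 → OddOne k e f → P (ER (fun _ : Fin 1 => f))

def M_QOP : Prop := S_QOD → S_QOP

/-- **HCH** (commutative algebra): the strata `x_0 = 0` and `x_0 ≠ 0` of an affine cone.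
Proof.  `z`: `sp 0`, surjective; the kernel of `ER f → ER (sp 0 ∘ f)` is generated by `x_0`, because
`g - (sp 0 g)(x_1, ..., x_n)` is a multiple of `x_0`.  `u`: with `A = ER (sp 1 ∘ f)` and `t` the image of
`X` in `Localization.Away X`: `x_0 ↦ t`, `x_(j+1) ↦ t x_j`; `f_j ↦ t ^ (m_j) (sp 1 f_j) = 0` by
homogeneity.  It is a localisation away from `x_0`: the inverse of
`ER f [x_0⁻¹] → Localization.Away X` is `x_j ↦ x_(j+1) / x_0`, `X ↦ x_0` (methods: R_VRQ, R_LNR,
O_OHYR). -/
def S_HCH : Prop :=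
  ∀ (k R ι : Type) [Field k] [CommRing R] [Algebra k R] (n : ℕ)
    (f : ι → MvPolynomial (Fin (n + 1)) R) (m : ι → ℕ), (∀ j, (f j).IsHomogeneous (m j)) →
    ∃ (z : ER f →ₐ[k] ER (fun j => sp 0 (f j)))
      (u : ER f →ₐ[k] Localization.Away (X : (ER (fun j => sp 1 (f j)))[X])),
      Strat (Ideal.Quotient.mk (Ideal.span (Set.range f)) (MvPolynomial.X 0)) z u

/-- **HDE**: affine cones and their charts.
Proof.  `S_HCH`.  (1) `glue`: for `A = ER (sp 1 ∘ f)`, `P A` implies `P A[X]` (`line`) and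
`P (Localization.Away X)` (`opn` for the strata `X = 0`: `A`, and `X ≠ 0` of `A[X]`).
(2) `opn`, then `GmCl`. -/
def S_HDE : Prop :=
  ∀ (k : Type) [Field k]
    (P : ∀ (A : Type) [CommRing A] [Algebra k A] [Algebra.FiniteType k A], Prop),
    Cls0 k P → (∀ (A : Type) [CommRing A] [Algebra k A] [Algebra.FiniteType k A], P A → P A[X]) →
    GmCl k P →
    ∀ (R ι : Type) [CommRing R] [Algebra k R] [Algebra.FiniteType k R] (n : ℕ)
      (f : ι → MvPolynomial (Fin (n + 1)) R) (m : ι → ℕ), (∀ j, (f j).IsHomogeneous (m j)) →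
      P (ER (fun j => sp 0 (f j))) → (P (ER (fun j => sp 1 (f j))) ↔ P (ER f))

def M_HDE : Prop := S_HCH → S_HDE

/-- **LN1**: one equation of degree at most one over `R[x_1, ..., x_s]`, `e + s ≤ d + 1`.
Proof.  Noetherian induction over `R` (`Asm.s_NOE` with `Cls1` as in O_QNO), so for a domain `D = R / p`
(take `a = 1` as in O_QNO): `B = MvPolynomial (Fin s) D`, a domain, `P B` (`base`, `Asm.s_PLY` (1)),
`DL k B (d + 1)`, `f = g_0 + ∑ g_j y_j` over `B`.  If `f = 0`: `Asm.s_PLY` (1) for `B`.  Otherwise let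
`u` be a nonzero coefficient, `u = g_j` with `j ≥ 1` if possible.  `Strat u`: `DL k (B / u) d`
(`Asm.s_DLR`), so the family over `B / u` is `Asm.s_QUA`; `P (B_u)` by `opn`; over `B_u`: if `u = g_j`,
`j ≥ 1`: `QCV.eli` (R_ELM) with no other equation: a polynomial ring over `B_u`; if `u = g_0` and all
`g_j = 0`: the unit ideal (`triv`).  `Asm.s_FAM` (1) and `glue`. -/
def S_LN1 : Prop :=
  ∀ (k : Type) [Field k]
    (P : ∀ (A : Type) [CommRing A] [Algebra k A] [Algebra.FiniteType k A], Prop) (d : ℕ),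
    Cls k d P →
    ∀ (R : Type) [CommRing R] [Algebra k R] [Algebra.FiniteType k R] (n s e : ℕ)
      (f : MvPolynomial (Fin n) (MvPolynomial (Fin s) R)), e ≤ d → e + s ≤ d + 1 → DL k R e →
      f.totalDegree ≤ 1 → P (ER (fun _ : Fin 1 => f))

/-- **AFF**: the chart `y_0 = 1` of the cubic hypersurface.
Proof.  If `e + a ≤ d`: `Asm.s_QUA` for the base `MvPolynomial (Fin a) R` (`Asm.s_DLM`); the degree is at
most two (homogeneity of `G`; `sp 1` does not raise the total degree).
If `e + a = d + 1`: `G₁ = map (sp 1) G`, homogeneous of degree two over `R[y_1, ..., y_a]`; `P (ER G₁)`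
by `S_QOP`.  `sp 0 G₁` consists of the terms of `G₁` without `x_0`, its coefficients are `sp 1` of linear
forms in `y`, so of degree at most one in `y`: exchange `R[y][x] ≅ R[x][y]` (`MvPolynomial` swap as in
R_SWP, O_QSW, `MvPolynomial.commAlgEquiv`), so `P (ER (sp 0 G₁))` by `S_LN1`.  `S_HDE` (←) for
`G₁` over the base `MvPolynomial (Fin a) R`. -/
def S_AFF : Prop :=
  ∀ (k : Type) [Field k]
    (P : ∀ (A : Type) [CommRing A] [Algebra k A] [Algebra.FiniteType k A], Prop) (d : ℕ),
    (2 : k) ≠ 0 → Cls k d P → OddCl k P → GmCl k P →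
    ∀ (R : Type) [CommRing R] [Algebra k R] [Algebra.FiniteType k R] (a s e : ℕ)
      (G : MvPolynomial (Fin (s + 1)) (MvPolynomial (Fin (a + 1)) R)), e ≤ d → e + a ≤ d + 1 →
      e + s ≤ d + 1 → DL k R e → G.IsHomogeneous 2 →
      (∀ μ, (MvPolynomial.coeff μ G).IsHomogeneous (1 + μ 0)) →
      (d < e + a → OddOne k e (MvPolynomial.map (sp (1 : R)).toRingHom G)) →
      P (ER (fun _ : Fin 1 => sp 1 (MvPolynomial.map (sp (1 : R)).toRingHom G)))

def M_AFF : Prop := S_QOP → S_LN1 → S_HDE → S_AFF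

/-- The cubic form `G(1, x_1, ..., x_s)` in `R[y_0, ..., y_a, x_1, ..., x_s]`. -/
noncomputable def cub {R : Type} [CommRing R] {a s : ℕ}
    (G : MvPolynomial (Fin (s + 1)) (MvPolynomial (Fin (a + 1)) R)) :
    MvPolynomial (Fin (a + s + 1)) R :=
  MvPolynomial.eval₂
    (MvPolynomial.rename fun i : Fin (a + 1) => (⟨i.1, by omega⟩ : Fin (a + s + 1))).toRingHom
    (Fin.cons 1 fun j : Fin s => MvPolynomial.X ⟨a + 1 + j.1, by omega⟩) G

/-- **CUH**: `cub G` is homogeneous of degree three.
Proof.  Sum over the monomials `μ` of `G`: the coefficient has degree `1 + μ_0`, the product of the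
`x_j ^ μ_j`, `j ≥ 1`, has degree `2 - μ_0`. -/
def S_CUH : Prop :=
  ∀ (R : Type) [CommRing R] (a s : ℕ)
    (G : MvPolynomial (Fin (s + 1)) (MvPolynomial (Fin (a + 1)) R)), G.IsHomogeneous 2 →
    (∀ μ, (MvPolynomial.coeff μ G).IsHomogeneous (1 + μ 0)) → (cub G).IsHomogeneous 3

/-- **CUB**: the affine cone over the cubic hypersurface.
Proof.  Induction on `a` with `S_HDE` (→) for `f = cub G`, `m = 3` (`S_CUH`).
`sp 1 (cub G)`: `R[y_1, ..., y_a, x_1, ..., x_s] ≅ R[y_1, ..., y_a][x_1, ..., x_s]` (P_SPL, or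
`MvPolynomial.sumAlgEquiv` and `finSumFinEquiv`) maps it to `sp 1 (map (sp 1) G)`: `S_AFF`.
`sp 0 (cub G)`: if `a = 0` it is zero (its coefficients are `sp 0` of forms of positive degree in `y_0`):
`Asm.s_PLY`.  If `a = a' + 1`: it is `cub (map (sp 0) G)`, and `map (sp 0) G` satisfies the hypotheses
for `a'` (now `e + a' ≤ d`, so no condition on the rank). -/
def S_CUB : Prop :=
  ∀ (k : Type) [Field k]
    (P : ∀ (A : Type) [CommRing A] [Algebra k A] [Algebra.FiniteType k A], Prop) (d : ℕ),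
    (2 : k) ≠ 0 → Cls k d P → OddCl k P → GmCl k P →
    ∀ (R : Type) [CommRing R] [Algebra k R] [Algebra.FiniteType k R] (a s e : ℕ)
      (G : MvPolynomial (Fin (s + 1)) (MvPolynomial (Fin (a + 1)) R)), e ≤ d → e + a ≤ d + 1 →
      e + s ≤ d + 1 → DL k R e → G.IsHomogeneous 2 →
      (∀ μ, (MvPolynomial.coeff μ G).IsHomogeneous (1 + μ 0)) →
      (d < e + a → OddOne k e (MvPolynomial.map (sp (1 : R)).toRingHom G)) →
      P (ER (fun _ : Fin 1 => cub G))

def M_CUB : Prop := S_AFF → S_HDE → S_CUH → S_CUB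

end QCV
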