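import Pool.Agent.QCV.Cls
import Pool.Agent.QCV.StC

/-!
# QCV, block B: the trivial line bundle
-/

set_option autoImplicit false

open CategoryTheory AlgebraicGeometry Limits Polynomial

namespace QCV

open Pool.Agent.Lib_helper55.Beil CUB

variable {k : Type} [Field k]

/-- A product with the affine line as a line bundle. -/
def toBun {Y X : Var k} (L : Line Y X) : Bun Y X where
  q := L.q
  comm := L.comm
  loc := fun x => ⟨Y, X, L, ⟨𝟙 _, Category.id_comp _, inferInstance⟩,
    ⟨𝟙 _, Category.id_comp _, inferInstance⟩,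
    IsPullback.of_vert_isIso ⟨by simp⟩, ⟨x, rfl⟩⟩

lemma gmCl_built (k : Type) [Field k] (d : ℕ) :
    GmCl k (fun A [CommRing A] [Algebra k A] [Algebra.FiniteType k A] => Built k d (aff k A)) := by
  intro A _ _ _ h
  let φ : A[X] →ₐ[k] A := (Polynomial.aeval (0 : A)).restrictScalars k
  have hφ : Function.Surjective φ := fun x => ⟨C x, by
    change Polynomial.aeval (0 : A) (C x) = x
    rw [Polynomial.aeval_C]
    rfl⟩
  have hk : RingHom.ker φ.toRingHom = Ideal.span {(X : A[X])} := by
    ext p
    rw [RingHom.mem_ker, Ideal.mem_span_singleton, Polynomial.X_dvd_iff]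
    change Polynomial.aeval (0 : A) p = 0 ↔ _
    rw [← Polynomial.coeff_zero_eq_aeval_zero]
  have hu := isLocalization_awayHom (k := k) (X : A[X])
  refine Built.bundle (toBun (lineE (CC k A) (RingEquiv.refl _) (fun _ => rfl))) (clo φ hφ)
    (opn (awayHom k (X : A[X])) (isOpenImmersion_spm _ _ hu)) ?_ ?_ h
  · have h1 : φ.toRingHom.comp (CC k A).toRingHom = RingHom.id A := by
      ext x
      change Polynomial.aeval (0 : A) (C x) = x
      rw [Polynomial.aeval_C]
      rfl
    have h2 : Spec.map (CommRingCat.ofHom φ.toRingHom) ≫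
        Spec.map (CommRingCat.ofHom (CC k A).toRingHom) = 𝟙 (Spec (CommRingCat.of A)) := by
      rw [← Spec.map_comp, ← CommRingCat.ofHom_comp, h1]
      exact Spec.map_id _
    exact h2
  · exact complementary_away _ _ hu φ hφ hk

end QCV
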