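import Mathlib

/-!
# QCV: polynomials of degree at most two in a part of the variables
-/

set_option autoImplicit false

namespace QCV

namespace P_SPL

open MvPolynomial

/-- The first `b` variables are the inner ones. -/
def idx {s b : ℕ} (hb : b ≤ s) : Fin s ≃ Fin (s - b) ⊕ Fin b :=
  ((finCongr (show s = b + (s - b) by omega)).trans finSumFinEquiv.symm).trans
    (Equiv.sumComm (Fin b) (Fin (s - b)))

lemma idx_lt {s b : ℕ} (hb : b ≤ s) (i : Fin s) (hi : i.1 < b) :
    idx hb i = Sum.inr ⟨i.1, hi⟩ := by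
  rw [idx, Equiv.trans_apply, Equiv.trans_apply]
  have h : finSumFinEquiv.symm ((finCongr (show s = b + (s - b) by omega)) i) =
      (Sum.inl ⟨i.1, hi⟩ : Fin b ⊕ Fin (s - b)) := by
    rw [Equiv.symm_apply_eq]
    rfl
  rw [h]
  rfl

lemma idx_ge {s b : ℕ} (hb : b ≤ s) (i : Fin s) (hi : b ≤ i.1) :
    idx hb i = Sum.inl ⟨i.1 - b, by omega⟩ := by
  rw [idx, Equiv.trans_apply, Equiv.trans_apply]
  have h : finSumFinEquiv.symm ((finCongr (show s = b + (s - b) by omega)) i) =
      (Sum.inr ⟨i.1 - b, by omega⟩ : Fin b ⊕ Fin (s - b)) := by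
    rw [Equiv.symm_apply_eq]
    ext
    simp only [finCongr_apply, Fin.val_cast, finSumFinEquiv_apply_right, Fin.val_natAdd]
    omega
  rw [h]
  rfl

section

variable {R : Type} [CommRing R] {s b : ℕ} (hb : b ≤ s)

/-- The polynomials in `s` variables as polynomials in `s - b` variables. -/
noncomputable def spl : MvPolynomial (Fin s) R ≃ₐ[R]
    MvPolynomial (Fin (s - b)) (MvPolynomial (Fin b) R) :=
  (renameEquiv R (idx hb)).trans (sumAlgEquiv R (Fin (s - b)) (Fin b))

lemma spl_X_lt (i : Fin s) (hi : i.1 < b) :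
    spl (R := R) hb (X i) = C (X ⟨i.1, hi⟩) := by
  rw [spl, AlgEquiv.trans_apply, renameEquiv_apply, rename_X, idx_lt hb i hi,
    sumAlgEquiv_X_inr]

lemma spl_X_ge (i : Fin s) (hi : b ≤ i.1) :
    spl (R := R) hb (X i) = X ⟨i.1 - b, by omega⟩ := by
  rw [spl, AlgEquiv.trans_apply, renameEquiv_apply, rename_X, idx_ge hb i hi,
    sumAlgEquiv_X_inl]

lemma spl_C (c : R) : spl (R := R) hb (C c) = C (C c) := by
  rw [spl, AlgEquiv.trans_apply, renameEquiv_apply, rename_C, sumAlgEquiv_C_inl]

lemma totalDegree_spl_monomial (m : Fin s →₀ ℕ) (c : R) :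
    (spl hb (monomial m c)).totalDegree ≤
      (Finset.univ.filter (fun i : Fin s => b ≤ i.1)).sum (fun i => m i) := by
  rw [monomial_eq, map_mul, spl_C, Finsupp.prod_fintype _ _ (fun _ => pow_zero _), map_prod]
  refine (totalDegree_mul _ _).trans ?_
  rw [totalDegree_C, zero_add]
  refine (totalDegree_finsetProd _ _).trans ?_
  rw [Finset.sum_filter]
  refine Finset.sum_le_sum fun i _ => ?_
  rw [map_pow]
  refine (totalDegree_pow _ _).trans ?_
  by_cases hi : b ≤ i.1
  · rw [if_pos hi, spl_X_ge hb i hi]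
    have h : (X ⟨i.1 - b, by omega⟩ :
        MvPolynomial (Fin (s - b)) (MvPolynomial (Fin b) R)).totalDegree ≤ 1 := by
      rcases subsingleton_or_nontrivial (MvPolynomial (Fin b) R) with h | h
      · have h0 : (X ⟨i.1 - b, by omega⟩ :
          MvPolynomial (Fin (s - b)) (MvPolynomial (Fin b) R)) = 0 := Subsingleton.elim _ _
        rw [h0, totalDegree_zero]
        exact zero_le_one
      · rw [totalDegree_X]
    calc _ ≤ m i * 1 := Nat.mul_le_mul_left _ h
      _ = m i := mul_one _
  · rw [if_neg hi, spl_X_lt hb i (not_le.1 hi), totalDegree_C, mul_zero]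

lemma totalDegree_spl (f : MvPolynomial (Fin s) R) (d : ℕ)
    (hf : ∀ m ∈ f.support,
      (Finset.univ.filter (fun i : Fin s => b ≤ i.1)).sum (fun i => m i) ≤ d) :
    (spl hb f).totalDegree ≤ d := by
  rw [f.as_sum, map_sum]
  refine totalDegree_finsetSum_le fun m hm => ?_
  exact (totalDegree_spl_monomial hb m _).trans (hf m hm)

end

end P_SPL

/-- Polynomials of degree at most `D j` in the last `s - b` of `s` variables are polynomials of
degree at most `D j` over the polynomial ring in the first `b` variables. -/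
theorem exists_split {k R : Type} [Field k] [CommRing R] [Algebra k R] {ι : Type} {s b : ℕ}
    (hb : b ≤ s) (D : ι → ℕ) (h : ι → MvPolynomial (Fin s) R)
    (hdeg : ∀ j, ∀ m ∈ (h j).support,
      (Finset.univ.filter (fun i : Fin s => b ≤ i.1)).sum (fun i => m i) ≤ D j) :
    ∃ g : ι → MvPolynomial (Fin (s - b)) (MvPolynomial (Fin b) R),
      (∀ j, (g j).totalDegree ≤ D j) ∧
      Nonempty ((MvPolynomial (Fin s) R ⧸ Ideal.span (Set.range h)) ≃ₐ[k]
        (MvPolynomial (Fin (s - b)) (MvPolynomial (Fin b) R) ⧸ Ideal.span (Set.range g))) := by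
  refine ⟨fun j => P_SPL.spl hb (h j), fun j => P_SPL.totalDegree_spl hb (h j) (D j) (hdeg j), ⟨?_⟩⟩
  refine Ideal.quotientEquivAlg _ _ ((P_SPL.spl hb).restrictScalars k) ?_
  rw [Ideal.map_span]
  congr 1
  ext x
  simp only [Set.mem_range, Set.mem_image, exists_exists_eq_and]
  rfl

end QCV
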