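import Pool.Agent.QCV.StO
import Pool.Agent.QCV.P_SPL

/-!
# QCV_QDL: the variables which do not occur
-/

set_option autoImplicit false

namespace QCV

namespace O_QDL

open MvPolynomial

lemma spl_dia {B : Type} [CommRing B] {n ρ : ℕ} (hρ : ρ ≤ n) (v : Fin n → B)
    (hv : ∀ j : Fin n, ¬ j.1 < ρ → v j = 0) :
    P_SPL.spl (R := B) hρ (dia v) =
      C (dia fun j : Fin ρ => v (Fin.castLE hρ j)) := by
  obtain ⟨r, rfl⟩ := Nat.exists_eq_add_of_le hρ
  unfold dia
  rw [map_sum, map_sum, Fin.sum_univ_add]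
  have h2 : ∑ i : Fin r, P_SPL.spl (R := B) hρ
      (C (v (Fin.natAdd ρ i)) * X (Fin.natAdd ρ i) ^ 2) = 0 := by
    refine Finset.sum_eq_zero fun i _ => ?_
    rw [hv (Fin.natAdd ρ i) (by simp), C_0, zero_mul, map_zero]
  rw [h2, add_zero]
  refine Finset.sum_congr rfl fun i _ => ?_
  rw [map_mul, map_pow, P_SPL.spl_C, P_SPL.spl_X_lt hρ (Fin.castAdd r i) (by simp), map_mul,
    map_pow]
  rfl

end O_QDL

open O_QDL in
/-- QCV_QDL. -/
theorem t_QDL : S_QDL := by
  intro k B _ _ _ n ρ hρ v hv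
  set g : MvPolynomial (Fin ρ) B := dia fun j : Fin ρ => v (Fin.castLE hρ j) with hg
  refine ⟨(Ideal.quotientEquivAlg (Ideal.span {dia v})
    (Ideal.map (MvPolynomial.C (σ := Fin (n - ρ))) (Ideal.span {g}))
    ((P_SPL.spl hρ).restrictScalars k) ?_).trans
    ((MvPolynomial.quotientEquivQuotientMvPolynomial (Ideal.span {g})).restrictScalars k).symm⟩
  rw [Ideal.map_span, Ideal.map_span, Set.image_singleton, Set.image_singleton]
  congr 2
  exact (spl_dia hρ v hv).symm

end QCV
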