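import Pool.Agent.QCV.StO

/-!
# QCV, module QDP: linear substitution diagonalises a quadratic form
-/

set_option autoImplicit false

open MvPolynomial

namespace QCV

namespace QDP

variable {B : Type} [CommRing B] {n : ℕ}

/-- Euler's identity for a quadratic form -/
theorem two_mul_form (f : MvPolynomial (Fin n) B) (hf : f.IsHomogeneous 2) :
    2 * f = ∑ j, ∑ i, C (gram f i j) * X i * X j := by
  have h1 := hf.sum_X_mul_pderiv
  have h2 : ∀ j, pderiv j f = ∑ i, X i * pderiv i (pderiv j f) := by
    intro j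
    have := (hf.pderiv (i := j)).sum_X_mul_pderiv
    rw [this]
    simp
  have h3 : ∀ i j, pderiv i (pderiv j f) = C (gram f i j) := by
    intro i j
    have h4 := (hf.pderiv (i := j)).pderiv (i := i)
    have h5 := (totalDegree_zero_iff_isHomogeneous _).2 h4
    exact totalDegree_eq_zero_iff_eq_C.1 h5
  have h6 : (2 : MvPolynomial (Fin n) B) * f = 2 • f := by
    rw [nsmul_eq_mul]
    norm_num
  rw [h6, ← h1]
  refine Finset.sum_congr rfl fun j _ => ?_
  rw [h2 j, Finset.mul_sum]
  refine Finset.sum_congr rfl fun i _ => ?_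
  rw [h3 i j]
  ring

/-- the linear substitution with matrix `P` -/
noncomputable def sub (P : Matrix (Fin n) (Fin n) B) :
    MvPolynomial (Fin n) B →ₐ[B] MvPolynomial (Fin n) B :=
  aeval fun i => ∑ a, C (P i a) * X a

theorem sub_X (P : Matrix (Fin n) (Fin n) B) (i : Fin n) :
    sub P (X i) = ∑ a, C (P i a) * X a := by
  rw [sub, aeval_X]

theorem sub_C (P : Matrix (Fin n) (Fin n) B) (b : B) : sub P (C b) = C b := by
  rw [sub, aeval_C]
  rfl

theorem sub_comp (P Q : Matrix (Fin n) (Fin n) B) : (sub Q).comp (sub P) = sub (P * Q) := by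
  apply algHom_ext
  intro i
  rw [AlgHom.comp_apply, sub_X, sub_X, map_sum]
  have h : ∀ a, sub Q (C (P i a) * X a) = ∑ b, C (P i a * Q a b) * X b := by
    intro a
    rw [map_mul, sub_C, sub_X, Finset.mul_sum]
    refine Finset.sum_congr rfl fun b _ => ?_
    rw [C_mul, mul_assoc]
  rw [Finset.sum_congr rfl fun a _ => h a, Finset.sum_comm]
  refine Finset.sum_congr rfl fun b _ => ?_
  rw [Matrix.mul_apply, map_sum, Finset.sum_mul]

theorem sub_one : sub (1 : Matrix (Fin n) (Fin n) B) = AlgHom.id B _ := by
  apply algHom_ext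
  intro i
  rw [sub_X, Finset.sum_eq_single i]
  · simp
  · intro b _ hb
    rw [Matrix.one_apply_ne hb.symm, C_0, zero_mul]
  · simp

theorem sub_form (f : MvPolynomial (Fin n) B) (hf : f.IsHomogeneous 2)
    (P : Matrix (Fin n) (Fin n) B) (w : Fin n → B)
    (h : P.transpose * gram f * P = Matrix.diagonal w) : 2 * sub P f = dia w := by
  have h1 : 2 * sub P f = sub P (2 * f) := by
    rw [map_mul, map_ofNat]
  rw [h1, two_mul_form f hf]
  simp only [map_sum, map_mul, sub_C, sub_X]
  have h2 : ∀ a b, ∑ j, ∑ i, P i a * gram f i j * P j b = if a = b then w a else 0 := by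
    intro a b
    have h3 := congrFun (congrFun h a) b
    rw [Matrix.diagonal_apply] at h3
    rw [← h3, Matrix.mul_apply]
    refine Finset.sum_congr rfl fun j _ => ?_
    rw [Matrix.mul_apply, Finset.sum_mul]
    rfl
  calc ∑ j, ∑ i, C (gram f i j) * (∑ a, C (P i a) * X a) * (∑ b, C (P j b) * X b)
      = ∑ j, ∑ i, ∑ a, ∑ b, C (P i a * gram f i j * P j b) * (X a * X b) := by
        refine Finset.sum_congr rfl fun j _ => Finset.sum_congr rfl fun i _ => ?_
        rw [mul_assoc, Finset.sum_mul_sum, Finset.mul_sum]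
        refine Finset.sum_congr rfl fun a _ => ?_
        rw [Finset.mul_sum]
        refine Finset.sum_congr rfl fun b _ => ?_
        rw [C_mul, C_mul]
        ring
    _ = ∑ a, ∑ b, C (∑ j, ∑ i, P i a * gram f i j * P j b) * (X a * X b) := by
        rw [Finset.sum_congr rfl fun j _ => Finset.sum_comm]
        rw [Finset.sum_comm]
        refine Finset.sum_congr rfl fun a _ => ?_
        rw [Finset.sum_congr rfl fun j _ => Finset.sum_comm]
        rw [Finset.sum_comm]
        refine Finset.sum_congr rfl fun b _ => ?_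
        rw [map_sum, Finset.sum_mul]
        refine Finset.sum_congr rfl fun j _ => ?_
        rw [map_sum, Finset.sum_mul]
    _ = dia w := by
        rw [dia]
        refine Finset.sum_congr rfl fun a _ => ?_
        rw [Finset.sum_eq_single a]
        · rw [h2 a a, if_pos rfl]
          ring
        · intro b _ hb
          rw [h2 a b, if_neg hb.symm, C_0, zero_mul]
        · simp

end QDP

open QDP in
theorem t_QDP : S_QDP := by
  intro k B _ _ _ n f P w v h2 hf hP h hv
  have hPQ : P * P⁻¹ = 1 := Matrix.mul_nonsing_inv P hP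
  have hQP : P⁻¹ * P = 1 := Matrix.nonsing_inv_mul P hP
  let φ : MvPolynomial (Fin n) B ≃ₐ[B] MvPolynomial (Fin n) B :=
    AlgEquiv.ofAlgHom (sub P) (sub P⁻¹)
      (by rw [sub_comp, hQP, sub_one]) (by rw [sub_comp, hPQ, sub_one])
  have hφ : φ f = dia v := by
    have h3 : (2 : MvPolynomial (Fin n) B) * φ f = 2 * dia v := by
      refine (sub_form f hf P w h).trans ?_
      rw [dia, dia, Finset.mul_sum]
      refine Finset.sum_congr rfl fun j _ => ?_
      rw [← hv j, C_mul, mul_assoc, map_ofNat]
    have hu : IsUnit (2 : MvPolynomial (Fin n) B) := by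
      have h4 : IsUnit (algebraMap k (MvPolynomial (Fin n) B) 2) :=
        (isUnit_iff_ne_zero.2 h2).map _
      rwa [map_ofNat] at h4
    exact hu.mul_left_cancel h3
  have hφk : ∀ r : k, φ (algebraMap k (MvPolynomial (Fin n) B) r) =
      algebraMap k (MvPolynomial (Fin n) B) r := by
    intro r
    rw [IsScalarTower.algebraMap_apply k B (MvPolynomial (Fin n) B)]
    exact φ.commutes _
  refine ⟨Ideal.quotientEquivAlg (Ideal.span {f}) (Ideal.span {dia v}) (φ.restrictScalars k) ?_⟩
  rw [Ideal.map_span, Set.image_singleton]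
  congr 1
  exact congrArg _ hφ.symm

end QCV
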