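import Pool.Agent.QCV.StO
set_option autoImplicit false

/-!
# QDS: diagonalisation of a symmetric matrix over a localisation of a domain
-/

namespace QCV

theorem t_QDS : M_QDS := by
  intro hF D _ _ n G h2 hG
  classical
  set φ : D →+* FractionRing D := algebraMap D (FractionRing D) with hφ
  have hinj : Function.Injective φ := IsFractionRing.injective D (FractionRing D)
  have h2' : (2 : FractionRing D) ≠ 0 := by
    intro h
    apply h2
    apply hinj
    rw [map_ofNat, map_zero, h]
  obtain ⟨P', w', hP', hw', hr⟩ := hF (FractionRing D) n (G.map φ) h2' (by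
    rw [← Matrix.transpose_map, hG])
  obtain ⟨s, hs⟩ := IsLocalization.exist_integer_multiples (nonZeroDivisors D)
    (Finset.univ : Finset (Fin n × Fin n)) (fun ij => P' ij.1 ij.2)
  have hs' : ∀ i j, ∃ d : D, φ d = φ s.1 * P' i j := by
    intro i j
    obtain ⟨d, hd⟩ := hs (i, j) (Finset.mem_univ _)
    exact ⟨d, by rw [hφ, hd, Algebra.smul_def]⟩
  choose P₀ hP₀ using hs'
  have hs0 : φ s.1 ≠ 0 := by
    rw [Ne, ← map_zero φ, hinj.eq_iff]
    exact nonZeroDivisors.ne_zero s.2
  have hPm : (Matrix.of P₀).map φ = φ s.1 • P' := by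
    ext i j
    simp only [Matrix.map_apply, Matrix.of_apply, Matrix.smul_apply, smul_eq_mul, hP₀]
  have hW : ((Matrix.of P₀).transpose * G * Matrix.of P₀).map φ =
      Matrix.diagonal fun j => φ s.1 ^ 2 * w' j := by
    rw [Matrix.map_mul, Matrix.map_mul, Matrix.transpose_map, hPm, Matrix.transpose_smul,
      Matrix.smul_mul, Matrix.smul_mul, Matrix.mul_smul, hw', smul_smul]
    ext i j
    by_cases h : i = j
    · subst h
      simp [sq]
    · simp [Matrix.diagonal_apply_ne _ h]
  set W₀ : Matrix (Fin n) (Fin n) D := (Matrix.of P₀).transpose * G * Matrix.of P₀ with hW₀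
  have hWe : ∀ i j, φ (W₀ i j) = (Matrix.diagonal fun j => φ s.1 ^ 2 * w' j) i j := by
    intro i j
    rw [← hW, Matrix.map_apply]
  have hWd : W₀ = Matrix.diagonal fun j => W₀ j j := by
    ext i j
    by_cases h : i = j
    · subst h
      rw [Matrix.diagonal_apply_eq]
    · rw [Matrix.diagonal_apply_ne _ h]
      apply hinj
      rw [hWe, Matrix.diagonal_apply_ne _ h, map_zero]
  have hWj : ∀ j, W₀ j j ≠ 0 ↔ j.1 < (G.map φ).rank := by
    intro j
    rw [← hr j, ← hinj.ne_iff, hWe, Matrix.diagonal_apply_eq, map_zero]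
    exact mul_ne_zero_iff_left (pow_ne_zero 2 hs0)
  have hdet : (Matrix.of P₀).det ≠ 0 := by
    rw [← hinj.ne_iff, map_zero, RingHom.map_det, RingHom.mapMatrix_apply, hPm, Matrix.det_smul]
    exact mul_ne_zero (pow_ne_zero _ hs0) hP'.ne_zero
  refine ⟨(Matrix.of P₀).det * ∏ j, (if W₀ j j = 0 then 1 else W₀ j j), ?_, ?_⟩
  · refine mul_ne_zero hdet (Finset.prod_ne_zero_iff.2 fun j _ => ?_)
    split_ifs with h
    · exact one_ne_zero
    · exact h
  · set a : D := (Matrix.of P₀).det * ∏ j, (if W₀ j j = 0 then 1 else W₀ j j) with ha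
    have hau : IsUnit (algebraMap D (Localization.Away a) a) :=
      IsLocalization.Away.algebraMap_isUnit a
    refine ⟨(Matrix.of P₀).map (algebraMap D (Localization.Away a)),
      fun j => algebraMap D (Localization.Away a) (W₀ j j), ?_, ?_, fun j => ⟨fun hj => ?_, fun hj => ?_⟩⟩
    · have h := RingHom.map_det (algebraMap D (Localization.Away a)) (Matrix.of P₀)
      rw [RingHom.mapMatrix_apply] at h
      rw [← h]
      exact isUnit_of_dvd_unit (map_dvd _ (Dvd.intro _ rfl)) hau
    · rw [← Matrix.transpose_map, ← Matrix.map_mul, ← Matrix.map_mul, ← hW₀]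
      conv_lhs => rw [hWd]
      rw [Matrix.diagonal_map (map_zero _)]
    · have h0 := (hWj j).2 hj
      refine isUnit_of_dvd_unit (map_dvd _ ?_) hau
      refine Dvd.dvd.mul_left ?_ _
      have h1 : (if W₀ j j = 0 then 1 else W₀ j j) = W₀ j j := if_neg h0
      calc W₀ j j = (if W₀ j j = 0 then 1 else W₀ j j) := h1.symm
        _ ∣ _ := Finset.dvd_prod_of_mem (fun j => if W₀ j j = 0 then 1 else W₀ j j)
          (Finset.mem_univ j)
    · have h0 : W₀ j j = 0 := by
        by_contra h
        exact hj ((hWj j).1 h)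
      change algebraMap D (Localization.Away a) (W₀ j j) = 0
      rw [h0, map_zero]

end QCV
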