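import Pool.Agent.QCV.StO
import Pool.Agent.QCV.Asm

/-!
# QCV_QOD: one quadratic form of odd generic rank (helper70)
-/

set_option autoImplicit false

open Polynomial

namespace QCV

open CUB

namespace QOD

/-- the partial derivatives commute -/
lemma pderiv_comm {A : Type} [CommRing A] {n : ℕ} (i j : Fin n) (f : MvPolynomial (Fin n) A) :
    MvPolynomial.pderiv i (MvPolynomial.pderiv j f) =
      MvPolynomial.pderiv j (MvPolynomial.pderiv i f) := by
  have h : ⁅(MvPolynomial.pderiv i : Derivation A (MvPolynomial (Fin n) A)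
        (MvPolynomial (Fin n) A)),
      (MvPolynomial.pderiv j : Derivation A (MvPolynomial (Fin n) A)
        (MvPolynomial (Fin n) A))⁆ = 0 := by
    apply MvPolynomial.derivation_ext
    intro l
    rw [Derivation.commutator_apply, MvPolynomial.pderiv_X, MvPolynomial.pderiv_X,
      Derivation.zero_apply]
    have h1 : ∀ (a b : Fin n), MvPolynomial.pderiv a
        ((Pi.single b 1 : Fin n → MvPolynomial (Fin n) A) l) = 0 := by
      intro a b
      by_cases h : l = b
      · subst h
        rw [Pi.single_eq_same]
        exact MvPolynomial.pderiv_one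
      · rw [Pi.single_eq_of_ne h, map_zero]
    rw [h1, h1, sub_zero]
  have h2 := congrArg (fun D : Derivation A (MvPolynomial (Fin n) A) (MvPolynomial (Fin n) A) =>
    D f) h
  simp only [Derivation.commutator_apply, Derivation.zero_apply] at h2
  exact sub_eq_zero.1 h2

lemma gram_transpose {A : Type} [CommRing A] {n : ℕ} (f : MvPolynomial (Fin n) A) :
    (gram f).transpose = gram f := by
  ext i j
  rw [Matrix.transpose_apply]
  unfold gram
  rw [pderiv_comm]

lemma gram_map {A B : Type} [CommRing A] [CommRing B] {n : ℕ} (φ : A →+* B)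
    (f : MvPolynomial (Fin n) A) : gram (MvPolynomial.map φ f) = (gram f).map φ := by
  ext i j
  rw [Matrix.map_apply]
  unfold gram
  rw [MvPolynomial.pderiv_map, MvPolynomial.pderiv_map, MvPolynomial.coeff_map]

end QOD

open QOD in
theorem t_QOD : M_QOD := by
  intro hQDS hQDP hQDL k _ P d h2 hP hO B _ _ _ _ n f hD hB hf hodd
  have hinj : Function.Injective (algebraMap k B) := (algebraMap k B).injective
  have h2B : (2 : B) ≠ 0 := by
    intro h
    apply h2
    apply hinj
    rw [map_zero, map_ofNat, h]
  obtain ⟨a, ha, Pm, w, hdet, hdiag, hw⟩ := hQDS B n (gram f) h2B (gram_transpose f)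
  obtain ⟨m, hm⟩ := hodd
  have hρ : 2 * m + 1 ≤ n := by
    rw [← hm]
    refine (Matrix.rank_le_width _).trans le_rfl
  rw [hm] at hw
  -- the strata of the base
  have hstrat : Strat (k := k) a (Ideal.Quotient.mkₐ k (Ideal.span {a})) (awayHom k a) := by
    refine ⟨Ideal.Quotient.mkₐ_surjective k _, ?_, isLocalization_awayHom a⟩
    exact Ideal.Quotient.mkₐ_ker k (Ideal.span {a})
  have hDZ : DL k (B ⧸ Ideal.span {a}) d := Asm.s_DLR.2.2.2.2 k B d a ha hD
  have hZ : P (B ⧸ Ideal.span {a}) := hP.base _ hDZ
  have hU : P (Localization.Away a) := hP.opn a _ _ hstrat hB hZ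
  obtain ⟨z', u', hs'⟩ := Asm.s_FAM.1 k B (B ⧸ Ideal.span {a}) (Localization.Away a) (Fin 1) n a
    _ _ (fun _ => f) hstrat
  refine hP.glue _ z' u' hs' ?_ ?_
  · refine Asm.s_QUA k P d hP n _ _ hDZ fun j => ?_
    exact (totalDegree_map_le _ _).trans hf.totalDegree_le
  · have hf' : (MvPolynomial.map (algebraMap B (Localization.Away a)) f).IsHomogeneous 2 :=
      hf.map _
    have hdiag' : Pm.transpose *
        gram (MvPolynomial.map (algebraMap B (Localization.Away a)) f) * Pm =
        Matrix.diagonal w := by
      rw [gram_map]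
      exact hdiag
    have htwo : (2 : Localization.Away a) * algebraMap k (Localization.Away a) 2⁻¹ = 1 := by
      rw [← map_ofNat (algebraMap k (Localization.Away a)) 2, ← map_mul, mul_inv_cancel₀ h2,
        map_one]
    obtain ⟨e1⟩ := hQDP k (Localization.Away a) n
      (MvPolynomial.map (algebraMap B (Localization.Away a)) f) Pm w
      (fun j => algebraMap k (Localization.Away a) 2⁻¹ * w j) h2 hf' hdet hdiag' (fun j => by
        rw [← mul_assoc, htwo, one_mul])
    obtain ⟨e2⟩ := hQDL k (Localization.Away a) n (2 * m + 1) hρ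
      (fun j => algebraMap k (Localization.Away a) 2⁻¹ * w j) (fun j hj => by
        rw [(hw j).2 hj, mul_zero])
    have hunit : IsUnit (algebraMap k (Localization.Away a) 2⁻¹) :=
      IsUnit.of_mul_eq_one_right _ htwo
    have hS := hO (Localization.Away a) m (fun j : Fin (2 * m + 1) =>
        algebraMap k (Localization.Away a) 2⁻¹ * w (Fin.castLE hρ j))
      (fun j => hunit.mul ((hw (Fin.castLE hρ j)).1 j.2)) hU
    have hS' := (Asm.s_PLY k P hP.toCls0 hP.line _ (n - (2 * m + 1))).1 hS
    have h3 := hP.iso e1.symm (hP.iso e2.symm hS')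
    have e3 : Ideal.span {MvPolynomial.map (algebraMap B (Localization.Away a)) f} =
        Ideal.span (Set.range (mf (awayHom k a).toRingHom (fun _ : Fin 1 => f))) := by
      congr 1
      ext x
      constructor
      · rintro rfl
        exact ⟨0, rfl⟩
      · rintro ⟨j, rfl⟩
        rfl
    exact hP.iso (Ideal.quotientEquivAlgOfEq k e3) h3

end QCV
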