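import Pool.Agent.QCV.StO

/-!
# QCV, module QDF: diagonalisation of a symmetric matrix over a field
-/

set_option autoImplicit false

open Matrix

namespace QCV

theorem QDF_body (K : Type) [Field K] (n : ℕ) (G : Matrix (Fin n) (Fin n) K) (h2 : (2 : K) ≠ 0) (hG : G.transpose = G) :
    ∃ (P : Matrix (Fin n) (Fin n) K) (w : Fin n → K), IsUnit P.det ∧
      P.transpose * G * P = Matrix.diagonal w ∧ ∀ j : Fin n, w j ≠ 0 ↔ j.1 < G.rank := by
  classical
  have inv2 : Invertible (2 : K) := invertibleOfNonzero h2
  let B : LinearMap.BilinForm K (Fin n → K) := Matrix.toBilin' G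
  have hBa : ∀ x y, B x y = x ⬝ᵥ (G *ᵥ y) := fun x y => Matrix.toBilin'_apply' G x y
  have hB : LinearMap.IsSymm B := by
    refine ⟨fun x y => ?_⟩
    rw [RingHom.id_apply, hBa, hBa, Matrix.dotProduct_mulVec, ← Matrix.mulVec_transpose, hG,
      dotProduct_comm]
  obtain ⟨v0, hv0⟩ := LinearMap.BilinForm.exists_orthogonal_basis hB
  have hn : Module.finrank K (Fin n → K) = n := by simp
  let v : Module.Basis (Fin n) K (Fin n → K) := v0.reindex (finCongr hn)
  have hv : ∀ i j, i ≠ j → B (v i) (v j) = 0 := by
    intro i j hij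
    have h1 : v i = v0 ((finCongr hn).symm i) := by simp [v]
    have h3 : v j = v0 ((finCongr hn).symm j) := by simp [v]
    rw [h1, h3]
    exact hv0 (fun h => hij ((finCongr hn).symm.injective h))
  let P0 : Matrix (Fin n) (Fin n) K := (Pi.basisFun K (Fin n)).toMatrix v
  have hP0 : ∀ i j, P0 i j = v j i := by
    intro i j
    simp [P0, Module.Basis.toMatrix_apply]
  have hdet : IsUnit P0.det := by
    have := (Pi.basisFun K (Fin n)).isUnit_det v
    rwa [Module.Basis.det_apply] at this
  let w0 : Fin n → K := fun j => B (v j) (v j)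
  have hdiag : P0.transpose * G * P0 = Matrix.diagonal w0 := by
    ext i j
    have h1 : (P0.transpose * G * P0) i j = B (v i) (v j) := by
      rw [hBa, Matrix.mul_assoc]
      rw [Matrix.mul_apply]
      simp only [Matrix.transpose_apply, hP0, dotProduct]
      refine Finset.sum_congr rfl fun l _ => ?_
      congr 1
    rw [h1]
    by_cases h : i = j
    · subst h
      rw [Matrix.diagonal_apply_eq]
    · rw [Matrix.diagonal_apply_ne _ h]
      exact hv i j h
  have hrank : G.rank = Fintype.card {i // w0 i ≠ 0} := by
    rw [← Matrix.rank_diagonal w0, ← hdiag, Matrix.rank_mul_eq_left_of_isUnit_det _ _ hdet,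
      Matrix.rank_mul_eq_right_of_isUnit_det _ _ (by rwa [Matrix.det_transpose])]
  have hrn : G.rank ≤ n := by
    have := Matrix.rank_le_card_width G
    simpa using this
  have hcard : Fintype.card {j : Fin n // j.1 < G.rank} = Fintype.card {i // w0 i ≠ 0} := by
    rw [← hrank]
    rw [Fintype.card_subtype]
    have h1 : (Finset.univ.filter fun j : Fin n => j.1 < G.rank).card = G.rank := by
      rw [Fin.card_filter_val_lt]
      omega
    exact h1
  let e := Fintype.equivOfCardEq hcard
  let σ : Equiv.Perm (Fin n) := e.extendSubtype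
  refine ⟨P0.submatrix id σ, w0 ∘ σ, ?_, ?_, ?_⟩
  · rw [Matrix.det_permute']
    exact (((Equiv.Perm.sign σ).isUnit.map (Int.castRingHom K))).mul hdet
  · rw [← Matrix.submatrix_diagonal_equiv, ← hdiag]
    ext i j
    simp [Matrix.mul_apply, Matrix.submatrix_apply, Matrix.transpose_apply]
  · intro j
    constructor
    · intro h
      by_contra hj
      exact e.extendSubtype_not_mem j hj h
    · intro h
      exact e.extendSubtype_mem j h

theorem t_QDF : S_QDF := fun K _ n G h2 hG => QDF_body K n G h2 hG

end QCV
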