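import Pool.Agent.QCV.StO

/-!
# QCV, block O, module ONIL: an automorphism which is trivial modulo nilpotents
-/

set_option autoImplicit false

open CategoryTheory AlgebraicGeometry Polynomial TopologicalSpace

namespace QCV

open Pool.Agent.Lib_helper55.Beil Pool.Agent.Lib_helper66.OneP CUB

universe v

namespace ONIL

variable {k : Type} [Field k] {A : Type} [CommRing A] [Algebra k A] [Algebra.FiniteType k A]

/-- the reduction -/
noncomputable def rd (k A : Type) [Field k] [CommRing A] [Algebra k A] [Algebra.FiniteType k A] :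
    ClosedIn (aff k (A ⧸ nilradical A)) (aff k A) :=
  clo (Ideal.Quotient.mkₐ k (nilradical A)) Ideal.Quotient.mk_surjective

lemma rd_surj : Function.Surjective (rd k A).g := by
  intro x
  have h := (PrimeSpectrum.comap_quotientMk_bijective_of_le_nilradical
    (le_refl (nilradical A))).2 x
  obtain ⟨y, hy⟩ := h
  exact ⟨y, hy⟩

lemma rd_comp (t : A ≃ₐ[k] A) (ht : ∀ x, IsNilpotent (t x - x)) :
    (rd k A).g ≫ (autc t).g = (rd k A).g := by
  change Spec.map _ ≫ Spec.map _ = Spec.map _
  rw [← Spec.map_comp, ← CommRingCat.ofHom_comp]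
  congr 2
  ext x
  change Ideal.Quotient.mk (nilradical A) (t x) = Ideal.Quotient.mk (nilradical A) x
  rw [Ideal.Quotient.eq]
  exact ht x

lemma fix (t : A ≃ₐ[k] A) (ht : ∀ x, IsNilpotent (t x - x)) (x : (aff k A).X) :
    (autc t).g x = x := by
  obtain ⟨y, rfl⟩ := rd_surj (k := k) x
  have h := congrArg (fun f => f y) (rd_comp t ht)
  exact h

end ONIL

open ONIL

theorem t_ONIL : S_ONIL.{v} := by
  intro k E _ _ T hT A _ _ _ t ht i
  refine ⟨fun n _ m => ?_, fun c => ?_⟩
  · have h := ((T i).exact_X n (rd k A) (openVarIn (aff k A) ⊥)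
      (complementary_surj (rd k A) rd_surj) m).mp
    have hs := (T i).empty n _ (isEmpty_openVar_bot (aff k A))
    obtain ⟨z, rfl⟩ := h (Subsingleton.elim _ _)
    exact hT.push_comp i n _ _ _ (rd k A) (autc t) (rd k A) (rd_comp t ht) z
  · have h : pushCyc (autc t) c = c := by
      have h1 : (ptsMap i (autc t) : Pts i (aff k A) → Pts i (aff k A)) = id := by
        funext u
        exact Subtype.ext (fix t ht u.1)
      unfold pushCyc
      rw [h1, Finsupp.mapDomain_id]
    rw [h, sub_self]
    exact Submodule.zero_mem _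

end QCV
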