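import Pool.Agent.QCV.E_ASM

/-!
# QCV, block H: the twist, in the other direction
-/

set_option autoImplicit false

open CategoryTheory AlgebraicGeometry Limits Polynomial TopologicalSpace

namespace QCV

open Pool.Agent.Lib_helper55.Beil Pool.Agent.Lib_helper66.OneP CUB

universe v

/-- The closure property for the twist, in the other direction. -/
def TwClR (k : Type) [Field k]
    (P : ∀ (A : Type) [CommRing A] [Algebra k A] [Algebra.FiniteType k A], Prop) : Prop :=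
  ∀ (B : Type) [CommRing B] [Algebra k B] [Algebra.FiniteType k B] (a : Fin 4 → B) (c δ : B),
    (∀ j, IsUnit (a j)) → IsUnit δ → δ * a 0 = - a 1 →
    P (QC B a c) → P (QC B ![a 0, - a 0, a 2, δ * a 3] c)

namespace TWR

/-- The inverse of a sign automorphism. -/
lemma sgn_symm {k B : Type} [Field k] [CommRing B] [Algebra k B] {n : ℕ}
    {I : Ideal (MvPolynomial (Fin n) B)} (ε : Fin n → ℤ) (hε : ∀ j, ε j * ε j = 1)
    (w : (MvPolynomial (Fin n) B ⧸ I) ≃ₐ[k] (MvPolynomial (Fin n) B ⧸ I)) (h : Sgn ε w) :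
    Sgn ε w.symm := by
  refine ⟨fun b => ?_, fun j => ?_⟩
  · rw [AlgEquiv.symm_apply_eq, h.1]
  · rw [AlgEquiv.symm_apply_eq, map_zsmul, h.2, smul_smul, hε, one_smul]

variable {k : Type} [Field k] {E : Type} [Field E] {T : ∀ i : ℕ, Homology.{v} k E i}

/-- The step, at the levels `i + 2`. -/
theorem step [Finite k] [CharZero E] (hETW : S_ETW) (hEQT : S_EQT.{v}) (hECM : S_ECM.{v})
    (hT : Full T) (S : DblMaps T) (hP : Pub T hT) (hF : S.Frobenius)
    (hD : S.Degree hT.toProperMaps) (hC : S.Classes) (hG : S.Galois hT.toProperMaps)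
    (h2 : (2 : k) ≠ 0) (B : Type) [CommRing B] [Algebra k B] [Algebra.FiniteType k B]
    (a : Fin 4 → B) (c δ : B) (ha : ∀ j, IsUnit (a j)) (hδ : IsUnit δ) (h : δ * a 0 = - a 1)
    (i : ℕ)
    (hg : (T (i + 2)).gen (aff k (QC B a c)) ≤ (T (i + 2)).alg (aff k (QC B a c))) :
    (T (i + 2)).gen (aff k (QC B ![a 0, - a 0, a 2, δ * a 3] c)) ≤
      (T (i + 2)).alg (aff k (QC B ![a 0, - a 0, a 2, δ * a 3] c)) := by
  obtain ⟨e, w, e', w', hw', h3, h4⟩ := hETW k B a c δ hδ h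
  have hw2 : Sgn ![1, -1, 1, -1] w'.symm := sgn_symm _ (by
    intro j
    fin_cases j <;> rfl) w' hw'
  have h5 := hEQT k E T hT hP h2 (Dr B 0 (-δ)) _ _ w'.symm
    (fun j => (EST.unit_vec a δ ha hδ j).map (algebraMap B (Dr B 0 (-δ)))) hw2 i
  let w₁ := e.trans (w.symm.trans e.symm)
  have h6 := t_OISO k E T hT _ _ w'.symm w₁ (e.trans e').symm (fun x => by
    obtain ⟨u, rfl⟩ := (e.trans e').surjective x
    rw [AlgEquiv.symm_apply_eq, AlgEquiv.symm_apply_apply]
    change w'.symm (e' (e u)) = e' (e (e.symm (w.symm (e u))))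
    rw [AlgEquiv.apply_symm_apply, AlgEquiv.symm_apply_eq, ← h4, AlgEquiv.apply_symm_apply])
    (i + 2) h5
  refine (hECM k E T hT S hP hF hD hC hG _ _ _ _ _ _ e.symm w₁ (fun y => ?_) (i + 2) h6).2 hg
  change _ = e.symm (w.symm (e (dinv _ _ k (e.symm y))))
  rw [h3, AlgEquiv.symm_apply_apply, AlgEquiv.apply_symm_apply]

end TWR

/-- **TWR**. -/
theorem t_TWR (k E : Type) [Field k] [Finite k] [Field E] [CharZero E]
    (T : ∀ i : ℕ, Homology.{v} k E i) (hT : Full T) (S : DblMaps T) (hP : Pub T hT)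
    (hS : SectionZero T) (hF : S.Frobenius) (hD : S.Degree hT.toProperMaps) (hC : S.Classes)
    (hG : S.Galois hT.toProperMaps) (h2 : (2 : k) ≠ 0) :
    TwClR k (fun A [CommRing A] [Algebra k A] [Algebra.FiniteType k A] => GG T (aff k A)) := by
  intro B _ _ _ a c δ ha hδ h h4 i
  obtain ⟨e1⟩ := t_EBM k B ![a 0, - a 0, a 2, δ * a 3] c
  obtain ⟨e2⟩ := t_EBM k B a c
  have h3 := TWR.step (t_ETW t_EBC t_ESG) Asm.s_EQT t_ECM hT S hP hF hD hC hG h2
    (MvPolynomial (Fin 2) B) (fun j => MvPolynomial.C (a j)) (MvPolynomial.C c)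
    (MvPolynomial.C δ) (fun j => (ha j).map MvPolynomial.C) (hδ.map MvPolynomial.C)
    (by rw [← map_mul, h, map_neg]) i
  rw [← EST.vec_C a δ] at h3
  refine TZE.gg_mv_desc hT hP hS _ i 2 ?_
  refine TZE.gg_viso (i + 2) (viso e1.symm) (h3 ?_)
  exact TZE.gg_viso (i + 2) (viso e2) (EST.gg_mv_up hT _ i 2 (h4 i))

end QCV
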