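import Pool.Agent.QCV.StE1

/-!
# QCV, module EBC: base change of an affine hypersurface to a double cover of the base
-/

set_option autoImplicit false

open Polynomial

namespace QCV

namespace EBC

section

variable {B : Type} [CommRing B] (F : MvPolynomial (Fin 4) B) (δ : B)
  (F' : MvPolynomial (Fin 4) (Dr B 0 δ))

/-- The algebra over `B`. -/
abbrev S0 : Type := MvPolynomial (Fin 4) B ⧸ Ideal.span {F}

/-- The algebra over the double cover. -/
abbrev S1 : Type := MvPolynomial (Fin 4) (Dr B 0 δ) ⧸ Ideal.span {F'}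

/-- The double cover of the algebra. -/
abbrev D0 : Type := Dr (S0 F) 0 (Ideal.Quotient.mk _ (MvPolynomial.C δ))

variable {F'} (hF : MvPolynomial.map (algebraMap B (Dr B 0 δ)) F = F')

/-- The base change map. -/
noncomputable def f0 : S0 F →+* S1 δ F' :=
  Ideal.Quotient.lift _ ((Ideal.Quotient.mk _).comp (MvPolynomial.map (algebraMap B (Dr B 0 δ))))
    (by
      have h : Ideal.span {F} ≤ RingHom.ker ((Ideal.Quotient.mk (Ideal.span {F'})).comp
          (MvPolynomial.map (algebraMap B (Dr B 0 δ)))) := by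
        rw [Ideal.span_le, Set.singleton_subset_iff, SetLike.mem_coe, RingHom.mem_ker,
          RingHom.comp_apply, hF]
        exact Ideal.Quotient.eq_zero_iff_mem.2 (Ideal.subset_span rfl)
      exact fun a ha => h ha)

theorem f0_mk (p : MvPolynomial (Fin 4) B) : f0 F δ hF (Ideal.Quotient.mk _ p) =
    Ideal.Quotient.mk _ (MvPolynomial.map (algebraMap B (Dr B 0 δ)) p) := rfl

/-- The map from the double cover of the algebra. -/
noncomputable def f1 : D0 F δ →+* S1 δ F' :=
  AdjoinRoot.lift (f0 F δ hF) (Ideal.Quotient.mk _ (MvPolynomial.C (rt 0 δ))) (by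
    rw [eval₂_dpoly, f0_mk, MvPolynomial.map_C, map_zero, zero_mul, add_zero, ← map_pow,
      ← map_pow, ← map_add, ← map_add]
    have h := rt_eq 0 δ
    rw [map_zero, zero_mul, add_zero] at h
    rw [h, map_zero, map_zero])

theorem f1_of (x : S0 F) : f1 F δ hF (algebraMap _ _ x) = f0 F δ hF x :=
  AdjoinRoot.lift_of _

theorem f1_rt : f1 F δ hF (rt _ _) = Ideal.Quotient.mk _ (MvPolynomial.C (rt 0 δ)) :=
  AdjoinRoot.lift_root _

/-- The map of the bases. -/
noncomputable def g0 : Dr B 0 δ →+* D0 F δ :=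
  AdjoinRoot.lift ((algebraMap (S0 F) (D0 F δ)).comp ((Ideal.Quotient.mk _).comp MvPolynomial.C))
    (rt _ _) (by
      rw [eval₂_dpoly, map_zero, zero_mul, add_zero]
      have h := rt_eq (A := S0 F) 0 (Ideal.Quotient.mk _ (MvPolynomial.C δ))
      rw [map_zero, zero_mul, add_zero] at h
      exact h)

theorem g0_of (b : B) : g0 F δ (algebraMap _ _ b) =
    algebraMap (S0 F) (D0 F δ) (Ideal.Quotient.mk _ (MvPolynomial.C b)) :=
  AdjoinRoot.lift_of _

theorem g0_rt : g0 F δ (rt 0 δ) = rt _ _ :=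
  AdjoinRoot.lift_root _

/-- The map of the polynomial rings. -/
noncomputable def g2 : MvPolynomial (Fin 4) (Dr B 0 δ) →+* D0 F δ :=
  MvPolynomial.eval₂Hom (g0 F δ)
    (fun j => algebraMap (S0 F) (D0 F δ) (Ideal.Quotient.mk _ (MvPolynomial.X j)))

theorem g2_map (p : MvPolynomial (Fin 4) B) :
    g2 F δ (MvPolynomial.map (algebraMap B (Dr B 0 δ)) p) =
      algebraMap (S0 F) (D0 F δ) (Ideal.Quotient.mk _ p) := by
  have h : (g2 F δ).comp (MvPolynomial.map (algebraMap B (Dr B 0 δ))) =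
      (algebraMap (S0 F) (D0 F δ)).comp (Ideal.Quotient.mk _) := by
    refine MvPolynomial.ringHom_ext (fun r => ?_) (fun i => ?_)
    · rw [RingHom.comp_apply, MvPolynomial.map_C, RingHom.comp_apply]
      unfold g2
      rw [MvPolynomial.eval₂Hom_C, g0_of]
    · rw [RingHom.comp_apply, MvPolynomial.map_X, RingHom.comp_apply]
      unfold g2
      rw [MvPolynomial.eval₂Hom_X']
  exact congrArg (fun φ : MvPolynomial (Fin 4) B →+* _ => φ p) h

/-- The map to the double cover of the algebra. -/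
noncomputable def g1 : S1 δ F' →+* D0 F δ :=
  Ideal.Quotient.lift _ (g2 F δ)
    (by
      have h : Ideal.span {F'} ≤ RingHom.ker (g2 F δ) := by
        rw [Ideal.span_le, Set.singleton_subset_iff, SetLike.mem_coe, RingHom.mem_ker, ← hF,
          g2_map, (Ideal.Quotient.eq_zero_iff_mem (I := Ideal.span {F})).2
          (Ideal.subset_span rfl), map_zero]
      exact fun a ha => h ha)

theorem g1_mk (p : MvPolynomial (Fin 4) (Dr B 0 δ)) : g1 F δ hF (Ideal.Quotient.mk _ p) =
    g2 F δ p := rfl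

theorem fg : (f1 F δ hF).comp (g1 F δ hF) = RingHom.id _ := by
  refine Ideal.Quotient.ringHom_ext ?_
  refine MvPolynomial.ringHom_ext (fun r => ?_) (fun i => ?_)
  · change f1 F δ hF (g1 F δ hF (Ideal.Quotient.mk _ (MvPolynomial.C r))) =
      Ideal.Quotient.mk _ (MvPolynomial.C r)
    rw [g1_mk]
    unfold g2
    rw [MvPolynomial.eval₂Hom_C]
    have h : (f1 F δ hF).comp (g0 F δ) = (Ideal.Quotient.mk _).comp MvPolynomial.C := by
      apply AdjoinRoot.ringHom_ext
      · ext1 a
        change f1 F δ hF (g0 F δ (algebraMap B (Dr B 0 δ) a)) =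
          Ideal.Quotient.mk _ (MvPolynomial.C (algebraMap B (Dr B 0 δ) a))
        rw [g0_of, f1_of, f0_mk, MvPolynomial.map_C]
      · change f1 F δ hF (g0 F δ (rt 0 δ)) = Ideal.Quotient.mk _ (MvPolynomial.C (rt 0 δ))
        rw [g0_rt, f1_rt]
    exact congrArg (fun φ : Dr B 0 δ →+* _ => φ r) h
  · change f1 F δ hF (g1 F δ hF (Ideal.Quotient.mk _ (MvPolynomial.X i))) =
      Ideal.Quotient.mk _ (MvPolynomial.X i)
    rw [g1_mk]
    unfold g2
    rw [MvPolynomial.eval₂Hom_X', f1_of, f0_mk, MvPolynomial.map_X]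

theorem gf : (g1 F δ hF).comp (f1 F δ hF) = RingHom.id _ := by
  apply AdjoinRoot.ringHom_ext
  · refine Ideal.Quotient.ringHom_ext ?_
    refine RingHom.ext fun p => ?_
    change g1 F δ hF (f1 F δ hF (algebraMap (S0 F) (D0 F δ) (Ideal.Quotient.mk _ p))) =
      algebraMap (S0 F) (D0 F δ) (Ideal.Quotient.mk _ p)
    rw [f1_of, f0_mk, g1_mk, g2_map]
  · change g1 F δ hF (f1 F δ hF (rt _ _)) = rt _ _
    rw [f1_rt, g1_mk]
    unfold g2
    rw [MvPolynomial.eval₂Hom_C, g0_rt]

end

end EBC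

theorem t_EBC : S_EBC := by
  intro k B _ _ _ a c δ
  have hF : MvPolynomial.map (algebraMap B (Dr B 0 δ))
      (dia a + MvPolynomial.C c : MvPolynomial (Fin 4) B) =
      (dia (fun j => algebraMap B (Dr B 0 δ) (a j)) +
        MvPolynomial.C (algebraMap B (Dr B 0 δ) c)) := by
    unfold dia
    simp only [map_add, map_sum, map_mul, map_pow, MvPolynomial.map_C, MvPolynomial.map_X]
  refine ⟨AlgEquiv.ofRingEquiv (f := RingEquiv.ofRingHom (EBC.f1 _ δ hF) (EBC.g1 _ δ hF)
    (EBC.fg _ δ hF) (EBC.gf _ δ hF)) ?_, fun p => ?_, ?_⟩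
  · intro r
    have h1 := EBC.f1_of _ δ hF (Ideal.Quotient.mk _ (MvPolynomial.C (algebraMap k B r)))
    rw [EBC.f0_mk, MvPolynomial.map_C] at h1
    exact h1
  · exact EBC.f1_of _ δ hF (Ideal.Quotient.mk _ p)
  · exact EBC.f1_rt _ δ hF

end QCV
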