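import Pool.Agent.QCV.StE1

/-!
# QCV, module EBM: more variables in the base
-/

set_option autoImplicit false

namespace QCV

theorem t_EBM : S_EBM := by
  intro k B _ _ _ a c
  let e : MvPolynomial (Fin 4) (MvPolynomial (Fin 2) B) ≃ₐ[k]
      MvPolynomial (Fin 2) (MvPolynomial (Fin 4) B) :=
    (MvPolynomial.commAlgEquiv B (Fin 4) (Fin 2)).restrictScalars k
  have he : ∀ p, e p = MvPolynomial.commAlgEquiv B (Fin 4) (Fin 2) p := fun _ => rfl
  have hc : e (dia (fun j => MvPolynomial.C (a j)) + MvPolynomial.C (MvPolynomial.C c)) =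
      MvPolynomial.C (dia a + MvPolynomial.C c) := by
    rw [he]
    simp only [dia, map_add, map_sum, map_mul, map_pow, MvPolynomial.commAlgEquiv_C,
      MvPolynomial.commAlgEquiv_X, MvPolynomial.map_C]
  have h1 : (Ideal.span {(MvPolynomial.C (dia a + MvPolynomial.C c) :
      MvPolynomial (Fin 2) (MvPolynomial (Fin 4) B))}) =
      (Ideal.span {(dia (fun j => MvPolynomial.C (a j)) + MvPolynomial.C (MvPolynomial.C c) :
        MvPolynomial (Fin 4) (MvPolynomial (Fin 2) B))}).map
        (e : MvPolynomial (Fin 4) (MvPolynomial (Fin 2) B) →+*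
          MvPolynomial (Fin 2) (MvPolynomial (Fin 4) B)) := by
    rw [Ideal.map_span, Set.image_singleton]
    exact congrArg (fun z => Ideal.span {z}) hc.symm
  have h2 : Ideal.map (MvPolynomial.C : MvPolynomial (Fin 4) B →+*
      MvPolynomial (Fin 2) (MvPolynomial (Fin 4) B))
      (Ideal.span {(dia a + MvPolynomial.C c : MvPolynomial (Fin 4) B)}) =
      Ideal.span {(MvPolynomial.C (dia a + MvPolynomial.C c) :
      MvPolynomial (Fin 2) (MvPolynomial (Fin 4) B))} := by
    rw [Ideal.map_span, Set.image_singleton]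
  exact ⟨((Ideal.quotientEquivAlg _ _ e h1).trans (Ideal.quotientEquivAlgOfEq k h2.symm)).trans
    ((MvPolynomial.quotientEquivQuotientMvPolynomial (σ := Fin 2)
      (Ideal.span {(dia a + MvPolynomial.C c : MvPolynomial (Fin 4) B)})).restrictScalars k).symm⟩

end QCV
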