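import Pool.Agent.QCV.StE1

/-!
# QCV, module EDS: strata of a double cover
-/

set_option autoImplicit false

open Polynomial

namespace QCV

namespace EDSx

section span

variable {A : Type} [CommRing A] {b c : A}

lemma natDegree_dp [Nontrivial A] (b c : A) : (dpoly b c).natDegree = 2 := by
  unfold dpoly
  compute_degree!

lemma span_dr (x : Dr A b c) :
    ∃ p q : A, x = algebraMap A (Dr A b c) p + algebraMap A (Dr A b c) q * rt b c := by
  obtain ⟨p, rfl⟩ := AdjoinRoot.mk_surjective (g := dpoly b c) x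
  rcases subsingleton_or_nontrivial A with hT | hT
  · refine ⟨0, 0, ?_⟩
    have : Subsingleton (Dr A b c) := Module.subsingleton A (Dr A b c)
    exact Subsingleton.elim _ _
  have h1 : AdjoinRoot.mk (dpoly b c) p = AdjoinRoot.mk (dpoly b c) (p %ₘ dpoly b c) := by
    rw [AdjoinRoot.mk_eq_mk]
    refine ⟨p /ₘ dpoly b c, ?_⟩
    have := modByMonic_add_div p (dpoly b c)
    linear_combination -this
  have h2 : (p %ₘ dpoly b c).natDegree < 2 := by
    have h3 := natDegree_dp b c
    rw [← h3]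
    exact natDegree_modByMonic_lt _ (dpoly_monic b c) (fun h => by rw [h] at h3; simp at h3)
  have h4 : p %ₘ dpoly b c = C ((p %ₘ dpoly b c).coeff 0) + C ((p %ₘ dpoly b c).coeff 1) * X := by
    have := Polynomial.eq_X_add_C_of_natDegree_le_one (Nat.lt_succ_iff.mp h2)
    rw [add_comm]
    exact this
  refine ⟨(p %ₘ dpoly b c).coeff 0, (p %ₘ dpoly b c).coeff 1, ?_⟩
  rw [h1]
  conv_lhs => rw [h4]
  rw [map_add, map_mul]
  rfl

lemma free_dr {p q : A}
    (h : algebraMap A (Dr A b c) p + algebraMap A (Dr A b c) q * rt b c = 0) : p = 0 ∧ q = 0 := by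
  rcases subsingleton_or_nontrivial A with hS | hS
  · exact ⟨Subsingleton.elim _ _, Subsingleton.elim _ _⟩
  have e1 : algebraMap A (Dr A b c) p + algebraMap A (Dr A b c) q * rt b c =
      AdjoinRoot.mk (dpoly b c) (C p + C q * X) := by
    rw [map_add, map_mul]
    rfl
  rw [e1, AdjoinRoot.mk_eq_zero] at h
  have e2 : (C p + C q * X : A[X]) = 0 := by
    by_contra hne
    have hd := (dpoly_monic b c).not_dvd_of_natDegree_lt hne ?_
    · exact hd h
    · rw [natDegree_dp]
      refine lt_of_le_of_lt (natDegree_add_le _ _) ?_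
      refine max_lt ?_ ?_
      · rw [natDegree_C]; omega
      · exact lt_of_le_of_lt (natDegree_C_mul_le _ _) (by
          refine lt_of_le_of_lt natDegree_X_le ?_
          omega)
  constructor
  · simpa using congrArg (fun F => coeff F 0) e2
  · simpa using congrArg (fun F => coeff F 1) e2

end span

variable {k A B : Type} [Field k] [CommRing A] [Algebra k A] [CommRing B] [Algebra k B]

lemma dm_cond (φ : A →ₐ[k] B) (b c : A) :
    (dpoly b c).eval₂ ((algebraMap B (Dr B (φ b) (φ c))).comp φ.toRingHom) (rt (φ b) (φ c)) = 0 := by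
  rw [eval₂_dpoly]
  exact rt_eq (φ b) (φ c)

/-- The homomorphism of double covers. -/
noncomputable def dm (φ : A →ₐ[k] B) (b c : A) : Dr A b c →ₐ[k] Dr B (φ b) (φ c) :=
  { AdjoinRoot.lift ((algebraMap B (Dr B (φ b) (φ c))).comp φ.toRingHom) (rt (φ b) (φ c))
      (dm_cond φ b c) with
    commutes' := fun r => by
      have h : AdjoinRoot.lift ((algebraMap B (Dr B (φ b) (φ c))).comp φ.toRingHom)
          (rt (φ b) (φ c)) (dm_cond φ b c) (algebraMap A (Dr A b c) (algebraMap k A r)) =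
          algebraMap B (Dr B (φ b) (φ c)) (φ (algebraMap k A r)) :=
        AdjoinRoot.lift_of (dm_cond φ b c)
      rw [φ.commutes] at h
      exact h }

lemma dm_alg (φ : A →ₐ[k] B) (b c a : A) :
    dm φ b c (algebraMap A (Dr A b c) a) = algebraMap B (Dr B (φ b) (φ c)) (φ a) :=
  AdjoinRoot.lift_of (dm_cond φ b c)

lemma dm_rt (φ : A →ₐ[k] B) (b c : A) : dm φ b c (rt b c) = rt (φ b) (φ c) :=
  AdjoinRoot.lift_root (dm_cond φ b c)

lemma dm_pq (φ : A →ₐ[k] B) (b c p q : A) :
    dm φ b c (algebraMap A (Dr A b c) p + algebraMap A (Dr A b c) q * rt b c) =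
      algebraMap B (Dr B (φ b) (φ c)) (φ p) +
        algebraMap B (Dr B (φ b) (φ c)) (φ q) * rt (φ b) (φ c) := by
  rw [map_add, map_mul, dm_alg, dm_alg, dm_rt]

lemma dm_surj (φ : A →ₐ[k] B) (b c : A) (h : Function.Surjective φ) :
    Function.Surjective (dm φ b c) := by
  intro x
  obtain ⟨p, q, rfl⟩ := span_dr x
  obtain ⟨p', rfl⟩ := h p
  obtain ⟨q', rfl⟩ := h q
  exact ⟨_, dm_pq φ b c p' q'⟩

lemma dm_ker (φ : A →ₐ[k] B) (b c a : A) (h : RingHom.ker φ.toRingHom = Ideal.span {a}) :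
    RingHom.ker (dm φ b c).toRingHom = Ideal.span {algebraMap A (Dr A b c) a} := by
  apply le_antisymm
  · intro x hx
    obtain ⟨p, q, rfl⟩ := span_dr x
    have h1 : dm φ b c (algebraMap A (Dr A b c) p + algebraMap A (Dr A b c) q * rt b c) = 0 := hx
    rw [dm_pq] at h1
    have h2 := free_dr h1
    have h3 : ∀ t : A, φ t = 0 →
        algebraMap A (Dr A b c) t ∈ Ideal.span {algebraMap A (Dr A b c) a} := by
      intro t ht
      have h4 : t ∈ RingHom.ker φ.toRingHom := ht
      rw [h] at h4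
      obtain ⟨d, hd⟩ := Ideal.mem_span_singleton.mp h4
      rw [hd, map_mul]
      exact Ideal.mul_mem_right _ _ (Ideal.subset_span rfl)
    exact add_mem (h3 _ h2.1) (Ideal.mul_mem_right _ _ (h3 _ h2.2))
  · rw [Ideal.span_singleton_le_iff_mem]
    change dm φ b c (algebraMap A (Dr A b c) a) = 0
    have h1 : a ∈ RingHom.ker φ.toRingHom := by
      rw [h]
      exact Ideal.subset_span rfl
    have h2 : φ a = 0 := h1
    rw [dm_alg, h2, map_zero]

lemma dm_away (φ : A →ₐ[k] B) (b c a : A)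
    (h : @IsLocalization.Away A _ a B _ φ.toRingHom.toAlgebra) :
    @IsLocalization.Away (Dr A b c) _ (algebraMap A (Dr A b c) a) (Dr B (φ b) (φ c)) _
      (dm φ b c).toRingHom.toAlgebra := by
  -- the facts about `φ`
  have hu : IsUnit (φ a) := by
    let _ : Algebra A B := φ.toRingHom.toAlgebra
    have h' : IsLocalization.Away a B := h
    exact IsLocalization.Away.algebraMap_isUnit a
  have hs : ∀ x : B, ∃ (p : A) (n : ℕ), x * φ a ^ n = φ p := by
    intro x
    let _ : Algebra A B := φ.toRingHom.toAlgebra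
    have h' : IsLocalization.Away a B := h
    obtain ⟨⟨p, ⟨_, n, rfl⟩⟩, hp⟩ := IsLocalization.surj (Submonoid.powers a) x
    refine ⟨p, n, ?_⟩
    have h1 : x * φ (a ^ n) = φ p := hp
    rwa [map_pow] at h1
  have he : ∀ p : A, φ p = 0 → ∃ n : ℕ, a ^ n * p = 0 := by
    intro p hp
    let _ : Algebra A B := φ.toRingHom.toAlgebra
    have h' : IsLocalization.Away a B := h
    have h1 : algebraMap A B p = algebraMap A B 0 := by
      rw [map_zero]
      exact hp
    obtain ⟨⟨_, n, rfl⟩, hn⟩ := IsLocalization.exists_of_eq (M := Submonoid.powers a) h1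
    exact ⟨n, by simpa using hn⟩
  let _ : Algebra (Dr A b c) (Dr B (φ b) (φ c)) := (dm φ b c).toRingHom.toAlgebra
  have hal : ∀ x : Dr A b c, algebraMap (Dr A b c) (Dr B (φ b) (φ c)) x = dm φ b c x :=
    fun x => rfl
  refine ⟨?_, ?_, ?_⟩
  · rintro ⟨_, n, rfl⟩
    rw [hal, map_pow, dm_alg]
    exact (hu.map (algebraMap B (Dr B (φ b) (φ c)))).pow n
  · intro x
    obtain ⟨P, Q, rfl⟩ := span_dr x
    obtain ⟨p, n, hp⟩ := hs P
    obtain ⟨q, m, hq⟩ := hs Q
    refine ⟨⟨algebraMap A (Dr A b c) (p * a ^ m) + algebraMap A (Dr A b c) (q * a ^ n) * rt b c,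
      ⟨algebraMap A (Dr A b c) a ^ (n + m), n + m, rfl⟩⟩, ?_⟩
    change (algebraMap B (Dr B (φ b) (φ c)) P + algebraMap B (Dr B (φ b) (φ c)) Q *
        rt (φ b) (φ c)) * algebraMap (Dr A b c) (Dr B (φ b) (φ c))
          (algebraMap A (Dr A b c) a ^ (n + m)) = algebraMap (Dr A b c) (Dr B (φ b) (φ c)) _
    have hp' : φ (p * a ^ m) = P * φ a ^ n * φ a ^ m := by rw [map_mul, map_pow, hp]
    have hq' : φ (q * a ^ n) = Q * φ a ^ m * φ a ^ n := by rw [map_mul, map_pow, hq]
    rw [hal, hal, dm_pq, map_pow, dm_alg, hp', hq']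
    simp only [map_mul, map_pow]
    ring
  · intro x y hxy
    obtain ⟨p, q, hpq⟩ := span_dr (x - y)
    have h1 : dm φ b c (x - y) = 0 := by
      rw [map_sub, sub_eq_zero]
      exact hxy
    rw [hpq, dm_pq] at h1
    have h2 := free_dr h1
    obtain ⟨n, hn⟩ := he p h2.1
    obtain ⟨m, hm⟩ := he q h2.2
    refine ⟨⟨algebraMap A (Dr A b c) a ^ (n + m), n + m, rfl⟩, ?_⟩
    change algebraMap A (Dr A b c) a ^ (n + m) * x = algebraMap A (Dr A b c) a ^ (n + m) * y
    rw [← sub_eq_zero, ← mul_sub, hpq]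
    have e1 : algebraMap A (Dr A b c) a ^ (n + m) * (algebraMap A (Dr A b c) p +
        algebraMap A (Dr A b c) q * rt b c) =
        algebraMap A (Dr A b c) (a ^ m * (a ^ n * p)) +
          algebraMap A (Dr A b c) (a ^ n * (a ^ m * q)) * rt b c := by
      simp only [map_mul, map_pow]
      ring
    rw [e1, hn, hm, mul_zero, mul_zero, map_zero, zero_mul, add_zero]

end EDSx

theorem t_EDS : S_EDS := by
  intro k A Z U _ _ _ _ _ _ _ a z u h b c
  exact ⟨EDSx.dm z b c, EDSx.dm u b c, EDSx.dm_surj z b c h.surj, EDSx.dm_ker z b c a h.ker,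
    EDSx.dm_away u b c a h.away⟩

end QCV
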