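import Pool.Agent.QCV.StE1

/-!
# QCV, EDU: change of the root of a double cover by a unit
-/

set_option autoImplicit false

open CategoryTheory AlgebraicGeometry Polynomial

namespace QCV

open Pool.Agent.Lib_helper55.Beil Pool.Agent.Lib_helper66.OneP CUB

namespace EDU

variable {A : Type} [CommRing A]

lemma ev {c c' v : A} (h : v ^ 2 * c' = c) : (dpoly (0 : A) c).eval₂
    (algebraMap A (Dr A 0 c')) (algebraMap A (Dr A 0 c') v * rt 0 c') = 0 := by
  have h0 := rt_eq (0 : A) c'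
  rw [map_zero, zero_mul, add_zero] at h0
  rw [eval₂_dpoly, map_zero, zero_mul, add_zero, ← h, map_mul, map_pow, mul_pow, ← mul_add, h0,
    mul_zero]

/-- `t ↦ v t` from `t ^ 2 + c` to `t ^ 2 + c'` when `v ^ 2 c' = c`. -/
noncomputable def homR {c c' v : A} (h : v ^ 2 * c' = c) : Dr A 0 c →+* Dr A 0 c' :=
  AdjoinRoot.lift (algebraMap A (Dr A 0 c')) (algebraMap A (Dr A 0 c') v * rt 0 c') (ev h)

lemma homR_of {c c' v : A} (h : v ^ 2 * c' = c) (a : A) :
    homR h (algebraMap A (Dr A 0 c) a) = algebraMap A (Dr A 0 c') a :=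
  AdjoinRoot.lift_of _

lemma homR_rt {c c' v : A} (h : v ^ 2 * c' = c) :
    homR h (rt 0 c) = algebraMap A (Dr A 0 c') v * rt 0 c' :=
  AdjoinRoot.lift_root _

lemma homR_comp {c c' v v' : A} (h : v ^ 2 * c' = c) (h' : v' ^ 2 * c = c') (hv : v * v' = 1) :
    (homR h').comp (homR h) = RingHom.id (Dr A 0 c) := by
  apply AdjoinRoot.ringHom_ext
  · ext a
    change homR h' (homR h (algebraMap A (Dr A 0 c) a)) = algebraMap A (Dr A 0 c) a
    rw [homR_of, homR_of]
  · change homR h' (homR h (rt 0 c)) = rt 0 c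
    rw [homR_rt, map_mul, homR_of, homR_rt, ← mul_assoc, ← map_mul, hv, map_one, one_mul]

/-- The same homomorphism over `k`. -/
noncomputable def homA (k : Type) [Field k] [Algebra k A] {c c' v : A} (h : v ^ 2 * c' = c) :
    Dr A 0 c →ₐ[k] Dr A 0 c' :=
  { homR h with
    commutes' := fun r => by
      have h1 := homR_of h (algebraMap k A r)
      exact h1 }

end EDU

theorem t_EDU : S_EDU := by
  intro k A _ _ _ c u hu
  obtain ⟨u, rfl⟩ := hu
  have h1 : ((u⁻¹ : Aˣ) : A) ^ 2 * ((u : A) ^ 2 * c) = c := by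
    rw [← mul_assoc, ← mul_pow, Units.inv_mul, one_pow, one_mul]
  have h2 : ((u : Aˣ) : A) ^ 2 * c = (u : A) ^ 2 * c := rfl
  exact ⟨AlgEquiv.ofAlgHom (EDU.homA k h1) (EDU.homA k h2)
    (AlgHom.ext fun x => RingHom.congr_fun (EDU.homR_comp h2 h1 (Units.mul_inv u)) x)
    (AlgHom.ext fun x => RingHom.congr_fun (EDU.homR_comp h1 h2 (Units.inv_mul u)) x)⟩

end QCV
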