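import Pool.Agent.QCV.StO
import Pool.Agent.QCV.F_GLU
import Pool.Agent.CUB.Bridge

/-!
# QCV, block O: gluing of automorphisms which act trivially (OGLU)
-/

set_option autoImplicit false

open CategoryTheory AlgebraicGeometry Limits Polynomial

namespace QCV

namespace OGLU

open Pool.Agent.Lib_helper55.Beil Pool.Agent.Lib_helper66.OneP CUB

universe v

variable {k : Type} [Field k] {E : Type} [Field E] {T : ∀ i : ℕ, Homology.{v} k E i}

/-! ## Homology -/

lemma two_mul_zero {M : Type v} [AddCommGroup M] [Module E M] [CharZero E] (x : M) (h : x = -x) :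
    x = 0 := by
  have h1 : (2 : E) • x = 0 := by
    rw [two_smul]
    nth_rw 2 [h]
    exact add_neg_cancel x
  exact (smul_eq_zero.mp h1).resolve_left two_ne_zero

theorem hom [CharZero E] (hT : Full T) (i n : ℕ) {Z U X : Var k} (a : ClosedIn Z X)
    (j : OpenIn U X) (h : Complementary a j) (tX : ClosedIn X X) (tZ : ClosedIn Z Z)
    (tU : ClosedIn U U) (hX : tX.g ≫ tX.g = 𝟙 X.X) (hZ : a.g ≫ tX.g = tZ.g ≫ a.g)
    (hU : IsPullback j.g tU.g tX.g j.g) (h1 : ∀ m : (T i).H n Z, (T i).P n tZ m = m)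
    (h2 : ∀ m : (T i).H n U, (T i).P n tU m = m) (m : (T i).H n X) : (T i).P n tX m = m := by
  have e1 : (T i).R n j ((T i).P n tX m - m) = 0 := by
    have e2 : (T i).R n j ((T i).P n tX m - m) =
      (T i).R n j ((T i).P n tX m) - (T i).R n j m := map_sub ((T i).res n j) _ _
    rw [e2, res_push hT i n tX tU j j hU m, h2, sub_self]
  obtain ⟨w, hw⟩ := ((T i).exact_X n a j h _).mp e1
  have hw' : (T i).P n a w = (T i).P n tX m - m := hw
  -- the class is invariant
  have e3 : (T i).P n tX ((T i).P n tX m - m) = (T i).P n tX m - m := by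
    rw [← hw']
    have e4 := hT.push_comp i n _ _ _ a tX (a.trans tX) rfl w
    have e5 := hT.push_comp i n _ _ _ tZ a (a.trans tX) hZ.symm w
    rw [e4, ← e5, h1]
  -- and anti-invariant
  have e6 : (T i).P n tX ((T i).P n tX m - m) = -((T i).P n tX m - m) := by
    have e7 : (T i).P n tX ((T i).P n tX m - m) =
      (T i).P n tX ((T i).P n tX m) - (T i).P n tX m := map_sub ((T i).push n tX) _ _
    have e8 := hT.push_comp i n _ _ _ tX tX (tX.trans tX) rfl m
    have e9 := hT.push_id i n X (tX.trans tX) hX m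
    rw [e7, e8, e9, neg_sub]
  exact sub_eq_zero.mp (two_mul_zero (E := E) _ (e3.symm.trans e6))

/-! ## Cycles -/

variable {i : ℕ}

lemma pushCyc_sub {Z X : Var k} (a : ClosedIn Z X) (c d : Pts i Z →₀ E) :
    pushCyc a (c - d) = pushCyc a c - pushCyc a d :=
  (Finsupp.lmapDomain E E (ptsMap i a)).map_sub c d

lemma pushCyc_id {X : Var k} (a : ClosedIn X X) (h : a.g = 𝟙 X.X) (c : Pts i X →₀ E) :
    pushCyc a c = c := by
  have h1 : ptsMap i a = id := by
    funext x
    refine Subtype.ext ?_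
    change a.g x.1 = x.1
    rw [h]
    rfl
  rw [pushCyc, h1, Finsupp.mapDomain_id]

lemma resCyc_pushCyc' {U X : Var k} (j : OpenIn U X) (tX : ClosedIn X X) (tU : ClosedIn U U)
    (hU : j.g ≫ tX.g = tU.g ≫ j.g) (hs : Set.range tU.g = Set.univ) (c : Pts i X →₀ E) :
    resCyc j (pushCyc tX c) = pushCyc tU (resCyc j c) := by
  ext u
  obtain ⟨u', rfl⟩ := mem_range_ptsMap tU u (by rw [hs]; trivial)
  rw [resCyc_apply]
  have h1 : ptsMapO i j (ptsMap i tU u') = ptsMap i tX (ptsMapO i j u') := by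
    refine Subtype.ext ?_
    change j.g (tU.g u'.1) = tX.g (j.g u'.1)
    rw [← Scheme.Hom.comp_apply, ← Scheme.Hom.comp_apply, hU]
  rw [h1, pushCyc, Finsupp.mapDomain_apply (ptsMap_injective i tX), pushCyc,
    Finsupp.mapDomain_apply (ptsMap_injective i tU), resCyc_apply]

theorem cyc [CharZero E] {Z U X : Var k} (a : ClosedIn Z X)
    (j : OpenIn U X) (h : Complementary a j) (tX : ClosedIn X X) (tZ : ClosedIn Z Z)
    (tU : ClosedIn U U) (hX : tX.g ≫ tX.g = 𝟙 X.X) (hZ : a.g ≫ tX.g = tZ.g ≫ a.g)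
    (hU : j.g ≫ tX.g = tU.g ≫ j.g) (hs : Set.range tU.g = Set.univ)
    (h1 : ∀ c : Pts i Z →₀ E, c - pushCyc tZ c ∈ ratZero E i Z)
    (h2 : ∀ c : Pts i U →₀ E, c - pushCyc tU c ∈ ratZero E i U) (c : Pts i X →₀ E) :
    c - pushCyc tX c ∈ ratZero E i X := by
  have e1 : resCyc j (c - pushCyc tX c) ∈ ratZero E i U := by
    rw [map_sub, resCyc_pushCyc' j tX tU hU hs]
    exact h2 _
  obtain ⟨c', hc', e2⟩ := exists_ratZero j _ e1
  obtain ⟨w, hw⟩ := exists_pushCyc a j h (c - pushCyc tX c - c') (by rw [map_sub, e2, sub_self])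
  -- the difference is invariant modulo rational equivalence
  have e3 : pushCyc a w - pushCyc tX (pushCyc a w) ∈ ratZero E i X := by
    rw [pushCyc_comp a tX (a.trans tX) rfl w, ← pushCyc_comp tZ a (a.trans tX) hZ.symm w,
      ← pushCyc_sub]
    exact pushCyc_ratZero a _ (h1 w)
  have e4 : pushCyc tX c' ∈ ratZero E i X := pushCyc_ratZero tX c' hc'
  have e5 : pushCyc tX (pushCyc tX c) = c := by
    rw [pushCyc_comp tX tX (tX.trans tX) rfl c, pushCyc_id (tX.trans tX) hX]
  rw [hw, pushCyc_sub, pushCyc_sub, e5] at e3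
  have e6 : (2 : E) • (c - pushCyc tX c) ∈ ratZero E i X := by
    have e7 : (2 : E) • (c - pushCyc tX c) =
        (c - pushCyc tX c - c' - (pushCyc tX c - c - pushCyc tX c')) + (c' - pushCyc tX c') := by
      rw [two_smul]
      abel
    rw [e7]
    exact add_mem e3 (sub_mem hc' e4)
  have e8 := Submodule.smul_mem (ratZero E i X) (2 : E)⁻¹ e6
  rwa [smul_smul, inv_mul_cancel₀ two_ne_zero, one_smul] at e8

/-! ## Rings -/

lemma spm_comp' {A B C : Type} [CommRing A] [CommRing B] [CommRing C] [Algebra k A] [Algebra k B]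
    [Algebra k C] [Algebra.FiniteType k A] [Algebra.FiniteType k B] [Algebra.FiniteType k C]
    (φ : A →ₐ[k] B) (χ : B →ₐ[k] C) : spm χ ≫ spm φ = spm (χ.comp φ) :=
  (Spec.map_comp _ _).symm

lemma spm_id' {A : Type} [CommRing A] [Algebra k A] [Algebra.FiniteType k A] :
    spm (AlgHom.id k A) = 𝟙 (aff k A).X := Spec.map_id _

lemma isIso_autc {A : Type} [CommRing A] [Algebra k A] [Algebra.FiniteType k A] (t : A ≃ₐ[k] A) :
    IsIso (autc t).g := by
  have h1 : (autc t).g = (viso t).e.hom := rfl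
  rw [h1]
  infer_instance

lemma autc_autc {A : Type} [CommRing A] [Algebra k A] [Algebra.FiniteType k A] (t : A ≃ₐ[k] A)
    (h : ∀ x, t (t x) = x) : (autc t).g ≫ (autc t).g = 𝟙 (aff k A).X := by
  have h1 : ((t : A →ₐ[k] A).comp (t : A →ₐ[k] A)) = AlgHom.id k A := AlgHom.ext fun x => h x
  change spm (t : A →ₐ[k] A) ≫ spm (t : A →ₐ[k] A) = _
  rw [spm_comp', h1, spm_id']

lemma comm_autc {A B : Type} [CommRing A] [Algebra k A] [Algebra.FiniteType k A] [CommRing B]
    [Algebra k B] [Algebra.FiniteType k B] (t : A ≃ₐ[k] A) (t' : B ≃ₐ[k] B) (φ : A →ₐ[k] B)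
    (h : ∀ x, φ (t x) = t' (φ x)) : spm φ ≫ (autc t).g = (autc t').g ≫ spm φ := by
  have h1 : φ.comp (t : A →ₐ[k] A) = (t' : B →ₐ[k] B).comp φ := AlgHom.ext fun x => h x
  change spm φ ≫ spm (t : A →ₐ[k] A) = spm (t' : B →ₐ[k] B) ≫ spm φ
  rw [spm_comp', spm_comp', h1]

lemma range_autc {A : Type} [CommRing A] [Algebra k A] [Algebra.FiniteType k A] (t : A ≃ₐ[k] A) :
    Set.range (autc t).g = Set.univ := by
  have := isIso_autc t
  exact Set.range_eq_univ.mpr (autc t).g.surjective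

end OGLU

open OGLU CUB

universe v

/-- **OGLU**. -/
theorem t_OGLU : S_OGLU.{v} := by
  intro k E _ _ _ T hT A Z U _ _ _ _ _ _ _ _ _ a z u tA tZ tU s hA hz hu i rZ rU
  have hc := complementary_away u a s.away z s.surj s.ker
  have hi := isIso_autc tA
  have hi' := isIso_autc tU
  have c1 : (clo z s.surj).g ≫ (autc tA).g = (autc tZ).g ≫ (clo z s.surj).g :=
    comm_autc tA tZ z hz
  have c2 : (opn u (isOpenImmersion_spm u a s.away)).g ≫ (autc tA).g =
      (autc tU).g ≫ (opn u (isOpenImmersion_spm u a s.away)).g :=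
    comm_autc tA tU u hu
  have c3 := IsPullback.of_vert_isIso ⟨c2⟩
  exact ⟨fun n hn m => hom hT i n _ _ hc (autc tA) (autc tZ) (autc tU) (autc_autc tA hA) c1 c3
      (rZ.hom n hn) (rU.hom n hn) m,
    fun c => cyc _ _ hc (autc tA) (autc tZ) (autc tU) (autc_autc tA hA) c1 c2 (range_autc tU)
      rZ.cyc rU.cyc c⟩

end QCV
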