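import Pool.Agent.QCV.StO

/-!
# QCV, module OHYP: the involution of the double cover of a hyperbolic plane
-/

set_option autoImplicit false

open CategoryTheory AlgebraicGeometry Polynomial

namespace QCV

open Pool.Agent.Lib_helper55.Beil Pool.Agent.Lib_helper66.OneP CUB

universe v

namespace OHYP

/-- The identity acts trivially. -/
lemma tr_refl {k E : Type} [Field k] [Field E] (T : ∀ i : ℕ, Homology.{v} k E i) (hT : Full T)
    (A : Type) [CommRing A] [Algebra k A] [Algebra.FiniteType k A] (i : ℕ) :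
    TR T i A (AlgEquiv.refl : A ≃ₐ[k] A) := by
  have hg : (autc (AlgEquiv.refl : A ≃ₐ[k] A)).g = 𝟙 (aff k A).X := spm_id
  refine ⟨fun n _ m => hT.push_id i n _ _ hg m, fun c => ?_⟩
  have h1 : ptsMap i (autc (AlgEquiv.refl : A ≃ₐ[k] A)) = id := by
    funext x
    apply Subtype.ext
    change (autc (AlgEquiv.refl : A ≃ₐ[k] A)).g x.1 = x.1
    rw [hg]
    rfl
  have h2 : pushCyc (autc (AlgEquiv.refl : A ≃ₐ[k] A)) c = c := by
    rw [pushCyc, h1, Finsupp.mapDomain_id]
  rw [h2, sub_self]
  exact Submodule.zero_mem _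

end OHYP

theorem t_OHYP : M_OHYP.{v} := by
  intro hN hG hR k E _ _ _ T hT S _ _ _ c i h
  obtain ⟨z, u, tZ, tU, hS, hz, hu, hZC, hUC⟩ := hR k S c
  haveI h1 : Algebra.FiniteType S[X] (Localization.Away (X : S[X])) :=
    IsLocalization.finiteType_of_monoid_fg (Submonoid.powers (X : S[X])) _
  haveI h2 : Algebra.FiniteType k (Localization.Away (X : S[X])) :=
    Algebra.FiniteType.trans (S := S[X]) inferInstance h1
  refine hG k E T hT (HW S c) (Dr S 0 c)[X] (Localization.Away (X : S[X]))[X] _ z u (dinv _ _ k)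
    tZ tU hS (dinv_dinv _ _ k) hz hu (i + 1) ?_ ?_
  · exact hN k E T hT (Dr S 0 c) (dinv 0 c k) tZ hZC i h
  · exact hN k E T hT (Localization.Away (X : S[X])) AlgEquiv.refl tU (fun a => hUC a) i
      (OHYP.tr_refl T hT _ i)

end QCV
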