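import Pool.Agent.QCV.StO
import Pool.Agent.QCV.F_LIN

set_option autoImplicit false

open CategoryTheory AlgebraicGeometry Polynomial

namespace QCV

open Pool.Agent.Lib_helper55.Beil Pool.Agent.Lib_helper66.OneP CUB

universe v

namespace OLN_aux

variable {k : Type} [Field k] {E : Type} [Field E]
  {A : Type} [CommRing A] [Algebra k A] [Algebra.FiniteType k A]

lemma cyE_mapDomain {n : ℕ} (c : RP k A n →₀ E) :
    cyE E n c = Finsupp.mapDomain (ptE n) c := by
  unfold cyE
  rw [Finsupp.domLCongr_apply, Finsupp.domCongr_apply, Finsupp.equivMapDomain_eq_mapDomain]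

/-- Push-forward of cycles along an automorphism, on the level of rings. -/
lemma pushCyc_cyE {n : ℕ} (t : A ≃ₐ[k] A) (c : RP k A n →₀ E) :
    pushCyc (autc t) (cyE E n c) = cyE E n (push E (t : A →ₐ[k] A) t.surjective c) := by
  rw [cyE_mapDomain, cyE_mapDomain, pushCyc, ← Finsupp.mapDomain_comp]
  change _ = Finsupp.mapDomain (ptE n)
    (Finsupp.mapDomain (pushP (t : A →ₐ[k] A) t.surjective) c)
  rw [← Finsupp.mapDomain_comp]
  congr 1

/-- The generic point of a fibre is mapped to the generic point of a fibre. -/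
lemma pushP_lineP {n : ℕ} (t : A ≃ₐ[k] A) (t' : A[X] ≃ₐ[k] A[X])
    (h : ∀ a, t' (C a) = C (t a)) (p : RP k A n) :
    pushP (t' : A[X] →ₐ[k] A[X]) t'.surjective
        (lineP (CC k A) (RingEquiv.refl _) (fun _ => rfl) p) =
      lineP (CC k A) (RingEquiv.refl _) (fun _ => rfl)
        (pushP (t : A →ₐ[k] A) t.surjective p) := by
  set P := pushP (t' : A[X] →ₐ[k] A[X]) t'.surjective
        (lineP (CC k A) (RingEquiv.refl _) (fun _ => rfl) p) with hP
  have h1 : PrimeSpectrum.comap (CC k A).toRingHom P.1 =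
      (pushP (t : A →ₐ[k] A) t.surjective p).1 := by
    have h2 : ((t' : A[X] →ₐ[k] A[X]).toRingHom).comp (CC k A).toRingHom =
        ((CC k A).toRingHom).comp (t : A →ₐ[k] A).toRingHom := by
      ext1 a
      exact h a
    have h3 : PrimeSpectrum.comap (CC k A).toRingHom P.1 =
        PrimeSpectrum.comap (((t' : A[X] →ₐ[k] A[X]).toRingHom).comp (CC k A).toRingHom)
          (lineP (CC k A) (RingEquiv.refl _) (fun _ => rfl) p).1 := rfl
    rw [h3, h2]
    have h4 : PrimeSpectrum.comap (((CC k A).toRingHom).comp (t : A →ₐ[k] A).toRingHom)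
          (lineP (CC k A) (RingEquiv.refl _) (fun _ => rfl) p).1 =
        PrimeSpectrum.comap (t : A →ₐ[k] A).toRingHom
          (PrimeSpectrum.comap (CC k A).toRingHom
            (lineP (CC k A) (RingEquiv.refl _) (fun _ => rfl) p).1) := rfl
    rw [h4, comap_lineP]
    rfl
  have h5 : rdim k (PrimeSpectrum.comap (CC k A).toRingHom P.1) = n := by
    rw [h1]
    exact (pushP (t : A →ₐ[k] A) t.surjective p).2
  rw [eq_lineP (CC k A) (RingEquiv.refl _) (fun _ => rfl) P h5]
  congr 1
  exact Subtype.ext h1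

end OLN_aux

open OLN_aux in
theorem t_OLN : S_OLN.{v} := by
  intro k E _ _ T hT A _ _ _ t t' htt i h
  let L : Line (aff k A[X]) (aff k A) := lineE (CC k A) (RingEquiv.refl _) (fun _ => rfl)
  constructor
  · intro n hn m
    obtain ⟨n', rfl⟩ : ∃ n', n = n' + 2 := ⟨n - 2, by omega⟩
    obtain ⟨x, rfl⟩ := (hT.line_bij i n' L).surjective m
    have h1 := hT.line_nat i n' L L (viso t') (viso t) (by
      change Spec.map (CommRingCat.ofHom (t' : A[X] →ₐ[k] A[X]).toRingHom) ≫
          Spec.map (CommRingCat.ofHom (CC k A).toRingHom) =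
        Spec.map (CommRingCat.ofHom (CC k A).toRingHom) ≫
          Spec.map (CommRingCat.ofHom (t : A →ₐ[k] A).toRingHom)
      rw [← Spec.map_comp, ← Spec.map_comp, ← CommRingCat.ofHom_comp, ← CommRingCat.ofHom_comp]
      congr 2
      ext1 a
      exact htt a) x
    have h2 : (viso t').cl = autc t' := rfl
    have h3 : (viso t).cl = autc t := rfl
    rw [h2, h3, h.hom n' (by omega) x] at h1
    exact h1
  · intro c
    obtain ⟨c0, rfl⟩ := (cyE (k := k) (A := A[X]) E (i + 1)).surjective c
    obtain ⟨v, d, h1, h2⟩ := (CUB.Asm.s_L0 k A E).1 i c0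
    have hd : d = Finsupp.mapDomain (lineP (CC k A) (RingEquiv.refl _) (fun _ => rfl)) v :=
      (isPull_line_iff (CC k A) (RingEquiv.refl _) (fun _ => rfl) v d).mp h1
    have h3 : v - push E (t : A →ₐ[k] A) t.surjective v ∈ rat k A E i := by
      rw [← cyE_mem, map_sub, ← pushCyc_cyE]
      exact h.cyc _
    have h4 : IsPull k E 1 (CC k A) (v - push E (t : A →ₐ[k] A) t.surjective v)
        (d - push E (t' : A[X] →ₐ[k] A[X]) t'.surjective d) := by
      rw [isPull_line_iff (CC k A) (RingEquiv.refl _) (fun _ => rfl)]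
      have h5 : push E (t' : A[X] →ₐ[k] A[X]) t'.surjective d =
          Finsupp.mapDomain (lineP (CC k A) (RingEquiv.refl _) (fun _ => rfl))
            (push E (t : A →ₐ[k] A) t.surjective v) := by
        rw [hd]
        change Finsupp.mapDomain (pushP (t' : A[X] →ₐ[k] A[X]) t'.surjective)
            (Finsupp.mapDomain (lineP (CC k A) (RingEquiv.refl _) (fun _ => rfl)) v) =
          Finsupp.mapDomain (lineP (CC k A) (RingEquiv.refl _) (fun _ => rfl))
            (Finsupp.mapDomain (pushP (t : A →ₐ[k] A) t.surjective) v)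
        rw [← Finsupp.mapDomain_comp, ← Finsupp.mapDomain_comp]
        congr 1
        funext p
        exact pushP_lineP t t' htt p
      rw [h5, hd]
      exact ((Finsupp.lmapDomain E E (lineP (CC k A) (RingEquiv.refl _)
        (fun _ => rfl))).map_sub _ _).symm
    have h6 : d - push E (t' : A[X] →ₐ[k] A[X]) t'.surjective d ∈ rat k A[X] E (i + 1) := by
      have := CUB.Asm.s_FP k A A[X] E 1 i (CC k A) (CUB.Asm.s_GX.1 k A) ⊥ _ _ h4 h3
      rwa [Ideal.map_bot] at this
    have h7 : cyE E (i + 1) (c0 - d) ∈ ratZero E (i + 1) (aff k A[X]) := cyE_mem _ |>.mpr h2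
    have h8 : pushCyc (autc t') (cyE E (i + 1) (c0 - d)) ∈ ratZero E (i + 1) (aff k A[X]) :=
      pushCyc_ratZero _ _ h7
    have h9 : cyE E (i + 1) (d - push E (t' : A[X] →ₐ[k] A[X]) t'.surjective d) ∈
        ratZero E (i + 1) (aff k A[X]) := cyE_mem _ |>.mpr h6
    rw [pushCyc_cyE] at h8 ⊢
    have h10 : cyE E (i + 1) c0 -
        cyE E (i + 1) (push E (t' : A[X] →ₐ[k] A[X]) t'.surjective c0) =
        cyE E (i + 1) (c0 - d) + cyE E (i + 1) (d - push E (t' : A[X] →ₐ[k] A[X]) t'.surjective d) -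
          cyE E (i + 1) (push E (t' : A[X] →ₐ[k] A[X]) t'.surjective (c0 - d)) := by
      simp only [map_sub]
      abel
    rw [h10]
    exact Submodule.sub_mem _ (Submodule.add_mem _ h7 h9) h8

end QCV
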