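import Pool.Agent.QCV.StO

/-!
# QCV_DTH: coordinates for a binary form which splits
-/

set_option autoImplicit false

open Polynomial

namespace QCV

namespace DTH

variable {A : Type} [CommRing A] (n : ℕ)

/-- the target ring -/
abbrev B (A : Type) [CommRing A] (n : ℕ) := (MvPolynomial (Fin n) A)[X][X]

/-- the coordinates -/
noncomputable def vv (v0 v1 : B A n) : Fin (n + 2) → B A n :=
  Fin.cons v0 (Fin.cons v1 fun j => C (C (MvPolynomial.X j)))

/-- the homomorphism `θ` -/
noncomputable def F (v0 v1 : B A n) : MvPolynomial (Fin (n + 2)) A →ₐ[A] B A n :=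
  MvPolynomial.aeval (vv n v0 v1)

/-- its inverse -/
noncomputable def G (y y' : MvPolynomial (Fin (n + 2)) A) : B A n →ₐ[A] MvPolynomial (Fin (n + 2)) A :=
  Polynomial.eval₂AlgHom (Polynomial.eval₂AlgHom
    (MvPolynomial.aeval fun j : Fin n => (MvPolynomial.X j.succ.succ : MvPolynomial (Fin (n + 2)) A))
    y (fun _ => Commute.all _ _)) y' (fun _ => Commute.all _ _)

lemma F_zero (v0 v1 : B A n) : F n v0 v1 (MvPolynomial.X 0) = v0 := by
  unfold F vv
  rw [MvPolynomial.aeval_X]
  rfl

lemma F_one (v0 v1 : B A n) : F n v0 v1 (MvPolynomial.X 1) = v1 := by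
  unfold F vv
  rw [MvPolynomial.aeval_X]
  rfl

lemma F_succ (v0 v1 : B A n) (j : Fin n) :
    F n v0 v1 (MvPolynomial.X j.succ.succ) = C (C (MvPolynomial.X j)) := by
  unfold F vv
  rw [MvPolynomial.aeval_X]
  rfl

lemma G_X (y y' : MvPolynomial (Fin (n + 2)) A) : G n y y' X = y' := by
  unfold G
  simp [Polynomial.eval₂AlgHom]

lemma G_CX (y y' : MvPolynomial (Fin (n + 2)) A) : G n y y' (C X) = y := by
  unfold G
  simp [Polynomial.eval₂AlgHom]

lemma G_CC (y y' : MvPolynomial (Fin (n + 2)) A) (j : Fin n) :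
    G n y y' (C (C (MvPolynomial.X j))) = MvPolynomial.X j.succ.succ := by
  unfold G
  simp [Polynomial.eval₂AlgHom]

section

variable {R : Type} [CommRing R] {p1 p2 q1 q2 s a m x y : R}

lemma alg1 (h1 : p1 + s * q2 = 0) (h2 : p2 + s * q1 = 1) :
    (p1 * x + p2 * y) + s * (q1 * y + q2 * x) = y := by
  linear_combination x * h1 + y * h2

lemma alg2 (h1 : a * p1 + m * q2 = 1) (h2 : a * p2 + m * q1 = 0) :
    a * (p1 * x + p2 * y) + m * (q1 * y + q2 * x) = x := by
  linear_combination x * h1 + y * h2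

lemma alg3 (h1 : p1 * a + p2 = 1) (h2 : p1 * m + p2 * s = 0) :
    p1 * (a * x + m * y) + p2 * (x + s * y) = x := by
  linear_combination x * h1 + y * h2

lemma alg4 (h1 : q1 + q2 * a = 0) (h2 : q1 * s + q2 * m = 1) :
    q1 * (x + s * y) + q2 * (a * x + m * y) = y := by
  linear_combination x * h1 + y * h2

lemma alg5 {b : R} (h1 : a * s + m = 0) (h2 : m * s = b) :
    a * x ^ 2 + b * y ^ 2 = (a * x + m * y) * (x + s * y) := by
  linear_combination - x * y * h1 - y ^ 2 * h2

end

end DTH

open DTH in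
theorem t_DTH : S_DTH := by
  intro k A _ _ _ n a s h2 h0 h1 hs
  obtain ⟨u, hu⟩ := h0.exists_right_inv
  have hsu : IsUnit s := by
    have h3 : IsUnit (s ^ 2 * a 0) := by rw [hs]; exact h1.neg
    have h4 : IsUnit (s ^ 2) := isUnit_of_mul_isUnit_left h3
    exact (isUnit_pow_iff (by norm_num)).1 h4
  obtain ⟨w, hw⟩ := hsu.exists_right_inv
  set h : A := algebraMap k A (1 / 2) with hh
  have hh2 : 2 * h = 1 := by
    rw [hh, ← map_ofNat (algebraMap k A) 2, ← map_mul, mul_one_div_cancel h2, map_one]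
  obtain ⟨p1, hp1⟩ : ∃ p1, p1 = h * u := ⟨_, rfl⟩
  obtain ⟨q1, hq1⟩ : ∃ q1, q1 = h * w := ⟨_, rfl⟩
  obtain ⟨q2, hq2⟩ : ∃ q2, q2 = - (h * w * u) := ⟨_, rfl⟩
  obtain ⟨m, hm⟩ : ∃ m, m = - (a 0 * s) := ⟨_, rfl⟩
  -- relations in `A`
  have a1 : p1 + s * q2 = 0 := by
    rw [hp1, hq2]; linear_combination - h * u * hw
  have a2 : h + s * q1 = 1 := by
    rw [hq1]; linear_combination h * hw + hh2
  have a3 : a 0 * p1 + m * q2 = 1 := by
    rw [hp1, hm, hq2]; linear_combination (2 * h) * hu + h * a 0 * u * hw + hh2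
  have a4 : a 0 * h + m * q1 = 0 := by
    rw [hm, hq1]; linear_combination - a 0 * h * hw
  have a5 : p1 * a 0 + h = 1 := by
    rw [hp1]; linear_combination h * hu + hh2
  have a6 : p1 * m + h * s = 0 := by
    rw [hp1, hm]; linear_combination - h * s * hu
  have a7 : q1 + q2 * a 0 = 0 := by
    rw [hq1, hq2]; linear_combination - h * w * hu
  have a8 : q1 * s + q2 * m = 1 := by
    rw [hq1, hq2, hm]; linear_combination (2 * h) * hw + h * w * s * hu + hh2
  have a9 : a 0 * s + m = 0 := by
    rw [hm]; ring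
  have a10 : m * s = a 1 := by
    rw [hm]; linear_combination - hs
  have toB : ∀ {p q r t v : A}, p * q + r * t = v → algebraMap A (B A n) p * algebraMap A (B A n) q
      + algebraMap A (B A n) r * algebraMap A (B A n) t = algebraMap A (B A n) v := by
    intro p q r t v hv
    rw [← map_mul, ← map_mul, ← map_add, hv]
  have toB' : ∀ {p r t v : A}, p + r * t = v → algebraMap A (B A n) p
      + algebraMap A (B A n) r * algebraMap A (B A n) t = algebraMap A (B A n) v := by
    intro p r t v hv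
    rw [← map_mul, ← map_add, hv]
  set v0 : B A n := algebraMap A (B A n) p1 * C X + algebraMap A (B A n) h * X with hv0
  set v1 : B A n := algebraMap A (B A n) q1 * X + algebraMap A (B A n) q2 * C X with hv1
  set y : MvPolynomial (Fin (n + 2)) A := MvPolynomial.C (a 0) * MvPolynomial.X 0 +
    MvPolynomial.C m * MvPolynomial.X 1 with hy
  set y' : MvPolynomial (Fin (n + 2)) A :=
    MvPolynomial.X 0 + MvPolynomial.C s * MvPolynomial.X 1 with hy'
  have FC : ∀ r : A, F n v0 v1 (MvPolynomial.C r) = algebraMap A (B A n) r := fun r =>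
    (F n v0 v1).commutes r
  have GC : ∀ r : A, G n y y' (algebraMap A (B A n) r) = MvPolynomial.C r := fun r =>
    (G n y y').commutes r
  have e1 : (F n v0 v1) y' = X := by
    rw [hy', map_add, map_mul, FC, F_zero, F_one, hv0, hv1]
    refine alg1 (R := B A n) ?_ ?_
    · exact (toB' a1).trans (map_zero _)
    · exact (toB' a2).trans (map_one _)
  have e2 : (F n v0 v1) y = C X := by
    rw [hy, map_add, map_mul, map_mul, FC, FC, F_zero, F_one, hv0, hv1]
    refine alg2 (R := B A n) ?_ ?_
    · exact (toB a3).trans (map_one _)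
    · exact (toB a4).trans (map_zero _)
  have e3 : (G n y y') v0 = MvPolynomial.X 0 := by
    rw [hv0, map_add, map_mul, map_mul, GC, GC, G_X, G_CX, hy, hy']
    refine alg3 ?_ ?_
    · rw [← map_mul, ← map_add, a5, map_one]
    · rw [← map_mul, ← map_mul, ← map_add, a6, map_zero]
  have e4 : (G n y y') v1 = MvPolynomial.X 1 := by
    rw [hv1, map_add, map_mul, map_mul, GC, GC, G_X, G_CX, hy, hy']
    refine alg4 ?_ ?_
    · rw [← map_mul, ← map_add, a7, map_zero]
    · rw [← map_mul, ← map_mul, ← map_add, a8, map_one]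
  have c1 : (F n v0 v1).comp (G n y y') = AlgHom.id A (B A n) := by
    apply Polynomial.algHom_ext'
    · apply Polynomial.algHom_ext'
      · apply MvPolynomial.algHom_ext
        intro j
        change F n v0 v1 (G n y y' (C (C (MvPolynomial.X j)))) = C (C (MvPolynomial.X j))
        rw [G_CC, F_succ]
      · change F n v0 v1 (G n y y' (C X)) = C X
        rw [G_CX, e2]
    · change F n v0 v1 (G n y y' X) = X
      rw [G_X, e1]
  have c2 : (G n y y').comp (F n v0 v1) = AlgHom.id A (MvPolynomial (Fin (n + 2)) A) := by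
    apply MvPolynomial.algHom_ext
    intro i
    rw [AlgHom.comp_apply, AlgHom.id_apply]
    refine Fin.cases ?_ (fun i => ?_) i
    · rw [F_zero, e3]
    · refine Fin.cases ?_ (fun j => ?_) i
      · exact (congrArg _ (F_one n v0 v1)).trans e4
      · rw [F_succ, G_CC]
  refine ⟨(AlgEquiv.ofAlgHom (F n v0 v1) (G n y y') c1 c2).restrictScalars k, ?_⟩
  change F n v0 v1 (dia a) = _
  have e5 : dia a = y * y' + ∑ j : Fin n, MvPolynomial.C (a j.succ.succ)
      * MvPolynomial.X j.succ.succ ^ 2 := by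
    unfold dia
    rw [Fin.sum_univ_succ, Fin.sum_univ_succ, ← add_assoc]
    congr 1
    rw [hy, hy']
    refine alg5 ?_ ?_
    · rw [← map_mul, ← map_add, a9, map_zero]
    · rw [← map_mul, a10]
      rfl
  rw [e5, map_add, map_mul, e1, e2, map_sum]
  congr 1
  unfold dia
  rw [map_sum, map_sum]
  refine Finset.sum_congr rfl fun j _ => ?_
  rw [map_mul, map_pow, FC, F_succ]
  simp only [map_mul, map_pow]
  rfl

end QCV
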