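import Pool.Agent.QCV.StE1
import Pool.Agent.QCV.O_DTH
import Pool.Agent.QCV.R_LNR

/-!
# QCV_EH2: strata of a quadratic form with a hyperbolic plane
-/

set_option autoImplicit false

open Polynomial

namespace QCV

open Pool.Agent.Lib_helper55.Beil Pool.Agent.Lib_helper66.OneP CUB

namespace EH2

/-- transport of strata under isomorphisms -/
lemma strat_iso {k A A' Z Z' U : Type} [Field k] [CommRing A] [CommRing A'] [CommRing Z]
    [CommRing Z'] [CommRing U] [Algebra k A] [Algebra k A'] [Algebra k Z] [Algebra k Z']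
    [Algebra k U] (e : A' ≃ₐ[k] A) (f : Z ≃ₐ[k] Z') {a : A} {z : A →ₐ[k] Z} {u : A →ₐ[k] U}
    (h : Strat a z u) :
    Strat (e.symm a) ((f.toAlgHom.comp z).comp e.toAlgHom) (u.comp e.toAlgHom) := by
  refine ⟨?_, ?_, ?_⟩
  · exact (f.surjective.comp h.surj).comp e.surjective
  · ext x
    rw [RingHom.mem_ker, Ideal.mem_span_singleton]
    have h1 : ((f.toAlgHom.comp z).comp e.toAlgHom).toRingHom x = f (z (e x)) := rfl
    rw [h1, map_eq_zero_iff f f.injective]
    have h2 : z (e x) = 0 ↔ e x ∈ Ideal.span {a} := by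
      rw [← h.ker, RingHom.mem_ker]
      rfl
    rw [h2, Ideal.mem_span_singleton]
    constructor
    · rintro ⟨y, hy⟩
      refine ⟨e.symm y, ?_⟩
      rw [← map_mul, ← hy, e.symm_apply_apply]
    · rintro ⟨y, hy⟩
      refine ⟨e y, ?_⟩
      rw [hy, map_mul, e.apply_symm_apply]
  · letI : Algebra A U := u.toRingHom.toAlgebra
    letI : Algebra A' U := (u.comp e.toAlgHom).toRingHom.toAlgebra
    haveI : IsLocalization (Submonoid.powers a) U := h.away
    change IsLocalization (Submonoid.powers (e.symm a)) U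
    refine IsLocalization.of_ringEquiv_left (e := e.toRingEquiv) (M₁ := Submonoid.powers a)
      (M₂ := Submonoid.powers (e.symm a)) ?_ fun x => rfl
    rw [Submonoid.map_powers]
    congr 1
    exact e.apply_symm_apply a

/-- the value at zero -/
noncomputable def ev (k D : Type) [Field k] [CommRing D] [Algebra k D] : D[X] →ₐ[k] D :=
  (Polynomial.aeval (0 : D)).restrictScalars k

lemma ev_apply {k D : Type} [Field k] [CommRing D] [Algebra k D] (F : D[X]) :
    ev k D F = F.coeff 0 := by
  change Polynomial.aeval (0 : D) F = _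
  rw [Polynomial.coe_aeval_eq_eval, Polynomial.coeff_zero_eq_eval_zero]

lemma ev_surj {k D : Type} [Field k] [CommRing D] [Algebra k D] :
    Function.Surjective (ev k D) := fun d => ⟨C d, by rw [ev_apply, coeff_C_zero]⟩

/-- the quotient by `X` and a constant -/
lemma quot_iso (k D : Type) [Field k] [CommRing D] [Algebra k D] (c : D) :
    Nonempty ((D[X] ⧸ Ideal.span {(X : D[X]), C c}) ≃ₐ[k] (D ⧸ Ideal.span {c})) := by
  let q : D →ₐ[k] (D ⧸ Ideal.span {c}) := Ideal.Quotient.mkₐ k (Ideal.span {c})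
  let f : D[X] →ₐ[k] (D ⧸ Ideal.span {c}) := q.comp (ev k D)
  have hf : Function.Surjective f :=
    (Ideal.Quotient.mkₐ_surjective k _).comp (ev_surj (k := k) (D := D))
  have hk : RingHom.ker f.toRingHom = Ideal.span {(X : D[X]), C c} := by
    apply le_antisymm
    · intro F hF
      have h1 : q (F.coeff 0) = 0 := by
        have h2 : f F = 0 := hF
        have h3 : f F = q (ev k D F) := rfl
        rwa [h3, ev_apply] at h2
      have h2 : F.coeff 0 ∈ Ideal.span {c} := Ideal.Quotient.eq_zero_iff_mem.1 h1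
      rw [Ideal.mem_span_singleton] at h2
      obtain ⟨d, hd⟩ := h2
      rw [← Polynomial.divX_mul_X_add F, hd, C_mul]
      refine add_mem (Ideal.mul_mem_left _ _ (Ideal.subset_span (by simp)))
        (Ideal.mul_mem_right _ _ (Ideal.subset_span (by simp)))
    · rw [Ideal.span_le]
      rintro F (rfl | rfl)
      · change q (ev k D X) = 0
        rw [ev_apply, coeff_X_zero, map_zero]
      · change q (ev k D (C c)) = 0
        rw [ev_apply, coeff_C_zero]
        exact Ideal.Quotient.eq_zero_iff_mem.2 (Ideal.subset_span rfl)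
  exact ⟨(Ideal.quotientEquivAlgOfEq k hk.symm).trans
    (Ideal.quotientKerAlgEquivOfSurjective hf)⟩

/-- a ring isomorphic to `D[Y][X] / (Y X + q)` -/
lemma key (k B D : Type) [Field k] [CommRing B] [Algebra k B] [CommRing D] [Algebra k D]
    (θ : B ≃ₐ[k] D[X][X]) (d : B) (q : D) (hθ : θ d = C X * X + C (C q)) :
    ∃ (s : B ⧸ Ideal.span {d}) (z : (B ⧸ Ideal.span {d}) →ₐ[k] (D ⧸ Ideal.span {q})[X])
      (u : (B ⧸ Ideal.span {d}) →ₐ[k] Localization.Away (X : D[X])),
      Strat (Z := (D ⧸ Ideal.span {q})[X]) (U := Localization.Away (X : D[X])) s z u := by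
  obtain ⟨z', u', hs⟩ := t_LNR k D[X] (Localization.Away (X : D[X])) X (C q)
    (awayHom k X) (isLocalization_awayHom X)
  have hI : Ideal.span {(C X * X + C (C q) : D[X][X])} =
      Ideal.map (θ : B →+* D[X][X]) (Ideal.span {d}) := by
    rw [Ideal.map_span, Set.image_singleton]
    congr 2
    exact hθ.symm
  let e1 : (B ⧸ Ideal.span {d}) ≃ₐ[k] (D[X][X] ⧸ Ideal.span {(C X * X + C (C q) : D[X][X])}) :=
    Ideal.quotientEquivAlg _ _ θ hI
  obtain ⟨e2⟩ := quot_iso k D q
  exact ⟨_, _, _, strat_iso e1 (Polynomial.mapAlgEquiv e2) hs⟩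

end EH2

open EH2 in
theorem t_EH2 : S_EH2 := by
  intro k A _ _ _ n a h2 h0 h1
  have hu1 : IsUnit (a 1) := by
    rw [h1]
    exact h0.neg
  obtain ⟨θ, hθ⟩ := t_DTH k A n a 1 h2 h0 hu1 (by rw [h1]; ring)
  exact key k (MvPolynomial (Fin (n + 2)) A) (MvPolynomial (Fin n) A) θ (dia a)
    (dia fun j => a j.succ.succ) hθ

end QCV
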