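import Pool.Agent.QCV.StE1
import Pool.Agent.QCV.R_VRQ

/-!
# QCV, block E: the strata `x_0 = 0` and `x_0 ≠ 0` of `B[x_0, x_1] / (x_0 x_1 + c)`
-/

set_option autoImplicit false
set_option maxHeartbeats 4000000

open Polynomial

namespace QCV

open CUB VRQ

namespace EHQ

variable {k : Type} [Field k] {B : Type} [CommRing B] [Algebra k B] (c : B)

variable (k) in
/-- The projection. -/
noncomputable def mk : MvPolynomial (Fin 2) B →ₐ[k] HQ B c := Ideal.Quotient.mkₐ k _

lemma mk_surj : Function.Surjective (mk k c) := Ideal.Quotient.mkₐ_surjective k _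

lemma mk_rel : mk k c (MvPolynomial.X 0) * mk k c (MvPolynomial.X 1) +
    mk k c (MvPolynomial.C c) = 0 := by
  rw [← map_mul, ← map_add]
  exact Ideal.Quotient.eq_zero_iff_mem.mpr (Ideal.subset_span rfl)

variable {c} in
lemma hq_ext {K : Type} [CommRing K] [Algebra k K] {α β : HQ B c →ₐ[k] K}
    (h : ∀ b, α (mk k c (MvPolynomial.C b)) = β (mk k c (MvPolynomial.C b)))
    (h0 : α (mk k c (MvPolynomial.X 0)) = β (mk k c (MvPolynomial.X 0)))
    (h1 : α (mk k c (MvPolynomial.X 1)) = β (mk k c (MvPolynomial.X 1))) : α = β := by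
  have e : α.comp (mk k c) = β.comp (mk k c) := by
    refine mv_ext h fun j => ?_
    fin_cases j
    · exact h0
    · exact h1
  refine AlgHom.ext fun x => ?_
  obtain ⟨p, rfl⟩ := mk_surj (k := k) c x
  exact AlgHom.congr_fun e p

section lift

variable {K : Type} [CommRing K] [Algebra k K] (θ : B →ₐ[k] K) (s₀ s₁ : K)
  (h : s₀ * s₁ + θ c = 0)

/-- The homomorphism which is `θ` on the coefficients and maps the variables to `s₀`, `s₁`. -/
noncomputable def hl : HQ B c →ₐ[k] K :=
  Ideal.Quotient.liftₐ _ (mvs θ ![s₀, s₁]) (by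
    intro a ha
    obtain ⟨d, rfl⟩ := Ideal.mem_span_singleton.mp ha
    rw [map_mul, map_add, map_mul, mvs_C, mvs_X, mvs_X]
    have h' : (![s₀, s₁] : Fin 2 → K) 0 * (![s₀, s₁] : Fin 2 → K) 1 + θ c = 0 := h
    rw [h', zero_mul])

lemma hl_C (b : B) : hl c θ s₀ s₁ h (mk k c (MvPolynomial.C b)) = θ b := mvs_C θ ![s₀, s₁] b

lemma hl_X0 : hl c θ s₀ s₁ h (mk k c (MvPolynomial.X 0)) = s₀ := mvs_X θ ![s₀, s₁] 0

lemma hl_X1 : hl c θ s₀ s₁ h (mk k c (MvPolynomial.X 1)) = s₁ := mvs_X θ ![s₀, s₁] 1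

end lift

variable (k)

/-- The projection modulo `c`. -/
noncomputable def qc : B →ₐ[k] B ⧸ Ideal.span {c} := Ideal.Quotient.mkₐ k _

lemma qc_c : qc k c c = 0 := Ideal.Quotient.eq_zero_iff_mem.mpr (Ideal.subset_span rfl)

/-- The closed stratum: `x_0 ↦ 0`, `x_1 ↦ X`. -/
noncomputable def zH : HQ B c →ₐ[k] (B ⧸ Ideal.span {c})[X] :=
  hl c ((CC k _).comp (qc k c)) 0 X (by
    rw [zero_mul, zero_add]
    change C (qc k c c) = 0
    rw [qc_c, C_0])

lemma zH_C (b : B) : zH k c (mk k c (MvPolynomial.C b)) = C (qc k c b) := hl_C _ _ _ _ _ _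

lemma zH_X0 : zH k c (mk k c (MvPolynomial.X 0)) = 0 := hl_X0 _ _ _ _ _

lemma zH_X1 : zH k c (mk k c (MvPolynomial.X 1)) = X := hl_X1 _ _ _ _ _

lemma zH_surjective : Function.Surjective (zH k c) := by
  intro p
  induction p using Polynomial.induction_on' with
  | add p q hp hq =>
    obtain ⟨x, hx⟩ := hp
    obtain ⟨y, hy⟩ := hq
    exact ⟨x + y, by rw [map_add, hx, hy]⟩
  | monomial n a =>
    obtain ⟨b, rfl⟩ := Ideal.Quotient.mkₐ_surjective k _ a
    refine ⟨mk k c (MvPolynomial.C b) * mk k c (MvPolynomial.X 1) ^ n, ?_⟩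
    rw [map_mul, map_pow, zH_C, zH_X1, C_mul_X_pow_eq_monomial]
    rfl

variable {k c} in
lemma zH_factor {K : Type} [CommRing K] [Algebra k K] (m : HQ B c →ₐ[k] K)
    (hm0 : m (mk k c (MvPolynomial.X 0)) = 0) {x : HQ B c} (hx : zH k c x = 0) : m x = 0 := by
  let m0 : B →ₐ[k] K := (m.comp (mk k c)).comp (mC k (Fin 2) B)
  have hmc : m0 c = 0 := by
    have h := congrArg m (mk_rel (k := k) c)
    rw [map_add, map_mul, hm0, zero_mul, zero_add, map_zero] at h
    exact h
  let m1 : (B ⧸ Ideal.span {c}) →ₐ[k] K := Ideal.Quotient.liftₐ _ m0 (by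
    intro a ha
    obtain ⟨d, rfl⟩ := Ideal.mem_span_singleton.mp ha
    rw [map_mul, hmc, zero_mul])
  have hm1 : ∀ b, m1 (qc k c b) = m0 b := fun b => rfl
  let g : (B ⧸ Ideal.span {c})[X] →ₐ[k] K := evs m1 (m (mk k c (MvPolynomial.X 1)))
  have h1 : m = g.comp (zH k c) := by
    apply hq_ext
    · intro b
      rw [AlgHom.comp_apply, zH_C, evs_C, hm1]
      rfl
    · rw [AlgHom.comp_apply, zH_X0, map_zero, hm0]
    · rw [AlgHom.comp_apply, zH_X1, evs_X]
  have h2 := AlgHom.congr_fun h1 x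
  rw [AlgHom.comp_apply, hx, map_zero] at h2
  exact h2

lemma zH_ker : RingHom.ker (zH k c).toRingHom = Ideal.span {mk k c (MvPolynomial.X 0)} := by
  apply le_antisymm
  · intro x hx
    let I : Ideal (HQ B c) := Ideal.span {mk k c (MvPolynomial.X 0)}
    let m : HQ B c →ₐ[k] HQ B c ⧸ I := Ideal.Quotient.mkₐ k I
    have hm0 : m (mk k c (MvPolynomial.X 0)) = 0 :=
      Ideal.Quotient.eq_zero_iff_mem.mpr (Ideal.subset_span rfl)
    have hx' : zH k c x = 0 := hx
    have h : m x = 0 := @zH_factor k _ B _ _ c (HQ B c ⧸ I) (Ideal.Quotient.commRing I) _ m hm0 x hx'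
    exact Ideal.Quotient.eq_zero_iff_mem.mp h
  · rw [Ideal.span_singleton_le_iff_mem]
    exact zH_X0 k c

/-- The localisation away from `X`. -/
noncomputable def aX (B : Type) [CommRing B] [Algebra k B] :
    B[X] →ₐ[k] Localization.Away (X : B[X]) := awayHom k (X : B[X])

variable (B) in
/-- The inverse of `X`. -/
noncomputable def iv : Localization.Away (X : B[X]) :=
  IsLocalization.Away.invSelf (R := B[X]) (X : B[X])

lemma aX_iv : aX k B X * iv B = 1 :=
  IsLocalization.Away.mul_invSelf (R := B[X]) (X : B[X])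

/-- The open stratum: `x_0 ↦ X`, `x_1 ↦ - c / X`. -/
noncomputable def uH : HQ B c →ₐ[k] Localization.Away (X : B[X]) :=
  hl c ((aX k B).comp (CC k B)) (aX k B X) (-(aX k B (C c) * iv B)) (by
    change aX k B X * -(aX k B (C c) * iv B) + aX k B (C c) = 0
    linear_combination (-aX k B (C c)) * aX_iv k (B := B))

lemma uH_C (b : B) : uH k c (mk k c (MvPolynomial.C b)) = aX k B (C b) := hl_C _ _ _ _ _ _

lemma uH_X0 : uH k c (mk k c (MvPolynomial.X 0)) = aX k B X := hl_X0 _ _ _ _ _

lemma uH_X1 : uH k c (mk k c (MvPolynomial.X 1)) = -(aX k B (C c) * iv B) := hl_X1 _ _ _ _ _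

lemma uH_away : @IsLocalization.Away (HQ B c) _ (mk k c (MvPolynomial.X 0))
    (Localization.Away (X : B[X])) _ (uH k c).toRingHom.toAlgebra := by
  let a : HQ B c := mk k c (MvPolynomial.X 0)
  let aw : HQ B c →ₐ[k] Localization.Away a := awayHom k a
  let ba : B[X] →ₐ[k] Localization.Away a :=
    evs ((aw.comp (mk k c)).comp (mC k (Fin 2) B)) (aw a)
  have hbaC : ∀ b, ba (C b) = aw (mk k c (MvPolynomial.C b)) := fun b => evs_C _ _ _
  have hbaX : ba X = aw a := evs_X _ _
  have hau : IsUnit (ba X) := by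
    rw [hbaX]
    exact IsLocalization.Away.algebraMap_isUnit a
  have hyu : ∀ y : Submonoid.powers (X : B[X]), IsUnit (ba y) := by
    rintro ⟨_, n, rfl⟩
    change IsUnit (ba (X ^ n))
    rw [map_pow]
    exact hau.pow n
  let β : Localization.Away (X : B[X]) →ₐ[k] Localization.Away a :=
    IsLocalization.liftAlgHom (M := Submonoid.powers (X : B[X])) (f := ba) hyu
  have hβ : ∀ x : B[X], β (aX k B x) = ba x := fun x =>
    IsLocalization.lift_eq (M := Submonoid.powers (X : B[X])) (g := ba.toRingHom) hyu x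
  have hua : IsUnit ((uH k c).toRingHom a) := by
    change IsUnit (uH k c (mk k c (MvPolynomial.X 0)))
    rw [uH_X0]
    exact IsUnit.of_mul_eq_one (iv B) (aX_iv k)
  let α : Localization.Away a →+* Localization.Away (X : B[X]) := IsLocalization.Away.lift a hua
  have hα : ∀ x, α (algebraMap (HQ B c) _ x) = uH k c x := fun x => IsLocalization.Away.lift_eq a hua x
  have h0 : β.comp (uH k c) = aw := by
    apply hq_ext
    · intro b
      rw [AlgHom.comp_apply, uH_C, hβ, hbaC]
    · rw [AlgHom.comp_apply, uH_X0, hβ, hbaX]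
    · rw [AlgHom.comp_apply, uH_X1, map_neg, map_mul, hβ, hbaC]
      have h2 : aw (mk k c (MvPolynomial.X 0)) * β (iv B) = 1 := by
        have h3 : aw (mk k c (MvPolynomial.X 0)) = β (aX k B X) := by
          rw [hβ, hbaX]
        rw [h3, ← map_mul, aX_iv, map_one]
      have h5 := congrArg aw (mk_rel (k := k) c)
      rw [map_add, map_mul, map_zero] at h5
      linear_combination (-β (iv B)) * h5 + aw (mk k c (MvPolynomial.X 1)) * h2
  refine away_of_inv a _ α β.toRingHom hα ?_ ?_
  · apply IsLocalization.ringHom_ext (Submonoid.powers a)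
    refine RingHom.ext fun x => ?_
    change β (α (algebraMap (HQ B c) _ x)) = algebraMap (HQ B c) _ x
    rw [hα]
    exact AlgHom.congr_fun h0 x
  · apply IsLocalization.ringHom_ext (Submonoid.powers (X : B[X]))
    apply Polynomial.ringHom_ext
    · intro b
      change α (β (aX k B (C b))) = aX k B (C b)
      rw [hβ, hbaC]
      exact (hα _).trans (uH_C k c b)
    · change α (β (aX k B X)) = aX k B X
      rw [hβ, hbaX]
      exact (hα _).trans (uH_X0 k c)

/-- `X ↦ - X` -/
noncomputable def ng (R : Type) [CommRing R] [Algebra k R] : R[X] ≃ₐ[k] R[X] :=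
  (algEquivAevalNegX (R := R)).restrictScalars k

lemma ng_C {R : Type} [CommRing R] [Algebra k R] (r : R) : ng k R (C r) = C r :=
  AlgEquiv.commutes (algEquivAevalNegX (R := R)) r

lemma ng_X {R : Type} [CommRing R] [Algebra k R] : ng k R X = -X := by
  change algEquivAevalNegX (R := R) X = -X
  simp

lemma ng_ng {R : Type} [CommRing R] [Algebra k R] (p : R[X]) : ng k R (ng k R p) = p := by
  have h : (ng k R).toAlgHom.comp (ng k R).toAlgHom = AlgHom.id k R[X] := by
    apply pl_ext
    · intro r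
      change ng k R (ng k R (C r)) = C r
      rw [ng_C, ng_C]
    · change ng k R (ng k R X) = X
      rw [ng_X, map_neg, ng_X, neg_neg]
  exact AlgHom.congr_fun h p

lemma exists_wU : ∃ wU : Localization.Away (X : B[X]) ≃ₐ[k] Localization.Away (X : B[X]),
    ∀ p : B[X], wU (aX k B p) = aX k B (ng k B p) := by
  let f : B[X] →ₐ[k] Localization.Away (X : B[X]) := (aX k B).comp (ng k B).toAlgHom
  have hf : ∀ p, f p = aX k B (ng k B p) := fun p => rfl
  have hyu : ∀ y : Submonoid.powers (X : B[X]), IsUnit (f y) := by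
    rintro ⟨_, n, rfl⟩
    change IsUnit (f (X ^ n))
    rw [map_pow, hf, ng_X, map_neg]
    exact (IsUnit.of_mul_eq_one (iv B) (aX_iv k)).neg.pow n
  let φ : Localization.Away (X : B[X]) →ₐ[k] Localization.Away (X : B[X]) :=
    IsLocalization.liftAlgHom (M := Submonoid.powers (X : B[X])) (f := f) hyu
  have hφ : ∀ p : B[X], φ (aX k B p) = aX k B (ng k B p) := fun x =>
    IsLocalization.lift_eq (M := Submonoid.powers (X : B[X])) (g := f.toRingHom) hyu x
  have hφφ : φ.comp φ = AlgHom.id k _ := by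
    have h : (φ.comp φ).toRingHom = (AlgHom.id k (Localization.Away (X : B[X]))).toRingHom := by
      apply IsLocalization.ringHom_ext (Submonoid.powers (X : B[X]))
      refine RingHom.ext fun x => ?_
      change φ (φ (aX k B x)) = aX k B x
      rw [hφ, hφ, ng_ng]
    exact AlgHom.ext fun x => RingHom.congr_fun h x
  exact ⟨AlgEquiv.ofAlgHom φ φ hφφ hφφ, hφ⟩

end EHQ

open EHQ in
theorem t_EHQ : S_EHQ := by
  intro k B _ _ _ c w hw
  obtain ⟨hwC, hwX⟩ := hw
  obtain ⟨wU, hwU⟩ := exists_wU k (B := B)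
  have hC : ∀ b, w (mk k c (MvPolynomial.C b)) = mk k c (MvPolynomial.C b) := hwC
  have h0 : w (mk k c (MvPolynomial.X 0)) = - mk k c (MvPolynomial.X 0) := by
    have h := hwX 0
    have e : (![-1, -1] : Fin 2 → ℤ) 0 = -1 := rfl
    rw [e, neg_one_zsmul] at h
    exact h
  have h1 : w (mk k c (MvPolynomial.X 1)) = - mk k c (MvPolynomial.X 1) := by
    have h := hwX 1
    have e : (![-1, -1] : Fin 2 → ℤ) 1 = -1 := rfl
    rw [e, neg_one_zsmul] at h
    exact h
  have hiv : wU (iv B) = - iv B := by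
    have e1 : wU (aX k B X) * wU (iv B) = 1 := by
      rw [← map_mul, aX_iv, map_one]
    rw [hwU, ng_X, map_neg] at e1
    linear_combination (-iv B) * e1 - wU (iv B) * aX_iv k (B := B)
  refine ⟨zH k c, uH k c, ng k _, ng k B, wU, ⟨zH_surjective k c, zH_ker k c, uH_away k c⟩, ?_, ?_,
    ng_C k, ng_C k, ng_X k, hwU⟩
  · have h : (zH k c).comp w.toAlgHom = (ng k (B ⧸ Ideal.span {c})).toAlgHom.comp (zH k c) := by
      apply hq_ext
      · intro b
        change zH k c (w _) = ng k _ (zH k c _)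
        rw [hC, zH_C, ng_C]
      · change zH k c (w _) = ng k _ (zH k c _)
        rw [h0, map_neg, zH_X0, map_zero, neg_zero]
      · change zH k c (w _) = ng k _ (zH k c _)
        rw [h1, map_neg, zH_X1, ng_X]
    exact fun x => AlgHom.congr_fun h x
  · have h : (uH k c).comp w.toAlgHom = wU.toAlgHom.comp (uH k c) := by
      apply hq_ext
      · intro b
        change uH k c (w _) = wU (uH k c _)
        rw [hC, uH_C, hwU, ng_C]
      · change uH k c (w _) = wU (uH k c _)
        rw [h0, map_neg, uH_X0, hwU, ng_X, map_neg]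
      · change uH k c (w _) = wU (uH k c _)
        rw [h1, map_neg, uH_X1, map_neg, map_mul, hwU, ng_C, hiv]
        ring
    exact fun x => AlgHom.congr_fun h x

end QCV
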