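import Pool.Agent.QCV.StE1

/-!
# QCV_ESG: existence of sign automorphisms
-/

set_option autoImplicit false

open CategoryTheory AlgebraicGeometry Polynomial

namespace QCV

open Pool.Agent.Lib_helper55.Beil Pool.Agent.Lib_helper66.OneP CUB

theorem t_ESG : S_ESG := by
  intro k B _ _ _ n F ε hε hF
  let s : MvPolynomial (Fin n) B →ₐ[B] MvPolynomial (Fin n) B :=
    MvPolynomial.aeval (fun j => ε j • (MvPolynomial.X j : MvPolynomial (Fin n) B))
  have hs : s.comp s = AlgHom.id B (MvPolynomial (Fin n) B) := by
    apply MvPolynomial.algHom_ext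
    intro j
    simp only [s, AlgHom.comp_apply, MvPolynomial.aeval_X, map_zsmul, smul_smul, hε j, one_smul,
      AlgHom.id_apply]
  have hsk : (s.restrictScalars k).comp (s.restrictScalars k) =
      AlgHom.id k (MvPolynomial (Fin n) B) := by
    refine AlgHom.ext fun x => ?_
    exact DFunLike.congr_fun hs x
  let e : MvPolynomial (Fin n) B ≃ₐ[k] MvPolynomial (Fin n) B :=
    AlgEquiv.ofAlgHom (s.restrictScalars k) (s.restrictScalars k) hsk hsk
  have he : ∀ x, e x = s x := fun _ => rfl
  have hI : Ideal.span {F} = (Ideal.span {F}).map (e : MvPolynomial (Fin n) B →+* _) := by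
    rw [Ideal.map_span, Set.image_singleton]
    congr 2
    exact hF.symm
  refine ⟨Ideal.quotientEquivAlg _ _ e hI, ?_, ?_⟩
  · intro b
    rw [Ideal.quotientEquivAlg_mk, he]
    congr 1
    exact MvPolynomial.aeval_C _ b
  · intro j
    rw [Ideal.quotientEquivAlg_mk, he]
    change Ideal.Quotient.mk _ (s (MvPolynomial.X j)) = _
    rw [show s (MvPolynomial.X j) = ε j • MvPolynomial.X j from MvPolynomial.aeval_X _ j, map_zsmul]

end QCV
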