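import Pool.Agent.QCV.StE2

/-!
# QCV, module EHT: the sign automorphism of the split quadric
-/

set_option autoImplicit false

open CategoryTheory AlgebraicGeometry Limits Polynomial TopologicalSpace

namespace QCV

open Pool.Agent.Lib_helper55.Beil Pool.Agent.Lib_helper66.OneP CUB

universe v

namespace EHT

/-- A sign automorphism is an involution. -/
lemma sgn_sgn {k B : Type} [Field k] [CommRing B] [Algebra k B] {n : ℕ}
    {I : Ideal (MvPolynomial (Fin n) B)} {ε : Fin n → ℤ}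
    {w : (MvPolynomial (Fin n) B ⧸ I) ≃ₐ[k] (MvPolynomial (Fin n) B ⧸ I)} (h : Sgn ε w)
    (hε : ∀ j, ε j * ε j = 1) (x : MvPolynomial (Fin n) B ⧸ I) : w (w x) = x := by
  have h1 : ((w : (MvPolynomial (Fin n) B ⧸ I) →+* (MvPolynomial (Fin n) B ⧸ I)).comp
      (w : (MvPolynomial (Fin n) B ⧸ I) →+* (MvPolynomial (Fin n) B ⧸ I))) = RingHom.id _ := by
    apply Ideal.Quotient.ringHom_ext
    apply MvPolynomial.ringHom_ext
    · intro b
      change w (w (Ideal.Quotient.mk I (MvPolynomial.C b))) =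
        Ideal.Quotient.mk I (MvPolynomial.C b)
      rw [h.1, h.1]
    · intro j
      change w (w (Ideal.Quotient.mk I (MvPolynomial.X j))) =
        Ideal.Quotient.mk I (MvPolynomial.X j)
      rw [h.2, map_zsmul, h.2, smul_smul, hε, one_smul]
  exact RingHom.congr_fun h1 x

end EHT

theorem t_EHT : M_EHT.{v} := by
  intro hHQ hHP hGM k E _ _ _ T hT hP B _ _ _ c w hw i
  haveI f1 : Algebra.FiniteType B[X] (Localization.Away (X : B[X])) :=
    IsLocalization.finiteType_of_monoid_fg (Submonoid.powers (X : B[X])) _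
  haveI f2 : Algebra.FiniteType k (Localization.Away (X : B[X])) :=
    Algebra.FiniteType.trans (S := B[X]) inferInstance f1
  have key : ∀ w₀ : HQ B c ≃ₐ[k] HQ B c, Sgn ![-1, -1] w₀ → TR T (i + 1) (HQ B c) w₀ := by
    intro w₀ h₀
    obtain ⟨z, u, wZ, wX, wU, hS, hz, hu, hZC, hXC, hXX, hUX⟩ := hHQ k B c w₀ h₀
    refine t_OGLU k E T hT (HQ B c) (B ⧸ Ideal.span {c})[X] (Localization.Away (X : B[X])) _ z u
      w₀ wZ wU hS (EHT.sgn_sgn h₀ (by
        intro j
        fin_cases j <;> rfl)) hz hu (i + 1) ?_ ?_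
    · exact t_OLN k E T hT (B ⧸ Ideal.span {c}) AlgEquiv.refl wZ (fun a => hZC a) i
        (OHYP.tr_refl T hT _ i)
    · exact hGM k E T hT hP B wX wU hXC hXX hUX i
  obtain ⟨z, u, w₀, wZ, w₁, wU, hS, hw₀, hz, hu, hZC, h₁C, hUC⟩ := hHP k B c w hw
  refine t_OGLU k E T hT (HP B c) (HQ B c)[X] (Localization.Away (X : B[X]))[X][X] _ z u
    w wZ wU hS (EHT.sgn_sgn hw (by
      intro j
      fin_cases j <;> rfl)) hz hu (i + 2) ?_ ?_
  · exact t_OLN k E T hT (HQ B c) w₀ wZ hZC (i + 1) (key w₀ hw₀)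
  · exact t_OLN k E T hT (Localization.Away (X : B[X]))[X] w₁ wU hUC (i + 1)
      (t_OLN k E T hT (Localization.Away (X : B[X])) AlgEquiv.refl w₁ (fun a => h₁C a) i
        (OHYP.tr_refl T hT _ i))

end QCV
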