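import Pool.Agent.QCV.StE1
import Pool.Agent.QCV.Asm
import Pool.Agent.QCV.QDF
import Pool.Agent.QCV.O_QDS
import Pool.Agent.QCV.O_QDP
import Pool.Agent.QCV.O_QOD

/-!
# QCV_EOD: one quadratic form of full even rank over a domain
-/

set_option autoImplicit false

open Polynomial

namespace QCV

open CUB

namespace EOD

/-- the discriminant of a diagonalised form, divided by two -/
lemma det_eq {U : Type} [CommRing U] {m : ℕ} (G Pm : Matrix (Fin (2 * m)) (Fin (2 * m)) U)
    (w : Fin (2 * m) → U) (h : U) (hd : Pm.transpose * G * Pm = Matrix.diagonal w) :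
    (-1 : U) ^ (m + 1) * ∏ j, (h * w j) = (Pm.det * h ^ m) ^ 2 * ((-1) ^ (m + 1) * G.det) := by
  have h1 := congrArg Matrix.det hd
  rw [Matrix.det_mul, Matrix.det_mul, Matrix.det_transpose, Matrix.det_diagonal] at h1
  rw [Finset.prod_mul_distrib, Finset.prod_const, Finset.card_univ, Fintype.card_fin, ← h1]
  ring

end EOD

open QOD in
theorem t_EOD : M_EOD := by
  intro hEDU hEDS k _ P d h2 hP hE B _ _ _ _ m f hD hB hf hdet0 hDr
  have hinj : Function.Injective (algebraMap k B) := (algebraMap k B).injective
  have h2B : (2 : B) ≠ 0 := by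
    intro h
    apply h2
    apply hinj
    rw [map_zero, map_ofNat, h]
  obtain ⟨a, ha, Pm, w, hdet, hdiag, hw⟩ :=
    t_QDS t_QDF B (2 * m) (gram f) h2B (gram_transpose f)
  have hrank : ((gram f).map (algebraMap B (FractionRing B))).rank = 2 * m := by
    rw [Matrix.rank_of_isUnit, Fintype.card_fin]
    rw [Matrix.isUnit_iff_isUnit_det, isUnit_iff_ne_zero]
    intro h
    apply hdet0
    apply IsFractionRing.injective B (FractionRing B)
    rw [map_zero, ← h, RingHom.map_det]
    rfl
  have hwu : ∀ j, IsUnit (w j) := fun j => (hw j).1 (by rw [hrank]; exact j.2)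
  -- the strata of the base
  have hstrat : Strat (k := k) a (Ideal.Quotient.mkₐ k (Ideal.span {a})) (awayHom k a) := by
    refine ⟨Ideal.Quotient.mkₐ_surjective k _, ?_, isLocalization_awayHom a⟩
    exact Ideal.Quotient.mkₐ_ker k (Ideal.span {a})
  have hDZ : DL k (B ⧸ Ideal.span {a}) d := Asm.s_DLR.2.2.2.2 k B d a ha hD
  -- the double cover of the open part
  obtain ⟨zd, ud, hsd⟩ := hEDS k B (B ⧸ Ideal.span {a}) (Localization.Away a) a _ _ hstrat 0
    ((-1) ^ (m + 1) * (gram f).det)
  have hDU : P (Dr (Localization.Away a) 0 (awayHom k a ((-1) ^ (m + 1) * (gram f).det))) := by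
    have hZ0 := hP.base (Dr (B ⧸ Ideal.span {a}) (Ideal.Quotient.mkₐ k (Ideal.span {a}) 0)
      (Ideal.Quotient.mkₐ k (Ideal.span {a}) ((-1) ^ (m + 1) * (gram f).det)))
      (Asm.s_DLR.2.2.1 k (B ⧸ Ideal.span {a}) _ d hDZ)
    have h3 := hP.opn _ zd ud hsd hDr hZ0
    have e0 : awayHom k a 0 = 0 := map_zero _
    rw [e0] at h3
    exact h3
  obtain ⟨z', u', hs'⟩ := Asm.s_FAM.1 k B (B ⧸ Ideal.span {a}) (Localization.Away a) (Fin 1)
    (2 * m) a _ _ (fun _ => f) hstrat
  refine hP.glue _ z' u' hs' ?_ ?_
  · refine Asm.s_QUA k P d hP (2 * m) _ _ hDZ fun j => ?_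
    exact (totalDegree_map_le _ _).trans hf.totalDegree_le
  · have hf' : (MvPolynomial.map (algebraMap B (Localization.Away a)) f).IsHomogeneous 2 :=
      hf.map _
    have hdiag' : Pm.transpose *
        gram (MvPolynomial.map (algebraMap B (Localization.Away a)) f) * Pm =
        Matrix.diagonal w := by
      rw [gram_map]
      exact hdiag
    have htwo : (2 : Localization.Away a) * algebraMap k (Localization.Away a) 2⁻¹ = 1 := by
      rw [← map_ofNat (algebraMap k (Localization.Away a)) 2, ← map_mul, mul_inv_cancel₀ h2,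
        map_one]
    obtain ⟨e1⟩ := t_QDP k (Localization.Away a) (2 * m)
      (MvPolynomial.map (algebraMap B (Localization.Away a)) f) Pm w
      (fun j => algebraMap k (Localization.Away a) 2⁻¹ * w j) h2 hf' hdet hdiag' (fun j => by
        rw [← mul_assoc, htwo, one_mul])
    have hunit : IsUnit (algebraMap k (Localization.Away a) 2⁻¹) :=
      IsUnit.of_mul_eq_one_right _ htwo
    have hdG : ((gram f).map (algebraMap B (Localization.Away a))).det =
        algebraMap B (Localization.Away a) (gram f).det := by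
      rw [RingHom.map_det]
      rfl
    have hc : (-1 : Localization.Away a) ^ (m + 1) *
        ∏ j, (algebraMap k (Localization.Away a) 2⁻¹ * w j) =
        (Pm.det * (algebraMap k (Localization.Away a) 2⁻¹) ^ m) ^ 2 *
          awayHom k a ((-1) ^ (m + 1) * (gram f).det) := by
      rw [EOD.det_eq _ Pm w _ hdiag, hdG]
      congr 1
      change _ = algebraMap B (Localization.Away a) _
      rw [map_mul, map_pow, map_neg, map_one]
    obtain ⟨e2⟩ := hEDU k (Localization.Away a)
      (awayHom k a ((-1) ^ (m + 1) * (gram f).det))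
      (Pm.det * (algebraMap k (Localization.Away a) 2⁻¹) ^ m) (hdet.mul (hunit.pow m))
    have hDv : ∀ c' : Localization.Away a, c' =
        (Pm.det * (algebraMap k (Localization.Away a) 2⁻¹) ^ m) ^ 2 *
          awayHom k a ((-1) ^ (m + 1) * (gram f).det) →
        P (Dr (Localization.Away a) 0 c') := by
      rintro _ rfl
      exact hP.iso e2 hDU
    have hS := hE (Localization.Away a) m (fun j : Fin (2 * m) =>
        algebraMap k (Localization.Away a) 2⁻¹ * w j)
      (fun j => hunit.mul (hwu j)) (hDv _ hc)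
    have h3 := hP.iso e1.symm hS
    have e3 : Ideal.span {MvPolynomial.map (algebraMap B (Localization.Away a)) f} =
        Ideal.span (Set.range (mf (awayHom k a).toRingHom (fun _ : Fin 1 => f))) := by
      congr 1
      ext x
      constructor
      · rintro rfl
        exact ⟨0, rfl⟩
      · rintro ⟨j, rfl⟩
        rfl
    exact hP.iso (Ideal.quotientEquivAlgOfEq k e3) h3

end QCV
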