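import Pool.Agent.QCV.StE1

/-!
# QCV, block E: the first four variables of a diagonal form
-/

set_option autoImplicit false

namespace QCV

namespace E_EQI

open MvPolynomial

/-- The first four variables are the outer ones. -/
def idx (m : ℕ) : Fin (2 * (m + 2)) ≃ Fin 4 ⊕ Fin (2 * m) :=
  (finCongr (show 2 * (m + 2) = 4 + 2 * m by omega)).trans finSumFinEquiv.symm

lemma idx_symm_inl (m : ℕ) (i : Fin 4) : (idx m).symm (Sum.inl i) = ⟨i.1, by omega⟩ := by
  rw [idx, Equiv.symm_trans_apply]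
  ext
  simp only [Equiv.symm_symm, finSumFinEquiv_apply_left, finCongr_symm, finCongr_apply,
    Fin.val_cast, Fin.val_castAdd]

lemma idx_symm_inr (m : ℕ) (i : Fin (2 * m)) :
    (idx m).symm (Sum.inr i) = ⟨i.1 + 4, by omega⟩ := by
  rw [idx, Equiv.symm_trans_apply]
  ext
  simp only [Equiv.symm_symm, finSumFinEquiv_apply_right, finCongr_symm, finCongr_apply,
    Fin.val_cast, Fin.val_natAdd]
  omega

variable {A : Type} [CommRing A]

/-- Polynomials in `2 (m + 2)` variables as polynomials in four variables. -/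
noncomputable def spl (m : ℕ) : MvPolynomial (Fin (2 * (m + 2))) A ≃ₐ[A]
    MvPolynomial (Fin 4) (MvPolynomial (Fin (2 * m)) A) :=
  (renameEquiv A (idx m)).trans (sumAlgEquiv A (Fin 4) (Fin (2 * m)))

lemma spl_inl (m : ℕ) (i : Fin 4) :
    spl (A := A) m (X ((idx m).symm (Sum.inl i))) = X i := by
  rw [spl, AlgEquiv.trans_apply, renameEquiv_apply, rename_X, Equiv.apply_symm_apply,
    sumAlgEquiv_X_inl]

lemma spl_inr (m : ℕ) (i : Fin (2 * m)) :
    spl (A := A) m (X ((idx m).symm (Sum.inr i))) = C (X i) := by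
  rw [spl, AlgEquiv.trans_apply, renameEquiv_apply, rename_X, Equiv.apply_symm_apply,
    sumAlgEquiv_X_inr]

lemma spl_C (m : ℕ) (c : A) : spl (A := A) m (C c) = C (C c) := by
  rw [spl, AlgEquiv.trans_apply, renameEquiv_apply, rename_C, sumAlgEquiv_C_inl]

lemma spl_dia (m : ℕ) (a : Fin (2 * (m + 2)) → A) :
    spl m (dia a) = dia (fun j : Fin 4 => (C (a ⟨j.1, by omega⟩) : MvPolynomial (Fin (2 * m)) A)) +
      C (dia fun j : Fin (2 * m) => a ⟨j.1 + 4, by omega⟩) := by
  unfold dia
  rw [map_sum, ← (idx m).symm.sum_comp, Fintype.sum_sum_type, map_sum]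
  congr 1
  · refine Finset.sum_congr rfl fun i _ => ?_
    rw [map_mul, map_pow, spl_C, spl_inl, idx_symm_inl]
  · refine Finset.sum_congr rfl fun i _ => ?_
    rw [map_mul, map_pow, spl_C, spl_inr, idx_symm_inr, map_mul, map_pow]

end E_EQI

theorem t_EQI : S_EQI := by
  intro k A _ _ _ m a
  refine ⟨Ideal.quotientEquivAlg _ _ ((E_EQI.spl m).restrictScalars k) ?_⟩
  rw [Ideal.map_span, Set.image_singleton]
  exact congrArg (fun y => Ideal.span {y}) (E_EQI.spl_dia m a).symm

end QCV
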