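import Pool.Agent.QCV.StO
import Pool.Agent.QCV.F_DBL

/-!
# QCV, block O: descent of the triviality of an automorphism along a double cover
-/

set_option autoImplicit false

open CategoryTheory AlgebraicGeometry Polynomial

namespace QCV

open Pool.Agent.Lib_helper55.Beil Pool.Agent.Lib_helper66.OneP CUB

universe v

namespace ODCV

variable {k : Type} [Field k]

lemma autc_dbl {A : Type} [CommRing A] [Algebra k A] [Algebra.FiniteType k A] (b c : A)
    (t : A ≃ₐ[k] A) (t' : Dr A b c ≃ₐ[k] Dr A b c)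
    (h : ∀ a, t' (algebraMap A (Dr A b c) a) = algebraMap A (Dr A b c) (t a)) :
    (clPr (autc t')).g ≫ (dbl b c k).g = (dbl b c k).g ≫ (clPr (autc t)).g := by
  change Spec.map _ ≫ Spec.map _ = Spec.map _ ≫ Spec.map _
  rw [← Spec.map_comp, ← Spec.map_comp, ← CommRingCat.ofHom_comp, ← CommRingCat.ofHom_comp]
  congr 2
  apply RingHom.ext
  intro a
  exact h a

end ODCV

open ODCV in
theorem t_ODCV : S_ODCV.{v} := by
  intro k E _ _ _ T hT hP A _ _ _ b c t t' htt i hTR
  obtain ⟨S, hF, hD, hC⟩ := hP.dbl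
  have hcomm := autc_dbl b c t t' htt
  have h2 : (2 : E) ≠ 0 := two_ne_zero
  refine ⟨?_, ?_⟩
  · intro n hn m
    have h1 : hT.G i n (dbl b c k) (S.D i n A b c m) = (2 : E) • m := hD i n A b c m
    have h3 : (T i).P n (autc t) (hT.G i n (dbl b c k) (S.D i n A b c m)) =
        hT.G i n (dbl b c k) (S.D i n A b c m) := by
      rw [← hT.pfClosed i n (autc t) (clPr (autc t)) rfl,
        hT.pfFunctorial i n (dbl b c k) (clPr (autc t)) ((dbl b c k).trans (clPr (autc t))) rfl,
        ← hT.pfFunctorial i n (clPr (autc t')) (dbl b c k)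
          ((dbl b c k).trans (clPr (autc t))) hcomm,
        hT.pfClosed i n (autc t') (clPr (autc t')) rfl, hTR.hom n hn]
    rw [h1] at h3
    have h4 : (T i).P n (autc t) ((2 : E) • m) = (2 : E) • (T i).P n (autc t) m :=
      map_smul ((T i).push n (autc t)) (2 : E) m
    rw [h4] at h3
    have h5 := congrArg (fun y => (2 : E)⁻¹ • y) h3
    simpa only [smul_smul, inv_mul_cancel₀ h2, one_smul] using h5
  · intro x
    obtain ⟨z, -, hz⟩ := exists_dbl S hC i A b c x
    have h4 := CUB.Asm2.s_PUSHG k E i _ _ (dbl b c k) (fun y hy => by rw [dim_dbl, hy])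
      (z - pushCyc (autc t') z) (hTR.cyc z)
    have h5 : pfc E i (dbl b c k) (pushCyc (autc t') z) = (2 : E) • pushCyc (autc t) x := by
      rw [← (CUB.Asm2.s_PFC.{v}).2.2.1 k E i _ _ (autc t') (clPr (autc t')) rfl z,
        (CUB.Asm2.s_PFC.{v}).2.1 k E i _ _ _ (clPr (autc t')) (dbl b c k)
          ((dbl b c k).trans (clPr (autc t))) hcomm z,
        ← (CUB.Asm2.s_PFC.{v}).2.1 k E i _ _ _ (dbl b c k) (clPr (autc t))
          ((dbl b c k).trans (clPr (autc t))) rfl z, hz,
        map_smul, (CUB.Asm2.s_PFC.{v}).2.2.1 k E i _ _ (autc t) (clPr (autc t)) rfl x]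
    rw [map_sub, hz, h5, ← smul_sub] at h4
    have h6 := Submodule.smul_mem _ (2 : E)⁻¹ h4
    rwa [smul_smul, inv_mul_cancel₀ h2, one_smul] at h6

end QCV
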