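import Pool.Agent.QCV.G_CHN

/-!
# QCV, block G: cycles
-/

set_option autoImplicit false

open CategoryTheory AlgebraicGeometry Limits Polynomial TopologicalSpace

namespace QCV

open Pool.Agent.Lib_helper55.Beil Pool.Agent.Lib_helper66.OneP CUB

universe v

variable {k : Type} [Field k] {E : Type} [Field E] {T : ∀ i : ℕ, Homology.{v} k E i}

section

variable {i : ℕ} {Z X : Var k} (a : ClosedIn Z X)

lemma pushCyc_add (c d : Pts i Z →₀ E) : pushCyc a (c + d) = pushCyc a c + pushCyc a d :=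
  (Finsupp.lmapDomain E E (ptsMap i a)).map_add c d

lemma pushCyc_sub' (c d : Pts i Z →₀ E) : pushCyc a (c - d) = pushCyc a c - pushCyc a d :=
  (Finsupp.lmapDomain E E (ptsMap i a)).map_sub c d

lemma pushCyc_neg (c : Pts i Z →₀ E) : pushCyc a (-c) = -pushCyc a c :=
  (Finsupp.lmapDomain E E (ptsMap i a)).map_neg c

lemma pushCyc_smul (r : E) (c : Pts i Z →₀ E) : pushCyc a (r • c) = r • pushCyc a c :=
  (Finsupp.lmapDomain E E (ptsMap i a)).map_smul r c

lemma clz_smul (T : Homology.{v} k E i) (X : Var k) (r : E) (c : Pts i X →₀ E) :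
    clz T X (r • c) = r • clz T X c :=
  map_smul (Finsupp.linearCombination E (T.cl X)) r c

lemma clz_sub (T : Homology.{v} k E i) (X : Var k) (c d : Pts i X →₀ E) :
    clz T X (c - d) = clz T X c - clz T X d :=
  map_sub (Finsupp.linearCombination E (T.cl X)) c d

lemma clz_push (T : Homology.{v} k E i) (c : Pts i Z →₀ E) :
    T.P (2 * i) a (clz T Z c) = clz T X (pushCyc a c) := push_cls T a c

end

/-- The closure of a point. -/
lemma exists_supp_point {i : ℕ} {X : Var k} (p : Pts i X) :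
    ∃ (C : Closeds X.X) (x : Pts i (closedVar X C)), (∀ y ∈ C, X.dim y ≤ i) ∧
      ptsMap i (closedVarIn X C) x = p := by
  let C : Closeds X.X := ⟨closure {p.1}, isClosed_closure⟩
  have h1 : p.1 ∈ Set.range (closedVarIn X C).g := by
    rw [range_closedVarIn]
    exact subset_closure rfl
  obtain ⟨x, hx⟩ := h1
  have hcl := (closedVarIn X C).closed
  refine ⟨C, ⟨x, ?_⟩, ?_, Subtype.ext hx⟩
  · rw [← dim_map (closedVarIn X C).g (closedVarIn X C).comm, hx]
    exact p.2
  · intro y hy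
    have h2 : p.1 ⤳ y := by
      rw [specializes_iff_mem_closure]
      exact hy
    rw [← p.2]
    exact dim_le_of_specializes X h2

/-- Every cycle comes from a closed subvariety of dimension at most `i`. -/
lemma exists_supp_cyc {i : ℕ} (X : Var k) (c : Pts i X →₀ E) :
    ∃ C : Closeds X.X, (∀ x ∈ C, X.dim x ≤ i) ∧ ∃ c' : Pts i (closedVar X C) →₀ E,
      pushCyc (closedVarIn X C) c' = c := by
  induction c using Finsupp.induction_linear with
  | zero => exact ⟨⊥, fun x hx => hx.elim, 0, by simp [pushCyc]⟩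
  | add x y hx hy =>
    obtain ⟨C, hC, c, rfl⟩ := hx
    obtain ⟨C', hC', c', rfl⟩ := hy
    refine ⟨C ⊔ C', ?_, pushCyc (closedVarMap X (le_sup_left : C ≤ C ⊔ C')) c +
      pushCyc (closedVarMap X (le_sup_right : C' ≤ C ⊔ C')) c', ?_⟩
    · rintro x (hx | hx)
      · exact hC x hx
      · exact hC' x hx
    · rw [pushCyc_add, pushCyc_comp _ _ _ (closedVarMap_comp X (le_sup_left : C ≤ C ⊔ C')),
        pushCyc_comp _ _ _ (closedVarMap_comp X (le_sup_right : C' ≤ C ⊔ C'))]
  | single p e =>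
    obtain ⟨C, x, h1, h2⟩ := exists_supp_point p
    refine ⟨C, h1, Finsupp.single x e, ?_⟩
    rw [pushCyc, Finsupp.mapDomain_single, h2]

/-- The class of a cycle has support of dimension at most `i`. -/
lemma supp_cls (i : ℕ) (X : Var k) (c : Pts i X →₀ E) : Supp (T i) (2 * i) i X (clz (T i) X c) := by
  obtain ⟨C, hC, c', rfl⟩ := exists_supp_cyc X c
  exact ⟨C, hC, clz (T i) _ c', clz_push _ _ _⟩

/-- A class in the generalised eigenspace with support of dimension at most `i` is the class of a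
cycle. -/
lemma alg_of_supp [PerfectField k] (i : ℕ) (X : Var k) (m : (T i).H (2 * i) X)
    (hm : m ∈ (T i).gen X) (h : Supp (T i) (2 * i) i X m) : m ∈ (T i).alg X := by
  obtain ⟨D, a, b, hD, hb, rfl⟩ := supp_gen i (2 * i) i X m h hm
  obtain ⟨c, hc⟩ := exists_cls (T i) D b (good_of_dimLE (T i) D hD hb)
  have h1 := push_cls' (T i) a c
  rw [hc] at h1
  rw [h1]
  exact (T i).linComb_mem_alg _ _

/-- Anti-invariant cycles with class zero are rationally equivalent to zero. -/
def IM {i : ℕ} (T : Homology.{v} k E i) (V : Var k) (t : ClosedIn V V) : Prop :=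
  ∀ c : Pts i V →₀ E, pushCyc t c = -c → clz T V c = 0 → c ∈ ratZero E i V

lemma inv_pushCyc {i : ℕ} {V : Var k} (t : ClosedIn V V) (ht : Inv t) (c : Pts i V →₀ E) :
    pushCyc t (pushCyc t c) = c := by
  rw [pushCyc_comp t t (idIn V) ht]
  have h : ptsMap i (idIn V) = id := by
    funext x
    exact Subtype.ext rfl
  rw [pushCyc, h, Finsupp.mapDomain_id]

lemma avgc_anti [CharZero E] {i : ℕ} {V : Var k} (t : ClosedIn V V) (ht : Inv t)
    (c : Pts i V →₀ E) :
    pushCyc t ((2 : E)⁻¹ • (c - pushCyc t c)) = -((2 : E)⁻¹ • (c - pushCyc t c)) := by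
  rw [pushCyc_smul, pushCyc_sub', inv_pushCyc t ht, ← smul_neg, neg_sub]

theorem bm_of_im [PerfectField k] [CharZero E] (hT : Full T) (i : ℕ) (V : Var k)
    (t : ClosedIn V V) (ht : Inv t) (h : IM (T i) V t) : BM (T i) (2 * i) i V t := by
  intro W hWred a r hr hWd w hw hwa hwz
  have hri : Inv r := inv_closed a t r ht hr
  obtain ⟨c, hc⟩ := exists_cls (T i) W w (good_of_dimLE (T i) W hWd hw)
  let c' : Pts i W →₀ E := (2 : E)⁻¹ • (c - pushCyc r c)
  have hc'a : pushCyc r c' = -c' := avgc_anti r hri c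
  have hc'w : clz (T i) W c' = w := by
    change clz (T i) W ((2 : E)⁻¹ • (c - pushCyc r c)) = w
    rw [clz_smul, clz_sub, ← clz_push]
    have h1 : clz (T i) W c = w := hc
    rw [h1]
    exact avg_anti _ _ hwa
  have hz1 : pushCyc t (pushCyc a c') = -pushCyc a c' := by
    rw [pushCyc_comp a t (a.trans t) rfl, ← pushCyc_comp r a (a.trans t) hr, hc'a, pushCyc_neg]
  have hz2 : clz (T i) V (pushCyc a c') = 0 := by
    rw [← clz_push, hc'w, hwz]
  obtain ⟨C, hC, d, hd, hdc⟩ := ratZero_supp V _ (h _ hz1 hz2)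
  have ha := a.closed
  refine ⟨C ⊔ ran a, fun x => Or.inr ⟨x, rfl⟩, ?_, ?_⟩
  · rintro x (hx | ⟨y, rfl⟩)
    · exact hC x hx
    · rw [dim_map a.g a.comm]
      exact (hWd y).trans (by exact_mod_cast Nat.le_succ i)
  · have h1 : pushCyc (factorC a (C ⊔ ran a) fun x => Or.inr ⟨x, rfl⟩) c' =
        pushCyc (closedVarMap V (le_sup_left : C ≤ C ⊔ ran a)) d := by
      apply pushCyc_injective (closedVarIn V (C ⊔ ran a))
      rw [pushCyc_comp _ _ a (factorC_comp a _ _), pushCyc_comp _ _ _ (closedVarMap_comp V _), hdc]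
    rw [← hc'w, clz_push, h1]
    exact (T i).cl_rat _ _ (pushCyc_ratZero _ _ hd)

theorem im_of_bm [CharZero E] (hT : Full T) (hP : Pub T hT) (i : ℕ) (V : Var k)
    (t : ClosedIn V V) (ht : Inv t) (h : BM (T i) (2 * i) i V t) : IM (T i) V t := by
  intro c hca hc
  obtain ⟨C₀, hC₀, c₀, hc₀⟩ := exists_supp_cyc V c
  let C := stab t C₀
  have hC := stab_stable ht C₀
  have hCd := stab_dim t C₀ i hC₀
  have hred := REDI.isReduced_closedVar V C
  have hinv : Inv (stC t C hC) := inv_closed (closedVarIn V C) t _ ht (stC_comp t C hC)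
  let c₁ := pushCyc (closedVarMap V (le_stab t C₀)) c₀
  have hc₁ : pushCyc (closedVarIn V C) c₁ = c := by
    change pushCyc (closedVarIn V C) (pushCyc (closedVarMap V (le_stab t C₀)) c₀) = c
    rw [pushCyc_comp _ _ _ (closedVarMap_comp V (le_stab t C₀)), hc₀]
  let c₂ : Pts i (closedVar V C) →₀ E := (2 : E)⁻¹ • (c₁ - pushCyc (stC t C hC) c₁)
  have hc₂a : pushCyc (stC t C hC) c₂ = -c₂ := avgc_anti _ hinv c₁
  have hc₂ : pushCyc (closedVarIn V C) c₂ = c := by
    change pushCyc (closedVarIn V C) ((2 : E)⁻¹ • (c₁ - pushCyc (stC t C hC) c₁)) = c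
    rw [pushCyc_smul, pushCyc_sub', pushCyc_comp (stC t C hC) (closedVarIn V C)
      ((closedVarIn V C).trans t) (stC_comp t C hC), ← pushCyc_comp (closedVarIn V C) t
      ((closedVarIn V C).trans t) rfl, hc₁, hca]
    exact avg_anti c (-c) rfl
  obtain ⟨C₂, hC₂, hC₂d, hdie⟩ := h (closedVar V C) (closedVarIn V C) (stC t C hC)
    (stC_comp t C hC) (dimLE_of_mem C hCd) (clz (T i) _ c₂) (cls_mem_gen (T i) _ c₂)
    (by
      rw [clz_push, hc₂a]
      have h1 : clz (T i) (closedVar V C) (-c₂) = -clz (T i) (closedVar V C) c₂ :=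
        map_neg (Finsupp.linearCombination E ((T i).cl _)) c₂
      exact h1)
    (by rw [clz_push, hc₂, hc])
  rw [clz_push] at hdie
  have h2 := (injC_iff (T i) _).mp (((T i).inj_iff _).mp
    (hP.divisors i (closedVar V C₂) (dimLE_of_mem C₂ hC₂d))) _ hdie
  have h3 := pushCyc_ratZero (closedVarIn V C₂) _ h2
  rwa [pushCyc_comp _ _ _ (factorC_comp (closedVarIn V C) C₂ hC₂), hc₂] at h3

/-- From the property `PF` to the three properties. -/
theorem ab_of_pf [PerfectField k] [CharZero E] (hT : Full T) (i : ℕ) (V : Var k)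
    (t : ClosedIn V V) (ht : Inv t) (h : PF (T i) V) : AB (T i) (2 * i) i V t := by
  refine ⟨?_, bm_of_im hT i V t ht fun c _ hc => (injC_iff (T i) V).mp h.2.1 c hc,
    fun u hu _ => h.2.2 u hu⟩
  intro u hu _
  obtain ⟨c, hc⟩ := exists_cls (T i) V u (h.1 hu)
  rw [← hc]
  exact supp_cls i V c

end QCV
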