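import Pool.Agent.QCV.StO
import Pool.Agent.QCV.G_CYC

/-!
# QCV, block O: isomorphism invariance of `TR`
-/

set_option autoImplicit false

open CategoryTheory AlgebraicGeometry Polynomial

namespace QCV

open Pool.Agent.Lib_helper55.Beil Pool.Agent.Lib_helper66.OneP CUB

universe v

namespace OISO

variable {k : Type} [Field k] {A B : Type} [CommRing A] [Algebra k A] [Algebra.FiniteType k A]
  [CommRing B] [Algebra k B] [Algebra.FiniteType k B]

/-- The closed immersion defined by an isomorphism of algebras. -/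
noncomputable abbrev isc (e : A ≃ₐ[k] B) : ClosedIn (aff k B) (aff k A) :=
  clo (e : A →ₐ[k] B) e.surjective

lemma isc_symm (e : A ≃ₐ[k] B) : (isc e).g ≫ (isc e.symm).g = (idIn (aff k B)).g := by
  change spm (e : A →ₐ[k] B) ≫ spm (e.symm : B →ₐ[k] A) = 𝟙 _
  rw [spm_comp, ← spm_id]
  exact congrArg spm (AlgHom.ext fun x => e.apply_symm_apply x)

lemma isc_comm (t : A ≃ₐ[k] A) (t' : B ≃ₐ[k] B) (e : A ≃ₐ[k] B) (h : ∀ x, e (t x) = t' (e x)) :
    (isc e).g ≫ (autc t).g = (autc t').g ≫ (isc e).g := by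
  change spm (e : A →ₐ[k] B) ≫ spm (t : A →ₐ[k] A) =
    spm (t' : B →ₐ[k] B) ≫ spm (e : A →ₐ[k] B)
  rw [spm_comp, spm_comp]
  exact congrArg spm (AlgHom.ext fun x => h x)

end OISO

open OISO

/-- OISO. -/
theorem t_OISO : S_OISO.{v} := by
  intro k E _ _ T hT A B _ _ _ _ _ _ t t' e h i H
  have hc := isc_comm t t' e h
  have hs := isc_symm e
  constructor
  · intro n hn m
    have h1 := H.hom n hn ((T i).P n (isc e) m)
    rw [hT.push_comp i n _ _ _ (isc e) (autc t) ((isc e).trans (autc t)) rfl,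
      ← hT.push_comp i n _ _ _ (autc t') (isc e) ((isc e).trans (autc t)) hc.symm] at h1
    have h2 := congrArg ((T i).P n (isc e.symm)) h1
    rwa [hT.push_comp i n _ _ _ (isc e) (isc e.symm) (idIn (aff k B)) hs,
      hT.push_comp i n _ _ _ (isc e) (isc e.symm) (idIn (aff k B)) hs,
      hT.push_id i n _ (idIn (aff k B)) rfl, hT.push_id i n _ (idIn (aff k B)) rfl] at h2
  · intro c
    have hid : ∀ d : Pts i (aff k B) →₀ E, pushCyc (isc e.symm) (pushCyc (isc e) d) = d := by
      intro d
      rw [pushCyc_comp (isc e) (isc e.symm) (idIn (aff k B)) hs]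
      have h0 : ptsMap i (idIn (aff k B)) = id := by
        funext x
        exact Subtype.ext rfl
      rw [pushCyc, h0, Finsupp.mapDomain_id]
    have h1 := H.cyc (pushCyc (isc e) c)
    rw [pushCyc_comp (isc e) (autc t) ((isc e).trans (autc t)) rfl,
      ← pushCyc_comp (autc t') (isc e) ((isc e).trans (autc t)) hc.symm, ← pushCyc_sub'] at h1
    have h2 := pushCyc_ratZero (isc e.symm) _ h1
    rwa [hid] at h2

end QCV
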