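import Pool.Agent.QCV.StE1

/-!
# QCV_ESP: coordinates for a form with two hyperbolic planes
-/

set_option autoImplicit false

namespace QCV

namespace ESP

open MvPolynomial

variable {B : Type} [CommRing B]

/-- the homomorphism with given values on the variables -/
noncomputable def ev (v0 v1 v2 v3 : MvPolynomial (Fin 4) B) :
    MvPolynomial (Fin 4) B →ₐ[B] MvPolynomial (Fin 4) B :=
  aeval (![v0, v1, v2, v3] : Fin 4 → MvPolynomial (Fin 4) B)

lemma ev0 (v0 v1 v2 v3 : MvPolynomial (Fin 4) B) : ev v0 v1 v2 v3 (X 0) = v0 := by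
  unfold ev; rw [aeval_X]; rfl

lemma ev1 (v0 v1 v2 v3 : MvPolynomial (Fin 4) B) : ev v0 v1 v2 v3 (X 1) = v1 := by
  unfold ev; rw [aeval_X]; rfl

lemma ev2 (v0 v1 v2 v3 : MvPolynomial (Fin 4) B) : ev v0 v1 v2 v3 (X 2) = v2 := by
  unfold ev; rw [aeval_X]; rfl

lemma ev3 (v0 v1 v2 v3 : MvPolynomial (Fin 4) B) : ev v0 v1 v2 v3 (X 3) = v3 := by
  unfold ev; rw [aeval_X]; rfl

lemma evC (v0 v1 v2 v3 : MvPolynomial (Fin 4) B) (b : B) : ev v0 v1 v2 v3 (C b) = C b := by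
  unfold ev; rw [aeval_C]; rfl

lemma dia4 (a : Fin 4 → B) : dia a = C (a 0) * X 0 ^ 2 + C (a 1) * X 1 ^ 2 + C (a 2) * X 2 ^ 2 +
    C (a 3) * X 3 ^ 2 := by
  unfold dia
  rw [Fin.sum_univ_four]

end ESP

open ESP MvPolynomial in
theorem t_ESP : S_ESP := by
  intro k B _ _ _ a c s₁ s₂ h2 ha hs1 hs2
  obtain ⟨u0, hu0⟩ := (ha 0).exists_right_inv
  obtain ⟨u1, hu1⟩ := (ha 1).exists_right_inv
  have hsu1 : IsUnit s₁ := by
    have h3 : IsUnit (s₁ ^ 2 * a 0) := by rw [hs1]; exact (ha 2).neg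
    exact (isUnit_pow_iff (by norm_num)).1 (isUnit_of_mul_isUnit_left h3)
  have hsu2 : IsUnit s₂ := by
    have h3 : IsUnit (s₂ ^ 2 * a 1) := by rw [hs2]; exact (ha 3).neg
    exact (isUnit_pow_iff (by norm_num)).1 (isUnit_of_mul_isUnit_left h3)
  obtain ⟨w1, hw1⟩ := hsu1.exists_right_inv
  obtain ⟨w2, hw2⟩ := hsu2.exists_right_inv
  obtain ⟨h, hh⟩ : ∃ h : B, h = algebraMap k B (1 / 2) := ⟨_, rfl⟩
  have hh2 : 2 * h = 1 := by
    rw [hh, ← map_ofNat (algebraMap k B) 2, ← map_mul, mul_one_div_cancel h2, map_one]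
  -- relations in the polynomial ring
  have r0 : (C (a 0) * C u0 : MvPolynomial (Fin 4) B) = 1 := by rw [← C_mul, hu0, C_1]
  have r1 : (C (a 1) * C u1 : MvPolynomial (Fin 4) B) = 1 := by rw [← C_mul, hu1, C_1]
  have q1 : (C s₁ * C w1 : MvPolynomial (Fin 4) B) = 1 := by rw [← C_mul, hw1, C_1]
  have q2 : (C s₂ * C w2 : MvPolynomial (Fin 4) B) = 1 := by rw [← C_mul, hw2, C_1]
  have rh : (2 * C h : MvPolynomial (Fin 4) B) = 1 := by
    have := congrArg (C : B → MvPolynomial (Fin 4) B) hh2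
    rw [C_mul, C_1] at this
    exact this
  have t1 : (C s₁ ^ 2 * C (a 0) : MvPolynomial (Fin 4) B) = - C (a 2) := by
    rw [← C_pow, ← C_mul, hs1, C_neg]
  have t2 : (C s₂ ^ 2 * C (a 1) : MvPolynomial (Fin 4) B) = - C (a 3) := by
    rw [← C_pow, ← C_mul, hs2, C_neg]
  obtain ⟨v0, hv0⟩ : ∃ v : MvPolynomial (Fin 4) B, v = C h * C u0 * X 0 + C h * X 1 := ⟨_, rfl⟩
  obtain ⟨v2, hv2⟩ : ∃ v : MvPolynomial (Fin 4) B, v = C h * C w1 * (X 1 - C u0 * X 0) := ⟨_, rfl⟩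
  obtain ⟨v1, hv1⟩ : ∃ v : MvPolynomial (Fin 4) B, v = C h * C u1 * X 2 + C h * X 3 := ⟨_, rfl⟩
  obtain ⟨v3, hv3⟩ : ∃ v : MvPolynomial (Fin 4) B, v = C h * C w2 * (X 3 - C u1 * X 2) := ⟨_, rfl⟩
  obtain ⟨y0, hy0⟩ : ∃ v : MvPolynomial (Fin 4) B, v = C (a 0) * (X 0 - C s₁ * X 2) := ⟨_, rfl⟩
  obtain ⟨y1, hy1⟩ : ∃ v : MvPolynomial (Fin 4) B, v = X 0 + C s₁ * X 2 := ⟨_, rfl⟩
  obtain ⟨y2, hy2⟩ : ∃ v : MvPolynomial (Fin 4) B, v = C (a 1) * (X 1 - C s₂ * X 3) := ⟨_, rfl⟩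
  obtain ⟨y3, hy3⟩ : ∃ v : MvPolynomial (Fin 4) B, v = X 1 + C s₂ * X 3 := ⟨_, rfl⟩
  -- compositions on the variables
  have c1 : (ev v0 v1 v2 v3).comp (ev y0 y1 y2 y3) = AlgHom.id B (MvPolynomial (Fin 4) B) := by
    apply MvPolynomial.algHom_ext
    intro i
    rw [AlgHom.comp_apply, AlgHom.id_apply]
    fin_cases i
    · show ev v0 v1 v2 v3 (ev y0 y1 y2 y3 (X 0)) = X 0
      rw [ev0, hy0]
      simp only [map_mul, map_sub, evC, ev0, ev2]
      rw [hv0, hv2]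
      linear_combination (2 * C h * X 0) * r0 + X 0 * rh -
        (C h * C (a 0) * (X 1 - C u0 * X 0)) * q1
    · show ev v0 v1 v2 v3 (ev y0 y1 y2 y3 (X 1)) = X 1
      rw [ev1, hy1]
      simp only [map_mul, map_add, evC, ev0, ev2]
      rw [hv0, hv2]
      linear_combination (C h * (X 1 - C u0 * X 0)) * q1 + X 1 * rh
    · show ev v0 v1 v2 v3 (ev y0 y1 y2 y3 (X 2)) = X 2
      rw [ev2, hy2]
      simp only [map_mul, map_sub, evC, ev1, ev3]
      rw [hv1, hv3]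
      linear_combination (2 * C h * X 2) * r1 + X 2 * rh -
        (C h * C (a 1) * (X 3 - C u1 * X 2)) * q2
    · show ev v0 v1 v2 v3 (ev y0 y1 y2 y3 (X 3)) = X 3
      rw [ev3, hy3]
      simp only [map_mul, map_add, evC, ev1, ev3]
      rw [hv1, hv3]
      linear_combination (C h * (X 3 - C u1 * X 2)) * q2 + X 3 * rh
  have c2 : (ev y0 y1 y2 y3).comp (ev v0 v1 v2 v3) = AlgHom.id B (MvPolynomial (Fin 4) B) := by
    apply MvPolynomial.algHom_ext
    intro i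
    rw [AlgHom.comp_apply, AlgHom.id_apply]
    fin_cases i
    · show ev y0 y1 y2 y3 (ev v0 v1 v2 v3 (X 0)) = X 0
      rw [ev0, hv0]
      simp only [map_mul, map_add, evC, ev0, ev1]
      rw [hy0, hy1]
      linear_combination (C h * (X 0 - C s₁ * X 2)) * r0 + X 0 * rh
    · show ev y0 y1 y2 y3 (ev v0 v1 v2 v3 (X 1)) = X 1
      rw [ev1, hv1]
      simp only [map_mul, map_add, evC, ev2, ev3]
      rw [hy2, hy3]
      linear_combination (C h * (X 1 - C s₂ * X 3)) * r1 + X 1 * rh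
    · show ev y0 y1 y2 y3 (ev v0 v1 v2 v3 (X 2)) = X 2
      rw [ev2, hv2]
      simp only [map_mul, map_sub, evC, ev0, ev1]
      rw [hy0, hy1]
      linear_combination (- C h * C w1 * (X 0 - C s₁ * X 2)) * r0 + (2 * C h * X 2) * q1 +
        X 2 * rh
    · show ev y0 y1 y2 y3 (ev v0 v1 v2 v3 (X 3)) = X 3
      rw [ev3, hv3]
      simp only [map_mul, map_sub, evC, ev2, ev3]
      rw [hy2, hy3]
      linear_combination (- C h * C w2 * (X 1 - C s₂ * X 3)) * r1 + (2 * C h * X 3) * q2 +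
        X 3 * rh
  obtain ⟨e, he⟩ : ∃ e : MvPolynomial (Fin 4) B ≃ₐ[k] MvPolynomial (Fin 4) B,
      ∀ p, e p = ev v0 v1 v2 v3 p :=
    ⟨(AlgEquiv.ofAlgHom (ev v0 v1 v2 v3) (ev y0 y1 y2 y3) c1 c2).restrictScalars k, fun p => rfl⟩
  have hF : e (dia a + C c) = X 0 * X 1 + X 2 * X 3 + C c := by
    rw [he, dia4]
    simp only [map_add, map_mul, map_pow, evC, ev0, ev1, ev2, ev3]
    have g1 : C (a 0) * v0 ^ 2 + C (a 2) * v2 ^ 2 =
        (C (a 0) * (v0 - C s₁ * v2)) * (v0 + C s₁ * v2) := by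
      linear_combination v2 ^ 2 * t1
    have g2 : C (a 1) * v1 ^ 2 + C (a 3) * v3 ^ 2 =
        (C (a 1) * (v1 - C s₂ * v3)) * (v1 + C s₂ * v3) := by
      linear_combination v3 ^ 2 * t2
    have g3 : C (a 0) * (v0 - C s₁ * v2) = X 0 := by
      have := DFunLike.congr_fun c1 (X 0)
      rw [AlgHom.comp_apply, AlgHom.id_apply, ev0, hy0] at this
      simpa only [map_mul, map_sub, evC, ev0, ev2] using this
    have g4 : v0 + C s₁ * v2 = X 1 := by
      have := DFunLike.congr_fun c1 (X 1)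
      rw [AlgHom.comp_apply, AlgHom.id_apply, ev1, hy1] at this
      simpa only [map_mul, map_add, evC, ev0, ev2] using this
    have g5 : C (a 1) * (v1 - C s₂ * v3) = X 2 := by
      have := DFunLike.congr_fun c1 (X 2)
      rw [AlgHom.comp_apply, AlgHom.id_apply, ev2, hy2] at this
      simpa only [map_mul, map_sub, evC, ev1, ev3] using this
    have g6 : v1 + C s₂ * v3 = X 3 := by
      have := DFunLike.congr_fun c1 (X 3)
      rw [AlgHom.comp_apply, AlgHom.id_apply, ev3, hy3] at this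
      simpa only [map_mul, map_add, evC, ev1, ev3] using this
    rw [g3, g4] at g1
    rw [g5, g6] at g2
    linear_combination g1 + g2
  have hI : (Ideal.span {(X 0 * X 1 + X 2 * X 3 + C c : MvPolynomial (Fin 4) B)}) =
      (Ideal.span {(dia a + C c : MvPolynomial (Fin 4) B)}).map (e : _ →+* _) := by
    rw [Ideal.map_span, Set.image_singleton]
    congr 1
    exact congrArg _ hF.symm
  refine ⟨Ideal.quotientEquivAlg _ _ e hI, fun w w' hw hw' x => ?_⟩
  have hθ : ∀ p, Ideal.quotientEquivAlg _ _ e hI (Ideal.Quotient.mk _ p) =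
      Ideal.Quotient.mk _ (e p) := fun p => rfl
  have hc : ((Ideal.quotientEquivAlg _ _ e hI : QC B a c ≃ₐ[k] HP B c) : QC B a c →+* HP B c).comp
      (w : QC B a c →+* QC B a c) = (w' : HP B c →+* HP B c).comp
        ((Ideal.quotientEquivAlg _ _ e hI : QC B a c ≃ₐ[k] HP B c) : QC B a c →+* HP B c) := by
    apply Ideal.Quotient.ringHom_ext
    apply MvPolynomial.ringHom_ext
    · intro b
      show Ideal.quotientEquivAlg _ _ e hI (w (Ideal.Quotient.mk _ (C b))) =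
        w' (Ideal.quotientEquivAlg _ _ e hI (Ideal.Quotient.mk _ (C b)))
      rw [hw.1, hθ, he, evC, hw'.1]
    · intro j
      show Ideal.quotientEquivAlg _ _ e hI (w (Ideal.Quotient.mk _ (X j))) =
        w' (Ideal.quotientEquivAlg _ _ e hI (Ideal.Quotient.mk _ (X j)))
      have x0 := hw'.2 0
      have x1 := hw'.2 1
      have x2 := hw'.2 2
      have x3 := hw'.2 3
      rw [show (![1, 1, -1, -1] : Fin 4 → ℤ) 0 = 1 from rfl, one_smul] at x0
      rw [show (![1, 1, -1, -1] : Fin 4 → ℤ) 1 = 1 from rfl, one_smul] at x1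
      rw [show (![1, 1, -1, -1] : Fin 4 → ℤ) 2 = -1 from rfl, neg_one_smul] at x2
      rw [show (![1, 1, -1, -1] : Fin 4 → ℤ) 3 = -1 from rfl, neg_one_smul] at x3
      rw [hw.2, map_zsmul, hθ, he]
      fin_cases j
      · show (1 : ℤ) • Ideal.Quotient.mk _ (ev v0 v1 v2 v3 (X 0)) =
          w' (Ideal.Quotient.mk _ (ev v0 v1 v2 v3 (X 0)))
        rw [one_smul, ev0, hv0]
        simp only [map_add, map_mul, hw'.1, x0, x1]
      · show (-1 : ℤ) • Ideal.Quotient.mk _ (ev v0 v1 v2 v3 (X 1)) =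
          w' (Ideal.Quotient.mk _ (ev v0 v1 v2 v3 (X 1)))
        rw [neg_one_smul, ev1, hv1]
        simp only [map_add, map_mul, hw'.1, x2, x3]
        ring
      · show (1 : ℤ) • Ideal.Quotient.mk _ (ev v0 v1 v2 v3 (X 2)) =
          w' (Ideal.Quotient.mk _ (ev v0 v1 v2 v3 (X 2)))
        rw [one_smul, ev2, hv2]
        simp only [map_sub, map_mul, hw'.1, x0, x1]
      · show (-1 : ℤ) • Ideal.Quotient.mk _ (ev v0 v1 v2 v3 (X 3)) =
          w' (Ideal.Quotient.mk _ (ev v0 v1 v2 v3 (X 3)))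
        rw [neg_one_smul, ev3, hv3]
        simp only [map_sub, map_mul, hw'.1, x2, x3]
        ring
  exact DFunLike.congr_fun hc x

end QCV
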