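import Pool.Agent.QCV.StT

/-!
# QCV, block T: the conjecture of Tate alone, several equations
-/

set_option autoImplicit false

open CategoryTheory AlgebraicGeometry Limits Polynomial TopologicalSpace

namespace QCV

open Pool.Agent.Lib_helper55.Beil Pool.Agent.Lib_helper66.OneP CUB

universe v

namespace TZE

variable {k : Type} [Field k] {E : Type} [Field E] {T : ∀ i : ℕ, Homology.{v} k E i}

/-- The closed part of a variety whose open part is a product with the affine line. -/
theorem am_line [CharZero E] (hT : Full T) (i n e : ℕ) {Z U V S : Var k} {a : ClosedIn Z V}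
    {j : OpenIn U V} {t : ClosedIn V V} {tZ : ClosedIn Z Z} {tU : ClosedIn U U}
    (h : Parts a j t tZ tU) (L : Line U S) (hL : tU.g ≫ L.q = L.q)
    (hV : AM (T (i + 1)) (n + 2) e V t) : AM (T (i + 1)) (n + 2) e Z tZ := by
  have hi : Inv tU := inv_open j t tU h.ht h.hU
  exact am_closed hT (i + 1) (n + 2) e h (bu_line hT i n e L tU hi hL)
      (hu_line hT.toExtra i (n + 1) L tU hi hL) hV

/-- Invariance under isomorphisms. -/
theorem am_iso [CharZero E] (hT : Full T) (i n e : ℕ) {Z V : Var k} (a : ClosedIn Z V)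
    (ha : Function.Surjective a.g) (t : ClosedIn V V) (tZ : ClosedIn Z Z) (ht : Inv t)
    (hZ : tZ.g ≫ a.g = a.g ≫ t.g) (hV : AM (T i) n e V t) : AM (T i) n e Z tZ := by
  have hem := isEmpty_openVar_bot V
  have hc : Complementary a (openVarIn V ⊥) := by
    rw [Complementary, range_openVarIn, ha.range_eq]
    simp
  have hU : (idIn (openVar V ⊥)).g ≫ (openVarIn V ⊥).g = (openVarIn V ⊥).g ≫ t.g :=
    isInitialOfIsEmpty.hom_ext _ _
  have h : Parts a (openVarIn V ⊥) t tZ (idIn (openVar V ⊥)) := ⟨hc, ht, hZ, hU⟩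
  have hHU : ∀ n, HU (T i) n (openVar V ⊥) (idIn (openVar V ⊥)) := by
    intro n u _
    have := (T i).empty n _ hem
    exact Subsingleton.elim _ _
  have hBU : ∀ n e, BU (T i) n e (openVar V ⊥) (idIn (openVar V ⊥)) := by
    intro n e W _ b r _ _ w _
    have hW : IsEmpty W.X := ⟨fun x => hem.false (b.g x)⟩
    refine ⟨⊥, fun x => (hW.false x).elim, fun x _ => (hem.false x).elim, ?_⟩
    have := (T i).empty n _ hW
    rw [Subsingleton.elim w 0, hP_zero]
  exact am_closed hT i n e h (hBU _ _) (hHU _) hV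

section VRs

variable {R R' : Type} [CommRing R] [CommRing R'] [Algebra k R] [Algebra k R']
  [Algebra.FiniteType k R] [Algebra.FiniteType k R']

/-- One step. -/
theorem am_step [CharZero E] (hT : Full T) (hKERQ : S_KERQ) (hVRL : S_VRL) (i n e m : ℕ)
    (f : Fin (m + 1) → R) (l : Fin (m + 1)) (ψ : R →ₐ[k] R') (hψ : Function.Surjective ψ)
    (hk : RingHom.ker ψ.toRingHom = Ideal.span {f l})
    (hV : AM (T (i + 1)) (n + 2) e (aff k (VR R f)) (vcl (tau (lin f)))) :
    AM (T (i + 1)) (n + 2) e (aff k (VR R' (fun j => ψ (f j)))) (vcl (tau (lin fun j => ψ (f j)))) := by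
  let a : VR R f := VRbase (k := k) f (f l)
  let φ : VR R f →ₐ[k] Localization.Away a := awayHom k a
  let σ0 : R →ₐ[k] Localization.Away (f l) := awayHom k (f l)
  obtain ⟨ee, he1, he2, he3⟩ := hVRL k R (Localization.Away (f l)) (Localization.Away a) m f l σ0 φ
    (isLocalization_awayHom _) (isLocalization_awayHom _)
  let σ : MvPolynomial (Fin m) (Localization.Away (f l)) →ₐ[k] Localization.Away a :=
    (ee.symm : _ →ₐ[k] _).comp (CC k _)
  let tB : Localization.Away a ≃ₐ[k] Localization.Away a :=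
    IsLocalization.algEquivOfAlgEquiv (M := Submonoid.powers a) (T := Submonoid.powers a)
      (Localization.Away a) (Localization.Away a) (tau (k := k) (lin f)) (by
        rw [Submonoid.map_powers]
        congr 1
        exact tau_VRbase f (f l))
  have htB : ∀ x, tB (φ x) = φ (tau (k := k) (lin f) x) := fun x =>
    IsLocalization.algEquivOfAlgEquiv_eq _ x
  have hker : RingHom.ker (VRmap ψ f).toRingHom = Ideal.span {a} := by
    rw [hKERQ.2.2.1 k R R' (m + 1) f ψ, hk, Ideal.map_span, Set.image_singleton]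
    rfl
  have hC : ∀ r : R, σ (MvPolynomial.C (σ0 r)) = φ (VRbase (k := k) f r) := fun r => by
    change ee.symm (C (MvPolynomial.C (σ0 r))) = _
    rw [← he1 r, AlgEquiv.symm_apply_apply]
  have hX : ∀ j : Fin m, σ (MvPolynomial.X j) =
      φ (algebraMap (MvPolynomial (Fin (m + 1)) R) (VR R f) (MvPolynomial.X (l.succAbove j))) :=
    fun j => by
      change ee.symm (C (MvPolynomial.X j)) = _
      rw [← he2 j, AlgEquiv.symm_apply_apply]
  have key : tB.toRingEquiv.toRingHom.comp σ.toRingHom = σ.toRingHom := by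
    apply MvPolynomial.ringHom_ext
    · intro s
      have h7 : (tB.toRingEquiv.toRingHom.comp σ.toRingHom).comp MvPolynomial.C =
          σ.toRingHom.comp MvPolynomial.C := by
        apply IsLocalization.ringHom_ext (Submonoid.powers (f l))
        ext1 r
        change tB (σ (MvPolynomial.C (σ0 r))) = σ (MvPolynomial.C (σ0 r))
        rw [hC, htB, tau_VRbase]
      exact RingHom.congr_fun h7 s
    · intro j
      change tB (σ (MvPolynomial.X j)) = σ (MvPolynomial.X j)
      rw [hX, htB, tau_VRalg]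
  have hloc := isLocalization_awayHom (k := k) a
  have hparts : Parts (clo (VRmap ψ f) (VRmap_surjective ψ hψ f))
      (opn φ (isOpenImmersion_spm φ a hloc)) (vcl (tau (k := k) (lin f)))
      (vcl (tau (k := k) (lin fun j => ψ (f j)))) (vcl tB) := by
    refine ⟨complementary_away φ a hloc (VRmap ψ f) (VRmap_surjective ψ hψ f) hker,
      inv_tau (lin f), tau_VRmap_g f ψ hψ, ?_⟩
    change spm (tB : _ →ₐ[k] _) ≫ spm φ = spm φ ≫ spm (tauH (k := k) (lin f))
    rw [spm_comp, spm_comp]
    congr 1
    exact AlgHom.ext fun x => htB x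
  refine am_line hT i n e hparts (lineE σ ee.symm.toRingEquiv (fun s => rfl)) ?_ hV
  change spm (tB : _ →ₐ[k] _) ≫ spm σ = spm σ
  rw [spm_comp]
  congr 1
  exact AlgHom.ext fun x => RingHom.congr_fun key x

/-- Several equations. -/
theorem am_chain [CharZero E] (hT : Full T) (hKERQ : S_KERQ) (hVRL : S_VRL) (i n e m : ℕ)
    (L : List (Fin (m + 1))) :
    ∀ {R R' : Type} [CommRing R] [CommRing R'] [Algebra k R]
    [Algebra k R'] [Algebra.FiniteType k R] [Algebra.FiniteType k R']
    (f : Fin (m + 1) → R) (ψ : R →ₐ[k] R') (_ : Function.Surjective ψ),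
    RingHom.ker ψ.toRingHom = Ideal.span (f '' {j | j ∈ L}) →
    AM (T (i + 1)) (n + 2) e (aff k (VR R f)) (vcl (tau (lin f))) →
    AM (T (i + 1)) (n + 2) e (aff k (VR R' (fun j => ψ (f j))))
      (vcl (tau (lin fun j => ψ (f j)))) := by
  induction L with
  | nil =>
    intro R R' _ _ _ _ _ _ f ψ hψ hk hV
    have h1 : RingHom.ker (VRmap ψ f).toRingHom = ⊥ := by
      rw [hKERQ.2.2.1 k R R' (m + 1) f ψ, hk]
      simp
    have h2 : Function.Injective (VRmap ψ f) := (RingHom.injective_iff_ker_eq_bot _).mpr h1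
    refine am_iso hT (i + 1) (n + 2) e (clo (VRmap ψ f) (VRmap_surjective ψ hψ f)) ?_
      (vcl (tau (k := k) (lin f))) _ (inv_tau (lin f)) (tau_VRmap_g f ψ hψ) hV
    have h3 : (Set.range (clo (VRmap ψ f) (VRmap_surjective ψ hψ f)).g : Set (PrimeSpectrum _)) =
        Set.univ := by
      have h4 : (Set.range (clo (VRmap ψ f) (VRmap_surjective ψ hψ f)).g : Set (PrimeSpectrum _)) =
        (Set.range (PrimeSpectrum.comap (VRmap ψ f).toRingHom) : Set (PrimeSpectrum _)) := rfl
      rw [h4, range_spm_surj _ (VRmap_surjective ψ hψ f), h1]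
      ext x
      simp
    exact Set.range_eq_univ.mp h3
  | cons l L ih =>
    intro R R' _ _ _ _ _ _ f ψ hψ hk hV
    let I : Ideal R := Ideal.span {f l}
    let π : R →ₐ[k] R ⧸ I := Ideal.Quotient.mkₐ k I
    have hle : I ≤ RingHom.ker ψ.toRingHom := by
      rw [hk]
      apply Ideal.span_mono
      rintro _ rfl
      exact ⟨l, by simp, rfl⟩
    let ψ₁ : (R ⧸ I) →ₐ[k] R' := Ideal.Quotient.liftₐ I ψ (fun a ha => hle ha)
    have hπ : Function.Surjective π := Ideal.Quotient.mkₐ_surjective k I
    have hcomp : ψ = ψ₁.comp π := by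
      ext x
      rfl
    have hkπ : RingHom.ker π.toRingHom = Ideal.span {f l} := Ideal.mk_ker
    clear_value ψ₁ π
    subst hcomp
    have hψ₁ : Function.Surjective ψ₁ := by
      intro x
      obtain ⟨y, hy⟩ := hψ x
      exact ⟨π y, hy⟩
    have hk₁ : RingHom.ker ψ₁.toRingHom = Ideal.span ((fun j => π (f j)) '' {j | j ∈ L}) := by
      have h1 : RingHom.ker ψ₁.toRingHom =
          (RingHom.ker (ψ₁.comp π).toRingHom).map π.toRingHom := by
        have h2 : RingHom.ker (ψ₁.comp π).toRingHom =
          (RingHom.ker ψ₁.toRingHom).comap π.toRingHom := rfl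
        rw [h2]
        exact (Ideal.map_comap_of_surjective π.toRingHom hπ _).symm
      rw [h1, hk, Ideal.map_span]
      apply le_antisymm
      · rw [Ideal.span_le]
        rintro _ ⟨_, ⟨j, hj, rfl⟩, rfl⟩
        rcases List.mem_cons.mp hj with rfl | hj
        · have h3 : π (f j) = 0 := by
            have : f j ∈ RingHom.ker π.toRingHom := by
              rw [hkπ]; exact Ideal.subset_span rfl
            exact this
          have h4 : π.toRingHom (f j) = 0 := h3
          rw [h4]
          exact Ideal.zero_mem _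
        · exact Ideal.subset_span ⟨j, hj, rfl⟩
      · apply Ideal.span_mono
        rintro _ ⟨j, hj, rfl⟩
        exact ⟨f j, ⟨j, List.mem_cons_of_mem _ hj, rfl⟩, rfl⟩
    exact ih (fun j => π (f j)) ψ₁ hψ₁ hk₁
      (am_step hT hKERQ hVRL i n e m f l π hπ hkπ hV)

end VRs

/-- From the first component of `PF` to the property `AM`. -/
theorem am_of_gg (i : ℕ) (V : Var k) (t : ClosedIn V V) (h : (T i).gen V ≤ (T i).alg V) :
    AM (T i) (2 * i) i V t := by
  intro u hu _
  obtain ⟨c, hc⟩ := exists_cls (T i) V u (h hu)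
  rw [← hc]
  exact supp_cls i V c

/-- The double cover which belongs to the zero function. -/
theorem gg_of_zero [PerfectField k] [CharZero E] (hT : Full T) (N m : ℕ)
    {R' : Type} [CommRing R'] [Algebra k R'] [Algebra.FiniteType k R'] (g : Fin (m + 1) → R')
    (hg : ∀ j, g j = 0)
    (hV : AM (T N) (2 * N) N (aff k (VR R' g)) (vcl (tau (lin g)))) :
    (T N).gen (aff k (MvPolynomial (Fin (m + 1)) R')) ≤
      (T N).alg (aff k (MvPolynomial (Fin (m + 1)) R')) := by
  have h' : ∀ j, AlgHom.id k R' (g j) = 0 := hg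
  let s0 := sheet (AlgHom.id k R') g h' false
  let s1 := sheet (AlgHom.id k R') g h' true
  have hs0 : Function.Surjective s0 := sheet_surjective _ Function.surjective_id _ h' false
  have hs1 : Function.Surjective s1 := sheet_surjective _ Function.surjective_id _ h' true
  have hloc := isLocalization_sheet_false (k := k) g h'
  have hc := complementary_away s0 (1 - yy (lin g)) hloc s1 hs1 (ker_sheet_true g h')
  have h01 : (clo s0 hs0).g ≫ (vcl (tau (k := k) (lin g))).g = (clo s1 hs1).g := by
    change spm s0 ≫ spm (tauH (k := k) (lin g)) = spm s1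
    rw [spm_comp]
    exact congrArg spm (sheet_tau (AlgHom.id k R') g h')
  have h10 : (clo s1 hs1).g ≫ (vcl (tau (k := k) (lin g))).g = (clo s0 hs0).g := by
    rw [← h01, Category.assoc, inv_tau (k := k) (lin g), Category.comp_id]
  intro α hα
  exact alg_of_supp N _ α hα (supp_sheet (clo s0 hs0) (clo s1 hs1)
    (opn s0 (isOpenImmersion_spm s0 _ hloc)) (vcl (tau (k := k) (lin g))) hT N (2 * N) N rfl hc
    h01 h10 hV α hα)

/-- Invariance under isomorphisms. -/
theorem gg_viso (i : ℕ) {X Y : Var k} (s : VIso X Y) (h : (T i).gen X ≤ (T i).alg X) :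
    (T i).gen Y ≤ (T i).alg Y := by
  have hc : Complementary s.cl (openVarIn Y ⊥) := by
    rw [Complementary, s.range, range_openVarIn]
    simp
  exact (T i).glue s.cl (openVarIn Y ⊥) hc h
    ((T i).good_of_subsingleton _ ((T i).empty _ _ (isEmpty_openVar_bot Y)))

/-- From a product with the affine line to the base. -/
theorem gg_line_desc [Finite k] [CharZero E] (hT : Full T) (hP : Pub T hT) (hS : SectionZero T)
    (i : ℕ) {Y X : Var k} (L : Line Y X) (h : (T (i + 1)).gen Y ≤ (T (i + 1)).alg Y) :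
    (T i).gen X ≤ (T i).alg X := by
  intro α hα
  refine alg_of_supp i X α hα (supp_line_desc hT hP hS i (2 * i) i L α ?_)
  have h1 : hT.line i (2 * i) L α ∈ (T (i + 1)).gen Y :=
    maxGen_map ((T i).frob (2 * i) X) ((T (i + 1)).frob (2 * (i + 1)) Y) (hT.line i (2 * i) L)
      (hT.line_frob i (2 * i) L) hα
  obtain ⟨c, hc⟩ := exists_cls (T (i + 1)) Y _ (h h1)
  have h2 := supp_cls (T := T) (i + 1) Y c
  have h3 : clz (T (i + 1)) Y c = hT.line i (2 * i) L α := hc
  rw [h3] at h2
  exact h2

/-- From a product with an affine space to the base. -/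
theorem gg_mv_desc [Finite k] [CharZero E] (hT : Full T) (hP : Pub T hT) (hS : SectionZero T)
    (A : Type) [CommRing A] [Algebra k A] [Algebra.FiniteType k A] (i m : ℕ)
    (h : (T (i + m)).gen (aff k (MvPolynomial (Fin m) A)) ≤
      (T (i + m)).alg (aff k (MvPolynomial (Fin m) A))) :
    (T i).gen (aff k A) ≤ (T i).alg (aff k A) := by
  induction m with
  | zero =>
    let e : MvPolynomial (Fin 0) A ≃ₐ[k] A :=
      (MvPolynomial.isEmptyAlgEquiv A (Fin 0)).restrictScalars k
    exact gg_viso i (viso e.symm) h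
  | succ m ih =>
    refine ih ?_
    let B := MvPolynomial (Fin m) A
    let e : MvPolynomial (Fin (m + 1)) A ≃ₐ[k] B[X] :=
      (MvPolynomial.finSuccEquiv A m).restrictScalars k
    let φ : B →ₐ[k] MvPolynomial (Fin (m + 1)) A := (e.symm : _ →ₐ[k] _).comp (CC k B)
    exact gg_line_desc hT hP hS (i + m) (lineE φ e.symm.toRingEquiv (fun _ => rfl)) h

end TZE

/-- TZE. -/
theorem t_TZE : S_TZE.{v} := by
  intro k E _ _ _ _ T hT hP hS A _ _ _ m f hV i
  let ψ : A →ₐ[k] A ⧸ Ideal.span (Set.range f) := Ideal.Quotient.mkₐ k (Ideal.span (Set.range f))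
  have hψ : Function.Surjective ψ := Ideal.Quotient.mkₐ_surjective k _
  have hk : RingHom.ker ψ.toRingHom = Ideal.span (Set.range f) := Ideal.mk_ker
  refine TZE.gg_mv_desc hT hP hS _ i (m + 1) ?_
  refine TZE.gg_of_zero hT (i + m + 1) m (fun j => ψ (f j)) ?_ ?_
  · intro j
    have h1 : f j ∈ RingHom.ker ψ.toRingHom := by
      rw [hk]
      exact Ideal.subset_span ⟨j, rfl⟩
    exact h1
  · refine TZE.am_chain hT CUB.Asm.s_KERQ CUB.Asm.s_VRL (i + m) (2 * (i + m)) (i + m + 1) m
      (List.finRange (m + 1)) f ψ hψ ?_ ?_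
    · rw [hk]
      congr 1
      ext x
      simp
    · exact TZE.am_of_gg (i + m + 1) _ _ (hV _)

end QCV
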