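import Pool.Agent.QCV.StE2
import Pool.Agent.QCV.T_TZE

/-!
# QCV, block E: the closure property for the twist, at all levels
-/

set_option autoImplicit false

open CategoryTheory AlgebraicGeometry Limits Polynomial TopologicalSpace

namespace QCV

open Pool.Agent.Lib_helper55.Beil Pool.Agent.Lib_helper66.OneP CUB

universe v

namespace EST

variable {k : Type} [Field k] {E : Type} [Field E] {T : ∀ i : ℕ, Homology.{v} k E i}

/-- From the base to a product with an affine space. -/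
theorem gg_mv_up (hT : Full T) (A : Type) [CommRing A] [Algebra k A] [Algebra.FiniteType k A]
    (i m : ℕ) (h : (T i).gen (aff k A) ≤ (T i).alg (aff k A)) :
    (T (i + m)).gen (aff k (MvPolynomial (Fin m) A)) ≤
      (T (i + m)).alg (aff k (MvPolynomial (Fin m) A)) := by
  induction m with
  | zero =>
    let e : MvPolynomial (Fin 0) A ≃ₐ[k] A :=
      (MvPolynomial.isEmptyAlgEquiv A (Fin 0)).restrictScalars k
    exact TZE.gg_viso i (viso e) h
  | succ m ih =>
    let e : MvPolynomial (Fin (m + 1)) A ≃ₐ[k] (MvPolynomial (Fin m) A)[X] :=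
      (MvPolynomial.finSuccEquiv A m).restrictScalars k
    exact TZE.gg_viso (i + m + 1) (viso e) (good_line hT.toExtra (i + m) _ ih)

/-- From the base to a product with an affine space. -/
theorem pf_mv_up [PerfectField k] (hT : Full T) (hP : Pub T hT) (A : Type) [CommRing A]
    [Algebra k A] [Algebra.FiniteType k A] (i m : ℕ) (h : PF (T i) (aff k A)) :
    PF (T (i + m)) (aff k (MvPolynomial (Fin m) A)) := by
  induction m with
  | zero =>
    let e : MvPolynomial (Fin 0) A ≃ₐ[k] A :=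
      (MvPolynomial.isEmptyAlgEquiv A (Fin 0)).restrictScalars k
    exact pf_viso hT hP i (viso e) h
  | succ m ih =>
    let e : MvPolynomial (Fin (m + 1)) A ≃ₐ[k] (MvPolynomial (Fin m) A)[X] :=
      (MvPolynomial.finSuccEquiv A m).restrictScalars k
    exact pf_viso hT hP (i + m + 1) (viso e) (pf_line hT hP (i + m) _ ih)

lemma unit_vec {B : Type} [CommRing B] (a : Fin 4 → B) (δ : B) (ha : ∀ j, IsUnit (a j))
    (hδ : IsUnit δ) (j : Fin 4) : IsUnit ((![a 0, - a 0, a 2, δ * a 3] : Fin 4 → B) j) := by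
  fin_cases j
  · exact ha 0
  · exact (ha 0).neg
  · exact ha 2
  · exact hδ.mul (ha 3)

lemma vec_C {B : Type} [CommRing B] (a : Fin 4 → B) (δ : B) :
    (fun j => (MvPolynomial.C ((![a 0, - a 0, a 2, δ * a 3] : Fin 4 → B) j) :
        MvPolynomial (Fin 2) B)) =
      ![MvPolynomial.C (a 0), - MvPolynomial.C (a 0), MvPolynomial.C (a 2),
        MvPolynomial.C δ * MvPolynomial.C (a 3)] := by
  funext j
  fin_cases j
  · rfl
  · exact map_neg _ _
  · rfl
  · exact map_mul _ _ _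

/-- The step, at the levels `i + 2`. -/
theorem step [Finite k] [CharZero E] (hETW : S_ETW) (hEQT : S_EQT.{v}) (hECM : S_ECM.{v})
    (hT : Full T) (S : DblMaps T) (hP : Pub T hT) (hF : S.Frobenius)
    (hD : S.Degree hT.toProperMaps) (hC : S.Classes) (hG : S.Galois hT.toProperMaps)
    (h2 : (2 : k) ≠ 0) (B : Type) [CommRing B] [Algebra k B] [Algebra.FiniteType k B]
    (a : Fin 4 → B) (c δ : B) (ha : ∀ j, IsUnit (a j)) (hδ : IsUnit δ) (h : δ * a 0 = - a 1)
    (i : ℕ) :
    (PF (T (i + 2)) (aff k (QC B ![a 0, - a 0, a 2, δ * a 3] c)) →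
        PF (T (i + 2)) (aff k (QC B a c))) ∧
      ((T (i + 2)).gen (aff k (QC B ![a 0, - a 0, a 2, δ * a 3] c)) ≤
        (T (i + 2)).alg (aff k (QC B ![a 0, - a 0, a 2, δ * a 3] c)) →
        (T (i + 2)).gen (aff k (QC B a c)) ≤ (T (i + 2)).alg (aff k (QC B a c))) := by
  obtain ⟨e, w, e', w', hw', h3, h4⟩ := hETW k B a c δ hδ h
  have h5 := hEQT k E T hT hP h2 (Dr B 0 (-δ)) _ _ w'
    (fun j => (unit_vec a δ ha hδ j).map (algebraMap B (Dr B 0 (-δ)))) hw' i
  have h6 := t_OISO k E T hT _ _ w' w e'.symm (fun x => by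
    rw [AlgEquiv.symm_apply_eq, h4, AlgEquiv.apply_symm_apply]) (i + 2) h5
  exact hECM k E T hT S hP hF hD hC hG _ _ _ _ _ _ e w h3 (i + 2) h6

end EST

/-- **EST**. -/
theorem t_EST : M_EST.{v} := by
  intro hETW hEQT hECM hEBM k E _ _ _ _ T hT S hP hS hF hD hC hG h2
  have hst : ∀ (B : Type) [CommRing B] [Algebra k B] [Algebra.FiniteType k B] (a : Fin 4 → B)
      (c δ : B) (_ : ∀ j, IsUnit (a j)) (_ : IsUnit δ) (_ : δ * a 0 = - a 1) (i : ℕ),
      (PF (T i) (aff k (QC B ![a 0, - a 0, a 2, δ * a 3] c)) → PF (T i) (aff k (QC B a c))) ∧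
      ((T i).gen (aff k (QC B ![a 0, - a 0, a 2, δ * a 3] c)) ≤
        (T i).alg (aff k (QC B ![a 0, - a 0, a 2, δ * a 3] c)) →
        (T i).gen (aff k (QC B a c)) ≤ (T i).alg (aff k (QC B a c))) := by
    intro B _ _ _ a c δ ha hδ h i
    obtain ⟨e1⟩ := hEBM k B ![a 0, - a 0, a 2, δ * a 3] c
    obtain ⟨e2⟩ := hEBM k B a c
    have h3 := EST.step hETW hEQT hECM hT S hP hF hD hC hG h2 (MvPolynomial (Fin 2) B)
      (fun j => MvPolynomial.C (a j)) (MvPolynomial.C c) (MvPolynomial.C δ)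
      (fun j => (ha j).map MvPolynomial.C) (hδ.map MvPolynomial.C)
      (by rw [← map_mul, h, map_neg]) i
    rw [← EST.vec_C a δ] at h3
    constructor
    · intro h4
      refine pf_mv_desc hT hP hS _ i 2 ?_
      refine pf_viso hT hP (i + 2) (viso e2.symm) (h3.1 ?_)
      exact pf_viso hT hP (i + 2) (viso e1) (EST.pf_mv_up hT hP _ i 2 h4)
    · intro h4
      refine TZE.gg_mv_desc hT hP hS _ i 2 ?_
      refine TZE.gg_viso (i + 2) (viso e2.symm) (h3.2 ?_)
      exact TZE.gg_viso (i + 2) (viso e1) (EST.gg_mv_up hT _ i 2 h4)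
  exact ⟨fun B _ _ _ a c δ ha hδ h h4 i => (hst B a c δ ha hδ h i).1 (h4 i),
    fun B _ _ _ a c δ ha hδ h h4 i => (hst B a c δ ha hδ h i).2 (h4 i)⟩

end QCV
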