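import Pool.Agent.QCV.StE1

/-!
# QCV, module ETW: the twist of a quadric
-/

set_option autoImplicit false

open Polynomial

namespace QCV

namespace ETW_aux

section Scale

variable {B : Type} [CommRing B]

/-- The homomorphism `x_j ↦ v_j x_j`. -/
noncomputable def sc (v : Fin 4 → B) : MvPolynomial (Fin 4) B →ₐ[B] MvPolynomial (Fin 4) B :=
  MvPolynomial.aeval fun j => MvPolynomial.C (v j) * MvPolynomial.X j

lemma sc_X (v : Fin 4 → B) (j : Fin 4) :
    sc v (MvPolynomial.X j) = MvPolynomial.C (v j) * MvPolynomial.X j :=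
  MvPolynomial.aeval_X _ _

lemma sc_C (v : Fin 4 → B) (b : B) : sc v (MvPolynomial.C b) = MvPolynomial.C b :=
  (MvPolynomial.aeval_C _ _)

lemma sc_gen (v a a' : Fin 4 → B) (c : B) (h : ∀ j, a j * v j ^ 2 = a' j) :
    sc v (dia a + MvPolynomial.C c) = dia a' + MvPolynomial.C c := by
  rw [map_add, sc_C, dia, dia, map_sum]
  congr 1
  refine Finset.sum_congr rfl fun j _ => ?_
  rw [map_mul, map_pow, sc_X, sc_C, mul_pow, ← map_pow, ← mul_assoc, ← map_mul, h]

lemma sc_le (v a a' : Fin 4 → B) (c : B) (h : ∀ j, a j * v j ^ 2 = a' j) :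
    Ideal.span {(dia a + MvPolynomial.C c : MvPolynomial (Fin 4) B)} ≤
      (Ideal.span {(dia a' + MvPolynomial.C c : MvPolynomial (Fin 4) B)}).comap (sc v) := by
  rw [Ideal.span_le, Set.singleton_subset_iff, SetLike.mem_coe, Ideal.mem_comap, sc_gen v a a' c h]
  exact Ideal.mem_span_singleton_self _

/-- The homomorphism of the quadrics. -/
noncomputable def scq (v a a' : Fin 4 → B) (c : B) (h : ∀ j, a j * v j ^ 2 = a' j) :
    QC B a c →ₐ[B] QC B a' c :=
  Ideal.quotientMapₐ _ (sc v) (sc_le v a a' c h)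

lemma scq_mk (v a a' : Fin 4 → B) (c : B) (h : ∀ j, a j * v j ^ 2 = a' j)
    (p : MvPolynomial (Fin 4) B) :
    scq v a a' c h (Ideal.Quotient.mk _ p) = Ideal.Quotient.mk _ (sc v p) := rfl

lemma sc_sc (v w : Fin 4 → B) (h : ∀ j, v j * w j = 1) (p : MvPolynomial (Fin 4) B) :
    sc w (sc v p) = p := by
  have e : (sc w).comp (sc v) = AlgHom.id B _ := by
    apply MvPolynomial.algHom_ext
    intro j
    rw [AlgHom.comp_apply, sc_X, map_mul, sc_C, sc_X, ← mul_assoc, ← map_mul, h, map_one, one_mul,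
      AlgHom.id_apply]
  exact DFunLike.congr_fun e p

/-- The isomorphism of the quadrics. -/
noncomputable def sce (v w a a' : Fin 4 → B) (c : B) (h : ∀ j, a j * v j ^ 2 = a' j)
    (hv : ∀ j, v j * w j = 1) : QC B a c ≃ₐ[B] QC B a' c :=
  AlgEquiv.ofAlgHom (scq v a a' c h)
    (scq w a' a c fun j => by rw [← h j, mul_assoc, ← mul_pow, hv, one_pow, mul_one])
    (AlgHom.ext fun x => by
      obtain ⟨p, rfl⟩ := Ideal.Quotient.mk_surjective x
      rw [AlgHom.comp_apply, scq_mk, scq_mk, sc_sc w v fun j => by rw [mul_comm, hv]]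
      rfl)
    (AlgHom.ext fun x => by
      obtain ⟨p, rfl⟩ := Ideal.Quotient.mk_surjective x
      rw [AlgHom.comp_apply, scq_mk, scq_mk, sc_sc v w hv]
      rfl)

lemma sce_mk (v w a a' : Fin 4 → B) (c : B) (h : ∀ j, a j * v j ^ 2 = a' j)
    (hv : ∀ j, v j * w j = 1) (p : MvPolynomial (Fin 4) B) :
    sce v w a a' c h hv (Ideal.Quotient.mk _ p) = Ideal.Quotient.mk _ (sc v p) := rfl

end Scale

/-- Homomorphisms of a double cover of a quadric agree if they agree on the generators. -/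
lemma ext {B S : Type} [CommRing B] [CommRing S] {a : Fin 4 → B} {c : B} {b' c' : QC B a c}
    (f g : Dr (QC B a c) b' c' →+* S)
    (h1 : ∀ b : B, f (algebraMap (QC B a c) _ (Ideal.Quotient.mk _ (MvPolynomial.C b))) =
      g (algebraMap (QC B a c) _ (Ideal.Quotient.mk _ (MvPolynomial.C b))))
    (h2 : ∀ j, f (algebraMap (QC B a c) _ (Ideal.Quotient.mk _ (MvPolynomial.X j))) =
      g (algebraMap (QC B a c) _ (Ideal.Quotient.mk _ (MvPolynomial.X j))))
    (h3 : f (rt b' c') = g (rt b' c')) : f = g := by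
  apply AdjoinRoot.ringHom_ext
  · apply Ideal.Quotient.ringHom_ext
    apply MvPolynomial.ringHom_ext
    · exact h1
    · exact h2
  · exact h3

/-- The sign automorphism of a quadric. -/
lemma esg (hESG : S_ESG) (k : Type) {B : Type} [Field k] [CommRing B] [Algebra k B] (a : Fin 4 → B)
    (c : B) : ∃ w : QC B a c ≃ₐ[k] QC B a c, Sgn ![1, -1, 1, -1] w := by
  refine hESG k B 4 (dia a + MvPolynomial.C c) ![1, -1, 1, -1]
    (by intro j; fin_cases j <;> rfl) ?_
  have e1 : ∀ j : Fin 4, ((![1, -1, 1, -1] : Fin 4 → ℤ) j •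
      (MvPolynomial.X j : MvPolynomial (Fin 4) B)) ^ 2 = MvPolynomial.X j ^ 2 := by
    intro j
    fin_cases j
    · change ((1 : ℤ) • _) ^ 2 = _
      rw [one_smul]
    · change ((-1 : ℤ) • _) ^ 2 = _
      rw [neg_smul, one_smul, neg_sq]
    · change ((1 : ℤ) • _) ^ 2 = _
      rw [one_smul]
    · change ((-1 : ℤ) • _) ^ 2 = _
      rw [neg_smul, one_smul, neg_sq]
  rw [map_add, MvPolynomial.aeval_C, dia, map_sum]
  congr 1
  refine Finset.sum_congr rfl fun j _ => ?_
  rw [map_mul, map_pow, MvPolynomial.aeval_C, MvPolynomial.aeval_X, e1]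
  rfl

/-- The isomorphism of the two quadrics over the double cover of the base. -/
lemma phi (k : Type) {B : Type} [Field k] [CommRing B] [Algebra k B] (a : Fin 4 → B) (c δ : B)
    (hδ : IsUnit δ) (hδa : δ * a 0 = - a 1) :
    ∃ (v : Fin 4 → Dr B 0 (-δ)) (φ : QC (Dr B 0 (-δ))
        (fun j => algebraMap B (Dr B 0 (-δ)) (a j)) (algebraMap B (Dr B 0 (-δ)) c) ≃ₐ[k]
        QC (Dr B 0 (-δ)) (fun j => algebraMap B (Dr B 0 (-δ))
          ((![a 0, - a 0, a 2, δ * a 3] : Fin 4 → B) j)) (algebraMap B (Dr B 0 (-δ)) c)),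
      (v 0 = 1 ∧ (∃ d : B, v 1 = algebraMap B (Dr B 0 (-δ)) d * rt 0 (-δ)) ∧ v 2 = 1 ∧
        v 3 = rt 0 (-δ)) ∧
      (∀ x, φ (Ideal.Quotient.mk _ (MvPolynomial.C x)) = Ideal.Quotient.mk _ (MvPolynomial.C x)) ∧
      ∀ j, φ (Ideal.Quotient.mk _ (MvPolynomial.X j)) =
        Ideal.Quotient.mk _ (MvPolynomial.C (v j)) * Ideal.Quotient.mk _ (MvPolynomial.X j) := by
  obtain ⟨di, hdi⟩ := hδ.exists_right_inv
  have ht : rt (0 : B) (-δ) ^ 2 = algebraMap B (Dr B 0 (-δ)) δ := by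
    have h := rt_eq (0 : B) (-δ)
    rw [map_zero, zero_mul, add_zero, map_neg, ← sub_eq_add_neg, sub_eq_zero] at h
    exact h
  have hal1 : algebraMap B (Dr B 0 (-δ)) δ * algebraMap B (Dr B 0 (-δ)) di = 1 := by
    rw [← map_mul, hdi, map_one]
  have e1 : a 1 = - (δ * a 0) := by rw [hδa, neg_neg]
  have h1 : ∀ j, algebraMap B (Dr B 0 (-δ)) (a j) *
      (![1, algebraMap B (Dr B 0 (-δ)) di * rt 0 (-δ), 1, rt 0 (-δ)] : Fin 4 → Dr B 0 (-δ)) j ^ 2 =
      algebraMap B (Dr B 0 (-δ)) ((![a 0, - a 0, a 2, δ * a 3] : Fin 4 → B) j) := by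
    intro j
    fin_cases j
    · change algebraMap B (Dr B 0 (-δ)) (a 0) * 1 ^ 2 = algebraMap B (Dr B 0 (-δ)) (a 0)
      rw [one_pow, mul_one]
    · change algebraMap B (Dr B 0 (-δ)) (a 1) * (algebraMap B (Dr B 0 (-δ)) di * rt 0 (-δ)) ^ 2 =
        algebraMap B (Dr B 0 (-δ)) (- a 0)
      rw [mul_pow, ht, e1, map_neg, map_neg, map_mul]
      linear_combination (- algebraMap B (Dr B 0 (-δ)) (a 0)) *
        (algebraMap B (Dr B 0 (-δ)) δ * algebraMap B (Dr B 0 (-δ)) di + 1) * hal1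
    · change algebraMap B (Dr B 0 (-δ)) (a 2) * 1 ^ 2 = algebraMap B (Dr B 0 (-δ)) (a 2)
      rw [one_pow, mul_one]
    · change algebraMap B (Dr B 0 (-δ)) (a 3) * (rt 0 (-δ)) ^ 2 =
        algebraMap B (Dr B 0 (-δ)) (δ * a 3)
      rw [ht, map_mul, mul_comm]
  have h2 : ∀ j, (![1, algebraMap B (Dr B 0 (-δ)) di * rt 0 (-δ), 1, rt 0 (-δ)] :
      Fin 4 → Dr B 0 (-δ)) j * (![1, rt 0 (-δ), 1, algebraMap B (Dr B 0 (-δ)) di * rt 0 (-δ)] :
      Fin 4 → Dr B 0 (-δ)) j = 1 := by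
    intro j
    fin_cases j
    · change (1 : Dr B 0 (-δ)) * 1 = 1
      rw [one_mul]
    · change algebraMap B (Dr B 0 (-δ)) di * rt 0 (-δ) * rt 0 (-δ) = 1
      linear_combination algebraMap B (Dr B 0 (-δ)) di * ht + hal1
    · change (1 : Dr B 0 (-δ)) * 1 = 1
      rw [one_mul]
    · change rt 0 (-δ) * (algebraMap B (Dr B 0 (-δ)) di * rt 0 (-δ)) = 1
      linear_combination algebraMap B (Dr B 0 (-δ)) di * ht + hal1
  refine ⟨![1, algebraMap B (Dr B 0 (-δ)) di * rt 0 (-δ), 1, rt 0 (-δ)],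
    (sce _ _ _ _ _ h1 h2).restrictScalars k, ⟨rfl, ⟨di, rfl⟩, rfl, rfl⟩, ?_, ?_⟩
  · intro x
    exact congrArg (Ideal.Quotient.mk _) (sc_C _ x)
  · intro j
    exact (congrArg (Ideal.Quotient.mk _) (sc_X _ j)).trans (map_mul _ _ _)

end ETW_aux

open ETW_aux in
theorem t_ETW : M_ETW := by
  intro hEBC hESG k B _ _ _ a c δ hδ hδa
  obtain ⟨ea, hea1, hea2⟩ := hEBC k B a c (-δ)
  obtain ⟨e', he1, he2⟩ := hEBC k B ![a 0, - a 0, a 2, δ * a 3] c (-δ)
  obtain ⟨v, φ, ⟨hv0, ⟨d, hv1⟩, hv2, hv3⟩, hφC, hφX⟩ := phi k a c δ hδ hδa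
  obtain ⟨w', hw'⟩ := esg hESG k (fun j => algebraMap B (Dr B 0 (-δ))
    ((![a 0, - a 0, a 2, δ * a 3] : Fin 4 → B) j)) (algebraMap B (Dr B 0 (-δ)) c)
  refine ⟨(ea.trans φ).trans e'.symm, (e'.trans w').trans e'.symm, e', w', hw', ?_, ?_⟩
  · have S1 : ∀ b : B, e'.symm (Ideal.Quotient.mk _ (MvPolynomial.C (algebraMap B _ b))) =
        algebraMap (QC B ![a 0, - a 0, a 2, δ * a 3] c) _
          (Ideal.Quotient.mk _ (MvPolynomial.C b)) := by
      intro b
      rw [AlgEquiv.symm_apply_eq, he1, MvPolynomial.map_C]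
    have S2 : e'.symm (Ideal.Quotient.mk _ (MvPolynomial.C (rt 0 (-δ)))) = rt _ _ := by
      rw [AlgEquiv.symm_apply_eq, he2]
    have S3 : ∀ j, e'.symm (Ideal.Quotient.mk _ (MvPolynomial.X j)) =
        algebraMap (QC B ![a 0, - a 0, a 2, δ * a 3] c) _
          (Ideal.Quotient.mk _ (MvPolynomial.X j)) := by
      intro j
      rw [AlgEquiv.symm_apply_eq, he1, MvPolynomial.map_X]
    have E1 : ∀ b : B, ((ea.trans φ).trans e'.symm) (algebraMap (QC B a c) _
        (Ideal.Quotient.mk _ (MvPolynomial.C b))) =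
        algebraMap (QC B ![a 0, - a 0, a 2, δ * a 3] c) _
          (Ideal.Quotient.mk _ (MvPolynomial.C b)) := by
      intro b
      rw [AlgEquiv.trans_apply, AlgEquiv.trans_apply, hea1, MvPolynomial.map_C, hφC, S1]
    have E2 : ((ea.trans φ).trans e'.symm) (rt _ _) = rt _ _ := by
      rw [AlgEquiv.trans_apply, AlgEquiv.trans_apply, hea2, hφC, S2]
    have E3 : ∀ j, ((ea.trans φ).trans e'.symm) (algebraMap (QC B a c) _
        (Ideal.Quotient.mk _ (MvPolynomial.X j))) =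
        e'.symm (Ideal.Quotient.mk _ (MvPolynomial.C (v j))) *
        algebraMap (QC B ![a 0, - a 0, a 2, δ * a 3] c) _
          (Ideal.Quotient.mk _ (MvPolynomial.X j)) := by
      intro j
      rw [AlgEquiv.trans_apply, AlgEquiv.trans_apply, hea1, MvPolynomial.map_X, hφX, map_mul, S3]
    have W1 : ∀ b : B, ((e'.trans w').trans e'.symm)
        (algebraMap (QC B ![a 0, - a 0, a 2, δ * a 3] c) _
          (Ideal.Quotient.mk _ (MvPolynomial.C b))) =
        algebraMap (QC B ![a 0, - a 0, a 2, δ * a 3] c) _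
          (Ideal.Quotient.mk _ (MvPolynomial.C b)) := by
      intro b
      rw [AlgEquiv.trans_apply, AlgEquiv.trans_apply, he1, MvPolynomial.map_C, hw'.1, S1]
    have W2 : ((e'.trans w').trans e'.symm) (rt _ _) = rt _ _ := by
      rw [AlgEquiv.trans_apply, AlgEquiv.trans_apply, he2, hw'.1, S2]
    have W3 : ∀ j, ((e'.trans w').trans e'.symm)
        (algebraMap (QC B ![a 0, - a 0, a 2, δ * a 3] c) _
          (Ideal.Quotient.mk _ (MvPolynomial.X j))) =
        (![1, -1, 1, -1] : Fin 4 → ℤ) j • algebraMap (QC B ![a 0, - a 0, a 2, δ * a 3] c) _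
          (Ideal.Quotient.mk _ (MvPolynomial.X j)) := by
      intro j
      rw [AlgEquiv.trans_apply, AlgEquiv.trans_apply, he1, MvPolynomial.map_X, hw'.2, map_zsmul,
        S3]
    generalize (ea.trans φ).trans e'.symm = e at E1 E2 E3 ⊢
    generalize (e'.trans w').trans e'.symm = w at W1 W2 W3 ⊢
    have D2 : w (dinv _ _ k (rt _ _)) = - rt _ _ := by
      rw [dinv_rt, map_zero, neg_zero, zero_sub, map_neg w, W2]
    have D1 : ∀ b : B, w (dinv _ _ k (algebraMap (QC B ![a 0, - a 0, a 2, δ * a 3] c) _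
          (Ideal.Quotient.mk _ (MvPolynomial.C b)))) =
        algebraMap (QC B ![a 0, - a 0, a 2, δ * a 3] c) _
          (Ideal.Quotient.mk _ (MvPolynomial.C b)) := by
      intro b
      rw [dinv_of, W1]
    have D3 : ∀ j, w (dinv _ _ k (algebraMap (QC B ![a 0, - a 0, a 2, δ * a 3] c) _
          (Ideal.Quotient.mk _ (MvPolynomial.X j)))) =
        (![1, -1, 1, -1] : Fin 4 → ℤ) j • algebraMap (QC B ![a 0, - a 0, a 2, δ * a 3] c) _
          (Ideal.Quotient.mk _ (MvPolynomial.X j)) := by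
      intro j
      rw [dinv_of, W3]
    have H := ETW_aux.ext
      (e.toRingEquiv.toRingHom.comp
        (dinv (0 : QC B a c) (Ideal.Quotient.mk _ (MvPolynomial.C (-δ))) k).toRingEquiv.toRingHom)
      (w.toRingEquiv.toRingHom.comp
        ((dinv (0 : QC B ![a 0, - a 0, a 2, δ * a 3] c)
          (Ideal.Quotient.mk _ (MvPolynomial.C (-δ))) k).toRingEquiv.toRingHom.comp
          e.toRingEquiv.toRingHom)) ?_ ?_ ?_
    · intro x
      exact RingHom.congr_fun H x
    · intro b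
      change e (dinv _ _ k _) = w (dinv _ _ k (e _))
      rw [dinv_of, E1, D1]
    · intro j
      change e (dinv _ _ k _) = w (dinv _ _ k (e _))
      rw [dinv_of, E3, map_mul, map_mul, D3]
      fin_cases j
      · change _ = _ * ((1 : ℤ) • _)
        rw [one_smul]
        change e'.symm (Ideal.Quotient.mk _ (MvPolynomial.C (v 0))) * _ =
          w (dinv _ _ k (e'.symm (Ideal.Quotient.mk _ (MvPolynomial.C (v 0))))) * _
        rw [hv0, map_one, map_one, map_one, map_one, map_one]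
      · change _ = _ * ((-1 : ℤ) • _)
        rw [neg_smul, one_smul]
        change e'.symm (Ideal.Quotient.mk _ (MvPolynomial.C (v 1))) * _ =
          w (dinv _ _ k (e'.symm (Ideal.Quotient.mk _ (MvPolynomial.C (v 1))))) * _
        rw [hv1, map_mul, map_mul, map_mul, S1, S2, map_mul, map_mul, D1, D2]
        ring
      · change _ = _ * ((1 : ℤ) • _)
        rw [one_smul]
        change e'.symm (Ideal.Quotient.mk _ (MvPolynomial.C (v 2))) * _ =
          w (dinv _ _ k (e'.symm (Ideal.Quotient.mk _ (MvPolynomial.C (v 2))))) * _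
        rw [hv2, map_one, map_one, map_one, map_one, map_one]
      · change _ = _ * ((-1 : ℤ) • _)
        rw [neg_smul, one_smul]
        change e'.symm (Ideal.Quotient.mk _ (MvPolynomial.C (v 3))) * _ =
          w (dinv _ _ k (e'.symm (Ideal.Quotient.mk _ (MvPolynomial.C (v 3))))) * _
        rw [hv3, S2, D2]
        ring
    · change e (dinv _ _ k _) = w (dinv _ _ k (e _))
      rw [dinv_rt, map_zero, neg_zero, zero_sub, map_neg e, E2, D2]
  · intro x
    rw [AlgEquiv.trans_apply, AlgEquiv.trans_apply, AlgEquiv.apply_symm_apply]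

end QCV
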