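import Pool.Agent.QCV.StE1

/-!
# QCV, block E: quadratic forms in an even number of variables, the induction
-/

set_option autoImplicit false

open Polynomial

namespace QCV

open CUB

namespace EVI

variable {k : Type} [Field k]
  {P : ∀ (A : Type) [CommRing A] [Algebra k A] [Algebra.FiniteType k A], Prop}

/-- the value at zero -/
noncomputable def ev0 (k S : Type) [Field k] [CommRing S] [Algebra k S] : S[X] →ₐ[k] S :=
  (Polynomial.aeval (0 : S)).restrictScalars k

lemma ev0_surj (S : Type) [CommRing S] [Algebra k S] : Function.Surjective (ev0 k S) := by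
  intro s
  refine ⟨C s, ?_⟩
  change Polynomial.aeval (0 : S) (C s) = s
  rw [Polynomial.aeval_C]
  rfl

lemma ev0_ker (S : Type) [CommRing S] [Algebra k S] :
    RingHom.ker (ev0 k S).toRingHom = Ideal.span {(X : S[X])} := by
  ext p
  rw [RingHom.mem_ker, Ideal.mem_span_singleton, Polynomial.X_dvd_iff]
  change Polynomial.aeval (0 : S) p = 0 ↔ _
  rw [Polynomial.coeff_zero_eq_aeval_zero]

/-- the punctured line -/
lemma punct (hP : Cls0 k P)
    (hl : ∀ (A : Type) [CommRing A] [Algebra k A] [Algebra.FiniteType k A], P A → P A[X])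
    (S : Type) [CommRing S] [Algebra k S] [Algebra.FiniteType k S] (h : P S) :
    P (Localization.Away (X : S[X])) :=
  hP.opn (X : S[X]) (ev0 k S) (awayHom k (X : S[X]))
    ⟨ev0_surj S, ev0_ker S, isLocalization_awayHom _⟩ (hl S h) h

/-- the double point of the line -/
lemma dpoint (hP : Cls0 k P) (S : Type) [CommRing S] [Algebra k S] [Algebra.FiniteType k S]
    (h : P S) : P (S[X] ⧸ Ideal.span {(X : S[X]) ^ 2}) := by
  have hle : Ideal.span {(X : S[X]) ^ 2} ≤ RingHom.ker (ev0 k S).toRingHom := by
    rw [ev0_ker, Ideal.span_singleton_le_span_singleton]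
    exact dvd_pow_self _ two_ne_zero
  let q : (S[X] ⧸ Ideal.span {(X : S[X]) ^ 2}) →ₐ[k] S :=
    Ideal.Quotient.liftₐ _ (ev0 k S) fun a ha => hle ha
  have hq : ∀ p : S[X], q (Ideal.Quotient.mk _ p) = ev0 k S p := fun p => rfl
  let x : S[X] ⧸ Ideal.span {(X : S[X]) ^ 2} := Ideal.Quotient.mk _ X
  have hx : x ^ 2 = 0 := by
    change (Ideal.Quotient.mk _ X) ^ 2 = 0
    rw [← map_pow, Ideal.Quotient.eq_zero_iff_mem]
    exact Ideal.subset_span rfl
  refine hP.glue x q (awayHom k x) ⟨?_, ?_, isLocalization_awayHom _⟩ h (hP.triv _ ?_)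
  · intro s
    obtain ⟨p, hp⟩ := ev0_surj (k := k) S s
    exact ⟨Ideal.Quotient.mk _ p, (hq p).trans hp⟩
  · apply le_antisymm
    · intro y hy
      obtain ⟨p, rfl⟩ := Ideal.Quotient.mk_surjective y
      have h1 : ev0 k S p = 0 := hy
      have h2 : p ∈ RingHom.ker (ev0 k S).toRingHom := h1
      rw [ev0_ker, Ideal.mem_span_singleton] at h2
      obtain ⟨r, rfl⟩ := h2
      rw [Ideal.mem_span_singleton, map_mul]
      exact ⟨_, rfl⟩
    · rw [Ideal.span_le]
      rintro _ rfl
      change ev0 k S X = 0
      have h2 : (X : S[X]) ∈ RingHom.ker (ev0 k S).toRingHom := by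
        rw [ev0_ker]
        exact Ideal.subset_span rfl
      exact h2
  · have h3 : IsUnit (algebraMap _ (Localization.Away x) x) :=
      IsLocalization.Away.algebraMap_isUnit x
    have h4 : (0 : Localization.Away x) = algebraMap _ (Localization.Away x) x ^ 2 := by
      rw [← map_pow, hx, map_zero]
    have h5 : IsUnit (0 : Localization.Away x) := by
      rw [h4]
      exact h3.pow 2
    exact isUnit_zero_iff.1 h5 |> fun h6 => subsingleton_of_zero_eq_one h6

lemma dr_congr {A : Type} [CommRing A] [Algebra k A] [Algebra.FiniteType k A] {c c' : A}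
    (h : c = c') (hD : P (Dr A 0 c)) : P (Dr A 0 c') := by
  subst h
  exact hD

lemma qc_congr {B : Type} [CommRing B] [Algebra k B] [Algebra.FiniteType k B] {a a' : Fin 4 → B}
    {c c' : B} (h : a = a') (h' : c = c') (hD : P (QC B a c)) : P (QC B a' c') := by
  subst h
  subst h'
  exact hD

lemma prod_two {A : Type} [CommRing A] (n : ℕ) (a : Fin (n + 2) → A) :
    ∏ j, a j = a 0 * (a 1 * ∏ j : Fin n, a j.succ.succ) := by
  rw [Fin.prod_univ_succ, Fin.prod_univ_succ]
  rfl

/-- the product of the first four coefficients and the others -/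
lemma prod_four {A : Type} [CommRing A] (n : ℕ) (a : Fin (n + 4) → A) :
    ∏ j, a j = a 0 * a 1 * a 2 * a 3 * ∏ j : Fin n, a j.succ.succ.succ.succ := by
  rw [Fin.prod_univ_succ, Fin.prod_univ_succ, Fin.prod_univ_succ, Fin.prod_univ_succ]
  change a 0 * (a 1 * (a 2 * (a 3 * _))) = _
  simp only [mul_assoc]

end EVI

open EVI in
theorem t_EVI : M_EVI := by
  intro hEQI hEH2 hEE1 hEDU k _ P h2 hP hl hd hTw A _ _ _ m
  have hA : ∀ c : A, P (Dr A 0 c) → P A := fun c h => hd A 0 c h
  induction m with
  | zero =>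
    intro a _ hD
    have h0 : (dia a : MvPolynomial (Fin (2 * 0)) A) = 0 := by
      unfold dia
      exact Finset.sum_eq_zero fun j _ => (Fin.elim0 j : _)
    have h1 := (Asm.s_PLY k P hP hl A 0).2.1 PUnit (fun _ => dia a) (fun _ => h0) (hA _ hD)
    have e : Ideal.span (Set.range fun _ : PUnit => (dia a : MvPolynomial (Fin (2 * 0)) A)) =
        Ideal.span {dia a} := by
      rw [Set.range_const]
    exact hP.iso (Ideal.quotientEquivAlgOfEq k e) h1
  | succ m ih =>
    cases m with
    | zero =>
      intro a ha hD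
      obtain ⟨z, u, hs⟩ := hEE1 k A a ha
      refine hP.glue _ z u hs (dpoint hP A (hA _ hD)) (punct hP hl _ ?_)
      have e : (-1 : A) ^ (0 + 1 + 1) * ∏ j, a j = a 0 * a 1 := by
        have h3 : ∏ j, a j = a 0 * a 1 := Fin.prod_univ_two a
        rw [h3]
        ring
      exact dr_congr e hD
    | succ m =>
      intro a ha hD
      obtain ⟨v, hv⟩ := (ha 0).exists_right_inv
      -- the coefficients
      let b : Fin (2 * m + 4) → A := a
      have hb : ∀ j, IsUnit (b j) := ha
      change b 0 * v = 1 at hv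
      let δ : A := - (b 1 * v)
      have hδu : IsUnit δ := ((hb 1).mul (IsUnit.of_mul_eq_one_right (b 0) hv)).neg
      have hδ : δ * b 0 = - b 1 := by
        change - (b 1 * v) * b 0 = - b 1
        linear_combination (- b 1) * hv
      let b' : Fin (2 * m + 4) → A := fun j =>
        if j.1 = 1 then - b 0 else if j.1 = 3 then δ * b 3 else b j
      have h0' : b' 0 = b 0 := rfl
      have h1' : b' 1 = - b 0 := rfl
      have h2' : b' 2 = b 2 := rfl
      have h3' : b' 3 = δ * b 3 := rfl
      have h4' : ∀ j : Fin (2 * m), b' j.succ.succ.succ.succ = b j.succ.succ.succ.succ := by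
        intro j
        change (if (j.1 + 1 + 1 + 1 + 1 : ℕ) = 1 then _ else if (j.1 + 1 + 1 + 1 + 1 : ℕ) = 3 then _
          else _) = _
        rw [if_neg (by omega), if_neg (by omega)]
      have hb' : ∀ j, IsUnit (b' j) := by
        intro j
        change IsUnit (if j.1 = 1 then - b 0 else if j.1 = 3 then δ * b 3 else b j)
        split_ifs
        · exact (hb 0).neg
        · exact hδu.mul (hb 3)
        · exact hb j
      have hprod : ∏ j, b' j = ∏ j, b j := by
        rw [prod_four, prod_four, h0', h1', h2', h3']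
        simp only [h4']
        linear_combination (- b 0 * b 2 * b 3 * ∏ j : Fin (2 * m), b j.succ.succ.succ.succ) * hδ
      -- the cone of `b'`
      have hcone : P (MvPolynomial (Fin (2 * (m + 2))) A ⧸
          Ideal.span {dia (b' : Fin (2 * (m + 2)) → A)}) := by
        obtain ⟨s, z, u, hs⟩ := hEH2 k A (2 * (m + 1)) b' h2 (hb' 0) rfl
        refine hP.glue s z u hs (hl _ (ih (fun j => b' j.succ.succ) (fun j => hb' _) ?_))
          (punct hP hl _ ((Asm.s_PLY k P hP hl A _).1 (hA _ hD)))
        obtain ⟨e⟩ := hEDU k A ((-1) ^ (m + 1 + 1) * ∏ j : Fin (2 * (m + 1)), b' j.succ.succ) (b 0)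
          (hb 0)
        refine hP.iso e.symm (dr_congr ?_ hD)
        have h5 : ∏ j, a j = b' 0 * (b' 1 * ∏ j : Fin (2 * (m + 1)), b' j.succ.succ) :=
          hprod.symm.trans (prod_two (2 * (m + 1)) b')
        rw [h5, h0', h1']
        ring
      obtain ⟨e1⟩ := hEQI k A m a
      obtain ⟨e2⟩ := hEQI k A m b'
      refine hP.iso e1.symm (hTw _ _ _ (MvPolynomial.C δ) ?_ ?_ ?_ ?_)
      · intro j
        exact (ha _).map MvPolynomial.C
      · exact hδu.map MvPolynomial.C
      · change MvPolynomial.C δ * MvPolynomial.C (b 0) = - MvPolynomial.C (b 1)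
        rw [← map_mul, hδ, map_neg]
      · refine qc_congr ?_ ?_ (hP.iso e2 hcone)
        · funext j
          fin_cases j
          · rfl
          · change MvPolynomial.C (- b 0) = - MvPolynomial.C (b 0)
            rw [map_neg]
          · rfl
          · change MvPolynomial.C (δ * b 3) = MvPolynomial.C δ * MvPolynomial.C (b 3)
            rw [map_mul]
        · congr 1

end QCV
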