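import Pool.Agent.QCV.StO

/-!
# QCV, block O, module QSW (helper91)
-/

set_option autoImplicit false

open Polynomial

namespace QCV

open CUB

theorem t_QSW : S_QSW := by
  intro k R _ _ _ n q f
  let e : MvPolynomial (Fin q) (MvPolynomial (Fin n) R) ≃ₐ[k]
      MvPolynomial (Fin n) (MvPolynomial (Fin q) R) :=
    (MvPolynomial.commAlgEquiv R (Fin q) (Fin n)).restrictScalars k
  have he : e (fs f) = gen f := by
    change MvPolynomial.commAlgEquiv R (Fin q) (Fin n) (fs f) = _
    unfold fs gen
    rw [map_add, map_sum, MvPolynomial.commAlgEquiv_C]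
    congr 1
    apply Finset.sum_congr rfl
    intro j _
    rw [map_mul, MvPolynomial.commAlgEquiv_C, MvPolynomial.commAlgEquiv_X]
  refine ⟨Ideal.quotientEquivAlg _ _ e ?_⟩
  rw [Ideal.map_span, Set.image_singleton, Set.range_const]
  exact congrArg (fun z => Ideal.span {z}) he.symm

end QCV
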