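import Pool.Agent.QCV.StE1
import Pool.Agent.QCV.Asm
import Pool.Agent.QCV.O_QSW

/-!
# QCV, module EVS
-/

set_option autoImplicit false

open Polynomial

namespace QCV

open CUB

namespace EVS

lemma gen_homog {R : Type} [CommRing R] {n q : ℕ} (f : Fin (q + 1) → MvPolynomial (Fin n) R)
    (h : ∀ j, (f j).IsHomogeneous 2) : (gen f).IsHomogeneous 2 := by
  unfold gen
  refine MvPolynomial.IsHomogeneous.add ((h 0).map _) ?_
  refine MvPolynomial.IsHomogeneous.sum _ _ _ fun j _ => ?_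
  exact ((h j.succ).map _).C_mul _

end EVS

theorem t_EVS : M_EVS := by
  intro hEOD k _ P d h2 hP hE R _ _ _ _ m q e f hed hqe hDL hf hdet hD
  have hS' : P (MvPolynomial (Fin q) (MvPolynomial (Fin (2 * m)) R)) :=
    (Asm.s_PLY k P hP.toCls0 hP.line _ q).1 ((Asm.s_PLY k P hP.toCls0 hP.line R (2 * m)).1
      (hP.base R (hDL.mono hed)))
  have hB : DL k (MvPolynomial (Fin q) R) (d + 1) :=
    (Asm.s_DLM k R e q hDL).mono (by omega)
  have hPB : P (MvPolynomial (Fin q) R) :=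
    (Asm.s_PLY k P hP.toCls0 hP.line R q).1 (hP.base R (hDL.mono hed))
  obtain ⟨e1⟩ := t_QSW k R (2 * m) q f
  have h1 : P (MvPolynomial (Fin q) (MvPolynomial (Fin (2 * m)) R) ⧸ Ideal.span {fs f}) :=
    hP.iso e1.symm (hEOD k P d h2 hP hE (MvPolynomial (Fin q) R) m (gen f) hB hPB
      (EVS.gen_homog f hf) hdet hD)
  have h3 := Asm.s_V1P k P hP.toCls0 hP.line (MvPolynomial (Fin q) (MvPolynomial (Fin (2 * m)) R))
    (fs f) hS' h1
  have h4 := Asm.s_VRP k P d e (2 * m) q hP hed (by omega) R (fun j : Fin q => f j.succ) hDL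
    (fun j => (hf _).totalDegree_le)
  obtain ⟨z', u', hs⟩ := Asm.s_VRQ k (MvPolynomial (Fin (2 * m)) R) q f
  exact hP.glue _ z' u' hs h4 h3

end QCV
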