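import Pool.Agent.QCV.StU1

/-!
# QCV, UDT: the discriminant of `g x_0 ^ 2 + u_1 v_1 + ... + u_s v_s` is not zero.
-/

set_option autoImplicit false

namespace QCV

open MvPolynomial in
/-- The matrix of second derivatives of a product of two variables. -/
theorem udt_mon {B : Type} [CommRing B] {n : ℕ} (c : B) (a b i j : Fin n) :
    lgram (C c * (X a * X b)) i j =
      c * ((if j = a then (if i = b then 1 else 0) else 0) +
        (if j = b then (if i = a then 1 else 0) else 0)) := by
  unfold lgram
  rw [pderiv_C_mul, pderiv_C_mul, pderiv_mul, pderiv_X, pderiv_X, Pi.single_apply, Pi.single_apply]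
  have e1 : (if a = j then (1 : MvPolynomial (Fin n) B) else 0) * X b +
      X a * (if b = j then 1 else 0) =
      C (if j = a then 1 else 0) * X b + C (if j = b then 1 else 0) * X a := by
    by_cases h1 : j = a
    · by_cases h2 : j = b
      · rw [if_pos h1.symm, if_pos h2.symm, if_pos h1, if_pos h2]; simp
      · rw [if_pos h1.symm, if_neg (fun h => h2 h.symm), if_pos h1, if_neg h2]; simp
    · by_cases h2 : j = b
      · rw [if_neg (fun h => h1 h.symm), if_pos h2.symm, if_neg h1, if_pos h2]; simp
      · rw [if_neg (fun h => h1 h.symm), if_neg (fun h => h2 h.symm), if_neg h1, if_neg h2]; simp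
  rw [e1, map_add, pderiv_C_mul, pderiv_C_mul, pderiv_X, pderiv_X, Pi.single_apply,
    Pi.single_apply, coeff_C_mul, coeff_add, coeff_C_mul, coeff_C_mul]
  have e2 : ∀ x y : Fin n, coeff 0 (if x = y then (1 : MvPolynomial (Fin n) B) else 0) =
      if y = x then 1 else 0 := by
    intro x y
    by_cases h1 : x = y
    · rw [if_pos h1, if_pos h1.symm, coeff_zero_one]
    · rw [if_neg h1, if_neg (fun h => h1 h.symm), coeff_zero]
  rw [e2, e2]
  congr 1
  congr 1
  · by_cases h1 : j = a
    · rw [if_pos h1, if_pos h1, one_mul]
    · rw [if_neg h1, if_neg h1, zero_mul]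
  · by_cases h1 : j = b
    · rw [if_pos h1, if_pos h1, one_mul]
    · rw [if_neg h1, if_neg h1, zero_mul]

theorem udt_add {B : Type} [CommRing B] {n : ℕ} (f g : MvPolynomial (Fin n) B) (i j : Fin n) :
    lgram (f + g) i j = lgram f i j + lgram g i j := by
  unfold lgram
  simp

theorem udt_sum {B : Type} [CommRing B] {n : ℕ} {ι : Type} (t : Finset ι)
    (f : ι → MvPolynomial (Fin n) B) (i j : Fin n) :
    lgram (∑ l ∈ t, f l) i j = ∑ l ∈ t, lgram (f l) i j := by
  unfold lgram
  simp [MvPolynomial.coeff_sum]

/-- The entries of the matrix. -/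
theorem udt_entry {B : Type} [CommRing B] (g : B) (s : ℕ) (i j : Fin (1 + 2 * s)) :
    lgram (hyp (MvPolynomial.C g * MvPolynomial.X 0 ^ 2 : MvPolynomial (Fin 1) B) s) i j =
      g * ((if j = ⟨0, by omega⟩ then (if i = ⟨0, by omega⟩ then 1 else 0) else 0) +
        (if j = ⟨0, by omega⟩ then (if i = ⟨0, by omega⟩ then 1 else 0) else 0)) +
      ∑ l : Fin s, ((if j = ⟨1 + 2 * l.1, by omega⟩ then
          (if i = ⟨1 + 2 * l.1 + 1, by omega⟩ then 1 else 0) else 0) +
        (if j = ⟨1 + 2 * l.1 + 1, by omega⟩ then
          (if i = ⟨1 + 2 * l.1, by omega⟩ then 1 else 0) else 0)) := by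
  unfold hyp
  rw [udt_add, udt_sum]
  congr 1
  · have h : MvPolynomial.rename (Fin.castAdd (2 * s))
        (MvPolynomial.C g * MvPolynomial.X 0 ^ 2 : MvPolynomial (Fin 1) B) =
        MvPolynomial.C g * (MvPolynomial.X ⟨0, by omega⟩ * MvPolynomial.X ⟨0, by omega⟩) := by
      simp only [map_mul, map_pow, MvPolynomial.rename_C, MvPolynomial.rename_X]
      rw [sq]
      rfl
    rw [h, udt_mon]
  · refine Finset.sum_congr rfl fun l _ => ?_
    have h := udt_mon (1 : B) (⟨1 + 2 * l.1, by omega⟩ : Fin (1 + 2 * s))
      ⟨1 + 2 * l.1 + 1, by omega⟩ i j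
    rw [MvPolynomial.C_1, one_mul, one_mul] at h
    exact h

theorem t_UDT : S_UDT := by
  intro B _ _ g s h2 hg hdet
  obtain ⟨v, hv, hMv⟩ := (Matrix.exists_mulVec_eq_zero_iff).2 hdet
  apply hv
  have key : ∀ i : Fin (1 + 2 * s),
      g * ((if i = ⟨0, by omega⟩ then v ⟨0, by omega⟩ else 0) +
        (if i = ⟨0, by omega⟩ then v ⟨0, by omega⟩ else 0)) +
      ∑ l : Fin s, ((if i = ⟨1 + 2 * l.1 + 1, by omega⟩ then v ⟨1 + 2 * l.1, by omega⟩ else 0) +
        (if i = ⟨1 + 2 * l.1, by omega⟩ then v ⟨1 + 2 * l.1 + 1, by omega⟩ else 0)) = 0 := by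
    intro i
    have h := congrFun hMv i
    rw [Matrix.mulVec, dotProduct, Pi.zero_apply] at h
    refine Eq.trans ?_ h
    simp_rw [udt_entry, add_mul, Finset.sum_mul, Finset.sum_add_distrib, mul_add, add_mul]
    simp_rw [Finset.sum_add_distrib]
    rw [Finset.sum_comm (s := Finset.univ) (t := Finset.univ)
      (f := fun (j : Fin (1 + 2 * s)) (l : Fin s) =>
        (if j = ⟨1 + 2 * l.1, by omega⟩ then
          (if i = ⟨1 + 2 * l.1 + 1, by omega⟩ then (1 : B) else 0) else 0) * v j)]
    rw [Finset.sum_comm (s := Finset.univ) (t := Finset.univ)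
      (f := fun (j : Fin (1 + 2 * s)) (l : Fin s) =>
        (if j = ⟨1 + 2 * l.1 + 1, by omega⟩ then
          (if i = ⟨1 + 2 * l.1, by omega⟩ then (1 : B) else 0) else 0) * v j)]
    simp only [mul_ite, ite_mul, mul_one, mul_zero, zero_mul, one_mul, Finset.sum_ite_eq',
      Finset.mem_univ, if_true]
  funext i
  rw [Pi.zero_apply]
  obtain ⟨i, hi⟩ := i
  rcases Nat.eq_zero_or_pos i with h0 | h0
  · subst h0
    have h := key ⟨0, by omega⟩
    rw [Finset.sum_eq_zero] at h
    · rw [if_pos rfl, add_zero, ← two_mul, ← mul_assoc] at h
      rcases mul_eq_zero.1 h with h | h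
      · rcases mul_eq_zero.1 h with h | h
        · exact absurd h hg
        · exact absurd h h2
      · exact h
    · intro l _
      rw [if_neg, if_neg, add_zero]
      · intro hh
        have := congrArg Fin.val hh
        simp only at this
        omega
      · intro hh
        have := congrArg Fin.val hh
        simp only at this
        omega
  · rcases Nat.even_or_odd' i with ⟨m, hm | hm⟩
    · -- `i = 2 m = 1 + 2 (m - 1) + 1`, look at the row `1 + 2 (m - 1)`
      obtain ⟨m, rfl⟩ : ∃ m', m = m' + 1 := ⟨m - 1, by omega⟩
      subst hm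
      have h := key ⟨1 + 2 * m, by omega⟩
      rw [Finset.sum_eq_single (⟨m, by omega⟩ : Fin s)] at h
      · rw [if_neg, add_zero, mul_zero, zero_add, if_neg, zero_add, if_pos rfl] at h
        · have e : (⟨2 * (m + 1), hi⟩ : Fin (1 + 2 * s)) = ⟨1 + 2 * m + 1, by omega⟩ := by
            apply Fin.ext
            simp only
            omega
          rw [e]
          exact h
        · intro hh
          have := congrArg Fin.val hh
          simp only at this
          omega
        · intro hh
          have := congrArg Fin.val hh
          simp only at this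
          omega
      · intro l _ hl
        rw [if_neg, if_neg, add_zero]
        · intro hh
          apply hl
          have := congrArg Fin.val hh
          simp only at this
          apply Fin.ext
          simp only
          omega
        · intro hh
          have := congrArg Fin.val hh
          simp only at this
          omega
      · intro hh
        exact absurd (Finset.mem_univ _) hh
    · -- `i = 2 m + 1`, look at the row `1 + 2 m + 1`
      subst hm
      have h := key ⟨1 + 2 * m + 1, by omega⟩
      rw [Finset.sum_eq_single (⟨m, by omega⟩ : Fin s)] at h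
      · rw [if_neg, add_zero, mul_zero, zero_add, if_pos rfl, if_neg, add_zero] at h
        · have e : (⟨2 * m + 1, hi⟩ : Fin (1 + 2 * s)) = ⟨1 + 2 * m, by omega⟩ := by
            apply Fin.ext
            simp only
            omega
          rw [e]
          exact h
        · intro hh
          have := congrArg Fin.val hh
          simp only at this
          omega
        · intro hh
          have := congrArg Fin.val hh
          simp only at this
          omega
      · intro l _ hl
        rw [if_neg, if_neg, add_zero]
        · intro hh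
          have := congrArg Fin.val hh
          simp only at this
          omega
        · intro hh
          apply hl
          have := congrArg Fin.val hh
          simp only at this
          apply Fin.ext
          simp only
          omega
      · intro hh
        exact absurd (Finset.mem_univ _) hh

end QCV
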