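import Pool.Agent.QCV.StE1
import Pool.Agent.QCV.U_UDT

/-!
# QCV, UD2: the discriminant of `x_0 ^ 2 - g x_1 ^ 2 + u_1 v_1 + ... + u_s v_s` is not zero.
-/

set_option autoImplicit false

namespace QCV

/-- The entries of the matrix. -/
theorem ud2_entry {B : Type} [CommRing B] (g : B) (s : ℕ) (i j : Fin (2 + 2 * s)) :
    lgram (hyp (MvPolynomial.X 0 ^ 2 - MvPolynomial.C g * MvPolynomial.X 1 ^ 2 :
      MvPolynomial (Fin 2) B) s) i j =
      (1 * ((if j = ⟨0, by omega⟩ then (if i = ⟨0, by omega⟩ then 1 else 0) else 0) +
        (if j = ⟨0, by omega⟩ then (if i = ⟨0, by omega⟩ then 1 else 0) else 0)) +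
      (-g) * ((if j = ⟨1, by omega⟩ then (if i = ⟨1, by omega⟩ then 1 else 0) else 0) +
        (if j = ⟨1, by omega⟩ then (if i = ⟨1, by omega⟩ then 1 else 0) else 0))) +
      ∑ l : Fin s, ((if j = ⟨2 + 2 * l.1, by omega⟩ then
          (if i = ⟨2 + 2 * l.1 + 1, by omega⟩ then 1 else 0) else 0) +
        (if j = ⟨2 + 2 * l.1 + 1, by omega⟩ then
          (if i = ⟨2 + 2 * l.1, by omega⟩ then 1 else 0) else 0)) := by
  unfold hyp
  rw [udt_add, udt_sum]
  congr 1
  · have h : MvPolynomial.rename (Fin.castAdd (2 * s))
        (MvPolynomial.X 0 ^ 2 - MvPolynomial.C g * MvPolynomial.X 1 ^ 2 : MvPolynomial (Fin 2) B) =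
        MvPolynomial.C 1 * (MvPolynomial.X ⟨0, by omega⟩ * MvPolynomial.X ⟨0, by omega⟩) +
        MvPolynomial.C (-g) * (MvPolynomial.X ⟨1, by omega⟩ * MvPolynomial.X ⟨1, by omega⟩) := by
      simp only [map_sub, map_mul, map_pow, MvPolynomial.rename_C, MvPolynomial.rename_X]
      rw [sq, sq, MvPolynomial.C_1, one_mul, MvPolynomial.C_neg, neg_mul, sub_eq_add_neg]
      rfl
    rw [h, udt_add, udt_mon, udt_mon]
  · refine Finset.sum_congr rfl fun l _ => ?_
    have h := udt_mon (1 : B) (⟨2 + 2 * l.1, by omega⟩ : Fin (2 + 2 * s))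
      ⟨2 + 2 * l.1 + 1, by omega⟩ i j
    rw [MvPolynomial.C_1, one_mul, one_mul] at h
    exact h

theorem t_UD2 : S_UD2 := by
  intro B _ _ g s h2 hg hdet
  obtain ⟨v, hv, hMv⟩ := (Matrix.exists_mulVec_eq_zero_iff).2 hdet
  apply hv
  have key : ∀ i : Fin (2 + 2 * s),
      (((if i = ⟨0, by omega⟩ then v ⟨0, by omega⟩ else 0) +
        (if i = ⟨0, by omega⟩ then v ⟨0, by omega⟩ else 0)) +
      (-g) * ((if i = ⟨1, by omega⟩ then v ⟨1, by omega⟩ else 0) +
        (if i = ⟨1, by omega⟩ then v ⟨1, by omega⟩ else 0))) +
      ∑ l : Fin s, ((if i = ⟨2 + 2 * l.1 + 1, by omega⟩ then v ⟨2 + 2 * l.1, by omega⟩ else 0) +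
        (if i = ⟨2 + 2 * l.1, by omega⟩ then v ⟨2 + 2 * l.1 + 1, by omega⟩ else 0)) = 0 := by
    intro i
    have h := congrFun hMv i
    rw [Matrix.mulVec, dotProduct, Pi.zero_apply] at h
    refine Eq.trans ?_ h
    simp_rw [ud2_entry, one_mul, add_mul, Finset.sum_mul, Finset.sum_add_distrib, mul_add, add_mul]
    simp_rw [Finset.sum_add_distrib]
    rw [Finset.sum_comm (s := Finset.univ) (t := Finset.univ)
      (f := fun (j : Fin (2 + 2 * s)) (l : Fin s) =>
        (if j = ⟨2 + 2 * l.1, by omega⟩ then
          (if i = ⟨2 + 2 * l.1 + 1, by omega⟩ then (1 : B) else 0) else 0) * v j)]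
    rw [Finset.sum_comm (s := Finset.univ) (t := Finset.univ)
      (f := fun (j : Fin (2 + 2 * s)) (l : Fin s) =>
        (if j = ⟨2 + 2 * l.1 + 1, by omega⟩ then
          (if i = ⟨2 + 2 * l.1, by omega⟩ then (1 : B) else 0) else 0) * v j)]
    simp only [mul_ite, ite_mul, mul_one, mul_zero, zero_mul, one_mul, Finset.sum_ite_eq',
      Finset.mem_univ, if_true]
  have kz : ∀ i : Fin (2 + 2 * s), i.1 < 2 →
      ∑ l : Fin s, ((if i = ⟨2 + 2 * l.1 + 1, by omega⟩ then v ⟨2 + 2 * l.1, by omega⟩ else 0) +
        (if i = ⟨2 + 2 * l.1, by omega⟩ then v ⟨2 + 2 * l.1 + 1, by omega⟩ else 0)) = 0 := by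
    intro i hi
    refine Finset.sum_eq_zero fun l _ => ?_
    rw [if_neg, if_neg, add_zero]
    · intro hh
      have := congrArg Fin.val hh
      simp only at this
      omega
    · intro hh
      have := congrArg Fin.val hh
      simp only at this
      omega
  funext i
  rw [Pi.zero_apply]
  obtain ⟨i, hi⟩ := i
  rcases Nat.lt_or_ge i 2 with h0 | h0
  · rcases Nat.eq_zero_or_pos i with h00 | h00
    · subst h00
      have h := key ⟨0, by omega⟩
      rw [kz _ (by simp), if_pos rfl, if_neg (by simp [Fin.ext_iff]), add_zero, add_zero, mul_zero,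
        add_zero, ← two_mul] at h
      rcases mul_eq_zero.1 h with h | h
      · exact absurd h h2
      · exact h
    · obtain rfl : i = 1 := by omega
      have h := key ⟨1, by omega⟩
      rw [kz _ (by simp), if_neg (by simp [Fin.ext_iff]), if_pos rfl, add_zero, add_zero, zero_add,
        ← two_mul, neg_mul, neg_eq_zero] at h
      rcases mul_eq_zero.1 h with h | h
      · exact absurd h hg
      · rcases mul_eq_zero.1 h with h | h
        · exact absurd h h2
        · exact h
  · have kf : ∀ m : ℕ, ∀ hm : 2 + 2 * m < 2 + 2 * s, ∀ hm' : 2 + 2 * m + 1 < 2 + 2 * s,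
        v ⟨2 + 2 * m, hm⟩ = 0 ∧ v ⟨2 + 2 * m + 1, hm'⟩ = 0 := by
      intro m hm hm'
      constructor
      · have h := key ⟨2 + 2 * m + 1, by omega⟩
        rw [Finset.sum_eq_single (⟨m, by omega⟩ : Fin s)] at h
        · rw [if_neg, if_neg, if_pos rfl, if_neg, add_zero, add_zero, mul_zero, add_zero,
            zero_add] at h
          · exact h
          all_goals
            intro hh
            have := congrArg Fin.val hh
            simp only at this
            omega
        · intro l _ hl
          rw [if_neg, if_neg, add_zero]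
          · intro hh
            have := congrArg Fin.val hh
            simp only at this
            omega
          · intro hh
            apply hl
            have := congrArg Fin.val hh
            simp only at this
            apply Fin.ext
            simp only
            omega
        · intro hh
          exact absurd (Finset.mem_univ _) hh
      · have h := key ⟨2 + 2 * m, by omega⟩
        rw [Finset.sum_eq_single (⟨m, by omega⟩ : Fin s)] at h
        · rw [if_neg, if_neg, if_neg, if_pos rfl, add_zero, mul_zero, add_zero, zero_add,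
            zero_add] at h
          · exact h
          all_goals
            intro hh
            have := congrArg Fin.val hh
            simp only at this
            omega
        · intro l _ hl
          rw [if_neg, if_neg, add_zero]
          · intro hh
            apply hl
            have := congrArg Fin.val hh
            simp only at this
            apply Fin.ext
            simp only
            omega
          · intro hh
            have := congrArg Fin.val hh
            simp only at this
            omega
        · intro hh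
          exact absurd (Finset.mem_univ _) hh
    rcases Nat.even_or_odd' i with ⟨m, hm | hm⟩
    · obtain ⟨m, rfl⟩ : ∃ m', m = m' + 1 := ⟨m - 1, by omega⟩
      have h := (kf m (by omega) (by omega)).1
      have e : (⟨i, hi⟩ : Fin (2 + 2 * s)) = ⟨2 + 2 * m, by omega⟩ := by
        apply Fin.ext
        simp only
        omega
      rw [e]
      exact h
    · obtain ⟨m, rfl⟩ : ∃ m', m = m' + 1 := ⟨m - 1, by omega⟩
      have h := (kf m (by omega) (by omega)).2
      have e : (⟨i, hi⟩ : Fin (2 + 2 * s)) = ⟨2 + 2 * m + 1, by omega⟩ := by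
        apply Fin.ext
        simp only
        omega
      rw [e]
      exact h

end QCV
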