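import Pool.Agent.QCV.Final
import Pool.Agent.QCV.E_ESG
import Pool.Agent.QCV.E_EBC
import Pool.Agent.QCV.E_EHQ
import Pool.Agent.QCV.E_EHP
import Pool.Agent.QCV.E_ESP
import Pool.Agent.QCV.E_ETW
import Pool.Agent.QCV.E_EBM
import Pool.Agent.QCV.E_EQI
import Pool.Agent.QCV.E_EH2
import Pool.Agent.QCV.E_EE1
import Pool.Agent.QCV.E_EDU
import Pool.Agent.QCV.E_EDS
import Pool.Agent.QCV.E_EVI
import Pool.Agent.QCV.E_EOD
import Pool.Agent.QCV.E_EVS
import Pool.Agent.QCV.E_UD2
import Pool.Agent.QCV.E_UG2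
import Pool.Agent.QCV.E_EGM
import Pool.Agent.QCV.E_EHT
import Pool.Agent.QCV.E_EQT
import Pool.Agent.QCV.E_ECM
import Pool.Agent.QCV.E_EST

/-!
# QCV, block E: assembly, and the main theorems for the class `Member`
-/

set_option autoImplicit false

open CategoryTheory AlgebraicGeometry Polynomial

namespace QCV

open Pool.Agent.Lib_helper55.Beil Pool.Agent.Lib_helper66.OneP CUB

universe v

namespace Asm

theorem s_EVI : S_EVI := t_EVI t_EQI t_EH2 t_EE1 t_EDU

theorem s_EHT : S_EHT.{v} := t_EHT t_EHQ t_EHP t_EGM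

theorem s_EQT : S_EQT.{v} := t_EQT s_EHT t_EBC t_ESG t_ESP

theorem s_EST : S_EST.{v} := t_EST (t_ETW t_EBC t_ESG) s_EQT t_ECM t_EBM

theorem s_EOD : S_EOD := t_EOD t_EDU t_EDS

theorem s_EVS : S_EVS := t_EVS s_EOD

end Asm

variable {k : Type} [Field k] {E : Type} [Field E] {T : ∀ i : ℕ, Homology.{v} k E i} {hT : Full T}

lemma evenForms (h2 : (2 : k) ≠ 0) (d : ℕ) : EvenForms k d := by
  intro R _ _ _ _ n m q e f hn he hq hR hf hg hD
  subst hn
  exact member_even_of Asm.s_EVS h2 he hq hR f hf hg hD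

lemma evenFormsProj (h2 : (2 : k) ≠ 0) (d : ℕ) : EvenFormsProj k d := by
  intro R _ _ _ _ n m q e f hn he hq hR hf hg hD X ⟨S⟩
  exact member_of_cone (Member.small _ fun x => (hR x).trans (by exact_mod_cast he)) f (fun _ => 2)
    hf (fun _ => by norm_num) (evenForms h2 d R (n + 1) m q e f hn he hq hR hf hg hD) S

lemma evenBase (h2 : (2 : k) ≠ 0) (d : ℕ) : EvenBase k d := by
  intro A _ _ _ _ hA
  have h : ∀ (n m : ℕ) (f : MvPolynomial (Fin n) A), n = 2 * m → f.IsHomogeneous 2 →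
      (gram f).det ≠ 0 → Member k d (aff k (Dr A 0 ((-1) ^ (m + 1) * (gram f).det))) →
      Member k d (aff k (MvPolynomial (Fin n) A ⧸
        Ideal.span (Set.range fun _ : Fin 1 => f))) := by
    intro n m f hn hf hg hD
    subst hn
    exact member_even_base_of Asm.s_EOD h2 hA f hf hg hD
  refine ⟨h, ?_⟩
  intro n m f hn hf hg hD X ⟨S⟩
  exact member_of_cone (Member.cover A _ _ hD) (fun _ : Fin 1 => f) (fun _ => 2) (fun _ => hf)
    (fun _ => by norm_num) (h (n + 1) m f hn hf hg hD) S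

section

variable [Finite k] [CharZero E]

lemma ppfEven (hP : Pub2 T hT) : PpfEven T := by
  intro h2
  obtain ⟨S, h1, h2', h3, h4⟩ := hP.dbl
  exact Asm.s_EVI k _ h2 (cls0_ppf hT hP.toPub) (fun A _ _ _ h => ppf_line hT hP.toPub A h)
    (fun A _ _ _ b c h i => pf_dbl hT hP.toPub i A b c (h i))
    (Asm.s_EST k E T hT S hP.toPub hP.sectionZero h1 h2' h3 h4 h2).1

lemma ggEven (hP : Pub2 T hT) (h2 : (2 : k) ≠ 0) :
    EvenCl k (fun A [CommRing A] [Algebra k A] [Algebra.FiniteType k A] => GG T (aff k A)) := by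
  obtain ⟨S, h1, h2', h3, h4⟩ := hP.dbl
  exact Asm.s_EVI k _ h2 (cls0_gg (ggc hP)) (ggc hP).line (ggc hP).dbl
    (Asm.s_EST k E T hT S hP.toPub hP.sectionZero h1 h2' h3 h4 h2).2

/-- The conjecture holds on the class if the property holds in dimension at most `d`. -/
theorem q1_member_of_pp (hP : Pub2 T hT) (d : ℕ) (hB : ∀ X : Var k, X.DimLE d → PP T X)
    (X : Var k) (hX : Member k d X) (i : ℕ) : Q1 (T i) X :=
  q1_of_member hT hP.toPub hP.sectionZero (pfEt hP) (ppfOdd hP) (ppfEven hP) (ppfBun hP) d hB X hX i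

/-- The conjecture holds on the class built from the varieties of dimension at most one. -/
theorem member_one (hP : Pub2 T hT) (X : Var k) (hX : Member k 1 X) (i : ℕ) : Q1 (T i) X :=
  q1_member_of_pp hP 1 (fun X hX => pp_of_dimLE_one hT hP.toPub X hX) X hX i

/-- The conjecture of Tate in dimension at most `d` is equivalent to the conjecture of Tate on the
class. -/
theorem tate_member (hP : Pub2 T hT) (d : ℕ) :
    (∀ X : Var k, X.DimLE d → Tate T X) ↔ ∀ X : Var k, Member k d X → Tate T X := by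
  rw [tate_iff, tate_iff]
  exact ⟨fun h X hX => gg_of_member (ggEven hP) hP d h X hX, fun h X hX => h X (Member.small X hX)⟩

/-- Surfaces, with alterations. -/
theorem member_two (hP : Pub2 T hT) (hA : Pool.Agent.Lib_helper66.OneP.Alterations k)
    (h : ∀ Y : Var k, Y.SmoothProper 2 → (T 1).Surj Y ∧ (T 1).Semisimple Y) (X : Var k)
    (hX : Member k 2 X) (i : ℕ) : Q1 (T i) X :=
  q1_member_of_pp hP 2 (fun X hX => pp_of_dimLE_two hT hP.toPub
    (fun X _ => surf_of_sp hT hP.toPub hA hP.etale.etPull h X) X hX) X hX i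

/-- All dimensions, with alterations and purity. -/
theorem member_all (hP : Pub2 T hT) (hA : Pool.Agent.Lib_helper66.OneP.Alterations k)
    (hPu : ∀ i, Purity (T i)) (d : ℕ)
    (h : ∀ (Y : Var k) (D : ℕ), D ≤ d → Y.SmoothProper D → ∀ i, Q1 (T i) Y) (X : Var k)
    (hX : Member k d X) (i : ℕ) : Q1 (T i) X :=
  q1_member_of_pp hP d (fun X hX => pp_of_sp hT hP.toPub hA hPu hP.etale d h X hX) X hX i

/-- Systems of quadratic forms in an even number of variables and double covers of the affine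
space. -/
theorem tate_even (hP : Pub2 T hT) (h2 : (2 : k) ≠ 0) (d : ℕ)
    (h : ∀ X : Var k, X.DimLE d → Tate T X) :
    EvenSystems (Tate T) (d + 1) ↔ DoubleCovers (Tate T) (d + 1) := by
  have hlow := (tate_iff (T := T) _).mp h
  constructor
  · intro h3 g
    exact (gg_iff _).mp (doubleCovers_of t_UD2 t_UG2 hP h2 d hlow
      (fun n f hn hf hd => (gg_iff _).mpr (h3 n f hn hf hd)) g)
  · intro h3 n f hn hf hd
    exact (gg_iff _).mp (evenSystems_of Asm.s_EVS (fun h2 => ggEven hP h2) hP h2 d hlow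
      (fun g => (gg_iff _).mpr (h3 g)) n f hn hf hd)

end

end QCV
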