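import Pool.Agent.QCV.G_UNC
import Pool.Agent.CUB.V_CHAIN

/-!
# QCV, block G: the varieties `y ^ 2 - y = ∑ t_j f_j`
-/

set_option autoImplicit false

open CategoryTheory AlgebraicGeometry Limits Polynomial TopologicalSpace

namespace QCV

open Pool.Agent.Lib_helper55.Beil Pool.Agent.Lib_helper66.OneP CUB

universe v

variable {k : Type} [Field k] {E : Type} [Field E] {T : ∀ i : ℕ, Homology.{v} k E i}

/-- The three properties. -/
def AB {i : ℕ} (T : Homology.{v} k E i) (n e : ℕ) (V : Var k) (t : ClosedIn V V) : Prop :=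
  AM T n e V t ∧ BM T n e V t ∧ AM T (n + 1) (e + 1) V t

/-- The closed part of a variety whose open part is a product with the affine line. -/
theorem ab_line [CharZero E] (hT : Full T) (i n e : ℕ) {Z U V S : Var k} {a : ClosedIn Z V}
    {j : OpenIn U V} {t : ClosedIn V V} {tZ : ClosedIn Z Z} {tU : ClosedIn U U}
    (h : Parts a j t tZ tU) (L : Line U S) (hL : tU.g ≫ L.q = L.q)
    (hV : AB (T (i + 1)) (n + 2) e V t) : AB (T (i + 1)) (n + 2) e Z tZ := by
  have hi : Inv tU := inv_open j t tU h.ht h.hU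
  exact ⟨am_closed hT (i + 1) (n + 2) e h (bu_line hT i n e L tU hi hL)
      (hu_line hT.toExtra i (n + 1) L tU hi hL) hV.1,
    bm_closed hT (i + 1) (n + 2) e h (bu_line hT i (n + 1) (e + 1) L tU hi hL) hV.2.1,
    am_closed hT (i + 1) (n + 2 + 1) (e + 1) h (bu_line hT i (n + 1) (e + 1) L tU hi hL)
      (hu_line hT.toExtra i (n + 2) L tU hi hL) hV.2.2⟩

/-- Invariance under isomorphisms. -/
theorem ab_iso [CharZero E] (hT : Full T) (i n e : ℕ) {Z V : Var k} (a : ClosedIn Z V)
    (ha : Function.Surjective a.g) (t : ClosedIn V V) (tZ : ClosedIn Z Z) (ht : Inv t)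
    (hZ : tZ.g ≫ a.g = a.g ≫ t.g) (hV : AB (T i) n e V t) : AB (T i) n e Z tZ := by
  have hem := isEmpty_openVar_bot V
  have hc : Complementary a (openVarIn V ⊥) := by
    rw [Complementary, range_openVarIn, ha.range_eq]
    simp
  have hU : (idIn (openVar V ⊥)).g ≫ (openVarIn V ⊥).g = (openVarIn V ⊥).g ≫ t.g :=
    isInitialOfIsEmpty.hom_ext _ _
  have h : Parts a (openVarIn V ⊥) t tZ (idIn (openVar V ⊥)) := ⟨hc, ht, hZ, hU⟩
  have hHU : ∀ n, HU (T i) n (openVar V ⊥) (idIn (openVar V ⊥)) := by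
    intro n u _
    have := (T i).empty n _ hem
    exact Subsingleton.elim _ _
  have hBU : ∀ n e, BU (T i) n e (openVar V ⊥) (idIn (openVar V ⊥)) := by
    intro n e W _ b r _ _ w _
    have hW : IsEmpty W.X := ⟨fun x => hem.false (b.g x)⟩
    refine ⟨⊥, fun x => (hW.false x).elim, fun x _ => (hem.false x).elim, ?_⟩
    have := (T i).empty n _ hW
    rw [Subsingleton.elim w 0, hP_zero]
  exact ⟨am_closed hT i n e h (hBU _ _) (hHU _) hV.1, bm_closed hT i n e h (hBU _ _) hV.2.1,
    am_closed hT i (n + 1) (e + 1) h (hBU _ _) (hHU _) hV.2.2⟩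

section VRs

variable {R R' : Type} [CommRing R] [CommRing R'] [Algebra k R] [Algebra k R']
  [Algebra.FiniteType k R] [Algebra.FiniteType k R']

lemma inv_tau {A : Type} [CommRing A] [Algebra k A] [Algebra.FiniteType k A] (g : A) :
    Inv (vcl (tau (k := k) g)) := by
  have h1 : (tauH (k := k) g).comp (tauH (k := k) g) = AlgHom.id k _ := tauHom_comp g
  change spm (tauH (k := k) g) ≫ spm (tauH (k := k) g) = 𝟙 _
  rw [spm_comp, h1, spm_id]

lemma tau_VRmap_g {m : ℕ} (f : Fin m → R) (ψ : R →ₐ[k] R') (hψ : Function.Surjective ψ) :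
    (vcl (tau (k := k) (lin fun j => ψ (f j)))).g ≫
      (clo (VRmap ψ f) (VRmap_surjective ψ hψ f)).g =
      (clo (VRmap ψ f) (VRmap_surjective ψ hψ f)).g ≫ (vcl (tau (k := k) (lin f))).g := by
  change spm (tauH (k := k) (lin fun j => ψ (f j))) ≫ spm (VRmap ψ f) =
    spm (VRmap ψ f) ≫ spm (tauH (k := k) (lin f))
  rw [spm_comp, spm_comp]
  congr 1
  exact AlgHom.ext fun x => (VRmap_tau f ψ x).symm

/-- One step. -/
theorem ab_step [CharZero E] (hT : Full T) (hKERQ : S_KERQ) (hVRL : S_VRL) (i n e m : ℕ)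
    (f : Fin (m + 1) → R) (l : Fin (m + 1)) (ψ : R →ₐ[k] R') (hψ : Function.Surjective ψ)
    (hk : RingHom.ker ψ.toRingHom = Ideal.span {f l})
    (hV : AB (T (i + 1)) (n + 2) e (aff k (VR R f)) (vcl (tau (lin f)))) :
    AB (T (i + 1)) (n + 2) e (aff k (VR R' (fun j => ψ (f j)))) (vcl (tau (lin fun j => ψ (f j)))) := by
  let a : VR R f := VRbase (k := k) f (f l)
  let φ : VR R f →ₐ[k] Localization.Away a := awayHom k a
  let σ0 : R →ₐ[k] Localization.Away (f l) := awayHom k (f l)
  obtain ⟨ee, he1, he2, he3⟩ := hVRL k R (Localization.Away (f l)) (Localization.Away a) m f l σ0 φ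
    (isLocalization_awayHom _) (isLocalization_awayHom _)
  let σ : MvPolynomial (Fin m) (Localization.Away (f l)) →ₐ[k] Localization.Away a :=
    (ee.symm : _ →ₐ[k] _).comp (CC k _)
  let tB : Localization.Away a ≃ₐ[k] Localization.Away a :=
    IsLocalization.algEquivOfAlgEquiv (M := Submonoid.powers a) (T := Submonoid.powers a)
      (Localization.Away a) (Localization.Away a) (tau (k := k) (lin f)) (by
        rw [Submonoid.map_powers]
        congr 1
        exact tau_VRbase f (f l))
  have htB : ∀ x, tB (φ x) = φ (tau (k := k) (lin f) x) := fun x =>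
    IsLocalization.algEquivOfAlgEquiv_eq _ x
  have hker : RingHom.ker (VRmap ψ f).toRingHom = Ideal.span {a} := by
    rw [hKERQ.2.2.1 k R R' (m + 1) f ψ, hk, Ideal.map_span, Set.image_singleton]
    rfl
  have hC : ∀ r : R, σ (MvPolynomial.C (σ0 r)) = φ (VRbase (k := k) f r) := fun r => by
    change ee.symm (C (MvPolynomial.C (σ0 r))) = _
    rw [← he1 r, AlgEquiv.symm_apply_apply]
  have hX : ∀ j : Fin m, σ (MvPolynomial.X j) =
      φ (algebraMap (MvPolynomial (Fin (m + 1)) R) (VR R f) (MvPolynomial.X (l.succAbove j))) :=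
    fun j => by
      change ee.symm (C (MvPolynomial.X j)) = _
      rw [← he2 j, AlgEquiv.symm_apply_apply]
  have key : tB.toRingEquiv.toRingHom.comp σ.toRingHom = σ.toRingHom := by
    apply MvPolynomial.ringHom_ext
    · intro s
      have h7 : (tB.toRingEquiv.toRingHom.comp σ.toRingHom).comp MvPolynomial.C =
          σ.toRingHom.comp MvPolynomial.C := by
        apply IsLocalization.ringHom_ext (Submonoid.powers (f l))
        ext1 r
        change tB (σ (MvPolynomial.C (σ0 r))) = σ (MvPolynomial.C (σ0 r))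
        rw [hC, htB, tau_VRbase]
      exact RingHom.congr_fun h7 s
    · intro j
      change tB (σ (MvPolynomial.X j)) = σ (MvPolynomial.X j)
      rw [hX, htB, tau_VRalg]
  have hloc := isLocalization_awayHom (k := k) a
  have hparts : Parts (clo (VRmap ψ f) (VRmap_surjective ψ hψ f))
      (opn φ (isOpenImmersion_spm φ a hloc)) (vcl (tau (k := k) (lin f)))
      (vcl (tau (k := k) (lin fun j => ψ (f j)))) (vcl tB) := by
    refine ⟨complementary_away φ a hloc (VRmap ψ f) (VRmap_surjective ψ hψ f) hker,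
      inv_tau (lin f), tau_VRmap_g f ψ hψ, ?_⟩
    change spm (tB : _ →ₐ[k] _) ≫ spm φ = spm φ ≫ spm (tauH (k := k) (lin f))
    rw [spm_comp, spm_comp]
    congr 1
    exact AlgHom.ext fun x => htB x
  refine ab_line hT i n e hparts (lineE σ ee.symm.toRingEquiv (fun s => rfl)) ?_ hV
  change spm (tB : _ →ₐ[k] _) ≫ spm σ = spm σ
  rw [spm_comp]
  congr 1
  exact AlgHom.ext fun x => RingHom.congr_fun key x

/-- Several equations. -/
theorem ab_chain [CharZero E] (hT : Full T) (hKERQ : S_KERQ) (hVRL : S_VRL) (i n e m : ℕ)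
    (L : List (Fin (m + 1))) :
    ∀ {R R' : Type} [CommRing R] [CommRing R'] [Algebra k R]
    [Algebra k R'] [Algebra.FiniteType k R] [Algebra.FiniteType k R']
    (f : Fin (m + 1) → R) (ψ : R →ₐ[k] R') (_ : Function.Surjective ψ),
    RingHom.ker ψ.toRingHom = Ideal.span (f '' {j | j ∈ L}) →
    AB (T (i + 1)) (n + 2) e (aff k (VR R f)) (vcl (tau (lin f))) →
    AB (T (i + 1)) (n + 2) e (aff k (VR R' (fun j => ψ (f j))))
      (vcl (tau (lin fun j => ψ (f j)))) := by
  induction L with
  | nil =>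
    intro R R' _ _ _ _ _ _ f ψ hψ hk hV
    have h1 : RingHom.ker (VRmap ψ f).toRingHom = ⊥ := by
      rw [hKERQ.2.2.1 k R R' (m + 1) f ψ, hk]
      simp
    have h2 : Function.Injective (VRmap ψ f) := (RingHom.injective_iff_ker_eq_bot _).mpr h1
    refine ab_iso hT (i + 1) (n + 2) e (clo (VRmap ψ f) (VRmap_surjective ψ hψ f)) ?_
      (vcl (tau (k := k) (lin f))) _ (inv_tau (lin f)) (tau_VRmap_g f ψ hψ) hV
    have h3 : (Set.range (clo (VRmap ψ f) (VRmap_surjective ψ hψ f)).g : Set (PrimeSpectrum _)) =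
        Set.univ := by
      have h4 : (Set.range (clo (VRmap ψ f) (VRmap_surjective ψ hψ f)).g : Set (PrimeSpectrum _)) =
        (Set.range (PrimeSpectrum.comap (VRmap ψ f).toRingHom) : Set (PrimeSpectrum _)) := rfl
      rw [h4, range_spm_surj _ (VRmap_surjective ψ hψ f), h1]
      ext x
      simp
    exact Set.range_eq_univ.mp h3
  | cons l L ih =>
    intro R R' _ _ _ _ _ _ f ψ hψ hk hV
    let I : Ideal R := Ideal.span {f l}
    let π : R →ₐ[k] R ⧸ I := Ideal.Quotient.mkₐ k I
    have hle : I ≤ RingHom.ker ψ.toRingHom := by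
      rw [hk]
      apply Ideal.span_mono
      rintro _ rfl
      exact ⟨l, by simp, rfl⟩
    let ψ₁ : (R ⧸ I) →ₐ[k] R' := Ideal.Quotient.liftₐ I ψ (fun a ha => hle ha)
    have hπ : Function.Surjective π := Ideal.Quotient.mkₐ_surjective k I
    have hcomp : ψ = ψ₁.comp π := by
      ext x
      rfl
    have hkπ : RingHom.ker π.toRingHom = Ideal.span {f l} := Ideal.mk_ker
    clear_value ψ₁ π
    subst hcomp
    have hψ₁ : Function.Surjective ψ₁ := by
      intro x
      obtain ⟨y, hy⟩ := hψ x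
      exact ⟨π y, hy⟩
    have hk₁ : RingHom.ker ψ₁.toRingHom = Ideal.span ((fun j => π (f j)) '' {j | j ∈ L}) := by
      have h1 : RingHom.ker ψ₁.toRingHom =
          (RingHom.ker (ψ₁.comp π).toRingHom).map π.toRingHom := by
        have h2 : RingHom.ker (ψ₁.comp π).toRingHom =
          (RingHom.ker ψ₁.toRingHom).comap π.toRingHom := rfl
        rw [h2]
        exact (Ideal.map_comap_of_surjective π.toRingHom hπ _).symm
      rw [h1, hk, Ideal.map_span]
      apply le_antisymm
      · rw [Ideal.span_le]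
        rintro _ ⟨_, ⟨j, hj, rfl⟩, rfl⟩
        rcases List.mem_cons.mp hj with rfl | hj
        · have h3 : π (f j) = 0 := by
            have : f j ∈ RingHom.ker π.toRingHom := by
              rw [hkπ]; exact Ideal.subset_span rfl
            exact this
          have h4 : π.toRingHom (f j) = 0 := h3
          rw [h4]
          exact Ideal.zero_mem _
        · exact Ideal.subset_span ⟨j, hj, rfl⟩
      · apply Ideal.span_mono
        rintro _ ⟨j, hj, rfl⟩
        exact ⟨f j, ⟨j, List.mem_cons_of_mem _ hj, rfl⟩, rfl⟩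
    exact ih (fun j => π (f j)) ψ₁ hψ₁ hk₁
      (ab_step hT hKERQ hVRL i n e m f l π hπ hkπ hV)

end VRs

end QCV
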