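import Pool.Agent.QCV.G_CYC
import Pool.Agent.CUB.V_RED

/-!
# QCV, block G: two sheets which are exchanged by the involution
-/

set_option autoImplicit false

open CategoryTheory AlgebraicGeometry Limits Polynomial TopologicalSpace

namespace QCV

open Pool.Agent.Lib_helper55.Beil Pool.Agent.Lib_helper66.OneP CUB

universe v

variable {k : Type} [Field k] {E : Type} [Field E] {T : ∀ i : ℕ, Homology.{v} k E i}

section Sheets

variable {S V : Var k} (I0 I1 : ClosedIn S V) (o : OpenIn S V) (t : ClosedIn V V)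

lemma supp_sheet (hT : Full T) (i n e : ℕ) (ho : I0.g = o.g) (hc : Complementary I1 o)
    (h01 : I0.g ≫ t.g = I1.g) (h10 : I1.g ≫ t.g = I0.g) (hV : AM (T i) n e V t)
    (u : (T i).H n S) (hu : u ∈ genN (T i) n S) : Supp (T i) n e S u := by
  let δ := (T i).P n I0 u - (T i).P n I1 u
  have h0 : (T i).P n I0 u ∈ genN (T i) n V :=
    maxGen_map ((T i).frob n S) ((T i).frob n V) ((T i).push n I0)
      (fun x => (T i).push_frob n _ x) hu
  have h1 : (T i).P n I1 u ∈ genN (T i) n V :=
    maxGen_map ((T i).frob n S) ((T i).frob n V) ((T i).push n I1)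
      (fun x => (T i).push_frob n _ x) hu
  have hδ : (T i).P n t δ = -δ := by
    change (T i).P n t ((T i).P n I0 u - (T i).P n I1 u) = -((T i).P n I0 u - (T i).P n I1 u)
    rw [hP_sub, hT.push_comp i n _ _ _ I0 t I1 h01, hT.push_comp i n _ _ _ I1 t I0 h10, neg_sub]
  have h2 := supp_res hT i n e o δ (hV δ (sub_mem h0 h1) hδ)
  have h3 : (T i).R n o δ = u := by
    have e0 : (T i).R n o ((T i).P n I0 u) = u := hT.clopen i n _ _ I0 o ho u
    have e1 : (T i).R n o ((T i).P n I1 u) = 0 :=
      (((T i).localisation n _ _ _ _ _ hc).1 _).mpr ⟨u, rfl⟩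
    have e2 : (T i).R n o δ = (T i).R n o ((T i).P n I0 u) - (T i).R n o ((T i).P n I1 u) :=
      map_sub ((T i).res n o) _ _
    rw [e2, e0, e1, sub_zero]
  rwa [h3] at h2

lemma inj_sheet (i : ℕ) (ho : I0.g = o.g) (hc : Complementary I1 o)
    (h01 : I0.g ≫ t.g = I1.g) (h10 : I1.g ≫ t.g = I0.g) (hV : IM (T i) V t) :
    (T i).InjC S := by
  rw [injC_iff]
  intro c hc0
  let d := pushCyc I0 c - pushCyc I1 c
  have hd : pushCyc t d = -d := by
    change pushCyc t (pushCyc I0 c - pushCyc I1 c) = -(pushCyc I0 c - pushCyc I1 c)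
    rw [pushCyc_sub', pushCyc_comp I0 t I1 h01, pushCyc_comp I1 t I0 h10, neg_sub]
  have hz : clz (T i) V d = 0 := by
    change clz (T i) V (pushCyc I0 c - pushCyc I1 c) = 0
    have h1 : clz (T i) S c = 0 := hc0
    rw [clz_sub, ← clz_push, ← clz_push, h1, hP_zero, hP_zero, sub_zero]
  have h1 := resCyc_ratZero o d (hV d hd hz)
  have h2 : resCyc o d = c := by
    change resCyc o (pushCyc I0 c - pushCyc I1 c) = c
    rw [map_sub, resCyc_pushCyc I1 o hc, sub_zero]
    ext x
    rw [resCyc_apply]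
    have h3 : ptsMapO i o x = ptsMap i I0 x := by
      apply Subtype.ext
      change o.g x.1 = I0.g x.1
      rw [ho]
    rw [h3, pushCyc, Finsupp.mapDomain_apply (ptsMap_injective i I0)]
  rwa [h2] at h1

/-- Two sheets which are exchanged by the involution. -/
theorem pf_of_sheets [PerfectField k] [CharZero E] (hT : Full T) (hP : Pub T hT) (i : ℕ)
    (ht : Inv t) (ho : I0.g = o.g) (hc : Complementary I1 o)
    (h01 : I0.g ≫ t.g = I1.g) (h10 : I1.g ≫ t.g = I0.g) (hV : AB (T i) (2 * i) i V t) :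
    PF (T i) S :=
  ⟨fun α hα => alg_of_supp i S α hα (supp_sheet I0 I1 o t hT i (2 * i) i ho hc h01 h10 hV.1 α hα),
    inj_sheet I0 I1 o t i ho hc h01 h10 (im_of_bm hT hP i V t ht hV.2.1),
    fun m hm => supp_sheet I0 I1 o t hT i (2 * i + 1) (i + 1) ho hc h01 h10 hV.2.2 m hm⟩

end Sheets

/-- The double cover which belongs to the zero function. -/
theorem pf_of_zero [PerfectField k] [CharZero E] (hT : Full T) (hP : Pub T hT) (N m : ℕ)
    {R' : Type} [CommRing R'] [Algebra k R'] [Algebra.FiniteType k R'] (g : Fin (m + 1) → R')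
    (hg : ∀ j, g j = 0)
    (hV : AB (T N) (2 * N) N (aff k (VR R' g)) (vcl (tau (lin g)))) :
    PF (T N) (aff k (MvPolynomial (Fin (m + 1)) R')) := by
  have h' : ∀ j, AlgHom.id k R' (g j) = 0 := hg
  let s0 := sheet (AlgHom.id k R') g h' false
  let s1 := sheet (AlgHom.id k R') g h' true
  have hs0 : Function.Surjective s0 := sheet_surjective _ Function.surjective_id _ h' false
  have hs1 : Function.Surjective s1 := sheet_surjective _ Function.surjective_id _ h' true
  have hloc := isLocalization_sheet_false (k := k) g h'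
  have hc := complementary_away s0 (1 - yy (lin g)) hloc s1 hs1 (ker_sheet_true g h')
  have h01 : (clo s0 hs0).g ≫ (vcl (tau (k := k) (lin g))).g = (clo s1 hs1).g := by
    change spm s0 ≫ spm (tauH (k := k) (lin g)) = spm s1
    rw [spm_comp]
    exact congrArg spm (sheet_tau (AlgHom.id k R') g h')
  have h10 : (clo s1 hs1).g ≫ (vcl (tau (k := k) (lin g))).g = (clo s0 hs0).g := by
    rw [← h01, Category.assoc, inv_tau (k := k) (lin g), Category.comp_id]
  exact pf_of_sheets (clo s0 hs0) (clo s1 hs1) (opn s0 (isOpenImmersion_spm s0 _ hloc))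
    (vcl (tau (k := k) (lin g))) hT hP N (inv_tau (lin g)) rfl hc h01 h10 hV

end QCV
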