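import Pool.Agent.QCV.StO

/-!
# QCV, module DFN (helper92): functoriality of `A[t] / (t ^ 2 + b t + c)`
-/

set_option autoImplicit false

open CategoryTheory AlgebraicGeometry Polynomial

namespace QCV

open Pool.Agent.Lib_helper55.Beil Pool.Agent.Lib_helper66.OneP CUB

theorem t_DFN : S_DFN := by
  intro k S S' _ _ _ _ _ e b c b' c' hb hc
  have h : (dpoly b c).map (e : S →+* S') = dpoly b' c' := by
    unfold dpoly
    rw [Polynomial.map_add, Polynomial.map_add, Polynomial.map_mul, Polynomial.map_pow,
      Polynomial.map_X, Polynomial.map_C, Polynomial.map_C]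
    have h1 : (e : S →+* S') b = b' := hb
    have h2 : (e : S →+* S') c = c' := hc
    rw [h1, h2]
  have h' : Associated ((dpoly b c).map (e : S →+* S')) (dpoly b' c') := by rw [h]
  refine ⟨AdjoinRoot.mapAlgEquiv e (dpoly b c) (dpoly b' c') h', fun s => ?_, ?_⟩
  · exact AdjoinRoot.map_of (e : S →+* S') (dpoly b c) (dpoly b' c') h'.symm.dvd s
  · exact AdjoinRoot.map_root (e : S →+* S') (dpoly b c) (dpoly b' c') h'.symm.dvd

end QCV
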