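import Pool.Agent.QCV.StO

/-!
# QCV, module DMV: double covers of polynomial rings whose coefficients come from the base
-/

set_option autoImplicit false

open Polynomial

namespace QCV

namespace DMV_aux

section

variable {A σ : Type} [CommRing A] (b c : A)

/-- the homomorphism `Dr (MvPolynomial σ A) → MvPolynomial σ (Dr A)` -/
noncomputable def fwd : Dr (MvPolynomial σ A) (MvPolynomial.C b) (MvPolynomial.C c) →+*
    MvPolynomial σ (Dr A b c) :=
  AdjoinRoot.lift (MvPolynomial.map (algebraMap A (Dr A b c))) (MvPolynomial.C (rt b c)) (by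
    rw [eval₂_dpoly, MvPolynomial.map_C, MvPolynomial.map_C, ← map_pow, ← map_mul, ← map_add,
      ← map_add, rt_eq, map_zero])

lemma fwd_of (p : MvPolynomial σ A) :
    fwd b c (algebraMap (MvPolynomial σ A)
      (Dr (MvPolynomial σ A) (MvPolynomial.C b) (MvPolynomial.C c)) p) =
      MvPolynomial.map (algebraMap A (Dr A b c)) p :=
  AdjoinRoot.lift_of _

lemma fwd_rt : fwd (σ := σ) b c (rt _ _) = MvPolynomial.C (rt b c) :=
  AdjoinRoot.lift_root _

/-- the homomorphism `Dr A → Dr (MvPolynomial σ A)` -/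
noncomputable def bas : Dr A b c →+*
    Dr (MvPolynomial σ A) (MvPolynomial.C b) (MvPolynomial.C c) :=
  AdjoinRoot.lift ((algebraMap (MvPolynomial σ A)
      (Dr (MvPolynomial σ A) (MvPolynomial.C b) (MvPolynomial.C c))).comp MvPolynomial.C)
    (rt _ _) (by
      rw [eval₂_dpoly]
      exact rt_eq (A := MvPolynomial σ A) (MvPolynomial.C b) (MvPolynomial.C c))

lemma bas_of (a : A) : bas (σ := σ) b c (algebraMap A (Dr A b c) a) =
    algebraMap (MvPolynomial σ A) _ (MvPolynomial.C a) :=
  AdjoinRoot.lift_of _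

lemma bas_rt : bas (σ := σ) b c (rt b c) = rt _ _ :=
  AdjoinRoot.lift_root _

/-- the homomorphism `MvPolynomial σ (Dr A) → Dr (MvPolynomial σ A)` -/
noncomputable def bwd : MvPolynomial σ (Dr A b c) →+*
    Dr (MvPolynomial σ A) (MvPolynomial.C b) (MvPolynomial.C c) :=
  MvPolynomial.eval₂Hom (bas b c) fun i => algebraMap (MvPolynomial σ A) _ (MvPolynomial.X i)

lemma bwd_C (x : Dr A b c) : bwd (σ := σ) b c (MvPolynomial.C x) = bas b c x :=
  MvPolynomial.eval₂_C _ _ _

lemma bwd_X (i : σ) : bwd (σ := σ) b c (MvPolynomial.X i) =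
    algebraMap (MvPolynomial σ A) _ (MvPolynomial.X i) :=
  MvPolynomial.eval₂_X _ _ _

lemma fwd_bas : (fwd (σ := σ) b c).comp (bas b c) = MvPolynomial.C := by
  apply AdjoinRoot.ringHom_ext
  · ext1 a
    change fwd (σ := σ) b c (bas b c (algebraMap A (Dr A b c) a)) =
      MvPolynomial.C (algebraMap A (Dr A b c) a)
    rw [bas_of, fwd_of, MvPolynomial.map_C]
  · change fwd (σ := σ) b c (bas b c (rt b c)) = MvPolynomial.C (rt b c)
    rw [bas_rt, fwd_rt]

lemma fwd_bwd : (fwd (σ := σ) b c).comp (bwd b c) = RingHom.id _ := by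
  apply MvPolynomial.ringHom_ext
  · intro x
    rw [RingHom.comp_apply, bwd_C, RingHom.id_apply]
    exact RingHom.congr_fun (fwd_bas (σ := σ) b c) x
  · intro i
    rw [RingHom.comp_apply, bwd_X, RingHom.id_apply, fwd_of, MvPolynomial.map_X]

lemma bwd_fwd : (bwd (σ := σ) b c).comp (fwd b c) = RingHom.id _ := by
  apply AdjoinRoot.ringHom_ext
  · apply MvPolynomial.ringHom_ext
    · intro a
      change bwd (σ := σ) b c (fwd b c (algebraMap (MvPolynomial σ A) _ (MvPolynomial.C a))) =
        algebraMap (MvPolynomial σ A) _ (MvPolynomial.C a)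
      rw [fwd_of, MvPolynomial.map_C, bwd_C, bas_of]
    · intro i
      change bwd (σ := σ) b c (fwd b c (algebraMap (MvPolynomial σ A) _ (MvPolynomial.X i))) =
        algebraMap (MvPolynomial σ A) _ (MvPolynomial.X i)
      rw [fwd_of, MvPolynomial.map_X, bwd_X]
  · change bwd (σ := σ) b c (fwd b c (rt _ _)) = rt _ _
    rw [fwd_rt, bwd_C, bas_rt]

end

end DMV_aux

open DMV_aux in
theorem t_DMV : S_DMV := by
  intro k A σ _ _ _ b c
  have h : ∀ r : k, fwd (σ := σ) b c (algebraMap k _ r) = algebraMap k _ r := by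
    intro r
    have h1 := fwd_of (σ := σ) b c (MvPolynomial.C (algebraMap k A r))
    rw [MvPolynomial.map_C] at h1
    exact h1
  exact ⟨AlgEquiv.ofRingEquiv (f := RingEquiv.ofRingHom (fwd b c) (bwd b c) (fwd_bwd b c)
    (bwd_fwd b c)) h, fun p => fwd_of b c p, fwd_rt b c⟩

end QCV
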