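import Pool.Agent.QCV.StO

/-!
# QCV, block O, module DSW: two double covers may be exchanged
-/

set_option autoImplicit false

open Polynomial

namespace QCV

namespace DSW

section

variable {S : Type} [CommRing S] (b c b' c' : S)

/-- the first step -/
noncomputable def f1 : Dr S b c →+*
    Dr (Dr S b' c') (algebraMap S (Dr S b' c') b) (algebraMap S (Dr S b' c') c) :=
  AdjoinRoot.lift ((algebraMap (Dr S b' c')
    (Dr (Dr S b' c') (algebraMap S (Dr S b' c') b) (algebraMap S (Dr S b' c') c))).comp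
      (algebraMap S (Dr S b' c'))) (rt _ _) (by
    rw [eval₂_dpoly]
    exact rt_eq (algebraMap S (Dr S b' c') b) (algebraMap S (Dr S b' c') c))

theorem f1_of (s : S) : f1 b c b' c' (algebraMap S (Dr S b c) s) =
    algebraMap (Dr S b' c')
      (Dr (Dr S b' c') (algebraMap S (Dr S b' c') b) (algebraMap S (Dr S b' c') c))
        (algebraMap S (Dr S b' c') s) :=
  AdjoinRoot.lift_of _

theorem f1_rt : f1 b c b' c' (rt b c) =
    rt (algebraMap S (Dr S b' c') b) (algebraMap S (Dr S b' c') c) :=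
  AdjoinRoot.lift_root _

/-- the exchange -/
noncomputable def f2 :
    Dr (Dr S b c) (algebraMap S (Dr S b c) b') (algebraMap S (Dr S b c) c') →+*
      Dr (Dr S b' c') (algebraMap S (Dr S b' c') b) (algebraMap S (Dr S b' c') c) :=
  AdjoinRoot.lift (f1 b c b' c') (algebraMap (Dr S b' c')
    (Dr (Dr S b' c') (algebraMap S (Dr S b' c') b) (algebraMap S (Dr S b' c') c)) (rt b' c'))
    (by
      rw [eval₂_dpoly, f1_of, f1_of, ← map_pow, ← map_mul, ← map_add, ← map_add, rt_eq, map_zero])

theorem f2_of (x : Dr S b c) : f2 b c b' c' (algebraMap (Dr S b c)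
    (Dr (Dr S b c) (algebraMap S (Dr S b c) b') (algebraMap S (Dr S b c) c')) x) =
      f1 b c b' c' x :=
  AdjoinRoot.lift_of _

theorem f2_rt : f2 b c b' c'
    (rt (algebraMap S (Dr S b c) b') (algebraMap S (Dr S b c) c')) =
      algebraMap (Dr S b' c')
        (Dr (Dr S b' c') (algebraMap S (Dr S b' c') b) (algebraMap S (Dr S b' c') c))
          (rt b' c') :=
  AdjoinRoot.lift_root _

theorem f2_f1 (x : Dr S b c) : f2 b' c' b c (f1 b c b' c' x) =
    algebraMap (Dr S b c)
      (Dr (Dr S b c) (algebraMap S (Dr S b c) b') (algebraMap S (Dr S b c) c')) x := by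
  have h : (f2 b' c' b c).comp (f1 b c b' c') = algebraMap (Dr S b c)
      (Dr (Dr S b c) (algebraMap S (Dr S b c) b') (algebraMap S (Dr S b c) c')) := by
    apply AdjoinRoot.ringHom_ext
    · ext s
      change f2 b' c' b c (f1 b c b' c' (algebraMap S (Dr S b c) s)) = _
      rw [f1_of, f2_of, f1_of]
      rfl
    · change f2 b' c' b c (f1 b c b' c' (rt b c)) = _
      rw [f1_rt, f2_rt]
      rfl
  exact RingHom.congr_fun h x

theorem f2_f2 : (f2 b' c' b c).comp (f2 b c b' c') = RingHom.id _ := by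
  apply AdjoinRoot.ringHom_ext
  · apply RingHom.ext
    intro x
    change f2 b' c' b c (f2 b c b' c' (algebraMap (Dr S b c)
      (Dr (Dr S b c) (algebraMap S (Dr S b c) b') (algebraMap S (Dr S b c) c')) x)) =
        algebraMap (Dr S b c)
          (Dr (Dr S b c) (algebraMap S (Dr S b c) b') (algebraMap S (Dr S b c) c')) x
    rw [f2_of, f2_f1]
  · change f2 b' c' b c (f2 b c b' c'
      (rt (algebraMap S (Dr S b c) b') (algebraMap S (Dr S b c) c'))) =
        rt (algebraMap S (Dr S b c) b') (algebraMap S (Dr S b c) c')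
    rw [f2_rt, f2_of, f1_rt]

end

end DSW

theorem t_DSW : S_DSW := by
  intro k S _ _ _ b c b' c'
  have hk : ∀ (b c b' c' : S) (r : k), DSW.f2 b c b' c' (algebraMap k
      (Dr (Dr S b c) (algebraMap S (Dr S b c) b') (algebraMap S (Dr S b c) c')) r) =
        algebraMap k
          (Dr (Dr S b' c') (algebraMap S (Dr S b' c') b) (algebraMap S (Dr S b' c') c)) r := by
    intro b c b' c' r
    change DSW.f2 b c b' c' (algebraMap (Dr S b c)
      (Dr (Dr S b c) (algebraMap S (Dr S b c) b') (algebraMap S (Dr S b c) c'))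
        (algebraMap S (Dr S b c) (algebraMap k S r))) = _
    rw [DSW.f2_of, DSW.f1_of]
    rfl
  refine ⟨AlgEquiv.ofAlgHom { DSW.f2 b c b' c' with commutes' := hk b c b' c' }
    { DSW.f2 b' c' b c with commutes' := hk b' c' b c }
    (AlgHom.ext fun x => RingHom.congr_fun (DSW.f2_f2 b' c' b c) x)
    (AlgHom.ext fun x => RingHom.congr_fun (DSW.f2_f2 b c b' c') x), fun s => ?_, ?_, ?_⟩
  · change DSW.f2 b c b' c' (algebraMap (Dr S b c) _ (algebraMap S (Dr S b c) s)) = _
    rw [DSW.f2_of, DSW.f1_of]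
  · change DSW.f2 b c b' c' (algebraMap (Dr S b c) _ (rt b c)) = _
    rw [DSW.f2_of, DSW.f1_rt]
  · exact DSW.f2_rt b c b' c'

end QCV
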