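import Pool.Agent.QCV.StO

/-!
# QCV, module OBCH: more variables in the base
-/

set_option autoImplicit false

open Polynomial

namespace QCV

theorem t_OBCH : M_OBCH := by
  intro hDFN hDMV k A _ _ _ n m b
  let e : MvPolynomial (Fin n) (MvPolynomial (Fin m) A) ≃ₐ[k]
      MvPolynomial (Fin m) (MvPolynomial (Fin n) A) :=
    (MvPolynomial.commAlgEquiv A (Fin n) (Fin m)).restrictScalars k
  have he : ∀ p, e p = MvPolynomial.commAlgEquiv A (Fin n) (Fin m) p := fun _ => rfl
  have hc : e (dia fun j => MvPolynomial.C (b j)) = MvPolynomial.C (dia b) := by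
    rw [he]
    simp only [dia, map_sum, map_mul, map_pow, MvPolynomial.commAlgEquiv_C,
      MvPolynomial.commAlgEquiv_X, MvPolynomial.map_C]
  have h0 : e 0 = MvPolynomial.C 0 := by rw [map_zero, map_zero]
  obtain ⟨e', -, -⟩ := hDFN k _ _ e 0 (dia fun j => MvPolynomial.C (b j)) (MvPolynomial.C 0)
    (MvPolynomial.C (dia b)) h0 hc
  obtain ⟨e'', -, -⟩ := hDMV k (MvPolynomial (Fin n) A) (Fin m) 0 (dia b)
  exact ⟨e'.trans e''⟩

end QCV
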