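import Pool.Agent.QCV.StO

/-!
# QCV, module ODIA: induction on the number of hyperbolic planes
-/

set_option autoImplicit false

open CategoryTheory AlgebraicGeometry Polynomial

namespace QCV

open Pool.Agent.Lib_helper55.Beil Pool.Agent.Lib_helper66.OneP CUB

universe v

namespace ODIA

/-- the involution `t ↦ - t` is trivial modulo the root -/
lemma rt_dvd (k : Type) [Field k] {S : Type} [CommRing S] [Algebra k S] (c : S) (x : Dr S 0 c) :
    rt 0 c ∣ dinv 0 c k x - x := by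
  induction x using AdjoinRoot.induction_on with
  | ih f =>
    induction f using Polynomial.induction_on' with
    | add p q hp hq =>
      rw [map_add, map_add]
      have h := dvd_add hp hq
      have e : dinv 0 c k (AdjoinRoot.mk (dpoly 0 c) p) + dinv 0 c k (AdjoinRoot.mk (dpoly 0 c) q) -
          (AdjoinRoot.mk (dpoly 0 c) p + AdjoinRoot.mk (dpoly 0 c) q) =
          dinv 0 c k (AdjoinRoot.mk (dpoly 0 c) p) - AdjoinRoot.mk (dpoly 0 c) p +
          (dinv 0 c k (AdjoinRoot.mk (dpoly 0 c) q) - AdjoinRoot.mk (dpoly 0 c) q) := by ring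
      rw [e]
      exact h
    | monomial n a =>
      have e : AdjoinRoot.mk (dpoly 0 c) (Polynomial.monomial n a) =
          algebraMap S (Dr S 0 c) a * rt 0 c ^ n := by
        rw [← Polynomial.C_mul_X_pow_eq_monomial, map_mul, map_pow]
        rfl
      rw [e, map_mul, map_pow, dinv_of, dinv_rt, map_zero, neg_zero, zero_sub, ← mul_sub]
      apply Dvd.dvd.mul_left
      rcases Nat.eq_zero_or_pos n with h | h
      · subst h
        simp
      · obtain ⟨j, rfl⟩ := Nat.exists_eq_succ_of_ne_zero h.ne'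
        rw [pow_succ, pow_succ]
        exact dvd_sub (Dvd.dvd.mul_left (dvd_neg.2 dvd_rfl) _) (Dvd.dvd.mul_left dvd_rfl _)

lemma nil (k : Type) [Field k] {S : Type} [CommRing S] [Algebra k S] (c : S) (hc : c = 0)
    (x : Dr S 0 c) : IsNilpotent (dinv 0 c k x - x) := by
  obtain ⟨y, hy⟩ := rt_dvd k c x
  refine ⟨2, ?_⟩
  have h := rt_eq (0 : S) c
  rw [hy, mul_pow]
  have h2 : rt 0 c ^ 2 = 0 := by
    rw [hc, map_zero, zero_mul, add_zero, add_zero] at h
    rw [hc]
    exact h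
  rw [h2, zero_mul]

/-- one hyperbolic plane -/
lemma step (hOISO : S_OISO.{v}) (hODCV : S_ODCV.{v}) (hOHYP : S_OHYP.{v}) (hORNG : S_ORNG)
    (k E : Type) [Field k] [Field E] [CharZero E] (T : ∀ i : ℕ, Homology.{v} k E i)
    (hT : Full T) (hP : Pub T hT) (h2 : (2 : k) ≠ 0) (n : ℕ) (A : Type) [CommRing A] [Algebra k A]
    [Algebra.FiniteType k A] (a : Fin (n + 2) → A) (ha : ∀ j, IsUnit (a j)) (δ : A)
    (hδ : δ * a 0 = a 1) (i : ℕ)
    (h : TR T i (Dr (MvPolynomial (Fin n) (Dr A 0 δ)) 0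
      (dia fun j => algebraMap A (Dr A 0 δ) (a j.succ.succ))) (dinv 0 _ k)) :
    TR T (i + 1) (Dr (MvPolynomial (Fin (n + 2)) A) 0 (dia a)) (dinv 0 (dia a) k) := by
  obtain ⟨e, t', h1, h3⟩ := hORNG k A n a δ h2 (ha 0) (ha 1) hδ
  have g1 := hOHYP k E T hT (MvPolynomial (Fin n) (Dr A 0 δ))
    (dia fun j => algebraMap A (Dr A 0 δ) (a j.succ.succ)) i h
  have g2 := hOISO k E T hT _ _ (dinv _ _ k) t' e.symm (fun y => by
    apply e.injective
    rw [h3, AlgEquiv.apply_symm_apply, AlgEquiv.apply_symm_apply]) (i + 1) g1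
  exact hODCV k E T hT hP _ 0 (algebraMap (MvPolynomial (Fin (n + 2)) A) _ (MvPolynomial.C δ))
    (dinv 0 (dia a) k) t' h1 (i + 1) g2

end ODIA

open ODIA

theorem t_ODIA : M_ODIA.{v} := by
  intro hONIL hOISO hODCV hOHYP hORNG k E _ _ _ T hT hP h2 m
  induction m with
  | zero =>
    intro A _ _ _ a _ i _
    have hc : dia a = 0 := by
      unfold dia
      exact Finset.sum_eq_zero (fun j _ => absurd j.2 (by omega))
    exact hONIL k E T hT _ (dinv 0 (dia a) k) (nil k (dia a) hc) i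
  | succ m ih =>
    intro A _ _ _ a ha i hi
    obtain ⟨i', rfl⟩ : ∃ i', i = i' + 1 := ⟨i - 1, by omega⟩
    have hu0 : IsUnit (a (0 : Fin (2 * m + 2))) := ha _
    obtain ⟨u, hu⟩ := hu0
    refine step hOISO hODCV hOHYP hORNG k E T hT hP h2 (2 * m) A a ha
      (a (1 : Fin (2 * m + 2)) * ↑u⁻¹) ?_ i' ?_
    · rw [← hu, mul_assoc, Units.inv_mul, mul_one]
    · exact ih (Dr A 0 _) _ (fun j => (ha _).map _) i' (by omega)

end QCV
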