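import Pool.Agent.QCV.StO

/-!
# QCV, module ODR (helper44): the quadric cone in an odd number of variables as a double cover
-/

set_option autoImplicit false

open Polynomial

namespace QCV

namespace ODR

variable {A : Type} [CommRing A] {n : ℕ}

lemma fin_dia (a : Fin (n + 1) → A) (b : Fin n → A) (h : ∀ j, b j * a 0 = a j.succ) :
    MvPolynomial.finSuccEquiv A n (dia a) =
      C (MvPolynomial.C (a 0)) * dpoly (0 : MvPolynomial (Fin n) A) (dia b) := by
  have h1 : ∀ r : A, MvPolynomial.finSuccEquiv A n (MvPolynomial.C r) =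
      C (MvPolynomial.C r) := fun r => by
    rw [MvPolynomial.finSuccEquiv_apply, MvPolynomial.eval₂Hom_C]
    rfl
  rw [dia, Fin.sum_univ_succ, map_add, map_mul, map_pow, h1, MvPolynomial.finSuccEquiv_X_zero,
    map_sum, dpoly, dia, map_sum, map_zero, zero_mul, add_zero, mul_add, Finset.mul_sum]
  congr 1
  refine Finset.sum_congr rfl fun j _ => ?_
  rw [map_mul, map_pow, h1, MvPolynomial.finSuccEquiv_X_succ, ← h j, mul_comm (b j), map_mul,
    map_mul, map_mul, map_pow, mul_assoc]

end ODR

open ODR in
/-- ODR: the quadric cone in an odd number of variables as a double cover. -/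
theorem t_ODR : S_ODR := by
  intro k A _ _ _ n a b h0 h
  have hu : IsUnit (C (MvPolynomial.C (a 0)) : (MvPolynomial (Fin n) A)[X]) :=
    (h0.map MvPolynomial.C).map C
  have hI : (Ideal.span {dpoly (0 : MvPolynomial (Fin n) A) (dia b)} :
      Ideal (MvPolynomial (Fin n) A)[X]) =
      (Ideal.span {dia a}).map
        (((MvPolynomial.finSuccEquiv A n).restrictScalars k : MvPolynomial (Fin (n + 1)) A ≃ₐ[k]
          (MvPolynomial (Fin n) A)[X]) : MvPolynomial (Fin (n + 1)) A →+*
          (MvPolynomial (Fin n) A)[X]) := by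
    rw [Ideal.map_span, Set.image_singleton]
    have h2 : (((MvPolynomial.finSuccEquiv A n).restrictScalars k :
        MvPolynomial (Fin (n + 1)) A ≃ₐ[k] (MvPolynomial (Fin n) A)[X]) :
        MvPolynomial (Fin (n + 1)) A →+* (MvPolynomial (Fin n) A)[X]) (dia a) =
        C (MvPolynomial.C (a 0)) * dpoly (0 : MvPolynomial (Fin n) A) (dia b) := fin_dia a b h
    rw [h2, Ideal.span_singleton_mul_left_unit hu]
  exact ⟨Ideal.quotientEquivAlg (Ideal.span {dia a}) _
    ((MvPolynomial.finSuccEquiv A n).restrictScalars k) hI⟩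

end QCV
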