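import Pool.Agent.QCV.StO
import Pool.Agent.QCV.R_LNR

/-!
# QCV, block O: the strata `y = 0` and `y ≠ 0` of `S[y, y'][t] / (t ^ 2 + y y' + c)`
-/

set_option autoImplicit false

open Polynomial

namespace QCV

open CUB VRQ

namespace OHYR

section Gen

variable {k : Type} [Field k] {A K : Type} [CommRing A] [Algebra k A] [CommRing K] [Algebra k K]
  (b c : A)

/-- The homomorphism on a double cover which is `θ` on the base and maps the root to `s`. -/
noncomputable def dl (θ : A →ₐ[k] K) (s : K) (h : s ^ 2 + θ b * s + θ c = 0) :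
    Dr A b c →ₐ[k] K where
  toRingHom := AdjoinRoot.lift θ.toRingHom s ((eval₂_dpoly b c _ _).trans h)
  commutes' r := by
    have h1 : algebraMap k (Dr A b c) r = algebraMap A (Dr A b c) (algebraMap k A r) := rfl
    rw [h1]
    exact (AdjoinRoot.lift_of _).trans (θ.commutes r)

lemma dl_of (θ : A →ₐ[k] K) (s : K) (h : s ^ 2 + θ b * s + θ c = 0) (a : A) :
    dl b c θ s h (algebraMap A (Dr A b c) a) = θ a :=
  AdjoinRoot.lift_of ((eval₂_dpoly b c _ _).trans h)

lemma dl_rt (θ : A →ₐ[k] K) (s : K) (h : s ^ 2 + θ b * s + θ c = 0) :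
    dl b c θ s h (rt b c) = s :=
  AdjoinRoot.lift_root ((eval₂_dpoly b c _ _).trans h)

variable {b c}

lemma dr_ext {α β : Dr A b c →ₐ[k] K}
    (h1 : ∀ a, α (algebraMap A (Dr A b c) a) = β (algebraMap A (Dr A b c) a))
    (h2 : α (rt b c) = β (rt b c)) : α = β := by
  have h : α.toRingHom = β.toRingHom := AdjoinRoot.ringHom_ext (RingHom.ext h1) h2
  exact AlgHom.ext fun x => RingHom.congr_fun h x

end Gen

section HWs

variable {k : Type} [Field k] {S : Type} [CommRing S] [Algebra k S] (c : S)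

variable (k) in
/-- The inclusion of the base. -/
noncomputable def ib : S[X][X] →ₐ[k] HW S c := IsScalarTower.toAlgHom k S[X][X] (HW S c)

/-- The root. -/
noncomputable def tH : HW S c := rt 0 (C X * X + C (C c))

lemma relH : tH c ^ 2 + ib k c (C X) * ib k c X + ib k c (C (C c)) = 0 := by
  have h := rt_eq (A := S[X][X]) 0 (C X * X + C (C c))
  rw [map_zero, zero_mul, add_zero, map_add, map_mul, ← add_assoc] at h
  exact h

variable {c}

lemma hw_ext {K : Type} [CommRing K] [Algebra k K] {α β : HW S c →ₐ[k] K}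
    (h0 : ∀ s, α (ib k c (C (C s))) = β (ib k c (C (C s))))
    (h1 : α (ib k c (C X)) = β (ib k c (C X))) (h2 : α (ib k c X) = β (ib k c X))
    (h3 : α (tH c) = β (tH c)) : α = β := by
  refine dr_ext (fun a => ?_) h3
  have e1 : (α.comp (ib k c)).comp (CC k S[X]) = (β.comp (ib k c)).comp (CC k S[X]) :=
    pl_ext h0 h1
  have e2 : α.comp (ib k c) = β.comp (ib k c) := pl_ext (fun p => AlgHom.congr_fun e1 p) h2
  exact AlgHom.congr_fun e2 a

variable (k c)

/-- `y ↦ 0`, `y' ↦ X` -/
noncomputable def z0 : S[X][X] →ₐ[k] (Dr S 0 c)[X] :=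
  evs (evs ((CC k (Dr S 0 c)).comp (drHom 0 c k)) 0) X

lemma z0_CC (s : S) : z0 k c (C (C s)) = C (algebraMap S (Dr S 0 c) s) := by
  rw [z0, evs_C, evs_C]
  rfl

lemma z0_CX : z0 k c (C X) = 0 := by
  rw [z0, evs_C, evs_X]

lemma z0_X : z0 k c X = X := by
  rw [z0, evs_X]

lemma z0_rel : (C (rt 0 c) : (Dr S 0 c)[X]) ^ 2 + z0 k c 0 * C (rt 0 c) +
    z0 k c (C X * X + C (C c)) = 0 := by
  have h := rt_eq 0 c
  rw [map_zero, zero_mul, add_zero] at h
  rw [map_zero, zero_mul, add_zero, map_add, map_mul, z0_CX, zero_mul, zero_add, z0_CC, ← C_pow,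
    ← C_add, h, C_0]

/-- The closed stratum. -/
noncomputable def zH : HW S c →ₐ[k] (Dr S 0 c)[X] := dl _ _ (z0 k c) (C (rt 0 c)) (z0_rel k c)

lemma zH_ib (p : S[X][X]) : zH k c (ib k c p) = z0 k c p := dl_of _ _ _ _ _ _

lemma zH_t : zH k c (tH c) = C (rt 0 c) := dl_rt _ _ _ _ _

lemma zH_CC (s : S) : zH k c (ib k c (C (C s))) = C (algebraMap S (Dr S 0 c) s) := by
  rw [zH_ib, z0_CC]

lemma zH_CX : zH k c (ib k c (C X)) = 0 := by
  rw [zH_ib, z0_CX]

lemma zH_X : zH k c (ib k c X) = X := by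
  rw [zH_ib, z0_X]

lemma zH_surjective : Function.Surjective (zH k c) := by
  have hC : ∀ a : Dr S 0 c, ∃ x, zH k c x = C a := by
    intro a
    obtain ⟨p, rfl⟩ := AdjoinRoot.mk_surjective a
    induction p using Polynomial.induction_on' with
    | add p q hp hq =>
      obtain ⟨x, hx⟩ := hp
      obtain ⟨y, hy⟩ := hq
      exact ⟨x + y, by rw [map_add, map_add, C_add, hx, hy]⟩
    | monomial n s =>
      refine ⟨ib k c (C (C s)) * tH c ^ n, ?_⟩
      rw [map_mul, map_pow, zH_CC, zH_t, ← C_mul_X_pow_eq_monomial, map_mul, map_pow, ← C_pow,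
        ← C_mul]
      rfl
  intro p
  induction p using Polynomial.induction_on' with
  | add p q hp hq =>
    obtain ⟨x, hx⟩ := hp
    obtain ⟨y, hy⟩ := hq
    exact ⟨x + y, by rw [map_add, hx, hy]⟩
  | monomial n a =>
    obtain ⟨x, hx⟩ := hC a
    refine ⟨x * ib k c X ^ n, ?_⟩
    rw [map_mul, map_pow, hx, zH_X, C_mul_X_pow_eq_monomial]

lemma zH_ker : RingHom.ker (zH k c).toRingHom = Ideal.span {ib k c (C X)} := by
  apply le_antisymm
  · intro x hx
    let I : Ideal (HW S c) := Ideal.span {ib k c (C X)}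
    let m : HW S c →ₐ[k] HW S c ⧸ I := Ideal.Quotient.mkₐ k I
    have hm0 : m (ib k c (C X)) = 0 := Ideal.Quotient.eq_zero_iff_mem.mpr (Ideal.subset_span rfl)
    let m0 : S →ₐ[k] HW S c ⧸ I := ((m.comp (ib k c)).comp (CC k S[X])).comp (CC k S)
    have hrel : m (tH c) ^ 2 + m0 0 * m (tH c) + m0 c = 0 := by
      have h := congrArg m (relH (k := k) c)
      rw [map_add, map_add, map_mul, hm0, zero_mul, add_zero, map_pow, map_zero] at h
      rw [map_zero, zero_mul, add_zero]
      exact h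
    let g : (Dr S 0 c)[X] →ₐ[k] HW S c ⧸ I := evs (dl 0 c m0 (m (tH c)) hrel) (m (ib k c X))
    have h1 : m = g.comp (zH k c) := by
      apply hw_ext
      · intro s
        rw [AlgHom.comp_apply, zH_CC, evs_C, dl_of]
        rfl
      · rw [AlgHom.comp_apply, zH_CX, map_zero, hm0]
      · rw [AlgHom.comp_apply, zH_X, evs_X]
      · rw [AlgHom.comp_apply, zH_t, evs_C, dl_rt]
    have h2 := AlgHom.congr_fun h1 x
    have h3 : zH k c x = 0 := hx
    rw [AlgHom.comp_apply, h3, map_zero] at h2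
    exact Ideal.Quotient.eq_zero_iff_mem.mp h2
  · rw [Ideal.span_singleton_le_iff_mem]
    exact zH_CX k c

/-- The inverse of `x`. -/
noncomputable def iv (S : Type) [CommRing S] : Localization.Away (X : S[X]) :=
  IsLocalization.Away.invSelf (R := S[X]) (X : S[X])

lemma aw_iv : awayHom k (X : S[X]) X * iv S = 1 :=
  IsLocalization.Away.mul_invSelf (R := S[X]) (X : S[X])

/-- `y ↦ x`, `y' ↦ - x⁻¹ (X ^ 2 + c)` -/
noncomputable def u0 : S[X][X] →ₐ[k] (Localization.Away (X : S[X]))[X] :=
  evs ((CC k (Localization.Away (X : S[X]))).comp (awayHom k (X : S[X])))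
    (-(C (iv S) * (X ^ 2 + C (awayHom k (X : S[X]) (C c)))))

lemma u0_C (p : S[X]) : u0 k c (C p) = C (awayHom k (X : S[X]) p) := by
  rw [u0, evs_C]
  rfl

lemma u0_X : u0 k c X = -(C (iv S) * (X ^ 2 + C (awayHom k (X : S[X]) (C c)))) := by
  rw [u0, evs_X]

lemma u0_rel : (X : (Localization.Away (X : S[X]))[X]) ^ 2 + u0 k c 0 * X +
    u0 k c (C X * X + C (C c)) = 0 := by
  have h : (C (awayHom k (X : S[X]) X) : (Localization.Away (X : S[X]))[X]) * C (iv S) = 1 := by
    rw [← C_mul, aw_iv, C_1]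
  rw [map_zero, zero_mul, add_zero, map_add, map_mul, u0_C, u0_C, u0_X]
  linear_combination (-(X ^ 2 + C (awayHom k (X : S[X]) (C c)))) * h

/-- The open stratum. -/
noncomputable def uH : HW S c →ₐ[k] (Localization.Away (X : S[X]))[X] :=
  dl _ _ (u0 k c) X (u0_rel k c)

lemma uH_ib (p : S[X][X]) : uH k c (ib k c p) = u0 k c p := dl_of _ _ _ _ _ _

lemma uH_t : uH k c (tH c) = X := dl_rt _ _ _ _ _

lemma uH_C (p : S[X]) : uH k c (ib k c (C p)) = C (awayHom k (X : S[X]) p) := by
  rw [uH_ib, u0_C]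

lemma uH_X : uH k c (ib k c X) = -(C (iv S) * (X ^ 2 + C (awayHom k (X : S[X]) (C c)))) := by
  rw [uH_ib, u0_X]

lemma uH_away : @IsLocalization.Away (HW S c) _ (ib k c (C X)) (Localization.Away (X : S[X]))[X] _
    (uH k c).toRingHom.toAlgebra := by
  let a : HW S c := ib k c (C X)
  let aw : HW S c →ₐ[k] Localization.Away a := awayHom k a
  let ba : S[X] →ₐ[k] Localization.Away a := (aw.comp (ib k c)).comp (CC k S[X])
  have hau : IsUnit (ba X) := IsLocalization.Away.algebraMap_isUnit a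
  have hyu : ∀ y : Submonoid.powers (X : S[X]), IsUnit (ba y) := by
    rintro ⟨_, n, rfl⟩
    change IsUnit (ba (X ^ n))
    rw [map_pow]
    exact hau.pow n
  let β₀ : Localization.Away (X : S[X]) →ₐ[k] Localization.Away a :=
    IsLocalization.liftAlgHom (M := Submonoid.powers (X : S[X])) (f := ba) hyu
  have hβ₀ : ∀ x : S[X], β₀ (awayHom k (X : S[X]) x) = ba x := fun x =>
    IsLocalization.lift_eq (M := Submonoid.powers (X : S[X])) (g := ba.toRingHom) hyu x
  let β : (Localization.Away (X : S[X]))[X] →ₐ[k] Localization.Away a := evs β₀ (aw (tH c))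
  have hua : IsUnit ((uH k c).toRingHom a) := by
    change IsUnit (uH k c (ib k c (C X)))
    rw [uH_C]
    refine IsUnit.of_mul_eq_one (C (iv S)) ?_
    rw [← C_mul, aw_iv, C_1]
  let α : Localization.Away a →+* (Localization.Away (X : S[X]))[X] := IsLocalization.Away.lift a hua
  have hα : ∀ x, α (algebraMap (HW S c) _ x) = uH k c x := fun x => IsLocalization.Away.lift_eq a hua x
  have h0 : β.comp (uH k c) = aw := by
    have hC : ∀ p : S[X], β (uH k c (ib k c (C p))) = aw (ib k c (C p)) := by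
      intro p
      rw [uH_C, evs_C, hβ₀]
      rfl
    apply hw_ext
    · intro s
      exact hC (C s)
    · exact hC X
    · rw [AlgHom.comp_apply, uH_X, map_neg, map_mul, map_add, map_pow, evs_C, evs_C, evs_X, hβ₀]
      have h2 : aw (ib k c (C X)) * β₀ (iv S) = 1 := by
        have h3 : aw (ib k c (C X)) = β₀ (awayHom k (X : S[X]) X) := (hβ₀ X).symm
        rw [h3, ← map_mul, aw_iv, map_one]
      have h5 := congrArg aw (relH (k := k) c)
      rw [map_add, map_add, map_mul, map_zero, map_pow] at h5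
      have h6 : ba (C c) = aw (ib k c (C (C c))) := rfl
      rw [h6]
      linear_combination (-β₀ (iv S)) * h5 + aw (ib k c X) * h2
    · rw [AlgHom.comp_apply, uH_t, evs_X]
  refine away_of_inv a _ α β.toRingHom hα ?_ ?_
  · apply IsLocalization.ringHom_ext (Submonoid.powers a)
    refine RingHom.ext fun x => ?_
    change β (α (algebraMap (HW S c) _ x)) = algebraMap (HW S c) _ x
    rw [hα]
    exact AlgHom.congr_fun h0 x
  · apply Polynomial.ringHom_ext'
    · apply IsLocalization.ringHom_ext (Submonoid.powers (X : S[X]))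
      refine RingHom.ext fun x => ?_
      change α (β (C (awayHom k (X : S[X]) x))) = C (awayHom k (X : S[X]) x)
      rw [evs_C, hβ₀]
      exact (hα _).trans (uH_C k c x)
    · change α (β X) = X
      rw [evs_X]
      exact (hα _).trans (uH_t k c)

lemma dinv_ib (p : S[X][X]) : dinv 0 (C X * X + C (C c)) k (ib k c p) = ib k c p :=
  dinv_of _ _ _ _

lemma dinv_t : dinv 0 (C X * X + C (C c)) k (tH c) = - tH c := by
  have h := dinv_rt (A := S[X][X]) 0 (C X * X + C (C c)) k
  rw [map_zero, neg_zero, zero_sub] at h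
  exact h

end HWs

end OHYR

open OHYR in
theorem t_OHYR : S_OHYR := by
  intro k S _ _ _ c
  let tZ : (Dr S 0 c)[X] ≃ₐ[k] (Dr S 0 c)[X] := Polynomial.mapAlgEquiv (dinv 0 c k)
  let tU : (Localization.Away (X : S[X]))[X] ≃ₐ[k] (Localization.Away (X : S[X]))[X] :=
    (algEquivAevalNegX (R := Localization.Away (X : S[X]))).restrictScalars k
  have hZC : ∀ a, tZ (C a) = C (dinv 0 c k a) := fun a => Polynomial.map_C _
  have hZX : tZ X = X := Polynomial.map_X _
  have hUC : ∀ a, tU (C a) = C a := fun a => AlgEquiv.commutes (algEquivAevalNegX (R := _)) a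
  have hUX : tU X = -X := by
    change algEquivAevalNegX (R := Localization.Away (X : S[X])) X = -X
    simp
  refine ⟨zH k c, uH k c, tZ, tU, ⟨zH_surjective k c, zH_ker k c, uH_away k c⟩, ?_, ?_, hZC, hUC⟩
  · have h : (zH k c).comp (dinv 0 (C X * X + C (C c)) k).toAlgHom =
        tZ.toAlgHom.comp (zH k c) := by
      apply hw_ext
      · intro s
        change zH k c (dinv 0 (C X * X + C (C c)) k _) = tZ (zH k c _)
        rw [dinv_ib, zH_CC, hZC, dinv_of]
      · change zH k c (dinv 0 (C X * X + C (C c)) k _) = tZ (zH k c _)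
        rw [dinv_ib, zH_CX, map_zero]
      · change zH k c (dinv 0 (C X * X + C (C c)) k _) = tZ (zH k c _)
        rw [dinv_ib, zH_X, hZX]
      · change zH k c (dinv 0 (C X * X + C (C c)) k _) = tZ (zH k c _)
        rw [dinv_t, map_neg, zH_t, hZC, dinv_rt, map_zero, neg_zero, zero_sub, C_neg]
    exact fun x => AlgHom.congr_fun h x
  · have h : (uH k c).comp (dinv 0 (C X * X + C (C c)) k).toAlgHom =
        tU.toAlgHom.comp (uH k c) := by
      apply hw_ext
      · intro s
        change uH k c (dinv 0 (C X * X + C (C c)) k _) = tU (uH k c _)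
        rw [dinv_ib, uH_C, hUC]
      · change uH k c (dinv 0 (C X * X + C (C c)) k _) = tU (uH k c _)
        rw [dinv_ib, uH_C, hUC]
      · change uH k c (dinv 0 (C X * X + C (C c)) k _) = tU (uH k c _)
        rw [dinv_ib, uH_X, map_neg, map_mul, map_add, map_pow, hUC, hUC, hUX]
        ring
      · change uH k c (dinv 0 (C X * X + C (C c)) k _) = tU (uH k c _)
        rw [dinv_t, map_neg, uH_t, hUX]
    exact fun x => AlgHom.congr_fun h x

end QCV
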