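import Pool.Agent.QCV.StO

/-!
# QCV, block O: cycles rationally equivalent to zero lift to a double cover
-/

set_option autoImplicit false

open CategoryTheory AlgebraicGeometry Limits Polynomial TopologicalSpace

namespace QCV

open Pool.Agent.Lib_helper55.Beil Pool.Agent.Lib_helper66.OneP CUB

universe v

namespace OLFT

variable {k : Type} [Field k] {E : Type} [Field E]

/-! ## The double cover is surjective -/

lemma algebraMap_dr_injective {A : Type} [CommRing A] (b c : A) :
    Function.Injective (algebraMap A (Dr A b c)) := by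
  intro x y h
  nontriviality A
  have hdeg : (dpoly b c).natDegree = 2 := by
    unfold dpoly
    compute_degree!
  have hlt : ∀ z : A, (C z : A[X]).degree < (dpoly b c).degree := by
    intro z
    refine lt_of_le_of_lt Polynomial.degree_C_le ?_
    rw [Polynomial.degree_eq_natDegree (dpoly_monic b c).ne_zero, hdeg]
    norm_num
  have h1 : AdjoinRoot.mk (dpoly b c) (C x) = AdjoinRoot.mk (dpoly b c) (C y) := h
  have h2 := congrArg (AdjoinRoot.modByMonicHom (dpoly_monic b c)) h1
  rw [AdjoinRoot.modByMonicHom_mk, AdjoinRoot.modByMonicHom_mk,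
    (Polynomial.modByMonic_eq_self_iff (dpoly_monic b c)).mpr (hlt x),
    (Polynomial.modByMonic_eq_self_iff (dpoly_monic b c)).mpr (hlt y)] at h2
  exact Polynomial.C_injective h2

lemma comap_drHom_surjective {A : Type} [CommRing A] [Algebra k A] (b c : A) :
    Function.Surjective (PrimeSpectrum.comap (drHom b c k).toRingHom) := by
  have h1 : FaithfulSMul A (Dr A b c) :=
    (faithfulSMul_iff_algebraMap_injective A (Dr A b c)).mpr (algebraMap_dr_injective b c)
  have h2 : Algebra.IsIntegral A (Dr A b c) := inferInstance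
  exact Algebra.IsIntegral.comap_surjective A (Dr A b c)

lemma dbl_surjective {A : Type} [CommRing A] [Algebra k A] [Algebra.FiniteType k A] (b c : A) :
    Function.Surjective (dbl b c k).g := by
  intro v
  obtain ⟨q, hq⟩ := comap_drHom_surjective (k := k) b c (ofPt v)
  exact ⟨toPt q, hq⟩

/-! ## The closure of a point -/

/-- The closure of a point as a closed set. -/
def clPt {X : Var k} (w : X.X) : Closeds X.X := ⟨closure {w}, isClosed_closure⟩

lemma isIntegral_clPt {X : Var k} (w : X.X) : IsIntegral (closedVar X (clPt w)).X :=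
  REDI.isIntegral_closedVar X (clPt w) isIrreducible_singleton.closure

lemma genericPoint_clPt {X : Var k} (w : X.X) [IsIntegral (closedVar X (clPt w)).X] :
    (closedVarIn X (clPt w)).g (genericPoint (closedVar X (clPt w)).X) = w := by
  have h1 := (genericPoint_spec (closedVar X (clPt w)).X).image
    (closedVarIn X (clPt w)).g.continuous
  rw [Set.image_univ] at h1
  have h2 : Set.range (closedVarIn X (clPt w)).g = closure {w} := range_closedVarIn X (clPt w)
  rw [h2, closure_closure] at h1
  exact h1.eq isGenericPoint_closure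

/-! ## Factorisation through a closed subvariety -/

lemma exists_lift {Z X W : Var k} (a : ClosedIn Z X) [IsReduced W.X] (F : PrMor W X)
    (h : ∀ w, F.g w ∈ Set.range a.g) : ∃ l : PrMor W Z, l.g ≫ a.g = F.g := by
  have h1 : a.g.ker ≤ Scheme.IdealSheafData.vanishingIdeal (ran a) := by
    rw [← Scheme.IdealSheafData.le_support_iff_le_vanishingIdeal]
    intro x hx
    have h3 : ((a.g.ker.support : Closeds X.X) : Set X.X) = closure (Set.range a.g) :=
      Scheme.Hom.support_ker _
    change x ∈ ((a.g.ker.support : Closeds X.X) : Set X.X)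
    rw [h3]
    exact subset_closure hx
  have h2 : a.g.ker ≤ F.g.ker := h1.trans (vanishingIdeal_le_ker F.g _ h)
  have h4 : IsClosedImmersion.lift a.g F.g h2 ≫ a.g = F.g := IsClosedImmersion.lift_fac _ _ _
  have h5 : IsProper (IsClosedImmersion.lift a.g F.g h2) := by
    have : IsProper (IsClosedImmersion.lift a.g F.g h2 ≫ a.g) := by
      rw [h4]
      infer_instance
    exact IsProper.of_comp (IsClosedImmersion.lift a.g F.g h2) a.g
  refine ⟨⟨IsClosedImmersion.lift a.g F.g h2, ?_, h5⟩, h4⟩
  rw [← a.comm, ← Category.assoc, h4, F.comm]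

/-! ## The divisor of a power -/

lemma ord_pow_aux {X : Scheme.{0}} [IsIntegral X] [IsLocallyNoetherian X] (φ : X.functionField)
    (hφ : φ ≠ 0) (n : ℕ) (x : X) : Scheme.ord (φ ^ n) x = (n : ℤ) * Scheme.ord φ x := by
  induction n with
  | zero =>
    have h1 := Scheme.ord_mul (f := (1 : X.functionField)) (g := 1) one_ne_zero one_ne_zero (x := x)
    rw [mul_one] at h1
    rw [pow_zero]
    push_cast
    have h2 : Scheme.ord (1 : X.functionField) x = 0 := by
      have h3 : Scheme.ord (1 : X.functionField) x =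
        Scheme.ord (1 : X.functionField) x + Scheme.ord (1 : X.functionField) x := h1
      linarith
    rw [h2, zero_mul]
  | succ n ih =>
    have h1 := Scheme.ord_mul (pow_ne_zero n hφ) hφ (x := x)
    rw [pow_succ]
    have h3 : Scheme.ord (φ ^ n * φ) x = Scheme.ord (φ ^ n) x + Scheme.ord φ x := h1
    rw [h3, ih]
    push_cast
    ring

lemma isDiv_pow {i : ℕ} {V X : Var k} [IsIntegral V.X] (a : ClosedIn V X)
    (φ : V.X.functionField) (hφ : φ ≠ 0) (n : ℕ) (d : Pts i X →₀ E) (hd : IsDiv a φ d) :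
    IsDiv a (φ ^ n) ((n : E) • d) := by
  constructor
  · intro w h
    rw [Finsupp.smul_apply, hd.1 w h, ord_pow_aux φ hφ n w, smul_eq_mul]
    push_cast
    rfl
  · intro x hx
    rw [Finsupp.smul_apply, hd.2 x hx, smul_zero]

/-! ## Finiteness of the extension of the function fields -/

open PUSHD in
lemma finite_fm {n : ℕ} {W V : Var k} (hW : IsIntegral W.X) (hV : IsIntegral V.X) (f : PrMor W V)
    (hfg : f.g (genericPoint W.X) = genericPoint V.X)
    (hdW : W.dim (genericPoint W.X) = (n + 1 : ℕ)) (hdV : V.dim (genericPoint V.X) = (n + 1 : ℕ))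
    (y : Pts n V) :
    @Module.Finite V.X.functionField W.X.functionField _ _
      (fm f.g hfg).hom.toAlgebra.toModule := by
  have hCHA := CUB.Asm2.s_CHA
  obtain ⟨B, D, iB, iD, aB, aD, fB, fD, ψ, j, j₁, hcomm, hfin, hinj, hv, hpre⟩ :=
    CUB.Asm2.s_FOV k n W V hW hV f y.1 hdW hdV hfg y.2
  obtain ⟨b₀, hb₀⟩ := hv
  have dB : IsDomain B := hCHA.2.1 k B V hV j b₀
  have hgV : genericPoint V.X ∈ Set.range j.g := by
    have h1 : genericPoint V.X ⤳ j.g b₀ := genericPoint_specializes _
    exact h1.mem_open j.g.isOpenEmbedding.isOpen_range ⟨b₀, rfl⟩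
  obtain ⟨d₀, hd₀⟩ := hpre (genericPoint W.X) (by rw [hfg]; exact hgV)
  have dD : IsDomain D := hCHA.2.1 k D W hW j₁ d₀
  have hc0 : ∀ b, (fm f.g hfg).hom (be j b) = be j₁ (ψ b) := fm_be f.g hfg ψ j j₁ hcomm
  exact fin_alg (be j) (be j₁) (fm f.g hfg).hom ψ (be_inj j) (be_inj j₁) (be_frac j) (be_frac j₁)
    hc0 hfin

/-! ## A generator -/

lemma lift_gen (hOPDN : S_OPDN) [CharZero E] {A : Type} [CommRing A] [Algebra k A]
    [Algebra.FiniteType k A] (b c : A) (i : ℕ) (V : Var k) (hV : IsIntegral V.X)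
    (a : ClosedIn V (aff k A)) (φ : V.X.functionField)
    (hdV : V.dim (genericPoint V.X) = (i + 1 : ℕ)) (hφ : φ ≠ 0)
    (z : Pts i (aff k A) →₀ E) (hz : IsDiv a φ z) :
    ∃ c' ∈ ratZero E i (aff k (Dr A b c)), pfc E i (dbl b c k) c' = z := by
  obtain ⟨d, hd⟩ := exists_div (E := E) (i := i) (idIn V) φ hφ
  have hzd : z = pushCyc a d := isDiv_unique a φ z _ hz (PUSHG.isDiv_pushCyc a φ d hd)
  by_cases hd0 : d = 0
  · refine ⟨0, zero_mem _, ?_⟩
    rw [map_zero, hzd, hd0]
    exact (Finsupp.mapDomain_zero).symm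
  obtain ⟨y, hy⟩ := Finsupp.ne_iff.mp hd0
  -- the subvariety of the double cover
  obtain ⟨w₀, hw₀⟩ := dbl_surjective (k := k) b c (a.g (genericPoint V.X))
  have hW : IsIntegral (closedVar (aff k (Dr A b c)) (clPt w₀)).X := isIntegral_clPt w₀
  set W : Var k := closedVar (aff k (Dr A b c)) (clPt w₀) with hWdef
  set β : ClosedIn W (aff k (Dr A b c)) := closedVarIn (aff k (Dr A b c)) (clPt w₀) with hβdef
  have hβ : β.g (genericPoint W.X) = w₀ := genericPoint_clPt w₀
  let F : PrMor W (aff k A) := (clPr β).trans (dbl b c k)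
  have hFg : F.g = β.g ≫ (dbl b c k).g := rfl
  have hFgen : F.g (genericPoint W.X) = a.g (genericPoint V.X) := by
    rw [hFg, Scheme.Hom.comp_apply, hβ, hw₀]
  have hran : ∀ w, F.g w ∈ Set.range a.g := by
    intro w
    have h1 : genericPoint W.X ⤳ w := genericPoint_specializes _
    have h2 : F.g (genericPoint W.X) ⤳ F.g w := h1.map F.g.continuous
    have h3 : IsClosed (Set.range a.g) := a.g.isClosedEmbedding.isClosed_range
    exact h2.mem_closed h3 (by rw [hFgen]; exact ⟨_, rfl⟩)
  obtain ⟨f, hf⟩ := exists_lift a F hran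
  have hfg : f.g (genericPoint W.X) = genericPoint V.X := by
    apply closedIn_injective a
    rw [← Scheme.Hom.comp_apply, hf, hFgen]
  have hdW : W.dim (genericPoint W.X) = (i + 1 : ℕ) := by
    rw [← dim_map β.g β.comm, hβ, ← dim_dbl b c w₀, hw₀, dim_map a.g a.comm, hdV]
  -- the function
  have hfin := finite_fm hW hV f hfg hdW hdV y
  let ι : V.X.functionField →+* W.X.functionField := (PUSHD.fm f.g hfg).hom
  let aι : Algebra V.X.functionField W.X.functionField := ι.toAlgebra
  have hfin' : Module.Finite V.X.functionField W.X.functionField := hfin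
  have hφ' : ι φ ≠ 0 := (map_ne_zero_iff ι ι.injective).mpr hφ
  obtain ⟨e, he⟩ := exists_div (E := E) (i := i) (idIn W) (ι φ) hφ'
  let δ : ℕ := Module.finrank V.X.functionField W.X.functionField
  have hδ : 0 < δ := Module.finrank_pos
  have hnorm : Algebra.norm V.X.functionField (ι φ) = φ ^ δ := Algebra.norm_algebraMap φ
  have hdn : IsDiv (idIn V) (Algebra.norm V.X.functionField (ι φ)) ((δ : E) • d) := by
    rw [hnorm]
    exact isDiv_pow (idIn V) φ hφ δ d hd
  have hpd : pfc E i f e = (δ : E) • d :=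
    hOPDN k E i W V hW hV f hfg (ι φ) e ((δ : E) • d) hdW hdV hφ' he hdn
  -- the cycle
  have hδE : (δ : E) ≠ 0 := Nat.cast_ne_zero.mpr hδ.ne'
  refine ⟨(δ : E)⁻¹ • pushCyc β e, Submodule.smul_mem _ _ (Submodule.subset_span
    ⟨W, hW, β, ι φ, hdW, hφ', PUSHG.isDiv_pushCyc β (ι φ) e he⟩), ?_⟩
  obtain ⟨-, hfun, hcl, -, -, -⟩ := CUB.Asm2.s_PFC.{0}
  have h1 : pfc E i (dbl b c k) (pushCyc β e) = (δ : E) • z := by
    rw [← hcl k E i W _ β (clPr β) rfl e, hfun k E i W _ _ (clPr β) (dbl b c k) F rfl e,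
      ← hfun k E i W V _ f (clPr a) F hf e, hpd, hcl k E i V _ a (clPr a) rfl, hzd]
    exact Finsupp.mapDomain_smul _ _
  rw [map_smul, h1, smul_smul, inv_mul_cancel₀ hδE, one_smul]

end OLFT

open OLFT in
theorem t_OLFT : M_OLFT := by
  intro hOPDN k E _ _ _ A _ _ _ b c i z hz
  induction hz using Submodule.span_induction with
  | mem z hz =>
    obtain ⟨V, hV, a, φ, h1, h2, h3⟩ := hz
    exact lift_gen hOPDN b c i V hV a φ h1 h2 z h3
  | zero => exact ⟨0, zero_mem _, map_zero _⟩
  | add x y _ _ hx hy =>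
    obtain ⟨x', hx', rfl⟩ := hx
    obtain ⟨y', hy', rfl⟩ := hy
    exact ⟨x' + y', add_mem hx' hy', map_add _ _ _⟩
  | smul r x _ hx =>
    obtain ⟨x', hx', rfl⟩ := hx
    exact ⟨r • x', Submodule.smul_mem _ _ hx', map_smul _ _ _⟩

end QCV
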