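import Pool.Agent.QCV.StO

/-!
# QCV, module OODD: quadric cones in an odd number of variables (assembly)
-/

set_option autoImplicit false

open CategoryTheory AlgebraicGeometry Polynomial

namespace QCV

open Pool.Agent.Lib_helper55.Beil Pool.Agent.Lib_helper66.OneP CUB

universe v

namespace OODD

/-- in characteristic two the involution `t ↦ - t` is the identity -/
lemma dinv_eq_self (k : Type) [Field k] {S : Type} [CommRing S] [Algebra k S] (c : S)
    (h2 : (2 : k) = 0) (x : Dr S 0 c) : dinv 0 c k x = x := by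
  have h : dinvHom 0 c = RingHom.id (Dr S 0 c) := by
    apply AdjoinRoot.ringHom_ext
    · ext a
      exact dinvHom_of 0 c a
    · change dinvHom 0 c (rt 0 c) = rt 0 c
      rw [dinvHom_rt, map_zero, neg_zero, zero_sub]
      have h3 : (2 : Dr S 0 c) = 0 := by
        have h4 := congrArg (algebraMap k (Dr S 0 c)) h2
        rwa [map_ofNat, map_zero] at h4
      linear_combination (- (rt 0 c)) * h3
  exact RingHom.congr_fun h x

variable {k : Type} [Field k] {E : Type} [Field E] {T : ∀ i : ℕ, Homology.{v} k E i}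

lemma ppf_mv [Finite k] [CharZero E] (hT : Full T) (hP : Pub T hT) (A : Type) [CommRing A]
    [Algebra k A] [Algebra.FiniteType k A] (n : ℕ) (hA : PPF T (aff k A)) :
    PPF T (aff k (MvPolynomial (Fin n) A)) :=
  (Asm.s_PLY k (fun A [CommRing A] [Algebra k A] [Algebra.FiniteType k A] => PPF T (aff k A))
    (cls0_ppf hT hP) (fun A _ _ _ h => ppf_line hT hP A h) A n).1 hA

/-- the claim in the levels `i ≥ m` -/
lemma claim [Finite k] [CharZero E] (h1 : S_ONIL.{v}) (h2 : S_ODIA.{v}) (h3 : S_OPFD.{v})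
    (hT : Full T) (S : DblMaps T) (hP : Pub T hT) (hF : S.Frobenius)
    (hD : S.Degree hT.toProperMaps) (hC : S.Classes) (hG : S.Galois hT.toProperMaps) (A : Type)
    [CommRing A] [Algebra k A] [Algebra.FiniteType k A] (m : ℕ) (b : Fin (2 * m) → A)
    (hb : ∀ j, IsUnit (b j)) (hA : PPF T (aff k A)) (i : ℕ) (hi : m ≤ i) :
    PF (T i) (aff k (Dr (MvPolynomial (Fin (2 * m)) A) 0 (dia b))) := by
  refine h3 k E T hT S hP hF hD hC hG (MvPolynomial (Fin (2 * m)) A) 0 (dia b) i
    (ppf_mv hT hP A (2 * m) hA i) ?_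
  by_cases h : (2 : k) = 0
  · refine h1 k E T hT _ _ (fun x => ?_) i
    rw [dinv_eq_self k _ h, sub_self]
    exact IsNilpotent.zero
  · exact h2 k E T hT hP h m A b hb i hi

end OODD

theorem t_OODD : M_OODD.{v} := by
  intro h1 h2 h3 h4 h5 k E _ _ _ _ T hT S hP hS hF hD hC hG A _ _ _ m a ha hA i
  obtain ⟨u, hu⟩ := ha 0
  have hb : ∀ j : Fin (2 * m), IsUnit (a j.succ * (↑u⁻¹ : A)) :=
    fun j => (ha _).mul (Units.isUnit _)
  have hba : ∀ j : Fin (2 * m), a j.succ * (↑u⁻¹ : A) * a 0 = a j.succ := by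
    intro j
    rw [← hu, mul_assoc, Units.inv_mul, mul_one]
  obtain ⟨e⟩ := h4 k A (2 * m) a (fun j => a j.succ * (↑u⁻¹ : A)) (ha 0) hba
  refine pf_viso hT hP i (viso e) ?_
  refine pf_mv_desc hT hP hS _ i m ?_
  obtain ⟨e'⟩ := h5 k A (2 * m) m (fun j => a j.succ * (↑u⁻¹ : A))
  refine pf_viso hT hP (i + m) (viso e'.symm) ?_
  exact OODD.claim h1 h2 h3 hT S hP hF hD hC hG (MvPolynomial (Fin m) A) m
    (fun j => MvPolynomial.C (a j.succ * (↑u⁻¹ : A))) (fun j => (hb j).map _)
    (OODD.ppf_mv hT hP A m hA) (i + m) (by omega)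

end QCV
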