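import Pool.Agent.QCV.StO

/-!
# QCV, module OPDN: push-forward of the divisor of a rational function (explicit form)

The proof is the one of `CUB.t_PUSHD` (`Pool/Agent/CUB2/K_PUSHD.lean`), with the divisor of the norm
given in advance.
-/

set_option autoImplicit false

open CategoryTheory AlgebraicGeometry Limits Polynomial TopologicalSpace

namespace QCV

open Pool.Agent.Lib_helper55.Beil Pool.Agent.Lib_helper66.OneP CUB CUB.PUSHD

theorem t_OPDN : S_OPDN := by
  intro k E _ _ n W V hW hV f hfg φ c d hdW hdV hφ hdiv hd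
  classical
  have hPFC : CUB.S_PFC.{0} := CUB.Asm2.s_PFC.{0}
  have hLENC : CUB.S_LENC := CUB.Asm.s_LENC
  have hCHA : CUB.S_CHA := CUB.Asm2.s_CHA
  have hRDG : CUB.S_RDG := CUB.Asm2.s_RDG
  have hNPU : CUB.S_NPU := CUB.Asm2.s_NPU
  have hFOV : CUB.S_FOV := CUB.Asm2.s_FOV
  -- the norm
  let ι : V.X.functionField →+* W.X.functionField := (fm f.g hfg).hom
  let aι : Algebra V.X.functionField W.X.functionField := ι.toAlgebra
  change IsDiv (idIn V) (Algebra.norm V.X.functionField φ) d at hd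
  ext y
  obtain ⟨B, D, iB, iD, aB, aD, fB, fD, ψ, j, j₁, hcomm, hfin, hinj, hv, hpre⟩ :=
    hFOV k n W V hW hV f y.1 hdW hdV hfg y.2
  obtain ⟨b₀, hb₀⟩ := hv
  have dB : IsDomain B := hCHA.2.1 k B V hV j b₀
  have hgV : genericPoint V.X ∈ Set.range j.g := by
    have h1 : genericPoint V.X ⤳ j.g b₀ := genericPoint_specializes _
    exact h1.mem_open j.g.isOpenEmbedding.isOpen_range ⟨b₀, rfl⟩
  obtain ⟨d₀, hd₀⟩ := hpre (genericPoint W.X) (by rw [hfg]; exact hgV)
  have dD : IsDomain D := hCHA.2.1 k D W hW j₁ d₀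
  have hc0 : ∀ b, ι (be j b) = be j₁ (ψ b) := fm_be f.g hfg ψ j j₁ hcomm
  have hF : Module.Finite V.X.functionField W.X.functionField :=
    fin_alg (be j) (be j₁) ι ψ (be_inj j) (be_inj j₁) (be_frac j) (be_frac j₁) hc0 hfin
  have hcomm' : ∀ P : PrimeSpectrum D,
      f.g (j₁.g (toPt P)) = j.g (toPt (PrimeSpectrum.comap ψ.toRingHom P)) := fun P => by
    have h1 := congrArg (fun g : (aff k D).X ⟶ V.X => g (toPt P)) hcomm
    exact h1
  -- the prime of the point
  have hp : rdim k (ofPt b₀) = n := by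
    rw [← dim_toPt, toPt_ofPt, ← dim_map j.g j.comm, hb₀]
    exact y.2
  let p : RP k B n := ⟨ofPt b₀, hp⟩
  have hpy : j.g (toPt p.1) = y.1 := hb₀
  have htrB : Algebra.trdeg k B = (n + 1 : ℕ) := (trdeg_chart j).trans hdV
  have htrD : Algebra.trdeg k D = (n + 1 : ℕ) := (trdeg_chart j₁).trans hdW
  -- the fibre
  have hSfin : {P : RP k D n | PrimeSpectrum.comap ψ.toRingHom P.1 = p.1}.Finite := by
    let aBD : Algebra B D := ψ.toRingHom.toAlgebra
    have : Module.Finite B D := hfin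
    have h1 := Algebra.QuasiFinite.finite_comap_preimage_singleton (R := B) (S := D) p.1
    exact Set.Finite.preimage Subtype.val_injective.injOn h1
  let S : Finset (RP k D n) := hSfin.toFinset
  have hS : ∀ P : RP k D n, P ∈ S ↔ PrimeSpectrum.comap ψ.toRingHom P.1 = p.1 := fun P => by
    rw [Set.Finite.mem_toFinset]
    exact Iff.rfl
  -- fractions
  obtain ⟨x, y', hx, hy', hxy⟩ := be_frac j₁ φ hφ
  have hbx : be j₁ x ≠ 0 := (map_ne_zero_iff _ (be_inj j₁)).mpr hx
  have hby : be j₁ y' ≠ 0 := (map_ne_zero_iff _ (be_inj j₁)).mpr hy'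
  have hN : Algebra.norm V.X.functionField φ ≠ 0 := Algebra.norm_ne_zero_iff.mpr hφ
  have hNx : Algebra.norm V.X.functionField (be j₁ x) ≠ 0 := Algebra.norm_ne_zero_iff.mpr hbx
  have hNy : Algebra.norm V.X.functionField (be j₁ y') ≠ 0 := Algebra.norm_ne_zero_iff.mpr hby
  obtain ⟨b, c', hb, hc', hbc⟩ := be_frac j _ hNx
  obtain ⟨b', c'', hb', hc'', hbc'⟩ := be_frac j _ hNy
  have hNN : Algebra.norm V.X.functionField φ * be j (b' * c') = be j (b * c'') := by
    have h1 : Algebra.norm V.X.functionField φ * Algebra.norm V.X.functionField (be j₁ y') =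
        Algebra.norm V.X.functionField (be j₁ x) := by rw [← map_mul, hxy]
    rw [map_mul, map_mul, ← hbc, ← hbc', ← h1]
    ring
  have e1 := npu_alg (be j) (be j₁) ι ψ hNPU (be_inj j) (be_inj j₁) (be_frac j) (be_frac j₁) hc0
    hfin n p S htrB hS x b c' hx hb hc' hbc
  have e2 := npu_alg (be j) (be j₁) ι ψ hNPU (be_inj j) (be_inj j₁) (be_frac j) (be_frac j₁) hc0
    hfin n p S htrB hS y' b' c'' hy' hb' hc'' hbc'
  have e3 := ord_chart j htrB p _ hN (b * c'') (b' * c') (mul_ne_zero hb hc'')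
    (mul_ne_zero hb' hc') hNN
  rw [len_mul hLENC htrB p b c'' hb hc'', len_mul hLENC htrB p b' c' hb' hc'] at e3
  -- the value of `d`
  have hdy : d y = ((Scheme.ord (Algebra.norm V.X.functionField φ) (j.g (toPt p.1)) : ℤ) : E) := by
    have h1 := hd.1 (j.g (toPt p.1)) (by
      change V.dim (j.g (toPt p.1)) = n
      rw [hpy]
      exact y.2)
    rw [← h1]
    congr 1
    exact Subtype.ext hpy.symm
  -- the points over `y`
  have hwd : ∀ P : RP k D n, W.dim (j₁.g (toPt P.1)) = n := fun P => by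
    rw [dim_map j₁.g j₁.comm, dim_toPt]
    exact P.2
  let w : RP k D n → Pts n W := fun P => ⟨j₁.g (toPt P.1), hwd P⟩
  have hw : Function.Injective w := by
    intro P P' h
    have h1 : j₁.g (toPt P.1) = j₁.g (toPt P'.1) := congrArg Subtype.val h
    exact Subtype.ext (openIn_injective j₁ h1)
  have hcw : ∀ P : RP k D n, c (w P) = (len (Ideal.span {x}) P.1 : E) - len (Ideal.span {y'}) P.1 := by
    intro P
    have h1 := hdiv.1 (j₁.g (toPt P.1)) (hwd P)
    have h2 : c (w P) = ((Scheme.ord φ (j₁.g (toPt P.1)) : ℤ) : E) := h1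
    rw [h2, ord_chart j₁ htrD P φ hφ x y' hx hy' hxy]
    push_cast
    rfl
  let F : Pts n W → E := fun x => c x * (if f.g x.1 = y.1 then (f.deg x.1 : E) else 0)
  have hsum : pfc E n f c y = ∑ P ∈ S, F (w P) := by
    rw [hPFC.2.2.2.2.2 k E n W V f c y]
    have h0 : (c.sum fun x e => e * (if f.g x.1 = y.1 then (f.deg x.1 : E) else 0)) =
        ∑ x ∈ c.support, F x := rfl
    have h9 : ∑ P ∈ S, F (w P) = ∑ x ∈ S.map ⟨w, hw⟩, F x := (Finset.sum_map S ⟨w, hw⟩ F).symm
    rw [h0, h9]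
    have h1 : ∑ x ∈ c.support, F x = ∑ x ∈ c.support ∪ S.map ⟨w, hw⟩, F x := by
      refine Finset.sum_subset Finset.subset_union_left fun x _ hx => ?_
      change c x * _ = 0
      rw [Finsupp.notMem_support_iff.mp hx, zero_mul]
    have h2 : ∑ x ∈ S.map ⟨w, hw⟩, F x = ∑ x ∈ c.support ∪ S.map ⟨w, hw⟩, F x := by
      refine Finset.sum_subset Finset.subset_union_right fun x _ hx => ?_
      change c x * (if f.g x.1 = y.1 then (f.deg x.1 : E) else 0) = 0
      rw [if_neg, mul_zero]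
      intro hxy
      apply hx
      obtain ⟨q, hq⟩ := hpre x.1 (by rw [hxy]; exact ⟨b₀, hb₀⟩)
      have hqn : rdim k (ofPt q) = n := by
        rw [← dim_toPt, toPt_ofPt, ← dim_map j₁.g j₁.comm, hq]
        exact x.2
      rw [Finset.mem_map]
      refine ⟨⟨ofPt q, hqn⟩, ?_, Subtype.ext hq⟩
      refine (hS _).mpr ?_
      have h3 := hcomm' (ofPt q)
      rw [toPt_ofPt, hq, hxy, ← hpy] at h3
      exact (openIn_injective j h3).symm
    rw [h1, h2]
  have hFw : ∀ P ∈ S, F (w P) = ((len (Ideal.span {x}) P.1 : E) - len (Ideal.span {y'}) P.1) *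
      (rdeg ψ.toRingHom P.1 : E) := by
    intro P hP
    change c (w P) * (if f.g (j₁.g (toPt P.1)) = y.1 then (f.deg (j₁.g (toPt P.1)) : E) else 0) = _
    rw [hcw, if_pos, hRDG k B D ψ V W f j j₁ hcomm P.1]
    rw [hcomm', (hS P).mp hP, hpy]
  rw [hsum, Finset.sum_congr rfl hFw, hdy, e3]
  have e1' := congrArg (Nat.cast : ℕ → E) e1
  have e2' := congrArg (Nat.cast : ℕ → E) e2
  push_cast at e1' e2' ⊢
  have h3 : ∑ P ∈ S, ((len (Ideal.span {x}) P.1 : E) - len (Ideal.span {y'}) P.1) *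
      (rdeg ψ.toRingHom P.1 : E) =
      ∑ P ∈ S, (rdeg ψ.toRingHom P.1 : E) * len (Ideal.span {x}) P.1 -
        ∑ P ∈ S, (rdeg ψ.toRingHom P.1 : E) * len (Ideal.span {y'}) P.1 := by
    rw [← Finset.sum_sub_distrib]
    refine Finset.sum_congr rfl fun P _ => ?_
    ring
  rw [h3]
  linear_combination e1' - e2'

end QCV
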