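import Pool.Agent.QCV.G_DEF

/-!
# QCV: etale pull-back of homology classes and of cycles
-/

set_option autoImplicit false

open CategoryTheory AlgebraicGeometry

namespace QCV

open Pool.Agent.Lib_helper55.Beil Pool.Agent.Lib_helper66 CUB

universe v

variable {k : Type} [Field k] {E : Type} [Field E]

/-- There are pull-back maps along finite etale surjective morphisms `V → U`, which commute with
Frobenius; if `U` is integral, then the push-forward of the pull-back of a class is the class
multiplied by the degree, and the pull-back of the class of a point `x` is the class of a cycle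
whose push-forward is `x`, multiplied by the degree. -/
def EtTrans (T : ∀ i : ℕ, Homology.{v} k E i) (G : ProperMaps T) : Prop :=
  ∃ S : EtMaps T, S.Frobenius ∧
    ∀ {V U : Var k} (f : OneP.FinEt V U), IsIntegral U.X → ∃ D : ℕ, D ≠ 0 ∧
      (∀ (i n : ℕ) (m : (T i).H n U), G.G i n (etPr f) (S.Q i n f m) = (D : E) • m) ∧
      ∀ (i : ℕ) (x : Pts i U), ∃ z : Pts i V →₀ E,
        OneP.cls (T i) V z = S.Q i (2 * i) f ((T i).cl U x) ∧
          pfc E i (etPr f) z = Finsupp.single x (D : E)

lemma EtTrans.etPull {T : ∀ i : ℕ, Homology.{v} k E i} {G : ProperMaps T} (h : EtTrans T G) :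
    EtPull T G := by
  obtain ⟨S, hF, hS⟩ := h
  refine ⟨S, hF, fun f hU => ?_⟩
  obtain ⟨D, hD, h1, -⟩ := hS f hU
  exact ⟨D, hD, h1⟩

end QCV
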