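import Pool.Agent.QCV.F_DBL
import Pool.Agent.QCV.G_DEF2
import Pool.Agent.CUB2.Asm2

/-!
# QCV, block G: descent along finite etale morphisms
-/

set_option autoImplicit false

open CategoryTheory AlgebraicGeometry Limits Polynomial TopologicalSpace

namespace QCV

open Pool.Agent.Lib_helper55.Beil Pool.Agent.Lib_helper66.OneP CUB

universe v

variable {k : Type} [Field k] {E : Type} [Field E]

variable {T : ∀ i : ℕ, Homology.{v} k E i}

namespace ET

/-! ## Descent along finite etale morphisms -/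

section Et

variable {i : ℕ} {V U : Var k} (f : Pool.Agent.Lib_helper66.OneP.FinEt V U) (S : EtMaps T)
  (D : ℕ)

lemma exists_pull (hC : ∀ x : Pts i U, ∃ z : Pts i V →₀ E,
    Pool.Agent.Lib_helper66.OneP.cls (T i) V z = S.Q i (2 * i) f ((T i).cl U x) ∧
      pfc E i (etPr f) z = Finsupp.single x (D : E)) (x : Pts i U →₀ E) :
    ∃ z : Pts i V →₀ E, clz (T i) V z = S.pb i (2 * i) f (clz (T i) U x) ∧
      pfc E i (etPr f) z = (D : E) • x := by
  induction x using Finsupp.induction_linear with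
  | zero =>
    refine ⟨0, ?_, ?_⟩
    · have h1 : clz (T i) V (0 : Pts i V →₀ E) = 0 := map_zero _
      have h2 : clz (T i) U (0 : Pts i U →₀ E) = 0 := map_zero _
      rw [h1, h2, map_zero]
    · rw [map_zero, smul_zero]
  | add x y hx hy =>
    obtain ⟨z, h1, h2⟩ := hx
    obtain ⟨w, h3, h4⟩ := hy
    refine ⟨z + w, ?_, ?_⟩
    · have h5 := cls_add (T i) V z w
      have h6 := cls_add (T i) U x y
      change Pool.Agent.Lib_helper66.OneP.cls (T i) _ (z + w) =
        S.pb i (2 * i) f (Pool.Agent.Lib_helper66.OneP.cls (T i) _ (x + y))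
      rw [h5, h6, map_add, ← h1, ← h3]
    · rw [map_add, h2, h4, smul_add]
  | single p e =>
    obtain ⟨z, h1, h2⟩ := hC p
    refine ⟨e • z, ?_, ?_⟩
    · have h5 : clz (T i) V (e • z) = e • clz (T i) V z :=
        map_smul (Finsupp.linearCombination E ((T i).cl V)) e z
      have h6 : clz (T i) U (Finsupp.single p e) = e • (T i).cl U p :=
        Finsupp.linearCombination_single E e p
      rw [h5, h6, map_smul]
      congr 1
    · rw [map_smul, h2, Finsupp.smul_single, Finsupp.smul_single, smul_eq_mul, smul_eq_mul,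
        mul_comm]

/-- The property `PF` descends along finite etale surjective morphisms. -/
theorem pf_et [CharZero E] (hT : Full T) (hP : Pub T hT) (hF : S.Frobenius) (hD : D ≠ 0)
    (hG : ∀ (n : ℕ) (m : (T i).H n U), hT.G i n (etPr f) (S.Q i n f m) = (D : E) • m)
    (hC : ∀ x : Pts i U, ∃ z : Pts i V →₀ E,
      Pool.Agent.Lib_helper66.OneP.cls (T i) V z = S.Q i (2 * i) f ((T i).cl U x) ∧
        pfc E i (etPr f) z = Finsupp.single x (D : E)) (h : PF (T i) V) : PF (T i) U := by
  have hc : (D : E) ≠ 0 := Nat.cast_ne_zero.2 hD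
  refine ⟨?_, ?_, ?_⟩
  · intro m hm
    have h1 : S.pb i (2 * i) f m ∈ (T i).gen V :=
      maxGen_map ((T i).frob (2 * i) U) ((T i).frob (2 * i) V) (S.pb i (2 * i) f)
        (hF i (2 * i) f) hm
    obtain ⟨z, hz⟩ := exists_cls (T i) _ _ (h.1 h1)
    have h2 := (CUB.Asm2.s_PFC.{v}).2.2.2.1 k E T hT i _ _ (etPr f) z
    have h3 : hT.G i (2 * i) (etPr f) (clz (T i) _ z) = (D : E) • m := by
      have h4 := hG (2 * i) m
      have h5 : clz (T i) _ z = S.Q i (2 * i) f m := hz
      rw [h5]
      exact h4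
    rw [h3] at h2
    have h6 : m = (D : E)⁻¹ • clz (T i) _ (pfc E i (etPr f) z) := by
      rw [h2, smul_smul, inv_mul_cancel₀ hc, one_smul]
    rw [h6]
    exact Submodule.smul_mem _ _ ((T i).linComb_mem_alg _ _)
  · have hI := h.2.1
    rw [injC_iff] at hI ⊢
    intro x hx
    obtain ⟨z, h1, h2⟩ := exists_pull f S D hC x
    have h3 : clz (T i) _ z = 0 := by
      rw [h1, show clz (T i) _ x = 0 from hx, map_zero]
    have h4 := (CUB.Asm2.s_PUSHR.{v}) k E T hT i _ _ (etPr f)
      (fun W hW => ((T i).inj_iff W).mp (hP.divisors i W hW)) z (hI z h3)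
    rw [h2] at h4
    have h5 := Submodule.smul_mem _ (D : E)⁻¹ h4
    rwa [smul_smul, inv_mul_cancel₀ hc, one_smul] at h5
  · intro m hm
    have h1 : S.Q i (2 * i + 1) f m ∈ gen1 (T i) V :=
      maxGen_map ((T i).frob (2 * i + 1) U) ((T i).frob (2 * i + 1) V)
        (S.pb i (2 * i + 1) f) (hF i (2 * i + 1) f) hm
    have h2 := supp_pf hT i _ _ (etPr f) _ (h.2.2 _ h1)
    rw [hG] at h2
    have h4 := supp_smul i _ _ _ (D : E)⁻¹ _ h2
    rwa [smul_smul, inv_mul_cancel₀ hc, one_smul] at h4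

end Et

end ET

/-- The property `PF` descends along finite etale surjective morphisms to integral varieties. -/
theorem pf_et [CharZero E] (hT : Full T) (hP : Pub T hT) (hE : EtTrans T hT.toProperMaps)
    (i : ℕ) {V U : Var k} (f : Pool.Agent.Lib_helper66.OneP.FinEt V U) (hint : IsIntegral U.X)
    (h : PF (T i) V) : PF (T i) U := by
  obtain ⟨S, hF, hS⟩ := hE
  obtain ⟨c, hc0, hPG, hC⟩ := hS f hint
  exact ET.pf_et f S c hT hP hF hc0 (hPG i) (hC i) h

end QCV
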