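import Pool.Agent.QCV.F_DBL

/-!
# QCV: invariance under nilpotent thickenings
-/

set_option autoImplicit false

open CategoryTheory AlgebraicGeometry Limits Polynomial TopologicalSpace

namespace QCV

open Pool.Agent.Lib_helper55.Beil Pool.Agent.Lib_helper66.OneP CUB

universe v

variable {k : Type} [Field k] {E : Type} [Field E]

/-- A closed immersion from a reduced variety factors through a closed immersion with larger
image. -/
lemma exists_factor_range {Z X W : Var k} (a : ClosedIn Z X) [IsReduced W.X] (c : ClosedIn W X)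
    (h : Set.range c.g ⊆ Set.range a.g) : ∃ l : ClosedIn W Z, l.g ≫ a.g = c.g := by
  have h1 : a.g.ker ≤ Scheme.IdealSheafData.vanishingIdeal (ran a) := by
    rw [← Scheme.IdealSheafData.le_support_iff_le_vanishingIdeal]
    intro x hx
    have h3 : ((a.g.ker.support : Closeds X.X) : Set X.X) = closure (Set.range a.g) :=
      Scheme.Hom.support_ker _
    change x ∈ ((a.g.ker.support : Closeds X.X) : Set X.X)
    rw [h3]
    exact subset_closure hx
  have h2 : a.g.ker ≤ c.g.ker := h1.trans (vanishingIdeal_le_ker c.g _ (fun w => h ⟨w, rfl⟩))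
  have h4 : IsClosedImmersion.lift a.g c.g h2 ≫ a.g = c.g := IsClosedImmersion.lift_fac _ _ _
  have h5 : IsClosedImmersion (IsClosedImmersion.lift a.g c.g h2) := by
    have : IsClosedImmersion (IsClosedImmersion.lift a.g c.g h2 ≫ a.g) := by
      rw [h4]
      infer_instance
    exact IsClosedImmersion.of_comp (IsClosedImmersion.lift a.g c.g h2) a.g
  refine ⟨⟨IsClosedImmersion.lift a.g c.g h2, ?_, h5⟩, h4⟩
  rw [← a.comm, ← Category.assoc, h4, c.comm]

/-- A closed immersion from a reduced variety factors through every surjective closed immersion. -/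
lemma exists_factor_red {Z X W : Var k} (a : ClosedIn Z X) (hs : Function.Surjective a.g)
    [IsReduced W.X] (c : ClosedIn W X) : ∃ l : ClosedIn W Z, l.g ≫ a.g = c.g :=
  exists_factor_range a c (by rw [hs.range_eq]; exact Set.subset_univ _)

variable {T : ∀ i : ℕ, Homology.{v} k E i}

lemma complementary_surj {Z X : Var k} (a : ClosedIn Z X) (hs : Function.Surjective a.g) :
    Complementary a (openVarIn X ⊥) := by
  rw [Complementary, hs.range_eq, range_openVarIn]
  simp

lemma push_injective_surj (hT : Full T) (i n : ℕ) {Z X : Var k} (a : ClosedIn Z X)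
    (hs : Function.Surjective a.g) (m : (T i).H n Z) (h : (T i).P n a m = 0) : m = 0 := by
  obtain ⟨u, rfl⟩ := (hT.bdExact i n a (openVarIn X ⊥) (complementary_surj a hs) m).mp h
  have h1 := (T i).empty (n + 1) _ (isEmpty_openVar_bot X)
  have h2 : u = 0 := Subsingleton.elim _ _
  rw [h2]
  exact map_zero (hT.bd i n a (openVarIn X ⊥) (complementary_surj a hs))

lemma push_inj_surj (hT : Full T) (i n : ℕ) {Z X : Var k} (a : ClosedIn Z X)
    (hs : Function.Surjective a.g) (m m' : (T i).H n Z) (h : (T i).P n a m = (T i).P n a m') :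
    m = m' := by
  rw [← sub_eq_zero]
  apply push_injective_surj hT i n a hs
  exact (map_sub ((T i).push n a) m m').trans (sub_eq_zero.mpr h)

/-- The property `PF` is inherited by closed subvarieties with the same points. -/
theorem pf_nil (hT : Full T) (i : ℕ) {Z X : Var k} (a : ClosedIn Z X)
    (hs : Function.Surjective a.g) (h : PF (T i) X) : PF (T i) Z := by
  refine ⟨?_, ?_, ?_⟩
  · intro m hm
    have h1 : (T i).P (2 * i) a m ∈ (T i).gen X :=
      maxGen_map ((T i).frob (2 * i) Z) ((T i).frob (2 * i) X) ((T i).push (2 * i) a)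
        ((T i).push_frob (2 * i) a) hm
    obtain ⟨c, hc⟩ := exists_cls (T i) X _ (h.1 h1)
    obtain ⟨c', rfl⟩ := exists_pushCyc a (openVarIn X ⊥) (complementary_surj a hs) c (by
      ext u
      exact ((isEmpty_openVar_bot X).false u.1).elim)
    have h2 : m = cls (T i) Z c' := by
      apply push_inj_surj hT i (2 * i) a hs
      rw [push_cls', hc]
    rw [h2]
    exact (T i).linComb_mem_alg _ _
  · rw [injC_iff]
    intro c hc
    have h1 : cls (T i) X (pushCyc a c) = 0 := by
      rw [← push_cls', hc]
      exact map_zero ((T i).push (2 * i) a)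
    obtain ⟨C, -, c', hc', h2⟩ := ratZero_supp X _ ((injC_iff (T i) X).1 h.2.1 _ h1)
    have hred := REDI.isReduced_closedVar X C
    obtain ⟨l, hl⟩ := exists_factor_red a hs (closedVarIn X C)
    have h3 : pushCyc l c' = c := by
      apply pushCyc_injective a
      rw [pushCyc_comp l a (closedVarIn X C) hl, h2]
    rw [← h3]
    exact pushCyc_ratZero l _ hc'
  · intro m hm
    have h1 : (T i).P (2 * i + 1) a m ∈ gen1 (T i) X :=
      maxGen_map ((T i).frob (2 * i + 1) Z) ((T i).frob (2 * i + 1) X)
        ((T i).push (2 * i + 1) a) ((T i).push_frob (2 * i + 1) a) hm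
    obtain ⟨C, hC, b, hb⟩ := h.2.2 _ h1
    have hred := REDI.isReduced_closedVar X C
    obtain ⟨l, hl⟩ := exists_factor_red a hs (closedVarIn X C)
    have h3 : (T i).P (2 * i + 1) l b = m := by
      apply push_inj_surj hT i (2 * i + 1) a hs
      rw [hT.push_comp i (2 * i + 1) _ _ _ l a (closedVarIn X C) hl, hb]
    rw [← h3]
    exact supp_mk hT.toExtra i _ _ l (dimLE_of_mem C hC) b

end QCV
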