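import Pool.Agent.QCV.StO
import Pool.Agent.QCV.Nil
import Pool.Agent.QCV.G_ET
import Pool.Agent.QCV.G_CYC

/-!
# QCV, block O: the property `PF` ascends to a double cover whose involution acts trivially
-/

set_option autoImplicit false

open CategoryTheory AlgebraicGeometry Limits Polynomial TopologicalSpace

namespace QCV

open Pool.Agent.Lib_helper55.Beil Pool.Agent.Lib_helper66.OneP CUB

universe v

namespace OPFD

/-! ## Base change of double covers -/

section Ring

variable {A : Type} [CommRing A] (b c : A)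

/-- A ring homomorphism induces a homomorphism of the double covers. -/
noncomputable def mapHom {B : Type} [CommRing B] (φ : A →+* B) :
    Dr A b c →+* Dr B (φ b) (φ c) :=
  AdjoinRoot.lift ((algebraMap B (Dr B (φ b) (φ c))).comp φ) (rt (φ b) (φ c)) (by
    rw [eval₂_dpoly]
    exact rt_eq _ _)

lemma mapHom_of {B : Type} [CommRing B] (φ : A →+* B) (a : A) :
    mapHom b c φ (algebraMap A (Dr A b c) a) = algebraMap B (Dr B (φ b) (φ c)) (φ a) :=
  AdjoinRoot.lift_of _

lemma mapHom_surjective {B : Type} [CommRing B] (φ : A →+* B) (hφ : Function.Surjective φ) :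
    Function.Surjective (mapHom b c φ) := by
  intro y
  obtain ⟨q, rfl⟩ := AdjoinRoot.mk_surjective y
  obtain ⟨p, rfl⟩ := Polynomial.map_surjective φ hφ q
  refine ⟨AdjoinRoot.mk _ p, ?_⟩
  have h1 : mapHom b c φ (AdjoinRoot.mk (dpoly b c) p) =
      p.eval₂ ((algebraMap B (Dr B (φ b) (φ c))).comp φ) (rt (φ b) (φ c)) :=
    AdjoinRoot.lift_mk _ p
  rw [h1, ← Polynomial.eval₂_map]
  exact AdjoinRoot.aeval_eq (f := dpoly (φ b) (φ c)) (p.map φ)

variable {k : Type} [Field k] [Algebra k A]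

/-- An algebra homomorphism induces a homomorphism of the double covers. -/
noncomputable def mapAlg {B : Type} [CommRing B] [Algebra k B] (φ : A →ₐ[k] B) :
    Dr A b c →ₐ[k] Dr B (φ b) (φ c) :=
  { mapHom b c φ.toRingHom with
    commutes' := fun r => by
      have h := mapHom_of b c φ.toRingHom (algebraMap k A r)
      have h2 : φ.toRingHom (algebraMap k A r) = algebraMap k B r := φ.commutes r
      rw [h2] at h
      exact h }

lemma mapAlg_surjective {B : Type} [CommRing B] [Algebra k B] (φ : A →ₐ[k] B)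
    (hφ : Function.Surjective φ) : Function.Surjective (mapAlg b c φ) :=
  mapHom_surjective b c φ.toRingHom hφ

lemma mapAlg_comp {B : Type} [CommRing B] [Algebra k B] (φ : A →ₐ[k] B) :
    (mapAlg b c φ).comp (drHom b c k) = (drHom (φ b) (φ c) k).comp φ :=
  AlgHom.ext fun a => mapHom_of b c φ.toRingHom a

end Ring

variable {k : Type} [Field k] {E : Type} [Field E] {T : ∀ i : ℕ, Homology.{v} k E i}

/-! ## Injectivity of the push-forward -/

lemma inj_G [CharZero E] (hT : Full T) (S : DblMaps T) (hGal : S.Galois hT.toProperMaps)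
    (i n : ℕ) (A : Type) [CommRing A] [Algebra k A] [Algebra.FiniteType k A] (b c : A)
    (hτ : ∀ m : (T i).H n (aff k (Dr A b c)), (T i).P n (autc (dinv b c k)) m = m)
    (m m' : (T i).H n (aff k (Dr A b c)))
    (h : hT.G i n (dbl b c k) m = hT.G i n (dbl b c k) m') : m = m' := by
  have h1 := hGal i n A b c m
  have h2 := hGal i n A b c m'
  rw [hτ] at h1 h2
  rw [← h] at h2
  have h3 : (2 : E) • m = (2 : E) • m' := by
    rw [two_smul, two_smul, ← h1, ← h2]
  have h4 := congrArg (fun x => (2 : E)⁻¹ • x) h3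
  simp only [smul_smul] at h4
  rwa [inv_mul_cancel₀ (two_ne_zero), one_smul, one_smul] at h4

/-! ## Algebraicity -/

theorem good_up [CharZero E] (hT : Full T) (S : DblMaps T) (hC : S.Classes) (i : ℕ) (A : Type)
    [CommRing A] [Algebra k A] [Algebra.FiniteType k A] (b c : A)
    (hinj : ∀ m m' : (T i).H (2 * i) (aff k (Dr A b c)),
      hT.G i (2 * i) (dbl b c k) m = hT.G i (2 * i) (dbl b c k) m' → m = m')
    (h : (T i).gen (aff k A) ≤ (T i).alg (aff k A)) :
    (T i).gen (aff k (Dr A b c)) ≤ (T i).alg (aff k (Dr A b c)) := by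
  intro m hm
  have h1 : hT.pf i (2 * i) (dbl b c k) m ∈ (T i).gen (aff k A) :=
    maxGen_map ((T i).frob (2 * i) (aff k (Dr A b c))) ((T i).frob (2 * i) (aff k A))
      (hT.pf i (2 * i) (dbl b c k)) (hT.pfFrobenius i (2 * i) (dbl b c k)) hm
  obtain ⟨x, hx⟩ := exists_cls (T i) _ _ (h h1)
  obtain ⟨z, -, hz⟩ := exists_dbl S hC i A b c x
  have h2 := (CUB.Asm2.s_PFC.{v}).2.2.2.1 k E T hT i _ _ (dbl b c k) z
  have h3 : clz (T i) (aff k A) ((2 : E) • x) = (2 : E) • clz (T i) (aff k A) x :=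
    map_smul (Finsupp.linearCombination E ((T i).cl (aff k A))) (2 : E) x
  rw [hz, h3] at h2
  have h4 : clz (T i) _ z = (2 : E) • m := by
    apply hinj
    have h5 : hT.G i (2 * i) (dbl b c k) ((2 : E) • m) =
        (2 : E) • hT.G i (2 * i) (dbl b c k) m :=
      map_smul (hT.pf i (2 * i) (dbl b c k)) (2 : E) m
    have h6 : clz (T i) (aff k A) x = hT.G i (2 * i) (dbl b c k) m := hx
    rw [h5, ← h6]
    exact h2.symm
  have h7 : m = (2 : E)⁻¹ • clz (T i) _ z := by
    rw [h4, smul_smul, inv_mul_cancel₀ (two_ne_zero), one_smul]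
  rw [h7]
  exact Submodule.smul_mem _ _ ((T i).linComb_mem_alg _ _)

/-! ## Injectivity of the cycle class map -/

theorem injC_up [CharZero E] (hT : Full T) (hL : S_OLFT) (hK : S_OKER) (i : ℕ) (A : Type)
    [CommRing A] [Algebra k A] [Algebra.FiniteType k A] (b c : A)
    (hcyc : ∀ z : Pts i (aff k (Dr A b c)) →₀ E,
      z - pushCyc (autc (dinv b c k)) z ∈ ratZero E i (aff k (Dr A b c)))
    (h : (T i).InjC (aff k A)) : (T i).InjC (aff k (Dr A b c)) := by
  rw [injC_iff] at h ⊢
  intro z hz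
  have h2 := (CUB.Asm2.s_PFC.{v}).2.2.2.1 k E T hT i _ _ (dbl b c k) z
  have h3 : clz (T i) (aff k A) (pfc E i (dbl b c k) z) = 0 := by
    rw [h2, show clz (T i) _ z = 0 from hz]
    exact map_zero (hT.pf i (2 * i) (dbl b c k))
  obtain ⟨z', hz', hzz⟩ := hL k E A b c i _ (h _ h3)
  have h4 : pfc E i (dbl b c k) (z - z') = 0 := by
    rw [map_sub, hzz, sub_self]
  have h5 := hK k E A b c i _ h4
  rw [pushCyc_sub'] at h5
  have h6 := hcyc z
  have h7 := hcyc z'
  set τ := pushCyc (autc (dinv b c k)) z with hτ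
  set τ' := pushCyc (autc (dinv b c k)) z' with hτ'
  have h8 : (2 : E) • z = (z - τ) + ((2 : E) • z' - (z' - τ')) := by
    have h9 : z = z' - τ + τ' := by
      have : z - z' + (τ - τ') = 0 := h5
      rw [← sub_eq_zero]
      rw [← this]
      abel
    rw [two_smul, two_smul]
    nth_rewrite 2 [h9]
    abel
  have h9 : (2 : E) • z ∈ ratZero E i (aff k (Dr A b c)) := by
    rw [h8]
    exact add_mem h6 (sub_mem (Submodule.smul_mem _ _ hz') h7)
  have h10 := Submodule.smul_mem _ (2 : E)⁻¹ h9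
  rwa [smul_smul, inv_mul_cancel₀ (two_ne_zero), one_smul] at h10

/-! ## Supports -/

/-- The vanishing ideal of a closed subset of an affine variety. -/
def idl (A : Type) [CommRing A] [Algebra k A] [Algebra.FiniteType k A]
    (C : Closeds (aff k A).X) : Ideal A :=
  PrimeSpectrum.vanishingIdeal {p : PrimeSpectrum A | toPt (k := k) p ∈ C}

lemma range_idl (A : Type) [CommRing A] [Algebra k A] [Algebra.FiniteType k A]
    (C : Closeds (aff k A).X) :
    Set.range (clo (Ideal.Quotient.mkₐ k (idl A C)) (Ideal.Quotient.mkₐ_surjective k _)).g =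
      (C : Set (aff k A).X) := by
  have h1 : Set.range (PrimeSpectrum.comap (Ideal.Quotient.mk (idl A C))) =
      {p : PrimeSpectrum A | toPt (k := k) p ∈ C} := by
    rw [range_comap_of_surjective _ _ Ideal.Quotient.mk_surjective, Ideal.mk_ker,
      idl, PrimeSpectrum.zeroLocus_vanishingIdeal_eq_closure]
    have h2 : IsClosed {p : PrimeSpectrum A | toPt (k := k) p ∈ C} := C.isClosed
    exact h2.closure_eq
  exact h1

lemma supp_up [CharZero E] (hT : Full T) (S : DblMaps T) (hD : S.Degree hT.toProperMaps)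
    (i n e : ℕ) (A : Type) [CommRing A] [Algebra k A] [Algebra.FiniteType k A] (b c : A)
    (hinj : ∀ m m' : (T i).H n (aff k (Dr A b c)),
      hT.G i n (dbl b c k) m = hT.G i n (dbl b c k) m' → m = m')
    (m : (T i).H n (aff k (Dr A b c)))
    (h : Supp (T i) n e (aff k A) (hT.G i n (dbl b c k) m)) :
    Supp (T i) n e (aff k (Dr A b c)) m := by
  obtain ⟨C, hC, w0, hw0⟩ := h
  have hred := REDI.isReduced_closedVar (aff k A) C
  let φ := Ideal.Quotient.mkₐ k (idl A C)
  have hφ : Function.Surjective φ := Ideal.Quotient.mkₐ_surjective k _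
  let ι := clo φ hφ
  obtain ⟨l, hl⟩ := exists_factor_range ι (closedVarIn (aff k A) C) (by
    rw [range_closedVarIn]
    exact (range_idl A C).ge)
  let ι' := clo (mapAlg b c φ) (mapAlg_surjective b c φ hφ)
  let g' := dbl (φ b) (φ c) k
  let w := (T i).P n l w0
  have hw : (T i).P n ι w = hT.G i n (dbl b c k) m := by
    rw [← hw0]
    exact hT.push_comp i n _ _ _ l ι (closedVarIn (aff k A) C) hl w0
  let w' := (2 : E)⁻¹ • S.D i n _ (φ b) (φ c) w
  have hw' : hT.G i n g' w' = w := by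
    have h1 : hT.G i n g' w' = (2 : E)⁻¹ • hT.G i n g' (S.D i n _ (φ b) (φ c) w) :=
      map_smul (hT.pf i n g') _ _
    have h2 : hT.G i n g' (S.D i n _ (φ b) (φ c) w) = (2 : E) • w := hD i n _ (φ b) (φ c) w
    rw [h1, h2, smul_smul, inv_mul_cancel₀ (two_ne_zero), one_smul]
  have hsq : ι'.g ≫ (dbl b c k).g = g'.g ≫ ι.g := by
    change spm _ ≫ spm _ = spm _ ≫ spm _
    rw [spm_comp, spm_comp, mapAlg_comp]
  have h3 : (T i).P n ι' w' = m := by
    apply hinj
    rw [← hw, ← hw', ← hT.pfClosed i n ι' (clPr ι') rfl, ← hT.pfClosed i n ι (clPr ι) rfl,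
      hT.pfFunctorial i n (clPr ι') (dbl b c k) ((clPr ι').trans (dbl b c k)) rfl,
      hT.pfFunctorial i n g' (clPr ι) ((clPr ι').trans (dbl b c k)) hsq.symm]
  rw [← h3]
  refine supp_mk hT.toExtra i n e ι' ?_ w'
  intro y
  rw [← dim_dbl (φ b) (φ c) y]
  have := ι.closed
  rw [← dim_map ι.g ι.comm]
  apply hC
  have h4 : ι.g (g'.g y) ∈ Set.range ι.g := ⟨_, rfl⟩
  rw [range_idl A C] at h4
  exact h4

end OPFD

/-- **OPFD**. -/
theorem t_OPFD : M_OPFD.{v} := by
  intro hL hK k E _ _ _ _ T hT S _ _ hD hC hGal A _ _ _ b c i hA hTR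
  have hi0 := OPFD.inj_G hT S hGal i (2 * i) A b c (hTR.hom (2 * i) le_rfl)
  have hi1 := OPFD.inj_G hT S hGal i (2 * i + 1) A b c (hTR.hom (2 * i + 1) (by omega))
  refine ⟨OPFD.good_up hT S hC i A b c hi0 hA.1, OPFD.injC_up hT hL hK i A b c hTR.cyc hA.2.1, ?_⟩
  intro m hm
  apply OPFD.supp_up hT S hD i _ _ A b c hi1
  apply hA.2.2
  exact maxGen_map ((T i).frob (2 * i + 1) (aff k (Dr A b c))) ((T i).frob (2 * i + 1) (aff k A))
    (hT.pf i (2 * i + 1) (dbl b c k)) (hT.pfFrobenius i (2 * i + 1) (dbl b c k)) hm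

end QCV
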