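import Pool.Agent.QCV.StO

/-!
# QCV, block O: module ORNG
-/

set_option autoImplicit false

open CategoryTheory AlgebraicGeometry Polynomial

namespace QCV

namespace ORNG

/-- the image of a diagonal form under a homomorphism of the coefficients -/
lemma map_dia {A B : Type} [CommRing A] [CommRing B] (φ : A →+* B) {n : ℕ} (a : Fin n → A) :
    MvPolynomial.map φ (dia a) = dia fun j => φ (a j) := by
  unfold dia
  rw [map_sum]
  refine Finset.sum_congr rfl fun j _ => ?_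
  rw [map_mul, map_pow, MvPolynomial.map_C, MvPolynomial.map_X]

/-- two homomorphisms on a double cover -/
lemma hom_ext {A B : Type} [CommRing A] [CommRing B] (b c : A) (f g : Dr A b c →+* B)
    (h1 : ∀ x, f (algebraMap A _ x) = g (algebraMap A _ x)) (h2 : f (rt b c) = g (rt b c))
    (x : Dr A b c) : f x = g x := by
  have h : f = g := by
    apply AdjoinRoot.ringHom_ext
    · ext a
      exact h1 a
    · exact h2
  rw [h]

/-- transport of the involution -/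
lemma transport (k S W : Type) [Field k] [CommRing S] [Algebra k S] [CommRing W] [Algebra k W]
    (c d : S) (w : W) (e : Dr (Dr S 0 c) 0 (algebraMap S _ d) ≃ₐ[k] Dr W 0 w)
    (φ : S → W) (h1 : ∀ s, e (algebraMap (Dr S 0 c) _ (algebraMap S _ s)) = algebraMap W _ (φ s))
    (h2 : e (algebraMap (Dr S 0 c) _ (rt 0 c)) = rt 0 w) :
    ∃ t' : Dr (Dr S 0 c) 0 (algebraMap S _ d) ≃ₐ[k] Dr (Dr S 0 c) 0 (algebraMap S _ d),
      (∀ x, t' (algebraMap (Dr S 0 c) _ x) = algebraMap (Dr S 0 c) _ (dinv 0 c k x)) ∧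
      ∀ x, e (t' x) = dinv _ _ k (e x) := by
  have key : ∀ x : Dr S 0 c, dinv 0 w k (e (algebraMap (Dr S 0 c) _ x)) =
      e (algebraMap (Dr S 0 c) _ (dinv 0 c k x)) := by
    intro x
    refine hom_ext 0 c ((dinv 0 w k).toRingHom.comp
        (e.toRingHom.comp (algebraMap (Dr S 0 c) _)))
      (e.toRingHom.comp ((algebraMap (Dr S 0 c) _).comp (dinv 0 c k).toRingHom)) ?_ ?_ x
    · intro p
      change dinv 0 w k (e (algebraMap (Dr S 0 c) _ (algebraMap _ _ p))) =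
        e (algebraMap (Dr S 0 c) _ (dinv 0 c k (algebraMap _ _ p)))
      rw [dinv_of, h1, dinv_of]
    · change dinv 0 w k (e (algebraMap (Dr S 0 c) _ (rt 0 c))) =
        e (algebraMap (Dr S 0 c) _ (dinv 0 c k (rt 0 c)))
      rw [dinv_rt, h2, dinv_rt, map_zero, map_zero, neg_zero, neg_zero, zero_sub, zero_sub,
        map_neg, map_neg, h2]
  refine ⟨(e.trans (dinv _ _ k)).trans e.symm, ?_, ?_⟩
  · intro x
    rw [AlgEquiv.trans_apply, AlgEquiv.symm_apply_eq]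
    exact key x
  · intro x
    rw [AlgEquiv.trans_apply, AlgEquiv.apply_symm_apply]
    rfl

/-- the isomorphism, for abstract rings -/
lemma core (hDFN : S_DFN) (hDSW : S_DSW) (k S R W : Type) [Field k] [CommRing S] [Algebra k S]
    [CommRing R] [Algebra k R] [CommRing W] [Algebra k W] (c d z : S) (hz : z = 0)
    (m : Dr S z d ≃ₐ[k] R) (c' : R) (hm : m (algebraMap S _ c) = c') (θ : R ≃ₐ[k] W) (w : W)
    (hθ : θ c' = w) :
    ∃ (e : Dr (Dr S 0 c) 0 (algebraMap S _ d) ≃ₐ[k] Dr W 0 w)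
      (t' : Dr (Dr S 0 c) 0 (algebraMap S _ d) ≃ₐ[k] Dr (Dr S 0 c) 0 (algebraMap S _ d)),
      (∀ x, t' (algebraMap (Dr S 0 c) _ x) = algebraMap (Dr S 0 c) _ (dinv 0 c k x)) ∧
      ∀ x, e (t' x) = dinv _ _ k (e x) := by
  obtain ⟨e0, e0a, e0r⟩ := hDFN k (Dr S 0 c) (Dr S 0 c) AlgEquiv.refl 0
    (algebraMap S _ d) (algebraMap S _ z) (algebraMap S _ d)
    (by rw [hz, map_zero, map_zero]) rfl
  obtain ⟨e1, e1a, e1r, e1s⟩ := hDSW k S 0 c z d
  obtain ⟨e2, e2a, e2r⟩ := hDFN k (Dr S z d) R m (algebraMap S _ 0)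
    (algebraMap S _ c) 0 c' (by rw [map_zero, map_zero]) hm
  obtain ⟨e3, e3a, e3r⟩ := hDFN k R W θ 0 c' 0 w (map_zero _) hθ
  obtain ⟨t', h1, h2⟩ := transport k S W c d w (((e0.trans e1).trans e2).trans e3)
    (fun s => θ (m (algebraMap S _ s)))
    (by
      intro s
      change e3 (e2 (e1 (e0 (algebraMap (Dr S 0 c) _ (algebraMap S _ s))))) = _
      rw [e0a, AlgEquiv.coe_refl, id_eq, e1a, e2a, e3a])
    (by
      change e3 (e2 (e1 (e0 (algebraMap (Dr S 0 c) _ (rt 0 c))))) = _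
      rw [e0a, AlgEquiv.coe_refl, id_eq, e1r, e2r, e3r])
  exact ⟨_, t', h1, h2⟩

end ORNG

open ORNG

theorem t_ORNG : M_ORNG := by
  intro hDFN hDSW hDMV hDTH k A _ _ _ n a δ h2 ha0 ha1 hδ
  obtain ⟨m, ma, mr⟩ := hDMV k A (Fin (n + 2)) 0 δ
  have hs : rt (0 : A) δ ^ 2 * algebraMap A (Dr A 0 δ) (a 0) =
      - algebraMap A (Dr A 0 δ) (a 1) := by
    have h := rt_eq (0 : A) δ
    rw [map_zero, zero_mul, add_zero] at h
    rw [← hδ, map_mul]
    linear_combination algebraMap A (Dr A 0 δ) (a 0) * h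
  obtain ⟨θ, hθ⟩ := hDTH k (Dr A 0 δ) n (fun j => algebraMap A (Dr A 0 δ) (a j)) (rt 0 δ) h2
    (ha0.map _) (ha1.map _) hs
  exact core hDFN hDSW k (MvPolynomial (Fin (n + 2)) A) (MvPolynomial (Fin (n + 2)) (Dr A 0 δ))
    ((MvPolynomial (Fin n) (Dr A 0 δ))[X][X]) (dia a) (MvPolynomial.C δ) (MvPolynomial.C 0)
    (map_zero _) m (dia fun j => algebraMap A (Dr A 0 δ) (a j)) (by rw [ma, map_dia]) θ
    (C X * X + C (C (dia fun j => algebraMap A (Dr A 0 δ) (a j.succ.succ)))) hθ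

end QCV
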