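import Pool.Agent.QCV.DefsO

/-!
# QCV, block O: statements (quadratic forms in an odd number of variables)

Goal.  If `a_0, ..., a_2m` are units of `A` and the varieties `Spec A` has the property `PPF`, then
so has `Spec A[x_0, ..., x_2m] / (a_0 x_0 ^ 2 + ... + a_2m x_2m ^ 2)` (`S_OODD`), WITHOUT hypotheses
on the double covers of `Spec A`.  Proof: it is a double cover `t ^ 2 + c = 0` of the affine space
`A[x_1, ..., x_2m]`, and the involution `t ↦ - t` acts trivially on homology and on cycles modulo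
rational equivalence (`TR`; `S_ODIA`), so the property descends in the other direction (`S_OPFD`).
`TR` is proved by cutting and pasting: it is inherited by gluing (`S_OGLU`), products with the affine
line (`S_OLN`), and may be checked after double covers of `A` (`S_ODCV`), so the form may be assumed
to be a sum of hyperbolic planes (`S_OHYP`), and finally zero (`S_ONIL`).
All modules are independent (the other statements are hypotheses `M_X`).
-/

set_option autoImplicit false

open CategoryTheory AlgebraicGeometry Polynomial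

namespace QCV

open Pool.Agent.Lib_helper55.Beil Pool.Agent.Lib_helper66.OneP CUB

universe v

/-! ## Triviality of involutions (homology) -/

/-- **ONIL**: an automorphism which is trivial modulo nilpotents.
Proof.  `autc t` composed with `redVarIn (aff k A)` is `redVarIn (aff k A)` (ring homomorphisms:
`A → A / nilradical`; or: work with `A → A ⧸ nilradical A`, `clo` of the quotient map, which is
surjective on points, and push-forward along it is surjective by exactness, see
`push_red_surjective` in F_SUP).  Homology: `m = P n r m'`, `P t (P r m') = P r m'` by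
`hT.push_comp` twice.  Cycles: `t` fixes every prime (`t x - x` is in every prime), so
`pushCyc (autc t) c = c` (`Finsupp.mapDomain` with the identity map). -/
def S_ONIL : Prop :=
  ∀ (k E : Type) [Field k] [Field E] (T : ∀ i : ℕ, Homology.{v} k E i) (_ : Full T)
    (A : Type) [CommRing A] [Algebra k A] [Algebra.FiniteType k A] (t : A ≃ₐ[k] A),
    (∀ x, IsNilpotent (t x - x)) → ∀ i, TR T i A t

/-- **OLN**: an automorphism `t'` of `A[X]` which extends the automorphism `t` of `A` (for example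
`t = 1` and `X ↦ - X`).
Proof.  `L = lineE (CC k A) (RingEquiv.refl _) (fun _ => rfl) : Line (aff k A[X]) (aff k A)`.
Homology: `n ≥ 2 (i + 1)`, `n = n' + 2`, `m = hT.line i n' L m'` (`hT.line_bij`), and
`hT.line_nat i n' L L sY sX` for the isomorphisms `sY`, `sX` defined by `t'`, `t` gives
`P t' (line m') = line (P t m') = line m'` (a `ClosedIn` is determined by its morphism `g`).
Cycles: by `CUB.Asm.s_L0 k A E` (1) a cycle `c` of dimension `i + 1` is rationally equivalent to the
pull-back `d` of a cycle `v` (`cyE`, `IsPull`, see `good_line` and `inj_line` in F_LIN);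
`pushCyc t' d` is the pull-back of `pushCyc t v`, and `v - pushCyc t v` is in `rat`, so
`d - pushCyc t' d`, its pull-back, is in `rat` (`CUB.Asm.s_FP` with `s_GX`, as in `inj_line`).
(Or on the level of varieties: `CUB.Asm2.s_PCY` for the pull-back of cycles.) -/
def S_OLN : Prop :=
  ∀ (k E : Type) [Field k] [Field E] (T : ∀ i : ℕ, Homology.{v} k E i) (_ : Full T)
    (A : Type) [CommRing A] [Algebra k A] [Algebra.FiniteType k A] (t : A ≃ₐ[k] A)
    (t' : A[X] ≃ₐ[k] A[X]), (∀ a, t' (C a) = C (t a)) → ∀ i, TR T i A t → TR T (i + 1) A[X] t'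

/-- **OGLU**: gluing.
Proof.  `Complementary` by `complementary_away u a s.away z s.surj s.ker`, closed immersion
`clo z`, open immersion `opn u` (as in F_RNG).  The automorphisms are compatible:
`clo z ≫ autc tA = autc tZ ≫ clo z` etc.  Homology: let `δ = P tA m - m`.  `R δ = P tU (R m) - R m = 0`
(`res_push` in F_GLU for the cartesian square of isomorphisms), so `δ = P z w` (`exact_X`), and
`P tA δ = P z (P tZ w) = δ`.  As `tA` is an involution `P tA δ = m - P tA m = - δ`, so `2 δ = 0`.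
Cycles: let `δ = c - tA c`.  `resCyc δ = res c - tU (res c)` is in `ratZero`, so it is `resCyc c'`
with `c' ∈ ratZero` (`exists_ratZero` in OneP/Loc), so `δ - c' = pushCyc (clo z) w` (`exists_pushCyc`).
`(δ - c') - tA (δ - c') = z (w - tZ w) ∈ ratZero`, `tA c' ∈ ratZero` (`pushCyc_ratZero`), so
`δ - tA δ ∈ ratZero`; `tA δ = - δ`, so `2 δ ∈ ratZero`. -/
def S_OGLU : Prop :=
  ∀ (k E : Type) [Field k] [Field E] [CharZero E] (T : ∀ i : ℕ, Homology.{v} k E i) (_ : Full T)
    (A Z U : Type) [CommRing A] [Algebra k A] [Algebra.FiniteType k A] [CommRing Z] [Algebra k Z]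
    [Algebra.FiniteType k Z] [CommRing U] [Algebra k U] [Algebra.FiniteType k U] (a : A)
    (z : A →ₐ[k] Z) (u : A →ₐ[k] U) (tA : A ≃ₐ[k] A) (tZ : Z ≃ₐ[k] Z) (tU : U ≃ₐ[k] U),
    Strat a z u → (∀ x, tA (tA x) = x) → (∀ x, z (tA x) = tZ (z x)) →
    (∀ x, u (tA x) = tU (u x)) → ∀ i, TR T i Z tZ → TR T i U tU → TR T i A tA

/-- **OISO**: isomorphisms.
Proof.  `hT.push_comp` and `pushCyc_comp` for `autc t`, `autc t'` and `clo e`; the push-forward along
the isomorphism is bijective on homology and on cycles and preserves `ratZero` in both directions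
(`pushCyc_ratZero` for `e` and for its inverse). -/
def S_OISO : Prop :=
  ∀ (k E : Type) [Field k] [Field E] (T : ∀ i : ℕ, Homology.{v} k E i) (_ : Full T)
    (A B : Type) [CommRing A] [Algebra k A] [Algebra.FiniteType k A] [CommRing B] [Algebra k B]
    [Algebra.FiniteType k B] (t : A ≃ₐ[k] A) (t' : B ≃ₐ[k] B) (e : A ≃ₐ[k] B),
    (∀ x, e (t x) = t' (e x)) → ∀ i, TR T i A t → TR T i B t'

/-- **ODCV**: descent along a double cover `Spec A' → Spec A`, `A' = Dr A b c`, with an automorphism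
`t'` of `A'` which extends `t`.
Proof.  Homology: `2 m = G (dbl) (D m)` (`Degree`), and `P t (G dbl m') = G dbl (P t' m')`
(`pfClosed`, `pfFunctorial`: `autc t' ≫ dbl = dbl ≫ autc t`), `= G dbl m'`.  Cycles: `2 c = pfc dbl z`
(`exists_dbl` in F_DBL), `pushCyc t (pfc dbl z) = pfc dbl (pushCyc t' z)`
(`CUB.Asm2.s_PFC` (2), (3)), and `pfc dbl (z - t' z) ∈ ratZero` by `CUB.Asm2.s_PUSHG` with `dim_dbl`
(as in `injC_dbl`). -/
def S_ODCV : Prop :=
  ∀ (k E : Type) [Field k] [Field E] [CharZero E] (T : ∀ i : ℕ, Homology.{v} k E i)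
    (hT : Full T), Pub T hT →
    ∀ (A : Type) [CommRing A] [Algebra k A] [Algebra.FiniteType k A] (b c : A) (t : A ≃ₐ[k] A)
      (t' : Dr A b c ≃ₐ[k] Dr A b c),
      (∀ a, t' (algebraMap A (Dr A b c) a) = algebraMap A (Dr A b c) (t a)) →
      ∀ i, TR T i (Dr A b c) t' → TR T i A t

/-! ## Hyperbolic planes -/

/-- The double cover `t ^ 2 + y y' + c = 0` of `Spec S[y, y']`, `y = C X`, `y' = X`. -/
abbrev HW (S : Type) [CommRing S] (c : S) : Type := Dr S[X][X] 0 (C X * X + C (C c))

/-- **OHYR** (commutative algebra): the strata `y = 0` and `y ≠ 0` of `HW S c`.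
Proof.  `z : y ↦ 0, y' ↦ X, t ↦ C t`; surjective with kernel `(y)`.
`u : y ↦ C x` (`x` the image of `X` in `B = Localization.Away X`), `t ↦ X`,
`y' ↦ - x⁻¹ (X ^ 2 + c)`: a localisation away from `y` (`HW[1 / y]`: the equation can be solved for
`y'`; see R_VRQ, R_LNR for the method: universal property).  `tZ`: `dinv` on the coefficients,
`X ↦ X` (`Polynomial.mapAlgEquiv`); `tU`: `X ↦ - X`. -/
def S_OHYR : Prop :=
  ∀ (k S : Type) [Field k] [CommRing S] [Algebra k S] (c : S),
    ∃ (z : HW S c →ₐ[k] (Dr S 0 c)[X]) (u : HW S c →ₐ[k] (Localization.Away (X : S[X]))[X])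
      (tZ : (Dr S 0 c)[X] ≃ₐ[k] (Dr S 0 c)[X])
      (tU : (Localization.Away (X : S[X]))[X] ≃ₐ[k] (Localization.Away (X : S[X]))[X]),
      Strat (algebraMap S[X][X] (HW S c) (C X)) z u ∧
      (∀ x, z (dinv _ _ k x) = tZ (z x)) ∧ (∀ x, u (dinv _ _ k x) = tU (u x)) ∧
      (∀ a, tZ (C a) = C (dinv 0 c k a)) ∧ ∀ a, tU (C a) = C a

/-- **OHYP**: `TR` for `HW S c`.
Proof.  `S_OGLU` with `S_OHYR`; the closed part by `S_OLN` (`t = dinv 0 c k`), the open part by
`S_OLN` with `t = AlgEquiv.refl` (`TR` for the identity: `hT.push_id`, and `pushCyc` of the identity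
is the identity). -/
def S_OHYP : Prop :=
  ∀ (k E : Type) [Field k] [Field E] [CharZero E] (T : ∀ i : ℕ, Homology.{v} k E i) (_ : Full T)
    (S : Type) [CommRing S] [Algebra k S] [Algebra.FiniteType k S] (c : S) (i : ℕ),
    TR T i (Dr S 0 c) (dinv 0 c k) → TR T (i + 1) (HW S c) (dinv _ _ k)

def M_OHYP : Prop := S_OLN.{v} → S_OGLU.{v} → S_OHYR → S_OHYP.{v}

/-! ## Commutative algebra of double covers -/

/-- **DFN**: an isomorphism `S ≃ S'` induces an isomorphism of the double covers.
Proof.  `AdjoinRoot.lift` in both directions (or `AdjoinRoot.mapAlgEquiv` ...). -/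
def S_DFN : Prop :=
  ∀ (k S S' : Type) [Field k] [CommRing S] [Algebra k S] [CommRing S'] [Algebra k S']
    (e : S ≃ₐ[k] S') (b c : S) (b' c' : S'), e b = b' → e c = c' →
    ∃ e' : Dr S b c ≃ₐ[k] Dr S' b' c',
      (∀ s, e' (algebraMap S _ s) = algebraMap S' _ (e s)) ∧ e' (rt b c) = rt b' c'

/-- **DSW**: two double covers may be exchanged.
Proof.  `AdjoinRoot.lift` of `AdjoinRoot.lift` in both directions; check on the generators. -/
def S_DSW : Prop :=
  ∀ (k S : Type) [Field k] [CommRing S] [Algebra k S] (b c b' c' : S),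
    ∃ e : Dr (Dr S b c) (algebraMap S _ b') (algebraMap S _ c') ≃ₐ[k]
        Dr (Dr S b' c') (algebraMap S _ b) (algebraMap S _ c),
      (∀ s, e (algebraMap (Dr S b c) _ (algebraMap S _ s)) =
        algebraMap (Dr S b' c') _ (algebraMap S _ s)) ∧
      e (algebraMap (Dr S b c) _ (rt b c)) = rt _ _ ∧
      e (rt _ _) = algebraMap (Dr S b' c') _ (rt b' c')

/-- **DMV**: double covers of polynomial rings whose coefficients come from the base.
Proof.  `AdjoinRoot.lift` of `MvPolynomial.map`, and `MvPolynomial.eval₂Hom` of `AdjoinRoot.map`. -/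
def S_DMV : Prop :=
  ∀ (k A σ : Type) [Field k] [CommRing A] [Algebra k A] (b c : A),
    ∃ e : Dr (MvPolynomial σ A) (MvPolynomial.C b) (MvPolynomial.C c) ≃ₐ[k]
        MvPolynomial σ (Dr A b c),
      (∀ p, e (algebraMap (MvPolynomial σ A) _ p) =
        MvPolynomial.map (algebraMap A (Dr A b c)) p) ∧
      e (rt _ _) = MvPolynomial.C (rt b c)

/-- **DTH**: coordinates for a binary form `a_0 x_0 ^ 2 + a_1 x_1 ^ 2` which splits:
`a_0 (x_0 - s x_1) (x_0 + s x_1)`, `s ^ 2 a_0 = - a_1`.
Proof.  `θ : x_0 ↦ (a_0⁻¹ y + y') / 2`, `x_1 ↦ (y' - a_0⁻¹ y) / (2 s)`, `x_(j+2) ↦ C (C (X j))` with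
`y = C X`, `y' = X`; the inverse is `C (C (X j)) ↦ x_(j+2)`, `C X ↦ a_0 (x_0 - s x_1)`,
`X ↦ x_0 + s x_1`.  (`s` is a unit, as `s ^ 2 a_0 = - a_1` is.) -/
def S_DTH : Prop :=
  ∀ (k A : Type) [Field k] [CommRing A] [Algebra k A] (n : ℕ) (a : Fin (n + 2) → A) (s : A),
    (2 : k) ≠ 0 → IsUnit (a 0) → IsUnit (a 1) → s ^ 2 * a 0 = - a 1 →
    ∃ θ : MvPolynomial (Fin (n + 2)) A ≃ₐ[k] (MvPolynomial (Fin n) A)[X][X],
      θ (dia a) = C X * X + C (C (dia fun j => a j.succ.succ))

/-- **ORNG**: after adjoining `s`, `s ^ 2 = - a_1 / a_0`, the double cover `t ^ 2 + dia a = 0` is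
`HW` of the double cover of the remaining variables.
Proof.  `A' = Dr A 0 δ`, `S = MvPolynomial (Fin (n + 2)) A`.  `S_DSW` (`b = 0`, `c = dia a`, `b' = 0`,
`c' = C δ`), `S_DFN` with `S_DMV` (`Dr S 0 (C δ) ≅ MvPolynomial _ A'`, `dia a ↦ dia (of ∘ a)`), `S_DFN`
with `S_DTH` for `A'`, `s = rt 0 δ` (`s ^ 2 = - δ`).  `t'` is the transport of `dinv` under the
isomorphism `e`; `t'` fixes `s` and maps `t` to `- t`, as `e` maps `t` to the root of `HW` and the
elements of `S` to elements of the base of `HW`. -/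
def S_ORNG : Prop :=
  ∀ (k A : Type) [Field k] [CommRing A] [Algebra k A] (n : ℕ) (a : Fin (n + 2) → A) (δ : A),
    (2 : k) ≠ 0 → IsUnit (a 0) → IsUnit (a 1) → δ * a 0 = a 1 →
    ∃ (e : Dr (Dr (MvPolynomial (Fin (n + 2)) A) 0 (dia a)) 0
          (algebraMap (MvPolynomial (Fin (n + 2)) A) _ (MvPolynomial.C δ)) ≃ₐ[k]
        HW (MvPolynomial (Fin n) (Dr A 0 δ))
          (dia fun j => algebraMap A (Dr A 0 δ) (a j.succ.succ)))
      (t' : Dr (Dr (MvPolynomial (Fin (n + 2)) A) 0 (dia a)) 0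
          (algebraMap (MvPolynomial (Fin (n + 2)) A) _ (MvPolynomial.C δ)) ≃ₐ[k] _),
      (∀ x, t' (algebraMap (Dr (MvPolynomial (Fin (n + 2)) A) 0 (dia a)) _ x) =
        algebraMap (Dr (MvPolynomial (Fin (n + 2)) A) 0 (dia a)) _ (dinv 0 (dia a) k x)) ∧
      ∀ x, e (t' x) = dinv _ _ k (e x)

def M_ORNG : Prop := S_DFN → S_DSW → S_DMV → S_DTH → S_ORNG

/-- **ODIA**: `TR` for `t ^ 2 + a_0 x_0 ^ 2 + ... + a_(2m-1) x_(2m-1) ^ 2 = 0` in the levels `i ≥ m`.
Proof.  Induction on `m` for all `A`.  `m = 0`: `dia a = 0` (empty sum), `t ^ 2 = 0`,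
`dinv x - x` is a multiple of `t` (`x = p + q t`, `dinv x = p - q t`), nilpotent: `S_ONIL`.
`m + 1` (`2 * (m + 1) = 2 * m + 2`): `i = i' + 1`, `i' ≥ m`; `δ = a_1 / a_0`; induction hypothesis for
`A' = Dr A 0 δ`, level `i'`; `S_OHYP`; `S_OISO` with the inverse of `e` of `S_ORNG`; `S_ODCV` with
`t'`.  (`FiniteType` of the rings involved: instances.) -/
def S_ODIA : Prop :=
  ∀ (k E : Type) [Field k] [Field E] [CharZero E] (T : ∀ i : ℕ, Homology.{v} k E i)
    (hT : Full T), Pub T hT → (2 : k) ≠ 0 →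
    ∀ (m : ℕ) (A : Type) [CommRing A] [Algebra k A] [Algebra.FiniteType k A]
      (a : Fin (2 * m) → A), (∀ j, IsUnit (a j)) → ∀ i, m ≤ i →
      TR T i (Dr (MvPolynomial (Fin (2 * m)) A) 0 (dia a)) (dinv 0 (dia a) k)

def M_ODIA : Prop :=
  S_ONIL.{v} → S_OISO.{v} → S_ODCV.{v} → S_OHYP.{v} → S_ORNG → S_ODIA.{v}

/-! ## From the base to the double cover -/

/-- **OPDN**: the push-forward of the divisor of `φ` is the divisor of the norm of `φ` (explicit form
of `CUB.S_PUSHD`).
Proof.  The statement `key` in the proof of `t_PUSHD` in `CUB2/K_PUSHD.lean` (copy the proof; at the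
end `ext y` instead of the choice of `d`). -/
def S_OPDN : Prop :=
  ∀ (k E : Type) [Field k] [Field E] (n : ℕ) (W V : Var k) (_ : IsIntegral W.X)
    (_ : IsIntegral V.X) (f : PrMor W V) (hf : f.g (genericPoint W.X) = genericPoint V.X)
    (φ : W.X.functionField) (c : Pts n W →₀ E) (d : Pts n V →₀ E),
    W.dim (genericPoint W.X) = (n + 1 : ℕ) → V.dim (genericPoint V.X) = (n + 1 : ℕ) → φ ≠ 0 →
    IsDiv (idIn W) φ c →
    IsDiv (idIn V) (@Algebra.norm V.X.functionField W.X.functionField _ _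
      (PUSHD.fm f.g hf).hom.toAlgebra φ) d → pfc E n f c = d

/-- **OLFT**: every cycle in `ratZero` of `Spec A` is the push-forward of a cycle in `ratZero` of the
double cover.
Proof.  By linearity, for a generator: `V = Spec A / p` (or an integral closed subvariety `V` of
`aff k A` of dimension `i + 1`), `φ` a function on `V`, `d` its divisor.  Let `q` be a prime of
`Dr A b c` over `p` (`Algebra.IsIntegral`, `comap` surjective: `A → Dr A b c` is injective and
finite), `W = V(q)`, `f : W → V`.  `W` has the same dimension as `V` (`dim_dbl`).  Let `φ'` be the image of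
`φ` in the function field of `W` (`(PUSHD.fm f.g hf).hom φ`), `c` its divisor.  The norm of `φ'` is
`φ ^ δ`, `δ` the degree (`Algebra.norm_algebraMap`), whose divisor is `δ d`
(`Scheme.ord` is multiplicative), so `pfc f c = δ d` by `S_OPDN`, `δ ≠ 0`.  Functoriality of `pfc`
(`CUB.Asm2.s_PFC` (2), (3)). -/
def S_OLFT : Prop :=
  ∀ (k E : Type) [Field k] [Field E] [CharZero E] (A : Type) [CommRing A] [Algebra k A]
    [Algebra.FiniteType k A] (b c : A) (i : ℕ), ∀ z ∈ ratZero E i (aff k A),
    ∃ c' ∈ ratZero E i (aff k (Dr A b c)), pfc E i (dbl b c k) c' = z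

def M_OLFT : Prop := S_OPDN → S_OLFT

/-- **OKER**: cycles on the double cover with push-forward zero.
Proof.  Let `τ = dinv b c k`.  (1) Two primes `q, q'` over the same prime of `A`: `q' = q` or
`q' = τ q`: for `x ∈ q'` the norm `x τ(x)` is in `A` (`x = α + β t`: `x τ(x) = α ^ 2 - α β b + β ^ 2 c`), so in
`q`, so `x ∈ q ∪ τ q`; prime avoidance (`Ideal.subset_union`), and there are no inclusions between
primes over the same prime (`Ideal.comap_lt_comap_of_integral_mem_sdiff` or
`Algebra.IsIntegral`...).  (2) The degrees of `q` and `τ q` over their image agree (functoriality,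
degree one for isomorphisms), and are not zero.  (3) `c` is the sum over the fibres; in a fibre `{q}`
the coefficient is zero, in a fibre `{q, τ q}` the coefficients are `e, - e`:
`e q - e τ q = d - τ d`, `d = e q`.  To avoid the choice of representatives: put `d = c / 2`; then
`c - (d - τ d) = (c + τ c) / 2`, and `c + τ c = 0`: its value at `q` is `c q + c (τ q)`, and
`(pfc c) (q ∩ A) = deg q (c q + c (τ q))` or `deg q * c q` (`s_PFC` (6)). -/
def S_OKER : Prop :=
  ∀ (k E : Type) [Field k] [Field E] [CharZero E] (A : Type) [CommRing A] [Algebra k A]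
    [Algebra.FiniteType k A] (b c : A) (i : ℕ) (z : Pts i (aff k (Dr A b c)) →₀ E),
    pfc E i (dbl b c k) z = 0 → z + pushCyc (autc (dinv b c k)) z = 0

/-- **OPFD**: the property `PF` ascends to a double cover whose involution acts trivially.
Proof.  `g = dbl b c k`, `τ = autc (dinv b c k)`, `S` the maps of `Pub`-type with `Frobenius`,
`Degree`, `Classes`, `Galois`.
(1) `G g` is injective in degrees `≥ 2 i`: `D (G g m) = m + P τ m = 2 m`.
(2) `gen ≤ alg`: for `m ∈ gen`, `G g m ∈ gen (Spec A) ≤ alg`, `G g m = cls x`; `2 x = pfc g z`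
(`exists_dbl`), `G g (cls z) = 2 G g m` (`s_PFC` (4)), so `cls z = 2 m` by (1).
(3) `InjC`: let `cls z = 0`.  `pfc g z` has class zero, so it is in `ratZero`, so
`pfc g z = pfc g z'`, `z' ∈ ratZero` (`S_OLFT`).  `S_OKER` for `z - z'`: `z + τ z = z' + τ z' ∈ ratZero`.
`z - τ z ∈ ratZero` by `TR`, so `2 z ∈ ratZero`.
(4) supports: for `m ∈ gen1`, `G g m = P ι w` with `W ⊆ Spec A` closed of dimension `≤ i + 1`,
`W = Spec A / I` (closed subvarieties of affine varieties are affine: `exists_aff`,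
or take the closed set and `I` its vanishing ideal).  `W' = Spec Dr (A / I) b c`, closed in
`Spec Dr A b c`, double cover of `W`, `w = G g_W w'` (`w' = D w / 2`).  `G g (P ι' w') = P ι w = G g m`, so
`m = P ι' w'` by (1). -/
def S_OPFD : Prop :=
  ∀ (k E : Type) [Field k] [Finite k] [Field E] [CharZero E] (T : ∀ i : ℕ, Homology.{v} k E i)
    (hT : Full T) (S : DblMaps T), Pub T hT → S.Frobenius → S.Degree hT.toProperMaps →
    S.Classes → S.Galois hT.toProperMaps →
    ∀ (A : Type) [CommRing A] [Algebra k A] [Algebra.FiniteType k A] (b c : A) (i : ℕ),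
      PF (T i) (aff k A) → TR T i (Dr A b c) (dinv b c k) → PF (T i) (aff k (Dr A b c))

def M_OPFD : Prop := S_OLFT → S_OKER → S_OPFD.{v}

/-- **ODR** (commutative algebra): the quadric cone in an odd number of variables as a double cover.
Proof.  Divide by the unit `a_0`; `MvPolynomial.finSuccEquiv`:
`A[x_1, ..., x_n][x_0] / (x_0 ^ 2 + ∑ (b_j) x_j ^ 2)`, `b_j = a_j / a_0`; `Ideal.quotientEquivAlg` and
`AdjoinRoot` is by definition the quotient. -/
def S_ODR : Prop :=
  ∀ (k A : Type) [Field k] [CommRing A] [Algebra k A] (n : ℕ) (a : Fin (n + 1) → A)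
    (b : Fin n → A), IsUnit (a 0) → (∀ j, b j * a 0 = a j.succ) →
    Nonempty ((MvPolynomial (Fin (n + 1)) A ⧸ Ideal.span {dia a}) ≃ₐ[k]
      Dr (MvPolynomial (Fin n) A) 0 (dia b))

/-- **OBCH** (commutative algebra): more variables in the base.
Proof.  `S_DFN` with `MvPolynomial (Fin n) (MvPolynomial (Fin m) A) ≅
MvPolynomial (Fin m) (MvPolynomial (Fin n) A)` (`MvPolynomial.commAlgEquiv`), and `S_DMV`. -/
def S_OBCH : Prop :=
  ∀ (k A : Type) [Field k] [CommRing A] [Algebra k A] (n m : ℕ) (b : Fin n → A),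
    Nonempty (Dr (MvPolynomial (Fin n) (MvPolynomial (Fin m) A)) 0
        (dia fun j => MvPolynomial.C (b j)) ≃ₐ[k]
      MvPolynomial (Fin m) (Dr (MvPolynomial (Fin n) A) 0 (dia b)))

def M_OBCH : Prop := S_DFN → S_DMV → S_OBCH

/-- **OODD**: the main result of the homological part.
Proof.  By `S_ODR` (and `pf_viso`) consider `V(A) = Dr (MvPolynomial (Fin (2 * m)) A) 0 (dia b)`, `b_j`
units.  Claim for `i ≥ m` and every `A` with `PPF`: `PF (T i) (V(A))`: `S_OPFD` for the base
`MvPolynomial (Fin (2 * m)) A` (`PF` by `Asm.s_PLY` (1) for `PPF`, `cls0_ppf`, `ppf_line`), `TR` by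
`S_ODIA` if `(2 : k) ≠ 0`; if `(2 : k) = 0` then `dinv = id` (`- t = t`), `S_ONIL`.
For arbitrary `i`: the claim for `A[w_1, ..., w_m]` and `i + m`; `S_OBCH`, `pf_viso`, and
`pf_mv_desc` (G_RED3; this is where `SectionZero` is used). -/
def S_OODD : Prop :=
  ∀ (k E : Type) [Field k] [Finite k] [Field E] [CharZero E] (T : ∀ i : ℕ, Homology.{v} k E i)
    (hT : Full T) (S : DblMaps T), Pub T hT → SectionZero T → S.Frobenius →
    S.Degree hT.toProperMaps → S.Classes → S.Galois hT.toProperMaps →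
    ∀ (A : Type) [CommRing A] [Algebra k A] [Algebra.FiniteType k A] (m : ℕ)
      (a : Fin (2 * m + 1) → A), (∀ j, IsUnit (a j)) → PPF T (aff k A) →
      PPF T (aff k (MvPolynomial (Fin (2 * m + 1)) A ⧸ Ideal.span {dia a}))

def M_OODD : Prop := S_ONIL.{v} → S_ODIA.{v} → S_OPFD.{v} → S_ODR → S_OBCH → S_OODD.{v}

/-! ## Quadratic forms: linear algebra -/

/-- **QDF**: diagonalisation over a field.
Proof.  `LinearMap.BilinForm.exists_orthogonal_basis` (or
`QuadraticForm.equivalent_weightedSumSquares`) for the symmetric form with matrix `G`; permute the basis so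
that the nonzero diagonal entries come first; `rank (Pᵀ G P) = rank G` and the rank of a diagonal
matrix is the number of nonzero entries (`Matrix.rank_diagonal`). -/
def S_QDF : Prop :=
  ∀ (K : Type) [Field K] (n : ℕ) (G : Matrix (Fin n) (Fin n) K), (2 : K) ≠ 0 → G.transpose = G →
    ∃ (P : Matrix (Fin n) (Fin n) K) (w : Fin n → K), IsUnit P.det ∧
      P.transpose * G * P = Matrix.diagonal w ∧ ∀ j : Fin n, w j ≠ 0 ↔ j.1 < G.rank

/-- **QDS**: diagonalisation over a localisation of a domain `D`.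
Proof.  `S_QDF` over the fraction field; multiply `P` by a common denominator `s` (`w` is multiplied
by `s ^ 2`), so `P` and `w` have entries in `D` (`D → FractionRing D` is injective, so
`Pᵀ G P = diag w` in `D`).  `a = det P * ∏ (nonzero w_j)`. -/
def S_QDS : Prop :=
  ∀ (D : Type) [CommRing D] [IsDomain D] (n : ℕ) (G : Matrix (Fin n) (Fin n) D), (2 : D) ≠ 0 →
    G.transpose = G →
    ∃ a : D, a ≠ 0 ∧ ∃ (P : Matrix (Fin n) (Fin n) (Localization.Away a))
      (w : Fin n → Localization.Away a), IsUnit P.det ∧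
      P.transpose * G.map (algebraMap D (Localization.Away a)) * P = Matrix.diagonal w ∧
      ∀ j : Fin n, (j.1 < (G.map (algebraMap D (FractionRing D))).rank → IsUnit (w j)) ∧
        (¬ j.1 < (G.map (algebraMap D (FractionRing D))).rank → w j = 0)

def M_QDS : Prop := S_QDF → S_QDS

/-- **QDP**: the linear substitution with matrix `P`.
Proof.  `2 f = ∑_(i,j) G_(ij) x_i x_j` for `f` homogeneous of degree two (Euler:
`MvPolynomial.IsHomogeneous.sum_X_mul_pderiv` twice; or coefficientwise).  The substitution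
`x_i ↦ ∑_j P_(ij) x_j` is an automorphism of the polynomial ring (inverse: `P⁻¹`), and maps `2 f` to
`∑ w_j x_j ^ 2`.  `v_j = w_j / 2`. -/
def S_QDP : Prop :=
  ∀ (k B : Type) [Field k] [CommRing B] [Algebra k B] (n : ℕ) (f : MvPolynomial (Fin n) B)
    (P : Matrix (Fin n) (Fin n) B) (w v : Fin n → B), (2 : k) ≠ 0 → f.IsHomogeneous 2 →
    IsUnit P.det → P.transpose * gram f * P = Matrix.diagonal w → (∀ j, 2 * v j = w j) →
    Nonempty ((MvPolynomial (Fin n) B ⧸ Ideal.span {f}) ≃ₐ[k]
      (MvPolynomial (Fin n) B ⧸ Ideal.span {dia v}))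

/-- **QDL**: the variables which do not occur.
Proof.  `MvPolynomial (Fin n) B ≅ MvPolynomial (Fin (n - ρ)) (MvPolynomial (Fin ρ) B)`
(`P_SPL.spl` with `b = ρ`), `dia v ↦ C (dia (v on the first ρ))`;
`MvPolynomial.quotientEquivQuotientMvPolynomial`. -/
def S_QDL : Prop :=
  ∀ (k B : Type) [Field k] [CommRing B] [Algebra k B] (n ρ : ℕ) (hρ : ρ ≤ n) (v : Fin n → B),
    (∀ j : Fin n, ¬ j.1 < ρ → v j = 0) →
    Nonempty ((MvPolynomial (Fin n) B ⧸ Ideal.span {dia v}) ≃ₐ[k]
      MvPolynomial (Fin (n - ρ)) (MvPolynomial (Fin ρ) B ⧸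
        Ideal.span {dia fun j : Fin ρ => v (Fin.castLE hρ j)}))

/-! ## Quadratic forms of odd generic rank -/

/-- The closure property: quadric cones in an odd number of variables. -/
def OddCl (k : Type) [Field k]
    (P : ∀ (A : Type) [CommRing A] [Algebra k A] [Algebra.FiniteType k A], Prop) : Prop :=
  ∀ (A : Type) [CommRing A] [Algebra k A] [Algebra.FiniteType k A] (m : ℕ)
    (a : Fin (2 * m + 1) → A), (∀ j, IsUnit (a j)) → P A →
    P (MvPolynomial (Fin (2 * m + 1)) A ⧸ Ideal.span {dia a})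

/-- **QOD**: one quadratic form of odd rank over the fraction field of the domain `B`.
Proof.  `G = gram f` (symmetric: `MvPolynomial.pderiv_pderiv` commute).  `S_QDS` gives `a`; `ρ` the
rank (odd, `≤ n`).  `Z = B / a` (`Ideal.Quotient.mkₐ`), `U = Localization.Away a` (`awayHom k a`),
`Strat a z u` (`CUB.isLocalization_awayHom`, see R_SPR, R_NOE).  `P (B / a)` by `base`, as
`DL k (B / a) d` (`Asm.s_DLR`: the dimension drops), `P U` by `opn`.  `P` of the family over `Z`:
`Asm.s_QUA` (`mf` keeps the degree).  Over `U`: `gram` commutes with `map`; `S_QDP` with `v = w / 2`,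
`S_QDL` with `ρ = 2 m + 1`, `OddCl` over `U` (`v_j` units for `j < ρ`), and `Asm.s_PLY` (1).  Glue with
`Asm.s_FAM` (1). -/
def S_QOD : Prop :=
  ∀ (k : Type) [Field k]
    (P : ∀ (A : Type) [CommRing A] [Algebra k A] [Algebra.FiniteType k A], Prop) (d : ℕ),
    (2 : k) ≠ 0 → Cls k d P → OddCl k P →
    ∀ (B : Type) [CommRing B] [IsDomain B] [Algebra k B] [Algebra.FiniteType k B] (n : ℕ)
      (f : MvPolynomial (Fin n) B), DL k B (d + 1) → P B → f.IsHomogeneous 2 →
      Odd ((gram f).map (algebraMap B (FractionRing B))).rank →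
      P (ER (fun _ : Fin 1 => f))

def M_QOD : Prop := S_QDS → S_QDP → S_QDL → S_QOD

/-- **QSW**: `S_SWP` with the explicit polynomial `gen f`.
Proof.  As R_SWP: `R[x][s] ≅ R[s][x]`, `fs f ↦ gen f`. -/
def S_QSW : Prop :=
  ∀ (k R : Type) [Field k] [CommRing R] [Algebra k R] (n q : ℕ)
    (f : Fin (q + 1) → MvPolynomial (Fin n) R),
    Nonempty ((MvPolynomial (Fin q) (MvPolynomial (Fin n) R) ⧸ Ideal.span {fs f}) ≃ₐ[k]
      ER (fun _ : Fin 1 => gen f))

/-- The ring homomorphism `R[t_1, ..., t_q] → Frac ((R / p)[t_1, ..., t_q])`. -/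
noncomputable def genHom {R : Type} [CommRing R] (q : ℕ) (p : PrimeSpectrum R) :
    MvPolynomial (Fin q) R →+* FractionRing (MvPolynomial (Fin q) (R ⧸ p.asIdeal)) :=
  (algebraMap (MvPolynomial (Fin q) (R ⧸ p.asIdeal)) _).comp
    (MvPolynomial.map (Ideal.Quotient.mk p.asIdeal))

/-- The generic member `f_0 + t_1 f_1 + ... + t_q f_q` of the linear system has odd rank over every
prime of `R` of dimension at least `e`. -/
def OddGen (k : Type) [Field k] {R : Type} [CommRing R] [Algebra k R] {n q : ℕ} (e : ℕ)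
    (f : Fin (q + 1) → MvPolynomial (Fin n) R) : Prop :=
  ∀ p : PrimeSpectrum R, (e : Cardinal) ≤ rdim k p → Odd ((gram (gen f)).map (genHom q p)).rank

/-- **QNO**: noetherian induction over `R`.
Proof.  `Asm.s_NOE` for `F S ψ := P (MvPolynomial (Fin q) (MvPolynomial (Fin n) S) ⧸
Ideal.span {fs (fun j => map ψ (f j))})`; `Cls1` as in R_SPR: this is a family over `S` in the
`q + n` variables (`MvPolynomial (Fin (q + n)) S`, one equation: `S_FAM` (1), (2) after the
isomorphism `MvPolynomial.sumAlgEquiv`, `finSumFinEquiv`).  For a domain `D = R / p` (`ψ` surjective,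
`p` its kernel, `D ≅ R / p`) take `a = 1`, `Localization.Away 1 ≅ D` and isomorphism invariance; so show
`P (ER (gen f_D))` (`S_QSW`): `B = MvPolynomial (Fin q) D`, a domain, `P B` (`base`, `e ≤ d`, `line`).  If
`rdim k p < e`: `DL k D (e - 1)` (`e ≥ 1`; every prime of `D` has dimension at most that of `⊥`), so
`DL k B d` (`Asm.s_DLM`), and `Asm.s_QUA`.  Otherwise `S_QOD` for `B` (`DL k B (d + 1)`):
`gram (gen f_D)` is the image of `gram (gen f)`, and the rank condition is `OddGen` at `p`
(transport along `R / p ≅ D`). -/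
def S_QNO : Prop :=
  ∀ (k : Type) [Field k]
    (P : ∀ (A : Type) [CommRing A] [Algebra k A] [Algebra.FiniteType k A], Prop) (d : ℕ),
    (2 : k) ≠ 0 → Cls k d P → OddCl k P →
    ∀ (R : Type) [CommRing R] [Algebra k R] [Algebra.FiniteType k R] (n q e : ℕ)
      (f : Fin (q + 1) → MvPolynomial (Fin n) R), e ≤ d → q + e ≤ d + 1 → DL k R e →
      (∀ j, (f j).IsHomogeneous 2) → OddGen k e f →
      P (MvPolynomial (Fin q) (MvPolynomial (Fin n) R) ⧸ Ideal.span {fs f})

def M_QNO : Prop := S_QOD → S_QSW → S_QNO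

/-- **QVR**: `P (VR R[x] f)` for `q + 1` quadratic forms with odd generic rank.
Proof.  As R_VRP, step `r + 1`: `S' = MvPolynomial (Fin q) (MvPolynomial (Fin n) R)`, `P S'`,
`P (S' / (fs f))` by `S_QNO`, `Asm.s_V1P`, `P (VR _ (f ∘ succ))` by `Asm.s_VRP` (`e + q ≤ d + 1`,
`totalDegree ≤ 2` by homogeneity), `glue` with `Asm.s_VRQ`. -/
def S_QVR : Prop :=
  ∀ (k : Type) [Field k]
    (P : ∀ (A : Type) [CommRing A] [Algebra k A] [Algebra.FiniteType k A], Prop) (d : ℕ),
    (2 : k) ≠ 0 → Cls k d P → OddCl k P →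
    ∀ (R : Type) [CommRing R] [Algebra k R] [Algebra.FiniteType k R] (n q e : ℕ)
      (f : Fin (q + 1) → MvPolynomial (Fin n) R), e ≤ d → q + e ≤ d + 1 → DL k R e →
      (∀ j, (f j).IsHomogeneous 2) → OddGen k e f → P (VR (MvPolynomial (Fin n) R) f)

def M_QVR : Prop := S_QNO → S_QVR

end QCV
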