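import Mathlib
import Pool.Agent.QCV.StO

/-!
# QCV, block O: noetherian induction for a linear system of quadratic forms of odd rank
-/

set_option autoImplicit false

open Polynomial

namespace QCV

open CUB

namespace QNO

attribute [local instance] MvPolynomial.algebraMvPolynomial in
lemma away_mv {A U : Type} [CommRing A] [CommRing U] (q : ℕ) (a : A) (ψ : A →+* U)
    (h : @IsLocalization.Away A _ a U _ ψ.toAlgebra) :
    @IsLocalization.Away (MvPolynomial (Fin q) A) _ (MvPolynomial.C a) (MvPolynomial (Fin q) U) _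
      (MvPolynomial.map ψ).toAlgebra := by
  let _i1 := ψ.toAlgebra
  have h' : IsLocalization.Away a U := h
  have hloc : IsLocalization ((Submonoid.powers a).map (MvPolynomial.C (σ := Fin q)))
      (MvPolynomial (Fin q) U) := MvPolynomial.isLocalization _ _
  have h1 : (Submonoid.powers a).map (MvPolynomial.C (σ := Fin q)) =
      Submonoid.powers (MvPolynomial.C a) := Submonoid.map_powers _ _
  rw [h1] at hloc
  have h2 : (MvPolynomial.map ψ : MvPolynomial (Fin q) A →+* MvPolynomial (Fin q) U).toAlgebra =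
      (inferInstance : Algebra (MvPolynomial (Fin q) A) (MvPolynomial (Fin q) U)) := by
    apply Algebra.algebra_ext
    intro r
    rfl
  rw [h2]
  exact hloc

/-- The strata of polynomial rings. -/
lemma strat_mv {k A Z U : Type} [Field k] [CommRing A] [CommRing Z] [CommRing U] [Algebra k A]
    [Algebra k Z] [Algebra k U] (q : ℕ) {a : A} {z : A →ₐ[k] Z} {u : A →ₐ[k] U}
    (h : Strat a z u) :
    Strat (MvPolynomial.C a : MvPolynomial (Fin q) A) (FAM.mpa q z) (FAM.mpa q u) := by
  refine ⟨?_, ?_, ?_⟩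
  · exact MvPolynomial.map_surjective z.toRingHom h.surj
  · change RingHom.ker (MvPolynomial.map (σ := Fin q) z.toRingHom) = _
    rw [MvPolynomial.ker_map, h.ker, Ideal.map_span, Set.image_singleton]
  · exact away_mv q a u.toRingHom h.away

lemma gen_map {R S : Type} [CommRing R] [CommRing S] {n q : ℕ} (ψ : R →+* S)
    (f : Fin (q + 1) → MvPolynomial (Fin n) R) :
    gen (mf ψ f) = MvPolynomial.map (MvPolynomial.map ψ) (gen f) := by
  have hC : ∀ p : MvPolynomial (Fin n) R, MvPolynomial.map (MvPolynomial.C (σ := Fin q))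
      (MvPolynomial.map ψ p) =
      MvPolynomial.map (MvPolynomial.map ψ) (MvPolynomial.map (MvPolynomial.C (σ := Fin q)) p) := by
    intro p
    rw [MvPolynomial.map_map, MvPolynomial.map_map]
    have h1 : (MvPolynomial.C (σ := Fin q)).comp ψ =
        (MvPolynomial.map ψ).comp (MvPolynomial.C (σ := Fin q)) := by
      ext r : 1
      exact (MvPolynomial.map_C ψ r).symm
    rw [h1]
  unfold gen
  rw [map_add, map_sum, hC]
  congr 1
  refine Finset.sum_congr rfl fun j _ => ?_
  rw [map_mul, MvPolynomial.map_C, MvPolynomial.map_X, hC]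

lemma gram_map {A B : Type} [CommRing A] [CommRing B] {n : ℕ} (ψ : A →+* B)
    (f : MvPolynomial (Fin n) A) : gram (MvPolynomial.map ψ f) = (gram f).map ψ := by
  ext i j
  rw [Matrix.map_apply]
  change MvPolynomial.coeff 0 _ = ψ (MvPolynomial.coeff 0 _)
  rw [MvPolynomial.pderiv_map, MvPolynomial.pderiv_map, MvPolynomial.coeff_map]

lemma gen_homog {R : Type} [CommRing R] {n q : ℕ} (f : Fin (q + 1) → MvPolynomial (Fin n) R)
    (h : ∀ j, (f j).IsHomogeneous 2) : (gen f).IsHomogeneous 2 := by
  unfold gen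
  refine MvPolynomial.IsHomogeneous.add ((h 0).map _) ?_
  refine MvPolynomial.IsHomogeneous.sum _ _ _ fun j _ => ?_
  exact ((h j.succ).map _).C_mul _

lemma DL_mono {k A : Type} [Field k] [CommRing A] [Algebra k A] {d d' : ℕ} (h : d ≤ d')
    (hA : DL k A d) : DL k A d' := fun p => (hA p).trans (by exact_mod_cast h)

end QNO

open QNO in
theorem t_QNO : M_QNO := by
  intro hQOD hQSW k _ P d h2 hP hodd R _ _ _ n q e f hed hqe hR hf hgen
  have hmf : ∀ (S S' : Type) [CommRing S] [Algebra k S] [CommRing S'] [Algebra k S']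
      (ψ : R →ₐ[k] S) (φ : S →ₐ[k] S'),
      (fun _ : Fin 1 => gen (mf (φ.comp ψ).toRingHom f)) =
        mf (FAM.mpa q φ).toRingHom (fun _ : Fin 1 => gen (mf ψ.toRingHom f)) := by
    intro S S' _ _ _ _ ψ φ
    funext j
    have h1 : mf (φ.comp ψ).toRingHom f = mf φ.toRingHom (mf ψ.toRingHom f) := by
      funext j
      exact (MvPolynomial.map_map _ _ _).symm
    rw [h1, gen_map]
    rfl
  have h1 : Cls1 k R (fun S _ _ _ ψ => P (ER (fun _ : Fin 1 => gen (mf ψ.toRingHom f)))) := by
    constructor
    · intro S S' _ _ _ _ _ _ e ψ hS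
      have hb : Function.Bijective (FAM.mpa q e.toAlgHom) :=
        ⟨MvPolynomial.map_injective _ e.injective, MvPolynomial.map_surjective _ e.surjective⟩
      obtain ⟨e'⟩ := Asm.s_FAM.2 k _ _ (Fin 1) n (AlgEquiv.ofBijective _ hb)
        (fun _ : Fin 1 => gen (mf ψ.toRingHom f))
      have := hP.iso e' hS
      have h3 : mf ((AlgEquiv.ofBijective _ hb).toAlgHom).toRingHom
          (fun _ : Fin 1 => gen (mf ψ.toRingHom f)) =
          fun _ : Fin 1 => gen (mf (e.toAlgHom.comp ψ).toRingHom f) := by
        rw [hmf]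
        rfl
      rw [h3] at this
      exact this
    · intro S _ _ _ ψ hS
      apply hP.triv
      have h3 : Subsingleton (MvPolynomial (Fin q) S) := Module.subsingleton S _
      have h4 : Subsingleton (MvPolynomial (Fin n) (MvPolynomial (Fin q) S)) :=
        Module.subsingleton (MvPolynomial (Fin q) S) _
      exact Function.Surjective.subsingleton (Ideal.Quotient.mk_surjective
        (I := Ideal.span (Set.range (fun _ : Fin 1 => gen (mf ψ.toRingHom f)))))
    · intro A Z U _ _ _ _ _ _ _ _ _ a z u ψ hs hZ hU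
      obtain ⟨z', u', hs'⟩ := Asm.s_FAM.1 k _ _ _ (Fin 1) n _ _ _
        (fun _ : Fin 1 => gen (mf ψ.toRingHom f)) (strat_mv q hs)
      refine hP.glue _ z' u' hs' ?_ ?_
      · rw [← hmf]
        exact hZ
      · rw [← hmf]
        exact hU
    · intro A Z U _ _ _ _ _ _ _ _ _ a z u ψ hs hA hZ
      obtain ⟨z', u', hs'⟩ := Asm.s_FAM.1 k _ _ _ (Fin 1) n _ _ _
        (fun _ : Fin 1 => gen (mf ψ.toRingHom f)) (strat_mv q hs)
      have := hP.opn _ z' u' hs' hA (by rw [← hmf]; exact hZ)
      rw [← hmf] at this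
      exact this
  -- the residue rings of the primes
  have hdom : ∀ p : PrimeSpectrum R, P (ER (fun _ : Fin 1 =>
      gen (mf (Ideal.Quotient.mkₐ k p.asIdeal).toRingHom f))) := by
    intro p
    have hD : DL k (R ⧸ p.asIdeal) e :=
      Asm.s_DLR.1 k R _ e (Ideal.Quotient.mkₐ k p.asIdeal) (Ideal.Quotient.mkₐ_surjective k _) hR
    have hh : (gen (mf (Ideal.Quotient.mkₐ k p.asIdeal).toRingHom f)).IsHomogeneous 2 :=
      gen_homog _ fun j => (hf j).map _
    by_cases hp : (e : Cardinal) ≤ rdim k p
    · have hB : DL k (MvPolynomial (Fin q) (R ⧸ p.asIdeal)) (d + 1) :=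
        DL_mono (by omega) (Asm.s_DLM k _ e q hD)
      refine hQOD k P d h2 hP hodd (MvPolynomial (Fin q) (R ⧸ p.asIdeal)) n _ hB ?_ hh ?_
      · exact (Asm.s_PLY k P hP.toCls0 hP.line _ q).1 (hP.base _ (DL_mono hed hD))
      · have h3 := hgen p hp
        have h4 : (gram (gen (mf (Ideal.Quotient.mkₐ k p.asIdeal).toRingHom f))).map
            (algebraMap (MvPolynomial (Fin q) (R ⧸ p.asIdeal)) (FractionRing _)) =
            (gram (gen f)).map (genHom q p) := by
          rw [gen_map, gram_map, Matrix.map_map]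
          rfl
        rw [h4]
        exact h3
    · obtain ⟨e', rfl⟩ : ∃ e', e = e' + 1 := by
        refine ⟨e - 1, ?_⟩
        have : e ≠ 0 := by
          rintro rfl
          exact hp (by simp)
        omega
      have hD' : DL k (R ⧸ p.asIdeal) e' := by
        intro P'
        have h3 := rdim_comap (Ideal.Quotient.mkₐ k p.asIdeal)
          (Ideal.Quotient.mkₐ_surjective k _) P'
        rw [← h3]
        have h4 : p ≤ PrimeSpectrum.comap (Ideal.Quotient.mkₐ k p.asIdeal).toRingHom P' := by
          intro x hx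
          change Ideal.Quotient.mk p.asIdeal x ∈ P'.asIdeal
          rw [Ideal.Quotient.eq_zero_iff_mem.2 hx]
          exact zero_mem _
        refine (rdim_le h4).trans ?_
        rw [not_le] at hp
        obtain ⟨m, hm⟩ := Cardinal.lt_aleph0.1 (hp.trans (Cardinal.natCast_lt_aleph0))
        rw [hm] at hp ⊢
        have h5 : m < e' + 1 := by exact_mod_cast hp
        exact_mod_cast Nat.lt_succ_iff.1 h5
      have hB : DL k (MvPolynomial (Fin q) (R ⧸ p.asIdeal)) d :=
        DL_mono (by omega) (Asm.s_DLM k _ e' q hD')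
      exact Asm.s_QUA k P d hP n _ _ hB fun _ => hh.totalDegree_le
  have h3 := Asm.s_NOE k R _ h1 (by
    intro D _ _ _ _ ψ hψ
    have hprime : (RingHom.ker ψ.toRingHom).IsPrime := RingHom.ker_isPrime _
    refine ⟨1, one_ne_zero, ?_⟩
    have hbij : Function.Bijective (awayHom k (1 : D)) := by
      have := isLocalization_awayHom (k := k) (1 : D)
      exact (IsLocalization.atUnit D (Localization.Away (1 : D)) (1 : D) isUnit_one).bijective
    let e1 : (R ⧸ RingHom.ker ψ.toRingHom) ≃ₐ[k] D :=
      Ideal.quotientKerAlgEquivOfSurjective hψ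
    let e2 : (R ⧸ RingHom.ker ψ.toRingHom) ≃ₐ[k] Localization.Away (1 : D) :=
      e1.trans (AlgEquiv.ofBijective _ hbij)
    have h4 := h1.iso e2 _ (hdom ⟨RingHom.ker ψ.toRingHom, hprime⟩)
    have h5 : e2.toAlgHom.comp (Ideal.Quotient.mkₐ k (RingHom.ker ψ.toRingHom)) =
        (awayHom k (1 : D)).comp ψ := by
      apply AlgHom.ext
      intro x
      rfl
    have h6 := h5 ▸ h4
    exact h6)
  have h4 : mf (AlgHom.id k R).toRingHom f = f := by
    funext j
    exact MvPolynomial.map_id _
  have h5 : P (ER (fun _ : Fin 1 => gen f)) := by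
    have h6 : P (ER (fun _ : Fin 1 => gen (mf (AlgHom.id k R).toRingHom f))) := h3
    rw [h4] at h6
    exact h6
  obtain ⟨e'⟩ := hQSW k R n q f
  exact hP.iso e'.symm h5

end QCV
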