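import Pool.Agent.QCV.StO
import Pool.Agent.QCV.Asm

/-!
# QCV, module QVR
-/

set_option autoImplicit false

open Polynomial

namespace QCV

open CUB

theorem t_QVR : M_QVR := by
  intro hQNO k _ P d h2 hP hO R _ _ _ n q e f hed hqe hDL hf hodd
  have hS' : P (MvPolynomial (Fin q) (MvPolynomial (Fin n) R)) :=
    (Asm.s_PLY k P hP.toCls0 hP.line _ q).1 ((Asm.s_PLY k P hP.toCls0 hP.line R n).1
      (hP.base R (hDL.mono hed)))
  have h1 : P (MvPolynomial (Fin q) (MvPolynomial (Fin n) R) ⧸ Ideal.span {fs f}) :=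
    hQNO k P d h2 hP hO R n q e f hed hqe hDL hf hodd
  have h3 := Asm.s_V1P k P hP.toCls0 hP.line (MvPolynomial (Fin q) (MvPolynomial (Fin n) R))
    (fs f) hS' h1
  have h4 := Asm.s_VRP k P d e n q hP hed (by omega) R (fun j : Fin q => f j.succ) hDL
    (fun j => (hf _).totalDegree_le)
  obtain ⟨z', u', hs⟩ := Asm.s_VRQ k (MvPolynomial (Fin n) R) q f
  exact hP.glue _ z' u' hs h4 h3

end QCV
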