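import Pool.Agent.QCV.O_ONIL
import Pool.Agent.QCV.O_OLN
import Pool.Agent.QCV.O_OGLU
import Pool.Agent.QCV.O_OISO
import Pool.Agent.QCV.O_ODCV
import Pool.Agent.QCV.O_OHYR
import Pool.Agent.QCV.O_OHYP
import Pool.Agent.QCV.O_DFN
import Pool.Agent.QCV.O_DSW
import Pool.Agent.QCV.O_DMV
import Pool.Agent.QCV.O_DTH
import Pool.Agent.QCV.O_ORNG
import Pool.Agent.QCV.O_ODIA
import Pool.Agent.QCV.O_OPDN
import Pool.Agent.QCV.O_OLFT
import Pool.Agent.QCV.O_OKER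
import Pool.Agent.QCV.O_OPFD
import Pool.Agent.QCV.O_ODR
import Pool.Agent.QCV.O_OBCH
import Pool.Agent.QCV.O_OODD
import Pool.Agent.QCV.QDF
import Pool.Agent.QCV.O_QDS
import Pool.Agent.QCV.O_QDP
import Pool.Agent.QCV.O_QDL
import Pool.Agent.QCV.O_QOD
import Pool.Agent.QCV.O_QSW
import Pool.Agent.QCV.O_QNO
import Pool.Agent.QCV.O_QVR

/-!
# QCV, block O: assembly
-/

set_option autoImplicit false

namespace QCV

universe v

namespace Asm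

theorem s_OHYP : S_OHYP.{v} := t_OHYP t_OLN t_OGLU t_OHYR

theorem s_ORNG : S_ORNG := t_ORNG t_DFN t_DSW t_DMV t_DTH

theorem s_ODIA : S_ODIA.{v} := t_ODIA t_ONIL t_OISO t_ODCV s_OHYP s_ORNG

theorem s_OLFT : S_OLFT := t_OLFT t_OPDN

theorem s_OPFD : S_OPFD.{v} := t_OPFD s_OLFT t_OKER

theorem s_OBCH : S_OBCH := t_OBCH t_DFN t_DMV

theorem s_OODD : S_OODD.{v} := t_OODD t_ONIL s_ODIA s_OPFD t_ODR s_OBCH

theorem s_QDS : S_QDS := t_QDS t_QDF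

theorem s_QOD : S_QOD := t_QOD s_QDS t_QDP t_QDL

theorem s_QNO : S_QNO := t_QNO s_QOD t_QSW

theorem s_QVR : S_QVR := t_QVR s_QNO

end Asm

end QCV
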