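import Pool.Agent.QCV.G_ET
import Pool.Agent.QCV.F_BAS

/-!
# QCV, upgrade: it is enough to know the conjecture for smooth proper varieties
-/

set_option autoImplicit false

open CategoryTheory AlgebraicGeometry Limits Polynomial TopologicalSpace

namespace QCV

open Pool.Agent.Lib_helper55.Beil Pool.Agent.Lib_helper66.OneP CUB

universe v

variable {k : Type} [Field k] {E : Type} [Field E]

variable {T : ∀ i : ℕ, Homology.{v} k E i}

namespace U4

/-- The property for an open part of an integral variety. -/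
lemma pf_part [Finite k] [CharZero E] (hT : Full T) (hP : Pub T hT)
    (hA : Pool.Agent.Lib_helper66.OneP.Alterations k) (i : ℕ) (hPu : Purity (T i))
    (hE : EtTrans T hT.toProperMaps) (d : ℕ)
    (h : ∀ (Y : Var k) (D : ℕ), D ≤ d → Y.SmoothProper D → Q1 (T i) Y) (e : ℕ) (he : e + 1 ≤ d)
    (hlow : ∀ Z : Var k, Z.DimLE e → PF (T i) Z) (V₀ : Var k) (hint : IsIntegral V₀.X)
    (hdim : V₀.DimLE (e + 1 : ℕ)) :
    ∃ (U' : Var k) (_ : OpenIn U' V₀), Nonempty U'.X ∧ PF (T i) U' := by
  obtain ⟨D, hD⟩ := t_DST.2.1 k V₀ (genericPoint V₀.X)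
  obtain ⟨U', V, Y, j, p, o, hne, hsp⟩ := hA V₀ hint D hD
  refine ⟨U', j, hne, ?_⟩
  have hDd : D ≤ e + 1 := by
    have := hdim (genericPoint V₀.X)
    rw [hD] at this
    exact_mod_cast this
  have hsp' := hsp
  obtain ⟨-, -, hYint, hYdim⟩ := hsp'
  have hop := o.isOpen
  let K : Closeds Y.X := (⟨Set.range o.g, o.g.isOpenEmbedding.isOpen_range⟩ : Opens Y.X).compl
  have hcomp : Complementary (closedVarIn Y K) o := by
    rw [Complementary, range_closedVarIn]
    rfl
  have hQ := h Y D (hDd.trans he) hsp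
  have hY : PF (T i) Y := by
    refine ⟨CUB.OPEN.good (T i) Y hQ.2.1 hQ.2.2, ((T i).inj_iff Y).mp hQ.1, ?_⟩
    intro m hm
    have h0 : m = 0 := maxGen_eq_bot ((T i).frob (2 * i + 1) Y)
      (fun z hz => hPu Y D hsp z hz) hm
    rw [h0]
    exact supp_zero _ _ _ _
  have hVne : Nonempty V.X := by
    obtain ⟨u⟩ := hne
    obtain ⟨v, -⟩ := p.surj.surj u
    exact ⟨v⟩
  have hgen : genericPoint Y.X ∈ Set.range o.g := by
    obtain ⟨v⟩ := hVne
    exact (genericPoint_specializes (o.g v)).mem_open o.g.isOpenEmbedding.isOpen_range ⟨v, rfl⟩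
  have hKd : ∀ x ∈ K, Y.dim x ≤ e := by
    intro x hx
    have hne' : genericPoint Y.X ≠ x := by
      rintro rfl
      exact hx hgen
    have h7 := t_DST.1 k Y (genericPoint Y.X) x (genericPoint_specializes x) hne'
    rw [hYdim] at h7
    obtain ⟨n, hn⟩ := t_DST.2.1 k Y x
    rw [hn] at h7 ⊢
    have h8 : n < D := by exact_mod_cast h7
    have h9 : n ≤ e := by omega
    exact_mod_cast h9
  have hV : PF (T i) V := by
    have hZ := hlow _ (dimLE_of_mem K hKd)
    rcases i with _ | i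
    · exact pf_zero hT hP V
    · exact pf_open hT hP i (closedVarIn Y K) o hcomp hY hZ
  have hj := j.isOpen
  have hU'int : IsIntegral U'.X := isIntegral_of_isOpenImmersion j.g
  exact pf_et hT hP hE i p hU'int hV

lemma pf_auxd [PerfectField k] (hT : Full T) (hP : Pub T hT) (i e : ℕ)
    (hpart : ∀ V₀ : Var k, IsIntegral V₀.X → V₀.DimLE (e : ℕ) →
      ∃ (U' : Var k) (_ : OpenIn U' V₀), Nonempty U'.X ∧ PF (T i) U')
    (X₀ : Var k) (C : Closeds X₀.X) :
    ∀ (Y : Var k) (g : Y.X ⟶ X₀.X), g ≫ X₀.f = Y.f → IsPreimmersion g → (∀ y, g y ∈ C) →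
      Y.DimLE (e : ℕ) → PF (T i) Y := by
  induction C using WellFoundedLT.induction with
  | ind C ih =>
  intro Y g comm hg hC hdimY
  apply pf_of_red hT hP
  have hdimR : (redVar Y).DimLE (e : ℕ) := dimLE_red hdimY
  have hred := isReduced_redVar Y
  have hcl := (redVarIn Y).closed
  set Y' := redVar Y
  set g' : Y'.X ⟶ X₀.X := (redVarIn Y).g ≫ g
  have comm' : g' ≫ X₀.f = Y'.f := by
    rw [Category.assoc, comm, (redVarIn Y).comm]
  have hC' : ∀ y, g' y ∈ C := fun y => hC _
  rcases isEmpty_or_nonempty Y'.X with he | ⟨⟨x⟩⟩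
  · exact pf_of_isEmpty hT i _ he
  obtain ⟨η, -, hη⟩ := exists_maximal Y' x
  obtain ⟨U, hU1, -, hU3, hU4, hU5, hU6⟩ := exists_nice Y' η hη ⊤ trivial
  have hop := (openVarIn Y' U).isOpen
  obtain ⟨U', j, ⟨u⟩, hU'⟩ := hpart (openVar Y' U) hU5 (dimLE_open (openVarIn Y' U) hdimR)
  let jj : OpenIn U' Y' := j.trans (openVarIn Y' U)
  have hjj := jj.isOpen
  let K : Closeds Y'.X := (⟨Set.range jj.g, jj.g.isOpenEmbedding.isOpen_range⟩ : Opens Y'.X).compl
  have hcomp : Complementary (closedVarIn Y' K) jj := by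
    rw [Complementary, range_closedVarIn]
    rfl
  refine pf_glue hT hP i (closedVarIn Y' K) jj hcomp ?_ hU'
  have hclK := (closedVarIn Y' K).closed
  refine ih (Closeds.closure (g' '' (K : Set Y'.X)))
    (lt_of_closed g' C hC' K (jj.g u) (fun hcon => hcon ⟨u, rfl⟩))
    (closedVar Y' K) ((closedVarIn Y' K).g ≫ g') ?_ inferInstance ?_
    (dimLE_closed (closedVarIn Y' K) hdimR)
  · rw [Category.assoc, comm', (closedVarIn Y' K).comm]
  · intro y
    have h1 : (closedVarIn Y' K).g y ∈ (K : Set Y'.X) := by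
      rw [← range_closedVarIn]
      exact ⟨y, rfl⟩
    exact subset_closure ⟨_, h1, rfl⟩

end U4

/-- If the conjecture holds for smooth proper varieties of dimension at most `d` in degree `i`,
then all varieties of dimension at most `d` have the property `PF` in degree `i`. -/
theorem pf_of_sp [Finite k] [CharZero E] (hT : Full T) (hP : Pub T hT)
    (hA : Pool.Agent.Lib_helper66.OneP.Alterations k) (i : ℕ) (hPu : Purity (T i))
    (hE : EtTrans T hT.toProperMaps) (d : ℕ)
    (h : ∀ (Y : Var k) (D : ℕ), D ≤ d → Y.SmoothProper D → Q1 (T i) Y) (e : ℕ) (he : e ≤ d) :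
    ∀ X : Var k, X.DimLE (e : ℕ) → PF (T i) X := by
  induction e with
  | zero =>
    intro X hX
    exact pf_of_dimLE hT hP i X fun x => (hX x).trans (by exact_mod_cast Nat.zero_le i)
  | succ e ih =>
    intro X hX
    exact U4.pf_auxd hT hP i (e + 1) (fun V₀ hint hdim => U4.pf_part hT hP hA i hPu hE d h e he
      (ih (by omega)) V₀ hint hdim) X ⊤ X (𝟙 _) (Category.id_comp _) inferInstance
      (fun _ => trivial) hX

/-- All degrees. -/
theorem pp_of_sp [Finite k] [CharZero E] (hT : Full T) (hP : Pub T hT)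
    (hA : Pool.Agent.Lib_helper66.OneP.Alterations k) (hPu : ∀ i, Purity (T i))
    (hE : EtTrans T hT.toProperMaps) (d : ℕ)
    (h : ∀ (Y : Var k) (D : ℕ), D ≤ d → Y.SmoothProper D → ∀ i, Q1 (T i) Y) (X : Var k)
    (hX : X.DimLE d) : PP T X :=
  (pp_iff hT.toExtra X).mpr fun i => pf_of_sp hT hP hA i (hPu i) hE d
    (fun Y D hD hY => h Y D hD hY i) d le_rfl X hX

/-- If the conjecture holds for smooth proper varieties of dimension at most `d`, then it holds for
all varieties of dimension at most `d`. -/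
theorem q1_of_sp [Finite k] [CharZero E] (hT : Full T) (hP : Pub T hT)
    (hA : Pool.Agent.Lib_helper66.OneP.Alterations k) (hPu : ∀ i, Purity (T i))
    (hE : EtTrans T hT.toProperMaps) (d : ℕ)
    (h : ∀ (Y : Var k) (D : ℕ), D ≤ d → Y.SmoothProper D → ∀ i, Q1 (T i) Y) (X : Var k)
    (hX : X.DimLE d) (i : ℕ) : Q1 (T i) X := by
  have h1 := pp_of_sp hT hP hA hPu hE d h X hX i
  exact ⟨h1.inj, (T i).surj_of_good X h1.gg, (T i).semisimple_of_good X h1.gg⟩

end QCV
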