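import Pool.Agent.QCV.Fin3
import Pool.Agent.QCV.U4

/-!
# QCV: quadratic forms of odd rank over integral bases of the class, uniruled varieties
-/

set_option autoImplicit false

open CategoryTheory AlgebraicGeometry Polynomial TopologicalSpace

namespace QCV

open Pool.Agent.Lib_helper55.Beil Pool.Agent.Lib_helper66.OneP CUB

variable {k : Type} [Field k]

/-- The zero set of a quadratic form of odd generic rank over an integral affine variety of the class,
of dimension at most `d + 1`. -/
theorem built_odd_base {A : Type} [CommRing A] [IsDomain A] [Algebra k A] [Algebra.FiniteType k A]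
    {n d : ℕ} (h2 : (2 : k) ≠ 0) (hA : (aff k A).DimLE (d + 1 : ℕ)) (hb : Built k d (aff k A))
    (f : MvPolynomial (Fin n) A) (hf : f.IsHomogeneous 2)
    (ho : Odd ((gram f).map (algebraMap A (FractionRing A))).rank) :
    Built k d (aff k (MvPolynomial (Fin n) A ⧸ Ideal.span (Set.range fun _ : Fin 1 => f))) :=
  Asm.s_QOD k (fun A [CommRing A] [Algebra k A] [Algebra.FiniteType k A] =>
    Built k d (aff k A)) d h2 (cls_built k d) (oddCl_built k d) A n f ((dimLE_aff _).1 hA) hb hf ho

/-- The projective version. -/
theorem built_odd_base_proj {A : Type} [CommRing A] [IsDomain A] [Algebra k A]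
    [Algebra.FiniteType k A] {n d : ℕ} (h2 : (2 : k) ≠ 0) (hA : (aff k A).DimLE (d + 1 : ℕ))
    (hb : Built k d (aff k A)) (f : MvPolynomial (Fin (n + 1)) A) (hf : f.IsHomogeneous 2)
    (ho : Odd ((gram f).map (algebraMap A (FractionRing A))).rank) {X : Var k}
    (S : ProjSub (fun _ : Fin 1 => f) X) : Built k d X :=
  built_of_cone hb (fun _ : Fin 1 => f) (fun _ => 2) (fun _ => hf) (fun _ => by norm_num)
    (built_odd_base h2 hA hb f hf ho) S

/-- The complement of a nonempty open subvariety of an integral variety of dimension at most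
`d + 1`. -/
lemma exists_compl {X U : Var k} {d : ℕ} (hX : IsIntegral X.X) (hd : X.DimLE (d + 1 : ℕ))
    (j : OpenIn U X) (hU : Nonempty U.X) :
    ∃ (Z : Var k) (a : ClosedIn Z X), Complementary a j ∧ Z.DimLE d := by
  have hop := j.isOpen
  let K : Closeds X.X := (⟨Set.range j.g, j.g.isOpenEmbedding.isOpen_range⟩ : Opens X.X).compl
  have hcomp : Complementary (closedVarIn X K) j := by
    rw [Complementary, range_closedVarIn]
    rfl
  have hgen : genericPoint X.X ∈ Set.range j.g := by
    obtain ⟨v⟩ := hU
    exact (genericPoint_specializes (j.g v)).mem_open j.g.isOpenEmbedding.isOpen_range ⟨v, rfl⟩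
  have hKd : ∀ x ∈ K, X.dim x ≤ d := by
    intro x hx
    have hne' : genericPoint X.X ≠ x := by
      rintro rfl
      exact hx hgen
    have h7 := t_DST.1 k X (genericPoint X.X) x (genericPoint_specializes x) hne'
    have h6 := hd (genericPoint X.X)
    obtain ⟨n, hn⟩ := t_DST.2.1 k X x
    obtain ⟨m, hm⟩ := t_DST.2.1 k X (genericPoint X.X)
    rw [hn, hm] at h7
    rw [hm] at h6
    rw [hn]
    have h8 : n < m := by exact_mod_cast h7
    have h9 : m ≤ d + 1 := by exact_mod_cast h6
    have h10 : n ≤ d := by omega
    exact_mod_cast h10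
  exact ⟨_, closedVarIn X K, hcomp, dimLE_of_mem K hKd⟩

/-- The variety `X` is separably uniruled over varieties of dimension at most `d`: a nonempty open
subvariety of `X` has a finite etale covering which is an open subvariety of the product of an
integral affine variety of dimension at most `d` and the affine line. -/
def SepUniruled (d : ℕ) (X : Var k) : Prop :=
  ∃ (U V : Var k) (A : Type) (_ : CommRing A) (_ : Algebra k A) (_ : Algebra.FiniteType k A)
    (_ : OpenIn U X) (_ : Pool.Agent.Lib_helper66.OneP.FinEt V U) (_ : OpenIn V (aff k A[X])),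
    Nonempty U.X ∧ IsDomain A ∧ (aff k A).DimLE d

/-- Separably uniruled varieties of dimension at most `d + 1` belong to the class. -/
theorem built_of_uniruled {X : Var k} {d : ℕ} (hint : IsIntegral X.X) (hX : X.DimLE (d + 1 : ℕ))
    (h : SepUniruled d X) : Built k d X := by
  obtain ⟨U, V, A, _, _, _, j, p, o, hU, hA, hdA⟩ := h
  have hUint : IsIntegral U.X := by
    have hj := j.isOpen
    exact isIntegral_of_isOpenImmersion j.g
  have hV : Nonempty V.X := by
    obtain ⟨u⟩ := hU
    obtain ⟨v, -⟩ := p.surj.surj u
    exact ⟨v⟩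
  have hW : IsIntegral (aff k A[X]).X := by
    change IsIntegral (Spec (CommRingCat.of A[X]))
    infer_instance
  have hWd : (aff k A[X]).DimLE (d + 1 : ℕ) :=
    (dimLE_aff _).2 (Asm.s_DLR.2.2.2.1 k A d ((dimLE_aff _).1 hdA))
  obtain ⟨Z, a, hc, hZ⟩ := exists_compl hW hWd o hV
  obtain ⟨Z', a', hc', hZ'⟩ := exists_compl hint hX j hU
  have h1 : Built k d (aff k A[X]) := Built.line A (Built.small _ hdA)
  have h2 : Built k d V := Built.cut a o hc h1 (Built.small _ hZ)
  exact Built.paste a' j hc' (Built.small _ hZ') (Built.etale p hUint h2)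

end QCV
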