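import Pool.Agent.QCV.Fin8

/-!
# QCV: the equivalence theorem for an even number of variables
-/

set_option autoImplicit false

open CategoryTheory AlgebraicGeometry Limits Polynomial TopologicalSpace

namespace QCV

open Pool.Agent.Lib_helper55.Beil Pool.Agent.Lib_helper66.OneP CUB

universe v

variable {k : Type} [Field k] {E : Type} [Field E]
variable {T : ∀ i : ℕ, Homology.{v} k E i} {hT : Full T}

section

variable [Finite k] [CharZero E]

/-- `GG` satisfies the closure properties of `Cls` if it holds in dimension at most `d`. -/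
lemma cls_gg (hP : Pub2 T hT) (d : ℕ) (h : ∀ X : Var k, X.DimLE d → GG T X) :
    Cls k d (fun A [CommRing A] [Algebra k A] [Algebra.FiniteType k A] => GG T (aff k A)) where
  toCls0 := cls0_gg (ggc hP)
  line := (ggc hP).line
  dbl := (ggc hP).dbl
  base := fun A _ _ _ hA => h _ (dimLE_of_DL hA)

omit [Finite k] [CharZero E] in
lemma gg_dr_congr {B : Type} [CommRing B] [Algebra k B] [Algebra.FiniteType k B] {c c' : B}
    (h : c = c') (hc : GG T (aff k (Dr B 0 c))) : GG T (aff k (Dr B 0 c')) := by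
  subst h
  exact hc

/-- The double cover `t ^ 2 = 0`. -/
lemma gg_dr_zero (hP : Pub2 T hT) (B : Type) [CommRing B] [Algebra k B] [Algebra.FiniteType k B]
    (h : GG T (aff k B)) : GG T (aff k (Dr B 0 0)) := by
  obtain ⟨S, h1, h2, h3, h4⟩ := hP.dbl
  have h5 := t_TOD k E T hT S hP.toPub hP.sectionZero h1 h2 h3 h4 B 0 (fun _ => 1)
    (fun _ => isUnit_one) h
  obtain ⟨e1⟩ := t_ODR k B 0 (fun _ => 1) (fun j : Fin 0 => j.elim0) isUnit_one
    (fun j => j.elim0)
  have h6 := (clsT_gg (ggc hP)).iso e1 h5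
  obtain ⟨e2, -, -⟩ := t_DFN k (MvPolynomial (Fin 0) B) B
    ((MvPolynomial.isEmptyAlgEquiv B (Fin 0)).restrictScalars k) 0
    (dia fun j : Fin 0 => j.elim0) 0 0 (map_zero _) (by simp [dia])
  exact (clsT_gg (ggc hP)).iso e2 h6

/-- The step from the double covers to systems of quadratic forms. -/
lemma evenSystems_of (hEVS : S_EVS) (hEV : (2 : k) ≠ 0 →
      EvenCl k (fun A [CommRing A] [Algebra k A] [Algebra.FiniteType k A] => GG T (aff k A)))
    (hP : Pub2 T hT) (h2 : (2 : k) ≠ 0) (d : ℕ) (hlow : ∀ X : Var k, X.DimLE d → GG T X)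
    (hD : DoubleCovers (GG T) (d + 1)) : EvenSystems (GG T) (d + 1) := by
  intro n f hn hf hd
  obtain ⟨m, hm⟩ : ∃ m, n = 2 * m := by
    obtain ⟨m, hm⟩ := hn
    exact ⟨m, by omega⟩
  subst hm
  have h3 := hEVS k (fun A [CommRing A] [Algebra k A] [Algebra.FiniteType k A] => GG T (aff k A)) d
    h2 (cls_gg hP d hlow) (hEV h2) k m (d + 1) 0 f (Nat.zero_le d) le_rfl (dl_field k) hf hd
    (gg_dr_congr (neg_neg _) (hD (-((-1) ^ (m + 1) * (gram (gen f)).det))))
  exact t_TZE k E T hT hP.toPub hP.sectionZero _ (d + 1) f h3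

/-- The step from systems of quadratic forms to double covers. -/
lemma doubleCovers_of (hUD2 : S_UD2) (hUG2 : S_UG2) (hP : Pub2 T hT) (h2 : (2 : k) ≠ 0) (d : ℕ)
    (hlow : ∀ X : Var k, X.DimLE d → GG T X) (ho : EvenSystems (GG T) (d + 1)) :
    DoubleCovers (GG T) (d + 1) := by
  intro g
  have hG : GGC T := ggc hP
  have hpoly := ppf_poly hP.toPub (T := T) (d + 1)
  have h2B : (2 : MvPolynomial (Fin (d + 1)) k) ≠ 0 := by
    intro h
    apply h2
    have h3 : MvPolynomial.C (2 : k) = (0 : MvPolynomial (Fin (d + 1)) k) := by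
      rw [← h]
      exact map_ofNat _ 2
    exact MvPolynomial.C_eq_zero.mp h3
  by_cases hg : g = 0
  · subst hg
    exact gg_dr_congr (neg_zero).symm (gg_dr_zero hP _ fun i => (hpoly i).1)
  have hφ : (MvPolynomial.X 0 ^ 2 - MvPolynomial.C g * MvPolynomial.X 1 ^ 2 :
      MvPolynomial (Fin 2) (MvPolynomial (Fin (d + 1)) k)).IsHomogeneous 2 :=
    (MvPolynomial.isHomogeneous_X_pow 0 2).sub (MvPolynomial.isHomogeneous_C_mul_X_pow g 1 2)
  obtain ⟨s, f, P, hf, hPu, heq⟩ := Asm.s_ULZ k (d + 1) 2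
    (MvPolynomial.X 0 ^ 2 - MvPolynomial.C g * MvPolynomial.X 1 ^ 2) hφ
  have hdet : (gram (gen f)).det ≠ 0 := by
    have h3 : gram (gen f) = lgram (lsub P (hyp (MvPolynomial.X 0 ^ 2 -
        MvPolynomial.C g * MvPolynomial.X 1 ^ 2 :
        MvPolynomial (Fin 2) (MvPolynomial (Fin (d + 1)) k)) s)) := by
      rw [heq]
      rfl
    have h4 := t_UGM _ (2 + 2 * s) (hyp (MvPolynomial.X 0 ^ 2 -
        MvPolynomial.C g * MvPolynomial.X 1 ^ 2 :
        MvPolynomial (Fin 2) (MvPolynomial (Fin (d + 1)) k)) s) P ?_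
    · rw [h3, h4, Matrix.det_mul, Matrix.det_mul, Matrix.det_transpose]
      exact mul_ne_zero (mul_ne_zero hPu.ne_zero (hUD2 _ g s h2B hg)) hPu.ne_zero
    · refine MvPolynomial.IsHomogeneous.add ?_ ?_
      · exact hφ.rename_isHomogeneous
      · refine MvPolynomial.IsHomogeneous.sum _ _ _ fun i _ => ?_
        exact (MvPolynomial.isHomogeneous_X _ _).mul (MvPolynomial.isHomogeneous_X _ _)
  have h5 : GG T (aff k (MvPolynomial (Fin (d + 1)) (MvPolynomial (Fin (2 + 2 * s)) k) ⧸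
      Ideal.span {fs f})) := by
    refine t_UST k (fun A [CommRing A] [Algebra k A] [Algebra.FiniteType k A] => GG T (aff k A))
      (clsT_gg hG) (d + 1) (MvPolynomial (Fin (2 + 2 * s)) k) f ?_
      (ho (2 + 2 * s) f ⟨1 + s, by ring⟩ hf hdet)
    intro j hj
    have h6 : f '' {l : Fin (d + 1 + 1) | 1 ≤ l.1 ∧ l.1 ≤ j} =
        Set.range (fun l : Fin j => f ⟨l.1 + 1, by omega⟩) := by
      ext y
      constructor
      · rintro ⟨l, ⟨hl1, hl2⟩, rfl⟩
        refine ⟨⟨l.1 - 1, by omega⟩, congrArg f (Fin.ext ?_)⟩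
        change l.1 - 1 + 1 = l.1
        omega
      · rintro ⟨l, rfl⟩
        refine ⟨_, ⟨?_, ?_⟩, rfl⟩
        · change 1 ≤ l.1 + 1
          omega
        · change l.1 + 1 ≤ j
          have := l.2
          omega
    refine (clsT_gg hG).iso (Ideal.quotientEquivAlgOfEq k (congrArg Ideal.span h6.symm)) ?_
    rcases Nat.eq_zero_or_pos j with rfl | hj0
    · refine (clsT_gg hG).iso (A := MvPolynomial (Fin (2 + 2 * s)) k) ?_
        (fun i => (ppf_poly hP.toPub (T := T) (2 + 2 * s) i).1)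
      have h1 : Ideal.span (Set.range (fun l : Fin 0 =>
          f ⟨l.1 + 1, by have := l.2; omega⟩)) = ⊥ := by
        rw [Set.range_eq_empty, Ideal.span_empty]
      exact ((Ideal.quotientEquivAlgOfEq k h1).trans
        (AlgEquiv.quotientBot k (MvPolynomial (Fin (2 + 2 * s)) k))).symm
    · refine gg_of_built hP d hlow _ ?_
      exact built_quadrics (e := 0) _ hj0 (by omega)
        (dimLE_of_DL (dl_field k)) (fun l => (hf _).totalDegree_le)
  obtain ⟨e1⟩ := t_QSW k k (2 + 2 * s) (d + 1) f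
  have h6 := (clsT_gg hG).iso e1 h5
  obtain ⟨e2⟩ := t_USB k (MvPolynomial (Fin (d + 1)) k) (2 + 2 * s)
    (hyp (MvPolynomial.X 0 ^ 2 - MvPolynomial.C g * MvPolynomial.X 1 ^ 2) s) P hPu
  rw [heq] at e2
  have h7 := (clsT_gg hG).iso e2 h6
  have h8 := Asm.s_UHY k E T hT hP.toPub hP.sectionZero hG (MvPolynomial (Fin (d + 1)) k) 2 s
    (MvPolynomial.X 0 ^ 2 - MvPolynomial.C g * MvPolynomial.X 1 ^ 2) hpoly h7
  obtain ⟨u, hu⟩ := hUG2 k (MvPolynomial (Fin (d + 1)) k) g
  have h9 := (clsT_gg hG).opn _ u hu h8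
  exact t_TGM k E T hT hP.toPub hP.sectionZero _ h9

end

end QCV
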