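import Pool.Agent.QCV.StT

/-!
# QCV, module TBU: line bundles, for `gen ≤ alg` alone
-/

set_option autoImplicit false

open CategoryTheory AlgebraicGeometry Limits Polynomial TopologicalSpace

namespace QCV

open Pool.Agent.Lib_helper55.Beil Pool.Agent.Lib_helper66.OneP CUB

universe v

/-- The first component of `t_BDS`. -/
lemma gen_bun_desc {k E : Type} [Field k] [Finite k] [Field E] [CharZero E]
    {T : ∀ i : ℕ, Homology.{v} k E i} (hT : Full T) (hP : Pub T hT) (hS : SectionZero T)
    (S : BunMaps T) (hG : S.Good hT) (i : ℕ) {Y X : Var k} (B : Bun Y X)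
    (h : (T (i + 1)).gen Y ≤ (T (i + 1)).alg Y) : (T i).gen X ≤ (T i).alg X := by
  have hfr := hG.1
  intro α hα
  refine alg_of_supp i X α hα (BSU.main k E T hT hP hS S hG i (2 * i) i B α ?_)
  have h1 : S.V i (2 * i) B α ∈ (T (i + 1)).gen Y :=
    maxGen_map ((T i).frob (2 * i) X) ((T (i + 1)).frob (2 * (i + 1)) Y) (S.pb i (2 * i) B)
      (hfr i (2 * i) B) hα
  obtain ⟨c, hc⟩ := exists_cls (T (i + 1)) Y _ (h h1)
  have h2 := supp_cls (T := T) (i + 1) Y c
  have h3 : clz (T (i + 1)) Y c = S.V i (2 * i) B α := hc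
  rw [h3] at h2
  exact h2

/-- **TBU**. -/
theorem t_TBU : S_TBU.{v} := by
  intro k E _ _ _ _ T hT hP hS S hG Y X U B s j hs hc hU
  obtain ⟨D, hD⟩ := CUB.t_FDM k X
  have key : ∀ m i : ℕ, D ≤ i + m → (T i).gen X ≤ (T i).alg X := by
    intro m
    induction m with
    | zero =>
      intro i hi
      exact (pf_of_dimLE hT hP i X fun x => (hD x).trans (by exact_mod_cast hi)).1
    | succ m ih =>
      intro i hi
      exact gen_bun_desc hT hP hS S hG i B
        ((T (i + 1)).glue s j hc (ih (i + 1) (by omega)) (hU (i + 1)))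
  intro i
  exact key D i (by omega)

end QCV
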