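import Pool.Agent.QCV.StT

/-!
# QCV, block T: the closed part (TCL)
-/

set_option autoImplicit false

open CategoryTheory AlgebraicGeometry Limits Polynomial TopologicalSpace

namespace QCV

open Pool.Agent.Lib_helper55.Beil Pool.Agent.Lib_helper66.OneP CUB

universe v

/-- **TCL** (the closed part). -/
theorem t_TCL : S_TCL.{v} := by
  intro k E _ _ _ _ T hT hP Z U X a j h hX hU i m hm
  have hm' : m ∈ Module.End.maxGenEigenspace ((T i).frob (2 * i) Z) 1 := hm
  have h1 : (T i).P (2 * i) a m ∈ (T i).gen X :=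
    maxGen_map ((T i).frob (2 * i) Z) ((T i).frob (2 * i) X) ((T i).push (2 * i) a)
      (fun x => (T i).push_frob (2 * i) a x) hm'
  obtain ⟨c, hc⟩ := exists_cls (T i) X _ (hX i h1)
  have h2 : cls (T i) U (resCyc j c) = 0 := by
    rw [← res_cls, hc]
    exact (((T i).localisation (2 * i) _ _ _ _ _ h).1 _).mpr ⟨m, rfl⟩
  obtain ⟨-, hUi, hUs⟩ := hU i
  obtain ⟨c₁, hc₁, h3⟩ := exists_ratZero j _ ((injC_iff (T i) U).1 hUi _ h2)
  obtain ⟨z, hz⟩ := exists_pushCyc a j h (c - c₁) (by rw [map_sub, h3, sub_self])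
  have h4 : cls (T i) X c₁ = 0 := (T i).cl_rat X c₁ hc₁
  have h5 : (T i).P (2 * i) a (m - cls (T i) Z z) = 0 := by
    have e1 : (T i).P (2 * i) a (m - cls (T i) Z z) =
        (T i).P (2 * i) a m - (T i).P (2 * i) a (cls (T i) Z z) :=
      map_sub ((T i).push (2 * i) a) _ _
    rw [e1, push_cls', hz, cls_sub, hc, h4, sub_zero, sub_self]
  obtain ⟨u, hu⟩ := (hT.bdExact i (2 * i) a j h _).mp h5
  have hu' : bdl hT i (2 * i) a j h u ∈ Module.End.maxGenEigenspace ((T i).frob (2 * i) Z) 1 := by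
    have h8 : bdl hT i (2 * i) a j h u = m - cls (T i) Z z := hu
    rw [h8]
    exact sub_mem hm' (cls_mem_gen (T i) Z z)
  obtain ⟨u', hu1, hu2⟩ := maxGen_lift ((T i).frob (2 * i + 1) U) ((T i).frob (2 * i) Z)
    (bdl hT i (2 * i) a j h) (bdl_frob hT hP i (2 * i) a j h) hu'
  obtain ⟨d⟩ := bd_supp hT hP i a j h u' hu1 (hUs u' hu1)
  have h6 : m = cls (T i) Z (z + pushCyc d.q d.v) := by
    have h8 : bdl hT i (2 * i) a j h u = m - cls (T i) Z z := hu
    rw [cls_add, ← d.hbd, hu2, h8, add_sub_cancel]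
  rw [h6]
  exact (T i).linComb_mem_alg Z _

end QCV
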