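import Pool.Agent.QCV.StT

/-!
# QCV, block T: the punctured line
-/

set_option autoImplicit false

open CategoryTheory AlgebraicGeometry Limits Polynomial TopologicalSpace

namespace QCV

open Pool.Agent.Lib_helper55.Beil Pool.Agent.Lib_helper66.OneP CUB

universe v

namespace TGM

variable {k : Type} [Field k] {E : Type} [Field E] {T : ∀ i : ℕ, Homology.{v} k E i}

/-- The part in degree `2 i` and eigenvalue one for a product with the affine line from the
complement of a section. -/
lemma gen_section (hS : SectionZero T) (i : ℕ) {Y X U : Var k} (L : Line Y X) (s : ClosedIn X Y)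
    (j : OpenIn U Y) (hs : s.g ≫ L.q = 𝟙 X.X) (hc : Complementary s j)
    (h : (T i).gen U ≤ (T i).alg U) : (T i).gen Y ≤ (T i).alg Y := by
  intro m hm
  have h1 : (T i).res (2 * i) j m ∈ (T i).gen U :=
    maxGen_map ((T i).frob (2 * i) Y) ((T i).frob (2 * i) U) ((T i).res (2 * i) j)
      ((T i).res_frob (2 * i) j) hm
  obtain ⟨c, hc1⟩ := exists_cls (T i) U _ (h h1)
  obtain ⟨c', rfl⟩ := exists_resCyc j c
  have h2 : (T i).res (2 * i) j (m - cls (T i) Y c') = 0 := by
    rw [map_sub, res_cls, hc1, sub_self]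
  obtain ⟨w, hw⟩ := ((T i).exact_X (2 * i) s j hc _).mp h2
  have h3 : (T i).push (2 * i) s w = 0 := hS i (2 * i) L s hs w
  have h4 : m = cls (T i) Y c' := by
    rw [← sub_eq_zero, ← hw]
    exact h3
  rw [h4]
  exact (T i).linComb_mem_alg _ _

/-- The first component of `pf_line_desc`. -/
lemma gen_line_desc [Finite k] (hT : Full T) (hP : Pub T hT) (hS : SectionZero T) (i : ℕ)
    {Y X : Var k} (L : Line Y X) (h : (T (i + 1)).gen Y ≤ (T (i + 1)).alg Y) :
    (T i).gen X ≤ (T i).alg X := by
  intro α hα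
  refine alg_of_supp i X α hα (supp_line_desc hT hP hS i (2 * i) i L α ?_)
  have h1 : hT.line i (2 * i) L α ∈ (T (i + 1)).gen Y :=
    maxGen_map ((T i).frob (2 * i) X) ((T (i + 1)).frob (2 * (i + 1)) Y) (hT.line i (2 * i) L)
      (hT.line_frob i (2 * i) L) hα
  obtain ⟨c, hc⟩ := exists_cls (T (i + 1)) Y _ (h h1)
  have h2 := supp_cls (T := T) (i + 1) Y c
  have h3 : clz (T (i + 1)) Y c = hT.line i (2 * i) L α := hc
  rw [h3] at h2
  exact h2

end TGM

/-- **TGM**. -/
theorem t_TGM : S_TGM.{v} := by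
  intro k E _ _ _ _ T hT hP hS A _ _ _ h i
  let φ : A[X] →ₐ[k] A := (Polynomial.aeval (0 : A)).restrictScalars k
  have hφ : Function.Surjective φ := fun x => ⟨C x, by
    change Polynomial.aeval (0 : A) (C x) = x
    rw [Polynomial.aeval_C]
    rfl⟩
  have hk : RingHom.ker φ.toRingHom = Ideal.span {(X : A[X])} := by
    ext p
    rw [RingHom.mem_ker, Ideal.mem_span_singleton, Polynomial.X_dvd_iff]
    change Polynomial.aeval (0 : A) p = 0 ↔ _
    rw [← Polynomial.coeff_zero_eq_aeval_zero]
  have hu := isLocalization_awayHom (k := k) (X : A[X])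
  have hs : (clo φ hφ).g ≫ (lineE (CC k A) (RingEquiv.refl _) (fun _ => rfl)).q =
      𝟙 (aff k A).X := by
    have h1 : φ.toRingHom.comp (CC k A).toRingHom = RingHom.id A := by
      ext x
      change Polynomial.aeval (0 : A) (C x) = x
      rw [Polynomial.aeval_C]
      rfl
    have h2 : Spec.map (CommRingCat.ofHom φ.toRingHom) ≫
        Spec.map (CommRingCat.ofHom (CC k A).toRingHom) = 𝟙 (Spec (CommRingCat.of A)) := by
      rw [← Spec.map_comp, ← CommRingCat.ofHom_comp, h1]
      exact Spec.map_id _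
    exact h2
  exact TGM.gen_line_desc hT hP hS i (lineE (CC k A) (RingEquiv.refl _) (fun _ => rfl))
    (TGM.gen_section hS (i + 1) _ (clo φ hφ)
      (opn (awayHom k (X : A[X])) (isOpenImmersion_spm _ _ hu)) hs
      (complementary_away _ _ hu φ hφ hk) (h (i + 1)))

end QCV
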