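import Pool.Agent.QCV.StT

/-!
# QCV, module TOD: quadric cones in an odd number of variables, for `GG` alone
-/

set_option autoImplicit false

open CategoryTheory AlgebraicGeometry Limits Polynomial TopologicalSpace

namespace QCV

open Pool.Agent.Lib_helper55.Beil Pool.Agent.Lib_helper66.OneP CUB

universe v

namespace TOD

variable {k : Type} [Field k] {E : Type} [Field E] {T : ∀ i : ℕ, Homology.{v} k E i}

/-- Invariance under isomorphisms. -/
theorem gg_viso (i : ℕ) {X Y : Var k} (s : VIso X Y) (h : (T i).gen X ≤ (T i).alg X) :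
    (T i).gen Y ≤ (T i).alg Y := by
  have hc : Complementary s.cl (openVarIn Y ⊥) := by
    rw [Complementary, s.range, range_openVarIn]
    simp
  exact (T i).glue s.cl (openVarIn Y ⊥) hc h
    ((T i).good_of_subsingleton _ ((T i).empty _ _ (isEmpty_openVar_bot Y)))

/-- From a product with the affine line to the base. -/
theorem gg_line_desc [Finite k] [CharZero E] (hT : Full T) (hP : Pub T hT) (hS : SectionZero T)
    (i : ℕ) {Y X : Var k} (L : Line Y X) (h : (T (i + 1)).gen Y ≤ (T (i + 1)).alg Y) :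
    (T i).gen X ≤ (T i).alg X := by
  intro α hα
  refine alg_of_supp i X α hα (supp_line_desc hT hP hS i (2 * i) i L α ?_)
  have h1 : hT.line i (2 * i) L α ∈ (T (i + 1)).gen Y :=
    maxGen_map ((T i).frob (2 * i) X) ((T (i + 1)).frob (2 * (i + 1)) Y) (hT.line i (2 * i) L)
      (hT.line_frob i (2 * i) L) hα
  obtain ⟨c, hc⟩ := exists_cls (T (i + 1)) Y _ (h h1)
  have h2 := supp_cls (T := T) (i + 1) Y c
  have h3 : clz (T (i + 1)) Y c = hT.line i (2 * i) L α := hc
  rw [h3] at h2
  exact h2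

/-- From a product with an affine space to the base. -/
theorem gg_mv_desc [Finite k] [CharZero E] (hT : Full T) (hP : Pub T hT) (hS : SectionZero T)
    (A : Type) [CommRing A] [Algebra k A] [Algebra.FiniteType k A] (i m : ℕ)
    (h : (T (i + m)).gen (aff k (MvPolynomial (Fin m) A)) ≤
      (T (i + m)).alg (aff k (MvPolynomial (Fin m) A))) :
    (T i).gen (aff k A) ≤ (T i).alg (aff k A) := by
  induction m with
  | zero =>
    let e : MvPolynomial (Fin 0) A ≃ₐ[k] A :=
      (MvPolynomial.isEmptyAlgEquiv A (Fin 0)).restrictScalars k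
    exact gg_viso i (viso e.symm) h
  | succ m ih =>
    refine ih ?_
    let B := MvPolynomial (Fin m) A
    let e : MvPolynomial (Fin (m + 1)) A ≃ₐ[k] B[X] :=
      (MvPolynomial.finSuccEquiv A m).restrictScalars k
    let φ : B →ₐ[k] MvPolynomial (Fin (m + 1)) A := (e.symm : _ →ₐ[k] _).comp (CC k B)
    exact gg_line_desc hT hP hS (i + m) (lineE φ e.symm.toRingEquiv (fun _ => rfl)) h

/-- From the base to a product with an affine space. -/
theorem gg_mv [Finite k] [CharZero E] (hT : Full T) (hP : Pub T hT) (A : Type) [CommRing A]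
    [Algebra k A] [Algebra.FiniteType k A] (n : ℕ) (hA : GG T (aff k A)) :
    GG T (aff k (MvPolynomial (Fin n) A)) := by
  induction n with
  | zero =>
    let e : MvPolynomial (Fin 0) A ≃ₐ[k] A :=
      (MvPolynomial.isEmptyAlgEquiv A (Fin 0)).restrictScalars k
    exact fun i => gg_viso i (viso e) (hA i)
  | succ n ih =>
    let e : MvPolynomial (Fin (n + 1)) A ≃ₐ[k] (MvPolynomial (Fin n) A)[X] :=
      (MvPolynomial.finSuccEquiv A n).restrictScalars k
    intro i
    refine gg_viso i (viso e) ?_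
    rcases i with _ | i
    · exact (pf_zero hT hP _).1
    · exact good_line hT.toExtra i _ (ih i)

/-- in characteristic two the involution `t ↦ - t` is the identity -/
lemma dinv_eq_self (k : Type) [Field k] {S : Type} [CommRing S] [Algebra k S] (c : S)
    (h2 : (2 : k) = 0) (x : Dr S 0 c) : dinv 0 c k x = x := by
  have h : dinvHom 0 c = RingHom.id (Dr S 0 c) := by
    apply AdjoinRoot.ringHom_ext
    · ext a
      exact dinvHom_of 0 c a
    · change dinvHom 0 c (rt 0 c) = rt 0 c
      rw [dinvHom_rt, map_zero, neg_zero, zero_sub]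
      have h3 : (2 : Dr S 0 c) = 0 := by
        have h4 := congrArg (algebraMap k (Dr S 0 c)) h2
        rwa [map_ofNat, map_zero] at h4
      linear_combination (- (rt 0 c)) * h3
  exact RingHom.congr_fun h x

/-- the involution acts trivially in the levels `i ≥ m` -/
lemma tr [CharZero E] (hT : Full T) (hP : Pub T hT) (A : Type)
    [CommRing A] [Algebra k A] [Algebra.FiniteType k A] (m : ℕ) (b : Fin (2 * m) → A)
    (hb : ∀ j, IsUnit (b j)) (i : ℕ) (hi : m ≤ i) :
    TR T i (Dr (MvPolynomial (Fin (2 * m)) A) 0 (dia b)) (dinv 0 (dia b) k) := by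
  by_cases h : (2 : k) = 0
  · refine t_ONIL k E T hT _ _ (fun x => ?_) i
    rw [dinv_eq_self k _ h, sub_self]
    exact IsNilpotent.zero
  · exact Asm.s_ODIA k E T hT hP h m A b hb i hi

/-- the claim in the levels `i ≥ m` -/
lemma claim [Finite k] [CharZero E] (hT : Full T) (S : DblMaps T) (hP : Pub T hT)
    (hC : S.Classes) (hG : S.Galois hT.toProperMaps) (A : Type)
    [CommRing A] [Algebra k A] [Algebra.FiniteType k A] (m : ℕ) (b : Fin (2 * m) → A)
    (hb : ∀ j, IsUnit (b j)) (hA : GG T (aff k A)) (i : ℕ) (hi : m ≤ i) :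
    (T i).gen (aff k (Dr (MvPolynomial (Fin (2 * m)) A) 0 (dia b))) ≤
      (T i).alg (aff k (Dr (MvPolynomial (Fin (2 * m)) A) 0 (dia b))) :=
  OPFD.good_up hT S hC i (MvPolynomial (Fin (2 * m)) A) 0 (dia b)
    (OPFD.inj_G hT S hG i (2 * i) (MvPolynomial (Fin (2 * m)) A) 0 (dia b)
      ((tr hT hP A m b hb i hi).hom (2 * i) le_rfl)) (gg_mv hT hP A (2 * m) hA i)

end TOD

/-- **TOD**. -/
theorem t_TOD : S_TOD.{v} := by
  intro k E _ _ _ _ T hT S hP hS hF hD hC hG A _ _ _ m a ha hA i
  obtain ⟨u, hu⟩ := ha 0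
  have hb : ∀ j : Fin (2 * m), IsUnit (a j.succ * (↑u⁻¹ : A)) :=
    fun j => (ha _).mul (Units.isUnit _)
  have hba : ∀ j : Fin (2 * m), a j.succ * (↑u⁻¹ : A) * a 0 = a j.succ := by
    intro j
    rw [← hu, mul_assoc, Units.inv_mul, mul_one]
  obtain ⟨e⟩ := t_ODR k A (2 * m) a (fun j => a j.succ * (↑u⁻¹ : A)) (ha 0) hba
  refine TOD.gg_viso i (viso e) ?_
  refine TOD.gg_mv_desc hT hP hS _ i m ?_
  obtain ⟨e'⟩ := Asm.s_OBCH k A (2 * m) m (fun j => a j.succ * (↑u⁻¹ : A))
  refine TOD.gg_viso (i + m) (viso e'.symm) ?_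
  exact TOD.claim hT S hP hC hG (MvPolynomial (Fin m) A) m
    (fun j => MvPolynomial.C (a j.succ * (↑u⁻¹ : A))) (fun j => (hb j).map _)
    (TOD.gg_mv hT hP A m hA) (i + m) (by omega)

end QCV
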