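import Pool.Agent.QCV.StU2

/-!
# UGA: the open part of `g x_0 ^ 2 = 0`
-/

set_option autoImplicit false

open Polynomial

namespace QCV

namespace UGA

variable (k B : Type) [Field k] [CommRing B] [Algebra k B] (g : B)

/-- The quotient map, with the variable `X`. -/
noncomputable def v : MvPolynomial (Fin 1) B →ₐ[k] (B ⧸ Ideal.span {g})[X] :=
  ((MvPolynomial.uniqueAlgEquiv (B ⧸ Ideal.span {g}) (Fin 1)).restrictScalars k).toAlgHom.comp
    (MvPolynomial.mapAlgHom (Ideal.Quotient.mkₐ k (Ideal.span {g})))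

theorem v_C (b : B) : v k B g (MvPolynomial.C b) = C (Ideal.Quotient.mk (Ideal.span {g}) b) := by
  change MvPolynomial.uniqueAlgEquiv (B ⧸ Ideal.span {g}) (Fin 1)
    (MvPolynomial.map (Ideal.Quotient.mk (Ideal.span {g})) (MvPolynomial.C b)) = _
  rw [MvPolynomial.map_C]
  simp

theorem v_X : v k B g (MvPolynomial.X 0) = X := by
  change MvPolynomial.uniqueAlgEquiv (B ⧸ Ideal.span {g}) (Fin 1)
    (MvPolynomial.map (Ideal.Quotient.mk (Ideal.span {g})) (MvPolynomial.X 0)) = _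
  rw [MvPolynomial.map_X]
  simp

theorem v_surj : Function.Surjective (v k B g) := by
  intro p
  obtain ⟨P, hP⟩ := (MvPolynomial.uniqueAlgEquiv (B ⧸ Ideal.span {g}) (Fin 1)).surjective p
  obtain ⟨F, hF⟩ := MvPolynomial.map_surjective (Ideal.Quotient.mk (Ideal.span {g}))
    Ideal.Quotient.mk_surjective P
  refine ⟨F, ?_⟩
  change MvPolynomial.uniqueAlgEquiv (B ⧸ Ideal.span {g}) (Fin 1)
    (MvPolynomial.map (Ideal.Quotient.mk (Ideal.span {g})) F) = _
  rw [hF, hP]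

theorem v_ker (F : MvPolynomial (Fin 1) B) (h : v k B g F = 0) : MvPolynomial.C g ∣ F := by
  change MvPolynomial.uniqueAlgEquiv (B ⧸ Ideal.span {g}) (Fin 1)
    (MvPolynomial.map (Ideal.Quotient.mk (Ideal.span {g})) F) = 0 at h
  rw [MvPolynomial.C_dvd_iff_map_hom_eq_zero (Ideal.Quotient.mk (Ideal.span {g})) g
    (fun r => by rw [Ideal.Quotient.eq_zero_iff_mem, Ideal.mem_span_singleton])]
  exact (map_eq_zero_iff _ (MvPolynomial.uniqueAlgEquiv (B ⧸ Ideal.span {g})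
    (Fin 1)).injective).1 h

end UGA

open UGA

theorem t_UGA : S_UGA := by
  intro k B _ _ _ g
  let f : Fin 1 → MvPolynomial (Fin 1) B := fun _ => MvPolynomial.C g * MvPolynomial.X 0 ^ 2
  let L := Localization.Away (X : (B ⧸ Ideal.span {g})[X])
  let w : (B ⧸ Ideal.span {g})[X] →ₐ[k] L := IsScalarTower.toAlgHom k _ _
  have hg : (Ideal.Quotient.mk (Ideal.span {g})) g = 0 :=
    Ideal.Quotient.eq_zero_iff_mem.2 (Ideal.subset_span rfl)
  have hz : ∀ a ∈ Ideal.span (Set.range f), (w.comp (v k B g)) a = 0 := by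
    intro a ha
    have h1 : Ideal.span (Set.range f) ≤ RingHom.ker (w.comp (v k B g)) := by
      rw [Ideal.span_le]
      rintro _ ⟨i, rfl⟩
      change w (v k B g (MvPolynomial.C g * MvPolynomial.X 0 ^ 2)) = 0
      rw [map_mul, v_C, hg, C_0, zero_mul, map_zero]
    exact h1 ha
  let u : ER f →ₐ[k] L := Ideal.Quotient.liftₐ _ (w.comp (v k B g)) hz
  have hu : ∀ F, u (Ideal.Quotient.mk _ F) = algebraMap _ L (v k B g F) := fun F => rfl
  refine ⟨u, ?_⟩
  let _ : Algebra (ER f) L := u.toRingHom.toAlgebra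
  have hux : u (Ideal.Quotient.mk _ (MvPolynomial.X 0)) =
      algebraMap _ L (X : (B ⧸ Ideal.span {g})[X]) := by
    rw [hu, v_X]
  refine (isLocalization_iff (Submonoid.powers
    (Ideal.Quotient.mk (Ideal.span (Set.range f)) (MvPolynomial.X 0))) L).2
      ⟨?_, ?_, fun {a b} hab => ?_⟩
  · rintro ⟨_, n, rfl⟩
    change IsUnit (u (Ideal.Quotient.mk _ (MvPolynomial.X 0) ^ n))
    rw [map_pow, hux]
    exact (IsLocalization.Away.algebraMap_isUnit (S := L) (X : (B ⧸ Ideal.span {g})[X])).pow n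
  · intro z
    obtain ⟨n, p, hp⟩ := IsLocalization.Away.surj (X : (B ⧸ Ideal.span {g})[X]) z
    obtain ⟨F, rfl⟩ := v_surj k B g p
    refine ⟨⟨Ideal.Quotient.mk _ F, ⟨_, n, rfl⟩⟩, ?_⟩
    change z * u (Ideal.Quotient.mk _ (MvPolynomial.X 0) ^ n) = u (Ideal.Quotient.mk _ F)
    rw [map_pow, hux, hu]
    exact hp
  · obtain ⟨A, rfl⟩ := Ideal.Quotient.mk_surjective a
    obtain ⟨A', rfl⟩ := Ideal.Quotient.mk_surjective b
    have h1 : algebraMap _ L (v k B g (A - A')) = 0 := by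
      rw [map_sub, map_sub, sub_eq_zero]
      exact hab
    rw [IsLocalization.map_eq_zero_iff (Submonoid.powers (X : (B ⧸ Ideal.span {g})[X]))] at h1
    obtain ⟨⟨_, n, rfl⟩, h2⟩ := h1
    have h3 : v k B g (A - A') = 0 := by
      have h4 : (X : (B ⧸ Ideal.span {g})[X]) ^ n * v k B g (A - A') = 0 := h2
      rw [mul_comm] at h4
      exact (Polynomial.monic_X_pow n).mul_left_eq_zero_iff.1 h4
    obtain ⟨F', hF'⟩ := v_ker k B g _ h3
    refine ⟨⟨_, 2, rfl⟩, ?_⟩
    change Ideal.Quotient.mk _ (MvPolynomial.X 0) ^ 2 * Ideal.Quotient.mk _ A =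
      Ideal.Quotient.mk _ (MvPolynomial.X 0) ^ 2 * Ideal.Quotient.mk _ A'
    rw [← sub_eq_zero, ← mul_sub, ← map_sub, ← map_pow, ← map_mul,
      Ideal.Quotient.eq_zero_iff_mem, hF']
    have h5 : (MvPolynomial.X 0 ^ 2 * (MvPolynomial.C g * F') : MvPolynomial (Fin 1) B) =
        F' * f 0 := by
      change _ = F' * (MvPolynomial.C g * MvPolynomial.X 0 ^ 2)
      ring
    rw [h5]
    exact Ideal.mul_mem_left _ _ (Ideal.subset_span ⟨0, rfl⟩)

end QCV
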