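import Pool.Agent.QCV.StU1

/-!
# QCV_UGM: the matrix of second derivatives after a linear substitution
-/

set_option autoImplicit false

namespace QCV

namespace UGM

open MvPolynomial

variable {B : Type} [CommRing B] {n : ℕ}

/-- The chain rule. -/
lemma chain (P : Matrix (Fin n) (Fin n) B) (φ : MvPolynomial (Fin n) B) (j : Fin n) :
    pderiv j (lsub P φ) = ∑ i, C (P i j) * lsub P (pderiv i φ) := by
  induction φ using MvPolynomial.induction_on with
  | C a =>
    have h : lsub P (C a) = C a := by
      unfold lsub
      rw [MvPolynomial.aeval_C]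
      rfl
    rw [h]
    simp
  | add p q hp hq =>
    rw [map_add, map_add, hp, hq, ← Finset.sum_add_distrib]
    refine Finset.sum_congr rfl fun i _ => ?_
    rw [map_add, map_add, mul_add]
  | mul_X p k hp =>
    have h : lsub P (X k) = ∑ l, C (P k l) * X l := by
      unfold lsub
      rw [MvPolynomial.aeval_X]
    have h2 : pderiv j (lsub P (X k)) = C (P k j) := by
      rw [h, map_sum]
      rw [Finset.sum_eq_single j]
      · simp
      · intro l _ hl
        rw [Derivation.leibniz, pderiv_X_of_ne hl, pderiv_C]
        simp
      · simp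
    rw [map_mul, Derivation.leibniz, hp, h2]
    have h3 : ∀ i, C (P i j) * lsub P (pderiv i (p * X k)) =
        (lsub P (X k) * (C (P i j) * lsub P (pderiv i p))) +
          (if i = k then lsub P p * C (P k j) else 0) := by
      intro i
      rw [Derivation.leibniz, smul_eq_mul, smul_eq_mul, map_add, map_mul, map_mul]
      split_ifs with hik
      · subst hik
        rw [pderiv_X_self, map_one]
        ring
      · rw [pderiv_X_of_ne (Ne.symm hik), map_zero]
        ring
    rw [Finset.sum_congr rfl fun i _ => h3 i, Finset.sum_add_distrib, ← Finset.mul_sum,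
      Finset.sum_ite_eq' Finset.univ k, if_pos (Finset.mem_univ k), smul_eq_mul, smul_eq_mul]
    ring

/-- The constant coefficient does not change. -/
lemma coeff_zero_lsub (P : Matrix (Fin n) (Fin n) B) (ψ : MvPolynomial (Fin n) B) :
    coeff 0 (lsub P ψ) = coeff 0 ψ := by
  change constantCoeff (lsub P ψ) = constantCoeff ψ
  induction ψ using MvPolynomial.induction_on with
  | C a =>
    have h : lsub P (C a) = C a := by
      unfold lsub
      rw [MvPolynomial.aeval_C]
      rfl
    rw [h]
  | add p q hp hq => rw [map_add, map_add, map_add, hp, hq]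
  | mul_X p k hp =>
    have h : lsub P (X k) = ∑ l, C (P k l) * X l := by
      unfold lsub
      rw [MvPolynomial.aeval_X]
    rw [map_mul, map_mul, map_mul, h, map_sum]
    simp

end UGM

open MvPolynomial UGM in
/-- QCV_UGM. -/
theorem t_UGM : S_UGM := by
  intro B _ n φ P _
  ext a b
  have h1 : lgram (lsub P φ) a b =
      ∑ i, ∑ k, P i b * (P k a * lgram φ k i) := by
    unfold lgram
    rw [chain, map_sum, coeff_sum]
    refine Finset.sum_congr rfl fun i _ => ?_
    rw [Derivation.leibniz, pderiv_C, smul_zero, add_zero, smul_eq_mul, coeff_C_mul, chain,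
      coeff_sum, Finset.mul_sum]
    refine Finset.sum_congr rfl fun k _ => ?_
    rw [coeff_C_mul, coeff_zero_lsub]
  rw [h1, Matrix.mul_apply]
  refine Finset.sum_congr rfl fun i _ => ?_
  rw [Matrix.mul_apply, Finset.sum_mul]
  refine Finset.sum_congr rfl fun k _ => ?_
  rw [Matrix.transpose_apply]
  ring

end QCV
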