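import Pool.Agent.QCV.StU1

/-!
# QCV, block U: a domain of finite type over a perfect field is birational to a hypersurface
-/

set_option autoImplicit false

namespace QCV

namespace UHA

open Polynomial

/-- The kernel of an evaluation `R[X] → L`, `R` factorial and contained in the field `L`, is
principal. -/
theorem ker_principal {R L : Type} [CommRing R] [IsDomain R] [UniqueFactorizationMonoid R]
    [Field L] (j : R →+* L) (hj : Function.Injective j) (α : L) :
    ∃ g : R[X], ∀ f : R[X], Polynomial.eval₂ j α f = 0 ↔ g ∣ f := by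
  classical
  let _ : Algebra R L := j.toAlgebra
  have : FaithfulSMul R L := (faithfulSMul_iff_algebraMap_injective R L).mpr hj
  let _ : NormalizedGCDMonoid R :=
    Classical.choice (inferInstance : Nonempty (NormalizedGCDMonoid R))
  by_cases h0 : RingHom.ker (Polynomial.eval₂RingHom j α) = ⊥
  · refine ⟨0, fun f => ?_⟩
    have h1 : f ∈ RingHom.ker (Polynomial.eval₂RingHom j α) ↔ f ∈ (⊥ : Ideal R[X]) := by rw [h0]
    rw [RingHom.mem_ker, Ideal.mem_bot, Polynomial.coe_eval₂RingHom] at h1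
    rw [h1, zero_dvd_iff]
  · obtain ⟨g, hg, hgp⟩ := (RingHom.ker_isPrime (Polynomial.eval₂RingHom j α)).exists_mem_prime_of_ne_bot h0
    rw [RingHom.mem_ker, Polynomial.coe_eval₂RingHom] at hg
    have hdeg : g.natDegree ≠ 0 := by
      intro h
      rw [Polynomial.eq_C_of_natDegree_eq_zero h, Polynomial.eval₂_C] at hg
      have h2 : g.coeff 0 = 0 := hj (by rw [hg, map_zero])
      apply hgp.ne_zero
      rw [Polynomial.eq_C_of_natDegree_eq_zero h, h2, Polynomial.C_0]
    have hprim : g.IsPrimitive := hgp.irreducible.isPrimitive hdeg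
    let _ : Algebra (FractionRing R) L := FractionRing.liftAlgebra R L
    have hirr : Irreducible (g.map (algebraMap R (FractionRing R))) :=
      (hprim.irreducible_iff_irreducible_map_fraction_map).mp hgp.irreducible
    have hev : ∀ f : R[X], Polynomial.aeval α (f.map (algebraMap R (FractionRing R))) =
        Polynomial.eval₂ j α f := by
      intro f
      rw [Polynomial.aeval_map_algebraMap]
      rfl
    have hint : IsIntegral (FractionRing R) α := by
      rw [← isAlgebraic_iff_isIntegral]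
      exact ⟨g.map (algebraMap R (FractionRing R)), hirr.ne_zero, by rw [hev, hg]⟩
    have hd1 : minpoly (FractionRing R) α ∣ g.map (algebraMap R (FractionRing R)) :=
      minpoly.dvd _ _ (by rw [hev, hg])
    have hd2 : g.map (algebraMap R (FractionRing R)) ∣ minpoly (FractionRing R) α :=
      (minpoly.irreducible hint).dvd_symm hirr hd1
    refine ⟨g, fun f => ⟨fun hf => ?_, ?_⟩⟩
    · exact hprim.dvd_of_fraction_map_dvd_fraction_map
        (hd2.trans (minpoly.dvd _ _ (by rw [hev, hf])))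
    · rintro ⟨q, rfl⟩
      rw [Polynomial.eval₂_mul, hg, zero_mul]

/-- A subalgebra of finite type of the fraction field of a subalgebra is contained in a localisation
of it. -/
theorem exists_den {k K : Type} [Field k] [Field K] [Algebra k K] (B A : Subalgebra k K)
    (hB : ∀ z : K, ∃ c ∈ B, c ≠ 0 ∧ c * z ∈ B) (hA : A.FG) :
    ∃ h ∈ B, h ≠ 0 ∧ ∀ z ∈ A, ∃ n : ℕ, h ^ n * z ∈ B := by
  classical
  obtain ⟨s, hs⟩ := hA
  have h1 : ∃ h ∈ B, h ≠ 0 ∧ ∀ z ∈ s, h * z ∈ B := by
    clear hs
    induction s using Finset.induction_on with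
    | empty => exact ⟨1, B.one_mem, one_ne_zero, fun z hz => absurd hz (Finset.notMem_empty z)⟩
    | insert x s _ ih =>
      obtain ⟨h, hh, hh0, hz⟩ := ih
      obtain ⟨c, hc, hc0, hcx⟩ := hB x
      refine ⟨h * c, B.mul_mem hh hc, mul_ne_zero hh0 hc0, fun z hz' => ?_⟩
      rcases Finset.mem_insert.mp hz' with rfl | hz'
      · rw [mul_assoc]; exact B.mul_mem hh hcx
      · rw [mul_comm h c, mul_assoc]; exact B.mul_mem hc (hz z hz')
  obtain ⟨h, hh, hh0, hz⟩ := h1
  refine ⟨h, hh, hh0, fun z hzA => ?_⟩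
  rw [← hs] at hzA
  induction hzA using Algebra.adjoin_induction with
  | mem x hx => exact ⟨1, by rw [pow_one]; exact hz x hx⟩
  | algebraMap r => exact ⟨0, by rw [pow_zero, one_mul]; exact B.algebraMap_mem r⟩
  | add x y _ _ hx hy =>
    obtain ⟨n, hn⟩ := hx
    obtain ⟨m, hm⟩ := hy
    refine ⟨n + m, ?_⟩
    have h2 : h ^ (n + m) * (x + y) = h ^ m * (h ^ n * x) + h ^ n * (h ^ m * y) := by ring
    rw [h2]
    exact B.add_mem (B.mul_mem (B.pow_mem hh m) hn) (B.mul_mem (B.pow_mem hh n) hm)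
  | mul x y _ _ hx hy =>
    obtain ⟨n, hn⟩ := hx
    obtain ⟨m, hm⟩ := hy
    refine ⟨n + m, ?_⟩
    have h2 : h ^ (n + m) * (x * y) = (h ^ n * x) * (h ^ m * y) := by ring
    rw [h2]
    exact B.mul_mem hn hm

/-- One inclusion of the comparison of the two localisations. -/
theorem incl {k K : Type} [Field k] [Field K] [Algebra k K] (B A : Subalgebra k K) (p q : K)
    (hq : q ∈ B) (hAB : ∀ z ∈ A, ∃ n : ℕ, q ^ n * z ∈ B) (m n : ℕ) (hy : q ^ m * p ∈ B) (z : K)
    (hz : ∃ N : ℕ, (q * p ^ (n + 1)) ^ N * z ∈ A) : ∃ P : ℕ, (p * q ^ (m + 1)) ^ P * z ∈ B := by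
  obtain ⟨N, hN⟩ := hz
  obtain ⟨M, hM⟩ := hAB _ hN
  refine ⟨(n + 1) * N + M + N, ?_⟩
  have h : (p * q ^ (m + 1)) ^ ((n + 1) * N + M + N) * z =
      (q ^ m * p) ^ (M + N) * q ^ (m * ((n + 1) * N)) * q ^ ((n + 1) * N) *
        (q ^ M * ((q * p ^ (n + 1)) ^ N * z)) := by
    ring
  rw [h]
  exact B.mul_mem (B.mul_mem (B.mul_mem (B.pow_mem hy _) (B.pow_mem hq _)) (B.pow_mem hq _)) hM

/-- Two subalgebras of finite type with the same fraction field have a common localisation. -/
theorem birat {k K : Type} [Field k] [Field K] [Algebra k K] (B A : Subalgebra k K)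
    (hB : ∀ z : K, ∃ c ∈ B, c ≠ 0 ∧ c * z ∈ B) (hA : ∀ z : K, ∃ c ∈ A, c ≠ 0 ∧ c * z ∈ A)
    (hBf : B.FG) (hAf : A.FG) :
    ∃ h ∈ B, ∃ a ∈ A, h ≠ 0 ∧ a ≠ 0 ∧
      ∀ z : K, (∃ n : ℕ, h ^ n * z ∈ B) ↔ (∃ n : ℕ, a ^ n * z ∈ A) := by
  obtain ⟨q, hq, hq0, hAB⟩ := exists_den B A hB hAf
  obtain ⟨p, hp, hp0, hBA⟩ := exists_den A B hA hBf
  obtain ⟨m, hm⟩ := hAB p hp
  obtain ⟨n, hn⟩ := hBA q hq
  refine ⟨p * q ^ (m + 1), ?_, q * p ^ (n + 1), ?_, mul_ne_zero hp0 (pow_ne_zero _ hq0),
    mul_ne_zero hq0 (pow_ne_zero _ hp0), fun z => ⟨?_, ?_⟩⟩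
  · have h : p * q ^ (m + 1) = q ^ m * p * q := by ring
    rw [h]
    exact B.mul_mem hm hq
  · have h : q * p ^ (n + 1) = p ^ n * q * p := by ring
    rw [h]
    exact A.mul_mem hn hp
  · exact incl A B q p hp hBA n m hn z
  · exact incl B A p q hq hAB m n hm z

/-- The localisation at one element of a domain, in a field. -/
theorem loc_emb {k K D : Type} [Field k] [Field K] [Algebra k K] [CommRing D] [Algebra k D]
    (f : D →ₐ[k] K) (hf : Function.Injective f) (d : D) (hd : f d ≠ 0) :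
    ∃ F : Localization.Away d →ₐ[k] K, Function.Injective F ∧
      ∀ z : K, z ∈ F.range ↔ ∃ n : ℕ, f d ^ n * z ∈ f.range := by
  have hu : ∀ y : Submonoid.powers d, IsUnit (f y) := by
    rintro ⟨y, n, rfl⟩
    simp only [map_pow]
    exact (isUnit_iff_ne_zero.mpr (pow_ne_zero _ hd))
  let F : Localization.Away d →ₐ[k] K := IsLocalization.liftAlgHom (M := Submonoid.powers d) hu
  have hF : ∀ x : D, F (algebraMap D (Localization.Away d) x) = f x := by
    intro x
    exact IsLocalization.lift_eq (M := Submonoid.powers d) (g := (f : D →+* K)) hu x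
  have hsurj : ∀ w : Localization.Away d, ∃ (n : ℕ) (x : D),
      algebraMap D (Localization.Away d) d ^ n * w = algebraMap D (Localization.Away d) x := by
    intro w
    obtain ⟨⟨x, ⟨y, n, rfl⟩⟩, h⟩ := IsLocalization.surj (Submonoid.powers d) w
    refine ⟨n, x, ?_⟩
    rw [← h, ← map_pow, mul_comm]
  refine ⟨F, ?_, fun z => ⟨?_, ?_⟩⟩
  · rw [injective_iff_map_eq_zero]
    intro w hw
    obtain ⟨n, x, h⟩ := hsurj w
    have h1 : f x = 0 := by
      rw [← hF, ← h, map_mul, hw, mul_zero]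
    have h2 : x = 0 := hf (by rw [h1, map_zero])
    rw [h2, map_zero] at h
    have h3 : IsUnit (algebraMap D (Localization.Away d) d ^ n) :=
      (IsLocalization.Away.algebraMap_isUnit d).pow n
    exact (h3.mul_right_eq_zero).mp h
  · rintro ⟨w, rfl⟩
    obtain ⟨n, x, h⟩ := hsurj w
    refine ⟨n, x, ?_⟩
    have h1 := congrArg F h
    rw [map_mul, map_pow, hF, hF] at h1
    exact h1.symm
  · rintro ⟨n, x, hx⟩
    refine ⟨IsLocalization.mk' (Localization.Away d) x (⟨d ^ n, n, rfl⟩ : Submonoid.powers d), ?_⟩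
    have h1 := congrArg F (IsLocalization.mk'_spec (Localization.Away d) x
      (⟨d ^ n, n, rfl⟩ : Submonoid.powers d))
    rw [map_mul, hF, hF] at h1
    simp only [map_pow] at h1
    change F _ * f d ^ n = f x at h1
    have h2 : f d ^ n ≠ 0 := pow_ne_zero _ hd
    apply mul_right_cancel₀ h2
    change F _ * f d ^ n = z * f d ^ n
    rw [h1, mul_comm z]
    exact hx

end UHA

open UHA in
/-- **UHA**. -/
theorem t_UHA : S_UHA := by
  intro k A _ _ _ _ _ _ r hr
  classical
  let K := FractionRing A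
  have : Algebra.EssFiniteType A K := Algebra.EssFiniteType.of_isLocalization K (nonZeroDivisors A)
  have : Algebra.EssFiniteType k K := Algebra.EssFiniteType.comp k A K
  obtain ⟨s, hs, hsep⟩ := exists_isTranscendenceBasis_and_isSeparable_of_perfectField k K
  -- the cardinality of the transcendence basis
  have hcard : s.card = r := by
    have h1 := hs.cardinalMk_eq_trdeg
    have : Algebra.IsAlgebraic A K := IsLocalization.isAlgebraic K (nonZeroDivisors A)
    have h2 : Algebra.trdeg k K = r := by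
      rw [← hr, ← trdeg_add_eq k A (A := K), trdeg_eq_zero (R := A) (A := K), add_zero]
    rw [h2, Cardinal.mk_coe_finset] at h1
    exact_mod_cast h1
  let e : Fin r ≃ s := (Finset.equivFinOfCardEq hcard).symm
  let t : Fin r → K := fun i => (e i : K)
  have ht : AlgebraicIndependent k t := hs.1.comp e e.injective
  have hrt : Set.range t = (s : Set K) := by
    ext z
    constructor
    · rintro ⟨i, rfl⟩; exact (e i).2
    · intro hz; exact ⟨e.symm ⟨z, hz⟩, by simp [t]⟩
  -- the primitive element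
  have : Algebra.EssFiniteType (IntermediateField.adjoin k (s : Set K)) K :=
    Algebra.EssFiniteType.of_comp k _ _
  have : FiniteDimensional (IntermediateField.adjoin k (s : Set K)) K :=
    Algebra.finite_of_essFiniteType_of_isAlgebraic
  obtain ⟨α, hα⟩ := Field.exists_primitive_element (IntermediateField.adjoin k (s : Set K)) K
  let φ : MvPolynomial (Fin (r + 1)) k →ₐ[k] K := MvPolynomial.aeval (Fin.cons α t : Fin (r + 1) → K)
  have hφ : φ.range = Algebra.adjoin k ((s : Set K) ∪ {α}) := by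
    have h1 : (s : Set K) ∪ {α} = Set.range (Fin.cons α t : Fin (r + 1) → K) := by
      rw [Fin.range_cons, hrt, Set.union_comm, Set.insert_eq]
    rw [h1, Algebra.adjoin_range_eq_range_aeval]
  have hfrac : ∀ z : K, ∃ c ∈ φ.range, c ≠ 0 ∧ c * z ∈ φ.range := by
    intro z
    have h1 : z ∈ IntermediateField.adjoin k ((s : Set K) ∪ {α}) := by
      rw [← IntermediateField.adjoin_adjoin_left, hα]
      trivial
    obtain ⟨x, hx, y, hy, hz⟩ := IntermediateField.mem_adjoin_iff_div.mp h1
    rw [hφ]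
    by_cases hy0 : y = 0
    · refine ⟨1, Subalgebra.one_mem _, one_ne_zero, ?_⟩
      rw [hz, hy0, div_zero, mul_zero]
      exact Subalgebra.zero_mem _
    · refine ⟨y, hy, hy0, ?_⟩
      rw [hz, mul_div_cancel₀ _ hy0]
      exact hx
  -- the kernel is principal
  obtain ⟨g', hg'⟩ := ker_principal (MvPolynomial.aeval t : MvPolynomial (Fin r) k →ₐ[k] K).toRingHom
    ht α
  have hcomp : ∀ f : MvPolynomial (Fin (r + 1)) k,
      Polynomial.eval₂ (MvPolynomial.aeval t : MvPolynomial (Fin r) k →ₐ[k] K).toRingHom α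
        (MvPolynomial.finSuccEquiv k r f) = φ f := by
    intro f
    induction f using MvPolynomial.induction_on with
    | C a =>
      rw [MvPolynomial.finSuccEquiv_apply]
      simp [φ]
    | add p q hp hq => rw [map_add, Polynomial.eval₂_add, hp, hq, map_add]
    | mul_X p i hp =>
      rw [map_mul, Polynomial.eval₂_mul, hp, map_mul]
      congr 1
      refine Fin.cases ?_ (fun j => ?_) i
      · rw [MvPolynomial.finSuccEquiv_X_zero, Polynomial.eval₂_X]
        simp [φ]
      · rw [MvPolynomial.finSuccEquiv_X_succ, Polynomial.eval₂_C]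
        simp [φ]
  let g : MvPolynomial (Fin (r + 1)) k := (MvPolynomial.finSuccEquiv k r).symm g'
  have hg : ∀ f : MvPolynomial (Fin (r + 1)) k, φ f = 0 ↔ f ∈ Ideal.span {g} := by
    intro f
    rw [← hcomp f, hg', Ideal.mem_span_singleton]
    constructor
    · rintro ⟨q, hq⟩
      refine ⟨(MvPolynomial.finSuccEquiv k r).symm q, ?_⟩
      apply (MvPolynomial.finSuccEquiv k r).injective
      rw [hq, map_mul, AlgEquiv.apply_symm_apply, AlgEquiv.apply_symm_apply]
    · rintro ⟨q, hq⟩
      refine ⟨MvPolynomial.finSuccEquiv k r q, ?_⟩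
      rw [hq, map_mul, AlgEquiv.apply_symm_apply]
  let ψ : (MvPolynomial (Fin (r + 1)) k ⧸ Ideal.span {g}) →ₐ[k] K :=
    Ideal.Quotient.liftₐ (Ideal.span {g}) φ (fun a ha => (hg a).mpr ha)
  have hψ : ∀ f, ψ (Ideal.Quotient.mk _ f) = φ f := fun f => rfl
  have hψi : Function.Injective ψ := by
    rw [injective_iff_map_eq_zero]
    intro x hx
    obtain ⟨f, rfl⟩ := Ideal.Quotient.mk_surjective x
    rw [hψ] at hx
    exact Ideal.Quotient.eq_zero_iff_mem.mpr ((hg f).mp hx)
  have hψr : ψ.range = φ.range := by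
    ext z
    constructor
    · rintro ⟨x, rfl⟩
      obtain ⟨f, rfl⟩ := Ideal.Quotient.mk_surjective x
      exact ⟨f, rfl⟩
    · rintro ⟨f, rfl⟩
      exact ⟨Ideal.Quotient.mk _ f, rfl⟩
  -- the algebra `A` in `K`
  let ι : A →ₐ[k] K := Algebra.algHom k A K
  have hιi : Function.Injective ι := IsFractionRing.injective A K
  have hA : ∀ z : K, ∃ c ∈ ι.range, c ≠ 0 ∧ c * z ∈ ι.range := by
    intro z
    obtain ⟨⟨x, ⟨y, hy⟩⟩, h⟩ := IsLocalization.surj (nonZeroDivisors A) z
    refine ⟨ι y, ⟨y, rfl⟩, ?_, x, ?_⟩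
    · rw [Ne, map_eq_zero_iff ι hιi]
      exact nonZeroDivisors.ne_zero hy
    · rw [mul_comm]
      exact h.symm
  have hAf : ι.range.FG := by
    have h1 : (⊤ : Subalgebra k A).FG := Algebra.FiniteType.out
    have h2 := h1.map ι
    rwa [Algebra.map_top] at h2
  have hBf : φ.range.FG := by
    rw [hφ]
    exact ⟨s ∪ {α}, by simp⟩
  obtain ⟨h, hh, a, ha, hh0, ha0, hmain⟩ := birat φ.range ι.range hfrac hA hBf hAf
  rw [← hψr] at hh
  obtain ⟨h', rfl⟩ := hh
  obtain ⟨a', rfl⟩ := ha
  obtain ⟨F, hF, hFr⟩ := loc_emb ψ hψi h' hh0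
  obtain ⟨G, hG, hGr⟩ := loc_emb ι hιi a' ha0
  refine ⟨g, a', h', ?_, ?_⟩
  · rintro rfl
    exact ha0 (map_zero ι)
  · have hr : F.range = G.range := by
      ext z
      rw [hFr, hGr, hψr]
      exact hmain z
    exact ⟨(AlgEquiv.ofInjective F hF).trans ((Subalgebra.equivOfEq _ _ hr).trans
      (AlgEquiv.ofInjective G hG).symm)⟩

end QCV
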