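import Pool.Agent.QCV.StU2

/-!
# QCV, block U: UHI
-/

set_option autoImplicit false

open CategoryTheory AlgebraicGeometry Polynomial

namespace QCV

open Pool.Agent.Lib_helper55.Beil Pool.Agent.Lib_helper66.OneP CUB

namespace UHI_aux

noncomputable section

variable (B : Type) [CommRing B] (n s : ℕ)

/-- the images of the variables -/
def vv (i : Fin (n + 2 * (s + 1))) : (MvPolynomial (Fin (n + 2 * s)) B)[X][X] :=
  if h : i.1 < n + 2 * s then C (C (MvPolynomial.X ⟨i.1, h⟩))
  else if i.1 = n + 2 * s then C X else X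

/-- the map -/
def F : MvPolynomial (Fin (n + 2 * (s + 1))) B →ₐ[B] (MvPolynomial (Fin (n + 2 * s)) B)[X][X] :=
  MvPolynomial.aeval (vv B n s)

/-- the first step of the inverse map -/
def G1 : MvPolynomial (Fin (n + 2 * s)) B →ₐ[B] MvPolynomial (Fin (n + 2 * (s + 1))) B :=
  MvPolynomial.rename (Fin.castLE (by omega))

/-- the second step of the inverse map -/
def G2 : (MvPolynomial (Fin (n + 2 * s)) B)[X] →ₐ[B] MvPolynomial (Fin (n + 2 * (s + 1))) B :=
  Polynomial.eval₂AlgHom (G1 B n s) (MvPolynomial.X ⟨n + 2 * s, by omega⟩) (fun _ => Commute.all _ _)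

/-- the inverse map -/
def G3 : (MvPolynomial (Fin (n + 2 * s)) B)[X][X] →ₐ[B] MvPolynomial (Fin (n + 2 * (s + 1))) B :=
  Polynomial.eval₂AlgHom (G2 B n s) (MvPolynomial.X ⟨n + 2 * s + 1, by omega⟩)
    (fun _ => Commute.all _ _)

theorem G3_X : G3 B n s X = MvPolynomial.X ⟨n + 2 * s + 1, by omega⟩ := by
  simp [G3]

theorem G3_C (a : (MvPolynomial (Fin (n + 2 * s)) B)[X]) : G3 B n s (C a) = G2 B n s a := by
  simp [G3]

theorem G2_X : G2 B n s X = MvPolynomial.X ⟨n + 2 * s, by omega⟩ := by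
  simp [G2]

theorem G2_C (a : MvPolynomial (Fin (n + 2 * s)) B) : G2 B n s (C a) = G1 B n s a := by
  simp [G2]

theorem F_X (i : Fin (n + 2 * (s + 1))) : F B n s (MvPolynomial.X i) = vv B n s i := by
  simp [F]

theorem vv_lt (i : Fin (n + 2 * (s + 1))) (h : i.1 < n + 2 * s) :
    vv B n s i = C (C (MvPolynomial.X ⟨i.1, h⟩)) := by
  simp [vv, h]

theorem vv_eq (i : Fin (n + 2 * (s + 1))) (h : i.1 = n + 2 * s) : vv B n s i = C X := by
  simp [vv, h]

theorem vv_gt (i : Fin (n + 2 * (s + 1))) (h : i.1 = n + 2 * s + 1) : vv B n s i = X := by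
  simp [vv, h]

theorem FG : (F B n s).comp (G3 B n s) = AlgHom.id B _ := by
  apply Polynomial.algHom_ext'
  · apply Polynomial.algHom_ext'
    · apply MvPolynomial.algHom_ext
      intro i
      change F B n s (G3 B n s (C (C (MvPolynomial.X i)))) = C (C (MvPolynomial.X i))
      rw [G3_C, G2_C]
      change F B n s (MvPolynomial.rename _ (MvPolynomial.X i)) = _
      rw [MvPolynomial.rename_X, F_X, vv_lt B n s _ i.2]
      rfl
    · change F B n s (G3 B n s (C X)) = C X
      rw [G3_C, G2_X, F_X, vv_eq B n s _ rfl]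
  · change F B n s (G3 B n s X) = X
    rw [G3_X, F_X, vv_gt B n s _ rfl]

theorem GF : (G3 B n s).comp (F B n s) = AlgHom.id B _ := by
  apply MvPolynomial.algHom_ext
  intro i
  change G3 B n s (F B n s (MvPolynomial.X i)) = MvPolynomial.X i
  rw [F_X]
  rcases lt_trichotomy i.1 (n + 2 * s) with h | h | h
  · rw [vv_lt B n s i h, G3_C, G2_C]
    change MvPolynomial.rename _ (MvPolynomial.X _) = _
    rw [MvPolynomial.rename_X]
    rfl
  · rw [vv_eq B n s i h, G3_C, G2_X]
    congr 1
    exact Fin.ext h.symm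
  · have h2 : i.1 = n + 2 * s + 1 := by
      have := i.2
      omega
    rw [vv_gt B n s i h2, G3_X]
    congr 1
    exact Fin.ext h2.symm

/-- the isomorphism -/
def E : MvPolynomial (Fin (n + 2 * (s + 1))) B ≃ₐ[B] (MvPolynomial (Fin (n + 2 * s)) B)[X][X] :=
  AlgEquiv.ofAlgHom (F B n s) (G3 B n s) (FG B n s) (GF B n s)

theorem F_hyp (φ : MvPolynomial (Fin n) B) :
    F B n s (hyp φ (s + 1)) = C X * X + C (C (hyp φ s)) := by
  unfold hyp
  rw [map_add, map_sum, Fin.sum_univ_castSucc]
  have h1 : F B n s (MvPolynomial.rename (Fin.castAdd (2 * (s + 1))) φ) =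
      C (C (MvPolynomial.rename (Fin.castAdd (2 * s)) φ)) := by
    have h2 : (F B n s).comp (MvPolynomial.rename (Fin.castAdd (2 * (s + 1)))) =
        ((Polynomial.CAlgHom (R := B) (A := (MvPolynomial (Fin (n + 2 * s)) B)[X])).comp
          (Polynomial.CAlgHom (R := B) (A := MvPolynomial (Fin (n + 2 * s)) B))).comp
          (MvPolynomial.rename (R := B) (Fin.castAdd (2 * s))) := by
      apply MvPolynomial.algHom_ext
      intro i
      change F B n s (MvPolynomial.rename _ (MvPolynomial.X i)) =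
        C (C (MvPolynomial.rename _ (MvPolynomial.X i)))
      rw [MvPolynomial.rename_X, MvPolynomial.rename_X, F_X,
        vv_lt B n s _ (by simp only [Fin.val_castAdd]; have := i.2; omega)]
      rfl
    exact congrArg (fun f : MvPolynomial (Fin n) B →ₐ[B] _ => f φ) h2
  have h3 : ∀ i : Fin s, F B n s (MvPolynomial.X ⟨n + 2 * (Fin.castSucc i).1, by
      have := (Fin.castSucc i).2; omega⟩ *
      MvPolynomial.X ⟨n + 2 * (Fin.castSucc i).1 + 1, by have := (Fin.castSucc i).2; omega⟩) =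
      C (C (MvPolynomial.X ⟨n + 2 * i.1, by omega⟩ * MvPolynomial.X ⟨n + 2 * i.1 + 1, by omega⟩)) := by
    intro i
    rw [map_mul, F_X, F_X, vv_lt B n s _ (by simp only [Fin.val_castSucc]; have := i.2; omega),
      vv_lt B n s _ (by simp only [Fin.val_castSucc]; have := i.2; omega), ← C_mul, ← C_mul]
    rfl
  have h4 : F B n s (MvPolynomial.X ⟨n + 2 * (Fin.last s).1, by
      have := (Fin.last s).2; omega⟩ *
      MvPolynomial.X ⟨n + 2 * (Fin.last s).1 + 1, by have := (Fin.last s).2; omega⟩) = C X * X := by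
    rw [map_mul, F_X, F_X, vv_eq B n s _ rfl, vv_gt B n s _ rfl]
  rw [h1, h4, Finset.sum_congr rfl (fun i _ => h3 i), ← map_sum, ← map_sum, C_add, C_add]
  ring

end

end UHI_aux

open UHI_aux in
/-- **UHI** -/
theorem t_UHI : S_UHI := by
  intro k B _ _ _ n s φ
  refine ⟨Ideal.quotientEquivAlg _ _ ((E B n s).restrictScalars k) ?_⟩
  rw [Ideal.map_span]
  congr 1
  rw [Set.range_const, Set.image_singleton]
  congr 1
  exact (F_hyp B n s φ).symm

end QCV
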