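import Pool.Agent.QCV.StU

/-!
# QCV, module UHY: removal of hyperbolic planes
-/

set_option autoImplicit false

open CategoryTheory AlgebraicGeometry Limits Polynomial TopologicalSpace

namespace QCV

open Pool.Agent.Lib_helper55.Beil Pool.Agent.Lib_helper66.OneP CUB

universe v

namespace UHY

/-- no hyperbolic planes -/
lemma hyp_zero {B : Type} [CommRing B] {n : ℕ} (φ : MvPolynomial (Fin n) B) :
    (hyp φ 0 : MvPolynomial (Fin n) B) = φ := by
  have h1 : (hyp φ 0 : MvPolynomial (Fin n) B) = MvPolynomial.rename id φ + 0 := rfl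
  rw [h1, add_zero, MvPolynomial.rename_id_apply]

/-- the value at zero -/
noncomputable def ev (k D : Type) [Field k] [CommRing D] [Algebra k D] : D[X] →ₐ[k] D :=
  (Polynomial.aeval (0 : D)).restrictScalars k

lemma ev_apply {k D : Type} [Field k] [CommRing D] [Algebra k D] (F : D[X]) :
    ev k D F = F.coeff 0 := by
  change Polynomial.aeval (0 : D) F = _
  rw [Polynomial.coe_aeval_eq_eval, Polynomial.coeff_zero_eq_eval_zero]

lemma ev_surj {k D : Type} [Field k] [CommRing D] [Algebra k D] :
    Function.Surjective (ev k D) := fun d => ⟨C d, by rw [ev_apply, coeff_C_zero]⟩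

lemma ev_ker {k D : Type} [Field k] [CommRing D] [Algebra k D] :
    RingHom.ker (ev k D).toRingHom = Ideal.span {(X : D[X])} := by
  ext F
  rw [RingHom.mem_ker, Ideal.mem_span_singleton, Polynomial.X_dvd_iff]
  change ev k D F = 0 ↔ _
  rw [ev_apply]

/-- the quotient by `X` and a constant -/
lemma quot_iso (k D : Type) [Field k] [CommRing D] [Algebra k D] (c : D) :
    Nonempty ((D[X] ⧸ Ideal.span {(X : D[X]), C c}) ≃ₐ[k]
      (D ⧸ Ideal.span (Set.range fun _ : Fin 1 => c))) := by
  let q : D →ₐ[k] (D ⧸ Ideal.span (Set.range fun _ : Fin 1 => c)) :=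
    Ideal.Quotient.mkₐ k (Ideal.span (Set.range fun _ : Fin 1 => c))
  let f : D[X] →ₐ[k] (D ⧸ Ideal.span (Set.range fun _ : Fin 1 => c)) := q.comp (ev k D)
  have hr : Set.range (fun _ : Fin 1 => c) = {c} := Set.range_const
  have hf : Function.Surjective f :=
    (Ideal.Quotient.mkₐ_surjective k _).comp (ev_surj (k := k) (D := D))
  have hk : RingHom.ker f.toRingHom = Ideal.span {(X : D[X]), C c} := by
    apply le_antisymm
    · intro F hF
      have h1 : q (F.coeff 0) = 0 := by
        have h2 : f F = 0 := hF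
        have h3 : f F = q (ev k D F) := rfl
        rwa [h3, ev_apply] at h2
      have h2 : F.coeff 0 ∈ Ideal.span (Set.range fun _ : Fin 1 => c) :=
        Ideal.Quotient.eq_zero_iff_mem.1 h1
      rw [hr, Ideal.mem_span_singleton] at h2
      obtain ⟨d, hd⟩ := h2
      rw [← Polynomial.divX_mul_X_add F, hd, C_mul]
      refine add_mem (Ideal.mul_mem_left _ _ (Ideal.subset_span (by simp)))
        (Ideal.mul_mem_right _ _ (Ideal.subset_span (by simp)))
    · rw [Ideal.span_le]
      rintro F (rfl | rfl)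
      · change f X = 0
        change q (ev k D X) = 0
        rw [ev_apply, coeff_X_zero, map_zero]
      · change q (ev k D (C c)) = 0
        rw [ev_apply, coeff_C_zero]
        exact Ideal.Quotient.eq_zero_iff_mem.2 (Ideal.subset_span ⟨0, rfl⟩)
  exact ⟨(Ideal.quotientEquivAlgOfEq k hk.symm).trans
    (Ideal.quotientKerAlgEquivOfSurjective hf)⟩

variable {k : Type} [Field k] {E : Type} [Field E] {T : ∀ i : ℕ, Homology.{v} k E i}

/-- an open part -/
lemma ppf_away [Finite k] [CharZero E] (hT : Full T) (hP : Pub T hT) (D : Type) [CommRing D]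
    [Algebra k D] [Algebra.FiniteType k D] (hD : PPF T (aff k D)) :
    PPF T (aff k (Localization.Away (X : D[X]))) := by
  have hS : PPF T (aff k D[X]) := ppf_line hT hP D hD
  have hc := complementary_away (awayHom k (X : D[X])) (X : D[X]) (isLocalization_awayHom _)
    (ev k D) ev_surj ev_ker
  intro i
  rcases i with _ | i
  · exact pf_zero hT hP _
  · exact pf_open hT hP i _ _ hc (hS _) (hD _)

end UHY

open UHY in
theorem t_UHY : M_UHY.{v} := by
  intro hTCL hUHI k E _ _ _ _ T hT hP hS hG B _ _ _ n s φ hB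
  induction s with
  | zero =>
    intro h
    have h0 : Ideal.span (Set.range fun _ : Fin 1 => (hyp φ 0 : MvPolynomial (Fin n) B)) =
        Ideal.span (Set.range fun _ : Fin 1 => φ) := by
      rw [hyp_zero]
      rfl
    have e : (MvPolynomial (Fin n) B ⧸
        Ideal.span (Set.range fun _ : Fin 1 => (hyp φ 0 : MvPolynomial (Fin n) B))) ≃ₐ[k]
        (MvPolynomial (Fin n) B ⧸ Ideal.span (Set.range fun _ : Fin 1 => φ)) :=
      Ideal.quotientEquivAlgOfEq k h0
    exact hG.iso (viso e.symm) h
  | succ s ih =>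
    intro h
    apply ih
    obtain ⟨e⟩ := hUHI k B n s φ
    have h1 := hG.iso (viso e.symm) h
    have hD : PPF T (aff k (MvPolynomial (Fin (n + 2 * s)) B)) := OODD.ppf_mv hT hP B _ hB
    have hU := ppf_away hT hP (MvPolynomial (Fin (n + 2 * s)) B) hD
    obtain ⟨z', u', hs⟩ := Asm.s_LNR k (MvPolynomial (Fin (n + 2 * s)) B)[X]
      (Localization.Away (X : (MvPolynomial (Fin (n + 2 * s)) B)[X])) X (C (hyp φ s))
      (awayHom k X) (isLocalization_awayHom X)
    have hc := complementary_away u' _ hs.away z' hs.surj hs.ker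
    have h2 := hTCL k E T hT hP _ _ hc h1 hU
    have h3 := hG.unpoly _ h2
    obtain ⟨e'⟩ := quot_iso k (MvPolynomial (Fin (n + 2 * s)) B) (hyp φ s)
    exact hG.iso (viso e'.symm) h3

end QCV
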