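import Pool.Agent.QCV.StU1

/-!
# QCV, module ULC: linearisation of forms, composition
-/

set_option autoImplicit false

namespace QCV

namespace ULC

open MvPolynomial

variable {B : Type} [CommRing B]

theorem lsub_X {n : ℕ} (P : Matrix (Fin n) (Fin n) B) (i : Fin n) :
    lsub P (X i) = ∑ j, C (P i j) * X j := by
  simp [lsub]

theorem lsub_C {n : ℕ} (P : Matrix (Fin n) (Fin n) B) (b : B) : lsub P (C b) = C b := by
  have h : (C b : MvPolynomial (Fin n) B) = algebraMap B _ b := rfl
  rw [h, AlgHom.commutes]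

/-- two substitutions -/
theorem lsub_lsub {n : ℕ} (P Q : Matrix (Fin n) (Fin n) B) (χ : MvPolynomial (Fin n) B) :
    lsub P (lsub Q χ) = lsub (Q * P) χ := by
  have h : (lsub P).comp (lsub Q) = lsub (Q * P) := by
    apply MvPolynomial.algHom_ext
    intro i
    rw [AlgHom.comp_apply, lsub_X, map_sum, lsub_X]
    simp only [map_mul, lsub_C, lsub_X, Finset.mul_sum]
    rw [Finset.sum_comm]
    refine Finset.sum_congr rfl fun k _ => ?_
    rw [Matrix.mul_apply, map_sum, Finset.sum_mul]
    refine Finset.sum_congr rfl fun j _ => ?_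
    rw [C_mul, mul_assoc]
  rw [← h, AlgHom.comp_apply]

/-- renaming of the variables -/
theorem lsub_rename {n n' : ℕ} (e : Fin n ≃ Fin n') (P : Matrix (Fin n) (Fin n) B)
    (χ : MvPolynomial (Fin n) B) :
    lsub (Matrix.reindex e e P) (rename e χ) = rename e (lsub P χ) := by
  have h : (lsub (Matrix.reindex e e P)).comp (rename e) = (rename e).comp (lsub P) := by
    apply MvPolynomial.algHom_ext
    intro i
    rw [AlgHom.comp_apply, AlgHom.comp_apply, rename_X, lsub_X, lsub_X, map_sum]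
    rw [← e.sum_comp]
    refine Finset.sum_congr rfl fun j _ => ?_
    simp
  have h2 := congrArg (fun g => g χ) h
  simpa only [AlgHom.comp_apply] using h2

theorem lgen_rename {R : Type} [CommRing R] {m n n' : ℕ} (e : Fin n ≃ Fin n')
    (f : Fin (m + 1) → MvPolynomial (Fin n) R) :
    rename e (lgen f) = lgen fun j => rename e (f j) := by
  unfold lgen
  rw [map_add, map_sum, map_rename]
  congr 1
  refine Finset.sum_congr rfl fun j _ => ?_
  rw [map_mul, rename_C, map_rename]

/-- the block matrix -/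
def blk {n k : ℕ} (Q : Matrix (Fin n) (Fin n) B) : Matrix (Fin (n + k)) (Fin (n + k)) B :=
  Matrix.reindex finSumFinEquiv finSumFinEquiv (Matrix.fromBlocks Q 0 0 1)

theorem blk_det {n k : ℕ} (Q : Matrix (Fin n) (Fin n) B) :
    (blk (k := k) Q).det = Q.det := by
  unfold blk
  rw [Matrix.det_reindex_self, Matrix.det_fromBlocks_zero₂₁, Matrix.det_one, mul_one]

theorem blk_castAdd {n k : ℕ} (Q : Matrix (Fin n) (Fin n) B) (i : Fin n) :
    lsub (blk (k := k) Q) (X (Fin.castAdd k i)) = rename (Fin.castAdd k) (lsub Q (X i)) := by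
  rw [lsub_X, lsub_X, map_sum, ← finSumFinEquiv.sum_comp, Fintype.sum_sum_type]
  have h1 : ∀ j : Fin k, C (blk (k := k) Q (Fin.castAdd k i) (finSumFinEquiv (Sum.inr j))) *
      (X (finSumFinEquiv (Sum.inr j)) : MvPolynomial (Fin (n + k)) B) = 0 := by
    intro j
    simp [blk]
  have h2 : ∀ j : Fin n, C (blk (k := k) Q (Fin.castAdd k i) (finSumFinEquiv (Sum.inl j))) *
      (X (finSumFinEquiv (Sum.inl j)) : MvPolynomial (Fin (n + k)) B) =
      rename (Fin.castAdd k) (C (Q i j) * X j) := by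
    intro j
    simp [blk]
  rw [Finset.sum_eq_zero fun j _ => h1 j, add_zero]
  exact Finset.sum_congr rfl fun j _ => h2 j

theorem blk_natAdd {n k : ℕ} (Q : Matrix (Fin n) (Fin n) B) (i : Fin k) :
    lsub (blk (k := k) Q) (X (Fin.natAdd n i)) = X (Fin.natAdd n i) := by
  rw [lsub_X, ← finSumFinEquiv.sum_comp, Fintype.sum_sum_type]
  have h1 : ∀ j : Fin n, C (blk (k := k) Q (Fin.natAdd n i) (finSumFinEquiv (Sum.inl j))) *
      (X (finSumFinEquiv (Sum.inl j)) : MvPolynomial (Fin (n + k)) B) = 0 := by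
    intro j
    simp [blk]
  have h2 : ∀ j : Fin k, C (blk (k := k) Q (Fin.natAdd n i) (finSumFinEquiv (Sum.inr j))) *
      (X (finSumFinEquiv (Sum.inr j)) : MvPolynomial (Fin (n + k)) B) =
      if j = i then X (Fin.natAdd n i) else 0 := by
    intro j
    by_cases h : j = i
    · subst h
      simp [blk]
    · simp [blk, h, Ne.symm h]
  rw [Finset.sum_eq_zero fun j _ => h1 j, zero_add, Finset.sum_congr rfl fun j _ => h2 j,
    Finset.sum_ite_eq']
  simp

theorem blk_rename {n k : ℕ} (Q : Matrix (Fin n) (Fin n) B) (χ : MvPolynomial (Fin n) B) :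
    lsub (blk (k := k) Q) (rename (Fin.castAdd k) χ) = rename (Fin.castAdd k) (lsub Q χ) := by
  have h : (lsub (blk (k := k) Q)).comp (rename (Fin.castAdd k)) =
      (rename (Fin.castAdd k)).comp (lsub Q) := by
    apply MvPolynomial.algHom_ext
    intro i
    rw [AlgHom.comp_apply, AlgHom.comp_apply, rename_X, blk_castAdd]
  have h2 := congrArg (fun g => g χ) h
  simpa only [AlgHom.comp_apply] using h2

theorem blk_hyp {n s : ℕ} (Q : Matrix (Fin n) (Fin n) B) (χ : MvPolynomial (Fin n) B) :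
    lsub (blk (k := 2 * s) Q) (hyp χ s) = hyp (lsub Q χ) s := by
  unfold hyp
  rw [map_add, blk_rename, map_sum]
  congr 1
  refine Finset.sum_congr rfl fun i _ => ?_
  have e1 : (⟨n + 2 * i.1, by omega⟩ : Fin (n + 2 * s)) =
      Fin.natAdd n (⟨2 * i.1, by omega⟩ : Fin (2 * s)) := rfl
  have e2 : (⟨n + 2 * i.1 + 1, by omega⟩ : Fin (n + 2 * s)) =
      Fin.natAdd n (⟨2 * i.1 + 1, by omega⟩ : Fin (2 * s)) := rfl
  rw [map_mul, e1, e2, blk_natAdd, blk_natAdd]

theorem hyp_succ {n : ℕ} (φ : MvPolynomial (Fin n) B) (s : ℕ)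
    (h : n + 2 * 1 + 2 * s = n + 2 * (s + 1)) :
    rename (finCongr h) (hyp (hyp φ 1) s) = hyp φ (s + 1) := by
  unfold hyp
  rw [Fin.sum_univ_succ (n := s), Fin.sum_univ_one]
  simp only [map_add, map_mul, map_sum, rename_rename, rename_X]
  rw [add_assoc]
  congr 1
  congr 1
  refine Finset.sum_congr rfl fun i _ => ?_
  congr 2
  · apply Fin.ext
    simp only [finCongr_apply, Fin.val_cast, Fin.val_succ]
    ring
  · apply Fin.ext
    simp only [finCongr_apply, Fin.val_cast, Fin.val_succ]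
    ring

end ULC

open ULC

theorem t_ULC : S_ULC := by
  intro R _ m n φ ψ Q hQ hφ hψ
  obtain ⟨s, f, P, hf, hP, h⟩ := hψ
  have hN : n + 2 * 1 + 2 * s = n + 2 * (s + 1) := by ring
  refine ⟨s + 1, fun j => MvPolynomial.rename (finCongr hN) (f j),
    Matrix.reindex (finCongr hN) (finCongr hN) (blk (k := 2 * s) Q * P), ?_, ?_, ?_⟩
  · intro j
    exact (hf j).rename_isHomogeneous
  · rw [Matrix.det_reindex_self, Matrix.det_mul, blk_det]
    exact hQ.mul hP
  · rw [← hyp_succ φ s hN, lsub_rename, ← lsub_lsub, blk_hyp, hφ, h, lgen_rename]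

end QCV
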