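import Pool.Agent.QCV.StU1

/-!
# QCV, module ULS: one step of the linearisation
-/

set_option autoImplicit false

namespace QCV

namespace ULS_aux

open MvPolynomial

variable {B : Type} [CommRing B]

/-- the identity matrix with two more entries -/
def mat {N : ℕ} (p q k l : Fin N) (x y : B) : Matrix (Fin N) (Fin N) B :=
  fun r c => (if r = c then 1 else 0) + (if c = k then (if r = p then x else 0) else 0) +
    (if c = l then (if r = q then y else 0) else 0)

lemma det_mat {N : ℕ} {p q k l : Fin N} (x y : B) (h1 : k < p) (h2 : l < q) :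
    (mat p q k l x y).det = 1 := by
  rw [Matrix.det_of_lowerTriangular]
  · refine Finset.prod_eq_one fun r _ => ?_
    unfold mat
    have e1 : (if r = k then (if r = p then x else 0) else 0) = 0 := by
      split_ifs with h h'
      · exfalso; rw [← h, ← h'] at h1; exact lt_irrefl _ h1
      · rfl
      · rfl
    have e2 : (if r = l then (if r = q then y else 0) else 0) = 0 := by
      split_ifs with h h'
      · exfalso; rw [← h, ← h'] at h2; exact lt_irrefl _ h2
      · rfl
      · rfl
    rw [e1, e2, if_pos rfl]
    ring
  · intro r c hrc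
    have hlt : r < c := hrc
    unfold mat
    rw [if_neg hlt.ne]
    have e1 : (if c = k then (if r = p then x else 0) else 0) = 0 := by
      split_ifs with h h'
      · exfalso; rw [h, h'] at hlt; exact lt_asymm hlt h1
      · rfl
      · rfl
    have e2 : (if c = l then (if r = q then y else 0) else 0) = 0 := by
      split_ifs with h h'
      · exfalso; rw [h, h'] at hlt; exact lt_asymm hlt h2
      · rfl
      · rfl
    rw [e1, e2]
    ring

lemma row_mat {N : ℕ} (p q k l : Fin N) (x y : B) (r : Fin N) :
    ∑ c, C (mat p q k l x y r c) * (X c : MvPolynomial (Fin N) B)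
      = X r + (if r = p then C x * X k else 0) + (if r = q then C y * X l else 0) := by
  have e : ∀ c : Fin N, C (mat p q k l x y r c) * (X c : MvPolynomial (Fin N) B)
      = (if r = c then X c else 0) + (if c = k then (if r = p then C x * X c else 0) else 0) +
        (if c = l then (if r = q then C y * X c else 0) else 0) := by
    intro c
    unfold mat
    rw [C_add, C_add, add_mul, add_mul]
    congr 1
    · congr 1
      · split_ifs <;> simp
      · split_ifs <;> simp
    · split_ifs <;> simp
  rw [Finset.sum_congr rfl fun c _ => e c, Finset.sum_add_distrib, Finset.sum_add_distrib,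
    Finset.sum_ite_eq, if_pos (Finset.mem_univ _), Finset.sum_ite_eq', if_pos (Finset.mem_univ _),
    Finset.sum_ite_eq', if_pos (Finset.mem_univ _)]

end ULS_aux

open ULS_aux MvPolynomial in
theorem t_ULS : S_ULS := by
  intro B _ n ρ a b i j
  set p : Fin (n + 2 * 1) := ⟨n, by omega⟩ with hp
  set q : Fin (n + 2 * 1) := ⟨n + 1, by omega⟩ with hq
  set k : Fin (n + 2 * 1) := Fin.castAdd (2 * 1) i with hk
  set l : Fin (n + 2 * 1) := Fin.castAdd (2 * 1) j with hl
  have hkp : k < p := by
    rw [Fin.lt_def, hk, hp]; simp
  have hlq : l < q := by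
    rw [Fin.lt_def, hl, hq]; simp only [Fin.val_castAdd]; omega
  have hpq : p ≠ q := by
    intro h; have := congrArg Fin.val h; simp [hp, hq] at this
  refine ⟨mat p q k l (-a) b, by rw [det_mat _ _ hkp hlq]; exact isUnit_one, ?_⟩
  have hX : ∀ r, lsub (mat p q k l (-a) b) (X r) =
      X r + (if r = p then C (-a) * X k else 0) + (if r = q then C b * X l else 0) := by
    intro r
    unfold lsub
    rw [aeval_X, row_mat]
  have hcast : ∀ r : Fin n, lsub (mat p q k l (-a) b) (X (Fin.castAdd (2 * 1) r)) =
      X (Fin.castAdd (2 * 1) r) := by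
    intro r
    rw [hX, if_neg, if_neg, add_zero, add_zero]
    · intro h
      have := congrArg Fin.val h
      simp [hq] at this
      omega
    · intro h
      have := congrArg Fin.val h
      simp [hp] at this
      omega
  have hren : ∀ φ : MvPolynomial (Fin n) B, lsub (mat p q k l (-a) b)
      (rename (Fin.castAdd (2 * 1)) φ) = rename (Fin.castAdd (2 * 1)) φ := by
    intro φ
    have : (lsub (mat p q k l (-a) b)).comp (rename (Fin.castAdd (2 * 1))) =
        (rename (Fin.castAdd (2 * 1)) : MvPolynomial (Fin n) B →ₐ[B] _) := by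
      apply MvPolynomial.algHom_ext
      intro r
      rw [AlgHom.comp_apply, rename_X, hcast]
    exact DFunLike.congr_fun this φ
  have hsum : (∑ i : Fin 1, X (⟨n + 2 * i.1, by omega⟩ : Fin (n + 2 * 1)) *
      X (⟨n + 2 * i.1 + 1, by omega⟩ : Fin (n + 2 * 1)) : MvPolynomial (Fin (n + 2 * 1)) B)
      = X p * X q := by
    rw [Fin.sum_univ_one]
    rfl
  have h2 : lsub (mat p q k l (-a) b) (X p * X q) =
      (X p + C (-a) * X k) * (X q + C b * X l) := by
    rw [map_mul, hX, hX, if_pos rfl, if_neg hpq, if_neg hpq.symm, if_pos rfl]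
    ring
  unfold hyp
  rw [map_add, hren, hsum, h2]
  simp only [map_add, map_mul, rename_C, rename_X, map_neg, ← hk, ← hl]
  ring

end QCV
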