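import Mathlib

/-!
# QCV, block D: statements (all cubic hypersurfaces), part 1 (only Mathlib)

Goal.  Let `k` be a perfect field of characteristic different from two and `F` a form of degree three
in `n` variables over `k`, `n ≤ d + 4`, `1 ≤ d`.  Then the affine cone `F = 0` belongs to the class
(so the projective cubic hypersurface does; `d = 1`: all cubic threefolds, with arbitrary
singularities).  Proof.
* `S_DLN`: over a finite extension of `k` the form `F` (`4 ≤ n`) vanishes on a line.
* `S_DNR`: then `F` is `lcub G` in suitable coordinates (`s = 2`, `a = n - 3`), `G` a quadratic form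
  in three variables over `K[y_0, ..., y_a]`.
* If `(lgram G).det ≠ 0` then its rank is odd (`S_DRK`), and `S_CUB` applies.
* If `(lgram G).det = 0` then `F` has a rational singular point (`S_DDT`), so in suitable coordinates
  `F = x_0 Q + H` (`S_DSG`), and `S_DSI` (or the induction hypothesis, if `Q = 0`) applies.
* Descent along the finite etale covering defined by the extension of `k` (`S_DBC`, `S_DDS`) for `F`
  irreducible; otherwise `F = 0` or `F = l q` (`S_DFC`), `S_DRC`.
-/

set_option autoImplicit false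

open Polynomial

namespace QCV

/-- The cubic form `G(1, x_1, ..., x_s)` in `R[y_0, ..., y_a, x_1, ..., x_s]` (a copy of `cub`, StC). -/
noncomputable def lcub {R : Type} [CommRing R] {a s : ℕ}
    (G : MvPolynomial (Fin (s + 1)) (MvPolynomial (Fin (a + 1)) R)) :
    MvPolynomial (Fin (a + s + 1)) R :=
  MvPolynomial.eval₂
    (MvPolynomial.rename fun i : Fin (a + 1) => (⟨i.1, by omega⟩ : Fin (a + s + 1))).toRingHom
    (Fin.cons 1 fun j : Fin s => MvPolynomial.X ⟨a + 1 + j.1, by omega⟩) G

/-- The matrix of second derivatives of a quadratic form (a copy of `gram`, DefsO). -/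
noncomputable def lgram {A : Type} [CommRing A] {n : ℕ} (f : MvPolynomial (Fin n) A) :
    Matrix (Fin n) (Fin n) A :=
  fun i j => MvPolynomial.coeff 0 (MvPolynomial.pderiv i (MvPolynomial.pderiv j f))

/-- The homomorphism `x_0 ↦ c`, `x_(j+1) ↦ x_j` (a copy of `sp`, StC). -/
noncomputable def lsp {R : Type} [CommRing R] {n : ℕ} (c : R) :
    MvPolynomial (Fin (n + 1)) R →ₐ[R] MvPolynomial (Fin n) R :=
  MvPolynomial.aeval (Fin.cons (MvPolynomial.C c) MvPolynomial.X)

/-- **DAU** (linear automorphisms with prescribed columns).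
Proof.  The linearly independent family `v` extends to a basis of `K^n` indexed by `Fin n`, with
`v j` at the place `ι j` (`LinearIndependent.extend`, or: linear maps between complements of the
spans, `Submodule.exists_isCompl`, `finrank`), so there is an invertible matrix `M` with these
columns.  `e = aeval (fun i => ∑ j, C (M i j) * X j)` (`= MvPolynomial.bind₁ M.toMvPolynomial`;
`Matrix.toMvPolynomial_mul`, `toMvPolynomial_one` give the inverse, from `M⁻¹`). -/
def S_DAU : Prop :=
  ∀ (K : Type) [Field K] (n m : ℕ) (ι : Fin m → Fin n) (v : Fin m → Fin n → K),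
    Function.Injective ι → LinearIndependent K v →
    ∃ (M : Matrix (Fin n) (Fin n) K) (e : MvPolynomial (Fin n) K ≃ₐ[K] MvPolynomial (Fin n) K),
      (∀ i j, M i (ι j) = v j i) ∧
      ∀ i, e (MvPolynomial.X i) = ∑ j, MvPolynomial.C (M i j) * MvPolynomial.X j

/-- **DSG** (normal form at a singular point).
Proof.  `S_DAU` with `m = 1`, `ι = 0`, `v = p`: `F' = e F` is homogeneous of degree three
(`IsHomogeneous.aeval` or so, the `e (X i)` are homogeneous of degree one).  With
`e₀ = (1, 0, ..., 0)`: `eval e₀ (e G) = eval p G` for all `G`; the chain rule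
`pderiv j (e F) = ∑ i, C (M i j) * e (pderiv i F)` (both sides are derivations along `e`; induction
on `F`) gives `eval e₀ (pderiv j F') = 0` for all `j`.  So the coefficients of `x_0 ^ 3` and
`x_0 ^ 2 x_j` in `F'` are zero (for a form of degree three and `j ≠ 0` the value of `pderiv j F'` at
`e₀` is the coefficient of `x_0 ^ 2 x_j`, and `eval e₀ F'` is the coefficient of `x_0 ^ 3`).
`finSuccEquiv F'` has coefficients `c_i`, homogeneous of degree `3 - i`, `c_i = 0` for `i > 3`
(see R_LIN, C_HCH); `c_3 = c_2 = 0`; `Q = c_1`, `H = c_0`. -/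
def S_DSG : Prop :=
  ∀ (K : Type) [Field K] (n : ℕ) (F : MvPolynomial (Fin (n + 1)) K) (p : Fin (n + 1) → K),
    F.IsHomogeneous 3 → p ≠ 0 → MvPolynomial.eval p F = 0 →
    (∀ i, MvPolynomial.eval p (MvPolynomial.pderiv i F) = 0) →
    ∃ (Q H : MvPolynomial (Fin n) K)
      (e : MvPolynomial (Fin (n + 1)) K ≃ₐ[K] (MvPolynomial (Fin n) K)[X]),
      Q.IsHomogeneous 2 ∧ H.IsHomogeneous 3 ∧ e F = C Q * X + C H

def M_DSG : Prop := S_DAU → S_DSG

/-- `F` vanishes on a line over the extension `L` of `K`. -/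
def HasLine {K : Type} [Field K] {n : ℕ} (F : MvPolynomial (Fin n) K) (L : Type) [Field L]
    [Algebra K L] : Prop :=
  ∃ p q : Fin n → L, LinearIndependent L ![p, q] ∧
    MvPolynomial.aeval (fun i => MvPolynomial.C (p i) * MvPolynomial.X 0 +
      MvPolynomial.C (q i) * MvPolynomial.X 1 : Fin n → MvPolynomial (Fin 2) L) F = 0

/-- **DCG**: a cubic form which vanishes on the linear subspace `y_0 = ... = y_a = 0` is of the form
`lcub G`.
Proof.  Every monomial of `F` is `y^α x^ν`, `|α| + |ν| = 3`, `α ≠ 0`, so `|ν| ≤ 2`.  Let `G` be the sum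
over the monomials `y^α x^ν` of `F` with coefficient `c` of `c y^α x_0 ^ (2 - |ν|) x^ν`
(`monomial _ (monomial α c)`; the `x_j` of `F` is the variable `j + 1` of `G`).  By linearity of
`lcub` (it is a ring homomorphism `eval₂`) compute `lcub` of a single term.  `MvPolynomial.as_sum`,
`Finset.sum` over `F.support`. -/
def S_DCG : Prop :=
  ∀ (K : Type) [Field K] (a s : ℕ) (F : MvPolynomial (Fin (a + s + 1)) K), F.IsHomogeneous 3 →
    (∀ μ : Fin (a + s + 1) →₀ ℕ, (∀ i, i.1 ≤ a → μ i = 0) → MvPolynomial.coeff μ F = 0) →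
    ∃ G : MvPolynomial (Fin (s + 1)) (MvPolynomial (Fin (a + 1)) K), G.IsHomogeneous 2 ∧
      (∀ μ, (MvPolynomial.coeff μ G).IsHomogeneous (1 + μ 0)) ∧ lcub G = F

/-- **DNR** (normal form of a cubic form with a rational line).
Proof.  `S_DAU` with `m = 2`, `ι = ![a + 1, a + 2]`, `v = ![p, q]`.  `F' = e F` is homogeneous of degree
three, and the substitution `x_i ↦ 0` (`i ≤ a`), `x_(a+1) ↦ X 0`, `x_(a+2) ↦ X 1` maps `F'` to
`aeval (C (p i) X 0 + C (q i) X 1) F = 0` (composition of homomorphisms, check on the variables);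
so the monomials without `y` have coefficient zero (the substitution is injective on them: compare
the coefficients; every other monomial goes to zero).  `S_DCG` with `s = 2`. -/
def S_DNR : Prop :=
  ∀ (K : Type) [Field K] (a : ℕ) (F : MvPolynomial (Fin (a + 2 + 1)) K), F.IsHomogeneous 3 →
    HasLine F K →
    ∃ (G : MvPolynomial (Fin (2 + 1)) (MvPolynomial (Fin (a + 1)) K))
      (e : MvPolynomial (Fin (a + 2 + 1)) K ≃ₐ[K] MvPolynomial (Fin (a + 2 + 1)) K),
      G.IsHomogeneous 2 ∧ (∀ μ, (MvPolynomial.coeff μ G).IsHomogeneous (1 + μ 0)) ∧ e F = lcub G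

def M_DNR : Prop := S_DAU → S_DCG → S_DNR

/-- **DFC**: a polynomial of degree at most three is zero, irreducible, or such a product.
Proof.  If `F` is a unit: `F * 1`.  If `F = g h` with nonunits `g, h ≠ 0`: `deg g + deg h = deg F`
(`MvPolynomial.totalDegree_mul_of_isDomain`), `deg g, deg h ≥ 1` (degree zero: constant, a unit). -/
def S_DFC : Prop :=
  ∀ (K : Type) [Field K] (n : ℕ) (F : MvPolynomial (Fin n) K), F.totalDegree ≤ 3 →
    F = 0 ∨ Irreducible F ∨
      ∃ l q : MvPolynomial (Fin n) K, l.totalDegree ≤ 1 ∧ q.totalDegree ≤ 2 ∧ F = l * q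

/-- **DEX** (explicit form of `G` for `s = 2`).
Proof.  A quadratic form in three variables is the sum over its six monomials
(`MvPolynomial.as_sum` or `ext`; the exponents of degree two on `Fin 3`).  `A, B 1, B 2, ...` are the
coefficients; `lcub` is a ring homomorphism; `lgram` is computed by `pderiv` of the explicit form
(`QDF.lean`, O_QNO have lemmas on `lgram`). -/
def S_DEX : Prop :=
  ∀ (K : Type) [Field K] (a : ℕ) (G : MvPolynomial (Fin (2 + 1)) (MvPolynomial (Fin (a + 1)) K)),
    G.IsHomogeneous 2 → (∀ μ, (MvPolynomial.coeff μ G).IsHomogeneous (1 + μ 0)) →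
    ∃ A B₁ B₂ D₁ D₂ D₃ : MvPolynomial (Fin (a + 1)) K, A.IsHomogeneous 3 ∧ B₁.IsHomogeneous 2 ∧
      B₂.IsHomogeneous 2 ∧ D₁.IsHomogeneous 1 ∧ D₂.IsHomogeneous 1 ∧ D₃.IsHomogeneous 1 ∧
      lgram G = !![2 * A, B₁, B₂; B₁, 2 * D₁, D₂; B₂, D₂, 2 * D₃] ∧
      ∀ (ρ : MvPolynomial (Fin (a + 1)) K →ₐ[K] MvPolynomial (Fin (a + 2 + 1)) K),
        (∀ i, ρ (MvPolynomial.X i) = MvPolynomial.X ⟨i.1, by omega⟩) →
        ∀ x₁ x₂ : MvPolynomial (Fin (a + 2 + 1)) K, x₁ = MvPolynomial.X ⟨a + 1, by omega⟩ →
          x₂ = MvPolynomial.X ⟨a + 2, by omega⟩ →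
          lcub G = ρ A + ρ B₁ * x₁ + ρ B₂ * x₂ + ρ D₁ * x₁ ^ 2 + ρ D₂ * (x₁ * x₂) + ρ D₃ * x₂ ^ 2

/-- **DDT** (if the discriminant vanishes then there is a rational singular point).
Proof.  `S_DEX`; `M(y)`: the matrix `lgram G` evaluated at `y ∈ K^(a+1)`, `N(y)` its lower right 2 × 2
block (entries `2 D₁, D₂, 2 D₃`, linear in `y`).  For `y`, `z ∈ K`, `x ∈ K^2` the value of `lcub G` at
`p = (z y, x)` is `z g`, `2 g = v^T M(y) v`, `v = (z, x)`; its derivative with respect to `x_j` is
`z (M(y) v)_j`; with respect to `y_i` it is half of `v^T (∂_i M)(y) v` (use `A(z y) = z ^ 3 A(y)`,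
`(∂_i A)(z y) = z ^ 2 (∂_i A)(y)` etc.).
Case 1: `adj M(y) ≠ 0` for some `y`.  `det M(y) = 0`, so
`adj_ij adj_kl = adj_il adj_kj` (polynomial identity modulo the determinant), so some diagonal entry
`adj_jj ≠ 0`; let `v` be the column `j` of `adj M(y)`: `M(y) v = 0`, `v_i v_k = adj_jj adj_ik`,
`v^T (∂_i M)(y) v = adj_jj ∑ adj_kl ∂_i M_kl = adj_jj (∂_i det M)(y) = 0`.  So `p = (v_0 y, v_1, v_2)` is
singular; `p ≠ 0`: otherwise `v_1 = v_2 = 0`, `v_0 ≠ 0` (`v_j = adj_jj ≠ 0`), `y = 0`, `M(0) = 0`,
`adj = 0`.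
Case 2: `adj M(y) = 0` for all `y ∈ K^(a+1)`.  So `det N(y) = 0` for all `y`.  If `N = 0` on `K^(a+1)`:
`p = (0, 1, 0)`.  Otherwise let `N(y₀) ≠ 0`, `w = (N_12, -N_11)` or, if this is zero, `w = (1, 0)`, taken
at `y₀`.  `det N(y₀ + y) = 0` gives `N_11 N'_22 + N'_11 N_22 = 2 N_12 N'_12`, so `w^T N(y) w = 0` for
all `y`.  `p = (0, w)`: the value and the `x_j`-derivatives are zero (`z = 0`), the `y_i`-derivative is
half of `w^T N(e_i) w = 0` (`(∂_i D)(0) = D(e_i)` for linear `D`). -/
def S_DDT : Prop :=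
  ∀ (K : Type) [Field K] (a : ℕ) (G : MvPolynomial (Fin (2 + 1)) (MvPolynomial (Fin (a + 1)) K)),
    (2 : K) ≠ 0 → G.IsHomogeneous 2 →
    (∀ μ, (MvPolynomial.coeff μ G).IsHomogeneous (1 + μ 0)) → (lgram G).det = 0 →
    ∃ p : Fin (a + 2 + 1) → K, p ≠ 0 ∧ MvPolynomial.eval p (lcub G) = 0 ∧
      ∀ i, MvPolynomial.eval p (MvPolynomial.pderiv i (lcub G)) = 0

def M_DDT : Prop := S_DEX → S_DDT

/-- **DHM**: a nonzero form is not zero on the chart `x_0 = 1`.
Proof.  The coefficient of `x^ν` in `sp 1 f` is the coefficient of `x_0 ^ (m - |ν|) x^ν` in `f`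
(`MvPolynomial.as_sum`, or `finSuccEquiv` and evaluation at one). -/
def S_DHM : Prop :=
  ∀ (R : Type) [CommRing R] (n m : ℕ) (f : MvPolynomial (Fin (n + 1)) R), f.IsHomogeneous m →
    lsp (1 : R) f = 0 → f = 0

/-- **DFX** (a fixed point in the ring of power series).
Proof.  `v_0 = 0`, `v_(n+1) = t Φ(v_n)`.  `v_(n+1) - v_n` is divisible by `t ^ (n+1)` (if
`u - u'` is divisible by `t ^ n`, then so is `Φ(u) - Φ(u')`: `Ideal.Quotient` or
`MvPolynomial.aeval` commutes with the quotient map).  `v = mk (fun n => coeff n (v_(n+1)))` satisfies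
`v ≡ v_n` modulo `t ^ n` for all `n`, so `v ≡ t Φ(v)` modulo `t ^ n` for all `n`. -/
def S_DFX : Prop :=
  ∀ (K : Type) [Field K] (m : ℕ) (Φ : Fin m → MvPolynomial (Fin m) K),
    ∃ v : Fin m → PowerSeries K, ∀ i, v i = PowerSeries.X * MvPolynomial.aeval v (Φ i)

/-- **DDF** (a line on a deformation of the form `x_2 x_0 ^ 2 + x_3 x_1 ^ 2`).
Proof.  `Ω = FractionRing (PowerSeries K)`, `t = X`.  For unknown `v = (v_0, v_1, v_2, v_3)` let
`p = (1, 0, v_0, v_2)`, `q = (0, 1, v_1, v_3)`, so that `x_2 x_0 ^ 2 + x_3 x_1 ^ 2` at `p X_0 + q X_1` is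
`v_0 X_0 ^ 3 + v_1 X_0 ^ 2 X_1 + v_2 X_0 X_1 ^ 2 + v_3 X_1 ^ 3`, and `F` at `p X_0 + q X_1` is
`∑ Φ_j(v) X_0 ^ (3 - j) X_1 ^ j`, `Φ_j ∈ K[v_0, ..., v_3]` (substitute first over
`K[v_0, ..., v_3]`; a form of degree three in two variables, so only these monomials).  `S_DFX` for
`- Φ_j`.  `p, q` are linearly independent (first two coordinates). -/
def S_DDF : Prop :=
  ∀ (K : Type) [Field K] (F : MvPolynomial (Fin 4) K), F.IsHomogeneous 3 →
    ∃ (Ω : Type) (_ : Field Ω) (_ : Algebra K Ω) (t : Ω), Transcendental K t ∧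
      HasLine (MvPolynomial.X 2 * MvPolynomial.X 0 ^ 2 + MvPolynomial.X 3 * MvPolynomial.X 1 ^ 2 +
        MvPolynomial.C t * MvPolynomial.map (algebraMap K Ω) F) Ω

def M_DDF : Prop := S_DFX → S_DDF

/-- **DVL** (specialisation `t → ∞` of a line).
Proof.  `s = t⁻¹` is transcendental over `K`; in the subring `A = K[s]` of `Ω` (`Algebra.adjoin`) the
ideal `(s)` is not the unit ideal, so there is a valuation subring `V` of `Ω` which contains `A` with
`s` in its maximal ideal (`Ideal.image_subset_nonunits_valuationSubring`).  `κ = ` residue field of `V`,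
an extension of `K`.  Let `p, q` be the linearly independent vectors.  Divide `p` by a coordinate
`p_i` of maximal valuation: all coordinates in `V` and `p_i = 1`; replace `q` by `q - q_i p`, not zero,
and divide it by a coordinate `q_j` of maximal valuation: `q_i = 0`, `q_j = 1`, all coordinates in `V`
(`F` still vanishes on the line: substitution in `X_0, X_1`, or evaluate `F` at `X_0 p + X_1 q` where
`X_0, X_1` are arbitrary elements of `Ω[X_0, X_1]`).  The residues are linearly independent
(`i, j` coordinates).  `s F₀ + F` vanishes at `p X_0 + q X_1` in `V[X_0, X_1]` (a subring of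
`Ω[X_0, X_1]`), so its residue `F` vanishes at the residue of `p X_0 + q X_1`. -/
def S_DVL : Prop :=
  ∀ (K Ω : Type) [Field K] [Field Ω] [Algebra K Ω] (n : ℕ) (F₀ F : MvPolynomial (Fin n) K) (t : Ω),
    Transcendental K t →
    HasLine (MvPolynomial.map (algebraMap K Ω) F₀ +
      MvPolynomial.C t * MvPolynomial.map (algebraMap K Ω) F) Ω →
    ∃ (κ : Type) (_ : Field κ) (_ : Algebra K κ), HasLine F κ

/-- **DTR** (from an arbitrary extension to a finite extension).
Proof.  As in `S_DVL` (without valuation) one may assume `p_i = 1`, `q_i = 0`, `q_j = 1` and `p_j = 0`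
(replace `p` by `p - p_j q`), `i ≠ j`.  Let `B = K[u_1, ..., u_n, w_1, ..., w_n]` modulo
`u_i - 1, u_j, w_i, w_j - 1` and the coefficients of `F(u X_0 + w X_1)`.  There is a homomorphism
`B → L`, so `B` is not zero; let `m` be a maximal ideal, `K' = B / m`, finite over `K`
(`finite_of_finite_type_of_isJacobsonRing`).  (Simpler: let `B` be the `K`-subalgebra of `L` generated
by all `p_i, q_i`, of finite type; `F(p X_0 + q X_1) = 0` in `B[X_0, X_1]`; reduce modulo a maximal
ideal of `B`.) -/
def S_DTR : Prop :=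
  ∀ (K L : Type) [Field K] [Field L] [Algebra K L] (n : ℕ) (F : MvPolynomial (Fin n) K),
    HasLine F L → ∃ (K' : Type) (_ : Field K') (_ : Algebra K K'), Module.Finite K K' ∧ HasLine F K'

/-- **DLN**: every cubic form in at least four variables vanishes on a line over a finite extension.
Proof.  Let `F'` be obtained from `F` by `x_i ↦ 0` for `i ≥ 4`, a cubic form in four variables.
`S_DDF`, `S_DVL` with `F₀ = x_2 x_0 ^ 2 + x_3 x_1 ^ 2` (`map` of it is the form in `S_DDF`), `S_DTR` give a
line of `F'` over `K'`; extend `p, q` by zero. -/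
def S_DLN : Prop :=
  ∀ (K : Type) [Field K] (n : ℕ) (F : MvPolynomial (Fin n) K), 4 ≤ n → F.IsHomogeneous 3 →
    ∃ (K' : Type) (_ : Field K') (_ : Algebra K K'), Module.Finite K K' ∧ HasLine F K'

def M_DLN : Prop := S_DDF → S_DVL → S_DTR → S_DLN

/-- **DBC** (base change of an affine variety to a finite extension).
Proof.  `ER (map F)` is `(ER F) ⊗ K` (`MvPolynomial.algebraTensorAlgEquiv`, quotients; or construct
the homomorphisms in both directions as in R_DRI).  The algebra structure on `ER (map F)` is that of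
the homomorphism `ER F → ER (map F)`.  `K` is separable over the perfect field `k`, so etale
(`Algebra.FormallyEtale.iff_isSeparable`, `Algebra.FormallyEtale.of_isSeparable`, and finitely
presented), base change (`Algebra.Etale.baseChange`); it is finite and free over `ER F` of positive
rank (`Module.Finite.base_change`, `Module.FaithfullyFlat` or `Module.Free`), so injective. -/
def S_DBC : Prop :=
  ∀ (k K : Type) [Field k] [PerfectField k] [Field K] [Algebra k K] [Module.Finite k K] (n : ℕ)
    (F : MvPolynomial (Fin n) k),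
    ∃ (_ : Algebra (MvPolynomial (Fin n) k ⧸
        Ideal.span (Set.range fun _ : Fin 1 => F)) (MvPolynomial (Fin n) K ⧸
        Ideal.span (Set.range fun _ : Fin 1 => MvPolynomial.map (algebraMap k K) F))),
      IsScalarTower k (MvPolynomial (Fin n) k ⧸
        Ideal.span (Set.range fun _ : Fin 1 => F)) (MvPolynomial (Fin n) K ⧸
        Ideal.span (Set.range fun _ : Fin 1 => MvPolynomial.map (algebraMap k K) F)) ∧
      Module.Finite (MvPolynomial (Fin n) k ⧸
        Ideal.span (Set.range fun _ : Fin 1 => F)) (MvPolynomial (Fin n) K ⧸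
        Ideal.span (Set.range fun _ : Fin 1 => MvPolynomial.map (algebraMap k K) F)) ∧
      Algebra.Etale (MvPolynomial (Fin n) k ⧸
        Ideal.span (Set.range fun _ : Fin 1 => F)) (MvPolynomial (Fin n) K ⧸
        Ideal.span (Set.range fun _ : Fin 1 => MvPolynomial.map (algebraMap k K) F)) ∧
      Function.Injective (algebraMap (MvPolynomial (Fin n) k ⧸
        Ideal.span (Set.range fun _ : Fin 1 => F)) (MvPolynomial (Fin n) K ⧸
        Ideal.span (Set.range fun _ : Fin 1 => MvPolynomial.map (algebraMap k K) F)))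

/-- **DHG** (homogenisation).
Proof.  `F` is the sum over the monomials `μ` of `f` of `coeff μ f * x_0 ^ (m - |μ|) * x^μ`
(variables shifted by `Fin.succ`). -/
def S_DHG : Prop :=
  ∀ (R : Type) [CommRing R] (n m : ℕ) (f : MvPolynomial (Fin n) R), f.totalDegree ≤ m →
    ∃ F : MvPolynomial (Fin (n + 1)) R, F.IsHomogeneous m ∧ lsp (1 : R) F = f

end QCV
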