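import Mathlib
import Pool.Agent.QCV.StD1

/-!
# QCV, block U: statements (universality of systems of quadratic forms), part 1 (only Mathlib)

Every polynomial `g ∈ R[t_1, ..., t_m]` is, after addition of hyperbolic planes, the generic member
`f_0 + t_1 f_1 + ... + t_m f_m` of a linear system of quadratic forms over `R`: there are quadratic forms
`f_0, ..., f_m` in `1 + 2 s` variables over `R` and an invertible matrix over `R[t]` which transforms
`g x_0 ^ 2 + u_1 v_1 + ... + u_s v_s` into `f_0 + t_1 f_1 + ... + t_m f_m`.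
-/

set_option autoImplicit false

namespace QCV

/-- The form `f_0 + t_1 f_1 + ... + t_q f_q` over `R[t_1, ..., t_q]` (a copy of `gen`, DefsO). -/
noncomputable def lgen {R : Type} [CommRing R] {n q : ℕ}
    (f : Fin (q + 1) → MvPolynomial (Fin n) R) : MvPolynomial (Fin n) (MvPolynomial (Fin q) R) :=
  MvPolynomial.map MvPolynomial.C (f 0) +
    ∑ j, MvPolynomial.C (MvPolynomial.X j) * MvPolynomial.map MvPolynomial.C (f j.succ)

/-- The linear substitution `x_i ↦ ∑_j P_(ij) x_j`. -/
noncomputable def lsub {B : Type} [CommRing B] {n : ℕ} (P : Matrix (Fin n) (Fin n) B) :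
    MvPolynomial (Fin n) B →ₐ[B] MvPolynomial (Fin n) B :=
  MvPolynomial.aeval fun i => ∑ j, MvPolynomial.C (P i j) * MvPolynomial.X j

/-- The form `φ + u_0 v_0 + ... + u_(s-1) v_(s-1)`; the new variables are `u_i = x_(n + 2 i)` and
`v_i = x_(n + 2 i + 1)`. -/
noncomputable def hyp {B : Type} [CommRing B] {n : ℕ} (φ : MvPolynomial (Fin n) B) (s : ℕ) :
    MvPolynomial (Fin (n + 2 * s)) B :=
  MvPolynomial.rename (Fin.castAdd (2 * s)) φ +
    ∑ i : Fin s, MvPolynomial.X ⟨n + 2 * i.1, by omega⟩ * MvPolynomial.X ⟨n + 2 * i.1 + 1, by omega⟩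

/-- The form `φ` is, after addition of hyperbolic planes, the generic member of a linear system of
quadratic forms over `R`. -/
def LinZ {R : Type} [CommRing R] {m n : ℕ} (φ : MvPolynomial (Fin n) (MvPolynomial (Fin m) R)) :
    Prop :=
  ∃ (s : ℕ) (f : Fin (m + 1) → MvPolynomial (Fin (n + 2 * s)) R)
    (P : Matrix (Fin (n + 2 * s)) (Fin (n + 2 * s)) (MvPolynomial (Fin m) R)),
    (∀ j, (f j).IsHomogeneous 2) ∧ IsUnit P.det ∧ lsub P (hyp φ s) = lgen f

/-- **ULC** (composition): if `φ + u v` is transformed into `ψ` and `LinZ ψ` then `LinZ φ`.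
Proof.  `ψ` has `n + 2` variables.  Let `s, f, P` be as in `LinZ ψ`; take `s + 1`
(`n + 2 * (s + 1) = n + 2 + 2 * s`: rename along the equivalence `Fin.castOrderIso`/`finCongr`).
`hyp φ (s + 1)` is `hyp (hyp φ 1) s` (renamed; the last `s` planes are the same, sums over
`Fin (s + 1)`: `Fin.sum_univ_succ`), `Q ⊕ 1` (block matrix) transforms it into `hyp ψ s`
(`lsub (Q ⊕ 1) (rename castAdd χ) = rename castAdd (lsub Q χ)`), then `P` into `lgen f`; the product of
the matrices in the right order (`lsub P ∘ lsub Q' = lsub (Q' * P)`), determinant a unit.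
(Suggestion: first replace `Fin (n + 2 * s)` by an arbitrary finite type, `f` and `P` by `rename` and
`Matrix.reindex`; all notions are compatible with `MvPolynomial.renameEquiv`.) -/
def S_ULC : Prop :=
  ∀ (R : Type) [CommRing R] (m n : ℕ) (φ : MvPolynomial (Fin n) (MvPolynomial (Fin m) R))
    (ψ : MvPolynomial (Fin (n + 2 * 1)) (MvPolynomial (Fin m) R))
    (Q : Matrix (Fin (n + 2 * 1)) (Fin (n + 2 * 1)) (MvPolynomial (Fin m) R)), IsUnit Q.det →
    lsub Q (hyp φ 1) = ψ → LinZ ψ → LinZ φ

/-- **ULS** (one step).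
Proof.  `φ = ρ + a b x_i x_j`.  Let `u = x_n`, `v = x_(n+1)`.  The substitution `u ↦ u - a x_i`,
`v ↦ v + b x_j`, `x_l ↦ x_l` maps `u v + a b x_i x_j` to `u v + b u x_j - a v x_i`.  Its matrix `Q` is the
identity plus `- a` at the place `(n, i)` and `b` at the place `(n + 1, j)`, unitriangular, so
`det Q = 1` (`Matrix.det_of_lowerTriangular`, or product of two transvections). -/
def S_ULS : Prop :=
  ∀ (B : Type) [CommRing B] (n : ℕ) (ρ : MvPolynomial (Fin n) B) (a b : B) (i j : Fin n),
    ∃ Q : Matrix (Fin (n + 2 * 1)) (Fin (n + 2 * 1)) B, IsUnit Q.det ∧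
      lsub Q (hyp (ρ + MvPolynomial.C (a * b) * (MvPolynomial.X i * MvPolynomial.X j)) 1) =
        MvPolynomial.rename (Fin.castAdd (2 * 1)) ρ +
          MvPolynomial.X ⟨n, by omega⟩ * MvPolynomial.X ⟨n + 1, by omega⟩ +
          MvPolynomial.C b * (MvPolynomial.X ⟨n, by omega⟩ * MvPolynomial.X (Fin.castAdd (2 * 1) j)) +
          MvPolynomial.C (-a) *
            (MvPolynomial.X ⟨n + 1, by omega⟩ * MvPolynomial.X (Fin.castAdd (2 * 1) i))

/-- **ULZ** (linearisation).
Proof.  For a list `L` of terms `(μ, c, i, j)`, `μ : Fin m →₀ ℕ`, `c : R`, `i j : Fin n`, let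
`φ_L = ∑ C (monomial μ c) * (X i * X j)` and `M(L) = ∑ (|μ| - 1)` (`|μ| = Finsupp.degree μ`, truncated
subtraction).  Claim: `LinZ φ_L`, by strong induction on `M(L)`, for all `n`.  If all `|μ| ≤ 1`:
`s = 0`, `P = 1`, `φ_L = lgen f` with `f_0` the sum of the terms `c x_i x_j` with `μ = 0` and `f_(l+1)` the
sum of those with `μ = single l 1`.  Otherwise there is a term with `|μ| ≥ 2` (move it to the front:
`List.perm`, the sum does not change), `μ = ν + single l 1`; `S_ULS` with `a = monomial ν 1`,
`b = monomial (single l 1) c`, `ρ = φ_(L')`; the result is `φ_(L'')`, where `L''` is `L'` (renamed) and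
the terms `(0, 1, n, n + 1)`, `(single l 1, c, n, j)`, `(ν, -1, n + 1, i)`, `M(L'') = M(L') + |ν| - 1 <
M(L)`; `S_ULC`.  Finally every form of degree two over `R[t]` is a `φ_L`: `MvPolynomial.as_sum` for
the form and for its coefficients; monomials of degree two are products of two variables. -/
def S_ULZ : Prop :=
  ∀ (R : Type) [CommRing R] (m n : ℕ) (φ : MvPolynomial (Fin n) (MvPolynomial (Fin m) R)),
    φ.IsHomogeneous 2 → LinZ φ

def M_ULZ : Prop := S_ULC → S_ULS → S_ULZ

/-- **UGM** (the matrix of second derivatives after a linear substitution).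
Proof.  Both sides are additive in `φ` and compatible with multiplication by `C c`, so take
`φ = X a * X b` (`MvPolynomial.as_sum`, monomials of degree two); or chain rule
`pderiv j (lsub P φ) = ∑ i, C (P i j) * lsub P (pderiv i φ)` twice, `coeff 0 (lsub P ψ) = coeff 0 ψ`
(`lsub P` maps the variables to forms of degree one). -/
def S_UGM : Prop :=
  ∀ (B : Type) [CommRing B] (n : ℕ) (φ : MvPolynomial (Fin n) B) (P : Matrix (Fin n) (Fin n) B),
    φ.IsHomogeneous 2 → lgram (lsub P φ) = P.transpose * lgram φ * P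

/-- **UDT** (the discriminant).
Proof.  Induction on `s`, for `φ` with determinant not zero in `n` variables: `lgram (hyp φ (s + 1))`
is (after `Fin.castOrderIso`) the block matrix with the blocks `lgram (hyp φ s)` and `!![0, 1; 1, 0]`,
so the determinant is multiplied by `-1`.  Or directly: `lgram (hyp φ s)` is the block diagonal matrix
`fromBlocks (lgram φ) 0 0 J` on `Fin n ⊕ Fin (2 * s)`, and `J * J = 1`, so `det J` is a unit
(`Matrix.det_fromBlocks_zero₂₁`).  For `n = 1`, `φ = g x_0 ^ 2`: `lgram φ = (2 g)`. -/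
def S_UDT : Prop :=
  ∀ (B : Type) [CommRing B] [IsDomain B] (g : B) (s : ℕ), (2 : B) ≠ 0 → g ≠ 0 →
    (lgram (hyp (MvPolynomial.C g * MvPolynomial.X 0 ^ 2 : MvPolynomial (Fin 1) B) s)).det ≠ 0

/-- **USB** (an invertible linear substitution induces an isomorphism of the quotients).
Proof.  `lsub P` is an automorphism with inverse `lsub P⁻¹` (`lsub P (lsub Q φ) = lsub (Q * P) φ`, check
on the variables); `Ideal.quotientEquivAlg` for the ideals generated by `ψ` and by `lsub P ψ`,
restricted to `k`. -/
def S_USB : Prop :=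
  ∀ (k B : Type) [Field k] [CommRing B] [Algebra k B] (n : ℕ) (ψ : MvPolynomial (Fin n) B)
    (P : Matrix (Fin n) (Fin n) B), IsUnit P.det →
    Nonempty ((MvPolynomial (Fin n) B ⧸ Ideal.span (Set.range fun _ : Fin 1 => lsub P ψ)) ≃ₐ[k]
      (MvPolynomial (Fin n) B ⧸ Ideal.span (Set.range fun _ : Fin 1 => ψ)))

/-- **UHA** (commutative algebra: an integral domain is birational to a hypersurface).
Proof.  `K = FractionRing A` is a finitely generated extension of the perfect field `k`, so there is a
separating transcendence basis (`exists_isTranscendenceBasis_and_isSeparable_of_perfectField`, or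
`Mathlib/FieldTheory/SeparablyGenerated.lean`), of cardinality `trdeg k A = r`, and a primitive element
`α` (`Field.exists_primitive_element`).  So `K` is the fraction field of the subring
`k[t_1, ..., t_r, α]`, where the `t_i` are algebraically independent; multiplying by denominators one
may assume `t_i, α ∈ A`... (the `t_i` are quotients `a_i / s` of elements of `A`; use the localisation
`A_s` in place of `A`).  The kernel of `MvPolynomial (Fin (r + 1)) k → A_s`, `x_0 ↦ α`, `x_(i+1) ↦ t_i`, is
a prime of height one (transcendence degree; `MvPolynomial` is a UFD), so generated by one element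
`g`.  As `A` is of finite type over `k`, its generators are quotients with one denominator
`h ∈ k[x] / (g)`, so `(k[x] / (g))_h ≃ A_a` for some `a ≠ 0`. -/
def S_UHA : Prop :=
  ∀ (k A : Type) [Field k] [PerfectField k] [CommRing A] [IsDomain A] [Algebra k A]
    [Algebra.FiniteType k A] (r : ℕ), Algebra.trdeg k A = r →
    ∃ (g : MvPolynomial (Fin (r + 1)) k) (a : A)
      (h : MvPolynomial (Fin (r + 1)) k ⧸ Ideal.span {g}), a ≠ 0 ∧
      Nonempty (Localization.Away h ≃ₐ[k] Localization.Away a)

end QCV
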