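import Mathlib
import Pool.Agent.QCV.StU1

/-!
# QCV, block U, module ULZ (linearisation)

Every form of degree two over `R[t_1, ..., t_m]` is, after addition of hyperbolic planes, the generic
member of a linear system of quadratic forms over `R`.
-/

set_option autoImplicit false

namespace QCV

namespace ULZ

open MvPolynomial

variable {R : Type} [CommRing R] {m : ℕ}

/-- A term `c t^μ x_i x_j`. -/
noncomputable def term {n : ℕ} (t : (Fin m →₀ ℕ) × R × Fin n × Fin n) :
    MvPolynomial (Fin n) (MvPolynomial (Fin m) R) :=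
  C (monomial t.1 t.2.1) * (X t.2.2.1 * X t.2.2.2)

/-- The sum of the terms of a multiset. -/
noncomputable def phi {n : ℕ} (S : Multiset ((Fin m →₀ ℕ) × R × Fin n × Fin n)) :
    MvPolynomial (Fin n) (MvPolynomial (Fin m) R) :=
  (S.map term).sum

/-- The measure of a multiset of terms. -/
noncomputable def meas {n : ℕ} (S : Multiset ((Fin m →₀ ℕ) × R × Fin n × Fin n)) : ℕ :=
  (S.map fun t => Finsupp.degree t.1 - 1).sum

theorem deg_one {n : ℕ} (d : Fin n →₀ ℕ) (hd : Finsupp.degree d = 1) :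
    ∃ i : Fin n, d = Finsupp.single i 1 := by
  have hd0 : d ≠ 0 := by
    intro h
    rw [h] at hd
    simp at hd
  obtain ⟨l, hl⟩ : ∃ l, d l ≠ 0 := by
    by_contra h
    push Not at h
    exact hd0 (Finsupp.ext h)
  obtain ⟨ν, hν⟩ : ∃ ν : Fin n →₀ ℕ, d = ν + Finsupp.single l 1 := by
    refine ⟨d - Finsupp.single l 1, ?_⟩
    rw [tsub_add_cancel_of_le]
    rw [Finsupp.single_le_iff]
    omega
  have hdeg : Finsupp.degree d = Finsupp.degree ν + 1 := by
    rw [hν, map_add, Finsupp.degree_single]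
  have h0 : ν = 0 := (Finsupp.degree_eq_zero_iff ν).1 (by omega)
  exact ⟨l, by rw [hν, h0, zero_add]⟩

theorem lsub_one {B : Type} [CommRing B] {n : ℕ} (φ : MvPolynomial (Fin n) B) :
    lsub (1 : Matrix (Fin n) (Fin n) B) φ = φ := by
  have h : (lsub (1 : Matrix (Fin n) (Fin n) B)) = AlgHom.id B _ := by
    apply MvPolynomial.algHom_ext
    intro i
    rw [lsub, aeval_X]
    rw [Finset.sum_eq_single i]
    · simp
    · intro j _ hj
      rw [Matrix.one_apply_ne (Ne.symm hj)]
      simp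
    · intro h
      exact absurd (Finset.mem_univ i) h
  rw [h]
  rfl

theorem linZ_of_lgen {n : ℕ} (f : Fin (m + 1) → MvPolynomial (Fin n) R)
    (hf : ∀ j, (f j).IsHomogeneous 2) : LinZ (lgen f) := by
  refine ⟨0, f, 1, hf, ?_, ?_⟩
  · rw [Matrix.det_one]
    exact isUnit_one
  · have h : hyp (lgen f) 0 = lgen f := by
      have h1 : hyp (lgen f) 0 = rename (Fin.castAdd (2 * 0)) (lgen f) := by
        rw [hyp, Finset.univ_eq_empty, Finset.sum_empty, add_zero]
      rw [h1]
      exact rename_id_apply (lgen f)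
    exact (lsub_one (hyp (lgen f) 0)).trans h

theorem lgen_add {n : ℕ} (f g : Fin (m + 1) → MvPolynomial (Fin n) R) :
    lgen (f + g) = lgen f + lgen g := by
  simp only [lgen, Pi.add_apply, map_add, mul_add, Finset.sum_add_distrib]
  ring

theorem lgen_zero {n : ℕ} : lgen (0 : Fin (m + 1) → MvPolynomial (Fin n) R) = 0 := by
  simp [lgen]

theorem term_lgen {n : ℕ} (t : (Fin m →₀ ℕ) × R × Fin n × Fin n) (ht : Finsupp.degree t.1 ≤ 1) :
    ∃ f : Fin (m + 1) → MvPolynomial (Fin n) R, (∀ j, (f j).IsHomogeneous 2) ∧ term t = lgen f := by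
  obtain ⟨μ, c, i, j⟩ := t
  have hhom : (C c * (X i * X j) : MvPolynomial (Fin n) R).IsHomogeneous 2 := by
    have h := (isHomogeneous_C (Fin n) c).mul ((isHomogeneous_X R i).mul (isHomogeneous_X R j))
    exact h
  have hall : ∀ l : Fin (m + 1), ∀ k,
      ((Pi.single l (C c * (X i * X j)) : Fin (m + 1) → MvPolynomial (Fin n) R) k).IsHomogeneous 2 := by
    intro l k
    by_cases h : k = l
    · subst h
      rw [Pi.single_eq_same]
      exact hhom
    · rw [Pi.single_eq_of_ne h]
      exact isHomogeneous_zero _ _ _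
  simp only at ht
  rcases Nat.lt_or_ge (Finsupp.degree μ) 1 with h0 | h1
  · have h00 : Finsupp.degree μ = 0 := by omega
    have hμ : μ = 0 := (Finsupp.degree_eq_zero_iff μ).1 h00
    subst hμ
    refine ⟨Pi.single 0 (C c * (X i * X j)), hall 0, ?_⟩
    rw [lgen, Pi.single_eq_same, Finset.sum_eq_zero, add_zero]
    · simp [term]
    · intro k _
      rw [Pi.single_eq_of_ne (Fin.succ_ne_zero k)]
      simp
  · have h11 : Finsupp.degree μ = 1 := by omega
    obtain ⟨l, hl⟩ := deg_one μ h11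
    subst hl
    refine ⟨Pi.single l.succ (C c * (X i * X j)), hall l.succ, ?_⟩
    rw [lgen, Pi.single_eq_of_ne (Fin.succ_ne_zero l).symm, Finset.sum_eq_single l]
    · rw [Pi.single_eq_same]
      simp only [term, map_zero, zero_add, map_mul, map_C, map_X]
      rw [← C_mul_X_eq_monomial, map_mul]
      ring
    · intro k _ hk
      rw [Pi.single_eq_of_ne (fun h => hk (Fin.succ_injective _ h))]
      simp
    · intro h
      exact absurd (Finset.mem_univ l) h

theorem base {n : ℕ} (S : Multiset ((Fin m →₀ ℕ) × R × Fin n × Fin n)) :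
    (∀ t ∈ S, Finsupp.degree t.1 ≤ 1) →
    ∃ f : Fin (m + 1) → MvPolynomial (Fin n) R, (∀ j, (f j).IsHomogeneous 2) ∧ phi S = lgen f := by
  induction S using Multiset.induction_on with
  | empty =>
    intro _
    refine ⟨0, fun j => isHomogeneous_zero _ _ _, ?_⟩
    rw [lgen_zero]
    simp [phi]
  | cons t S ih =>
    intro h
    obtain ⟨f, hf, hf'⟩ := ih (fun u hu => h u (Multiset.mem_cons_of_mem hu))
    obtain ⟨g, hg, hg'⟩ := term_lgen t (h t (Multiset.mem_cons_self t S))
    refine ⟨g + f, fun j => (hg j).add (hf j), ?_⟩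
    rw [lgen_add, ← hf', ← hg']
    simp [phi]

/-- The renaming of a term. -/
def ren {n : ℕ} (t : (Fin m →₀ ℕ) × R × Fin n × Fin n) :
    (Fin m →₀ ℕ) × R × Fin (n + 2 * 1) × Fin (n + 2 * 1) :=
  (t.1, t.2.1, Fin.castAdd (2 * 1) t.2.2.1, Fin.castAdd (2 * 1) t.2.2.2)

theorem term_ren {n : ℕ} (t : (Fin m →₀ ℕ) × R × Fin n × Fin n) :
    term (ren t) = rename (Fin.castAdd (2 * 1)) (term t) := by
  simp [term, ren]

theorem phi_ren {n : ℕ} (S : Multiset ((Fin m →₀ ℕ) × R × Fin n × Fin n)) :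
    phi (S.map ren) = rename (Fin.castAdd (2 * 1)) (phi S) := by
  rw [phi, phi, map_multiset_sum, Multiset.map_map, Multiset.map_map]
  congr 1
  apply Multiset.map_congr rfl
  intro t _
  exact term_ren t

theorem meas_ren {n : ℕ} (S : Multiset ((Fin m →₀ ℕ) × R × Fin n × Fin n)) :
    meas (S.map ren) = meas S := by
  rw [meas, meas, Multiset.map_map]
  rfl

theorem linZ_phi (hC : S_ULC) (hS : S_ULS) (N : ℕ) :
    ∀ (n : ℕ) (S : Multiset ((Fin m →₀ ℕ) × R × Fin n × Fin n)), meas S = N → LinZ (phi S) := by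
  induction N using Nat.strong_induction_on with
  | _ N ih =>
    intro n S hN
    by_cases hall : ∀ t ∈ S, Finsupp.degree t.1 ≤ 1
    · obtain ⟨f, hf, hf'⟩ := base S hall
      rw [hf']
      exact linZ_of_lgen f hf
    · push Not at hall
      obtain ⟨t, htS, ht⟩ := hall
      obtain ⟨S', rfl⟩ := Multiset.exists_cons_of_mem htS
      obtain ⟨μ, c, i, j⟩ := t
      simp only at ht
      have hμ0 : μ ≠ 0 := by
        intro h
        rw [h] at ht
        simp at ht
      obtain ⟨l, hl⟩ : ∃ l, μ l ≠ 0 := by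
        by_contra h
        push Not at h
        exact hμ0 (Finsupp.ext h)
      obtain ⟨ν, hν⟩ : ∃ ν : Fin m →₀ ℕ, μ = ν + Finsupp.single l 1 := by
        refine ⟨μ - Finsupp.single l 1, ?_⟩
        rw [tsub_add_cancel_of_le]
        rw [Finsupp.single_le_iff]
        omega
      have hdeg : Finsupp.degree μ = Finsupp.degree ν + 1 := by
        rw [hν, map_add, Finsupp.degree_single]
      obtain ⟨Q, hQ, hQe⟩ := hS (MvPolynomial (Fin m) R) n (phi S') (monomial ν 1)
        (monomial (Finsupp.single l 1) c) i j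
      have hphi : phi ((μ, c, i, j) ::ₘ S') =
          phi S' + C (monomial ν 1 * monomial (Finsupp.single l 1) c) * (X i * X j) := by
        rw [monomial_mul, ← hν, one_mul, phi, Multiset.map_cons, Multiset.sum_cons, add_comm]
        rfl
      rw [hphi]
      refine hC R m n _ _ Q hQ hQe ?_
      have hψ : rename (Fin.castAdd (2 * 1)) (phi S') +
          X ⟨n, by omega⟩ * X ⟨n + 1, by omega⟩ +
          C (monomial (Finsupp.single l 1) c) * (X ⟨n, by omega⟩ * X (Fin.castAdd (2 * 1) j)) +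
          C (-monomial ν 1) * (X ⟨n + 1, by omega⟩ * X (Fin.castAdd (2 * 1) i)) =
          phi (((0 : Fin m →₀ ℕ), (1 : R), (⟨n, by omega⟩ : Fin (n + 2 * 1)),
              (⟨n + 1, by omega⟩ : Fin (n + 2 * 1))) ::ₘ
            (Finsupp.single l 1, c, (⟨n, by omega⟩ : Fin (n + 2 * 1)), Fin.castAdd (2 * 1) j) ::ₘ
            (ν, -1, (⟨n + 1, by omega⟩ : Fin (n + 2 * 1)), Fin.castAdd (2 * 1) i) ::ₘ
            S'.map ren) := by
        rw [← phi_ren]
        simp only [phi, Multiset.map_cons, Multiset.sum_cons]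
        simp only [term, monomial_zero', map_one, one_mul, map_neg]
        ring
      rw [hψ]
      refine ih _ ?_ _ _ rfl
      rw [← hN]
      simp only [meas, Multiset.map_cons, Multiset.sum_cons]
      have hr := meas_ren S'
      simp only [meas] at hr
      rw [hr, Finsupp.degree_single, map_zero]
      omega

/-- The forms which are sums of terms. -/
def IsPhi {n : ℕ} (φ : MvPolynomial (Fin n) (MvPolynomial (Fin m) R)) : Prop :=
  ∃ S : Multiset ((Fin m →₀ ℕ) × R × Fin n × Fin n), phi S = φ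

theorem isPhi_zero {n : ℕ} : IsPhi (0 : MvPolynomial (Fin n) (MvPolynomial (Fin m) R)) :=
  ⟨0, by simp [phi]⟩

theorem isPhi_add {n : ℕ} (a b : MvPolynomial (Fin n) (MvPolynomial (Fin m) R))
    (ha : IsPhi a) (hb : IsPhi b) : IsPhi (a + b) := by
  obtain ⟨S, rfl⟩ := ha
  obtain ⟨T, rfl⟩ := hb
  exact ⟨S + T, by simp [phi]⟩

theorem isPhi_term {n : ℕ} (a : MvPolynomial (Fin m) R) (i j : Fin n) :
    IsPhi (C a * (X i * X j)) := by
  have h : C a * (X i * X j) = ∑ μ ∈ a.support,
      (C (monomial μ (coeff μ a)) * (X i * X j) :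
        MvPolynomial (Fin n) (MvPolynomial (Fin m) R)) := by
    conv_lhs => rw [a.as_sum]
    rw [map_sum, Finset.sum_mul]
  rw [h]
  apply Finset.sum_induction _ IsPhi isPhi_add isPhi_zero
  intro μ _
  exact ⟨{(μ, coeff μ a, i, j)}, by simp [phi, term]⟩

theorem deg_two {n : ℕ} (d : Fin n →₀ ℕ) (hd : Finsupp.degree d = 2) :
    ∃ i j : Fin n, d = Finsupp.single i 1 + Finsupp.single j 1 := by
  have hd0 : d ≠ 0 := by
    intro h
    rw [h] at hd
    simp at hd
  obtain ⟨l, hl⟩ : ∃ l, d l ≠ 0 := by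
    by_contra h
    push Not at h
    exact hd0 (Finsupp.ext h)
  obtain ⟨ν, hν⟩ : ∃ ν : Fin n →₀ ℕ, d = ν + Finsupp.single l 1 := by
    refine ⟨d - Finsupp.single l 1, ?_⟩
    rw [tsub_add_cancel_of_le]
    rw [Finsupp.single_le_iff]
    omega
  have hdeg : Finsupp.degree d = Finsupp.degree ν + 1 := by
    rw [hν, map_add, Finsupp.degree_single]
  have h1 : Finsupp.degree ν = 1 := by omega
  obtain ⟨i, hi⟩ := deg_one ν h1
  exact ⟨i, l, by rw [hν, hi]⟩

theorem isPhi_of_hom {n : ℕ} (φ : MvPolynomial (Fin n) (MvPolynomial (Fin m) R))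
    (h : φ.IsHomogeneous 2) : IsPhi φ := by
  rw [φ.as_sum]
  apply Finset.sum_induction _ IsPhi isPhi_add isPhi_zero
  intro d hd
  have hd2 : Finsupp.degree d = 2 := by
    have := h (mem_support_iff.1 hd)
    rw [← this, Finsupp.degree_eq_weight_one]
    rfl
  obtain ⟨i, j, hij⟩ := deg_two d hd2
  have hm : monomial d (coeff d φ) = C (coeff d φ) * (X i * X j) := by
    rw [X, X, monomial_mul, C_mul_monomial, ← hij]
    simp
  rw [hm]
  exact isPhi_term _ i j

end ULZ

theorem t_ULZ : M_ULZ := by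
  intro hC hS R _ m n φ hφ
  obtain ⟨S, rfl⟩ := ULZ.isPhi_of_hom φ hφ
  exact ULZ.linZ_phi hC hS _ n S rfl

end QCV
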