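import Pool.Agent.QCV.StU

/-!
# QCV, UNO: reduction to hypersurfaces
-/

set_option autoImplicit false

open CategoryTheory AlgebraicGeometry Limits Polynomial TopologicalSpace

namespace QCV

open Pool.Agent.Lib_helper55.Beil Pool.Agent.Lib_helper66.OneP CUB

universe v

namespace UNO

variable {k : Type} [Field k] {E : Type} [Field E] {T : ∀ i : ℕ, Homology.{v} k E i}

/-- Geometric noetherian induction. -/
lemma gg_auxd [PerfectField k] (hC : GGC T) (e : ℕ)
    (hpart : ∀ V₀ : Var k, IsIntegral V₀.X → V₀.DimLE (e : ℕ) →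
      ∃ (U' : Var k) (_ : OpenIn U' V₀), Nonempty U'.X ∧ GG T U')
    (X₀ : Var k) (C : Closeds X₀.X) :
    ∀ (Y : Var k) (g : Y.X ⟶ X₀.X), g ≫ X₀.f = Y.f → IsPreimmersion g → (∀ y, g y ∈ C) →
      Y.DimLE (e : ℕ) → GG T Y := by
  induction C using WellFoundedLT.induction with
  | ind C ih =>
  intro Y g comm hg hC' hdimY
  apply hC.red
  have hdimR : (redVar Y).DimLE (e : ℕ) := dimLE_red hdimY
  have hred := isReduced_redVar Y
  have hcl := (redVarIn Y).closed
  set Y' := redVar Y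
  set g' : Y'.X ⟶ X₀.X := (redVarIn Y).g ≫ g
  have comm' : g' ≫ X₀.f = Y'.f := by
    rw [Category.assoc, comm, (redVarIn Y).comm]
  have hC'' : ∀ y, g' y ∈ C := fun y => hC' _
  rcases isEmpty_or_nonempty Y'.X with he | ⟨⟨x⟩⟩
  · exact hC.empty _ he
  obtain ⟨η, -, hη⟩ := exists_maximal Y' x
  obtain ⟨U, hU1, -, hU3, hU4, hU5, hU6⟩ := exists_nice Y' η hη ⊤ trivial
  have hop := (openVarIn Y' U).isOpen
  obtain ⟨U', j, ⟨u⟩, hU'⟩ := hpart (openVar Y' U) hU5 (dimLE_open (openVarIn Y' U) hdimR)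
  let jj : OpenIn U' Y' := j.trans (openVarIn Y' U)
  have hjj := jj.isOpen
  let K : Closeds Y'.X := (⟨Set.range jj.g, jj.g.isOpenEmbedding.isOpen_range⟩ : Opens Y'.X).compl
  have hcomp : Complementary (closedVarIn Y' K) jj := by
    rw [Complementary, range_closedVarIn]
    rfl
  refine hC.glue (closedVarIn Y' K) jj hcomp ?_ hU'
  have hclK := (closedVarIn Y' K).closed
  refine ih (Closeds.closure (g' '' (K : Set Y'.X)))
    (lt_of_closed g' C hC'' K (jj.g u) (fun hcon => hcon ⟨u, rfl⟩))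
    (closedVar Y' K) ((closedVarIn Y' K).g ≫ g') ?_ inferInstance ?_
    (dimLE_closed (closedVarIn Y' K) hdimR)
  · rw [Category.assoc, comm', (closedVarIn Y' K).comm]
  · intro y
    have h1 : (closedVarIn Y' K).g y ∈ (K : Set Y'.X) := by
      rw [← range_closedVarIn]
      exact ⟨y, rfl⟩
    exact subset_closure ⟨_, h1, rfl⟩

/-- Every integral variety of dimension at most `d + 1` has a nonempty open part with the
property. -/
lemma gg_part [PerfectField k] (hUHA : S_UHA) (hUAF : S_UAF) (hC : GGC T) (d : ℕ)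
    (hlow : ∀ X : Var k, X.DimLE d → GG T X)
    (hyp : ∀ g : MvPolynomial (Fin (d + 2)) k,
      GG T (aff k (MvPolynomial (Fin (d + 2)) k ⧸ Ideal.span {g})))
    (V₀ : Var k) (hint : IsIntegral V₀.X) (hdim : V₀.DimLE (d + 1 : ℕ)) :
    ∃ (U' : Var k) (_ : OpenIn U' V₀), Nonempty U'.X ∧ GG T U' := by
  obtain ⟨A, i1, i2, i3, i4, j, hj⟩ := hUAF k V₀
  have hgd : Algebra.trdeg k A ≤ ((d + 1 : ℕ) : Cardinal) := by
    rw [← dim_generic_aff, hj]
    exact hdim _
  have hjo := j.isOpen
  obtain ⟨r, hr2, hr⟩ := Cardinal.exists_nat_eq_of_le_nat hgd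
  rcases Nat.lt_or_ge d r with h1 | h1
  · obtain rfl : r = d + 1 := by omega
    obtain ⟨g, a, h, ha, ⟨e⟩⟩ := hUHA k A (d + 1) hr
    have hne : Nonempty (aff k (Localization.Away a)).X := by
      have : IsDomain (Localization.Away a) :=
        IsLocalization.isDomain_localization (powers_le_nonZeroDivisors_of_noZeroDivisors ha)
      exact ⟨genericPoint _⟩
    refine ⟨aff k (Localization.Away a), (opn (awayHom k a) (isOpenImmersion_away a)).trans j, hne,
      ?_⟩
    have h2 : GG T (aff k (Localization.Away h)) :=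
      hC.opn (opn (awayHom k h) (isOpenImmersion_away h)) (hyp g)
    exact hC.iso (viso e.symm) h2
  · refine ⟨aff k A, j, ⟨genericPoint _⟩, hlow _ fun x => ?_⟩
    refine (dim_le_of_specializes (aff k A) (genericPoint_specializes x)).trans ?_
    rw [dim_generic_aff, hr]
    exact_mod_cast h1

end UNO

theorem t_UNO : M_UNO.{v} := by
  intro hUHA hUAF k E _ _ _ T hC d hlow hyp X hX
  exact UNO.gg_auxd hC (d + 1) (fun V₀ hint hdim => UNO.gg_part hUHA hUAF hC d hlow hyp V₀ hint hdim)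
    X ⊤ X (𝟙 _) (Category.id_comp _) inferInstance (fun _ => trivial) hX

end QCV
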