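import Pool.Agent.QCV.StU

/-!
# Module UPD: fewer equations
-/

set_option autoImplicit false

open CategoryTheory AlgebraicGeometry Limits Polynomial TopologicalSpace

namespace QCV

open Pool.Agent.Lib_helper55.Beil Pool.Agent.Lib_helper66.OneP CUB

universe v

namespace UPD

/-- `f` with a zero appended -/
noncomputable def app {R : Type} [CommRing R] {n q : ℕ} (f : Fin (q + 1) → MvPolynomial (Fin n) R) :
    Fin (q + 1 + 1) → MvPolynomial (Fin n) R :=
  Fin.snoc (α := fun _ => MvPolynomial (Fin n) R) f 0

theorem app_castSucc {R : Type} [CommRing R] {n q : ℕ} (f : Fin (q + 1) → MvPolynomial (Fin n) R)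
    (j : Fin (q + 1)) : app f j.castSucc = f j := by
  unfold app
  exact Fin.snoc_castSucc (α := fun _ => MvPolynomial (Fin n) R) _ _ _

theorem app_last {R : Type} [CommRing R] {n q : ℕ} (f : Fin (q + 1) → MvPolynomial (Fin n) R) :
    app f (Fin.last (q + 1)) = 0 := by
  unfold app
  exact Fin.snoc_last (α := fun _ => MvPolynomial (Fin n) R) _ _

theorem span_app {R : Type} [CommRing R] {n q : ℕ} (f : Fin (q + 1) → MvPolynomial (Fin n) R) :
    Ideal.span (Set.range (app f)) = Ideal.span (Set.range f) := by
  apply le_antisymm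
  · rw [Ideal.span_le]
    rintro _ ⟨j, rfl⟩
    induction j using Fin.lastCases with
    | last => rw [app_last]; exact Ideal.zero_mem _
    | cast j => rw [app_castSucc]; exact Ideal.subset_span ⟨j, rfl⟩
  · rw [Ideal.span_le]
    rintro _ ⟨j, rfl⟩
    rw [← app_castSucc f j]
    exact Ideal.subset_span ⟨_, rfl⟩

theorem gen_app {R : Type} [CommRing R] {n q : ℕ} (f : Fin (q + 1) → MvPolynomial (Fin n) R) :
    gen (app f) = MvPolynomial.map (MvPolynomial.rename (R := R)
      (Fin.castSucc : Fin q → Fin (q + 1))).toRingHom (gen f) := by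
  unfold gen
  rw [map_add, map_sum, Fin.sum_univ_castSucc]
  have h0 : app f 0 = f 0 := app_castSucc f 0
  have hc : ((MvPolynomial.rename (R := R) (Fin.castSucc : Fin q → Fin (q + 1))).toRingHom).comp
      (MvPolynomial.C : R →+* MvPolynomial (Fin q) R) = MvPolynomial.C := by
    ext x
    simp
  rw [h0, Fin.succ_last, app_last, map_zero, mul_zero, add_zero, MvPolynomial.map_map, hc]
  congr 1
  refine Finset.sum_congr rfl fun i _ => ?_
  rw [Fin.succ_castSucc, app_castSucc, map_mul, MvPolynomial.map_map, hc, MvPolynomial.map_C]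
  congr 2
  simp

theorem gram_map {A B : Type} [CommRing A] [CommRing B] (φ : A →+* B) {n : ℕ}
    (p : MvPolynomial (Fin n) A) : gram (MvPolynomial.map φ p) = φ.mapMatrix (gram p) := by
  ext i j
  simp only [gram, RingHom.mapMatrix_apply, Matrix.map_apply]
  rw [MvPolynomial.pderiv_map, MvPolynomial.pderiv_map, MvPolynomial.coeff_map]

end UPD

open UPD in
theorem t_UPD : S_UPD.{v} := by
  intro k E _ _ T q hT s f hf hdet
  have h := hT s (app f) (by
    intro j
    induction j using Fin.lastCases with
    | last => rw [app_last]; exact MvPolynomial.isHomogeneous_zero _ _ _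
    | cast j => rw [app_castSucc]; exact hf j) (by
    rw [gen_app, gram_map, ← RingHom.map_det]
    intro h0
    apply hdet
    exact MvPolynomial.rename_injective _ (Fin.castSucc_injective q) (by
      rw [map_zero]
      exact h0))
  have key : ∀ (I J : Ideal (MvPolynomial (Fin (1 + 2 * s)) k)), I = J →
      ∀ (_ : Algebra.FiniteType k (MvPolynomial (Fin (1 + 2 * s)) k ⧸ I))
        (_ : Algebra.FiniteType k (MvPolynomial (Fin (1 + 2 * s)) k ⧸ J)),
      GG T (aff k (MvPolynomial (Fin (1 + 2 * s)) k ⧸ I)) →
        GG T (aff k (MvPolynomial (Fin (1 + 2 * s)) k ⧸ J)) := by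
    rintro I _ rfl _ _ h
    exact h
  exact key _ _ (span_app f) _ _ h

end QCV
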