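import Mathlib
import Pool.Agent.QCV.StU1

/-!
# QCV, module USB: an invertible linear substitution induces an isomorphism of the quotients
-/

set_option autoImplicit false

namespace QCV

namespace USB

theorem lsub_X {B : Type} [CommRing B] {n : ℕ} (P : Matrix (Fin n) (Fin n) B) (i : Fin n) :
    lsub P (MvPolynomial.X i) = ∑ j, MvPolynomial.C (P i j) * MvPolynomial.X j := by
  unfold lsub
  rw [MvPolynomial.aeval_X]

theorem lsub_C {B : Type} [CommRing B] {n : ℕ} (P : Matrix (Fin n) (Fin n) B) (b : B) :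
    lsub P (MvPolynomial.C b) = MvPolynomial.C b := by
  unfold lsub
  rw [MvPolynomial.aeval_C]
  rfl

/-- Composition of two linear substitutions. -/
theorem lsub_comp {B : Type} [CommRing B] {n : ℕ} (P Q : Matrix (Fin n) (Fin n) B) :
    (lsub P).comp (lsub Q) = lsub (Q * P) := by
  apply MvPolynomial.algHom_ext
  intro i
  rw [AlgHom.comp_apply, lsub_X, lsub_X, map_sum]
  simp only [map_mul, lsub_C, lsub_X, Finset.mul_sum]
  rw [Finset.sum_comm]
  apply Finset.sum_congr rfl
  intro l _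
  rw [Matrix.mul_apply, map_sum, Finset.sum_mul]
  apply Finset.sum_congr rfl
  intro j _
  rw [map_mul, mul_assoc]

theorem lsub_one {B : Type} [CommRing B] {n : ℕ} :
    lsub (1 : Matrix (Fin n) (Fin n) B) = AlgHom.id B _ := by
  apply MvPolynomial.algHom_ext
  intro i
  rw [lsub_X, Finset.sum_eq_single i]
  · simp
  · intro j _ hj
    rw [Matrix.one_apply_ne (Ne.symm hj)]
    simp
  · intro h
    exact absurd (Finset.mem_univ i) h

end USB

open USB in
theorem t_USB : S_USB := by
  intro k B _ _ _ n ψ P hP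
  have h1 : (lsub P⁻¹).comp (lsub P) = AlgHom.id B _ := by
    rw [lsub_comp, Matrix.mul_nonsing_inv P hP, lsub_one]
  have h2 : (lsub P).comp (lsub P⁻¹) = AlgHom.id B _ := by
    rw [lsub_comp, Matrix.nonsing_inv_mul P hP, lsub_one]
  let e : MvPolynomial (Fin n) B ≃ₐ[B] MvPolynomial (Fin n) B :=
    AlgEquiv.ofAlgHom (lsub P⁻¹) (lsub P) h1 h2
  have he : e (lsub P ψ) = ψ := by
    have := congrArg (fun f => f ψ) h1
    exact this
  refine ⟨Ideal.quotientEquivAlg _ _ (e.restrictScalars k) ?_⟩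
  rw [Ideal.map_span]
  congr 1
  ext x
  constructor
  · rintro ⟨_, rfl⟩
    exact ⟨lsub P ψ, ⟨0, rfl⟩, he⟩
  · rintro ⟨y, ⟨_, rfl⟩, hy⟩
    refine ⟨0, ?_⟩
    have : e (lsub P ψ) = x := hy
    rw [he] at this
    exact this

end QCV
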