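import Pool.Agent.QCV.StU2
import Pool.Agent.QCV.R_LNR

/-!
# QCV, block U: the stratification of the generic member
-/

set_option autoImplicit false

open Polynomial

namespace QCV

open CUB

/-- Quotients along a surjective homomorphism. -/
theorem ust_iso {k A B : Type} [Field k] [CommRing A] [Algebra k A] [CommRing B] [Algebra k B]
    (φ : A →ₐ[k] B) (hφ : Function.Surjective φ) (s t w : Set A) (u : Set B)
    (hk : RingHom.ker φ.toRingHom = Ideal.span s) (hu : φ '' t = u) (hw : s ∪ t = w) :
    Nonempty ((A ⧸ Ideal.span w) ≃ₐ[k] (B ⧸ Ideal.span u)) := by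
  let ψ : A →ₐ[k] B ⧸ Ideal.span u := (Ideal.Quotient.mkₐ k (Ideal.span u)).comp φ
  have hψ : Function.Surjective ψ := (Ideal.Quotient.mkₐ_surjective k _).comp hφ
  have hk2 : RingHom.ker ψ = Ideal.span w := by
    have h1 : RingHom.ker ψ = Ideal.comap φ.toRingHom (Ideal.span u) := by
      ext x
      rw [RingHom.mem_ker, Ideal.mem_comap]
      exact Ideal.Quotient.eq_zero_iff_mem
    have h2 : Ideal.span u = Ideal.map φ.toRingHom (Ideal.span t) := by
      rw [Ideal.map_span, ← hu]
      rfl
    rw [h1, h2, Ideal.comap_map_of_surjective' φ.toRingHom hφ, hk, ← Ideal.span_union,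
      Set.union_comm, hw]
  exact ⟨(Ideal.quotientEquivAlgOfEq k hk2.symm).trans
    (Ideal.quotientKerAlgEquivOfSurjective hψ)⟩

/-- The family `f 0, f 2, ..., f (m + 1)`. -/
def usf {S : Type} {m : ℕ} (f : Fin (m + 2) → S) : Fin (m + 1) → S :=
  Fin.cons (f 0) fun j => f j.succ.succ

theorem usf_zero {S : Type} {m : ℕ} (f : Fin (m + 2) → S) : usf f 0 = f 0 := rfl

theorem usf_succ {S : Type} {m : ℕ} (f : Fin (m + 2) → S) (j : Fin m) :
    usf f j.succ = f j.succ.succ := rfl

theorem ust_fs {S : Type} [CommRing S] {m : ℕ} (f : Fin (m + 2) → S) :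
    MvPolynomial.finSuccEquiv S m (fs f) =
      C (MvPolynomial.C (f 1)) * X + C (fs (usf f)) := by
  have h1 : (1 : Fin (m + 2)) = Fin.succ (0 : Fin (m + 1)) := rfl
  unfold fs
  rw [map_add, map_sum, Fin.sum_univ_succ]
  simp only [map_mul, MvPolynomial.finSuccEquiv_apply, MvPolynomial.eval₂Hom_C, map_add, map_sum, usf_zero, usf_succ,
    h1, RingHom.coe_comp, Function.comp_apply, MvPolynomial.eval₂Hom_X', Fin.cases_zero,
    Fin.cases_succ]
  ring

theorem t_UST : S_UST := by
  intro k _ P hP m
  induction m with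
  | zero =>
    intro S _ _ _ f _ hr
    have h1 : Ideal.span (Set.range f) = Ideal.span {f 0} := by
      congr 1
      ext x
      constructor
      · rintro ⟨j, rfl⟩
        rw [Set.mem_singleton_iff, show j = 0 from Fin.eq_zero j]
      · rintro rfl
        exact ⟨0, rfl⟩
    let φ : MvPolynomial (Fin 0) S →ₐ[k] S :=
      ((MvPolynomial.isEmptyAlgEquiv S (Fin 0)).restrictScalars k).toAlgHom
    have hφi : Function.Injective φ :=
      ((MvPolynomial.isEmptyAlgEquiv S (Fin 0)).restrictScalars k).injective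
    obtain ⟨e'⟩ := ust_iso φ
      ((MvPolynomial.isEmptyAlgEquiv S (Fin 0)).restrictScalars k).surjective ∅ {fs f} {fs f}
      (Set.range f) (by
        rw [Ideal.span_empty]
        exact (RingHom.injective_iff_ker_eq_bot φ.toRingHom).1 hφi) (by
        rw [Set.image_singleton]
        have h2 : φ (fs f) = f 0 := by
          unfold fs
          rw [Finset.univ_eq_empty, Finset.sum_empty, add_zero]
          exact (MvPolynomial.isEmptyAlgEquiv S (Fin 0)).commutes (f 0)
        rw [h2]
        ext x
        constructor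
        · rintro rfl
          exact ⟨0, rfl⟩
        · rintro ⟨j, rfl⟩
          rw [Set.mem_singleton_iff, show j = 0 from Fin.eq_zero j]) (Set.empty_union _)
    exact hP.iso e'.symm hr
  | succ m ih =>
    intro S _ _ _ f hj hr
    -- `P S`
    have hS : P S := by
      have h1 := hj 0 (Nat.succ_pos m)
      have h2 : Ideal.span (f '' {l : Fin (m + 1 + 1) | 1 ≤ l.1 ∧ l.1 ≤ 0}) = ⊥ := by
        have h3 : {l : Fin (m + 1 + 1) | 1 ≤ l.1 ∧ l.1 ≤ 0} = ∅ := by
          ext l
          simp only [Set.mem_ofPred_eq, Set.mem_empty_iff_false, iff_false]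
          omega
        rw [h3, Set.image_empty, Ideal.span_empty]
      exact hP.iso ((Ideal.quotientEquivAlgOfEq k h2).trans (AlgEquiv.quotientBot k S)) h1
    have hS' : P (MvPolynomial (Fin m) S) := by
      have h1 : ∀ n : ℕ, P (MvPolynomial (Fin n) S) := by
        intro n
        induction n with
        | zero =>
          exact hP.iso ((MvPolynomial.isEmptyAlgEquiv S (Fin 0)).restrictScalars k).symm hS
        | succ n ih2 =>
          exact hP.iso ((MvPolynomial.finSuccEquiv S n).restrictScalars k).symm (hP.line _ ih2)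
      exact h1 m
    let g : MvPolynomial (Fin m) S := MvPolynomial.C (f 1)
    let h : MvPolynomial (Fin m) S := fs (usf f)
    have hU : P (Localization.Away g) := hP.opn g (awayHom k g) (isLocalization_awayHom g) hS'
    -- the closed part
    let φ₁ : S →ₐ[k] S ⧸ Ideal.span {f 1} := Ideal.Quotient.mkₐ k (Ideal.span {f 1})
    have hφ₁ : Function.Surjective φ₁ := Ideal.Quotient.mkₐ_surjective k _
    have hk₁ : RingHom.ker φ₁.toRingHom = Ideal.span {f 1} := Ideal.mk_ker
    have hset : ∀ j : ℕ, ({f 1} : Set S) ∪ usf f '' {l : Fin (m + 1) | 1 ≤ l.1 ∧ l.1 ≤ j} =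
        f '' {l : Fin (m + 1 + 1) | 1 ≤ l.1 ∧ l.1 ≤ j + 1} := by
      intro j
      ext x
      constructor
      · rintro (rfl | ⟨l, ⟨hl1, hl2⟩, rfl⟩)
        · exact ⟨1, ⟨by simp, by simp⟩, rfl⟩
        · obtain ⟨l', rfl⟩ : ∃ l' : Fin m, l = l'.succ := by
            refine ⟨l.pred ?_, (Fin.succ_pred _ _).symm⟩
            rintro rfl
            simp at hl1
          refine ⟨l'.succ.succ, ⟨?_, ?_⟩, (usf_succ f l').symm⟩
          · simp only [Fin.val_succ]
            omega
          · simp only [Fin.val_succ] at hl2 ⊢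
            omega
      · rintro ⟨l, ⟨hl1, hl2⟩, rfl⟩
        obtain ⟨l', rfl⟩ : ∃ l' : Fin (m + 1), l = l'.succ := by
          refine ⟨l.pred ?_, (Fin.succ_pred _ _).symm⟩
          rintro rfl
          simp at hl1
        rcases Fin.eq_zero_or_eq_succ l' with rfl | ⟨l'', rfl⟩
        · left
          rfl
        · right
          refine ⟨l''.succ, ⟨?_, ?_⟩, usf_succ f l''⟩
          · simp only [Fin.val_succ]
            omega
          · simp only [Fin.val_succ] at hl2 ⊢
            omega
    have hset2 : ({f 1} : Set S) ∪ Set.range (usf f) = Set.range f := by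
      ext x
      constructor
      · rintro (rfl | ⟨l, rfl⟩)
        · exact ⟨1, rfl⟩
        · rcases Fin.eq_zero_or_eq_succ l with rfl | ⟨l', rfl⟩
          · exact ⟨0, rfl⟩
          · exact ⟨l'.succ.succ, rfl⟩
      · rintro ⟨l, rfl⟩
        rcases Fin.eq_zero_or_eq_succ l with rfl | ⟨l', rfl⟩
        · right
          exact ⟨0, rfl⟩
        · rcases Fin.eq_zero_or_eq_succ l' with rfl | ⟨l'', rfl⟩
          · left
            rfl
          · right
            exact ⟨l''.succ, rfl⟩
    have hZ1 : P (MvPolynomial (Fin m) (S ⧸ Ideal.span {f 1}) ⧸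
        Ideal.span {fs (fun j => φ₁ (usf f j))}) := by
      refine ih (S ⧸ Ideal.span {f 1}) (fun j => φ₁ (usf f j)) ?_ ?_
      · intro j hjm
        obtain ⟨e⟩ := ust_iso φ₁ hφ₁ {f 1} (usf f '' {l : Fin (m + 1) | 1 ≤ l.1 ∧ l.1 ≤ j}) _
          ((fun j => φ₁ (usf f j)) '' {l : Fin (m + 1) | 1 ≤ l.1 ∧ l.1 ≤ j}) hk₁
          (by rw [Set.image_image]) (hset j)
        exact hP.iso e (hj (j + 1) (by omega))
      · obtain ⟨e⟩ := ust_iso φ₁ hφ₁ {f 1} (Set.range (usf f)) _
          (Set.range fun j => φ₁ (usf f j)) hk₁ (by rw [← Set.range_comp]; rfl) hset2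
        exact hP.iso e hr
    have hZ : P (MvPolynomial (Fin m) S ⧸ Ideal.span {g, h}) := by
      let φ : MvPolynomial (Fin m) S →ₐ[k] MvPolynomial (Fin m) (S ⧸ Ideal.span {f 1}) :=
        MvPolynomial.mapAlgHom φ₁
      have hφ : Function.Surjective φ := MvPolynomial.map_surjective φ₁.toRingHom hφ₁
      have hφk : RingHom.ker φ.toRingHom = Ideal.span {g} := by
        have h1 : RingHom.ker φ.toRingHom = Ideal.map MvPolynomial.C (RingHom.ker φ₁.toRingHom) :=
          MvPolynomial.ker_map φ₁.toRingHom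
        rw [h1, hk₁, Ideal.map_span, Set.image_singleton]
      have hφh : φ h = fs (fun j => φ₁ (usf f j)) := by
        change MvPolynomial.map φ₁.toRingHom (fs (usf f)) = _
        unfold fs
        simp only [map_add, map_sum, map_mul, MvPolynomial.map_C, MvPolynomial.map_X]
        rfl
      obtain ⟨e⟩ := ust_iso φ hφ {g} {h} {g, h} {fs (fun j => φ₁ (usf f j))} hφk
        (by rw [Set.image_singleton, hφh]) (Set.singleton_union)
      exact hP.iso e.symm hZ1
    obtain ⟨z', u', hs⟩ := t_LNR k (MvPolynomial (Fin m) S) (Localization.Away g) g h (awayHom k g)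
      (isLocalization_awayHom g)
    have hmain : P ((MvPolynomial (Fin m) S)[X] ⧸ Ideal.span {C g * X + C h}) :=
      hP.glue _ z' u' hs (hP.line _ hZ) hU
    let φ₂ : MvPolynomial (Fin (m + 1)) S →ₐ[k] (MvPolynomial (Fin m) S)[X] :=
      ((MvPolynomial.finSuccEquiv S m).restrictScalars k).toAlgHom
    have hφ₂i : Function.Injective φ₂ :=
      ((MvPolynomial.finSuccEquiv S m).restrictScalars k).injective
    obtain ⟨e⟩ := ust_iso φ₂ ((MvPolynomial.finSuccEquiv S m).restrictScalars k).surjective
      ∅ {fs f} {fs f} {C g * X + C h}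
      (by
        rw [Ideal.span_empty]
        exact (RingHom.injective_iff_ker_eq_bot φ₂.toRingHom).1 hφ₂i)
      (by
        rw [Set.image_singleton]
        exact congrArg _ (ust_fs f)) (Set.empty_union _)
    exact hP.iso e.symm hmain

end QCV
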