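import Pool.Agent.QCV.U_ALL
import Pool.Agent.QCV.T_TZE
import Pool.Agent.QCV.T_TBU
import Pool.Agent.QCV.T_TCL
import Pool.Agent.QCV.T_TGM
import Pool.Agent.QCV.T_TOD
import Pool.Agent.QCV.U_ULC
import Pool.Agent.QCV.U_ULS
import Pool.Agent.QCV.U_ULZ
import Pool.Agent.QCV.U_UGM
import Pool.Agent.QCV.U_UDT
import Pool.Agent.QCV.U_USB
import Pool.Agent.QCV.U_UHA
import Pool.Agent.QCV.U_UST
import Pool.Agent.QCV.U_UHI
import Pool.Agent.QCV.U_UGA
import Pool.Agent.QCV.U_UHY
import Pool.Agent.QCV.U_UAF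
import Pool.Agent.QCV.U_UNO
import Pool.Agent.QCV.U_UPD

/-!
# QCV: universality of systems of quadratic forms in an odd number of variables
-/

set_option autoImplicit false

open CategoryTheory AlgebraicGeometry Limits Polynomial TopologicalSpace

namespace QCV

open Pool.Agent.Lib_helper55.Beil Pool.Agent.Lib_helper66.OneP CUB

universe v

namespace Asm

theorem s_ULZ : S_ULZ := t_ULZ t_ULC t_ULS

theorem s_UHY : S_UHY.{v} := t_UHY t_TCL t_UHI

theorem s_UNO : S_UNO.{v} := t_UNO t_UHA t_UAF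

end Asm

variable {k : Type} [Field k] {E : Type} [Field E] {T : ∀ i : ℕ, Homology.{v} k E i} {hT : Full T}

/-- The conjecture of Tate in dimension at most `d` implies the conjecture of Tate on the class. -/
theorem gg_of_built [Finite k] [CharZero E] (hP : Pub2 T hT) (d : ℕ)
    (hB : ∀ X : Var k, X.DimLE d → GG T X) (X : Var k) (h : Built k d X) : GG T X :=
  gg_of_built_of t_TZE t_TOD t_TBU hP d hB X h

/-- Universality. -/
theorem universal [Finite k] [CharZero E] (hP : Pub2 T hT) (h2 : (2 : k) ≠ 0) (d : ℕ)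
    (ho : OddTate T (d + 1)) : ∀ X : Var k, X.DimLE d → GG T X :=
  universal_of Asm.s_ULZ t_UGM t_UDT t_USB t_UST Asm.s_UHY t_UGA Asm.s_UNO t_UPD t_TGM t_TZE t_TOD
    t_TBU hP h2 d ho

end QCV
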