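import Pool.Agent.QCV.H_UPP

/-!
# QCV, block H: change of the parity of the rank at infinity
-/

set_option autoImplicit false

namespace QCV

open CUB

namespace ZPT

open BLK

/-- The forms `z_0 z_1`, `z_0 ^ 2`, `0`, ..., `0`. -/
noncomputable def zf (R : Type) [CommRing R] (q : ℕ) : Fin (q + 1 + 1) → MvPolynomial (Fin 2) R :=
  Fin.cons (MvPolynomial.X 0 * MvPolynomial.X 1) (Fin.cons (MvPolynomial.X 0 ^ 2) fun _ => 0)

lemma zf_homog (R : Type) [CommRing R] (q : ℕ) (j : Fin (q + 1 + 1)) :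
    (zf R q j).IsHomogeneous 2 := by
  refine Fin.cases ?_ (fun j => ?_) j
  · exact (MvPolynomial.isHomogeneous_X _ _).mul (MvPolynomial.isHomogeneous_X _ _)
  · refine Fin.cases ?_ (fun j => ?_) j
    · exact (MvPolynomial.isHomogeneous_X _ _).pow 2
    · exact MvPolynomial.isHomogeneous_zero _ _ _

/-- The form `z_0 z_1 + t z_0 ^ 2`. -/
noncomputable def zq {B : Type} [CommRing B] (t : B) : MvPolynomial (Fin 2) B :=
  MvPolynomial.X 0 * MvPolynomial.X 1 + MvPolynomial.C t * MvPolynomial.X 0 ^ 2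

lemma gen_zf (R : Type) [CommRing R] (q : ℕ) : gen (zf R q) = zq (MvPolynomial.X 0) := by
  unfold gen zq
  rw [Fin.sum_univ_succ]
  have h0 : zf R q 0 = MvPolynomial.X 0 * MvPolynomial.X 1 := rfl
  have h1 : zf R q (Fin.succ 0) = MvPolynomial.X 0 ^ 2 := rfl
  have h2 : ∀ j : Fin q, zf R q (Fin.succ (Fin.succ j)) = 0 := fun _ => rfl
  simp only [h0, h1, h2, map_mul, map_pow, MvPolynomial.map_X, map_zero, mul_zero,
    Finset.sum_const_zero, add_zero]

lemma gen_zf_tail (R : Type) [CommRing R] (q : ℕ) :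
    gen (fun j : Fin (q + 1) => zf R q j.succ) = MvPolynomial.X 0 ^ 2 := by
  unfold gen
  have h1 : zf R q (Fin.succ 0) = MvPolynomial.X 0 ^ 2 := rfl
  have h2 : ∀ j : Fin q, zf R q (Fin.succ (Fin.succ j)) = 0 := fun _ => rfl
  simp only [h1, h2, map_pow, MvPolynomial.map_X, map_zero, mul_zero,
    Finset.sum_const_zero, add_zero]

lemma gram_zq {B : Type} [CommRing B] (t : B) : gram (zq t) = !![2 * t, 1; 1, 0] := by
  ext i j
  fin_cases i <;> fin_cases j <;>
    simp [gram, zq, MvPolynomial.pderiv_X, sq, two_mul, mul_add]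

lemma det_zq {B : Type} [CommRing B] (t : B) : (gram (zq t)).det = -1 := by
  rw [gram_zq, Matrix.det_fin_two_of]
  ring

lemma gram_sq {B : Type} [CommRing B] :
    gram (MvPolynomial.X 0 ^ 2 : MvPolynomial (Fin 2) B) = Matrix.diagonal ![2, 0] := by
  ext i j
  fin_cases i <;> fin_cases j <;>
    (simp [gram, sq, MvPolynomial.pderiv_X]; try norm_num)

lemma rank_sq {B K : Type} [CommRing B] [Field K] (h : B →+* K) (h2 : (2 : K) ≠ 0) :
    ((gram (MvPolynomial.X 0 ^ 2 : MvPolynomial (Fin 2) B)).map h).rank = 1 := by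
  classical
  rw [gram_sq, Matrix.diagonal_map (map_zero h), Matrix.rank_diagonal]
  have h1 : (2 : K) ≠ 0 := h2
  rw [Fintype.card_eq_one_iff]
  refine ⟨⟨0, ?_⟩, ?_⟩
  · change h (2 : B) ≠ 0
    rwa [map_ofNat]
  · rintro ⟨y, hy⟩
    apply Subtype.ext
    fin_cases y
    · rfl
    · exfalso
      apply hy
      change h (0 : B) = 0
      exact map_zero h

/-- The matrix of the substitution `z_1 ↦ z_1 + t z_0`. -/
noncomputable def tm {B : Type} [CommRing B] (n : ℕ) (t : B) :
    Matrix (Fin (n + 2 * 1)) (Fin (n + 2 * 1)) B :=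
  Matrix.transvection ⟨n + 1, by omega⟩ ⟨n, by omega⟩ t

lemma tm_det {B : Type} [CommRing B] (n : ℕ) (t : B) : IsUnit (tm n t).det := by
  unfold tm
  rw [Matrix.det_transvection_of_ne _ _ (by
    intro h
    have := congrArg Fin.val h
    simp at this) t]
  exact isUnit_one

lemma tm_apply {B : Type} [CommRing B] (n : ℕ) (t : B) (i j : Fin (n + 2 * 1)) :
    tm n t i j = (if i = j then 1 else 0) +
      (if i = ⟨n + 1, by omega⟩ ∧ j = ⟨n, by omega⟩ then t else 0) := by
  change ((1 : Matrix (Fin (n + 2 * 1)) (Fin (n + 2 * 1)) B) +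
      Matrix.single (⟨n + 1, by omega⟩ : Fin (n + 2 * 1)) (⟨n, by omega⟩ : Fin (n + 2 * 1)) t) i j = _
  rw [Matrix.add_apply, Matrix.one_apply, Matrix.single_apply]
  congr 1
  simp only [eq_comm]

lemma lsub_tm_X {B : Type} [CommRing B] (n : ℕ) (t : B) (i : Fin (n + 2 * 1)) :
    lsub (tm n t) (MvPolynomial.X i) = MvPolynomial.X i +
      if i = ⟨n + 1, by omega⟩ then MvPolynomial.C t * MvPolynomial.X ⟨n, by omega⟩ else 0 := by
  unfold lsub
  rw [MvPolynomial.aeval_X]
  simp only [tm_apply, map_add, add_mul, Finset.sum_add_distrib]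
  congr 1
  · simp
  · by_cases hi : i = ⟨n + 1, by omega⟩
    · simp only [hi, true_and, if_true]
      rw [Finset.sum_eq_single (⟨n, by omega⟩ : Fin (n + 2 * 1))]
      · rw [if_pos rfl]
      · intro b _ hb
        rw [if_neg hb, map_zero, zero_mul]
      · intro h
        exact absurd (Finset.mem_univ _) h
    · simp [hi]

/-- The hyperbolic plane and the form `z_0 z_1 + t z_0 ^ 2`. -/
lemma lsub_tm {B : Type} [CommRing B] {n : ℕ} (φ : MvPolynomial (Fin n) B) (t : B) :
    lsub (tm n t) (hyp φ 1) = (osum φ (zq t) : MvPolynomial (Fin (n + 2)) B) := by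
  have h1 : lsub (tm n t) (MvPolynomial.rename (Fin.castAdd (2 * 1)) φ) =
      MvPolynomial.rename (Fin.castAdd (2 * 1)) φ := by
    have h2 : ((lsub (tm n t)).comp (MvPolynomial.rename (R := B) (Fin.castAdd (2 * 1)))) =
        MvPolynomial.rename (Fin.castAdd (2 * 1)) := by
      apply MvPolynomial.algHom_ext
      intro i
      rw [AlgHom.comp_apply, MvPolynomial.rename_X, lsub_tm_X, if_neg, add_zero]
      intro h
      have h3 := congrArg Fin.val h
      have h4 := i.2
      simp at h3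
      omega
    exact DFunLike.congr_fun h2 φ
  have h5 : (⟨n, by omega⟩ : Fin (n + 2 * 1)) ≠ ⟨n + 1, by omega⟩ := by
    intro h
    have := congrArg Fin.val h
    simp at this
  unfold hyp
  rw [map_add, h1]
  have h6 : (∑ i : Fin 1, MvPolynomial.X ⟨n + 2 * i.1, by omega⟩ *
      MvPolynomial.X ⟨n + 2 * i.1 + 1, by omega⟩ : MvPolynomial (Fin (n + 2 * 1)) B) =
      MvPolynomial.X ⟨n, by omega⟩ * MvPolynomial.X ⟨n + 1, by omega⟩ := by
    rw [Fin.sum_univ_one]
    rfl
  rw [h6, map_mul, lsub_tm_X, lsub_tm_X, if_neg h5, if_pos rfl, add_zero]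
  unfold osum zq
  rw [map_add, map_mul, map_mul, map_pow, MvPolynomial.rename_X, MvPolynomial.rename_X,
    MvPolynomial.rename_C]
  have h7 : (Fin.natAdd n (0 : Fin 2) : Fin (n + 2)) = (⟨n, by omega⟩ : Fin (n + 2 * 1)) := rfl
  have h8 : (Fin.natAdd n (1 : Fin 2) : Fin (n + 2)) = (⟨n + 1, by omega⟩ : Fin (n + 2 * 1)) := rfl
  rw [h7, h8]
  change MvPolynomial.rename (Fin.castAdd 2) φ + _ = _
  ring

end ZPT

end QCV
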