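import Pool.Agent.QCV.U2
import Pool.Agent.CUB2.H_OPEN

/-!
# QCV, upgrade: the conjecture of Tate for smooth proper surfaces implies the surjectivity and the
semisimplicity for the one-dimensional cycles on all surfaces
-/

set_option autoImplicit false

open CategoryTheory AlgebraicGeometry Limits Polynomial TopologicalSpace

namespace QCV

open Pool.Agent.Lib_helper55.Beil Pool.Agent.Lib_helper66.OneP CUB

universe v

variable {k : Type} [Field k] {E : Type} [Field E]

variable {T : ∀ i : ℕ, Homology.{v} k E i}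

namespace U3

lemma boundary (hT : Full T) (hP : Pub T hT) (i : ℕ) :
    Pool.Agent.Lib_helper66.OneP.Boundary (T i) := by
  intro n Z U X a j h
  exact ⟨hT.bd i n a j h, fun u => hP.bdFrob i n a j h u, fun u => hP.resExact i n a j h u⟩

/-- Descent along finite etale coverings. -/
lemma good_et [CharZero E] (hT : Full T) (hE : EtPull T hT.toProperMaps) (i : ℕ) {V U : Var k}
    (f : Pool.Agent.Lib_helper66.OneP.FinEt V U) (hint : IsIntegral U.X)
    (h : (T i).gen V ≤ (T i).alg V) : (T i).gen U ≤ (T i).alg U := by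
  obtain ⟨S, hF, hS⟩ := hE
  obtain ⟨c, hc0, hPG⟩ := hS f hint
  have hc : (c : E) ≠ 0 := Nat.cast_ne_zero.2 hc0
  intro m hm
  have h1 : S.pb i (2 * i) f m ∈ (T i).gen V :=
    maxGen_map ((T i).frob (2 * i) U) ((T i).frob (2 * i) V)
      (S.pb i (2 * i) f) (hF i (2 * i) f) hm
  obtain ⟨z, hz⟩ := exists_cls (T i) _ _ (h h1)
  have h2 := (CUB.Asm2.s_PFC.{v}).2.2.2.1 k E T hT i _ _ (etPr f) z
  have h3 : hT.G i (2 * i) (etPr f) (clz (T i) _ z) = (c : E) • m := by
    have h4 := hPG i (2 * i) m
    have h5 : clz (T i) _ z = S.Q i (2 * i) f m := hz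
    rw [h5]
    exact h4
  rw [h3] at h2
  have h6 : m = (c : E)⁻¹ • clz (T i) _ (pfc E i (etPr f) z) := by
    rw [h2, smul_smul, inv_mul_cancel₀ hc, one_smul]
  rw [h6]
  exact Submodule.smul_mem _ _ ((T i).linComb_mem_alg _ _)

end U3

/-- If the surjectivity and the semisimplicity hold for the smooth proper varieties of dimension
`D`, `i < D ≤ 2 * i`, then they hold for all varieties (cycles of dimension `i`). -/
theorem good_of_sp [Finite k] [CharZero E] (hT : Full T) (hP : Pub T hT)
    (hA : Pool.Agent.Lib_helper66.OneP.Alterations k) (hE : EtPull T hT.toProperMaps) (i : ℕ)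
    (h : ∀ (D : ℕ) (Y : Var k), i < D → D ≤ 2 * i → Y.SmoothProper D →
      (T i).Surj Y ∧ (T i).Semisimple Y) (X : Var k) : (T i).gen X ≤ (T i).alg X := by
  refine (T i).good_all ?_ X
  intro U hint haff hsm h1 h2
  obtain ⟨D, hD⟩ := Cardinal.lt_aleph0.1 (h2.trans_lt (Cardinal.natCast_lt_aleph0))
  rw [hD, Nat.cast_lt] at h1
  rw [hD, Nat.cast_le] at h2
  obtain ⟨U', V, Y, jU, g, jV, hne, hY⟩ := hA U hint D hD
  obtain ⟨hs, hss⟩ := h D Y h1 h2 hY
  have hgood : (T i).gen Y ≤ (T i).alg Y := CUB.OPEN.good (T i) Y hs hss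
  have hj := jU.isOpen
  have hU'int : IsIntegral U'.X := isIntegral_of_isOpenImmersion jU.g
  refine ⟨U', jU, hne, ?_⟩
  exact (T i).surj_of_good U' (U3.good_et hT hE i g hU'int
    (Pool.Agent.Lib_helper66.OneP.good_open (T i) (by omega) (hP.weights i) (U3.boundary hT hP i) jV hgood))

/-- If the surjectivity and the semisimplicity hold for the smooth proper varieties of dimension
`D`, `i < D ≤ 2 * i`, then they hold for all varieties (cycles of dimension `i`). -/
theorem surj_of_sp [Finite k] [CharZero E] (hT : Full T) (hP : Pub T hT)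
    (hA : Pool.Agent.Lib_helper66.OneP.Alterations k) (hE : EtPull T hT.toProperMaps) (i : ℕ)
    (h : ∀ (D : ℕ) (Y : Var k), i < D → D ≤ 2 * i → Y.SmoothProper D →
      (T i).Surj Y ∧ (T i).Semisimple Y) (X : Var k) : (T i).Surj X ∧ (T i).Semisimple X :=
  ⟨(T i).surj_of_good X (good_of_sp hT hP hA hE i h X),
    (T i).semisimple_of_good X (good_of_sp hT hP hA hE i h X)⟩

/-- The conjecture of Tate (with semisimplicity) for the divisors on smooth proper surfaces implies
the surjectivity and the semisimplicity for the one-dimensional cycles on all varieties. -/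
theorem surf_of_sp [Finite k] [CharZero E] (hT : Full T) (hP : Pub T hT)
    (hA : Pool.Agent.Lib_helper66.OneP.Alterations k) (hE : EtPull T hT.toProperMaps)
    (h : ∀ Y : Var k, Y.SmoothProper 2 → (T 1).Surj Y ∧ (T 1).Semisimple Y) (X : Var k) :
    (T 1).Surj X ∧ (T 1).Semisimple X := by
  refine surj_of_sp hT hP hA hE 1 (fun D Y h1 h2 hY => ?_) X
  obtain rfl : D = 2 := by omega
  exact h Y hY

end QCV
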