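import Pool.Agent.QCV.B_ASM
import Pool.Agent.QCV.O_ASM
import Pool.Agent.QCV.U3
import Pool.Agent.QCV.U4

/-!
# QCV: the final theorem
-/

set_option autoImplicit false

open CategoryTheory AlgebraicGeometry Polynomial

namespace QCV

open Pool.Agent.Lib_helper55.Beil Pool.Agent.Lib_helper66.OneP CUB

universe v

variable {k : Type} [Field k] {E : Type} [Field E]

/-- Published properties of the l-adic homology `(T i).H n X = H_n(Xbar, Q_l(i))`: weights
(Deligne), the localisation sequences, injectivity of the cycle class map for divisors, pull-back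
along double covers, finite etale coverings and line bundles. -/
structure Pub2 (T : ∀ i : ℕ, Homology.{v} k E i) (hT : Full T) : Prop where
  /-- no eigenvalue one in `H_(2i-1)(Xbar, Q_l(i))` -/
  weights : ∀ i, Weights (T i)
  bdFrob : BdFrob hT.toExtraMaps
  resExact : ResExact hT.toExtraMaps
  lineRes : LineRes hT.toExtraMaps
  /-- a divisor with class zero is rationally equivalent to zero -/
  divisors : ∀ (i : ℕ) (X : Var k), X.DimLE (i + 1) → (T i).Inj X
  /-- the push-forward along a section of a product with the affine line is zero -/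
  sectionZero : SectionZero T
  /-- pull-back along the double covers `Spec A[t] / (t ^ 2 + b t + c) → Spec A` -/
  dbl : ∃ S : DblMaps T, S.Frobenius ∧ S.Degree hT.toProperMaps ∧ S.Classes ∧
    S.Galois hT.toProperMaps
  /-- pull-back along finite etale coverings -/
  etale : EtTrans T hT.toProperMaps
  /-- pull-back along line bundles -/
  bundles : ∃ S : BunMaps T, S.Good hT

variable {T : ∀ i : ℕ, Homology.{v} k E i} {hT : Full T}

lemma Pub2.toPub (hP : Pub2 T hT) : Pub T hT where
  weights := hP.weights
  bdFrob := hP.bdFrob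
  resExact := hP.resExact
  lineRes := hP.lineRes
  dbl := by
    obtain ⟨S, h1, h2, h3, -⟩ := hP.dbl
    exact ⟨S, h1, h2, h3⟩
  divisors := hP.divisors

lemma dimLE_of_smoothProper {Y : Var k} {d : ℕ} (h : Y.SmoothProper d) : Y.DimLE d := by
  obtain ⟨-, -, hint, hdim⟩ := h
  intro x
  refine (dim_le_of_specializes Y (genericPoint_specializes x)).trans ?_
  rw [hdim]

section

variable [CharZero E]

lemma pfEt (hP : Pub2 T hT) : PfEt T :=
  fun i _ _ f hint h => pf_et hT hP.toPub hP.etale i f hint h

lemma ppfOdd [Finite k] (hP : Pub2 T hT) : PpfOdd T := by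
  obtain ⟨S, h1, h2, h3, h4⟩ := hP.dbl
  exact fun A _ _ _ m a ha h =>
    Asm.s_OODD k E T hT S hP.toPub hP.sectionZero h1 h2 h3 h4 A m a ha h

lemma ppfBun [Finite k] (hP : Pub2 T hT) : PpfBun T := by
  obtain ⟨S, hS⟩ := hP.bundles
  exact fun B s j hs hc h => Asm.s_BCT k E T hT hP.toPub hP.sectionZero S hS B s j hs hc h

/-- The conjecture holds on the class if the property holds in dimension at most `d`. -/
theorem q1_of_pp [Finite k] (hP : Pub2 T hT) (d : ℕ) (hB : ∀ X : Var k, X.DimLE d → PP T X)
    (X : Var k) (hX : Built k d X) (i : ℕ) : Q1 (T i) X :=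
  q1_of_built hT hP.toPub hP.sectionZero (pfEt hP) (ppfOdd hP) (ppfBun hP) d hB X hX i

/-- The conjecture holds on the class built from the varieties of dimension at most one. -/
theorem main_one [Finite k] (hP : Pub2 T hT) (X : Var k) (hX : Built k 1 X) (i : ℕ) :
    Q1 (T i) X :=
  q1_of_pp hP 1 (fun X hX => pp_of_dimLE_one hT hP.toPub X hX) X hX i

/-- The conjecture of Tate for smooth proper surfaces is equivalent to the conjecture for the class
built from the varieties of dimension at most two. -/
theorem main_two [Finite k] (hP : Pub2 T hT) (hA : Pool.Agent.Lib_helper66.OneP.Alterations k) :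
    (∀ Y : Var k, Y.SmoothProper 2 → (T 1).Surj Y ∧ (T 1).Semisimple Y) ↔
      ∀ X : Var k, Built k 2 X → ∀ i, Q1 (T i) X := by
  constructor
  · intro h X hX i
    exact q1_of_pp hP 2 (fun X hX => pp_of_dimLE_two hT hP.toPub
      (fun X _ => surf_of_sp hT hP.toPub hA hP.etale.etPull h X) X hX) X hX i
  · intro h Y hY
    have h1 := h Y (Built.small Y (dimLE_of_smoothProper hY)) 1
    exact ⟨h1.2.1, h1.2.2⟩

/-- The conjecture for smooth proper varieties of dimension at most `d` is equivalent to the
conjecture for the class built from the varieties of dimension at most `d`. -/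
theorem main_all [Finite k] (hP : Pub2 T hT) (hA : Pool.Agent.Lib_helper66.OneP.Alterations k) (hPu : ∀ i, Purity (T i))
    (d : ℕ) :
    (∀ (Y : Var k) (D : ℕ), D ≤ d → Y.SmoothProper D → ∀ i, Q1 (T i) Y) ↔
      ∀ X : Var k, Built k d X → ∀ i, Q1 (T i) X := by
  constructor
  · intro h X hX i
    exact q1_of_pp hP d
      (fun X hX => pp_of_sp hT hP.toPub hA hPu hP.etale d h X hX) X hX i
  · intro h Y D hD hY i
    refine h Y (Built.small Y ?_) i
    intro x
    exact (dimLE_of_smoothProper hY x).trans (by exact_mod_cast hD)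

end

end QCV
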