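import Pool.Agent.QCV.StR

/-!
# QCV: small lemmas
-/

set_option autoImplicit false

open Polynomial

namespace QCV

lemma totalDegree_map_le {R S : Type} [CommRing R] [CommRing S] {n : ℕ} (ψ : R →+* S)
    (p : MvPolynomial (Fin n) R) : (MvPolynomial.map ψ p).totalDegree ≤ p.totalDegree :=
  Finset.sup_mono (MvPolynomial.support_map_subset _ _)

end QCV
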