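import Pool.Agent.QCV.StR
import Pool.Agent.CUB.Defs3

/-!
# QCV: kernels of `Qmap`
-/

set_option autoImplicit false

open Polynomial

namespace QCV

open CUB

/-- The kernel of `Qmap φ` for a surjective `φ` with kernel `(a)`. -/
lemma ker_Qmap {k T S : Type} [Field k] [CommRing T] [CommRing S] [Algebra k T] [Algebra k S]
    {g : T} {g' : S} (φ : T →ₐ[k] S) (h : φ g = g') (a : T)
    (hk : RingHom.ker φ.toRingHom = Ideal.span {a}) :
    RingHom.ker (Qmap φ h).toRingHom = Ideal.span {algebraMap T (Q T g) a} := by
  apply le_antisymm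
  · intro x hx
    obtain ⟨p, q, rfl⟩ := Q_span x
    have h1 : Qmap φ h (algebraMap T (Q T g) p + algebraMap T (Q T g) q * yy g) = 0 := hx
    rw [map_add, map_mul, Qmap_algebraMap, Qmap_algebraMap, Qmap_yy] at h1
    rcases subsingleton_or_nontrivial S with hS | hS
    · have h2 : ∀ t : T, t ∈ Ideal.span {a} := by
        intro t
        rw [← hk]
        exact Subsingleton.elim _ _
      have h3 : ∀ t : T, algebraMap T (Q T g) t ∈ Ideal.span {algebraMap T (Q T g) a} := by
        intro t
        obtain ⟨c, hc⟩ := Ideal.mem_span_singleton.mp (h2 t)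
        rw [hc, map_mul]
        exact Ideal.mul_mem_right _ _ (Ideal.subset_span rfl)
      exact add_mem (h3 _) (Ideal.mul_mem_right _ _ (h3 _))
    have h2 : φ p = 0 ∧ φ q = 0 := by
      have e1 : algebraMap S (Q S g') (φ p) + algebraMap S (Q S g') (φ q) * yy g' =
          AdjoinRoot.mk (asPoly g') (C (φ p) + C (φ q) * X) := by
        rw [map_add, map_mul]
        rfl
      rw [e1, AdjoinRoot.mk_eq_zero] at h1
      have e2 : (C (φ p) + C (φ q) * X : S[X]) = 0 := by
        by_contra hne
        have hd := (asPoly_monic g').not_dvd_of_natDegree_lt hne ?_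
        · exact hd h1
        · have h3 : (asPoly g').natDegree = 2 := by
            unfold asPoly
            compute_degree!
          rw [h3]
          refine lt_of_le_of_lt (natDegree_add_le _ _) ?_
          refine max_lt ?_ ?_
          · rw [natDegree_C]; omega
          · exact lt_of_le_of_lt (natDegree_C_mul_le _ _) (by
              refine lt_of_le_of_lt natDegree_X_le ?_
              omega)
      constructor
      · simpa using congrArg (fun F => coeff F 0) e2
      · simpa using congrArg (fun F => coeff F 1) e2
    have h3 : ∀ t : T, φ t = 0 → algebraMap T (Q T g) t ∈ Ideal.span {algebraMap T (Q T g) a} := by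
      intro t ht
      have h4 : t ∈ RingHom.ker φ.toRingHom := ht
      rw [hk] at h4
      obtain ⟨c, hc⟩ := Ideal.mem_span_singleton.mp h4
      rw [hc, map_mul]
      exact Ideal.mul_mem_right _ _ (Ideal.subset_span rfl)
    exact add_mem (h3 _ h2.1) (Ideal.mul_mem_right _ _ (h3 _ h2.2))
  · rw [Ideal.span_singleton_le_iff_mem]
    change Qmap φ h (algebraMap T (Q T g) a) = 0
    rw [Qmap_algebraMap]
    have h1 : a ∈ RingHom.ker φ.toRingHom := by
      rw [hk]
      exact Ideal.subset_span rfl
    have h2 : φ a = 0 := h1
    rw [h2, map_zero]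

end QCV
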