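import Pool.Agent.QCV.StB

/-!
# QCV, module BCT: from the complement of a section of a line bundle to the base
-/

set_option autoImplicit false

open CategoryTheory AlgebraicGeometry Limits Polynomial TopologicalSpace

namespace QCV

open Pool.Agent.Lib_helper55.Beil Pool.Agent.Lib_helper66.OneP CUB

universe v

/-- BCT. -/
theorem t_BCT : M_BCT.{v} := by
  intro hB k E _ _ _ _ T hT hP hS S hG Y X U B s j hs hc hU
  obtain ⟨D, hD⟩ := CUB.t_FDM k X
  have key : ∀ m i : ℕ, D ≤ i + m → PF (T i) X := by
    intro m
    induction m with
    | zero =>
      intro i hi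
      exact pf_of_dimLE hT hP i X fun x => (hD x).trans (by exact_mod_cast hi)
    | succ m ih =>
      intro i hi
      exact hB k E T hT hP hS S hG i B
        (pf_glue hT hP (i + 1) s j hc (ih (i + 1) (by omega)) (hU (i + 1)))
  intro i
  exact key D i (by omega)

end QCV
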