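import Pool.Agent.QCV.StB

/-!
# QCV, block B: the property `PF` descends from a line bundle to the base
-/

set_option autoImplicit false

open CategoryTheory AlgebraicGeometry Limits Polynomial TopologicalSpace

namespace QCV

open Pool.Agent.Lib_helper55.Beil Pool.Agent.Lib_helper66.OneP CUB

universe v

/-- The property `PF` descends from a line bundle to the base. -/
theorem t_BDS : M_BDS.{v} := by
  intro hBSU hBIN k E _ _ _ _ T hT hP hS S hG i Y X B h
  have hfr := hG.1
  refine ⟨?_, hBIN k E T hT hP hS S hG i B h, ?_⟩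
  · intro α hα
    refine alg_of_supp i X α hα (hBSU k E T hT hP hS S hG i (2 * i) i B α ?_)
    have h1 : S.V i (2 * i) B α ∈ (T (i + 1)).gen Y :=
      maxGen_map ((T i).frob (2 * i) X) ((T (i + 1)).frob (2 * (i + 1)) Y) (S.pb i (2 * i) B)
        (hfr i (2 * i) B) hα
    obtain ⟨c, hc⟩ := exists_cls (T (i + 1)) Y _ (h.1 h1)
    have h2 := supp_cls (T := T) (i + 1) Y c
    have h3 : clz (T (i + 1)) Y c = S.V i (2 * i) B α := hc
    rw [h3] at h2
    exact h2
  · intro m hm
    refine hBSU k E T hT hP hS S hG i (2 * i + 1) (i + 1) B m (h.2.2 _ ?_)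
    exact maxGen_map ((T i).frob (2 * i + 1) X) ((T (i + 1)).frob (2 * (i + 1) + 1) Y)
      (S.pb i (2 * i + 1) B) (hfr i (2 * i + 1) B) hm

end QCV
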