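import Pool.Agent.QCV.B_BSU

/-!
# QCV, block B: the injectivity of the cycle class map descends from a line bundle to the base
-/

set_option autoImplicit false

open CategoryTheory AlgebraicGeometry Limits Polynomial TopologicalSpace

namespace QCV

open Pool.Agent.Lib_helper55.Beil Pool.Agent.Lib_helper66.OneP CUB

universe v

namespace BIN

variable {k : Type} [Field k]

/-- The base change of a morphism of varieties. -/
lemma exists_base {Y X X' : Var k} (q : Y.X ⟶ X.X) (hq : q ≫ X.f = Y.f) (g : X'.X ⟶ X.X)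
    (hg : g ≫ X.f = X'.f) :
    ∃ (Y' : Var k) (q' : Y'.X ⟶ X'.X) (h : Y'.X ⟶ Y.X), q' ≫ X'.f = Y'.f ∧ h ≫ Y.f = Y'.f ∧
      IsPullback q' h g q := by
  have e1 : LocallyOfFiniteType (q ≫ X.f) := by
    rw [hq]
    infer_instance
  have e2 : QuasiCompact (q ≫ X.f) := by
    rw [hq]
    infer_instance
  have e3 : IsSeparated (q ≫ X.f) := by
    rw [hq]
    infer_instance
  have h1 : LocallyOfFiniteType q := locallyOfFiniteType_of_comp q X.f
  have h2 : QuasiCompact q := QuasiCompact.of_comp q X.f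
  have h3 : IsSeparated q := IsSeparated.of_comp q X.f
  have hP : IsPullback (pullback.fst q g) (pullback.snd q g) q g :=
    IsPullback.of_hasPullback q g
  let Y' : Var k :=
    { X := pullback q g
      f := pullback.snd q g ≫ X'.f
      sep := inferInstance
      lft := inferInstance
      qc := inferInstance }
  have hc : pullback.fst q g ≫ Y.f = pullback.snd q g ≫ X'.f := by
    rw [← hq, ← Category.assoc, hP.w, Category.assoc, hg]
  exact ⟨Y', pullback.snd q g, pullback.fst q g, rfl, hc, hP.flip⟩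

/-- The base change of a product with the affine line. -/
lemma exists_lineBase {Y X X' : Var k} (L : Line Y X) (g : X'.X ⟶ X.X) (hg : g ≫ X.f = X'.f) :
    ∃ (Y' : Var k) (L' : Line Y' X') (h : Y'.X ⟶ Y.X), h ≫ Y.f = Y'.f ∧
      IsPullback L'.q h g L.q := by
  obtain ⟨Y', q', h, h1, h2, h3⟩ := exists_base L.q L.comm g hg
  have h4 := (h3.flip.paste_horiz L.prod.flip).flip
  rw [hg] at h4
  exact ⟨Y', ⟨q', h ≫ L.t, h1, h4⟩, h, h2, h3⟩

/-- The base change of a line bundle. -/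
lemma exists_bun {Y X X' : Var k} (B : Bun Y X) (g : X'.X ⟶ X.X) (hg : g ≫ X.f = X'.f) :
    ∃ (Y' : Var k) (B' : Bun Y' X') (h : Y'.X ⟶ Y.X), h ≫ Y.f = Y'.f ∧
      IsPullback B'.q h g B.q := by
  obtain ⟨Y', q', h, h1, h2, h3⟩ := exists_base B.q B.comm g hg
  refine ⟨Y', ⟨q', h1, ?_⟩, h, h2, h3⟩
  intro x
  obtain ⟨W, V, L, l, j, hL, v, hv⟩ := B.loc (g x)
  obtain ⟨V', j', gV, e1, e2, hV⟩ := exists_base j.g j.comm g hg
  have hj' : IsOpenImmersion j' := MorphismProperty.of_isPullback hV.flip j.isOpen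
  obtain ⟨W', L', m, f1, hm⟩ := exists_lineBase L gV e2
  have ho : IsPullback L'.q (m ≫ l.g) (gV ≫ j.g) B.q := hm.paste_vert hL
  have hw : (L'.q ≫ j') ≫ g = (m ≫ l.g) ≫ B.q := by
    rw [Category.assoc, hV.w, ho.w]
  let l' : W'.X ⟶ Y'.X := h3.lift (L'.q ≫ j') (m ≫ l.g) hw
  have hl1 : l' ≫ q' = L'.q ≫ j' := h3.lift_fst _ _ _
  have hl2 : l' ≫ h = m ≫ l.g := h3.lift_snd _ _ _
  have hp : IsPullback L'.q l' j' q' := by
    refine IsPullback.of_bot ?_ hl1.symm h3
    rw [hl2, hV.w]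
    exact ho
  have hl' : IsOpenImmersion l' := MorphismProperty.of_isPullback hp hj'
  have hc : l' ≫ Y'.f = W'.f := by
    rw [← h1, ← Category.assoc, hl1, Category.assoc, e1, L'.comm]
  obtain ⟨z, hz, -⟩ := Scheme.exists_preimage_of_isPullback hV x v hv.symm
  exact ⟨W', V', L', ⟨l', hc, hl'⟩, ⟨j', e1, hj'⟩, hp, z, hz⟩

/-- The restriction of a line bundle to a closed subvariety. -/
lemma exists_bunClosed {Y X Z : Var k} (B : Bun Y X) (a : ClosedIn Z X) :
    ∃ (Y' : Var k) (B' : Bun Y' Z) (b : ClosedIn Y' Y), IsPullback B'.q b.g a.g B.q := by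
  obtain ⟨Y', B', h, h1, h2⟩ := exists_bun B a.g a.comm
  have h3 : IsClosedImmersion h := MorphismProperty.of_isPullback h2 a.closed
  exact ⟨Y', B', ⟨h, h1, h3⟩, h2⟩

/-- The restriction of a line bundle to an open subvariety. -/
lemma exists_bunOpen {Y X U : Var k} (B : Bun Y X) (j : OpenIn U X) :
    ∃ (Y' : Var k) (B' : Bun Y' U) (l : OpenIn Y' Y), IsPullback B'.q l.g j.g B.q := by
  obtain ⟨Y', B', h, h1, h2⟩ := exists_bun B j.g j.comm
  have h3 : IsOpenImmersion h := MorphismProperty.of_isPullback h2 j.isOpen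
  exact ⟨Y', B', ⟨h, h1, h3⟩, h2⟩

/-- The parts of a line bundle over the two parts of the base are complementary. -/
lemma bun_compl {Y X Z U Y₁ Y₂ : Var k} (B : Bun Y X) (B₁ : Bun Y₁ Z) (B₂ : Bun Y₂ U)
    (a : ClosedIn Z X) (j : OpenIn U X) (h : Complementary a j) (b : ClosedIn Y₁ Y)
    (l : OpenIn Y₂ Y) (hb : IsPullback B₁.q b.g a.g B.q) (hl : IsPullback B₂.q l.g j.g B.q) :
    Complementary b l := by
  have h1 := cart_range hb
  have h2 := cart_range hl
  rw [Complementary, h1, h2, show Set.range a.g = (Set.range j.g)ᶜ from h]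
  rfl

/-- The dimension of the points of a line bundle. -/
lemma bun_dim {Y X : Var k} (B : Bun Y X) (y : Y.X) : Y.dim y ≤ X.dim (B.q y) + 1 := by
  obtain ⟨W, V, L, l, j, hL, v, hv⟩ := B.loc (B.q y)
  obtain ⟨z, hz1, hz2⟩ := Scheme.exists_preimage_of_isPullback hL v y hv
  have h1 := (LPT.line_le L z).2
  rw [hz1] at h1
  have hj := j.isOpen
  have hl := l.isOpen
  rw [← hv, ← hz2, dim_map l.g l.comm, dim_map j.g j.comm]
  exact h1

lemma bun_dimLE {Y X : Var k} (B : Bun Y X) {e : ℕ} (h : X.DimLE e) :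
    Y.DimLE (e + 1 : ℕ) := by
  intro y
  calc Y.dim y ≤ X.dim (B.q y) + 1 := bun_dim B y
    _ ≤ (e : Cardinal) + 1 := by
      gcongr
      exact h _
    _ = ((e + 1 : ℕ) : Cardinal) := by push_cast; rfl

end BIN

open BIN in
/-- The injectivity of the cycle class map descends, from the descent of supports. -/
theorem t_BINu : S_BSU.{v} → S_BIN.{v} := by
  intro hBSU k E _ _ _ _ T hT hP hS S hG i Y X B hY
  rw [injC_iff]
  intro c hc
  obtain ⟨hFr, hBij, -, hRes, hPush, hBdy⟩ := id hG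
  obtain ⟨C₀, hC₀, c', rfl⟩ := exists_supp_cyc X c
  let W : Var k := closedVar X C₀
  let a : ClosedIn W X := closedVarIn X C₀
  let j : OpenIn (openVar X C₀.compl) X := openVarIn X C₀.compl
  have hc1 : Complementary a j := by
    rw [Complementary, range_closedVarIn, range_openVarIn]
    simp
  have hWd : W.DimLE i := dimLE_of_mem C₀ hC₀
  let w : (T i).H (2 * i) W := clz (T i) W c'
  have hw : (T i).P (2 * i) a w = 0 := by
    change (T i).P (2 * i) a (clz (T i) W c') = 0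
    rw [clz_push]
    exact hc
  obtain ⟨u₁, hu₁⟩ := (hT.bdExact i (2 * i) a j hc1 w).mp hw
  have hu₁' : bdl hT i (2 * i) a j hc1 u₁ = w := hu₁
  -- the parts of the line bundle
  obtain ⟨YW, BW, b, hbP⟩ := exists_bunClosed B a
  obtain ⟨YO, BO, l, hlP⟩ := exists_bunOpen B j
  have hcb : Complementary b l := bun_compl B BW BO a j hc1 b l hbP hlP
  have hVw : S.V i (2 * i) BW w ∈ (T (i + 1)).gen YW :=
    maxGen_map ((T i).frob (2 * i) W) ((T (i + 1)).frob (2 * (i + 1)) YW) (S.pb i (2 * i) BW)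
      (hFr i (2 * i) BW) (cls_mem_gen (T i) W c')
  obtain ⟨d, hd⟩ := exists_cls (T (i + 1)) YW _
    (good_of_dimLE (T (i + 1)) YW (bun_dimLE BW hWd) hVw)
  have h1 : (T (i + 1)).P (2 * i + 2) b (S.V i (2 * i) BW w) = 0 := by
    rw [← hT.pfClosed (i + 1) (2 * i + 2) b (clPr b) rfl,
      ← hPush i (2 * i) B BW (clPr b) (clPr a) hbP, hT.pfClosed i (2 * i) a (clPr a) rfl, hw]
    exact map_zero (S.pb i (2 * i) B)
  have h2 : clz (T (i + 1)) Y (pushCyc b d) = 0 := by
    rw [← clz_push]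
    have h3 : clz (T (i + 1)) YW d = S.V i (2 * i) BW w := hd
    rw [h3]
    exact h1
  obtain ⟨C, hC, e, he, hed⟩ := ratZero_supp Y _ ((injC_iff (T (i + 1)) Y).1 hY.2.1 _ h2)
  obtain ⟨D, Bd, o, bD, p, q, hD, hBd, hcomp⟩ := exists_parts b l hcb (closedVarIn Y C)
  obtain ⟨z, hz1, hz2⟩ := exists_common b l hcb (closedVarIn Y C) o bD p q hD.w hBd.w hcomp e d hed
  have h3 : (T (i + 1)).P (2 * (i + 1)) p (clz (T (i + 1)) Bd z) = 0 := by
    rw [clz_push, hz1]
    exact (T (i + 1)).cl_rat _ _ he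
  obtain ⟨u₂, hu₂⟩ := (hT.bdExact (i + 1) (2 * (i + 1)) p o hcomp _).mp h3
  have hu₂' : bdl hT (i + 1) (2 * (i + 1)) p o hcomp u₂ = clz (T (i + 1)) Bd z := hu₂
  have h4 := bdl_push hT (i + 1) (2 * (i + 1)) p o hcomp b l hcb q bD (closedVarIn Y C) hBd.w
    hD.w u₂
  rw [hu₂', clz_push, hz2] at h4
  have h5 : bdl hT (i + 1) (2 * (i + 1)) b l hcb ((T (i + 1)).P (2 * (i + 1) + 1) bD u₂) =
      S.V i (2 * i) BW w := by
    rw [← h4]
    exact hd
  have h6 : bdl hT (i + 1) (2 * (i + 1)) b l hcb (S.V i (2 * i + 1) BO u₁) =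
      S.V i (2 * i) BW w := by
    have h := hBdy i (2 * i) a j hc1 b l hcb BW BO B hbP hlP u₁
    have h' : S.V i (2 * i) BW (bdl hT i (2 * i) a j hc1 u₁) =
      bdl hT (i + 1) (2 * (i + 1)) b l hcb (S.V i (2 * i + 1) BO u₁) := h
    rw [← h', hu₁']
  have h7 : bdl hT (i + 1) (2 * (i + 1)) b l hcb ((T (i + 1)).P (2 * (i + 1) + 1) bD u₂ -
      S.V i (2 * i + 1) BO u₁) = 0 := by
    rw [map_sub, h5]
    exact sub_eq_zero.mpr h6.symm
  obtain ⟨y, hy⟩ := (hP.resExact (i + 1) (2 * (i + 1)) b l hcb _).mp h7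
  obtain ⟨x, hx⟩ := (hBij i (2 * i + 1) B).surjective y
  let u : (T i).H (2 * i + 1) (openVar X C₀.compl) := u₁ + (T i).R (2 * i + 1) j x
  have h8 : S.V i (2 * i + 1) BO u = (T (i + 1)).P (2 * (i + 1) + 1) bD u₂ := by
    have h9 := hRes i (2 * i + 1) B BO l j hlP x
    have h10 : S.V i (2 * i + 1) BO u = S.V i (2 * i + 1) BO u₁ +
      S.V i (2 * i + 1) BO ((T i).R (2 * i + 1) j x) := map_add (S.pb i (2 * i + 1) BO) _ _
    rw [h10, ← h9, hx]
    have h11 : (T (i + 1)).R (2 * i + 1 + 2) l y = (T (i + 1)).P (2 * (i + 1) + 1) bD u₂ -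
      S.V i (2 * i + 1) BO u₁ := hy
    rw [h11]
    exact add_sub_cancel _ _
  have h11 : bdl hT i (2 * i) a j hc1 u = w := by
    have h12 : bdl hT i (2 * i) a j hc1 ((T i).R (2 * i + 1) j x) = 0 :=
      (hP.resExact i (2 * i) a j hc1 _).mpr ⟨x, rfl⟩
    have h13 : bdl hT i (2 * i) a j hc1 u = bdl hT i (2 * i) a j hc1 u₁ +
      bdl hT i (2 * i) a j hc1 ((T i).R (2 * i + 1) j x) := map_add _ _ _
    rw [h13, h12, hu₁', add_zero]
  have h12 : Supp (T i) (2 * i + 1) (i + 1) _ u := by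
    refine hBSU k E T hT hP hS S hG i (2 * i + 1) (i + 1) BO u ?_
    rw [h8]
    exact supp_mk hT.toExtra (i + 1) (2 * (i + 1) + 1) (i + 1 + 1) bD
      (dimLE_open o (dimLE_of_mem C hC)) u₂
  obtain ⟨G, hGd, g, hg⟩ := h12
  obtain ⟨W', w', h', B', p', q', hcomp', e1, e2, hW', -, hred⟩ := exists_boundary a j hc1
    (closedVarIn _ G) i (dimLE_of_mem G hGd)
  have h13 := bdl_push hT i (2 * i) p' h' hcomp' a j hc1 q' (closedVarIn _ G) w' e1 e2 g
  rw [hg, h11] at h13
  have h14 : (T i).P (2 * i) p' (bdl hT i (2 * i) p' h' hcomp' g) = 0 :=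
    (hT.bdExact i (2 * i) p' h' hcomp' _).mpr ⟨g, rfl⟩
  have hredD := REDI.isReduced_closedVar (openVar X C₀.compl) G
  have hW'r := hred hredD
  let K : Closeds X.X := C₀ ⊔ ran w'
  let f₁ : ClosedIn W (closedVar X K) := closedVarMap X (le_sup_left : C₀ ≤ C₀ ⊔ ran w')
  let f₂ : ClosedIn W' (closedVar X K) := factorC w' K fun x => Or.inr ⟨x, rfl⟩
  have hf₁ : f₁.g ≫ (closedVarIn X K).g = a.g := closedVarMap_comp X le_sup_left
  have hf₂ : f₂.g ≫ (closedVarIn X K).g = w'.g := factorC_comp _ _ _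
  have hKd : ∀ x ∈ K, X.dim x ≤ (i + 1 : ℕ) := by
    rintro x (hx | ⟨x', rfl⟩)
    · exact (hC₀ x hx).trans (by exact_mod_cast Nat.le_succ i)
    · have := w'.closed
      rw [dim_map w'.g w'.comm]
      exact hW' x'
  have hK := (closedVarIn X K).closed
  have hcm : p'.g ≫ f₂.g = (q'.trans f₁).g := by
    apply (cancel_mono (closedVarIn X K).g).mp
    change (p'.g ≫ f₂.g) ≫ (closedVarIn X K).g = (q'.g ≫ f₁.g) ≫ (closedVarIn X K).g
    rw [Category.assoc, Category.assoc, hf₁, hf₂, e1]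
  have h15 : (T i).P (2 * i) f₁ w = 0 := by
    rw [← h13, hT.push_comp i (2 * i) _ _ _ q' f₁ (q'.trans f₁) rfl,
      ← hT.push_comp i (2 * i) _ _ _ p' f₂ (q'.trans f₁) hcm, h14]
    exact map_zero ((T i).push (2 * i) f₂)
  have h16 : clz (T i) (closedVar X K) (pushCyc f₁ c') = 0 := by
    rw [← clz_push]
    exact h15
  have h17 := (injC_iff (T i) _).mp (((T i).inj_iff _).mp
    (hP.divisors i (closedVar X K) (dimLE_of_mem K hKd))) _ h16
  have h18 := pushCyc_ratZero (closedVarIn X K) _ h17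
  rwa [pushCyc_comp f₁ (closedVarIn X K) a hf₁] at h18

theorem t_BIN : M_BIN.{v} := fun h1 h2 => t_BINu (t_BSU h1 h2)

end QCV
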