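import Pool.Agent.QCV.B_BSU
import Pool.Agent.QCV.B_BIN
import Pool.Agent.QCV.B_BDS
import Pool.Agent.QCV.B_BCT

/-!
# QCV, block B: assembly
-/

set_option autoImplicit false

namespace QCV

universe v

namespace Asm

theorem s_BIN : S_BIN.{v} := t_BINu BSU.main

theorem s_BDS : S_BDS.{v} := t_BDS BSU.main s_BIN

theorem s_BCT : S_BCT.{v} := t_BCT s_BDS

end Asm

end QCV
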