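import Pool.Agent.QCV.StB

/-!
# QCV, block B: from the affine cone to the projective variety
-/

set_option autoImplicit false

open CategoryTheory AlgebraicGeometry Limits Polynomial TopologicalSpace

namespace QCV

open Pool.Agent.Lib_helper55.Beil Pool.Agent.Lib_helper66.OneP CUB

attribute [local instance] MvPolynomial.gradedAlgebra

namespace BCO

/-- The range of the closed immersion of `Spec (A / I)`. -/
lemma mem_range_clo {k : Type} [Field k] {A B : Type} [CommRing A] [CommRing B] [Algebra k A]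
    [Algebra k B] [Algebra.FiniteType k A] [Algebra.FiniteType k B] (ψ : A →ₐ[k] B)
    (hψ : Function.Surjective ψ) (x : (aff k A).X) :
    x ∈ Set.range (clo ψ hψ).g ↔ RingHom.ker ψ.toRingHom ≤ (ofPt x).asIdeal := by
  have h1 : Set.range (clo ψ hψ).g =
      (Set.range (PrimeSpectrum.comap ψ.toRingHom) : Set (PrimeSpectrum A)) := rfl
  rw [h1]
  have h2 : (Set.range (PrimeSpectrum.comap ψ.toRingHom) : Set (PrimeSpectrum A)) =
      {p : PrimeSpectrum A | RingHom.ker ψ.toRingHom ≤ p.asIdeal} := range_spm_surj ψ hψ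
  constructor
  · intro h
    have h3 : ofPt x ∈ (Set.range (PrimeSpectrum.comap ψ.toRingHom) : Set (PrimeSpectrum A)) := h
    rw [h2] at h3
    exact h3
  · intro h
    have h3 : ofPt x ∈ (Set.range (PrimeSpectrum.comap ψ.toRingHom) : Set (PrimeSpectrum A)) := by
      rw [h2]
      exact h
    exact h3

end BCO

theorem t_BCO : M_BCO := by
  intro hUNI hBPL k _ P cut range contract R ι _ _ _ n f m hm hm1 hPZ hPC X S
  obtain ⟨Q, Y, U, ε, B, s, j, c, hε, hs, hc, hU1, hU2⟩ := hUNI k R n
  have hSc := S.closed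
  let g : ClosedIn X Q := ⟨S.g ≫ ε.inv, by
    rw [← hε, Category.assoc, Iso.inv_hom_id_assoc, S.comm], inferInstance⟩
  obtain ⟨Y', U', B', s', j', b, hs', hc', hb⟩ := hBPL k B s j hs hc g
  have hb2 : ∀ u : U.X, u ∈ Set.range b.g ↔ ∀ l, f l ∈ (ofPt (c.g u)).asIdeal := by
    intro u
    rw [hb u]
    have h1 : B.q (j.g u) ∈ Set.range g.g ↔ ∃ x : X.X, S.g x = ε.hom (B.q (j.g u)) := by
      constructor
      · rintro ⟨x, hx⟩
        refine ⟨x, ?_⟩
        rw [← hx]
        change S.g x = ε.hom ((S.g ≫ ε.inv) x)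
        rw [← Scheme.Hom.comp_apply, Category.assoc, Iso.inv_hom_id, Category.comp_id]
      · rintro ⟨x, hx⟩
        refine ⟨x, ?_⟩
        change (S.g ≫ ε.inv) x = _
        rw [Scheme.Hom.comp_apply, hx, ← Scheme.Hom.comp_apply, Iso.hom_inv_id]
        rfl
    rw [h1]
    refine (S.range _).trans (forall_congr' fun l => ?_)
    exact hU2 u (m l) (f l) (hm l)
  -- the cone
  let A := MvPolynomial (Fin (n + 1)) R
  let I : Ideal A := Ideal.span (Set.range f)
  let cC : ClosedIn (aff k (A ⧸ I)) (aff k A) :=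
    clo (Ideal.Quotient.mkₐ k I) (Ideal.Quotient.mkₐ_surjective k I)
  have hcC : ∀ x : (aff k A).X, x ∈ Set.range cC.g ↔ ∀ l, f l ∈ (ofPt x).asIdeal := by
    intro x
    refine (BCO.mem_range_clo _ _ x).trans ?_
    have h1 : RingHom.ker (Ideal.Quotient.mkₐ k I).toRingHom = I := Ideal.mk_ker
    rw [h1, Ideal.span_le]
    exact Set.range_subset_iff
  -- the vertex
  let ψ : A →ₐ[k] R := (MvPolynomial.aeval (R := R) (0 : Fin (n + 1) → R)).restrictScalars k
  have hψC : ∀ a : R, ψ (MvPolynomial.C a) = a := fun a => MvPolynomial.aeval_C _ a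
  have hψX : ∀ l, ψ (MvPolynomial.X l) = 0 := fun l => MvPolynomial.aeval_X _ l
  have hψs : Function.Surjective ψ := fun a => ⟨MvPolynomial.C a, hψC a⟩
  have hψf : ∀ l, ψ (f l) = 0 := by
    intro l
    have h1 : ψ (f l) = MvPolynomial.constantCoeff (f l) := by
      change MvPolynomial.aeval (R := R) (0 : Fin (n + 1) → R) (f l) = _
      rw [MvPolynomial.aeval_zero]
      rfl
    rw [h1, MvPolynomial.constantCoeff_eq]
    apply (hm l).coeff_eq_zero
    have h2 := hm1 l
    rw [map_zero]
    omega
  have hψI : ∀ a ∈ I, ψ a = 0 := by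
    intro a ha
    have h1 : I ≤ RingHom.ker ψ.toRingHom := by
      rw [Ideal.span_le]
      exact Set.range_subset_iff.mpr hψf
    exact h1 ha
  let aZ : ClosedIn (aff k R) (aff k (A ⧸ I)) :=
    clo (Ideal.Quotient.liftₐ I ψ hψI) (Ideal.Quotient.lift_surjective_of_surjective I hψI hψs)
  have haZ : aZ.g ≫ cC.g = (clo ψ hψs).g := by
    change Spec.map _ ≫ Spec.map _ = Spec.map _
    rw [← Spec.map_comp, ← CommRingCat.ofHom_comp]
    rfl
  have hψk : ∀ q : PrimeSpectrum A, RingHom.ker ψ.toRingHom ≤ q.asIdeal ↔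
      ∀ l, (MvPolynomial.X l : A) ∈ q.asIdeal := by
    intro q
    constructor
    · intro h l
      exact h (hψX l)
    · intro h p hp
      have key : ∀ p : A, p - MvPolynomial.C (ψ p) ∈ q.asIdeal := by
        intro p
        induction p using MvPolynomial.induction_on with
        | C a =>
          rw [hψC, sub_self]
          exact q.asIdeal.zero_mem
        | add p p' hp hp' =>
          have h1 : p + p' - MvPolynomial.C (ψ (p + p')) =
              (p - MvPolynomial.C (ψ p)) + (p' - MvPolynomial.C (ψ p')) := by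
            rw [map_add, map_add]
            ring
          rw [h1]
          exact q.asIdeal.add_mem hp hp'
        | mul_X p i hp =>
          rw [map_mul, hψX, mul_zero, map_zero, sub_zero]
          exact q.asIdeal.mul_mem_left _ (h i)
      have h1 : ψ p = 0 := hp
      have h2 := key p
      rw [h1, map_zero, sub_zero] at h2
      exact h2
  -- the open part
  obtain ⟨D, o, b', hD⟩ := exists_cart cC c
  have ho : Set.range o.g = cC.g ⁻¹' Set.range c.g := cart_range hD.flip
  have hb' : Set.range b'.g = c.g ⁻¹' Set.range cC.g := cart_range hD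
  have hcomp : Complementary aZ o := by
    rw [Complementary, ho]
    ext x
    have h1 : x ∈ Set.range aZ.g ↔ ∀ l, (MvPolynomial.X l : A) ∈ (ofPt (cC.g x)).asIdeal := by
      rw [← hψk, ← BCO.mem_range_clo ψ hψs, ← haZ]
      constructor
      · rintro ⟨z, rfl⟩
        exact ⟨z, by rw [Scheme.Hom.comp_apply]⟩
      · rintro ⟨z, hz⟩
        refine ⟨z, closedIn_injective cC ?_⟩
        rw [← hz, Scheme.Hom.comp_apply]
    have h5 : cC.g x ∈ Set.range c.g ↔ ∃ l, (MvPolynomial.X l : A) ∉ (ofPt (cC.g x)).asIdeal := by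
      rw [← hU1 (ofPt (cC.g x))]
      rfl
    rw [h1, Set.mem_compl_iff, Set.mem_preimage, h5]
    push Not
    rfl
  have hPD : P D := cut aZ o hcomp hPC hPZ
  have hPU' : P U' := by
    refine range b' b ?_ hPD
    ext u
    rw [hb2 u, hb', Set.mem_preimage, hcC]
  exact contract B' s' j' hs' hc' hPU'

end QCV
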