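import Pool.Agent.QCV.StB

set_option autoImplicit false

/-!
# QCV, block B: pull-back of a line bundle with a section to a closed subvariety
-/

open CategoryTheory AlgebraicGeometry Limits

namespace QCV

open Pool.Agent.Lib_helper55.Beil Pool.Agent.Lib_helper66.OneP CUB

namespace BPL

variable {k : Type} [Field k]

/-- The base change of a line. -/
lemma exists_lineBC {Y X Z : Var k} (L : Line Y X) (r : Z.X ⟶ X.X) (hr : r ≫ X.f = Z.f) :
    ∃ (Y' : Var k) (L' : Line Y' Z) (R : Y'.X ⟶ Y.X), IsPullback R L'.q L.q r := by
  have e1 : LocallyOfFiniteType (L.q ≫ X.f) := by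
    rw [L.comm]
    infer_instance
  have e2 : QuasiCompact (L.q ≫ X.f) := by
    rw [L.comm]
    infer_instance
  have e3 : IsSeparated (L.q ≫ X.f) := by
    rw [L.comm]
    infer_instance
  have h1 : LocallyOfFiniteType L.q := locallyOfFiniteType_of_comp L.q X.f
  have h2 : QuasiCompact L.q := QuasiCompact.of_comp L.q X.f
  have h3 : IsSeparated L.q := IsSeparated.of_comp L.q X.f
  have hP : IsPullback (pullback.fst L.q r) (pullback.snd L.q r) L.q r :=
    IsPullback.of_hasPullback L.q r
  let Y' : Var k :=
    { X := pullback L.q r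
      f := pullback.snd L.q r ≫ Z.f
      sep := inferInstance
      lft := inferInstance
      qc := inferInstance }
  let L' : Line Y' Z :=
    { q := pullback.snd L.q r
      t := pullback.fst L.q r ≫ L.t
      comm := rfl
      prod := by
        have h4 := (hP.paste_horiz L.prod.flip).flip
        rw [hr] at h4
        exact h4 }
  exact ⟨Y', L', pullback.fst L.q r, hP⟩

/-- The projection of a line bundle is separated, quasi-compact and of finite type. -/
lemma bun_props {Y P : Var k} (B : Bun Y P) :
    LocallyOfFiniteType B.q ∧ QuasiCompact B.q ∧ IsSeparated B.q := by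
  have e1 : LocallyOfFiniteType (B.q ≫ P.f) := by
    rw [B.comm]
    infer_instance
  have e2 : QuasiCompact (B.q ≫ P.f) := by
    rw [B.comm]
    infer_instance
  have e3 : IsSeparated (B.q ≫ P.f) := by
    rw [B.comm]
    infer_instance
  exact ⟨locallyOfFiniteType_of_comp B.q P.f, QuasiCompact.of_comp B.q P.f,
    IsSeparated.of_comp B.q P.f⟩

end BPL

open BPL

theorem t_BPL : S_BPL := by
  intro k _ P Y U B s j hs hc X g
  obtain ⟨h1, h2, h3⟩ := bun_props B
  have hgc := g.closed
  have hjo := j.isOpen
  have hsc := s.closed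
  let fY : pullback B.q g.g ⟶ Y.X := pullback.fst B.q g.g
  let qX : pullback B.q g.g ⟶ X.X := pullback.snd B.q g.g
  have hP : IsPullback fY qX B.q g.g := IsPullback.of_hasPullback B.q g.g
  have hfc : IsClosedImmersion fY := inferInstanceAs (IsClosedImmersion (pullback.fst B.q g.g))
  let Y' : Var k :=
    { X := pullback B.q g.g
      f := pullback.snd B.q g.g ≫ X.f
      sep := inferInstance
      lft := inferInstance
      qc := inferInstance }
  have hfY : fY ≫ Y.f = Y'.f := by
    change fY ≫ Y.f = qX ≫ X.f
    rw [← B.comm, ← g.comm, ← Category.assoc, hP.w, Category.assoc]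
  -- the line bundle
  let B' : Bun Y' X :=
    { q := qX
      comm := rfl
      loc := by
        intro x
        obtain ⟨W, V, L, l, jj, hpb, hx⟩ := B.loc (g.g x)
        have hjj := jj.isOpen
        have hV : IsPullback (pullback.fst g.g jj.g) (pullback.snd g.g jj.g) g.g jj.g :=
          IsPullback.of_hasPullback g.g jj.g
        let V' : Var k :=
          { X := pullback g.g jj.g
            f := pullback.fst g.g jj.g ≫ X.f
            sep := inferInstance
            lft := inferInstance
            qc := by
              have e1 : pullback.fst g.g jj.g ≫ X.f = pullback.snd g.g jj.g ≫ V.f := by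
                rw [← g.comm, ← jj.comm, ← Category.assoc, hV.w, Category.assoc]
              rw [e1]
              infer_instance }
        let jV : OpenIn V' X := ⟨pullback.fst g.g jj.g, rfl, inferInstance⟩
        have hVf : pullback.snd g.g jj.g ≫ V.f = V'.f := by
          change pullback.snd g.g jj.g ≫ V.f = pullback.fst g.g jj.g ≫ X.f
          rw [← g.comm, ← jj.comm, ← Category.assoc, ← hV.w, Category.assoc]
        obtain ⟨W', L', R, hR⟩ := exists_lineBC (Z := V') L (pullback.snd g.g jj.g) hVf
        have hbig : IsPullback (R ≫ l.g) L'.q B.q (pullback.snd g.g jj.g ≫ jj.g) :=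
          hR.paste_horiz hpb.flip
        have hcond : pullback.snd g.g jj.g ≫ jj.g = pullback.fst g.g jj.g ≫ g.g := hV.w.symm
        rw [hcond] at hbig
        let l' : W'.X ⟶ Y'.X := hP.lift (R ≫ l.g) (L'.q ≫ pullback.fst g.g jj.g) (by
          rw [hbig.w, Category.assoc])
        have hl1 : l' ≫ fY = R ≫ l.g := hP.lift_fst _ _ _
        have hl2 : l' ≫ qX = L'.q ≫ pullback.fst g.g jj.g := hP.lift_snd _ _ _
        rw [← hl1] at hbig
        have hsq : IsPullback l' L'.q qX (pullback.fst g.g jj.g) :=
          IsPullback.of_right hbig hl2 hP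
        have hopen : IsOpenImmersion l' :=
          MorphismProperty.of_isPullback (P := @IsOpenImmersion) hsq.flip
            (show IsOpenImmersion (pullback.fst g.g jj.g) from inferInstance)
        refine ⟨W', V', L', ⟨l', ?_, hopen⟩, jV, hsq.flip, ?_⟩
        · change l' ≫ qX ≫ X.f = W'.f
          rw [← Category.assoc, hl2, Category.assoc, ← L'.comm]
        · change x ∈ Set.range (pullback.fst g.g jj.g)
          rw [cart_range hV.flip]
          exact hx }
  -- the section
  let s' : X.X ⟶ Y'.X := hP.lift (g.g ≫ s.g) (𝟙 X.X) (by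
    rw [Category.assoc, hs, Category.comp_id, Category.id_comp])
  have hs1 : s' ≫ fY = g.g ≫ s.g := hP.lift_fst _ _ _
  have hs2 : s' ≫ qX = 𝟙 X.X := hP.lift_snd _ _ _
  have hs3 : IsClosedImmersion (s' ≫ fY) := by
    rw [hs1]
    infer_instance
  have hs4 : IsClosedImmersion s' := IsClosedImmersion.of_comp s' fY
  let sC : ClosedIn X Y' := ⟨s', by
    change s' ≫ qX ≫ X.f = X.f
    rw [← Category.assoc, hs2, Category.id_comp], hs4⟩
  -- the complement
  have hU : IsPullback (pullback.fst fY j.g) (pullback.snd fY j.g) fY j.g :=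
    IsPullback.of_hasPullback fY j.g
  have hUf : pullback.snd fY j.g ≫ U.f = pullback.fst fY j.g ≫ Y'.f := by
    rw [← hfY, ← j.comm, ← Category.assoc, ← hU.w, Category.assoc]
  let U' : Var k :=
    { X := pullback fY j.g
      f := pullback.fst fY j.g ≫ Y'.f
      sep := inferInstance
      lft := inferInstance
      qc := by
        rw [← hUf]
        infer_instance }
  let j' : OpenIn U' Y' := ⟨pullback.fst fY j.g, rfl, inferInstance⟩
  let b : ClosedIn U' U := ⟨pullback.snd fY j.g, hUf, inferInstance⟩
  refine ⟨Y', U', B', sC, j', b, hs2, ?_, ?_⟩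
  · -- complementary
    have h5 : IsPullback (s' ≫ qX) g.g g.g (s.g ≫ B.q) := by
      rw [hs2, hs]
      exact IsPullback.of_horiz_isIso ⟨by rw [Category.id_comp, Category.comp_id]⟩
    have h6 : IsPullback s' g.g fY s.g := IsPullback.of_right h5 hs1 hP.flip
    have h7 : Set.range s' = fY ⁻¹' Set.range s.g := cart_range h6.flip
    have h8 : Set.range (pullback.fst fY j.g) = fY ⁻¹' Set.range j.g := cart_range hU.flip
    change Set.range s' = (Set.range (pullback.fst fY j.g))ᶜ
    rw [h7, h8, show Set.range s.g = (Set.range j.g)ᶜ from hc]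
    rfl
  · intro u
    change u ∈ Set.range (pullback.snd fY j.g) ↔ _
    rw [cart_range hU]
    change j.g u ∈ Set.range fY ↔ _
    rw [cart_range hP.flip]
    rfl

end QCV
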