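import Pool.Agent.QCV.StB

/-!
# QCV, module BPR: closed subsets of a line bundle are proper over an open part of the base
-/

set_option autoImplicit false

open CategoryTheory AlgebraicGeometry Limits Polynomial TopologicalSpace

namespace QCV

open Pool.Agent.Lib_helper55.Beil Pool.Agent.Lib_helper66.OneP CUB

namespace BPR

/-- A base change of a base change. -/
lemma proper_of_factor {D X O D' O₂ D₂ : Scheme.{0}} {f : D ⟶ X} {h : D' ⟶ D} {g : D' ⟶ O}
    {j : O ⟶ X} (P1 : IsPullback h g f j) (hg : IsProper g) {u : O₂ ⟶ O} {h₂ : D₂ ⟶ D}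
    {g₂ : D₂ ⟶ O₂} (P2 : IsPullback h₂ g₂ f (u ≫ j)) : IsProper g₂ := by
  have hw : h₂ ≫ f = (g₂ ≫ u) ≫ j := by
    rw [P2.w, Category.assoc]
  have h1 : P1.lift h₂ (g₂ ≫ u) hw ≫ h = h₂ := P1.lift_fst _ _ _
  have h2 : P1.lift h₂ (g₂ ≫ u) hw ≫ g = g₂ ≫ u := P1.lift_snd _ _ _
  have P3 : IsPullback (P1.lift h₂ (g₂ ≫ u) hw) g₂ g u := by
    refine IsPullback.of_right ?_ h2 P1
    rw [h1]
    exact P2
  exact MorphismProperty.of_isPullback P3.flip.flip hg

variable {k : Type} [Field k]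

/-- The case of a product with the affine line. -/
lemma product_case {W V D₁ : Var k} (L : Line W V) (d₁ : ClosedIn D₁ W) (e : ℕ)
    (hd : D₁.DimLE (e + 1 : ℕ)) : ∃ F : Closeds V.X, (∀ x ∈ F, V.dim x ≤ e) ∧
      ∃ (O D' : Scheme.{0}) (j : O ⟶ V.X) (o : D' ⟶ D₁.X) (g : D' ⟶ O),
        IsOpenImmersion j ∧ Set.range j = (F : Set V.X)ᶜ ∧ IsPullback o g (d₁.g ≫ L.q) j ∧
        IsProper g := by
  obtain ⟨H⟩ := CUB.Asm2.s_PLI k
  obtain ⟨B, -⟩ := CUB.Asm2.s_PRO.1 k H V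
  obtain ⟨sY, hsY⟩ := exists_lineIso L B.L
  obtain ⟨W', w, o₁, Bd, p, q, hcomp, h4, h5, -, hBd, -⟩ := exists_boundary B.s B.j B.hc
    (d₁.trans sY.cl) e hd
  let F : Closeds V.X := ran q
  let j : OpenIn (openVar V F.compl) V := openVarIn V F.compl
  have hFd : ∀ x ∈ F, V.dim x ≤ e := by
    rintro x ⟨y, rfl⟩
    have := q.closed
    rw [dim_map q.g q.comm]
    exact hBd y
  obtain ⟨Y', L', l, hl⟩ := exists_lineOpen B.L j
  obtain ⟨D', o, b', ho⟩ := exists_cart (d₁.trans sY.cl) l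
  have hprop := proper_part B (d₁.trans sY.cl) w o₁ p q hcomp h4 h5 j (by
    rw [Set.disjoint_left]
    intro x hx hx2
    have h6 : x ∈ (F.compl : Set V.X) := by
      rw [← range_openVarIn]
      exact hx
    exact h6 hx2) L' l hl o b' ho
  refine ⟨F, hFd, (openVar V F.compl).X, D'.X, j.g, o.g, b'.g ≫ L'.q, j.isOpen,
    range_openVarIn V F.compl, ?_, hprop⟩
  have h6 : d₁.g ≫ L.q = (d₁.trans sY.cl).g ≫ B.L.q := by
    change d₁.g ≫ L.q = (d₁.g ≫ sY.e.hom) ≫ B.L.q
    rw [Category.assoc, hsY]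
  rw [h6]
  exact (ho.flip.paste_horiz hl).flip

end BPR

open BPR in
theorem t_BPR : S_BPR := by
  intro k _ Y X B C e hC
  let f : (closedVar Y C).X ⟶ X.X := (closedVarIn Y C).g ≫ B.q
  -- the points over which the morphism is proper
  let G : Set X.X := {x | ∃ U : X.X.Opens, x ∈ U ∧ IsProper (f ∣_ U)}
  have hG : IsOpen G := by
    rw [isOpen_iff_forall_mem_open]
    rintro x ⟨U, hxU, hU⟩
    exact ⟨U, fun y hy => ⟨U, hy, hU⟩, U.isOpen, hxU⟩
  have hGc : IsClosed Gᶜ := hG.isClosed_compl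
  refine ⟨⟨Gᶜ, hGc⟩, ?_, ?_⟩
  · -- the dimension of the complement
    intro x hx
    obtain ⟨W, V, L, l, jV, hP, v, rfl⟩ := B.loc x
    have hjV := jV.isOpen
    obtain ⟨D₁, o₁, d₁, ho₁⟩ := exists_cart (closedVarIn Y C) l
    have ho₁o := o₁.isOpen
    have hd : D₁.DimLE (e + 1 : ℕ) := by
      intro z
      rw [← dim_map o₁.g o₁.comm]
      exact dimLE_of_mem C hC _
    obtain ⟨F, hF, O, D', j, o, g, hj, hjF, hP2, hg⟩ := product_case L d₁ e hd
    by_cases hv : v ∈ F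
    · rw [dim_map jV.g jV.comm]
      exact hF v hv
    · exfalso
      apply hx
      have h1 : v ∈ Set.range j := by
        rw [hjF]
        exact hv
      obtain ⟨y, rfl⟩ := h1
      have P1 : IsPullback (o ≫ o₁.g) g f (j ≫ jV.g) := by
        have h2 : IsPullback o₁.g (d₁.g ≫ L.q) f jV.g := (ho₁.flip.paste_horiz hP.flip.flip).flip
        exact (hP2.flip.paste_vert h2.flip).flip
      let J : O ⟶ X.X := j ≫ jV.g
      have hJ : IsOpenImmersion J := inferInstance
      refine ⟨J.opensRange, ⟨y, by rw [Scheme.Hom.comp_apply]⟩, ?_⟩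
      have h3 : J.isoOpensRange.inv ≫ J = J.opensRange.ι := by
        rw [Iso.inv_comp_eq]
        exact (Scheme.Hom.isoOpensRange_hom_ι J).symm
      have P2 := (isPullback_morphismRestrict f J.opensRange).flip
      rw [← h3] at P2
      exact proper_of_factor P1 hg P2
  · -- properness over the complement
    intro O Y' D j l B' o b hO hl ho
    have hjO := j.isOpen
    have P2 : IsPullback o.g (b.g ≫ B'.q) f j.g := (ho.flip.paste_horiz hl).flip
    have hx : ∀ y : O.X, ∃ U : X.X.Opens, j.g y ∈ U ∧ IsProper (f ∣_ U) := by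
      intro y
      have h1 := hO y
      by_contra hcon
      exact h1 hcon
    choose U hU1 hU2 using hx
    have hcov : ⨆ y, j.g ⁻¹ᵁ (U y) = ⊤ := by
      rw [eq_top_iff]
      intro y _
      exact Opens.mem_iSup.mpr ⟨y, hU1 y⟩
    refine (IsZariskiLocalAtTarget.iff_of_iSup_eq_top (P := @IsProper) _ hcov).mpr fun y => ?_
    have P3 := (isPullback_morphismRestrict (b.g ≫ B'.q) (j.g ⁻¹ᵁ (U y))).paste_vert P2.flip
    have h4 : (j.g ⁻¹ᵁ (U y)).ι ≫ j.g = (j.g ∣_ (U y)) ≫ (U y).ι := (morphismRestrict_ι j.g _).symm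
    rw [h4] at P3
    exact proper_of_factor (isPullback_morphismRestrict f (U y)).flip (hU2 y) P3.flip

end QCV
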