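import Pool.Agent.QCV.StB

/-!
# QCV, block B: push-forward along a section of a line bundle
-/

set_option autoImplicit false

open CategoryTheory AlgebraicGeometry Limits Polynomial TopologicalSpace

namespace QCV

open Pool.Agent.Lib_helper55.Beil Pool.Agent.Lib_helper66.OneP CUB

universe v

namespace BSE

variable {k : Type} [Field k] {E : Type} [Field E] {T : ∀ i : ℕ, Homology.{v} k E i}

/-- A product with the affine line as a line bundle. -/
def lineBun {W V : Var k} (L : Line W V) : Bun W V where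
  q := L.q
  comm := L.comm
  loc := fun x => ⟨W, V, L, OpenIn.refl W, OpenIn.refl V, by
    change IsPullback L.q (𝟙 _) (𝟙 _) L.q
    exact IsPullback.of_vert_isIso ⟨by simp⟩, ⟨x, rfl⟩⟩

/-- A point of maximal dimension has an open neighbourhood contained in its closure. -/
lemma exists_nbhd (X : Var k) (η : X.X) (hη : ∀ y : X.X, y ⤳ η → y = η) :
    ∃ O : X.X.Opens, η ∈ O ∧ ∀ y ∈ O, η ⤳ y := by
  have hC : closure ({η} : Set X.X) ∈ irreducibleComponents X.X := by
    refine ⟨isIrreducible_singleton.closure, ?_⟩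
    intro D hD hD2
    obtain ⟨ξ, hξ⟩ := QuasiSober.sober hD.closure isClosed_closure
    have h1 : ξ ⤳ η := by
      rw [specializes_iff_mem_closure, hξ.def]
      exact subset_closure (hD2 (subset_closure rfl))
    have h2 := hη ξ h1
    subst h2
    rw [hξ.def]
    exact subset_closure
  let U₁ : X.X.Opens := Scheme.irreducibleComponentOpen X.X (closure {η})
  refine ⟨U₁, ?_, ?_⟩
  · change η ∈ (⋃₀ (irreducibleComponents X.X \ {closure {η}}))ᶜ
    rintro ⟨D, ⟨hD1, hD2⟩, hD3⟩
    have hDc : IsClosed D := isClosed_of_mem_irreducibleComponents D hD1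
    have h1 : closure ({η} : Set X.X) ≤ D :=
      closure_minimal (Set.singleton_subset_iff.mpr hD3) hDc
    exact hD2 (le_antisymm (hC.2 hD1.1 h1) h1)
  · intro y hy
    rw [specializes_iff_mem_closure]
    by_contra hcon
    apply (show y ∉ ⋃₀ (irreducibleComponents X.X \ {closure {η}}) from hy)
    refine ⟨irreducibleComponent y, ⟨irreducibleComponent_mem_irreducibleComponents y, ?_⟩,
      mem_irreducibleComponent⟩
    intro h1
    apply hcon
    rw [← (show irreducibleComponent y = closure {η} from h1)]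
    exact mem_irreducibleComponent

/-- The class is zero in a neighbourhood of every point. -/
lemma local_zero (hT : Full T) (hS : SectionZero T) (S : BunMaps T) (hS1 : S.Good hT) (i n : ℕ)
    {M D : Var k} (B : Bun M D) (s : ClosedIn D M) (hs : s.g ≫ B.q = 𝟙 D.X)
    (w : (T (i + 1)).H (n + 2) D) (v : (T i).H n D)
    (hv : S.V i n B v = (T (i + 1)).P (n + 2) s w) (x : D.X) (O : D.X.Opens) (hx : x ∈ O) :
    ∃ (V : Var k) (j : OpenIn V D), x ∈ Set.range j.g ∧ (∀ y, j.g y ∈ O) ∧ (T i).R n j v = 0 := by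
  obtain ⟨-, hbij, -, hres, -, -⟩ := hS1
  obtain ⟨W₀, V₀, L₀, l₀, j₀, hc₀, hx₀⟩ := B.loc x
  have hj₀ := j₀.isOpen
  have hl₀ := l₀.isOpen
  let O' : V₀.X.Opens := j₀.g ⁻¹ᵁ O
  obtain ⟨W, L, l₁, hc₁⟩ := exists_lineOpen L₀ (openVarIn V₀ O')
  have hl₁ := l₁.isOpen
  have hj₁ := (openVarIn V₀ O').isOpen
  let j : OpenIn (openVar V₀ O') D := (openVarIn V₀ O').trans j₀
  let l : OpenIn W M := l₁.trans l₀
  have hc : IsPullback L.q l.g j.g B.q := hc₁.paste_vert hc₀
  have hjo := j.isOpen
  have hlo := l.isOpen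
  refine ⟨openVar V₀ O', j, ?_, ?_, ?_⟩
  · obtain ⟨y, rfl⟩ := hx₀
    have h1 : y ∈ Set.range (openVarIn V₀ O').g := by
      rw [range_openVarIn]
      exact hx
    obtain ⟨z, rfl⟩ := h1
    exact ⟨z, rfl⟩
  · intro y
    have h1 : (openVarIn V₀ O').g y ∈ Set.range (openVarIn V₀ O').g := ⟨y, rfl⟩
    rw [range_openVarIn] at h1
    exact h1
  · -- the section over the open part
    have hsc := s.closed
    have e1 : 𝟙 (openVar V₀ O').X ≫ j.g = (j.g ≫ s.g) ≫ B.q := by
      rw [Category.assoc, hs, Category.id_comp, Category.comp_id]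
    let s₀ : (openVar V₀ O').X ⟶ W.X := hc.lift (𝟙 _) (j.g ≫ s.g) e1
    have hs1 : s₀ ≫ L.q = 𝟙 _ := hc.lift_fst _ _ _
    have hs2 : s₀ ≫ l.g = j.g ≫ s.g := hc.lift_snd _ _ _
    have hp : IsPullback j.g s₀ s.g l.g := by
      refine IsPullback.of_bot ?_ hs2.symm hc.flip
      rw [hs1, hs]
      exact IsPullback.of_vert_isIso ⟨by rw [Category.comp_id, Category.id_comp]⟩
    have hs3 : IsClosedImmersion s₀ :=
      MorphismProperty.of_isPullback (P := @IsClosedImmersion) hp hsc
    let s' : ClosedIn (openVar V₀ O') W := ⟨s₀, by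
      rw [← L.comm, ← Category.assoc, hs1, Category.id_comp], hs3⟩
    have h1 := hres i n B (lineBun L) l j hc v
    rw [hv, res_push hT (i + 1) (n + 2) s s' j l hp, hS (i + 1) (n + 2) L s' hs1] at h1
    apply (hbij i n (lineBun L)).injective
    rw [← h1]
    exact (map_zero (S.pb i n (lineBun L))).symm

end BSE

open BSE in
theorem t_BSE : S_BSE.{v} := by
  intro k E _ _ T hT hP hS S hS1 i n e M D B s hs hD w
  obtain ⟨v₀, hv₀⟩ := (hS1.2.1 i n B).surjective ((T (i + 1)).P (n + 2) s w)
  have hloc := local_zero hT hS S hS1 i n B s hs w v₀ hv₀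
  -- a minimal closed subset
  have hex : ∃ F : Closeds D.X, ∃ v : (T i).H n (closedVar D F),
      (T i).P n (closedVarIn D F) v = v₀ := by
    have h1 : Complementary (closedVarIn D (⊤ : Closeds D.X)) (openVarIn D ⊥) := by
      rw [Complementary, range_closedVarIn, range_openVarIn]
      simp
    have h2 := (T i).exact_X n _ _ h1 v₀
    have h3 := (T i).empty n _ (isEmpty_openVar_bot D)
    obtain ⟨v, hv⟩ := h2.mp (Subsingleton.elim _ _)
    exact ⟨⊤, v, hv⟩
  obtain ⟨F, ⟨v, hv⟩, hmin⟩ := WellFounded.has_min (r := fun a b : Closeds D.X => a < b)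
    (wellFounded_lt) {F | ∃ v : (T i).H n (closedVar D F), (T i).P n (closedVarIn D F) v = v₀} hex
  refine ⟨F, ?_, v, by rw [hv, hv₀]⟩
  intro x hx
  by_contra hcon
  rw [not_le] at hcon
  have hmax : ∀ y : D.X, y ⤳ x → y = x := by
    intro y hy
    by_contra hne
    have h1 := CUB.DST.dim_lt D y x hy hne
    have h2 := hD y
    obtain ⟨a, ha⟩ := Cardinal.lt_aleph0.mp (lt_of_le_of_lt h2 (Cardinal.natCast_lt_aleph0))
    rw [ha] at h1 h2
    obtain ⟨b, hb⟩ := Cardinal.lt_aleph0.mp (lt_of_lt_of_le h1 (Cardinal.natCast_lt_aleph0).le)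
    rw [hb] at h1 hcon
    rw [Nat.cast_lt] at h1 hcon
    rw [Nat.cast_le] at h2
    omega
  obtain ⟨O, hxO, hO⟩ := exists_nbhd D x hmax
  obtain ⟨V, j, hxj, hjO, hj0⟩ := hloc x O hxO
  obtain ⟨D', o, b, hc⟩ := exists_cart (closedVarIn D F) j
  have hjo := j.isOpen
  have hoo := o.isOpen
  have hbc := b.closed
  rw [← hv, res_push hT i n (closedVarIn D F) b o j hc] at hj0
  have hrb : Set.range b.g = Set.univ := by
    rw [cart_range hc]
    ext y
    simp only [Set.mem_preimage, Set.mem_univ, iff_true]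
    rw [range_closedVarIn]
    exact (hO _ (hjO y)).mem_closed F.2 hx
  have hcomp : Complementary b (openVarIn V ⊥) := by
    rw [Complementary, hrb, range_openVarIn]
    simp
  obtain ⟨u, hu⟩ := (hT.bd_exact i n b (openVarIn V ⊥) hcomp _).mp hj0
  have h3 := (T i).empty (n + 1) _ (isEmpty_openVar_bot V)
  have hu0 : u = 0 := Subsingleton.elim _ _
  rw [hu0, map_zero] at hu
  obtain ⟨v', hv'⟩ := ((T i).exact_X n _ o (complementary_complC o) v).mp hu.symm
  -- the smaller closed subset
  let C := complC o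
  let c : ClosedIn (closedVar (closedVar D F) C) D :=
    (closedVarIn (closedVar D F) C).trans (closedVarIn D F)
  have hred := REDI.isReduced_closedVar (closedVar D F) C
  have hF' : ∃ v'' : (T i).H n (closedVar D (ran c)),
      (T i).P n (closedVarIn D (ran c)) v'' = v₀ := by
    have hcr : ∀ y, c.g y ∈ ran c := fun y => ⟨y, rfl⟩
    refine ⟨(T i).P n (factorC c (ran c) hcr) v', ?_⟩
    rw [hT.push_comp i n _ _ _ (factorC c (ran c) hcr) (closedVarIn D (ran c)) c
        (factorC_comp c (ran c) hcr),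
      ← hT.push_comp i n _ _ _ (closedVarIn (closedVar D F) C) (closedVarIn D F) c rfl, ← hv]
    exact congrArg _ hv'
  refine hmin (ran c) hF' (lt_of_le_of_ne ?_ ?_)
  · rintro _ ⟨y, rfl⟩
    have h4 : (closedVarIn D F).g ((closedVarIn (closedVar D F) C).g y) ∈ (F : Set D.X) := by
      rw [← range_closedVarIn]
      exact ⟨_, rfl⟩
    exact h4
  · intro heq
    rw [← heq] at hx
    obtain ⟨y, hy⟩ := hx
    have h4 : (closedVarIn (closedVar D F) C).g y ∈ (C : Set (closedVar D F).X) := by
      rw [← range_closedVarIn]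
      exact ⟨y, rfl⟩
    apply h4
    have h5 := cart_range hc.flip
    rw [h5]
    change (closedVarIn D F).g ((closedVarIn (closedVar D F) C).g y) ∈ Set.range j.g
    have h6 : (closedVarIn D F).g ((closedVarIn (closedVar D F) C).g y) = x := hy
    rw [h6]
    exact hxj

end QCV
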