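import Pool.Agent.QCV.StB

/-!
# QCV, block B, module BSU: supports descend from a line bundle to the base

All restrictions are to open subvarieties in one step. First (`exists_small`) the class is
replaced by a class on a closed subvariety of dimension at most `e + 1`; then (`supp_small`) a
minimal support is considered.
-/

set_option autoImplicit false

open CategoryTheory AlgebraicGeometry Limits Polynomial TopologicalSpace

namespace QCV

open Pool.Agent.Lib_helper55.Beil Pool.Agent.Lib_helper66.OneP CUB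

universe v

namespace BSU

variable {k : Type} [Field k] {E : Type} [Field E] {T : ∀ i : ℕ, Homology.{v} k E i}

/-! ## Base change -/

lemma q_props {Y X : Var k} (q : Y.X ⟶ X.X) (h : q ≫ X.f = Y.f) :
    LocallyOfFiniteType q ∧ QuasiCompact q ∧ IsSeparated q := by
  have e1 : LocallyOfFiniteType (q ≫ X.f) := by
    rw [h]
    infer_instance
  have e2 : QuasiCompact (q ≫ X.f) := by
    rw [h]
    infer_instance
  have e3 : IsSeparated (q ≫ X.f) := by
    rw [h]
    infer_instance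
  exact ⟨locallyOfFiniteType_of_comp q X.f, QuasiCompact.of_comp q X.f,
    IsSeparated.of_comp q X.f⟩

/-- The base change of a variety. -/
lemma exists_pullVar {Y X Z : Var k} (q : Y.X ⟶ X.X) (hq : q ≫ X.f = Y.f) (g : Z.X ⟶ X.X)
    (hg : g ≫ X.f = Z.f) : ∃ (Y' : Var k) (q' : Y'.X ⟶ Z.X) (h : Y'.X ⟶ Y.X),
      IsPullback q' h g q ∧ q' ≫ Z.f = Y'.f ∧ h ≫ Y.f = Y'.f := by
  obtain ⟨h1, h2, h3⟩ := q_props q hq
  have hP : IsPullback (pullback.fst q g) (pullback.snd q g) q g := IsPullback.of_hasPullback q g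
  let Y' : Var k :=
    { X := pullback q g
      f := pullback.snd q g ≫ Z.f
      sep := inferInstance
      lft := inferInstance
      qc := inferInstance }
  refine ⟨Y', pullback.snd q g, pullback.fst q g, hP.flip, rfl, ?_⟩
  change pullback.fst q g ≫ Y.f = pullback.snd q g ≫ Z.f
  rw [← hq, ← Category.assoc, hP.w, Category.assoc, hg]

/-- The base change of a line. -/
lemma exists_linePull {Y X Z : Var k} (L : Line Y X) (g : Z.X ⟶ X.X) (hg : g ≫ X.f = Z.f) :
    ∃ (Y' : Var k) (L' : Line Y' Z) (h : Y'.X ⟶ Y.X), IsPullback L'.q h g L.q ∧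
      h ≫ Y.f = Y'.f := by
  obtain ⟨Y', q', h, hP, h1, h2⟩ := exists_pullVar L.q L.comm g hg
  refine ⟨Y', ⟨q', h ≫ L.t, h1, ?_⟩, h, hP, h2⟩
  have h4 := (hP.flip.paste_horiz L.prod.flip).flip
  rw [hg] at h4
  exact h4

/-- The base change of a line bundle. -/
lemma exists_bunPull {Y X Z : Var k} (B : Bun Y X) (g : Z.X ⟶ X.X) (hg : g ≫ X.f = Z.f) :
    ∃ (Y' : Var k) (B' : Bun Y' Z) (h : Y'.X ⟶ Y.X), IsPullback B'.q h g B.q ∧
      h ≫ Y.f = Y'.f := by
  obtain ⟨Y', q', h, hP, h1, h2⟩ := exists_pullVar B.q B.comm g hg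
  refine ⟨Y', ⟨q', h1, fun z => ?_⟩, h, hP, h2⟩
  obtain ⟨W, V, L, l, j, hL, hx⟩ := B.loc (g z)
  have hj := j.isOpen
  obtain ⟨V', p₀, p₁, hV, hV1, hV2⟩ := exists_pullVar g hg j.g j.comm
  have hp₁ : IsOpenImmersion p₁ := MorphismProperty.of_isPullback hV hj
  obtain ⟨W', L', hW, hP', hW2⟩ := exists_linePull L p₀ hV1
  have hO := hP'.paste_vert hL
  rw [hV.w] at hO
  have e1 : (L'.q ≫ p₁) ≫ g = (hW ≫ l.g) ≫ B.q := by
    rw [Category.assoc]
    exact hO.w
  obtain ⟨l', hl1, hl2⟩ : ∃ l' : W'.X ⟶ Y'.X, l' ≫ q' = L'.q ≫ p₁ ∧ l' ≫ h = hW ≫ l.g :=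
    ⟨hP.lift _ _ e1, hP.lift_fst _ _ _, hP.lift_snd _ _ _⟩
  rw [← hl2] at hO
  have hpb : IsPullback L'.q l' p₁ q' := IsPullback.of_bot hO hl1.symm hP
  have hl' : IsOpenImmersion l' := MorphismProperty.of_isPullback hpb hp₁
  refine ⟨W', V', L', ⟨l', ?_, hl'⟩, ⟨p₁, hV2, hp₁⟩, hpb, ?_⟩
  · rw [← h2, ← Category.assoc, hl2, Category.assoc, l.comm, hW2]
  · have h3 := cart_range hV
    change z ∈ Set.range p₁
    rw [h3]
    exact hx

/-- A product with the affine line is a line bundle. -/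
noncomputable def ofLine {Y X : Var k} (L : Line Y X) : Bun Y X where
  q := L.q
  comm := L.comm
  loc := fun x => ⟨Y, X, L, ⟨𝟙 Y.X, Category.id_comp _, inferInstance⟩,
    ⟨𝟙 X.X, Category.id_comp _, inferInstance⟩, IsPullback.id_vert L.q, ⟨x, rfl⟩⟩

/-! ## Topology -/

/-- A generic point has a neighbourhood in its closure. -/
lemma exists_irrOpen (W : Var k) (η : W.X) (hη : ∀ y, y ⤳ η → y = η) :
    ∃ O : W.X.Opens, η ∈ O ∧ ∀ y ∈ O, η ⤳ y := by
  have hC : closure ({η} : Set W.X) ∈ irreducibleComponents W.X := by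
    refine ⟨isIrreducible_singleton.closure, ?_⟩
    intro D hD hD2
    obtain ⟨ξ, hξ⟩ := QuasiSober.sober hD.closure isClosed_closure
    have h1 : ξ ⤳ η := by
      rw [specializes_iff_mem_closure, hξ.def]
      exact subset_closure (hD2 (subset_closure rfl))
    have h2 := hη ξ h1
    subst h2
    rw [hξ.def]
    exact subset_closure
  refine ⟨Scheme.irreducibleComponentOpen W.X (closure {η}), ?_, ?_⟩
  · change η ∈ (⋃₀ (irreducibleComponents W.X \ {closure {η}}))ᶜ
    rintro ⟨D, ⟨hD1, hD2⟩, hD3⟩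
    have hDc : IsClosed D := isClosed_of_mem_irreducibleComponents D hD1
    have h1 : closure ({η} : Set W.X) ≤ D :=
      closure_minimal (Set.singleton_subset_iff.mpr hD3) hDc
    exact hD2 (le_antisymm (hC.2 hD1.1 h1) h1)
  · intro y hy1
    rw [specializes_iff_mem_closure]
    by_contra hcon
    apply (show y ∉ ⋃₀ (irreducibleComponents W.X \ {closure {η}}) from hy1)
    refine ⟨irreducibleComponent y, ⟨irreducibleComponent_mem_irreducibleComponents y, ?_⟩,
      mem_irreducibleComponent⟩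
    intro h1
    apply hcon
    rw [← (show irreducibleComponent y = closure {η} from h1)]
    exact mem_irreducibleComponent

/-- Every point of the closure of the image is a specialisation of a point of the image. -/
lemma spec_closure {W X : Var k} (f : W.X ⟶ X.X) (y : X.X) (hy : y ∈ closure (Set.range f)) :
    ∃ w, f w ⤳ y := by
  have hfin : (irreducibleComponents W.X).Finite :=
    TopologicalSpace.NoetherianSpace.finite_irreducibleComponents
  have h1 : closure (Set.range f) ⊆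
      ⋃ Z ∈ irreducibleComponents W.X, closure (f '' Z) := by
    refine closure_minimal ?_ (hfin.isClosed_biUnion fun Z _ => isClosed_closure)
    rintro _ ⟨w, rfl⟩
    refine Set.mem_biUnion (irreducibleComponent_mem_irreducibleComponents w) ?_
    exact subset_closure ⟨w, mem_irreducibleComponent, rfl⟩
  obtain ⟨Z, hZ, hy'⟩ := Set.mem_iUnion₂.1 (h1 hy)
  obtain ⟨η, hη⟩ := QuasiSober.sober hZ.1 (isClosed_of_mem_irreducibleComponents Z hZ)
  refine ⟨η, ?_⟩
  rw [specializes_iff_mem_closure]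
  refine closure_minimal ?_ isClosed_closure hy'
  rintro _ ⟨z, hz, rfl⟩
  have h2 : η ⤳ z := by
    rw [specializes_iff_mem_closure, hη.def]
    exact hz
  rw [← specializes_iff_mem_closure]
  exact h2.map f.continuous

/-! ## Injectivity for surjective closed immersions -/

lemma push_inj (hT : Extra T) (i n : ℕ) {Z X : Var k} (a : ClosedIn Z X)
    (ha : ∀ x, x ∈ Set.range a.g) (m : (T i).H n Z) (hm : (T i).P n a m = 0) : m = 0 := by
  have hc : Complementary a (openVarIn X ⊥) := by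
    rw [Complementary, range_openVarIn]
    ext x
    simp only [Set.mem_compl_iff]
    exact ⟨fun _ h => h, fun _ => ha x⟩
  obtain ⟨u, hu⟩ := (hT.bd_exact i n a (openVarIn X ⊥) hc m).mp hm
  have hs := (T i).empty (n + 1) _ (isEmpty_openVar_bot X)
  rw [← hu, Subsingleton.elim u 0, map_zero]

/-! ## Properness over a product with the affine line -/

lemma proper_line {W V D₀ : Var k} (L : Line W V) (d : ClosedIn D₀ W) (e : ℕ)
    (hD : D₀.DimLE (e + 1 : ℕ)) : ∃ F : Closeds V.X, (∀ x ∈ F, V.dim x ≤ e) ∧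
      ∀ {O Y' D : Var k} (j : OpenIn O V) (L' : Line Y' O) (l : OpenIn Y' W) (o : OpenIn D D₀)
        (b : ClosedIn D Y'), (∀ x : O.X, j.g x ∉ F) → IsPullback L'.q l.g j.g L.q →
        IsPullback o.g b.g d.g l.g → IsProper (b.g ≫ L'.q) := by
  obtain ⟨H⟩ := CUB.Asm2.s_PLI k
  obtain ⟨B, -⟩ := CUB.Asm2.s_PRO.1 k H V
  obtain ⟨s, hs⟩ := exists_lineIso L B.L
  obtain ⟨P, w, h, Bd, p, q, hcomp, h4, h5, -, hBd, -⟩ :=
    exists_boundary B.s B.j B.hc (d.trans s.cl) e hD
  refine ⟨ran q, ?_, ?_⟩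
  · rintro x ⟨y, rfl⟩
    have := q.closed
    rw [dim_map q.g q.comm]
    exact hBd y
  · intro O Y' D j L' l o b hj hl ho
    let sO : OpenIn W B.U := ⟨s.e.hom, s.comm, inferInstance⟩
    refine proper_part B (d.trans s.cl) w h p q hcomp h4 h5 j ?_ L' (l.trans sO) ?_ o b ?_
    · rw [Set.disjoint_left]
      rintro _ ⟨x, rfl⟩ hx
      exact hj x hx
    · have h6 : IsPullback L.q s.e.hom (𝟙 V.X) B.L.q :=
        IsPullback.of_vert_isIso ⟨by rw [hs, Category.comp_id]⟩
      have h7 := hl.paste_vert h6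
      rw [Category.comp_id] at h7
      exact h7
    · exact ho.of_iso (Iso.refl _) (Iso.refl _) (Iso.refl _) s.e (by simp) (by simp)
        (by simp [ClosedIn.trans, VIso.cl]) (by simp [OpenIn.trans, sO])

/-! ## Vanishing of the restriction -/

/-- If the bundle is a product over the open subvariety and the support is proper over it then
the restriction of the class is zero. -/
lemma res_zero (hT : Full T) (hS : SectionZero T) (S : BunMaps T) (hG : S.Good hT)
    (i n : ℕ) {Y X C : Var k} (B : Bun Y X) (u : (T i).H n X) (c : ClosedIn C Y)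
    (b : (T (i + 1)).H (n + 2) C) (hb : (T (i + 1)).P (n + 2) c b = S.V i n B u)
    {O Y' D : Var k} (j : OpenIn O X) (L' : Line Y' O) (l : OpenIn Y' Y)
    (hl : IsPullback L'.q l.g j.g B.q) (o : OpenIn D C) (b' : ClosedIn D Y')
    (ho : IsPullback o.g b'.g c.g l.g) (hprop : IsProper (b'.g ≫ L'.q)) :
    (T i).R n j u = 0 := by
  obtain ⟨-, hbij, -, hres, -, -⟩ := hG
  let r : PrMor D O := ⟨b'.g ≫ L'.q, by
    rw [Category.assoc, L'.comm, b'.comm], hprop⟩
  obtain ⟨Z, M, R, hR⟩ := exists_linePr L' r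
  -- the section
  have hb'c := b'.closed
  have hRp := R.proper
  have hsec : IsClosedImmersion (hR.lift (𝟙 D.X) b'.g (by rw [Category.id_comp])) := by
    have h7 : IsClosedImmersion (hR.lift (𝟙 D.X) b'.g (by rw [Category.id_comp]) ≫ R.g) := by
      rw [hR.lift_snd]
      infer_instance
    exact IsClosedImmersion.of_comp _ R.g
  let s : ClosedIn D Z := ⟨hR.lift (𝟙 D.X) b'.g (by rw [Category.id_comp]), by
    rw [← R.comm, ← Category.assoc, hR.lift_snd, b'.comm], hsec⟩
  have hs1 : s.g ≫ M.q = 𝟙 D.X := hR.lift_fst _ _ _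
  have hs2 : s.g ≫ R.g = b'.g := hR.lift_snd _ _ _
  have hzero : ∀ v : (T (i + 1)).H (n + 2) D, (T (i + 1)).P (n + 2) b' v = 0 := by
    intro v
    rw [← hT.pfClosed (i + 1) (n + 2) b' (clPr b') rfl,
      ← hT.pfFunctorial (i + 1) (n + 2) (clPr s) R (clPr b') hs2,
      hT.pfClosed (i + 1) (n + 2) s (clPr s) rfl, hS (i + 1) (n + 2) M s hs1]
    exact map_zero (hT.pf (i + 1) (n + 2) R)
  have h8 := hres i n B (ofLine L') l j hl u
  rw [← hb, res_push hT (i + 1) (n + 2) c b' o l ho, hzero] at h8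
  exact (hbij i n (ofLine L')).injective (h8.symm.trans (map_zero (S.pb i n (ofLine L'))).symm)

/-! ## Small dimension -/

lemma supp_small (hT : Full T) (hS : SectionZero T) (S : BunMaps T) (hG : S.Good hT)
    (i n e : ℕ) {Y X : Var k} (B : Bun Y X) (hX : X.DimLE (e + 1 : ℕ)) (u : (T i).H n X)
    (h : Supp (T (i + 1)) (n + 2) (e + 1) Y (S.V i n B u)) : Supp (T i) n e X u := by
  obtain ⟨C, hC, b, hb⟩ := h
  -- a minimal support
  have hne : ({F : Closeds X.X | ∃ v : (T i).H n (closedVar X F),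
      (T i).P n (closedVarIn X F) v = u}).Nonempty := by
    have hc : Complementary (closedVarIn X ⊤) (openVarIn X ⊥) := by
      rw [Complementary, range_closedVarIn, range_openVarIn]
      simp
    have hs := (T i).empty n _ (isEmpty_openVar_bot X)
    obtain ⟨z, hz⟩ := ((T i).exact_X n (closedVarIn X ⊤) (openVarIn X ⊥) hc u).mp
      (Subsingleton.elim _ _)
    exact ⟨⊤, z, hz⟩
  obtain ⟨F, ⟨v, hv⟩, hmin⟩ := WellFounded.has_min (r := fun a b : Closeds X.X => a < b)
    wellFounded_lt _ hne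
  refine ⟨F, fun x hx => ?_, v, hv⟩
  by_contra hlt
  have hmax : ∀ y, y ⤳ x → y = x := by
    intro y hy
    by_contra hyx
    have h1 := (CUB.t_DST.1 k X y x hy hyx).trans_le (hX y)
    obtain ⟨m, hm⟩ := CUB.t_DST.2.1 k X x
    rw [hm] at h1 hlt
    have h2 : m < e + 1 := by exact_mod_cast h1
    exact hlt (by exact_mod_cast Nat.lt_succ_iff.mp h2)
  obtain ⟨O₁, hxO₁, hO₁⟩ := exists_irrOpen X x hmax
  obtain ⟨W, V, L, l, j, hL, ⟨x', hx'⟩⟩ := B.loc x
  have hj := j.isOpen
  obtain ⟨D₀, o₀, b₀, hD₀⟩ := exists_cart (closedVarIn Y C) l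
  obtain ⟨F₀, hF₀, hprop⟩ := proper_line L b₀ e (dimLE_open o₀ (dimLE_of_mem C hC))
  let V₁ : V.X.Opens := (j.g ⁻¹ᵁ O₁) ⊓ F₀.compl
  have hV₁ : ∀ y, y ∈ V₁ ↔ j.g y ∈ O₁ ∧ y ∉ F₀ := fun y => Iff.rfl
  have hxV : x' ∈ V₁ := by
    rw [hV₁, hx']
    refine ⟨hxO₁, fun h => hlt ?_⟩
    have h1 := hF₀ x' h
    rwa [← dim_map j.g j.comm, hx'] at h1
  obtain ⟨Y₁, L₁, l₁, hl₁⟩ := exists_lineOpen L (openVarIn V V₁)
  obtain ⟨D₁, o₁, b₁, hD₁⟩ := exists_cart b₀ l₁
  have hrV : ∀ y : (openVar V V₁).X, (openVarIn V V₁).g y ∈ V₁ := by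
    intro y
    have h1 : (openVarIn V V₁).g y ∈ Set.range (openVarIn V V₁).g := ⟨y, rfl⟩
    rw [range_openVarIn] at h1
    exact h1
  have hpr := hprop (openVarIn V V₁) L₁ l₁ o₁ b₁ (fun y => ((hV₁ _).1 (hrV y)).2) hl₁ hD₁
  have hvan : (T i).R n ((openVarIn V V₁).trans j) u = 0 :=
    res_zero hT hS S hG i n B u (closedVarIn Y C) b hb ((openVarIn V V₁).trans j) L₁
      (l₁.trans l) (hl₁.paste_vert hL) (o₁.trans o₀) b₁ (hD₁.paste_horiz hD₀) hpr
  obtain ⟨D₂, o₂, b₂, hD₂⟩ := exists_cart (closedVarIn X F) ((openVarIn V V₁).trans j)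
  have h1 : (T i).P n b₂ ((T i).R n o₂ v) = 0 := by
    rw [← res_push hT i n (closedVarIn X F) b₂ o₂ _ hD₂, hv]
    exact hvan
  have hsurj : ∀ z, z ∈ Set.range b₂.g := by
    intro z
    rw [cart_range hD₂, Set.mem_preimage, range_closedVarIn]
    have h2 : x ⤳ ((openVarIn V V₁).trans j).g z := by
      apply hO₁
      have h3 := ((hV₁ _).1 (hrV z)).1
      rwa [← Scheme.Hom.comp_apply] at h3
    exact h2.mem_closed F.2 hx
  have h2 : (T i).R n o₂ v = 0 := push_inj hT.toExtra i n b₂ hsurj _ h1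
  -- the smaller support
  have ho₂ := o₂.isOpen
  let G : Closeds (closedVar X F).X :=
    ⟨(Set.range o₂.g)ᶜ, o₂.g.isOpenEmbedding.isOpen_range.isClosed_compl⟩
  have hcG : Complementary (closedVarIn (closedVar X F) G) o₂ := by
    rw [Complementary, range_closedVarIn]
    rfl
  obtain ⟨v', hv'⟩ := ((T i).exact_X n _ o₂ hcG v).mp h2
  have hred := REDI.isReduced_closedVar (closedVar X F) G
  obtain ⟨a, ha⟩ : ∃ a : ClosedIn (closedVar (closedVar X F) G) X,
      a = (closedVarIn (closedVar X F) G).trans (closedVarIn X F) := ⟨_, rfl⟩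
  have hag : ∀ w, a.g w = (closedVarIn X F).g ((closedVarIn (closedVar X F) G).g w) := by
    intro w
    rw [ha, ← Scheme.Hom.comp_apply]
    rfl
  have hau : (T i).P n a v' = u := by
    rw [← hv, ← hv', ha]
    exact (hT.push_comp i n _ _ _ (closedVarIn (closedVar X F) G) (closedVarIn X F)
      ((closedVarIn (closedVar X F) G).trans (closedVarIn X F)) rfl v').symm
  have hP : ∃ v₂ : (T i).H n (closedVar X (ran a)), (T i).P n (closedVarIn X (ran a)) v₂ = u := by
    have hc : ∀ w, a.g w ∈ ran a := fun w => ⟨w, rfl⟩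
    refine ⟨(T i).P n (factorC a (ran a) hc) v', ?_⟩
    rw [hT.push_comp i n _ _ _ (factorC a (ran a) hc) (closedVarIn X (ran a)) a
      (factorC_comp a (ran a) hc), hau]
  refine hmin (ran a) hP (lt_of_le_of_ne ?_ ?_)
  · rintro _ ⟨w, rfl⟩
    rw [hag]
    have h3 : (closedVarIn X F).g ((closedVarIn (closedVar X F) G).g w) ∈
        Set.range (closedVarIn X F).g := ⟨_, rfl⟩
    rw [range_closedVarIn] at h3
    exact h3
  · intro heq
    have h3 : x ∈ ran a := by
      rw [heq]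
      exact hx
    obtain ⟨w, hw⟩ := h3
    rw [hag] at hw
    have h4 : (closedVarIn (closedVar X F) G).g w ∈
        Set.range (closedVarIn (closedVar X F) G).g := ⟨w, rfl⟩
    rw [hcG] at h4
    apply h4
    rw [cart_range hD₂.flip, Set.mem_preimage, hw]
    obtain ⟨z, hz⟩ : x' ∈ Set.range (openVarIn V V₁).g := by
      rw [range_openVarIn]
      exact hxV
    refine ⟨z, ?_⟩
    rw [show ((openVarIn V V₁).trans j).g = (openVarIn V V₁).g ≫ j.g from rfl,
      Scheme.Hom.comp_apply, hz, hx']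

/-! ## Reduction to small dimension -/

lemma exists_small (hT : Full T) (S : BunMaps T) (hG : S.Good hT) (i n e : ℕ) {Y X : Var k}
    (B : Bun Y X) (u : (T i).H n X)
    (h : Supp (T (i + 1)) (n + 2) (e + 1) Y (S.V i n B u)) :
    ∃ (Z Y' : Var k) (a : ClosedIn Z X) (B' : Bun Y' Z) (u' : (T i).H n Z),
      Z.DimLE (e + 1 : ℕ) ∧ (T i).P n a u' = u ∧
      Supp (T (i + 1)) (n + 2) (e + 1) Y' (S.V i n B' u') := by
  obtain ⟨-, hbij, -, hres, hpush, hbd⟩ := hG
  obtain ⟨C, hC, b, hb⟩ := h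
  have hredC := REDI.isReduced_closedVar Y C
  obtain ⟨f, hf⟩ : ∃ f : (closedVar Y C).X ⟶ X.X, f = (closedVarIn Y C).g ≫ B.q := ⟨_, rfl⟩
  have hfX : f ≫ X.f = (closedVar Y C).f := by
    rw [hf, Category.assoc, B.comm, (closedVarIn Y C).comm]
  -- the closure of the image of the support
  let K : Closeds X.X := ⟨closure (Set.range f), isClosed_closure⟩
  have hfK : ∀ w, f w ∈ K := fun w => subset_closure ⟨w, rfl⟩
  have hdimK : (closedVar X K).DimLE (e + 1 : ℕ) := by
    apply dimLE_of_mem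
    intro y hy
    obtain ⟨w, hw⟩ := spec_closure f y hy
    refine (dim_le_of_specializes X hw).trans ?_
    exact ((CUB.Asm2.s_PFC.{v}).1 k (closedVar Y C) X f hfX w).trans (dimLE_of_mem C hC w)
  let j : OpenIn (openVar X K.compl) X := openVarIn X K.compl
  have hcK : Complementary (closedVarIn X K) j := by
    rw [Complementary, range_closedVarIn, range_openVarIn]
    simp
  have haK := (closedVarIn X K).closed
  have hjo := j.isOpen
  -- the bundles over the closed and the open part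
  obtain ⟨Y₁, B₁, h₁, hP₁, hY₁⟩ := exists_bunPull B (closedVarIn X K).g (closedVarIn X K).comm
  obtain ⟨Y₂, B₂, h₂, hP₂, hY₂⟩ := exists_bunPull B j.g j.comm
  have hh₁ : IsClosedImmersion h₁ := MorphismProperty.of_isPullback hP₁ haK
  have hh₂ : IsOpenImmersion h₂ := MorphismProperty.of_isPullback hP₂ hjo
  let a' : ClosedIn Y₁ Y := ⟨h₁, hY₁, hh₁⟩
  let l : OpenIn Y₂ Y := ⟨h₂, hY₂, hh₂⟩
  have hca : Complementary a' l := by
    rw [Complementary]
    have h3 : Set.range a'.g = B.q ⁻¹' Set.range (closedVarIn X K).g := cart_range hP₁.flip.flip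
    have h4 : Set.range l.g = B.q ⁻¹' Set.range j.g := cart_range hP₂.flip.flip
    rw [h3, h4, hcK]
    rfl
  -- the restriction to the open part is zero
  obtain ⟨D', o, b', ho⟩ := exists_cart (closedVarIn Y C) l
  have hempty : IsEmpty D'.X := by
    constructor
    intro d
    have h3 : l.g (b'.g d) = (closedVarIn Y C).g (o.g d) := by
      rw [← Scheme.Hom.comp_apply, ← Scheme.Hom.comp_apply, ho.w]
    have h4 : B.q (l.g (b'.g d)) = j.g (B₂.q (b'.g d)) := by
      rw [← Scheme.Hom.comp_apply B₂.q j.g, hP₂.w, Scheme.Hom.comp_apply]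
    have h5 : f (o.g d) = j.g (B₂.q (b'.g d)) := by
      rw [← h4, h3, hf, Scheme.Hom.comp_apply]
    have h6 : j.g (B₂.q (b'.g d)) ∈ Set.range (closedVarIn X K).g := by
      rw [range_closedVarIn, ← h5]
      exact hfK _
    rw [hcK] at h6
    exact h6 ⟨_, rfl⟩
  have hsub := (T (i + 1)).empty (n + 2) D' hempty
  have hju : (T i).R n j u = 0 := by
    have h8 := hres i n B B₂ l j hP₂ u
    rw [← hb, res_push hT (i + 1) (n + 2) (closedVarIn Y C) b' o l ho,
      Subsingleton.elim ((T (i + 1)).R (n + 2) o b) 0] at h8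
    refine (hbij i n B₂).injective (h8.symm.trans ?_)
    exact (map_zero ((T (i + 1)).push (n + 2) b')).trans (map_zero (S.pb i n B₂)).symm
  obtain ⟨u₀, hu₀⟩ := ((T i).exact_X n (closedVarIn X K) j hcK u).mp hju
  -- the support in the closed part
  have hc : liftC f K hfK ≫ (closedVarIn X K).g = (closedVarIn Y C).g ≫ B.q := by
    rw [← hf]
    exact liftC_comp f K hfK
  obtain ⟨c₀, hc1, hc2⟩ : ∃ c₀ : (closedVar Y C).X ⟶ Y₁.X, c₀ ≫ B₁.q = liftC f K hfK ∧
      c₀ ≫ h₁ = (closedVarIn Y C).g := ⟨hP₁.lift _ _ hc, hP₁.lift_fst _ _ _, hP₁.lift_snd _ _ _⟩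
  have hccl : IsClosedImmersion c₀ := by
    have h3 : IsClosedImmersion (c₀ ≫ h₁) := by
      rw [hc2]
      exact (closedVarIn Y C).closed
    exact IsClosedImmersion.of_comp c₀ h₁
  let c : ClosedIn (closedVar Y C) Y₁ := ⟨c₀, by
    rw [← hY₁, ← Category.assoc, hc2, (closedVarIn Y C).comm], hccl⟩
  have hPc : (T (i + 1)).P (n + 2) a' ((T (i + 1)).P (n + 2) c b) = S.V i n B u := by
    rw [hT.push_comp (i + 1) (n + 2) _ _ _ c a' (closedVarIn Y C) hc2, hb]
  have hPV : (T (i + 1)).P (n + 2) a' (S.V i n B₁ u₀) = S.V i n B u := by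
    have h9 := hpush i n B B₁ (clPr a') (clPr (closedVarIn X K)) hP₁ u₀
    rw [hT.pfClosed i n (closedVarIn X K) (clPr (closedVarIn X K)) rfl,
      hT.pfClosed (i + 1) (n + 2) a' (clPr a') rfl] at h9
    rw [← h9]
    exact congrArg _ hu₀
  have hdiff : (T (i + 1)).push (n + 2) a'
      (S.V i n B₁ u₀ - (T (i + 1)).P (n + 2) c b) = 0 := by
    rw [map_sub, sub_eq_zero]
    exact hPV.trans hPc.symm
  obtain ⟨w', hw'⟩ := (hT.bdExact (i + 1) (n + 2) a' l hca _).mp hdiff
  obtain ⟨w, hw⟩ := (hbij i (n + 1) B₂).surjective w'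
  have hbw := hbd i n (closedVarIn X K) j hcK a' l hca B₁ B₂ B hP₁ hP₂ w
  rw [hw, hw'] at hbw
  refine ⟨closedVar X K, Y₁, closedVarIn X K, B₁,
    u₀ - hT.B i n (closedVarIn X K) j hcK w, hdimK, ?_, ?_⟩
  · have h3 : (T i).P n (closedVarIn X K) (hT.B i n (closedVarIn X K) j hcK w) = 0 :=
      (hT.bdExact i n (closedVarIn X K) j hcK _).mpr ⟨w, rfl⟩
    have h4 : (T i).push n (closedVarIn X K)
        (u₀ - hT.B i n (closedVarIn X K) j hcK w) = u := by
      rw [map_sub]
      have h5 : (T i).push n (closedVarIn X K) (hT.B i n (closedVarIn X K) j hcK w) = 0 := h3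
      rw [h5, sub_zero]
      exact hu₀
    exact h4
  · have h3 : S.V i n B₁ (u₀ - hT.B i n (closedVarIn X K) j hcK w) =
        (T (i + 1)).P (n + 2) c b := by
      have h4 : S.V i n B₁ (u₀ - hT.B i n (closedVarIn X K) j hcK w) =
          S.V i n B₁ u₀ - S.V i n B₁ (hT.B i n (closedVarIn X K) j hcK w) :=
        map_sub (S.pb i n B₁) _ _
      rw [h4, hbw, sub_sub_cancel]
    rw [h3]
    exact supp_mk hT.toExtra (i + 1) (n + 2) (e + 1) c (dimLE_of_mem C hC) b

/-- The statement without hypotheses. -/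
theorem main : S_BSU.{v} := by
  intro k E _ _ T hT hP hS S hG i n e Y X B u h
  obtain ⟨Z, Y', a, B', u', hZ, hu, hs⟩ := exists_small hT S hG i n e B u h
  rw [← hu]
  exact supp_push hT.toExtra i n e a u' (supp_small hT hS S hG i n e B' hZ u' hs)

end BSU

theorem t_BSU : M_BSU.{v} := fun _ _ => BSU.main

end QCV
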