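import Pool.Agent.QCV.G_LND
import Pool.Agent.QCV.G_TWO

/-!
# QCV, block G: the reduction of several equations to one, without a hypothesis on the base
-/

set_option autoImplicit false

open CategoryTheory AlgebraicGeometry Limits Polynomial TopologicalSpace

namespace QCV

open Pool.Agent.Lib_helper55.Beil Pool.Agent.Lib_helper66.OneP CUB

universe v

variable {k : Type} [Field k] {E : Type} [Field E] {T : ∀ i : ℕ, Homology.{v} k E i}

/-- The property `PF` descends from a product with an affine space to the base. -/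
theorem pf_mv_desc [Finite k] [CharZero E] (hT : Full T) (hP : Pub T hT) (hS : SectionZero T)
    (A : Type) [CommRing A] [Algebra k A] [Algebra.FiniteType k A] (i m : ℕ)
    (h : PF (T (i + m)) (aff k (MvPolynomial (Fin m) A))) : PF (T i) (aff k A) := by
  induction m with
  | zero =>
    let e : MvPolynomial (Fin 0) A ≃ₐ[k] A :=
      (MvPolynomial.isEmptyAlgEquiv A (Fin 0)).restrictScalars k
    exact pf_viso hT hP i (viso e.symm) h
  | succ m ih =>
    refine ih ?_
    let B := MvPolynomial (Fin m) A
    let e : MvPolynomial (Fin (m + 1)) A ≃ₐ[k] B[X] :=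
      (MvPolynomial.finSuccEquiv A m).restrictScalars k
    let φ : B →ₐ[k] MvPolynomial (Fin (m + 1)) A := (e.symm : _ →ₐ[k] _).comp (CC k B)
    exact pf_line_desc hT hP hS (i + m) (lineE φ e.symm.toRingEquiv (fun _ => rfl)) h

/-- RED3. The reduction of several equations to one. -/
theorem red3 [Finite k] [CharZero E] (hT : Full T) (hP : Pub T hT) (hS : SectionZero T)
    (i m : ℕ) {R R' : Type} [CommRing R] [CommRing R'] [Algebra k R] [Algebra k R']
    [Algebra.FiniteType k R] [Algebra.FiniteType k R'] (f : Fin (m + 1) → R) (ψ : R →ₐ[k] R')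
    (hψ : Function.Surjective ψ)
    (hk : RingHom.ker ψ.toRingHom = Ideal.span (Set.range f))
    (h : PI (T (i + (m + 1))) (aff k (VR R f))) : PI (T i) (aff k R') := by
  rw [pi_iff hT.toExtra] at h ⊢
  refine pf_mv_desc hT hP hS R' i (m + 1) ?_
  refine pf_of_zero hT hP (i + m + 1) m (fun j => ψ (f j)) ?_ ?_
  · intro j
    have h1 : f j ∈ RingHom.ker ψ.toRingHom := by
      rw [hk]
      exact Ideal.subset_span ⟨j, rfl⟩
    exact h1
  · refine ab_chain hT CUB.Asm.s_KERQ CUB.Asm.s_VRL (i + m) (2 * (i + m)) (i + m + 1) m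
      (List.finRange (m + 1)) f ψ hψ ?_ ?_
    · rw [hk]
      congr 1
      ext x
      simp
    · exact ab_of_pf hT (i + m + 1) _ _ (inv_tau (lin f)) h

end QCV
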