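import Pool.Agent.QCV.R_ELI

/-!
# QCV: elimination of a variable by an equation of degree at most one, for any family of equations
-/

set_option autoImplicit false

open Polynomial

namespace QCV

open CUB

/-- Elimination of the variable `x_j` by the equation `f none`. -/
theorem eli {k R ι₀ : Type} [Field k] [CommRing R] [Algebra k R] {n : ℕ}
    (f : Option ι₀ → MvPolynomial (Fin (n + 1)) R) (j : Fin (n + 1))
    (h0 : (f none).totalDegree ≤ 1)
    (hu : IsUnit (MvPolynomial.coeff (Finsupp.single j 1) (f none))) :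
    ∃ h : ι₀ → MvPolynomial (Fin n) R,
      (∀ c, (h c).totalDegree ≤ (f (some c)).totalDegree) ∧ Nonempty (ER f ≃ₐ[k] ER h) := by
  classical
  obtain ⟨u, hu⟩ := hu
  rcases subsingleton_or_nontrivial R with hR | hR
  · refine ⟨fun _ => 0, by simp, ?_⟩
    refine ELI.equiv_of _ _ (IsScalarTower.toAlgHom k R (MvPolynomial (Fin n) R) |>.comp
      ((MvPolynomial.aeval (fun _ => (0 : R))).restrictScalars k)) (IsScalarTower.toAlgHom k R
      (MvPolynomial (Fin (n + 1)) R) |>.comp
      ((MvPolynomial.aeval (fun _ => (0 : R))).restrictScalars k)) ?_ ?_ ?_ ?_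
    · intro x _
      rw [Subsingleton.elim x 0]
      exact zero_mem _
    · intro x _
      rw [Subsingleton.elim x 0]
      exact zero_mem _
    · intro b
      rw [Subsingleton.elim (_ - b) 0]
      exact zero_mem _
    · intro b
      rw [Subsingleton.elim (_ - b) 0]
      exact zero_mem _
  -- the linear form in the other variables
  let l : MvPolynomial (Fin n) R := MvPolynomial.C (MvPolynomial.coeff 0 (f none)) +
    ∑ i, MvPolynomial.C (MvPolynomial.coeff (Finsupp.single (j.succAbove i) 1) (f none)) *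
      MvPolynomial.X i
  let v : MvPolynomial (Fin n) R := - (MvPolynomial.C ((u⁻¹ : Rˣ) : R) * l)
  let σ : MvPolynomial (Fin (n + 1)) R →ₐ[R] MvPolynomial (Fin n) R :=
    MvPolynomial.aeval (j.insertNth v MvPolynomial.X)
  let ι : MvPolynomial (Fin n) R →ₐ[R] MvPolynomial (Fin (n + 1)) R :=
    MvPolynomial.rename j.succAbove
  have hσj : σ (MvPolynomial.X j) = v := by
    change MvPolynomial.aeval _ _ = _
    rw [MvPolynomial.aeval_X, Fin.insertNth_apply_same]
  have hσi : ∀ i, σ (MvPolynomial.X (j.succAbove i)) = MvPolynomial.X i := by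
    intro i
    change MvPolynomial.aeval _ _ = _
    rw [MvPolynomial.aeval_X, Fin.insertNth_apply_succAbove]
  have hιi : ∀ i, ι (MvPolynomial.X i) = MvPolynomial.X (j.succAbove i) := fun i =>
    MvPolynomial.rename_X _ _
  have hσC : ∀ r : R, σ (MvPolynomial.C r) = MvPolynomial.C r := fun r => σ.commutes r
  have hιC : ∀ r : R, ι (MvPolynomial.C r) = MvPolynomial.C r := fun r => ι.commutes r
  have hdl : l.totalDegree ≤ 1 := by
    refine (MvPolynomial.totalDegree_add _ _).trans (max_le ?_ ?_)
    · rw [MvPolynomial.totalDegree_C]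
      exact Nat.zero_le _
    · refine MvPolynomial.totalDegree_finsetSum_le fun i _ => ?_
      refine (MvPolynomial.totalDegree_mul _ _).trans ?_
      rw [MvPolynomial.totalDegree_C, MvPolynomial.totalDegree_X]
  have hdv : v.totalDegree ≤ 1 := by
    change (- _ : MvPolynomial (Fin n) R).totalDegree ≤ 1
    rw [MvPolynomial.totalDegree_neg]
    refine (MvPolynomial.totalDegree_mul _ _).trans ?_
    rw [MvPolynomial.totalDegree_C, zero_add]
    exact hdl
  have hdσ : ∀ i, ((j.insertNth v MvPolynomial.X : Fin (n + 1) → MvPolynomial (Fin n) R)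
      i).totalDegree ≤ 1 := by
    intro i
    rcases Fin.eq_self_or_eq_succAbove j i with rfl | ⟨i, rfl⟩
    · rw [Fin.insertNth_apply_same]
      exact hdv
    · rw [Fin.insertNth_apply_succAbove, MvPolynomial.totalDegree_X]
  have hιl : ι l = MvPolynomial.C (MvPolynomial.coeff 0 (f none)) +
      ∑ i, MvPolynomial.C (MvPolynomial.coeff (Finsupp.single (j.succAbove i) 1) (f none)) *
        MvPolynomial.X (j.succAbove i) := by
    change ι (_ + _) = _
    rw [map_add, hιC, map_sum]
    congr 1
    refine Finset.sum_congr rfl fun i _ => ?_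
    rw [map_mul, hιC, hιi]
  have hf0 : f none = MvPolynomial.C (u : R) * MvPolynomial.X j + ι l := by
    conv_lhs => rw [ELI.deg_one (f none) h0, Fin.sum_univ_succAbove _ j, ← hu]
    rw [hιl]
    ring
  have huu : MvPolynomial.C (u : R) * MvPolynomial.C ((u⁻¹ : Rˣ) : R) =
      (1 : MvPolynomial (Fin n) R) := by
    rw [← map_mul, Units.mul_inv, map_one]
  have huu' : MvPolynomial.C ((u⁻¹ : Rˣ) : R) * MvPolynomial.C (u : R) =
      (1 : MvPolynomial (Fin (n + 1)) R) := by
    rw [← map_mul, Units.inv_mul, map_one]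
  have hσι : ∀ x, σ (ι x) = x := by
    intro x
    have : σ.comp ι = AlgHom.id R _ := by
      ext i
      change MvPolynomial.coeff _ (σ (ι (MvPolynomial.X i))) = _
      rw [hιi, hσi]
      rfl
    exact DFunLike.congr_fun this x
  have hσf0 : σ (f none) = 0 := by
    rw [hf0, map_add, map_mul, hσC, hσj, hσι]
    change MvPolynomial.C (u : R) * (- (MvPolynomial.C ((u⁻¹ : Rˣ) : R) * l)) + l = 0
    rw [mul_neg, ← mul_assoc, huu, one_mul, neg_add_cancel]
  have hισ : ∀ x, ι (σ x) - x ∈ Ideal.span {f none} := by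
    intro x
    have : ((Ideal.Quotient.mkₐ R (Ideal.span {f none})).comp ι).comp σ =
        Ideal.Quotient.mkₐ R (Ideal.span {f none}) := by
      apply MvPolynomial.algHom_ext
      intro i
      change Ideal.Quotient.mk _ (ι (σ (MvPolynomial.X i))) = Ideal.Quotient.mk _ _
      rcases Fin.eq_self_or_eq_succAbove j i with rfl | ⟨i, rfl⟩
      · rw [hσj, Ideal.Quotient.eq, Ideal.mem_span_singleton']
        refine ⟨- MvPolynomial.C ((u⁻¹ : Rˣ) : R), ?_⟩
        change _ = ι (- (MvPolynomial.C ((u⁻¹ : Rˣ) : R) * l)) - _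
        rw [map_neg, map_mul, hιC, hf0, mul_add, ← mul_assoc, neg_mul, huu']
        ring
      · rw [hσi, hιi]
    rw [← Ideal.Quotient.eq]
    exact DFunLike.congr_fun this x
  refine ⟨fun c => σ (f (some c)), fun c => ELI.totalDegree_aeval_le _ hdσ (f (some c)), ?_⟩
  have hm : ∀ c, f c ∈ Ideal.span (Set.range f) := fun c => Ideal.subset_span ⟨c, rfl⟩
  have hle : Ideal.span {f none} ≤ Ideal.span (Set.range f) := by
    rw [Ideal.span_singleton_le_iff_mem]
    exact hm none
  refine ELI.equiv_of _ _ (σ.restrictScalars k) (ι.restrictScalars k) ?_ ?_ ?_ ?_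
  · rw [Ideal.span_le]
    rintro _ ⟨c, rfl⟩
    rcases c with _ | c
    · change σ (f none) ∈ Ideal.span (Set.range fun c => σ (f (some c)))
      rw [hσf0]
      exact zero_mem _
    · exact Ideal.subset_span ⟨c, rfl⟩
  · rw [Ideal.span_le]
    rintro _ ⟨c, rfl⟩
    change ι (σ (f (some c))) ∈ Ideal.span (Set.range f)
    have := add_mem (hle (hισ (f (some c)))) (hm (some c))
    rwa [sub_add_cancel] at this
  · intro b
    change σ (ι b) - b ∈ _
    rw [hσι, sub_self]
    exact zero_mem _
  · intro a
    exact hle (hισ a)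

end QCV
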