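import Pool.Agent.QCV.R_TWQ
import Pool.Agent.QCV.R_ELM
import Pool.Agent.QCV.Asm

/-!
# QCV: any number of linear equations
-/

set_option autoImplicit false

open Polynomial

namespace QCV

open CUB

/-- Elimination of a variable, for a family of polynomials. -/
def S_ELM : Prop :=
  ∀ (k R ι : Type) [Field k] [CommRing R] [Algebra k R] (n : ℕ)
    (f : Option ι → MvPolynomial (Fin (n + 1)) R) (j : Fin (n + 1)),
    (f none).totalDegree ≤ 1 → IsUnit (MvPolynomial.coeff (Finsupp.single j 1) (f none)) →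
    ∃ h : ι → MvPolynomial (Fin n) R, (∀ c, (h c).totalDegree ≤ (f (some c)).totalDegree) ∧
      Nonempty (ER f ≃ₐ[k] ER h)

namespace LNM

variable {R : Type} [CommRing R] {n s r : ℕ}

/-- The family without the first linear equation. -/
def drop (f : Fin (s + 1) ⊕ Fin r → MvPolynomial (Fin n) R) :
    Fin s ⊕ Fin r → MvPolynomial (Fin n) R :=
  Sum.elim (fun i => f (Sum.inl i.succ)) (fun j => f (Sum.inr j))

/-- The family, indexed by an option type. -/
def opt (f : Fin (s + 1) ⊕ Fin r → MvPolynomial (Fin n) R) :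
    Option (Fin s ⊕ Fin r) → MvPolynomial (Fin n) R
  | none => f (Sum.inl 0)
  | some i => drop f i

lemma range_opt (f : Fin (s + 1) ⊕ Fin r → MvPolynomial (Fin n) R) :
    Set.range (opt f) = Set.range f := by
  ext x
  constructor
  · rintro ⟨_ | (i | i), rfl⟩
    · exact ⟨Sum.inl 0, rfl⟩
    · exact ⟨Sum.inl i.succ, rfl⟩
    · exact ⟨Sum.inr i, rfl⟩
  · rintro ⟨i | i, rfl⟩
    · rcases Fin.eq_zero_or_eq_succ i with rfl | ⟨i, rfl⟩
      · exact ⟨none, rfl⟩
      · exact ⟨some (Sum.inl i), rfl⟩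
    · exact ⟨some (Sum.inr i), rfl⟩

lemma span_drop (f : Fin (s + 1) ⊕ Fin r → MvPolynomial (Fin n) R) (h0 : f (Sum.inl 0) = 0) :
    Ideal.span (Set.range (drop f)) = Ideal.span (Set.range f) := by
  apply le_antisymm
  · rw [Ideal.span_le]
    rintro _ ⟨i | i, rfl⟩
    · exact Ideal.subset_span ⟨Sum.inl i.succ, rfl⟩
    · exact Ideal.subset_span ⟨Sum.inr i, rfl⟩
  · rw [Ideal.span_le]
    rintro _ ⟨i | i, rfl⟩
    · rcases Fin.eq_zero_or_eq_succ i with rfl | ⟨i, rfl⟩
      · change f (Sum.inl 0) ∈ Ideal.span _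
        rw [h0]
        exact zero_mem _
      · exact Ideal.subset_span ⟨Sum.inl i, rfl⟩
    · exact Ideal.subset_span ⟨Sum.inr i, rfl⟩

end LNM

/-- Any number of equations of degree at most one, besides the `r` equations of degree at most
two. -/
theorem many_linear' (hELM : S_ELM) (k : Type) [Field k]
    (P : ∀ (A : Type) [CommRing A] [Algebra k A] [Algebra.FiniteType k A], Prop) (hP : Cls0 k P)
    (e r : ℕ)
    (hQ : ∀ (n : ℕ) (R : Type) [CommRing R] [Algebra k R] [Algebra.FiniteType k R]
      (f : Fin r → MvPolynomial (Fin n) R), DL k R e → (∀ j, (f j).totalDegree ≤ 2) → P (ER f))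
    (s : ℕ) : ∀ (n : ℕ) (R : Type) [CommRing R] [Algebra k R] [Algebra.FiniteType k R]
      (f : Fin s ⊕ Fin r → MvPolynomial (Fin n) R), DL k R e →
      (∀ j, (f (Sum.inl j)).totalDegree ≤ 1) → (∀ j, (f (Sum.inr j)).totalDegree ≤ 2) →
      P (ER f) := by
  induction s with
  | zero =>
    intro n R _ _ _ f hR _ h2
    have e1 : Ideal.span (Set.range (fun j : Fin r => f (Sum.inr j))) =
        Ideal.span (Set.range f) := by
      congr 1
      ext x
      constructor
      · rintro ⟨i, rfl⟩
        exact ⟨Sum.inr i, rfl⟩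
      · rintro ⟨i | i, rfl⟩
        · exact i.elim0
        · exact ⟨i, rfl⟩
    exact hP.iso (Ideal.quotientEquivAlgOfEq k e1) (hQ n R _ hR h2)
  | succ s ih =>
    intro n R _ _ _ f hR h1 h2
    refine Asm.s_SPR k (Fin (s + 1) ⊕ Fin r) P hP e n
      (fun _ _ f => (∀ j, (f (Sum.inl j)).totalDegree ≤ 1) ∧
        ∀ j, (f (Sum.inr j)).totalDegree ≤ 2) ?_ ?_ R f hR ⟨h1, h2⟩
    · intro R S _ _ ψ f hf
      exact ⟨fun j => (totalDegree_map_le _ _).trans (hf.1 j),
        fun j => (totalDegree_map_le _ _).trans (hf.2 j)⟩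
    clear h1 h2 hR f
    intro D _ _ _ _ f hD hf
    have hDu : ∀ u : D, DL k (Localization.Away u) e := fun u =>
      Asm.s_DLR.2.1 k D (Localization.Away u) e u (awayHom k u) (isLocalization_awayHom u) hD
    by_cases h0 : f (Sum.inl 0) = 0
    · refine ⟨1, one_ne_zero, ?_⟩
      have h3 := ih n (Localization.Away (1 : D))
        (LNM.drop (mf (algebraMap D (Localization.Away (1 : D))) f)) (hDu 1)
        (fun j => (totalDegree_map_le _ _).trans (hf.1 j.succ))
        (fun j => (totalDegree_map_le _ _).trans (hf.2 j))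
      refine hP.iso (Ideal.quotientEquivAlgOfEq k (LNM.span_drop _ ?_)) h3
      change MvPolynomial.map _ (f (Sum.inl 0)) = 0
      rw [h0, map_zero]
    by_cases hj : ∀ j, MvPolynomial.coeff (Finsupp.single j 1) (f (Sum.inl 0)) = 0
    · have h1 := eq_C_of_linear (f (Sum.inl 0)) (hf.1 0) hj
      set u := MvPolynomial.coeff 0 (f (Sum.inl 0)) with hu
      have hu0 : u ≠ 0 := by
        intro h
        rw [h, MvPolynomial.C_0] at h1
        exact h0 h1
      refine ⟨u, hu0, ?_⟩
      have h2 : mf (algebraMap D (Localization.Away u)) f (Sum.inl 0) =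
          MvPolynomial.C (algebraMap D (Localization.Away u) u) := by
        change MvPolynomial.map _ (f (Sum.inl 0)) = _
        rw [h1, MvPolynomial.map_C]
      have h3 : IsUnit (mf (algebraMap D (Localization.Away u)) f (Sum.inl 0)) := by
        rw [h2]
        exact (IsLocalization.Away.algebraMap_isUnit u).map MvPolynomial.C
      have h4 : Ideal.span (Set.range (mf (algebraMap D (Localization.Away u)) f)) = ⊤ :=
        Ideal.eq_top_of_isUnit_mem _ (Ideal.subset_span ⟨Sum.inl 0, rfl⟩) h3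
      apply hP.triv
      exact Ideal.Quotient.subsingleton_iff.mpr h4
    · push Not at hj
      obtain ⟨j, hj⟩ := hj
      obtain ⟨n, rfl⟩ : ∃ n', n = n' + 1 := ⟨n - 1, by have := j.2; omega⟩
      set u := MvPolynomial.coeff (Finsupp.single j 1) (f (Sum.inl 0)) with hu
      refine ⟨u, hj, ?_⟩
      set g := mf (algebraMap D (Localization.Away u)) f with hg
      have h1 : IsUnit (MvPolynomial.coeff (Finsupp.single j 1) (g (Sum.inl 0))) := by
        change IsUnit (MvPolynomial.coeff (Finsupp.single j 1) (MvPolynomial.map _ (f (Sum.inl 0))))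
        rw [MvPolynomial.coeff_map]
        exact IsLocalization.Away.algebraMap_isUnit u
      obtain ⟨h, hh, ⟨e'⟩⟩ := hELM k (Localization.Away u) (Fin s ⊕ Fin r) n (LNM.opt g) j
        ((totalDegree_map_le _ _).trans (hf.1 0)) h1
      have h3 := ih n (Localization.Away u) h (hDu u)
        (fun i => (hh (Sum.inl i)).trans ((totalDegree_map_le _ _).trans (hf.1 i.succ)))
        (fun i => (hh (Sum.inr i)).trans ((totalDegree_map_le _ _).trans (hf.2 i)))
      have h4 : Ideal.span (Set.range (LNM.opt g)) = Ideal.span (Set.range g) := by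
        rw [LNM.range_opt]
      exact hP.iso (e'.symm.trans (Ideal.quotientEquivAlgOfEq k h4)) h3

/-- Any number of equations of degree at most one, besides the `r` equations of degree at most
two. -/
theorem many_linear (k : Type) [Field k]
    (P : ∀ (A : Type) [CommRing A] [Algebra k A] [Algebra.FiniteType k A], Prop) (hP : Cls0 k P)
    (e r : ℕ)
    (hQ : ∀ (n : ℕ) (R : Type) [CommRing R] [Algebra k R] [Algebra.FiniteType k R]
      (f : Fin r → MvPolynomial (Fin n) R), DL k R e → (∀ j, (f j).totalDegree ≤ 2) → P (ER f))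
    (s n : ℕ) (R : Type) [CommRing R] [Algebra k R] [Algebra.FiniteType k R]
    (f : Fin s ⊕ Fin r → MvPolynomial (Fin n) R) (hR : DL k R e)
    (h1 : ∀ j, (f (Sum.inl j)).totalDegree ≤ 1) (h2 : ∀ j, (f (Sum.inr j)).totalDegree ≤ 2) :
    P (ER f) :=
  many_linear' (fun _ _ _ _ _ _ _ f j h0 hu => eli f j h0 hu) k P hP e r hQ s n R f hR h1 h2

end QCV
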