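import Pool.Agent.QCV.Defs3
import Pool.Agent.QCV.Nil
import Pool.Agent.QCV.Asm
import Pool.Agent.QCV.G_RED3
import Pool.Agent.QCV.R_LNM

/-!
# QCV: the class `Built`
-/

set_option autoImplicit false

open CategoryTheory AlgebraicGeometry Limits Polynomial TopologicalSpace

namespace QCV

open Pool.Agent.Lib_helper55.Beil Pool.Agent.Lib_helper66.OneP CUB

universe v

variable {k : Type} [Field k] {E : Type} [Field E]

lemma built_of_isEmpty {X : Var k} (h : IsEmpty X.X) (d : ℕ) : Built k d X :=
  Built.small X (fun x => (h.false x).elim)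

lemma built_of_red {X : Var k} {d : ℕ} (h : Built k d (redVar X)) : Built k d X :=
  Built.paste (redVarIn X) (openVarIn X ⊥) (complementary_red X) h
    (built_of_isEmpty (isEmpty_openVar_bot X) d)

/-- The class is determined by the closed subset of an ambient variety. -/
theorem built_same_range {X Y W : Var k} {d : ℕ} (a : ClosedIn X W) (b : ClosedIn Y W)
    (h : Set.range a.g = Set.range b.g) (hX : Built k d X) : Built k d Y := by
  have hred := isReduced_redVar Y
  obtain ⟨l, hl⟩ := exists_factor_range a ((redVarIn Y).trans b) (by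
    rintro _ ⟨y, rfl⟩
    rw [h]
    exact ⟨(redVarIn Y).g y, rfl⟩)
  apply built_of_red
  refine Built.nil l ?_ hX
  intro x
  have h1 : a.g x ∈ Set.range b.g := by
    rw [← h]
    exact ⟨x, rfl⟩
  obtain ⟨y, hy⟩ := h1
  obtain ⟨y', hy'⟩ : y ∈ Set.range (redVarIn Y).g := by
    rw [range_redVarIn]
    trivial
  refine ⟨y', ?_⟩
  apply closedIn_injective a
  rw [← hy, ← hy', ← Scheme.Hom.comp_apply, hl]
  rfl

/-! ## Theorem A: quadratic equations -/

lemma cls_built (k : Type) [Field k] (d : ℕ) :
    Cls k d (fun A [CommRing A] [Algebra k A] [Algebra.FiniteType k A] => Built k d (aff k A)) where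
  iso := fun e h => Built.iso (viso e.symm) h
  triv := fun A _ _ _ h => built_of_isEmpty (isEmpty_aff A h) d
  glue := fun a z u s hZ hU => Built.paste _ _
    (complementary_away u a s.away z s.surj s.ker) hZ hU
  opn := fun a z u s hA hZ => Built.cut _ _
    (complementary_away u a s.away z s.surj s.ker) hA hZ
  line := fun A _ _ _ h => Built.line A h
  dbl := fun A _ _ _ b c h => Built.cover A b c h
  base := fun A _ _ _ h => Built.small _ (dimLE_of_DL h)

/-- The affine varieties defined by `r` equations of degree at most two over a base of dimension at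
most `e`, `r + e ≤ d + 1`. -/
theorem built_quadrics {d r e n : ℕ} {R : Type} [CommRing R] [Algebra k R]
    [Algebra.FiniteType k R] (f : Fin r → MvPolynomial (Fin n) R) (hr : 1 ≤ r)
    (her : r + e ≤ d + 1) (hR : (aff k R).DimLE e) (hf : ∀ j, (f j).totalDegree ≤ 2) :
    Built k d (aff k (MvPolynomial (Fin n) R ⧸ Ideal.span (Set.range f))) := by
  obtain ⟨m, rfl⟩ : ∃ m, r = m + 1 := ⟨r - 1, by omega⟩
  exact Built.zeros _ m f (Asm.s_VRP k _ d e n (m + 1) (cls_built k d) (by omega) (by omega) R f
    ((dimLE_aff e).1 hR) hf)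

/-- The affine varieties defined by any number `s` of equations of degree at most one and `r`
equations of degree at most two over a base of dimension at most `e`, `e ≤ d`, `r + e ≤ d + 1`. -/
theorem built_equations {d r e n s : ℕ} {R : Type} [CommRing R] [Algebra k R]
    [Algebra.FiniteType k R] (f : Fin s ⊕ Fin r → MvPolynomial (Fin n) R) (hed : e ≤ d)
    (her : r + e ≤ d + 1) (hR : (aff k R).DimLE e)
    (h1 : ∀ j, (f (Sum.inl j)).totalDegree ≤ 1) (h2 : ∀ j, (f (Sum.inr j)).totalDegree ≤ 2) :
    Built k d (aff k (MvPolynomial (Fin n) R ⧸ Ideal.span (Set.range f))) := by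
  refine many_linear k (fun A [CommRing A] [Algebra k A] [Algebra.FiniteType k A] =>
    Built k d (aff k A)) (cls_built k d).toCls0 e r ?_ s n R f ((dimLE_aff e).1 hR) h1 h2
  intro n R _ _ _ f hR hf
  rcases Nat.eq_zero_or_pos r with rfl | hr
  · exact (Asm.s_PLY k _ (cls_built k d).toCls0 (cls_built k d).line R n).2.1 _ f
      (fun j => j.elim0) (Built.small _ (fun x => (dimLE_of_DL hR x).trans (by exact_mod_cast hed)))
  · exact built_quadrics f hr her (dimLE_of_DL hR) hf

/-! ## Theorem B: the property `PP` holds on the class -/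

/-- The statement of the descent along finite etale coverings. -/
def PfEt (T : ∀ i : ℕ, Homology.{v} k E i) : Prop :=
  ∀ (i : ℕ) {V U : Var k}, Pool.Agent.Lib_helper66.OneP.FinEt V U → IsIntegral U.X →
    PF (T i) V → PF (T i) U

/-- The statement for quadric cones in an odd number of variables. -/
def PpfOdd (T : ∀ i : ℕ, Homology.{v} k E i) : Prop :=
  ∀ (A : Type) [CommRing A] [Algebra k A] [Algebra.FiniteType k A] (m : ℕ)
    (a : Fin (2 * m + 1) → A), (∀ j, IsUnit (a j)) → PPF T (aff k A) →
    PPF T (aff k (MvPolynomial (Fin (2 * m + 1)) A ⧸ Ideal.span {dia a}))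

/-- The statement for line bundles. -/
def PpfBun (T : ∀ i : ℕ, Homology.{v} k E i) : Prop :=
  ∀ {Y X U : Var k} (B : Bun Y X) (s : ClosedIn X Y) (j : OpenIn U Y), s.g ≫ B.q = 𝟙 X.X →
    Complementary s j → PPF T U → PPF T X

theorem ppf_of_built [Finite k] [CharZero E] {T : ∀ i : ℕ, Homology.{v} k E i} (hT : Full T)
    (hP : Pub T hT) (hS : SectionZero T) (hE : PfEt T) (hO : PpfOdd T) (hL : PpfBun T) (d : ℕ)
    (hB : ∀ X : Var k, X.DimLE d → PP T X) (X : Var k) (h : Built k d X) : PPF T X := by
  induction h with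
  | small X hX => exact (pp_iff hT.toExtra _).mp (hB X hX)
  | iso s _ ih => exact fun i => pf_viso hT hP i s (ih i)
  | nil a hs _ ih => exact fun i => pf_nil hT i a hs (ih i)
  | paste a j hc _ _ ihZ ihU => exact fun i => pf_glue hT hP i a j hc (ihZ i) (ihU i)
  | cut a j hc _ _ ihX ihZ =>
    intro i
    rcases i with _ | i
    · exact pf_zero hT hP _
    · exact pf_open hT hP i a j hc (ihX _) (ihZ _)
  | line A _ ih => exact ppf_line hT hP A ih
  | unline L _ ih => exact fun i => pf_line_desc hT hP hS i L (ih (i + 1))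
  | cover A b c _ ih => exact fun i => pf_dbl hT hP i A b c (ih i)
  | etale f hint _ ih => exact fun i => hE i f hint (ih i)
  | bundle B s j hs hc _ ih => exact hL B s j hs hc ih
  | odd A m a ha _ ih => exact hO A m a ha ih
  | zeros A m f _ ih =>
    intro i
    exact (pi_iff hT.toExtra i _).mp (red3 hT hP hS i m f (Ideal.Quotient.mkₐ k _)
      (Ideal.Quotient.mkₐ_surjective k _) Ideal.mk_ker ((pi_iff hT.toExtra _ _).mpr (ih _)))

/-- The conjecture holds on the class if the property holds in dimension at most `d`. -/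
theorem q1_of_built [Finite k] [CharZero E] {T : ∀ i : ℕ, Homology.{v} k E i} (hT : Full T)
    (hP : Pub T hT) (hS : SectionZero T) (hE : PfEt T) (hO : PpfOdd T) (hL : PpfBun T) (d : ℕ)
    (hB : ∀ X : Var k, X.DimLE d → PP T X) (X : Var k) (hX : Built k d X) (i : ℕ) :
    Q1 (T i) X :=
  Q1_of_PI _ _ ((pp_iff hT.toExtra X).mpr (ppf_of_built hT hP hS hE hO hL d hB X hX) i)

end QCV
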