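import Pool.Agent.QCV.StC

set_option autoImplicit false

open Polynomial

namespace QCV

open CUB

namespace AFFX

lemma td_term {R : Type} [CommRing R] {σ τ : Type} (g : σ → MvPolynomial τ R)
    (hg : ∀ i, (g i).totalDegree ≤ 1) (m : σ →₀ ℕ) (c : R) :
    (MvPolynomial.C c * ∏ i ∈ m.support, g i ^ m i).totalDegree ≤ m.degree := by
  refine (MvPolynomial.totalDegree_mul _ _).trans ?_
  rw [MvPolynomial.totalDegree_C, zero_add]
  refine (MvPolynomial.totalDegree_finsetProd _ _).trans ?_
  rw [Finsupp.degree_apply]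
  apply Finset.sum_le_sum
  intro i _
  refine (MvPolynomial.totalDegree_pow _ _).trans ?_
  calc m i * (g i).totalDegree ≤ m i * 1 := Nat.mul_le_mul_left _ (hg i)
    _ = m i := mul_one _

lemma td_sp_le {R : Type} [CommRing R] {n : ℕ} (c : R) (p : MvPolynomial (Fin (n + 1)) R) :
    (sp c p).totalDegree ≤ p.totalDegree := by
  unfold sp
  rw [MvPolynomial.aeval_def, MvPolynomial.eval₂_eq]
  refine (MvPolynomial.totalDegree_finsetSum _ _).trans ?_
  apply Finset.sup_le
  intro m hm
  refine le_trans ?_ (MvPolynomial.le_totalDegree hm)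
  have h := td_term (R := R) (Fin.cons (MvPolynomial.C c) MvPolynomial.X :
    Fin (n + 1) → MvPolynomial (Fin n) R) (fun i => by
      refine Fin.cases ?_ (fun j => ?_) i
      · simp only [Fin.cons_zero]
        rw [MvPolynomial.totalDegree_C]
        exact Nat.zero_le _
      · simp only [Fin.cons_succ]
        by_cases hR : Nontrivial R
        · rw [MvPolynomial.totalDegree_X]
        · have hs : Subsingleton R := not_nontrivial_iff_subsingleton.1 hR
          have : (MvPolynomial.X j : MvPolynomial (Fin n) R) = 0 := Subsingleton.elim _ _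
          rw [this]
          simp) m (MvPolynomial.coeff m p)
  exact h

lemma deg_swap {R : Type} [CommRing R] {a s : ℕ}
    (G : MvPolynomial (Fin (s + 1)) (MvPolynomial (Fin (a + 1)) R))
    (hc : ∀ μ, (MvPolynomial.coeff μ G).IsHomogeneous (1 + μ 0)) :
    (MvPolynomial.commAlgEquiv R (Fin s) (Fin a)
      (sp 0 (MvPolynomial.map (sp (1 : R)).toRingHom G))).totalDegree ≤ 1 := by
  have hg : sp (0 : MvPolynomial (Fin a) R) (MvPolynomial.map (sp (1 : R)).toRingHom G) =
      ∑ m ∈ G.support, MvPolynomial.C (sp (1 : R) (MvPolynomial.coeff m G)) *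
        ∏ i ∈ m.support, (Fin.cons (MvPolynomial.C 0) MvPolynomial.X :
          Fin (s + 1) → MvPolynomial (Fin s) (MvPolynomial (Fin a) R)) i ^ m i := by
    unfold sp
    rw [MvPolynomial.aeval_def, MvPolynomial.eval₂_map, MvPolynomial.eval₂_eq]
    rfl
  rw [hg, map_sum]
  refine (MvPolynomial.totalDegree_finsetSum _ _).trans ?_
  apply Finset.sup_le
  intro m hm
  by_cases h0 : m 0 = 0
  · rw [map_mul, MvPolynomial.commAlgEquiv_C, map_prod]
    have hprod : ∀ i ∈ m.support, MvPolynomial.commAlgEquiv R (Fin s) (Fin a)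
        ((Fin.cons (MvPolynomial.C 0) MvPolynomial.X :
          Fin (s + 1) → MvPolynomial (Fin s) (MvPolynomial (Fin a) R)) i ^ m i) =
        MvPolynomial.C ((Fin.cons 0 MvPolynomial.X :
          Fin (s + 1) → MvPolynomial (Fin s) R) i ^ m i) := by
      intro i hi
      have hi0 : i ≠ 0 := by
        rintro rfl
        exact (Finsupp.mem_support_iff.1 hi) h0
      obtain ⟨j, rfl⟩ := Fin.exists_succ_eq.2 hi0
      simp only [Fin.cons_succ]
      rw [map_pow, MvPolynomial.commAlgEquiv_X, map_pow]
    rw [Finset.prod_congr rfl hprod, ← map_prod]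
    refine (MvPolynomial.totalDegree_mul _ _).trans ?_
    rw [MvPolynomial.totalDegree_C, add_zero]
    refine (totalDegree_map_le _ _).trans ((td_sp_le _ _).trans ?_)
    have := (hc m).totalDegree_le
    omega
  · have hz : (∏ i ∈ m.support, (Fin.cons (MvPolynomial.C 0) MvPolynomial.X :
          Fin (s + 1) → MvPolynomial (Fin s) (MvPolynomial (Fin a) R)) i ^ m i) = 0 := by
      apply Finset.prod_eq_zero (i := 0) (Finsupp.mem_support_iff.2 h0)
      simp only [Fin.cons_zero, map_zero]
      exact zero_pow h0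
    rw [hz, mul_zero, map_zero, MvPolynomial.totalDegree_zero]
    exact Nat.zero_le _

end AFFX

open AFFX in
theorem t_AFF : M_AFF := by
  intro hQOP hLN1 hHDE k _ P d h2 hP hOdd hGm R _ _ _ a s e G hed hea hes hDL hG hc hodd
  have hG1 : (MvPolynomial.map (sp (1 : R)).toRingHom G :
      MvPolynomial (Fin (s + 1)) (MvPolynomial (Fin a) R)).IsHomogeneous 2 := hG.map _
  by_cases h : e + a ≤ d
  · have hD : DL k (MvPolynomial (Fin a) R) d :=
      fun p => (Asm.s_DLM k R e a hDL p).trans (by exact_mod_cast h)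
    exact Asm.s_QUA k P d hP s (MvPolynomial (Fin a) R)
      (fun _ => sp 1 (MvPolynomial.map (sp (1 : R)).toRingHom G)) hD
      (fun _ => (td_sp_le _ _).trans hG1.totalDegree_le)
  · have hQ : P (ER (fun _ : Fin 1 => (MvPolynomial.map (sp (1 : R)).toRingHom G :
        MvPolynomial (Fin (s + 1)) (MvPolynomial (Fin a) R)))) :=
      hQOP k P d h2 hP hOdd R (s + 1) a e _ hed hea hDL hG1 (hodd (by omega))
    have h1 : P (ER (fun _ : Fin 1 => MvPolynomial.commAlgEquiv R (Fin s) (Fin a)
        (sp 0 (MvPolynomial.map (sp (1 : R)).toRingHom G)))) :=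
      hLN1 k P d hP R a s e _ hed hes hDL (deg_swap G hc)
    have h0 : P (ER (fun _ : Fin 1 => sp (0 : MvPolynomial (Fin a) R)
        (MvPolynomial.map (sp (1 : R)).toRingHom G))) := by
      refine hP.iso (AlgEquiv.symm (Ideal.quotientEquivAlg _ _
        ((MvPolynomial.commAlgEquiv R (Fin s) (Fin a)).restrictScalars k) ?_)) h1
      rw [Ideal.map_span, Set.range_const, Set.range_const, Set.image_singleton]
      rfl
    exact (hHDE k P hP.toCls0 hP.line hGm (MvPolynomial (Fin a) R) (Fin 1) s (fun _ => _)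
      (fun _ => 2) (fun _ => hG1) h0).2 hQ

end QCV
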