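import Pool.Agent.QCV.StC

/-!
# QCV, block C, module CUB: the affine cone over a cubic hypersurface
-/

set_option autoImplicit false

open Polynomial

namespace QCV

open CUB

namespace C_CUB

/-- quotients by one element -/
lemma quotIso {k A B : Type} [Field k] [CommRing A] [Algebra k A] [CommRing B] [Algebra k B]
    (θ : A ≃ₐ[k] B) (x : A) (y : B) (h : θ x = y) :
    Nonempty ((A ⧸ Ideal.span (Set.range fun _ : Fin 1 => x)) ≃ₐ[k]
      (B ⧸ Ideal.span (Set.range fun _ : Fin 1 => y))) := by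
  refine ⟨Ideal.quotientEquivAlg _ _ θ ?_⟩
  rw [Ideal.map_span, Set.range_const, Set.range_const, Set.image_singleton]
  exact congrArg (fun z => Ideal.span {z}) h.symm

section

variable {R : Type} [CommRing R]

lemma sp_C {n : ℕ} (c r : R) : sp (n := n) c (MvPolynomial.C r) = MvPolynomial.C r := by
  unfold sp
  rw [MvPolynomial.aeval_C]
  rfl

lemma sp_X0 {n : ℕ} (c : R) : sp (n := n) c (MvPolynomial.X 0) = MvPolynomial.C c := by
  unfold sp
  rw [MvPolynomial.aeval_X, Fin.cons_zero]

lemma sp_Xs {n : ℕ} (c : R) (i : Fin n) :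
    sp (n := n) c (MvPolynomial.X i.succ) = MvPolynomial.X i := by
  unfold sp
  rw [MvPolynomial.aeval_X, Fin.cons_succ]

/-- the ring homomorphism `cub` -/
noncomputable def cubH (R : Type) [CommRing R] (a s : ℕ) :
    MvPolynomial (Fin (s + 1)) (MvPolynomial (Fin (a + 1)) R) →+*
      MvPolynomial (Fin (a + s + 1)) R :=
  MvPolynomial.eval₂Hom
    (MvPolynomial.rename fun i : Fin (a + 1) => (⟨i.1, by omega⟩ : Fin (a + s + 1))).toRingHom
    (Fin.cons 1 fun j : Fin s => MvPolynomial.X ⟨a + 1 + j.1, by omega⟩)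

lemma cubH_apply {a s : ℕ} (G : MvPolynomial (Fin (s + 1)) (MvPolynomial (Fin (a + 1)) R)) :
    cubH R a s G = cub G := rfl

lemma cubH_C {a s : ℕ} (p : MvPolynomial (Fin (a + 1)) R) :
    cubH R a s (MvPolynomial.C p) =
      MvPolynomial.rename (fun i : Fin (a + 1) => (⟨i.1, by omega⟩ : Fin (a + s + 1))) p := by
  unfold cubH
  rw [MvPolynomial.eval₂Hom_C]
  rfl

lemma cubH_X0 {a s : ℕ} : cubH R a s (MvPolynomial.X 0) = 1 := by
  unfold cubH
  rw [MvPolynomial.eval₂Hom_X', Fin.cons_zero]

lemma cubH_Xs {a s : ℕ} (j : Fin s) :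
    cubH R a s (MvPolynomial.X j.succ) = MvPolynomial.X ⟨a + 1 + j.1, by omega⟩ := by
  unfold cubH
  rw [MvPolynomial.eval₂Hom_X', Fin.cons_succ]

/-- the first `a` variables are the inner ones -/
noncomputable def th (R : Type) [CommRing R] (a s : ℕ) :
    MvPolynomial (Fin (a + s)) R ≃ₐ[R] MvPolynomial (Fin s) (MvPolynomial (Fin a) R) :=
  (MvPolynomial.renameEquiv R (finSumFinEquiv.symm.trans (Equiv.sumComm (Fin a) (Fin s)))).trans
    (MvPolynomial.sumAlgEquiv R (Fin s) (Fin a))

lemma th_C {a s : ℕ} (r : R) : th R a s (MvPolynomial.C r) = MvPolynomial.C (MvPolynomial.C r) := by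
  rw [th, AlgEquiv.trans_apply, MvPolynomial.renameEquiv_apply, MvPolynomial.rename_C,
    MvPolynomial.sumAlgEquiv_C_inl]

lemma th_Xl {a s : ℕ} (i : ℕ) (hi : i < a) (hi' : i < a + s) :
    th R a s (MvPolynomial.X ⟨i, hi'⟩) = MvPolynomial.C (MvPolynomial.X ⟨i, hi⟩) := by
  have h : (finSumFinEquiv.symm.trans (Equiv.sumComm (Fin a) (Fin s))) ⟨i, hi'⟩ =
      Sum.inr ⟨i, hi⟩ := by
    rw [Equiv.trans_apply]
    have h1 : finSumFinEquiv.symm (⟨i, hi'⟩ : Fin (a + s)) = Sum.inl ⟨i, hi⟩ := by
      rw [Equiv.symm_apply_eq]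
      rfl
    rw [h1]
    rfl
  rw [th, AlgEquiv.trans_apply, MvPolynomial.renameEquiv_apply, MvPolynomial.rename_X, h,
    MvPolynomial.sumAlgEquiv_X_inr]

lemma th_Xr {a s : ℕ} (j : ℕ) (hj : j < s) (hj' : a + j < a + s) :
    th R a s (MvPolynomial.X ⟨a + j, hj'⟩) = MvPolynomial.X ⟨j, hj⟩ := by
  have h : (finSumFinEquiv.symm.trans (Equiv.sumComm (Fin a) (Fin s))) ⟨a + j, hj'⟩ =
      Sum.inl ⟨j, hj⟩ := by
    rw [Equiv.trans_apply]
    have h1 : finSumFinEquiv.symm (⟨a + j, hj'⟩ : Fin (a + s)) = Sum.inr ⟨j, hj⟩ := by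
      rw [Equiv.symm_apply_eq]
      rfl
    rw [h1]
    rfl
  rw [th, AlgEquiv.trans_apply, MvPolynomial.renameEquiv_apply, MvPolynomial.rename_X, h,
    MvPolynomial.sumAlgEquiv_X_inl]

/-- the chart `y_0 = 1` -/
lemma chart {a s : ℕ} (G : MvPolynomial (Fin (s + 1)) (MvPolynomial (Fin (a + 1)) R)) :
    th R a s (sp (1 : R) (cub G)) = sp 1 (MvPolynomial.map (sp (1 : R)).toRingHom G) := by
  have H : ((th R a s).toAlgHom.toRingHom.comp ((sp (1 : R)).toRingHom.comp (cubH R a s))) =
      ((sp (n := s) (1 : MvPolynomial (Fin a) R)).toRingHom.comp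
        (MvPolynomial.map (sp (n := a) (1 : R)).toRingHom)) := by
    apply MvPolynomial.ringHom_ext
    · intro p
      change th R a s (sp (1 : R) (cubH R a s (MvPolynomial.C p))) =
        sp 1 (MvPolynomial.map (sp (1 : R)).toRingHom (MvPolynomial.C p))
      rw [cubH_C, MvPolynomial.map_C, sp_C]
      have H2 : ((th R a s).toAlgHom.toRingHom.comp ((sp (1 : R)).toRingHom.comp
          (MvPolynomial.rename (R := R)
            (fun i : Fin (a + 1) => (⟨i.1, by omega⟩ : Fin (a + s + 1)))).toRingHom)) =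
          ((MvPolynomial.C (σ := Fin s)).comp (sp (n := a) (1 : R)).toRingHom) := by
        apply MvPolynomial.ringHom_ext
        · intro r
          change th R a s (sp (1 : R) (MvPolynomial.rename _ (MvPolynomial.C r))) =
            MvPolynomial.C (sp (1 : R) (MvPolynomial.C r))
          rw [MvPolynomial.rename_C, sp_C, sp_C, th_C]
        · intro i
          change th R a s (sp (1 : R) (MvPolynomial.rename _ (MvPolynomial.X i))) =
            MvPolynomial.C (sp (1 : R) (MvPolynomial.X i))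
          rw [MvPolynomial.rename_X]
          refine Fin.cases ?_ (fun i => ?_) i
          · have h0 : (⟨(0 : Fin (a + 1)).1, by omega⟩ : Fin (a + s + 1)) = 0 := rfl
            rw [h0, sp_X0, sp_X0, th_C]
          · have h0 : (⟨(i.succ : Fin (a + 1)).1, by omega⟩ : Fin (a + s + 1)) =
              Fin.succ ⟨i.1, by omega⟩ := rfl
            rw [h0, sp_Xs, sp_Xs, th_Xl i.1 i.2]
      exact RingHom.congr_fun H2 p
    · intro i
      change th R a s (sp (1 : R) (cubH R a s (MvPolynomial.X i))) =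
        sp 1 (MvPolynomial.map (sp (1 : R)).toRingHom (MvPolynomial.X i))
      rw [MvPolynomial.map_X]
      refine Fin.cases ?_ (fun i => ?_) i
      · rw [cubH_X0, map_one, map_one, sp_X0, map_one]
      · have h0 : (⟨a + 1 + i.1, by omega⟩ : Fin (a + s + 1)) = Fin.succ ⟨a + i.1, by omega⟩ :=
          Fin.ext (by simp only [Fin.val_succ]; omega)
        rw [cubH_Xs, h0, sp_Xs, sp_Xs, th_Xr i.1 i.2]
  exact RingHom.congr_fun H G

/-- the stratum `y_0 = 0`, one variable `y_0` -/
lemma stratum_zero {s : ℕ} (G : MvPolynomial (Fin (s + 1)) (MvPolynomial (Fin (0 + 1)) R))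
    (hG : ∀ μ, (MvPolynomial.coeff μ G).IsHomogeneous (1 + μ 0)) : sp (0 : R) (cub G) = 0 := by
  unfold cub
  rw [MvPolynomial.eval₂_eq, map_sum]
  refine Finset.sum_eq_zero fun μ _ => ?_
  rw [map_mul]
  have h1 : sp (0 : R) ((MvPolynomial.rename (R := R)
      (fun i : Fin (0 + 1) => (⟨i.1, by omega⟩ : Fin (0 + s + 1)))).toRingHom
        (MvPolynomial.coeff μ G)) = 0 := by
    have h2 : ((sp (n := 0 + s) (0 : R)).comp (MvPolynomial.rename (R := R)
        (fun i : Fin (0 + 1) => (⟨i.1, by omega⟩ : Fin (0 + s + 1))))) =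
        MvPolynomial.aeval (fun _ => 0) := by
      apply MvPolynomial.algHom_ext
      intro i
      rw [AlgHom.comp_apply, MvPolynomial.rename_X, MvPolynomial.aeval_X]
      have h0 : (⟨i.1, by omega⟩ : Fin (0 + s + 1)) = 0 := Fin.ext (by
        change i.1 = 0
        omega)
      rw [h0, sp_X0, map_zero]
    have h3 := congrArg (fun φ : MvPolynomial (Fin (0 + 1)) R →ₐ[R] MvPolynomial (Fin (0 + s)) R =>
      φ (MvPolynomial.coeff μ G)) h2
    refine Eq.trans h3 ?_
    change MvPolynomial.aeval (fun _ => (0 : MvPolynomial (Fin (0 + s)) R))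
      (MvPolynomial.coeff μ G) = 0
    rw [MvPolynomial.aeval_zero']
    have h4 : MvPolynomial.constantCoeff (MvPolynomial.coeff μ G) = 0 := by
      rw [MvPolynomial.constantCoeff_eq]
      refine (hG μ).coeff_eq_zero ?_
      rw [map_zero]
      omega
    rw [h4, map_zero]
  rw [h1, zero_mul]

/-- the stratum `y_0 = 0` -/
lemma stratum_succ {a s : ℕ}
    (G : MvPolynomial (Fin (s + 1)) (MvPolynomial (Fin (a + 1 + 1)) R))
    (h : a + 1 + s = a + s + 1) :
    MvPolynomial.renameEquiv R (finCongr h) (sp (0 : R) (cub G)) =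
      cub (MvPolynomial.map (sp (0 : R)).toRingHom G) := by
  have H : ((MvPolynomial.renameEquiv R (finCongr h)).toAlgHom.toRingHom.comp
      ((sp (0 : R)).toRingHom.comp (cubH R (a + 1) s))) =
      ((cubH R a s).comp (MvPolynomial.map (sp (n := a + 1) (0 : R)).toRingHom)) := by
    apply MvPolynomial.ringHom_ext
    · intro p
      change MvPolynomial.renameEquiv R (finCongr h)
        (sp (0 : R) (cubH R (a + 1) s (MvPolynomial.C p))) =
        cubH R a s (MvPolynomial.map (sp (0 : R)).toRingHom (MvPolynomial.C p))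
      rw [cubH_C, MvPolynomial.map_C, cubH_C]
      have H2 : ((MvPolynomial.renameEquiv R (finCongr h)).toAlgHom.comp
          ((sp (0 : R)).comp (MvPolynomial.rename (R := R)
            (fun i : Fin (a + 1 + 1) => (⟨i.1, by omega⟩ : Fin (a + 1 + s + 1)))))) =
          ((MvPolynomial.rename (R := R)
            (fun i : Fin (a + 1) => (⟨i.1, by omega⟩ : Fin (a + s + 1)))).comp
            (sp (n := a + 1) (0 : R))) := by
        apply MvPolynomial.algHom_ext
        intro i
        change MvPolynomial.renameEquiv R (finCongr h)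
          (sp (0 : R) (MvPolynomial.rename _ (MvPolynomial.X i))) =
          MvPolynomial.rename _ (sp (0 : R) (MvPolynomial.X i))
        rw [MvPolynomial.rename_X]
        refine Fin.cases ?_ (fun i => ?_) i
        · have h0 : (⟨(0 : Fin (a + 1 + 1)).1, by omega⟩ : Fin (a + 1 + s + 1)) = 0 := rfl
          rw [h0, sp_X0, sp_X0, map_zero, map_zero, map_zero, map_zero]
        · have h0 : (⟨(i.succ : Fin (a + 1 + 1)).1, by omega⟩ : Fin (a + 1 + s + 1)) =
            Fin.succ ⟨i.1, by omega⟩ := rfl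
          rw [h0, sp_Xs, sp_Xs, MvPolynomial.renameEquiv_apply, MvPolynomial.rename_X,
            MvPolynomial.rename_X]
          rfl
      exact congrArg (fun φ : MvPolynomial (Fin (a + 1 + 1)) R →ₐ[R]
        MvPolynomial (Fin (a + s + 1)) R => φ p) H2
    · intro i
      change MvPolynomial.renameEquiv R (finCongr h)
        (sp (0 : R) (cubH R (a + 1) s (MvPolynomial.X i))) =
        cubH R a s (MvPolynomial.map (sp (0 : R)).toRingHom (MvPolynomial.X i))
      rw [MvPolynomial.map_X]
      refine Fin.cases ?_ (fun i => ?_) i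
      · rw [cubH_X0, cubH_X0, map_one, map_one]
      · have h0 : (⟨a + 1 + 1 + i.1, by omega⟩ : Fin (a + 1 + s + 1)) =
            Fin.succ ⟨a + 1 + i.1, by omega⟩ := Fin.ext (by simp only [Fin.val_succ]; omega)
        rw [cubH_Xs, cubH_Xs, h0, sp_Xs, MvPolynomial.renameEquiv_apply, MvPolynomial.rename_X]
        rfl
  exact RingHom.congr_fun H G

/-- `sp 0` preserves homogeneity -/
lemma sp_hom {n m : ℕ} {p : MvPolynomial (Fin (n + 1)) R} (h : p.IsHomogeneous m) :
    (sp (0 : R) p).IsHomogeneous m := by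
  have h1 := h.aeval (Fin.cons (MvPolynomial.C 0) MvPolynomial.X :
    Fin (n + 1) → MvPolynomial (Fin n) R) (n := 1) (by
      intro i
      refine Fin.cases ?_ (fun i => ?_) i
      · rw [Fin.cons_zero, map_zero]
        exact MvPolynomial.isHomogeneous_zero _ _ _
      · rw [Fin.cons_succ]
        exact MvPolynomial.isHomogeneous_X _ _)
  rwa [one_mul] at h1

end

end C_CUB

open C_CUB in
/-- QCV_CUB. -/
theorem t_CUB : M_CUB := by
  intro hAFF hHDE hCUH k _ P d h2 hCls hOdd hGm R _ _ _ a
  induction a with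
  | zero =>
    intro s e G hed hea hes hDL hG hc hodd
    refine (hHDE k P hCls.toCls0 hCls.line hGm R (Fin 1) (0 + s) (fun _ => cub G) (fun _ => 3)
      (fun _ => hCUH R 0 s G hG hc) ?_).1 ?_
    · refine (Asm.s_PLY k P hCls.toCls0 hCls.line R _).2.1 _ _ (fun _ => stratum_zero G hc) ?_
      exact hCls.base R fun p => (hDL p).trans (by exact_mod_cast hed)
    · obtain ⟨i⟩ := quotIso ((th R 0 s).restrictScalars k) _ _ (chart G)
      exact hCls.iso i.symm (hAFF k P d h2 hCls hOdd hGm R 0 s e G hed hea hes hDL hG hc hodd)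
  | succ a ih =>
    intro s e G hed hea hes hDL hG hc hodd
    refine (hHDE k P hCls.toCls0 hCls.line hGm R (Fin 1) (a + 1 + s) (fun _ => cub G)
      (fun _ => 3) (fun _ => hCUH R (a + 1) s G hG hc) ?_).1 ?_
    · have hP := ih s e (MvPolynomial.map (sp (0 : R)).toRingHom G) hed (by omega) hes hDL
        (hG.map _) (fun μ => by
          rw [MvPolynomial.coeff_map]
          exact sp_hom (hc μ)) (fun h => by omega)
      obtain ⟨i⟩ := quotIso ((MvPolynomial.renameEquiv R
        (finCongr (show a + 1 + s = a + s + 1 by omega))).restrictScalars k) _ _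
        (stratum_succ G (by omega))
      exact hCls.iso i.symm hP
    · obtain ⟨i⟩ := quotIso ((th R (a + 1) s).restrictScalars k) _ _ (chart G)
      exact hCls.iso i.symm (hAFF k P d h2 hCls hOdd hGm R (a + 1) s e G hed hea hes hDL hG hc
        hodd)

end QCV
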