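import Pool.Agent.QCV.StC

/-!
# QCV, block C: the cubic form is homogeneous of degree three
-/

set_option autoImplicit false

open Polynomial

namespace QCV

theorem t_CUH : S_CUH := by
  intro R _ a s G hG hc
  unfold cub
  rw [MvPolynomial.eval₂_eq']
  apply MvPolynomial.IsHomogeneous.sum
  intro μ hμ
  have hdeg : μ.degree = 2 := by
    have := hG (MvPolynomial.mem_support_iff.mp hμ)
    rw [Finsupp.degree_eq_weight_one (R := ℕ)]; exact this
  have hs : μ 0 + ∑ j : Fin s, μ j.succ = 2 := by
    rw [← hdeg, Finsupp.degree_eq_sum, Fin.sum_univ_succ]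
  have h1 : ((MvPolynomial.rename fun i : Fin (a + 1) =>
      (⟨i.1, by omega⟩ : Fin (a + s + 1))).toRingHom
      (MvPolynomial.coeff μ G)).IsHomogeneous (1 + μ 0) :=
    MvPolynomial.IsHomogeneous.rename_isHomogeneous (hc μ)
  have h2 : (∏ i, (Fin.cons (α := fun _ => MvPolynomial (Fin (a + s + 1)) R) 1
      fun j : Fin s => MvPolynomial.X ⟨a + 1 + j.1, by omega⟩ :
        Fin (s + 1) → MvPolynomial (Fin (a + s + 1)) R) i ^ μ i).IsHomogeneous
      (∑ j : Fin s, μ j.succ) := by
    rw [Fin.prod_univ_succ]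
    simp only [Fin.cons_zero, Fin.cons_succ, one_pow, one_mul]
    apply MvPolynomial.IsHomogeneous.prod
    intro j _
    have := (MvPolynomial.isHomogeneous_X R
      (⟨a + 1 + j.1, by omega⟩ : Fin (a + s + 1))).pow (μ j.succ)
    simpa using this
  have h3 := h1.mul h2
  have e3 : 1 + μ 0 + ∑ j : Fin s, μ j.succ = 3 := by omega
  rw [e3] at h3
  exact h3

end QCV
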