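import Pool.Agent.QCV.StC

/-!
# QCV, module HDE: affine cones and their charts (helper83)
-/

set_option autoImplicit false

open Polynomial

namespace QCV

namespace HDE_aux

/-- The strata `X = 0` and `X ≠ 0` of the affine line over `A`. -/
theorem line (k : Type) [Field k] (A : Type) [CommRing A] [Algebra k A] :
    Strat (Polynomial.X : A[X]) ((Polynomial.aeval (0 : A)).restrictScalars k : A[X] →ₐ[k] A)
      (IsScalarTower.toAlgHom k A[X] (Localization.Away (Polynomial.X : A[X]))) where
  surj := fun a => ⟨Polynomial.C a, by simp⟩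
  ker := by
    ext p
    rw [RingHom.mem_ker, Ideal.mem_span_singleton, Polynomial.X_dvd_iff,
      Polynomial.coeff_zero_eq_aeval_zero]
    rfl
  away := by
    have h : (IsScalarTower.toAlgHom k A[X] (Localization.Away (Polynomial.X : A[X]))).toRingHom.toAlgebra =
        (inferInstance : Algebra A[X] (Localization.Away (Polynomial.X : A[X]))) := by
      refine Algebra.algebra_ext _ _ fun r => rfl
    rw [h]
    infer_instance

end HDE_aux

theorem t_HDE : M_HDE := by
  intro hHCH k _ P hC hline hG R ι _ _ _ n f m hm hz
  obtain ⟨z, u, hS⟩ := hHCH k R ι n f m hm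
  constructor
  · intro hA
    have h1 := hC.opn _ _ _ (HDE_aux.line k (ER (fun j => sp 1 (f j)))) (hline _ hA) hA
    exact hC.glue _ _ _ hS hz h1
  · intro hf
    exact hG _ (hC.opn _ _ _ hS hf hz)

end QCV
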