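import Pool.Agent.QCV.StC
import Pool.Agent.QCV.O_QNO
import Pool.Agent.QCV.R_ELM

/-!
# QCV, block C: one equation of degree at most one over a polynomial ring
-/

set_option autoImplicit false

open Polynomial

namespace QCV

open CUB

namespace LN1

/-- One equation of degree at most one over a domain `B` of dimension at most `d + 1` with `P B`. -/
theorem dom {k : Type} [Field k]
    {P : ∀ (A : Type) [CommRing A] [Algebra k A] [Algebra.FiniteType k A], Prop} {d : ℕ}
    (hP : Cls k d P) (B : Type) [CommRing B] [IsDomain B] [Algebra k B] [Algebra.FiniteType k B]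
    (hB : DL k B (d + 1)) (hPB : P B) (n : ℕ) (f : MvPolynomial (Fin n) B)
    (hf : f.totalDegree ≤ 1) : P (ER (fun _ : Fin 1 => f)) := by
  by_cases h0 : f = 0
  · exact (Asm.s_PLY k P hP.toCls0 hP.line B n).2.1 (Fin 1) _ (fun _ => h0) hPB
  -- the two strata for a nonzero element of `B`
  have key : ∀ u : B, u ≠ 0 → P (ER (mf (awayHom k u).toRingHom (fun _ : Fin 1 => f))) →
      P (ER (fun _ : Fin 1 => f)) := by
    intro u hu hU
    have hs : Strat u (Ideal.Quotient.mkₐ k (Ideal.span {u})) (awayHom k u) :=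
      ⟨Ideal.Quotient.mkₐ_surjective k _, Ideal.mk_ker, isLocalization_awayHom u⟩
    obtain ⟨z', u', hs'⟩ := Asm.s_FAM.1 k _ _ _ (Fin 1) n _ _ _ (fun _ : Fin 1 => f) hs
    refine hP.glue _ z' u' hs' ?_ hU
    refine Asm.s_QUA k P d hP n _ _ (Asm.s_DLR.2.2.2.2 k B d u hu hB) fun _ => ?_
    exact (totalDegree_map_le _ _).trans (hf.trans (by omega))
  have hPU : ∀ u : B, u ≠ 0 → P (Localization.Away u) := by
    intro u hu
    have hs : Strat u (Ideal.Quotient.mkₐ k (Ideal.span {u})) (awayHom k u) :=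
      ⟨Ideal.Quotient.mkₐ_surjective k _, Ideal.mk_ker, isLocalization_awayHom u⟩
    exact hP.opn _ _ _ hs hPB (hP.base _ (Asm.s_DLR.2.2.2.2 k B d u hu hB))
  by_cases hj : ∀ j, MvPolynomial.coeff (Finsupp.single j 1) f = 0
  · have h1 := eq_C_of_linear f hf hj
    set u := MvPolynomial.coeff 0 f with hu
    have hu0 : u ≠ 0 := by
      intro h
      rw [h, MvPolynomial.C_0] at h1
      exact h0 h1
    refine key u hu0 ?_
    refine (Asm.s_PLY k P hP.toCls0 hP.line (Localization.Away u) n).2.2 (Fin 1) _ ?_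
    have h3 : IsUnit (mf (awayHom k u).toRingHom (fun _ : Fin 1 => f) 0) := by
      change IsUnit (MvPolynomial.map _ f)
      rw [h1, MvPolynomial.map_C]
      exact (IsLocalization.Away.algebraMap_isUnit u).map MvPolynomial.C
    have h4 : Ideal.span (Set.range (mf (awayHom k u).toRingHom (fun _ : Fin 1 => f))) = ⊤ :=
      Ideal.eq_top_of_isUnit_mem _ (Ideal.subset_span ⟨0, rfl⟩) h3
    rw [h4]
    trivial
  · push Not at hj
    obtain ⟨j, hj⟩ := hj
    obtain ⟨n, rfl⟩ : ∃ n', n = n' + 1 := ⟨n - 1, by have := j.2; omega⟩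
    set u := MvPolynomial.coeff (Finsupp.single j 1) f with hu
    refine key u hj ?_
    have h1 : IsUnit (MvPolynomial.coeff (Finsupp.single j 1)
        (MvPolynomial.map (awayHom k u).toRingHom f)) := by
      rw [MvPolynomial.coeff_map]
      exact IsLocalization.Away.algebraMap_isUnit u
    obtain ⟨h, -, ⟨e⟩⟩ := eli (k := k)
      (fun _ : Option Empty => MvPolynomial.map (awayHom k u).toRingHom f) j
      ((totalDegree_map_le _ _).trans hf) h1
    have h2 : P (ER h) := (Asm.s_PLY k P hP.toCls0 hP.line (Localization.Away u) n).2.1 Empty h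
      (fun c => c.elim) (hPU u hj)
    have h3 : Ideal.span (Set.range (fun _ : Option Empty =>
        MvPolynomial.map (awayHom k u).toRingHom f)) =
        Ideal.span (Set.range (mf (awayHom k u).toRingHom (fun _ : Fin 1 => f))) := by
      congr 1
      ext x
      constructor
      · rintro ⟨_, rfl⟩
        exact ⟨0, rfl⟩
      · rintro ⟨_, rfl⟩
        exact ⟨none, rfl⟩
    exact hP.iso (e.symm.trans (Ideal.quotientEquivAlgOfEq k h3)) h2

end LN1

open QNO in
theorem t_LN1 : S_LN1 := by
  intro k _ P d hP R _ _ _ n s e f hed hse hR hf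
  have hmf : ∀ (S S' : Type) [CommRing S] [Algebra k S] [CommRing S'] [Algebra k S']
      (ψ : R →ₐ[k] S) (φ : S →ₐ[k] S'),
      (fun _ : Fin 1 => MvPolynomial.map (FAM.mpa s (φ.comp ψ)).toRingHom f) =
        mf (FAM.mpa s φ).toRingHom
          (fun _ : Fin 1 => MvPolynomial.map (FAM.mpa s ψ).toRingHom f) := by
    intro S S' _ _ _ _ ψ φ
    funext j
    change _ = MvPolynomial.map _ (MvPolynomial.map _ f)
    rw [MvPolynomial.map_map]
    have h1 : (FAM.mpa s (φ.comp ψ)).toRingHom =
        (FAM.mpa s φ).toRingHom.comp (FAM.mpa s ψ).toRingHom := by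
      apply RingHom.ext
      intro x
      exact (MvPolynomial.map_map _ _ x).symm
    rw [h1]
  have h1 : Cls1 k R (fun S _ _ _ ψ => P (ER (fun _ : Fin 1 =>
      MvPolynomial.map (FAM.mpa s ψ).toRingHom f))) := by
    constructor
    · intro S S' _ _ _ _ _ _ e ψ hS
      have hb : Function.Bijective (FAM.mpa s e.toAlgHom) :=
        ⟨MvPolynomial.map_injective _ e.injective, MvPolynomial.map_surjective _ e.surjective⟩
      obtain ⟨e'⟩ := Asm.s_FAM.2 k _ _ (Fin 1) n (AlgEquiv.ofBijective _ hb)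
        (fun _ : Fin 1 => MvPolynomial.map (FAM.mpa s ψ).toRingHom f)
      have := hP.iso e' hS
      have h3 : mf ((AlgEquiv.ofBijective _ hb).toAlgHom).toRingHom
          (fun _ : Fin 1 => MvPolynomial.map (FAM.mpa s ψ).toRingHom f) =
          fun _ : Fin 1 => MvPolynomial.map (FAM.mpa s (e.toAlgHom.comp ψ)).toRingHom f := by
        rw [hmf]
        rfl
      rw [h3] at this
      exact this
    · intro S _ _ _ ψ hS
      apply hP.triv
      have h3 : Subsingleton (MvPolynomial (Fin s) S) := Module.subsingleton S _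
      have h4 : Subsingleton (MvPolynomial (Fin n) (MvPolynomial (Fin s) S)) :=
        Module.subsingleton (MvPolynomial (Fin s) S) _
      exact Function.Surjective.subsingleton (Ideal.Quotient.mk_surjective
        (I := Ideal.span (Set.range (fun _ : Fin 1 =>
          MvPolynomial.map (FAM.mpa s ψ).toRingHom f))))
    · intro A Z U _ _ _ _ _ _ _ _ _ a z u ψ hs hZ hU
      obtain ⟨z', u', hs'⟩ := Asm.s_FAM.1 k _ _ _ (Fin 1) n _ _ _
        (fun _ : Fin 1 => MvPolynomial.map (FAM.mpa s ψ).toRingHom f) (strat_mv s hs)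
      refine hP.glue _ z' u' hs' ?_ ?_
      · rw [← hmf]
        exact hZ
      · rw [← hmf]
        exact hU
    · intro A Z U _ _ _ _ _ _ _ _ _ a z u ψ hs hA hZ
      obtain ⟨z', u', hs'⟩ := Asm.s_FAM.1 k _ _ _ (Fin 1) n _ _ _
        (fun _ : Fin 1 => MvPolynomial.map (FAM.mpa s ψ).toRingHom f) (strat_mv s hs)
      have := hP.opn _ z' u' hs' hA (by rw [← hmf]; exact hZ)
      rw [← hmf] at this
      exact this
  -- the residue rings of the primes
  have hdom : ∀ p : PrimeSpectrum R, P (ER (fun _ : Fin 1 =>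
      MvPolynomial.map (FAM.mpa s (Ideal.Quotient.mkₐ k p.asIdeal)).toRingHom f)) := by
    intro p
    have hD : DL k (R ⧸ p.asIdeal) e :=
      Asm.s_DLR.1 k R _ e (Ideal.Quotient.mkₐ k p.asIdeal) (Ideal.Quotient.mkₐ_surjective k _) hR
    have hB : DL k (MvPolynomial (Fin s) (R ⧸ p.asIdeal)) (d + 1) :=
      DL_mono (by omega) (Asm.s_DLM k _ e s hD)
    exact LN1.dom hP _ hB
      ((Asm.s_PLY k P hP.toCls0 hP.line _ s).1 (hP.base _ (DL_mono hed hD))) n _
      ((totalDegree_map_le _ _).trans hf)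
  have h3 := Asm.s_NOE k R _ h1 (by
    intro D _ _ _ _ ψ hψ
    have hprime : (RingHom.ker ψ.toRingHom).IsPrime := RingHom.ker_isPrime _
    refine ⟨1, one_ne_zero, ?_⟩
    have hbij : Function.Bijective (awayHom k (1 : D)) := by
      have := isLocalization_awayHom (k := k) (1 : D)
      exact (IsLocalization.atUnit D (Localization.Away (1 : D)) (1 : D) isUnit_one).bijective
    let e1 : (R ⧸ RingHom.ker ψ.toRingHom) ≃ₐ[k] D :=
      Ideal.quotientKerAlgEquivOfSurjective hψ
    let e2 : (R ⧸ RingHom.ker ψ.toRingHom) ≃ₐ[k] Localization.Away (1 : D) :=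
      e1.trans (AlgEquiv.ofBijective _ hbij)
    have h4 := h1.iso e2 _ (hdom ⟨RingHom.ker ψ.toRingHom, hprime⟩)
    have h5 : e2.toAlgHom.comp (Ideal.Quotient.mkₐ k (RingHom.ker ψ.toRingHom)) =
        (awayHom k (1 : D)).comp ψ := by
      apply AlgHom.ext
      intro x
      rfl
    have h6 := h5 ▸ h4
    exact h6)
  have h4 : MvPolynomial.map (FAM.mpa s (AlgHom.id k R)).toRingHom f = f := by
    have h5 : (FAM.mpa s (AlgHom.id k R)).toRingHom = RingHom.id (MvPolynomial (Fin s) R) := by
      apply RingHom.ext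
      intro x
      exact MvPolynomial.map_id x
    rw [h5]
    exact MvPolynomial.map_id f
  have h6 : P (ER (fun _ : Fin 1 => MvPolynomial.map (FAM.mpa s (AlgHom.id k R)).toRingHom f)) :=
    h3
  rw [h4] at h6
  exact h6

end QCV
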