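import Mathlib
import Pool.Agent.QCV.StC
import Pool.Agent.QCV.O_QNO

/-!
# QCV, block C: one quadratic form of odd generic rank over a polynomial ring
-/

set_option autoImplicit false

open Polynomial

namespace QCV

open CUB

namespace QOP

lemma mpa_comp {k R S S' : Type} [Field k] [CommRing R] [Algebra k R] [CommRing S] [Algebra k S]
    [CommRing S'] [Algebra k S'] {n : ℕ} (a : ℕ) (ψ : R →ₐ[k] S) (φ : S →ₐ[k] S')
    (f : MvPolynomial (Fin n) (MvPolynomial (Fin a) R)) :
    MvPolynomial.map (FAM.mpa a (φ.comp ψ)).toRingHom f =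
      MvPolynomial.map (FAM.mpa a φ).toRingHom (MvPolynomial.map (FAM.mpa a ψ).toRingHom f) := by
  have h : (FAM.mpa a (φ.comp ψ)).toRingHom =
      (FAM.mpa a φ).toRingHom.comp (FAM.mpa a ψ).toRingHom :=
    RingHom.ext fun x => (MvPolynomial.map_map ψ.toRingHom φ.toRingHom x).symm
  rw [h, MvPolynomial.map_map]

end QOP

open QNO QOP in
theorem t_QOP : M_QOP := by
  intro hQOD k _ P d h2 hP hodd R _ _ _ n q e f hed hqe hR hf hgen
  have hmf : ∀ (S S' : Type) [CommRing S] [Algebra k S] [CommRing S'] [Algebra k S']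
      (ψ : R →ₐ[k] S) (φ : S →ₐ[k] S'),
      (fun _ : Fin 1 => MvPolynomial.map (FAM.mpa q (φ.comp ψ)).toRingHom f) =
        mf (FAM.mpa q φ).toRingHom
          (fun _ : Fin 1 => MvPolynomial.map (FAM.mpa q ψ).toRingHom f) := by
    intro S S' _ _ _ _ ψ φ
    funext j
    exact mpa_comp q ψ φ f
  have h1 : Cls1 k R (fun S _ _ _ ψ =>
      P (ER (fun _ : Fin 1 => MvPolynomial.map (FAM.mpa q ψ).toRingHom f))) := by
    constructor
    · intro S S' _ _ _ _ _ _ e ψ hS
      have hb : Function.Bijective (FAM.mpa q e.toAlgHom) :=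
        ⟨MvPolynomial.map_injective _ e.injective, MvPolynomial.map_surjective _ e.surjective⟩
      obtain ⟨e'⟩ := Asm.s_FAM.2 k _ _ (Fin 1) n (AlgEquiv.ofBijective _ hb)
        (fun _ : Fin 1 => MvPolynomial.map (FAM.mpa q ψ).toRingHom f)
      have := hP.iso e' hS
      have h3 : mf ((AlgEquiv.ofBijective _ hb).toAlgHom).toRingHom
          (fun _ : Fin 1 => MvPolynomial.map (FAM.mpa q ψ).toRingHom f) =
          fun _ : Fin 1 => MvPolynomial.map (FAM.mpa q (e.toAlgHom.comp ψ)).toRingHom f := by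
        rw [hmf]
        rfl
      rw [h3] at this
      exact this
    · intro S _ _ _ ψ hS
      apply hP.triv
      have h3 : Subsingleton (MvPolynomial (Fin q) S) := Module.subsingleton S _
      have h4 : Subsingleton (MvPolynomial (Fin n) (MvPolynomial (Fin q) S)) :=
        Module.subsingleton (MvPolynomial (Fin q) S) _
      exact Function.Surjective.subsingleton (Ideal.Quotient.mk_surjective
        (I := Ideal.span (Set.range
          (fun _ : Fin 1 => MvPolynomial.map (FAM.mpa q ψ).toRingHom f))))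
    · intro A Z U _ _ _ _ _ _ _ _ _ a z u ψ hs hZ hU
      obtain ⟨z', u', hs'⟩ := Asm.s_FAM.1 k _ _ _ (Fin 1) n _ _ _
        (fun _ : Fin 1 => MvPolynomial.map (FAM.mpa q ψ).toRingHom f) (strat_mv q hs)
      refine hP.glue _ z' u' hs' ?_ ?_
      · rw [← hmf]
        exact hZ
      · rw [← hmf]
        exact hU
    · intro A Z U _ _ _ _ _ _ _ _ _ a z u ψ hs hA hZ
      obtain ⟨z', u', hs'⟩ := Asm.s_FAM.1 k _ _ _ (Fin 1) n _ _ _
        (fun _ : Fin 1 => MvPolynomial.map (FAM.mpa q ψ).toRingHom f) (strat_mv q hs)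
      have := hP.opn _ z' u' hs' hA (by rw [← hmf]; exact hZ)
      rw [← hmf] at this
      exact this
  -- the residue rings of the primes
  have hdom : ∀ p : PrimeSpectrum R, P (ER (fun _ : Fin 1 =>
      MvPolynomial.map (FAM.mpa q (Ideal.Quotient.mkₐ k p.asIdeal)).toRingHom f)) := by
    intro p
    have hD : DL k (R ⧸ p.asIdeal) e :=
      Asm.s_DLR.1 k R _ e (Ideal.Quotient.mkₐ k p.asIdeal) (Ideal.Quotient.mkₐ_surjective k _) hR
    have hh : (MvPolynomial.map
        (FAM.mpa q (Ideal.Quotient.mkₐ k p.asIdeal)).toRingHom f).IsHomogeneous 2 := hf.map _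
    by_cases hp : (e : Cardinal) ≤ rdim k p
    · have hB : DL k (MvPolynomial (Fin q) (R ⧸ p.asIdeal)) (d + 1) :=
        DL_mono (by omega) (Asm.s_DLM k _ e q hD)
      refine hQOD k P d h2 hP hodd (MvPolynomial (Fin q) (R ⧸ p.asIdeal)) n _ hB ?_ hh ?_
      · exact (Asm.s_PLY k P hP.toCls0 hP.line _ q).1 (hP.base _ (DL_mono hed hD))
      · have h3 := hgen p hp
        have h4 : (gram (MvPolynomial.map
            (FAM.mpa q (Ideal.Quotient.mkₐ k p.asIdeal)).toRingHom f)).map
            (algebraMap (MvPolynomial (Fin q) (R ⧸ p.asIdeal)) (FractionRing _)) =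
            (gram f).map (genHom q p) := by
          rw [gram_map, Matrix.map_map]
          rfl
        rw [h4]
        exact h3
    · obtain ⟨e', rfl⟩ : ∃ e', e = e' + 1 := by
        refine ⟨e - 1, ?_⟩
        have : e ≠ 0 := by
          rintro rfl
          exact hp (by simp)
        omega
      have hD' : DL k (R ⧸ p.asIdeal) e' := by
        intro P'
        have h3 := rdim_comap (Ideal.Quotient.mkₐ k p.asIdeal)
          (Ideal.Quotient.mkₐ_surjective k _) P'
        rw [← h3]
        have h4 : p ≤ PrimeSpectrum.comap (Ideal.Quotient.mkₐ k p.asIdeal).toRingHom P' := by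
          intro x hx
          change Ideal.Quotient.mk p.asIdeal x ∈ P'.asIdeal
          rw [Ideal.Quotient.eq_zero_iff_mem.2 hx]
          exact zero_mem _
        refine (rdim_le h4).trans ?_
        rw [not_le] at hp
        obtain ⟨m, hm⟩ := Cardinal.lt_aleph0.1 (hp.trans (Cardinal.natCast_lt_aleph0))
        rw [hm] at hp ⊢
        have h5 : m < e' + 1 := by exact_mod_cast hp
        exact_mod_cast Nat.lt_succ_iff.1 h5
      have hB : DL k (MvPolynomial (Fin q) (R ⧸ p.asIdeal)) d :=
        DL_mono (by omega) (Asm.s_DLM k _ e' q hD')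
      exact Asm.s_QUA k P d hP n _ _ hB fun _ => hh.totalDegree_le
  have h3 := Asm.s_NOE k R _ h1 (by
    intro D _ _ _ _ ψ hψ
    have hprime : (RingHom.ker ψ.toRingHom).IsPrime := RingHom.ker_isPrime _
    refine ⟨1, one_ne_zero, ?_⟩
    have hbij : Function.Bijective (awayHom k (1 : D)) := by
      have := isLocalization_awayHom (k := k) (1 : D)
      exact (IsLocalization.atUnit D (Localization.Away (1 : D)) (1 : D) isUnit_one).bijective
    let e1 : (R ⧸ RingHom.ker ψ.toRingHom) ≃ₐ[k] D :=
      Ideal.quotientKerAlgEquivOfSurjective hψ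
    let e2 : (R ⧸ RingHom.ker ψ.toRingHom) ≃ₐ[k] Localization.Away (1 : D) :=
      e1.trans (AlgEquiv.ofBijective _ hbij)
    have h4 := h1.iso e2 _ (hdom ⟨RingHom.ker ψ.toRingHom, hprime⟩)
    have h5 : e2.toAlgHom.comp (Ideal.Quotient.mkₐ k (RingHom.ker ψ.toRingHom)) =
        (awayHom k (1 : D)).comp ψ := by
      apply AlgHom.ext
      intro x
      rfl
    have h6 := h5 ▸ h4
    exact h6)
  have h4 : MvPolynomial.map (FAM.mpa q (AlgHom.id k R)).toRingHom f = f := by
    have h5 : (FAM.mpa q (AlgHom.id k R)).toRingHom = RingHom.id (MvPolynomial (Fin q) R) := by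
      apply RingHom.ext
      intro x
      exact MvPolynomial.map_id x
    rw [h5]
    exact MvPolynomial.map_id _
  have h6 : P (ER (fun _ : Fin 1 =>
      MvPolynomial.map (FAM.mpa q (AlgHom.id k R)).toRingHom f)) := h3
  rw [h4] at h6
  exact h6

end QCV
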