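import Pool.Agent.QCV.O_ASM
import Pool.Agent.QCV.C_QOP
import Pool.Agent.QCV.C_HCH
import Pool.Agent.QCV.C_HDE
import Pool.Agent.QCV.C_LN1
import Pool.Agent.QCV.C_AFF
import Pool.Agent.QCV.C_CUH
import Pool.Agent.QCV.C_CUB

/-!
# QCV, block C: assembly
-/

set_option autoImplicit false

namespace QCV

namespace Asm

theorem s_QOP : S_QOP := t_QOP s_QOD

theorem s_HDE : S_HDE := t_HDE t_HCH

theorem s_AFF : S_AFF := t_AFF s_QOP t_LN1 s_HDE

theorem s_CUB : S_CUB := t_CUB s_AFF s_HDE t_CUH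

end Asm

end QCV
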