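import Pool.Agent.QCV.StD

/-!
# QCV, module DCO: cones, base change of a linear change of coordinates
-/

set_option autoImplicit false

open CategoryTheory AlgebraicGeometry Polynomial

namespace QCV

/-- base change of an algebra homomorphism between polynomial rings -/
noncomputable def dco_bc {K K' : Type} [Field K] [Field K'] [Algebra K K'] {m n : ℕ}
    (ψ : MvPolynomial (Fin m) K →ₐ[K] MvPolynomial (Fin n) K) :
    MvPolynomial (Fin m) K' →ₐ[K'] MvPolynomial (Fin n) K' :=
  MvPolynomial.aeval fun i => MvPolynomial.map (algebraMap K K') (ψ (MvPolynomial.X i))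

theorem dco_bc_map {K K' : Type} [Field K] [Field K'] [Algebra K K'] {m n : ℕ}
    (ψ : MvPolynomial (Fin m) K →ₐ[K] MvPolynomial (Fin n) K) (G : MvPolynomial (Fin m) K) :
    dco_bc (K' := K') ψ (MvPolynomial.map (algebraMap K K') G) =
      MvPolynomial.map (algebraMap K K') (ψ G) := by
  induction G using MvPolynomial.induction_on with
  | C a =>
    rw [MvPolynomial.map_C, ← MvPolynomial.algebraMap_eq, AlgHom.commutes,
      ← MvPolynomial.algebraMap_eq, AlgHom.commutes, MvPolynomial.algebraMap_eq,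
      MvPolynomial.algebraMap_eq, MvPolynomial.map_C]
  | add p q hp hq => rw [map_add, map_add, map_add, map_add, hp, hq]
  | mul_X p i hp =>
    rw [map_mul, map_mul, map_mul, map_mul, hp, MvPolynomial.map_X]
    congr 1
    exact MvPolynomial.aeval_X _ _

theorem dco_bc_comp {K K' : Type} [Field K] [Field K'] [Algebra K K'] {m n : ℕ}
    (ψ : MvPolynomial (Fin m) K →ₐ[K] MvPolynomial (Fin n) K)
    (φ : MvPolynomial (Fin n) K →ₐ[K] MvPolynomial (Fin m) K) (h : ∀ G, φ (ψ G) = G) :
    (dco_bc (K' := K') φ).comp (dco_bc (K' := K') ψ) = AlgHom.id K' _ := by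
  refine MvPolynomial.algHom_ext fun i => ?_
  rw [AlgHom.comp_apply, AlgHom.id_apply]
  have h1 : (MvPolynomial.X i : MvPolynomial (Fin m) K') =
      MvPolynomial.map (algebraMap K K') (MvPolynomial.X i) := (MvPolynomial.map_X _ _).symm
  rw [h1, dco_bc_map, dco_bc_map, h]

/-- base change of an automorphism -/
noncomputable def dco_equiv {K : Type} (K' : Type) [Field K] [Field K'] [Algebra K K'] {m : ℕ}
    (φ : MvPolynomial (Fin m) K ≃ₐ[K] MvPolynomial (Fin m) K) :
    MvPolynomial (Fin m) K' ≃ₐ[K'] MvPolynomial (Fin m) K' :=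
  AlgEquiv.ofAlgHom (dco_bc φ.toAlgHom) (dco_bc φ.symm.toAlgHom)
    (dco_bc_comp _ _ fun G => φ.apply_symm_apply G)
    (dco_bc_comp _ _ fun G => φ.symm_apply_apply G)

theorem dco_equiv_map {K : Type} (K' : Type) [Field K] [Field K'] [Algebra K K'] {m : ℕ}
    (φ : MvPolynomial (Fin m) K ≃ₐ[K] MvPolynomial (Fin m) K) (G : MvPolynomial (Fin m) K) :
    dco_equiv K' φ (MvPolynomial.map (algebraMap K K') G) =
      MvPolynomial.map (algebraMap K K') (φ G) := dco_bc_map φ.toAlgHom G

theorem dco_rename {K : Type} [Field K] {n : ℕ} (H : MvPolynomial (Fin n) K) :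
    MvPolynomial.finSuccEquiv K n (MvPolynomial.rename Fin.succ H) = C H := by
  induction H using MvPolynomial.induction_on with
  | C a =>
    rw [MvPolynomial.rename_C]
    have h := RingHom.congr_fun (MvPolynomial.finSuccEquiv_comp_C_eq_C (R := K) n) a
    exact ((AlgEquiv.symm_apply_eq _).1 h).symm
  | add p q hp hq => rw [map_add, map_add, hp, hq, map_add]
  | mul_X p i hp =>
    rw [map_mul, map_mul, hp, MvPolynomial.rename_X, MvPolynomial.finSuccEquiv_X_succ, map_mul]

/-- the coordinate change over the larger field -/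
theorem dco_coord {K : Type} (K' : Type) [Field K] [Field K'] [Algebra K K'] {n : ℕ}
    (F : MvPolynomial (Fin (n + 1)) K) (H : MvPolynomial (Fin n) K)
    (e : MvPolynomial (Fin (n + 1)) K ≃ₐ[K] (MvPolynomial (Fin n) K)[X]) (he : e F = C H) :
    ∃ Φ : MvPolynomial (Fin (n + 1)) K' ≃ₐ[K'] (MvPolynomial (Fin n) K')[X],
      Φ (MvPolynomial.map (algebraMap K K') F) = C (MvPolynomial.map (algebraMap K K') H) := by
  refine ⟨(dco_equiv K' (e.trans (MvPolynomial.finSuccEquiv K n).symm)).trans
    (MvPolynomial.finSuccEquiv K' n), ?_⟩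
  rw [AlgEquiv.trans_apply, dco_equiv_map, AlgEquiv.trans_apply, he, ← dco_rename,
    AlgEquiv.symm_apply_apply, MvPolynomial.map_rename, dco_rename]

/-- the quotient -/
theorem dco_quot (k A B : Type) [Field k] [CommRing A] [CommRing B] [Algebra k A] [Algebra k B]
    (Φ : A ≃ₐ[k] B[X]) (F : A) (H : B) (h : Φ F = C H) (I : Ideal A) (J : Ideal B)
    (hI : I = Ideal.span {F}) (hJ : J = Ideal.span {H}) :
    Nonempty ((B ⧸ J)[X] ≃ₐ[k] (A ⧸ I)) := by
  subst hI hJ
  set J := Ideal.span {H} with hJ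
  let θ : A →ₐ[k] (B ⧸ J)[X] := (Polynomial.mapAlgHom (Ideal.Quotient.mkₐ k J)).comp Φ.toAlgHom
  have hθ : ∀ a, θ a = Polynomial.map (Ideal.Quotient.mk J) (Φ a) := fun a => rfl
  have hsurj : Function.Surjective θ := by
    intro b
    obtain ⟨c, hc⟩ := Polynomial.map_surjective (Ideal.Quotient.mk J) Ideal.Quotient.mk_surjective b
    exact ⟨Φ.symm c, by rw [hθ, AlgEquiv.apply_symm_apply, hc]⟩
  have hker : RingHom.ker θ = Ideal.span {F} := by
    ext a
    rw [RingHom.mem_ker]
    have h1 : θ a = 0 ↔ Φ a ∈ RingHom.ker (Polynomial.mapRingHom (Ideal.Quotient.mk J)) := by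
      rw [RingHom.mem_ker]
      rfl
    rw [h1, Polynomial.ker_mapRingHom, Ideal.mk_ker, hJ, Ideal.map_span, Set.image_singleton,
      Ideal.mem_span_singleton, Ideal.mem_span_singleton, ← h]
    constructor
    · rintro ⟨c, hc⟩
      refine ⟨Φ.symm c, Φ.injective ?_⟩
      rw [hc, map_mul, AlgEquiv.apply_symm_apply]
    · rintro ⟨c, hc⟩
      exact ⟨Φ c, by rw [hc, map_mul]⟩
  exact ⟨((Ideal.quotientEquivAlgOfEq k hker.symm).trans
    (Ideal.quotientKerAlgEquivOfSurjective hsurj)).symm⟩

theorem t_DCO : S_DCO := by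
  intro k _ P h0 hline K K' _ _ _ _ _ n F H e he hP
  obtain ⟨Φ, hΦ⟩ := dco_coord K' F H e he
  obtain ⟨E⟩ := dco_quot k (MvPolynomial (Fin (n + 1)) K') (MvPolynomial (Fin n) K')
    (Φ.restrictScalars k) (MvPolynomial.map (algebraMap K K') F)
    (MvPolynomial.map (algebraMap K K') H) hΦ
    (Ideal.span (Set.range fun _ : Fin 1 => MvPolynomial.map (algebraMap K K') F))
    (Ideal.span (Set.range fun _ : Fin 1 => MvPolynomial.map (algebraMap K K') H))
    (by rw [Set.range_const]) (by rw [Set.range_const])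
  exact h0.iso E (hline _ hP)

end QCV
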