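import Pool.Agent.QCV.StD
import Pool.Agent.QCV.C_CUH

/-!
# QCV, module DCX: a cubic form over a finite extension
-/

set_option autoImplicit false

open CategoryTheory AlgebraicGeometry Polynomial

namespace QCV

open CUB

namespace DCX

lemma dl_mono {k A : Type} [Field k] [CommRing A] [Algebra k A] {d e : ℕ} (h : d ≤ e)
    (hA : DL k A d) : DL k A e := fun p => (hA p).trans (by exact_mod_cast h)

lemma dl_zero {k K : Type} [Field k] [Field K] [Algebra k K] [Module.Finite k K] : DL k K 0 := by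
  intro p
  unfold rdim
  have : Algebra.IsAlgebraic k (K ⧸ p.asIdeal) := inferInstance
  rw [(trdeg_eq_zero_iff (R := k) (A := K ⧸ p.asIdeal)).2 this]
  simp

lemma of_eq {k K : Type} [Field k] [CommRing K] [Algebra k K] [Algebra.FiniteType k K]
    {P : ∀ (A : Type) [CommRing A] [Algebra k A] [Algebra.FiniteType k A], Prop} {n : ℕ}
    {F G : MvPolynomial (Fin n) K} (h : F = G) (hP : P (ER (fun _ : Fin 1 => G))) :
    P (ER (fun _ : Fin 1 => F)) := by
  subst h
  exact hP

/-- An isomorphism of polynomial rings gives an isomorphism of the quotients. -/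
lemma iso {k K : Type} [Field k] [CommRing K] [Algebra k K] {n n' : ℕ}
    (e : MvPolynomial (Fin n) K ≃ₐ[K] MvPolynomial (Fin n') K) (F : MvPolynomial (Fin n) K)
    (G : MvPolynomial (Fin n') K) (h : e F = G) :
    Nonempty (ER (fun _ : Fin 1 => G) ≃ₐ[k] ER (fun _ : Fin 1 => F)) := by
  refine ⟨(Ideal.quotientEquivAlg _ _ (e.restrictScalars k) ?_).symm⟩
  rw [Ideal.map_span]
  congr 1
  rw [Set.range_const, Set.range_const, Set.image_singleton]
  congr 1
  exact h.symm

lemma hasLine_map {K L : Type} [Field K] [Field L] [Algebra K L] {n : ℕ}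
    {F : MvPolynomial (Fin n) K} (h : HasLine F L) :
    HasLine (MvPolynomial.map (algebraMap K L) F) L := by
  obtain ⟨p, q, h1, h2⟩ := h
  refine ⟨p, q, h1, ?_⟩
  rw [MvPolynomial.aeval_map_algebraMap]
  exact h2

/-- The case of few variables. -/
lemma small (hDCN : S_DCN) {k : Type} [Field k]
    {P : ∀ (A : Type) [CommRing A] [Algebra k A] [Algebra.FiniteType k A], Prop} {d : ℕ}
    (hC : Cls k d P) (hG : GmCl k P) {n : ℕ} {K : Type} [Field K] [Algebra k K]
    [Module.Finite k K] (F : MvPolynomial (Fin n) K) (hn : n ≤ d + 2) (hF : F.IsHomogeneous 3) :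
    P (ER (fun _ : Fin 1 => F)) := by
  have hK : DL k K 0 := dl_zero
  by_cases h0 : F = 0
  · exact (Asm.s_PLY k P hC.toCls0 hC.line K n).2.1 (Fin 1) _ (fun _ => h0)
      (hC.base K (dl_mono (Nat.zero_le d) hK))
  · refine hDCN k P d hC hG K (Fin 1) n _ (fun _ => 3) (fun _ => hF)
      (dl_mono (Nat.zero_le d) hK) ?_
    have h1 : DL k (MvPolynomial (Fin n) K) (d + 1 + 1) :=
      dl_mono (by omega) (Asm.s_DLM k K 0 n hK)
    have h2 := Asm.s_DLR.2.2.2.2 k (MvPolynomial (Fin n) K) (d + 1) F h0 h1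
    refine Asm.s_DLR.1 k _ (ER (fun _ : Fin 1 => F)) (d + 1)
      (Ideal.quotientEquivAlgOfEq k ?_).toAlgHom (AlgEquiv.surjective _) h2
    rw [Set.range_const]

end DCX

theorem t_DCX : M_DCX := by
  intro hCUB hDCN hDSI hDCO hDLN hDNR hDSG hDDT hDRK k _ P d h2 hC hO hG hd n
  induction n using Nat.strong_induction_on with
  | _ n ih =>
  intro K _ _ _ F hn hF
  rcases Nat.lt_or_ge (d + 2) n with hn2 | hn2
  swap
  · refine ⟨K, inferInstance, inferInstance, Algebra.id K, inferInstance, inferInstance, ?_⟩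
    have : MvPolynomial.map (algebraMap K K) F = F := MvPolynomial.map_id F
    exact DCX.of_eq this (DCX.small hDCN hC hG F hn2 hF)
  obtain ⟨a, rfl⟩ : ∃ a, n = a + 2 + 1 := ⟨n - 3, by omega⟩
  obtain ⟨K₁, hK₁, hA₁, hfin, hline⟩ := hDLN K (a + 2 + 1) F (by omega) hF
  let _ : Algebra k K₁ := ((algebraMap K K₁).comp (algebraMap k K)).toAlgebra
  have : IsScalarTower k K K₁ := IsScalarTower.of_algebraMap_eq fun _ => rfl
  have : Module.Finite k K₁ := Module.Finite.trans K K₁
  have hK1 : DL k K₁ 0 := DCX.dl_zero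
  have hF₁ : (MvPolynomial.map (algebraMap K K₁) F).IsHomogeneous 3 := hF.map _
  obtain ⟨G, e, hG2, hGc, he⟩ := hDNR K₁ a _ hF₁ (DCX.hasLine_map hline)
  obtain ⟨eq⟩ := DCX.iso (k := k) e _ _ he
  have two : (2 : K₁) ≠ 0 := by
    intro h
    apply h2
    apply (algebraMap k K₁).injective
    rw [map_zero, map_ofNat]
    exact h
  by_cases hcase : a = d ∨ (gram G).det ≠ 0
  · refine ⟨K₁, hK₁, inferInstance, hA₁, inferInstance, inferInstance, ?_⟩
    refine hC.iso eq ?_
    exact hCUB k P d h2 hC hO hG K₁ a 2 0 G (Nat.zero_le d) (by omega) (by omega) hK1 hG2 hGc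
      (fun h => by
        rcases hcase with h3 | h3
        · omega
        · exact hDRK k K₁ a G hG2 hGc h3)
  · rw [not_or, not_not] at hcase
    obtain ⟨ha, hdet⟩ := hcase
    obtain ⟨p, hp0, hp1, hp2⟩ := hDDT K₁ a G two hG2 hGc hdet
    obtain ⟨Q, H, e', hQ, hH, he'⟩ := hDSG K₁ (a + 2) (lcub G) p (t_CUH K₁ a 2 G hG2 hGc) hp0 hp1
      hp2
    have he2 : (e.trans e') (MvPolynomial.map (algebraMap K K₁) F) = C Q * X + C H := by
      rw [AlgEquiv.trans_apply, he, he']
    by_cases hQ0 : Q = 0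
    · rw [hQ0, map_zero, zero_mul, zero_add] at he2
      obtain ⟨K₂, hK₂, hA₂, hB₂, hT₂, hfin₂, hP⟩ := ih (a + 2) (by omega) K₁ H (by omega) hH
      have hP2 := hDCO k P hC.toCls0 hC.line K₁ K₂ (a + 2) _ H (e.trans e') he2 hP
      let hK2 : Algebra K K₂ := ((algebraMap K₁ K₂).comp (algebraMap K K₁)).toAlgebra
      have hT : IsScalarTower k K K₂ := IsScalarTower.of_algebraMap_eq fun x => by
        rw [IsScalarTower.algebraMap_apply k K₁ K₂]
        rfl
      refine ⟨K₂, hK₂, hA₂, hK2, hT, hfin₂, ?_⟩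
      have hEq : MvPolynomial.map (algebraMap K K₂) F =
          MvPolynomial.map (algebraMap K₁ K₂) (MvPolynomial.map (algebraMap K K₁) F) := by
        rw [MvPolynomial.map_map]
        rfl
      exact DCX.of_eq hEq hP2
    · refine ⟨K₁, hK₁, inferInstance, hA₁, inferInstance, inferInstance, ?_⟩
      exact hDSI k P d hC hG K₁ (a + 2) _ Q H (e.trans e') hK1 (by omega) hF₁ hQ hH hQ0 he2

end QCV
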