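import Pool.Agent.QCV.StC
import Pool.Agent.QCV.StD1

/-!
# QCV, block D: statements (all cubic hypersurfaces), part 2

See StD1.lean for the overview.
-/

set_option autoImplicit false

open CategoryTheory AlgebraicGeometry Polynomial

namespace QCV

open CUB

lemma lcub_eq {R : Type} [CommRing R] {a s : ℕ}
    (G : MvPolynomial (Fin (s + 1)) (MvPolynomial (Fin (a + 1)) R)) : lcub G = cub G := rfl

lemma lgram_eq {A : Type} [CommRing A] {n : ℕ} (f : MvPolynomial (Fin n) A) :
    lgram f = gram f := rfl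

lemma lsp_eq {R : Type} [CommRing R] {n : ℕ} (c : R) : (lsp c : MvPolynomial (Fin (n + 1)) R →ₐ[R]
    MvPolynomial (Fin n) R) = sp c := rfl

/-- **DRC** (a product of a polynomial of degree at most one and one of degree at most two).
Proof.  `P (ER ![l, q])` by `Asm.s_TWQ` (and `Asm.s_QUA`), `P (ER (fun _ : Fin 1 => l))`,
`P (ER (fun _ : Fin 1 => q))` by `Asm.s_QUA`.  Let `B = ER (fun _ => q)`, `U = Localization.Away l`
(of `B`): `P U` by `opn` (`B / l ≅ ER ![l, q]`, `DoubleQuot`).  `A = ER (fun _ => l * q)`: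
`Strat l (A → ER (fun _ => l)) (A → U)`: in `A[1 / l]` the element `q` is zero (as in the last step of
`t_NOE`, R_NOE: the third case).  `glue`. -/
def S_DRC : Prop :=
  ∀ (k : Type) [Field k]
    (P : ∀ (A : Type) [CommRing A] [Algebra k A] [Algebra.FiniteType k A], Prop) (d : ℕ),
    Cls k d P →
    ∀ (R : Type) [CommRing R] [Algebra k R] [Algebra.FiniteType k R] (n : ℕ)
      (l q : MvPolynomial (Fin n) R), DL k R d → l.totalDegree ≤ 1 → q.totalDegree ≤ 2 →
      P (ER (fun _ : Fin 1 => l * q))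

/-- **DGM** (dimension).
Proof.  Let `p` be a prime of `A`, `P = p A[X]` (`CUB.pX`), `rdim k P = rdim k p + 1`
(`CUB.rdim_pX`), `X ∉ P`, so `P` is the preimage of a prime `P'` of `Localization.Away X`
(`IsLocalization.Away`, `PrimeSpectrum.localization_away_comap_range`), and `rdim k P' = rdim k P`
(`CUB.rdim_comap_opn`, as in R_DLR (2)).  The values are natural numbers (`CUB.exists_rdim`). -/
def S_DGM : Prop :=
  ∀ (k A : Type) [Field k] [CommRing A] [Algebra k A] [Algebra.FiniteType k A] (d : ℕ),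
    DL k (Localization.Away (X : A[X])) (d + 1) → DL k A d

/-- **DCN** (affine cones of dimension at most `d + 1`).
Proof.  Induction on `n`.  `n = 0`: `ER f` is a quotient of `MvPolynomial (Fin 0) R ≅ R`, so
`DL k (ER f) d` (`Asm.s_DLR` (1)), `base`.  `n + 1`: `S_HDE` (→).  `ER (sp 0 ∘ f)` is a quotient of
`ER f` (`S_HCH`: `z`), so `DL _ (d + 1)`, and `sp 0 (f j)` is homogeneous (the images of the variables
are homogeneous of degree one): `P` by induction.  `Localization.Away (X : (ER (sp 1 ∘ f))[X])` is a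
localisation of `ER f` away from one element (`S_HCH`: `u`), so `DL _ (d + 1)` (`Asm.s_DLR` (2)), so
`DL k (ER (sp 1 ∘ f)) d` (`S_DGM`), `base`. -/
def S_DCN : Prop :=
  ∀ (k : Type) [Field k]
    (P : ∀ (A : Type) [CommRing A] [Algebra k A] [Algebra.FiniteType k A], Prop) (d : ℕ),
    Cls k d P → GmCl k P →
    ∀ (R ι : Type) [CommRing R] [Algebra k R] [Algebra.FiniteType k R] (n : ℕ)
      (f : ι → MvPolynomial (Fin n) R) (m : ι → ℕ), (∀ j, (f j).IsHomogeneous (m j)) →
      DL k R d → DL k (ER f) (d + 1) → P (ER f)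

def M_DCN : Prop := S_HCH → S_HDE → S_DGM → S_DCN

/-- **DCP** (the dimension of the intersection of two hypersurfaces without common component).
Proof.  Let `p` be a prime of `ER ![Q, H]`, `p'` its preimage in `K[x_1, ..., x_n]` (same dimension,
`CUB.rdim_comap`).  `Q ≠ 0` is a product of irreducibles (UFD) and a unit and `Q ∈ p'`, so an
irreducible factor `π` of `Q` is in `p'`; `π` does not divide `H` (else `π` is a unit), `H ∈ p'`, so
`⊥ < (π) < p'` are primes and `rdim p' + 2 ≤ rdim ⊥ ≤ n` (`CUB.rdim_add_one_le`, `Asm.s_DLM` with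
`DL k K 0`). -/
def S_DCP : Prop :=
  ∀ (k K : Type) [Field k] [Field K] [Algebra k K] [Algebra.FiniteType k K] (n d : ℕ)
    (Q H : MvPolynomial (Fin n) K), DL k K 0 → n ≤ d + 2 → Q ≠ 0 →
    (∀ g, g ∣ Q → g ∣ H → IsUnit g) → DL k (ER ![Q, H]) d

/-- **DSL** (a cubic form with a singular point).
Proof.  `Asm.s_LNR` for `S = MvPolynomial (Fin n) K`, `g = Q`, `h = H`, `U = Localization.Away Q`.
`P S` (`Asm.s_PLY` (1), `base`), `P (S / Q)` (`Asm.s_QUA`), so `P U` by `opn`.  `S / (Q, H) ≅
ER ![Q, H]`, `P` by `S_DCN` (`m = ![2, 3]`) and `S_DCP` (`n ≤ (d + 1) + 2`), `line`; `glue`. -/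
def S_DSL : Prop :=
  ∀ (k : Type) [Field k]
    (P : ∀ (A : Type) [CommRing A] [Algebra k A] [Algebra.FiniteType k A], Prop) (d : ℕ),
    Cls k d P → GmCl k P →
    ∀ (K : Type) [Field K] [Algebra k K] [Algebra.FiniteType k K] (n : ℕ)
      (Q H : MvPolynomial (Fin n) K), DL k K 0 → n ≤ d + 3 → Q.IsHomogeneous 2 →
      H.IsHomogeneous 3 → Q ≠ 0 → (∀ g, g ∣ Q → g ∣ H → IsUnit g) →
      P ((MvPolynomial (Fin n) K)[X] ⧸ Ideal.span {C Q * X + C H})

def M_DSL : Prop := S_DCN → S_DCP → S_DSL

/-- **DRK**: the rank is odd if the discriminant is not zero.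
Proof.  `φ = (sp 1).toRingHom`.  `gram (map φ G) = (gram G).map φ` (compute with `pderiv_map`, see
O_QNO), `det` of it is `φ (det (gram G))` (`RingHom.map_det`), and `det (gram G)` is homogeneous of
degree five (`S_DEX`, `Matrix.det_fin_three`), so it is not zero by `S_DHM`.  A prime `p` of `K` is
`⊥`, `genHom a p` is injective (`MvPolynomial.map_injective`, `FractionRing`; `K → K / ⊥` is
injective), so the determinant over the fraction field is not zero and the rank is three
(`Matrix.rank_of_isUnit`). -/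
def S_DRK : Prop :=
  ∀ (k K : Type) [Field k] [Field K] [Algebra k K] (a : ℕ)
    (G : MvPolynomial (Fin (2 + 1)) (MvPolynomial (Fin (a + 1)) K)), G.IsHomogeneous 2 →
    (∀ μ, (MvPolynomial.coeff μ G).IsHomogeneous (1 + μ 0)) → (gram G).det ≠ 0 →
    OddOne k 0 (MvPolynomial.map (sp (1 : K)).toRingHom G)

def M_DRK : Prop := S_DEX → S_DHM → S_DRK

/-- **DSI** (a cubic form with a singular point which is not a cone with this vertex).
Proof.  `ER F ≃ K[x][X] / (C Q * X + C H)` (`Ideal.quotientEquiv`, restricted to `k`).  `S_DFC` for `F`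
(`F ≠ 0` as `Q ≠ 0`).  If `F` is irreducible then `Q` and `H` have no common factor: if `g ∣ Q`, `g ∣ H`
then `C g` divides the irreducible element `e F`, so `C g` is a unit (so `g` is), or
`C Q * X + C H = C g * u` with a unit `u` of `K[x][X]`, which is a constant (`K[x]` is a domain), so
`Q = 0`.  `S_DSL`.  If `F = l q`: `S_DRC` (`DL k K 0`, so `DL k K d`). -/
def S_DSI : Prop :=
  ∀ (k : Type) [Field k]
    (P : ∀ (A : Type) [CommRing A] [Algebra k A] [Algebra.FiniteType k A], Prop) (d : ℕ),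
    Cls k d P → GmCl k P →
    ∀ (K : Type) [Field K] [Algebra k K] [Algebra.FiniteType k K] (n : ℕ)
      (F : MvPolynomial (Fin (n + 1)) K) (Q H : MvPolynomial (Fin n) K)
      (e : MvPolynomial (Fin (n + 1)) K ≃ₐ[K] (MvPolynomial (Fin n) K)[X]), DL k K 0 →
      n ≤ d + 3 → F.IsHomogeneous 3 → Q.IsHomogeneous 2 → H.IsHomogeneous 3 → Q ≠ 0 →
      e F = C Q * X + C H → P (ER (fun _ : Fin 1 => F))

def M_DSI : Prop := S_DSL → S_DRC → S_DFC → S_DSI

/-- **DCO** (cones, base change of a linear change of coordinates).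
Proof.  `φ = e` followed by `(MvPolynomial.finSuccEquiv K n).symm` is an automorphism of
`MvPolynomial (Fin (n + 1)) K` with `φ F = rename succ H`.  For a `K`-algebra homomorphism `ψ` between
polynomial rings over `K` let `ψ' = aeval (fun i => map (ψ (X i)))` over `K'`; then
`ψ' (map G) = map (ψ G)` (check on variables), so `φ'` and `(φ⁻¹)'` are inverse to each other and
`φ' (map F) = rename succ (map H)`.  So `ER (map F) ≃ K'[x][X] / (C (map H)) ≃ (ER (map H))[X]`
(`Ideal.polynomialQuotientEquivQuotientPolynomial`, `finSuccEquiv`), `hline`, `iso`. -/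
def S_DCO : Prop :=
  ∀ (k : Type) [Field k]
    (P : ∀ (A : Type) [CommRing A] [Algebra k A] [Algebra.FiniteType k A], Prop),
    Cls0 k P → (∀ (A : Type) [CommRing A] [Algebra k A] [Algebra.FiniteType k A], P A → P A[X]) →
    ∀ (K K' : Type) [Field K] [Field K'] [Algebra K K'] [Algebra k K'] [Algebra.FiniteType k K']
      (n : ℕ) (F : MvPolynomial (Fin (n + 1)) K) (H : MvPolynomial (Fin n) K)
      (e : MvPolynomial (Fin (n + 1)) K ≃ₐ[K] (MvPolynomial (Fin n) K)[X]), e F = C H →
      P (ER (fun _ : Fin 1 => MvPolynomial.map (algebraMap K K') H)) →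
      P (ER (fun _ : Fin 1 => MvPolynomial.map (algebraMap K K') F))

/-- **DCX** (a cubic form over a finite extension).
Proof.  Induction on `n`, for all `K`.  `DL k K 0` (`K` is finite over `k`; `Asm.s_DLR` (3)).
(1) `n ≤ d + 2`: `K' = K`.  `F = 0`: `Asm.s_PLY` (2) after `base`.  `F ≠ 0`: `DL k (ER F) (d + 1)`
(`Asm.s_DLM`, `Asm.s_DLR` (5)), `S_DCN`.
(2) `n = a + 3`, `a = d` or `a = d + 1` (so `4 ≤ n`).  `S_DLN`: `K₁`, made a `k`-algebra by composition
(`IsScalarTower.of_algebraMap_eq`), finite over `k`.  Let `F₁ = map F` over `K₁`; `HasLine F K₁` gives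
`HasLine F₁ K₁`.  `S_DNR`: `e F₁ = cub G`, so `ER F₁ ≃ ER (cub G)`.
If `a = d`: `S_CUB` (`e = 0`, `s = 2 ≤ d + 1`, no condition on the rank), `K' = K₁`.
If `a = d + 1` and `(gram G).det ≠ 0`: `S_CUB` with `S_DRK`, `K' = K₁`.
If `a = d + 1` and `(gram G).det = 0`: `S_DDT` for `G`, `S_DSG` for `cub G` (number of variables
`n' + 1`, `n' = d + 3`), so `e' F₁ = C Q * X + C H` for the composition `e'`.
If `Q ≠ 0`: `S_DSI`, `K' = K₁`.
If `Q = 0`: the induction hypothesis for `H` over `K₁` (`n' < n`): `K₂`, and `P (ER (map H))`; `S_DCO`;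
`K' = K₂` with the composed `K`-algebra structure, `MvPolynomial.map_map`. -/
def S_DCX : Prop :=
  ∀ (k : Type) [Field k]
    (P : ∀ (A : Type) [CommRing A] [Algebra k A] [Algebra.FiniteType k A], Prop) (d : ℕ),
    (2 : k) ≠ 0 → Cls k d P → OddCl k P → GmCl k P → 1 ≤ d →
    ∀ (n : ℕ) (K : Type) [Field K] [Algebra k K] [Module.Finite k K]
      (F : MvPolynomial (Fin n) K), n ≤ d + 4 → F.IsHomogeneous 3 →
      ∃ (K' : Type) (_ : Field K') (_ : Algebra k K') (_ : Algebra K K')
        (_ : IsScalarTower k K K') (_ : Module.Finite k K'),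
        P (ER (fun _ : Fin 1 => MvPolynomial.map (algebraMap K K') F))

def M_DCX : Prop :=
  S_CUB → S_DCN → S_DSI → S_DCO → S_DLN → S_DNR → S_DSG → S_DDT → S_DRK → S_DCX

/-- **DFE** (finite etale homomorphisms).
Proof.  `g = spm` of the homomorphism (as in `dbl`, Defs.lean), finite as there, etale:
`AlgebraicGeometry.Etale` of `Spec.map` (`HasRingHomProperty.Spec_iff` or `Etale.SpecMap_iff`,
`RingHom.Etale` and `Algebra.Etale`), surjective: an injective integral homomorphism is surjective on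
spectra (`Algebra.IsIntegral.comap_surjective`/`RingHom.IsIntegral.comap_surjective`). -/
def S_DFE : Prop :=
  ∀ (k A B : Type) [Field k] [CommRing A] [Algebra k A] [Algebra.FiniteType k A] [CommRing B]
    [Algebra k B] [Algebra.FiniteType k B] [Algebra A B] [IsScalarTower k A B] [Module.Finite A B]
    [Algebra.Etale A B], Function.Injective (algebraMap A B) →
    Nonempty (Pool.Agent.Lib_helper66.OneP.FinEt (aff k B) (aff k A))

/-- **DDS** (descent).
Proof.  `S_DBC`, `S_DFE`; `F` is irreducible, so prime (UFD), so `ER (fun _ => F)` is a domain and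
`(aff k _).X` is integral; `Built.etale`. -/
def S_DDS : Prop :=
  ∀ (k K : Type) [Field k] [PerfectField k] [Field K] [Algebra k K] [Module.Finite k K] (d n : ℕ)
    (F : MvPolynomial (Fin n) k), Irreducible F →
    Built k d (aff k (ER (fun _ : Fin 1 => MvPolynomial.map (algebraMap k K) F))) →
    Built k d (aff k (ER (fun _ : Fin 1 => F)))

def M_DDS : Prop := S_DFE → S_DBC → S_DDS

end QCV
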