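import Pool.Agent.QCV.Fin3
import Pool.Agent.QCV.StD

/-!
# QCV: cubic hypersurfaces
-/

set_option autoImplicit false

open CategoryTheory AlgebraicGeometry Polynomial

namespace QCV

open Pool.Agent.Lib_helper55.Beil CUB

lemma dl_field (k : Type) [Field k] : DL k k 0 := by
  intro p
  have h1 : Algebra.IsAlgebraic k (k ⧸ p.asIdeal) := inferInstance
  have h2 : Algebra.trdeg k (k ⧸ p.asIdeal) = 0 := trdeg_eq_zero
  change Algebra.trdeg k (k ⧸ p.asIdeal) ≤ _
  rw [h2, Nat.cast_zero]

section

variable {k : Type} [Field k]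

lemma built_field (k : Type) [Field k] (d : ℕ) : Built k d (aff k k) :=
  Built.small _ (dimLE_of_DL ((dl_field k).mono (Nat.zero_le d)))

/-- The affine cone defined by a cubic form in `n` variables, `n ≤ d + 4`. -/
theorem built_cubic_cone_of (hDFC : S_DFC) (hDRC : S_DRC) (hDCX : S_DCX) (hDDS : S_DDS)
    [PerfectField k] (h2 : (2 : k) ≠ 0) {n d : ℕ} (hd : 1 ≤ d) (hn : n ≤ d + 4)
    (F : MvPolynomial (Fin n) k) (hF : F.IsHomogeneous 3) :
    Built k d (aff k (MvPolynomial (Fin n) k ⧸ Ideal.span (Set.range fun _ : Fin 1 => F))) := by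
  rcases hDFC k n F hF.totalDegree_le with h | h | ⟨l, q, hl, hq, h⟩
  · exact (Asm.s_PLY k (fun A [CommRing A] [Algebra k A] [Algebra.FiniteType k A] =>
      Built k d (aff k A)) (cls_built k d).toCls0 (cls_built k d).line k n).2.1 _
      (fun _ : Fin 1 => F) (fun _ => h) (built_field k d)
  · obtain ⟨K', hK', a1, a2, ht, hfin, hP⟩ := hDCX k (fun A [CommRing A] [Algebra k A]
      [Algebra.FiniteType k A] => Built k d (aff k A)) d h2 (cls_built k d) (oddCl_built k d)
      (gmCl_built k d) hd n k F hn hF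
    have h3 : a1 = a2 := by
      apply Algebra.algebra_ext
      intro r
      have h4 := @IsScalarTower.algebraMap_apply k k K' _ _ _ _ a2 a1 ht r
      exact h4
    subst h3
    exact hDDS k K' d n F h hP
  · subst h
    exact hDRC k (fun A [CommRing A] [Algebra k A] [Algebra.FiniteType k A] =>
      Built k d (aff k A)) d (cls_built k d) k n l q ((dl_field k).mono (Nat.zero_le d)) hl hq

/-- Projective cubic hypersurfaces of dimension at most `d + 2`. -/
theorem built_cubic_proj_of (hDFC : S_DFC) (hDRC : S_DRC) (hDCX : S_DCX) (hDDS : S_DDS)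
    [PerfectField k] (h2 : (2 : k) ≠ 0) {n d : ℕ} (hd : 1 ≤ d) (hn : n ≤ d + 3)
    (F : MvPolynomial (Fin (n + 1)) k) (hF : F.IsHomogeneous 3) {X : Var k}
    (S : ProjSub (fun _ : Fin 1 => F) X) : Built k d X :=
  built_of_cone (built_field k d) (fun _ : Fin 1 => F) (fun _ => 3) (fun _ => hF)
    (fun _ => by norm_num)
    (built_cubic_cone_of hDFC hDRC hDCX hDDS h2 hd (by omega) F hF) S

/-- Affine hypersurfaces of degree at most three in `n` variables, `n ≤ d + 3`. -/
theorem built_cubic_affine_of (hDFC : S_DFC) (hDRC : S_DRC) (hDCX : S_DCX) (hDDS : S_DDS)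
    (hDHG : S_DHG) [PerfectField k] (h2 : (2 : k) ≠ 0) {n d : ℕ} (hd : 1 ≤ d) (hn : n ≤ d + 3)
    (f : MvPolynomial (Fin n) k) (hf : f.totalDegree ≤ 3) :
    Built k d (aff k (MvPolynomial (Fin n) k ⧸ Ideal.span (Set.range fun _ : Fin 1 => f))) := by
  obtain ⟨F, hF, hFf⟩ := hDHG k n 3 f hf
  have hFf : sp (1 : k) F = f := hFf
  subst hFf
  have h0 : (sp (0 : k) F).IsHomogeneous 3 := by
    have h := hF.aeval (Fin.cons (MvPolynomial.C (0 : k)) MvPolynomial.X :
      Fin (n + 1) → MvPolynomial (Fin n) k) (n := 1) ?_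
    · rwa [one_mul] at h
    · intro i
      refine Fin.cases ?_ (fun j => ?_) i
      · rw [Fin.cons_zero, map_zero]
        exact MvPolynomial.isHomogeneous_zero _ _ _
      · rw [Fin.cons_succ]
        exact MvPolynomial.isHomogeneous_X _ _
  have h3 := (Asm.s_HDE k (fun A [CommRing A] [Algebra k A] [Algebra.FiniteType k A] =>
      Built k d (aff k A)) (cls_built k d).toCls0 (cls_built k d).line (gmCl_built k d) k (Fin 1) n
      (fun _ => F) (fun _ => 3) (fun _ => hF)
      (built_cubic_cone_of hDFC hDRC hDCX hDDS h2 hd (by omega) (sp (0 : k) F) h0)).2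
      (built_cubic_cone_of hDFC hDRC hDCX hDDS h2 hd (by omega) F hF)
  exact h3

end

end QCV
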