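import Pool.Agent.QCV.D_ASM0
import Pool.Agent.QCV.D_DCO
import Pool.Agent.QCV.D_DCX
import Pool.Agent.QCV.Fin4

/-!
# QCV, block D: assembly, part 2: cubic hypersurfaces
-/

set_option autoImplicit false

open CategoryTheory AlgebraicGeometry Polynomial

namespace QCV

open Pool.Agent.Lib_helper55.Beil CUB

namespace Asm

theorem s_DCX : S_DCX := t_DCX s_CUB s_DCN s_DSI t_DCO s_DLN s_DNR s_DSG s_DDT s_DRK

end Asm

variable {k : Type} [Field k]

/-- The affine cone defined by a cubic form in `n` variables, `n ≤ d + 4`. -/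
theorem built_cubic_cone [PerfectField k] (h2 : (2 : k) ≠ 0) {n d : ℕ} (hd : 1 ≤ d)
    (hn : n ≤ d + 4) (F : MvPolynomial (Fin n) k) (hF : F.IsHomogeneous 3) :
    Built k d (aff k (MvPolynomial (Fin n) k ⧸ Ideal.span (Set.range fun _ : Fin 1 => F))) :=
  built_cubic_cone_of t_DFC t_DRC Asm.s_DCX Asm.s_DDS h2 hd hn F hF

/-- Projective cubic hypersurfaces of dimension at most `d + 2`. -/
theorem built_cubic_proj [PerfectField k] (h2 : (2 : k) ≠ 0) {n d : ℕ} (hd : 1 ≤ d)
    (hn : n ≤ d + 3) (F : MvPolynomial (Fin (n + 1)) k) (hF : F.IsHomogeneous 3) {X : Var k}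
    (S : ProjSub (fun _ : Fin 1 => F) X) : Built k d X :=
  built_cubic_proj_of t_DFC t_DRC Asm.s_DCX Asm.s_DDS h2 hd hn F hF S

/-- Affine hypersurfaces of degree at most three in `n` variables, `n ≤ d + 3`. -/
theorem built_cubic_affine [PerfectField k] (h2 : (2 : k) ≠ 0) {n d : ℕ} (hd : 1 ≤ d)
    (hn : n ≤ d + 3) (f : MvPolynomial (Fin n) k) (hf : f.totalDegree ≤ 3) :
    Built k d (aff k (MvPolynomial (Fin n) k ⧸ Ideal.span (Set.range fun _ : Fin 1 => f))) :=
  built_cubic_affine_of t_DFC t_DRC Asm.s_DCX Asm.s_DDS t_DHG h2 hd hn f hf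

end QCV
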