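import Pool.Agent.QCV.P_PRA

/-!
# QCV: degrees in the last variables and dehomogenisation
-/

set_option autoImplicit false

namespace QCV

namespace PRA

variable {R : Type} [CommRing R] {n : ℕ} (l : Fin (n + 1))

lemma ix_injective : Function.Injective (ix (n := n) l) := by
  intro i j h
  have h1 : (ix l i).1 = (ix l j).1 := congrArg Fin.val h
  unfold ix at h1
  simp only at h1
  exact Fin.ext (by omega)

lemma lt_ix (i : Fin (ns l)) : l < ix l i := by
  change l.1 < (ix l i).1
  unfold ix
  simp only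
  omega

/-- The exponents of a dehomogenised monomial. -/
noncomputable def dm (d : Fin (n + 1) →₀ ℕ) : Fin (ns l) →₀ ℕ :=
  d.comapDomain (ix l) (ix_injective l).injOn

lemma dm_apply (d : Fin (n + 1) →₀ ℕ) (i : Fin (ns l)) : dm l d i = d (ix l i) := rfl

lemma e_monomial (d : Fin (n + 1) →₀ ℕ) (c : R) :
    (e l) (MvPolynomial.monomial d c) = 0 ∨
      (e l) (MvPolynomial.monomial d c) = MvPolynomial.monomial (dm l d) c := by
  have h1 : (e l) (MvPolynomial.monomial d c) = MvPolynomial.C c * ∏ j, ev l j ^ d j := by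
    rw [e, MvPolynomial.aeval_monomial, Finsupp.prod_fintype _ _ (fun j => by rw [pow_zero])]
    rfl
  by_cases h : ∃ j, j < l ∧ d j ≠ 0
  · obtain ⟨j, hj, hd⟩ := h
    left
    rw [h1, Finset.prod_eq_zero (Finset.mem_univ j), mul_zero]
    rw [ev_lt l j hj]
    exact zero_pow hd
  · right
    have h2 : ∏ i : Fin (ns l), (MvPolynomial.X i : MvPolynomial (Fin (ns l)) R) ^ dm l d i =
        ∏ j, ev l j ^ d j := by
      refine Fintype.prod_of_injective (ix l) (ix_injective l) _ _ ?_ ?_
      · intro j hj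
        rcases lt_trichotomy j l with hjl | hjl | hjl
        · have h3 : d j = 0 := by
            by_contra h4
            exact h ⟨j, hjl, h4⟩
          rw [h3, pow_zero]
        · subst hjl
          rw [ev_self, one_pow]
        · obtain ⟨i, hi⟩ := exists_ix l j hjl
          exact absurd ⟨i, hi⟩ hj
      · intro i
        rw [ev_ix, dm_apply]
    rw [h1, ← h2, MvPolynomial.monomial_eq, Finsupp.prod_fintype _ _ (fun j => by rw [pow_zero])]

lemma exists_dm (f : MvPolynomial (Fin (n + 1)) R) (m : Fin (ns l) →₀ ℕ)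
    (hm : m ∈ (e l f).support) : ∃ d ∈ f.support, m = dm l d := by
  classical
  have h1 : e l f = ∑ d ∈ f.support, e l (MvPolynomial.monomial d (MvPolynomial.coeff d f)) := by
    conv_lhs => rw [f.as_sum]
    rw [map_sum]
  rw [h1] at hm
  have h2 := MvPolynomial.support_sum hm
  rw [Finset.mem_biUnion] at h2
  obtain ⟨d, hd, h3⟩ := h2
  refine ⟨d, hd, ?_⟩
  rcases e_monomial l d (MvPolynomial.coeff d f) with h4 | h4
  · rw [h4, MvPolynomial.support_zero] at h3
    exact absurd h3 (Finset.notMem_empty _)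
  · rw [h4] at h3
    exact Finset.mem_singleton.mp (MvPolynomial.support_monomial_subset h3)

/-- Dehomogenisation and the degree in the last variables. -/
theorem deg_e' (a D : ℕ) (f : MvPolynomial (Fin (n + 1)) R)
    (hf : ∀ m ∈ f.support,
      (Finset.univ.filter (fun i : Fin (n + 1) => a < i.1)).sum (fun i => m i) ≤ D) :
    ∀ m ∈ (PRA.e l f).support,
      (Finset.univ.filter (fun i : Fin (PRA.ns l) => a - l.1 ≤ i.1)).sum (fun i => m i) ≤ D := by
  classical
  intro m hm
  obtain ⟨d, hd, rfl⟩ := exists_dm l f m hm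
  refine le_trans ?_ (hf d hd)
  have h1 : (Finset.univ.filter (fun i : Fin (PRA.ns l) => a - l.1 ≤ i.1)).sum
      (fun i => dm l d i) =
      ((Finset.univ.filter (fun i : Fin (PRA.ns l) => a - l.1 ≤ i.1)).image (ix l)).sum
        (fun j => d j) := by
    rw [Finset.sum_image (fun i _ j _ h => ix_injective l h)]
    rfl
  rw [h1]
  apply Finset.sum_le_sum_of_subset
  intro j hj
  rw [Finset.mem_image] at hj
  obtain ⟨i, hi, rfl⟩ := hj
  rw [Finset.mem_filter] at hi ⊢
  refine ⟨Finset.mem_univ _, ?_⟩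
  have h2 := hi.2
  unfold ix
  simp only
  omega

/-- Dehomogenisation and the degree in the last variables. -/
theorem deg_e {R : Type} [CommRing R] {n : ℕ} (l : Fin (n + 1)) (a : ℕ)
    (f : MvPolynomial (Fin (n + 1)) R)
    (hf : ∀ m ∈ f.support,
      (Finset.univ.filter (fun i : Fin (n + 1) => a < i.1)).sum (fun i => m i) ≤ 2) :
    ∀ m ∈ (PRA.e l f).support,
      (Finset.univ.filter (fun i : Fin (PRA.ns l) => a - l.1 ≤ i.1)).sum (fun i => m i) ≤ 2 :=
  deg_e' l a 2 f hf

end PRA

end QCV
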