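import Pool.Agent.QCV.P_PRJ
import Pool.Agent.QCV.P_SPL
import Pool.Agent.QCV.P_DEG

/-!
# QCV: projective varieties defined by forms of degree at most two in most of the variables
-/

set_option autoImplicit false

open CategoryTheory AlgebraicGeometry

namespace QCV

open Pool.Agent.Lib_helper55.Beil CUB

variable {k : Type} [Field k]

/-- The degree of the monomial with exponents `u` in the variables `x_i`, `i > a`. -/
def xdeg {n : ℕ} (a : ℕ) (u : Fin (n + 1) →₀ ℕ) : ℕ :=
  (Finset.univ.filter (fun i : Fin (n + 1) => a < i.1)).sum (fun i => u i)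

/-- **FRM**: let `X` be a closed subvariety of the projective space of dimension `n` over `R`,
`dim R ≤ e`, with the same points as `f_1 = ... = f_(s + r) = 0`, where the `f_j` are homogeneous of
any positive degrees, the first `s` are of degree at most one and the others are of degree at most
two in the variables `x_i`, `i > a`.  If `e + a ≤ d` and `r + e + a ≤ d + 1`, then `X` belongs to the
class. -/
theorem built_of_forms {R : Type} [CommRing R] [Algebra k R] [Algebra.FiniteType k R]
    {n r s d e a : ℕ} (hed : e + a ≤ d) (her : r + e + a ≤ d + 1) (hR : (aff k R).DimLE e)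
    {X : Var k} (f : Fin s ⊕ Fin r → MvPolynomial (Fin (n + 1)) R) (m : Fin s ⊕ Fin r → ℕ)
    (hf : ∀ j, (f j).IsHomogeneous (m j)) (hm : ∀ j, 1 ≤ m j)
    (h1 : ∀ j, ∀ u ∈ (f (Sum.inl j)).support, xdeg a u ≤ 1)
    (h2 : ∀ j, ∀ u ∈ (f (Sum.inr j)).support, xdeg a u ≤ 2)
    (S : ProjSub f X) : Built k d X := by
  refine built_of_charts f m hf hm ?_ S
  intro l
  have hb : min (a - l.1) (PRA.ns l) ≤ PRA.ns l := min_le_right _ _
  let D : Fin s ⊕ Fin r → ℕ := Sum.elim (fun _ => 1) (fun _ => 2)
  have hdeg : ∀ j, ∀ u ∈ (f j).support, xdeg a u ≤ D j := by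
    rintro (j | j)
    · exact h1 j
    · exact h2 j
  obtain ⟨g, hg, ⟨eg⟩⟩ := exists_split (k := k) hb D (fun j => PRA.e l (f j)) (by
    intro j u hu
    by_cases h1 : a - l.1 ≤ PRA.ns l
    · rw [min_eq_left h1]
      exact PRA.deg_e' l a (D j) (f j) (hdeg j) u hu
    · rw [min_eq_right (by omega)]
      rw [Finset.filter_false_of_mem (fun i _ => by have := i.2; omega), Finset.sum_empty]
      exact Nat.zero_le _)
  have hmin : min (a - l.1) (PRA.ns l) ≤ a := (min_le_left _ _).trans (Nat.sub_le _ _)
  refine Built.iso (viso eg) (built_equations (e := e + min (a - l.1) (PRA.ns l)) g ?_ ?_ ?_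
    (fun j => hg (Sum.inl j)) (fun j => hg (Sum.inr j)))
  · omega
  · omega
  · rw [dimLE_aff]
    exact Asm.s_DLM k R e _ ((dimLE_aff e).1 hR)

end QCV
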