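import Pool.Agent.QCV.Defs4
import Pool.Agent.QCV.D_ASM
import Pool.Agent.QCV.Fin5
import Pool.Agent.QCV.P_FRM
import Pool.Agent.QCV.StE1

/-!
# QCV: the class `Member`
-/

set_option autoImplicit false

open CategoryTheory AlgebraicGeometry Limits Polynomial TopologicalSpace

namespace QCV

open Pool.Agent.Lib_helper55.Beil Pool.Agent.Lib_helper66.OneP CUB

universe v

variable {k : Type} [Field k] {E : Type} [Field E]

/-- The class `Built` is contained in the class `Member`. -/
theorem member_of_built {d : ℕ} {X : Var k} (h : Built k d X) : Member k d X := by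
  induction h with
  | small X hX => exact Member.small X hX
  | iso s _ ih => exact Member.iso s ih
  | nil a hs _ ih => exact Member.nil a hs ih
  | paste a j hc _ _ ihZ ihU => exact Member.paste a j hc ihZ ihU
  | cut a j hc _ _ ihX ihZ => exact Member.cut a j hc ihX ihZ
  | line A _ ih => exact Member.line A ih
  | unline L _ ih => exact Member.unline L ih
  | cover A b c _ ih => exact Member.cover A b c ih
  | etale f hint _ ih => exact Member.etale f hint ih
  | bundle B s j hs hc _ ih => exact Member.bundle B s j hs hc ih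
  | odd A m a ha _ ih => exact Member.odd A m a ha ih
  | zeros A m f _ ih => exact Member.zeros A m f ih

lemma member_of_isEmpty {X : Var k} (h : IsEmpty X.X) (d : ℕ) : Member k d X :=
  Member.small X (fun x => (h.false x).elim)

lemma member_of_red {X : Var k} {d : ℕ} (h : Member k d (redVar X)) : Member k d X :=
  Member.paste (redVarIn X) (openVarIn X ⊥) (complementary_red X) h
    (member_of_isEmpty (isEmpty_openVar_bot X) d)

/-- The class is determined by the closed subset of an ambient variety. -/
theorem member_same_range {X Y W : Var k} {d : ℕ} (a : ClosedIn X W) (b : ClosedIn Y W)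
    (h : Set.range a.g = Set.range b.g) (hX : Member k d X) : Member k d Y := by
  have hred := isReduced_redVar Y
  obtain ⟨l, hl⟩ := exists_factor_range a ((redVarIn Y).trans b) (by
    rintro _ ⟨y, rfl⟩
    rw [h]
    exact ⟨(redVarIn Y).g y, rfl⟩)
  apply member_of_red
  refine Member.nil l ?_ hX
  intro x
  have h1 : a.g x ∈ Set.range b.g := by
    rw [← h]
    exact ⟨x, rfl⟩
  obtain ⟨y, hy⟩ := h1
  obtain ⟨y', hy'⟩ : y ∈ Set.range (redVarIn Y).g := by
    rw [range_redVarIn]
    trivial
  refine ⟨y', ?_⟩
  apply closedIn_injective a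
  rw [← hy, ← hy', ← Scheme.Hom.comp_apply, hl]
  rfl

lemma cls_member (k : Type) [Field k] (d : ℕ) :
    Cls k d (fun A [CommRing A] [Algebra k A] [Algebra.FiniteType k A] => Member k d (aff k A)) where
  iso := fun e h => Member.iso (viso e.symm) h
  triv := fun A _ _ _ h => member_of_isEmpty (isEmpty_aff A h) d
  glue := fun a z u s hZ hU => Member.paste _ _
    (complementary_away u a s.away z s.surj s.ker) hZ hU
  opn := fun a z u s hA hZ => Member.cut _ _
    (complementary_away u a s.away z s.surj s.ker) hA hZ
  line := fun A _ _ _ h => Member.line A h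
  dbl := fun A _ _ _ b c h => Member.cover A b c h
  base := fun A _ _ _ h => Member.small _ (dimLE_of_DL h)

lemma oddCl_member (k : Type) [Field k] (d : ℕ) :
    OddCl k (fun A [CommRing A] [Algebra k A] [Algebra.FiniteType k A] => Member k d (aff k A)) :=
  fun A _ _ _ m a ha h => Member.odd A m a ha h

lemma evenCl_member (k : Type) [Field k] (d : ℕ) (h2 : (2 : k) ≠ 0) :
    EvenCl k (fun A [CommRing A] [Algebra k A] [Algebra.FiniteType k A] => Member k d (aff k A)) :=
  fun A _ _ _ m a ha h => Member.even A m a h2 ha h

/-- If the affine cone over the projective variety `X` over `R` and `Spec R` belong to the class,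
then `X` belongs to the class. -/
theorem member_of_cone {R ι : Type} [CommRing R] [Algebra k R] [Algebra.FiniteType k R] {n d : ℕ}
    (hR : Member k d (aff k R)) (f : ι → MvPolynomial (Fin (n + 1)) R) (m : ι → ℕ)
    (hf : ∀ j, (f j).IsHomogeneous (m j)) (hm : ∀ j, 1 ≤ m j)
    (h : Member k d (aff k (MvPolynomial (Fin (n + 1)) R ⧸ Ideal.span (Set.range f))))
    {X : Var k} (S : ProjSub f X) : Member k d X :=
  Asm.s_BCO k (Member k d) (fun a j hc hX hZ => Member.cut a j hc hX hZ)
    (fun a b hab hX => member_same_range a b hab hX)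
    (fun B s j hs hc hU => Member.bundle B s j hs hc hU) R ι n f m hf hm hR h X S

/-! ## Quadratic forms over integral bases of the class -/

/-- The zero set of a quadratic form of odd generic rank over an integral affine member. -/
theorem member_odd_base {A : Type} [CommRing A] [IsDomain A] [Algebra k A] [Algebra.FiniteType k A]
    {n d : ℕ} (h2 : (2 : k) ≠ 0) (hA : (aff k A).DimLE (d + 1 : ℕ)) (hb : Member k d (aff k A))
    (f : MvPolynomial (Fin n) A) (hf : f.IsHomogeneous 2)
    (ho : Odd ((gram f).map (algebraMap A (FractionRing A))).rank) :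
    Member k d (aff k (MvPolynomial (Fin n) A ⧸ Ideal.span (Set.range fun _ : Fin 1 => f))) :=
  Asm.s_QOD k (fun A [CommRing A] [Algebra k A] [Algebra.FiniteType k A] =>
    Member k d (aff k A)) d h2 (cls_member k d) (oddCl_member k d) A n f ((dimLE_aff _).1 hA) hb hf
    ho

/-- The projective version. -/
theorem member_odd_base_proj {A : Type} [CommRing A] [IsDomain A] [Algebra k A]
    [Algebra.FiniteType k A] {n d : ℕ} (h2 : (2 : k) ≠ 0) (hA : (aff k A).DimLE (d + 1 : ℕ))
    (hb : Member k d (aff k A)) (f : MvPolynomial (Fin (n + 1)) A) (hf : f.IsHomogeneous 2)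
    (ho : Odd ((gram f).map (algebraMap A (FractionRing A))).rank) {X : Var k}
    (S : ProjSub (fun _ : Fin 1 => f) X) : Member k d X :=
  member_of_cone hb (fun _ : Fin 1 => f) (fun _ => 2) (fun _ => hf) (fun _ => by norm_num)
    (member_odd_base h2 hA hb f hf ho) S

/-- The zero set of a nondegenerate quadratic form in an even number of variables over an integral
affine variety of dimension at most `d + 1`, if the discriminant double cover is a member. -/
theorem member_even_base_of (hEOD : S_EOD) {A : Type} [CommRing A] [IsDomain A] [Algebra k A]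
    [Algebra.FiniteType k A] {m d : ℕ} (h2 : (2 : k) ≠ 0) (hA : (aff k A).DimLE (d + 1 : ℕ))
    (f : MvPolynomial (Fin (2 * m)) A) (hf : f.IsHomogeneous 2) (hg : (gram f).det ≠ 0)
    (hD : Member k d (aff k (Dr A 0 ((-1) ^ (m + 1) * (gram f).det)))) :
    Member k d (aff k (MvPolynomial (Fin (2 * m)) A ⧸ Ideal.span (Set.range fun _ : Fin 1 => f))) :=
  hEOD k (fun A [CommRing A] [Algebra k A] [Algebra.FiniteType k A] => Member k d (aff k A)) d h2
    (cls_member k d) (evenCl_member k d h2) A m f ((dimLE_aff _).1 hA) (Member.cover A _ _ hD) hf hg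
    hD

/-- Systems of `q + 1` quadratic forms in an even number of variables with nondegenerate generic
member, over an integral base of dimension at most `e`, `q + e ≤ d + 1`, if the discriminant double
cover of the affine space over the base is a member. -/
theorem member_even_of (hEVS : S_EVS) {R : Type} [CommRing R] [IsDomain R] [Algebra k R]
    [Algebra.FiniteType k R] {m q e d : ℕ} (h2 : (2 : k) ≠ 0) (hed : e ≤ d) (hq : q + e ≤ d + 1)
    (hR : (aff k R).DimLE e) (f : Fin (q + 1) → MvPolynomial (Fin (2 * m)) R)
    (hf : ∀ j, (f j).IsHomogeneous 2) (hg : (gram (gen f)).det ≠ 0)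
    (hD : Member k d (aff k (Dr (MvPolynomial (Fin q) R) 0
      ((-1) ^ (m + 1) * (gram (gen f)).det)))) :
    Member k d (aff k (MvPolynomial (Fin (2 * m)) R ⧸ Ideal.span (Set.range f))) :=
  Member.zeros _ q f (hEVS k (fun A [CommRing A] [Algebra k A] [Algebra.FiniteType k A] =>
    Member k d (aff k A)) d h2 (cls_member k d) (evenCl_member k d h2) R m q e f hed hq
    ((dimLE_aff e).1 hR) hf hg hD)

/-! ## The property `PP` holds on the class -/

/-- The statement for quadric cones in an even number of variables. -/
def PpfEven (T : ∀ i : ℕ, Homology.{v} k E i) : Prop :=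
  (2 : k) ≠ 0 →
    EvenCl k (fun A [CommRing A] [Algebra k A] [Algebra.FiniteType k A] => PPF T (aff k A))

theorem ppf_of_member [Finite k] [CharZero E] {T : ∀ i : ℕ, Homology.{v} k E i} (hT : Full T)
    (hP : Pub T hT) (hS : SectionZero T) (hE : PfEt T) (hO : PpfOdd T) (hV : PpfEven T)
    (hL : PpfBun T) (d : ℕ) (hB : ∀ X : Var k, X.DimLE d → PP T X) (X : Var k)
    (h : Member k d X) : PPF T X := by
  induction h with
  | small X hX => exact (pp_iff hT.toExtra _).mp (hB X hX)
  | iso s _ ih => exact fun i => pf_viso hT hP i s (ih i)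
  | nil a hs _ ih => exact fun i => pf_nil hT i a hs (ih i)
  | paste a j hc _ _ ihZ ihU => exact fun i => pf_glue hT hP i a j hc (ihZ i) (ihU i)
  | cut a j hc _ _ ihX ihZ =>
    intro i
    rcases i with _ | i
    · exact pf_zero hT hP _
    · exact pf_open hT hP i a j hc (ihX _) (ihZ _)
  | line A _ ih => exact ppf_line hT hP A ih
  | unline L _ ih => exact fun i => pf_line_desc hT hP hS i L (ih (i + 1))
  | cover A b c _ ih => exact fun i => pf_dbl hT hP i A b c (ih i)
  | etale f hint _ ih => exact fun i => hE i f hint (ih i)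
  | bundle B s j hs hc _ ih => exact hL B s j hs hc ih
  | odd A m a ha _ ih => exact hO A m a ha ih
  | even A m a h2 ha _ ih => exact hV h2 A m a ha ih
  | zeros A m f _ ih =>
    intro i
    exact (pi_iff hT.toExtra i _).mp (red3 hT hP hS i m f (Ideal.Quotient.mkₐ k _)
      (Ideal.Quotient.mkₐ_surjective k _) Ideal.mk_ker ((pi_iff hT.toExtra _ _).mpr (ih _)))

/-- The conjecture holds on the class if the property holds in dimension at most `d`. -/
theorem q1_of_member [Finite k] [CharZero E] {T : ∀ i : ℕ, Homology.{v} k E i} (hT : Full T)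
    (hP : Pub T hT) (hS : SectionZero T) (hE : PfEt T) (hO : PpfOdd T) (hV : PpfEven T)
    (hL : PpfBun T) (d : ℕ) (hB : ∀ X : Var k, X.DimLE d → PP T X) (X : Var k)
    (hX : Member k d X) (i : ℕ) : Q1 (T i) X :=
  Q1_of_PI _ _
    ((pp_iff hT.toExtra X).mpr (ppf_of_member hT hP hS hE hO hV hL d hB X hX) i)

end QCV
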