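import Pool.Agent.QCV.StD1

/-!
# QCV, module DAU: linear automorphisms of a polynomial ring with prescribed columns
-/

set_option autoImplicit false

open MvPolynomial

namespace QCV

theorem DAU_ext (K : Type) [Field K] (n m : ℕ) (ι : Fin m → Fin n) (v : Fin m → Fin n → K)
    (hι : Function.Injective ι) (hv : LinearIndependent K v) :
    ∃ b : Module.Basis (Fin n) K (Fin n → K), ∀ j, b (ι j) = v j := by
  classical
  have hin : ∀ j, Module.Basis.sumExtend hv (Sum.inl j) = v j := by
    intro j
    let _ := Classical.decPred (· ∈ Set.range v)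
    have h : Module.Basis.sumExtend hv (Sum.inl j) =
        ((Equiv.Set.sumDiffSubset (hv.linearIndepOn_id.subset_extend (Set.subset_univ _))
          (Sum.inl (Equiv.ofInjective v hv.injective j)) : _) : Fin n → K) := by
      rw [Module.Basis.sumExtend, Module.Basis.reindex_apply, Module.Basis.coe_extend]
      rfl
    rw [h, Equiv.Set.sumDiffSubset_apply_inl]
    simp
  have : Finite (Fin m ⊕ Module.Basis.sumExtendIndex hv) :=
    Module.Finite.finite_basis (Module.Basis.sumExtend hv)
  have : Finite (Module.Basis.sumExtendIndex hv) :=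
    Finite.of_injective (β := Fin m ⊕ Module.Basis.sumExtendIndex hv) Sum.inr Sum.inr_injective
  let _ := Fintype.ofFinite (Module.Basis.sumExtendIndex hv)
  have hcard : Fintype.card (Fin m ⊕ Module.Basis.sumExtendIndex hv) = n := by
    have h := Module.finrank_eq_card_basis (Module.Basis.sumExtend hv)
    rw [← h, Module.finrank_fintype_fun_eq_card, Fintype.card_fin]
  have hcard' : Fintype.card (Module.Basis.sumExtendIndex hv) =
      Fintype.card (↥(Set.range ι)ᶜ) := by
    rw [Fintype.card_sum, Fintype.card_fin] at hcard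
    rw [Fintype.card_compl_set, Fintype.card_fin, Set.card_range_of_injective hι,
      Fintype.card_fin]
    omega
  let e : (Fin m ⊕ Module.Basis.sumExtendIndex hv) ≃ Fin n :=
    (Equiv.sumCongr (Equiv.ofInjective ι hι) (Fintype.equivOfCardEq hcard')).trans
      (Equiv.Set.sumCompl (Set.range ι))
  refine ⟨(Module.Basis.sumExtend hv).reindex e, fun j => ?_⟩
  have he : e (Sum.inl j) = ι j := by
    simp [e]
  rw [Module.Basis.reindex_apply, ← he, Equiv.symm_apply_apply, hin]

theorem t_DAU : S_DAU := by
  classical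
  intro K _ n m ι v hι hv
  obtain ⟨b, hb⟩ := DAU_ext K n m ι v hι hv
  let M : Matrix (Fin n) (Fin n) K := (Pi.basisFun K (Fin n)).toMatrix b
  let N : Matrix (Fin n) (Fin n) K := b.toMatrix (Pi.basisFun K (Fin n))
  have hMN : M * N = 1 := Module.Basis.toMatrix_mul_toMatrix_flip _ _
  have hNM : N * M = 1 := Module.Basis.toMatrix_mul_toMatrix_flip _ _
  have key : ∀ A B : Matrix (Fin n) (Fin n) K, A * B = 1 →
      (bind₁ B.toMvPolynomial).comp (bind₁ A.toMvPolynomial) =
        AlgHom.id K (MvPolynomial (Fin n) K) := by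
    intro A B hAB
    ext1 i
    rw [AlgHom.comp_apply, bind₁_X_right, ← Matrix.toMvPolynomial_mul, hAB,
      Matrix.toMvPolynomial_one, AlgHom.id_apply]
  refine ⟨M, AlgEquiv.ofAlgHom (bind₁ M.toMvPolynomial) (bind₁ N.toMvPolynomial)
    (key N M hNM) (key M N hMN), fun i j => ?_, fun i => ?_⟩
  · simp only [M, Module.Basis.toMatrix_apply, Pi.basisFun_repr, hb]
  · rw [AlgEquiv.ofAlgHom_apply, bind₁_X_right, Matrix.toMvPolynomial]
    simp only [C_mul_X_eq_monomial]

end QCV
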