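import Mathlib
import Pool.Agent.QCV.StD1

set_option autoImplicit false

open Polynomial TensorProduct

namespace QCV

attribute [local instance] MvPolynomial.algebraMvPolynomial

theorem dbc_main (k K : Type) [Field k] [PerfectField k] [Field K] [Algebra k K]
    [Module.Finite k K] (n : ℕ) (I : Ideal (MvPolynomial (Fin n) k))
    (J : Ideal (MvPolynomial (Fin n) K))
    (hJ : J = I.map (algebraMap (MvPolynomial (Fin n) k) (MvPolynomial (Fin n) K))) :
    ∃ (_ : Algebra (MvPolynomial (Fin n) k ⧸ I) (MvPolynomial (Fin n) K ⧸ J)),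
      IsScalarTower k (MvPolynomial (Fin n) k ⧸ I) (MvPolynomial (Fin n) K ⧸ J) ∧
      Module.Finite (MvPolynomial (Fin n) k ⧸ I) (MvPolynomial (Fin n) K ⧸ J) ∧
      Algebra.Etale (MvPolynomial (Fin n) k ⧸ I) (MvPolynomial (Fin n) K ⧸ J) ∧
      Function.Injective (algebraMap (MvPolynomial (Fin n) k ⧸ I)
        (MvPolynomial (Fin n) K ⧸ J)) := by
  subst hJ
  have e1 := Algebra.IsPushout.equiv k (MvPolynomial (Fin n) k) K (MvPolynomial (Fin n) K)
  have e2 := Algebra.TensorProduct.quotIdealMapEquivQuotTensor (MvPolynomial (Fin n) K) I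
  have hsep : Algebra.IsSeparable k K := inferInstance
  have : Algebra.FormallyEtale k K := Algebra.FormallyEtale.of_isSeparable k K
  have : Algebra.FinitePresentation k K :=
    Algebra.FinitePresentation.of_finiteType.mp inferInstance
  have : Algebra.Etale k K :=
    { formallyEtale := inferInstance, finitePresentation := inferInstance }
  have het : Algebra.Etale (MvPolynomial (Fin n) k) (MvPolynomial (Fin n) K) :=
    Algebra.Etale.of_equiv e1
  have hfin : Module.Finite (MvPolynomial (Fin n) k) (MvPolynomial (Fin n) K) :=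
    Module.Finite.equiv e1.toLinearEquiv
  have hfree : Module.Free (MvPolynomial (Fin n) k) (MvPolynomial (Fin n) K) :=
    Module.Free.of_equiv e1.toLinearEquiv
  refine ⟨Ideal.Quotient.algebraQuotientMapQuotient, ?_, ?_, ?_, ?_⟩
  · refine ⟨fun a x y => ?_⟩
    obtain ⟨r, rfl⟩ := Ideal.Quotient.mk_surjective x
    obtain ⟨s, rfl⟩ := Ideal.Quotient.mk_surjective y
    have h1 : algebraMap (MvPolynomial (Fin n) k) (MvPolynomial (Fin n) K) (a • r) * s =
        a • (algebraMap (MvPolynomial (Fin n) k) (MvPolynomial (Fin n) K) r * s) := by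
      rw [← Algebra.smul_def, ← Algebra.smul_def, smul_assoc]
    exact congrArg (Ideal.Quotient.mk _) h1
  · exact Module.Finite.equiv e2.symm.toLinearEquiv
  · have h1 : Algebra.Etale (MvPolynomial (Fin n) k ⧸ I)
        ((MvPolynomial (Fin n) k ⧸ I) ⊗[MvPolynomial (Fin n) k] MvPolynomial (Fin n) K) :=
      inferInstance
    exact Algebra.Etale.of_equiv (R := MvPolynomial (Fin n) k ⧸ I)
      (A := (MvPolynomial (Fin n) k ⧸ I) ⊗[MvPolynomial (Fin n) k] MvPolynomial (Fin n) K) e2.symm
  · rw [injective_iff_map_eq_zero]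
    intro a ha
    obtain ⟨r, rfl⟩ := Ideal.Quotient.mk_surjective a
    rw [Ideal.Quotient.algebraMap_quotient_map_quotient, Ideal.Quotient.eq_zero_iff_mem,
      ← Ideal.mem_comap, Ideal.comap_map_eq_self_of_faithfullyFlat] at ha
    exact Ideal.Quotient.eq_zero_iff_mem.mpr ha

theorem t_DBC : S_DBC := by
  intro k K _ _ _ _ _ n F
  refine dbc_main k K n _ _ ?_
  rw [Ideal.map_span, ← Set.range_comp]
  rfl

end QCV
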