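import Pool.Agent.QCV.StD1

/-!
# QCV, block D, module DCG: a cubic form in the ideal `(y)` is of the form `lcub G`
-/

set_option autoImplicit false

namespace QCV

open MvPolynomial

namespace DCG

/-- the indices of the variables `y` -/
def fl (a s : ℕ) (i : Fin (a + 1)) : Fin (a + s + 1) := ⟨i.1, by omega⟩

/-- the indices of the variables `x` -/
def fr (a s : ℕ) (j : Fin s) : Fin (a + s + 1) := ⟨a + 1 + j.1, by omega⟩

lemma fl_inj (a s : ℕ) : Function.Injective (fl a s) := fun i j h => by
  apply Fin.ext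
  exact congrArg (fun z : Fin (a + s + 1) => z.1) h

lemma fr_inj (a s : ℕ) : Function.Injective (fr a s) := fun i j h => by
  apply Fin.ext
  have h1 : a + 1 + i.1 = a + 1 + j.1 := congrArg (fun z : Fin (a + s + 1) => z.1) h
  omega

/-- the exponents of the variables `y` -/
noncomputable def ml {a s : ℕ} (m : Fin (a + s + 1) →₀ ℕ) : Fin (a + 1) →₀ ℕ :=
  Finsupp.equivFunOnFinite.symm fun i => m (fl a s i)

/-- the exponents of the variables `x` -/
noncomputable def mr {a s : ℕ} (m : Fin (a + s + 1) →₀ ℕ) : Fin s →₀ ℕ :=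
  Finsupp.equivFunOnFinite.symm fun j => m (fr a s j)

lemma split {a s : ℕ} (m : Fin (a + s + 1) →₀ ℕ) :
    (ml m).mapDomain (fl a s) + (mr m).mapDomain (fr a s) = m := by
  ext i
  rw [Finsupp.add_apply]
  by_cases hi : i.1 < a + 1
  · have e : i = fl a s ⟨i.1, hi⟩ := Fin.ext rfl
    have h2 : i ∉ Set.range (fr a s) := by
      rintro ⟨j, rfl⟩
      simp only [fr] at hi
      omega
    rw [Finsupp.mapDomain_of_notMem_range _ _ h2, add_zero]
    conv_lhs => rw [e]
    rw [Finsupp.mapDomain_apply (fl_inj a s)]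
    show m (fl a s ⟨i.1, hi⟩) = m i
    rw [← e]
  · have hj : i.1 - (a + 1) < s := by omega
    have e : i = fr a s ⟨i.1 - (a + 1), hj⟩ := Fin.ext (by simp only [fr]; omega)
    have h2 : i ∉ Set.range (fl a s) := by
      rintro ⟨j, rfl⟩
      simp only [fl] at hi
      omega
    rw [Finsupp.mapDomain_of_notMem_range _ _ h2, zero_add]
    conv_lhs => rw [e]
    rw [Finsupp.mapDomain_apply (fr_inj a s)]
    show m (fr a s ⟨i.1 - (a + 1), hj⟩) = m i
    rw [← e]

/-- the predicate to be proved -/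
def P {K : Type} [Field K] {a s : ℕ} (F : MvPolynomial (Fin (a + s + 1)) K) : Prop :=
  ∃ G : MvPolynomial (Fin (s + 1)) (MvPolynomial (Fin (a + 1)) K), G.IsHomogeneous 2 ∧
      (∀ μ, (MvPolynomial.coeff μ G).IsHomogeneous (1 + μ 0)) ∧ lcub G = F

variable {K : Type} [Field K] {a s : ℕ}

lemma P_zero : P (0 : MvPolynomial (Fin (a + s + 1)) K) := by
  refine ⟨0, isHomogeneous_zero _ _ _, fun μ => ?_, ?_⟩
  · rw [coeff_zero]
    exact isHomogeneous_zero _ _ _
  · unfold lcub
    rw [eval₂_zero]

lemma P_add {F F' : MvPolynomial (Fin (a + s + 1)) K} (h : P F) (h' : P F') : P (F + F') := by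
  obtain ⟨G, h1, h2, h3⟩ := h
  obtain ⟨G', h1', h2', h3'⟩ := h'
  refine ⟨G + G', h1.add h1', fun μ => ?_, ?_⟩
  · rw [coeff_add]
    exact (h2 μ).add (h2' μ)
  · rw [← h3, ← h3']
    unfold lcub
    rw [eval₂_add]

lemma P_monomial (m : Fin (a + s + 1) →₀ ℕ) (c : K) (h3 : m.degree = 3)
    (h0 : ¬ ∀ i : Fin (a + s + 1), i.1 ≤ a → m i = 0) : P (monomial m c) := by
  have hd : (ml m).degree + (mr m).degree = 3 := by
    rw [← h3]
    conv_rhs => rw [← split m]
    rw [map_add, Finsupp.degree_mapDomain, Finsupp.degree_mapDomain]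
  have hl : (ml m).degree ≠ 0 := by
    intro h
    apply h0
    intro i hi
    have h1 : ml m = 0 := (Finsupp.degree_eq_zero_iff _).1 h
    have h2 := DFunLike.congr_fun h1 ⟨i.1, by omega⟩
    exact h2
  set μ : Fin (s + 1) →₀ ℕ := Finsupp.cons (2 - (mr m).degree) (mr m) with hμ
  have hμd : μ.degree = 2 := by
    rw [Finsupp.degree_eq_sum, Fin.sum_univ_succ, hμ, Finsupp.cons_zero]
    simp only [Finsupp.cons_succ]
    rw [← Finsupp.degree_eq_sum]
    omega
  refine ⟨monomial μ (monomial (ml m) c), isHomogeneous_monomial _ hμd, fun μ' => ?_, ?_⟩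
  · classical
    rw [coeff_monomial]
    split_ifs with h
    · rw [← h]
      apply isHomogeneous_monomial
      rw [hμ, Finsupp.cons_zero]
      omega
    · exact isHomogeneous_zero _ _ _
  · unfold lcub
    rw [eval₂_monomial, Finsupp.prod_fintype _ _ fun i => pow_zero _, Fin.prod_univ_succ]
    simp only [hμ, Finsupp.cons_zero, Finsupp.cons_succ, Fin.cons_zero, Fin.cons_succ, one_pow,
      one_mul]
    have e1 : ∏ j : Fin s, (X (R := K) (fr a s j)) ^ (mr m) j =
        monomial ((mr m).mapDomain (fr a s)) 1 := by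
      rw [← rename_monomial, monomial_eq, C_1, one_mul, Finsupp.prod_fintype _ _ fun i => pow_zero _,
        map_prod]
      refine Finset.prod_congr rfl fun j _ => ?_
      rw [map_pow, rename_X]
    have e2 : rename (fl a s) (monomial (ml m) c) = monomial ((ml m).mapDomain (fl a s)) c :=
      rename_monomial _ _ _
    calc _ = rename (fl a s) (monomial (ml m) c) *
          ∏ j : Fin s, (X (R := K) (fr a s j)) ^ (mr m) j := rfl
      _ = monomial m c := by
        rw [e1, e2, monomial_mul, split, mul_one]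

end DCG

theorem t_DCG : S_DCG := by
  intro K _ a s F hF h0
  have h : DCG.P F := by
    rw [F.as_sum]
    refine Finset.sum_induction _ DCG.P (fun _ _ => DCG.P_add) DCG.P_zero fun m hm => ?_
    have hm' : coeff m F ≠ 0 := mem_support_iff.1 hm
    refine DCG.P_monomial m _ ?_ fun h => hm' (h0 m h)
    rw [Finsupp.degree_eq_weight_one]
    exact hF hm'
  exact h

end QCV
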