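import Pool.Agent.QCV.StD

/-!
# QCV, module DCN: affine cones of dimension at most `d + 1`
-/

set_option autoImplicit false

open Polynomial

namespace QCV

open CUB

namespace DCN

/-- `sp 0` preserves homogeneity. -/
lemma sp_zero_homog {R : Type} [CommRing R] {n m : ℕ} {f : MvPolynomial (Fin (n + 1)) R}
    (hf : f.IsHomogeneous m) : (sp (0 : R) f).IsHomogeneous m := by
  have h1 : ∀ i : Fin (n + 1), ((Fin.cons (MvPolynomial.C 0) MvPolynomial.X :
      Fin (n + 1) → MvPolynomial (Fin n) R) i).IsHomogeneous 1 := by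
    intro i
    refine Fin.cases ?_ (fun j => ?_) i
    · rw [Fin.cons_zero, map_zero]
      exact MvPolynomial.isHomogeneous_zero _ _ _
    · rw [Fin.cons_succ]
      exact MvPolynomial.isHomogeneous_X _ _
  have h2 := hf.aeval _ h1
  rw [one_mul] at h2
  exact h2

end DCN

/-- Module DCN. -/
theorem t_DCN : M_DCN := by
  intro hHCH hHDE hDGM k _ P d hP hGm R ι _ _ _ n
  induction n with
  | zero =>
    intro f m hf hR _
    refine hP.base _ (Asm.s_DLR.1 k R (ER f) d
      ((Ideal.Quotient.mkₐ k (Ideal.span (Set.range f))).comp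
        (((MvPolynomial.isEmptyAlgEquiv R (Fin 0)).symm.toAlgHom).restrictScalars k)) ?_ hR)
    intro y
    obtain ⟨g, rfl⟩ := Ideal.Quotient.mk_surjective y
    refine ⟨(MvPolynomial.isEmptyAlgEquiv R (Fin 0)) g, ?_⟩
    show Ideal.Quotient.mk _ ((MvPolynomial.isEmptyAlgEquiv R (Fin 0)).symm
      ((MvPolynomial.isEmptyAlgEquiv R (Fin 0)) g)) = _
    rw [AlgEquiv.symm_apply_apply]
  | succ n ih =>
    intro f m hf hR hD
    obtain ⟨z, u, hs⟩ := hHCH k R ι n f m hf
    have h0 : P (ER (fun j => sp (0 : R) (f j))) :=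
      ih _ m (fun j => DCN.sp_zero_homog (hf j)) hR (Asm.s_DLR.1 k _ _ _ z hs.surj hD)
    refine (hHDE k P hP.toCls0 hP.line hGm R ι n f m hf h0).1 (hP.base _ ?_)
    exact hDGM k _ d (Asm.s_DLR.2.1 k (ER f) _ (d + 1) _ u hs.away hD)

end QCV
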