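import Pool.Agent.QCV.StD

/-!
# QCV, block D: module DCP
-/

set_option autoImplicit false

open Polynomial

namespace QCV

open CUB

theorem t_DCP : S_DCP := by
  intro k K _ _ _ _ n d Q H hK hn hQ hco P
  have hs : Function.Surjective (Ideal.Quotient.mkₐ k (Ideal.span (Set.range ![Q, H]))) :=
    Ideal.Quotient.mkₐ_surjective k _
  rw [← rdim_comap (Ideal.Quotient.mkₐ k (Ideal.span (Set.range ![Q, H]))) hs P]
  set q := PrimeSpectrum.comap
    (Ideal.Quotient.mkₐ k (Ideal.span (Set.range ![Q, H]))).toRingHom P with hq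
  have hmem : ∀ j, ![Q, H] j ∈ q.asIdeal := by
    intro j
    change (Ideal.Quotient.mkₐ k (Ideal.span (Set.range ![Q, H]))) (![Q, H] j) ∈ P.asIdeal
    have h3 : Ideal.Quotient.mkₐ k (Ideal.span (Set.range ![Q, H])) (![Q, H] j) = 0 :=
      Ideal.Quotient.eq_zero_iff_mem.mpr (Ideal.subset_span ⟨j, rfl⟩)
    rw [h3]
    exact zero_mem _
  have hQq : Q ∈ q.asIdeal := hmem 0
  have hHq : H ∈ q.asIdeal := hmem 1
  -- a prime factor of `Q` in `q`
  obtain ⟨x, hx, hxQ, hxq⟩ : ∃ x : MvPolynomial (Fin n) K, Prime x ∧ x ∣ Q ∧ x ∈ q.asIdeal := by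
    obtain ⟨f, hf, u, hu⟩ := UniqueFactorizationMonoid.exists_prime_factors Q hQ
    have h1 : f.prod ∈ q.asIdeal := by
      rw [← hu] at hQq
      rcases q.isPrime.mem_or_mem hQq with h | h
      · exact h
      · exact absurd (Ideal.eq_top_of_isUnit_mem _ h u.isUnit) q.isPrime.ne_top
    obtain ⟨x, hx, hxq⟩ := (q.isPrime.multiset_prod_mem_iff_exists_mem f).1 h1
    refine ⟨x, hf x hx, ?_, hxq⟩
    rw [← hu]
    exact (Multiset.dvd_prod hx).mul_right _
  have hxH : ¬ x ∣ H := fun h => hx.not_isUnit (hco x hxQ h)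
  have hpr : (Ideal.span {x}).IsPrime := (Ideal.span_singleton_prime hx.ne_zero).2 hx
  set p : PrimeSpectrum (MvPolynomial (Fin n) K) := ⟨Ideal.span {x}, hpr⟩ with hp
  have h1 : (⟨⊥, Ideal.isPrime_bot⟩ : PrimeSpectrum (MvPolynomial (Fin n) K)) < p := by
    refine lt_of_le_of_ne bot_le ?_
    intro h1
    have h2 : x ∈ p.asIdeal := Ideal.mem_span_singleton_self x
    rw [← h1] at h2
    exact hx.ne_zero h2
  have h2 : p < q := by
    refine lt_of_le_of_ne ?_ ?_
    · change Ideal.span {x} ≤ q.asIdeal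
      rw [Ideal.span_singleton_le_iff_mem]
      exact hxq
    · intro h
      apply hxH
      rw [← Ideal.mem_span_singleton]
      change H ∈ p.asIdeal
      rw [h]
      exact hHq
  have h3 := rdim_add_one_le (k := k) h1
  have h4 := rdim_add_one_le (k := k) h2
  have h5 := Asm.s_DLM k K 0 n hK ⟨⊥, Ideal.isPrime_bot⟩
  obtain ⟨a, ha⟩ := exists_rdim (k := k) q
  obtain ⟨b, hb⟩ := exists_rdim (k := k) p
  obtain ⟨c, hc⟩ := exists_rdim (k := k)
    (⟨⊥, Ideal.isPrime_bot⟩ : PrimeSpectrum (MvPolynomial (Fin n) K))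
  rw [hb, hc] at h3
  rw [ha, hb] at h4
  rw [hc] at h5
  rw [ha]
  have h3' : b + 1 ≤ c := by exact_mod_cast h3
  have h4' : a + 1 ≤ b := by exact_mod_cast h4
  have h5' : c ≤ 0 + n := by exact_mod_cast h5
  exact_mod_cast (by omega : a ≤ d)

end QCV
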