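import Pool.Agent.QCV.StD1

set_option autoImplicit false

open Polynomial

namespace QCV

namespace DDF

theorem eqi (a b c d : ℕ) : (Finsupp.single (0 : Fin 2) a + Finsupp.single 1 b =
    Finsupp.single (0 : Fin 2) c + Finsupp.single 1 d) ↔ a = c ∧ b = d := by
  constructor
  · intro h
    have h0 := DFunLike.congr_fun h 0
    have h1 := DFunLike.congr_fun h 1
    simp at h0 h1
    exact ⟨h0, h1⟩
  · rintro ⟨rfl, rfl⟩; rfl

theorem monE {A : Type} [CommRing A] (a b : ℕ) (c : A) :
    MvPolynomial.C c * MvPolynomial.X 0 ^ a * MvPolynomial.X 1 ^ b =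
      (MvPolynomial.monomial (Finsupp.single (0 : Fin 2) a + Finsupp.single 1 b) c) := by
  rw [MvPolynomial.X_pow_eq_monomial, MvPolynomial.X_pow_eq_monomial,
    MvPolynomial.C_mul_monomial, MvPolynomial.monomial_mul]
  simp

theorem hom3 {A : Type} [CommRing A] (H : MvPolynomial (Fin 2) A) (hH : H.IsHomogeneous 3) :
    ∃ c : Fin 4 → A, H = MvPolynomial.C (c 0) * MvPolynomial.X 0 ^ 3 * MvPolynomial.X 1 ^ 0 +
      MvPolynomial.C (c 1) * MvPolynomial.X 0 ^ 2 * MvPolynomial.X 1 ^ 1 +
      MvPolynomial.C (c 2) * MvPolynomial.X 0 ^ 1 * MvPolynomial.X 1 ^ 2 +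
      MvPolynomial.C (c 3) * MvPolynomial.X 0 ^ 0 * MvPolynomial.X 1 ^ 3 := by
  refine ⟨fun j => MvPolynomial.coeff (Finsupp.single (0 : Fin 2) (3 - j.1) +
    Finsupp.single 1 j.1) H, ?_⟩
  rw [monE, monE, monE, monE]
  ext μ
  have hμ : μ = Finsupp.single (0 : Fin 2) (μ 0) + Finsupp.single 1 (μ 1) := by
    ext i; fin_cases i <;> simp
  obtain ⟨a, ha⟩ : ∃ a, a = μ 0 := ⟨_, rfl⟩
  obtain ⟨b, hb⟩ : ∃ b, b = μ 1 := ⟨_, rfl⟩
  rw [← ha, ← hb] at hμ
  subst hμ
  simp only [MvPolynomial.coeff_add, MvPolynomial.coeff_monomial, eqi]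
  by_cases h : a + b = 3
  · have hb' : b = 3 - a := by omega
    have ha' : a ≤ 3 := by omega
    subst hb'
    interval_cases a <;> simp
  · rw [hH.coeff_eq_zero (by
      intro h'
      apply h
      rw [map_add, Finsupp.degree_single, Finsupp.degree_single] at h'
      exact h')]
    have h1 : ¬ (3 = a ∧ 0 = b) := by omega
    have h2 : ¬ (2 = a ∧ 1 = b) := by omega
    have h3 : ¬ (1 = a ∧ 2 = b) := by omega
    have h4 : ¬ (0 = a ∧ 3 = b) := by omega
    simp [h1, h2, h3, h4]

theorem transc (K : Type) [Field K] :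
    Transcendental K (algebraMap (PowerSeries K) (FractionRing (PowerSeries K)) PowerSeries.X) := by
  rw [transcendental_iff]
  intro p hp
  rw [Polynomial.aeval_algebraMap_apply] at hp
  have h1 : aeval (PowerSeries.X : PowerSeries K) p = 0 := by
    apply IsFractionRing.injective (PowerSeries K) (FractionRing (PowerSeries K))
    rw [hp, map_zero]
  have h2 : aeval (PowerSeries.X : PowerSeries K) p = (p : PowerSeries K) := by
    rw [← Polynomial.eval₂_C_X_eq_coe]
    rfl
  rw [h2] at h1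
  exact_mod_cast h1

end DDF

open DDF

theorem t_DDF : M_DDF := by
  intro hfx K _ F hF
  -- the form over the ring of the unknowns
  let R := MvPolynomial (Fin 4) K
  let ℓ : Fin 4 → MvPolynomial (Fin 2) R := ![MvPolynomial.X 0, MvPolynomial.X 1,
    MvPolynomial.C (MvPolynomial.X 0) * MvPolynomial.X 0 +
      MvPolynomial.C (MvPolynomial.X 1) * MvPolynomial.X 1,
    MvPolynomial.C (MvPolynomial.X 2) * MvPolynomial.X 0 +
      MvPolynomial.C (MvPolynomial.X 3) * MvPolynomial.X 1]
  have hℓ : ∀ i, (ℓ i).IsHomogeneous 1 := by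
    have hc : ∀ (a : R) (i : Fin 2), (MvPolynomial.C a * MvPolynomial.X i :
        MvPolynomial (Fin 2) R).IsHomogeneous 1 := by
      intro a i
      have := (MvPolynomial.isHomogeneous_C (Fin 2) a).mul (MvPolynomial.isHomogeneous_X R i)
      simpa using this
    intro i
    fin_cases i
    · exact MvPolynomial.isHomogeneous_X R 0
    · exact MvPolynomial.isHomogeneous_X R 1
    · exact (hc _ _).add (hc _ _)
    · exact (hc _ _).add (hc _ _)
  have hG : (MvPolynomial.aeval ℓ F).IsHomogeneous 3 := by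
    have := hF.aeval ℓ hℓ
    simpa using this
  obtain ⟨Φ, hΦ⟩ := hom3 _ hG
  obtain ⟨v, hv⟩ := hfx K 4 (fun j => - Φ j)
  let Ω := FractionRing (PowerSeries K)
  let w : Fin 4 → Ω := fun j => algebraMap (PowerSeries K) Ω (v j)
  let t : Ω := algebraMap (PowerSeries K) Ω PowerSeries.X
  have hw : ∀ j, w j + t * MvPolynomial.aeval w (Φ j) = 0 := by
    intro j
    have h1 : MvPolynomial.aeval w (Φ j) =
        algebraMap (PowerSeries K) Ω (MvPolynomial.aeval v (Φ j)) := by
      rw [← MvPolynomial.aeval_algebraMap_apply]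
      rfl
    have h2 := congrArg (algebraMap (PowerSeries K) Ω) (hv j)
    rw [map_mul, map_neg, map_neg] at h2
    rw [h1]
    show algebraMap (PowerSeries K) Ω (v j) + t * _ = 0
    rw [h2]
    ring
  refine ⟨Ω, inferInstance, inferInstance, t, transc K, ![1, 0, w 0, w 2], ![0, 1, w 1, w 3],
    ?_, ?_⟩
  · rw [LinearIndependent.pair_iff]
    intro a b hab
    have h0 := congrFun hab 0
    have h1 := congrFun hab 1
    simp at h0 h1
    exact ⟨h0, h1⟩
  · -- the value of `F`
    let φ : R →ₐ[K] Ω := MvPolynomial.aeval w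
    have hval : MvPolynomial.aeval (fun i => MvPolynomial.C ((![1, 0, w 0, w 2] : Fin 4 → Ω) i) *
        MvPolynomial.X 0 + MvPolynomial.C ((![0, 1, w 1, w 3] : Fin 4 → Ω) i) *
        MvPolynomial.X 1 : Fin 4 → MvPolynomial (Fin 2) Ω) (MvPolynomial.map (algebraMap K Ω) F) =
        MvPolynomial.map φ.toRingHom (MvPolynomial.aeval ℓ F) := by
      have hcomp : ((MvPolynomial.aeval (fun i => MvPolynomial.C ((![1, 0, w 0, w 2] :
          Fin 4 → Ω) i) * MvPolynomial.X 0 + MvPolynomial.C ((![0, 1, w 1, w 3] : Fin 4 → Ω) i) *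
          MvPolynomial.X 1 : Fin 4 → MvPolynomial (Fin 2) Ω)).toRingHom.comp
          (MvPolynomial.map (algebraMap K Ω))) =
          (MvPolynomial.map φ.toRingHom).comp
            (MvPolynomial.aeval ℓ : MvPolynomial (Fin 4) K →ₐ[K] _).toRingHom := by
        apply MvPolynomial.ringHom_ext
        · intro r
          simp only [RingHom.comp_apply, MvPolynomial.map_C, AlgHom.toRingHom_eq_coe,
            RingHom.coe_coe, MvPolynomial.aeval_C]
          have : (algebraMap K (MvPolynomial (Fin 2) R)) r =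
              MvPolynomial.C (algebraMap K R r) := rfl
          rw [this, MvPolynomial.map_C]
          congr 1
          exact (φ.commutes r).symm
        · intro i
          have hφ : ∀ j, φ (MvPolynomial.X j) = w j := fun j => MvPolynomial.aeval_X _ _
          fin_cases i <;>
            simp [ℓ, hφ]
      exact RingHom.congr_fun hcomp F
    have e : MvPolynomial.map φ.toRingHom (MvPolynomial.aeval ℓ F) =
        MvPolynomial.C (φ (Φ 0)) * MvPolynomial.X 0 ^ 3 * MvPolynomial.X 1 ^ 0 +
        MvPolynomial.C (φ (Φ 1)) * MvPolynomial.X 0 ^ 2 * MvPolynomial.X 1 ^ 1 +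
        MvPolynomial.C (φ (Φ 2)) * MvPolynomial.X 0 ^ 1 * MvPolynomial.X 1 ^ 2 +
        MvPolynomial.C (φ (Φ 3)) * MvPolynomial.X 0 ^ 0 * MvPolynomial.X 1 ^ 3 := by
      rw [hΦ]
      simp only [map_add, map_mul, map_pow, MvPolynomial.map_C, MvPolynomial.map_X]
      rfl
    rw [map_add, map_mul (MvPolynomial.aeval _) (MvPolynomial.C t), hval, e]
    have hC : ∀ j, (MvPolynomial.C (w j) : MvPolynomial (Fin 2) Ω) +
        MvPolynomial.C t * MvPolynomial.C (φ (Φ j)) = 0 := by
      intro j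
      rw [← MvPolynomial.C_mul, ← MvPolynomial.C_add, hw j, MvPolynomial.C_0]
    have h0 := hC 0
    have h1 := hC 1
    have h2 := hC 2
    have h3 := hC 3
    simp only [map_add, map_mul, map_pow, MvPolynomial.aeval_X, MvPolynomial.aeval_C,
      MvPolynomial.algebraMap_eq]
    simp
    linear_combination (MvPolynomial.X 0 ^ 3) * h0 + (MvPolynomial.X 0 ^ 2 * MvPolynomial.X 1) * h1 +
      (MvPolynomial.X 0 * MvPolynomial.X 1 ^ 2) * h2 + (MvPolynomial.X 1 ^ 3) * h3

end QCV
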