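import Pool.Agent.QCV.StD

/-!
# QCV, module DDS: etale descent
-/

set_option autoImplicit false

open CategoryTheory AlgebraicGeometry Polynomial

namespace QCV

open CUB

theorem t_DDS : M_DDS := by
  intro hE hC k K _ _ _ _ _ d n F hF hB
  obtain ⟨i1, h1, h2, h3, h4⟩ := hC k K n F
  obtain ⟨g⟩ := hE k (MvPolynomial (Fin n) k ⧸ Ideal.span (Set.range fun _ : Fin 1 => F))
    (MvPolynomial (Fin n) K ⧸
        Ideal.span (Set.range fun _ : Fin 1 => MvPolynomial.map (algebraMap k K) F)) h4
  refine Built.etale g ?_ hB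
  have hp : (Ideal.span (Set.range fun _ : Fin 1 => F)).IsPrime := by
    rw [Set.range_const, Ideal.span_singleton_prime hF.ne_zero]
    exact hF.prime
  have hd : IsDomain (MvPolynomial (Fin n) k ⧸ Ideal.span (Set.range fun _ : Fin 1 => F)) :=
    (Ideal.Quotient.isDomain_iff_prime _).2 hp
  change IsIntegral (Spec (CommRingCat.of (MvPolynomial (Fin n) k ⧸
    Ideal.span (Set.range fun _ : Fin 1 => F))))
  have : IsDomain ↑(CommRingCat.of (MvPolynomial (Fin n) k ⧸
    Ideal.span (Set.range fun _ : Fin 1 => F))) := hd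
  infer_instance

end QCV
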