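import Mathlib
import Pool.Agent.QCV.StD1

/-!
# QCV, `M_DDT`: if the discriminant vanishes then there is a rational singular point
-/

set_option autoImplicit false

namespace QCV

namespace DDT

open MvPolynomial

/-- The inclusion of the first variables. -/
def io (a : ℕ) : Fin (a + 1) → Fin (a + 2 + 1) := fun i => ⟨i.1, by omega⟩

theorem io_inj (a : ℕ) : Function.Injective (io a) := by
  intro i j h
  have := congrArg Fin.val h
  exact Fin.ext this

/-- Evaluation of a form at a multiple. -/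
theorem eval_hom {σ K : Type} [Field K] {k : ℕ} {P : MvPolynomial σ K} (h : P.IsHomogeneous k)
    (z : K) (y : σ → K) : eval (fun i => z * y i) P = z ^ k * eval y P := by
  rw [eval_eq, eval_eq, Finset.mul_sum]
  refine Finset.sum_congr rfl fun d hd => ?_
  have hk := h.degree_eq_sum_deg_support hd
  simp only [mul_pow, Finset.prod_mul_distrib]
  rw [Finset.prod_pow_eq_pow_sum, ← hk]
  ring

/-- Two properties of linear forms. -/
theorem lin_form {σ K : Type} [Field K] [DecidableEq σ] {P : MvPolynomial σ K}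
    (h : P.IsHomogeneous 1) :
    (∀ y y' : σ → K, eval (y + y') P = eval y P + eval y' P) ∧
      ∀ (y : σ → K) (i : σ), eval y (pderiv i P) = eval (Pi.single i 1) P := by
  have h1 : P ∈ homogeneousSubmodule σ K 1 := h
  rw [homogeneousSubmodule_one_eq_span_X] at h1
  clear h
  induction h1 using Submodule.span_induction with
  | mem x hx =>
    obtain ⟨j, rfl⟩ := hx
    refine ⟨fun y y' => by simp, fun y i => ?_⟩
    rw [pderiv_X, eval_X]
    by_cases hij : j = i
    · subst hij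
      simp
    · simp [Pi.single_eq_of_ne hij]
  | zero => simp
  | add x x' _ _ ih ih' =>
    refine ⟨fun y y' => ?_, fun y i => ?_⟩
    · rw [map_add, map_add, map_add, ih.1, ih'.1]
      ring
    · rw [map_add, map_add, map_add, ih.2, ih'.2]
  | smul c x _ ih =>
    refine ⟨fun y y' => ?_, fun y i => ?_⟩
    · rw [smul_eval, smul_eval, smul_eval, ih.1]
      ring
    · rw [Derivation.map_smul, smul_eval, smul_eval, ih.2]

/-- The point `(z y, x₁, x₂)`. -/
def pt {K : Type} [Field K] {a : ℕ} (y : Fin (a + 1) → K) (z x₁ x₂ : K) : Fin (a + 2 + 1) → K :=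
  fun i => if h : i.1 < a + 1 then z * y ⟨i.1, h⟩ else if i.1 = a + 1 then x₁ else x₂

theorem pt_io {K : Type} [Field K] {a : ℕ} (y : Fin (a + 1) → K) (z x₁ x₂ : K) :
    pt y z x₁ x₂ ∘ io a = fun i => z * y i := by
  funext i
  have : (io a i).1 < a + 1 := i.2
  simp only [Function.comp, pt]
  rw [dif_pos this]
  rfl

theorem pt_one {K : Type} [Field K] {a : ℕ} (y : Fin (a + 1) → K) (z x₁ x₂ : K)
    (h : a + 1 < a + 2 + 1) : pt y z x₁ x₂ ⟨a + 1, h⟩ = x₁ := by
  unfold pt
  rw [dif_neg (by simp), if_pos rfl]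

theorem pt_two {K : Type} [Field K] {a : ℕ} (y : Fin (a + 1) → K) (z x₁ x₂ : K)
    (h : a + 2 < a + 2 + 1) : pt y z x₁ x₂ ⟨a + 2, h⟩ = x₂ := by
  unfold pt
  rw [dif_neg (by simp), if_neg (by simp)]

theorem pderiv_rename_zero {K : Type} [Field K] {a : ℕ} (P : MvPolynomial (Fin (a + 1)) K)
    (j : Fin (a + 2 + 1)) (hj : a + 1 ≤ j.1) : pderiv j (rename (io a) P) = 0 := by
  classical
  refine pderiv_eq_zero_of_notMem_vars fun h => ?_
  have h1 := vars_rename (io a) P h
  rw [Finset.mem_image] at h1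
  obtain ⟨i, -, hi⟩ := h1
  have := congrArg Fin.val hi
  have h2 : (io a i).1 = i.1 := rfl
  omega

/-- The criterion for a singular point. -/
theorem sing {K : Type} [Field K] {a : ℕ} (L : MvPolynomial (Fin (a + 2 + 1)) K)
    (A B₁ B₂ D₁ D₂ D₃ : MvPolynomial (Fin (a + 1)) K) (hA : A.IsHomogeneous 3)
    (hB₁ : B₁.IsHomogeneous 2) (hB₂ : B₂.IsHomogeneous 2) (hD₁ : D₁.IsHomogeneous 1)
    (hD₂ : D₂.IsHomogeneous 1) (hD₃ : D₃.IsHomogeneous 1)
    (hL : L = rename (io a) A + rename (io a) B₁ * X ⟨a + 1, by omega⟩ +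
      rename (io a) B₂ * X ⟨a + 2, by omega⟩ + rename (io a) D₁ * X ⟨a + 1, by omega⟩ ^ 2 +
      rename (io a) D₂ * (X ⟨a + 1, by omega⟩ * X ⟨a + 2, by omega⟩) +
      rename (io a) D₃ * X ⟨a + 2, by omega⟩ ^ 2)
    (y : Fin (a + 1) → K) (z x₁ x₂ : K)
    (h0 : z ^ 3 * eval y A + z ^ 2 * eval y B₁ * x₁ + z ^ 2 * eval y B₂ * x₂ +
      z * (eval y D₁ * x₁ ^ 2 + eval y D₂ * (x₁ * x₂) + eval y D₃ * x₂ ^ 2) = 0)
    (h1 : z ^ 2 * eval y B₁ + z * (2 * eval y D₁ * x₁ + eval y D₂ * x₂) = 0)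
    (h2 : z ^ 2 * eval y B₂ + z * (eval y D₂ * x₁ + 2 * eval y D₃ * x₂) = 0)
    (h3 : ∀ i, z ^ 2 * eval y (pderiv i A) + z * (eval y (pderiv i B₁) * x₁ +
      eval y (pderiv i B₂) * x₂) + (eval y (pderiv i D₁) * x₁ ^ 2 +
      eval y (pderiv i D₂) * (x₁ * x₂) + eval y (pderiv i D₃) * x₂ ^ 2) = 0)
    (hne : (∃ i, z * y i ≠ 0) ∨ x₁ ≠ 0 ∨ x₂ ≠ 0) :
    ∃ p : Fin (a + 2 + 1) → K, p ≠ 0 ∧ eval p L = 0 ∧ ∀ i, eval p (pderiv i L) = 0 := by
  have ev : ∀ {k : ℕ} {P : MvPolynomial (Fin (a + 1)) K}, P.IsHomogeneous k →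
      eval (pt y z x₁ x₂) (rename (io a) P) = z ^ k * eval y P := by
    intro k P hP
    rw [eval_rename, pt_io, eval_hom hP]
  have lt1 : a + 1 < a + 2 + 1 := by omega
  have lt2 : a + 2 < a + 2 + 1 := by omega
  refine ⟨pt y z x₁ x₂, ?_, ?_, ?_⟩
  · intro hp
    rcases hne with ⟨i, hi⟩ | hx | hx
    · refine hi ?_
      have := congrFun (pt_io y z x₁ x₂) i
      rw [← this]
      simp only [Function.comp, hp, Pi.zero_apply]
    · refine hx ?_
      rw [← pt_one y z x₁ x₂ (by omega), hp, Pi.zero_apply]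
    · refine hx ?_
      rw [← pt_two y z x₁ x₂ (by omega), hp, Pi.zero_apply]
  · rw [hL]
    simp only [map_add, map_mul, map_pow, eval_X, pt_one, pt_two, ev hA, ev hB₁, ev hB₂, ev hD₁,
      ev hD₂, ev hD₃]
    linear_combination h0
  · intro i
    rcases Nat.lt_or_ge i.1 (a + 1) with hi | hi
    · obtain ⟨j, rfl⟩ : ∃ j, i = io a j := ⟨⟨i.1, hi⟩, Fin.ext rfl⟩
      have n1 : (⟨a + 1, by omega⟩ : Fin (a + 2 + 1)) ≠ io a j := by
        intro h
        have := congrArg Fin.val h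
        have h4 : (io a j).1 = j.1 := rfl
        have h5 := j.2
        simp only [h4] at this
        omega
      have n2 : (⟨a + 2, by omega⟩ : Fin (a + 2 + 1)) ≠ io a j := by
        intro h
        have := congrArg Fin.val h
        have h4 : (io a j).1 = j.1 := rfl
        have h5 := j.2
        simp only [h4] at this
        omega
      have h4 := h3 j
      rw [hL]
      simp only [map_add, pderiv_mul, pderiv_pow, pderiv_X_of_ne n1, pderiv_X_of_ne n2,
        pderiv_rename (io_inj a), mul_zero, zero_mul, add_zero, map_mul, map_pow, eval_X, pt_one,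
        pt_two, ev hA.pderiv, ev hB₁.pderiv, ev hB₂.pderiv, ev hD₁.pderiv, ev hD₂.pderiv,
        ev hD₃.pderiv]
      linear_combination h4
    · have r : ∀ P : MvPolynomial (Fin (a + 1)) K, pderiv i (rename (io a) P) = 0 :=
        fun P => pderiv_rename_zero P i hi
      have hi2 := i.2
      rcases (by omega : i.1 = a + 1 ∨ i.1 = a + 2) with h | h
      · have e1 : i = ⟨a + 1, lt1⟩ := Fin.ext h
        subst e1
        have n2 : (⟨a + 2, lt2⟩ : Fin (a + 2 + 1)) ≠ ⟨a + 1, lt1⟩ := by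
          intro h
          have := congrArg Fin.val h
          simp only at this
          omega
        rw [hL]
        simp only [map_add, pderiv_mul, pderiv_pow, pderiv_X_of_ne n2, pderiv_X_self, r, mul_zero,
          zero_mul, zero_add, add_zero, map_mul, map_pow, eval_X, pt_one, pt_two, ev hB₁, ev hB₂,
          ev hD₁, ev hD₂, ev hD₃, mul_one, map_one, map_natCast]
        linear_combination h1
      · have e1 : i = ⟨a + 2, lt2⟩ := Fin.ext h
        subst e1
        have n2 : (⟨a + 1, lt1⟩ : Fin (a + 2 + 1)) ≠ ⟨a + 2, lt2⟩ := by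
          intro h
          have := congrArg Fin.val h
          simp only at this
          omega
        rw [hL]
        simp only [map_add, pderiv_mul, pderiv_pow, pderiv_X_of_ne n2, pderiv_X_self, r, mul_zero,
          zero_mul, zero_add, add_zero, map_mul, map_pow, eval_X, pt_one, pt_two, ev hB₁, ev hB₂,
          ev hD₁, ev hD₂, ev hD₃, mul_one, map_one, map_natCast]
        linear_combination h2

end DDT

open MvPolynomial in
/-- **DDT**. -/
theorem t_DDT : M_DDT := by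
  intro hDEX K _ a G h2 hG hc hdet
  classical
  obtain ⟨A, B₁, B₂, D₁, D₂, D₃, hA, hB₁, hB₂, hD₁, hD₂, hD₃, hM, hC⟩ := hDEX K a G hG hc
  have hL := hC (rename (DDT.io a)) (fun i => by rw [rename_X]; rfl) _ _ rfl rfl
  -- the discriminant
  have hF : A * D₁ * D₃ + A * D₁ * D₃ + A * D₁ * D₃ + A * D₁ * D₃ - A * (D₂ * D₂) - B₁ * B₁ * D₃ +
      B₁ * B₂ * D₂ - D₁ * (B₂ * B₂) = 0 := by
    rw [hM, Matrix.det_fin_three] at hdet
    simp only [Matrix.of_apply, Matrix.cons_val', Matrix.cons_val_zero, Matrix.cons_val_one,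
      Matrix.cons_val, Matrix.empty_val', Matrix.cons_val_fin_one] at hdet
    have h4 : (2 : MvPolynomial (Fin (a + 1)) K) * (A * D₁ * D₃ + A * D₁ * D₃ + A * D₁ * D₃ +
        A * D₁ * D₃ - A * (D₂ * D₂) - B₁ * B₁ * D₃ + B₁ * B₂ * D₂ - D₁ * (B₂ * B₂)) = 0 := by
      linear_combination hdet
    have h5 : (2 : MvPolynomial (Fin (a + 1)) K) ≠ 0 := by
      intro h
      refine h2 ?_
      have h6 := congrArg (eval (0 : Fin (a + 1) → K)) h
      rwa [map_ofNat, map_zero] at h6
    exact (mul_eq_zero.1 h4).resolve_left h5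
  have eF : ∀ y : Fin (a + 1) → K, 4 * eval y A * eval y D₁ * eval y D₃ - eval y A * eval y D₂ ^ 2 -
      eval y B₁ ^ 2 * eval y D₃ + eval y B₁ * eval y B₂ * eval y D₂ - eval y D₁ * eval y B₂ ^ 2 = 0 := by
    intro y
    have h4 := congrArg (eval y) hF
    simp only [map_add, map_sub, map_mul, map_zero] at h4
    linear_combination h4
  have dF : ∀ (y : Fin (a + 1) → K) (i : Fin (a + 1)),
      (4 * eval y D₁ * eval y D₃ - eval y D₂ ^ 2) * eval y (pderiv i A) +
      (eval y B₂ * eval y D₂ - 2 * eval y B₁ * eval y D₃) * eval y (pderiv i B₁) +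
      (eval y B₁ * eval y D₂ - 2 * eval y D₁ * eval y B₂) * eval y (pderiv i B₂) +
      (4 * eval y A * eval y D₃ - eval y B₂ ^ 2) * eval y (pderiv i D₁) +
      (eval y B₁ * eval y B₂ - 2 * eval y A * eval y D₂) * eval y (pderiv i D₂) +
      (4 * eval y A * eval y D₁ - eval y B₁ ^ 2) * eval y (pderiv i D₃) = 0 := by
    intro y i
    have h4 := congrArg (fun P => eval y (pderiv i P)) hF
    simp only [map_add, map_sub, pderiv_mul, map_mul, map_zero] at h4
    linear_combination h4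
  -- the first case
  by_cases hadj : ∃ y : Fin (a + 1) → K, 4 * eval y D₁ * eval y D₃ - eval y D₂ ^ 2 ≠ 0 ∨
      4 * eval y A * eval y D₃ - eval y B₂ ^ 2 ≠ 0 ∨ 4 * eval y A * eval y D₁ - eval y B₁ ^ 2 ≠ 0
  · obtain ⟨y, hy⟩ := hadj
    have f := eF y
    have g := dF y
    rcases hy with hy | hy | hy
    · refine DDT.sing _ A B₁ B₂ D₁ D₂ D₃ hA hB₁ hB₂ hD₁ hD₂ hD₃ hL y
        (4 * eval y D₁ * eval y D₃ - eval y D₂ ^ 2)
        (eval y B₂ * eval y D₂ - 2 * eval y B₁ * eval y D₃)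
        (eval y B₁ * eval y D₂ - 2 * eval y D₁ * eval y B₂) ?_ ?_ ?_ ?_ ?_
      · linear_combination (4 * eval y D₁ * eval y D₃ - eval y D₂ ^ 2) ^ 2 * f
      · ring
      · ring
      · intro i
        linear_combination (4 * eval y D₁ * eval y D₃ - eval y D₂ ^ 2) * g i -
          (4 * eval y D₃ * eval y (pderiv i D₁) - 2 * eval y D₂ * eval y (pderiv i D₂) +
            4 * eval y D₁ * eval y (pderiv i D₃)) * f
      · left
        by_contra hcon
        push Not at hcon
        refine hy ?_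
        have h4 : y = fun i => (0 : K) * y i := by
          funext i
          rw [zero_mul]
          exact (mul_eq_zero.1 (hcon i)).resolve_left hy
        have h5 : eval y D₁ = 0 := by
          rw [h4, DDT.eval_hom hD₁]
          ring
        have h6 : eval y D₂ = 0 := by
          rw [h4, DDT.eval_hom hD₂]
          ring
        rw [h5, h6]
        ring
    · refine DDT.sing _ A B₁ B₂ D₁ D₂ D₃ hA hB₁ hB₂ hD₁ hD₂ hD₃ hL y
        (eval y B₂ * eval y D₂ - 2 * eval y B₁ * eval y D₃)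
        (4 * eval y A * eval y D₃ - eval y B₂ ^ 2)
        (eval y B₁ * eval y B₂ - 2 * eval y A * eval y D₂) ?_ ?_ ?_ ?_ (Or.inr (Or.inl hy))
      · linear_combination (eval y B₂ * eval y D₂ - 2 * eval y B₁ * eval y D₃) *
          (4 * eval y A * eval y D₃ - eval y B₂ ^ 2) * f
      · linear_combination 2 * (eval y B₂ * eval y D₂ - 2 * eval y B₁ * eval y D₃) * f
      · ring
      · intro i
        linear_combination (4 * eval y A * eval y D₃ - eval y B₂ ^ 2) * g i +
          (-4 * eval y D₃ * eval y (pderiv i A) + 2 * eval y B₂ * eval y (pderiv i B₂) -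
            4 * eval y A * eval y (pderiv i D₃)) * f
    · refine DDT.sing _ A B₁ B₂ D₁ D₂ D₃ hA hB₁ hB₂ hD₁ hD₂ hD₃ hL y
        (eval y B₁ * eval y D₂ - 2 * eval y D₁ * eval y B₂)
        (eval y B₁ * eval y B₂ - 2 * eval y A * eval y D₂)
        (4 * eval y A * eval y D₁ - eval y B₁ ^ 2) ?_ ?_ ?_ ?_ (Or.inr (Or.inr hy))
      · linear_combination (eval y B₁ * eval y D₂ - 2 * eval y D₁ * eval y B₂) *
          (4 * eval y A * eval y D₁ - eval y B₁ ^ 2) * f
      · ring
      · linear_combination 2 * (eval y B₁ * eval y D₂ - 2 * eval y D₁ * eval y B₂) * f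
      · intro i
        linear_combination (4 * eval y A * eval y D₁ - eval y B₁ ^ 2) * g i +
          (-4 * eval y D₁ * eval y (pderiv i A) + 2 * eval y B₁ * eval y (pderiv i B₁) -
            4 * eval y A * eval y (pderiv i D₁)) * f
  -- the second case
  push Not at hadj
  have q : ∀ y : Fin (a + 1) → K, 4 * eval y D₁ * eval y D₃ - eval y D₂ ^ 2 = 0 := fun y => (hadj y).1
  obtain ⟨l₁, m₁⟩ := DDT.lin_form hD₁
  obtain ⟨l₂, m₂⟩ := DDT.lin_form hD₂
  obtain ⟨l₃, m₃⟩ := DDT.lin_form hD₃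
  have pol : ∀ y y₀ : Fin (a + 1) → K, 2 * eval y₀ D₁ * eval y D₃ + 2 * eval y D₁ * eval y₀ D₃ -
      eval y₀ D₂ * eval y D₂ = 0 := by
    intro y y₀
    have h4 := q (y₀ + y)
    rw [l₁, l₂, l₃] at h4
    have h5 : 2 * (2 * eval y₀ D₁ * eval y D₃ + 2 * eval y D₁ * eval y₀ D₃ -
        eval y₀ D₂ * eval y D₂) = 0 := by
      linear_combination h4 - q y - q y₀
    exact (mul_eq_zero.1 h5).resolve_left h2
  by_cases hD : ∃ y₀ : Fin (a + 1) → K, eval y₀ D₂ ≠ 0 ∨ 2 * eval y₀ D₁ ≠ 0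
  · obtain ⟨y₀, hy₀⟩ := hD
    refine DDT.sing _ A B₁ B₂ D₁ D₂ D₃ hA hB₁ hB₂ hD₁ hD₂ hD₃ hL y₀ 0 (eval y₀ D₂)
      (-(2 * eval y₀ D₁)) (by ring) (by ring) (by ring) ?_ ?_
    · intro i
      rw [m₁, m₂, m₃]
      linear_combination 2 * eval y₀ D₁ * pol (Pi.single i 1) y₀ -
        eval (Pi.single i 1) D₁ * q y₀
    · rcases hy₀ with h | h
      · exact Or.inr (Or.inl h)
      · exact Or.inr (Or.inr (neg_ne_zero.2 h))
  · push Not at hD
    refine DDT.sing _ A B₁ B₂ D₁ D₂ D₃ hA hB₁ hB₂ hD₁ hD₂ hD₃ hL 0 0 1 0 (by ring) (by ring)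
      (by ring) ?_ (Or.inr (Or.inl one_ne_zero))
    intro i
    have h4 : eval (Pi.single i 1) D₁ = 0 :=
      (mul_eq_zero.1 (hD (Pi.single i 1)).2).resolve_left h2
    rw [m₁, h4]
    ring

end QCV
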