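import Pool.Agent.QCV.StD1

/-!
# QCV, DEX: the explicit form of a quadratic form in three variables (helper29)
-/

set_option autoImplicit false

open MvPolynomial

namespace QCV

namespace DEX

/-- the exponent `(i, j, k)` -/
noncomputable def ex (i j k : ℕ) : Fin (2 + 1) →₀ ℕ := Finsupp.equivFunOnFinite.symm ![i, j, k]

lemma ex_0 (i j k : ℕ) : ex i j k 0 = i := rfl

lemma ex_1 (i j k : ℕ) : ex i j k 1 = j := rfl

lemma ex_2 (i j k : ℕ) : ex i j k 2 = k := rfl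

lemma ex_eta (μ : Fin (2 + 1) →₀ ℕ) : ex (μ 0) (μ 1) (μ 2) = μ := by
  ext i
  fin_cases i <;> rfl

lemma ex_inj (i j k i' j' k' : ℕ) : ex i j k = ex i' j' k' ↔ i = i' ∧ j = j' ∧ k = k' := by
  constructor
  · intro h
    exact ⟨DFunLike.congr_fun h 0, DFunLike.congr_fun h 1, DFunLike.congr_fun h 2⟩
  · rintro ⟨rfl, rfl, rfl⟩
    rfl

lemma ex_degree (i j k : ℕ) : (ex i j k).degree = i + j + k := by
  rw [Finsupp.degree_eq_sum, Fin.sum_univ_three]
  rfl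

lemma decomp {R : Type} [CommRing R] (G : MvPolynomial (Fin (2 + 1)) R) (hG : G.IsHomogeneous 2) :
    G = monomial (ex 2 0 0) (coeff (ex 2 0 0) G) + monomial (ex 1 1 0) (coeff (ex 1 1 0) G) +
      monomial (ex 1 0 1) (coeff (ex 1 0 1) G) + monomial (ex 0 2 0) (coeff (ex 0 2 0) G) +
      monomial (ex 0 1 1) (coeff (ex 0 1 1) G) + monomial (ex 0 0 2) (coeff (ex 0 0 2) G) := by
  classical
  ext μ
  obtain ⟨i, j, k, rfl⟩ : ∃ i j k, μ = ex i j k := ⟨μ 0, μ 1, μ 2, (ex_eta μ).symm⟩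
  simp only [coeff_add, coeff_monomial, ex_inj]
  by_cases h : i + j + k = 2
  · have hi : i ≤ 2 := by omega
    have hj : j ≤ 2 := by omega
    have hk : k ≤ 2 := by omega
    interval_cases i <;> interval_cases j <;> interval_cases k <;> first
      | (exfalso; omega)
      | simp
  · have h0 : coeff (ex i j k) G = 0 := by
      apply hG.coeff_eq_zero
      rw [ex_degree]
      exact h
    rw [h0, if_neg (by omega), if_neg (by omega), if_neg (by omega), if_neg (by omega),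
      if_neg (by omega), if_neg (by omega)]
    simp

end DEX

open DEX in
theorem t_DEX : S_DEX := by
  intro K _ a G hG hc
  refine ⟨coeff (ex 2 0 0) G, coeff (ex 1 1 0) G, coeff (ex 1 0 1) G, coeff (ex 0 2 0) G,
    coeff (ex 0 1 1) G, coeff (ex 0 0 2) G, hc _, hc _, hc _, hc _, hc _, hc _, ?_, ?_⟩
  · have e00 : (0 : Fin (2 + 1) →₀ ℕ) + Finsupp.single 0 1 + Finsupp.single 0 1 = ex 2 0 0 := by
      ext x; fin_cases x <;> simp [ex]
    have e01 : (0 : Fin (2 + 1) →₀ ℕ) + Finsupp.single 0 1 + Finsupp.single 1 1 = ex 1 1 0 := by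
      ext x; fin_cases x <;> simp [ex]
    have e10 : (0 : Fin (2 + 1) →₀ ℕ) + Finsupp.single 1 1 + Finsupp.single 0 1 = ex 1 1 0 := by
      ext x; fin_cases x <;> simp [ex]
    have e02 : (0 : Fin (2 + 1) →₀ ℕ) + Finsupp.single 0 1 + Finsupp.single 2 1 = ex 1 0 1 := by
      ext x; fin_cases x <;> simp [ex]
    have e20 : (0 : Fin (2 + 1) →₀ ℕ) + Finsupp.single 2 1 + Finsupp.single 0 1 = ex 1 0 1 := by
      ext x; fin_cases x <;> simp [ex]
    have e11 : (0 : Fin (2 + 1) →₀ ℕ) + Finsupp.single 1 1 + Finsupp.single 1 1 = ex 0 2 0 := by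
      ext x; fin_cases x <;> simp [ex]
    have e12 : (0 : Fin (2 + 1) →₀ ℕ) + Finsupp.single 1 1 + Finsupp.single 2 1 = ex 0 1 1 := by
      ext x; fin_cases x <;> simp [ex]
    have e21 : (0 : Fin (2 + 1) →₀ ℕ) + Finsupp.single 2 1 + Finsupp.single 1 1 = ex 0 1 1 := by
      ext x; fin_cases x <;> simp [ex]
    have e22 : (0 : Fin (2 + 1) →₀ ℕ) + Finsupp.single 2 1 + Finsupp.single 2 1 = ex 0 0 2 := by
      ext x; fin_cases x <;> simp [ex]
    have h2 : ∀ x : MvPolynomial (Fin (a + 1)) K, x * (1 + 1) = 2 * x := fun x => by ring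
    ext1 i j
    unfold lgram
    simp only [coeff_pderiv]
    fin_cases i <;> fin_cases j
    · show coeff ((0 : Fin (2 + 1) →₀ ℕ) + Finsupp.single 0 1 + Finsupp.single 0 1) G *
        (((0 + Finsupp.single 0 1 : Fin (2 + 1) →₀ ℕ) 0 : ℕ) + 1) *
        (((0 : Fin (2 + 1) →₀ ℕ) 0 : ℕ) + 1) = 2 * coeff (ex 2 0 0) G
      rw [e00]
      simp [h2]
    · show coeff ((0 : Fin (2 + 1) →₀ ℕ) + Finsupp.single 0 1 + Finsupp.single 1 1) G *
        (((0 + Finsupp.single 0 1 : Fin (2 + 1) →₀ ℕ) 1 : ℕ) + 1) *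
        (((0 : Fin (2 + 1) →₀ ℕ) 0 : ℕ) + 1) = coeff (ex 1 1 0) G
      rw [e01]
      simp
    · show coeff ((0 : Fin (2 + 1) →₀ ℕ) + Finsupp.single 0 1 + Finsupp.single 2 1) G *
        (((0 + Finsupp.single 0 1 : Fin (2 + 1) →₀ ℕ) 2 : ℕ) + 1) *
        (((0 : Fin (2 + 1) →₀ ℕ) 0 : ℕ) + 1) = coeff (ex 1 0 1) G
      rw [e02]
      simp
    · show coeff ((0 : Fin (2 + 1) →₀ ℕ) + Finsupp.single 1 1 + Finsupp.single 0 1) G *
        (((0 + Finsupp.single 1 1 : Fin (2 + 1) →₀ ℕ) 0 : ℕ) + 1) *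
        (((0 : Fin (2 + 1) →₀ ℕ) 1 : ℕ) + 1) = coeff (ex 1 1 0) G
      rw [e10]
      simp
    · show coeff ((0 : Fin (2 + 1) →₀ ℕ) + Finsupp.single 1 1 + Finsupp.single 1 1) G *
        (((0 + Finsupp.single 1 1 : Fin (2 + 1) →₀ ℕ) 1 : ℕ) + 1) *
        (((0 : Fin (2 + 1) →₀ ℕ) 1 : ℕ) + 1) = 2 * coeff (ex 0 2 0) G
      rw [e11]
      simp [h2]
    · show coeff ((0 : Fin (2 + 1) →₀ ℕ) + Finsupp.single 1 1 + Finsupp.single 2 1) G *
        (((0 + Finsupp.single 1 1 : Fin (2 + 1) →₀ ℕ) 2 : ℕ) + 1) *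
        (((0 : Fin (2 + 1) →₀ ℕ) 1 : ℕ) + 1) = coeff (ex 0 1 1) G
      rw [e12]
      simp
    · show coeff ((0 : Fin (2 + 1) →₀ ℕ) + Finsupp.single 2 1 + Finsupp.single 0 1) G *
        (((0 + Finsupp.single 2 1 : Fin (2 + 1) →₀ ℕ) 0 : ℕ) + 1) *
        (((0 : Fin (2 + 1) →₀ ℕ) 2 : ℕ) + 1) = coeff (ex 1 0 1) G
      rw [e20]
      simp
    · show coeff ((0 : Fin (2 + 1) →₀ ℕ) + Finsupp.single 2 1 + Finsupp.single 1 1) G *
        (((0 + Finsupp.single 2 1 : Fin (2 + 1) →₀ ℕ) 1 : ℕ) + 1) *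
        (((0 : Fin (2 + 1) →₀ ℕ) 2 : ℕ) + 1) = coeff (ex 0 1 1) G
      rw [e21]
      simp
    · show coeff ((0 : Fin (2 + 1) →₀ ℕ) + Finsupp.single 2 1 + Finsupp.single 2 1) G *
        (((0 + Finsupp.single 2 1 : Fin (2 + 1) →₀ ℕ) 2 : ℕ) + 1) *
        (((0 : Fin (2 + 1) →₀ ℕ) 2 : ℕ) + 1) = 2 * coeff (ex 0 0 2) G
      rw [e22]
      simp [h2]
  · intro ρ hρ x₁ x₂ h1 h2
    have hr : ρ = MvPolynomial.rename
        (fun i : Fin (a + 1) => (⟨i.1, by omega⟩ : Fin (a + 2 + 1))) := by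
      apply MvPolynomial.algHom_ext
      intro i
      rw [hρ, MvPolynomial.rename_X]
    have hev : ∀ (i j k : ℕ) (c : MvPolynomial (Fin (a + 1)) K),
        lcub (s := 2) (monomial (ex i j k) c) = ρ c * (x₁ ^ j * x₂ ^ k) := by
      intro i j k c
      unfold lcub
      rw [eval₂_monomial, Finsupp.prod_fintype _ _ (fun _ => pow_zero _), Fin.prod_univ_three,
        ex_0, ex_1, ex_2, hr, h1, h2]
      have e0 : (Fin.cons 1 (fun j : Fin 2 => MvPolynomial.X ⟨a + 1 + j.1, by omega⟩) :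
          Fin (2 + 1) → MvPolynomial (Fin (a + 2 + 1)) K) 0 = 1 := rfl
      have e1 : (Fin.cons 1 (fun j : Fin 2 => MvPolynomial.X ⟨a + 1 + j.1, by omega⟩) :
          Fin (2 + 1) → MvPolynomial (Fin (a + 2 + 1)) K) 1 = MvPolynomial.X ⟨a + 1, by omega⟩ := rfl
      have e2 : (Fin.cons 1 (fun j : Fin 2 => MvPolynomial.X ⟨a + 1 + j.1, by omega⟩) :
          Fin (2 + 1) → MvPolynomial (Fin (a + 2 + 1)) K) 2 = MvPolynomial.X ⟨a + 2, by omega⟩ := rfl
      rw [e0, e1, e2, one_pow, one_mul]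
      rfl
    have hadd : ∀ f g : MvPolynomial (Fin (2 + 1)) (MvPolynomial (Fin (a + 1)) K),
        lcub (s := 2) (f + g) = lcub f + lcub g := by
      intro f g
      unfold lcub
      rw [eval₂_add]
    conv_lhs => rw [decomp G hG]
    simp only [hadd, hev]
    ring

end QCV
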