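import Pool.Agent.QCV.StD1

/-!
# QCV, module DFC: a polynomial of degree at most three is zero, irreducible or a product
-/

set_option autoImplicit false

namespace QCV

theorem t_DFC : S_DFC := by
  intro K _ n F hF
  by_cases h0 : F = 0
  · exact Or.inl h0
  refine Or.inr ?_
  by_cases hirr : Irreducible F
  · exact Or.inl hirr
  refine Or.inr ?_
  by_cases hu : IsUnit F
  · refine ⟨F, 1, ?_, ?_, (mul_one F).symm⟩
    · obtain ⟨c, -, hc⟩ := MvPolynomial.isUnit_iff_eq_C_of_isReduced.1 hu
      rw [hc, MvPolynomial.totalDegree_C]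
      exact Nat.zero_le _
    · rw [MvPolynomial.totalDegree_one]
      exact Nat.zero_le _
  · rw [irreducible_iff] at hirr
    push Not at hirr
    obtain ⟨g, h, hgh, hg, hh⟩ := hirr hu
    have hg0 : g ≠ 0 := fun e => h0 (by rw [hgh, e, zero_mul])
    have hh0 : h ≠ 0 := fun e => h0 (by rw [hgh, e, mul_zero])
    have hpos : ∀ f : MvPolynomial (Fin n) K, f ≠ 0 → ¬ IsUnit f → 1 ≤ f.totalDegree := by
      intro f hf hfu
      by_contra hc
      have hd : f.totalDegree = 0 := by omega
      rw [MvPolynomial.totalDegree_eq_zero_iff_eq_C] at hd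
      apply hfu
      rw [hd]
      refine IsUnit.map MvPolynomial.C (isUnit_iff_ne_zero.2 fun hz => hf ?_)
      rw [hd, hz, MvPolynomial.C_0]
    have hdeg := MvPolynomial.totalDegree_mul_of_isDomain hg0 hh0
    rw [← hgh] at hdeg
    have h1 := hpos g hg0 hg
    have h2 := hpos h hh0 hh
    rcases Nat.lt_or_ge g.totalDegree 2 with h3 | h3
    · exact ⟨g, h, by omega, by omega, hgh⟩
    · exact ⟨h, g, by omega, by omega, by rw [hgh, mul_comm]⟩

end QCV
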