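import Pool.Agent.QCV.StD

/-!
# Module DFE: finite etale homomorphisms
-/

set_option autoImplicit false

open CategoryTheory AlgebraicGeometry Polynomial

namespace QCV

open CUB

theorem t_DFE : S_DFE := by
  intro k A B _ _ _ _ _ _ _ _ _ _ _ hinj
  refine ⟨⟨spm (IsScalarTower.toAlgHom k A B), spm_comm _, ?_, ?_, ?_⟩⟩
  · change IsFinite (Spec.map (CommRingCat.ofHom (IsScalarTower.toAlgHom k A B).toRingHom))
    rw [IsFinite.SpecMap_iff]
    change (algebraMap A B).Finite
    exact RingHom.finite_algebraMap.2 inferInstance
  · change Etale (Spec.map (CommRingCat.ofHom (IsScalarTower.toAlgHom k A B).toRingHom))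
    rw [HasRingHomProperty.Spec_iff (P := @Etale)]
    change (algebraMap A B).Etale
    exact RingHom.etale_algebraMap.2 inferInstance
  · refine ⟨?_⟩
    change Function.Surjective (PrimeSpectrum.comap (algebraMap A B))
    exact (algebraMap_isIntegral_iff.2 inferInstance).comap_surjective hinj

end QCV
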