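import Mathlib
import Pool.Agent.QCV.StD1

/-!
# QCV, DFX: a fixed point in the ring of power series
-/

set_option autoImplicit false

namespace QCV

theorem dfx_congr {K : Type} [Field K] {m : ℕ} (a : PowerSeries K) (u u' : Fin m → PowerSeries K)
    (h : ∀ j, a ∣ u j - u' j) (p : MvPolynomial (Fin m) K) :
    a ∣ MvPolynomial.aeval u p - MvPolynomial.aeval u' p := by
  induction p using MvPolynomial.induction_on with
  | C c => rw [MvPolynomial.aeval_C, MvPolynomial.aeval_C, sub_self]; exact dvd_zero _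
  | add p q hp hq =>
    rw [map_add, map_add, add_sub_add_comm]
    exact dvd_add hp hq
  | mul_X p j hp =>
    rw [map_mul, map_mul, MvPolynomial.aeval_X, MvPolynomial.aeval_X]
    have e : MvPolynomial.aeval u p * u j - MvPolynomial.aeval u' p * u' j =
        (MvPolynomial.aeval u p - MvPolynomial.aeval u' p) * u j +
          MvPolynomial.aeval u' p * (u j - u' j) := by ring
    rw [e]
    exact dvd_add (hp.mul_right _) ((h j).mul_left _)

/-- The approximations. -/
noncomputable def dfx_seq {K : Type} [Field K] {m : ℕ} (Φ : Fin m → MvPolynomial (Fin m) K) :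
    ℕ → Fin m → PowerSeries K
  | 0 => 0
  | n + 1 => fun i => PowerSeries.X * MvPolynomial.aeval (dfx_seq Φ n) (Φ i)

theorem dfx_step {K : Type} [Field K] {m : ℕ} (Φ : Fin m → MvPolynomial (Fin m) K) (n : ℕ) :
    ∀ i, (PowerSeries.X : PowerSeries K) ^ (n + 1) ∣ dfx_seq Φ (n + 1) i - dfx_seq Φ n i := by
  induction n with
  | zero =>
    intro i
    rw [zero_add, pow_one]
    change _ ∣ PowerSeries.X * MvPolynomial.aeval (dfx_seq Φ 0) (Φ i) - 0
    rw [sub_zero]
    exact dvd_mul_right _ _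
  | succ n ih =>
    intro i
    change _ ∣ PowerSeries.X * MvPolynomial.aeval (dfx_seq Φ (n + 1)) (Φ i) -
      PowerSeries.X * MvPolynomial.aeval (dfx_seq Φ n) (Φ i)
    rw [← mul_sub, pow_succ' _ (n + 1)]
    exact mul_dvd_mul_left _ (dfx_congr _ _ _ ih _)

theorem dfx_coeff {K : Type} [Field K] {m : ℕ} (Φ : Fin m → MvPolynomial (Fin m) K) (i : Fin m)
    (k n : ℕ) (h : k ≤ n) :
    PowerSeries.coeff k (dfx_seq Φ (n + 1) i) = PowerSeries.coeff k (dfx_seq Φ (k + 1) i) := by
  induction n, h using Nat.le_induction with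
  | base => rfl
  | succ n hn ih =>
    have h1 := PowerSeries.X_pow_dvd_iff.mp (dfx_step Φ (n + 1) i) k (by omega)
    rw [map_sub, sub_eq_zero] at h1
    rw [h1, ih]

theorem t_DFX : S_DFX := by
  intro K _ m Φ
  let v : Fin m → PowerSeries K := fun i =>
    PowerSeries.mk fun k => PowerSeries.coeff k (dfx_seq Φ (k + 1) i)
  have hv : ∀ n i, (PowerSeries.X : PowerSeries K) ^ n ∣ v i - dfx_seq Φ n i := by
    intro n i
    rw [PowerSeries.X_pow_dvd_iff]
    intro k hk
    obtain ⟨n, rfl⟩ : ∃ j, n = j + 1 := ⟨n - 1, by omega⟩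
    rw [map_sub, dfx_coeff Φ i k n (by omega), PowerSeries.coeff_mk, sub_self]
  refine ⟨v, fun i => ?_⟩
  ext k
  have h1 : (PowerSeries.X : PowerSeries K) ^ (k + 1) ∣
      PowerSeries.X * MvPolynomial.aeval v (Φ i) -
        PowerSeries.X * MvPolynomial.aeval (dfx_seq Φ k) (Φ i) := by
    rw [← mul_sub, pow_succ']
    exact mul_dvd_mul_left _ (dfx_congr _ _ _ (hv k) _)
  have h2 := PowerSeries.X_pow_dvd_iff.mp h1 k (by omega)
  rw [map_sub, sub_eq_zero] at h2
  rw [h2]
  exact PowerSeries.coeff_mk _ _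

end QCV
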