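import Pool.Agent.QCV.StD

/-!
# QCV, block D: dimension of `A` from that of `A[X, 1 / X]`
-/

set_option autoImplicit false

open CategoryTheory AlgebraicGeometry Polynomial

namespace QCV

open CUB

lemma X_notMem_pX {A : Type} [CommRing A] (p : PrimeSpectrum A) : (X : A[X]) ∉ (pX p).asIdeal := by
  intro h
  change (X : A[X]) ∈ p.asIdeal.map (C : A →+* A[X]) at h
  rw [Ideal.mem_map_C_iff] at h
  have h1 := h 1
  rw [coeff_X_one] at h1
  exact p.2.ne_top ((Ideal.eq_top_iff_one _).mpr h1)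

/-- DGM. -/
theorem t_DGM : S_DGM := by
  intro k A _ _ _ _ d h p
  have hu := isLocalization_awayHom (k := k) (X : A[X])
  have hr := range_spm_away (awayHom k (X : A[X])) X hu
  have hm : pX p ∈ Set.range (PrimeSpectrum.comap (awayHom k (X : A[X])).toRingHom) := by
    rw [hr]
    exact X_notMem_pX p
  obtain ⟨P, hP⟩ := hm
  have h1 : rdim k (pX p) ≤ ((d + 1 : ℕ) : Cardinal) := by
    rw [← hP, rdim_comap_opn (awayHom k (X : A[X])) (isOpenImmersion_spm _ _ hu) P]
    exact h P
  rw [rdim_pX] at h1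
  obtain ⟨n, hn⟩ := exists_rdim (k := k) p
  rw [hn] at h1 ⊢
  have h2 : n + 1 ≤ d + 1 := by exact_mod_cast h1
  exact_mod_cast (by omega : n ≤ d)

end QCV
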