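import Pool.Agent.QCV.StD1

/-!
# QCV, module DHG: homogenisation
-/

set_option autoImplicit false

open Polynomial

namespace QCV

theorem t_DHG : S_DHG := by
  intro R _ n m f hf
  refine ⟨∑ μ ∈ f.support, MvPolynomial.monomial (Finsupp.cons (m - μ.degree) μ)
    (MvPolynomial.coeff μ f), ?_, ?_⟩
  · refine MvPolynomial.IsHomogeneous.sum _ _ _ fun μ hμ => ?_
    apply MvPolynomial.isHomogeneous_monomial
    have h1 : μ.degree ≤ m := by
      refine le_trans ?_ hf
      have := MvPolynomial.le_totalDegree hμ
      simpa [Finsupp.degree_apply, Finsupp.sum] using this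
    rw [Finsupp.degree_eq_sum, Fin.sum_univ_succ]
    simp only [Finsupp.cons_zero, Finsupp.cons_succ]
    rw [← Finsupp.degree_eq_sum]
    omega
  · rw [map_sum]
    conv_rhs => rw [f.as_sum]
    refine Finset.sum_congr rfl fun μ _ => ?_
    rw [lsp, MvPolynomial.aeval_monomial, Finsupp.prod_fintype _ _ (fun i => pow_zero _),
      Fin.prod_univ_succ]
    simp only [Fin.cons_zero, Fin.cons_succ, Finsupp.cons_zero, Finsupp.cons_succ, map_one,
      one_pow, one_mul]
    rw [MvPolynomial.monomial_eq, Finsupp.prod_fintype _ _ (fun i => pow_zero _)]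
    rfl

end QCV
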