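import Pool.Agent.QCV.StD1

/-!
# QCV, module DHM: a nonzero form is not zero on the chart `x_0 = 1`
-/

set_option autoImplicit false

namespace QCV

namespace M_DHM

open MvPolynomial

theorem lsp_monomial {R : Type} [CommRing R] {n : ℕ} (d : Fin (n + 1) →₀ ℕ) (a : R) :
    lsp (1 : R) (monomial d a) = monomial (Finsupp.tail d) a := by
  unfold lsp
  rw [aeval_monomial, Finsupp.prod_fintype _ _ (by simp), Fin.prod_univ_succ]
  simp only [Fin.cons_zero, map_one, one_pow, one_mul, Fin.cons_succ]
  rw [monomial_eq (s := Finsupp.tail d), Finsupp.prod_fintype _ _ (by simp)]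
  rfl

theorem degree_tail {n : ℕ} (d : Fin (n + 1) →₀ ℕ) :
    d.degree = d 0 + (Finsupp.tail d).degree := by
  rw [Finsupp.degree_eq_sum, Finsupp.degree_eq_sum, Fin.sum_univ_succ]
  rfl

theorem tail_inj {n m : ℕ} {d e : Fin (n + 1) →₀ ℕ} (hd : d.degree = m) (he : e.degree = m)
    (h : Finsupp.tail d = Finsupp.tail e) : d = e := by
  have h0 : d 0 = e 0 := by
    have h1 := degree_tail d
    have h2 := degree_tail e
    rw [h] at h1
    omega
  rw [← Finsupp.cons_tail d, ← Finsupp.cons_tail e, h, h0]

end M_DHM

open MvPolynomial in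
theorem t_DHM : S_DHM := by
  intro R _ n m f hf h0
  have key : ∀ d ∈ f.support, coeff d f = 0 := by
    intro d hd
    have hdm : d.degree = m := by
      have := hf (mem_support_iff.1 hd)
      rw [← this]
      exact DFunLike.congr_fun (Finsupp.degree_eq_weight_one (R := ℕ)) d
    have h1 : coeff (Finsupp.tail d) (lsp (1 : R) f) = coeff d f := by
      conv_lhs => rw [f.as_sum]
      rw [map_sum, coeff_sum, Finset.sum_eq_single d]
      · rw [M_DHM.lsp_monomial, coeff_monomial, if_pos rfl]
      · intro e he hne
        rw [M_DHM.lsp_monomial, coeff_monomial, if_neg]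
        intro hte
        apply hne
        have hem : e.degree = m := by
          have := hf (mem_support_iff.1 he)
          rw [← this]
          exact DFunLike.congr_fun (Finsupp.degree_eq_weight_one (R := ℕ)) e
        exact M_DHM.tail_inj hem hdm hte
      · intro h
        exact absurd hd h
    rw [← h1, h0, coeff_zero]
  by_contra hne
  obtain ⟨d, hd⟩ := Finset.nonempty_of_ne_empty (fun h => hne (support_eq_empty.1 h))
  exact (mem_support_iff.1 hd) (key d hd)

end QCV
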