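import Mathlib
import Pool.Agent.QCV.StD1

/-!
# Module DLN: every cubic form in at least four variables vanishes on a line over a finite extension
-/

set_option autoImplicit false

namespace QCV

open Polynomial

/-- extension by zero -/
def dln_ext {L : Type} [Field L] (n : ℕ) (p : Fin 4 → L) : Fin n → L :=
  fun i => if h : i.1 < 4 then p ⟨i.1, h⟩ else 0

theorem dln_lift {K : Type} [Field K] (n : ℕ) (hn : 4 ≤ n) (F : MvPolynomial (Fin n) K)
    (L : Type) [Field L] [Algebra K L]
    (h : HasLine (MvPolynomial.aeval (fun i : Fin n =>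
      if h : i.1 < 4 then (MvPolynomial.X ⟨i.1, h⟩ : MvPolynomial (Fin 4) K) else 0) F) L) :
    HasLine F L := by
  obtain ⟨p, q, hpq, h0⟩ := h
  refine ⟨dln_ext n p, dln_ext n q, ?_, ?_⟩
  · apply LinearIndependent.of_comp (LinearMap.funLeft L L (Fin.castLE hn))
    have e : (LinearMap.funLeft L L (Fin.castLE hn)) ∘ ![dln_ext n p, dln_ext n q] = ![p, q] := by
      have e1 : ∀ r : Fin 4 → L, (LinearMap.funLeft L L (Fin.castLE hn)) (dln_ext n r) = r := by
        intro r
        funext i
        rw [LinearMap.funLeft_apply]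
        unfold dln_ext
        rw [dif_pos (show (Fin.castLE hn i).1 < 4 from i.2)]
        rfl
      funext j
      fin_cases j
      · exact e1 p
      · exact e1 q
    rw [e]
    exact hpq
  · rw [← h0]
    have e : (MvPolynomial.aeval (fun i : Fin n => MvPolynomial.C (dln_ext n p i) *
        MvPolynomial.X 0 + MvPolynomial.C (dln_ext n q i) * MvPolynomial.X 1 :
        Fin n → MvPolynomial (Fin 2) L) : MvPolynomial (Fin n) K →ₐ[K] MvPolynomial (Fin 2) L) =
        (MvPolynomial.aeval (fun i => MvPolynomial.C (p i) * MvPolynomial.X 0 +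
          MvPolynomial.C (q i) * MvPolynomial.X 1 : Fin 4 → MvPolynomial (Fin 2) L) :
          MvPolynomial (Fin 4) K →ₐ[K] MvPolynomial (Fin 2) L).comp
        (MvPolynomial.aeval (fun i : Fin n =>
          if h : i.1 < 4 then (MvPolynomial.X ⟨i.1, h⟩ : MvPolynomial (Fin 4) K) else 0)) := by
      apply MvPolynomial.algHom_ext
      intro i
      rw [AlgHom.comp_apply, MvPolynomial.aeval_X, MvPolynomial.aeval_X]
      unfold dln_ext
      by_cases hi : i.1 < 4
      · rw [dif_pos hi, dif_pos hi, dif_pos hi, MvPolynomial.aeval_X]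
      · rw [dif_neg hi, dif_neg hi, dif_neg hi, map_zero, map_zero, zero_mul, zero_mul, add_zero]
    exact DFunLike.congr_fun e F

theorem t_DLN : M_DLN := by
  intro hDDF hDVL hDTR K _ n F hn hF
  have hF' : (MvPolynomial.aeval (fun i : Fin n =>
      if h : i.1 < 4 then (MvPolynomial.X ⟨i.1, h⟩ : MvPolynomial (Fin 4) K) else 0)
      F).IsHomogeneous 3 := by
    have h1 := hF.aeval (R := K) (fun i : Fin n =>
      if h : i.1 < 4 then (MvPolynomial.X ⟨i.1, h⟩ : MvPolynomial (Fin 4) K) else 0) (n := 1)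
      (by
        intro i
        split_ifs with hi
        · exact MvPolynomial.isHomogeneous_X _ _
        · exact MvPolynomial.isHomogeneous_zero _ _ _)
    simpa using h1
  obtain ⟨Ω, i1, i2, t, ht, hline⟩ := hDDF K _ hF'
  let _ := i1
  let _ := i2
  obtain ⟨κ, j1, j2, hκ⟩ := hDVL K Ω 4 (MvPolynomial.X 2 * MvPolynomial.X 0 ^ 2 +
    MvPolynomial.X 3 * MvPolynomial.X 1 ^ 2) _ t ht (by
      simpa only [map_add, map_mul, map_pow, MvPolynomial.map_X] using hline)
  let _ := j1
  let _ := j2
  obtain ⟨K', l1, l2, hfin, hK'⟩ := hDTR K κ 4 _ hκ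
  let _ := l1
  let _ := l2
  exact ⟨K', l1, l2, hfin, dln_lift n hn F K' hK'⟩

end QCV
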