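import Pool.Agent.QCV.StD1

/-!
# QCV, module DNR: normal form of a cubic form with a rational line
-/

set_option autoImplicit false

open Polynomial

namespace QCV

namespace DNRx

/-- the places of the two variables of the line -/
def io (a : ℕ) : Fin 2 → Fin (a + 2 + 1) := ![⟨a + 1, by omega⟩, ⟨a + 2, by omega⟩]

theorem io_inj (a : ℕ) : Function.Injective (io a) := by
  intro i j h
  fin_cases i <;> fin_cases j <;> simp [io] at h ⊢

theorem io_range {a : ℕ} {j : Fin (a + 2 + 1)} (hj : ¬ j.1 ≤ a) : j ∈ Set.range (io a) := by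
  have h1 := j.2
  have h2 : j.1 = a + 1 ∨ j.1 = a + 2 := by omega
  rcases h2 with h | h
  · exact ⟨0, Fin.ext (by simp [io, h])⟩
  · exact ⟨1, Fin.ext (by simp [io, h])⟩

variable {K : Type} [Field K] {a : ℕ}

/-- restriction to the line -/
noncomputable def res (K : Type) [Field K] (a : ℕ) :
    MvPolynomial (Fin (a + 2 + 1)) K →ₐ[K] MvPolynomial (Fin 2) K :=
  MvPolynomial.killCompl (io_inj a)

theorem res_io (u : Fin 2) : res K a (MvPolynomial.X (io a u)) = MvPolynomial.X u := by
  have h := MvPolynomial.killCompl_rename_app (io_inj a) (MvPolynomial.X u : MvPolynomial (Fin 2) K)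
  rwa [MvPolynomial.rename_X] at h

theorem res_zero {j : Fin (a + 2 + 1)} (hj : j ∉ Set.range (io a)) :
    res K a (MvPolynomial.X j) = 0 := by
  unfold res MvPolynomial.killCompl
  rw [MvPolynomial.aeval_X, dif_neg hj]

theorem res_sum (c : Fin (a + 2 + 1) → K) :
    res K a (∑ j, MvPolynomial.C (c j) * MvPolynomial.X j) =
      MvPolynomial.C (c (io a 0)) * MvPolynomial.X 0 +
        MvPolynomial.C (c (io a 1)) * MvPolynomial.X 1 := by
  rw [map_sum, ← Fin.sum_univ_two (fun u : Fin 2 =>
    (MvPolynomial.C (c (io a u)) * MvPolynomial.X u : MvPolynomial (Fin 2) K))]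
  symm
  refine Fintype.sum_of_injective (io a) (io_inj a) _ _ (fun j hj => ?_) (fun u => ?_)
  · rw [map_mul, res_zero hj, mul_zero]
  · rw [map_mul, res_io]
    congr 1
    exact (MvPolynomial.algHom_C (res K a) _).symm

end DNRx

open DNRx in
theorem t_DNR : M_DNR := by
  intro hA hC K _ a F hF hL
  obtain ⟨p, q, hpq, h0⟩ := hL
  obtain ⟨M, e, hM, he⟩ := hA K (a + 2 + 1) 2 (io a) ![p, q] (io_inj a) hpq
  have hp : ∀ i, M i (io a 0) = p i := fun i => hM i 0
  have hq : ∀ i, M i (io a 1) = q i := fun i => hM i 1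
  -- the form in the new coordinates
  have heF : e F = MvPolynomial.aeval (fun i => e (MvPolynomial.X i)) F := by
    have h1 : (e : MvPolynomial (Fin (a + 2 + 1)) K →ₐ[K] MvPolynomial (Fin (a + 2 + 1)) K) =
        MvPolynomial.aeval (fun i => e (MvPolynomial.X i)) := by
      apply MvPolynomial.algHom_ext
      intro i
      rw [MvPolynomial.aeval_X]
      rfl
    exact DFunLike.congr_fun h1 F
  have hom : (e F).IsHomogeneous 3 := by
    rw [heF]
    have h1 := hF.aeval (n := 1) (fun i => e (MvPolynomial.X i)) (fun i => by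
      rw [he]
      refine MvPolynomial.IsHomogeneous.sum _ _ _ fun j _ => ?_
      have h2 := (MvPolynomial.isHomogeneous_C (Fin (a + 2 + 1)) (M i j)).mul
        (MvPolynomial.isHomogeneous_X K j)
      rwa [zero_add] at h2)
    rwa [one_mul] at h1
  have hres : res K a (e F) = 0 := by
    have h1 : (res K a).comp (e : MvPolynomial (Fin (a + 2 + 1)) K →ₐ[K]
        MvPolynomial (Fin (a + 2 + 1)) K) =
        MvPolynomial.aeval (fun i => MvPolynomial.C (p i) * MvPolynomial.X 0 +
          MvPolynomial.C (q i) * MvPolynomial.X 1 :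
            Fin (a + 2 + 1) → MvPolynomial (Fin 2) K) := by
      apply MvPolynomial.algHom_ext
      intro i
      rw [MvPolynomial.aeval_X, AlgHom.comp_apply]
      show res K a (e (MvPolynomial.X i)) = _
      rw [he, res_sum, hp, hq]
    have h2 := DFunLike.congr_fun h1 F
    rw [h0] at h2
    exact h2
  obtain ⟨G, hG1, hG2, hG3⟩ := hC K a 2 (e F) hom (by
    intro μ hμ
    have hs : (μ.support : Set (Fin (a + 2 + 1))) ⊆ Set.range (io a) := by
      intro j hj
      apply io_range
      intro hle
      have h1 := hμ j hle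
      exact (Finsupp.mem_support_iff.1 hj) h1
    rw [← Finsupp.mapDomain_comapDomain (io a) (io_inj a) μ hs,
      ← MvPolynomial.coeff_killCompl (io_inj a)]
    show MvPolynomial.coeff _ (res K a (e F)) = 0
    rw [hres, MvPolynomial.coeff_zero])
  exact ⟨G, e, hG1, hG2, hG3.symm⟩

end QCV
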