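import Pool.Agent.QCV.StD

/-!
# QCV, block D, module DRC: a product of two polynomials of degree at most one and two
-/

set_option autoImplicit false

open Polynomial

namespace QCV

open CUB

namespace DRC

/-- the equation `a * b` -/
lemma core {k : Type} [Field k]
    {P : ∀ (A : Type) [CommRing A] [Algebra k A] [Algebra.FiniteType k A], Prop}
    (hF : Cls0 k P) {S : Type} [CommRing S] [Algebra k S] [Algebra.FiniteType k S]
    (a b : S) {I Ja Jb Jab : Ideal S} (hI : I = Ideal.span {a * b}) (hJa : Ja = Ideal.span {a})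
    (hJb : Jb = Ideal.span {b}) (hJab : Jab = Ideal.span {a, b}) (hA : P (S ⧸ Ja))
    (hB : P (S ⧸ Jb)) (hAB : P (S ⧸ Jab)) : P (S ⧸ I) := by
  have hIa : Ja = I ⊔ Ideal.span {a} := by
    rw [hI, hJa]
    refine le_antisymm le_sup_right (sup_le ?_ le_rfl)
    rw [Ideal.span_singleton_le_span_singleton]
    exact dvd_mul_right a b
  have hIb : Jb = I ⊔ Ideal.span {b} := by
    rw [hI, hJb]
    refine le_antisymm le_sup_right (sup_le ?_ le_rfl)
    rw [Ideal.span_singleton_le_span_singleton]
    exact dvd_mul_left b a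
  have hIab : Jab = Jb ⊔ Ideal.span {a} := by
    rw [hJab, hJb, Ideal.span_insert, sup_comm]
  have hlea : I ≤ Ja := by
    rw [hIa]
    exact le_sup_left
  have hleb : I ≤ Jb := by
    rw [hIb]
    exact le_sup_left
  have hleab : Jb ≤ Jab := by
    rw [hIab]
    exact le_sup_left
  have h1 := hF.opn _ _ _ (NOE.strat_away (k := k) hleab a hIab) hB hAB
  refine hF.glue (Ideal.Quotient.mk I a) (Ideal.Quotient.factorₐ k hlea)
    ((awayHom k (Ideal.Quotient.mk Jb a)).comp (Ideal.Quotient.factorₐ k hleb)) ⟨?_, ?_, ?_⟩ hA h1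
  · exact Ideal.Quotient.factor_surjective hlea
  · exact NOE.ker_factor hlea a hIa
  · refine NOE.away_comp (Ideal.Quotient.factorₐ k hleb) _ _ (Ideal.Quotient.mk I b)
      (Ideal.Quotient.factor_surjective hleb) (NOE.ker_factor hleb b hIb) ?_
      (isLocalization_awayHom _)
    rw [← map_mul, hI]
    exact Ideal.Quotient.eq_zero_iff_mem.2 (Ideal.mem_span_singleton_self _)

end DRC

theorem t_DRC : S_DRC := by
  intro k _ P d hP R _ _ _ n l q hR hl hq
  have hQ : ∀ m, Qn k P d m := Asm.s_QUA k P d hP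
  have p1 : P (ER (fun _ : Fin 1 => l)) := hQ n R _ hR (fun _ => hl.trans (by norm_num))
  have p2 : P (ER (fun _ : Fin 1 => q)) := hQ n R _ hR (fun _ => hq)
  have p3 : P (ER ![l, q]) := Asm.s_TWQ k P d n hP (fun m _ => hQ m) R ![l, q] hR hl hq
  refine DRC.core hP.toCls0 l q ?_ ?_ ?_ ?_ p1 p2 p3
  · rw [Set.range_const]
  · rw [Set.range_const]
  · rw [Set.range_const]
  · rw [Matrix.range_cons, Matrix.range_cons, Matrix.range_empty, Set.union_empty,
      Set.singleton_union]

end QCV
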