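import Pool.Agent.QCV.StD

/-!
# QCV, module DRK: the rank is odd if the discriminant is not zero (helper38)
-/

set_option autoImplicit false

open Polynomial

namespace QCV

open CUB

namespace DRK

lemma gram_map {A B : Type} [CommRing A] [CommRing B] {n : ℕ} (φ : A →+* B)
    (f : MvPolynomial (Fin n) A) : gram (MvPolynomial.map φ f) = (gram f).map φ := by
  ext i j
  simp only [gram, Matrix.map_apply]
  rw [MvPolynomial.pderiv_map, MvPolynomial.pderiv_map, MvPolynomial.coeff_map]

lemma genHom_injective {K : Type} [Field K] (a : ℕ) (p : PrimeSpectrum K) :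
    Function.Injective (genHom a p) := by
  have hp := p.isPrime
  have h1 : Function.Injective (Ideal.Quotient.mk p.asIdeal) := RingHom.injective _
  unfold genHom
  rw [RingHom.coe_comp]
  exact (IsFractionRing.injective (MvPolynomial (Fin a) (K ⧸ p.asIdeal)) _).comp
    (MvPolynomial.map_injective _ h1)

lemma two_mul_hom {K σ : Type} [CommRing K] {f : MvPolynomial σ K} {n : ℕ}
    (h : f.IsHomogeneous n) : (2 * f).IsHomogeneous n := by
  rw [two_mul]
  exact h.add h

end DRK


theorem t_DRK : M_DRK := by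
  intro hDEX hDHM k K _ _ _ a G hG hc hdet p _
  have hp := p.isPrime
  obtain ⟨A, B₁, B₂, D₁, D₂, D₃, hA, hB₁, hB₂, hD₁, hD₂, hD₃, hgr, -⟩ := hDEX K a G hG hc
  have hhom : (gram G).det.IsHomogeneous 5 := by
    have h1 : gram G = !![2 * A, B₁, B₂; B₁, 2 * D₁, D₂; B₂, D₂, 2 * D₃] := hgr
    rw [h1, Matrix.det_fin_three]
    have e1 := DRK.two_mul_hom hA
    have e2 := DRK.two_mul_hom hD₁
    have e3 := DRK.two_mul_hom hD₃
    simp only [Matrix.of_apply, Matrix.cons_val', Matrix.cons_val_zero, Matrix.cons_val_one,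
      Matrix.cons_val, Matrix.cons_val_fin_one]
    exact ((((((e1.mul e2).mul e3).sub ((e1.mul hD₂).mul hD₂)).sub
      ((hB₁.mul hB₁).mul e3)).add ((hB₁.mul hD₂).mul hB₂)).add ((hB₂.mul hB₁).mul hD₂)).sub
      ((hB₂.mul e2).mul hB₂)
  have hne : (sp (1 : K)).toRingHom (gram G).det ≠ 0 := by
    intro h0
    exact hdet (hDHM K a 5 _ hhom h0)
  have hdet2 : ((gram (MvPolynomial.map (sp (1 : K)).toRingHom G)).map (genHom a p)).det ≠ 0 := by
    rw [DRK.gram_map]
    have h2 : (((gram G).map (sp (1 : K)).toRingHom).map (genHom a p)).det =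
        genHom a p ((sp (1 : K)).toRingHom (gram G).det) := by
      rw [RingHom.map_det, RingHom.map_det]
      rfl
    rw [h2]
    intro h0
    exact hne ((map_eq_zero_iff _ (DRK.genHom_injective a p)).1 h0)
  have hrank : ((gram (MvPolynomial.map (sp (1 : K)).toRingHom G)).map (genHom a p)).rank = 3 := by
    rw [Matrix.rank_of_isUnit _ ((Matrix.isUnit_iff_isUnit_det _).2 (isUnit_iff_ne_zero.2 hdet2))]
    simp
  rw [hrank]
  decide

end QCV
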