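import Pool.Agent.QCV.StD1

/-!
# QCV, module DSG: normal form of a cubic form at a singular point
-/

set_option autoImplicit false

open Polynomial

namespace QCV

namespace DSG

/-- the value of a form at `(1, 0, ..., 0)` is the coefficient of `x_0 ^ m` -/
theorem eval_e0 {K : Type} [Field K] {n m : ℕ} {G : MvPolynomial (Fin (n + 1)) K}
    (hG : G.IsHomogeneous m) :
    MvPolynomial.eval (Pi.single 0 1) G = MvPolynomial.coeff (Finsupp.single 0 m) G := by
  classical
  rw [MvPolynomial.eval_eq']
  rw [Finset.sum_eq_single (Finsupp.single (0 : Fin (n + 1)) m)]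
  · rw [Finset.prod_eq_one, mul_one]
    intro i _
    by_cases hi : i = 0
    · subst hi
      rw [Pi.single_eq_same, one_pow]
    · rw [Finsupp.single_eq_of_ne hi, pow_zero]
  · intro d hd hne
    have h1 : ∃ i, i ≠ 0 ∧ d i ≠ 0 := by
      by_contra hcon
      push Not at hcon
      apply hne
      have h2 : d = Finsupp.single 0 (d 0) := by
        ext i
        by_cases hi : i = 0
        · subst hi
          rw [Finsupp.single_eq_same]
        · rw [Finsupp.single_eq_of_ne hi, hcon i hi]
      have h3 := hG (MvPolynomial.mem_support_iff.1 hd)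
      rw [h2, Finsupp.weight_single] at h3
      rw [h2]
      congr 1
      simpa using h3
    obtain ⟨i, hi, hdi⟩ := h1
    rw [Finset.prod_eq_zero (Finset.mem_univ i), mul_zero]
    rw [Pi.single_eq_of_ne hi, zero_pow hdi]
  · intro hd
    rw [MvPolynomial.notMem_support_iff.1 hd, zero_mul]

/-- the chain rule for a linear substitution -/
theorem chain {K : Type} [Field K] {n : ℕ} (M : Matrix (Fin n) (Fin n) K)
    (e : MvPolynomial (Fin n) K ≃ₐ[K] MvPolynomial (Fin n) K)
    (he : ∀ i, e (MvPolynomial.X i) = ∑ j, MvPolynomial.C (M i j) * MvPolynomial.X j)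
    (j : Fin n) (G : MvPolynomial (Fin n) K) :
    MvPolynomial.pderiv j (e G) = ∑ i, MvPolynomial.C (M i j) * e (MvPolynomial.pderiv i G) := by
  classical
  induction G using MvPolynomial.induction_on with
  | C a =>
    have h1 : e (MvPolynomial.C a) = MvPolynomial.C a := e.commutes a
    rw [h1, MvPolynomial.pderiv_C]
    symm
    refine Finset.sum_eq_zero fun i _ => ?_
    rw [MvPolynomial.pderiv_C, map_zero, mul_zero]
  | add p q hp hq =>
    rw [map_add, map_add, hp, hq, ← Finset.sum_add_distrib]
    refine Finset.sum_congr rfl fun i _ => ?_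
    rw [map_add, map_add, mul_add]
  | mul_X p k hp =>
    have h1 : MvPolynomial.pderiv j (e (MvPolynomial.X k)) = MvPolynomial.C (M k j) := by
      rw [he, map_sum, Finset.sum_eq_single j]
      · rw [MvPolynomial.pderiv_C_mul, MvPolynomial.pderiv_X_self, mul_one]
      · intro l _ hl
        rw [MvPolynomial.pderiv_C_mul, MvPolynomial.pderiv_X_of_ne hl, mul_zero]
      · intro h
        exact absurd (Finset.mem_univ _) h
    rw [map_mul, MvPolynomial.pderiv_mul, hp, h1]
    have h2 : ∀ i, MvPolynomial.C (M i j) * e (MvPolynomial.pderiv i (p * MvPolynomial.X k)) =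
        MvPolynomial.C (M i j) * e (MvPolynomial.pderiv i p) * e (MvPolynomial.X k) +
          (if i = k then MvPolynomial.C (M i j) * e p else 0) := by
      intro i
      rw [MvPolynomial.pderiv_mul, map_add, map_mul, map_mul]
      by_cases hik : i = k
      · subst hik
        rw [MvPolynomial.pderiv_X_self, map_one, if_pos rfl]
        ring
      · rw [MvPolynomial.pderiv_X_of_ne (Ne.symm hik), map_zero, if_neg hik]
        ring
    simp only [h2]
    rw [Finset.sum_add_distrib, ← Finset.sum_mul, Finset.sum_ite_eq' Finset.univ k,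
      if_pos (Finset.mem_univ k)]
    ring

end DSG

open DSG in
theorem t_DSG : M_DSG := by
  classical
  intro hDAU K _ n F p hF hp h0 hd
  obtain ⟨M, e, hM, he⟩ := hDAU K (n + 1) 1 (fun _ => 0) (fun _ => p)
    (fun a b _ => Subsingleton.elim a b) (LinearIndependent.of_subsingleton 0 hp)
  have hM0 : ∀ i, M i 0 = p i := fun i => hM i 0
  -- evaluation at the first point
  have hev : ∀ G, MvPolynomial.eval (Pi.single 0 1) (e G) = MvPolynomial.eval p G := by
    intro G
    have h1 : ((MvPolynomial.aeval (Pi.single 0 1 : Fin (n + 1) → K)).comp e.toAlgHom) =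
        MvPolynomial.aeval p := by
      apply MvPolynomial.algHom_ext
      intro i
      show MvPolynomial.aeval (Pi.single 0 1 : Fin (n + 1) → K) (e (MvPolynomial.X i)) = _
      rw [he, map_sum, MvPolynomial.aeval_X, Finset.sum_eq_single 0]
      · rw [map_mul, MvPolynomial.aeval_X, Pi.single_eq_same, mul_one, MvPolynomial.aeval_C, hM0]
        rfl
      · intro j _ hj
        rw [map_mul, MvPolynomial.aeval_X, Pi.single_eq_of_ne hj, mul_zero]
      · intro h
        exact absurd (Finset.mem_univ _) h
    exact DFunLike.congr_fun h1 G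
  -- homogeneity
  have hF' : (e F).IsHomogeneous 3 := by
    have h1 : e F = MvPolynomial.aeval (fun i => e (MvPolynomial.X i)) F := by
      have h2 : e.toAlgHom = MvPolynomial.aeval (fun i => e (MvPolynomial.X i)) := by
        apply MvPolynomial.algHom_ext
        intro i
        rw [MvPolynomial.aeval_X]
        rfl
      exact DFunLike.congr_fun h2 F
    have h3 : (MvPolynomial.aeval (fun i => e (MvPolynomial.X i)) F).IsHomogeneous (1 * 3) := by
      refine hF.aeval _ fun i => ?_
      rw [he]
      refine MvPolynomial.IsHomogeneous.sum _ _ _ fun j _ => ?_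
      have h4 := (MvPolynomial.isHomogeneous_C (Fin (n + 1)) (M i j)).mul
        (MvPolynomial.isHomogeneous_X K j)
      rwa [zero_add] at h4
    rw [h1]
    exact h3
  -- the coefficients
  have c3 : MvPolynomial.coeff (Finsupp.single 0 3) (e F) = 0 := by
    rw [← eval_e0 hF', hev, h0]
  have c2 : ∀ j, MvPolynomial.coeff (Finsupp.single 0 2) (MvPolynomial.pderiv j (e F)) = 0 := by
    intro j
    rw [← eval_e0 (hF'.pderiv (i := j)), chain M e he, map_sum]
    refine Finset.sum_eq_zero fun i _ => ?_
    rw [map_mul, hev, hd, mul_zero]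
  -- the homogeneous coefficients in `x_0`
  set f := MvPolynomial.finSuccEquiv K n (e F) with hf
  have hcf : ∀ (m : Fin n →₀ ℕ) (i : ℕ), MvPolynomial.coeff m (f.coeff i) =
      MvPolynomial.coeff (m.cons i) (e F) := fun m i => MvPolynomial.finSuccEquiv_coeff_coeff m _ i
  have hdeg : ∀ (m : Fin n →₀ ℕ) (i : ℕ), (m.cons i).degree = i + m.degree := by
    intro m i
    rw [Finsupp.degree_eq_sum, Finsupp.degree_eq_sum, Fin.sum_univ_succ]
    simp
  have hz : ∀ i, 2 ≤ i → f.coeff i = 0 := by
    intro i hi
    ext m
    rw [hcf, MvPolynomial.coeff_zero]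
    by_contra hne
    have h1 : (m.cons i).degree = 3 := by
      have h2 : Finsupp.weight (fun _ => 1) (m.cons i) = 3 := hF' hne
      rwa [← Finsupp.degree_eq_weight_one] at h2
    rw [hdeg] at h1
    have h2 : i = 3 ∧ m.degree = 0 ∨ i = 2 ∧ m.degree = 1 := by omega
    rcases h2 with ⟨rfl, h3⟩ | ⟨rfl, h3⟩
    · apply hne
      rw [Finsupp.degree_eq_zero_iff] at h3
      subst h3
      have h4 : (Finsupp.cons 3 (0 : Fin n →₀ ℕ)) = Finsupp.single 0 3 := by
        ext j
        refine Fin.cases ?_ (fun j => ?_) j
        · rw [Finsupp.cons_zero, Finsupp.single_eq_same]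
        · rw [Finsupp.cons_succ, Finsupp.single_eq_of_ne (Fin.succ_ne_zero j)]
          rfl
      rw [h4]
      exact c3
    · apply hne
      obtain ⟨j, rfl⟩ : ∃ j : Fin n, m = Finsupp.single j 1 := by
        have h4 : m ≠ 0 := by
          rintro rfl
          simp at h3
        obtain ⟨j, hj⟩ := Finsupp.ne_iff.1 h4
        refine ⟨j, ?_⟩
        rw [Finsupp.degree_eq_sum] at h3
        have hj' : m j ≠ 0 := hj
        have h5 := Finset.add_sum_erase Finset.univ (fun i => m i) (Finset.mem_univ j)
        have h6 : m j = 1 := by omega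
        have h7 : ∑ x ∈ Finset.univ.erase j, m x = 0 := by omega
        rw [Finset.sum_eq_zero_iff] at h7
        ext l
        by_cases hl : l = j
        · subst hl
          rw [Finsupp.single_eq_same, h6]
        · rw [Finsupp.single_eq_of_ne hl]
          exact h7 l (Finset.mem_erase.2 ⟨hl, Finset.mem_univ l⟩)
      have h4 := c2 j.succ
      rw [MvPolynomial.coeff_pderiv] at h4
      have h5 : Finsupp.single (0 : Fin (n + 1)) 2 + Finsupp.single j.succ 1 =
          Finsupp.cons 2 (Finsupp.single j 1) := by
        ext l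
        refine Fin.cases ?_ (fun l => ?_) l
        · rw [Finsupp.cons_zero, Finsupp.add_apply, Finsupp.single_eq_same,
            Finsupp.single_eq_of_ne (Fin.succ_ne_zero j).symm, add_zero]
        · rw [Finsupp.cons_succ, Finsupp.add_apply,
            Finsupp.single_eq_of_ne (Fin.succ_ne_zero l), zero_add]
          by_cases hl : l = j
          · subst hl
            rw [Finsupp.single_eq_same, Finsupp.single_eq_same]
          · rw [Finsupp.single_eq_of_ne hl,
              Finsupp.single_eq_of_ne (fun h => hl (Fin.succ_injective _ h))]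
      rw [h5] at h4
      have h6 : (Finsupp.single (0 : Fin (n + 1)) 2) j.succ = 0 :=
        Finsupp.single_eq_of_ne (Fin.succ_ne_zero j)
      rw [h6] at h4
      simpa using h4
  refine ⟨f.coeff 1, f.coeff 0, e.trans (MvPolynomial.finSuccEquiv K n),
    hF'.finSuccEquiv_coeff_isHomogeneous 1 2 rfl, hF'.finSuccEquiv_coeff_isHomogeneous 0 3 rfl, ?_⟩
  show f = _
  ext1 i
  rcases i with _ | _ | i
  · simp
  · simp [Polynomial.coeff_C]
  · rw [hz (i + 2) (by omega)]
    simp

end QCV
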