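import Pool.Agent.QCV.StD
import Pool.Agent.QCV.Asm

/-!
# QCV, block D: a cubic form with a singular point
-/

set_option autoImplicit false

open Polynomial

namespace QCV

open CUB

theorem t_DSL : M_DSL := by
  intro hDCN hDCP k _ P d hP hG K _ _ _ n Q H hK hn hQ hH hQ0 hcop
  have hKd : DL k K d := fun p => (hK p).trans (by exact_mod_cast Nat.zero_le d)
  have hPS : P (MvPolynomial (Fin n) K) := (Asm.s_PLY k P hP.toCls0 hP.line K n).1 (hP.base _ hKd)
  have hPQ : P (MvPolynomial (Fin n) K ⧸ Ideal.span {Q}) := by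
    have h1 : P (ER (fun _ : Fin 1 => Q)) :=
      Asm.s_QUA k P d hP n K (fun _ : Fin 1 => Q) hKd fun _ => hQ.totalDegree_le
    have h2 : Ideal.span (Set.range (fun _ : Fin 1 => Q)) = Ideal.span {Q} := by
      rw [Set.range_const]
    exact hP.iso (Ideal.quotientEquivAlgOfEq k h2) h1
  have hs : Strat Q (Ideal.Quotient.mkₐ k (Ideal.span {Q})) (awayHom k Q) :=
    ⟨Ideal.Quotient.mkₐ_surjective k _, Ideal.mk_ker, isLocalization_awayHom Q⟩
  have hPU : P (Localization.Away Q) := hP.opn _ _ _ hs hPS hPQ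
  have hPZ : P (MvPolynomial (Fin n) K ⧸ Ideal.span {Q, H}) := by
    have h1 : P (ER ![Q, H]) := by
      refine hDCN k P d hP hG K (Fin 2) n ![Q, H] ![2, 3] ?_ hKd
        (hDCP k K n (d + 1) Q H hK (by omega) hQ0 hcop)
      intro j
      fin_cases j
      · exact hQ
      · exact hH
    have h2 : Ideal.span (Set.range ![Q, H]) = Ideal.span {Q, H} := by
      rw [Matrix.range_cons, Matrix.range_cons, Matrix.range_empty, Set.union_empty,
        Set.singleton_union]
    exact hP.iso (Ideal.quotientEquivAlgOfEq k h2) h1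
  obtain ⟨z', u', hs'⟩ := Asm.s_LNR k (MvPolynomial (Fin n) K) (Localization.Away Q) Q H
    (awayHom k Q) (isLocalization_awayHom Q)
  exact hP.glue _ z' u' hs' (hP.line _ hPZ) hPU

end QCV
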