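import Pool.Agent.QCV.StD1

/-!
# QCV, block D: `S_DTR` (a line over an extension gives a line over a finite extension)

Let `B` be the subalgebra of `L` generated by the coordinates of the two vectors spanning the line
and by the inverse of a nonzero minor of order two; reduce modulo a maximal ideal of `B` and apply
Zariski's lemma.
-/

set_option autoImplicit false

namespace QCV

namespace DTRaux

/-- Functoriality of the restriction of `F` to the line spanned by `p` and `q`. -/
theorem map_line {K B L : Type} [Field K] [CommRing B] [CommRing L] [Algebra K B] [Algebra K L]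
    (φ : B →ₐ[K] L) {n : ℕ} (F : MvPolynomial (Fin n) K) (p q : Fin n → B) :
    MvPolynomial.mapAlgHom φ (MvPolynomial.aeval
      (fun i => MvPolynomial.C (p i) * MvPolynomial.X 0 + MvPolynomial.C (q i) * MvPolynomial.X 1 :
        Fin n → MvPolynomial (Fin 2) B) F) =
    MvPolynomial.aeval
      (fun i => MvPolynomial.C (φ (p i)) * MvPolynomial.X 0 +
        MvPolynomial.C (φ (q i)) * MvPolynomial.X 1 : Fin n → MvPolynomial (Fin 2) L) F := by
  rw [MvPolynomial.comp_aeval_apply]
  congr 2
  funext i
  simp [MvPolynomial.mapAlgHom_apply]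

/-- Two independent vectors have a nonzero minor of order two. -/
theorem exists_minor {L : Type} [Field L] {n : ℕ} (p q : Fin n → L)
    (h : LinearIndependent L ![p, q]) : ∃ i j, p i * q j - p j * q i ≠ 0 := by
  by_contra hcon
  push Not at hcon
  rw [LinearIndependent.pair_iff] at h
  have hp : ∃ i, p i ≠ 0 := by
    by_contra hp
    push Not at hp
    have := h 1 0 (by funext i; simp [hp i])
    exact one_ne_zero this.1
  obtain ⟨i, hi⟩ := hp
  have h2 := h (q i) (-(p i)) (by
    funext j
    have := hcon i j
    simp only [Pi.add_apply, Pi.smul_apply, smul_eq_mul, Pi.zero_apply]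
    linear_combination (-1) * this)
  exact hi (neg_eq_zero.mp h2.2)

/-- Two vectors with a nonzero minor of order two are independent. -/
theorem indep_of_minor {L : Type} [Field L] {n : ℕ} (p q : Fin n → L) (i j : Fin n)
    (h : p i * q j - p j * q i ≠ 0) : LinearIndependent L ![p, q] := by
  rw [LinearIndependent.pair_iff]
  intro s t hst
  have hi : s * p i + t * q i = 0 := by
    have := congrFun hst i
    simpa using this
  have hj : s * p j + t * q j = 0 := by
    have := congrFun hst j
    simpa using this
  constructor
  · have : s * (p i * q j - p j * q i) = 0 := by linear_combination q j * hi - q i * hj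
    exact (mul_eq_zero.mp this).resolve_right h
  · have : t * (p i * q j - p j * q i) = 0 := by linear_combination p i * hj - p j * hi
    exact (mul_eq_zero.mp this).resolve_right h

end DTRaux

open DTRaux in
theorem t_DTR : S_DTR := by
  intro K L _ _ _ n F hL
  obtain ⟨p, q, hli, hF⟩ := hL
  obtain ⟨i, j, hd⟩ := exists_minor p q hli
  -- the finitely generated algebra
  let s : Set L := (Set.range p ∪ Set.range q) ∪ {(p i * q j - p j * q i)⁻¹}
  have hs : s.Finite := ((Set.finite_range p).union (Set.finite_range q)).union
    (Set.finite_singleton _)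
  let B : Subalgebra K L := Algebra.adjoin K s
  have hft : Algebra.FiniteType K B :=
    (Subalgebra.fg_iff_finiteType B).mp ⟨hs.toFinset, by simp [B]⟩
  have hpB : ∀ k, p k ∈ B := fun k =>
    Algebra.subset_adjoin (Or.inl (Or.inl (Set.mem_range_self k)))
  have hqB : ∀ k, q k ∈ B := fun k =>
    Algebra.subset_adjoin (Or.inl (Or.inr (Set.mem_range_self k)))
  have hdB : (p i * q j - p j * q i)⁻¹ ∈ B := Algebra.subset_adjoin (Or.inr rfl)
  let p' : Fin n → B := fun k => ⟨p k, hpB k⟩
  let q' : Fin n → B := fun k => ⟨q k, hqB k⟩
  let d' : B := ⟨(p i * q j - p j * q i)⁻¹, hdB⟩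
  have hunit : (p' i * q' j - p' j * q' i) * d' = 1 := by
    apply Subtype.ext
    show (p i * q j - p j * q i) * (p i * q j - p j * q i)⁻¹ = 1
    exact mul_inv_cancel₀ hd
  have hFB : MvPolynomial.aeval
      (fun k => MvPolynomial.C (p' k) * MvPolynomial.X 0 +
        MvPolynomial.C (q' k) * MvPolynomial.X 1 : Fin n → MvPolynomial (Fin 2) B) F = 0 := by
    have hinj : Function.Injective
        (MvPolynomial.mapAlgHom (σ := Fin 2) (B.val : B →ₐ[K] L)) := by
      have := MvPolynomial.map_injective (σ := Fin 2) (B.val : B →ₐ[K] L).toRingHom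
        Subtype.val_injective
      exact this
    apply hinj
    rw [map_line, map_zero]
    exact hF
  obtain ⟨m, hm⟩ := Ideal.exists_maximal B
  let _ : Field (B ⧸ m) := Ideal.Quotient.field m
  have hfin : Module.Finite K (B ⧸ m) := by
    have : Algebra.FiniteType K (B ⧸ m) := inferInstance
    exact finite_of_finite_type_of_isJacobsonRing K (B ⧸ m)
  refine ⟨B ⧸ m, inferInstance, inferInstance, hfin, ?_⟩
  refine ⟨fun k => Ideal.Quotient.mkₐ K m (p' k), fun k => Ideal.Quotient.mkₐ K m (q' k), ?_, ?_⟩
  · apply indep_of_minor _ _ i j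
    intro h0
    have h1 : Ideal.Quotient.mkₐ K m ((p' i * q' j - p' j * q' i) * d') = 1 := by
      rw [hunit, map_one]
    rw [map_mul, map_sub, map_mul, map_mul, h0, zero_mul] at h1
    exact zero_ne_one h1
  · rw [← map_line (Ideal.Quotient.mkₐ K m) F p' q', hFB, map_zero]

end QCV
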