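import Pool.Agent.QCV.StD1

/-!
# QCV_DVL: specialisation of a line
-/

set_option autoImplicit false

namespace QCV

open MvPolynomial

/-- Substitution in the variables of the line. -/
theorem dvl_change {Ω : Type} [Field Ω] {n : ℕ} (F : MvPolynomial (Fin n) Ω) (p q : Fin n → Ω)
    (h : MvPolynomial.aeval (fun i => C (p i) * X 0 + C (q i) * X 1 :
      Fin n → MvPolynomial (Fin 2) Ω) F = 0) (a b c d : Ω) (p' q' : Fin n → Ω)
    (hp : ∀ i, p' i = a * p i + c * q i) (hq : ∀ i, q' i = b * p i + d * q i) :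
    MvPolynomial.aeval (fun i => C (p' i) * X 0 + C (q' i) * X 1 :
      Fin n → MvPolynomial (Fin 2) Ω) F = 0 := by
  let φ : MvPolynomial (Fin 2) Ω →ₐ[Ω] MvPolynomial (Fin 2) Ω :=
    MvPolynomial.aeval (![C a * X 0 + C b * X 1, C c * X 0 + C d * X 1] :
      Fin 2 → MvPolynomial (Fin 2) Ω)
  have h1 : (MvPolynomial.aeval (fun i => C (p' i) * X 0 + C (q' i) * X 1 :
      Fin n → MvPolynomial (Fin 2) Ω)) = φ.comp (MvPolynomial.aeval
        (fun i => C (p i) * X 0 + C (q i) * X 1 : Fin n → MvPolynomial (Fin 2) Ω)) := by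
    apply MvPolynomial.algHom_ext
    intro i
    have h2 : φ (X 0) = C a * X 0 + C b * X 1 := by
      simp [φ]
    have h3 : φ (X 1) = C c * X 0 + C d * X 1 := by
      simp [φ]
    rw [AlgHom.comp_apply, aeval_X, aeval_X, map_add, map_mul, map_mul, h2, h3,
      MvPolynomial.algHom_C, MvPolynomial.algHom_C, hp, hq]
    simp only [MvPolynomial.algebraMap_eq, map_add, map_mul]
    ring
  rw [h1, AlgHom.comp_apply, h, map_zero]

/-- Normalisation of a nonzero vector. -/
theorem dvl_norm {Ω : Type} [Field Ω] (V : ValuationSubring Ω) {n : ℕ} (p : Fin n → Ω)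
    (hp : p ≠ 0) : ∃ i, p i ≠ 0 ∧ ∀ k, (p i)⁻¹ * p k ∈ V := by
  obtain ⟨k0, hk0⟩ := Function.ne_iff.1 hp
  obtain ⟨i, -, hi⟩ := Finset.exists_max_image Finset.univ (fun k => V.valuation (p k))
    ⟨k0, Finset.mem_univ _⟩
  have hne : p i ≠ 0 := by
    intro h0
    have h1 := hi k0 (Finset.mem_univ _)
    rw [h0, map_zero, le_zero_iff, map_eq_zero] at h1
    exact hk0 h1
  refine ⟨i, hne, fun k => ?_⟩
  rw [← V.valuation_le_one_iff, map_mul, map_inv₀]
  have h2 : V.valuation (p i) ≠ 0 := by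
    rw [Ne, map_eq_zero]
    exact hne
  calc (V.valuation (p i))⁻¹ * V.valuation (p k) ≤ (V.valuation (p i))⁻¹ * V.valuation (p i) :=
        mul_le_mul_right (hi k (Finset.mem_univ _)) _
    _ = 1 := inv_mul_cancel₀ h2

/-- A valuation ring with `t⁻¹` in its maximal ideal. -/
theorem dvl_val {K Ω : Type} [Field K] [Field Ω] [Algebra K Ω] (t : Ω) (ht : Transcendental K t) :
    ∃ V : ValuationSubring Ω, (∀ x, algebraMap K Ω x ∈ V) ∧ t⁻¹ ∈ V.nonunits := by
  have hs : Transcendental K t⁻¹ := by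
    intro h
    apply ht
    have h1 := h.inv
    rwa [inv_inv] at h1
  let A : Subalgebra K Ω := (Polynomial.aeval t⁻¹ : Polynomial K →ₐ[K] Ω).range
  have hsA : t⁻¹ ∈ A.toSubring := ⟨Polynomial.X, Polynomial.aeval_X _⟩
  let I : Ideal A.toSubring := Ideal.span {⟨t⁻¹, hsA⟩}
  have hI : I ≠ ⊤ := by
    intro htop
    have h1 : (1 : A.toSubring) ∈ I := by
      rw [htop]
      exact Submodule.mem_top
    rw [Ideal.mem_span_singleton'] at h1
    obtain ⟨⟨a, p, hp⟩, ha⟩ := h1
    have h2 : a * t⁻¹ = 1 := congrArg Subtype.val ha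
    have hp' : Polynomial.aeval t⁻¹ p = a := hp
    have h3 : Polynomial.aeval t⁻¹ (p * Polynomial.X - 1) = 0 := by
      rw [map_sub, map_mul, Polynomial.aeval_X, map_one, hp', h2, sub_self]
    have h4 : p * Polynomial.X - 1 = 0 := by
      by_contra hne
      exact hs ⟨_, hne, h3⟩
    have h5 := congrArg (fun f => Polynomial.coeff f 0) h4
    simp at h5
  obtain ⟨V, hV1, hV2⟩ := Ideal.image_subset_nonunits_valuationSubring I hI
  refine ⟨V, fun x => hV1 ?_, hV2 ⟨_, Ideal.subset_span rfl, rfl⟩⟩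
  exact A.algebraMap_mem x

/-- **DVL** -/
theorem t_DVL : S_DVL := by
  intro K Ω _ _ _ n F₀ F t ht hline
  obtain ⟨V, hK, hs⟩ := dvl_val t ht
  have ht0 : t ≠ 0 := by
    rintro rfl
    exact ht (isAlgebraic_zero)
  obtain ⟨p, q, hpq, hF⟩ := hline
  rw [LinearIndependent.pair_iff] at hpq
  -- normalisation
  have hp0 : p ≠ 0 := by
    rintro rfl
    have := (hpq 1 0 (by simp)).1
    exact one_ne_zero this
  obtain ⟨i, hi0, hi⟩ := dvl_norm V p hp0
  have hq0 : (fun k => q k - q i * ((p i)⁻¹ * p k)) ≠ 0 := by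
    intro h
    have h1 := (hpq (-(q i * (p i)⁻¹)) 1 (by
      funext k
      have h2 := congrFun h k
      simp only [Pi.zero_apply] at h2
      simp only [Pi.add_apply, Pi.smul_apply, smul_eq_mul, Pi.zero_apply]
      rw [← h2]
      ring)).2
    exact one_ne_zero h1
  obtain ⟨j, hj0, hj⟩ := dvl_norm V _ hq0
  set c : Ω := q j - q i * ((p i)⁻¹ * p j) with hc
  have hF' := dvl_change _ p q hF (p i)⁻¹ (-(c⁻¹ * (q i * (p i)⁻¹))) 0 c⁻¹
    (fun k => (p i)⁻¹ * p k) (fun k => c⁻¹ * (q k - q i * ((p i)⁻¹ * p k)))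
    (fun k => by ring) (fun k => by ring)
  -- the residue field
  have hsV : t⁻¹ ∈ V := V.nonunits_subset hs
  let ι : K →+* V := (algebraMap K Ω).codRestrict V hK
  let κ : Type := IsLocalRing.ResidueField V
  let ρ : V →+* κ := IsLocalRing.residue V
  let _ : Field κ := inferInstanceAs (Field (IsLocalRing.ResidueField V))
  let algκ : Algebra K κ := (ρ.comp ι).toAlgebra
  let P : Fin n → V := fun k => ⟨(p i)⁻¹ * p k, hi k⟩
  let Q : Fin n → V := fun k => ⟨c⁻¹ * (q k - q i * ((p i)⁻¹ * p k)), hj k⟩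
  let S : V := ⟨t⁻¹, hsV⟩
  have hS : ρ S = 0 := by
    rw [IsLocalRing.residue_eq_zero_iff]
    exact V.coe_mem_nonunits_iff.1 hs
  have hP : P i = 1 := Subtype.ext (inv_mul_cancel₀ hi0)
  have hQi : Q i = 0 := Subtype.ext (by
    change c⁻¹ * (q i - q i * ((p i)⁻¹ * p i)) = 0
    rw [inv_mul_cancel₀ hi0]
    ring)
  have hQj : Q j = 1 := Subtype.ext (inv_mul_cancel₀ hj0)
  -- evaluation over `V`
  let ev : MvPolynomial (Fin n) K →+* MvPolynomial (Fin 2) V :=
    MvPolynomial.eval₂Hom ((C : V →+* MvPolynomial (Fin 2) V).comp ι)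
      (fun k => C (P k) * X 0 + C (Q k) * X 1)
  have hev : ∀ G : MvPolynomial (Fin n) K, MvPolynomial.map V.subtype (ev G) =
      MvPolynomial.aeval (fun k => C ((p i)⁻¹ * p k) * X 0 +
        C (c⁻¹ * (q k - q i * ((p i)⁻¹ * p k))) * X 1 : Fin n → MvPolynomial (Fin 2) Ω)
        (MvPolynomial.map (algebraMap K Ω) G) := by
    intro G
    have h1 : (MvPolynomial.map V.subtype).comp ev =
        ((MvPolynomial.aeval (fun k => C ((p i)⁻¹ * p k) * X 0 +
        C (c⁻¹ * (q k - q i * ((p i)⁻¹ * p k))) * X 1 :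
        Fin n → MvPolynomial (Fin 2) Ω) : MvPolynomial (Fin n) Ω →ₐ[Ω] _) :
          MvPolynomial (Fin n) Ω →+* _).comp (MvPolynomial.map (algebraMap K Ω)) := by
      apply MvPolynomial.ringHom_ext
      · intro x
        rw [RingHom.comp_apply, RingHom.comp_apply, MvPolynomial.coe_eval₂Hom,
          MvPolynomial.eval₂_C, RingHom.comp_apply, MvPolynomial.map_C, MvPolynomial.map_C,
          AlgHom.coe_toRingHom, MvPolynomial.aeval_C]
        rfl
      · intro k
        rw [RingHom.comp_apply, RingHom.comp_apply, MvPolynomial.coe_eval₂Hom,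
          MvPolynomial.eval₂_X, MvPolynomial.map_X]
        rw [AlgHom.coe_toRingHom, MvPolynomial.aeval_X, map_add, map_mul, map_mul,
          MvPolynomial.map_C, MvPolynomial.map_C, MvPolynomial.map_X, MvPolynomial.map_X]
        rfl
    exact congrArg (fun φ => φ G) h1
  have hzero : C S * ev F₀ + ev F = 0 := by
    apply MvPolynomial.map_injective V.subtype V.subtype_injective
    rw [map_add, map_mul, map_zero, hev, hev, MvPolynomial.map_C]
    rw [map_add, map_mul, MvPolynomial.algHom_C] at hF'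
    have h2 := congrArg (fun x => C (t⁻¹) * x) hF'
    rw [mul_zero, mul_add, ← mul_assoc] at h2
    rw [← h2]
    have h3 : (C t⁻¹ * (algebraMap Ω (MvPolynomial (Fin 2) Ω)) t : MvPolynomial (Fin 2) Ω) = 1 := by
      rw [MvPolynomial.algebraMap_eq, ← C_mul, inv_mul_cancel₀ ht0, C_1]
    rw [h3, one_mul]
    rfl
  have hres : MvPolynomial.map ρ (ev F) = 0 := by
    have h1 := congrArg (MvPolynomial.map ρ) hzero
    rw [map_add, map_mul, map_zero, MvPolynomial.map_C, hS, C_0, zero_mul, zero_add] at h1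
    exact h1
  refine ⟨κ, inferInstance, algκ, fun k => ρ (P k), fun k => ρ (Q k), ?_, ?_⟩
  · rw [LinearIndependent.pair_iff]
    intro a b hab
    have h1 := congrFun hab i
    have h2 := congrFun hab j
    simp only [Pi.add_apply, Pi.smul_apply, smul_eq_mul, Pi.zero_apply] at h1 h2
    rw [hP, hQi, map_one, map_zero, mul_one, mul_zero, add_zero] at h1
    rw [h1, zero_mul, zero_add, hQj, map_one, mul_one] at h2
    exact ⟨h1, h2⟩
  · rw [← hres]
    have h1 : ((MvPolynomial.aeval (fun k => C (ρ (P k)) * X 0 + C (ρ (Q k)) * X 1 :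
        Fin n → MvPolynomial (Fin 2) κ) : MvPolynomial (Fin n) K →ₐ[K] MvPolynomial (Fin 2) κ) :
        MvPolynomial (Fin n) K →+* MvPolynomial (Fin 2) κ) = (MvPolynomial.map ρ).comp ev := by
      apply MvPolynomial.ringHom_ext
      · intro x
        rw [RingHom.comp_apply, MvPolynomial.coe_eval₂Hom, MvPolynomial.eval₂_C,
          RingHom.comp_apply, MvPolynomial.map_C, AlgHom.coe_toRingHom, MvPolynomial.aeval_C]
        rfl
      · intro k
        rw [RingHom.comp_apply, MvPolynomial.coe_eval₂Hom, MvPolynomial.eval₂_X]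
        rw [AlgHom.coe_toRingHom, MvPolynomial.aeval_X, map_add, map_mul, map_mul,
          MvPolynomial.map_C, MvPolynomial.map_C, MvPolynomial.map_X, MvPolynomial.map_X]
    exact congrArg (fun φ => φ F) h1

end QCV
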