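import Pool.Agent.QCV.C_ASM
import Pool.Agent.QCV.D_DSG
import Pool.Agent.QCV.D_DAU
import Pool.Agent.QCV.D_DNR
import Pool.Agent.QCV.D_DCG
import Pool.Agent.QCV.D_DDT
import Pool.Agent.QCV.D_DEX
import Pool.Agent.QCV.D_DLN
import Pool.Agent.QCV.D_DDF
import Pool.Agent.QCV.D_DFX
import Pool.Agent.QCV.D_DVL
import Pool.Agent.QCV.D_DTR
import Pool.Agent.QCV.D_DCN
import Pool.Agent.QCV.D_DGM
import Pool.Agent.QCV.D_DSL
import Pool.Agent.QCV.D_DCP
import Pool.Agent.QCV.D_DSI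
import Pool.Agent.QCV.D_DRC
import Pool.Agent.QCV.D_DFC
import Pool.Agent.QCV.D_DRK
import Pool.Agent.QCV.D_DHM
import Pool.Agent.QCV.D_DDS
import Pool.Agent.QCV.D_DFE
import Pool.Agent.QCV.D_DBC
import Pool.Agent.QCV.D_DHG

/-!
# QCV, block D: assembly, part 1
-/

set_option autoImplicit false

namespace QCV

namespace Asm

theorem s_DSG : S_DSG := t_DSG t_DAU

theorem s_DNR : S_DNR := t_DNR t_DAU t_DCG

theorem s_DDT : S_DDT := t_DDT t_DEX

theorem s_DLN : S_DLN := t_DLN (t_DDF t_DFX) t_DVL t_DTR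

theorem s_DCN : S_DCN := t_DCN t_HCH s_HDE t_DGM

theorem s_DSL : S_DSL := t_DSL s_DCN t_DCP

theorem s_DSI : S_DSI := t_DSI s_DSL t_DRC t_DFC

theorem s_DRK : S_DRK := t_DRK t_DEX t_DHM

theorem s_DDS : S_DDS := t_DDS t_DFE t_DBC

end Asm

end QCV
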