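import Pool.Agent.QCV.StD

/-!
# QCV, module DSI: cubic forms with a rational singular point
-/

set_option autoImplicit false

open CategoryTheory AlgebraicGeometry Polynomial

namespace QCV

open CUB

namespace DSIx

theorem no_const {S : Type} [CommRing S] {Q H c : S} (hQ : Q ≠ 0) : (C Q * X + C H : S[X]) ≠ C c := by
  intro h
  have h1 := congrArg (fun f : S[X] => f.coeff 1) h
  simp only [coeff_add, coeff_C_mul, coeff_X_one, mul_one, coeff_C_succ, add_zero] at h1
  exact hQ h1

theorem coprime {S : Type} [CommRing S] [IsDomain S] {Q H : S} (hQ : Q ≠ 0) (hI : Irreducible (C Q * X + C H : S[X])) :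
    ∀ g, g ∣ Q → g ∣ H → IsUnit g := by
  rintro g ⟨a, rfl⟩ ⟨b, rfl⟩
  have h1 : (C (g * a) * X + C (g * b) : S[X]) = C g * (C a * X + C b) := by
    rw [C_mul, C_mul]
    ring
  rcases hI.isUnit_or_isUnit h1 with h2 | h2
  · exact isUnit_C.1 h2
  · exfalso
    obtain ⟨r, -, hr⟩ := Polynomial.isUnit_iff.1 h2
    refine no_const (H := g * b) (c := g * r) hQ ?_
    rw [h1, ← hr, C_mul]

end DSIx

open DSIx in
theorem t_DSI : M_DSI := by
  intro hSL hRC hFC k _ P d hP hG K _ _ _ n F Q H e hK hn hF hQ hH hQ0 heF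
  rcases hFC K (n + 1) F hF.totalDegree_le with h0 | hI | ⟨l, q, hl, hq, rfl⟩
  · exfalso
    rw [h0, map_zero] at heF
    refine no_const (c := 0) (H := H) hQ0 ?_
    rw [← heF, C_0]
  · have hI' : Irreducible (C Q * X + C H : (MvPolynomial (Fin n) K)[X]) := by
      rw [← heF]
      exact (MulEquiv.irreducible_iff e).2 hI
    have h1 := hSL k P d hP hG K n Q H hK hn hQ hH hQ0 (coprime hQ0 hI')
    let e' : MvPolynomial (Fin (n + 1)) K ≃ₐ[k] (MvPolynomial (Fin n) K)[X] :=
      e.restrictScalars k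
    have hmap : Ideal.span {(C Q * X + C H : (MvPolynomial (Fin n) K)[X])} =
        (Ideal.span (Set.range (fun _ : Fin 1 => F))).map
          (e' : MvPolynomial (Fin (n + 1)) K →+* (MvPolynomial (Fin n) K)[X]) := by
      rw [Ideal.map_span, Set.range_const, Set.image_singleton]
      congr 2
      exact heF.symm
    exact hP.iso (Ideal.quotientEquivAlg _ _ e' hmap).symm h1
  · exact hRC k P d hP K (n + 1) l q (fun p => (hK p).trans (by exact_mod_cast Nat.zero_le d)) hl hq

end QCV
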