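import Pool.Agent.CUB2.Defs5

/-!
# QCV: definitions of the final statement

Quadratic equations over bases of small dimension (MP_3af9db_ag).  See `PAPER.md`.
-/

set_option autoImplicit false

open CategoryTheory AlgebraicGeometry Polynomial

namespace QCV

open Pool.Agent.Lib_helper55.Beil Pool.Agent.Lib_helper66.OneP CUB

universe v

/-! ## Double covers -/

section Dbl

variable {A : Type} [CommRing A] (b c : A)

/-- The polynomial `t ^ 2 + b t + c`. -/
noncomputable def dpoly : A[X] := X ^ 2 + C b * X + C c

lemma dpoly_monic : (dpoly b c).Monic := by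
  unfold dpoly
  monicity!

/-- The ring `A[t] / (t ^ 2 + b t + c)`. -/
abbrev Dr (A : Type) [CommRing A] (b c : A) : Type := AdjoinRoot (dpoly b c)

instance : Module.Finite A (Dr A b c) := (dpoly_monic b c).finite_adjoinRoot

instance finiteType_Dr {k : Type} [Field k] [Algebra k A] [Algebra.FiniteType k A] :
    Algebra.FiniteType k (Dr A b c) :=
  Algebra.FiniteType.trans (S := A) inferInstance inferInstance

variable (k : Type) [Field k] [Algebra k A]

/-- The inclusion of `A` in `A[t] / (t ^ 2 + b t + c)`. -/
noncomputable def drHom : A →ₐ[k] Dr A b c := IsScalarTower.toAlgHom k A (Dr A b c)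

/-- The double cover `Spec A[t] / (t ^ 2 + b t + c) → Spec A`. -/
noncomputable def dbl [Algebra.FiniteType k A] : PrMor (aff k (Dr A b c)) (aff k A) where
  g := spm (drHom b c k)
  comm := spm_comm _
  proper := by
    have h : IsFinite (Spec.map (CommRingCat.ofHom (drHom b c k).toRingHom)) := by
      rw [IsFinite.SpecMap_iff]
      change ((algebraMap A (Dr A b c))).Finite
      exact RingHom.finite_algebraMap.2 inferInstance
    exact (inferInstance : IsProper (Spec.map (CommRingCat.ofHom (drHom b c k).toRingHom)))

end Dbl

variable {k : Type} [Field k] {E : Type} [Field E]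

/-- Pull-back maps along the double covers `Spec A[t] / (t ^ 2 + b t + c) → Spec A`. -/
structure DblMaps (T : ∀ i : ℕ, Homology.{v} k E i) where
  /-- the pull-back -/
  pb : ∀ (i n : ℕ) (A : Type) [CommRing A] [Algebra k A] [Algebra.FiniteType k A] (b c : A),
    (T i).H n (aff k A) →ₗ[E] (T i).H n (aff k (Dr A b c))

section

variable {T : ∀ i : ℕ, Homology.{v} k E i}

/-- The pull-back of a homology class along a double cover. -/
noncomputable def DblMaps.D (S : DblMaps T) (i n : ℕ) (A : Type) [CommRing A] [Algebra k A]
    [Algebra.FiniteType k A] (b c : A) (m : (T i).H n (aff k A)) :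
    (T i).H n (aff k (Dr A b c)) :=
  S.pb i n A b c m

/-- The pull-back commutes with Frobenius. -/
def DblMaps.Frobenius (S : DblMaps T) : Prop :=
  ∀ (i n : ℕ) (A : Type) [CommRing A] [Algebra k A] [Algebra.FiniteType k A] (b c : A)
    (m : (T i).H n (aff k A)), S.D i n A b c ((T i).F n _ m) = (T i).F n _ (S.D i n A b c m)

/-- The push-forward of the pull-back is the multiplication by two. -/
def DblMaps.Degree (S : DblMaps T) (G : ProperMaps T) : Prop :=
  ∀ (i n : ℕ) (A : Type) [CommRing A] [Algebra k A] [Algebra.FiniteType k A] (b c : A)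
    (m : (T i).H n (aff k A)), G.G i n (dbl b c k) (S.D i n A b c m) = (2 : E) • m

/-- The pull-back of the class of a point `x` is the class of a cycle on the double cover whose
push-forward is `2 x`. -/
def DblMaps.Classes (S : DblMaps T) : Prop :=
  ∀ (i : ℕ) (A : Type) [CommRing A] [Algebra k A] [Algebra.FiniteType k A] (b c : A)
    (x : Pts i (aff k A)), ∃ z : Pts i (aff k (Dr A b c)) →₀ E,
      cls (T i) _ z = S.D i (2 * i) A b c ((T i).cl _ x) ∧
        pfc E i (dbl b c k) z = Finsupp.single x 2

/-- The boundary maps commute with Frobenius. -/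
def BdFrob (S : ExtraMaps T) : Prop :=
  ∀ (i n : ℕ) {Z U X : Var k} (a : ClosedIn Z X) (j : OpenIn U X) (h : Complementary a j)
    (u : (T i).H (n + 1) U), S.B i n a j h ((T i).F (n + 1) U u) = (T i).F n Z (S.B i n a j h u)

/-- The sequence `H_(n+1)(X) → H_(n+1)(U) → H_n(Z)` is exact. -/
def ResExact (S : ExtraMaps T) : Prop :=
  ∀ (i n : ℕ) {Z U X : Var k} (a : ClosedIn Z X) (j : OpenIn U X) (h : Complementary a j),
    Function.Exact ((T i).R (n + 1) j) (S.B i n a j h)

/-- The pull-back along lines is compatible with the restriction to open subvarieties. -/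
def LineRes (S : ExtraMaps T) : Prop :=
  ∀ (i n : ℕ) {Y X Y' X' : Var k} (L : Line Y X) (L' : Line Y' X') (l : OpenIn Y' Y)
    (j : OpenIn X' X), l.g ≫ L.q = L'.q ≫ j.g →
    ∀ m : (T i).H n X, (T (i + 1)).R (n + 2) l (S.L i n L m) = S.L i n L' ((T i).R n j m)

end

/-- Further published properties of l-adic homology `(T i).H n X = H_n(Xbar, Q_l(i))`: weights
(Deligne), the boundary maps of the localisation sequences, the pull-back along lines and double
covers, and the injectivity of the cycle class map for divisors. -/
structure Pub (T : ∀ i : ℕ, Homology.{v} k E i) (hT : Full T) : Prop where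
  /-- no eigenvalue one in `H_(2i-1)(Xbar, Q_l(i))` -/
  weights : ∀ i, Weights (T i)
  bdFrob : BdFrob hT.toExtraMaps
  resExact : ResExact hT.toExtraMaps
  lineRes : LineRes hT.toExtraMaps
  dbl : ∃ S : DblMaps T, S.Frobenius ∧ S.Degree hT.toProperMaps ∧ S.Classes
  /-- a divisor with class zero is rationally equivalent to zero -/
  divisors : ∀ (i : ℕ) (X : Var k), X.DimLE (i + 1) → (T i).Inj X

/-- The conjecture for the `i`-dimensional cycles on `X`: the cycle class map is bijective onto the
invariants of Frobenius, and the eigenvalue one is semisimple. -/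
def Q1 {i : ℕ} (T : Homology.{v} k E i) (X : Var k) : Prop :=
  T.Inj X ∧ T.Surj X ∧ T.Semisimple X

end QCV
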