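import Pool.Agent.QCV.Defs

/-!
# QCV: classes of varieties and of rings

`PI (T i) X` is the property of varieties (at the level `i`) which is propagated in the proof;
`Cls0`, `Cls`, `Cls1` are closure properties of a property of finitely generated `k`-algebras.
-/

set_option autoImplicit false

open CategoryTheory AlgebraicGeometry Polynomial

namespace QCV

open Pool.Agent.Lib_helper55.Beil Pool.Agent.Lib_helper66.OneP CUB

universe v

/-! ## Properties of varieties -/

section Homol

variable {k : Type} [Field k] {E : Type} [Field E] {i : ℕ}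

/-- The generalised eigenspace of Frobenius on `H n X` for the eigenvalue one. -/
noncomputable def genN (T : Homology.{v} k E i) (n : ℕ) (X : Var k) : Submodule E (T.H n X) :=
  Module.End.maxGenEigenspace (T.frob n X) 1

/-- Every element of the generalised eigenspace of `H_(2i+1)(X)` is the push-forward of a class on a
reduced closed subvariety of dimension at most `i + 1`. -/
def KK (T : Homology.{v} k E i) (X : Var k) : Prop :=
  ∀ u ∈ genN T (2 * i + 1) X, ∃ (W : Var k) (_ : IsReduced W.X) (a : ClosedIn W X),
    W.DimLE (i + 1) ∧ ∃ w, T.P (2 * i + 1) a w = u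

/-- The property of varieties at the level `i`. -/
structure PI (T : Homology.{v} k E i) (X : Var k) : Prop where
  gg : T.gen X ≤ T.alg X
  inj : T.Inj X
  kk : KK T X

/-- The property at all levels. -/
def PP (T : ∀ i : ℕ, Homology.{v} k E i) (X : Var k) : Prop := ∀ i, PI (T i) X

end Homol

/-! ## Properties of rings -/

section Rings

variable (k : Type) [Field k]

/-- All primes of `A` have dimension at most `d`. -/
def DL (A : Type) [CommRing A] [Algebra k A] (d : ℕ) : Prop :=
  ∀ p : PrimeSpectrum A, rdim k p ≤ d

variable {k} in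
/-- `z : A → Z` is the quotient by the ideal generated by `a`, and `u : A → U` is the localisation
away from `a`. -/
structure Strat {A Z U : Type} [CommRing A] [CommRing Z] [CommRing U] [Algebra k A] [Algebra k Z]
    [Algebra k U] (a : A) (z : A →ₐ[k] Z) (u : A →ₐ[k] U) : Prop where
  surj : Function.Surjective z
  ker : RingHom.ker z.toRingHom = Ideal.span {a}
  away : @IsLocalization.Away A _ a U _ u.toRingHom.toAlgebra

/-- Closure properties of a property `P` of finitely generated `k`-algebras: isomorphisms, the zero
ring, gluing of the closed part `V(a)` and the open part `D(a)`, passage to the open part. -/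
structure Cls0 (P : ∀ (A : Type) [CommRing A] [Algebra k A] [Algebra.FiniteType k A], Prop) :
    Prop where
  iso : ∀ {A B : Type} [CommRing A] [Algebra k A] [Algebra.FiniteType k A] [CommRing B]
    [Algebra k B] [Algebra.FiniteType k B], (A ≃ₐ[k] B) → P A → P B
  triv : ∀ (A : Type) [CommRing A] [Algebra k A] [Algebra.FiniteType k A], Subsingleton A → P A
  glue : ∀ {A Z U : Type} [CommRing A] [Algebra k A] [Algebra.FiniteType k A] [CommRing Z]
    [Algebra k Z] [Algebra.FiniteType k Z] [CommRing U] [Algebra k U] [Algebra.FiniteType k U]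
    (a : A) (z : A →ₐ[k] Z) (u : A →ₐ[k] U), Strat a z u → P Z → P U → P A
  opn : ∀ {A Z U : Type} [CommRing A] [Algebra k A] [Algebra.FiniteType k A] [CommRing Z]
    [Algebra k Z] [Algebra.FiniteType k Z] [CommRing U] [Algebra k U] [Algebra.FiniteType k U]
    (a : A) (z : A →ₐ[k] Z) (u : A →ₐ[k] U), Strat a z u → P A → P Z → P U

/-- In addition: products with the affine line, descent along double covers, and all rings of
dimension at most `d`. -/
structure Cls (d : ℕ)
    (P : ∀ (A : Type) [CommRing A] [Algebra k A] [Algebra.FiniteType k A], Prop) : Prop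
    extends Cls0 k P where
  line : ∀ (A : Type) [CommRing A] [Algebra k A] [Algebra.FiniteType k A], P A → P A[X]
  dbl : ∀ (A : Type) [CommRing A] [Algebra k A] [Algebra.FiniteType k A] (b c : A),
    P (Dr A b c) → P A
  base : ∀ (A : Type) [CommRing A] [Algebra k A] [Algebra.FiniteType k A], DL k A d → P A

/-- Closure properties of a property `F` of finitely generated `k`-algebras `S` with a homomorphism
`R → S`. -/
structure Cls1 (R : Type) [CommRing R] [Algebra k R]
    (F : ∀ (S : Type) [CommRing S] [Algebra k S] [Algebra.FiniteType k S], (R →ₐ[k] S) → Prop) :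
    Prop where
  iso : ∀ {S S' : Type} [CommRing S] [Algebra k S] [Algebra.FiniteType k S] [CommRing S']
    [Algebra k S'] [Algebra.FiniteType k S'] (e : S ≃ₐ[k] S') (ψ : R →ₐ[k] S),
    F S ψ → F S' (e.toAlgHom.comp ψ)
  triv : ∀ (S : Type) [CommRing S] [Algebra k S] [Algebra.FiniteType k S] (ψ : R →ₐ[k] S),
    Subsingleton S → F S ψ
  glue : ∀ {A Z U : Type} [CommRing A] [Algebra k A] [Algebra.FiniteType k A] [CommRing Z]
    [Algebra k Z] [Algebra.FiniteType k Z] [CommRing U] [Algebra k U] [Algebra.FiniteType k U]
    (a : A) (z : A →ₐ[k] Z) (u : A →ₐ[k] U) (ψ : R →ₐ[k] A), Strat a z u →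
    F Z (z.comp ψ) → F U (u.comp ψ) → F A ψ
  opn : ∀ {A Z U : Type} [CommRing A] [Algebra k A] [Algebra.FiniteType k A] [CommRing Z]
    [Algebra k Z] [Algebra.FiniteType k Z] [CommRing U] [Algebra k U] [Algebra.FiniteType k U]
    (a : A) (z : A →ₐ[k] Z) (u : A →ₐ[k] U) (ψ : R →ₐ[k] A), Strat a z u →
    F A ψ → F Z (z.comp ψ) → F U (u.comp ψ)

end Rings

/-- The ring `R[x_1, ..., x_n] / (f_j)`. -/
abbrev ER {ι : Type} {n : ℕ} {R : Type} [CommRing R] (f : ι → MvPolynomial (Fin n) R) : Type :=
  MvPolynomial (Fin n) R ⧸ Ideal.span (Set.range f)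

/-- The polynomials `f j`, mapped by `ψ`. -/
noncomputable abbrev mf {ι : Type} {n : ℕ} {R S : Type} [CommRing R] [CommRing S] (ψ : R →+* S)
    (f : ι → MvPolynomial (Fin n) R) : ι → MvPolynomial (Fin n) S :=
  fun j => MvPolynomial.map ψ (f j)

section

variable (k : Type) [Field k]
variable (P : ∀ (A : Type) [CommRing A] [Algebra k A] [Algebra.FiniteType k A], Prop)

/-- The property for one quadric in `n` variables over all bases of dimension at most `d`. -/
def Qn (d n : ℕ) : Prop :=
  ∀ (R : Type) [CommRing R] [Algebra k R] [Algebra.FiniteType k R] (f : Fin 1 → MvPolynomial (Fin n) R),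
    DL k R d → (∀ j, (f j).totalDegree ≤ 2) → P (ER f)

/-- The property for one linear and one quadratic equation in `n` variables over all bases of
dimension at most `d`. -/
def Ln (d n : ℕ) : Prop :=
  ∀ (R : Type) [CommRing R] [Algebra k R] [Algebra.FiniteType k R] (f : Fin 2 → MvPolynomial (Fin n) R),
    DL k R d → (f 0).totalDegree ≤ 1 → (f 1).totalDegree ≤ 2 → P (ER f)

end

end QCV
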