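import Pool.Agent.QCV.Defs

/-!
# QCV, block B: line bundles
-/

set_option autoImplicit false

open CategoryTheory AlgebraicGeometry Limits

namespace QCV

open Pool.Agent.Lib_helper55.Beil CUB

universe v

variable {k : Type} [Field k]

/-- `Y → X` is, locally on `X`, the product with the affine line (for example a line bundle). -/
structure Bun (Y X : Var k) where
  /-- the projection -/
  q : Y.X ⟶ X.X
  comm : q ≫ X.f = Y.f
  loc : ∀ x : X.X, ∃ (W V : Var k) (L : Line W V) (l : OpenIn W Y) (j : OpenIn V X),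
    IsPullback L.q l.g j.g q ∧ x ∈ Set.range j.g

variable {E : Type} [Field E]

/-- Pull-back maps along line bundles. -/
structure BunMaps (T : ∀ i : ℕ, Homology.{v} k E i) where
  /-- the pull-back -/
  pb : ∀ (i n : ℕ) {Y X : Var k}, Bun Y X → ((T i).H n X →ₗ[E] (T (i + 1)).H (n + 2) Y)

section

variable {T : ∀ i : ℕ, Homology.{v} k E i}

/-- The pull-back of a homology class along a line bundle. -/
noncomputable def BunMaps.V (S : BunMaps T) (i n : ℕ) {Y X : Var k} (B : Bun Y X)
    (m : (T i).H n X) : (T (i + 1)).H (n + 2) Y :=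
  S.pb i n B m

/-- The pull-back commutes with Frobenius. -/
def BunMaps.Frobenius (S : BunMaps T) : Prop :=
  ∀ (i n : ℕ) {Y X : Var k} (B : Bun Y X) (m : (T i).H n X),
    S.V i n B ((T i).F n X m) = (T (i + 1)).F (n + 2) Y (S.V i n B m)

/-- Homotopy invariance. -/
def BunMaps.Bij (S : BunMaps T) : Prop :=
  ∀ (i n : ℕ) {Y X : Var k} (B : Bun Y X), Function.Bijective (S.V i n B)

/-- For a product with the affine line it is the given pull-back. -/
def BunMaps.Lines (S : BunMaps T) (M : ExtraMaps T) : Prop :=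
  ∀ (i n : ℕ) {Y X : Var k} (B : Bun Y X) (L : Line Y X), B.q = L.q →
    ∀ m, S.V i n B m = M.L i n L m

/-- The pull-back is compatible with restriction to open subvarieties. -/
def BunMaps.Restriction (S : BunMaps T) : Prop :=
  ∀ (i n : ℕ) {Y X Y' X' : Var k} (B : Bun Y X) (B' : Bun Y' X') (l : OpenIn Y' Y)
    (j : OpenIn X' X), IsPullback B'.q l.g j.g B.q →
    ∀ m, (T (i + 1)).R (n + 2) l (S.V i n B m) = S.V i n B' ((T i).R n j m)

/-- The pull-back is compatible with the push-forward along proper morphisms. -/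
def BunMaps.Push (S : BunMaps T) (G : ProperMaps T) : Prop :=
  ∀ (i n : ℕ) {Y X Y' X' : Var k} (B : Bun Y X) (B' : Bun Y' X') (r : PrMor Y' Y)
    (s : PrMor X' X), IsPullback B'.q r.g s.g B.q →
    ∀ m, S.V i n B (G.G i n s m) = G.G (i + 1) (n + 2) r (S.V i n B' m)

/-- The pull-back is compatible with the boundary maps. -/
def BunMaps.Boundary (S : BunMaps T) (M : ExtraMaps T) : Prop :=
  ∀ (i n : ℕ) {Z U X Z' U' X' : Var k} (a : ClosedIn Z X) (j : OpenIn U X)
    (h : Complementary a j) (a' : ClosedIn Z' X') (j' : OpenIn U' X') (h' : Complementary a' j')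
    (BZ : Bun Z' Z) (BU : Bun U' U) (B : Bun X' X), IsPullback BZ.q a'.g a.g B.q →
    IsPullback BU.q j'.g j.g B.q →
    ∀ u, S.V i n BZ (M.B i n a j h u) = M.B (i + 1) (n + 2) a' j' h' (S.V i (n + 1) BU u)

/-- The usual properties of the pull-back along line bundles. -/
def BunMaps.Good (S : BunMaps T) (hT : Full T) : Prop :=
  S.Frobenius ∧ S.Bij ∧ S.Lines hT.toExtraMaps ∧ S.Restriction ∧ S.Push hT.toProperMaps ∧
    S.Boundary hT.toExtraMaps

end

end QCV
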