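import Mathlib

/-!
# QCV: diagonal quadratic forms
-/

set_option autoImplicit false

namespace QCV

/-- The diagonal quadratic form `a_0 x_0 ^ 2 + ... + a_(n-1) x_(n-1) ^ 2`. -/
noncomputable def dia {A : Type} [CommRing A] {n : ℕ} (a : Fin n → A) : MvPolynomial (Fin n) A :=
  ∑ j, MvPolynomial.C (a j) * MvPolynomial.X j ^ 2

end QCV
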