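import Pool.Agent.QCV.Defs
import Pool.Agent.Lib_helper66.OneP.Defs

/-!
# QCV: definitions for the general form of the theorem (trivial normal bundles, etale pull-back)
-/

set_option autoImplicit false

open CategoryTheory AlgebraicGeometry

namespace QCV

open Pool.Agent.Lib_helper55.Beil Pool.Agent.Lib_helper66 CUB

universe v

variable {k : Type} [Field k] {E : Type} [Field E]

/-- The push-forward along a section of a product with the affine line is zero (the normal bundle
of the section is trivial). -/
def SectionZero (T : ∀ i : ℕ, Homology.{v} k E i) : Prop :=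
  ∀ (i n : ℕ) {Y X : Var k} (L : Line Y X) (s : ClosedIn X Y), s.g ≫ L.q = 𝟙 X.X →
    ∀ m : (T i).H n X, (T i).P n s m = 0

/-- Pull-back maps along finite etale surjective morphisms. -/
structure EtMaps (T : ∀ i : ℕ, Homology.{v} k E i) where
  /-- the pull-back -/
  pb : ∀ (i n : ℕ) {V U : Var k}, OneP.FinEt V U → ((T i).H n U →ₗ[E] (T i).H n V)

/-- A finite etale surjective morphism as a proper morphism. -/
def etPr {V U : Var k} (f : OneP.FinEt V U) : PrMor V U where
  g := f.g
  comm := f.comm
  proper := by
    have := f.fin
    infer_instance

section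

variable {T : ∀ i : ℕ, Homology.{v} k E i}

/-- The pull-back of a homology class along a finite etale surjective morphism. -/
def EtMaps.Q (S : EtMaps T) (i n : ℕ) {V U : Var k} (f : OneP.FinEt V U) (m : (T i).H n U) :
    (T i).H n V :=
  S.pb i n f m

/-- The pull-back commutes with Frobenius. -/
def EtMaps.Frobenius (S : EtMaps T) : Prop :=
  ∀ (i n : ℕ) {V U : Var k} (f : OneP.FinEt V U) (m : (T i).H n U),
    S.Q i n f ((T i).F n U m) = (T i).F n V (S.Q i n f m)

/-- If `U` is integral, the push-forward of the pull-back is the multiplication by a positive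
integer (the degree). -/
def EtMaps.Degree (S : EtMaps T) (G : ProperMaps T) : Prop :=
  ∀ {V U : Var k} (f : OneP.FinEt V U), IsIntegral U.X → ∃ D : ℕ, D ≠ 0 ∧
    ∀ (i n : ℕ) (m : (T i).H n U), G.G i n (etPr f) (S.Q i n f m) = (D : E) • m

/-- There are pull-back maps along finite etale surjective morphisms, which commute with Frobenius,
and their composition with the push-forward is the multiplication by the degree. -/
def EtPull (T : ∀ i : ℕ, Homology.{v} k E i) (G : ProperMaps T) : Prop :=
  ∃ S : EtMaps T, S.Frobenius ∧ S.Degree G

end

end QCV
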