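import Pool.Agent.QCV.Defs
import Pool.Agent.QCV.G_DEF
import Pool.Agent.QCV.DefsB
import Pool.Agent.QCV.DefsD

/-!
# QCV: the class of varieties of the final statement
-/

set_option autoImplicit false

open CategoryTheory AlgebraicGeometry Polynomial

namespace QCV

open Pool.Agent.Lib_helper55.Beil Pool.Agent.Lib_helper66.OneP CUB

/-- The class of varieties over `k` which is built from the varieties of dimension at most `d` by
cutting and pasting, products with the affine line, descent along products with the affine line,
double covers and finite etale coverings, passage from the complement of the zero section of a line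
bundle to the base, quadric cones in an odd number of variables over a member, quadric cones in an
even number of variables if the discriminant double cover of the base is a member, and passage from the
hypersurface `y ^ 2 - y = t_0 f_0 + ... + t_m f_m` to `f_0 = ... = f_m = 0`. -/
inductive Member (k : Type) [Field k] (d : ℕ) : Var k → Prop
  /-- varieties of dimension at most `d` -/
  | small (X : Var k) : X.DimLE d → Member k d X
  /-- isomorphic varieties -/
  | iso {X Y : Var k} : VIso X Y → Member k d X → Member k d Y
  /-- a closed subvariety with the same points (for example the reduced subvariety) -/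
  | nil {Z X : Var k} (a : ClosedIn Z X) : Function.Surjective a.g → Member k d X → Member k d Z
  /-- `X` is the disjoint union of the closed subvariety `Z` and the open subvariety `U` -/
  | paste {Z U X : Var k} (a : ClosedIn Z X) (j : OpenIn U X) : Complementary a j →
      Member k d Z → Member k d U → Member k d X
  /-- the complement of the closed subvariety `Z` of `X` -/
  | cut {Z U X : Var k} (a : ClosedIn Z X) (j : OpenIn U X) : Complementary a j →
      Member k d X → Member k d Z → Member k d U
  /-- the product with the affine line -/
  | line (A : Type) [CommRing A] [Algebra k A] [Algebra.FiniteType k A] :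
      Member k d (aff k A) → Member k d (aff k A[X])
  /-- descent from the product `Y` of `X` and the affine line to `X` -/
  | unline {Y X : Var k} (L : Line Y X) : Member k d Y → Member k d X
  /-- descent along the double cover `Spec A[t] / (t ^ 2 + b t + c) → Spec A` -/
  | cover (A : Type) [CommRing A] [Algebra k A] [Algebra.FiniteType k A] (b c : A) :
      Member k d (aff k (Dr A b c)) → Member k d (aff k A)
  /-- descent along the finite etale covering `V → U` of an integral variety -/
  | etale {V U : Var k} (f : Pool.Agent.Lib_helper66.OneP.FinEt V U) : IsIntegral U.X →
      Member k d V → Member k d U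
  /-- the base `X` of a line bundle `Y → X`, if the complement `U` of the section `s` belongs to the
  class -/
  | bundle {Y X U : Var k} (B : Bun Y X) (s : ClosedIn X Y) (j : OpenIn U Y) :
      s.g ≫ B.q = 𝟙 X.X → Complementary s j → Member k d U → Member k d X
  /-- the quadric cone `a_0 x_0 ^ 2 + ... + a_2m x_2m ^ 2 = 0` over `Spec A`, where the `a_j` are
  units of `A` -/
  | odd (A : Type) [CommRing A] [Algebra k A] [Algebra.FiniteType k A] (m : ℕ)
      (a : Fin (2 * m + 1) → A) : (∀ j, IsUnit (a j)) → Member k d (aff k A) →
      Member k d (aff k (MvPolynomial (Fin (2 * m + 1)) A ⧸ Ideal.span {dia a}))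
  /-- the quadric cone `a_0 x_0 ^ 2 + ... + a_(2m-1) x_(2m-1) ^ 2 = 0` over `Spec A`, where the `a_j` are
  units of `A`, if the double cover `t ^ 2 = (-1) ^ m a_0 ... a_(2m-1)` of `Spec A` belongs to the class
  (characteristic different from two) -/
  | even (A : Type) [CommRing A] [Algebra k A] [Algebra.FiniteType k A] (m : ℕ)
      (a : Fin (2 * m) → A) : (2 : k) ≠ 0 → (∀ j, IsUnit (a j)) →
      Member k d (aff k (Dr A 0 ((-1) ^ (m + 1) * ∏ j, a j))) →
      Member k d (aff k (MvPolynomial (Fin (2 * m)) A ⧸ Ideal.span {dia a}))
  /-- the subvariety `f_0 = ... = f_m = 0` of `Spec A`, if the hypersurface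
  `y ^ 2 - y = t_0 f_0 + ... + t_m f_m` in the product with the affine space of dimension `m + 2`
  belongs to the class -/
  | zeros (A : Type) [CommRing A] [Algebra k A] [Algebra.FiniteType k A] (m : ℕ)
      (f : Fin (m + 1) → A) : Member k d (aff k (VR A f)) →
      Member k d (aff k (A ⧸ Ideal.span (Set.range f)))

end QCV
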