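import Pool.Agent.QCV.Cls
import Pool.Agent.QCV.DefsD

/-!
# QCV, block O: involutions of double covers, quadratic forms in an odd number of variables
-/

set_option autoImplicit false

open CategoryTheory AlgebraicGeometry Polynomial

namespace QCV

open Pool.Agent.Lib_helper55.Beil Pool.Agent.Lib_helper66.OneP CUB

universe v

/-! ## The involution of a double cover -/

section Inv

variable {A : Type} [CommRing A] (b c : A)

/-- The root of `t ^ 2 + b t + c` in `A[t] / (t ^ 2 + b t + c)`. -/
noncomputable def rt : Dr A b c := AdjoinRoot.root (dpoly b c)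

lemma eval₂_dpoly {B : Type} [CommRing B] (φ : A →+* B) (y : B) :
    (dpoly b c).eval₂ φ y = y ^ 2 + φ b * y + φ c := by
  simp only [dpoly, eval₂_add, eval₂_mul, eval₂_pow, eval₂_X, eval₂_C]

lemma rt_eq : rt b c ^ 2 + algebraMap A (Dr A b c) b * rt b c + algebraMap A (Dr A b c) c = 0 :=
  (eval₂_dpoly b c _ _).symm.trans (AdjoinRoot.eval₂_root (dpoly b c))

lemma inv_eq : (dpoly b c).eval₂ (algebraMap A (Dr A b c))
    (- algebraMap A (Dr A b c) b - rt b c) = 0 := by
  rw [eval₂_dpoly]
  have h := rt_eq b c
  linear_combination h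

/-- The homomorphism `t ↦ - b - t`. -/
noncomputable def dinvHom : Dr A b c →+* Dr A b c :=
  AdjoinRoot.lift (algebraMap A (Dr A b c)) (- algebraMap A (Dr A b c) b - rt b c) (inv_eq b c)

lemma dinvHom_of (a : A) : dinvHom b c (algebraMap A (Dr A b c) a) = algebraMap A (Dr A b c) a :=
  AdjoinRoot.lift_of _

lemma dinvHom_rt : dinvHom b c (rt b c) = - algebraMap A (Dr A b c) b - rt b c :=
  AdjoinRoot.lift_root _

lemma dinvHom_comp : (dinvHom b c).comp (dinvHom b c) = RingHom.id _ := by
  apply AdjoinRoot.ringHom_ext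
  · ext a
    change dinvHom b c (dinvHom b c (algebraMap A (Dr A b c) a)) = algebraMap A (Dr A b c) a
    rw [dinvHom_of, dinvHom_of]
  · change dinvHom b c (dinvHom b c (rt b c)) = rt b c
    rw [dinvHom_rt, map_sub, map_neg, dinvHom_of, dinvHom_rt]
    ring

variable (k : Type) [Field k] [Algebra k A]

/-- The involution `t ↦ - b - t` of `A[t] / (t ^ 2 + b t + c)`. -/
noncomputable def dinv : Dr A b c ≃ₐ[k] Dr A b c :=
  AlgEquiv.ofAlgHom
    { dinvHom b c with
      commutes' := fun r => by
        have h := dinvHom_of b c (algebraMap k A r)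
        exact h }
    { dinvHom b c with
      commutes' := fun r => by
        have h := dinvHom_of b c (algebraMap k A r)
        exact h }
    (AlgHom.ext fun x => RingHom.congr_fun (dinvHom_comp b c) x)
    (AlgHom.ext fun x => RingHom.congr_fun (dinvHom_comp b c) x)

lemma dinv_of (a : A) : dinv b c k (algebraMap A (Dr A b c) a) = algebraMap A (Dr A b c) a :=
  dinvHom_of b c a

lemma dinv_rt : dinv b c k (rt b c) = - algebraMap A (Dr A b c) b - rt b c := dinvHom_rt b c

lemma dinv_dinv (x : Dr A b c) : dinv b c k (dinv b c k x) = x :=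
  RingHom.congr_fun (dinvHom_comp b c) x

end Inv

variable {k : Type} [Field k]

/-- An automorphism of an algebra as a closed immersion of the affine variety. -/
noncomputable def autc {A : Type} [CommRing A] [Algebra k A] [Algebra.FiniteType k A]
    (t : A ≃ₐ[k] A) : ClosedIn (aff k A) (aff k A) :=
  clo (t : A →ₐ[k] A) t.surjective

variable {E : Type} [Field E]

/-- The pull-back of the push-forward of a class `m` along the double cover
`Spec A[t] / (t ^ 2 + b t + c) → Spec A` is the sum of `m` and its image under the involution. -/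
def DblMaps.Galois {T : ∀ i : ℕ, Homology.{v} k E i} (S : DblMaps T) (G : ProperMaps T) : Prop :=
  ∀ (i n : ℕ) (A : Type) [CommRing A] [Algebra k A] [Algebra.FiniteType k A] (b c : A)
    (m : (T i).H n (aff k (Dr A b c))),
    S.D i n A b c (G.G i n (dbl b c k) m) = m + (T i).P n (autc (dinv b c k)) m

/-- The automorphism `t` acts trivially on the homology of degree at least `2 i` and on the
`i`-dimensional cycles modulo rational equivalence. -/
structure TR (T : ∀ i : ℕ, Homology.{v} k E i) (i : ℕ) (A : Type) [CommRing A] [Algebra k A]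
    [Algebra.FiniteType k A] (t : A ≃ₐ[k] A) : Prop where
  hom : ∀ n, 2 * i ≤ n → ∀ m : (T i).H n (aff k A), (T i).P n (autc t) m = m
  cyc : ∀ c : Pts i (aff k A) →₀ E, c - pushCyc (autc t) c ∈ ratZero E i (aff k A)

/-! ## Quadratic forms -/

/-- The matrix of second derivatives of a quadratic form. -/
noncomputable def gram {A : Type} [CommRing A] {n : ℕ} (f : MvPolynomial (Fin n) A) :
    Matrix (Fin n) (Fin n) A :=
  fun i j => MvPolynomial.coeff 0 (MvPolynomial.pderiv i (MvPolynomial.pderiv j f))

/-- The form `f_0 + t_1 f_1 + ... + t_q f_q` over `R[t_1, ..., t_q]`. -/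
noncomputable def gen {R : Type} [CommRing R] {n q : ℕ}
    (f : Fin (q + 1) → MvPolynomial (Fin n) R) : MvPolynomial (Fin n) (MvPolynomial (Fin q) R) :=
  MvPolynomial.map MvPolynomial.C (f 0) +
    ∑ j, MvPolynomial.C (MvPolynomial.X j) * MvPolynomial.map MvPolynomial.C (f j.succ)

end QCV
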