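import Pool.Agent.QCV.StE1

/-!
# UG2: the open part of `x_0 ^ 2 = g x_1 ^ 2`
-/

set_option autoImplicit false

open Polynomial

namespace QCV

namespace UG2

variable (k B : Type) [Field k] [CommRing B] [Algebra k B] (g : B)

theorem rt_sq : (rt 0 (-g) : Dr B 0 (-g)) ^ 2 = algebraMap B (Dr B 0 (-g)) g := by
  have h := rt_eq (0 : B) (-g)
  rw [map_zero, map_neg] at h
  linear_combination h

/-- The map `x_0 ↦ t X, x_1 ↦ X`. -/
noncomputable def v : MvPolynomial (Fin 2) B →ₐ[k] (Dr B 0 (-g))[X] :=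
  (MvPolynomial.aeval (R := B) ![C (rt 0 (-g)) * X, X]).restrictScalars k

theorem v_C (b : B) : v k B g (MvPolynomial.C b) = C (algebraMap B (Dr B 0 (-g)) b) := by
  change MvPolynomial.aeval (R := B) ![C (rt 0 (-g)) * X, X] (MvPolynomial.C b) = _
  rw [MvPolynomial.aeval_C]
  rfl

theorem v_X0 : v k B g (MvPolynomial.X 0) = C (rt 0 (-g)) * X := by
  change MvPolynomial.aeval (R := B) ![C (rt 0 (-g)) * X, X] (MvPolynomial.X 0) = _
  rw [MvPolynomial.aeval_X]
  rfl

theorem v_X1 : v k B g (MvPolynomial.X 1) = X := by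
  change MvPolynomial.aeval (R := B) ![C (rt 0 (-g)) * X, X] (MvPolynomial.X 1) = _
  rw [MvPolynomial.aeval_X]
  rfl

theorem v_eq : v k B g (MvPolynomial.X 0 ^ 2 - MvPolynomial.C g * MvPolynomial.X 1 ^ 2) = 0 := by
  rw [map_sub, map_mul, map_pow, map_pow, v_C, v_X0, v_X1, mul_pow, ← C_pow, rt_sq, sub_self]

end UG2

open UG2

theorem t_UG2 : S_UG2 := by
  intro k B _ _ _ g
  let f : Fin 1 → MvPolynomial (Fin 2) B :=
    fun _ => MvPolynomial.X 0 ^ 2 - MvPolynomial.C g * MvPolynomial.X 1 ^ 2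
  let L := Localization.Away (X : (Dr B 0 (-g))[X])
  let w : (Dr B 0 (-g))[X] →ₐ[k] L := IsScalarTower.toAlgHom k _ _
  have hz : ∀ a ∈ Ideal.span (Set.range f), (w.comp (v k B g)) a = 0 := by
    intro a ha
    have h1 : Ideal.span (Set.range f) ≤ RingHom.ker (w.comp (v k B g)) := by
      rw [Ideal.span_le]
      rintro _ ⟨i, rfl⟩
      change w (v k B g (MvPolynomial.X 0 ^ 2 - MvPolynomial.C g * MvPolynomial.X 1 ^ 2)) = 0
      rw [v_eq, map_zero]
    exact h1 ha
  let u : ER f →ₐ[k] L := Ideal.Quotient.liftₐ _ (w.comp (v k B g)) hz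
  have hu : ∀ F, u (Ideal.Quotient.mk _ F) = algebraMap _ L (v k B g F) := fun F => rfl
  refine ⟨u, ?_⟩
  let _ : Algebra (ER f) L := u.toRingHom.toAlgebra
  let m : MvPolynomial (Fin 2) B →+* ER f := Ideal.Quotient.mk (Ideal.span (Set.range f))
  have hm : m (MvPolynomial.X 0) ^ 2 = m (MvPolynomial.C g) * m (MvPolynomial.X 1) ^ 2 := by
    rw [← sub_eq_zero, ← map_pow, ← map_pow, ← map_mul, ← map_sub]
    exact Ideal.Quotient.eq_zero_iff_mem.2 (Ideal.subset_span ⟨0, rfl⟩)
  have hux : IsUnit (u.toRingHom (m (MvPolynomial.X 1))) := by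
    change IsUnit (algebraMap _ L (v k B g (MvPolynomial.X 1)))
    rw [v_X1]
    exact IsLocalization.Away.algebraMap_isUnit (S := L) (X : (Dr B 0 (-g))[X])
  let W := Localization.Away (m (MvPolynomial.X 1))
  let a : ER f →+* W := algebraMap (ER f) W
  let i : W := IsLocalization.Away.invSelf (m (MvPolynomial.X 1))
  have hi : a (m (MvPolynomial.X 1)) * i = 1 :=
    IsLocalization.Away.mul_invSelf (S := W) (m (MvPolynomial.X 1))
  have hr : (dpoly 0 (-g)).eval₂ (a.comp (m.comp MvPolynomial.C))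
      (a (m (MvPolynomial.X 0)) * i) = 0 := by
    rw [eval₂_dpoly, map_zero, map_neg]
    have h1 : a (m (MvPolynomial.X 0)) ^ 2 = a (m (MvPolynomial.C g)) *
        a (m (MvPolynomial.X 1)) ^ 2 := by
      rw [← map_pow, hm, map_mul, map_pow]
    change (a (m (MvPolynomial.X 0)) * i) ^ 2 + 0 * (a (m (MvPolynomial.X 0)) * i) +
      -(a (m (MvPolynomial.C g))) = 0
    linear_combination i ^ 2 * h1 + a (m (MvPolynomial.C g)) *
      (a (m (MvPolynomial.X 1)) * i + 1) * hi
  let δ : Dr B 0 (-g) →+* W :=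
    AdjoinRoot.lift (a.comp (m.comp MvPolynomial.C)) (a (m (MvPolynomial.X 0)) * i) hr
  have hδ : ∀ b : B, δ (algebraMap B _ b) = a (m (MvPolynomial.C b)) := fun b =>
    AdjoinRoot.lift_of _
  have hδt : δ (rt 0 (-g)) = a (m (MvPolynomial.X 0)) * i := AdjoinRoot.lift_root _
  let e : (Dr B 0 (-g))[X] →+* W := Polynomial.eval₂RingHom δ (a (m (MvPolynomial.X 1)))
  have heX : e X = a (m (MvPolynomial.X 1)) := Polynomial.eval₂_X _ _
  have heC : ∀ d, e (C d) = δ d := fun d => Polynomial.eval₂_C _ _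
  have heU : IsUnit (e X) := by
    rw [heX]
    exact IsLocalization.Away.algebraMap_isUnit (S := W) (m (MvPolynomial.X 1))
  let ε : L →+* W := IsLocalization.Away.lift (X : (Dr B 0 (-g))[X]) heU
  have hε : ∀ p, ε (algebraMap _ L p) = e p := fun p => IsLocalization.Away.lift_eq _ heU p
  let η : W →+* L := IsLocalization.Away.lift (m (MvPolynomial.X 1)) hux
  have hη : ∀ r, η (a r) = u r := fun r => IsLocalization.Away.lift_eq _ hux r
  have hηx : ∀ F, η (a (m F)) = algebraMap _ L (v k B g F) := fun F => (hη _).trans (hu F)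
  have hηi : algebraMap _ L (X : (Dr B 0 (-g))[X]) * η i = 1 := by
    have h := congrArg η hi
    rw [map_mul, map_one, hηx, v_X1] at h
    exact h
  have h1 : η.comp ε = RingHom.id L := by
    refine IsLocalization.ringHom_ext (Submonoid.powers (X : (Dr B 0 (-g))[X])) ?_
    refine Polynomial.ringHom_ext' ?_ ?_
    · refine AdjoinRoot.ringHom_ext ?_ ?_
      · ext b
        change η (ε (algebraMap _ L (C (algebraMap B (Dr B 0 (-g)) b)))) =
          algebraMap _ L (C (algebraMap B (Dr B 0 (-g)) b))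
        rw [hε, heC, hδ, hηx, v_C]
      · change η (ε (algebraMap _ L (C (rt 0 (-g))))) = algebraMap _ L (C (rt 0 (-g)))
        rw [hε, heC, hδt, map_mul, hηx, v_X0, map_mul, mul_assoc, hηi, mul_one]
    · change η (ε (algebraMap _ L X)) = algebraMap _ L X
      rw [hε, heX, hηx, v_X1]
  have h2 : ε.comp η = RingHom.id W := by
    refine IsLocalization.ringHom_ext (Submonoid.powers (m (MvPolynomial.X 1))) ?_
    refine Ideal.Quotient.ringHom_ext ?_
    refine MvPolynomial.ringHom_ext (fun b => ?_) (fun j => ?_)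
    · change ε (η (a (m (MvPolynomial.C b)))) = a (m (MvPolynomial.C b))
      rw [hηx, hε, v_C, heC, hδ]
    · change ε (η (a (m (MvPolynomial.X j)))) = a (m (MvPolynomial.X j))
      rw [hηx, hε]
      fin_cases j
      · change e (v k B g (MvPolynomial.X 0)) = a (m (MvPolynomial.X 0))
        rw [v_X0, map_mul, heC, heX, hδt, mul_assoc, mul_comm i, hi, mul_one]
      · change e (v k B g (MvPolynomial.X 1)) = a (m (MvPolynomial.X 1))
        rw [v_X1, heX]
  exact IsLocalization.isLocalization_of_algEquiv (Submonoid.powers (m (MvPolynomial.X 1)))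
    (AlgEquiv.ofRingEquiv (R := ER f) (f := RingEquiv.ofRingHom η ε h1 h2) hη)

end QCV
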