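import Pool.Agent.QCV.Defs

/-!
# QCV, block F (homology): the class of varieties
-/

set_option autoImplicit false

open CategoryTheory AlgebraicGeometry Limits Polynomial TopologicalSpace

namespace QCV

open Pool.Agent.Lib_helper55.Beil Pool.Agent.Lib_helper66.OneP CUB

universe v

variable {k : Type} [Field k] {E : Type} [Field E]

/-- The homology class `m` of degree `n` on `X` has support of dimension at most `e`: it comes from a
closed subset. -/
def Supp {i : ℕ} (T : Homology.{v} k E i) (n e : ℕ) (X : Var k) (m : T.H n X) : Prop :=
  ∃ C : Closeds X.X, (∀ x ∈ C, X.dim x ≤ e) ∧ ∃ b : T.H n (closedVar X C),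
    T.P n (closedVarIn X C) b = m

/-- The class of varieties: the generalised eigenspace of Frobenius for the eigenvalue one on
`H_2i(Xbar, Q_l(i))` is spanned by cycle classes (`Surj` and `Semisimple`), cycles with class zero are
rationally equivalent to zero, and the classes in the generalised eigenspace of
`H_(2i+1)(Xbar, Q_l(i))` have support of dimension at most `i + 1`. -/
def PF {i : ℕ} (T : Homology.{v} k E i) (X : Var k) : Prop :=
  T.gen X ≤ T.alg X ∧ T.InjC X ∧ ∀ m ∈ gen1 T X, Supp T (2 * i + 1) (i + 1) X m

/-- The class in all dimensions. -/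
def PPF (T : ∀ i : ℕ, Homology.{v} k E i) (X : Var k) : Prop := ∀ i : ℕ, PF (T i) X

end QCV
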