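import Pool.Agent.QCV.F_SUP
import Pool.Agent.CUB2.H_DST

/-!
# QCV, block F: closures of locally closed subvarieties, supports of rational equivalence
-/

set_option autoImplicit false

open CategoryTheory AlgebraicGeometry Limits Polynomial TopologicalSpace

namespace QCV

open Pool.Agent.Lib_helper55.Beil Pool.Agent.Lib_helper66.OneP CUB

universe v

variable {k : Type} [Field k] {E : Type} [Field E]

/-- In a Noetherian sober space every point is a specialisation of a point of a given dense open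
subset. -/
lemma exists_specializes (W : Var k) (O : W.X.Opens) (hO : Dense (O : Set W.X)) (w : W.X) :
    ∃ x ∈ O, x ⤳ w := by
  obtain ⟨η, hηw, hη⟩ := exists_maximal W w
  refine ⟨η, ?_, hηw⟩
  have hC : closure ({η} : Set W.X) ∈ irreducibleComponents W.X := by
    refine ⟨isIrreducible_singleton.closure, ?_⟩
    intro D hD hD2
    obtain ⟨ξ, hξ⟩ := QuasiSober.sober hD.closure isClosed_closure
    have h1 : ξ ⤳ η := by
      rw [specializes_iff_mem_closure, hξ.def]
      exact subset_closure (hD2 (subset_closure rfl))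
    have h2 := hη ξ h1
    subst h2
    rw [hξ.def]
    exact subset_closure
  let U₁ : W.X.Opens := Scheme.irreducibleComponentOpen W.X (closure {η})
  have hηU₁ : η ∈ U₁ := by
    change η ∈ (⋃₀ (irreducibleComponents W.X \ {closure {η}}))ᶜ
    rintro ⟨D, ⟨hD1, hD2⟩, hD3⟩
    have hDc : IsClosed D := isClosed_of_mem_irreducibleComponents D hD1
    have h1 : closure ({η} : Set W.X) ≤ D :=
      closure_minimal (Set.singleton_subset_iff.mpr hD3) hDc
    exact hD2 (le_antisymm (hC.2 hD1.1 h1) h1)
  obtain ⟨y, hy1, hy2⟩ := hO.inter_open_nonempty _ U₁.2 ⟨η, hηU₁⟩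
  have h1 : η ⤳ y := by
    rw [specializes_iff_mem_closure]
    by_contra hcon
    apply (show y ∉ ⋃₀ (irreducibleComponents W.X \ {closure {η}}) from hy1)
    refine ⟨irreducibleComponent y, ⟨irreducibleComponent_mem_irreducibleComponents y, ?_⟩,
      mem_irreducibleComponent⟩
    intro h1
    apply hcon
    rw [← (show irreducibleComponent y = closure {η} from h1)]
    exact mem_irreducibleComponent
  exact h1.mem_open O.2 hy2

/-- The scheme-theoretic image of a morphism from a reduced scheme is reduced. -/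
lemma isReduced_image {A B : Scheme.{0}} (f : A ⟶ B) [QuasiCompact f] [IsReduced A] :
    IsReduced f.image := by
  change IsReduced f.ker.subscheme
  have h : ∀ U, IsReduced (f.ker.subschemeCover.openCover.X U) := by
    intro U
    change IsReduced (Spec (.of (Γ(B, U.1) ⧸ f.ker.ideal U)))
    have : _root_.IsReduced (Γ(B, U.1) ⧸ f.ker.ideal U) := by
      rw [← Ideal.isRadical_iff_quotient_reduced, f.ker_apply]
      intro x hx
      obtain ⟨n, hn⟩ := hx
      rw [RingHom.mem_ker] at hn ⊢
      rw [map_pow] at hn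
      exact IsReduced.eq_zero _ ⟨n, hn⟩
    have : _root_.IsReduced (CommRingCat.of (Γ(B, U.1) ⧸ f.ker.ideal U)) := this
    infer_instance
  exact IsReduced.of_openCover _ f.ker.subschemeCover.openCover

/-- The closure of a closed subvariety of an open subvariety. -/
lemma exists_closure {U X D : Var k} (j : OpenIn U X) (b : ClosedIn D U) :
    ∃ (W : Var k) (a : ClosedIn W X) (h : OpenIn D W), h.g ≫ a.g = b.g ≫ j.g ∧
      (∀ w, a.g w ∈ Set.range j.g → w ∈ Set.range h.g) ∧ (∀ w : W.X, ∃ d, h.g d ⤳ w) ∧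
      (IsReduced D.X → IsReduced W.X) := by
  have hb := b.closed
  have hj := j.isOpen
  let f : D.X ⟶ X.X := b.g ≫ j.g
  have hf1 : IsImmersion f := inferInstance
  have e : f ≫ X.f = D.f := by
    rw [Category.assoc, j.comm, b.comm]
  have hf2 : QuasiCompact f := by
    have : QuasiCompact (f ≫ X.f) := by
      rw [e]
      infer_instance
    exact QuasiCompact.of_comp f X.f
  let W : Var k :=
    { X := f.image
      f := f.imageι ≫ X.f
      sep := inferInstance
      lft := inferInstance
      qc := inferInstance }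
  have ha : IsClosedImmersion f.imageι := inferInstance
  let a : ClosedIn W X := ⟨f.imageι, rfl, ha⟩
  have hcomm : f.toImage ≫ f.imageι = b.g ≫ j.g := f.toImage_imageι
  let h : OpenIn D W := ⟨f.toImage, by
    change f.toImage ≫ f.imageι ≫ X.f = D.f
    rw [← Category.assoc, hcomm, Category.assoc, j.comm, b.comm],
    inferInstanceAs (IsOpenImmersion f.toImage)⟩
  have hh := h.isOpen
  have hpt : ∀ w, a.g (h.g w) = j.g (b.g w) := by
    intro w
    rw [← Scheme.Hom.comp_apply, show h.g ≫ a.g = b.g ≫ j.g from hcomm, Scheme.Hom.comp_apply]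
  have hr : ∀ w, a.g w ∈ Set.range j.g → w ∈ Set.range h.g := by
    rintro w ⟨u, hu⟩
    have h1 : a.g w ∈ closure (Set.range f) := by
      have h2 : Set.range f.imageι = (f.ker.support : Set X.X) :=
        Scheme.IdealSheafData.range_subschemeι _
      have h3 : a.g w ∈ Set.range f.imageι := ⟨w, rfl⟩
      rw [h2, Scheme.Hom.support_ker] at h3
      exact h3
    have h4 : u ∈ j.g ⁻¹' closure (Set.range f) := by
      change j.g u ∈ closure (Set.range f)
      rw [hu]
      exact h1
    rw [j.g.isOpenEmbedding.isOpenMap.preimage_closure_eq_closure_preimage j.g.continuous] at h4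
    have h5 : j.g ⁻¹' Set.range f = Set.range b.g := by
      ext v
      constructor
      · rintro ⟨w', hw'⟩
        refine ⟨w', openIn_injective j ?_⟩
        rw [← hw', Scheme.Hom.comp_apply]
      · rintro ⟨w', rfl⟩
        exact ⟨w', by rw [Scheme.Hom.comp_apply]⟩
    rw [h5, b.g.isClosedEmbedding.isClosed_range.closure_eq] at h4
    obtain ⟨w', rfl⟩ := h4
    refine ⟨w', ?_⟩
    apply closedIn_injective a
    rw [hpt, hu]
  refine ⟨W, a, h, hcomm, hr, fun w => ?_, fun hD => isReduced_image f⟩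
  have hd : Dense ((h.g.opensRange : W.X.Opens) : Set W.X) := (IsDominant.denseRange (f := f.toImage))
  obtain ⟨x, ⟨d, rfl⟩, hx⟩ := exists_specializes W h.g.opensRange hd w
  exact ⟨d, hx⟩

/-- The intersection of two closed subvarieties. -/
lemma exists_inter {W Z X : Var k} (a : ClosedIn W X) (c : ClosedIn Z X) :
    ∃ (Y : Var k) (p : ClosedIn Y W) (q : ClosedIn Y Z), p.g ≫ a.g = q.g ≫ c.g ∧
      ∀ w, w ∈ Set.range p.g ↔ a.g w ∈ Set.range c.g := by
  have ha := a.closed
  have hc := c.closed
  let Y : Var k :=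
    { X := pullback a.g c.g
      f := pullback.snd a.g c.g ≫ Z.f
      sep := inferInstance
      lft := inferInstance
      qc := inferInstance }
  have hcomm : pullback.fst a.g c.g ≫ a.g = pullback.snd a.g c.g ≫ c.g := pullback.condition
  have h1 : IsClosedImmersion (pullback.fst a.g c.g) := inferInstance
  have h2 : IsClosedImmersion (pullback.snd a.g c.g) := inferInstance
  refine ⟨Y, ⟨pullback.fst a.g c.g, ?_, h1⟩, ⟨pullback.snd a.g c.g, rfl, h2⟩, hcomm, ?_⟩
  · change pullback.fst a.g c.g ≫ W.f = pullback.snd a.g c.g ≫ Z.f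
    rw [← a.comm, ← c.comm, ← Category.assoc, ← Category.assoc, hcomm]
  · intro w
    have h4 := Scheme.Pullback.range_fst a.g c.g
    change w ∈ Set.range (pullback.fst a.g c.g) ↔ _
    rw [h4]
    rfl

/-- The boundary of the closure of a closed subvariety of an open subvariety. -/
lemma exists_boundary {Z U X D : Var k} (a : ClosedIn Z X) (j : OpenIn U X)
    (hc : Complementary a j) (b : ClosedIn D U) (e : ℕ) (hD : D.DimLE (e + 1 : ℕ)) :
    ∃ (W : Var k) (w : ClosedIn W X) (h : OpenIn D W) (B : Var k) (p : ClosedIn B W)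
      (q : ClosedIn B Z), Complementary p h ∧ p.g ≫ w.g = q.g ≫ a.g ∧ h.g ≫ w.g = b.g ≫ j.g ∧
      W.DimLE (e + 1 : ℕ) ∧ B.DimLE e ∧ (IsReduced D.X → IsReduced W.X) := by
  obtain ⟨W, w, h, h1, h2, h3, h0⟩ := exists_closure j b
  obtain ⟨B, p, q, h4, h5⟩ := exists_inter w a
  have hh := h.isOpen
  have hp := p.closed
  have hcomp : Complementary p h := by
    ext x
    rw [h5, show Set.range a.g = (Set.range j.g)ᶜ from hc, Set.mem_compl_iff, Set.mem_compl_iff,
      not_iff_not]
    constructor
    · exact h2 x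
    · rintro ⟨d, rfl⟩
      refine ⟨b.g d, ?_⟩
      rw [← Scheme.Hom.comp_apply, ← Scheme.Hom.comp_apply, h1]
  have hW : W.DimLE (e + 1 : ℕ) := by
    intro x
    obtain ⟨d, hd⟩ := h3 x
    refine (dim_le_of_specializes W hd).trans ?_
    rw [dim_map h.g h.comm]
    exact hD d
  refine ⟨W, w, h, B, p, q, hcomp, h4, h1, hW, ?_, h0⟩
  intro x
  rw [← dim_map p.g p.comm]
  obtain ⟨d, hd⟩ := h3 (p.g x)
  have hne : h.g d ≠ p.g x := by
    intro he
    have h6 : p.g x ∈ Set.range p.g := ⟨x, rfl⟩
    rw [show Set.range p.g = (Set.range h.g)ᶜ from hcomp] at h6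
    exact h6 ⟨d, he⟩
  have h7 := (t_DST.1 k W (h.g d) (p.g x) hd hne).trans_le ((dim_map h.g h.comm d).trans_le (hD d))
  obtain ⟨n, hn⟩ := t_DST.2.1 k W (p.g x)
  rw [hn] at h7 ⊢
  have h8 : n < e + 1 := by exact_mod_cast h7
  exact_mod_cast Nat.lt_succ_iff.mp h8

/-- Push-forward of a divisor. -/
lemma isDiv_push {i : ℕ} {W Z X : Var k} [IsIntegral W.X] (b : ClosedIn W Z) (a : ClosedIn Z X)
    (φ : W.X.functionField) (c : Pts i Z →₀ E) (hc : IsDiv b φ c) :
    IsDiv (b.trans a) φ (pushCyc a c) := by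
  constructor
  · intro w h
    have hw : Z.dim (b.g w) = i := by
      have := a.closed
      rw [← dim_map a.g a.comm]
      exact h
    have h5 : Finsupp.mapDomain (ptsMap i a) c (ptsMap i a (Subtype.mk (b.g w) hw : Pts i Z)) =
        c (Subtype.mk (b.g w) hw : Pts i Z) :=
      Finsupp.mapDomain_apply (ptsMap_injective i a) _ _
    exact h5.trans (hc.1 w hw)
  · intro x hx
    by_cases hx2 : x ∈ Set.range (ptsMap i a)
    · obtain ⟨z, rfl⟩ := hx2
      rw [pushCyc, Finsupp.mapDomain_apply (ptsMap_injective i a)]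
      apply hc.2
      rintro ⟨w, hw⟩
      exact hx ⟨w, congrArg a.g hw⟩
    · exact Finsupp.mapDomain_of_notMem_range _ _ hx2

lemma pushCyc_comp {i : ℕ} {W Z X : Var k} (b : ClosedIn W Z) (a : ClosedIn Z X)
    (c : ClosedIn W X) (h : b.g ≫ a.g = c.g) (z : Pts i W →₀ E) :
    pushCyc a (pushCyc b z) = pushCyc c z := by
  rw [pushCyc, pushCyc, pushCyc, ← Finsupp.mapDomain_comp]
  congr 1
  funext x
  refine Subtype.ext ?_
  change a.g (b.g x.1) = c.g x.1
  rw [← h, Scheme.Hom.comp_apply]

/-- A cycle which is rationally equivalent to zero is so on a closed subset of dimension at most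
`i + 1`. -/
lemma ratZero_supp {i : ℕ} (X : Var k) (c : Pts i X →₀ E) (hc : c ∈ ratZero E i X) :
    ∃ C : Closeds X.X, (∀ x ∈ C, X.dim x ≤ (i + 1 : ℕ)) ∧
      ∃ c' ∈ ratZero E i (closedVar X C), pushCyc (closedVarIn X C) c' = c := by
  induction hc using Submodule.span_induction with
  | mem c hc =>
    obtain ⟨W, hW, a, φ, h1, h2, h3⟩ := hc
    have ha : ∀ w, a.g w ∈ ran a := fun w => ⟨w, rfl⟩
    obtain ⟨c', hc'⟩ := exists_div (E := E) (i := i) (factorC a (ran a) ha) φ h2
    refine ⟨ran a, ?_, c', Submodule.subset_span ⟨W, hW, _, φ, h1, h2, hc'⟩, ?_⟩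
    · rintro x ⟨w, rfl⟩
      have := a.closed
      rw [dim_map a.g a.comm, ← h1]
      exact dim_le_of_specializes W (genericPoint_specializes w)
    · have h4 := isDiv_push _ (closedVarIn X (ran a)) φ c' hc'
      have h5 : (factorC a (ran a) ha).trans (closedVarIn X (ran a)) = a :=
        closedIn_ext (factorC_comp a (ran a) ha)
      rw [h5] at h4
      exact isDiv_unique a φ _ _ h4 h3
  | zero => exact ⟨⊥, fun x hx => hx.elim, 0, zero_mem _, by simp [pushCyc]⟩
  | add x y _ _ hx hy =>
    obtain ⟨C, hC, c, hc, rfl⟩ := hx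
    obtain ⟨C', hC', c', hc', rfl⟩ := hy
    refine ⟨C ⊔ C', ?_, pushCyc (closedVarMap X (le_sup_left : C ≤ C ⊔ C')) c +
      pushCyc (closedVarMap X (le_sup_right : C' ≤ C ⊔ C')) c', add_mem (pushCyc_ratZero _ _ hc)
      (pushCyc_ratZero _ _ hc'), ?_⟩
    · rintro x (hx | hx)
      · exact hC x hx
      · exact hC' x hx
    · rw [← pushCyc_comp _ _ _ (closedVarMap_comp X (le_sup_left : C ≤ C ⊔ C')),
        ← pushCyc_comp _ _ _ (closedVarMap_comp X (le_sup_right : C' ≤ C ⊔ C'))]
      exact Finsupp.mapDomain_add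
  | smul r x _ hx =>
    obtain ⟨C, hC, c, hc, rfl⟩ := hx
    exact ⟨C, hC, r • c, Submodule.smul_mem _ _ hc, Finsupp.mapDomain_smul _ _⟩

end QCV
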