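import Pool.Agent.QCV.FDefs

/-!
# QCV, block F: supports of homology classes
-/

set_option autoImplicit false

open CategoryTheory AlgebraicGeometry Limits Polynomial TopologicalSpace

namespace QCV

open Pool.Agent.Lib_helper55.Beil Pool.Agent.Lib_helper66.OneP CUB

universe v

variable {k : Type} [Field k] {E : Type} [Field E] {T : ∀ i : ℕ, Homology.{v} k E i}

/-- The push-forward from the reduced subvariety is surjective. -/
lemma push_red_surjective {i : ℕ} (T : Homology.{v} k E i) (n : ℕ) (X : Var k) :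
    Function.Surjective (T.P n (redVarIn X)) := by
  intro m
  have h := (T.exact_X n (redVarIn X) (openVarIn X ⊥) (complementary_red X) m).mp
  have hs := T.empty n _ (isEmpty_openVar_bot X)
  obtain ⟨z, hz⟩ := h (Subsingleton.elim _ _)
  exact ⟨z, hz⟩

lemma dimLE_red {X : Var k} {d : ℕ} (h : X.DimLE d) : (redVar X).DimLE d := by
  intro x
  have := (redVarIn X).closed
  rw [← dim_map (redVarIn X).g (redVarIn X).comm]
  exact h _

lemma dimLE_closed {Z X : Var k} (a : ClosedIn Z X) {d : ℕ} (h : X.DimLE d) : Z.DimLE d := by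
  intro x
  have := a.closed
  rw [← dim_map a.g a.comm]
  exact h _

/-- The underlying closed set of a closed immersion. -/
def ran {Z X : Var k} (a : ClosedIn Z X) : Closeds X.X :=
  ⟨Set.range a.g, by have := a.closed; exact a.g.isClosedEmbedding.isClosed_range⟩

lemma mem_ran {Z X : Var k} (a : ClosedIn Z X) (x : X.X) : x ∈ ran a ↔ x ∈ Set.range a.g :=
  Iff.rfl

/-- A class which comes from a closed subvariety of dimension at most `e`. -/
lemma supp_mk (hT : Extra T) (i n e : ℕ) {D X : Var k} (a : ClosedIn D X) (hD : D.DimLE e)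
    (b : (T i).H n D) : Supp (T i) n e X ((T i).P n a b) := by
  obtain ⟨b', rfl⟩ := push_red_surjective (T i) n D b
  have hred := isReduced_redVar D
  let c : ClosedIn (redVar D) X := (redVarIn D).trans a
  have hc : ∀ w, c.g w ∈ ran a := fun w => ⟨(redVarIn D).g w, rfl⟩
  refine ⟨ran a, ?_, (T i).P n (factorC c (ran a) hc) b', ?_⟩
  · rintro x ⟨d, rfl⟩
    have := a.closed
    rw [dim_map a.g a.comm]
    exact hD d
  · rw [hT.push_comp i n _ _ _ (factorC c (ran a) hc) (closedVarIn X (ran a)) c
      (factorC_comp c (ran a) hc), hT.push_comp i n _ _ _ (redVarIn D) a c rfl]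

lemma supp_zero {i : ℕ} (T : Homology.{v} k E i) (n e : ℕ) (X : Var k) : Supp T n e X 0 :=
  ⟨⊥, fun _ hx => hx.elim, 0, map_zero (T.push n (closedVarIn X ⊥))⟩

lemma supp_mono (hT : Extra T) (i n : ℕ) (X : Var k) {C C' : Closeds X.X} (h : C ≤ C')
    (b : (T i).H n (closedVar X C)) : ∃ b' : (T i).H n (closedVar X C'),
      (T i).P n (closedVarIn X C') b' = (T i).P n (closedVarIn X C) b :=
  ⟨(T i).P n (closedVarMap X h) b, hT.push_comp i n _ _ _ _ _ _ (closedVarMap_comp X h) b⟩

lemma supp_add (hT : Extra T) (i n e : ℕ) (X : Var k) (m m' : (T i).H n X)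
    (h : Supp (T i) n e X m) (h' : Supp (T i) n e X m') : Supp (T i) n e X (m + m') := by
  obtain ⟨C, hC, b, rfl⟩ := h
  obtain ⟨C', hC', b', rfl⟩ := h'
  obtain ⟨c, hc⟩ := supp_mono hT i n X (le_sup_left : C ≤ C ⊔ C') b
  obtain ⟨c', hc'⟩ := supp_mono hT i n X (le_sup_right : C' ≤ C ⊔ C') b'
  refine ⟨C ⊔ C', ?_, c + c', ?_⟩
  · rintro x (hx | hx)
    · exact hC x hx
    · exact hC' x hx
  · rw [← hc, ← hc']
    exact map_add ((T i).push n (closedVarIn X (C ⊔ C'))) c c'

lemma supp_neg (i n e : ℕ) (X : Var k) (m : (T i).H n X)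
    (h : Supp (T i) n e X m) : Supp (T i) n e X (-m) := by
  obtain ⟨C, hC, b, rfl⟩ := h
  exact ⟨C, hC, -b, map_neg ((T i).push n (closedVarIn X C)) b⟩

/-- Push-forward along a closed immersion. -/
lemma supp_push (hT : Extra T) (i n e : ℕ) {X Y : Var k} (a : ClosedIn X Y) (m : (T i).H n X)
    (h : Supp (T i) n e X m) : Supp (T i) n e Y ((T i).P n a m) := by
  obtain ⟨C, hC, b, rfl⟩ := h
  rw [hT.push_comp i n _ _ _ (closedVarIn X C) a ((closedVarIn X C).trans a) rfl]
  refine supp_mk hT i n e _ ?_ b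
  intro x
  have h1 : (closedVarIn X C).g x ∈ (C : Set X.X) := by
    rw [← range_closedVarIn]
    exact ⟨x, rfl⟩
  have := (closedVarIn X C).closed
  rw [← dim_map (closedVarIn X C).g (closedVarIn X C).comm]
  exact hC _ h1

/-- If the class is in the generalised eigenspace for one, it comes from such a class on a closed
subvariety of dimension at most `e`. -/
lemma supp_gen (i n e : ℕ) (X : Var k) (m : (T i).H n X)
    (h : Supp (T i) n e X m) (hm : m ∈ Module.End.maxGenEigenspace ((T i).frob n X) 1) :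
    ∃ (D : Var k) (a : ClosedIn D X) (b : (T i).H n D), D.DimLE e ∧
      b ∈ Module.End.maxGenEigenspace ((T i).frob n D) 1 ∧ (T i).P n a b = m := by
  obtain ⟨C, hC, b, rfl⟩ := h
  obtain ⟨b', hb', h1⟩ := maxGen_lift ((T i).frob n (closedVar X C)) ((T i).frob n X)
    ((T i).push n (closedVarIn X C)) ((T i).push_frob n (closedVarIn X C)) hm
  refine ⟨closedVar X C, closedVarIn X C, b', ?_, hb', h1⟩
  intro x
  have h1 : (closedVarIn X C).g x ∈ (C : Set X.X) := by
    rw [← range_closedVarIn]
    exact ⟨x, rfl⟩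
  have := (closedVarIn X C).closed
  rw [← dim_map (closedVarIn X C).g (closedVarIn X C).comm]
  exact hC _ h1

/-- If `X` has dimension at most `e` there is no condition. -/
lemma supp_of_dimLE (hT : Extra T) (i n e : ℕ) (X : Var k) (hX : X.DimLE e) (m : (T i).H n X) :
    Supp (T i) n e X m := by
  have h := supp_mk hT i n e (idIn X) hX m
  rwa [hT.push_id i n X (idIn X) rfl m] at h

end QCV
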