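import Pool.Agent.QCV.Fin9

/-!
# QCV: the conjecture of Tate for smooth proper varieties and for all varieties
-/

set_option autoImplicit false

open CategoryTheory AlgebraicGeometry Polynomial

namespace QCV

open Pool.Agent.Lib_helper55.Beil Pool.Agent.Lib_helper66.OneP CUB

universe v

variable {k : Type} [Field k] {E : Type} [Field E] {T : ∀ i : ℕ, Homology.{v} k E i} {hT : Full T}

/-- The conjecture of Tate for smooth proper varieties of dimension at most `d` implies the conjecture
of Tate for all varieties of dimension at most `d`. -/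
theorem tate_of_sp [Finite k] [CharZero E] (hP : Pub2 T hT)
    (hA : Pool.Agent.Lib_helper66.OneP.Alterations k) (d : ℕ)
    (h : ∀ (Y : Var k) (D : ℕ), D ≤ d → Y.SmoothProper D → Tate T Y) (X : Var k)
    (hX : X.DimLE d) : Tate T X := by
  rw [← gg_iff]
  have hG : GGC T := ggc hP
  refine UNO.gg_auxd hG d (fun V₀ hint hdim => ?_) X ⊤ X (𝟙 _) (Category.id_comp _) inferInstance
    (fun _ => trivial) hX
  obtain ⟨D, hD⟩ := t_DST.2.1 k V₀ (genericPoint V₀.X)
  obtain ⟨U', V, Y, j, p, o, hne, hsp⟩ := hA V₀ hint D hD
  refine ⟨U', j, hne, ?_⟩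
  have hDd : D ≤ d := by
    have := hdim (genericPoint V₀.X)
    rw [hD] at this
    exact_mod_cast this
  have hj := j.isOpen
  have hU'int : IsIntegral U'.X := isIntegral_of_isOpenImmersion j.g
  exact hG.et p hU'int (hG.opn o ((gg_iff Y).mpr (h Y D hDd hsp)))

/-- The conjecture of Tate for smooth proper varieties of dimension at most `d` and for all varieties
of dimension at most `d` are equivalent. -/
theorem tate_sp_iff [Finite k] [CharZero E] (hP : Pub2 T hT)
    (hA : Pool.Agent.Lib_helper66.OneP.Alterations k) (d : ℕ) :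
    (∀ (Y : Var k) (D : ℕ), D ≤ d → Y.SmoothProper D → Tate T Y) ↔
      ∀ X : Var k, X.DimLE d → Tate T X := by
  constructor
  · exact fun h X hX => tate_of_sp hP hA d h X hX
  · intro h Y D hD hY
    refine h Y ?_
    intro x
    exact (dimLE_of_smoothProper hY x).trans (by exact_mod_cast hD)

end QCV
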