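import Pool.Agent.QCV.P_FRM
import Pool.Agent.QCV.B_UNI
import Pool.Agent.QCV.B_BPL
import Pool.Agent.QCV.B_BCO
import Pool.Agent.QCV.B_GM
import Pool.Agent.QCV.C_ASM

/-!
# QCV: quadratic forms of odd generic rank and cubic hypersurfaces belong to the class
-/

set_option autoImplicit false

open CategoryTheory AlgebraicGeometry Polynomial

namespace QCV

open Pool.Agent.Lib_helper55.Beil CUB

theorem Asm.s_BCO : S_BCO := t_BCO t_UNI t_BPL

variable {k : Type} [Field k]

/-- If the affine cone over the projective variety `X` over `R` and `Spec R` belong to the class,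
then `X` belongs to the class. -/
theorem built_of_cone {R ι : Type} [CommRing R] [Algebra k R] [Algebra.FiniteType k R] {n d : ℕ}
    (hR : Built k d (aff k R)) (f : ι → MvPolynomial (Fin (n + 1)) R) (m : ι → ℕ)
    (hf : ∀ j, (f j).IsHomogeneous (m j)) (hm : ∀ j, 1 ≤ m j)
    (h : Built k d (aff k (MvPolynomial (Fin (n + 1)) R ⧸ Ideal.span (Set.range f))))
    {X : Var k} (S : ProjSub f X) : Built k d X :=
  Asm.s_BCO k (Built k d) (fun a j hc hX hZ => Built.cut a j hc hX hZ)
    (fun a b hab hX => built_same_range a b hab hX)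
    (fun B s j hs hc hU => Built.bundle B s j hs hc hU) R ι n f m hf hm hR h X S

lemma oddCl_built (k : Type) [Field k] (d : ℕ) :
    OddCl k (fun A [CommRing A] [Algebra k A] [Algebra.FiniteType k A] => Built k d (aff k A)) :=
  fun A _ _ _ m a ha h => Built.odd A m a ha h

/-- Affine varieties defined by `q + 1` quadratic forms whose generic linear combination has odd
rank, over a base of dimension at most `e`, `q + e ≤ d + 1`. -/
theorem built_odd {R : Type} [CommRing R] [Algebra k R] [Algebra.FiniteType k R] {n q e d : ℕ}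
    (h2 : (2 : k) ≠ 0) (hed : e ≤ d) (hq : q + e ≤ d + 1) (hR : (aff k R).DimLE e)
    (f : Fin (q + 1) → MvPolynomial (Fin n) R) (hf : ∀ j, (f j).IsHomogeneous 2)
    (ho : OddGen k e f) :
    Built k d (aff k (MvPolynomial (Fin n) R ⧸ Ideal.span (Set.range f))) :=
  Built.zeros _ q f (Asm.s_QVR k (fun A [CommRing A] [Algebra k A] [Algebra.FiniteType k A] =>
    Built k d (aff k A)) d h2 (cls_built k d) (oddCl_built k d) R n q e f hed hq
    ((dimLE_aff e).1 hR) hf ho)

/-- Projective varieties defined by `q + 1` quadratic forms whose generic linear combination has odd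
rank, over a base of dimension at most `e`, `q + e ≤ d + 1`. -/
theorem built_odd_proj {R : Type} [CommRing R] [Algebra k R] [Algebra.FiniteType k R]
    {n q e d : ℕ} (h2 : (2 : k) ≠ 0) (hed : e ≤ d) (hq : q + e ≤ d + 1) (hR : (aff k R).DimLE e)
    (f : Fin (q + 1) → MvPolynomial (Fin (n + 1)) R) (hf : ∀ j, (f j).IsHomogeneous 2)
    (ho : OddGen k e f) {X : Var k} (S : ProjSub f X) : Built k d X :=
  built_of_cone (Built.small _ fun x => (hR x).trans (by exact_mod_cast hed)) f (fun _ => 2) hf
    (fun _ => by norm_num) (built_odd h2 hed hq hR f hf ho) S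

/-- Projective varieties over the affine space `R[y_1, ..., y_a]` defined by a quadratic form of odd
generic rank, `e + a ≤ d + 1`. -/
theorem built_one_proj {R : Type} [CommRing R] [Algebra k R] [Algebra.FiniteType k R]
    {n a e d : ℕ} (h2 : (2 : k) ≠ 0) (hed : e ≤ d) (ha : e + a ≤ d + 1) (hR : (aff k R).DimLE e)
    (f : MvPolynomial (Fin (n + 1)) (MvPolynomial (Fin a) R)) (hf : f.IsHomogeneous 2)
    (ho : OddOne k e f) {X : Var k} (S : ProjSub (fun _ : Fin 1 => f) X) : Built k d X := by
  have hb : Built k d (aff k R) := Built.small _ fun x => (hR x).trans (by exact_mod_cast hed)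
  refine built_of_cone ?_ (fun _ : Fin 1 => f) (fun _ => 2) (fun _ => hf) (fun _ => by norm_num)
    ?_ S
  · exact (Asm.s_PLY k _ (cls_built k d).toCls0 (cls_built k d).line R a).1 hb
  · exact Asm.s_QOP k (fun A [CommRing A] [Algebra k A] [Algebra.FiniteType k A] =>
      Built k d (aff k A)) d h2 (cls_built k d) (oddCl_built k d) R (n + 1) a e f hed ha
      ((dimLE_aff e).1 hR) hf ho

/-- Cubic hypersurfaces which contain a linear subspace, with residual quadrics of odd generic
rank. -/
theorem built_cubic {R : Type} [CommRing R] [Algebra k R] [Algebra.FiniteType k R]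
    {a s e d : ℕ} (h2 : (2 : k) ≠ 0) (hed : e ≤ d) (ha : e + a ≤ d + 1) (hs : e + s ≤ d + 1)
    (hR : (aff k R).DimLE e) (G : MvPolynomial (Fin (s + 1)) (MvPolynomial (Fin (a + 1)) R))
    (hG : G.IsHomogeneous 2) (hG' : ∀ μ, (MvPolynomial.coeff μ G).IsHomogeneous (1 + μ 0))
    (ho : d < e + a → OddOne k e (MvPolynomial.map (sp (1 : R)).toRingHom G)) {X : Var k}
    (S : ProjSub (fun _ : Fin 1 => cub G) X) : Built k d X := by
  have hb : Built k d (aff k R) := Built.small _ fun x => (hR x).trans (by exact_mod_cast hed)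
  refine built_of_cone hb (fun _ : Fin 1 => cub G) (fun _ => 3) (fun _ => t_CUH R a s G hG hG')
    (fun _ => by norm_num) ?_ S
  exact Asm.s_CUB k (fun A [CommRing A] [Algebra k A] [Algebra.FiniteType k A] =>
      Built k d (aff k A)) d h2 (cls_built k d) (oddCl_built k d) (gmCl_built k d) R a s e G hed ha
      hs ((dimLE_aff e).1 hR) hG hG' ho

end QCV
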