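import Pool.Agent.QCV.StT
import Pool.Agent.QCV.StE1
import Pool.Agent.QCV.O_ASM

/-!
# QCV, block E: statements (quadratic forms in an even number of variables), homological part
-/

set_option autoImplicit false

open CategoryTheory AlgebraicGeometry Limits Polynomial TopologicalSpace

namespace QCV

open Pool.Agent.Lib_helper55.Beil Pool.Agent.Lib_helper66.OneP CUB

universe v

/-- **EGM** (the automorphism `X ↦ - X` of `B[X, 1 / X]`).
Proof.  The strata `X = 0` (`Spec B`, on which the automorphism is the identity) and `X ≠ 0` of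
`Spec B[X]`; `TR T (i + 1) B[X] wX` by `t_OLN` (`TR` for the identity of `B`: see O_OHYP).  Homology, `n ≥ 2 (i + 1)`:
let `δ = P wU m - m`.  `∂ (P wU m) = ∂ m` (`bdl_push`, F_GLU/F_OPE), so `∂ δ = 0`, so `δ = R x`
(`hP.resExact`), `P wU δ = R (P wX x) = R x = δ` (`res_push`), and `P wU δ = m - P wU m = - δ` as `wU` is an
involution, so `2 δ = 0`.  Cycles: extend `c` to a cycle `c'` on `B[X]` (`exists_resCyc`), `c' - wX c' ∈ ratZero`,
restrict (`resCyc_ratZero`). -/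
def S_EGM : Prop :=
  ∀ (k E : Type) [Field k] [Field E] [CharZero E] (T : ∀ i : ℕ, Homology.{v} k E i) (hT : Full T),
    Pub T hT → ∀ (B : Type) [CommRing B] [Algebra k B] [Algebra.FiniteType k B]
      (wX : B[X] ≃ₐ[k] B[X])
      (wU : Localization.Away (X : B[X]) ≃ₐ[k] Localization.Away (X : B[X])),
      (∀ b, wX (C b) = C b) → wX X = - X →
      (∀ p : B[X], wU (algebraMap B[X] _ p) = algebraMap B[X] _ (wX p)) →
      ∀ i, TR T (i + 1) (Localization.Away (X : B[X])) wU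

/-- **EHT** (`x_0 x_1 + x_2 x_3 + c = 0` with `x_2 ↦ - x_2, x_3 ↦ - x_3`).
Proof.  First `TR T (i + 1) (HQ B c) w₀` for `Sgn ![-1, -1] w₀`: `t_OGLU` with `S_EHQ`, closed part by `t_OLN` (from
the identity of `B / c` at the level `i`), open part by `S_EGM`.  Then `HP B c`: `t_OGLU` with `S_EHP`, closed
part `(HQ B c)[X]` by `t_OLN` from the first step (level `i + 1`), open part by `t_OLN` twice from the identity of
`B[X, 1 / X]` at the level `i`. -/
def S_EHT : Prop :=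
  ∀ (k E : Type) [Field k] [Field E] [CharZero E] (T : ∀ i : ℕ, Homology.{v} k E i) (hT : Full T),
    Pub T hT → ∀ (B : Type) [CommRing B] [Algebra k B] [Algebra.FiniteType k B] (c : B)
      (w : HP B c ≃ₐ[k] HP B c), Sgn ![1, 1, -1, -1] w → ∀ i, TR T (i + 2) (HP B c) w

def M_EHT : Prop := S_EHQ → S_EHP → S_EGM.{v} → S_EHT.{v}

/-- **EQT** (the automorphism `x_1 ↦ - x_1, x_3 ↦ - x_3` of a quadric).
Proof.  (1) If there are `s₁, s₂ ∈ B` with `s₁ ^ 2 * a 0 = - a 2`, `s₂ ^ 2 * a 1 = - a 3`: `S_ESP`, `S_EHT` (the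
automorphism `w'` of `HP B c` exists: `S_ESG`) and `t_OISO`.  (2) If `s₁` exists: let `δ₂ a_1 = a_3`,
`B' = Dr B 0 δ₂` (`s₂ = rt`), `S_EBC`, `w'` the sign automorphism of `QC B' a c` (`S_ESG`), (1) for `B'`; `t_OISO`
and `t_ODCV` with `t' = e⁻¹ w' e`, which extends `w` (on generators).  (3) The same for `s₁`, `δ₁ a_0 = a_2`. -/
def S_EQT : Prop :=
  ∀ (k E : Type) [Field k] [Field E] [CharZero E] (T : ∀ i : ℕ, Homology.{v} k E i) (hT : Full T),
    Pub T hT → (2 : k) ≠ 0 → ∀ (B : Type) [CommRing B] [Algebra k B] [Algebra.FiniteType k B]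
      (a : Fin 4 → B) (c : B) (w : QC B a c ≃ₐ[k] QC B a c), (∀ j, IsUnit (a j)) →
      Sgn ![1, -1, 1, -1] w → ∀ i, TR T (i + 2) (QC B a c) w

def M_EQT : Prop := S_EHT.{v} → S_EBC → S_ESG → S_ESP → S_EQT.{v}

/-- **ECM** (two varieties with isomorphic double covers).
Proof.  `g₁ = dbl b₁ c₁ k`, `g₂ = dbl b₂ c₂ k`, `τ₁`, `τ₂` the involutions `autc (dinv _ _ k)`, `ε = clo e` (the
isomorphism `Spec Dr X₂ → Spec Dr X₁`), so `P τ₁ (P ε x) = P ε (P τ₂ (P w x))` for all `x` (`push_comp`), and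
similarly for cycles.  `P ε` is bijective (inverse: `e.symm`).
(0) `P τ₁ (D m) = D m`: `D (G g₁ (D m)) = D m + P τ₁ (D m)` (`Galois`), `G g₁ (D m) = 2 m` (`Degree`).  Let `μ` be
the class with `P ε μ = D m` (`n ≥ 2 i`).  Then `P τ₂ (P w μ) = μ`, and `P w μ = μ` by `TR`, so `P τ₂ μ = μ` and
`D (G g₂ μ) = 2 μ`.
(1) `gen ≤ alg`: `m ∈ gen`, `G g₂ μ ∈ gen (X₂) ≤ alg`, `= cls x`, `D (cls x) = cls z` (`exists_dbl`), so
`2 μ = cls z`, `2 D m = cls (pushCyc ε z)`, `4 m = cls (pfc g₁ ...)` (`s_PFC` (4)).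
(2) `InjC`: let `cls z = 0` on `X₁`; `z₁` on `Dr X₁` with class zero and `pfc g₁ z₁ = 2 z` (`exists_dbl`), `z₂` its
transport to `Dr X₂`.  `pfc g₂ z₂` has class zero, so it is in `ratZero` and `= pfc g₂ z'`, `z' ∈ ratZero`
(`t_OLFT`, see O_OPFD).  `t_OKER`: `z₂ + τ₂ z₂ = z' + τ₂ z' ∈ ratZero`.  Transport to `Dr X₁` (`TR` for cycles):
`z₁ + τ₁ z₁ ∈ ratZero`; apply `pfc g₁`: `4 z ∈ ratZero` (`CUB.Asm2.s_PUSHG`).
(3) supports: `m ∈ gen1`, `n = 2 i + 1`: `G g₂ μ ∈ gen1 (X₂)` is `P ι w'`, `W = Spec X₂ / I` of dimension `≤ i + 1`;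
`W' = Spec Dr (X₂ / I)`, `w'' = D w' / 2`, `ι'' : W' → Spec Dr X₂`: `G g₂ (P ι'' w'') = P ι w' = G g₂ μ`.  Apply
`D`: `P ι'' w'' + P τ₂ (P ι'' w'') = 2 μ`.  So `μ`, `D m` and `2 m = G g₁ (D m)` have support of dimension
`≤ i + 1` (`supp_add`, `supp_push`, the push-forward lemma used in `pf_dbl`, F_DBL.lean).
(Compare `t_OPFD` in O_OPFD.lean, where `X₁` is replaced by `Dr X₂` itself; most of its lemmas apply.) -/
def S_ECM : Prop :=
  ∀ (k E : Type) [Field k] [Finite k] [Field E] [CharZero E] (T : ∀ i : ℕ, Homology.{v} k E i)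
    (hT : Full T) (S : DblMaps T), Pub T hT → S.Frobenius → S.Degree hT.toProperMaps →
    S.Classes → S.Galois hT.toProperMaps →
    ∀ (X₁ X₂ : Type) [CommRing X₁] [Algebra k X₁] [Algebra.FiniteType k X₁] [CommRing X₂]
      [Algebra k X₂] [Algebra.FiniteType k X₂] (b₁ c₁ : X₁) (b₂ c₂ : X₂)
      (e : Dr X₁ b₁ c₁ ≃ₐ[k] Dr X₂ b₂ c₂) (w : Dr X₂ b₂ c₂ ≃ₐ[k] Dr X₂ b₂ c₂),
      (∀ x, e (dinv b₁ c₁ k x) = w (dinv b₂ c₂ k (e x))) → ∀ i, TR T i (Dr X₂ b₂ c₂) w →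
      (PF (T i) (aff k X₂) → PF (T i) (aff k X₁)) ∧
        ((T i).gen (aff k X₂) ≤ (T i).alg (aff k X₂) → (T i).gen (aff k X₁) ≤ (T i).alg (aff k X₁))

/-- **EST** (the closure property for the twist, at all levels).
Proof.  Let `a' = ![a 0, - a 0, a 2, δ * a 3]`.  (1) At the levels `i + 2`: `S_ETW` gives `e, w, e', w'`; `TR T
(i + 2) _ w` by `S_EQT` for `QC (Dr B 0 (-δ)) _ _`, `w'` and `t_OISO` (`e'.symm`); `S_ECM`.  (2) Level `i`: let `B₂ =
MvPolynomial (Fin 2) B`.  From `aff k (QC B a' c)` at the level `i` to `MvPolynomial (Fin 2) (QC B a' c)` at the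
level `i + 2` by `pf_line` twice (`good_line` for `GG`; `MvPolynomial (Fin 2) R ≅ R[X][X]`: see
`pf_mv_desc`, `ppf_mv`), `S_EBM`, (1) for `B₂` (the vector `fun j => C (a' j)` is `![C (a 0), ...]`), `S_EBM`, and
descent along the polynomial ring at the level `i`: `pf_mv_desc` (G_RED3.lean), for `GG` as in T_TZE.lean
or `supp_line_desc`, `supp_cls`, `alg_of_supp` as in `gg_unline` (T_TGG.lean). -/
def S_EST : Prop :=
  ∀ (k E : Type) [Field k] [Finite k] [Field E] [CharZero E] (T : ∀ i : ℕ, Homology.{v} k E i)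
    (hT : Full T) (S : DblMaps T), Pub T hT → SectionZero T → S.Frobenius →
    S.Degree hT.toProperMaps → S.Classes → S.Galois hT.toProperMaps → (2 : k) ≠ 0 →
    TwCl k (fun A [CommRing A] [Algebra k A] [Algebra.FiniteType k A] => PPF T (aff k A)) ∧
      TwCl k (fun A [CommRing A] [Algebra k A] [Algebra.FiniteType k A] => GG T (aff k A))

def M_EST : Prop := S_ETW → S_EQT.{v} → S_ECM.{v} → S_EBM → S_EST.{v}

end QCV
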