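import Pool.Agent.QCV.Cls4
import Pool.Agent.QCV.U_FIN
import Pool.Agent.QCV.StE2

/-!
# QCV: the equivalence theorems
-/

set_option autoImplicit false

open CategoryTheory AlgebraicGeometry Limits Polynomial TopologicalSpace

namespace QCV

open Pool.Agent.Lib_helper55.Beil Pool.Agent.Lib_helper66.OneP CUB

universe v

variable {k : Type} [Field k] {E : Type} [Field E]

/-- The affine variety `f_0 = ... = f_q = 0` over `k`. -/
noncomputable abbrev zer {n q : ℕ} (f : Fin (q + 1) → MvPolynomial (Fin n) k) : Var k :=
  aff k (MvPolynomial (Fin n) k ⧸ Ideal.span (Set.range f))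

/-- The property `P` holds for the zero sets of `q + 1` quadratic forms in an odd number of variables
over `k` whose generic linear combination is nondegenerate. -/
def OddSystems (P : Var k → Prop) (q : ℕ) : Prop :=
  ∀ (n : ℕ) (f : Fin (q + 1) → MvPolynomial (Fin n) k), Odd n → (∀ j, (f j).IsHomogeneous 2) →
    (gram (gen f)).det ≠ 0 → P (zer f)

/-- The property `P` holds for the zero sets of `q + 1` quadratic forms in an even number of variables
over `k` whose generic linear combination is nondegenerate. -/
def EvenSystems (P : Var k → Prop) (q : ℕ) : Prop :=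
  ∀ (n : ℕ) (f : Fin (q + 1) → MvPolynomial (Fin n) k), Even n → (∀ j, (f j).IsHomogeneous 2) →
    (gram (gen f)).det ≠ 0 → P (zer f)

/-- The property `P` holds for the double covers `t ^ 2 = g(x_1, ..., x_m)` of the affine space. -/
def DoubleCovers (P : Var k → Prop) (m : ℕ) : Prop :=
  ∀ g : MvPolynomial (Fin m) k, P (aff k (Dr (MvPolynomial (Fin m) k) 0 (-g)))

variable {T : ∀ i : ℕ, Homology.{v} k E i} {hT : Full T}

lemma tate_iff (P : Var k → Prop) :
    (∀ X, P X → Tate T X) ↔ ∀ X, P X → GG T X :=
  forall_congr' fun X => forall_congr' fun _ => (gg_iff X).symm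

lemma oddTate_of (q : ℕ) (h : OddSystems (Tate T) q) : OddTate T q :=
  fun s f hf hd => (gg_iff _).mpr (h (1 + 2 * s) f ⟨s, by ring⟩ hf hd)

/-- Systems of `d + 2` quadratic forms in an odd number of variables belong to the class. -/
lemma member_oddSystems (h2 : (2 : k) ≠ 0) (d : ℕ) : OddSystems (Member k d) (d + 1) := by
  intro n f hn hf hd
  refine member_of_built (built_odd h2 (Nat.zero_le d) (by omega) (dimLE_of_DL (dl_field k)) f hf ?_)
  obtain ⟨s, rfl⟩ := hn
  intro p _
  have hinj : Function.Injective (genHom (d + 1) p) := by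
    have h1 : Function.Injective (Ideal.Quotient.mk p.asIdeal) := by
      rw [RingHom.injective_iff_ker_eq_bot, Ideal.mk_ker]
      exact (Ideal.eq_bot_or_top p.asIdeal).resolve_right p.isPrime.ne_top
    have h5 : Function.Injective (algebraMap (MvPolynomial (Fin (d + 1)) (k ⧸ p.asIdeal))
        (FractionRing (MvPolynomial (Fin (d + 1)) (k ⧸ p.asIdeal)))) := IsFractionRing.injective _ _
    exact h5.comp (MvPolynomial.map_injective _ h1)
  have h3 : ((gram (gen f)).map (genHom (d + 1) p)).det ≠ 0 := by
    have h4 : ((gram (gen f)).map (genHom (d + 1) p)).det = genHom (d + 1) p (gram (gen f)).det :=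
      (RingHom.map_det _ _).symm
    rw [h4]
    exact (map_ne_zero_iff _ hinj).mpr hd
  rw [Matrix.rank_of_isUnit _ ((Matrix.isUnit_iff_isUnit_det _).mpr (isUnit_iff_ne_zero.mpr h3))]
  rw [Fintype.card_fin]
  exact ⟨s, by ring⟩

section

variable [Finite k] [CharZero E]

lemma ggc (hP : Pub2 T hT) : GGC T := t_TGG k E T hT hP.toPub hP.sectionZero hP.etale

/-- The property `GG` on the class `Member`. -/
theorem gg_of_member (hEV : (2 : k) ≠ 0 →
      EvenCl k (fun A [CommRing A] [Algebra k A] [Algebra.FiniteType k A] => GG T (aff k A)))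
    (hP : Pub2 T hT) (d : ℕ) (hB : ∀ X : Var k, X.DimLE d → GG T X) (X : Var k)
    (h : Member k d X) : GG T X := by
  have hG : GGC T := ggc hP
  induction h with
  | small X hX => exact hB X hX
  | iso s _ ih => exact hG.iso s ih
  | nil a hs _ ih => exact hG.nil a hs ih
  | paste a j hc _ _ ihZ ihU => exact hG.glue a j hc ihZ ihU
  | cut a j hc _ _ ihX ihZ => exact hG.opn j ihX
  | line A _ ih => exact hG.line A ih
  | unline L _ ih => exact hG.unline L ih
  | cover A b c _ ih => exact hG.dbl A b c ih
  | etale f hint _ ih => exact hG.et f hint ih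
  | bundle B s j hs hc _ ih =>
    obtain ⟨S, hS⟩ := hP.bundles
    exact t_TBU k E T hT hP.toPub hP.sectionZero S hS B s j hs hc ih
  | odd A m a ha _ ih =>
    obtain ⟨S, h1, h2, h3, h4⟩ := hP.dbl
    exact t_TOD k E T hT S hP.toPub hP.sectionZero h1 h2 h3 h4 A m a ha ih
  | even A m a h2 ha _ ih => exact hEV h2 A m a ha ih
  | zeros A m f _ ih => exact t_TZE k E T hT hP.toPub hP.sectionZero A m f ih

/-- The conjecture of Tate in dimension at most `d` is equivalent to the conjecture of Tate for systems
of `d + 2` quadratic forms in an odd number of variables. -/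
theorem tate_odd (hP : Pub2 T hT) (h2 : (2 : k) ≠ 0) (d : ℕ) :
    (∀ X : Var k, X.DimLE d → Tate T X) ↔ OddSystems (Tate T) (d + 1) := by
  rw [tate_iff]
  constructor
  · intro h n f hn hf hd
    obtain ⟨s, rfl⟩ := hn
    have hn' : 2 * s + 1 = 1 + 2 * s := by ring
    have h3 : ∀ (n : ℕ) (_ : n = 1 + 2 * s) (f : Fin (d + 1 + 1) → MvPolynomial (Fin n) k),
        (∀ j, (f j).IsHomogeneous 2) → (gram (gen f)).det ≠ 0 → Built k d (zer f) := by
      intro n hn f hf hd
      subst hn
      exact built_oddTate h2 d f hf hd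
    exact (gg_iff _).mp (gg_of_built hP d h _ (h3 _ hn' f hf hd))
  · intro h
    exact universal hP h2 d (oddTate_of _ h)

end

end QCV
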