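import Pool.Agent.QCV.Fin9

/-!
# QCV: the final theorem
-/

set_option autoImplicit false

open CategoryTheory AlgebraicGeometry Polynomial

namespace QCV

open Pool.Agent.Lib_helper55.Beil Pool.Agent.Lib_helper66.OneP CUB

universe v

/-! ## Members of the class -/

section Members

variable (k : Type) [Field k] (d : ℕ)

/-- Affine varieties defined by any number of equations of degree at most one and `r` equations of
degree at most two over a base of dimension at most `e`, `e ≤ d`, `r + e ≤ d + 1`. -/
def Equations : Prop :=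
  ∀ (R : Type) [CommRing R] [Algebra k R] [Algebra.FiniteType k R] (n r s e : ℕ)
    (f : Fin s ⊕ Fin r → MvPolynomial (Fin n) R), e ≤ d → r + e ≤ d + 1 → (aff k R).DimLE e →
    (∀ j, (f (Sum.inl j)).totalDegree ≤ 1) → (∀ j, (f (Sum.inr j)).totalDegree ≤ 2) →
    Member k d (aff k (MvPolynomial (Fin n) R ⧸ Ideal.span (Set.range f)))

/-- Projective varieties over a base of dimension at most `e` defined by forms of arbitrary degrees:
`s` forms of degree at most one and `r` forms of degree at most two in the variables `x_i`, `i > a`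
(for `a = 0`: linear and quadratic forms), if `e + a ≤ d` and `r + e + a ≤ d + 1`. -/
def Forms : Prop :=
  ∀ (R : Type) [CommRing R] [Algebra k R] [Algebra.FiniteType k R] (n r s e a : ℕ)
    (f : Fin s ⊕ Fin r → MvPolynomial (Fin (n + 1)) R) (m : Fin s ⊕ Fin r → ℕ), e + a ≤ d →
    r + e + a ≤ d + 1 → (aff k R).DimLE e → (∀ j, (f j).IsHomogeneous (m j)) → (∀ j, 1 ≤ m j) →
    (∀ j, ∀ u ∈ (f (Sum.inl j)).support, xdeg a u ≤ 1) →
    (∀ j, ∀ u ∈ (f (Sum.inr j)).support, xdeg a u ≤ 2) →
    ∀ X : Var k, Nonempty (ProjSub f X) → Member k d X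

/-- Affine and projective varieties defined by `q + 1` quadratic forms over a base of dimension at
most `e`, `e ≤ d`, `q + e ≤ d + 1`, whose generic linear combination has odd rank over every prime of
dimension at least `e` of the base. -/
def OddForms : Prop :=
  ∀ (R : Type) [CommRing R] [Algebra k R] [Algebra.FiniteType k R] (n q e : ℕ)
    (f : Fin (q + 1) → MvPolynomial (Fin n) R), e ≤ d → q + e ≤ d + 1 → (aff k R).DimLE e →
    (∀ j, (f j).IsHomogeneous 2) → OddGen k e f →
    Member k d (aff k (MvPolynomial (Fin n) R ⧸ Ideal.span (Set.range f)))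

/-- The projective version. -/
def OddFormsProj : Prop :=
  ∀ (R : Type) [CommRing R] [Algebra k R] [Algebra.FiniteType k R] (n q e : ℕ)
    (f : Fin (q + 1) → MvPolynomial (Fin (n + 1)) R), e ≤ d → q + e ≤ d + 1 → (aff k R).DimLE e →
    (∀ j, (f j).IsHomogeneous 2) → OddGen k e f → ∀ X : Var k, Nonempty (ProjSub f X) →
    Member k d X

/-- Affine and projective varieties defined by `q + 1` quadratic forms in `n = 2 m` variables with
nondegenerate generic linear combination over an integral base `R` of dimension at most `e`, `e ≤ d`,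
`q + e ≤ d + 1`, if the discriminant double cover `t ^ 2 = (-1) ^ m det` of `Spec R[t_1, ..., t_q]` is a
member. -/
def EvenForms : Prop :=
  ∀ (R : Type) [CommRing R] [IsDomain R] [Algebra k R] [Algebra.FiniteType k R] (n m q e : ℕ)
    (f : Fin (q + 1) → MvPolynomial (Fin n) R), n = 2 * m → e ≤ d → q + e ≤ d + 1 →
    (aff k R).DimLE e → (∀ j, (f j).IsHomogeneous 2) → (gram (gen f)).det ≠ 0 →
    Member k d (aff k (Dr (MvPolynomial (Fin q) R) 0 ((-1) ^ (m + 1) * (gram (gen f)).det))) →
    Member k d (aff k (MvPolynomial (Fin n) R ⧸ Ideal.span (Set.range f)))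

/-- The projective version. -/
def EvenFormsProj : Prop :=
  ∀ (R : Type) [CommRing R] [IsDomain R] [Algebra k R] [Algebra.FiniteType k R] (n m q e : ℕ)
    (f : Fin (q + 1) → MvPolynomial (Fin (n + 1)) R), n + 1 = 2 * m → e ≤ d → q + e ≤ d + 1 →
    (aff k R).DimLE e → (∀ j, (f j).IsHomogeneous 2) → (gram (gen f)).det ≠ 0 →
    Member k d (aff k (Dr (MvPolynomial (Fin q) R) 0 ((-1) ^ (m + 1) * (gram (gen f)).det))) →
    ∀ X : Var k, Nonempty (ProjSub f X) → Member k d X

/-- The zero set of one quadratic form over an integral affine member `Spec A` of dimension at most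
`d + 1`: forms of odd rank over the fraction field (affine and projective version). -/
def OddBase : Prop :=
  ∀ (A : Type) [CommRing A] [IsDomain A] [Algebra k A] [Algebra.FiniteType k A],
    (aff k A).DimLE (d + 1 : ℕ) → Member k d (aff k A) →
    (∀ (n : ℕ) (f : MvPolynomial (Fin n) A), f.IsHomogeneous 2 →
      Odd ((gram f).map (algebraMap A (FractionRing A))).rank →
      Member k d (aff k (MvPolynomial (Fin n) A ⧸ Ideal.span (Set.range fun _ : Fin 1 => f)))) ∧
    ∀ (n : ℕ) (f : MvPolynomial (Fin (n + 1)) A), f.IsHomogeneous 2 →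
      Odd ((gram f).map (algebraMap A (FractionRing A))).rank →
      ∀ X : Var k, Nonempty (ProjSub (fun _ : Fin 1 => f) X) → Member k d X

/-- The same for nondegenerate forms in `2 m` variables whose discriminant double cover of `Spec A` is
a member (affine and projective version). -/
def EvenBase : Prop :=
  ∀ (A : Type) [CommRing A] [IsDomain A] [Algebra k A] [Algebra.FiniteType k A],
    (aff k A).DimLE (d + 1 : ℕ) →
    (∀ (n m : ℕ) (f : MvPolynomial (Fin n) A), n = 2 * m → f.IsHomogeneous 2 → (gram f).det ≠ 0 →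
      Member k d (aff k (Dr A 0 ((-1) ^ (m + 1) * (gram f).det))) →
      Member k d (aff k (MvPolynomial (Fin n) A ⧸ Ideal.span (Set.range fun _ : Fin 1 => f)))) ∧
    ∀ (n m : ℕ) (f : MvPolynomial (Fin (n + 1)) A), n + 1 = 2 * m → f.IsHomogeneous 2 →
      (gram f).det ≠ 0 → Member k d (aff k (Dr A 0 ((-1) ^ (m + 1) * (gram f).det))) →
      ∀ X : Var k, Nonempty (ProjSub (fun _ : Fin 1 => f) X) → Member k d X

/-- All hypersurfaces of degree at most three in the affine space of dimension at most `d + 3`, and all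
projective cubic hypersurfaces of dimension at most `d + 2`. -/
def Cubics : Prop :=
  (∀ (n : ℕ) (f : MvPolynomial (Fin n) k), n ≤ d + 3 → f.totalDegree ≤ 3 →
    Member k d (aff k (MvPolynomial (Fin n) k ⧸ Ideal.span (Set.range fun _ : Fin 1 => f)))) ∧
  ∀ (n : ℕ) (F : MvPolynomial (Fin (n + 1)) k), n ≤ d + 3 → F.IsHomogeneous 3 →
    ∀ X : Var k, Nonempty (ProjSub (fun _ : Fin 1 => F) X) → Member k d X

/-- Integral varieties of dimension at most `d + 1` which are separably uniruled over varieties of
dimension at most `d`. -/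
def Uniruled : Prop :=
  ∀ X : Var k, IsIntegral X.X → X.DimLE (d + 1 : ℕ) → SepUniruled d X → Member k d X

end Members

lemma equations (k : Type) [Field k] (d : ℕ) : Equations k d :=
  fun _ _ _ _ _ _ _ _ f he hr hR h1 h2 => member_of_built (built_equations f he hr hR h1 h2)

lemma forms (k : Type) [Field k] (d : ℕ) : Forms k d :=
  fun _ _ _ _ _ _ _ _ _ f m he hr hR hf hm h1 h2 _ ⟨S⟩ =>
    member_of_built (built_of_forms he hr hR f m hf hm h1 h2 S)

lemma oddForms (k : Type) [Field k] (h2 : (2 : k) ≠ 0) (d : ℕ) : OddForms k d :=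
  fun _ _ _ _ _ _ _ f he hq hR hf ho => member_of_built (built_odd h2 he hq hR f hf ho)

lemma oddFormsProj (k : Type) [Field k] (h2 : (2 : k) ≠ 0) (d : ℕ) : OddFormsProj k d :=
  fun _ _ _ _ _ _ _ f he hq hR hf ho _ ⟨S⟩ =>
    member_of_built (built_odd_proj h2 he hq hR f hf ho S)

lemma oddBase (k : Type) [Field k] (h2 : (2 : k) ≠ 0) (d : ℕ) : OddBase k d :=
  fun _ _ _ _ _ hA hb => ⟨fun _ f hf ho => member_odd_base h2 hA hb f hf ho,
    fun _ f hf ho _ ⟨S⟩ => member_odd_base_proj h2 hA hb f hf ho S⟩

lemma cubics (k : Type) [Field k] [PerfectField k] (h2 : (2 : k) ≠ 0) {d : ℕ} (hd : 1 ≤ d) :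
    Cubics k d :=
  ⟨fun _ f hn hf => member_of_built (built_cubic_affine h2 hd hn f hf),
    fun _ F hn hF _ ⟨S⟩ => member_of_built (built_cubic_proj h2 hd hn F hF S)⟩

lemma uniruled (k : Type) [Field k] (d : ℕ) : Uniruled k d :=
  fun _ hint hX h => member_of_built (built_of_uniruled hint hX h)

end QCV
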