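import Pool.Agent.QCV.F_DBL
import Pool.Agent.QCV.G_DEF

/-!
# QCV, block G: anti-invariant homology classes for an involution
-/

set_option autoImplicit false

open CategoryTheory AlgebraicGeometry Limits Polynomial TopologicalSpace

namespace QCV

open Pool.Agent.Lib_helper55.Beil Pool.Agent.Lib_helper66.OneP CUB

universe v

variable {k : Type} [Field k] {E : Type} [Field E] {T : ∀ i : ℕ, Homology.{v} k E i}

/-! ## Linearity -/

section Lin

variable {i : ℕ} (T : Homology.{v} k E i) (n : ℕ) {Z X : Var k} (a : ClosedIn Z X)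

lemma hP_add (x y : T.H n Z) : T.P n a (x + y) = T.P n a x + T.P n a y := map_add (T.push n a) x y

lemma hP_sub (x y : T.H n Z) : T.P n a (x - y) = T.P n a x - T.P n a y := map_sub (T.push n a) x y

lemma hP_neg (x : T.H n Z) : T.P n a (-x) = -T.P n a x := map_neg (T.push n a) x

lemma hP_zero : T.P n a 0 = 0 := map_zero (T.push n a)

lemma hP_smul (r : E) (x : T.H n Z) : T.P n a (r • x) = r • T.P n a x := map_smul (T.push n a) r x

end Lin

/-! ## Involutions -/

/-- `t` is an involution. -/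
def Inv {V : Var k} (t : ClosedIn V V) : Prop := t.g ≫ t.g = 𝟙 V.X

lemma Inv.isIso {V : Var k} {t : ClosedIn V V} (h : Inv t) : IsIso t.g := ⟨t.g, h, h⟩

/-- An involution as an isomorphism. -/
def Inv.viso {V : Var k} {t : ClosedIn V V} (h : Inv t) : VIso V V where
  e := ⟨t.g, t.g, h, h⟩
  comm := t.comm

lemma Inv.viso_cl {V : Var k} {t : ClosedIn V V} (h : Inv t) : h.viso.cl = t :=
  closedIn_ext rfl

lemma inv_closed {W V : Var k} (a : ClosedIn W V) (t : ClosedIn V V) (r : ClosedIn W W)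
    (ht : Inv t) (h : r.g ≫ a.g = a.g ≫ t.g) : Inv r := by
  have h1 : (r.g ≫ r.g) ≫ a.g = 𝟙 W.X ≫ a.g := by
    rw [Category.assoc, h, ← Category.assoc, h, Category.assoc, ht, Category.comp_id,
      Category.id_comp]
  exact (cancel_mono a.g).mp h1

lemma inv_open {U V : Var k} (j : OpenIn U V) (t : ClosedIn V V) (r : ClosedIn U U)
    (ht : Inv t) (h : r.g ≫ j.g = j.g ≫ t.g) : Inv r := by
  have h1 : (r.g ≫ r.g) ≫ j.g = 𝟙 U.X ≫ j.g := by
    rw [Category.assoc, h, ← Category.assoc, h, Category.assoc, ht, Category.comp_id,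
      Category.id_comp]
  exact (cancel_mono j.g).mp h1

lemma inv_P (hT : Extra T) (i n : ℕ) {V : Var k} (t : ClosedIn V V) (ht : Inv t)
    (u : (T i).H n V) : (T i).P n t ((T i).P n t u) = u := by
  rw [hT.push_comp i n _ _ _ t t (idIn V) ht]
  exact hT.push_id i n V (idIn V) rfl u

/-- The anti-invariant part. -/
lemma anti_avg [CharZero E] (hT : Extra T) (i n : ℕ) {V : Var k} (t : ClosedIn V V) (ht : Inv t)
    (u : (T i).H n V) :
    (T i).P n t ((2 : E)⁻¹ • (u - (T i).P n t u)) = -((2 : E)⁻¹ • (u - (T i).P n t u)) := by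
  rw [hP_smul, hP_sub, inv_P hT i n t ht, ← smul_neg, neg_sub]

lemma avg_anti [CharZero E] {M : Type*} [AddCommGroup M] [Module E M] (u v : M) (h : v = -u) :
    (2 : E)⁻¹ • (u - v) = u := by
  rw [h, sub_neg_eq_add, ← two_smul E u, smul_smul, inv_mul_cancel₀ two_ne_zero, one_smul]

/-! ## The properties -/

/-- The anti-invariant classes of degree `n` in the generalised eigenspace have support of
dimension at most `e`. -/
def AM {i : ℕ} (T : Homology.{v} k E i) (n e : ℕ) (V : Var k) (t : ClosedIn V V) : Prop :=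
  ∀ u ∈ genN T n V, T.P n t u = -u → Supp T n e V u

/-- The anti-invariant classes on stable subvarieties of dimension at most `e` which become zero
do so on a subvariety of dimension at most `e + 1`. -/
def BM {i : ℕ} (T : Homology.{v} k E i) (n e : ℕ) (V : Var k) (t : ClosedIn V V) : Prop :=
  ∀ (W : Var k) [IsReduced W.X] (a : ClosedIn W V) (r : ClosedIn W W), r.g ≫ a.g = a.g ≫ t.g →
    W.DimLE e → ∀ w ∈ genN T n W, T.P n r w = -w → T.P n a w = 0 →
      ∃ (C : Closeds V.X) (h : ∀ x, a.g x ∈ C), (∀ x ∈ C, V.dim x ≤ (e + 1 : ℕ)) ∧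
        T.P n (factorC a C h) w = 0

/-- The anti-invariant classes on stable subvarieties of dimension at most `e` become zero on a
subvariety of dimension at most `e + 1`. -/
def BU {i : ℕ} (T : Homology.{v} k E i) (n e : ℕ) (V : Var k) (t : ClosedIn V V) : Prop :=
  ∀ (W : Var k) [IsReduced W.X] (a : ClosedIn W V) (r : ClosedIn W W), r.g ≫ a.g = a.g ≫ t.g →
    W.DimLE e → ∀ w : T.H n W, T.P n r w = -w →
      ∃ (C : Closeds V.X) (h : ∀ x, a.g x ∈ C), (∀ x ∈ C, V.dim x ≤ (e + 1 : ℕ)) ∧
        T.P n (factorC a C h) w = 0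

/-- There are no anti-invariant classes. -/
def HU {i : ℕ} (T : Homology.{v} k E i) (n : ℕ) (V : Var k) (t : ClosedIn V V) : Prop :=
  ∀ u : T.H n V, T.P n t u = -u → u = 0

/-! ## Stable closed subsets -/

/-- The smallest stable closed subset which contains `C`. -/
def stab {V : Var k} (t : ClosedIn V V) (C : Closeds V.X) : Closeds V.X :=
  C ⊔ C.preimage t.g.continuous

lemma inv_apply {V : Var k} {t : ClosedIn V V} (ht : Inv t) (x : V.X) : t.g (t.g x) = x := by
  rw [← Scheme.Hom.comp_apply, show t.g ≫ t.g = 𝟙 V.X from ht]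
  rfl

lemma stab_stable {V : Var k} {t : ClosedIn V V} (ht : Inv t) (C : Closeds V.X) :
    ∀ x ∈ stab t C, t.g x ∈ stab t C := by
  rintro x (hx | hx)
  · refine Or.inr ?_
    change t.g (t.g x) ∈ C
    rw [inv_apply ht]
    exact hx
  · exact Or.inl hx

lemma le_stab {V : Var k} (t : ClosedIn V V) (C : Closeds V.X) : C ≤ stab t C := le_sup_left

lemma stab_dim {V : Var k} (t : ClosedIn V V) (C : Closeds V.X) (e : ℕ)
    (h : ∀ x ∈ C, V.dim x ≤ e) : ∀ x ∈ stab t C, V.dim x ≤ e := by
  rintro x (hx | hx)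
  · exact h x hx
  · rw [← dim_map t.g t.comm]
    exact h _ hx

/-- The involution of a stable closed subvariety. -/
noncomputable def stC {V : Var k} (t : ClosedIn V V) (C : Closeds V.X)
    (h : ∀ x ∈ C, t.g x ∈ C) : ClosedIn (closedVar V C) (closedVar V C) :=
  have := REDI.isReduced_closedVar V C
  factorC ((closedVarIn V C).trans t) C (fun w => by
    change ((closedVarIn V C).g ≫ t.g) w ∈ C
    rw [Scheme.Hom.comp_apply]
    apply h
    have h1 : (closedVarIn V C).g w ∈ (C : Set V.X) := by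
      rw [← range_closedVarIn]
      exact ⟨w, rfl⟩
    exact h1)

lemma stC_comp {V : Var k} (t : ClosedIn V V) (C : Closeds V.X) (h : ∀ x ∈ C, t.g x ∈ C) :
    (stC t C h).g ≫ (closedVarIn V C).g = (closedVarIn V C).g ≫ t.g :=
  have := REDI.isReduced_closedVar V C
  factorC_comp ((closedVarIn V C).trans t) C _

/-- Support on a stable subset. -/
lemma supp_stable [CharZero E] (hT : Extra T) (i n e : ℕ) {V : Var k} (t : ClosedIn V V)
    (ht : Inv t) (u : (T i).H n V) (hu : (T i).P n t u = -u) (h : Supp (T i) n e V u) :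
    ∃ (C : Closeds V.X) (hC : ∀ x ∈ C, t.g x ∈ C), (∀ x ∈ C, V.dim x ≤ e) ∧
      ∃ w : (T i).H n (closedVar V C), (T i).P n (stC t C hC) w = -w ∧
        (T i).P n (closedVarIn V C) w = u := by
  obtain ⟨C₀, hC₀, w₀, rfl⟩ := h
  refine ⟨stab t C₀, stab_stable ht C₀, stab_dim t C₀ e hC₀, ?_⟩
  set C := stab t C₀
  have hC := stab_stable ht C₀
  let w₁ := (T i).P n (closedVarMap V (le_stab t C₀)) w₀
  have hw₁ : (T i).P n (closedVarIn V C) w₁ = (T i).P n (closedVarIn V C₀) w₀ :=
    hT.push_comp i n _ _ _ _ _ _ (closedVarMap_comp V (le_stab t C₀)) w₀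
  have hinv : Inv (stC t C hC) := inv_closed (closedVarIn V C) t _ ht (stC_comp t C hC)
  refine ⟨(2 : E)⁻¹ • (w₁ - (T i).P n (stC t C hC) w₁), anti_avg hT i n _ hinv w₁, ?_⟩
  rw [hP_smul, hP_sub, hT.push_comp i n _ _ _ (stC t C hC) (closedVarIn V C)
    ((closedVarIn V C).trans t) (stC_comp t C hC), ← hT.push_comp i n _ _ _ (closedVarIn V C) t
    ((closedVarIn V C).trans t) rfl, hw₁]
  exact avg_anti _ _ hu

/-! ## Fibre products -/

/-- The range of the projection of a fibre product. -/
lemma cart_range {D W U X : Scheme.{0}} {o : D ⟶ W} {b : D ⟶ U} {w : W ⟶ X} {j : U ⟶ X}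
    (h : IsPullback o b w j) : Set.range b = j ⁻¹' Set.range w := by
  have h4 := Scheme.Pullback.range_snd w j
  have h5 : b = h.isoPullback.hom ≫ pullback.snd w j := (h.isoPullback_hom_snd).symm
  rw [← h4, h5]
  ext x
  constructor
  · rintro ⟨z, rfl⟩
    exact ⟨h.isoPullback.hom z, by rw [Scheme.Hom.comp_apply]⟩
  · rintro ⟨z, rfl⟩
    refine ⟨h.isoPullback.inv z, ?_⟩
    rw [← Scheme.Hom.comp_apply, ← Category.assoc, Iso.inv_hom_id, Category.id_comp]

/-- A closed subset of `V` with given intersection with `U`. -/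
lemma exists_K {Z U V : Var k} (a : ClosedIn Z V) (j : OpenIn U V) (hc : Complementary a j)
    (e : ℕ) (C : Closeds V.X) (CU : Closeds U.X) (h1 : ∀ u, j.g u ∈ C → u ∈ CU)
    (h2 : ∀ u ∈ CU, U.dim u ≤ (e + 1 : ℕ)) :
    ∃ K : Closeds V.X, C ≤ K ∧ (∀ u, j.g u ∈ K ↔ u ∈ CU) ∧
      ∀ z : Z.X, a.g z ∈ K → a.g z ∈ C ∨ Z.dim z ≤ e := by
  obtain ⟨W, w, h, B, p, q, hcomp, h3, h4, hW, hB, -⟩ := exists_boundary a j hc (closedVarIn U CU)
    e (dimLE_of_mem CU h2)
  have hmem : ∀ d, (closedVarIn U CU).g d ∈ CU := by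
    intro d
    have h5 : (closedVarIn U CU).g d ∈ (CU : Set U.X) := by
      rw [← range_closedVarIn]
      exact ⟨d, rfl⟩
    exact h5
  refine ⟨C ⊔ ran w, le_sup_left, ?_, ?_⟩
  · intro u
    constructor
    · rintro (hu | ⟨x, hx⟩)
      · exact h1 u hu
      · by_cases hxr : x ∈ Set.range h.g
        · obtain ⟨d, rfl⟩ := hxr
          have h5 : j.g ((closedVarIn U CU).g d) = j.g u := by
            rw [← hx, ← Scheme.Hom.comp_apply, ← Scheme.Hom.comp_apply, h4]
          rw [← openIn_injective j h5]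
          exact hmem d
        · exfalso
          have h5 : x ∈ Set.range p.g := by
            rw [show Set.range p.g = (Set.range h.g)ᶜ from hcomp]
            exact hxr
          obtain ⟨y, rfl⟩ := h5
          have h6 : w.g (p.g y) = a.g (q.g y) := by
            rw [← Scheme.Hom.comp_apply, ← Scheme.Hom.comp_apply, h3]
          have h7 : j.g u ∈ Set.range a.g := ⟨q.g y, by rw [← hx, h6]⟩
          rw [show Set.range a.g = (Set.range j.g)ᶜ from hc] at h7
          exact h7 ⟨u, rfl⟩
    · intro hu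
      refine Or.inr ?_
      have h5 : u ∈ Set.range (closedVarIn U CU).g := by
        rw [range_closedVarIn]
        exact hu
      obtain ⟨d, rfl⟩ := h5
      refine ⟨h.g d, ?_⟩
      rw [← Scheme.Hom.comp_apply, ← Scheme.Hom.comp_apply, h4]
  · rintro z (hz | ⟨x, hx⟩)
    · exact Or.inl hz
    · refine Or.inr ?_
      have hxr : x ∉ Set.range h.g := by
        rintro ⟨d, rfl⟩
        have h5 : a.g z ∈ Set.range a.g := ⟨z, rfl⟩
        rw [show Set.range a.g = (Set.range j.g)ᶜ from hc] at h5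
        apply h5
        refine ⟨(closedVarIn U CU).g d, ?_⟩
        rw [← hx, ← Scheme.Hom.comp_apply, ← Scheme.Hom.comp_apply, h4]
      have h5 : x ∈ Set.range p.g := by
        rw [show Set.range p.g = (Set.range h.g)ᶜ from hcomp]
        exact hxr
      obtain ⟨y, rfl⟩ := h5
      have h6 : a.g (q.g y) = a.g z := by
        rw [← hx, ← Scheme.Hom.comp_apply, ← Scheme.Hom.comp_apply, h3]
      rw [← closedIn_injective a h6]
      have := q.closed
      rw [dim_map q.g q.comm]
      exact hB y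

/-! ## Vanishing on a larger subvariety -/

lemma push_red_injective (hT : Extra T) (i n : ℕ) (X : Var k) :
    Function.Injective ((T i).P n (redVarIn X)) := by
  change Function.Injective ((T i).push n (redVarIn X))
  rw [injective_iff_map_eq_zero]
  intro m hm
  obtain ⟨u, hu⟩ := (hT.bd_exact i n (redVarIn X) (openVarIn X ⊥) (complementary_red X) m).mp hm
  have hs := (T i).empty (n + 1) _ (isEmpty_openVar_bot X)
  rw [← hu, Subsingleton.elim u 0, map_zero]

/-- A morphism from a reduced variety factors through the reduced subvariety. -/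
lemma exists_liftRed {W B : Var k} [IsReduced W.X] (c : ClosedIn W B) :
    ∃ c' : ClosedIn W (redVar B), c'.g ≫ (redVarIn B).g = c.g := by
  have h1 : (redVarIn B).g.ker ≤ c.g.ker := by
    have h2 : (redVarIn B).g.ker = B.X.nilradical :=
      Scheme.IdealSheafData.ker_subschemeι _
    rw [h2]
    have h3 := vanishingIdeal_le_ker c.g ⊤ (fun _ => trivial)
    rwa [Scheme.IdealSheafData.vanishingIdeal_top] at h3
  have hcl := (redVarIn B).closed
  refine ⟨⟨IsClosedImmersion.lift (redVarIn B).g c.g h1, ?_, ?_⟩,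
    IsClosedImmersion.lift_fac _ _ _⟩
  · rw [← (redVarIn B).comm, ← Category.assoc, IsClosedImmersion.lift_fac, c.comm]
  · have h2 : IsClosedImmersion (IsClosedImmersion.lift (redVarIn B).g c.g h1 ≫ (redVarIn B).g) := by
      rw [IsClosedImmersion.lift_fac]
      infer_instance
    exact IsClosedImmersion.of_comp _ (redVarIn B).g

lemma die_factor (hT : Extra T) (i n : ℕ) {W V B : Var k} [IsReduced W.X] (a : ClosedIn W V)
    (c : ClosedIn W B) (q : ClosedIn B V) (h : c.g ≫ q.g = a.g) (C : Closeds V.X)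
    (hC : ∀ b, q.g b ∈ C) (w : (T i).H n W) (hw : (T i).P n c w = 0) :
    ∃ h' : ∀ x, a.g x ∈ C, (T i).P n (factorC a C h') w = 0 := by
  have h1 : ∀ x, a.g x ∈ C := by
    intro x
    rw [← h, Scheme.Hom.comp_apply]
    exact hC _
  refine ⟨h1, ?_⟩
  obtain ⟨c', hc'⟩ := exists_liftRed c
  have h2 : (T i).P n c' w = 0 := by
    apply push_red_injective hT i n B
    rw [hP_zero, hT.push_comp i n _ _ _ c' (redVarIn B) c hc', hw]
  have hred := isReduced_redVar B
  let m : ClosedIn (redVar B) (closedVar V C) := factorC ((redVarIn B).trans q) C (fun b => by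
    change ((redVarIn B).g ≫ q.g) b ∈ C
    rw [Scheme.Hom.comp_apply]
    exact hC _)
  have hm : m.g ≫ (closedVarIn V C).g = (redVarIn B).g ≫ q.g := factorC_comp _ _ _
  have h3 : c'.g ≫ m.g = (factorC a C h1).g := by
    rw [← cancel_mono (closedVarIn V C).g, Category.assoc, hm, ← Category.assoc, hc', h,
      factorC_comp]
  rw [← hT.push_comp i n _ _ _ c' m _ h3, h2, hP_zero]

end QCV
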