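import Pool.Agent.QCV.G_CYC

/-!
# QCV, block G: from a product with the affine line to the base
-/

set_option autoImplicit false

open CategoryTheory AlgebraicGeometry Limits Polynomial TopologicalSpace

namespace QCV

open Pool.Agent.Lib_helper55.Beil Pool.Agent.Lib_helper66.OneP CUB

universe v

variable {k : Type} [Field k] {E : Type} [Field E] {T : ∀ i : ℕ, Homology.{v} k E i}

/-- The restriction of a line to an open subvariety. -/
lemma exists_lineOpen {Y X V : Var k} (L : Line Y X) (j : OpenIn V X) :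
    ∃ (Y' : Var k) (L' : Line Y' V) (l : OpenIn Y' Y), IsPullback L'.q l.g j.g L.q := by
  have hj := j.isOpen
  have e1 : LocallyOfFiniteType (L.q ≫ X.f) := by
    rw [L.comm]
    infer_instance
  have e2 : QuasiCompact (L.q ≫ X.f) := by
    rw [L.comm]
    infer_instance
  have e3 : IsSeparated (L.q ≫ X.f) := by
    rw [L.comm]
    infer_instance
  have h1 : LocallyOfFiniteType L.q := locallyOfFiniteType_of_comp L.q X.f
  have h2 : QuasiCompact L.q := QuasiCompact.of_comp L.q X.f
  have h3 : IsSeparated L.q := IsSeparated.of_comp L.q X.f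
  have hP : IsPullback (pullback.fst L.q j.g) (pullback.snd L.q j.g) L.q j.g :=
    IsPullback.of_hasPullback L.q j.g
  let Y' : Var k :=
    { X := pullback L.q j.g
      f := pullback.snd L.q j.g ≫ V.f
      sep := inferInstance
      lft := inferInstance
      qc := inferInstance }
  have hc : pullback.fst L.q j.g ≫ Y.f = pullback.snd L.q j.g ≫ V.f := by
    rw [← L.comm, ← Category.assoc, hP.w, Category.assoc, j.comm]
  have h5 : IsOpenImmersion (pullback.fst L.q j.g) := inferInstance
  let l : OpenIn Y' Y := ⟨pullback.fst L.q j.g, hc, h5⟩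
  let L' : Line Y' V :=
    { q := pullback.snd L.q j.g
      t := pullback.fst L.q j.g ≫ L.t
      comm := rfl
      prod := by
        have h4 := (hP.paste_horiz L.prod.flip).flip
        rw [j.comm] at h4
        exact h4 }
  exact ⟨Y', L', l, hP.flip⟩

/-- The base change of a line along a proper morphism. -/
lemma exists_linePr {Y X Z : Var k} (L : Line Y X) (r : PrMor Z X) :
    ∃ (Y' : Var k) (L' : Line Y' Z) (R : PrMor Y' Y), IsPullback L'.q R.g r.g L.q := by
  have ha := r.proper
  have e1 : LocallyOfFiniteType (L.q ≫ X.f) := by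
    rw [L.comm]
    infer_instance
  have e2 : QuasiCompact (L.q ≫ X.f) := by
    rw [L.comm]
    infer_instance
  have e3 : IsSeparated (L.q ≫ X.f) := by
    rw [L.comm]
    infer_instance
  have h1 : LocallyOfFiniteType L.q := locallyOfFiniteType_of_comp L.q X.f
  have h2 : QuasiCompact L.q := QuasiCompact.of_comp L.q X.f
  have h3 : IsSeparated L.q := IsSeparated.of_comp L.q X.f
  have hP : IsPullback (pullback.fst L.q r.g) (pullback.snd L.q r.g) L.q r.g :=
    IsPullback.of_hasPullback L.q r.g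
  let Y' : Var k :=
    { X := pullback L.q r.g
      f := pullback.snd L.q r.g ≫ Z.f
      sep := inferInstance
      lft := inferInstance
      qc := inferInstance }
  have hc : pullback.fst L.q r.g ≫ Y.f = pullback.snd L.q r.g ≫ Z.f := by
    rw [← L.comm, ← Category.assoc, hP.w, Category.assoc, r.comm]
  have h5 : IsProper (pullback.fst L.q r.g) := inferInstance
  let L' : Line Y' Z :=
    { q := pullback.snd L.q r.g
      t := pullback.fst L.q r.g ≫ L.t
      comm := rfl
      prod := by
        have h4 := (hP.paste_horiz L.prod.flip).flip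
        rw [r.comm] at h4
        exact h4 }
  exact ⟨Y', L', ⟨pullback.fst L.q r.g, hc, h5⟩, hP.flip⟩

/-- Two products with the affine line are isomorphic. -/
lemma exists_lineIso {Y Y' X : Var k} (L : Line Y X) (L' : Line Y' X) :
    ∃ s : VIso Y Y', s.e.hom ≫ L'.q = L.q := by
  refine ⟨⟨L.prod.isoIsPullback _ _ L'.prod, ?_⟩, IsPullback.isoIsPullback_hom_fst _ _ _ _⟩
  rw [← L'.comm, ← Category.assoc, IsPullback.isoIsPullback_hom_fst, L.comm]

/-- The projection of a closed subvariety of the affine line over the part of the base where it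
does not meet the section at infinity is proper. -/
lemma proper_part {P X O D D' W Y' Bd : Var k} (B : PBun P X) (d : ClosedIn D B.U)
    (w : ClosedIn W P) (h : OpenIn D W) (p : ClosedIn Bd W) (q : ClosedIn Bd X)
    (hc : Complementary p h) (h1 : p.g ≫ w.g = q.g ≫ B.s.g) (h2 : h.g ≫ w.g = d.g ≫ B.j.g)
    (j : OpenIn O X) (hj : Disjoint (Set.range j.g) (Set.range q.g)) (L' : Line Y' O)
    (l : OpenIn Y' B.U) (hl : IsPullback L'.q l.g j.g B.L.q) (o : OpenIn D' D)
    (b' : ClosedIn D' Y') (ho : IsPullback o.g b'.g d.g l.g) :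
    IsProper (b'.g ≫ L'.q) := by
  have hjO := j.isOpen
  have hwc := w.closed
  have hho := h.isOpen
  have hoo := o.isOpen
  have hpr := B.p.proper
  let π : W.X ⟶ X.X := w.g ≫ B.p.g
  have hπ : IsProper π := inferInstance
  have e1 : (o.g ≫ h.g) ≫ π = (b'.g ≫ L'.q) ≫ j.g := by
    calc (o.g ≫ h.g) ≫ π = o.g ≫ (h.g ≫ w.g) ≫ B.p.g := by simp only [π, Category.assoc]
      _ = o.g ≫ (d.g ≫ B.j.g) ≫ B.p.g := by rw [h2]
      _ = (o.g ≫ d.g) ≫ (B.j.g ≫ B.p.g) := by simp only [Category.assoc]
      _ = (b'.g ≫ l.g) ≫ B.L.q := by rw [ho.w, B.hL]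
      _ = b'.g ≫ (l.g ≫ B.L.q) := by rw [Category.assoc]
      _ = b'.g ≫ (L'.q ≫ j.g) := by rw [hl.w]
      _ = (b'.g ≫ L'.q) ≫ j.g := by rw [Category.assoc]
  let c : D'.X ⟶ pullback π j.g := pullback.lift (o.g ≫ h.g) (b'.g ≫ L'.q) e1
  have hc1 : c ≫ pullback.fst π j.g = o.g ≫ h.g := pullback.lift_fst _ _ _
  have hc2 : c ≫ pullback.snd π j.g = b'.g ≫ L'.q := pullback.lift_snd _ _ _
  have hfst : IsOpenImmersion (pullback.fst π j.g) := inferInstance
  have hsnd : IsProper (pullback.snd π j.g) := inferInstance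
  have h3 : IsOpenImmersion (c ≫ pullback.fst π j.g) := by
    rw [hc1]
    infer_instance
  have h4 : IsOpenImmersion c := IsOpenImmersion.of_comp c (pullback.fst π j.g)
  have h5 : Function.Surjective c := by
    intro z
    have e2 : π (pullback.fst π j.g z) = j.g (pullback.snd π j.g z) := by
      rw [← Scheme.Hom.comp_apply, ← Scheme.Hom.comp_apply, pullback.condition]
    have e3 : pullback.fst π j.g z ∈ Set.range h.g := by
      by_contra hne
      have e4 : pullback.fst π j.g z ∈ Set.range p.g := by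
        rw [show Set.range p.g = (Set.range h.g)ᶜ from hc]
        exact hne
      obtain ⟨y, hy⟩ := e4
      have e5 : π (p.g y) = q.g y := by
        have e6 : p.g ≫ π = q.g := by
          calc p.g ≫ π = (p.g ≫ w.g) ≫ B.p.g := by simp only [π, Category.assoc]
            _ = q.g ≫ (B.s.g ≫ B.p.g) := by rw [h1, Category.assoc]
            _ = q.g := by rw [B.hs, Category.comp_id]
        rw [← Scheme.Hom.comp_apply, e6]
      rw [← hy, e5] at e2
      exact Set.disjoint_left.mp hj ⟨_, e2.symm⟩ ⟨y, rfl⟩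
    obtain ⟨x, hx⟩ := e3
    have e7' : d.g ≫ B.L.q = h.g ≫ π := by
      calc d.g ≫ B.L.q = (d.g ≫ B.j.g) ≫ B.p.g := by rw [← B.hL, Category.assoc]
        _ = h.g ≫ π := by rw [← h2]; simp only [π, Category.assoc]
    have e7 : B.L.q (d.g x) = j.g (pullback.snd π j.g z) := by
      rw [← e2, ← hx, ← Scheme.Hom.comp_apply, ← Scheme.Hom.comp_apply, e7']
    have e8 : d.g x ∈ Set.range l.g := by
      have e9 := cart_range hl.flip.flip
      rw [e9]
      exact ⟨_, e7.symm⟩
    have e10 : x ∈ Set.range o.g := by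
      have e11 := cart_range ho.flip
      rw [e11]
      exact e8
    obtain ⟨y, rfl⟩ := e10
    refine ⟨y, ?_⟩
    apply (pullback.fst π j.g).isOpenEmbedding.injective
    rw [← Scheme.Hom.comp_apply, hc1, Scheme.Hom.comp_apply, hx]
  have h6 : Epi c.base := (TopCat.epi_iff_surjective c.base).mpr h5
  have h7 : IsIso c := IsOpenImmersion.isIso c
  rw [← hc2]
  infer_instance

/-- Supports descend from a product with the affine line to the base. -/
theorem supp_line_desc (hT : Full T) (hP : Pub T hT) (hS : SectionZero T) (i n e : ℕ)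
    {Y X : Var k} (L : Line Y X) (u : (T i).H n X)
    (h : Supp (T (i + 1)) (n + 2) (e + 1) Y (hT.line i n L u)) : Supp (T i) n e X u := by
  obtain ⟨H⟩ := CUB.Asm2.s_PLI k
  obtain ⟨B, -⟩ := CUB.Asm2.s_PRO.1 k H X
  -- the class on the open part of the bundle
  obtain ⟨sY, hsY⟩ := exists_lineIso L B.L
  have h1 := hT.line_nat i n L B.L sY (VIso.refl X) (by
    change sY.e.hom ≫ B.L.q = L.q ≫ 𝟙 X.X
    rw [hsY, Category.comp_id]) u
  have h2 : (T i).P n (VIso.refl X).cl u = u := hT.push_id i n _ _ rfl u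
  rw [h2] at h1
  obtain ⟨C, hC, b₀, hb₀⟩ := h
  have h3 : Supp (T (i + 1)) (n + 2) (e + 1) B.U (hT.line i n B.L u) := by
    rw [← h1, ← hb₀, hT.push_comp (i + 1) (n + 2) _ _ _ (closedVarIn Y C) sY.cl
      ((closedVarIn Y C).trans sY.cl) rfl]
    exact supp_mk hT.toExtra (i + 1) (n + 2) (e + 1) _ (dimLE_of_mem C hC) b₀
  clear h1 h2 hb₀ b₀ hC C hsY sY
  obtain ⟨C, hC, b, hb⟩ := h3
  obtain ⟨W, w, o₁, Bd, p, q, hcomp, h4, h5, -, hBd, -⟩ := exists_boundary B.s B.j B.hc
    (closedVarIn B.U C) e (dimLE_of_mem C hC)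
  -- the open part of the base
  let F : Closeds X.X := ran q
  let j : OpenIn (openVar X F.compl) X := openVarIn X F.compl
  have hcF : Complementary (closedVarIn X F) j := by
    rw [Complementary, range_closedVarIn, range_openVarIn]
    simp
  have hFd : ∀ x ∈ F, X.dim x ≤ e := by
    rintro x ⟨y, rfl⟩
    have := q.closed
    rw [dim_map q.g q.comm]
    exact hBd y
  obtain ⟨Y', L', l, hl⟩ := exists_lineOpen B.L j
  obtain ⟨D', o, b', ho⟩ := exists_cart (closedVarIn B.U C) l
  have hprop := proper_part B (closedVarIn B.U C) w o₁ p q hcomp h4 h5 j (by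
    rw [Set.disjoint_left]
    intro x hx hx2
    have h6 : x ∈ (F.compl : Set X.X) := by
      rw [← range_openVarIn]
      exact hx
    exact h6 hx2) L' l hl o b' ho
  let r : PrMor D' (openVar X F.compl) := ⟨b'.g ≫ L'.q, by
    rw [Category.assoc, L'.comm, b'.comm], hprop⟩
  obtain ⟨Z, M, R, hR⟩ := exists_linePr L' r
  -- the section
  have hb'c := b'.closed
  have hRp := R.proper
  have hsec : IsClosedImmersion (hR.lift (𝟙 D'.X) b'.g (by rw [Category.id_comp])) := by
    have h7 : IsClosedImmersion (hR.lift (𝟙 D'.X) b'.g (by rw [Category.id_comp]) ≫ R.g) := by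
      rw [hR.lift_snd]
      infer_instance
    exact IsClosedImmersion.of_comp _ R.g
  let s : ClosedIn D' Z := ⟨hR.lift (𝟙 D'.X) b'.g (by rw [Category.id_comp]), by
    rw [← R.comm, ← Category.assoc, hR.lift_snd, b'.comm], hsec⟩
  have hs1 : s.g ≫ M.q = 𝟙 D'.X := hR.lift_fst _ _ _
  have hs2 : s.g ≫ R.g = b'.g := hR.lift_snd _ _ _
  have hzero : ∀ v : (T (i + 1)).H (n + 2) D', (T (i + 1)).P (n + 2) b' v = 0 := by
    intro v
    rw [← hT.pfClosed (i + 1) (n + 2) b' (clPr b') rfl,
      ← hT.pfFunctorial (i + 1) (n + 2) (clPr s) R (clPr b') hs2,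
      hT.pfClosed (i + 1) (n + 2) s (clPr s) rfl, hS (i + 1) (n + 2) M s hs1]
    exact map_zero (hT.pf (i + 1) (n + 2) R)
  have h8 : (T (i + 1)).R (n + 2) l (hT.line i n B.L u) = hT.line i n L' ((T i).R n j u) :=
    hP.lineRes i n B.L L' l j hl.w.symm u
  have h9 : hT.line i n L' ((T i).R n j u) = 0 := by
    rw [← h8, ← hb, res_push hT (i + 1) (n + 2) (closedVarIn B.U C) b' o l ho, hzero]
  have h10 : (T i).R n j u = 0 := (hT.line_bij i n L').injective (by rw [h9, map_zero])
  obtain ⟨z, hz⟩ := ((T i).exact_X n (closedVarIn X F) j hcF u).mp h10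
  exact ⟨F, hFd, z, hz⟩

/-- The property `PF` descends from a product with the affine line to the base. -/
theorem pf_line_desc [Finite k] [CharZero E] (hT : Full T) (hP : Pub T hT) (hS : SectionZero T)
    (i : ℕ) {Y X : Var k} (L : Line Y X) (h : PF (T (i + 1)) Y) : PF (T i) X := by
  refine ⟨?_, ?_, ?_⟩
  · intro α hα
    refine alg_of_supp i X α hα (supp_line_desc hT hP hS i (2 * i) i L α ?_)
    have h1 : hT.line i (2 * i) L α ∈ (T (i + 1)).gen Y :=
      maxGen_map ((T i).frob (2 * i) X) ((T (i + 1)).frob (2 * (i + 1)) Y) (hT.line i (2 * i) L)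
        (hT.line_frob i (2 * i) L) hα
    obtain ⟨c, hc⟩ := exists_cls (T (i + 1)) Y _ (h.1 h1)
    have h2 := supp_cls (T := T) (i + 1) Y c
    have h3 : clz (T (i + 1)) Y c = hT.line i (2 * i) L α := hc
    rw [h3] at h2
    exact h2
  · rw [injC_iff]
    intro c hc
    obtain ⟨d, hd⟩ := CUB.Asm2.s_PCY.{v}.1 k E i Y X L c
    have h1 := CUB.Asm2.s_PCY.{v}.2.2.2.2.2 k E T hT.toExtra i Y X L c d hd
    have h2 : clz (T (i + 1)) Y d = 0 := by
      rw [h1]
      have h3 : clz (T i) X c = 0 := hc
      rw [h3]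
      exact map_zero (hT.line i (2 * i) L)
    exact CUB.s_L4 k E i Y X L c d hd ((injC_iff (T (i + 1)) Y).mp h.2.1 d h2)
  · intro m hm
    refine supp_line_desc hT hP hS i (2 * i + 1) (i + 1) L m (h.2.2 _ ?_)
    exact maxGen_map ((T i).frob (2 * i + 1) X) ((T (i + 1)).frob (2 * (i + 1) + 1) Y)
      (hT.line i (2 * i + 1) L) (hT.line_frob i (2 * i + 1) L) hm

end QCV
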