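import Pool.Agent.QCV.G_INV

/-!
# QCV, block G: the closed part
-/

set_option autoImplicit false

open CategoryTheory AlgebraicGeometry Limits Polynomial TopologicalSpace

namespace QCV

open Pool.Agent.Lib_helper55.Beil Pool.Agent.Lib_helper66.OneP CUB

universe v

variable {k : Type} [Field k] {E : Type} [Field E] {T : ∀ i : ℕ, Homology.{v} k E i}

/-- The involution on the open part of a stable closed subvariety. -/
lemma exists_rD {W V U D : Var k} (w : ClosedIn W V) (j : OpenIn U V) (o : OpenIn D W)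
    (b : ClosedIn D U) (hD : IsPullback o.g b.g w.g j.g) (t : ClosedIn V V) (r : ClosedIn W W)
    (tU : ClosedIn U U) (hr : r.g ≫ w.g = w.g ≫ t.g) (htU : tU.g ≫ j.g = j.g ≫ t.g) :
    ∃ rD : ClosedIn D D, rD.g ≫ o.g = o.g ≫ r.g ∧ rD.g ≫ b.g = b.g ≫ tU.g := by
  have hb := b.closed
  have ht := tU.closed
  exact lift_closed hD b.comm (o.g ≫ r.g) (b.g ≫ tU.g)
    (by rw [Category.assoc, tU.comm, b.comm]) (by
      rw [Category.assoc, hr, ← Category.assoc, hD.w, Category.assoc, Category.assoc, htU])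

/-- Restriction commutes with the involutions. -/
lemma res_inv (hT : Full T) (i n : ℕ) {W D : Var k} (o : OpenIn D W) (r : ClosedIn W W)
    (rD : ClosedIn D D) (hr : Inv r) (h : rD.g ≫ o.g = o.g ≫ r.g) (m : (T i).H n W) :
    (T i).R n o ((T i).P n r m) = (T i).P n rD ((T i).R n o m) := by
  have hrD : Inv rD := inv_open o r rD hr h
  have h1 := hr.isIso
  have h2 := hrD.isIso
  exact res_push hT i n r rD o o (IsPullback.of_vert_isIso ⟨h.symm⟩) m

/-- The class on the part of a larger closed subvariety over `U`. -/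
lemma die_open (hT : Full T) (i n : ℕ) {D U V D' : Var k} [IsReduced D.X] (j : OpenIn U V)
    (b : ClosedIn D U)
    (CU : Closeds U.X) (hCU : ∀ x, b.g x ∈ CU) (K : Closeds V.X) (hK : ∀ u ∈ CU, j.g u ∈ K)
    (o' : OpenIn D' (closedVar V K)) (b' : ClosedIn D' U)
    (hD' : IsPullback o'.g b'.g (closedVarIn V K).g j.g) (l : ClosedIn D D')
    (hl : l.g ≫ b'.g = b.g) (w : (T i).H n D)
    (hw : (T i).P n (factorC b CU hCU) w = 0) : (T i).P n l w = 0 := by
  have hred := REDI.isReduced_closedVar U CU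
  have hmem : ∀ d, (closedVarIn U CU).g d ∈ CU := by
    intro d
    have h5 : (closedVarIn U CU).g d ∈ (CU : Set U.X) := by
      rw [← range_closedVarIn]
      exact ⟨d, rfl⟩
    exact h5
  have hcl := (closedVarIn U CU).closed
  have hb' := b'.closed
  obtain ⟨c, hc⟩ : ∃ c : (closedVar U CU).X ⟶ (closedVar V K).X,
      c ≫ (closedVarIn V K).g = (closedVarIn U CU).g ≫ j.g :=
    ⟨liftC ((closedVarIn U CU).g ≫ j.g) K (fun d => by
      rw [Scheme.Hom.comp_apply]
      exact hK _ (hmem d)), liftC_comp _ _ _⟩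
  obtain ⟨m, -, hm⟩ := lift_closed hD' b'.comm c (closedVarIn U CU).g (closedVarIn U CU).comm hc
  have h1 : (factorC b CU hCU).g ≫ m.g = l.g := by
    rw [← cancel_mono b'.g, Category.assoc, hm, hl, factorC_comp]
  rw [← hT.push_comp i n _ _ _ (factorC b CU hCU) m l h1, hw, hP_zero]

/-- The data on the closed and the open part. -/
structure Parts {Z U V : Var k} (a : ClosedIn Z V) (j : OpenIn U V) (t : ClosedIn V V)
    (tZ : ClosedIn Z Z) (tU : ClosedIn U U) : Prop where
  hc : Complementary a j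
  ht : Inv t
  hZ : tZ.g ≫ a.g = a.g ≫ t.g
  hU : tU.g ≫ j.g = j.g ≫ t.g

/-- A class which dies in `V` is the boundary of an anti-invariant class. -/
lemma exists_bd_anti [CharZero E] (hT : Full T) (i n : ℕ) {Z U V : Var k} {a : ClosedIn Z V}
    {j : OpenIn U V} {t : ClosedIn V V} {tZ : ClosedIn Z Z} {tU : ClosedIn U U}
    (h : Parts a j t tZ tU) (z : (T i).H n Z) (hz : (T i).P n tZ z = -z)
    (hz2 : (T i).P n a z = 0) :
    ∃ u : (T i).H (n + 1) U, (T i).P (n + 1) tU u = -u ∧ bdl hT i n a j h.hc u = z := by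
  have hiU : Inv tU := inv_open j t tU h.ht h.hU
  obtain ⟨u, hu⟩ := (hT.bdExact i n a j h.hc z).mp hz2
  refine ⟨(2 : E)⁻¹ • (u - (T i).P (n + 1) tU u), anti_avg hT.toExtra i (n + 1) tU hiU u, ?_⟩
  have h1 : (T i).P n tZ (bdl hT i n a j h.hc u) = bdl hT i n a j h.hc ((T i).P (n + 1) tU u) :=
    bdl_push hT i n a j h.hc a j h.hc tZ tU t h.hZ.symm h.hU.symm u
  have h2 : bdl hT i n a j h.hc u = z := hu
  rw [map_smul, map_sub, ← h1, h2]
  exact avg_anti _ _ hz

/-- The closed part: supports. -/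
theorem am_closed [CharZero E] (hT : Full T) (i n e : ℕ) {Z U V : Var k} {a : ClosedIn Z V}
    {j : OpenIn U V} {t : ClosedIn V V} {tZ : ClosedIn Z Z} {tU : ClosedIn U U}
    (h : Parts a j t tZ tU) (hBU : BU (T i) n e U tU) (hHU : HU (T i) (n + 1) U tU)
    (hV : AM (T i) n e V t) : AM (T i) n e Z tZ := by
  intro z hz hza
  have hiZ : Inv tZ := inv_closed a t tZ h.ht h.hZ
  have hv1 : (T i).P n a z ∈ genN (T i) n V :=
    maxGen_map ((T i).frob n Z) ((T i).frob n V) ((T i).push n a) ((T i).push_frob n a) hz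
  have hv2 : (T i).P n t ((T i).P n a z) = -(T i).P n a z := by
    rw [hT.push_comp i n _ _ _ a t (a.trans t) rfl,
      ← hT.push_comp i n _ _ _ tZ a (a.trans t) h.hZ, hza, hP_neg]
  obtain ⟨C, hC, hCd, w, hw, hwv⟩ := supp_stable hT.toExtra i n e t h.ht _ hv2 (hV _ hv1 hv2)
  -- restriction to `U`
  let W := closedVar V C
  have hWred : IsReduced W.X := REDI.isReduced_closedVar V C
  obtain ⟨D, o, b, hD⟩ := exists_cart (closedVarIn V C) j
  have hob := o.isOpen
  have hDred : IsReduced D.X := isReduced_of_isOpenImmersion o.g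
  obtain ⟨rD, hr1, hr2⟩ := exists_rD (closedVarIn V C) j o b hD t (stC t C hC) tU
    (stC_comp t C hC) h.hU
  have hinv : Inv (stC t C hC) := inv_closed (closedVarIn V C) t _ h.ht (stC_comp t C hC)
  have hRw : (T i).P n rD ((T i).R n o w) = -(T i).R n o w := by
    rw [← res_inv hT i n o (stC t C hC) rD hinv hr1, hw]
    exact map_neg ((T i).res n o) w
  obtain ⟨CU, hCU, hCUd, hdie⟩ := hBU D b rD hr2 (dimLE_open o (dimLE_of_mem C hCd)) _ hRw
  have hCCU : ∀ u, j.g u ∈ C → u ∈ CU := by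
    intro u hu
    have h1 : u ∈ Set.range b.g := by
      rw [cart_range hD, range_closedVarIn]
      exact hu
    obtain ⟨x, rfl⟩ := h1
    exact hCU x
  obtain ⟨K, hK1, hK2, hK3⟩ := exists_K a j h.hc e C CU hCCU hCUd
  obtain ⟨D', B', o', b', p', q', hD', hB', hcomp'⟩ := exists_parts a j h.hc (closedVarIn V K)
  let wY := (T i).P n (closedVarMap V hK1) w
  have hb := b.closed
  have hb' := b'.closed
  obtain ⟨l, hl1, hl2⟩ := lift_closed hD' b'.comm (o.g ≫ (closedVarMap V hK1).g) b.g b.comm (by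
    rw [Category.assoc, closedVarMap_comp, hD.w])
  have hsq : IsPullback o.g l.g (closedVarMap V hK1).g o'.g := by
    refine IsPullback.of_bot ?_ hl1.symm hD'
    rw [hl2, closedVarMap_comp]
    exact hD
  have h1 : (T i).R n o' wY = 0 := by
    rw [res_push hT i n (closedVarMap V hK1) l o o' hsq]
    exact die_open hT i n j b CU hCU K (fun u hu => (hK2 u).mpr hu) o' b' hD' l hl2 _ hdie
  obtain ⟨z', hz'⟩ := ((T i).exact_X n p' o' hcomp' wY).mp h1
  let z'' := (T i).P n q' z'
  have hz''a : (T i).P n a z'' = (T i).P n a z := by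
    change (T i).P n a ((T i).P n q' z') = _
    rw [hT.push_comp i n _ _ _ q' a (q'.trans a) rfl,
      ← hT.push_comp i n _ _ _ p' (closedVarIn V K) (q'.trans a) hB'.w,
      show (T i).P n p' z' = wY from hz',
      hT.push_comp i n _ _ _ (closedVarMap V hK1) (closedVarIn V K) _ (closedVarMap_comp V hK1),
      hwv]
  have hB'd : B'.DimLE e := by
    intro x
    have h2 : a.g (q'.g x) = (closedVarIn V K).g (p'.g x) := by
      rw [← Scheme.Hom.comp_apply, ← Scheme.Hom.comp_apply, hB'.w]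
    have h3 : a.g (q'.g x) ∈ K := by
      rw [h2]
      have h4 : (closedVarIn V K).g (p'.g x) ∈ (K : Set V.X) := by
        rw [← range_closedVarIn]
        exact ⟨_, rfl⟩
      exact h4
    have hq' := q'.closed
    have ha := a.closed
    rw [← dim_map q'.g q'.comm]
    rcases hK3 _ h3 with h4 | h4
    · rw [← dim_map a.g a.comm]
      exact hCd _ h4
    · exact h4
  have hs : Supp (T i) n e Z z'' := supp_mk hT.toExtra i n e q' hB'd z'
  -- the difference
  let z0 := z - (2 : E)⁻¹ • (z'' - (T i).P n tZ z'')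
  have hz0a : (T i).P n tZ z0 = -z0 := by
    change (T i).P n tZ (z - (2 : E)⁻¹ • (z'' - (T i).P n tZ z'')) = _
    rw [hP_sub, hza, anti_avg hT.toExtra i n tZ hiZ z'']
    have e0 : ∀ x y : (T i).H n Z, -x - -y = -(x - y) := fun x y => by abel
    exact e0 _ _
  have hz0b : (T i).P n a z0 = 0 := by
    change (T i).P n a (z - (2 : E)⁻¹ • (z'' - (T i).P n tZ z'')) = _
    have h2 : (T i).P n a ((T i).P n tZ z'') = -(T i).P n a z := by
      rw [hT.push_comp i n _ _ _ tZ a (a.trans t) h.hZ,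
        ← hT.push_comp i n _ _ _ a t (a.trans t) rfl, hz''a, hv2]
    rw [hP_sub, hP_smul, hP_sub, hz''a, h2, avg_anti _ _ rfl, sub_self]
  obtain ⟨u, hu1, hu2⟩ := exists_bd_anti hT i n h z0 hz0a hz0b
  have hu0 : u = 0 := hHU u hu1
  rw [hu0, map_zero] at hu2
  have hzz : z = (2 : E)⁻¹ • (z'' - (T i).P n tZ z'') := sub_eq_zero.mp hu2.symm
  rw [hzz]
  apply supp_smul
  rw [sub_eq_add_neg]
  exact supp_add hT.toExtra i n e Z _ _ hs (supp_neg i n e Z _ (supp_push hT.toExtra i n e tZ _ hs))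

/-- The closed part: vanishing on larger subvarieties. -/
theorem bm_closed [CharZero E] (hT : Full T) (i n e : ℕ) {Z U V : Var k} {a : ClosedIn Z V}
    {j : OpenIn U V} {t : ClosedIn V V} {tZ : ClosedIn Z Z} {tU : ClosedIn U U}
    (h : Parts a j t tZ tU) (hBU : BU (T i) (n + 1) (e + 1) U tU)
    (hV : BM (T i) n e V t) : BM (T i) n e Z tZ := by
  intro W hWred aW r hr hWd w hw hwa hwz
  have h1 : r.g ≫ (aW.trans a).g = (aW.trans a).g ≫ t.g := by
    change r.g ≫ aW.g ≫ a.g = (aW.g ≫ a.g) ≫ t.g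
    rw [← Category.assoc, hr, Category.assoc, h.hZ, Category.assoc]
  have h2 : (T i).P n (aW.trans a) w = 0 := by
    rw [← hT.push_comp i n _ _ _ aW a (aW.trans a) rfl, hwz, hP_zero]
  obtain ⟨C, hC, hCd, hdie⟩ := hV W (aW.trans a) r h1 hWd w hw hwa h2
  -- a stable subset
  let C₁ := stab t C
  have hC₁ := stab_stable h.ht C
  have hC₁d := stab_dim t C (e + 1) hCd
  have hle : C ≤ C₁ := le_stab t C
  have hCmem : ∀ x, (aW.trans a).g x ∈ C₁ := fun x => hle (hC x)
  have hdie₁ : (T i).P n (factorC (aW.trans a) C₁ hCmem) w = 0 := by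
    have h3 : (factorC (aW.trans a) C hC).g ≫ (closedVarMap V hle).g =
        (factorC (aW.trans a) C₁ hCmem).g := by
      rw [← cancel_mono (closedVarIn V C₁).g, Category.assoc, closedVarMap_comp, factorC_comp,
        factorC_comp]
    rw [← hT.push_comp i n _ _ _ _ (closedVarMap V hle) _ h3, hdie, hP_zero]
  obtain ⟨D, B, o, b, p, q, hD, hB, hcomp⟩ := exists_parts a j h.hc (closedVarIn V C₁)
  have hYred : IsReduced (closedVar V C₁).X := REDI.isReduced_closedVar V C₁
  have hoo := o.isOpen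
  have hDred : IsReduced D.X := isReduced_of_isOpenImmersion o.g
  have haW := aW.closed
  have hb := b.closed
  have hq := q.closed
  have hyinv : Inv (stC t C₁ hC₁) := inv_closed (closedVarIn V C₁) t _ h.ht (stC_comp t C₁ hC₁)
  -- `W` in the closed part
  obtain ⟨wB, hwB1, hwB2⟩ := lift_closed hB q.comm (factorC (aW.trans a) C₁ hCmem).g aW.g aW.comm
    (by rw [factorC_comp]; rfl)
  -- the involutions
  obtain ⟨rD, hrD1, hrD2⟩ := exists_rD (closedVarIn V C₁) j o b hD t (stC t C₁ hC₁) tU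
    (stC_comp t C₁ hC₁) h.hU
  have htZ := tZ.closed
  obtain ⟨rB, hrB1, hrB2⟩ := lift_closed hB q.comm (p.g ≫ (stC t C₁ hC₁).g) (q.g ≫ tZ.g)
    (by rw [Category.assoc, tZ.comm, q.comm]) (by
      rw [Category.assoc, stC_comp, ← Category.assoc, hB.w, Category.assoc, Category.assoc, h.hZ])
  have hparts : Parts p o (stC t C₁ hC₁) rB rD := ⟨hcomp, hyinv, hrB1, hrD1⟩
  have hwBa : (T i).P n rB ((T i).P n wB w) = -(T i).P n wB w := by
    have h3 : wB.g ≫ rB.g = r.g ≫ wB.g := by
      rw [← cancel_mono q.g, Category.assoc, hrB2, Category.assoc, hwB2, hr, ← Category.assoc, hwB2]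
    rw [hT.push_comp i n _ _ _ wB rB (wB.trans rB) rfl,
      ← hT.push_comp i n _ _ _ r wB (wB.trans rB) h3.symm, hwa, hP_neg]
  have hwBz : (T i).P n p ((T i).P n wB w) = 0 := by
    rw [hT.push_comp i n _ _ _ wB p _ hwB1, hdie₁]
  obtain ⟨u, hu1, hu2⟩ := exists_bd_anti hT i n hparts _ hwBa hwBz
  obtain ⟨CU, hCU, hCUd, hdieU⟩ := hBU D b rD hrD2 (dimLE_open o (dimLE_of_mem C₁ hC₁d)) u hu1
  have hCCU : ∀ u, j.g u ∈ C₁ → u ∈ CU := by
    intro u hu
    have h3 : u ∈ Set.range b.g := by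
      rw [cart_range hD, range_closedVarIn]
      exact hu
    obtain ⟨x, rfl⟩ := h3
    exact hCU x
  obtain ⟨K, hK1, hK2, hK3⟩ := exists_K a j h.hc (e + 1) C₁ CU hCCU hCUd
  obtain ⟨D', B', o', b', p', q', hD', hB', hcomp'⟩ := exists_parts a j h.hc (closedVarIn V K)
  have hb' := b'.closed
  have hq' := q'.closed
  obtain ⟨l, hl1, hl2⟩ := lift_closed hD' b'.comm (o.g ≫ (closedVarMap V hK1).g) b.g b.comm (by
    rw [Category.assoc, closedVarMap_comp, hD.w])
  obtain ⟨lB, hlB1, hlB2⟩ := lift_closed hB' q'.comm (p.g ≫ (closedVarMap V hK1).g) q.g q.comm (by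
    rw [Category.assoc, closedVarMap_comp, hB.w])
  have h4 : (T i).P (n + 1) l u = 0 :=
    die_open hT i (n + 1) j b CU hCU K (fun u hu => (hK2 u).mpr hu) o' b' hD' l hl2 u hdieU
  have h5 := bdl_push hT i n p o hcomp p' o' hcomp' lB l (closedVarMap V hK1) hlB1.symm hl1.symm u
  rw [h4, map_zero, hu2, hT.push_comp i n _ _ _ wB lB (wB.trans lB) rfl] at h5
  let CZ : Closeds Z.X := K.preimage a.g.continuous
  have hCZ : ∀ x, q'.g x ∈ CZ := by
    intro x
    change a.g (q'.g x) ∈ K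
    have h6 : a.g (q'.g x) = (closedVarIn V K).g (p'.g x) := by
      rw [← Scheme.Hom.comp_apply, ← Scheme.Hom.comp_apply, hB'.w]
    rw [h6]
    have h7 : (closedVarIn V K).g (p'.g x) ∈ (K : Set V.X) := by
      rw [← range_closedVarIn]
      exact ⟨_, rfl⟩
    exact h7
  have h8 : (wB.trans lB).g ≫ q'.g = aW.g := by
    change (wB.g ≫ lB.g) ≫ q'.g = aW.g
    rw [Category.assoc, hlB2, hwB2]
  obtain ⟨h9, h10⟩ := die_factor hT.toExtra i n aW (wB.trans lB) q' h8 CZ hCZ w h5
  refine ⟨CZ, h9, ?_, h10⟩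
  intro z hz
  have ha := a.closed
  rcases hK3 z hz with h11 | h11
  · rw [← dim_map a.g a.comm]
    exact hC₁d _ h11
  · exact h11

end QCV
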