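import Pool.Agent.QCV.G_TC

/-!
# QCV, block G: products with the affine line and an involution over the base
-/

set_option autoImplicit false

open CategoryTheory AlgebraicGeometry Limits Polynomial TopologicalSpace

namespace QCV

open Pool.Agent.Lib_helper55.Beil Pool.Agent.Lib_helper66.OneP CUB

universe v

variable {k : Type} [Field k] {E : Type} [Field E] {T : ∀ i : ℕ, Homology.{v} k E i}

/-- There are no anti-invariant classes on a product with the affine line. -/
theorem hu_line [CharZero E] (hT : Extra T) (i n : ℕ) {U S : Var k} (L : Line U S)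
    (t : ClosedIn U U) (ht : Inv t) (h : t.g ≫ L.q = L.q) : HU (T (i + 1)) (n + 2) U t := by
  intro u hu
  obtain ⟨x, rfl⟩ := (hT.line_bij i n L).surjective u
  have h1 := hT.line_nat i n L L ht.viso (VIso.refl S) (by
    change t.g ≫ L.q = L.q ≫ 𝟙 S.X
    rw [h, Category.comp_id]) x
  have h2 : (T i).P n (VIso.refl S).cl x = x := hT.push_id i n _ _ rfl x
  rw [ht.viso_cl, h2, hu] at h1
  have h3 : (2 : E) • hT.line i n L x = 0 := by
    rw [two_smul]
    nth_rw 1 [← h1]
    exact neg_add_cancel _
  exact (smul_eq_zero.mp h3).resolve_left two_ne_zero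

/-- The dimension of the closure of an image. -/
lemma closure_dim {W S : Var k} (f : W.X ⟶ S.X) (hf : f ≫ S.f = W.f) (e : ℕ) (hW : W.DimLE e)
    (x : S.X) (hx : x ∈ closure (Set.range f)) : S.dim x ≤ e := by
  have hfin : (irreducibleComponents W.X).Finite := NoetherianSpace.finite_irreducibleComponents
  have h1 : Set.range f ⊆ ⋃ Z ∈ irreducibleComponents W.X, f '' Z := by
    rintro _ ⟨w, rfl⟩
    simp only [Set.mem_iUnion]
    exact ⟨irreducibleComponent w, irreducibleComponent_mem_irreducibleComponents w, w,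
      mem_irreducibleComponent, rfl⟩
  have h2 := closure_mono h1 hx
  rw [hfin.closure_biUnion] at h2
  simp only [Set.mem_iUnion] at h2
  obtain ⟨Z, hZ, hxZ⟩ := h2
  obtain ⟨η, hη⟩ := QuasiSober.sober hZ.1 (isClosed_of_mem_irreducibleComponents Z hZ)
  have h3 : f '' Z ⊆ closure {f η} := by
    rintro _ ⟨w, hw, rfl⟩
    have h4 : η ⤳ w := by
      rw [specializes_iff_mem_closure, hη.def]
      exact hw
    exact (h4.map f.continuous).mem_closure
  have h5 : f η ⤳ x := by
    rw [specializes_iff_mem_closure]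
    exact closure_minimal h3 isClosed_closure hxZ
  exact (dim_le_of_specializes S h5).trans (((CUB.Asm2.s_PFC.{0}).1 k W S f hf η).trans (hW η))

/-- The restriction of a line to a closed subvariety. -/
lemma exists_lineClosed {Y X Z : Var k} (L : Line Y X) (a : ClosedIn Z X) :
    ∃ (Y' : Var k) (L' : Line Y' Z) (c : ClosedIn Y' Y), IsPullback L'.q c.g a.g L.q := by
  have ha := a.closed
  have e1 : LocallyOfFiniteType (L.q ≫ X.f) := by
    rw [L.comm]
    infer_instance
  have e2 : QuasiCompact (L.q ≫ X.f) := by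
    rw [L.comm]
    infer_instance
  have e3 : IsSeparated (L.q ≫ X.f) := by
    rw [L.comm]
    infer_instance
  have h1 : LocallyOfFiniteType L.q := locallyOfFiniteType_of_comp L.q X.f
  have h2 : QuasiCompact L.q := QuasiCompact.of_comp L.q X.f
  have h3 : IsSeparated L.q := IsSeparated.of_comp L.q X.f
  have hP : IsPullback (pullback.fst L.q a.g) (pullback.snd L.q a.g) L.q a.g :=
    IsPullback.of_hasPullback L.q a.g
  let Y' : Var k :=
    { X := pullback L.q a.g
      f := pullback.snd L.q a.g ≫ Z.f
      sep := inferInstance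
      lft := inferInstance
      qc := inferInstance }
  have hc : pullback.fst L.q a.g ≫ Y.f = pullback.snd L.q a.g ≫ Z.f := by
    rw [← L.comm, ← Category.assoc, hP.w, Category.assoc, a.comm]
  have h5 : IsClosedImmersion (pullback.fst L.q a.g) := inferInstance
  let L' : Line Y' Z :=
    { q := pullback.snd L.q a.g
      t := pullback.fst L.q a.g ≫ L.t
      comm := rfl
      prod := by
        have h4 := (hP.paste_horiz L.prod.flip).flip
        rw [a.comm] at h4
        exact h4 }
  exact ⟨Y', L', ⟨pullback.fst L.q a.g, hc, h5⟩, hP.flip⟩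

/-- The anti-invariant classes on stable subvarieties of a product with the affine line. -/
theorem bu_line [CharZero E] (hT : Full T) (i n e : ℕ) {U S : Var k} (L : Line U S)
    (t : ClosedIn U U) (ht : Inv t) (h : t.g ≫ L.q = L.q) : BU (T (i + 1)) (n + 2) e U t := by
  intro W hWred a r hr hWd w hw
  have ha := a.closed
  let f : W.X ⟶ S.X := a.g ≫ L.q
  have hf : f ≫ S.f = W.f := by
    rw [Category.assoc, L.comm, a.comm]
  let C' : Closeds S.X := Closeds.closure (Set.range f)
  have hfC : ∀ x, f x ∈ C' := fun x => subset_closure ⟨x, rfl⟩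
  obtain ⟨Y', L', cl, hP⟩ := exists_lineClosed L (closedVarIn S C')
  have hcl := cl.closed
  have htc := t.closed
  obtain ⟨c, hc1, hc2⟩ := lift_closed hP cl.comm (liftC f C' hfC) a.g a.comm (liftC_comp f C' hfC)
  obtain ⟨tY, htY1, htY2⟩ := lift_closed hP cl.comm L'.q (cl.g ≫ t.g)
    (by rw [Category.assoc, t.comm, cl.comm]) (by
      rw [Category.assoc, h, hP.w])
  have hinv : Inv tY := inv_closed cl t tY ht htY2
  have h1 : (T (i + 1)).P (n + 2) tY ((T (i + 1)).P (n + 2) c w) =
      -(T (i + 1)).P (n + 2) c w := by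
    have h3 : c.g ≫ tY.g = r.g ≫ c.g := by
      rw [← cancel_mono cl.g, Category.assoc, htY2, ← Category.assoc, hc2, Category.assoc, hc2, hr]
    rw [hT.push_comp (i + 1) (n + 2) _ _ _ c tY (c.trans tY) rfl,
      ← hT.push_comp (i + 1) (n + 2) _ _ _ r c (c.trans tY) h3.symm, hw, hP_neg]
  have h2 : (T (i + 1)).P (n + 2) c w = 0 := hu_line hT.toExtra i n L' tY hinv htY1 _ h1
  obtain ⟨h3, h4⟩ := die_factor hT.toExtra (i + 1) (n + 2) a c cl hc2 (C'.preimage L.q.continuous)
    (fun y => by
      change L.q (cl.g y) ∈ C'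
      have h5 : L.q (cl.g y) = (closedVarIn S C').g (L'.q y) := by
        rw [← Scheme.Hom.comp_apply, ← Scheme.Hom.comp_apply, hP.w]
      rw [h5]
      have h7 : (closedVarIn S C').g (L'.q y) ∈ (C' : Set S.X) := by
        rw [← range_closedVarIn]
        exact ⟨_, rfl⟩
      exact h7) w h2
  refine ⟨_, h3, ?_, h4⟩
  intro x hx
  have h6 : S.dim (L.q x) ≤ e := closure_dim f hf e hWd _ hx
  calc U.dim x ≤ S.dim (L.q x) + 1 := (CUB.Asm2.s_LPT.1 k U S L x).2
    _ ≤ (e : Cardinal) + 1 := by gcongr
    _ = ((e + 1 : ℕ) : Cardinal) := by push_cast; rfl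

end QCV
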