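import Pool.Agent.QCV.R_VRQ

/-!
# QCV, block H: the open part `t_0 ≠ 0` of `t_0 f_0 + ... + t_r f_r = 0`
-/

set_option autoImplicit false

open Polynomial

namespace QCV

open CUB VRQ

namespace LNX

section

variable {k S T D : Type} [Field k] [CommRing S] [Algebra k S] [CommRing T] [Algebra k T]
  [CommRing D] [Algebra k D] {r : ℕ} (ρ : MvPolynomial (Fin (r + 1)) S →ₐ[k] T)
  (π : MvPolynomial (Fin r) S →ₐ[k] D)

/-- the homomorphism of polynomial rings -/
noncomputable def mq : (MvPolynomial (Fin r) S)[X] →ₐ[k] D[X] := Polynomial.mapAlgHom π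

lemma mq_C (p : MvPolynomial (Fin r) S) : mq π (C p) = C (π p) := by
  change Polynomial.map _ (C p) = _
  rw [Polynomial.map_C]
  rfl

lemma mq_X : mq π X = X := by
  change Polynomial.map _ X = _
  rw [Polynomial.map_X]

/-- the homomorphism from the base to the localisation -/
noncomputable def bt : MvPolynomial (Fin (r + 1)) S →ₐ[k] Localization.Away (ρ (MvPolynomial.X 0)) :=
  (awayHom k _).comp ρ

/-- the inverse of `t_0` -/
noncomputable def it : Localization.Away (ρ (MvPolynomial.X 0)) :=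
  IsLocalization.Away.invSelf (R := T) (ρ (MvPolynomial.X 0))

lemma bt_it : bt ρ (MvPolynomial.X 0) * it ρ = 1 :=
  IsLocalization.Away.mul_invSelf (R := T) (S := Localization.Away (ρ (MvPolynomial.X 0)))
    (ρ (MvPolynomial.X 0))

/-- `s_j ↦ t_(j+1) / t_0` -/
noncomputable def tt : MvPolynomial (Fin r) S →ₐ[k] Localization.Away (ρ (MvPolynomial.X 0)) :=
  mvs ((bt ρ).comp (mC k (Fin (r + 1)) S)) (fun j => bt ρ (MvPolynomial.X j.succ) * it ρ)

lemma tt_C (s : S) : tt ρ (MvPolynomial.C s) = bt ρ (MvPolynomial.C s) := mvs_C _ _ _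

lemma tt_X (j : Fin r) : tt ρ (MvPolynomial.X j) = bt ρ (MvPolynomial.X j.succ) * it ρ :=
  mvs_X _ _ _

lemma tt_fs (f : Fin (r + 1) → S) (h : ρ (lin f) = 0) : tt ρ (fs f) = 0 := by
  have h2 : lin f = MvPolynomial.X 0 * MvPolynomial.C (f 0) +
      ∑ j : Fin r, MvPolynomial.X j.succ * MvPolynomial.C (f j.succ) := by
    rw [lin, Fin.sum_univ_succ]
  have h4 : bt ρ (lin f) = 0 := by
    change awayHom k _ (ρ (lin f)) = 0
    rw [h, map_zero]
  rw [h2] at h4
  have h1 : tt ρ (fs f) = bt ρ (MvPolynomial.X 0 * MvPolynomial.C (f 0) +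
      ∑ j : Fin r, MvPolynomial.X j.succ * MvPolynomial.C (f j.succ)) * it ρ := by
    rw [fs, map_add, map_sum, map_add, map_sum, add_mul, Finset.sum_mul, tt_C]
    congr 1
    · rw [map_mul, mul_right_comm, bt_it, one_mul]
    · refine Finset.sum_congr rfl fun j _ => ?_
      rw [map_mul, map_mul, tt_X, tt_C, mul_right_comm]
  rw [h1, h4, zero_mul]

/-- `X ↦ t_0` -/
noncomputable def ps (τ : D →ₐ[k] Localization.Away (ρ (MvPolynomial.X 0))) :
    D[X] →ₐ[k] Localization.Away (ρ (MvPolynomial.X 0)) :=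
  evs τ (bt ρ (MvPolynomial.X 0))

lemma ps_C (τ : D →ₐ[k] Localization.Away (ρ (MvPolynomial.X 0))) (p : D) :
    ps ρ τ (C p) = τ p := evs_C _ _ _

lemma ps_X (τ : D →ₐ[k] Localization.Away (ρ (MvPolynomial.X 0))) :
    ps ρ τ X = bt ρ (MvPolynomial.X 0) := evs_X _ _

variable (φ : T →ₐ[k] D[X]) (hφ : ∀ x, φ (ρ x) = mq π (q0 (k := k) x))
  (τ : D →ₐ[k] Localization.Away (ρ (MvPolynomial.X 0))) (hτ : ∀ x, τ (π x) = tt ρ x)

include hφ hτ in
lemma ps_phi (hρ : Function.Surjective ρ) (x : T) :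
    ps ρ τ (φ x) = algebraMap T (Localization.Away (ρ (MvPolynomial.X 0))) x := by
  obtain ⟨x, rfl⟩ := hρ x
  rw [hφ]
  have h : ((ps ρ τ).comp (mq π)).comp q0 = bt ρ := by
    apply mv_ext
    · intro s
      rw [AlgHom.comp_apply, q0_C, AlgHom.comp_apply, mq_C, ps_C, hτ, tt_C]
    · intro j
      refine Fin.cases ?_ (fun j => ?_) j
      · rw [AlgHom.comp_apply, q0_X0, AlgHom.comp_apply, mq_X, ps_X]
      · rw [AlgHom.comp_apply, q0_Xs, AlgHom.comp_apply, map_mul, map_mul, mq_X, mq_C, ps_X, ps_C,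
          hτ, tt_X, mul_left_comm, bt_it, mul_one]
  exact AlgHom.congr_fun h x

include hφ hτ in
lemma key (hπ : Function.Surjective π)
    (α : Localization.Away (ρ (MvPolynomial.X 0)) →ₐ[k] Localization.Away (X : D[X]))
    (hα : ∀ x : T, α (algebraMap T (Localization.Away (ρ (MvPolynomial.X 0))) x) =
      algebraMap D[X] (Localization.Away (X : D[X])) (φ x)) :
    α.comp (ps ρ τ) = awayHom k (X : D[X]) := by
  have hbt : ∀ x : MvPolynomial (Fin (r + 1)) S,
      α (bt ρ x) = algebraMap D[X] (Localization.Away (X : D[X])) (mq π (q0 (k := k) x)) := by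
    intro x
    rw [← hφ]
    exact hα (ρ x)
  have hit : ∀ x : D[X], algebraMap D[X] (Localization.Away (X : D[X])) (X * x) *
      α (it ρ) = algebraMap D[X] (Localization.Away (X : D[X])) x := by
    intro x
    have h1 := congrArg α (bt_it ρ)
    rw [map_mul, hbt, q0_X0, mq_X, map_one] at h1
    rw [map_mul, mul_right_comm, h1, one_mul]
  apply pl_ext
  · intro p
    obtain ⟨p, rfl⟩ := hπ p
    rw [AlgHom.comp_apply, ps_C, hτ]
    have h2 : α.comp (tt ρ) = (awayHom k (X : D[X])).comp ((CC k D).comp π) := by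
      apply mv_ext
      · intro s
        rw [AlgHom.comp_apply, tt_C, hbt, q0_C, mq_C]
        rfl
      · intro j
        rw [AlgHom.comp_apply, tt_X, map_mul, hbt, q0_Xs, map_mul, mq_X, mq_C, hit]
        rfl
    exact AlgHom.congr_fun h2 p
  · rw [AlgHom.comp_apply, ps_X, hbt, q0_X0, mq_X]
    rfl

include hφ hτ in
lemma main (hρ : Function.Surjective ρ) (hπ : Function.Surjective π) :
    @IsLocalization.Away T _ (ρ (MvPolynomial.X 0)) (Localization.Away (X : D[X])) _
    ((awayHom k (X : D[X])).comp φ).toRingHom.toAlgebra := by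
  refine away_of_psi (k := k) (ρ (MvPolynomial.X 0)) φ X ?_ (ps ρ τ) (ps_phi ρ π φ hφ τ hτ hρ)
    (key ρ π φ hφ τ hτ hπ)
  rw [hφ, q0_X0, mq_X]

end

end LNX

open LNX in
/-- **LNX**: the open part `t_0 ≠ 0` of `t_0 f_0 + ... + t_r f_r = 0` is the product of the punctured
line and `f_0 + s_1 f_1 + ... + s_r f_r = 0`. -/
theorem t_LNX (k S : Type) [Field k] [CommRing S] [Algebra k S] (r : ℕ) (f : Fin (r + 1) → S) :
    ∃ u : (MvPolynomial (Fin (r + 1)) S ⧸ Ideal.span {lin f}) →ₐ[k]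
        Localization.Away (X : (MvPolynomial (Fin r) S ⧸ Ideal.span {fs f})[X]),
      @IsLocalization.Away _ _ (Ideal.Quotient.mk _ (MvPolynomial.X 0)) _ _
        u.toRingHom.toAlgebra := by
  let ρ : MvPolynomial (Fin (r + 1)) S →ₐ[k] (MvPolynomial (Fin (r + 1)) S ⧸ Ideal.span {lin f}) :=
    Ideal.Quotient.mkₐ k _
  let π : MvPolynomial (Fin r) S →ₐ[k] (MvPolynomial (Fin r) S ⧸ Ideal.span {fs f}) :=
    Ideal.Quotient.mkₐ k _
  have hρ0 : ρ (lin f) = 0 := Ideal.Quotient.eq_zero_iff_mem.2 (Ideal.subset_span rfl)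
  have hπ0 : π (fs f) = 0 := Ideal.Quotient.eq_zero_iff_mem.2 (Ideal.subset_span rfl)
  have h1 : ∀ a ∈ Ideal.span {lin f}, ((mq π).comp q0) a = 0 := by
    intro a ha
    have h1 : Ideal.span {lin f} ≤ RingHom.ker ((mq π).comp q0).toRingHom := by
      rw [Ideal.span_singleton_le_iff_mem]
      change mq π (q0 (k := k) (lin f)) = 0
      rw [q0_lin, map_mul, mq_X, mq_C, hπ0, C_0, mul_zero]
    exact h1 ha
  have h2 : ∀ a ∈ Ideal.span {fs f}, tt ρ a = 0 := by
    intro a ha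
    have h1 : Ideal.span {fs f} ≤ RingHom.ker (tt ρ).toRingHom := by
      rw [Ideal.span_singleton_le_iff_mem]
      exact tt_fs ρ f hρ0
    exact h1 ha
  exact ⟨_, main ρ π (Ideal.Quotient.liftₐ _ ((mq π).comp q0) h1) (fun x => rfl)
    (Ideal.Quotient.liftₐ _ (tt ρ) h2) (fun x => rfl) Ideal.Quotient.mk_surjective
    Ideal.Quotient.mk_surjective⟩

end QCV
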