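import Pool.Agent.QCV.H_UST

/-!
# QCV, block H: the cubic form `t_0 f_0(x) + ... + t_q f_q(x)`
-/

set_option autoImplicit false

open Polynomial

namespace QCV

open CUB VRQ

/-- The cubic form `t_0 f_0(x) + ... + t_q f_q(x)` in the variables
`x_0, ..., x_(n-1), t_0, ..., t_q`. -/
noncomputable def cubf {k : Type} [Field k] {n q : ℕ} (f : Fin (q + 1) → MvPolynomial (Fin n) k) :
    MvPolynomial (Fin (n + q + 1)) k :=
  ∑ j, MvPolynomial.X (Fin.natAdd n j) * MvPolynomial.rename (Fin.castAdd (q + 1)) (f j)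

lemma cubf_homogeneous {k : Type} [Field k] {n q : ℕ} (f : Fin (q + 1) → MvPolynomial (Fin n) k)
    (hf : ∀ j, (f j).IsHomogeneous 2) : (cubf f).IsHomogeneous 3 := by
  refine MvPolynomial.IsHomogeneous.sum _ _ _ fun j _ => ?_
  exact (MvPolynomial.isHomogeneous_X k (Fin.natAdd n j)).mul (hf j).rename_isHomogeneous

namespace CBF

variable (k : Type) [Field k] (n r : ℕ)

/-- `x_i ↦ x_i`, `t_j ↦ t_j`. -/
noncomputable def ff : MvPolynomial (Fin (n + r)) k →ₐ[k]
    MvPolynomial (Fin r) (MvPolynomial (Fin n) k) :=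
  MvPolynomial.aeval (Fin.addCases (fun i => MvPolynomial.C (MvPolynomial.X i))
    (fun j => MvPolynomial.X j))

/-- the inverse -/
noncomputable def gg : MvPolynomial (Fin r) (MvPolynomial (Fin n) k) →ₐ[k]
    MvPolynomial (Fin (n + r)) k :=
  mvs (MvPolynomial.rename (Fin.castAdd r)) (fun j => MvPolynomial.X (Fin.natAdd n j))

lemma ff_t (j : Fin r) : ff k n r (MvPolynomial.X (Fin.natAdd n j)) = MvPolynomial.X j := by
  rw [ff, MvPolynomial.aeval_X, Fin.addCases_right]

lemma ff_x (i : Fin n) : ff k n r (MvPolynomial.X (Fin.castAdd r i)) =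
    MvPolynomial.C (MvPolynomial.X i) := by
  rw [ff, MvPolynomial.aeval_X, Fin.addCases_left]

lemma ff_rename (p : MvPolynomial (Fin n) k) :
    ff k n r (MvPolynomial.rename (Fin.castAdd r) p) = MvPolynomial.C p := by
  have h : (ff k n r).comp (MvPolynomial.rename (Fin.castAdd r)) =
      mC k (Fin r) (MvPolynomial (Fin n) k) := by
    apply MvPolynomial.algHom_ext
    intro i
    rw [AlgHom.comp_apply, MvPolynomial.rename_X, ff_x]
    rfl
  exact AlgHom.congr_fun h p

lemma ff_gg : (ff k n r).comp (gg k n r) = AlgHom.id k _ := by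
  apply mv_ext
  · intro p
    rw [AlgHom.comp_apply, gg, mvs_C, ff_rename]
    rfl
  · intro j
    rw [AlgHom.comp_apply, gg, mvs_X, ff_t]
    rfl

lemma gg_ff : (gg k n r).comp (ff k n r) = AlgHom.id k _ := by
  apply MvPolynomial.algHom_ext
  intro i
  refine Fin.addCases (fun i => ?_) (fun j => ?_) i
  · rw [AlgHom.comp_apply, ff_x, gg, mvs_C, MvPolynomial.rename_X]
    rfl
  · rw [AlgHom.comp_apply, ff_t, gg, mvs_X]
    rfl

lemma ff_injective : Function.Injective (ff k n r) :=
  Function.LeftInverse.injective (g := gg k n r) fun x => AlgHom.congr_fun (gg_ff k n r) x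

lemma ff_surjective : Function.Surjective (ff k n r) :=
  Function.RightInverse.surjective (g := gg k n r) fun x => AlgHom.congr_fun (ff_gg k n r) x

end CBF

open CBF in
lemma ff_cubf {k : Type} [Field k] {n q : ℕ} (f : Fin (q + 1) → MvPolynomial (Fin n) k) :
    ff k n (q + 1) (cubf f) = lin f := by
  unfold cubf
  rw [map_sum, lin]
  refine Finset.sum_congr rfl fun j _ => ?_
  rw [map_mul, ff_rename]
  congr 1
  exact ff_t k n (q + 1) j

open CBF in
/-- **CBF**: the ring of the cubic. -/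
theorem t_CBF (k : Type) [Field k] (n q : ℕ) (f : Fin (q + 1) → MvPolynomial (Fin n) k) :
    Nonempty ((MvPolynomial (Fin (n + q + 1)) k ⧸ Ideal.span (Set.range fun _ : Fin 1 => cubf f))
      ≃ₐ[k] (MvPolynomial (Fin (q + 1)) (MvPolynomial (Fin n) k) ⧸ Ideal.span {lin f})) := by
  refine ust_iso (ff k n (q + 1)) (ff_surjective k n (q + 1)) ∅
    (Set.range fun _ : Fin 1 => cubf f) _ {lin f} ?_ ?_ (Set.empty_union _)
  · rw [Ideal.span_empty]
    exact (RingHom.injective_iff_ker_eq_bot (ff k n (q + 1)).toRingHom).1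
      (ff_injective k n (q + 1))
  · rw [Set.range_const, Set.image_singleton, ff_cubf]

/-- **FSC**: the sum `t_0 f_0 + ... + t_q f_q` as a generic member. -/
lemma fs_cons {S : Type} [CommRing S] {q : ℕ} (f : Fin (q + 1) → S) :
    fs (Fin.cons 0 f : Fin (q + 1 + 1) → S) = lin f := by
  unfold fs lin
  rw [Fin.cons_zero, map_zero, zero_add]
  rfl

end QCV
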