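import Pool.Agent.QCV.U_FIN
import Pool.Agent.QCV.H_CUB

/-!
# QCV, block H: universality of the generic members of systems of quadratic forms
-/

set_option autoImplicit false

open CategoryTheory AlgebraicGeometry Limits Polynomial TopologicalSpace

namespace QCV

open Pool.Agent.Lib_helper55.Beil Pool.Agent.Lib_helper66.OneP CUB

universe v

variable {k : Type} [Field k] {E : Type} [Field E] {T : ∀ i : ℕ, Homology.{v} k E i} {hT : Full T}

/-- The conjecture of Tate for the generic members of systems of `q + 1` quadratic forms in an odd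
number of variables over `k`. -/
def OddGenTate {k : Type} [Field k] {E : Type} [Field E] (T : ∀ i : ℕ, Homology.{v} k E i) (q : ℕ) :
    Prop :=
  ∀ (s : ℕ) (f : Fin (q + 1) → MvPolynomial (Fin (1 + 2 * s)) k), (∀ j, (f j).IsHomogeneous 2) →
    (gram (gen f)).det ≠ 0 →
    GG T (aff k (MvPolynomial (Fin q) (MvPolynomial (Fin (1 + 2 * s)) k) ⧸ Ideal.span {fs f}))

/-- One polynomial: from the generic members of systems of `m + 1` quadratic forms to the hypersurface
`g = 0`. -/
lemma gg_hyper2 [Finite k] [CharZero E] (hP : Pub2 T hT) (h2 : (2 : k) ≠ 0) (d : ℕ)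
    (ho : OddGenTate T (d + 2)) (g : MvPolynomial (Fin (d + 2)) k) :
    GG T (aff k (MvPolynomial (Fin (d + 2)) k ⧸ Ideal.span {g})) := by
  have hG : GGC T := t_TGG k E T hT hP.toPub hP.sectionZero hP.etale
  have hpoly := ppf_poly hP.toPub (T := T) (d + 2)
  have h2B : (2 : MvPolynomial (Fin (d + 2)) k) ≠ 0 := by
    intro h
    apply h2
    have h3 : MvPolynomial.C (2 : k) = (0 : MvPolynomial (Fin (d + 2)) k) := by
      rw [← h]
      exact map_ofNat _ 2
    exact MvPolynomial.C_eq_zero.mp h3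
  by_cases hg : g = 0
  · subst hg
    refine (clsT_gg hG).iso (A := MvPolynomial (Fin (d + 2)) k) ?_ (fun i => (hpoly i).1)
    have h1 : Ideal.span {(0 : MvPolynomial (Fin (d + 2)) k)} = ⊥ := by simp
    exact ((Ideal.quotientEquivAlgOfEq k h1).trans
      (AlgEquiv.quotientBot k (MvPolynomial (Fin (d + 2)) k))).symm
  obtain ⟨s, f, P, hf, hPu, heq⟩ := Asm.s_ULZ k (d + 2) 1
    (MvPolynomial.C g * MvPolynomial.X 0 ^ 2)
    ((MvPolynomial.isHomogeneous_C_mul_X_pow g 0 2))
  have hdet : (gram (gen f)).det ≠ 0 := by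
    have h3 : gram (gen f) = lgram (lsub P (hyp (MvPolynomial.C g * MvPolynomial.X 0 ^ 2 :
        MvPolynomial (Fin 1) (MvPolynomial (Fin (d + 2)) k)) s)) := by
      rw [heq]
      rfl
    have h4 := t_UGM _ (1 + 2 * s) (hyp (MvPolynomial.C g * MvPolynomial.X 0 ^ 2 :
        MvPolynomial (Fin 1) (MvPolynomial (Fin (d + 2)) k)) s) P ?_
    · rw [h3, h4, Matrix.det_mul, Matrix.det_mul, Matrix.det_transpose]
      exact mul_ne_zero (mul_ne_zero hPu.ne_zero (t_UDT _ g s h2B hg)) hPu.ne_zero
    · refine MvPolynomial.IsHomogeneous.add ?_ ?_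
      · exact (MvPolynomial.isHomogeneous_C_mul_X_pow g 0 2).rename_isHomogeneous
      · refine MvPolynomial.IsHomogeneous.sum _ _ _ fun i _ => ?_
        exact (MvPolynomial.isHomogeneous_X _ _).mul (MvPolynomial.isHomogeneous_X _ _)
  have h5 : GG T (aff k (MvPolynomial (Fin (d + 2)) (MvPolynomial (Fin (1 + 2 * s)) k) ⧸
      Ideal.span {fs f})) := ho s f hf hdet
  obtain ⟨e1⟩ := t_QSW k k (1 + 2 * s) (d + 2) f
  have h6 := (clsT_gg hG).iso e1 h5
  obtain ⟨e2⟩ := t_USB k (MvPolynomial (Fin (d + 2)) k) (1 + 2 * s)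
    (hyp (MvPolynomial.C g * MvPolynomial.X 0 ^ 2) s) P hPu
  rw [heq] at e2
  have h7 := (clsT_gg hG).iso e2 h6
  have h8 := Asm.s_UHY k E T hT hP.toPub hP.sectionZero hG (MvPolynomial (Fin (d + 2)) k) 1 s
    (MvPolynomial.C g * MvPolynomial.X 0 ^ 2) hpoly h7
  obtain ⟨u, hu⟩ := t_UGA k (MvPolynomial (Fin (d + 2)) k) g
  have h9 := (clsT_gg hG).opn _ u hu h8
  exact t_TGM k E T hT hP.toPub hP.sectionZero _ h9

namespace UNV

/-- `f` with a zero inserted after the first form -/
noncomputable def ins {R : Type} [CommRing R] {n q : ℕ} (f : Fin (q + 1) → MvPolynomial (Fin n) R) :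
    Fin (q + 1 + 1) → MvPolynomial (Fin n) R :=
  Fin.cons (f 0) (Fin.cons 0 fun j => f j.succ)

section

variable {R : Type} [CommRing R] {n q : ℕ} (f : Fin (q + 1) → MvPolynomial (Fin n) R)

theorem ins_zero : ins f 0 = f 0 := rfl

theorem ins_one : ins f 1 = 0 := rfl

theorem ins_succ (j : Fin q) : ins f j.succ.succ = f j.succ := rfl

theorem usf_ins : usf (ins f) = f := by
  funext j
  refine Fin.cases ?_ (fun j => ?_) j
  · rfl
  · rfl

theorem gen_ins : gen (ins f) = MvPolynomial.map (MvPolynomial.rename (R := R)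
      (Fin.succ : Fin q → Fin (q + 1))).toRingHom (gen f) := by
  unfold gen
  rw [map_add, map_sum, Fin.sum_univ_succ]
  have hc : ((MvPolynomial.rename (R := R) (Fin.succ : Fin q → Fin (q + 1))).toRingHom).comp
      (MvPolynomial.C : R →+* MvPolynomial (Fin q) R) = MvPolynomial.C := by
    ext x
    simp
  have h1 : ins f (Fin.succ 0) = 0 := rfl
  rw [h1, ins_zero, map_zero, mul_zero, zero_add, MvPolynomial.map_map, hc]
  congr 1
  refine Finset.sum_congr rfl fun i _ => ?_
  rw [ins_succ, map_mul, MvPolynomial.map_map, hc, MvPolynomial.map_C]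
  congr 2
  simp

theorem fs_ins : MvPolynomial.finSuccEquiv (MvPolynomial (Fin n) R) q (fs (ins f)) = C (fs f) := by
  rw [ust_fs, ins_one, usf_ins, map_zero, C_0, zero_mul, zero_add]

end

end UNV

open UNV in
theorem t_UPD2 {k E : Type} [Field k] [Field E] {T : ∀ i : ℕ, Homology.{v} k E i} (hG : GGC T)
    (q : ℕ) (h : OddGenTate T (q + 1)) : OddGenTate T q := by
  intro s f hf hdet
  have h1 := h s (ins f) (by
    intro j
    refine Fin.cases (hf 0) (fun j => ?_) j
    refine Fin.cases (MvPolynomial.isHomogeneous_zero _ _ _) (fun j => ?_) j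
    exact hf j.succ) (by
    rw [gen_ins, UPD.gram_map, ← RingHom.map_det]
    intro h0
    apply hdet
    exact MvPolynomial.rename_injective _ (Fin.succ_injective q) (by
      rw [map_zero]
      exact h0))
  let S := MvPolynomial (Fin (1 + 2 * s)) k
  let M := MvPolynomial (Fin q) S
  let e : MvPolynomial (Fin (q + 1)) S ≃ₐ[k] M[X] :=
    (MvPolynomial.finSuccEquiv S q).restrictScalars k
  let π : M →ₐ[k] M ⧸ Ideal.span {fs f} := Ideal.Quotient.mkₐ k _
  have hπ : Function.Surjective π := Ideal.Quotient.mkₐ_surjective k _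
  let φ : MvPolynomial (Fin (q + 1)) S →ₐ[k] (M ⧸ Ideal.span {fs f})[X] :=
    (Polynomial.mapAlgHom π).comp e.toAlgHom
  have hφ : Function.Surjective φ := (Polynomial.map_surjective π.toRingHom hπ).comp e.surjective
  have hef : e (fs (ins f)) = C (fs f) := fs_ins f
  have hk : RingHom.ker φ.toRingHom = Ideal.span {fs (ins f)} := by
    have h2 : RingHom.ker φ.toRingHom =
        Ideal.comap e.toRingEquiv.toRingHom (RingHom.ker (Polynomial.mapRingHom π.toRingHom)) := by
      ext x
      rfl
    have h3 : RingHom.ker π.toRingHom = Ideal.span {fs f} := Ideal.mk_ker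
    have h4 : Ideal.map C (Ideal.span {fs f}) =
        Ideal.map e.toRingEquiv.toRingHom (Ideal.span {fs (ins f)}) := by
      rw [Ideal.map_span, Ideal.map_span, Set.image_singleton, Set.image_singleton]
      exact congrArg (fun x => Ideal.span {x}) hef.symm
    rw [h2, Polynomial.ker_mapRingHom, h3, h4]
    exact Ideal.comap_map_of_bijective e.toRingEquiv.toRingHom e.bijective
  have hk2 : RingHom.ker φ = Ideal.span {fs (ins f)} := hk
  have e2 := (Ideal.quotientEquivAlgOfEq k hk2.symm).trans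
    (Ideal.quotientKerAlgEquivOfSurjective hφ)
  exact hG.unpoly _ ((clsT_gg hG).iso e2 h1)

/-- Universality. -/
theorem universal2 [Finite k] [CharZero E] (hP : Pub2 T hT) (h2 : (2 : k) ≠ 0) (d : ℕ)
    (ho : OddGenTate T (d + 1)) : ∀ X : Var k, X.DimLE d → GG T X := by
  have hG : GGC T := t_TGG k E T hT hP.toPub hP.sectionZero hP.etale
  induction d with
  | zero =>
    intro X hX i
    exact (pf_of_dimLE hT hP.toPub i X
      (fun x => (hX x).trans (by exact_mod_cast Nat.zero_le i))).1
  | succ d ih =>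
    exact Asm.s_UNO k E T hG d (ih (t_UPD2 hG (d + 1) ho)) (gg_hyper2 hP h2 d ho)

end QCV
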