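import Pool.Agent.QCV.H_FIN
import Pool.Agent.QCV.H_UNV
import Pool.Agent.QCV.H_LNX

/-!
# QCV, block H: the conjecture of Tate for cubic hypersurfaces
-/

set_option autoImplicit false

open CategoryTheory AlgebraicGeometry Limits Polynomial TopologicalSpace

namespace QCV

open Pool.Agent.Lib_helper55.Beil Pool.Agent.Lib_helper66.OneP CUB

universe v

variable {k : Type} [Field k] {E : Type} [Field E]
variable {T : ∀ i : ℕ, Homology.{v} k E i} {hT : Full T}

/-- The affine cone over the cubic hypersurface `t_0 f_0(x) + ... + t_q f_q(x) = 0`. -/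
noncomputable abbrev ccone {n q : ℕ} (f : Fin (q + 1) → MvPolynomial (Fin n) k) : Var k :=
  aff k (MvPolynomial (Fin (n + q + 1)) k ⧸ Ideal.span (Set.range fun _ : Fin 1 => cubf f))

/-- The property `P` holds for the projective cubic hypersurfaces
`t_0 f_0(x) + ... + t_q f_q(x) = 0`, for quadratic forms `f_j` in an odd number of variables over `k`
whose generic linear combination is nondegenerate. -/
def CubicSystems (P : Var k → Prop) (q : ℕ) : Prop :=
  ∀ (n : ℕ) (f : Fin (q + 1) → MvPolynomial (Fin n) k), Odd n → (∀ j, (f j).IsHomogeneous 2) →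
    (gram (gen f)).det ≠ 0 → ∀ (X : Var k) (_ : ProjSub (fun _ : Fin 1 => cubf f) X), P X

section Member

variable (k)

lemma member_poly (n d : ℕ) : Member k d (aff k (MvPolynomial (Fin n) k)) :=
  (Asm.s_PLY k (fun A [CommRing A] [Algebra k A] [Algebra.FiniteType k A] => Member k d (aff k A))
    (cls_member k d).toCls0 (cls_member k d).line k n).1
    (Member.small _ (fun x => (dimLE_of_DL (dl_field k) x).trans (by exact_mod_cast Nat.zero_le d)))

end Member

/-- The affine cone over the cubic hypersurface belongs to the class. -/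
theorem member_ccone (h2 : (2 : k) ≠ 0) (d n : ℕ) (f : Fin (d + 1 + 1) → MvPolynomial (Fin n) k)
    (hn : Odd n) (hf : ∀ j, (f j).IsHomogeneous 2) (hd : (gram (gen f)).det ≠ 0) :
    Member k d (ccone f) := by
  obtain ⟨e⟩ := t_CBF k n (d + 1) f
  refine (cls_member k d).iso e.symm ?_
  rw [← fs_cons f]
  have hall : Member k d (aff k (MvPolynomial (Fin n) k ⧸ Ideal.span (Set.range f))) :=
    member_oddSystems h2 d n f hn hf hd
  refine t_UST2 k (fun A [CommRing A] [Algebra k A] [Algebra.FiniteType k A] => Member k d (aff k A))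
    (cls_member k d).toCls0 (cls_member k d).line (d + 1 + 1) (MvPolynomial (Fin n) k)
    (Fin.cons 0 f) ?_ ?_
  · intro j hj
    have h6 : (Fin.cons 0 f : Fin (d + 1 + 1 + 1) → MvPolynomial (Fin n) k) ''
        {l : Fin (d + 1 + 1 + 1) | 1 ≤ l.1 ∧ l.1 ≤ j} =
        Set.range (fun l : Fin j => f ⟨l.1, by have := l.2; omega⟩) := by
      ext y
      constructor
      · rintro ⟨l, ⟨hl1, hl2⟩, rfl⟩
        obtain ⟨l', rfl⟩ : ∃ l' : Fin (d + 1 + 1), l = l'.succ := by
          refine ⟨l.pred ?_, (Fin.succ_pred _ _).symm⟩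
          rintro rfl
          simp at hl1
        rw [Fin.cons_succ]
        simp only [Fin.val_succ] at hl2
        exact ⟨⟨l'.1, by omega⟩, rfl⟩
      · rintro ⟨l, rfl⟩
        refine ⟨Fin.succ ⟨l.1, by have := l.2; omega⟩, ⟨?_, ?_⟩, by rw [Fin.cons_succ]⟩
        · simp only [Fin.val_succ]
          omega
        · simp only [Fin.val_succ]
          have := l.2
          omega
    refine (cls_member k d).iso
      (Ideal.quotientEquivAlgOfEq k (congrArg Ideal.span h6.symm)) ?_
    rcases Nat.eq_zero_or_pos j with rfl | hj0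
    · refine (cls_member k d).iso (A := MvPolynomial (Fin n) k) ?_ (member_poly k n d)
      have h1 : Ideal.span (Set.range (fun l : Fin 0 =>
          f ⟨l.1, by have := l.2; omega⟩)) = ⊥ := by
        rw [Set.range_eq_empty, Ideal.span_empty]
      exact ((Ideal.quotientEquivAlgOfEq k h1).trans
        (AlgEquiv.quotientBot k (MvPolynomial (Fin n) k))).symm
    · rcases Nat.lt_or_ge j (d + 2) with hj2 | hj2
      · exact member_of_built (built_quadrics (e := 0) _ hj0 (by omega)
          (dimLE_of_DL (dl_field k)) (fun l => (hf _).totalDegree_le))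
      · obtain rfl : j = d + 1 + 1 := by omega
        exact hall
  · refine (cls_member k d).iso (Ideal.quotientEquivAlgOfEq k ?_) hall
    apply le_antisymm
    · rw [Ideal.span_le]
      rintro _ ⟨j, rfl⟩
      exact Ideal.subset_span ⟨j.succ, by rw [Fin.cons_succ]⟩
    · rw [Ideal.span_le]
      rintro _ ⟨j, rfl⟩
      refine Fin.cases ?_ (fun j => ?_) j
      · rw [Fin.cons_zero]
        exact Ideal.zero_mem _
      · rw [Fin.cons_succ]
        exact Ideal.subset_span ⟨j, rfl⟩

/-- The cubic hypersurfaces belong to the class. -/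
theorem member_cubicSystems (h2 : (2 : k) ≠ 0) (d : ℕ) : CubicSystems (Member k d) (d + 1) := by
  intro n f hn hf hd X S
  exact member_of_cone
    (Member.small _ (fun x => (dimLE_of_DL (dl_field k) x).trans (by exact_mod_cast Nat.zero_le d)))
    (fun _ : Fin 1 => cubf f) (fun _ => 3) (fun _ => cubf_homogeneous f hf) (fun _ => by norm_num)
    (member_ccone h2 d n f hn hf hd) S

section

variable [Finite k] [CharZero E]

/-- From the cubic to the generic member. -/
theorem gg_fs_of_ccone (hP : Pub2 T hT) {n q : ℕ} (f : Fin (q + 1) → MvPolynomial (Fin n) k)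
    (h : GG T (ccone f)) :
    GG T (aff k (MvPolynomial (Fin q) (MvPolynomial (Fin n) k) ⧸ Ideal.span {fs f})) := by
  have hG : GGC T := ggc hP
  obtain ⟨e⟩ := t_CBF k n q f
  have h1 := (clsT_gg hG).iso e h
  obtain ⟨u, hu⟩ := t_LNX k (MvPolynomial (Fin n) k) q f
  have h2 := (clsT_gg hG).opn _ u hu h1
  exact t_TGM k E T hT hP.toPub hP.sectionZero _ h2

/-- The conjecture of Tate in dimension at most `d` is equivalent to the conjecture of Tate for the
cubic hypersurfaces `t_0 f_0(x) + ... + t_(d+1) f_(d+1)(x) = 0`. -/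
theorem tate_cubic (hP : Pub2 T hT) (h2 : (2 : k) ≠ 0) (d : ℕ) :
    (∀ X : Var k, X.DimLE d → Tate T X) ↔ CubicSystems (Tate T) (d + 1) := by
  constructor
  · intro h n f hn hf hd X S
    exact (tate_member hP d).mp h X (member_cubicSystems h2 d n f hn hf hd X S)
  · intro h
    rw [tate_iff]
    refine universal2 hP h2 d ?_
    intro s f hf hd
    refine gg_fs_of_ccone hP f ?_
    refine (gg_iff _).mpr ((tate_cone_iff hP (fun _ : Fin 1 => cubf f) (fun _ => 3)
      (fun _ => cubf_homogeneous f hf) (fun _ => by norm_num) (tate_field hP)).mpr ?_)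
    exact h (1 + 2 * s) f ⟨s, by ring⟩ hf hd

end

end QCV
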