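import Pool.Agent.QCV.H_EOD
import Pool.Agent.QCV.H_CFI

/-!
# QCV, block H: all systems of quadratic forms
-/

set_option autoImplicit false

open CategoryTheory AlgebraicGeometry Limits Polynomial TopologicalSpace

namespace QCV

open Pool.Agent.Lib_helper55.Beil Pool.Agent.Lib_helper66.OneP CUB

universe v

/-- **OVS2**: systems of quadratic forms of odd generic rank. -/
theorem t_OVS2 (k : Type) [Field k]
    (P : ∀ (A : Type) [CommRing A] [Algebra k A] [Algebra.FiniteType k A], Prop) (d : ℕ)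
    (h2 : (2 : k) ≠ 0) (hP : Cls k d P) (hE : OddCl k P) (R : Type) [CommRing R] [IsDomain R]
    [Algebra k R] [Algebra.FiniteType k R] (n q e : ℕ)
    (f : Fin (q + 1) → MvPolynomial (Fin n) R) (hed : e ≤ d) (hqe : q + e ≤ d + 1)
    (hDL : DL k R e) (hf : ∀ j, (f j).IsHomogeneous 2)
    (hodd : Odd ((gram (gen f)).map (algebraMap (MvPolynomial (Fin q) R)
      (FractionRing (MvPolynomial (Fin q) R)))).rank) :
    P (VR (MvPolynomial (Fin n) R) f) := by
  have hS' : P (MvPolynomial (Fin q) (MvPolynomial (Fin n) R)) :=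
    (Asm.s_PLY k P hP.toCls0 hP.line _ q).1 ((Asm.s_PLY k P hP.toCls0 hP.line R n).1
      (hP.base R (hDL.mono hed)))
  have hB : DL k (MvPolynomial (Fin q) R) (d + 1) :=
    (Asm.s_DLM k R e q hDL).mono (by omega)
  have hPB : P (MvPolynomial (Fin q) R) :=
    (Asm.s_PLY k P hP.toCls0 hP.line R q).1 (hP.base R (hDL.mono hed))
  obtain ⟨e1⟩ := t_QSW k R n q f
  have h1 : P (MvPolynomial (Fin q) (MvPolynomial (Fin n) R) ⧸ Ideal.span {fs f}) :=
    hP.iso e1.symm (Asm.s_QOD k P d h2 hP hE (MvPolynomial (Fin q) R) n (gen f) hB hPB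
      (EVS.gen_homog f hf) hodd)
  have h3 := Asm.s_V1P k P hP.toCls0 hP.line (MvPolynomial (Fin q) (MvPolynomial (Fin n) R))
    (fs f) hS' h1
  have h4 := Asm.s_VRP k P d e n q hP hed (by omega) R (fun j : Fin q => f j.succ) hDL
    (fun j => (hf _).totalDegree_le)
  obtain ⟨z', u', hs⟩ := Asm.s_VRQ k (MvPolynomial (Fin n) R) q f
  exact hP.glue _ z' u' hs h4 h3

variable {k : Type} [Field k] {E : Type} [Field E]
variable {T : ∀ i : ℕ, Homology.{v} k E i} {hT : Full T}

/-- The property `P` holds for the zero sets of any `q + 1` quadratic forms over `k`. -/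
def AllSystems (P : Var k → Prop) (q : ℕ) : Prop :=
  ∀ (n : ℕ) (f : Fin (q + 1) → MvPolynomial (Fin n) k), (∀ j, (f j).IsHomogeneous 2) → P (zer f)

section

variable [Finite k] [CharZero E]

lemma oddCl_gg (hP : Pub2 T hT) :
    OddCl k (fun A [CommRing A] [Algebra k A] [Algebra.FiniteType k A] => GG T (aff k A)) := by
  obtain ⟨S, h1, h2, h3, h4⟩ := hP.dbl
  exact fun A _ _ _ m a ha h =>
    t_TOD k E T hT S hP.toPub hP.sectionZero h1 h2 h3 h4 A m a ha h

/-- From varieties of dimension at most `d` and the double covers of the affine space of dimension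
`d + 1` to all systems of `d + 2` quadratic forms. -/
lemma allSystems_of (hP : Pub2 T hT) (h2 : (2 : k) ≠ 0) (d : ℕ)
    (hlow : ∀ X : Var k, X.DimLE d → GG T X) (hD : DoubleCovers (GG T) (d + 1)) :
    AllSystems (GG T) (d + 1) := by
  intro n f hf
  refine t_TZE k E T hT hP.toPub hP.sectionZero _ (d + 1) f ?_
  rcases Nat.even_or_odd ((gram (gen f)).map (algebraMap (MvPolynomial (Fin (d + 1)) k)
      (FractionRing (MvPolynomial (Fin (d + 1)) k)))).rank with h | h
  · exact t_EVS2 k (fun A [CommRing A] [Algebra k A] [Algebra.FiniteType k A] => GG T (aff k A)) d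
      h2 (cls_gg hP d hlow) (ggEven hP h2) k n (d + 1) 0 f (Nat.zero_le d) le_rfl (dl_field k) hf h
      (fun c => gg_dr_congr (neg_neg c) (hD (-c)))
  · exact t_OVS2 k (fun A [CommRing A] [Algebra k A] [Algebra.FiniteType k A] => GG T (aff k A)) d
      h2 (cls_gg hP d hlow) (oddCl_gg hP) k n (d + 1) 0 f (Nat.zero_le d) le_rfl (dl_field k) hf h

/-- The conjecture of Tate for all systems of `d + 2` quadratic forms over `k` is equivalent to the
conjecture of Tate for all varieties of dimension at most `d` and for the double covers of the affine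
space of dimension `d + 1`. -/
theorem tate_all (hP : Pub2 T hT) (h2 : (2 : k) ≠ 0) (d : ℕ) :
    AllSystems (Tate T) (d + 1) ↔
      (∀ X : Var k, X.DimLE d → Tate T X) ∧ DoubleCovers (Tate T) (d + 1) := by
  constructor
  · intro h
    have h3 : ∀ X : Var k, X.DimLE d → Tate T X :=
      (tate_odd hP h2 d).mpr fun n f _ hf _ => h n f hf
    exact ⟨h3, (tate_even hP h2 d h3).mp fun n f _ hf _ => h n f hf⟩
  · rintro ⟨h, hD⟩ n f hf
    exact (gg_iff _).mp (allSystems_of hP h2 d ((tate_iff (T := T) _).mp h)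
      (fun g => (gg_iff _).mpr (hD g)) n f hf)

/-- The conjecture of Tate for the origin. -/
lemma tate_zer_zero (hP : Pub2 T hT) {q : ℕ} (f : Fin (q + 1) → MvPolynomial (Fin 0) k)
    (hf : ∀ j, (f j).IsHomogeneous 2) : Tate T (zer f) := by
  have hG : GGC T := ggc hP
  have h0 : ∀ j, f j = 0 := by
    intro j
    rw [MvPolynomial.eq_C_of_isEmpty (f j)]
    have h1 : MvPolynomial.coeff 0 (f j) = 0 := by
      apply (hf j).coeff_eq_zero
      rw [map_zero]
      norm_num
    rw [h1, map_zero]
  refine (gg_iff _).mp ((clsT_gg hG).iso (A := MvPolynomial (Fin 0) k) ?_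
    (fun i => (ppf_poly hP.toPub (T := T) 0 i).1))
  have h1 : Ideal.span (Set.range f) = ⊥ := by
    rw [Ideal.span_eq_bot]
    rintro _ ⟨j, rfl⟩
    exact h0 j
  exact ((Ideal.quotientEquivAlgOfEq k h1).trans
    (AlgEquiv.quotientBot k (MvPolynomial (Fin 0) k))).symm

/-- The conjecture of Tate for the affine and for the projective zero set of quadratic forms. -/
lemma tate_zer_iff (hP : Pub2 T hT) {n q : ℕ} (f : Fin (q + 1) → MvPolynomial (Fin (n + 1)) k)
    (hf : ∀ j, (f j).IsHomogeneous 2) :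
    Tate T (zer f) ↔ ∀ (X : Var k) (_ : ProjSub f X), Tate T X :=
  tate_cone_iff hP f (fun _ => 2) hf (fun _ => by norm_num) (tate_field hP)

end

end QCV
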