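import Pool.Agent.QCV.DefsO

/-!
# QCV, block H: orthogonal sums of quadratic forms
-/

set_option autoImplicit false

namespace QCV

namespace BLK

/-- The orthogonal sum. -/
noncomputable def osum {B : Type} [CommRing B] {n m : ℕ} (φ : MvPolynomial (Fin n) B)
    (ζ : MvPolynomial (Fin m) B) : MvPolynomial (Fin (n + m)) B :=
  MvPolynomial.rename (Fin.castAdd m) φ + MvPolynomial.rename (Fin.natAdd n) ζ

lemma osum_homog {B : Type} [CommRing B] {n m : ℕ} {φ : MvPolynomial (Fin n) B}
    {ζ : MvPolynomial (Fin m) B} {d : ℕ} (h1 : φ.IsHomogeneous d) (h2 : ζ.IsHomogeneous d) :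
    (osum φ ζ).IsHomogeneous d := h1.rename_isHomogeneous.add h2.rename_isHomogeneous

lemma pd_zero {B : Type} [CommRing B] {σ τ : Type} (f : σ → τ) (j : τ) (hj : ∀ i, f i ≠ j)
    (p : MvPolynomial σ B) : MvPolynomial.pderiv j (MvPolynomial.rename f p) = 0 := by
  classical
  apply MvPolynomial.pderiv_eq_zero_of_notMem_vars
  intro h
  have h1 := MvPolynomial.vars_rename f p h
  rw [Finset.mem_image] at h1
  obtain ⟨i, -, hi⟩ := h1
  exact hj i hi

lemma c0 {B : Type} [CommRing B] {σ τ : Type} (f : σ → τ) (p : MvPolynomial σ B) :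
    MvPolynomial.coeff 0 (MvPolynomial.rename f p) = MvPolynomial.coeff 0 p := by
  have h := MvPolynomial.constantCoeff_rename f p
  rwa [MvPolynomial.constantCoeff_eq, MvPolynomial.constantCoeff_eq] at h

lemma castAdd_ne_natAdd {n m : ℕ} (i : Fin n) (j : Fin m) : Fin.castAdd m i ≠ Fin.natAdd n j := by
  intro h
  have := congrArg Fin.val h
  simp at this
  omega

lemma castAdd_inj (n m : ℕ) : Function.Injective (Fin.castAdd m : Fin n → Fin (n + m)) :=
  Fin.castAdd_injective n m

lemma natAdd_inj (n m : ℕ) : Function.Injective (Fin.natAdd n : Fin m → Fin (n + m)) :=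
  Fin.natAdd_injective m n

/-- The matrix of an orthogonal sum. -/
lemma gram_osum {B : Type} [CommRing B] {n m : ℕ} (φ : MvPolynomial (Fin n) B)
    (ζ : MvPolynomial (Fin m) B) :
    (gram (osum φ ζ)).submatrix finSumFinEquiv finSumFinEquiv =
      Matrix.fromBlocks (gram φ) 0 0 (gram ζ) := by
  ext x y
  rcases x with i | i <;> rcases y with j | j
  · rw [Matrix.submatrix_apply, Matrix.fromBlocks_apply₁₁, finSumFinEquiv_apply_left,
      finSumFinEquiv_apply_left]
    unfold gram osum
    rw [map_add, pd_zero (Fin.natAdd n) _ (fun a h => castAdd_ne_natAdd j a h.symm), add_zero,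
      MvPolynomial.pderiv_rename (castAdd_inj n m), MvPolynomial.pderiv_rename (castAdd_inj n m), c0]
  · rw [Matrix.submatrix_apply, Matrix.fromBlocks_apply₁₂, finSumFinEquiv_apply_left,
      finSumFinEquiv_apply_right]
    unfold gram osum
    rw [map_add, pd_zero (Fin.castAdd m) _ (fun a => castAdd_ne_natAdd a j), zero_add,
      MvPolynomial.pderiv_rename (natAdd_inj n m),
      pd_zero (Fin.natAdd n) _ (fun a h => castAdd_ne_natAdd i a h.symm), MvPolynomial.coeff_zero]
    rfl
  · rw [Matrix.submatrix_apply, Matrix.fromBlocks_apply₂₁, finSumFinEquiv_apply_right,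
      finSumFinEquiv_apply_left]
    unfold gram osum
    rw [map_add, pd_zero (Fin.natAdd n) _ (fun a h => castAdd_ne_natAdd j a h.symm), add_zero,
      MvPolynomial.pderiv_rename (castAdd_inj n m),
      pd_zero (Fin.castAdd m) _ (fun a => castAdd_ne_natAdd a i), MvPolynomial.coeff_zero]
    rfl
  · rw [Matrix.submatrix_apply, Matrix.fromBlocks_apply₂₂, finSumFinEquiv_apply_right,
      finSumFinEquiv_apply_right]
    unfold gram osum
    rw [map_add, pd_zero (Fin.castAdd m) _ (fun a => castAdd_ne_natAdd a j), zero_add,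
      MvPolynomial.pderiv_rename (natAdd_inj n m), MvPolynomial.pderiv_rename (natAdd_inj n m), c0]

lemma det_osum {B : Type} [CommRing B] {n m : ℕ} (φ : MvPolynomial (Fin n) B)
    (ζ : MvPolynomial (Fin m) B) : (gram (osum φ ζ)).det = (gram φ).det * (gram ζ).det := by
  rw [← Matrix.det_submatrix_equiv_self finSumFinEquiv, gram_osum, Matrix.det_fromBlocks_zero₂₁]

/-- The rank of a block matrix. -/
lemma rank_blocks {K : Type} [Field K] {m n : Type} [Fintype m] [Fintype n] (A : Matrix m m K)
    (D : Matrix n n K) : (Matrix.fromBlocks A 0 0 D).rank = A.rank + D.rank := by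
  let e : (m ⊕ n → K) ≃ₗ[K] (m → K) × (n → K) := LinearEquiv.sumArrowLequivProdArrow m n K K
  have h1 : (Matrix.fromBlocks A 0 0 D).mulVecLin =
      (e.symm.toLinearMap ∘ₗ (A.mulVecLin.prodMap D.mulVecLin)) ∘ₗ e.toLinearMap := by
    apply LinearMap.ext
    intro x
    funext y
    rcases y with y | y
    · change Matrix.mulVec _ _ _ = Matrix.mulVec A (fun i => x (Sum.inl i)) y
      rw [Matrix.fromBlocks_mulVec]
      simp [Function.comp_def]
    · change Matrix.mulVec _ _ _ = Matrix.mulVec D (fun i => x (Sum.inr i)) y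
      rw [Matrix.fromBlocks_mulVec]
      simp [Function.comp_def]
  unfold Matrix.rank
  rw [h1, LinearMap.range_comp_of_range_eq_top _ (LinearEquiv.range e), LinearMap.range_comp,
    LinearMap.range_prodMap]
  have h2 := LinearEquiv.finrank_map_eq e.symm
    ((LinearMap.range A.mulVecLin).prod (LinearMap.range D.mulVecLin))
  refine h2.trans ?_
  let ε : ((LinearMap.range A.mulVecLin).prod (LinearMap.range D.mulVecLin)) ≃ₗ[K]
      (LinearMap.range A.mulVecLin) × (LinearMap.range D.mulVecLin) :=
    { toFun := fun x => (⟨x.1.1, x.2.1⟩, ⟨x.1.2, x.2.2⟩)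
      invFun := fun x => ⟨(x.1.1, x.2.1), ⟨x.1.2, x.2.2⟩⟩
      left_inv := fun _ => rfl
      right_inv := fun _ => rfl
      map_add' := fun _ _ => rfl
      map_smul' := fun _ _ => rfl }
  rw [ε.finrank_eq, Module.finrank_prod]

lemma rank_osum {B K : Type} [CommRing B] [Field K] (h : B →+* K) {n m : ℕ}
    (φ : MvPolynomial (Fin n) B) (ζ : MvPolynomial (Fin m) B) :
    ((gram (osum φ ζ)).map h).rank = ((gram φ).map h).rank + ((gram ζ).map h).rank := by
  have h1 : ((gram (osum φ ζ)).map h).submatrix finSumFinEquiv finSumFinEquiv =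
      Matrix.fromBlocks ((gram φ).map h) 0 0 ((gram ζ).map h) := by
    rw [Matrix.submatrix_map, gram_osum, Matrix.fromBlocks_map]
    congr 1
    · ext i j
      simp
    · ext i j
      simp
  rw [← rank_blocks, ← h1, Matrix.rank_submatrix]

/-- The generic member of an orthogonal sum. -/
lemma gen_osum {R : Type} [CommRing R] {n m q : ℕ} (f : Fin (q + 1) → MvPolynomial (Fin n) R)
    (z : Fin (q + 1) → MvPolynomial (Fin m) R) :
    gen (fun j => osum (f j) (z j)) = osum (gen f) (gen z) := by
  unfold gen osum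
  simp only [map_add, map_sum, map_mul, MvPolynomial.map_rename, MvPolynomial.rename_C,
    mul_add, Finset.sum_add_distrib]
  ring

end BLK

end QCV
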