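import Pool.Agent.QCV.T_TGG
import Pool.Agent.QCV.B_BIN

/-!
# QCV, block H: from the base of a line bundle to the complement of the zero section
-/

set_option autoImplicit false

open CategoryTheory AlgebraicGeometry Limits Polynomial TopologicalSpace

namespace QCV

open Pool.Agent.Lib_helper55.Beil Pool.Agent.Lib_helper66.OneP CUB

universe v

section

variable {k E : Type} [Field k] [Finite k] [Field E] [CharZero E]
    {T : ∀ i : ℕ, Homology.{v} k E i}

omit [CharZero E] in
open BIN in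
/-- The pull-back of a class of a cycle along a line bundle is the class of a cycle. -/
lemma bun_cls (hT : Full T) (S : BunMaps T) (hG : S.Good hT) (i : ℕ) {Y X : Var k} (B : Bun Y X)
    (c : Pts i X →₀ E) : S.V i (2 * i) B (clz (T i) X c) ∈ (T (i + 1)).alg Y := by
  obtain ⟨hFr, hBij, -, hRes, hPush, hBdy⟩ := id hG
  obtain ⟨C₀, hC₀, c', rfl⟩ := exists_supp_cyc X c
  let W : Var k := closedVar X C₀
  let a : ClosedIn W X := closedVarIn X C₀
  have hWd : W.DimLE i := dimLE_of_mem C₀ hC₀
  obtain ⟨YW, BW, b, hbP⟩ := exists_bunClosed B a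
  have hVw : S.V i (2 * i) BW (clz (T i) W c') ∈ (T (i + 1)).gen YW :=
    maxGen_map ((T i).frob (2 * i) W) ((T (i + 1)).frob (2 * (i + 1)) YW) (S.pb i (2 * i) BW)
      (hFr i (2 * i) BW) (cls_mem_gen (T i) W c')
  obtain ⟨d, hd⟩ := exists_cls (T (i + 1)) YW _
    (good_of_dimLE (T (i + 1)) YW (bun_dimLE BW hWd) hVw)
  have h3 : clz (T (i + 1)) YW d = S.V i (2 * i) BW (clz (T i) W c') := hd
  have h1 : S.V i (2 * i) B (clz (T i) X (pushCyc a c')) = clz (T (i + 1)) Y (pushCyc b d) := by
    rw [← clz_push, ← clz_push, h3, ← hT.pfClosed i (2 * i) a (clPr a) rfl]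
    refine (hPush i (2 * i) B BW (clPr b) (clPr a) hbP _).trans ?_
    exact hT.pfClosed (i + 1) (2 * i + 2) b (clPr b) rfl _
  have h2 : S.V i (2 * i) B (clz (T i) X (pushCyc a c')) ∈ (T (i + 1)).alg Y := by
    rw [h1]
    exact (T (i + 1)).linComb_mem_alg _ _
  exact h2

/-- The spaces of invariants of a line bundle. -/
theorem good_bun (hT : Full T) (S : BunMaps T) (hG : S.Good hT) (i : ℕ) {Y X : Var k} (B : Bun Y X)
    (h : (T i).gen X ≤ (T i).alg X) : (T (i + 1)).gen Y ≤ (T (i + 1)).alg Y := by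
  intro m hm
  obtain ⟨hFr, hBij, -, hRes, hPush, hBdy⟩ := id hG
  obtain ⟨x, hx⟩ := (hBij i (2 * i) B).surjective m
  obtain ⟨x', hx', hx2⟩ := maxGen_lift ((T i).frob (2 * i) X)
    ((T (i + 1)).frob (2 * (i + 1)) Y) (S.pb i (2 * i) B) (hFr i (2 * i) B) (m := x) (by
      rw [show S.pb i (2 * i) B x = m from hx]
      exact hm)
  obtain ⟨c, hc⟩ := exists_cls (T i) X x' (h hx')
  have h1 := bun_cls hT S hG i B c
  have h2 : S.V i (2 * i) B (clz (T i) X c) = m := by
    have h3 : clz (T i) X c = x' := hc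
    rw [h3]
    exact hx2.trans hx
  rw [h2] at h1
  exact h1

/-- The property `GG` passes to line bundles. -/
theorem gg_bun (hT : Full T) (hP : Pub T hT) (S : BunMaps T) (hG : S.Good hT) {Y X : Var k}
    (B : Bun Y X) (h : GG T X) : GG T Y := by
  intro i
  rcases i with _ | i
  · exact (pf_zero hT hP Y).1
  · exact good_bun hT S hG i B (h i)

end

end QCV
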