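import Pool.Agent.QCV.H_INT

/-!
# QCV, block H: each integral variety and a cubic hypersurface
-/

set_option autoImplicit false

open CategoryTheory AlgebraicGeometry Limits Polynomial TopologicalSpace

namespace QCV

open Pool.Agent.Lib_helper55.Beil Pool.Agent.Lib_helper66.OneP CUB

universe v

/-- Permutation of the variables `t_j`. -/
lemma lin_perm_iso (k S : Type) [Field k] [CommRing S] [Algebra k S] {m : ℕ} (f : Fin m → S)
    (σ : Equiv.Perm (Fin m)) :
    Nonempty ((MvPolynomial (Fin m) S ⧸ Ideal.span {lin (fun j => f (σ j))}) ≃ₐ[k]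
      (MvPolynomial (Fin m) S ⧸ Ideal.span {lin f})) := by
  let e : MvPolynomial (Fin m) S ≃ₐ[k] MvPolynomial (Fin m) S :=
    (MvPolynomial.renameEquiv S σ).restrictScalars k
  have he : e (lin (fun j => f (σ j))) = lin f := by
    change MvPolynomial.rename σ (∑ j, MvPolynomial.X j * MvPolynomial.C (f (σ j))) =
      ∑ j, MvPolynomial.X j * MvPolynomial.C (f j)
    rw [map_sum]
    simp only [map_mul, MvPolynomial.rename_X, MvPolynomial.rename_C]
    exact Equiv.sum_comp σ (fun j => MvPolynomial.X j * MvPolynomial.C (f j))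
  refine ⟨Ideal.quotientEquivAlg _ _ e ?_⟩
  rw [Ideal.map_span, Set.image_singleton]
  exact congrArg (fun x => Ideal.span {x}) he.symm

/-- The affine cone over the cubic hypersurface `t_0 f_0(x) + ... + t_q f_q(x) = 0`. -/
theorem cls_ccone (k : Type) [Field k]
    (P : ∀ (A : Type) [CommRing A] [Algebra k A] [Algebra.FiniteType k A], Prop) (hP : Cls0 k P)
    (hline : ∀ (A : Type) [CommRing A] [Algebra k A] [Algebra.FiniteType k A], P A → P A[X])
    {N q : ℕ} (f : Fin (q + 1) → MvPolynomial (Fin N) k)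
    (hsub : ∀ (j : ℕ) (hj : j ≤ q), P (MvPolynomial (Fin N) k ⧸
      Ideal.span (Set.range fun l : Fin j => f ⟨l.1 + 1, by have := l.2; omega⟩)))
    (hall : P (MvPolynomial (Fin N) k ⧸ Ideal.span (Set.range f))) :
    P (MvPolynomial (Fin (N + q + 1)) k ⧸ Ideal.span (Set.range fun _ : Fin 1 => cubf f)) := by
  obtain ⟨e⟩ := t_CBF k N q f
  obtain ⟨e'⟩ := lin_perm_iso k (MvPolynomial (Fin N) k) f (finRotate (q + 1))
  refine hP.iso e.symm (hP.iso e' ?_)
  let f' : Fin (q + 1) → MvPolynomial (Fin N) k := fun j => f (finRotate (q + 1) j)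
  have hr : Set.range f' = Set.range f := by
    ext y
    constructor
    · rintro ⟨j, rfl⟩
      exact ⟨_, rfl⟩
    · rintro ⟨j, rfl⟩
      exact ⟨(finRotate (q + 1)).symm j, congrArg f (Equiv.apply_symm_apply _ _)⟩
  have h0 : Ideal.span (Set.range (Fin.cons 0 f' : Fin (q + 1 + 1) → MvPolynomial (Fin N) k)) =
      Ideal.span (Set.range f) := by
    rw [← hr]
    apply le_antisymm
    · rw [Ideal.span_le]
      rintro _ ⟨j, rfl⟩
      refine Fin.cases ?_ (fun j => ?_) j
      · rw [Fin.cons_zero]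
        exact Ideal.zero_mem _
      · rw [Fin.cons_succ]
        exact Ideal.subset_span ⟨j, rfl⟩
    · rw [Ideal.span_le]
      rintro _ ⟨j, rfl⟩
      exact Ideal.subset_span ⟨j.succ, by rw [Fin.cons_succ]⟩
  change P (MvPolynomial (Fin (q + 1)) (MvPolynomial (Fin N) k) ⧸ Ideal.span {lin f'})
  rw [← fs_cons f']
  refine t_UST2 k P hP hline (q + 1) (MvPolynomial (Fin N) k) (Fin.cons 0 f') ?_
    (hP.iso (Ideal.quotientEquivAlgOfEq k h0.symm) hall)
  intro j hj
  rcases Nat.lt_or_ge q j with hq | hq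
  · obtain rfl : j = q + 1 := by omega
    have h6 : (Fin.cons 0 f' : Fin (q + 1 + 1) → MvPolynomial (Fin N) k) ''
        {l : Fin (q + 1 + 1) | 1 ≤ l.1 ∧ l.1 ≤ q + 1} = Set.range f := by
      rw [← hr]
      ext y
      constructor
      · rintro ⟨l, ⟨hl1, -⟩, rfl⟩
        obtain ⟨l', rfl⟩ : ∃ l' : Fin (q + 1), l = l'.succ := by
          refine ⟨l.pred ?_, (Fin.succ_pred _ _).symm⟩
          rintro rfl
          simp at hl1
        rw [Fin.cons_succ]
        exact ⟨l', rfl⟩
      · rintro ⟨l, rfl⟩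
        refine ⟨l.succ, ⟨?_, ?_⟩, by rw [Fin.cons_succ]⟩
        · simp only [Fin.val_succ]
          omega
        · simp only [Fin.val_succ]
          have := l.2
          omega
    exact hP.iso (Ideal.quotientEquivAlgOfEq k (congrArg Ideal.span h6.symm)) hall
  · have h6 : (Fin.cons 0 f' : Fin (q + 1 + 1) → MvPolynomial (Fin N) k) ''
        {l : Fin (q + 1 + 1) | 1 ≤ l.1 ∧ l.1 ≤ j} =
        Set.range (fun l : Fin j => f ⟨l.1 + 1, by have := l.2; omega⟩) := by
      have h7 : ∀ l : Fin j, f' ⟨l.1, by have := l.2; omega⟩ =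
          f ⟨l.1 + 1, by have := l.2; omega⟩ := by
        intro l
        have h8 : l.1 < q := by
          have := l.2
          omega
        exact congrArg f (finRotate_of_lt h8)
      ext y
      constructor
      · rintro ⟨l, ⟨hl1, hl2⟩, rfl⟩
        obtain ⟨l', rfl⟩ : ∃ l' : Fin (q + 1), l = l'.succ := by
          refine ⟨l.pred ?_, (Fin.succ_pred _ _).symm⟩
          rintro rfl
          simp at hl1
        rw [Fin.cons_succ]
        simp only [Fin.val_succ] at hl2
        exact ⟨⟨l'.1, by omega⟩, (h7 ⟨l'.1, by omega⟩).symm⟩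
      · rintro ⟨l, rfl⟩
        refine ⟨Fin.succ ⟨l.1, by have := l.2; omega⟩, ⟨?_, ?_⟩, ?_⟩
        · simp only [Fin.val_succ]
          omega
        · simp only [Fin.val_succ]
          have := l.2
          omega
        · rw [Fin.cons_succ]
          exact h7 l
    exact hP.iso (Ideal.quotientEquivAlgOfEq k (congrArg Ideal.span h6.symm)) (hsub j hq)

end QCV
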