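import Pool.Agent.QCV.B_BCO
import Pool.Agent.QCV.B_BPL
import Pool.Agent.QCV.B_UNI

/-!
# QCV, block H: from the projective variety to the affine cone
-/

set_option autoImplicit false

open CategoryTheory AlgebraicGeometry Limits Polynomial TopologicalSpace

namespace QCV

open Pool.Agent.Lib_helper55.Beil Pool.Agent.Lib_helper66.OneP CUB

attribute [local instance] MvPolynomial.gradedAlgebra

/-- **CNE**: from the projective variety to the affine cone, for a class `P` of varieties. -/
theorem t_CNE (k : Type) [Field k] (P : Var k → Prop)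
    (glue : ∀ {Z U X : Var k} (a : ClosedIn Z X) (j : OpenIn U X), Complementary a j →
      P Z → P U → P X)
    (range : ∀ {X Y W : Var k} (a : ClosedIn X W) (b : ClosedIn Y W),
      Set.range a.g = Set.range b.g → P X → P Y)
    (expand : ∀ {Y X U : Var k} (B : Bun Y X) (s : ClosedIn X Y) (j : OpenIn U Y),
      s.g ≫ B.q = 𝟙 X.X → Complementary s j → P X → P U)
    (R ι : Type) [CommRing R] [Algebra k R] [Algebra.FiniteType k R] (n : ℕ)
    (f : ι → MvPolynomial (Fin (n + 1)) R) (m : ι → ℕ) (hm : ∀ j, (f j).IsHomogeneous (m j))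
    (hm1 : ∀ j, 1 ≤ m j) (hPZ : P (aff k R)) (hPX : ∀ (X : Var k) (_ : ProjSub f X), P X) :
    P (aff k (MvPolynomial (Fin (n + 1)) R ⧸ Ideal.span (Set.range f))) := by
  obtain ⟨Q, Y, U, ε, B, s, j, c, hε, hs, hc, hU1, hU2⟩ := t_UNI k R n
  -- the projective variety
  let C₁ : Closeds (PS R n) :=
    ⟨ProjectiveSpectrum.zeroLocus (gr R n) (Set.range f),
      ProjectiveSpectrum.isClosed_zeroLocus (gr R n) (Set.range f)⟩
  let C₀ : Closeds Q.X := C₁.preimage ε.hom.continuous
  let X : Var k := closedVar Q C₀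
  let g : ClosedIn X Q := closedVarIn Q C₀
  have hgcl := g.closed
  have hgr : ∀ q : Q.X, q ∈ Set.range g.g ↔
      ∀ l, f l ∈ (show ProjectiveSpectrum (gr R n) from ε.hom q).asHomogeneousIdeal.toIdeal := by
    intro q
    have h1 : Set.range g.g = (C₀ : Set Q.X) := range_closedVarIn Q C₀
    rw [h1]
    have h2 : q ∈ (C₀ : Set Q.X) ↔ Set.range f ⊆
        (show ProjectiveSpectrum (gr R n) from ε.hom q).asHomogeneousIdeal := Iff.rfl
    rw [h2, Set.range_subset_iff]
    rfl
  have key : ∀ p : (PS R n : Scheme.{0}), ε.hom (ε.inv p) = p := by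
    intro p
    rw [← Scheme.Hom.comp_apply, Iso.inv_hom_id]
    rfl
  have key2 : ∀ p : (PS R n : Scheme.{0}), (∃ x : X.X, (g.g ≫ ε.hom) x = p) ↔
      ε.inv p ∈ Set.range g.g := by
    intro p
    constructor
    · rintro ⟨x, rfl⟩
      refine ⟨x, ?_⟩
      rw [← Scheme.Hom.comp_apply, Category.assoc, Iso.hom_inv_id, Category.comp_id]
    · rintro ⟨x, hx⟩
      refine ⟨x, ?_⟩
      rw [Scheme.Hom.comp_apply, hx]
      exact key p
  let S : ProjSub f X :=
    { g := g.g ≫ ε.hom
      closed := inferInstance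
      comm := by
        rw [Category.assoc, hε, g.comm]
      range := by
        intro p
        refine (key2 p).trans ((hgr _).trans ?_)
        have h3 : (show ProjectiveSpectrum (gr R n) from ε.hom (ε.inv p)) = p := key p
        rw [h3] }
  have hX : P X := hPX X S
  obtain ⟨Y', U', B', s', j', b, hs', hc', hb⟩ := t_BPL k B s j hs hc g
  have hb2 : ∀ u : U.X, u ∈ Set.range b.g ↔ ∀ l, f l ∈ (ofPt (c.g u)).asIdeal := by
    intro u
    rw [hb u, hgr]
    exact forall_congr' fun l => hU2 u (m l) (f l) (hm l)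
  -- the cone
  let A := MvPolynomial (Fin (n + 1)) R
  let I : Ideal A := Ideal.span (Set.range f)
  let cC : ClosedIn (aff k (A ⧸ I)) (aff k A) :=
    clo (Ideal.Quotient.mkₐ k I) (Ideal.Quotient.mkₐ_surjective k I)
  have hcC : ∀ x : (aff k A).X, x ∈ Set.range cC.g ↔ ∀ l, f l ∈ (ofPt x).asIdeal := by
    intro x
    refine (BCO.mem_range_clo _ _ x).trans ?_
    have h1 : RingHom.ker (Ideal.Quotient.mkₐ k I).toRingHom = I := Ideal.mk_ker
    rw [h1, Ideal.span_le]
    exact Set.range_subset_iff
  -- the vertex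
  let ψ : A →ₐ[k] R := (MvPolynomial.aeval (R := R) (0 : Fin (n + 1) → R)).restrictScalars k
  have hψC : ∀ a : R, ψ (MvPolynomial.C a) = a := fun a => MvPolynomial.aeval_C _ a
  have hψX : ∀ l, ψ (MvPolynomial.X l) = 0 := fun l => MvPolynomial.aeval_X _ l
  have hψs : Function.Surjective ψ := fun a => ⟨MvPolynomial.C a, hψC a⟩
  have hψf : ∀ l, ψ (f l) = 0 := by
    intro l
    have h1 : ψ (f l) = MvPolynomial.constantCoeff (f l) := by
      change MvPolynomial.aeval (R := R) (0 : Fin (n + 1) → R) (f l) = _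
      rw [MvPolynomial.aeval_zero]
      rfl
    rw [h1, MvPolynomial.constantCoeff_eq]
    apply (hm l).coeff_eq_zero
    have h2 := hm1 l
    rw [map_zero]
    omega
  have hψI : ∀ a ∈ I, ψ a = 0 := by
    intro a ha
    have h1 : I ≤ RingHom.ker ψ.toRingHom := by
      rw [Ideal.span_le]
      exact Set.range_subset_iff.mpr hψf
    exact h1 ha
  let aZ : ClosedIn (aff k R) (aff k (A ⧸ I)) :=
    clo (Ideal.Quotient.liftₐ I ψ hψI) (Ideal.Quotient.lift_surjective_of_surjective I hψI hψs)
  have haZ : aZ.g ≫ cC.g = (clo ψ hψs).g := by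
    change Spec.map _ ≫ Spec.map _ = Spec.map _
    rw [← Spec.map_comp, ← CommRingCat.ofHom_comp]
    rfl
  have hψk : ∀ q : PrimeSpectrum A, RingHom.ker ψ.toRingHom ≤ q.asIdeal ↔
      ∀ l, (MvPolynomial.X l : A) ∈ q.asIdeal := by
    intro q
    constructor
    · intro h l
      exact h (hψX l)
    · intro h p hp
      have key : ∀ p : A, p - MvPolynomial.C (ψ p) ∈ q.asIdeal := by
        intro p
        induction p using MvPolynomial.induction_on with
        | C a =>
          rw [hψC, sub_self]
          exact q.asIdeal.zero_mem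
        | add p p' hp hp' =>
          have h1 : p + p' - MvPolynomial.C (ψ (p + p')) =
              (p - MvPolynomial.C (ψ p)) + (p' - MvPolynomial.C (ψ p')) := by
            rw [map_add, map_add]
            ring
          rw [h1]
          exact q.asIdeal.add_mem hp hp'
        | mul_X p i hp =>
          rw [map_mul, hψX, mul_zero, map_zero, sub_zero]
          exact q.asIdeal.mul_mem_left _ (h i)
      have h1 : ψ p = 0 := hp
      have h2 := key p
      rw [h1, map_zero, sub_zero] at h2
      exact h2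
  -- the open part
  obtain ⟨D, o, b', hD⟩ := exists_cart cC c
  have ho : Set.range o.g = cC.g ⁻¹' Set.range c.g := cart_range hD.flip
  have hb' : Set.range b'.g = c.g ⁻¹' Set.range cC.g := cart_range hD
  have hcomp : Complementary aZ o := by
    rw [Complementary, ho]
    ext x
    have h1 : x ∈ Set.range aZ.g ↔ ∀ l, (MvPolynomial.X l : A) ∈ (ofPt (cC.g x)).asIdeal := by
      rw [← hψk, ← BCO.mem_range_clo ψ hψs, ← haZ]
      constructor
      · rintro ⟨z, rfl⟩
        exact ⟨z, by rw [Scheme.Hom.comp_apply]⟩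
      · rintro ⟨z, hz⟩
        refine ⟨z, closedIn_injective cC ?_⟩
        rw [← hz, Scheme.Hom.comp_apply]
    have h5 : cC.g x ∈ Set.range c.g ↔ ∃ l, (MvPolynomial.X l : A) ∉ (ofPt (cC.g x)).asIdeal := by
      rw [← hU1 (ofPt (cC.g x))]
      rfl
    rw [h1, Set.mem_compl_iff, Set.mem_preimage, h5]
    push Not
    rfl
  have hPU' : P U' := expand B' s' j' hs' hc' hX
  have hPD : P D := by
    refine range b b' ?_ hPU'
    ext u
    rw [hb2 u, hb', Set.mem_preimage, hcC]
  exact glue aZ o hcomp hPZ hPD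

end QCV
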