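import Pool.Agent.QCV.H_ALL

/-!
# QCV, block H: three quadratic forms and double planes
-/

set_option autoImplicit false

open CategoryTheory AlgebraicGeometry Limits Polynomial TopologicalSpace

namespace QCV

open Pool.Agent.Lib_helper55.Beil Pool.Agent.Lib_helper66.OneP CUB

universe v

variable {k : Type} [Field k] {E : Type} [Field E] [Finite k] [CharZero E]
variable {T : ∀ i : ℕ, Homology.{v} k E i} {hT : Full T}

/-- A surface for which the conjecture of Tate holds. -/
theorem ppf_surface (hP : Pub2 T hT) (X : Var k) (h : X.DimLE (2 : ℕ)) (hX : Tate T X) :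
    PPF T X := by
  intro i
  rcases Nat.lt_or_ge 1 i with h1 | h1
  · exact pf_of_dimLE hT hP.toPub i X fun x => (h x).trans (by exact_mod_cast h1)
  rcases Nat.eq_zero_or_pos i with h0 | h0
  · subst h0
    exact pf_zero hT hP.toPub X
  · have h2 : i = 1 := by omega
    subst h2
    exact ⟨CUB.OPEN.good (T 1) X (hX 1).1 (hX 1).2,
      ((T 1).inj_iff X).mp (hP.divisors 1 X h), fun m _ => supp_of_dimLE hT.toExtra 1 _ _ X h m⟩

/-- `PPF` satisfies the closure properties of `Cls` if it holds in dimension at most `d`. -/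
lemma cls_ppf (hP : Pub2 T hT) (d : ℕ) (h : ∀ X : Var k, X.DimLE d → PPF T X) :
    Cls k d (fun A [CommRing A] [Algebra k A] [Algebra.FiniteType k A] => PPF T (aff k A)) where
  toCls0 := cls0_ppf hT hP.toPub
  line := fun A _ _ _ h => ppf_line hT hP.toPub A h
  dbl := fun A _ _ _ b c h i => pf_dbl hT hP.toPub i A b c (h i)
  base := fun A _ _ _ hA => h _ (dimLE_of_DL hA)

omit [Finite k] [CharZero E] in
lemma ppf_dr_congr {B : Type} [CommRing B] [Algebra k B] [Algebra.FiniteType k B] {c c' : B}
    (h : c = c') (hc : PPF T (aff k (Dr B 0 c))) : PPF T (aff k (Dr B 0 c')) := by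
  subst h
  exact hc

/-- From varieties of dimension at most `d` and the double covers of the affine space of dimension
`d + 1` to all systems of `d + 2` quadratic forms. -/
lemma allSystems_ppf (hP : Pub2 T hT) (h2 : (2 : k) ≠ 0) (d : ℕ)
    (hlow : ∀ X : Var k, X.DimLE d → PPF T X) (hD : DoubleCovers (PPF T) (d + 1)) :
    AllSystems (PPF T) (d + 1) := by
  intro n f hf
  have key : PPF T (aff k (VR (MvPolynomial (Fin n) k) f)) := by
    rcases Nat.even_or_odd ((gram (gen f)).map (algebraMap (MvPolynomial (Fin (d + 1)) k)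
        (FractionRing (MvPolynomial (Fin (d + 1)) k)))).rank with h | h
    · exact t_EVS2 k (fun A [CommRing A] [Algebra k A] [Algebra.FiniteType k A] => PPF T (aff k A))
        d h2 (cls_ppf hP d hlow) (ppfEven hP h2) k n (d + 1) 0 f (Nat.zero_le d) le_rfl
        (dl_field k) hf h (fun c => ppf_dr_congr (neg_neg c) (hD (-c)))
    · exact t_OVS2 k (fun A [CommRing A] [Algebra k A] [Algebra.FiniteType k A] => PPF T (aff k A))
        d h2 (cls_ppf hP d hlow) (ppfOdd hP) k n (d + 1) 0 f (Nat.zero_le d) le_rfl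
        (dl_field k) hf h
  intro i
  exact (pi_iff hT.toExtra i _).mp (red3 hT hP.toPub hP.sectionZero i (d + 1) f
    (Ideal.Quotient.mkₐ k _) (Ideal.Quotient.mkₐ_surjective k _) Ideal.mk_ker
    ((pi_iff hT.toExtra _ _).mpr (key _)))

lemma ppf_of_isEmpty (hP : Pub2 T hT) {X : Var k} (h : IsEmpty X.X) : PPF T X :=
  fun i => pf_of_dimLE hT hP.toPub i X (fun x => (h.false x).elim)

/-- The property `PPF` is determined by the closed subset of an ambient variety. -/
theorem ppf_same_range (hP : Pub2 T hT) {X Y W : Var k} (a : ClosedIn X W) (b : ClosedIn Y W)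
    (h : Set.range a.g = Set.range b.g) (hX : PPF T X) : PPF T Y := by
  have hred := isReduced_redVar Y
  obtain ⟨l, hl⟩ := exists_factor_range a ((redVarIn Y).trans b) (by
    rintro _ ⟨y, rfl⟩
    rw [h]
    exact ⟨(redVarIn Y).g y, rfl⟩)
  have hs : Function.Surjective l.g := by
    intro x
    have h1 : a.g x ∈ Set.range b.g := by
      rw [← h]
      exact ⟨x, rfl⟩
    obtain ⟨y, hy⟩ := h1
    obtain ⟨y', hy'⟩ : y ∈ Set.range (redVarIn Y).g := by
      rw [range_redVarIn]
      trivial
    refine ⟨y', ?_⟩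
    apply closedIn_injective a
    rw [← hy, ← hy', ← Scheme.Hom.comp_apply, hl]
    rfl
  intro i
  exact pf_glue hT hP.toPub i (redVarIn Y) (openVarIn Y ⊥) (complementary_red Y)
    (pf_nil hT i l hs (hX i)) (ppf_of_isEmpty hP (isEmpty_openVar_bot Y) i)

/-- From the affine cone to the projective variety. -/
theorem ppf_of_cone (hP : Pub2 T hT) {R ι : Type} [CommRing R] [Algebra k R]
    [Algebra.FiniteType k R] {n : ℕ} (hR : PPF T (aff k R)) (f : ι → MvPolynomial (Fin (n + 1)) R)
    (m : ι → ℕ) (hf : ∀ j, (f j).IsHomogeneous (m j)) (hm : ∀ j, 1 ≤ m j)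
    (h : PPF T (aff k (MvPolynomial (Fin (n + 1)) R ⧸ Ideal.span (Set.range f))))
    {X : Var k} (S : ProjSub f X) : PPF T X :=
  Asm.s_BCO k (PPF T)
    (fun a j hc hX hZ i => by
      rcases i with _ | i
      · exact pf_zero hT hP.toPub _
      · exact pf_open hT hP.toPub i a j hc (hX _) (hZ _))
    (fun a b hab hX => ppf_same_range hP a b hab hX)
    (fun B s j hs hc hU => ppfBun hP B s j hs hc hU) R ι n f m hf hm hR h X S

/-- The double cover of the affine plane is a surface. -/
lemma dimLE_dr (g : MvPolynomial (Fin (1 + 1)) k) :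
    (aff k (Dr (MvPolynomial (Fin (1 + 1)) k) 0 (-g))).DimLE (2 : ℕ) := by
  apply dimLE_of_DL
  exact Asm.s_DLR.2.2.1 k _ _ 2 ((Asm.s_DLM k k 0 2 (dl_field k)).mono (by omega))

/-- The conjecture of Tate for double planes is equivalent to the generalised conjecture of Beilinson
for all systems of three quadratic forms. -/
theorem q1_three (hP : Pub2 T hT) (h2 : (2 : k) ≠ 0) :
    DoubleCovers (Tate T) 2 ↔ AllSystems (fun X => ∀ i, Q1 (T i) X) 2 := by
  constructor
  · intro h n f hf i
    refine q1_of_pf (T i) _ (allSystems_ppf hP h2 1 (fun X hX => ?_) (fun g => ?_) n f hf i)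
    · exact ppf_of_dimLE_one hT hP.toPub X hX
    · exact ppf_surface hP _ (dimLE_dr g) (h g)
  · intro h
    exact ((tate_all hP h2 1).mp fun n f hf i =>
      ⟨(h n f hf i).2.1, (h n f hf i).2.2⟩).2

/-- The same for projective varieties. -/
theorem q1_three_proj (hP : Pub2 T hT) (h2 : (2 : k) ≠ 0) :
    DoubleCovers (Tate T) 2 ↔ ∀ (n : ℕ) (f : Fin (2 + 1) → MvPolynomial (Fin (n + 1)) k),
      (∀ j, (f j).IsHomogeneous 2) → ∀ (X : Var k) (_ : ProjSub f X), ∀ i, Q1 (T i) X := by
  constructor
  · intro h n f hf X S i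
    refine q1_of_pf (T i) _ (ppf_of_cone hP (ppf_field hP.toPub) f (fun _ => 2) hf
      (fun _ => by norm_num) (allSystems_ppf hP h2 1 (fun X hX => ?_) (fun g => ?_) (n + 1) f hf)
      S i)
    · exact ppf_of_dimLE_one hT hP.toPub X hX
    · exact ppf_surface hP _ (dimLE_dr g) (h g)
  · intro h
    refine ((tate_all hP h2 1).mp ?_).2
    intro n f hf
    rcases n with _ | n
    · exact tate_zer_zero hP f hf
    · exact (tate_zer_iff hP f hf).mpr fun X S i =>
        ⟨(h n f hf X S i).2.1, (h n f hf X S i).2.2⟩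

end QCV
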