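import Pool.Agent.QCV.H_EOR
import Pool.Agent.QCV.H_THR

/-!
# QCV, block H: a system of quadratic forms in an even number of variables over `k` and its discriminant
double cover
-/

set_option autoImplicit false

open CategoryTheory AlgebraicGeometry Limits Polynomial TopologicalSpace

namespace QCV

open Pool.Agent.Lib_helper55.Beil Pool.Agent.Lib_helper66.OneP CUB

universe v

/-- The discriminant double cover `t ^ 2 = (-1) ^ m det` of a linear system of quadratic forms in
`n = 2 m` variables. -/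
noncomputable abbrev disV {k : Type} [Field k] (m : ℕ) {n q : ℕ}
    (f : Fin (q + 1) → MvPolynomial (Fin n) k) : Var k :=
  aff k (Dr (MvPolynomial (Fin q) k) 0 ((-1) ^ (m + 1) * (gram (gen f)).det))

variable {k : Type} [Field k] {E : Type} [Field E]
variable {T : ∀ i : ℕ, Homology.{v} k E i} {hT : Full T}

section

variable [Finite k] [CharZero E]

/-- The generic member of a system of `d + 2` quadratic forms. -/
lemma gg_fs_of_zer (hP : Pub2 T hT) (d : ℕ) (hlow : ∀ X : Var k, X.DimLE d → GG T X) {n : ℕ}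
    (f : Fin (d + 1 + 1) → MvPolynomial (Fin n) k) (hf : ∀ j, (f j).IsHomogeneous 2)
    (h : GG T (zer f)) :
    GG T (aff k (MvPolynomial (Fin (d + 1)) (MvPolynomial (Fin n) k) ⧸ Ideal.span {fs f})) := by
  have hG : GGC T := ggc hP
  refine t_UST k (fun A [CommRing A] [Algebra k A] [Algebra.FiniteType k A] => GG T (aff k A))
    (clsT_gg hG) (d + 1) (MvPolynomial (Fin n) k) f ?_ h
  intro j hj
  have h6 : f '' {l : Fin (d + 1 + 1) | 1 ≤ l.1 ∧ l.1 ≤ j} =
      Set.range (fun l : Fin j => f ⟨l.1 + 1, by omega⟩) := by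
    ext y
    constructor
    · rintro ⟨l, ⟨hl1, hl2⟩, rfl⟩
      refine ⟨⟨l.1 - 1, by omega⟩, congrArg f (Fin.ext ?_)⟩
      change l.1 - 1 + 1 = l.1
      omega
    · rintro ⟨l, rfl⟩
      refine ⟨_, ⟨?_, ?_⟩, rfl⟩
      · change 1 ≤ l.1 + 1
        omega
      · change l.1 + 1 ≤ j
        have := l.2
        omega
  refine (clsT_gg hG).iso (Ideal.quotientEquivAlgOfEq k (congrArg Ideal.span h6.symm)) ?_
  rcases Nat.eq_zero_or_pos j with rfl | hj0
  · refine (clsT_gg hG).iso (A := MvPolynomial (Fin n) k) ?_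
      (fun i => (ppf_poly hP.toPub (T := T) n i).1)
    have h1 : Ideal.span (Set.range (fun l : Fin 0 =>
        f ⟨l.1 + 1, by have := l.2; omega⟩)) = ⊥ := by
      rw [Set.range_eq_empty, Ideal.span_empty]
    exact ((Ideal.quotientEquivAlgOfEq k h1).trans
      (AlgEquiv.quotientBot k (MvPolynomial (Fin n) k))).symm
  · refine gg_of_built hP d hlow _ ?_
    exact built_quadrics (e := 0) _ hj0 (by omega)
      (dimLE_of_DL (dl_field k)) (fun l => (hf _).totalDegree_le)

/-- A system of `d + 2` quadratic forms in an even number of variables and its discriminant double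
cover. -/
theorem gg_dis_iff (hP : Pub2 T hT) (h2 : (2 : k) ≠ 0) (d : ℕ)
    (hlow : ∀ X : Var k, X.DimLE d → GG T X) (n m : ℕ) (hn : n = 2 * m) (hm : 1 ≤ m)
    (f : Fin (d + 1 + 1) → MvPolynomial (Fin n) k) (hf : ∀ j, (f j).IsHomogeneous 2)
    (hd : (gram (gen f)).det ≠ 0) : GG T (zer f) ↔ GG T (disV m f) := by
  have hG : GGC T := ggc hP
  subst hn
  constructor
  · intro h
    obtain ⟨m, rfl⟩ : ∃ m', m = m' + 1 := ⟨m - 1, by omega⟩
    obtain ⟨e1⟩ := t_QSW k k (2 * (m + 1)) (d + 1) f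
    have h6 := (clsT_gg hG).iso e1 (gg_fs_of_zer hP d hlow f hf h)
    exact t_EOR hP h2 d hlow (MvPolynomial (Fin (d + 1)) k)
      ((Asm.s_DLM k k 0 (d + 1) (dl_field k)).mono (by omega)) (ppf_poly hP.toPub (d + 1)) m
      (gen f) (EVS.gen_homog f hf) hd h6
  · intro h
    refine t_TZE k E T hT hP.toPub hP.sectionZero _ (d + 1) f ?_
    exact Asm.s_EVS k (fun A [CommRing A] [Algebra k A] [Algebra.FiniteType k A] => GG T (aff k A))
      d h2 (cls_gg hP d hlow) (ggEven hP h2) k m (d + 1) 0 f (Nat.zero_le d) le_rfl (dl_field k) hf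
      hd h

/-- The conjecture of Tate. -/
theorem tate_dis_iff (hP : Pub2 T hT) (h2 : (2 : k) ≠ 0) (d : ℕ)
    (hlow : ∀ X : Var k, X.DimLE d → Tate T X) (n m : ℕ) (hn : n = 2 * m) (hm : 1 ≤ m)
    (f : Fin (d + 1 + 1) → MvPolynomial (Fin n) k) (hf : ∀ j, (f j).IsHomogeneous 2)
    (hd : (gram (gen f)).det ≠ 0) : Tate T (zer f) ↔ Tate T (disV m f) := by
  rw [← gg_iff, ← gg_iff]
  exact gg_dis_iff hP h2 d ((tate_iff (T := T) _).mp hlow) n m hn hm f hf hd

lemma tate_one (hP : Pub2 T hT) (X : Var k) (h : X.DimLE (1 : ℕ)) : Tate T X :=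
  (gg_iff X).mp fun i => (ppf_of_dimLE_one hT hP.toPub X h i).1

/-- The discriminant double plane is a surface. -/
lemma dimLE_disV (m : ℕ) {n : ℕ} (f : Fin (1 + 1 + 1) → MvPolynomial (Fin n) k) :
    (disV m f).DimLE (2 : ℕ) := by
  apply dimLE_of_DL
  exact Asm.s_DLR.2.2.1 k _ _ 2 ((Asm.s_DLM k k 0 2 (dl_field k)).mono (by omega))

/-- Three quadratic forms in an even number of variables. -/
theorem ppf_three (hP : Pub2 T hT) (h2 : (2 : k) ≠ 0) (n m : ℕ) (hn : n = 2 * m)
    (f : Fin (1 + 1 + 1) → MvPolynomial (Fin n) k) (hf : ∀ j, (f j).IsHomogeneous 2)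
    (hd : (gram (gen f)).det ≠ 0) (h : Tate T (disV m f)) : PPF T (zer f) := by
  subst hn
  have key : PPF T (aff k (VR (MvPolynomial (Fin (2 * m)) k) f)) :=
    Asm.s_EVS k (fun A [CommRing A] [Algebra k A] [Algebra.FiniteType k A] => PPF T (aff k A)) 1 h2
      (cls_ppf hP 1 fun X hX => ppf_of_dimLE_one hT hP.toPub X hX) (ppfEven hP h2) k m (1 + 1) 0 f
      (Nat.zero_le 1) le_rfl (dl_field k) hf hd (ppf_surface hP _ (dimLE_disV m f) h)
  intro i
  exact (pi_iff hT.toExtra i _).mp (red3 hT hP.toPub hP.sectionZero i (1 + 1) f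
    (Ideal.Quotient.mkₐ k _) (Ideal.Quotient.mkₐ_surjective k _) Ideal.mk_ker
    ((pi_iff hT.toExtra _ _).mpr (key _)))

/-- Three quadratic forms in an even number of variables: the generalised conjecture of Beilinson. -/
theorem q1_dis_iff (hP : Pub2 T hT) (h2 : (2 : k) ≠ 0) (n m : ℕ) (hn : n = 2 * m) (hm : 1 ≤ m)
    (f : Fin (1 + 1 + 1) → MvPolynomial (Fin n) k) (hf : ∀ j, (f j).IsHomogeneous 2)
    (hd : (gram (gen f)).det ≠ 0) : (∀ i, Q1 (T i) (zer f)) ↔ Tate T (disV m f) := by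
  constructor
  · intro h
    exact (tate_dis_iff hP h2 1 (tate_one hP) n m hn hm f hf hd).mp fun i => ⟨(h i).2.1, (h i).2.2⟩
  · intro h i
    exact q1_of_pf (T i) _ (ppf_three hP h2 n m hn f hf hd h i)

end

section Proj

/-- Two closed subvarieties of the projective space with the same points, as closed subvarieties of one
variety. -/
lemma exists_ambient {R ι : Type} [CommRing R] [Algebra k R] [Algebra.FiniteType k R] {n : ℕ}
    (f : ι → MvPolynomial (Fin (n + 1)) R) {X Y : Var k} (SX : ProjSub f X) (SY : ProjSub f Y) :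
    ∃ (Q : Var k) (a : ClosedIn X Q) (b : ClosedIn Y Q), Set.range a.g = Set.range b.g := by
  obtain ⟨Q, -, -, ε, -, -, -, -, hε, -⟩ := t_UNI k R n
  have hX := SX.closed
  have hY := SY.closed
  refine ⟨Q, ⟨SX.g ≫ ε.inv, by
    rw [← hε, Category.assoc, Iso.inv_hom_id_assoc, SX.comm], inferInstance⟩,
    ⟨SY.g ≫ ε.inv, by
    rw [← hε, Category.assoc, Iso.inv_hom_id_assoc, SY.comm], inferInstance⟩, ?_⟩
  have key : ∀ {Z : Var k} (S : ProjSub f Z) (q : Q.X), q ∈ Set.range (S.g ≫ ε.inv) ↔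
      ∃ x : Z.X, S.g x = ε.hom q := by
    intro Z S q
    constructor
    · rintro ⟨x, rfl⟩
      refine ⟨x, ?_⟩
      rw [← Scheme.Hom.comp_apply, Category.assoc, Iso.inv_hom_id, Category.comp_id]
    · rintro ⟨x, hx⟩
      refine ⟨x, ?_⟩
      rw [Scheme.Hom.comp_apply, hx, ← Scheme.Hom.comp_apply, Iso.hom_inv_id]
      rfl
  ext q
  exact (key SX q).trans (((SX.range (ε.hom q)).trans (SY.range (ε.hom q)).symm).trans
    (key SY q).symm)

variable [Finite k] [CharZero E]

/-- The affine cone and the projective variety. -/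
lemma tate_proj_iff (hP : Pub2 T hT) {n q : ℕ} (f : Fin (q + 1) → MvPolynomial (Fin (n + 1)) k)
    (hf : ∀ j, (f j).IsHomogeneous 2) {X : Var k} (S : ProjSub f X) :
    Tate T X ↔ Tate T (zer f) := by
  rw [tate_zer_iff hP f hf]
  constructor
  · intro h Y SY
    obtain ⟨Q, a, b, hab⟩ := exists_ambient f S SY
    exact (gg_iff Y).mp (gg_same_range (ggc hP) a b hab ((gg_iff X).mpr h))
  · exact fun h => h X S

/-- The conjecture of Tate for the projective variety. -/
theorem tate_disP_iff (hP : Pub2 T hT) (h2 : (2 : k) ≠ 0) (d : ℕ)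
    (hlow : ∀ X : Var k, X.DimLE d → Tate T X) (n m : ℕ) (hn : n + 1 = 2 * m)
    (f : Fin (d + 1 + 1) → MvPolynomial (Fin (n + 1)) k) (hf : ∀ j, (f j).IsHomogeneous 2)
    (hd : (gram (gen f)).det ≠ 0) {X : Var k} (S : ProjSub f X) : Tate T X ↔ Tate T (disV m f) :=
  (tate_proj_iff hP f hf S).trans (tate_dis_iff hP h2 d hlow (n + 1) m hn (by omega) f hf hd)

/-- Three quadratic forms in an even number of variables, projective. -/
theorem q1_disP_iff (hP : Pub2 T hT) (h2 : (2 : k) ≠ 0) (n m : ℕ) (hn : n + 1 = 2 * m)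
    (f : Fin (1 + 1 + 1) → MvPolynomial (Fin (n + 1)) k) (hf : ∀ j, (f j).IsHomogeneous 2)
    (hd : (gram (gen f)).det ≠ 0) {X : Var k} (S : ProjSub f X) :
    (∀ i, Q1 (T i) X) ↔ Tate T (disV m f) := by
  constructor
  · intro h
    exact (tate_disP_iff hP h2 1 (tate_one hP) n m hn f hf hd S).mp fun i =>
      ⟨(h i).2.1, (h i).2.2⟩
  · intro h i
    exact q1_of_pf (T i) _ (ppf_of_cone hP (ppf_field hP.toPub) f (fun _ => 2) hf
      (fun _ => by norm_num) (ppf_three hP h2 (n + 1) m hn f hf hd h) S i)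

end Proj

end QCV
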