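import Pool.Agent.QCV.H_REP

/-!
# QCV, block H: each hypersurface `g = 0` and the zero set of a system of quadratic forms
-/

set_option autoImplicit false

open CategoryTheory AlgebraicGeometry Limits Polynomial TopologicalSpace

namespace QCV

open Pool.Agent.Lib_helper55.Beil Pool.Agent.Lib_helper66.OneP CUB

universe v

/-- From the generic member to the variety `y ^ 2 - y = t_0 f_0 + ... + t_q f_q`. -/
lemma vr_of_gen {k : Type} [Field k]
    (P : ∀ (A : Type) [CommRing A] [Algebra k A] [Algebra.FiniteType k A], Prop) (d : ℕ)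
    (h2 : (2 : k) ≠ 0) (hP : Cls k d P) (hE : OddCl k P) {N : ℕ}
    (f : Fin (d + 1 + 1 + 1) → MvPolynomial (Fin N) k) (hf : ∀ j, (f j).IsHomogeneous 2)
    (hodd : Odd ((gram (gen fun j : Fin (d + 1 + 1) => f j.succ)).map
      (algebraMap (MvPolynomial (Fin (d + 1)) k) (FractionRing (MvPolynomial (Fin (d + 1)) k)))).rank)
    (h : P (ER (fun _ : Fin 1 => gen f))) : P (VR (MvPolynomial (Fin N) k) f) := by
  have hS' : P (MvPolynomial (Fin (d + 1 + 1)) (MvPolynomial (Fin N) k)) :=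
    (Asm.s_PLY k P hP.toCls0 hP.line _ (d + 1 + 1)).1 ((Asm.s_PLY k P hP.toCls0 hP.line k N).1
      (hP.base k ((dl_field k).mono (Nat.zero_le d))))
  obtain ⟨e1⟩ := t_QSW k k N (d + 1 + 1) f
  have h3 := Asm.s_V1P k P hP.toCls0 hP.line (MvPolynomial (Fin (d + 1 + 1)) (MvPolynomial (Fin N) k))
    (fs f) hS' (hP.iso e1.symm h)
  have h4 := t_OVS2 k P d h2 hP hE k N (d + 1) 0 (fun j : Fin (d + 1 + 1) => f j.succ)
    (Nat.zero_le d) le_rfl (dl_field k) (fun j => hf j.succ) hodd
  obtain ⟨z', u', hs⟩ := Asm.s_VRQ k (MvPolynomial (Fin N) k) (d + 1 + 1) f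
  exact hP.glue _ z' u' hs h4 h3

variable {k : Type} [Field k] {E : Type} [Field E] [Finite k] [CharZero E]
variable {T : ∀ i : ℕ, Homology.{v} k E i} {hT : Full T}

/-- The generic member of a system of `d + 3` quadratic forms. -/
lemma gg_fs_of_zer2 (hP : Pub2 T hT) (d : ℕ) (hlow : ∀ X : Var k, X.DimLE d → GG T X) {n : ℕ}
    (f : Fin (d + 1 + 1 + 1) → MvPolynomial (Fin n) k) (hf : ∀ j, (f j).IsHomogeneous 2)
    (h : GG T (zer f)) :
    GG T (aff k (MvPolynomial (Fin (d + 1 + 1)) (MvPolynomial (Fin n) k) ⧸ Ideal.span {fs f})) := by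
  have hG : GGC T := ggc hP
  refine t_UST k (fun A [CommRing A] [Algebra k A] [Algebra.FiniteType k A] => GG T (aff k A))
    (clsT_gg hG) (d + 1 + 1) (MvPolynomial (Fin n) k) f ?_ h
  intro j hj
  have h6 : f '' {l : Fin (d + 1 + 1 + 1) | 1 ≤ l.1 ∧ l.1 ≤ j} =
      Set.range (fun l : Fin j => f ⟨l.1 + 1, by omega⟩) := by
    ext y
    constructor
    · rintro ⟨l, ⟨hl1, hl2⟩, rfl⟩
      refine ⟨⟨l.1 - 1, by omega⟩, congrArg f (Fin.ext ?_)⟩
      change l.1 - 1 + 1 = l.1
      omega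
    · rintro ⟨l, rfl⟩
      refine ⟨_, ⟨?_, ?_⟩, rfl⟩
      · change 1 ≤ l.1 + 1
        omega
      · change l.1 + 1 ≤ j
        have := l.2
        omega
  refine (clsT_gg hG).iso (Ideal.quotientEquivAlgOfEq k (congrArg Ideal.span h6.symm)) ?_
  rcases Nat.eq_zero_or_pos j with rfl | hj0
  · refine (clsT_gg hG).iso (A := MvPolynomial (Fin n) k) ?_
      (fun i => (ppf_poly hP.toPub (T := T) n i).1)
    have h1 : Ideal.span (Set.range (fun l : Fin 0 =>
        f ⟨l.1 + 1, by have := l.2; omega⟩)) = ⊥ := by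
      rw [Set.range_eq_empty, Ideal.span_empty]
    exact ((Ideal.quotientEquivAlgOfEq k h1).trans
      (AlgEquiv.quotientBot k (MvPolynomial (Fin n) k))).symm
  · refine gg_of_built hP d hlow _ ?_
    exact built_quadrics (e := 0) _ hj0 (by omega)
      (dimLE_of_DL (dl_field k)) (fun l => (hf _).totalDegree_le)

/-- The hypersurface `g = 0`. -/
noncomputable abbrev hyV {k : Type} [Field k] {q : ℕ} (g : MvPolynomial (Fin q) k) : Var k :=
  aff k (MvPolynomial (Fin q) k ⧸ Ideal.span {g})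

/-- Each hypersurface `g = 0` and its system of quadratic forms: the conjecture of Tate. -/
theorem gg_rep_iff (hP : Pub2 T hT) (h2 : (2 : k) ≠ 0) (d : ℕ)
    (hlow : ∀ X : Var k, X.DimLE d → GG T X) (g : MvPolynomial (Fin (d + 1 + 1)) k) {N : ℕ}
    (f : Fin (d + 1 + 1 + 1) → MvPolynomial (Fin N) k) (hr : RepG.{v} g f)
    (hodd : Odd ((gram (gen fun j : Fin (d + 1 + 1) => f j.succ)).map
      (algebraMap (MvPolynomial (Fin (d + 1)) k)
        (FractionRing (MvPolynomial (Fin (d + 1)) k)))).rank) :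
    GG T (hyV g) ↔ GG T (zer f) := by
  have hc := cls_gg hP d hlow
  constructor
  · intro h
    refine t_TZE k E T hT hP.toPub hP.sectionZero _ (d + 1 + 1) f ?_
    refine vr_of_gen (fun A [CommRing A] [Algebra k A] [Algebra.FiniteType k A] => GG T (aff k A)) d
      h2 hc (oddCl_gg hP) f hr.quad hodd ?_
    exact hr.up (fun A [CommRing A] [Algebra k A] [Algebra.FiniteType k A] => GG T (aff k A))
      hc.toCls0 hc.line
      (fun m => (Asm.s_PLY k (fun A [CommRing A] [Algebra k A] [Algebra.FiniteType k A] =>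
        GG T (aff k A)) hc.toCls0 hc.line _ m).1
          (fun i => (ppf_poly hP.toPub (T := T) (d + 1 + 1) i).1))
      (fun i => (ppf_poly hP.toPub (T := T) (d + 1 + 1) i).1) h
  · intro h
    obtain ⟨e1⟩ := t_QSW k k N (d + 1 + 1) f
    exact hr.down E T hT hP ((clsT_gg (ggc hP)).iso e1 (gg_fs_of_zer2 hP d hlow f hr.quad h))

/-- Each hypersurface `g = 0` and its system of quadratic forms: the strong form of the generalised
conjecture of Beilinson. -/
theorem ppf_rep (hP : Pub2 T hT) (h2 : (2 : k) ≠ 0) (d : ℕ)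
    (hlow : ∀ X : Var k, X.DimLE d → PPF T X) (g : MvPolynomial (Fin (d + 1 + 1)) k) {N : ℕ}
    (f : Fin (d + 1 + 1 + 1) → MvPolynomial (Fin N) k) (hr : RepG.{v} g f)
    (hodd : Odd ((gram (gen fun j : Fin (d + 1 + 1) => f j.succ)).map
      (algebraMap (MvPolynomial (Fin (d + 1)) k)
        (FractionRing (MvPolynomial (Fin (d + 1)) k)))).rank)
    (h : PPF T (hyV g)) : PPF T (zer f) := by
  have hc := cls_ppf hP d hlow
  have key : PPF T (aff k (VR (MvPolynomial (Fin N) k) f)) := by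
    refine vr_of_gen (fun A [CommRing A] [Algebra k A] [Algebra.FiniteType k A] => PPF T (aff k A)) d
      h2 hc (ppfOdd hP) f hr.quad hodd ?_
    exact hr.up (fun A [CommRing A] [Algebra k A] [Algebra.FiniteType k A] => PPF T (aff k A))
      hc.toCls0 hc.line
      (fun m => (Asm.s_PLY k (fun A [CommRing A] [Algebra k A] [Algebra.FiniteType k A] =>
        PPF T (aff k A)) hc.toCls0 hc.line _ m).1 (ppf_poly hP.toPub (T := T) (d + 1 + 1)))
      (ppf_poly hP.toPub (T := T) (d + 1 + 1)) h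
  intro i
  exact (pi_iff hT.toExtra i _).mp (red3 hT hP.toPub hP.sectionZero i (d + 1 + 1) f
    (Ideal.Quotient.mkₐ k _) (Ideal.Quotient.mkₐ_surjective k _) Ideal.mk_ker
    ((pi_iff hT.toExtra _ _).mpr (key _)))

end QCV
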