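import Pool.Agent.QCV.E_ASM

/-!
# QCV, block H: quadratic forms of even generic rank, if all double covers of the base have the property
-/

set_option autoImplicit false

open Polynomial

namespace QCV

open CUB

open QOD in
/-- **EOD2**: one quadratic form of even rank over a domain. -/
theorem t_EOD2 (k : Type) [Field k]
    (P : ∀ (A : Type) [CommRing A] [Algebra k A] [Algebra.FiniteType k A], Prop) (d : ℕ)
    (h2 : (2 : k) ≠ 0) (hP : Cls k d P) (hE : EvenCl k P) (B : Type) [CommRing B] [IsDomain B]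
    [Algebra k B] [Algebra.FiniteType k B] (n : ℕ) (f : MvPolynomial (Fin n) B)
    (hD : DL k B (d + 1)) (hf : f.IsHomogeneous 2)
    (hev : Even ((gram f).map (algebraMap B (FractionRing B))).rank)
    (hDr : ∀ c : B, P (Dr B 0 c)) : P (ER (fun _ : Fin 1 => f)) := by
  have hinj : Function.Injective (algebraMap k B) := (algebraMap k B).injective
  have h2B : (2 : B) ≠ 0 := by
    intro h
    apply h2
    apply hinj
    rw [map_zero, map_ofNat, h]
  obtain ⟨a, ha, Pm, w, hdet, hdiag, hw⟩ :=
    t_QDS t_QDF B n (gram f) h2B (gram_transpose f)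
  obtain ⟨m, hm⟩ := hev
  have hm2 : ((gram f).map (algebraMap B (FractionRing B))).rank = 2 * m := by
    rw [hm]
    ring
  have hρ : 2 * m ≤ n := by
    rw [← hm2]
    refine (Matrix.rank_le_width _).trans le_rfl
  rw [hm2] at hw
  -- the strata of the base
  have hstrat : Strat (k := k) a (Ideal.Quotient.mkₐ k (Ideal.span {a})) (awayHom k a) := by
    refine ⟨Ideal.Quotient.mkₐ_surjective k _, ?_, isLocalization_awayHom a⟩
    exact Ideal.Quotient.mkₐ_ker k (Ideal.span {a})
  have hDZ : DL k (B ⧸ Ideal.span {a}) d := Asm.s_DLR.2.2.2.2 k B d a ha hD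
  -- the double covers of the open part
  have hDU : ∀ b : B, P (Dr (Localization.Away a) 0 (awayHom k a b)) := by
    intro b
    obtain ⟨zd, ud, hsd⟩ := t_EDS k B (B ⧸ Ideal.span {a}) (Localization.Away a) a _ _ hstrat 0 b
    have hZ0 := hP.base (Dr (B ⧸ Ideal.span {a}) (Ideal.Quotient.mkₐ k (Ideal.span {a}) 0)
      (Ideal.Quotient.mkₐ k (Ideal.span {a}) b))
      (Asm.s_DLR.2.2.1 k (B ⧸ Ideal.span {a}) _ d hDZ)
    have h3 := hP.opn _ zd ud hsd (hDr b) hZ0
    have e0 : awayHom k a 0 = 0 := map_zero _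
    rw [e0] at h3
    exact h3
  have hDU2 : ∀ c : Localization.Away a, P (Dr (Localization.Away a) 0 c) := by
    intro c
    obtain ⟨N, b, hb⟩ := IsLocalization.Away.surj a c
    let i : Localization.Away a := IsLocalization.Away.invSelf (R := B) a
    have hi : algebraMap B (Localization.Away a) a * i = 1 := IsLocalization.Away.mul_invSelf a
    have hiu : IsUnit (i ^ N) := (IsUnit.of_mul_eq_one_right _ hi).pow N
    have hiN : algebraMap B (Localization.Away a) a ^ N * i ^ N = 1 := by
      rw [← mul_pow, hi, one_pow]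
    have hc : c = (i ^ N) ^ 2 * awayHom k a (b * a ^ N) := by
      change c = (i ^ N) ^ 2 * algebraMap B (Localization.Away a) (b * a ^ N)
      rw [map_mul, map_pow, ← hb]
      linear_combination (-c * (1 + algebraMap B (Localization.Away a) a ^ N * i ^ N)) * hiN
    obtain ⟨e⟩ := t_EDU k (Localization.Away a) (awayHom k a (b * a ^ N)) (i ^ N) hiu
    have h4 : ∀ c' : Localization.Away a, c' = (i ^ N) ^ 2 * awayHom k a (b * a ^ N) →
        P (Dr (Localization.Away a) 0 c') := by
      rintro _ rfl
      exact hP.iso e (hDU _)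
    exact h4 c hc
  obtain ⟨z', u', hs'⟩ := Asm.s_FAM.1 k B (B ⧸ Ideal.span {a}) (Localization.Away a) (Fin 1)
    n a _ _ (fun _ => f) hstrat
  refine hP.glue _ z' u' hs' ?_ ?_
  · refine Asm.s_QUA k P d hP n _ _ hDZ fun j => ?_
    exact (totalDegree_map_le _ _).trans hf.totalDegree_le
  · have hf' : (MvPolynomial.map (algebraMap B (Localization.Away a)) f).IsHomogeneous 2 :=
      hf.map _
    have hdiag' : Pm.transpose *
        gram (MvPolynomial.map (algebraMap B (Localization.Away a)) f) * Pm =
        Matrix.diagonal w := by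
      rw [gram_map]
      exact hdiag
    have htwo : (2 : Localization.Away a) * algebraMap k (Localization.Away a) 2⁻¹ = 1 := by
      rw [← map_ofNat (algebraMap k (Localization.Away a)) 2, ← map_mul, mul_inv_cancel₀ h2,
        map_one]
    obtain ⟨e1⟩ := t_QDP k (Localization.Away a) n
      (MvPolynomial.map (algebraMap B (Localization.Away a)) f) Pm w
      (fun j => algebraMap k (Localization.Away a) 2⁻¹ * w j) h2 hf' hdet hdiag' (fun j => by
        rw [← mul_assoc, htwo, one_mul])
    obtain ⟨e2⟩ := t_QDL k (Localization.Away a) n (2 * m) hρ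
      (fun j => algebraMap k (Localization.Away a) 2⁻¹ * w j) (fun j hj => by
        rw [(hw j).2 hj, mul_zero])
    have hunit : IsUnit (algebraMap k (Localization.Away a) 2⁻¹) :=
      IsUnit.of_mul_eq_one_right _ htwo
    have hS := hE (Localization.Away a) m (fun j : Fin (2 * m) =>
        algebraMap k (Localization.Away a) 2⁻¹ * w (Fin.castLE hρ j))
      (fun j => hunit.mul ((hw (Fin.castLE hρ j)).1 j.2)) (hDU2 _)
    have hS' := (Asm.s_PLY k P hP.toCls0 hP.line _ (n - 2 * m)).1 hS
    have h3 := hP.iso e1.symm (hP.iso e2.symm hS')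
    have e3 : Ideal.span {MvPolynomial.map (algebraMap B (Localization.Away a)) f} =
        Ideal.span (Set.range (mf (awayHom k a).toRingHom (fun _ : Fin 1 => f))) := by
      congr 1
      ext x
      constructor
      · rintro rfl
        exact ⟨0, rfl⟩
      · rintro ⟨j, rfl⟩
        rfl
    exact hP.iso (Ideal.quotientEquivAlgOfEq k e3) h3

/-- **EVS2**: systems of quadratic forms of even generic rank. -/
theorem t_EVS2 (k : Type) [Field k]
    (P : ∀ (A : Type) [CommRing A] [Algebra k A] [Algebra.FiniteType k A], Prop) (d : ℕ)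
    (h2 : (2 : k) ≠ 0) (hP : Cls k d P) (hE : EvenCl k P) (R : Type) [CommRing R] [IsDomain R]
    [Algebra k R] [Algebra.FiniteType k R] (n q e : ℕ)
    (f : Fin (q + 1) → MvPolynomial (Fin n) R) (hed : e ≤ d) (hqe : q + e ≤ d + 1)
    (hDL : DL k R e) (hf : ∀ j, (f j).IsHomogeneous 2)
    (hev : Even ((gram (gen f)).map (algebraMap (MvPolynomial (Fin q) R)
      (FractionRing (MvPolynomial (Fin q) R)))).rank)
    (hD : ∀ c : MvPolynomial (Fin q) R, P (Dr (MvPolynomial (Fin q) R) 0 c)) :
    P (VR (MvPolynomial (Fin n) R) f) := by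
  have hS' : P (MvPolynomial (Fin q) (MvPolynomial (Fin n) R)) :=
    (Asm.s_PLY k P hP.toCls0 hP.line _ q).1 ((Asm.s_PLY k P hP.toCls0 hP.line R n).1
      (hP.base R (hDL.mono hed)))
  have hB : DL k (MvPolynomial (Fin q) R) (d + 1) :=
    (Asm.s_DLM k R e q hDL).mono (by omega)
  obtain ⟨e1⟩ := t_QSW k R n q f
  have h1 : P (MvPolynomial (Fin q) (MvPolynomial (Fin n) R) ⧸ Ideal.span {fs f}) :=
    hP.iso e1.symm (t_EOD2 k P d h2 hP hE (MvPolynomial (Fin q) R) n (gen f) hB
      (EVS.gen_homog f hf) hev hD)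
  have h3 := Asm.s_V1P k P hP.toCls0 hP.line (MvPolynomial (Fin q) (MvPolynomial (Fin n) R))
    (fs f) hS' h1
  have h4 := Asm.s_VRP k P d e n q hP hed (by omega) R (fun j : Fin q => f j.succ) hDL
    (fun j => (hf _).totalDegree_le)
  obtain ⟨z', u', hs⟩ := Asm.s_VRQ k (MvPolynomial (Fin n) R) q f
  exact hP.glue _ z' u' hs h4 h3

end QCV
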