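import Pool.Agent.QCV.H_EVR

/-!
# QCV, block H: a system of quadratic forms in an even number of variables and its discriminant double
cover
-/

set_option autoImplicit false

open CategoryTheory AlgebraicGeometry Limits Polynomial TopologicalSpace

namespace QCV

open Pool.Agent.Lib_helper55.Beil Pool.Agent.Lib_helper66.OneP CUB

universe v

variable {k : Type} [Field k] {E : Type} [Field E] [Finite k] [CharZero E]
variable {T : ∀ i : ℕ, Homology.{v} k E i} {hT : Full T}

/-- The open part of a variety with `PPF` if the closed part has `GG`. -/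
lemma ppf_open_gg (hP : Pub2 T hT) {Z U X : Var k} (a : ClosedIn Z X) (j : OpenIn U X)
    (h : Complementary a j) (hX : PPF T X) (hZ : GG T Z) : PPF T U := by
  intro i
  rcases i with _ | i
  · exact pf_zero hT hP.toPub _
  · exact ⟨good_open hT hP.toPub i a j h (hX (i + 1)).1,
      injC_open2 (T (i + 1)) a j h (hZ (i + 1)) (hX (i + 1)).2.1,
      supp_open hT hP.toPub (i + 1) a j h (hZ (i + 1)) (hX (i + 1)).2.1 (hX (i + 1)).2.2⟩

open QOD in
/-- **EOR**: from a quadratic form in an even number of variables over a domain to the discriminant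
double cover. -/
theorem t_EOR (hP : Pub2 T hT) (h2 : (2 : k) ≠ 0) (d : ℕ)
    (hlow : ∀ X : Var k, X.DimLE d → GG T X) (B : Type) [CommRing B] [IsDomain B] [Algebra k B]
    [Algebra.FiniteType k B] (hD : DL k B (d + 1)) (hB : PPF T (aff k B)) (m : ℕ)
    (f : MvPolynomial (Fin (2 * (m + 1))) B) (hf : f.IsHomogeneous 2)
    (hdet0 : (gram f).det ≠ 0) (h : GG T (aff k (ER (fun _ : Fin 1 => f)))) :
    GG T (aff k (Dr B 0 ((-1) ^ (m + 1 + 1) * (gram f).det))) := by
  have hG : GGC T := ggc hP
  have hinj : Function.Injective (algebraMap k B) := (algebraMap k B).injective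
  have h2B : (2 : B) ≠ 0 := by
    intro h
    apply h2
    apply hinj
    rw [map_zero, map_ofNat, h]
  obtain ⟨a, ha, Pm, w, hdet, hdiag, hw⟩ :=
    t_QDS t_QDF B (2 * (m + 1)) (gram f) h2B (gram_transpose f)
  have hrank : ((gram f).map (algebraMap B (FractionRing B))).rank = 2 * (m + 1) := by
    rw [Matrix.rank_of_isUnit, Fintype.card_fin]
    rw [Matrix.isUnit_iff_isUnit_det, isUnit_iff_ne_zero]
    intro h
    apply hdet0
    apply IsFractionRing.injective B (FractionRing B)
    rw [map_zero, ← h, RingHom.map_det]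
    rfl
  have hwu : ∀ j, IsUnit (w j) := fun j => (hw j).1 (by rw [hrank]; exact j.2)
  -- the strata of the base
  have hstrat : Strat (k := k) a (Ideal.Quotient.mkₐ k (Ideal.span {a})) (awayHom k a) := by
    refine ⟨Ideal.Quotient.mkₐ_surjective k _, ?_, isLocalization_awayHom a⟩
    exact Ideal.Quotient.mkₐ_ker k (Ideal.span {a})
  have hDZ : DL k (B ⧸ Ideal.span {a}) d := Asm.s_DLR.2.2.2.2 k B d a ha hD
  have hU : PPF T (aff k (Localization.Away a)) :=
    ppf_open_gg hP _ _ (complementary_away (awayHom k a) a hstrat.away _ hstrat.surj hstrat.ker)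
      hB (hlow _ (dimLE_of_DL hDZ))
  -- the open part of the cone
  obtain ⟨z', u', hs'⟩ := Asm.s_FAM.1 k B (B ⧸ Ideal.span {a}) (Localization.Away a) (Fin 1)
    (2 * (m + 1)) a _ _ (fun _ => f) hstrat
  have h3 := (clsT_gg hG).opn _ u' hs'.away h
  have hf' : (MvPolynomial.map (algebraMap B (Localization.Away a)) f).IsHomogeneous 2 :=
    hf.map _
  have hdiag' : Pm.transpose *
      gram (MvPolynomial.map (algebraMap B (Localization.Away a)) f) * Pm =
      Matrix.diagonal w := by
    rw [gram_map]
    exact hdiag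
  have htwo : (2 : Localization.Away a) * algebraMap k (Localization.Away a) 2⁻¹ = 1 := by
    rw [← map_ofNat (algebraMap k (Localization.Away a)) 2, ← map_mul, mul_inv_cancel₀ h2,
      map_one]
  obtain ⟨e1⟩ := t_QDP k (Localization.Away a) (2 * (m + 1))
    (MvPolynomial.map (algebraMap B (Localization.Away a)) f) Pm w
    (fun j => algebraMap k (Localization.Away a) 2⁻¹ * w j) h2 hf' hdet hdiag' (fun j => by
      rw [← mul_assoc, htwo, one_mul])
  have hunit : IsUnit (algebraMap k (Localization.Away a) 2⁻¹) :=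
    IsUnit.of_mul_eq_one_right _ htwo
  have e3 : Ideal.span {MvPolynomial.map (algebraMap B (Localization.Away a)) f} =
      Ideal.span (Set.range (mf (awayHom k a).toRingHom (fun _ : Fin 1 => f))) := by
    congr 1
    ext x
    constructor
    · rintro rfl
      exact ⟨0, rfl⟩
    · rintro ⟨j, rfl⟩
      rfl
  have h4 := (clsT_gg hG).iso e1 ((clsT_gg hG).iso (Ideal.quotientEquivAlgOfEq k e3).symm h3)
  have h5 := t_EVR hP h2 (Localization.Away a) hU m
    (fun j => algebraMap k (Localization.Away a) 2⁻¹ * w j) (fun j => hunit.mul (hwu j)) h4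
  have hdG : ((gram f).map (algebraMap B (Localization.Away a))).det =
      algebraMap B (Localization.Away a) (gram f).det := by
    rw [RingHom.map_det]
    rfl
  have hc : (-1 : Localization.Away a) ^ (m + 1 + 1) *
      ∏ j, (algebraMap k (Localization.Away a) 2⁻¹ * w j) =
      (Pm.det * (algebraMap k (Localization.Away a) 2⁻¹) ^ (m + 1)) ^ 2 *
        awayHom k a ((-1) ^ (m + 1 + 1) * (gram f).det) := by
    rw [EOD.det_eq _ Pm w _ hdiag, hdG]
    congr 1
    change _ = algebraMap B (Localization.Away a) _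
    rw [map_mul, map_pow, map_neg, map_one]
  obtain ⟨e2⟩ := t_EDU k (Localization.Away a)
    (awayHom k a ((-1) ^ (m + 1 + 1) * (gram f).det))
    (Pm.det * (algebraMap k (Localization.Away a) 2⁻¹) ^ (m + 1))
    (hdet.mul (hunit.pow (m + 1)))
  have h6 := (clsT_gg hG).iso e2.symm (gg_dr_congr hc h5)
  -- gluing
  obtain ⟨zd, ud, hsd⟩ := t_EDS k B (B ⧸ Ideal.span {a}) (Localization.Away a) a _ _ hstrat 0
    ((-1) ^ (m + 1 + 1) * (gram f).det)
  refine (clsT_gg hG).glue _ zd ud hsd ?_ ?_
  · exact hlow _ (dimLE_of_DL (Asm.s_DLR.2.2.1 k (B ⧸ Ideal.span {a}) _ d hDZ))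
  · have e0 : awayHom k a 0 = 0 := map_zero _
    rw [e0]
    exact h6

end QCV
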