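import Pool.Agent.QCV.H_TWR

/-!
# QCV, block H: from a quadric cone in an even number of variables to the discriminant double cover
-/

set_option autoImplicit false

open CategoryTheory AlgebraicGeometry Limits Polynomial TopologicalSpace

namespace QCV

open Pool.Agent.Lib_helper55.Beil Pool.Agent.Lib_helper66.OneP CUB

universe v

variable {k : Type} [Field k] {E : Type} [Field E] [Finite k] [CharZero E]
variable {T : ∀ i : ℕ, Homology.{v} k E i} {hT : Full T}

omit [Finite k] [CharZero E] in
lemma gg_qc_congr {B : Type} [CommRing B] [Algebra k B] [Algebra.FiniteType k B] {a a' : Fin 4 → B}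
    {c c' : B} (h : a = a') (h' : c = c') (hD : GG T (aff k (QC B a c))) :
    GG T (aff k (QC B a' c')) := by
  subst h
  subst h'
  exact hD

/-- The closed part. -/
lemma gg_closed (hP : Pub2 T hT) {A Z U : Type} [CommRing A] [Algebra k A] [Algebra.FiniteType k A]
    [CommRing Z] [Algebra k Z] [Algebra.FiniteType k Z] [CommRing U] [Algebra k U]
    [Algebra.FiniteType k U] (a : A) (z : A →ₐ[k] Z) (u : A →ₐ[k] U) (s : Strat a z u)
    (hA : GG T (aff k A)) (hU : PPF T (aff k U)) : GG T (aff k Z) :=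
  t_TCL k E T hT hP.toPub _ _ (complementary_away u a s.away z s.surj s.ker) hA hU

open EVI in
/-- **EVR**. -/
theorem t_EVR (hP : Pub2 T hT) (h2 : (2 : k) ≠ 0) (A : Type) [CommRing A] [Algebra k A]
    [Algebra.FiniteType k A] (hA : PPF T (aff k A)) (m : ℕ) :
    ∀ a : Fin (2 * (m + 1)) → A, (∀ j, IsUnit (a j)) →
      GG T (aff k (MvPolynomial (Fin (2 * (m + 1))) A ⧸ Ideal.span {dia a})) →
      GG T (aff k (Dr A 0 ((-1) ^ (m + 1 + 1) * ∏ j, a j))) := by
  have hG : GGC T := ggc hP
  obtain ⟨S, d1, d2, d3, d4⟩ := hP.dbl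
  have hTw := t_TWR k E T hT S hP.toPub hP.sectionZero d1 d2 d3 d4 h2
  have hl : ∀ (A : Type) [CommRing A] [Algebra k A] [Algebra.FiniteType k A],
      PPF T (aff k A) → PPF T (aff k A[X]) := fun A _ _ _ h => ppf_line hT hP.toPub A h
  induction m with
  | zero =>
    intro a ha hc
    obtain ⟨z, u, hs⟩ := t_EE1 k A a ha
    have h3 := (clsT_gg hG).opn _ u hs.away hc
    have h4 := t_TGM k E T hT hP.toPub hP.sectionZero _ h3
    have e : a 0 * a 1 = (-1 : A) ^ (0 + 1 + 1) * ∏ j, a j := by
      have h3 : ∏ j, a j = a 0 * a 1 := Fin.prod_univ_two a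
      rw [h3]
      ring
    exact gg_dr_congr e h4
  | succ m ih =>
    intro a ha hc
    obtain ⟨v, hv⟩ := (ha 0).exists_right_inv
    -- the coefficients
    let b : Fin (2 * m + 4) → A := a
    have hb : ∀ j, IsUnit (b j) := ha
    change b 0 * v = 1 at hv
    let δ : A := - (b 1 * v)
    have hδu : IsUnit δ := ((hb 1).mul (IsUnit.of_mul_eq_one_right (b 0) hv)).neg
    have hδ : δ * b 0 = - b 1 := by
      change - (b 1 * v) * b 0 = - b 1
      linear_combination (- b 1) * hv
    let b' : Fin (2 * m + 4) → A := fun j =>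
      if j.1 = 1 then - b 0 else if j.1 = 3 then δ * b 3 else b j
    have h0' : b' 0 = b 0 := rfl
    have h1' : b' 1 = - b 0 := rfl
    have h2' : b' 2 = b 2 := rfl
    have h3' : b' 3 = δ * b 3 := rfl
    have h4' : ∀ j : Fin (2 * m), b' j.succ.succ.succ.succ = b j.succ.succ.succ.succ := by
      intro j
      change (if (j.1 + 1 + 1 + 1 + 1 : ℕ) = 1 then _ else if (j.1 + 1 + 1 + 1 + 1 : ℕ) = 3 then _
        else _) = _
      rw [if_neg (by omega), if_neg (by omega)]
    have hb' : ∀ j, IsUnit (b' j) := by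
      intro j
      change IsUnit (if j.1 = 1 then - b 0 else if j.1 = 3 then δ * b 3 else b j)
      split_ifs
      · exact (hb 0).neg
      · exact hδu.mul (hb 3)
      · exact hb j
    have hprod : ∏ j, b' j = ∏ j, b j := by
      rw [prod_four, prod_four, h0', h1', h2', h3']
      simp only [h4']
      linear_combination (- b 0 * b 2 * b 3 * ∏ j : Fin (2 * m), b j.succ.succ.succ.succ) * hδ
    -- the cone of `b'`
    obtain ⟨e1⟩ := t_EQI k A m a
    obtain ⟨e2⟩ := t_EQI k A m b'
    have hcone : GG T (aff k (MvPolynomial (Fin (2 * (m + 2))) A ⧸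
        Ideal.span {dia (b' : Fin (2 * (m + 2)) → A)})) := by
      refine (clsT_gg hG).iso e2.symm ?_
      have h5 := hTw (MvPolynomial (Fin (2 * m)) A) _ _ (MvPolynomial.C δ) ?_ ?_ ?_
        ((clsT_gg hG).iso e1 hc)
      · refine gg_qc_congr ?_ ?_ h5
        · funext j
          fin_cases j
          · rfl
          · change - MvPolynomial.C (b 0) = MvPolynomial.C (- b 0)
            rw [map_neg]
          · rfl
          · change MvPolynomial.C δ * MvPolynomial.C (b 3) = MvPolynomial.C (δ * b 3)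
            rw [map_mul]
        · congr 1
      · intro j
        exact (ha _).map MvPolynomial.C
      · exact hδu.map MvPolynomial.C
      · change MvPolynomial.C δ * MvPolynomial.C (b 0) = - MvPolynomial.C (b 1)
        rw [← map_mul, hδ, map_neg]
    -- removal of the hyperbolic plane
    obtain ⟨s, z, u, hs⟩ := t_EH2 k A (2 * (m + 1)) b' h2 (hb' 0) rfl
    have hopen := punct (cls0_ppf hT hP.toPub) hl (MvPolynomial (Fin (2 * (m + 1))) A)
      ((Asm.s_PLY k _ (cls0_ppf hT hP.toPub) hl A _).1 hA)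
    have hZ : GG T (aff k (MvPolynomial (Fin (2 * (m + 1))) A ⧸
        Ideal.span {dia fun j : Fin (2 * (m + 1)) => b' j.succ.succ})[X]) :=
      gg_closed hP (Z := (MvPolynomial (Fin (2 * (m + 1))) A ⧸
        Ideal.span {dia fun j : Fin (2 * (m + 1)) => b' j.succ.succ})[X]) s z u hs hcone hopen
    have hc2 := hG.unpoly _ hZ
    have hih := ih (fun j => b' j.succ.succ) (fun j => hb' _) hc2
    obtain ⟨e⟩ := t_EDU k A ((-1) ^ (m + 1 + 1) * ∏ j : Fin (2 * (m + 1)), b' j.succ.succ) (b 0)
      (hb 0)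
    refine gg_dr_congr ?_ ((clsT_gg hG).iso e hih)
    have h5 : ∏ j, a j = b' 0 * (b' 1 * ∏ j : Fin (2 * (m + 1)), b' j.succ.succ) :=
      hprod.symm.trans (prod_two (2 * (m + 1)) b')
    rw [h5, h0', h1']
    ring

end QCV
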