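import Pool.Agent.QCV.E_ASM
import Pool.Agent.QCV.H_BUP
import Pool.Agent.QCV.H_CNE

/-!
# QCV, block H: the conjecture of Tate for a projective variety and for its affine cone
-/

set_option autoImplicit false

open CategoryTheory AlgebraicGeometry Limits Polynomial TopologicalSpace

namespace QCV

open Pool.Agent.Lib_helper55.Beil Pool.Agent.Lib_helper66.OneP CUB

universe v

variable {k : Type} [Field k] {E : Type} [Field E]
variable {T : ∀ i : ℕ, Homology.{v} k E i} {hT : Full T}

/-- The property `GG` is determined by the closed subset of an ambient variety. -/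
theorem gg_same_range (hG : GGC T) {X Y W : Var k} (a : ClosedIn X W) (b : ClosedIn Y W)
    (h : Set.range a.g = Set.range b.g) (hX : GG T X) : GG T Y := by
  have hred := isReduced_redVar Y
  obtain ⟨l, hl⟩ := exists_factor_range a ((redVarIn Y).trans b) (by
    rintro _ ⟨y, rfl⟩
    rw [h]
    exact ⟨(redVarIn Y).g y, rfl⟩)
  apply hG.red
  refine hG.nil l ?_ hX
  intro x
  have h1 : a.g x ∈ Set.range b.g := by
    rw [← h]
    exact ⟨x, rfl⟩
  obtain ⟨y, hy⟩ := h1
  obtain ⟨y', hy'⟩ : y ∈ Set.range (redVarIn Y).g := by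
    rw [range_redVarIn]
    trivial
  refine ⟨y', ?_⟩
  apply closedIn_injective a
  rw [← hy, ← hy', ← Scheme.Hom.comp_apply, hl]
  rfl

section

variable [Finite k] [CharZero E]

/-- The property `GG` for the affine cone over a projective variety `X` and for `X`. -/
theorem gg_cone_iff (hP : Pub2 T hT) {R ι : Type} [CommRing R] [Algebra k R]
    [Algebra.FiniteType k R] {n : ℕ} (f : ι → MvPolynomial (Fin (n + 1)) R) (m : ι → ℕ)
    (hm : ∀ j, (f j).IsHomogeneous (m j)) (hm1 : ∀ j, 1 ≤ m j) (hR : GG T (aff k R)) :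
    GG T (aff k (MvPolynomial (Fin (n + 1)) R ⧸ Ideal.span (Set.range f))) ↔
      ∀ (X : Var k) (_ : ProjSub f X), GG T X := by
  have hG : GGC T := ggc hP
  obtain ⟨S, hS⟩ := hP.bundles
  constructor
  · intro h X s
    exact Asm.s_BCO k (GG T) (fun _ j _ hX _ => hG.opn j hX)
      (fun a b hab hX => gg_same_range hG a b hab hX)
      (fun B s j hs hc hU => t_TBU k E T hT hP.toPub hP.sectionZero S hS B s j hs hc hU)
      R ι n f m hm hm1 hR h X s
  · intro h
    exact t_CNE k (GG T) (fun a j hc hZ hU => hG.glue a j hc hZ hU)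
      (fun a b hab hX => gg_same_range hG a b hab hX)
      (fun B _ j _ _ hX => hG.opn j (gg_bun hT hP.toPub S hS B hX))
      R ι n f m hm hm1 hR h

/-- The conjecture of Tate for the affine cone over a projective variety `X` and for `X`. -/
theorem tate_cone_iff (hP : Pub2 T hT) {R ι : Type} [CommRing R] [Algebra k R]
    [Algebra.FiniteType k R] {n : ℕ} (f : ι → MvPolynomial (Fin (n + 1)) R) (m : ι → ℕ)
    (hm : ∀ j, (f j).IsHomogeneous (m j)) (hm1 : ∀ j, 1 ≤ m j) (hR : Tate T (aff k R)) :
    Tate T (aff k (MvPolynomial (Fin (n + 1)) R ⧸ Ideal.span (Set.range f))) ↔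
      ∀ (X : Var k) (_ : ProjSub f X), Tate T X := by
  have h := gg_cone_iff hP f m hm hm1 ((gg_iff _).mpr hR)
  rw [gg_iff] at h
  exact h.trans (forall_congr' fun X => forall_congr' fun _ => gg_iff X)

/-- The conjecture of Tate for the base field. -/
lemma tate_field (hP : Pub2 T hT) : Tate T (aff k k) :=
  (gg_iff _).mp fun i => (ppf_field hP.toPub i).1

end

end QCV
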