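import Pool.Agent.QCV.U_UHA

/-!
# QCV, block H: a domain of finite type over a perfect field is birational to an integral hypersurface
-/

set_option autoImplicit false

namespace QCV

open UHA in
/-- An integral domain of finite type is birational to an integral hypersurface. -/
theorem t_UHB (k A : Type) [Field k] [PerfectField k] [CommRing A] [IsDomain A] [Algebra k A]
    [Algebra.FiniteType k A] (r : ℕ) (hr : Algebra.trdeg k A = r) :
    ∃ (g : MvPolynomial (Fin (r + 1)) k) (a : A)
      (h : MvPolynomial (Fin (r + 1)) k ⧸ Ideal.span {g}),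
      IsDomain (MvPolynomial (Fin (r + 1)) k ⧸ Ideal.span {g}) ∧ h ≠ 0 ∧ a ≠ 0 ∧
      Nonempty (Localization.Away h ≃ₐ[k] Localization.Away a) := by
  classical
  let K := FractionRing A
  have : Algebra.EssFiniteType A K := Algebra.EssFiniteType.of_isLocalization K (nonZeroDivisors A)
  have : Algebra.EssFiniteType k K := Algebra.EssFiniteType.comp k A K
  obtain ⟨s, hs, hsep⟩ := exists_isTranscendenceBasis_and_isSeparable_of_perfectField k K
  -- the cardinality of the transcendence basis
  have hcard : s.card = r := by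
    have h1 := hs.cardinalMk_eq_trdeg
    have : Algebra.IsAlgebraic A K := IsLocalization.isAlgebraic K (nonZeroDivisors A)
    have h2 : Algebra.trdeg k K = r := by
      rw [← hr, ← trdeg_add_eq k A (A := K), trdeg_eq_zero (R := A) (A := K), add_zero]
    rw [h2, Cardinal.mk_coe_finset] at h1
    exact_mod_cast h1
  let e : Fin r ≃ s := (Finset.equivFinOfCardEq hcard).symm
  let t : Fin r → K := fun i => (e i : K)
  have ht : AlgebraicIndependent k t := hs.1.comp e e.injective
  have hrt : Set.range t = (s : Set K) := by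
    ext z
    constructor
    · rintro ⟨i, rfl⟩; exact (e i).2
    · intro hz; exact ⟨e.symm ⟨z, hz⟩, by simp [t]⟩
  -- the primitive element
  have : Algebra.EssFiniteType (IntermediateField.adjoin k (s : Set K)) K :=
    Algebra.EssFiniteType.of_comp k _ _
  have : FiniteDimensional (IntermediateField.adjoin k (s : Set K)) K :=
    Algebra.finite_of_essFiniteType_of_isAlgebraic
  obtain ⟨α, hα⟩ := Field.exists_primitive_element (IntermediateField.adjoin k (s : Set K)) K
  let φ : MvPolynomial (Fin (r + 1)) k →ₐ[k] K := MvPolynomial.aeval (Fin.cons α t : Fin (r + 1) → K)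
  have hφ : φ.range = Algebra.adjoin k ((s : Set K) ∪ {α}) := by
    have h1 : (s : Set K) ∪ {α} = Set.range (Fin.cons α t : Fin (r + 1) → K) := by
      rw [Fin.range_cons, hrt, Set.union_comm, Set.insert_eq]
    rw [h1, Algebra.adjoin_range_eq_range_aeval]
  have hfrac : ∀ z : K, ∃ c ∈ φ.range, c ≠ 0 ∧ c * z ∈ φ.range := by
    intro z
    have h1 : z ∈ IntermediateField.adjoin k ((s : Set K) ∪ {α}) := by
      rw [← IntermediateField.adjoin_adjoin_left, hα]
      trivial
    obtain ⟨x, hx, y, hy, hz⟩ := IntermediateField.mem_adjoin_iff_div.mp h1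
    rw [hφ]
    by_cases hy0 : y = 0
    · refine ⟨1, Subalgebra.one_mem _, one_ne_zero, ?_⟩
      rw [hz, hy0, div_zero, mul_zero]
      exact Subalgebra.zero_mem _
    · refine ⟨y, hy, hy0, ?_⟩
      rw [hz, mul_div_cancel₀ _ hy0]
      exact hx
  -- the kernel is principal
  obtain ⟨g', hg'⟩ := ker_principal (MvPolynomial.aeval t : MvPolynomial (Fin r) k →ₐ[k] K).toRingHom
    ht α
  have hcomp : ∀ f : MvPolynomial (Fin (r + 1)) k,
      Polynomial.eval₂ (MvPolynomial.aeval t : MvPolynomial (Fin r) k →ₐ[k] K).toRingHom α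
        (MvPolynomial.finSuccEquiv k r f) = φ f := by
    intro f
    induction f using MvPolynomial.induction_on with
    | C a =>
      rw [MvPolynomial.finSuccEquiv_apply]
      simp [φ]
    | add p q hp hq => rw [map_add, Polynomial.eval₂_add, hp, hq, map_add]
    | mul_X p i hp =>
      rw [map_mul, Polynomial.eval₂_mul, hp, map_mul]
      congr 1
      refine Fin.cases ?_ (fun j => ?_) i
      · rw [MvPolynomial.finSuccEquiv_X_zero, Polynomial.eval₂_X]
        simp [φ]
      · rw [MvPolynomial.finSuccEquiv_X_succ, Polynomial.eval₂_C]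
        simp [φ]
  let g : MvPolynomial (Fin (r + 1)) k := (MvPolynomial.finSuccEquiv k r).symm g'
  have hg : ∀ f : MvPolynomial (Fin (r + 1)) k, φ f = 0 ↔ f ∈ Ideal.span {g} := by
    intro f
    rw [← hcomp f, hg', Ideal.mem_span_singleton]
    constructor
    · rintro ⟨q, hq⟩
      refine ⟨(MvPolynomial.finSuccEquiv k r).symm q, ?_⟩
      apply (MvPolynomial.finSuccEquiv k r).injective
      rw [hq, map_mul, AlgEquiv.apply_symm_apply, AlgEquiv.apply_symm_apply]
    · rintro ⟨q, hq⟩
      refine ⟨MvPolynomial.finSuccEquiv k r q, ?_⟩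
      rw [hq, map_mul, AlgEquiv.apply_symm_apply]
  let ψ : (MvPolynomial (Fin (r + 1)) k ⧸ Ideal.span {g}) →ₐ[k] K :=
    Ideal.Quotient.liftₐ (Ideal.span {g}) φ (fun a ha => (hg a).mpr ha)
  have hψ : ∀ f, ψ (Ideal.Quotient.mk _ f) = φ f := fun f => rfl
  have hψi : Function.Injective ψ := by
    rw [injective_iff_map_eq_zero]
    intro x hx
    obtain ⟨f, rfl⟩ := Ideal.Quotient.mk_surjective x
    rw [hψ] at hx
    exact Ideal.Quotient.eq_zero_iff_mem.mpr ((hg f).mp hx)
  have hψr : ψ.range = φ.range := by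
    ext z
    constructor
    · rintro ⟨x, rfl⟩
      obtain ⟨f, rfl⟩ := Ideal.Quotient.mk_surjective x
      exact ⟨f, rfl⟩
    · rintro ⟨f, rfl⟩
      exact ⟨Ideal.Quotient.mk _ f, rfl⟩
  -- the algebra `A` in `K`
  let ι : A →ₐ[k] K := Algebra.algHom k A K
  have hιi : Function.Injective ι := IsFractionRing.injective A K
  have hA : ∀ z : K, ∃ c ∈ ι.range, c ≠ 0 ∧ c * z ∈ ι.range := by
    intro z
    obtain ⟨⟨x, ⟨y, hy⟩⟩, h⟩ := IsLocalization.surj (nonZeroDivisors A) z
    refine ⟨ι y, ⟨y, rfl⟩, ?_, x, ?_⟩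
    · rw [Ne, map_eq_zero_iff ι hιi]
      exact nonZeroDivisors.ne_zero hy
    · rw [mul_comm]
      exact h.symm
  have hAf : ι.range.FG := by
    have h1 : (⊤ : Subalgebra k A).FG := Algebra.FiniteType.out
    have h2 := h1.map ι
    rwa [Algebra.map_top] at h2
  have hBf : φ.range.FG := by
    rw [hφ]
    exact ⟨s ∪ {α}, by simp⟩
  obtain ⟨h, hh, a, ha, hh0, ha0, hmain⟩ := birat φ.range ι.range hfrac hA hBf hAf
  rw [← hψr] at hh
  obtain ⟨h', rfl⟩ := hh
  obtain ⟨a', rfl⟩ := ha
  obtain ⟨F, hF, hFr⟩ := loc_emb ψ hψi h' hh0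
  obtain ⟨G, hG, hGr⟩ := loc_emb ι hιi a' ha0
  refine ⟨g, a', h', ?_, ?_, ?_, ?_⟩
  · exact Function.Injective.isDomain ψ.toRingHom hψi
  · rintro rfl
    exact hh0 (map_zero ψ)
  · rintro rfl
    exact ha0 (map_zero ι)
  · have hr : F.range = G.range := by
      ext z
      rw [hFr, hGr, hψr]
      exact hmain z
    exact ⟨(AlgEquiv.ofInjective F hF).trans ((Subalgebra.equivOfEq _ _ hr).trans
      (AlgEquiv.ofInjective G hG).symm)⟩

end QCV
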