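import Pool.Agent.QCV.H_EAC
import Pool.Agent.QCV.H_UHB
import Pool.Agent.QCV.Fin5

/-!
# QCV, block H: each integral variety and the zero set of a system of quadratic forms
-/

set_option autoImplicit false

open CategoryTheory AlgebraicGeometry Limits Polynomial TopologicalSpace

namespace QCV

open Pool.Agent.Lib_helper55.Beil Pool.Agent.Lib_helper66.OneP CUB

universe v

/-- A nonempty open subvariety of an integral variety of dimension at most `d + 1`. -/
lemma gg_open_iff {k : Type} [Field k] {E : Type} [Field E] {T : ∀ i : ℕ, Homology.{v} k E i}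
    (hG : GGC T) {d : ℕ} (hlow : ∀ X : Var k, X.DimLE d → GG T X) {X U : Var k}
    (hX : IsIntegral X.X) (hd : X.DimLE (d + 1 : ℕ)) (j : OpenIn U X) (hU : Nonempty U.X) :
    GG T X ↔ GG T U := by
  obtain ⟨Z, a, hc, hZ⟩ := exists_compl hX hd j hU
  exact ⟨hG.opn j, fun h => hG.glue a j hc (hlow Z hZ) h⟩

lemma nonempty_away {k A : Type} [Field k] [CommRing A] [IsDomain A] [Algebra k A]
    [Algebra.FiniteType k A] {a : A} (ha : a ≠ 0) : Nonempty (aff k (Localization.Away a)).X := by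
  have : IsDomain (Localization.Away a) :=
    IsLocalization.isDomain_localization (powers_le_nonZeroDivisors_of_noZeroDivisors ha)
  exact ⟨genericPoint _⟩

lemma isIntegral_aff {k A : Type} [Field k] [CommRing A] [IsDomain A] [Algebra k A]
    [Algebra.FiniteType k A] : IsIntegral (aff k A).X := by
  change IsIntegral (Spec (CommRingCat.of A))
  infer_instance

section

variable {k : Type} [Field k]

lemma dimLE_hyV {d : ℕ} {g : MvPolynomial (Fin (d + 1 + 1)) k} (hg : g ≠ 0) :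
    (hyV g).DimLE (d + 1 : ℕ) := by
  apply dimLE_of_DL
  have h1 : DL k (MvPolynomial (Fin (d + 1 + 1)) k) (d + 1 + 1) :=
    (Asm.s_DLM k k 0 (d + 1 + 1) (dl_field k)).mono (by omega)
  exact Asm.s_DLR.2.2.2.2 k _ (d + 1) g hg h1

variable [Finite k]

lemma gg_hyV_zero {E : Type} [Field E] [CharZero E] {T : ∀ i : ℕ, Homology.{v} k E i}
    {hT : Full T} (hP : Pub2 T hT) (q : ℕ) : GG T (hyV (0 : MvPolynomial (Fin q) k)) := by
  refine (clsT_gg (ggc hP)).iso (A := MvPolynomial (Fin q) k) ?_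
    (fun i => (ppf_poly hP.toPub (T := T) q i).1)
  have h1 : Ideal.span {(0 : MvPolynomial (Fin q) k)} = ⊥ := by simp
  exact ((Ideal.quotientEquivAlgOfEq k h1).trans
    (AlgEquiv.quotientBot k (MvPolynomial (Fin q) k))).symm

lemma gg_hyV_one {E : Type} [Field E] [CharZero E] {T : ∀ i : ℕ, Homology.{v} k E i}
    {hT : Full T} (hP : Pub2 T hT) (q : ℕ) : GG T (hyV (1 : MvPolynomial (Fin q) k)) := by
  refine (clsT_gg (ggc hP)).triv _ ?_
  rw [Ideal.span_singleton_one]
  exact Ideal.Quotient.subsingleton_iff.mpr rfl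

/-- Each integral variety of dimension at most `d + 1` and a hypersurface. -/
theorem exists_hyp {d : ℕ} (X : Var k) (hX : IsIntegral X.X) (hd : X.DimLE (d + 1 : ℕ)) :
    ∃ g : MvPolynomial (Fin (d + 1 + 1)) k, g ≠ 0 ∧
      ∀ (E : Type) [Field E] [CharZero E] (T : ∀ i : ℕ, Homology.{v} k E i) (hT : Full T),
        Pub2 T hT → (∀ Y : Var k, Y.DimLE d → GG T Y) → (GG T X ↔ GG T (hyV g)) := by
  obtain ⟨A, i1, i2, i3, i4, j, hj⟩ := t_UAF k X
  have hgd : Algebra.trdeg k A ≤ ((d + 1 : ℕ) : Cardinal) := by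
    rw [← dim_generic_aff, hj]
    exact hd _
  obtain ⟨r, hr2, hr⟩ := Cardinal.exists_nat_eq_of_le_nat hgd
  rcases Nat.lt_or_ge d r with h1 | h1
  · obtain rfl : r = d + 1 := by omega
    obtain ⟨g, a, h, hdom, hh, ha, ⟨e⟩⟩ := t_UHB k A (d + 1) hr
    have hnA : Nonempty (aff k A).X := ⟨genericPoint _⟩
    have hdA : (aff k A).DimLE (d + 1 : ℕ) := dimLE_open j hd
    by_cases hg : g = 0
    · refine ⟨1, one_ne_zero, ?_⟩
      intro E _ _ T hT hP hlow
      have hG : GGC T := ggc hP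
      have h2 : GG T X := by
        rw [gg_open_iff hG hlow hX hd j hnA,
          gg_open_iff hG hlow isIntegral_aff hdA (opn (awayHom k a) (isOpenImmersion_away a))
            (nonempty_away ha)]
        have h3 : GG T (hyV g) := by
          subst hg
          exact gg_hyV_zero hP _
        exact hG.iso (viso e.symm) (hG.opn (opn (awayHom k h) (isOpenImmersion_away h)) h3)
      exact ⟨fun _ => gg_hyV_one hP _, fun _ => h2⟩
    · refine ⟨g, hg, ?_⟩
      intro E _ _ T hT hP hlow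
      have hG : GGC T := ggc hP
      rw [gg_open_iff hG hlow hX hd j hnA,
        gg_open_iff hG hlow isIntegral_aff hdA (opn (awayHom k a) (isOpenImmersion_away a))
          (nonempty_away ha),
        gg_open_iff hG hlow (isIntegral_aff (k := k)
          (A := MvPolynomial (Fin (d + 1 + 1)) k ⧸ Ideal.span {g})) (dimLE_hyV hg)
          (opn (awayHom k h) (isOpenImmersion_away h)) (nonempty_away hh)]
      exact ⟨hG.iso (viso e), hG.iso (viso e.symm)⟩
  · refine ⟨1, one_ne_zero, ?_⟩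
    intro E _ _ T hT hP hlow
    refine ⟨fun _ => gg_hyV_one hP _, fun _ => hlow _ fun x => ?_⟩
    refine (dim_le_of_specializes X (genericPoint_specializes x)).trans ?_
    rw [← hj, dim_generic_aff, hr]
    exact_mod_cast h1

/-- Each integral variety `X` of dimension at most `d + 1` and the zero set of `d + 3` quadratic forms
in an odd number of variables. -/
theorem each (h2 : (2 : k) ≠ 0) {d : ℕ} (X : Var k) (hX : IsIntegral X.X)
    (hd : X.DimLE (d + 1 : ℕ)) :
    ∃ (n : ℕ) (f : Fin (d + 1 + 1 + 1) → MvPolynomial (Fin (n + 1)) k), Odd (n + 1) ∧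
      (∀ j, (f j).IsHomogeneous 2) ∧ (gram (gen f)).det ≠ 0 ∧
      ∀ (E : Type) [Field E] [CharZero E] (T : ∀ i : ℕ, Homology.{v} k E i) (hT : Full T),
        Pub2 T hT → ((∀ Y : Var k, Y.DimLE d → Tate T Y) →
          (Tate T X ↔ Tate T (zer f)) ∧ ∀ (Y : Var k) (_ : ProjSub f Y), Tate T X ↔ Tate T Y) ∧
        (d ≤ 1 → (Tate T X ↔ ∀ i, Q1 (T i) (zer f)) ∧
          ∀ (Y : Var k) (_ : ProjSub f Y), Tate T X ↔ ∀ i, Q1 (T i) Y) := by
  obtain ⟨g, hg, hgX⟩ := exists_hyp.{v} X hX hd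
  obtain ⟨N, f, hr, hodd⟩ := exists_rep.{v} h2 g hg
  obtain ⟨n, rfl⟩ : ∃ n, N = n + 1 := by
    obtain ⟨s, hs⟩ := hr.odd
    exact ⟨2 * s, hs⟩
  refine ⟨n, f, hr.odd, hr.quad, hr.det, ?_⟩
  intro E _ _ T hT hP
  have key : (∀ Y : Var k, Y.DimLE d → Tate T Y) →
      (Tate T X ↔ Tate T (zer f)) ∧ ∀ (Y : Var k) (_ : ProjSub f Y), Tate T X ↔ Tate T Y := by
    intro hlow
    have hlow' : ∀ Y : Var k, Y.DimLE d → GG T Y := (tate_iff (T := T) _).mp hlow
    have h3 : Tate T X ↔ Tate T (zer f) := by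
      rw [← gg_iff, ← gg_iff, hgX E T hT hP hlow']
      exact gg_rep_iff hP h2 d hlow' g f hr hodd
    exact ⟨h3, fun Y S => h3.trans (tate_proj_iff hP f hr.quad S).symm⟩
  refine ⟨key, fun hd1 => ?_⟩
  have hlow : ∀ Y : Var k, Y.DimLE d → Tate T Y := fun Y hY =>
    tate_one hP Y fun y => (hY y).trans (by exact_mod_cast hd1)
  have hlowP : ∀ Y : Var k, Y.DimLE d → PPF T Y := fun Y hY =>
    ppf_of_dimLE_one hT hP.toPub Y fun y => (hY y).trans (by exact_mod_cast hd1)
  obtain ⟨h3, h4⟩ := key hlow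
  have h5 : Tate T X → PPF T (zer f) := by
    intro h
    have hlow' : ∀ Y : Var k, Y.DimLE d → GG T Y := (tate_iff (T := T) _).mp hlow
    have h6 : Tate T (hyV g) := (gg_iff _).mp ((hgX E T hT hP hlow').mp ((gg_iff _).mpr h))
    refine ppf_rep hP h2 d hlowP g f hr hodd (ppf_surface hP _ ?_ h6)
    exact fun y => (dimLE_hyV hg y).trans (by exact_mod_cast Nat.succ_le_succ hd1)
  refine ⟨⟨fun h i => q1_of_pf (T i) _ (h5 h i), fun h => h3.mpr fun i => ⟨(h i).2.1, (h i).2.2⟩⟩,
    fun Y S => ⟨fun h i => q1_of_pf (T i) _ (ppf_of_cone hP (ppf_field hP.toPub) f (fun _ => 2)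
      hr.quad (fun _ => by norm_num) (h5 h) S i),
      fun h => (h4 Y S).mpr fun i => ⟨(h i).2.1, (h i).2.2⟩⟩⟩

end

end QCV
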