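import Pool.Agent.QCV.U_FIN
import Pool.Agent.QCV.H_BLK

/-!
# QCV, block H: from the hypersurface `g = 0` to the quadric `g x_0 ^ 2 + u_1 v_1 + ... + u_s v_s = 0`
-/

set_option autoImplicit false

open Polynomial

namespace QCV

open CUB

section

variable (k : Type) [Field k]
  (P : ∀ (A : Type) [CommRing A] [Algebra k A] [Algebra.FiniteType k A], Prop)

/-- The punctured line. -/
lemma cls_away (hP : Cls0 k P)
    (hline : ∀ (A : Type) [CommRing A] [Algebra k A] [Algebra.FiniteType k A], P A → P A[X])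
    (D : Type) [CommRing D] [Algebra k D] [Algebra.FiniteType k D] (hD : P D) :
    P (Localization.Away (X : D[X])) := by
  have hs : Strat (k := k) (X : D[X]) (UHY.ev k D) (awayHom k (X : D[X])) :=
    ⟨UHY.ev_surj, UHY.ev_ker, isLocalization_awayHom _⟩
  exact hP.opn _ _ _ hs (hline D hD) hD

/-- Addition of hyperbolic planes. -/
lemma cls_hyp (hP : Cls0 k P)
    (hline : ∀ (A : Type) [CommRing A] [Algebra k A] [Algebra.FiniteType k A], P A → P A[X])
    (B : Type) [CommRing B] [Algebra k B] [Algebra.FiniteType k B] (n s : ℕ)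
    (φ : MvPolynomial (Fin n) B) (hB : ∀ m : ℕ, P (MvPolynomial (Fin m) B))
    (h : P (ER (fun _ : Fin 1 => φ))) : P (ER (fun _ : Fin 1 => hyp φ s)) := by
  induction s with
  | zero =>
    have h0 : Ideal.span (Set.range fun _ : Fin 1 => φ) =
        Ideal.span (Set.range fun _ : Fin 1 => (hyp φ 0 : MvPolynomial (Fin n) B)) := by
      rw [UHY.hyp_zero]
      rfl
    have e : (MvPolynomial (Fin n) B ⧸ Ideal.span (Set.range fun _ : Fin 1 => φ)) ≃ₐ[k]
        (MvPolynomial (Fin n) B ⧸
          Ideal.span (Set.range fun _ : Fin 1 => (hyp φ 0 : MvPolynomial (Fin n) B))) :=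
      Ideal.quotientEquivAlgOfEq k h0
    exact hP.iso e h
  | succ s ih =>
    obtain ⟨e⟩ := t_UHI k B n s φ
    refine hP.iso e.symm ?_
    obtain ⟨z', u', hs⟩ := Asm.s_LNR k (MvPolynomial (Fin (n + 2 * s)) B)[X]
      (Localization.Away (X : (MvPolynomial (Fin (n + 2 * s)) B)[X])) X (C (hyp φ s))
      (awayHom k X) (isLocalization_awayHom X)
    refine hP.glue _ z' u' hs ?_ ?_
    · obtain ⟨e'⟩ := UHY.quot_iso k (MvPolynomial (Fin (n + 2 * s)) B) (hyp φ s)
      exact hline _ (hP.iso e'.symm ih)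
    · exact cls_away k P hP hline _ (hB _)

/-- The value at zero of the variable. -/
noncomputable def zv (B : Type) [CommRing B] [Algebra k B] (g : B) :
    ER (fun _ : Fin 1 => (MvPolynomial.C g * MvPolynomial.X 0 ^ 2 : MvPolynomial (Fin 1) B)) →ₐ[k] B :=
  Ideal.Quotient.liftₐ _ ((MvPolynomial.aeval (fun _ => (0 : B))).restrictScalars k) (by
    intro a ha
    have h1 : Ideal.span (Set.range fun _ : Fin 1 =>
        (MvPolynomial.C g * MvPolynomial.X 0 ^ 2 : MvPolynomial (Fin 1) B)) ≤
        RingHom.ker ((MvPolynomial.aeval (fun _ : Fin 1 => (0 : B))).toRingHom) := by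
      rw [Ideal.span_le]
      rintro _ ⟨i, rfl⟩
      change MvPolynomial.aeval (fun _ : Fin 1 => (0 : B))
        (MvPolynomial.C g * MvPolynomial.X 0 ^ 2) = 0
      rw [map_mul, map_pow, MvPolynomial.aeval_X]
      ring
    exact h1 ha)

lemma zv_mk (B : Type) [CommRing B] [Algebra k B] (g : B) (F : MvPolynomial (Fin 1) B) :
    zv k B g (Ideal.Quotient.mk _ F) = MvPolynomial.aeval (fun _ : Fin 1 => (0 : B)) F := rfl

lemma aeval_zero_dvd {B : Type} [CommRing B] (F : MvPolynomial (Fin 1) B)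
    (h : MvPolynomial.aeval (fun _ : Fin 1 => (0 : B)) F = 0) :
    (MvPolynomial.X 0 : MvPolynomial (Fin 1) B) ∣ F := by
  have h1 : ∀ F : MvPolynomial (Fin 1) B, (MvPolynomial.X 0 : MvPolynomial (Fin 1) B) ∣
      F - MvPolynomial.C (MvPolynomial.aeval (fun _ : Fin 1 => (0 : B)) F) := by
    intro F
    induction F using MvPolynomial.induction_on with
    | C a => simp
    | add p q hp hq =>
      have := dvd_add hp hq
      rw [map_add, map_add]
      convert this using 1
      ring
    | mul_X p i hp =>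
      obtain rfl : i = 0 := Subsingleton.elim _ _
      rw [map_mul, MvPolynomial.aeval_X, mul_zero, map_zero, sub_zero]
      exact dvd_mul_left _ _
  have h2 := h1 F
  rwa [h, map_zero, sub_zero] at h2

/-- From `g = 0` to `g x_0 ^ 2 = 0`. -/
lemma cls_sq (hP : Cls0 k P)
    (hline : ∀ (A : Type) [CommRing A] [Algebra k A] [Algebra.FiniteType k A], P A → P A[X])
    (B : Type) [CommRing B] [Algebra k B] [Algebra.FiniteType k B] (g : B) (hB : P B)
    (h : P (B ⧸ Ideal.span {g})) :
    P (ER (fun _ : Fin 1 => (MvPolynomial.C g * MvPolynomial.X 0 ^ 2 : MvPolynomial (Fin 1) B))) := by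
  obtain ⟨u, hu⟩ := t_UGA k B g
  have hs : Strat (k := k) (Ideal.Quotient.mk _ (MvPolynomial.X 0)) (zv k B g) u := by
    refine ⟨?_, ?_, hu⟩
    · intro b
      refine ⟨Ideal.Quotient.mk _ (MvPolynomial.C b), ?_⟩
      rw [zv_mk, MvPolynomial.aeval_C]
      rfl
    · apply le_antisymm
      · intro a ha
        obtain ⟨F, rfl⟩ := Ideal.Quotient.mk_surjective a
        have h1 : MvPolynomial.aeval (fun _ : Fin 1 => (0 : B)) F = 0 := ha
        obtain ⟨G, rfl⟩ := aeval_zero_dvd F h1
        rw [map_mul]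
        exact Ideal.mul_mem_right _ _ (Ideal.subset_span rfl)
      · rw [Ideal.span_le]
        rintro _ rfl
        change zv k B g (Ideal.Quotient.mk _ (MvPolynomial.X 0)) = 0
        rw [zv_mk, MvPolynomial.aeval_X]
  exact hP.glue _ _ _ hs hB (cls_away k P hP hline _ h)

end

end QCV
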