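import Pool.Agent.QCV.U_UST

/-!
# QCV, block H: the stratification of the generic member, for a class of the type `Cls0`
-/

set_option autoImplicit false

open Polynomial

namespace QCV

open CUB

/-- **UST2**: as `S_UST`, for a class of the type `Cls0`. -/
theorem t_UST2 (k : Type) [Field k]
    (P : ∀ (A : Type) [CommRing A] [Algebra k A] [Algebra.FiniteType k A], Prop) (hP : Cls0 k P)
    (hline : ∀ (A : Type) [CommRing A] [Algebra k A] [Algebra.FiniteType k A], P A → P A[X])
    (m : ℕ) : ∀ (S : Type) [CommRing S] [Algebra k S] [Algebra.FiniteType k S]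
      (f : Fin (m + 1) → S),
      (∀ j ≤ m, P (S ⧸ Ideal.span (f '' {l : Fin (m + 1) | 1 ≤ l.1 ∧ l.1 ≤ j}))) →
      P (S ⧸ Ideal.span (Set.range f)) → P (MvPolynomial (Fin m) S ⧸ Ideal.span {fs f}) := by
  induction m with
  | zero =>
    intro S _ _ _ f _ hr
    have h1 : Ideal.span (Set.range f) = Ideal.span {f 0} := by
      congr 1
      ext x
      constructor
      · rintro ⟨j, rfl⟩
        rw [Set.mem_singleton_iff, show j = 0 from Fin.eq_zero j]
      · rintro rfl
        exact ⟨0, rfl⟩
    let φ : MvPolynomial (Fin 0) S →ₐ[k] S :=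
      ((MvPolynomial.isEmptyAlgEquiv S (Fin 0)).restrictScalars k).toAlgHom
    have hφi : Function.Injective φ :=
      ((MvPolynomial.isEmptyAlgEquiv S (Fin 0)).restrictScalars k).injective
    obtain ⟨e'⟩ := ust_iso φ
      ((MvPolynomial.isEmptyAlgEquiv S (Fin 0)).restrictScalars k).surjective ∅ {fs f} {fs f}
      (Set.range f) (by
        rw [Ideal.span_empty]
        exact (RingHom.injective_iff_ker_eq_bot φ.toRingHom).1 hφi) (by
        rw [Set.image_singleton]
        have h2 : φ (fs f) = f 0 := by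
          unfold fs
          rw [Finset.univ_eq_empty, Finset.sum_empty, add_zero]
          exact (MvPolynomial.isEmptyAlgEquiv S (Fin 0)).commutes (f 0)
        rw [h2]
        ext x
        constructor
        · rintro rfl
          exact ⟨0, rfl⟩
        · rintro ⟨j, rfl⟩
          rw [Set.mem_singleton_iff, show j = 0 from Fin.eq_zero j]) (Set.empty_union _)
    exact hP.iso e'.symm hr
  | succ m ih =>
    intro S _ _ _ f hj hr
    -- `P S`
    have hS : P S := by
      have h1 := hj 0 (Nat.zero_le _)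
      have h2 : Ideal.span (f '' {l : Fin (m + 1 + 1) | 1 ≤ l.1 ∧ l.1 ≤ 0}) = ⊥ := by
        have h3 : {l : Fin (m + 1 + 1) | 1 ≤ l.1 ∧ l.1 ≤ 0} = ∅ := by
          ext l
          simp only [Set.mem_ofPred_eq, Set.mem_empty_iff_false, iff_false]
          omega
        rw [h3, Set.image_empty, Ideal.span_empty]
      exact hP.iso ((Ideal.quotientEquivAlgOfEq k h2).trans (AlgEquiv.quotientBot k S)) h1
    have hpoly : ∀ (A : Type) [CommRing A] [Algebra k A] [Algebra.FiniteType k A] (n : ℕ),
        P A → P (MvPolynomial (Fin n) A) := by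
      intro A _ _ _ n hA
      induction n with
      | zero =>
        exact hP.iso ((MvPolynomial.isEmptyAlgEquiv A (Fin 0)).restrictScalars k).symm hA
      | succ n ih2 =>
        exact hP.iso ((MvPolynomial.finSuccEquiv A n).restrictScalars k).symm (hline _ ih2)
    have hS' : P (MvPolynomial (Fin m) S) := hpoly S m hS
    let g : MvPolynomial (Fin m) S := MvPolynomial.C (f 1)
    let h : MvPolynomial (Fin m) S := fs (usf f)
    -- the closed part
    let φ₁ : S →ₐ[k] S ⧸ Ideal.span {f 1} := Ideal.Quotient.mkₐ k (Ideal.span {f 1})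
    have hφ₁ : Function.Surjective φ₁ := Ideal.Quotient.mkₐ_surjective k _
    have hk₁ : RingHom.ker φ₁.toRingHom = Ideal.span {f 1} := Ideal.mk_ker
    have hS1 : P (S ⧸ Ideal.span {f 1}) := by
      have h1 := hj 1 (by omega)
      have h3 : f '' {l : Fin (m + 1 + 1) | 1 ≤ l.1 ∧ l.1 ≤ 1} = {f 1} := by
        ext x
        constructor
        · rintro ⟨l, ⟨hl1, hl2⟩, rfl⟩
          have h4 : l = 1 := Fin.ext (by
            rw [Fin.val_one]
            omega)
          rw [h4]
          rfl
        · rintro rfl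
          exact ⟨1, ⟨by simp, by simp⟩, rfl⟩
      exact hP.iso (Ideal.quotientEquivAlgOfEq k (congrArg Ideal.span h3)) h1
    have hU : P (Localization.Away g) := by
      let φ : MvPolynomial (Fin m) S →ₐ[k] MvPolynomial (Fin m) (S ⧸ Ideal.span {f 1}) :=
        MvPolynomial.mapAlgHom φ₁
      have hφ : Function.Surjective φ := MvPolynomial.map_surjective φ₁.toRingHom hφ₁
      have hφk : RingHom.ker φ.toRingHom = Ideal.span {g} := by
        have h1 : RingHom.ker φ.toRingHom = Ideal.map MvPolynomial.C (RingHom.ker φ₁.toRingHom) :=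
          MvPolynomial.ker_map φ₁.toRingHom
        rw [h1, hk₁, Ideal.map_span, Set.image_singleton]
      exact hP.opn g φ (awayHom k g) ⟨hφ, hφk, isLocalization_awayHom g⟩ hS' (hpoly _ m hS1)
    have hset : ∀ j : ℕ, ({f 1} : Set S) ∪ usf f '' {l : Fin (m + 1) | 1 ≤ l.1 ∧ l.1 ≤ j} =
        f '' {l : Fin (m + 1 + 1) | 1 ≤ l.1 ∧ l.1 ≤ j + 1} := by
      intro j
      ext x
      constructor
      · rintro (rfl | ⟨l, ⟨hl1, hl2⟩, rfl⟩)
        · exact ⟨1, ⟨by simp, by simp⟩, rfl⟩
        · obtain ⟨l', rfl⟩ : ∃ l' : Fin m, l = l'.succ := by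
            refine ⟨l.pred ?_, (Fin.succ_pred _ _).symm⟩
            rintro rfl
            simp at hl1
          refine ⟨l'.succ.succ, ⟨?_, ?_⟩, (usf_succ f l').symm⟩
          · simp only [Fin.val_succ]
            omega
          · simp only [Fin.val_succ] at hl2 ⊢
            omega
      · rintro ⟨l, ⟨hl1, hl2⟩, rfl⟩
        obtain ⟨l', rfl⟩ : ∃ l' : Fin (m + 1), l = l'.succ := by
          refine ⟨l.pred ?_, (Fin.succ_pred _ _).symm⟩
          rintro rfl
          simp at hl1
        rcases Fin.eq_zero_or_eq_succ l' with rfl | ⟨l'', rfl⟩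
        · left
          rfl
        · right
          refine ⟨l''.succ, ⟨?_, ?_⟩, usf_succ f l''⟩
          · simp only [Fin.val_succ]
            omega
          · simp only [Fin.val_succ] at hl2 ⊢
            omega
    have hset2 : ({f 1} : Set S) ∪ Set.range (usf f) = Set.range f := by
      ext x
      constructor
      · rintro (rfl | ⟨l, rfl⟩)
        · exact ⟨1, rfl⟩
        · rcases Fin.eq_zero_or_eq_succ l with rfl | ⟨l', rfl⟩
          · exact ⟨0, rfl⟩
          · exact ⟨l'.succ.succ, rfl⟩
      · rintro ⟨l, rfl⟩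
        rcases Fin.eq_zero_or_eq_succ l with rfl | ⟨l', rfl⟩
        · right
          exact ⟨0, rfl⟩
        · rcases Fin.eq_zero_or_eq_succ l' with rfl | ⟨l'', rfl⟩
          · left
            rfl
          · right
            exact ⟨l''.succ, rfl⟩
    have hZ1 : P (MvPolynomial (Fin m) (S ⧸ Ideal.span {f 1}) ⧸
        Ideal.span {fs (fun j => φ₁ (usf f j))}) := by
      refine ih (S ⧸ Ideal.span {f 1}) (fun j => φ₁ (usf f j)) ?_ ?_
      · intro j hjm
        obtain ⟨e⟩ := ust_iso φ₁ hφ₁ {f 1} (usf f '' {l : Fin (m + 1) | 1 ≤ l.1 ∧ l.1 ≤ j}) _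
          ((fun j => φ₁ (usf f j)) '' {l : Fin (m + 1) | 1 ≤ l.1 ∧ l.1 ≤ j}) hk₁
          (by rw [Set.image_image]) (hset j)
        exact hP.iso e (hj (j + 1) (by omega))
      · obtain ⟨e⟩ := ust_iso φ₁ hφ₁ {f 1} (Set.range (usf f)) _
          (Set.range fun j => φ₁ (usf f j)) hk₁ (by rw [← Set.range_comp]; rfl) hset2
        exact hP.iso e hr
    have hZ : P (MvPolynomial (Fin m) S ⧸ Ideal.span {g, h}) := by
      let φ : MvPolynomial (Fin m) S →ₐ[k] MvPolynomial (Fin m) (S ⧸ Ideal.span {f 1}) :=
        MvPolynomial.mapAlgHom φ₁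
      have hφ : Function.Surjective φ := MvPolynomial.map_surjective φ₁.toRingHom hφ₁
      have hφk : RingHom.ker φ.toRingHom = Ideal.span {g} := by
        have h1 : RingHom.ker φ.toRingHom = Ideal.map MvPolynomial.C (RingHom.ker φ₁.toRingHom) :=
          MvPolynomial.ker_map φ₁.toRingHom
        rw [h1, hk₁, Ideal.map_span, Set.image_singleton]
      have hφh : φ h = fs (fun j => φ₁ (usf f j)) := by
        change MvPolynomial.map φ₁.toRingHom (fs (usf f)) = _
        unfold fs
        simp only [map_add, map_sum, map_mul, MvPolynomial.map_C, MvPolynomial.map_X]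
        rfl
      obtain ⟨e⟩ := ust_iso φ hφ {g} {h} {g, h} {fs (fun j => φ₁ (usf f j))} hφk
        (by rw [Set.image_singleton, hφh]) (Set.singleton_union)
      exact hP.iso e.symm hZ1
    obtain ⟨z', u', hs⟩ := t_LNR k (MvPolynomial (Fin m) S) (Localization.Away g) g h (awayHom k g)
      (isLocalization_awayHom g)
    have hmain : P ((MvPolynomial (Fin m) S)[X] ⧸ Ideal.span {C g * X + C h}) :=
      hP.glue _ z' u' hs (hline _ hZ) hU
    let φ₂ : MvPolynomial (Fin (m + 1)) S →ₐ[k] (MvPolynomial (Fin m) S)[X] :=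
      ((MvPolynomial.finSuccEquiv S m).restrictScalars k).toAlgHom
    have hφ₂i : Function.Injective φ₂ :=
      ((MvPolynomial.finSuccEquiv S m).restrictScalars k).injective
    obtain ⟨e⟩ := ust_iso φ₂ ((MvPolynomial.finSuccEquiv S m).restrictScalars k).surjective
      ∅ {fs f} {fs f} {C g * X + C h}
      (by
        rw [Ideal.span_empty]
        exact (RingHom.injective_iff_ker_eq_bot φ₂.toRingHom).1 hφ₂i)
      (by
        rw [Set.image_singleton]
        exact congrArg _ (ust_fs f)) (Set.empty_union _)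
    exact hP.iso e.symm hmain

end QCV
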