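import Pool.Agent.QCV.StO

/-!
# QCV, block O, module OKER: cycles on a double cover with push-forward zero
-/

set_option autoImplicit false

open CategoryTheory AlgebraicGeometry Polynomial

namespace QCV

open Pool.Agent.Lib_helper55.Beil Pool.Agent.Lib_helper66.OneP CUB

universe v

namespace OKER

/-- evaluation of a function at a point of an affine scheme -/
noncomputable def ev (R : CommRingCat.{0}) (x : Spec R) : R →+* (Spec R).residueField x :=
  ((Scheme.ΓSpecIso R).inv ≫ (Spec R).Γevaluation x).hom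

set_option backward.isDefEq.respectTransparency.types false in
theorem ev_frac (R : CommRingCat.{0}) (x : Spec R) (z : (Spec R).residueField x) :
    ∃ b s : R, ev R x s ≠ 0 ∧ z * ev R x s = ev R x b := by
  have hev : ev R x = (CommRingCat.ofHom (algebraMap R x.asIdeal.ResidueField) ≫
      (Scheme.Spec.residueFieldIso R x).inv).hom := by
    rw [Scheme.Spec.algebraMap_residueFieldIso_inv]
    rfl
  obtain ⟨⟨b, s⟩, h⟩ := IsLocalization.surj (nonZeroDivisors (R ⧸ x.asIdeal))
    ((Scheme.Spec.residueFieldIso R x).hom.hom z)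
  obtain ⟨b, rfl⟩ := Ideal.Quotient.mk_surjective b
  obtain ⟨s, hs⟩ := s
  obtain ⟨s, rfl⟩ := Ideal.Quotient.mk_surjective s
  have hinv : ∀ w, (Scheme.Spec.residueFieldIso R x).inv.hom
      ((Scheme.Spec.residueFieldIso R x).hom.hom w) = w := by
    intro w
    have := congrArg (fun g => g.hom w) (Scheme.Spec.residueFieldIso R x).hom_inv_id
    exact this
  have hinv2 : ∀ w, (Scheme.Spec.residueFieldIso R x).hom.hom
      ((Scheme.Spec.residueFieldIso R x).inv.hom w) = w := by
    intro w
    have := congrArg (fun g => g.hom w) (Scheme.Spec.residueFieldIso R x).inv_hom_id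
    exact this
  have hs' : algebraMap R x.asIdeal.ResidueField s ≠ 0 := by
    intro h0
    rw [Ideal.algebraMap_residueField_eq_zero] at h0
    rw [(Ideal.Quotient.eq_zero_iff_mem).2 h0] at hs
    exact nonZeroDivisors.ne_zero hs rfl
  refine ⟨b, s, ?_, ?_⟩
  · rw [hev]
    intro h0
    apply hs'
    have h1 := congrArg (Scheme.Spec.residueFieldIso R x).hom.hom h0
    rw [map_zero] at h1
    rw [← h1]
    exact (hinv2 _).symm
  · rw [hev]
    have h1 := congrArg (Scheme.Spec.residueFieldIso R x).inv.hom h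
    rw [map_mul, hinv] at h1
    exact h1

/-- a field which consists of the fractions of a finite algebra is finite -/
theorem fin_field {A B F K : Type} [CommRing A] [CommRing B] [Algebra A B] [Module.Finite A B]
    [Field F] [Field K] [Algebra F K] (ψ : A →+* F) (φ : B →+* K)
    (hc : ∀ a, algebraMap F K (ψ a) = φ (algebraMap A B a))
    (hf : ∀ z : K, ∃ b s : B, φ s ≠ 0 ∧ z * φ s = φ b) : Module.Finite F K := by
  obtain ⟨G, hG⟩ := (inferInstance : Module.Finite A B).fg_top
  have hint : ∀ b : B, IsIntegral F (φ b) := by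
    intro b
    obtain ⟨p, hp, hpb⟩ := (Algebra.IsIntegral.isIntegral (R := A) b : IsIntegral A b)
    refine ⟨p.map ψ, hp.map ψ, ?_⟩
    rw [Polynomial.eval₂_map]
    have h1 : (algebraMap F K).comp ψ = φ.comp (algebraMap A B) := RingHom.ext hc
    rw [h1, ← Polynomial.hom_eval₂, hpb, map_zero]
  have hmem : ∀ b : B, φ b ∈ Algebra.adjoin F (φ '' (G : Set B)) := by
    intro b
    have hb : b ∈ Submodule.span A (G : Set B) := by
      rw [hG]
      trivial
    induction hb using Submodule.span_induction with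
    | mem x hx => exact Algebra.subset_adjoin ⟨x, hx, rfl⟩
    | zero => rw [map_zero]; exact Subalgebra.zero_mem _
    | add x y _ _ hx hy => rw [map_add]; exact Subalgebra.add_mem _ hx hy
    | smul a x _ hx =>
      rw [Algebra.smul_def, map_mul, ← hc]
      exact Subalgebra.mul_mem _ (Subalgebra.algebraMap_mem _ _) hx
  have htop : Algebra.adjoin F (φ '' (G : Set B)) = ⊤ := by
    refine top_le_iff.1 fun z _ => ?_
    obtain ⟨b, s, hs, hz⟩ := hf z
    have h1 : z = φ b * (φ s)⁻¹ := by
      rw [← hz, mul_assoc, mul_inv_cancel₀ hs, mul_one]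
    rw [h1]
    refine Subalgebra.mul_mem _ (hmem b) ?_
    exact Subalgebra.inv_mem_of_algebraic (Algebra.adjoin F (φ '' (G : Set B)))
      (x := ⟨φ s, hmem s⟩) (hint s).isAlgebraic
  have hfg : (Algebra.adjoin F (φ '' (G : Set B))).toSubmodule.FG := by
    apply fg_adjoin_of_finite (G.finite_toSet.image φ)
    rintro _ ⟨x, _, rfl⟩
    exact hint x
  rw [htop] at hfg
  exact ⟨hfg⟩

/-- the degree of a finite morphism at a point is not zero -/
theorem deg_ne {k : Type} [Field k] {A : Type} [CommRing A] [Algebra k A]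
    [Algebra.FiniteType k A] (b c : A) (x : (aff k (Dr A b c)).X) :
    (dbl b c k).deg x ≠ 0 := by
  unfold PrMor.deg
  let : Algebra ((aff k A).X.residueField ((dbl b c k).g x))
    ((aff k (Dr A b c)).X.residueField x) := ((dbl b c k).g.residueFieldMap x).hom.toAlgebra
  have hfin : Module.Finite ((aff k A).X.residueField ((dbl b c k).g x))
      ((aff k (Dr A b c)).X.residueField x) := by
    refine fin_field (A := A) (B := Dr A b c) (ev (CommRingCat.of A) ((dbl b c k).g x))
      (ev (CommRingCat.of (Dr A b c)) x) ?_ ?_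
    · intro a
      have h1 := Scheme.Γevaluation_naturality_apply (dbl b c k).g x
        ((Scheme.ΓSpecIso (CommRingCat.of A)).inv.hom a)
      refine h1.trans ?_
      have h2 := Scheme.ΓSpecIso_inv_naturality (CommRingCat.ofHom (drHom b c k).toRingHom)
      have h3 := congrArg (fun g => g.hom a) h2
      refine congrArg _ (Eq.trans ?_ h3.symm)
      rfl
    · intro z
      exact ev_frac _ _ z
  have := Module.finrank_pos (R := (aff k A).X.residueField ((dbl b c k).g x))
    (M := (aff k (Dr A b c)).X.residueField x)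
  exact this.ne'

/-- coordinates in a quadratic extension -/
theorem coord {A : Type} [CommRing A] (b c : A) (x : Dr A b c) :
    ∃ α β : A, x = algebraMap A (Dr A b c) α + algebraMap A (Dr A b c) β * rt b c := by
  induction x using AdjoinRoot.induction_on with
  | ih p =>
    induction p using Polynomial.induction_on with
    | C a =>
      refine ⟨a, 0, ?_⟩
      rw [map_zero, zero_mul, add_zero]
      rfl
    | add p q hp hq =>
      obtain ⟨α, β, h1⟩ := hp
      obtain ⟨γ, δ, h2⟩ := hq
      refine ⟨α + γ, β + δ, ?_⟩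
      rw [map_add, h1, h2, map_add, map_add]
      ring
    | monomial n a h =>
      obtain ⟨α, β, h1⟩ := h
      refine ⟨- (β * c), α - β * b, ?_⟩
      rw [pow_succ, ← mul_assoc, map_mul, h1]
      have h2 : AdjoinRoot.mk (dpoly b c) X = rt b c := rfl
      rw [h2, map_neg, map_mul, map_sub, map_mul]
      linear_combination (algebraMap A (Dr A b c) β) * rt_eq b c

theorem norm_mem {A : Type} [CommRing A] (b c : A) (x : Dr A b c) :
    ∃ a : A, x * dinvHom b c x = algebraMap A (Dr A b c) a := by
  obtain ⟨α, β, rfl⟩ := coord b c x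
  refine ⟨α ^ 2 - α * β * b + β ^ 2 * c, ?_⟩
  rw [map_add, map_mul, dinvHom_of, dinvHom_of, dinvHom_rt]
  simp only [map_add, map_sub, map_mul, map_pow]
  linear_combination - (algebraMap A (Dr A b c) β) ^ 2 * rt_eq b c

theorem primes {A : Type} [CommRing A] (b c : A) (q q' : PrimeSpectrum (Dr A b c))
    (h : q.asIdeal.comap (algebraMap A (Dr A b c)) = q'.asIdeal.comap (algebraMap A (Dr A b c))) :
    q' = q ∨ q' = PrimeSpectrum.comap (dinvHom b c) q := by
  have hcom : ∀ a : A, dinvHom b c (algebraMap A (Dr A b c) a) = algebraMap A (Dr A b c) a :=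
    dinvHom_of b c
  have hsub : (q'.asIdeal : Set (Dr A b c)) ⊆
      (q.asIdeal : Set (Dr A b c)) ∪ (q.asIdeal.comap (dinvHom b c) : Set (Dr A b c)) := by
    intro x hx
    obtain ⟨a, ha⟩ := norm_mem b c x
    have h1 : algebraMap A (Dr A b c) a ∈ q'.asIdeal := by
      rw [← ha]
      exact Ideal.mul_mem_right _ _ hx
    have h2 : algebraMap A (Dr A b c) a ∈ q.asIdeal := by
      have h3 : a ∈ q'.asIdeal.comap (algebraMap A (Dr A b c)) := h1
      rw [← h] at h3
      exact h3
    rw [← ha] at h2
    rcases q.2.mem_or_mem h2 with h4 | h4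
    · exact Or.inl h4
    · exact Or.inr h4
  have hinc : ∀ q'' : PrimeSpectrum (Dr A b c), q'.asIdeal ≤ q''.asIdeal →
      q''.asIdeal.comap (algebraMap A (Dr A b c)) = q'.asIdeal.comap (algebraMap A (Dr A b c)) →
      q' = q'' := by
    intro q'' hle he
    rcases hle.lt_or_eq with hlt | heq
    · have := Ideal.IsIntegral.comap_lt_comap (R := A) hlt
      exact absurd he this.ne'
    · exact PrimeSpectrum.ext heq
  rcases (Ideal.subset_union).1 hsub with h1 | h1
  · exact Or.inl (hinc q h1 h)
  · refine Or.inr (hinc (PrimeSpectrum.comap (dinvHom b c) q) h1 ?_)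
    rw [← h]
    ext a
    change dinvHom b c (algebraMap A (Dr A b c) a) ∈ q.asIdeal ↔ algebraMap A (Dr A b c) a ∈ q.asIdeal
    rw [hcom]

section

variable {k : Type} [Field k] {A : Type} [CommRing A] [Algebra k A] [Algebra.FiniteType k A]
  (b c : A)

theorem tau_f : (autc (dinv b c k)).g ≫ (dbl b c k).g = (dbl b c k).g := by
  change Spec.map _ ≫ Spec.map _ = Spec.map _
  rw [← Spec.map_comp, ← CommRingCat.ofHom_comp]
  congr 2
  ext a
  exact dinv_of b c k a

theorem tau_tau : (autc (dinv b c k)).g ≫ (autc (dinv b c k)).g = 𝟙 _ := by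
  change Spec.map _ ≫ Spec.map _ = 𝟙 (Spec _)
  rw [← Spec.map_comp, ← CommRingCat.ofHom_comp, ← Spec.map_id]
  congr 1
  refine CommRingCat.hom_ext (RingHom.ext fun a => ?_)
  exact dinv_dinv b c k a

theorem f_tau_pt (q : (aff k (Dr A b c)).X) :
    (dbl b c k).g ((autc (dinv b c k)).g q) = (dbl b c k).g q := by
  have h := congrArg (fun g : (aff k (Dr A b c)).X ⟶ (aff k A).X => g q) (tau_f (k := k) b c)
  exact h

theorem tau_tau_pt (q : (aff k (Dr A b c)).X) :
    (autc (dinv b c k)).g ((autc (dinv b c k)).g q) = q := by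
  have h := congrArg (fun g : (aff k (Dr A b c)).X ⟶ (aff k (Dr A b c)).X => g q)
    (tau_tau (k := k) b c)
  exact h

theorem deg_tau (q : (aff k (Dr A b c)).X) :
    (dbl b c k).deg ((autc (dinv b c k)).g q) = (dbl b c k).deg q := by
  have h1 := PFC.deg_comp (clPr (autc (dinv b c k))) (dbl b c k) (dbl b c k) (tau_f b c) q
  have h2 := PFC.deg_closed (autc (dinv b c k)) (clPr (autc (dinv b c k))) rfl q
  rw [h2, mul_one] at h1
  exact h1.symm

theorem fibre (q q' : (aff k (Dr A b c)).X) (h : (dbl b c k).g q' = (dbl b c k).g q) :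
    q' = q ∨ q' = (autc (dinv b c k)).g q := by
  have h1 := primes b c (show PrimeSpectrum (Dr A b c) from q)
    (show PrimeSpectrum (Dr A b c) from q')
    (congrArg (fun p : PrimeSpectrum A => p.asIdeal) h.symm)
  exact h1

end

end OKER

open OKER in
theorem t_OKER : S_OKER := by
  classical
  intro k E _ _ _ A _ _ _ b c i z hz
  have hinv : ∀ q : Pts i (aff k (Dr A b c)),
      ptsMap i (autc (dinv b c k)) (ptsMap i (autc (dinv b c k)) q) = q :=
    fun q => Subtype.ext (tau_tau_pt b c q.1)
  have hinj : Function.Injective (ptsMap i (autc (dinv b c k))) :=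
    Function.LeftInverse.injective (g := ptsMap i (autc (dinv b c k))) hinv
  refine Finsupp.ext fun q => ?_
  have hp : pushCyc (autc (dinv b c k)) z q = z (ptsMap i (autc (dinv b c k)) q) := by
    unfold pushCyc
    conv_lhs => rw [← hinv q]
    exact Finsupp.mapDomain_apply hinj z _
  rw [Finsupp.add_apply, hp, Finsupp.zero_apply]
  have hd : (aff k A).dim ((dbl b c k).g q.1) = i := (dim_dbl b c q.1).trans q.2
  obtain ⟨g, hg⟩ : ∃ g : Pts i (aff k (Dr A b c)) → E, g = fun x =>
      (if (dbl b c k).g x.1 = (dbl b c k).g q.1 then ((dbl b c k).deg x.1 : E) else 0) := ⟨_, rfl⟩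
  have h0 : (0 : E) = z.sum fun x e => e * g x := by
    have h := (CUB.Asm2.s_PFC.{0}).2.2.2.2.2 k E i _ _ (dbl b c k) z ⟨(dbl b c k).g q.1, hd⟩
    rw [hz] at h
    rw [hg]
    exact h
  have hdeg : ((dbl b c k).deg q.1 : E) ≠ 0 := Nat.cast_ne_zero.2 (deg_ne b c q.1)
  have g1 : g q = (dbl b c k).deg q.1 := by
    rw [hg]
    exact if_pos rfl
  have g2 : g (ptsMap i (autc (dinv b c k)) q) = (dbl b c k).deg q.1 := by
    rw [hg]
    refine (if_pos (f_tau_pt b c q.1)).trans ?_
    exact congrArg _ (deg_tau b c q.1)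
  have g3 : ∀ x, x ≠ q → x ≠ ptsMap i (autc (dinv b c k)) q → g x = 0 := by
    intro x h1 h2
    rw [hg]
    refine if_neg fun h3 => ?_
    rcases fibre b c q.1 x.1 h3 with h4 | h4
    · exact h1 (Subtype.ext h4)
    · exact h2 (Subtype.ext h4)
  rw [Finsupp.sum_of_support_subset z
    (s := z.support ∪ {q, ptsMap i (autc (dinv b c k)) q}) Finset.subset_union_left
    (fun x e => e * g x) (fun x _ => zero_mul (g x)),
    ← Finset.sum_subset (s₁ := {q, ptsMap i (autc (dinv b c k)) q})
    Finset.subset_union_right] at h0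
  · by_cases hq : q = ptsMap i (autc (dinv b c k)) q
    · rw [← hq, Finset.pair_eq_singleton, Finset.sum_singleton, g1] at h0
      rcases mul_eq_zero.1 h0.symm with h1 | h1
      · rw [← hq, h1, add_zero]
      · exact absurd h1 hdeg
    · rw [Finset.sum_pair hq, g1, g2, ← add_mul] at h0
      rcases mul_eq_zero.1 h0.symm with h1 | h1
      · exact h1
      · exact absurd h1 hdeg
  · intro x _ hx
    rw [Finset.mem_insert, Finset.mem_singleton, not_or] at hx
    rw [g3 x hx.1 hx.2, mul_zero]

end QCV
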