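import Pool.Agent.QCV.StP
import Pool.Agent.QCV.R_ELI

/-!
# QCV: the standard charts of projective space and dehomogenisation
-/

set_option autoImplicit false

open CategoryTheory AlgebraicGeometry HomogeneousLocalization

namespace QCV

namespace PRA

attribute [local instance] MvPolynomial.gradedAlgebra

variable {R : Type} [CommRing R] {n : ℕ} (l : Fin (n + 1))

/-- the polynomial ring -/
abbrev A (R : Type) [CommRing R] (n : ℕ) : Type := MvPolynomial (Fin (n + 1)) R

lemma X_mem (j : Fin (n + 1)) : (MvPolynomial.X j : A R n) ∈ gr R n 1 :=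
  MvPolynomial.isHomogeneous_X _ _

/-- the chart ring -/
abbrev S (R : Type) [CommRing R] {n : ℕ} (l : Fin (n + 1)) : Type :=
  Away (gr R n) (MvPolynomial.X l : A R n)

/-- the localisation -/
abbrev L (R : Type) [CommRing R] {n : ℕ} (l : Fin (n + 1)) : Type :=
  Localization.Away (MvPolynomial.X l : A R n)

/-- the localisation map -/
noncomputable def loc : A R n →+* L R l := algebraMap _ _

/-- the inclusion of the scalars -/
noncomputable def sc : R →+* S R l :=
  (fromZeroRingHom (gr R n) _).comp (algebraMap R (gr R n 0))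

lemma val_sc (c : R) : (sc l c).val = loc l (MvPolynomial.C c) := by
  change Localization.mk ((algebraMap R (gr R n 0) c : gr R n 0) : A R n) 1 = _
  rw [Localization.mk_one_eq_algebraMap]
  rfl

/-- the coordinate `x_j / x_l` -/
noncomputable def q (j : Fin (n + 1)) : S R l :=
  Away.isLocalizationElem (X_mem (R := R) l) (X_mem (R := R) j)

/-- the fraction -/
lemma mk_spec {N : ℕ} (a : A R n) (ha : a ∈ gr R n (N • 1)) :
    (Away.mk (gr R n) (X_mem (R := R) l) N a ha).val * loc l (MvPolynomial.X l) ^ N =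
      loc l a := by
  rw [Away.val_mk, Localization.mk_eq_mk', ← map_pow]
  exact IsLocalization.mk'_spec _ _ _

lemma q_spec (j : Fin (n + 1)) : (q (R := R) l j).val * loc l (MvPolynomial.X l) =
      loc l (MvPolynomial.X j) := by
  have h := mk_spec (R := R) l (MvPolynomial.X j ^ 1) (N := 1) (by
    rw [pow_one]
    exact X_mem j)
  rw [pow_one (loc l (MvPolynomial.X l))] at h
  rw [show (loc l (MvPolynomial.X j) : L R l) = loc l (MvPolynomial.X j ^ 1) by rw [pow_one]]
  exact h

/-- the homomorphism `x_j ↦ x_j / x_l` -/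
noncomputable def δ : A R n →+* S R l :=
  MvPolynomial.eval₂Hom (sc l) (q l)

/-- the value as a ring homomorphism -/
noncomputable def vl : S R l →+* L R l := algebraMap _ _

lemma vl_apply (z : S R l) : vl l z = z.val := rfl

lemma vl_δ {N : ℕ} (a : A R n) (ha : a.IsHomogeneous N) :
    vl l (δ l a) * loc l (MvPolynomial.X l) ^ N = loc l a := by
  have h0 : (δ l a : S R l) = ∑ d ∈ a.support, sc l (MvPolynomial.coeff d a) *
      ∏ i, q l i ^ d i := by
    rw [δ, MvPolynomial.coe_eval₂Hom, MvPolynomial.eval₂_eq']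
  have h1 : a = ∑ d ∈ a.support, MvPolynomial.C (MvPolynomial.coeff d a) *
      ∏ i, MvPolynomial.X i ^ d i := by
    have h2 := MvPolynomial.eval₂_eq' (MvPolynomial.C : R →+* A R n) MvPolynomial.X a
    rw [← h2]
    exact (MvPolynomial.eval₂_eta a).symm
  rw [h0, map_sum, Finset.sum_mul]
  conv_rhs => rw [h1, map_sum]
  apply Finset.sum_congr rfl
  intro d hd
  have h2 : ∑ i, d i = N := by
    have h3 := ha (MvPolynomial.mem_support_iff.mp hd)
    rw [← h3, Finsupp.weight_apply, Finsupp.sum_fintype]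
    · simp
    · simp
  rw [map_mul, map_prod, map_mul, map_prod, vl_apply, val_sc, mul_assoc]
  congr 1
  rw [← h2, ← Finset.prod_pow_eq_pow_sum, ← Finset.prod_mul_distrib]
  apply Finset.prod_congr rfl
  intro i _
  rw [map_pow, map_pow, ← mul_pow, vl_apply, q_spec]

lemma δ_eq {N : ℕ} (a : A R n) (ha : a.IsHomogeneous N) (ha' : a ∈ gr R n (N • 1)) :
    δ l a = Away.mk (gr R n) (X_mem (R := R) l) N a ha' := by
  apply val_injective
  have h1 := vl_δ l a ha
  have h2 := mk_spec (R := R) l a ha'
  have hu : IsUnit (loc (R := R) l (MvPolynomial.X l) ^ N) :=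
    (IsLocalization.Away.algebraMap_isUnit _).pow N
  exact hu.mul_right_cancel (h1.trans h2.symm)

lemma δ_X (j : Fin (n + 1)) : δ (R := R) l (MvPolynomial.X j) = q l j := by
  rw [δ, MvPolynomial.coe_eval₂Hom, MvPolynomial.eval₂_X]

lemma δ_C (c : R) : δ (R := R) l (MvPolynomial.C c) = sc l c := by
  rw [δ, MvPolynomial.coe_eval₂Hom, MvPolynomial.eval₂_C]

lemma q_self : q (R := R) l l = 1 := by
  apply val_injective
  have h1 := q_spec (R := R) l l
  have hu : IsUnit (loc (R := R) l (MvPolynomial.X l)) :=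
    IsLocalization.Away.algebraMap_isUnit _
  have h2 : (q (R := R) l l).val * loc l (MvPolynomial.X l) = 1 * loc l (MvPolynomial.X l) := by
    rw [h1, one_mul]
  rw [hu.mul_right_cancel h2, val_one]

/-- every element of the chart ring is a value of `δ` -/
lemma exists_δ (z : S R l) : ∃ (N : ℕ) (a : A R n), a.IsHomogeneous N ∧ δ l a = z := by
  obtain ⟨N, a, ha, rfl⟩ := Away.mk_surjective (gr R n) (X_mem (R := R) l) z
  have ha' : a.IsHomogeneous N := by
    rw [smul_eq_mul, mul_one] at ha
    exact ha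
  exact ⟨N, a, ha', δ_eq l a ha' ha⟩

/-! ## Dehomogenisation -/

/-- the number of the remaining variables -/
abbrev ns {n : ℕ} (l : Fin (n + 1)) : ℕ := n - l.1

/-- the values of the variables -/
noncomputable def ev (j : Fin (n + 1)) : MvPolynomial (Fin (ns l)) R :=
  if h : l.1 < j.1 then MvPolynomial.X ⟨j.1 - l.1 - 1, by have := j.2; unfold ns; omega⟩
  else if j = l then 1 else 0

lemma ev_lt (j : Fin (n + 1)) (h : j < l) : ev (R := R) l j = 0 := by
  have h1 : ¬ l.1 < j.1 := by have : j.1 < l.1 := h; omega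
  rw [ev, dif_neg h1, if_neg (ne_of_lt h)]

lemma ev_self : ev (R := R) l l = 1 := by
  rw [ev, dif_neg (lt_irrefl _), if_pos rfl]

/-- the index of the variable -/
def ix (i : Fin (ns l)) : Fin (n + 1) := ⟨l.1 + 1 + i.1, by have := i.2; unfold ns at this; omega⟩

lemma ev_ix (i : Fin (ns l)) : ev (R := R) l (ix l i) = MvPolynomial.X i := by
  have h1 : l.1 < (ix l i).1 := by unfold ix; simp only; omega
  rw [ev, dif_pos h1]
  congr 1
  ext
  unfold ix
  simp only
  omega

lemma exists_ix (j : Fin (n + 1)) (h : l < j) : ∃ i, ix l i = j := by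
  have h1 : l.1 < j.1 := h
  refine ⟨⟨j.1 - l.1 - 1, by have := j.2; unfold ns; omega⟩, ?_⟩
  ext
  unfold ix
  simp only
  omega

/-- dehomogenisation -/
noncomputable def e : A R n →ₐ[R] MvPolynomial (Fin (ns l)) R := MvPolynomial.aeval (ev l)

lemma e_X (j : Fin (n + 1)) : e (R := R) l (MvPolynomial.X j) = ev l j := MvPolynomial.aeval_X _ _

lemma e_C (c : R) : e (R := R) l (MvPolynomial.C c) = MvPolynomial.C c := (e l).commutes c

lemma totalDegree_e (a : A R n) : (e l a).totalDegree ≤ a.totalDegree := by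
  apply ELI.totalDegree_aeval_le
  intro j
  rw [ev]
  split_ifs
  · exact (MvPolynomial.isHomogeneous_X _ _).totalDegree_le
  · simp
  · simp

lemma isUnit_e : IsUnit ((e (R := R) l).toRingHom (MvPolynomial.X l)) := by
  change IsUnit (e (R := R) l (MvPolynomial.X l))
  rw [e_X, ev_self]
  exact isUnit_one

/-- dehomogenisation on the localisation -/
noncomputable def lf : L R l →+* MvPolynomial (Fin (ns l)) R :=
  IsLocalization.Away.lift (S := L R l) (MvPolynomial.X l : A R n) (g := (e (R := R) l).toRingHom)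
    (isUnit_e l)

lemma φ_loc (a : A R n) : lf l (loc l a) = e l a := IsLocalization.Away.lift_eq _ _ _

/-- dehomogenisation on the chart ring -/
noncomputable def φ : S R l →+* MvPolynomial (Fin (ns l)) R := (lf l).comp (vl l)

lemma φ_q (j : Fin (n + 1)) : φ (R := R) l (q l j) = ev l j := by
  have h1 := congrArg (lf l) (q_spec (R := R) l j)
  rw [map_mul, φ_loc, φ_loc, e_X, e_X, ev_self, mul_one] at h1
  exact h1

lemma φ_sc (c : R) : φ (R := R) l (sc l c) = MvPolynomial.C c := by
  have h1 := φ_loc (R := R) l (MvPolynomial.C c)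
  rw [e_C] at h1
  rw [← h1, ← val_sc]
  rfl

lemma φ_δ (a : A R n) : φ l (δ l a) = e l a := by
  have h : (φ (R := R) l).comp (δ l) = (e l).toRingHom := by
    apply MvPolynomial.ringHom_ext
    · intro c
      change φ l (δ l (MvPolynomial.C c)) = e l (MvPolynomial.C c)
      rw [δ_C, φ_sc, e_C]
    · intro j
      change φ l (δ l (MvPolynomial.X j)) = e l (MvPolynomial.X j)
      rw [δ_X, φ_q, e_X]
  exact RingHom.congr_fun h a

/-- the section of `φ` -/
noncomputable def σ : MvPolynomial (Fin (ns l)) R →+* S R l :=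
  MvPolynomial.eval₂Hom (sc l) (fun i => q l (ix l i))

lemma σ_X (i : Fin (ns l)) : σ (R := R) l (MvPolynomial.X i) = q l (ix l i) := by
  rw [σ, MvPolynomial.coe_eval₂Hom, MvPolynomial.eval₂_X]

lemma σ_C (c : R) : σ (R := R) l (MvPolynomial.C c) = sc l c := by
  rw [σ, MvPolynomial.coe_eval₂Hom, MvPolynomial.eval₂_C]

lemma φ_σ (b : MvPolynomial (Fin (ns l)) R) : φ l (σ l b) = b := by
  have h : (φ (R := R) l).comp (σ l) = RingHom.id _ := by
    apply MvPolynomial.ringHom_ext
    · intro c
      change φ l (σ l (MvPolynomial.C c)) = MvPolynomial.C c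
      rw [σ_C, φ_sc]
    · intro i
      change φ l (σ l (MvPolynomial.X i)) = MvPolynomial.X i
      rw [σ_X, φ_q, ev_ix]
  exact RingHom.congr_fun h b

lemma φ_surjective : Function.Surjective (φ (R := R) l) := fun b => ⟨σ l b, φ_σ l b⟩

/-- modulo the coordinates `x_j / x_l`, `j < l`, the homomorphism `σ ∘ φ` is the identity -/
lemma σφ (p : Ideal (S R l)) (hp : ∀ j, j < l → q l j ∈ p) (z : S R l) :
    z - σ l (φ l z) ∈ p := by
  obtain ⟨N, a, -, rfl⟩ := exists_δ l z
  rw [φ_δ]
  have h : (Ideal.Quotient.mk p).comp (δ (R := R) l) =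
      (Ideal.Quotient.mk p).comp ((σ l).comp (e l).toRingHom) := by
    apply MvPolynomial.ringHom_ext
    · intro c
      change Ideal.Quotient.mk p (δ l (MvPolynomial.C c)) =
        Ideal.Quotient.mk p (σ l (e l (MvPolynomial.C c)))
      rw [δ_C, e_C, σ_C]
    · intro j
      change Ideal.Quotient.mk p (δ l (MvPolynomial.X j)) =
        Ideal.Quotient.mk p (σ l (e l (MvPolynomial.X j)))
      rw [δ_X, e_X]
      rcases lt_trichotomy j l with hj | hj | hj
      · rw [ev_lt l j hj, map_zero, map_zero]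
        exact Ideal.Quotient.eq_zero_iff_mem.mpr (hp j hj)
      · subst hj
        rw [ev_self, q_self, map_one, map_one, map_one]
      · obtain ⟨i, rfl⟩ := exists_ix l j hj
        rw [ev_ix, σ_X]
  have h1 := RingHom.congr_fun h a
  rw [← Ideal.Quotient.eq]
  exact h1

end PRA

/-! ## The module -/

attribute [local instance] MvPolynomial.gradedAlgebra

/-- **PRA**: the charts. -/
theorem chart {R ι : Type} [CommRing R] {n : ℕ} (l : Fin (n + 1)) (m : ι → ℕ)
    (f : ι → MvPolynomial (Fin (n + 1)) R) (hf : ∀ j, f j ∈ gr R n (m j)) :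
    ∃ φ : PRA.S R l →+* MvPolynomial (Fin (PRA.ns l)) R ⧸
        Ideal.span (Set.range fun j => PRA.e l (f j)),
      Function.Surjective φ ∧ (∀ c : R, φ (PRA.sc l c) = algebraMap R _ c) ∧
      ∀ p : PrimeSpectrum (PRA.S R l), RingHom.ker φ ≤ p.asIdeal ↔
        (∀ j, j < l → Away.isLocalizationElem (PRA.X_mem (R := R) l) (PRA.X_mem j) ∈ p.asIdeal) ∧
        ∀ j, Away.isLocalizationElem (PRA.X_mem (R := R) l) (hf j) ∈ p.asIdeal := by
  let h : ι → MvPolynomial (Fin (PRA.ns l)) R := fun j => PRA.e l (f j)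
  refine ⟨(Ideal.Quotient.mk _).comp (PRA.φ l), ?_, ?_, ?_⟩
  · exact Ideal.Quotient.mk_surjective.comp (PRA.φ_surjective l)
  · intro c
    change Ideal.Quotient.mk _ (PRA.φ l (PRA.sc l c)) = _
    rw [PRA.φ_sc]
    rfl
  · intro p
    have hF : ∀ j, Away.isLocalizationElem (PRA.X_mem (R := R) l) (hf j) = PRA.δ l (f j) := by
      intro j
      rw [PRA.δ_eq l (f j) (hf j) (by rw [smul_eq_mul, mul_one]; exact hf j)]
      apply val_injective
      rw [Away.val_mk, Away.val_mk, pow_one]
    constructor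
    · intro hk
      constructor
      · intro j hj
        apply hk
        rw [RingHom.mem_ker]
        change Ideal.Quotient.mk _ (PRA.φ l (PRA.q l j)) = 0
        rw [PRA.φ_q, PRA.ev_lt l j hj, map_zero]
      · intro j
        apply hk
        rw [RingHom.mem_ker, hF]
        change Ideal.Quotient.mk _ (PRA.φ l (PRA.δ l (f j))) = 0
        rw [PRA.φ_δ]
        exact Ideal.Quotient.eq_zero_iff_mem.mpr (Ideal.subset_span ⟨j, rfl⟩)
    · rintro ⟨h1, h2⟩ z hz
      rw [RingHom.mem_ker] at hz
      have h3 : PRA.φ l z ∈ Ideal.span (Set.range h) := Ideal.Quotient.eq_zero_iff_mem.mp hz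
      have h4 := PRA.σφ l p.asIdeal h1
      have h5 : Ideal.span (Set.range h) ≤ p.asIdeal.comap (PRA.σ l) := by
        rw [Ideal.span_le]
        rintro _ ⟨j, rfl⟩
        have h6 := h4 (PRA.δ l (f j))
        rw [PRA.φ_δ] at h6
        have h7 := h2 j
        rw [hF] at h7
        have h8 := sub_mem h7 h6
        rw [sub_sub_cancel] at h8
        exact h8
      have h9 := h5 h3
      have h10 := add_mem (h4 z) h9
      rwa [sub_add_cancel] at h10

end QCV
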