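import Pool.Agent.QCV.StR

set_option autoImplicit false

open Polynomial

namespace QCV

open CUB

theorem t_DLM : M_DLM := by
  intro hDLR k A _ _ _ _ d n h
  induction n with
  | zero =>
    let e : A ≃ₐ[k] MvPolynomial (Fin 0) A :=
      ((MvPolynomial.isEmptyAlgEquiv A (Fin 0)).restrictScalars k).symm
    exact hDLR.1 k A (MvPolynomial (Fin 0) A) d e.toAlgHom e.surjective h
  | succ n ih =>
    let e : MvPolynomial (Fin (n + 1)) A ≃ₐ[k] (MvPolynomial (Fin n) A)[X] :=
      (MvPolynomial.finSuccEquiv A n).restrictScalars k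
    have h1 := hDLR.2.2.2.1 k (MvPolynomial (Fin n) A) (d + n) ih
    exact hDLR.1 k _ (MvPolynomial (Fin (n + 1)) A) (d + n + 1) e.symm.toAlgHom e.symm.surjective h1

end QCV
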