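import Pool.Agent.QCV.R_ELI

set_option autoImplicit false

open Polynomial

namespace QCV

open CUB

namespace SUB

variable {R : Type} [CommRing R]

/-- The evaluation `x_0 ↦ α X`, `x_1 ↦ β X`, `x_j ↦ 0`. -/
noncomputable def del {n : ℕ} (α β : R) : MvPolynomial (Fin (n + 2)) R →ₐ[R] R[X] :=
  MvPolynomial.aeval (Fin.cons (C α * X) (Fin.cons (C β * X) fun _ => 0))

lemma del_C {n : ℕ} (α β r : R) : del (n := n) α β (MvPolynomial.C r) = C r :=
  (del α β).commutes r

lemma del_X0 {n : ℕ} (α β : R) : del (n := n) α β (MvPolynomial.X 0) = C α * X := by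
  rw [del, MvPolynomial.aeval_X, Fin.cons_zero]

lemma del_X1 {n : ℕ} (α β : R) : del (n := n) α β (MvPolynomial.X 1) = C β * X := by
  rw [del, MvPolynomial.aeval_X, ← Fin.succ_zero_eq_one, Fin.cons_succ, Fin.cons_zero]

lemma del_Xs {n : ℕ} (α β : R) (i : Fin n) :
    del (n := n) α β (MvPolynomial.X i.succ.succ) = 0 := by
  rw [del, MvPolynomial.aeval_X, Fin.cons_succ, Fin.cons_succ]

lemma ext3 {n : ℕ} (d e : Fin (n + 2) →₀ ℕ) :
    d = e ↔ d 0 = e 0 ∧ d 1 = e 1 ∧ ∀ i : Fin n, d i.succ.succ = e i.succ.succ := by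
  rw [Finsupp.ext_iff, Fin.forall_fin_succ, Fin.forall_fin_succ, Fin.succ_zero_eq_one]

lemma coeff_del {n : ℕ} (α β : R) (p : MvPolynomial (Fin (n + 2)) R) :
    (del α β p).coeff 2 = MvPolynomial.coeff (Finsupp.single 0 2) p * α ^ 2 +
      MvPolynomial.coeff (Finsupp.single 0 1 + Finsupp.single 1 1) p * (α * β) +
      MvPolynomial.coeff (Finsupp.single 1 2) p * β ^ 2 := by
  classical
  induction p using MvPolynomial.induction_on' with
  | add p q hp hq =>
    rw [map_add, Polynomial.coeff_add, hp, hq, MvPolynomial.coeff_add, MvPolynomial.coeff_add,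
      MvPolynomial.coeff_add]
    ring
  | monomial d r =>
    have h1 : del α β (MvPolynomial.monomial d r) =
        C (r * (α ^ d 0 * β ^ d 1)) * (X ^ (d 0 + d 1) * ∏ i : Fin n, (0 : R[X]) ^ d i.succ.succ) := by
      have h2 : del α β (MvPolynomial.monomial d r) =
          C r * ((C α * X) ^ d 0 * ((C β * X) ^ d 1 * ∏ i : Fin n, (0 : R[X]) ^ d i.succ.succ)) := by
        rw [del, MvPolynomial.aeval_monomial, Finsupp.prod_fintype _ _ (fun _ => pow_zero _),
          Fin.prod_univ_succ, Fin.prod_univ_succ]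
        rfl
      rw [h2]
      simp only [map_mul, map_pow, mul_pow, pow_add]
      ring
    rw [h1, Polynomial.coeff_C_mul]
    simp only [MvPolynomial.coeff_monomial, ext3]
    have e10 : ((1 : Fin (n + 2)) = 0) = False := by simp
    have e01 : ((0 : Fin (n + 2)) = 1) = False := by simp
    have es0 : ∀ i : Fin n, (i.succ.succ = (0 : Fin (n + 2))) = False := fun i => by
      simp [Fin.succ_ne_zero]
    have es1 : ∀ i : Fin n, (i.succ.succ = (1 : Fin (n + 2))) = False := fun i => by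
      rw [← Fin.succ_zero_eq_one, Fin.succ_inj]
      simp [Fin.succ_ne_zero]
    have es0' : ∀ i : Fin n, ((0 : Fin (n + 2)) = i.succ.succ) = False := fun i => by
      rw [eq_comm (a := (0 : Fin (n + 2)))]
      exact es0 i
    have es1' : ∀ i : Fin n, ((1 : Fin (n + 2)) = i.succ.succ) = False := fun i => by
      rw [eq_comm (a := (1 : Fin (n + 2)))]
      exact es1 i
    simp only [Finsupp.add_apply, Finsupp.single_apply, e10, e01, es0', es1', if_true, if_false,
      add_zero, zero_add]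
    by_cases hd : ∀ i : Fin n, d i.succ.succ = 0
    · have h2 : ∏ i : Fin n, (0 : R[X]) ^ d i.succ.succ = 1 :=
        Finset.prod_eq_one fun i _ => by rw [hd i, pow_zero]
      rw [h2, mul_one, Polynomial.coeff_X_pow]
      simp only [hd, implies_true, and_true]
      by_cases h3 : d 0 + d 1 = 2
      · have h4 : (d 0 = 0 ∧ d 1 = 2) ∨ (d 0 = 1 ∧ d 1 = 1) ∨ (d 0 = 2 ∧ d 1 = 0) := by omega
        rcases h4 with ⟨h5, h6⟩ | ⟨h5, h6⟩ | ⟨h5, h6⟩
        · simp [h5, h6]
        · simp [h5, h6]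
        · simp [h5, h6]
      · rw [if_neg (fun h => h3 h.symm), if_neg (by omega), if_neg (by omega), if_neg (by omega)]
        ring
    · obtain ⟨i, hi⟩ := not_forall.1 hd
      have h2 : ∏ i : Fin n, (0 : R[X]) ^ d i.succ.succ = 0 :=
        Finset.prod_eq_zero (Finset.mem_univ i) (zero_pow hi)
      rw [h2, mul_zero, Polynomial.coeff_zero, mul_zero, if_neg (fun h => hd h.2.2),
        if_neg (fun h => hd h.2.2), if_neg (fun h => hd h.2.2)]
      ring

/-- The substitution `x_0 = t y_0 + y_1`, `x_1 = y_0`. -/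
noncomputable def sig {n : ℕ} (t : R) :
    MvPolynomial (Fin (n + 2)) R →ₐ[R] MvPolynomial (Fin (n + 2)) R :=
  MvPolynomial.aeval (Fin.cons (MvPolynomial.C t * MvPolynomial.X 0 + MvPolynomial.X 1)
    (Fin.cons (MvPolynomial.X 0) fun i => MvPolynomial.X i.succ.succ))

/-- The inverse substitution. -/
noncomputable def tau {n : ℕ} (t : R) :
    MvPolynomial (Fin (n + 2)) R →ₐ[R] MvPolynomial (Fin (n + 2)) R :=
  MvPolynomial.aeval (Fin.cons (MvPolynomial.X 1)
    (Fin.cons (MvPolynomial.X 0 - MvPolynomial.C t * MvPolynomial.X 1)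
      fun i => MvPolynomial.X i.succ.succ))

lemma sig0 {n : ℕ} (t : R) : sig (n := n) t (MvPolynomial.X 0) =
    MvPolynomial.C t * MvPolynomial.X 0 + MvPolynomial.X 1 := by
  rw [sig, MvPolynomial.aeval_X, Fin.cons_zero]

lemma sig1 {n : ℕ} (t : R) : sig (n := n) t (MvPolynomial.X 1) = MvPolynomial.X 0 := by
  rw [sig, MvPolynomial.aeval_X, ← Fin.succ_zero_eq_one, Fin.cons_succ, Fin.cons_zero]

lemma sigs {n : ℕ} (t : R) (i : Fin n) :
    sig (n := n) t (MvPolynomial.X i.succ.succ) = MvPolynomial.X i.succ.succ := by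
  rw [sig, MvPolynomial.aeval_X, Fin.cons_succ, Fin.cons_succ]

lemma tau0 {n : ℕ} (t : R) : tau (n := n) t (MvPolynomial.X 0) = MvPolynomial.X 1 := by
  rw [tau, MvPolynomial.aeval_X, Fin.cons_zero]

lemma tau1 {n : ℕ} (t : R) : tau (n := n) t (MvPolynomial.X 1) =
    MvPolynomial.X 0 - MvPolynomial.C t * MvPolynomial.X 1 := by
  rw [tau, MvPolynomial.aeval_X, ← Fin.succ_zero_eq_one, Fin.cons_succ, Fin.cons_zero]

lemma taus {n : ℕ} (t : R) (i : Fin n) :
    tau (n := n) t (MvPolynomial.X i.succ.succ) = MvPolynomial.X i.succ.succ := by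
  rw [tau, MvPolynomial.aeval_X, Fin.cons_succ, Fin.cons_succ]

lemma sigC {n : ℕ} (t r : R) : sig (n := n) t (MvPolynomial.C r) = MvPolynomial.C r :=
  (sig t).commutes r

lemma tauC {n : ℕ} (t r : R) : tau (n := n) t (MvPolynomial.C r) = MvPolynomial.C r :=
  (tau t).commutes r

lemma tau_sig {n : ℕ} (t : R) (x : MvPolynomial (Fin (n + 2)) R) : tau t (sig t x) = x := by
  have : (tau t).comp (sig t) = AlgHom.id R (MvPolynomial (Fin (n + 2)) R) := by
    apply MvPolynomial.algHom_ext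
    intro i
    rw [AlgHom.comp_apply, AlgHom.id_apply]
    refine Fin.cases ?_ (fun i => ?_) i
    · rw [sig0, map_add, map_mul, tauC, tau0, tau1]
      ring
    · refine Fin.cases ?_ (fun i => ?_) i
      · rw [Fin.succ_zero_eq_one, sig1, tau0]
      · rw [sigs, taus]
  exact DFunLike.congr_fun this x

lemma sig_tau {n : ℕ} (t : R) (x : MvPolynomial (Fin (n + 2)) R) : sig t (tau t x) = x := by
  have : (sig t).comp (tau t) = AlgHom.id R (MvPolynomial (Fin (n + 2)) R) := by
    apply MvPolynomial.algHom_ext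
    intro i
    rw [AlgHom.comp_apply, AlgHom.id_apply]
    refine Fin.cases ?_ (fun i => ?_) i
    · rw [tau0, sig1]
    · refine Fin.cases ?_ (fun i => ?_) i
      · rw [Fin.succ_zero_eq_one, tau1, map_sub, map_mul, sigC, sig0, sig1]
        ring
      · rw [taus, sigs]
  exact DFunLike.congr_fun this x

lemma del_sig {n : ℕ} (t : R) (x : MvPolynomial (Fin (n + 2)) R) :
    del 1 0 (sig t x) = del t 1 x := by
  have : (del (n := n) (1 : R) 0).comp (sig t) = del t 1 := by
    apply MvPolynomial.algHom_ext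
    intro i
    rw [AlgHom.comp_apply]
    refine Fin.cases ?_ (fun i => ?_) i
    · rw [sig0, map_add, map_mul, del_X0, del_X1, del_X0, del_C]
      simp
    · refine Fin.cases ?_ (fun i => ?_) i
      · rw [Fin.succ_zero_eq_one, sig1, del_X0, del_X1]
      · rw [sigs, del_Xs, del_Xs]
  exact DFunLike.congr_fun this x

lemma sig_deg [Nontrivial R] {n : ℕ} (t : R) (x : MvPolynomial (Fin (n + 2)) R) :
    (sig t x).totalDegree ≤ x.totalDegree := by
  refine ELI.totalDegree_aeval_le _ (fun i => ?_) x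
  refine Fin.cases ?_ (fun i => ?_) i
  · rw [Fin.cons_zero]
    refine (MvPolynomial.totalDegree_add _ _).trans (max_le ?_ ?_)
    · refine (MvPolynomial.totalDegree_mul _ _).trans ?_
      rw [MvPolynomial.totalDegree_C, MvPolynomial.totalDegree_X]
    · rw [MvPolynomial.totalDegree_X]
  · rw [Fin.cons_succ]
    refine Fin.cases ?_ (fun i => ?_) i
    · rw [Fin.cons_zero]
      exact (MvPolynomial.totalDegree_X _).le
    · rw [Fin.cons_succ]
      exact (MvPolynomial.totalDegree_X _).le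

lemma sig_coeff {n : ℕ} (t : R) (p : MvPolynomial (Fin (n + 2)) R)
    (hc : MvPolynomial.coeff (Finsupp.single 0 2) p * t ^ 2 +
      MvPolynomial.coeff (Finsupp.single 0 1 + Finsupp.single 1 1) p * t +
      MvPolynomial.coeff (Finsupp.single 1 2) p = 0) :
    MvPolynomial.coeff (Finsupp.single 0 2) (sig t p) = 0 := by
  have h3 := coeff_del 1 0 (sig t p)
  rw [del_sig, coeff_del] at h3
  simp only [one_pow, mul_one, mul_zero, add_zero, ne_eq, OfNat.ofNat_ne_zero,
    not_false_eq_true, zero_pow] at h3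
  rw [← h3]
  exact hc

lemma iso {k A : Type} [Field k] [CommRing A] [Algebra R A] [Algebra k R] [Algebra k A]
    [IsScalarTower k R A] (σ τ : A →ₐ[R] A) (h1 : ∀ x, τ (σ x) = x) (h2 : ∀ x, σ (τ x) = x)
    (f : Fin 1 → A) :
    Nonempty ((A ⧸ Ideal.span (Set.range f)) ≃ₐ[k]
      (A ⧸ Ideal.span (Set.range fun _ : Fin 1 => σ (f 0)))) := by
  refine ELI.equiv_of _ _ (σ.restrictScalars k) (τ.restrictScalars k) ?_ ?_ ?_ ?_
  · rw [Ideal.span_le]
    rintro _ ⟨i, rfl⟩
    rw [Fin.fin_one_eq_zero i]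
    exact Ideal.subset_span ⟨0, rfl⟩
  · rw [Ideal.span_le]
    rintro _ ⟨i, rfl⟩
    change τ (σ (f 0)) ∈ Ideal.span (Set.range f)
    rw [h1]
    exact Ideal.subset_span ⟨0, rfl⟩
  · intro b
    rw [AlgHom.restrictScalars_apply, AlgHom.restrictScalars_apply, h2, sub_self]
    exact zero_mem _
  · intro a
    rw [AlgHom.restrictScalars_apply, AlgHom.restrictScalars_apply, h1, sub_self]
    exact zero_mem _

end SUB

theorem t_SUB : S_SUB := by
  intro k R _ _ _ n f t h2 hc
  rcases subsingleton_or_nontrivial R with hR | hR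
  · exact ⟨f, h2, Subsingleton.elim _ _, ⟨AlgEquiv.refl⟩⟩
  exact ⟨fun _ => SUB.sig t (f 0), (SUB.sig_deg t (f 0)).trans h2, SUB.sig_coeff t (f 0) hc,
    SUB.iso (SUB.sig t) (SUB.tau t) (SUB.tau_sig t) (SUB.sig_tau t) f⟩

end QCV
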