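import Pool.Agent.QCV.Defs3

/-!
# QCV: statements for projective varieties
-/

set_option autoImplicit false

open CategoryTheory AlgebraicGeometry Polynomial

namespace QCV

open Pool.Agent.Lib_helper55.Beil Pool.Agent.Lib_helper66.OneP CUB

attribute [local instance] MvPolynomial.gradedAlgebra

/-- The grading of `R[x_0, ..., x_n]`. -/
noncomputable abbrev gr (R : Type) [CommRing R] (n : ℕ) :
    ℕ → Submodule R (MvPolynomial (Fin (n + 1)) R) :=
  MvPolynomial.homogeneousSubmodule (Fin (n + 1)) R

/-- The projective space `Proj R[x_0, ..., x_n]`. -/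
noncomputable abbrev PS (R : Type) [CommRing R] (n : ℕ) : Scheme.{0} := Proj (gr R n)

/-- The structure morphism of the projective space over `k`. -/
noncomputable def PSf (k R : Type) [Field k] [CommRing R] [Algebra k R] (n : ℕ) :
    PS R n ⟶ Spec (CommRingCat.of k) :=
  Proj.toSpecZero (gr R n) ≫ Spec.map (CommRingCat.ofHom
    ((algebraMap R (gr R n 0)).comp (algebraMap k R)))

/-- The closed subvariety `X` of the projective space over `R` is, up to nilpotents, defined by the
homogeneous polynomials `f j`. -/
structure ProjSub {k : Type} [Field k] {R ι : Type} [CommRing R] [Algebra k R] {n : ℕ}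
    (f : ι → MvPolynomial (Fin (n + 1)) R) (X : Var k) where
  /-- the closed immersion -/
  g : X.X ⟶ PS R n
  closed : IsClosedImmersion g
  comm : g ≫ PSf k R n = X.f
  range : ∀ p : ProjectiveSpectrum (gr R n),
    (∃ x : X.X, g x = p) ↔ ∀ j, f j ∈ p.asHomogeneousIdeal.toIdeal

end QCV
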