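import Pool.Agent.QCV.DefsB
import Pool.Agent.QCV.G_LND
import Pool.Agent.QCV.StP
import Pool.Agent.QCV.Cls

/-!
# QCV, block B: statements (from the affine cone to the projective variety)

Goal.  If the affine cone over the projective variety `X ⊆ P^n_R` is in the class and `R` is small,
then `X` is in the class.  Let `Y → X` be the line bundle `O(1)`, with zero section `X → Y` and
complement `U` = the cone without its vertex.  `PF (T (i + 1)) Y → PF (T i) X` (`S_BDS`, with the
pull-back along line bundles as a hypothesis: `BunMaps.Good`), and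
`PF (T (i + 1)) X`, `PF (T (i + 1)) U` imply `PF (T (i + 1)) Y` (`pf_glue`), so descending induction
on `i` gives `PPF T U → PPF T X` (`S_BCT`).  The geometry is `S_UNI`, `S_BPL`, `S_BCO`.
-/

set_option autoImplicit false

open CategoryTheory AlgebraicGeometry Limits Polynomial TopologicalSpace

namespace QCV

open Pool.Agent.Lib_helper55.Beil Pool.Agent.Lib_helper66.OneP CUB

universe v

/-! ## Homology -/

/-- **BPR** (geometry): a closed subset `C` of dimension at most `e + 1` of a line bundle `Y → X` is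
proper over the base outside a closed subset `F` of dimension at most `e` of the base.
Proof.  For a product with the affine line this is in `supp_line_desc` (G_LND): `CUB.Asm2.s_PRO`,
`exists_boundary`, `proper_part`.  In general: cover `X` by finitely many open `V_m` with
`Y|V_m` a product (`B.loc`, quasi-compactness of `X`), `F_m` closed in `V_m` of dimension `≤ e` for
`C|V_m`, `F` the union of the closures of the `F_m` in `X` (dimension `≤ e`: `dim_le_of_specializes`
and closure of the image of a closed subset of dimension `≤ e`; see exists_common, F_OPE / F_BAS).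
`D → O` is proper: local on the target (`IsZariskiLocalAtTarget`), over `O ∩ V_m` it is a base change
of the proper morphism of the product case. -/
def S_BPR : Prop :=
  ∀ (k : Type) [Field k] {Y X : Var k} (B : Bun Y X) (C : Closeds Y.X) (e : ℕ),
    (∀ y ∈ C, Y.dim y ≤ (e + 1 : ℕ)) →
    ∃ F : Closeds X.X, (∀ x ∈ F, X.dim x ≤ e) ∧
      ∀ {O Y' D : Var k} (j : OpenIn O X) (l : OpenIn Y' Y) (B' : Bun Y' O)
        (o : OpenIn D (closedVar Y C)) (b : ClosedIn D Y'),
        (∀ x : O.X, j.g x ∉ F) → IsPullback B'.q l.g j.g B.q →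
        IsPullback o.g b.g (closedVarIn Y C).g l.g → IsProper (b.g ≫ B'.q)

/-- **BSE**: the push-forward along a section `s` of a line bundle `M → D`, `dim D ≤ e + 1`, is the
pull-back of a class with support of dimension at most `e` (the first Chern class).
Proof.  `s_* w = V B v₀` (`Bij`).  If `x` is a point of `D` of dimension `e + 1` and `V₁` an open
neighbourhood with `M|V₁` a product: `V B' (v₀|V₁) = (s_* w)|V₁ = s'_* (w|V₁) = 0` (`Restriction`,
`res_push`, `Lines`, `SectionZero`), so `v₀|V₁ = 0`; also over every smaller open set.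
Let `F` be a minimal closed subset such that `v₀` comes from `H_n(F)` (noetherian; `v₀ = P_F v`).  If
`F` contains a point `x` of dimension `e + 1`, then `x` is a generic point of `D`; choose the open
neighbourhood `V₁` in the closure of `x`, so `V₁ ⊆ F` (as a set) and `v|V₁ = 0`, because
`v₀|V₁ = P (v|V₁)` and `V₁ ∩ F → V₁` is bijective on points (surjective closed immersion: injective on
homology by exactness with the empty complement, `bd_exact`), so `v` comes from `F \ V₁`, a
contradiction. -/
def S_BSE : Prop :=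
  ∀ (k E : Type) [Field k] [Field E] (T : ∀ i : ℕ, Homology.{v} k E i) (hT : Full T),
    Pub T hT → SectionZero T → ∀ S : BunMaps T, S.Good hT →
    ∀ (i n e : ℕ) {M D : Var k} (B : Bun M D) (s : ClosedIn D M), s.g ≫ B.q = 𝟙 D.X →
      D.DimLE (e + 1 : ℕ) → ∀ w : (T (i + 1)).H (n + 2) D,
      ∃ F : Closeds D.X, (∀ x ∈ F, D.dim x ≤ e) ∧ ∃ v : (T i).H n (closedVar D F),
        (T (i + 1)).P (n + 2) s w = S.V i n B ((T i).P n (closedVarIn D F) v)

/-- **BSU**: supports descend from a line bundle to the base.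
Proof.  As `supp_line_desc`: `V B u = P_C b`.  `F₀` by `S_BPR` for `C`, `O` the complement,
`Y'`, `D` the parts over `O` (`Bun` restricted to `O`: base change of the local trivialisations),
`r : D → O` proper.  `R : M → Y'` the base change of `Y' → O` along `r` (a line bundle over `D`), `s` its
tautological section, `R ∘ s = b`.  By `S_BSE` `s_* (b|D) = V (P_F₁ v)`, `dim F₁ ≤ e`.  So
`V (u|O) = (V B u)|Y' = b_* = R_* s_* = R_* V (P_F₁ v) = V (r_* P_F₁ v)` (`Push`), `u|O = r_* P_F₁ v`
(`Bij`), which comes from the closure `F₂` of the image of `F₁` in `X` (dimension `≤ e`), so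
`u` minus a class coming from `H_n(F₂)`... precisely: `u` restricted to the complement of
`F₀ ∪ F₂` is zero, so `u` comes from `F₀ ∪ F₂` (`exact_X`). -/
def S_BSU : Prop :=
  ∀ (k E : Type) [Field k] [Field E] (T : ∀ i : ℕ, Homology.{v} k E i) (hT : Full T),
    Pub T hT → SectionZero T → ∀ S : BunMaps T, S.Good hT →
    ∀ (i n e : ℕ) {Y X : Var k} (B : Bun Y X) (u : (T i).H n X),
      Supp (T (i + 1)) (n + 2) (e + 1) Y (S.V i n B u) → Supp (T i) n e X u

def M_BSU : Prop := S_BPR → S_BSE.{v} → S_BSU.{v}

/-- **BIN**: the injectivity of the cycle class map descends from a line bundle to the base.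
Proof.  Let `cls_X c = 0`, `W ⊆ X` closed of dimension `≤ i` with `c` on `W` (`exists_supp_cyc`),
`w = cls_W c`, `Y_W` the line bundle over `W`.  `V w` is in `gen Y_W ≤ alg Y_W` (`good_of_dimLE`,
dimension `≤ i + 1`), so `V w = cls_(Y_W) d`; `cls_Y d = V (cls_X c) = 0` (`Push`), so `d` (as a cycle
on `Y`) is in `ratZero Y` by hypothesis, so there is `W₃ ⊆ Y` closed of dimension `≤ i + 2`,
containing `Y_W`, such that the class of `d` on `W₃` is zero (generators of `ratZero` live on integral
closed subvarieties of dimension `i + 1 + 1`; or: see im_of_bm, bm_of_im in G_CYC).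
Take `F` of dimension `≤ i + 1` by `S_BPR` for `W₃`, enlarged by `W`; `O` its complement,
`Y_F`, `Y_O` the parts of `Y` over `F`, `O`; `W₄ = Y_F ∪ W₃`, `D = W₃ ∩ Y_O = W₄ \ Y_F`, `r : D → O`
proper.  The image `w_F` of `w` in `H_2i(F)`: `V w_F` dies in `W₄`, so `V w_F = bd u`,
`u ∈ H_(2i+3)(D)` (`bd_exact`).  As in `S_BSU` `b_* u = V u'`, `u' = r_* P_F₁ v ∈ H_(2i+1)(O)`,
`dim F₁ ≤ i + 1` (`S_BSE` with `e = i + 1`).  `V w_F = bd (b_* u)` (`pfBoundary` for `W₄ → Y`),
`= bd (V u') = V (bd u')` (`Boundary`), so `w_F = bd u'`.  With `F₂` = union of `F` and the closure of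
the image of `F₁` (dimension `≤ i + 1`), `w_F` is the boundary of a class on `F₂ \ F`, so it dies in
`F₂`: the class of `c` on `F₂` is zero, and `c ∈ ratZero` by `Pub.divisors`. -/
def S_BIN : Prop :=
  ∀ (k E : Type) [Field k] [Finite k] [Field E] [CharZero E]
    (T : ∀ i : ℕ, Homology.{v} k E i) (hT : Full T),
    Pub T hT → SectionZero T → ∀ S : BunMaps T, S.Good hT →
    ∀ (i : ℕ) {Y X : Var k} (_ : Bun Y X), PF (T (i + 1)) Y → (T i).InjC X

def M_BIN : Prop := S_BPR → S_BSE.{v} → S_BIN.{v}

/-- **BDS**: the property `PF` descends from a line bundle to the base.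
Proof.  As `pf_line_desc`, with `S_BSU` and `S_BIN`. -/
def S_BDS : Prop :=
  ∀ (k E : Type) [Field k] [Finite k] [Field E] [CharZero E]
    (T : ∀ i : ℕ, Homology.{v} k E i) (hT : Full T),
    Pub T hT → SectionZero T → ∀ S : BunMaps T, S.Good hT →
    ∀ (i : ℕ) {Y X : Var k} (_ : Bun Y X), PF (T (i + 1)) Y → PF (T i) X

def M_BDS : Prop := S_BSU.{v} → S_BIN.{v} → S_BDS.{v}

/-- **BCT**: from the complement of a section of a line bundle to the base.
Proof.  `X.DimLE D` for some `D`; descending induction on `i` (`Nat.decreasingInduction` or induction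
on `D - i`): `pf_of_dimLE` for `i ≥ D`; otherwise `S_BDS` and `pf_glue`. -/
def S_BCT : Prop :=
  ∀ (k E : Type) [Field k] [Finite k] [Field E] [CharZero E]
    (T : ∀ i : ℕ, Homology.{v} k E i) (hT : Full T),
    Pub T hT → SectionZero T → ∀ S : BunMaps T, S.Good hT →
    ∀ {Y X U : Var k} (B : Bun Y X) (s : ClosedIn X Y) (j : OpenIn U Y), s.g ≫ B.q = 𝟙 X.X →
      Complementary s j → PPF T U → PPF T X

def M_BCT : Prop := S_BDS.{v} → S_BCT.{v}

/-! ## Geometry -/

attribute [local instance] MvPolynomial.gradedAlgebra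

/-- **UNI**: the line bundle `O(1)` over the projective space over `R`: total space `Y`, zero section
`s`, complement `U` = the affine space without the origin.
Proof.  `A = R[x_0, ..., x_n]`, `A' = R[x_0, ..., x_(n+1)]`, `φ : A → A'`, `x_j ↦ x_(j+1)` (graded),
`ψ : A' → A`, `x_0 ↦ 0`, `x_(j+1) ↦ x_j`.  `Y` = the union of the `D_+(x_l)`, `l ≥ 1`, in `Proj A'`;
`q : Y → Proj A` glued (`Scheme.Cover.glueMorphisms`, model: `Proj.fromOfGlobalSections`) from
`Spec (Away.map φ x_l) ≫ awayι`; on overlaps use `SpecMap_awayMap_awayι`, `pullbackAwayιIso`.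
`q y = φ⁻¹ (y)` on homogeneous primes, so `q⁻¹ D_+(x_l) = D_+(x_(l+1))`, and over `D_+(x_l)` it is
`Away A' x_(l+1) = (Away A x_l)[x_0 / x_(l+1)]`, a polynomial ring (`Line`).  The zero section:
`Proj.map ψ` (Mathlib, ProjectiveSpectrum/Functor; `ψ` is surjective, a closed immersion on the
charts) factors through `Y`; `ψ ∘ φ = 1` gives `s ≫ q = 1`; its image is `x_0 = 0`.
`U = D_+(x_0) ∩ Y`, `D_+(x_0) = Spec (Away A' x_0) = Spec R[x_1, ..., x_(n+1)]` (P_PRA with `l = 0`:
`PRA.φ`, `PRA.σ` are inverse to each other), where `x_(l+1) / x_0` corresponds to the `l`-th variable,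
and `q u` consists of the `f` with `f(x / x_0)` in the prime of `u`. -/
def S_UNI : Prop :=
  ∀ (k R : Type) [Field k] [CommRing R] [Algebra k R] [Algebra.FiniteType k R] (n : ℕ),
    ∃ (P Y U : Var k) (ε : P.X ≅ PS R n) (B : Bun Y P) (s : ClosedIn P Y) (j : OpenIn U Y)
      (c : OpenIn U (aff k (MvPolynomial (Fin (n + 1)) R))),
      ε.hom ≫ PSf k R n = P.f ∧ s.g ≫ B.q = 𝟙 P.X ∧ Complementary s j ∧
      (∀ p : PrimeSpectrum (MvPolynomial (Fin (n + 1)) R),
        (∃ u : U.X, ofPt (c.g u) = p) ↔ ∃ l, (MvPolynomial.X l) ∉ p.asIdeal) ∧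
      ∀ (u : U.X) (m : ℕ) (f : MvPolynomial (Fin (n + 1)) R), f.IsHomogeneous m →
        (f ∈ (show ProjectiveSpectrum (gr R n) from
          ε.hom (B.q (j.g u))).asHomogeneousIdeal.toIdeal ↔ f ∈ (ofPt (c.g u)).asIdeal)

/-- **BPL**: pull-back of a line bundle with a section to a closed subvariety.
Proof.  Fibre products (`pullback`), as in exists_linePr, exists_lineOpen (G_LND); the local
trivialisations are pulled back; `Complementary` and the last statement from `cart_range`. -/
def S_BPL : Prop :=
  ∀ (k : Type) [Field k] {P Y U : Var k} (B : Bun Y P) (s : ClosedIn P Y) (j : OpenIn U Y),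
    s.g ≫ B.q = 𝟙 P.X → Complementary s j → ∀ {X : Var k} (g : ClosedIn X P),
    ∃ (Y' U' : Var k) (B' : Bun Y' X) (s' : ClosedIn X Y') (j' : OpenIn U' Y')
      (b : ClosedIn U' U), s'.g ≫ B'.q = 𝟙 X.X ∧ Complementary s' j' ∧
      ∀ u : U.X, u ∈ Set.range b.g ↔ B.q (j.g u) ∈ Set.range g.g

/-- **BCO**: from the affine cone to the projective variety, for a class `P` of varieties.
Proof.  `S_UNI`, `S_BPL` for `X → P` (`ε⁻¹` after `S.g`): `U' → U` closed with image the `u` with
`f_j ∈ ofPt (c u)` for all `j` (`ProjSub.range`, homogeneity).  `C = aff k (A / (f))`, closed in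
`aff k A`, `A = R[x_0, ..., x_n]`; the vertex is the closed subvariety `Spec R` of `C` (`x ↦ 0`; the
`f_j` have no constant term).  `C° = C ∩ U` (fibre product), open in `C` with complement the vertex:
`P C°` by `cut`.  `C° → U` closed with the same image as `U' → U`: `P U'` by `range`.  `P X` by
`contract`. -/
def S_BCO : Prop :=
  ∀ (k : Type) [Field k] (P : Var k → Prop),
    (∀ {Z U X : Var k} (a : ClosedIn Z X) (j : OpenIn U X), Complementary a j → P X → P Z → P U) →
    (∀ {X Y W : Var k} (a : ClosedIn X W) (b : ClosedIn Y W), Set.range a.g = Set.range b.g →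
      P X → P Y) →
    (∀ {Y X U : Var k} (B : Bun Y X) (s : ClosedIn X Y) (j : OpenIn U Y), s.g ≫ B.q = 𝟙 X.X →
      Complementary s j → P U → P X) →
    ∀ (R ι : Type) [CommRing R] [Algebra k R] [Algebra.FiniteType k R] (n : ℕ)
      (f : ι → MvPolynomial (Fin (n + 1)) R) (m : ι → ℕ), (∀ j, (f j).IsHomogeneous (m j)) →
      (∀ j, 1 ≤ m j) → P (aff k R) →
      P (aff k (MvPolynomial (Fin (n + 1)) R ⧸ Ideal.span (Set.range f))) →
      ∀ (X : Var k) (_ : ProjSub f X), P X

def M_BCO : Prop := S_UNI → S_BPL → S_BCO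

end QCV
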