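import Pool.Agent.QCV.Defs2

/-!
# QCV: statements of the ring half, with proofs in the doc strings

Overview.  `P` is a property of finitely generated `k`-algebras with `Cls k d P` (closed under
isomorphisms, gluing, passing to open parts, products with the affine line, descent along double
covers; contains all rings of dimension at most `d`).

* `S_NOE`, `S_SPR`: noetherian induction on the base `R` of a family `ER f` of affine varieties
  over `R`; so it suffices to treat integral bases which may be shrunk.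
* `S_QUA`: `P` holds for `R[x_1, ..., x_n] / (f)`, `deg f ≤ 2`, `dim R ≤ d`, for all `n`.
  Induction on `n`: `S_Q01` (`n ≤ 1`), `S_QST` (`n + 2`): over an integral base, `a, b, c` the
  coefficients of `x_0 ^ 2, x_0 x_1, x_1 ^ 2`.  If `a = 0`, then `f = g x_0 + h` with `deg g ≤ 1`,
  `deg h ≤ 2`, and `S_LNF` applies.  If `a ≠ 0`, invert `a` and pass to the double cover
  `T = R[t] / (t ^ 2 + (b / a) t + c / a)` (`dbl`); the substitution `x_0 = t y_0 + y_1`,
  `x_1 = y_0` (`S_SUB`) kills the coefficient of `y_0 ^ 2`, and `S_LNF` applies over `T`.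
* `S_VRP`: `P` holds for `VR S f`, `S = R[x_1, ..., x_n]`, `f_1, ..., f_r` of degree at most two,
  if `dim R + r - 1 ≤ d`.
* `S_IGE`: the case `i ≥ n` for `dim R ≤ 1`.
-/

set_option autoImplicit false

open CategoryTheory AlgebraicGeometry Polynomial

namespace QCV

open Pool.Agent.Lib_helper55.Beil Pool.Agent.Lib_helper66.OneP CUB

/-! ## Dimension -/

/-- **DLR** (dimension facts).
Proofs.  `rdim k p` is the transcendence degree of `A / p` over `k` (`CUB.rdim`).
(1) `CUB.rdim_comap` (a prime of `B` is the preimage of its preimage, same dimension).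
(2) `CUB.rdim_comap_opn` and `CUB.isOpenImmersion_spm` (or: `A / p → B / P`, where `P` is the prime
over `p`, is a localisation of domains, `trdeg` does not change).
(3) for a prime `P` of `B` over `p`, `A / p → B / P` is injective and integral, so the transcendence
degrees agree (`Algebra.IsAlgebraic` + `trdeg` in towers: `Algebra.trdeg_eq_of_isAlgebraic` or as in
`CUB.coheight_eq_one`, `BR3.lean`).
(4) for a prime `P` of `A[X]` over `p`: `P` contains `pX p = p A[X]`, and
`rdim k P ≤ rdim k (pX p) = rdim k p + 1` (`CUB.rdim_le`, `CUB.rdim_pX`, `CUB.pX_le`).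
(5) if `f ≠ 0` in the domain `B`, a prime `P` of `B / (f)` has preimage `Q ≠ ⊥` in `B`, so
`rdim k Q + 1 ≤ rdim k ⊥ ≤ d + 1` (`CUB.rdim_add_one_le`). -/
def S_DLR : Prop :=
  (∀ (k A B : Type) [Field k] [CommRing A] [Algebra k A] [CommRing B] [Algebra k B] (d : ℕ)
    (φ : A →ₐ[k] B), Function.Surjective φ → DL k A d → DL k B d) ∧
  (∀ (k A B : Type) [Field k] [CommRing A] [Algebra k A] [Algebra.FiniteType k A] [CommRing B]
    [Algebra k B] [Algebra.FiniteType k B] (d : ℕ) (a : A) (φ : A →ₐ[k] B),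
    @IsLocalization.Away A _ a B _ φ.toRingHom.toAlgebra → DL k A d → DL k B d) ∧
  (∀ (k A B : Type) [Field k] [CommRing A] [Algebra k A] [Algebra.FiniteType k A] [CommRing B]
    [Algebra k B] [Algebra.FiniteType k B] [Algebra A B] [IsScalarTower k A B] [Module.Finite A B]
    (d : ℕ), DL k A d → DL k B d) ∧
  (∀ (k A : Type) [Field k] [CommRing A] [Algebra k A] [Algebra.FiniteType k A] (d : ℕ),
    DL k A d → DL k A[X] (d + 1)) ∧
  (∀ (k B : Type) [Field k] [CommRing B] [Algebra k B] [Algebra.FiniteType k B] [IsDomain B]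
    (d : ℕ) (f : B), f ≠ 0 → DL k B (d + 1) → DL k (B ⧸ Ideal.span {f}) d)

/-- **DLM**: `DL A d → DL (MvPolynomial (Fin n) A) (d + n)`.
Proof.  Induction on `n` with `MvPolynomial.isEmptyAlgEquiv` and `MvPolynomial.finSuccEquiv` (both
restricted to `k`), `S_DLR` (1) for the isomorphisms, (4). -/
def S_DLM : Prop :=
  ∀ (k A : Type) [Field k] [CommRing A] [Algebra k A] [Algebra.FiniteType k A] (d n : ℕ),
    DL k A d → DL k (MvPolynomial (Fin n) A) (d + n)

def M_DLM : Prop := S_DLR → S_DLM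

/-! ## Noetherian induction -/

/-- **NOE** (noetherian induction).
Proof.  Show by noetherian induction on the ideal `I` of `R` (`IsNoetherianRing R`, as `R` is of
finite type over the field `k`; `IsNoetherian.induction` or `WellFoundedGT`) the claim
`C(I) : F (R / I) (Ideal.Quotient.mkₐ k I)`.  Assume `C(J)` for all `J > I`.
* `I = ⊤`: `triv`.
* `I` prime: `D = R / I`.  Let `a ≠ 0` in `D` be as in the hypothesis, `a` the image of `a' ∈ R`,
  `J = I + (a')`, `J > I`.  `glue` for `A = R / I`, `Z = R / J` (`z = Ideal.Quotient.factorₐ`, kernel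
  `(a)`), `U = Localization.Away a` (`u = awayHom k a`, `CUB.isLocalization_awayHom`).
* `I ≠ ⊤` not prime: there are `a, b ∉ I` with `a b ∈ I`.  Let `Ja = I + (a)`, `Jb = I + (b)`,
  `Jab = I + (a, b)`, all `> I`.  Put `U = Localization.Away (image of a in R / Jb)`.  By `opn` for
  `A = R / Jb`, `Z = R / Jab`, `U`: `F U _`.  The composition `u : R / I → R / Jb → U` is also a
  localisation away from the image of `a` in `R / I`: in `(R / I)[1 / a]` the element `b` is zero,
  as `a b = 0`; so the kernel `Jb / I` of `R / I → R / Jb` dies in `(R / I)[1 / a]`.  Then `glue` for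
  `A = R / I`, `Z = R / Ja`, `U`.
The homomorphisms from `R` agree (`AlgHom.ext`, `Subsingleton`-free, by `rfl` after `mk` surjective).
At the end `C(⊥)` and the isomorphism `R / ⊥ ≃ R` (`AlgEquiv.quotientBot`), `iso`. -/
def S_NOE : Prop :=
  ∀ (k R : Type) [Field k] [CommRing R] [Algebra k R] [Algebra.FiniteType k R]
    (F : ∀ (S : Type) [CommRing S] [Algebra k S] [Algebra.FiniteType k S], (R →ₐ[k] S) → Prop),
    Cls1 k R F →
    (∀ (D : Type) [CommRing D] [IsDomain D] [Algebra k D] [Algebra.FiniteType k D]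
      (ψ : R →ₐ[k] D), Function.Surjective ψ →
      ∃ a : D, a ≠ 0 ∧ F (Localization.Away a) ((awayHom k a).comp ψ)) →
    F R (AlgHom.id k R)

/-- **FAM** (base change of `ER f`).
Proof.  (1) For a homomorphism `ψ : R → S` the homomorphism `MvPolynomial.map ψ` (as `mapAlgHom`)
maps `span (range f)` into `span (range (mf ψ f))` and induces `ψ' : ER f → ER (mf ψ f)`
(`Ideal.quotientMapₐ` or `Ideal.Quotient.liftₐ`).
(2) `ψ = z` surjective with kernel `(a)`: `z'` is surjective (`MvPolynomial.map_surjective`); its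
kernel: `map z G ∈ span (range (mf z f))`, i.e. `map z G = ∑ H_j map z (f_j) = map z (∑ H'_j f_j)`,
so `G - ∑ H'_j f_j` has all coefficients in `ker z = (a)`, so it is a multiple of `C a`
(`MvPolynomial.ker_map`, `Ideal.map_span`, or coefficientwise).  Slicker: the image of
`span (range f)` under the surjection `map z` is `span (range (mf z f))` (`Ideal.map_span`,
`Set.range_comp`), and `ker (map z) = Ideal.map C (ker z) = span {C a}` (`MvPolynomial.ker_map`);
then `Ideal.comap_map_of_surjective`.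
(3) `ψ = u` the localisation away from `a`: `MvPolynomial (Fin n) U` is the localisation of
`MvPolynomial (Fin n) R` away from `C a` (`MvPolynomial.isLocalization`), and localisation commutes
with quotients (`IsLocalization.of_surjective`/`Ideal.Quotient`..., e.g.
`IsLocalization.Away.quotient`...; or by the universal property: check the three axioms
`map_units`, `surj`, `exists_of_eq`, using that
`span (range (mf u f))` is the extension of `span (range f)` and
`IsLocalization.mem_map_algebraMap_iff`).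
(4) an isomorphism `e : R ≃ S` induces an isomorphism: `Ideal.quotientEquivAlg` with
`MvPolynomial.mapAlgEquiv`-type isomorphism and `Ideal.map_span`. -/
def S_FAM : Prop :=
  (∀ (k R Z U ι : Type) [Field k] [CommRing R] [Algebra k R] [CommRing Z] [Algebra k Z]
    [CommRing U] [Algebra k U] (n : ℕ) (a : R) (z : R →ₐ[k] Z) (u : R →ₐ[k] U)
    (f : ι → MvPolynomial (Fin n) R), Strat a z u →
    ∃ (z' : ER f →ₐ[k] ER (mf z.toRingHom f)) (u' : ER f →ₐ[k] ER (mf u.toRingHom f)),
      Strat (Ideal.Quotient.mk _ (MvPolynomial.C a) : ER f) z' u') ∧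
  (∀ (k R S ι : Type) [Field k] [CommRing R] [Algebra k R] [CommRing S] [Algebra k S] (n : ℕ)
    (e : R ≃ₐ[k] S) (f : ι → MvPolynomial (Fin n) R),
    Nonempty (ER f ≃ₐ[k] ER (mf (e.toAlgHom).toRingHom f)))

/-- **SPR** (spreading out).
Proof.  For `R, f` as in the conclusion apply `S_NOE` to `F S ψ := P (ER (mf ψ.toRingHom f))`.
`Cls1` follows from `Cls0` and `S_FAM` (`mf` of a composition is the composition of the `mf`:
`MvPolynomial.map_map`; rewrite the families with `funext`); `triv`: if `S` is the zero ring, then so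
is `ER` (`Subsingleton` of `MvPolynomial` and of the quotient).  The hypothesis of `S_NOE`: for
`ψ : R → D` surjective, `DL k D d` by `S_DLR` (1), `Θ D (mf ψ f)` by `hΘ`, and the hypothesis `h`
gives `a`; again `MvPolynomial.map_map`, and `awayHom k a` is `algebraMap`.  At the end
`mf (AlgHom.id k R) f = f`. -/
def S_SPR : Prop :=
  ∀ (k ι : Type) [Field k]
    (P : ∀ (A : Type) [CommRing A] [Algebra k A] [Algebra.FiniteType k A], Prop) (_ : Cls0 k P)
    (d n : ℕ) (Θ : ∀ (R : Type) [CommRing R], (ι → MvPolynomial (Fin n) R) → Prop)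
    (_ : ∀ (R S : Type) [CommRing R] [CommRing S] (ψ : R →+* S) (f : ι → MvPolynomial (Fin n) R),
      Θ R f → Θ S (mf ψ f))
    (_ : ∀ (D : Type) [CommRing D] [IsDomain D] [Algebra k D] [Algebra.FiniteType k D]
      (f : ι → MvPolynomial (Fin n) D), DL k D d → Θ D f →
      ∃ a : D, a ≠ 0 ∧ P (ER (mf (algebraMap D (Localization.Away a)) f)))
    (R : Type) [CommRing R] [Algebra k R] [Algebra.FiniteType k R]
    (f : ι → MvPolynomial (Fin n) R), DL k R d → Θ R f → P (ER f)

def M_SPR : Prop := S_DLR → S_NOE → S_FAM → S_SPR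

/-! ## Affine spaces and linear equations -/

/-- **PLY**.  (1) `P A → P (MvPolynomial (Fin n) A)`: induction on `n` with
`MvPolynomial.isEmptyAlgEquiv`, `MvPolynomial.finSuccEquiv` (restricted to `k`), `iso`, `line`.
(2) if all `f j = 0` and `P R`, then `P (ER f)`: `span (range f) = ⊥`, `AlgEquiv.quotientBot`.
(3) if the `f j` generate the unit ideal then `P (ER f)`: `triv`. -/
def S_PLY : Prop :=
  ∀ (k : Type) [Field k]
    (P : ∀ (A : Type) [CommRing A] [Algebra k A] [Algebra.FiniteType k A], Prop) (_ : Cls0 k P)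
    (_ : ∀ (A : Type) [CommRing A] [Algebra k A] [Algebra.FiniteType k A], P A → P A[X])
    (R : Type) [CommRing R] [Algebra k R] [Algebra.FiniteType k R] (n : ℕ),
    (P R → P (MvPolynomial (Fin n) R)) ∧
    (∀ (ι : Type) (f : ι → MvPolynomial (Fin n) R), (∀ j, f j = 0) → P R → P (ER f)) ∧
    (∀ (ι : Type) (f : ι → MvPolynomial (Fin n) R), (1 ∈ Ideal.span (Set.range f)) → P (ER f))

/-- **ELI** (elimination of a variable).  If `f 0` has degree at most one and the coefficient of
some `x_j` in `f 0` is a unit, then `ER f` is isomorphic to `ER` of one polynomial `h'` of degree at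
most two in one variable less.
Proof.  A permutation of the variables (`MvPolynomial.renameEquiv`) reduces to `j = 0` (or work with
general `j` and `Fin.succAbove`).  `f 0 = u x_0 + l`, where `l` is a polynomial of degree at most one
in the other variables (compare coefficients; e.g. `finSuccEquiv (f 0) = C (C u) * X + C l`).  The
homomorphism `MvPolynomial (Fin (n + 1)) R → MvPolynomial (Fin n) R`, `x_0 ↦ - u⁻¹ l`,
`x_(j+1) ↦ x_j` is surjective with kernel `(f 0)`: it is the composition of `finSuccEquiv` and the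
evaluation at `- u⁻¹ l`, whose kernel is generated by `X + u⁻¹ l` (`Polynomial.ker_evalRingHom`).
It maps `f 1` to a polynomial `h'` of degree at most two (`MvPolynomial.totalDegree` of a
substitution of polynomials of degree at most one: monomialwise).  Hence
`ER f ≅ MvPolynomial (Fin n) R / (h')`. -/
def S_ELI : Prop :=
  ∀ (k R : Type) [Field k] [CommRing R] [Algebra k R] (n : ℕ)
    (f : Fin 2 → MvPolynomial (Fin (n + 1)) R) (j : Fin (n + 1)), (f 0).totalDegree ≤ 1 →
    (f 1).totalDegree ≤ 2 → IsUnit (MvPolynomial.coeff (Finsupp.single j 1) (f 0)) →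
    ∃ h : Fin 1 → MvPolynomial (Fin n) R, (h 0).totalDegree ≤ 2 ∧ Nonempty (ER f ≃ₐ[k] ER h)

/-- **TWQ**: one linear and one quadratic equation, if one quadratic equation is known.
Proof.  `S_SPR` with `ι = Fin 2`, `Θ R f := deg (f 0) ≤ 1 ∧ deg (f 1) ≤ 2`
(`MvPolynomial.totalDegree_map_le`).  `D` a domain.
* `f 0 = 0`: `a = 1`, `ER f' ≅ ER (fun _ : Fin 1 => f' 1)` (the ideals `span (range f')` and
  `span {f' 1}` agree), `Qn k P d n` over `Localization.Away 1` (`DL` by `S_DLR` (2)).
* `f 0 = C u`, `u ≠ 0`: `a = u`, `C u` is a unit in `MvPolynomial _ (D_u)`, `S_PLY` (3).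
* otherwise, as `deg (f 0) ≤ 1`, some coefficient `u = coeff (single j 1) (f 0)` is not zero (so
  `n ≥ 1`, `n = n' + 1`); `a = u`, `S_ELI` over `D_u`, `Qn k P d n'`. -/
def S_TWQ : Prop :=
  ∀ (k : Type) [Field k]
    (P : ∀ (A : Type) [CommRing A] [Algebra k A] [Algebra.FiniteType k A], Prop) (d n : ℕ),
    Cls k d P → (∀ m, m ≤ n → Qn k P d m) → Ln k P d n

def M_TWQ : Prop := S_DLR → S_SPR → S_PLY → S_ELI → S_TWQ

/-! ## Equations of degree one in one variable -/

/-- **LNR** (commutative algebra).  `B = S[X] / (g X + h)`.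
Proof.  (1) `z : B → (S / (g, h))[X]` is induced by `Polynomial.map (mk)` (it maps `g X + h` to
zero); surjective; kernel: `Polynomial.map mk F = 0` iff all coefficients of `F` are in `(g, h)` iff
`F ∈ (C g, C h)`; modulo `g X + h` we have `h = - g X`, so `F ∈ (g)` in `B`.
(2) `u : B → U`, `X ↦ - h / g`: localisation away from `g`.  It is well defined; `g` is mapped to a
unit; surjectivity up to denominators is clear as `S → U` has it; if `F ∈ S[X]` is mapped to zero in
`U`: with `N = natDegree F`, `g ^ N F ≡ s mod (g X + h)` for some `s ∈ S` (replace `g X` by `- h`;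
induction on the degree, or `Polynomial.scaleRoots`), `s` is zero in `U`, so `g ^ M s = 0` in `S`, so
`g ^ (N + M) F = 0` in `B`.  Slicker: `B[1 / g] = S[1 / g][X] / (X + h / g) = S[1 / g]`. -/
def S_LNR : Prop :=
  ∀ (k S U : Type) [Field k] [CommRing S] [Algebra k S] [CommRing U] [Algebra k U] (g h : S)
    (u : S →ₐ[k] U), @IsLocalization.Away S _ g U _ u.toRingHom.toAlgebra →
    ∃ (z' : (S[X] ⧸ Ideal.span {C g * X + C h}) →ₐ[k] (S ⧸ Ideal.span {g, h})[X])
      (u' : (S[X] ⧸ Ideal.span {C g * X + C h}) →ₐ[k] U),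
      Strat (Ideal.Quotient.mk _ (C g) : S[X] ⧸ Ideal.span {C g * X + C h}) z' u'

/-- **LNF**: `P (S[X] / (g X + h))` for `S = R[x_1, ..., x_m]`, `deg g ≤ 1`, `deg h ≤ 2`.
Proof.  `P (S / (g, h))` by `Ln k P d m` for the family `![g, h]` (the ideal `span {g, h}` is
`span (range ![g, h])`); `P (S / (g))` by `Ln` for `![g, 0]`; `P S` by `S_PLY` (1) and `base`;
`P (S_g)` by `opn` (`A = S`, `Z = S / (g)`, `U = Localization.Away g`); `P ((S / (g, h))[X])` by
`line`; `glue` with `S_LNR`. -/
def S_LNF : Prop :=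
  ∀ (k : Type) [Field k]
    (P : ∀ (A : Type) [CommRing A] [Algebra k A] [Algebra.FiniteType k A], Prop) (d m : ℕ),
    Cls k d P → Ln k P d m →
    ∀ (R : Type) [CommRing R] [Algebra k R] [Algebra.FiniteType k R] (g h : MvPolynomial (Fin m) R),
      DL k R d → g.totalDegree ≤ 1 → h.totalDegree ≤ 2 →
      P ((MvPolynomial (Fin m) R)[X] ⧸ Ideal.span {C g * X + C h})

def M_LNF : Prop := S_PLY → S_LNR → S_LNF

/-- **LIN** (a polynomial of degree at most two without `x_0 ^ 2`).
Proof.  `finSuccEquiv f` has coefficients `c_i ∈ MvPolynomial (Fin m) R` with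
`deg c_i + i ≤ 2` when `c_i ≠ 0` (`MvPolynomial.finSuccEquiv_coeff_coeff`,
`MvPolynomial.totalDegree_coeff_finSuccEquiv_add_le` or so); `c_2` has degree zero and its constant
coefficient is the coefficient of `x_0 ^ 2` in `f`, so `c_2 = 0`.  Hence
`finSuccEquiv f = C c_1 * X + C c_0`; `g = c_1`, `h = c_0`, and `finSuccEquiv` (restricted to `k`)
induces the isomorphism of the quotients. -/
def S_LIN : Prop :=
  ∀ (k R : Type) [Field k] [CommRing R] [Algebra k R] (m : ℕ)
    (f : Fin 1 → MvPolynomial (Fin (m + 1)) R), (f 0).totalDegree ≤ 2 →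
    MvPolynomial.coeff (Finsupp.single 0 2) (f 0) = 0 →
    ∃ g h : MvPolynomial (Fin m) R, g.totalDegree ≤ 1 ∧ h.totalDegree ≤ 2 ∧
      Nonempty (ER f ≃ₐ[k] ((MvPolynomial (Fin m) R)[X] ⧸ Ideal.span {C g * X + C h}))

/-- **SUB** (the substitution `x_0 = t y_0 + y_1`, `x_1 = y_0`).
Proof.  `σ = MvPolynomial.aeval` with `x_0 ↦ t x_0 + x_1`, `x_1 ↦ x_0`, `x_j ↦ x_j` for `j ≥ 2` is an
automorphism of `R`-algebras; the inverse maps `x_0 ↦ x_1`, `x_1 ↦ x_0 - t x_1`.  It maps
polynomials of degree at most two to such polynomials (monomialwise).  The coefficient of `x_0 ^ 2`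
in `σ f` is `a t ^ 2 + b t + c` (only the monomials `x_0 ^ 2, x_0 x_1, x_1 ^ 2` of `f` contribute: for
a monomial `x ^ m` of degree at most two, put `x_j = 0` for `j ≥ 2` and `x_1 = 0` after `σ`: the
coefficient of `x_0 ^ 2` in `σ (x ^ m)` is the coefficient of `X ^ 2` in the polynomial obtained by
`x_0 ↦ t X`, `x_1 ↦ X`, `x_j ↦ 0`).  The automorphism induces an isomorphism of the quotients. -/
def S_SUB : Prop :=
  ∀ (k R : Type) [Field k] [CommRing R] [Algebra k R] (n : ℕ)
    (f : Fin 1 → MvPolynomial (Fin (n + 2)) R) (t : R), (f 0).totalDegree ≤ 2 →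
    MvPolynomial.coeff (Finsupp.single 0 2) (f 0) * t ^ 2 +
      MvPolynomial.coeff (Finsupp.single 0 1 + Finsupp.single 1 1) (f 0) * t +
      MvPolynomial.coeff (Finsupp.single 1 2) (f 0) = 0 →
    ∃ f' : Fin 1 → MvPolynomial (Fin (n + 2)) R, (f' 0).totalDegree ≤ 2 ∧
      MvPolynomial.coeff (Finsupp.single 0 2) (f' 0) = 0 ∧ Nonempty (ER f ≃ₐ[k] ER f')

/-- **DRI** (double covers of the base).  `Dr (ER f) b c` is `ER` of the same polynomials over
`Dr R b c`.
Proof.  Both rings are the quotient of `R[x_1, ..., x_n, t]` by the `f j` and `t ^ 2 + b t + c`.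
Homomorphisms in both directions: `Dr (ER f) b c → ER (mf _ f)` is `AdjoinRoot.lift` of the base
change map `ER f → ER (mf _ f)` and the image of `root`; in the other direction
`MvPolynomial.eval₂Hom` of `Dr R b c → Dr (ER f) b c` (`AdjoinRoot.map` or `lift`), `x_j ↦ x_j`,
and `Ideal.Quotient.lift`.  They are inverse to each other (check on generators). -/
def S_DRI : Prop :=
  ∀ (k R ι : Type) [Field k] [CommRing R] [Algebra k R] (n : ℕ) (f : ι → MvPolynomial (Fin n) R)
    (b c : R),
    Nonempty (Dr (ER f) (Ideal.Quotient.mk _ (MvPolynomial.C b)) (Ideal.Quotient.mk _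
      (MvPolynomial.C c)) ≃ₐ[k] ER (mf (algebraMap R (Dr R b c)) f))

/-- **QST** (induction step).
Proof.  `S_SPR` with `ι = Fin 1`, `Θ R f := ∀ j, deg (f j) ≤ 2`.  `D` a domain, `a, b, c` the
coefficients of `x_0 ^ 2, x_0 x_1, x_1 ^ 2` in `f 0`.  `Ln k P d (n + 1)` by `S_TWQ`.
* `a = 0`: take `1 ∈ D`; over `R = Localization.Away 1` the polynomial `f'` has no `x_0 ^ 2`; `S_LIN`
  and `S_LNF`.
* `a ≠ 0`: take `a`; over `R = D_a` put `b' = b / a`, `c' = c / a`, `T = Dr R b' c'`, `t` the root.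
  `DL k T d` by `S_DLR` (2), (3).  The polynomial `mf _ f'` over `T` satisfies the hypothesis of
  `S_SUB` (`a t ^ 2 + b t + c = a (t ^ 2 + b' t + c') = 0`); `S_LIN`, `S_LNF` over `T` give
  `P (ER (mf _ f'))`, so `P (Dr (ER f') _ _)` by `S_DRI`, so `P (ER f')` by `dbl`. -/
def S_QST : Prop :=
  ∀ (k : Type) [Field k]
    (P : ∀ (A : Type) [CommRing A] [Algebra k A] [Algebra.FiniteType k A], Prop) (d n : ℕ),
    Cls k d P → (∀ m, m ≤ n + 1 → Qn k P d m) → Qn k P d (n + 2)

def M_QST : Prop := S_DLR → S_SPR → S_TWQ → S_LNF → S_LIN → S_SUB → S_DRI → S_QST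

/-- **Q01** (`n = 0` and `n = 1`).
Proof.  `n = 0`: `ER f` is a quotient of `MvPolynomial (Fin 0) R ≅ R`, so `DL k (ER f) d` by `S_DLR`
(1); `base`.  `n = 1`: `S_SPR`: `D` a domain, `a = 1`, `D' = Localization.Away 1` a domain with
`DL k D' d`.  If `f 0 = 0`, `S_PLY` (2) and `base`.  If `f 0 ≠ 0`, then its image over `D'` is not
zero (`D → D'` is injective, even bijective), `MvPolynomial (Fin 1) D'` is a domain with
`DL _ (d + 1)` (`S_DLM`), so `DL k (ER f') d` by `S_DLR` (5); `base`. -/
def S_Q01 : Prop :=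
  ∀ (k : Type) [Field k]
    (P : ∀ (A : Type) [CommRing A] [Algebra k A] [Algebra.FiniteType k A], Prop) (d : ℕ),
    Cls k d P → Qn k P d 0 ∧ Qn k P d 1

def M_Q01 : Prop := S_DLR → S_DLM → S_SPR → S_PLY → S_Q01

/-- **QUA**: strong induction on `n` with `S_Q01`, `S_QST`. -/
def S_QUA : Prop :=
  ∀ (k : Type) [Field k]
    (P : ∀ (A : Type) [CommRing A] [Algebra k A] [Algebra.FiniteType k A], Prop) (d : ℕ),
    Cls k d P → ∀ n, Qn k P d n

def M_QUA : Prop := S_Q01 → S_QST → S_QUA

/-! ## The varieties `y ^ 2 - y = ∑ t_j f_j` -/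

/-- **PRD** (two disjoint copies): `P A → P (A[y] / (y ^ 2 - y))`.
Proof.  `B = Q A 0`, `y = yy 0` is an idempotent.  `z : B → A`, `y ↦ 0` (`Qlift (AlgHom.id) 0`) is
surjective with kernel `(y)` (`Q_span`: `a + b y ↦ a`).  `u : B → A`, `y ↦ 1`: surjective with kernel
`(1 - y)`, and it is a localisation away from `y`: `y ↦ 1` is a unit; if `a + b y ↦ a + b = 0` then
`(a + b y) y = (a + b) y = 0`.  `glue`. -/
def S_PRD : Prop :=
  ∀ (k : Type) [Field k]
    (P : ∀ (A : Type) [CommRing A] [Algebra k A] [Algebra.FiniteType k A], Prop), Cls0 k P →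
    ∀ (A : Type) [CommRing A] [Algebra k A] [Algebra.FiniteType k A], P A → P (Q A 0)

/-- **V1R** (commutative algebra): `V = A[t][y] / (y ^ 2 - y - t F)`.
Proof.  (1) `z : V → Q ((A / F)[X]) 0` is `Qmap (mapX mk)` (`t F ↦ 0`); surjective
(`Qmap_surjective`), kernel `(F)`: by `Q_span` an element is `p + q y` with `p, q ∈ A[X]`; it is
mapped to zero iff `map mk p = map mk q = 0` iff all coefficients of `p`, `q` are divisible by `F`.
(uniqueness of `p + q y` in `Q ((A / F)[X]) 0`: it is free with basis `1, y`).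
(2) `u : V → U[X]`, where `A → U` is the localisation away from `F`: `y ↦ X`, `t ↦ (X ^ 2 - X) / F`;
it is a localisation away from `F`: `F ↦` unit; surjectivity up to denominators:
`X ↤ y`, `s ∈ A ↦ s`; injectivity up to `F`-power: let `p + q y ∈ V` be mapped to zero; modulo a
power of `F` replace `t F` by `y ^ 2 - y`: `F ^ N (p + q y) = G(y)` for some `G ∈ A[Y]`, whose image
in `U[X]` is `G(X) = 0`, so `F ^ M G = 0`, so `F ^ (N + M) (p + q y) = 0`. -/
def S_V1R : Prop :=
  ∀ (k A U : Type) [Field k] [CommRing A] [Algebra k A] [CommRing U] [Algebra k U] (F : A)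
    (u : A →ₐ[k] U), @IsLocalization.Away A _ F U _ u.toRingHom.toAlgebra →
    ∃ (z' : Q A[X] (X * C F) →ₐ[k] Q ((A ⧸ Ideal.span {F})[X]) 0) (u' : Q A[X] (X * C F) →ₐ[k] U[X]),
      Strat (algebraMap A[X] (Q A[X] (X * C F)) (C F)) z' u'

/-- **V1P**: `P A`, `P (A / F)` imply `P (V)`, `V = A[t][y] / (y ^ 2 - y - t F)`, and `P` of the open
part `t ≠ 0` of `V`.
Proof.  (1) `P (A_F)` by `opn`, `P (A_F[X])` by `line`; `P ((A / F)[X])` by `line`, `S_PRD`; `glue`
with `S_V1R`.
(2) `V / (t) ≅ Q A 0` (`P` by `S_PRD`): the homomorphism `Qmap (evaluation at 0)` is surjective with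
kernel `(t)`; `opn`. -/
def S_V1P : Prop :=
  ∀ (k : Type) [Field k]
    (P : ∀ (A : Type) [CommRing A] [Algebra k A] [Algebra.FiniteType k A], Prop), Cls0 k P →
    (∀ (A : Type) [CommRing A] [Algebra k A] [Algebra.FiniteType k A], P A → P A[X]) →
    ∀ (A : Type) [CommRing A] [Algebra k A] [Algebra.FiniteType k A] (F : A), P A →
      P (A ⧸ Ideal.span {F}) →
      P (Localization.Away (algebraMap A[X] (Q A[X] (X * C F)) X))

def M_V1P : Prop := S_PRD → S_V1R → S_V1P

/-- The polynomial `f_0 + ∑ s_j f_(j+1)` over `S[s_1, ..., s_r]`. -/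
noncomputable def fs {r : ℕ} {S : Type} [CommRing S] (f : Fin (r + 1) → S) :
    MvPolynomial (Fin r) S :=
  MvPolynomial.C (f 0) + ∑ j, MvPolynomial.X j * MvPolynomial.C (f j.succ)

/-- **VRQ** (commutative algebra): the strata `t_0 = 0` and `t_0 ≠ 0` of `VR S f`.
Proof.  `V = VR S f = S[t_0, ..., t_r][y] / (y ^ 2 - y - ∑ t_j f_j)`.
(1) `z' : V → VR S (f ∘ succ)`, `t_0 ↦ 0`, `t_(j+1) ↦ t_j`, `y ↦ y`: surjective with kernel `(t_0)`:
`Qmap` of the homomorphism `S[t_0, ..., t_r] → S[t_1, ..., t_r]`, whose kernel is `(t_0)`.  (Compute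
in the basis `1, y`, or: `Qmap φ` for a surjective `φ` with kernel `(a)` has kernel `(a)`.)
(2) `u' : V → Localization.Away t`, `t_0 ↦ t`, `t_(j+1) ↦ t s_j`, `y ↦ y`, where `t = X` in
`Q (S[s_1, ..., s_r][X]) (X * C (fs f))` (`∑ t_j f_j ↦ t f_0 + ∑ t s_j f_(j+1) = t (fs f)`).  It is
a localisation away from `t_0`: `t_0 ↦` unit.  General principle: if `φ : A → B` is a homomorphism
with `φ a = a'`, `ψ : B → A_a` with `ψ ∘ φ = ` the localisation map and `φ_a ∘ ψ = ` the localisation
map `B → B_(a')`, then `A_a ≅ B_(a')` and `A → B_(a')` is a localisation.  Here `ψ : B → V_(t_0)`,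
`s_j ↦ t_(j+1) / t_0`, `X ↦ t_0`, `y ↦ y`. -/
def S_VRQ : Prop :=
  ∀ (k S : Type) [Field k] [CommRing S] [Algebra k S] (r : ℕ) (f : Fin (r + 1) → S),
    ∃ (z' : VR S f →ₐ[k] VR S (fun j : Fin r => f j.succ))
      (u' : VR S f →ₐ[k] Localization.Away (algebraMap (MvPolynomial (Fin r) S)[X]
        (Q (MvPolynomial (Fin r) S)[X] (X * C (fs f))) X)),
      Strat (algebraMap (MvPolynomial (Fin (r + 1)) S) (VR S f) (MvPolynomial.X 0)) z' u'

/-- **SWP**: `S[s_1, ..., s_r] / (fs f)` for `S = R[x_1, ..., x_n]` is `ER` of one polynomial of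
degree at most two in `x_1, ..., x_n` over the base `R[s_1, ..., s_r]`.
Proof.  `R[x][s] ≅ R[s][x]` (`MvPolynomial.commAlgEquiv` restricted to `k`, or both are
`MvPolynomial (Fin n ⊕ Fin r) R`); `fs f` is mapped to `f_0 + ∑ s_j f_(j+1)` where the `f_j` are
considered as polynomials over `R[s]` (`MvPolynomial.map C`), of degree at most two in `x`
(`totalDegree_map_le`, `totalDegree_add_le`, `totalDegree_mul_C`...). -/
def S_SWP : Prop :=
  ∀ (k R : Type) [Field k] [CommRing R] [Algebra k R] (n r : ℕ)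
    (f : Fin (r + 1) → MvPolynomial (Fin n) R), (∀ j, (f j).totalDegree ≤ 2) →
    ∃ F : Fin 1 → MvPolynomial (Fin n) (MvPolynomial (Fin r) R), (∀ j, (F j).totalDegree ≤ 2) ∧
      Nonempty ((MvPolynomial (Fin r) (MvPolynomial (Fin n) R) ⧸ Ideal.span {fs f}) ≃ₐ[k] ER F)

/-- **VRP**.
Proof.  Induction on `r` (for `f : Fin r → S`, `S = MvPolynomial (Fin n) R`; the hypothesis is
`e + r ≤ d + 1`, and `e ≤ d`).
* `r = 0`: `VR S f = Q (MvPolynomial (Fin 0) S) (lin f)`, `lin f = 0` (empty sum), so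
  `VR S f = Q (MvPolynomial (Fin 0) S) 0`; `S_PRD`, `P (MvPolynomial (Fin 0) S)` by `S_PLY` (1)
  twice and `base`.
* `r + 1`: `S' = MvPolynomial (Fin r) S`.  `P S'` (`S_PLY` (1)).  `DL k (MvPolynomial (Fin r) R) d`
  by `S_DLM` (`e + r ≤ d`; monotone), so `P (S' / (fs f))` by `S_SWP` and `S_QUA`.  `S_V1P` for
  `A = S'`, `F = fs f`.  `P (VR S (f ∘ succ))` by induction.  `glue` with `S_VRQ`. -/
def S_VRP : Prop :=
  ∀ (k : Type) [Field k]
    (P : ∀ (A : Type) [CommRing A] [Algebra k A] [Algebra.FiniteType k A], Prop) (d e n r : ℕ),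
    Cls k d P → e ≤ d → e + r ≤ d + 1 →
    ∀ (R : Type) [CommRing R] [Algebra k R] [Algebra.FiniteType k R]
      (f : Fin r → MvPolynomial (Fin n) R), DL k R e → (∀ j, (f j).totalDegree ≤ 2) →
      P (VR (MvPolynomial (Fin n) R) f)

def M_VRP : Prop := S_DLM → S_PLY → S_QUA → S_PRD → S_V1P → S_VRQ → S_SWP → S_VRP

/-! ## Large dimension -/

/-- **IGE**: the fibres which are not the whole affine space have dimension at most `n`.
Proof.  `S_SPR` (`d := 1`, `Θ` trivially true): `D` a domain, `DL k D 1`.  If all `f j = 0`: `a = 1`,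
`P (ER f')` by hypothesis `hA`, as `f' = 0` and `ER f' ≅ MvPolynomial (Fin n) D'`,
`D' = Localization.Away 1`, `DL k D' 1` (`S_DLR` (2)).  If `f j ≠ 0`: `a = 1`,
`f' j ≠ 0` over the domain `D'`, `ER f'` is a quotient of `MvPolynomial (Fin n) D' / (f' j)` which
satisfies `DL _ n` by `S_DLM` (`DL (MvPolynomial (Fin n) D') (1 + n)`) and `S_DLR` (5), (1); `hB`. -/
def S_IGE : Prop :=
  ∀ (k ι : Type) [Field k]
    (P : ∀ (A : Type) [CommRing A] [Algebra k A] [Algebra.FiniteType k A], Prop) (n : ℕ),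
    Cls0 k P →
    (∀ (A : Type) [CommRing A] [Algebra k A] [Algebra.FiniteType k A], DL k A 1 →
      P (MvPolynomial (Fin n) A)) →
    (∀ (A : Type) [CommRing A] [Algebra k A] [Algebra.FiniteType k A], DL k A n → P A) →
    ∀ (R : Type) [CommRing R] [Algebra k R] [Algebra.FiniteType k R]
      (f : ι → MvPolynomial (Fin n) R), DL k R 1 → P (ER f)

def M_IGE : Prop := S_DLR → S_DLM → S_SPR → S_IGE

end QCV
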