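import Pool.Agent.QCV.Defs2
import Pool.Agent.CUB.StmtsV

/-!
# QCV: statement of the reduction of several equations to one, for generalised eigenspaces
-/

set_option autoImplicit false

open CategoryTheory AlgebraicGeometry Polynomial

namespace QCV

open Pool.Agent.Lib_helper55.Beil Pool.Agent.Lib_helper66.OneP CUB

universe v

/-- **RED2**.  The version of `CUB.S_RED` for the inclusion `gen ≤ alg`.
Proof: as the surjectivity part of `CUB.red_surj` (`V_RED.lean`), for a class `α` in the generalised
eigenspace instead of an invariant class. -/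
def S_RED2 : Prop := ∀ (k E : Type) [Field k] [Finite k] [Field E] [CharZero E]
  (T : ∀ i : ℕ, Homology.{v} k E i), Extra T → ∀ (R R' : Type) [CommRing R] [CommRing R']
  [Algebra k R] [Algebra k R'] [Algebra.FiniteType k R] [Algebra.FiniteType k R'] (m i : ℕ)
  (f : Fin (m + 1) → R) (ψ : R →ₐ[k] R'), Function.Surjective ψ →
  RingHom.ker ψ.toRingHom = Ideal.span (Set.range f) → (∀ z : RP k R i →₀ E, z ∈ rat k R E i) →
  (T (i + (m + 1))).gen (aff k (VR R f)) ≤ (T (i + (m + 1))).alg (aff k (VR R f)) →
  (T i).gen (aff k R') ≤ (T i).alg (aff k R')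

end QCV
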