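import Pool.Agent.QCV.Asm3

/-!
# QCV, block T: statements (the conjecture of Tate alone)

`GG T X`: for all `i` the generalised eigenspace of Frobenius for the eigenvalue one on
`H_2i(Xbar, Q_l(i))` is spanned by the classes of cycles (`Surj` and `Semisimple`).  Every constructor
of `Built` preserves `GG` alone (`gg_of_built` in T_ALL.lean), so the conjecture of Tate in dimension at
most `d` implies the conjecture of Tate on the class `Built k d`.
-/

set_option autoImplicit false

open CategoryTheory AlgebraicGeometry Limits Polynomial TopologicalSpace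

namespace QCV

open Pool.Agent.Lib_helper55.Beil Pool.Agent.Lib_helper66.OneP CUB

universe v

/-- The generalised eigenspaces of Frobenius for the eigenvalue one are spanned by classes of
cycles. -/
def GG {k : Type} [Field k] {E : Type} [Field E] (T : ∀ i : ℕ, Homology.{v} k E i) (X : Var k) :
    Prop :=
  ∀ i : ℕ, (T i).gen X ≤ (T i).alg X

/-- **TZE** (several equations).
Proof.  The first component of `red3` (G_RED3.lean): replace `AB` by its first component `AM` in
`ab_line`, `ab_iso`, `ab_step`, `ab_chain` (G_CHN.lean) and in `ab_of_pf` (G_CYC.lean: for `AM` only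
`h.1` is used), so `am_chain : AM (T (i + 1)) (n + 2) e (VR R f) τ → AM ... (VR R' (ψ ∘ f)) τ`; then
`pf_of_zero` (G_TWO.lean): its first component (`supp_sheet` and `alg_of_supp`) gives
`gen ≤ alg` for `MvPolynomial (Fin (m + 1)) R'` at the level `i + m + 1`; then descend along the
polynomial rings as in `pf_mv_desc` with the first component of `pf_line_desc` (G_LND.lean:
`supp_line_desc`, `supp_cls`, `alg_of_supp`). -/
def S_TZE : Prop :=
  ∀ (k E : Type) [Field k] [Finite k] [Field E] [CharZero E] (T : ∀ i : ℕ, Homology.{v} k E i)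
    (hT : Full T), Pub T hT → SectionZero T →
    ∀ (A : Type) [CommRing A] [Algebra k A] [Algebra.FiniteType k A] (m : ℕ)
      (f : Fin (m + 1) → A), GG T (aff k (VR A f)) →
      GG T (aff k (A ⧸ Ideal.span (Set.range f)))

/-- **TOD** (quadric cones in an odd number of variables).
Proof.  As `t_OODD` (O_OODD.lean) with `GG`: in `OODD.claim` replace `S_OPFD` by its first component
(`good_up` with `inj_G`, O_OPFD.lean; `TR` by `Asm.s_ODIA` (O_ASM.lean) or `t_ONIL`), `ppf_mv` by
iterating `good_line` (level `0`: `(pf_zero hT hP _).1`), `pf_viso` and `pf_mv_desc` by their first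
components (`(T i).glue` and `supp_line_desc`, see `S_TZE`). -/
def S_TOD : Prop :=
  ∀ (k E : Type) [Field k] [Finite k] [Field E] [CharZero E] (T : ∀ i : ℕ, Homology.{v} k E i)
    (hT : Full T) (S : DblMaps T), Pub T hT → SectionZero T → S.Frobenius →
    S.Degree hT.toProperMaps → S.Classes → S.Galois hT.toProperMaps →
    ∀ (A : Type) [CommRing A] [Algebra k A] [Algebra.FiniteType k A] (m : ℕ)
      (a : Fin (2 * m + 1) → A), (∀ j, IsUnit (a j)) → GG T (aff k A) →
      GG T (aff k (MvPolynomial (Fin (2 * m + 1)) A ⧸ Ideal.span {dia a}))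

/-- **TBU** (from the complement of a section of a line bundle to the base).
Proof.  As `t_BCT` and the first component of `t_BDS` (with `BSU.main`): descending induction,
`(T (i + 1)).glue s j hc`. -/
def S_TBU : Prop :=
  ∀ (k E : Type) [Field k] [Finite k] [Field E] [CharZero E]
    (T : ∀ i : ℕ, Homology.{v} k E i) (hT : Full T),
    Pub T hT → SectionZero T → ∀ S : BunMaps T, S.Good hT →
    ∀ {Y X U : Var k} (B : Bun Y X) (s : ClosedIn X Y) (j : OpenIn U Y), s.g ≫ B.q = 𝟙 X.X →
      Complementary s j → GG T U → GG T X

/-- **TCL** (the closed part).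
Proof.  Let `m ∈ gen Z` (level `i`).  `P a m ∈ gen X ≤ alg X` is `cls c` (`exists_cls`);
`cls (resCyc j c) = R j (P a m) = 0` (`localisation`/`exact_X`), so `resCyc j c ∈ ratZero`
(`InjC U`), so there is `c₁ ∈ ratZero` on `X` with the same restriction (`exists_ratZero`) and
`c - c₁ = pushCyc a z` (`exists_pushCyc`).  `P a (m - cls z) = cls c₁ = 0`, so `m - cls z = ∂ u`
(`bdExact`), `u` may be chosen in `gen1 U` (`maxGen_lift`), and `∂ u` is the class of a cycle by
`bd_supp` (F_GLU.lean, `BdData.hbd`).  (Compare the proof of `injC_glue3`.) -/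
def S_TCL : Prop :=
  ∀ (k E : Type) [Field k] [Finite k] [Field E] [CharZero E]
    (T : ∀ i : ℕ, Homology.{v} k E i) (hT : Full T), Pub T hT →
    ∀ {Z U X : Var k} (a : ClosedIn Z X) (j : OpenIn U X), Complementary a j → GG T X → PPF T U →
      GG T Z

/-- **TGM** (the punctured line).
Proof.  The strata `X = 0` (`A`, section of the line `aff k A[X] → aff k A`) and `X ≠ 0` of `A[X]`.
Level `i + 1`: for `m ∈ gen (A[X])` the restriction is `cls` of a cycle on the open part, which is the
restriction of a cycle `c` on `A[X]` (`exists_resCyc`), so `m - cls c = P w` comes from the section,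
which is zero by `SectionZero`.  So `gen ≤ alg` for `A[X]` at the level `i + 1`, and for `A` at the
level `i` by the first component of `pf_line_desc`. -/
def S_TGM : Prop :=
  ∀ (k E : Type) [Field k] [Finite k] [Field E] [CharZero E]
    (T : ∀ i : ℕ, Homology.{v} k E i) (hT : Full T), Pub T hT → SectionZero T →
    ∀ (A : Type) [CommRing A] [Algebra k A] [Algebra.FiniteType k A],
      GG T (aff k (Localization.Away (X : A[X]))) → GG T (aff k A)

end QCV
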