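import Pool.Agent.QCV.StD
import Pool.Agent.QCV.StU1

/-!
# QCV, block U: statements, commutative algebra over `Defs2`
-/

set_option autoImplicit false

open CategoryTheory AlgebraicGeometry Polynomial

namespace QCV

open Pool.Agent.Lib_helper55.Beil Pool.Agent.Lib_helper66.OneP CUB

/-- Closure properties of a property of finitely generated algebras: as `Cls0`, but the passage to the
open part needs nothing about the closed part; products with the affine line. -/
structure ClsT (k : Type) [Field k]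
    (P : ∀ (A : Type) [CommRing A] [Algebra k A] [Algebra.FiniteType k A], Prop) : Prop where
  iso : ∀ {A B : Type} [CommRing A] [Algebra k A] [Algebra.FiniteType k A] [CommRing B]
    [Algebra k B] [Algebra.FiniteType k B], (A ≃ₐ[k] B) → P A → P B
  triv : ∀ (A : Type) [CommRing A] [Algebra k A] [Algebra.FiniteType k A], Subsingleton A → P A
  glue : ∀ {A Z U : Type} [CommRing A] [Algebra k A] [Algebra.FiniteType k A] [CommRing Z]
    [Algebra k Z] [Algebra.FiniteType k Z] [CommRing U] [Algebra k U] [Algebra.FiniteType k U]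
    (a : A) (z : A →ₐ[k] Z) (u : A →ₐ[k] U), Strat a z u → P Z → P U → P A
  opn : ∀ {A U : Type} [CommRing A] [Algebra k A] [Algebra.FiniteType k A] [CommRing U]
    [Algebra k U] [Algebra.FiniteType k U] (a : A) (u : A →ₐ[k] U),
    @IsLocalization.Away A _ a U _ u.toRingHom.toAlgebra → P A → P U
  line : ∀ (A : Type) [CommRing A] [Algebra k A] [Algebra.FiniteType k A], P A → P A[X]

/-- **UST** (the stratification of the generic member).
Proof.  Induction on `m` (for all `S`).  `m = 0`: `MvPolynomial (Fin 0) S ≃ S`, `fs f ↦ f 0`,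
`range f = {f 0}`.  `m + 1`: let `S' = MvPolynomial (Fin m) S`, `g = C (f 1)`,
`h = fs (f 0, f 2, ..., f (m + 1))`.  `MvPolynomial.finSuccEquiv` (restricted to `k`) maps `fs f` to
`C g * X + C h`.  `Asm.s_LNR` for `u = ` the localisation `S' → S'_g` and `ClsT.glue`:
(1) `P S'`: `P S` (the hypothesis for `j = 0`: `f '' ∅ = ∅`) and `ClsT.line` `m` times (as R_PLY (1));
`P S'_g` by `opn`.  (2) `P ((S' / (g, h))[X])`: `line`, and `S' / (g, h) ≅ MvPolynomial (Fin m) S₁ / (fs f')`
for `S₁ = S / (f 1)`, `f' = (f 0, f 2, ..., f (m + 1))` modulo `f 1`; induction for `S₁, f'`: the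
hypothesis for `j < m` is the one for `j + 1` and `S`: `S₁ / (f' '' {1 ≤ l ≤ j}) ≅ S / (f '' {1 ≤ l ≤ j + 1})`
(`DoubleQuot.quotQuotEquivQuotOfLE` or `DoubleQuot.quotQuotEquivQuotSupₐ`), similarly for `range f`. -/
def S_UST : Prop :=
  ∀ (k : Type) [Field k]
    (P : ∀ (A : Type) [CommRing A] [Algebra k A] [Algebra.FiniteType k A], Prop), ClsT k P →
    ∀ (m : ℕ) (S : Type) [CommRing S] [Algebra k S] [Algebra.FiniteType k S] (f : Fin (m + 1) → S),
      (∀ j < m, P (S ⧸ Ideal.span (f '' {l : Fin (m + 1) | 1 ≤ l.1 ∧ l.1 ≤ j}))) →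
      P (S ⧸ Ideal.span (Set.range f)) → P (MvPolynomial (Fin m) S ⧸ Ideal.span {fs f})

/-- The ring `S[X] / (g X + h)` of `S_LNR`. -/
abbrev HR (S : Type) [CommRing S] (g h : S) : Type := S[X] ⧸ Ideal.span {C g * X + C h}

/-- **UHI** (commutative algebra).
Proof.  `n + 2 * (s + 1) = (n + 2 * s) + 2` (`MvPolynomial.renameEquiv` along `finCongr`), the last two
variables are `u = x_(n + 2 s)`, `v = x_(n + 2 s + 1)`;
`MvPolynomial (Fin (N + 1)) B ≃ (MvPolynomial (Fin N) B)[X]` with the last variable as `X`, e.g.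
`MvPolynomial.renameEquiv` along `finSuccEquivLast`, `MvPolynomial.optionEquivLeft` (twice), all
restricted to `k`; `hyp φ (s + 1)` is mapped to `C X * X + C (C (hyp φ s))` (`Fin.sum_univ_castSucc`). -/
def S_UHI : Prop :=
  ∀ (k B : Type) [Field k] [CommRing B] [Algebra k B] (n s : ℕ) (φ : MvPolynomial (Fin n) B),
    Nonempty (ER (fun _ : Fin 1 => hyp φ (s + 1)) ≃ₐ[k]
      HR (MvPolynomial (Fin (n + 2 * s)) B)[X] X (C (hyp φ s)))

/-- **UGA** (commutative algebra).  The open part `x_0 ≠ 0` of `g x_0 ^ 2 = 0` is the punctured line over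
`B / g`.
Proof.  `u` is induced by `B[x_0] → (B / g)[X] → Localization.Away X`, `x_0 ↦ X`.  It maps `x_0` to a
unit.  Surjective up to powers of `x_0`: clear.  If the class of `F ∈ B[x_0]` is mapped to zero then
`X ^ n * F = 0` in `(B / g)[X]`, so all coefficients of `F` are divisible by `g`, `F = g F'`, and
`x_0 ^ 2 F = 0` in the quotient. -/
def S_UGA : Prop :=
  ∀ (k B : Type) [Field k] [CommRing B] [Algebra k B] (g : B),
    ∃ u : ER (fun _ : Fin 1 => (MvPolynomial.C g * MvPolynomial.X 0 ^ 2 : MvPolynomial (Fin 1) B)) →ₐ[k]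
        Localization.Away (X : (B ⧸ Ideal.span {g})[X]),
      @IsLocalization.Away _ _ (Ideal.Quotient.mk _ (MvPolynomial.X 0)) _ _ u.toRingHom.toAlgebra

end QCV
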