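import Pool.Agent.QCV.StT
import Pool.Agent.QCV.StU2
import Pool.Agent.QCV.Fin4

/-!
# QCV, block U: statements (universality of systems of quadratic forms), part 2

Let `m = d + 1`.  A variety of dimension `d` is birational to a hypersurface `g = 0` in the affine space of
dimension `m`.  By `S_ULZ` the form `g x_0 ^ 2` is, after addition of hyperbolic planes, the generic member
of a linear system `f_0, ..., f_m` of quadratic forms over `k`.  The zero set of the generic member has
strata which are vector bundles over the heads `f_1 = ... = f_j = 0` (at most `d` quadratic forms) and over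
`f_0 = ... = f_m = 0` (`S_UST`).
-/

set_option autoImplicit false

open CategoryTheory AlgebraicGeometry Limits Polynomial TopologicalSpace

namespace QCV

open Pool.Agent.Lib_helper55.Beil Pool.Agent.Lib_helper66.OneP CUB

universe v

/-- Closure properties of `GG` (proved in T_TGG.lean). -/
structure GGC {k : Type} [Field k] {E : Type} [Field E] (T : ∀ i : ℕ, Homology.{v} k E i) : Prop where
  iso : ∀ {X Y : Var k}, VIso X Y → GG T X → GG T Y
  nil : ∀ {Z X : Var k} (a : ClosedIn Z X), Function.Surjective a.g → GG T X → GG T Z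
  red : ∀ X : Var k, GG T (redVar X) → GG T X
  empty : ∀ X : Var k, IsEmpty X.X → GG T X
  glue : ∀ {Z U X : Var k} (a : ClosedIn Z X) (j : OpenIn U X), Complementary a j →
    GG T Z → GG T U → GG T X
  opn : ∀ {U X : Var k}, OpenIn U X → GG T X → GG T U
  line : ∀ (A : Type) [CommRing A] [Algebra k A] [Algebra.FiniteType k A],
    GG T (aff k A) → GG T (aff k A[X])
  unline : ∀ {Y X : Var k}, Line Y X → GG T Y → GG T X
  unpoly : ∀ (A : Type) [CommRing A] [Algebra k A] [Algebra.FiniteType k A],
    GG T (aff k A[X]) → GG T (aff k A)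
  dbl : ∀ (A : Type) [CommRing A] [Algebra k A] [Algebra.FiniteType k A] (b c : A),
    GG T (aff k (Dr A b c)) → GG T (aff k A)
  et : ∀ {V U : Var k}, Pool.Agent.Lib_helper66.OneP.FinEt V U → IsIntegral U.X → GG T V → GG T U

/-- **TGG** (helper86). -/
def S_TGG : Prop :=
  ∀ (k E : Type) [Field k] [Finite k] [Field E] [CharZero E]
    (T : ∀ i : ℕ, Homology.{v} k E i) (hT : Full T), Pub T hT → SectionZero T →
    EtTrans T hT.toProperMaps → GGC T

/-- **UHY** (removal of the hyperbolic planes).
Proof.  Induction on `s`.  `s = 0`: `hyp φ 0 = rename (castAdd 0) φ`, isomorphic.  `s + 1`: let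
`D = MvPolynomial (Fin (n + 2 * s)) B`, `S = D[X]`, `g = X`, `h = C (hyp φ s)`.  `S_UHI` and `Asm.s_LNR`
(with `U = Localization.Away X`): a closed part `(S / (g, h))[X]` and an open part `U` of
`aff k (ER (hyp φ (s + 1)))` (`complementary_away`, see `cls_built` in Cls.lean).  `PPF T (aff k D)`
(`ppf_mv`/`ppf_line`), `PPF T (aff k S)` by `ppf_line`, `PPF T (aff k U)` by `pf_open` (closed part
`S / (X) ≅ D`; level `0`: `pf_zero`).  `S_TCL`: `GG` for `(S / (X, C c))[X]`, so for `S / (X, C c) ≅ D / (c)`
by `GGC.unpoly`, `c = hyp φ s`. -/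
def S_UHY : Prop :=
  ∀ (k E : Type) [Field k] [Finite k] [Field E] [CharZero E]
    (T : ∀ i : ℕ, Homology.{v} k E i) (hT : Full T), Pub T hT → SectionZero T → GGC T →
    ∀ (B : Type) [CommRing B] [Algebra k B] [Algebra.FiniteType k B] (n s : ℕ)
      (φ : MvPolynomial (Fin n) B), PPF T (aff k B) →
      GG T (aff k (ER (fun _ : Fin 1 => hyp φ s))) → GG T (aff k (ER (fun _ : Fin 1 => φ)))

def M_UHY : Prop := S_TCL.{v} → S_UHI → S_UHY.{v}

/-- **UAF** (geometry).
Proof.  Let `η` be the generic point of `X`; `exists_nice` (Beil/Geom.lean), `openVar X U` affine and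
integral; `A = Γ(U)` (of finite type over `k`; the universe is `Type`), a domain,
`openVar X U ≅ aff k A` (compare `exists_affine`-type lemmas used with `Var.dim`, `dim_generic_aff`, CUB/BR1.lean, and
`dim_map`: the dimension of the generic point does not change under the open immersion). -/
def S_UAF : Prop :=
  ∀ (k : Type) [Field k] [PerfectField k] (X : Var k) [IsIntegral X.X],
    ∃ (A : Type) (_ : CommRing A) (_ : IsDomain A) (_ : Algebra k A) (_ : Algebra.FiniteType k A)
      (_ : OpenIn (aff k A) X), (aff k A).dim (genericPoint (aff k A).X) = X.dim (genericPoint X.X)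

/-- **UNO** (reduction to hypersurfaces).
Proof.  As `pf_auxd` (U4.lean) with `GG T` in place of `PF (T i)` (`GGC.red`, `GGC.empty`, `GGC.glue`): it
suffices that every integral `V₀` with `V₀.DimLE (d + 1)` has a nonempty open subvariety with `GG`.
`S_UAF`: `V₀` contains `aff k A`, `trdeg k A = r ≤ d + 1` (`dim_generic_aff`).  If `r ≤ d`, then
`(aff k A).DimLE d` (every point is a specialisation of the generic point, `dim_le_of_specializes`) and the
first hypothesis applies.  If `r = d + 1`: `S_UHA` gives `g`, `a`, `h`; `GG` for `k[x] / (g)` by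
hypothesis, for `Localization.Away h` by `GGC.opn` (`opn` of a localisation as in `complementary_away`),
for `Localization.Away a` by `GGC.iso` (`viso`); `aff k (Localization.Away a)` is a nonempty open part of
`aff k A`. -/
def S_UNO : Prop :=
  ∀ (k E : Type) [Field k] [PerfectField k] [Field E] (T : ∀ i : ℕ, Homology.{v} k E i), GGC T →
    ∀ d : ℕ, (∀ X : Var k, X.DimLE d → GG T X) →
      (∀ g : MvPolynomial (Fin (d + 2)) k,
        GG T (aff k (MvPolynomial (Fin (d + 2)) k ⧸ Ideal.span {g}))) →
      ∀ X : Var k, X.DimLE (d + 1 : ℕ) → GG T X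

def M_UNO : Prop := S_UHA → S_UAF → S_UNO.{v}

/-- The conjecture of Tate for the zero sets of `q + 1` quadratic forms in an odd number of variables
over `k` with nondegenerate generic member. -/
def OddTate {k : Type} [Field k] {E : Type} [Field E] (T : ∀ i : ℕ, Homology.{v} k E i) (q : ℕ) :
    Prop :=
  ∀ (s : ℕ) (f : Fin (q + 1) → MvPolynomial (Fin (1 + 2 * s)) k), (∀ j, (f j).IsHomogeneous 2) →
    (gram (gen f)).det ≠ 0 →
    GG T (aff k (MvPolynomial (Fin (1 + 2 * s)) k ⧸ Ideal.span (Set.range f)))

/-- **UPD** (fewer equations).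
Proof.  For `f : Fin (q + 1) → _` let `f' = Fin.snoc f 0 : Fin (q + 2) → _`.  `span (range f') =
span (range f)`.  `gen f' = map (rename Fin.castSucc) (gen f)` (`Fin.sum_univ_castSucc`, the last summand
is zero), so `gram (gen f') = (gram (gen f)).map (rename Fin.castSucc)`, and `det` is compatible with the
injective homomorphism `rename Fin.castSucc` (`MvPolynomial.rename_injective`). -/
def S_UPD : Prop :=
  ∀ (k E : Type) [Field k] [Field E] (T : ∀ i : ℕ, Homology.{v} k E i) (q : ℕ),
    OddTate T (q + 1) → OddTate T q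

end QCV
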