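import Pool.Agent.QCV.T_TGG

/-!
# QCV: the conjecture of Tate on the class `Built`, and the equivalence theorem
-/

set_option autoImplicit false

open CategoryTheory AlgebraicGeometry Limits Polynomial TopologicalSpace

namespace QCV

open Pool.Agent.Lib_helper55.Beil Pool.Agent.Lib_helper66.OneP CUB

universe v

variable {k : Type} [Field k] {E : Type} [Field E] {T : ∀ i : ℕ, Homology.{v} k E i} {hT : Full T}

/-- The property `GG` in dimension at most `d` implies `GG` on the class. -/
theorem gg_of_built_of (hTZE : S_TZE.{v}) (hTOD : S_TOD.{v}) (hTBU : S_TBU.{v}) [Finite k]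
    [CharZero E] (hP : Pub2 T hT) (d : ℕ) (hB : ∀ X : Var k, X.DimLE d → GG T X) (X : Var k)
    (h : Built k d X) : GG T X := by
  have hG : GGC T := t_TGG k E T hT hP.toPub hP.sectionZero hP.etale
  induction h with
  | small X hX => exact hB X hX
  | iso s _ ih => exact hG.iso s ih
  | nil a hs _ ih => exact hG.nil a hs ih
  | paste a j hc _ _ ihZ ihU => exact hG.glue a j hc ihZ ihU
  | cut a j hc _ _ ihX ihZ => exact hG.opn j ihX
  | line A _ ih => exact hG.line A ih
  | unline L _ ih => exact hG.unline L ih
  | cover A b c _ ih => exact hG.dbl A b c ih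
  | etale f hint _ ih => exact hG.et f hint ih
  | bundle B s j hs hc _ ih =>
    obtain ⟨S, hS⟩ := hP.bundles
    exact hTBU k E T hT hP.toPub hP.sectionZero S hS B s j hs hc ih
  | odd A m a ha _ ih =>
    obtain ⟨S, h1, h2, h3, h4⟩ := hP.dbl
    exact hTOD k E T hT S hP.toPub hP.sectionZero h1 h2 h3 h4 A m a ha ih
  | zeros A m f _ ih =>
    exact hTZE k E T hT hP.toPub hP.sectionZero A m f ih

/-- The conjecture of Tate (in the formulation of Jannsen) for `X`: the classes of cycles span the
Frobenius invariants, and Frobenius acts semisimply at the eigenvalue one. -/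
def Tate (T : ∀ i : ℕ, Homology.{v} k E i) (X : Var k) : Prop :=
  ∀ i, (T i).Surj X ∧ (T i).Semisimple X

lemma gg_iff (X : Var k) : GG T X ↔ Tate T X := by
  constructor
  · intro h i
    exact ⟨(T i).surj_of_good X (h i), (T i).semisimple_of_good X (h i)⟩
  · intro h i
    exact CUB.OPEN.good (T i) X (h i).1 (h i).2

end QCV
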