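import Pool.Agent.QCV.StU

/-!
# QCV, module TGG: closure properties of `GG`
-/

set_option autoImplicit false

open CategoryTheory AlgebraicGeometry Limits Polynomial TopologicalSpace

namespace QCV

open Pool.Agent.Lib_helper55.Beil Pool.Agent.Lib_helper66.OneP CUB

universe v

variable {k : Type} [Field k] {E : Type} [Field E] {T : ∀ i : ℕ, Homology.{v} k E i}

lemma gg_empty (X : Var k) (h : IsEmpty X.X) : GG T X :=
  fun i => (T i).good_of_subsingleton X ((T i).empty _ X h)

lemma gg_glue {Z U X : Var k} (a : ClosedIn Z X) (j : OpenIn U X) (hc : Complementary a j)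
    (hZ : GG T Z) (hU : GG T U) : GG T X :=
  fun i => (T i).glue a j hc (hZ i) (hU i)

lemma gg_red (X : Var k) (h : GG T (redVar X)) : GG T X :=
  gg_glue (redVarIn X) (openVarIn X ⊥) (complementary_red X) h
    (gg_empty _ (isEmpty_openVar_bot X))

lemma gg_iso {X Y : Var k} (s : VIso X Y) (h : GG T X) : GG T Y := by
  have hc : Complementary s.cl (openVarIn Y ⊥) := by
    rw [Complementary, s.range, range_openVarIn]
    simp
  exact gg_glue s.cl (openVarIn Y ⊥) hc h (gg_empty _ (isEmpty_openVar_bot Y))

lemma gg_nil (hT : Full T) {Z X : Var k} (a : ClosedIn Z X) (hs : Function.Surjective a.g)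
    (h : GG T X) : GG T Z := by
  intro i m hm
  have h1 : (T i).P (2 * i) a m ∈ (T i).gen X :=
    maxGen_map ((T i).frob (2 * i) Z) ((T i).frob (2 * i) X) ((T i).push (2 * i) a)
      ((T i).push_frob (2 * i) a) hm
  obtain ⟨c, hc⟩ := exists_cls (T i) X _ (h i h1)
  obtain ⟨c', rfl⟩ := exists_pushCyc a (openVarIn X ⊥) (complementary_surj a hs) c (by
    ext u
    exact ((isEmpty_openVar_bot X).false u.1).elim)
  have h2 : m = cls (T i) Z c' := by
    apply push_inj_surj hT i (2 * i) a hs
    rw [push_cls', hc]
  rw [h2]
  exact (T i).linComb_mem_alg _ _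

lemma gg_unline [Finite k] [CharZero E] (hT : Full T) (hP : Pub T hT) (hS : SectionZero T)
    {Y X : Var k} (L : Line Y X) (h : GG T Y) : GG T X := by
  intro i α hα
  refine alg_of_supp i X α hα (supp_line_desc hT hP hS i (2 * i) i L α ?_)
  have h1 : hT.line i (2 * i) L α ∈ (T (i + 1)).gen Y :=
    maxGen_map ((T i).frob (2 * i) X) ((T (i + 1)).frob (2 * (i + 1)) Y) (hT.line i (2 * i) L)
      (hT.line_frob i (2 * i) L) hα
  obtain ⟨c, hc⟩ := exists_cls (T (i + 1)) Y _ (h (i + 1) h1)
  have h2 := supp_cls (T := T) (i + 1) Y c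
  have h3 : clz (T (i + 1)) Y c = hT.line i (2 * i) L α := hc
  rw [h3] at h2
  exact h2

/-- **TGG**. -/
theorem t_TGG : S_TGG.{v} := by
  intro k E _ _ _ _ T hT hP hS hE
  exact
    { iso := gg_iso
      nil := gg_nil hT
      red := gg_red
      empty := gg_empty
      glue := gg_glue
      opn := by
        intro U X j h i
        have hop := j.isOpen
        rcases i with _ | i
        · exact (pf_zero hT hP U).1
        · let K : Closeds X.X :=
            (⟨Set.range j.g, j.g.isOpenEmbedding.isOpen_range⟩ : Opens X.X).compl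
          have hcomp : Complementary (closedVarIn X K) j := by
            rw [Complementary, range_closedVarIn]
            rfl
          exact good_open hT hP i (closedVarIn X K) j hcomp (h (i + 1))
      line := by
        intro A _ _ _ h i
        rcases i with _ | i
        · exact (pf_zero hT hP _).1
        · exact good_line hT.toExtra i A (h i)
      unline := gg_unline hT hP hS
      unpoly := by
        intro A _ _ _ h
        exact gg_unline hT hP hS (lineE (CC k A) (RingEquiv.refl _) (fun _ => rfl)) h
      dbl := by
        intro A _ _ _ b c h i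
        obtain ⟨S, h1, h2, -⟩ := hP.dbl
        exact good_dbl hT S h1 h2 i A b c (h i)
      et := fun f hint h i => U3.good_et hT hE.etPull i f hint (h i) }

end QCV
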