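import Pool.Agent.QCV.F_DBL
import Pool.Agent.QCV.F_BAS
import Pool.Agent.QCV.G_DEF

/-!
# QCV, upgrade: the class of varieties contains all varieties of dimension at most `d` if the
conjecture holds for them (all degrees)
-/

set_option autoImplicit false

open CategoryTheory AlgebraicGeometry Limits Polynomial TopologicalSpace

namespace QCV

open Pool.Agent.Lib_helper55.Beil Pool.Agent.Lib_helper66.OneP CUB

universe v

variable {k : Type} [Field k] {E : Type} [Field E]

variable {T : ∀ i : ℕ, Homology.{v} k E i}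

namespace U2

/-- The supports for an open part of an integral variety. -/
lemma supp_part [CharZero E] (hT : Full T) (hP : Pub T hT) (hA : Pool.Agent.Lib_helper66.OneP.Alterations k)
    (hPu : ∀ i, Purity (T i)) (hE : EtPull T hT.toProperMaps) (d i : ℕ)
    (hG : ∀ X : Var k, X.DimLE d → (T i).gen X ≤ (T i).alg X)
    (hI : ∀ X : Var k, X.DimLE d → (T i).InjC X)
    (V₀ : Var k) (hint : IsIntegral V₀.X) (hdim : V₀.DimLE d) :
    ∃ (U' : Var k) (_ : OpenIn U' V₀), Nonempty U'.X ∧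
      ∀ m ∈ gen1 (T i) U', Supp (T i) (2 * i + 1) (i + 1) U' m := by
  obtain ⟨D, hD⟩ := t_DST.2.1 k V₀ (genericPoint V₀.X)
  obtain ⟨U', V, Y, j, p, o, hne, hsp⟩ := hA V₀ hint D hD
  refine ⟨U', j, hne, ?_⟩
  have hDd : D ≤ d := by
    have := hdim (genericPoint V₀.X)
    rw [hD] at this
    exact_mod_cast this
  have hsp' := hsp
  obtain ⟨-, -, hYint, hYdim⟩ := hsp'
  have hYd : Y.DimLE d := fun x => by
    refine (dim_le_of_specializes Y (genericPoint_specializes x)).trans ?_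
    rw [hYdim]
    exact_mod_cast hDd
  -- supports on `V`
  have hop := o.isOpen
  let K : Closeds Y.X := (⟨Set.range o.g, o.g.isOpenEmbedding.isOpen_range⟩ : Opens Y.X).compl
  have hcomp : Complementary (closedVarIn Y K) o := by
    rw [Complementary, range_closedVarIn]
    rfl
  have hV : ∀ m ∈ gen1 (T i) V, Supp (T i) (2 * i + 1) (i + 1) V m := by
    refine supp_open hT hP i (closedVarIn Y K) o hcomp
      (hG _ (dimLE_closed (closedVarIn Y K) hYd)) (hI Y hYd) ?_
    intro m hm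
    have h0 : m = 0 := maxGen_eq_bot ((T i).frob (2 * i + 1) Y)
      (fun z hz => hPu i Y D hsp z hz) hm
    rw [h0]
    exact supp_zero _ _ _ _
  -- descent
  intro m hm
  have hj := j.isOpen
  have hU'int : IsIntegral U'.X := isIntegral_of_isOpenImmersion j.g
  obtain ⟨S, hF, hS⟩ := hE
  obtain ⟨c, hc0, hPG⟩ := hS p hU'int
  have hc : (c : E) ≠ 0 := Nat.cast_ne_zero.2 hc0
  have h1 : S.Q i (2 * i + 1) p m ∈ gen1 (T i) V :=
    maxGen_map ((T i).frob (2 * i + 1) U') ((T i).frob (2 * i + 1) V)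
      (S.pb i (2 * i + 1) p) (hF i (2 * i + 1) p) hm
  have h2 := supp_pf hT i _ _ (etPr p) _ (hV _ h1)
  rw [hPG] at h2
  have h4 := supp_smul i _ _ _ (c : E)⁻¹ _ h2
  rwa [smul_smul, inv_mul_cancel₀ hc, one_smul] at h4

lemma supp_of_isEmpty (hT : Full T) (i : ℕ) (X : Var k) (h : IsEmpty X.X) :
    ∀ m ∈ gen1 (T i) X, Supp (T i) (2 * i + 1) (i + 1) X m := fun m _ =>
  supp_of_dimLE hT.toExtra i _ _ X (fun x => (h.false x).elim) m

lemma supp_aux [PerfectField k] [CharZero E] (hT : Full T) (hP : Pub T hT) (hA : Pool.Agent.Lib_helper66.OneP.Alterations k)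
    (hPu : ∀ i, Purity (T i)) (hE : EtPull T hT.toProperMaps) (d i : ℕ)
    (hG : ∀ X : Var k, X.DimLE d → (T i).gen X ≤ (T i).alg X)
    (hI : ∀ X : Var k, X.DimLE d → (T i).InjC X) (X₀ : Var k) (C : Closeds X₀.X) :
    ∀ (Y : Var k) (g : Y.X ⟶ X₀.X), g ≫ X₀.f = Y.f → IsPreimmersion g → (∀ y, g y ∈ C) →
      Y.DimLE d → ∀ m ∈ gen1 (T i) Y, Supp (T i) (2 * i + 1) (i + 1) Y m := by
  induction C using WellFoundedLT.induction with
  | ind C ih =>
  intro Y g comm hg hC hdimY
  have hdimR : (redVar Y).DimLE d := dimLE_red hdimY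
  refine supp_glue hT hP i (redVarIn Y) (openVarIn Y ⊥) (complementary_red Y)
    (supp_of_isEmpty hT i _ (isEmpty_openVar_bot Y)) (hI _ hdimR) ?_
  have hred := isReduced_redVar Y
  have hcl := (redVarIn Y).closed
  set Y' := redVar Y
  set g' : Y'.X ⟶ X₀.X := (redVarIn Y).g ≫ g
  have comm' : g' ≫ X₀.f = Y'.f := by
    rw [Category.assoc, comm, (redVarIn Y).comm]
  have hC' : ∀ y, g' y ∈ C := fun y => hC _
  rcases isEmpty_or_nonempty Y'.X with he | ⟨⟨x⟩⟩
  · exact supp_of_isEmpty hT i _ he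
  obtain ⟨η, -, hη⟩ := exists_maximal Y' x
  obtain ⟨U, hU1, -, hU3, hU4, hU5, hU6⟩ := exists_nice Y' η hη ⊤ trivial
  have hop := (openVarIn Y' U).isOpen
  obtain ⟨U', j, ⟨u⟩, hU'⟩ := supp_part hT hP hA hPu hE d i hG hI (openVar Y' U) hU5
    (dimLE_open (openVarIn Y' U) hdimR)
  let jj : OpenIn U' Y' := j.trans (openVarIn Y' U)
  have hjj := jj.isOpen
  let K : Closeds Y'.X := (⟨Set.range jj.g, jj.g.isOpenEmbedding.isOpen_range⟩ : Opens Y'.X).compl
  have hcomp : Complementary (closedVarIn Y' K) jj := by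
    rw [Complementary, range_closedVarIn]
    rfl
  have hdimK := dimLE_closed (closedVarIn Y' K) hdimR
  refine supp_glue hT hP i (closedVarIn Y' K) jj hcomp hU' (hI _ hdimK) ?_
  have hclK := (closedVarIn Y' K).closed
  refine ih (Closeds.closure (g' '' (K : Set Y'.X)))
    (lt_of_closed g' C hC' K (jj.g u) (fun hcon => hcon ⟨u, rfl⟩))
    (closedVar Y' K) ((closedVarIn Y' K).g ≫ g') ?_ inferInstance ?_ hdimK
  · rw [Category.assoc, comm', (closedVarIn Y' K).comm]
  · intro y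
    have h1 : (closedVarIn Y' K).g y ∈ (K : Set Y'.X) := by
      rw [← range_closedVarIn]
      exact ⟨y, rfl⟩
    exact subset_closure ⟨_, h1, rfl⟩

end U2

theorem ppf_of_q1 [PerfectField k] [CharZero E] (hT : Full T) (hP : Pub T hT) (hA : Pool.Agent.Lib_helper66.OneP.Alterations k)
    (hPu : ∀ i, Purity (T i)) (hE : EtPull T hT.toProperMaps) (d : ℕ)
    (hQ : ∀ X : Var k, X.DimLE d → ∀ i, Q1 (T i) X) (X : Var k) (hX : X.DimLE d) : PPF T X := by
  intro i
  have hG : ∀ X : Var k, X.DimLE d → (T i).gen X ≤ (T i).alg X := fun X hX =>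
    CUB.OPEN.good (T i) X (hQ X hX i).2.1 (hQ X hX i).2.2
  have hI : ∀ X : Var k, X.DimLE d → (T i).InjC X := fun X hX =>
    ((T i).inj_iff X).mp (hQ X hX i).1
  exact ⟨hG X hX, hI X hX, U2.supp_aux hT hP hA hPu hE d i hG hI X ⊤ X (𝟙 _)
    (Category.id_comp _) inferInstance (fun _ => trivial) hX⟩

/-- If the conjecture holds in all degrees for all varieties of dimension at most `d`, then these
varieties are in the class. -/
theorem pp_of_q1 [Finite k] [CharZero E] (hT : Full T) (hP : Pub T hT) (hA : Pool.Agent.Lib_helper66.OneP.Alterations k)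
    (hPu : ∀ i, Purity (T i)) (hE : EtPull T hT.toProperMaps) (d : ℕ)
    (hQ : ∀ X : Var k, X.DimLE d → ∀ i, Q1 (T i) X) (X : Var k) (hX : X.DimLE d) : PP T X :=
  (pp_iff hT.toExtra X).mpr (ppf_of_q1 hT hP hA hPu hE d hQ X hX)

end QCV
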