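import Pool.Agent.QCV.T_ALL
import Pool.Agent.QCV.O_ASM

/-!
# QCV: universality of systems of quadratic forms
-/

set_option autoImplicit false

open CategoryTheory AlgebraicGeometry Limits Polynomial TopologicalSpace

namespace QCV

open Pool.Agent.Lib_helper55.Beil Pool.Agent.Lib_helper66.OneP CUB

universe v

variable {k : Type} [Field k] {E : Type} [Field E] {T : ∀ i : ℕ, Homology.{v} k E i} {hT : Full T}

lemma clsT_gg (hG : GGC T) :
    ClsT k (fun A [CommRing A] [Algebra k A] [Algebra.FiniteType k A] => GG T (aff k A)) where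
  iso := fun e h => hG.iso (viso e.symm) h
  triv := fun A _ _ _ h => hG.empty _ (isEmpty_aff A h)
  glue := fun a z u s hZ hU => hG.glue _ _
    (complementary_away u a s.away z s.surj s.ker) hZ hU
  opn := fun a u h hA => hG.opn (opn u (isOpenImmersion_spm u a h)) hA
  line := hG.line

lemma cls0_gg (hG : GGC T) :
    Cls0 k (fun A [CommRing A] [Algebra k A] [Algebra.FiniteType k A] => GG T (aff k A)) where
  iso := fun e h => hG.iso (viso e.symm) h
  triv := fun A _ _ _ h => hG.empty _ (isEmpty_aff A h)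
  glue := fun a z u s hZ hU => hG.glue _ _
    (complementary_away u a s.away z s.surj s.ker) hZ hU
  opn := fun a _ u s hA _ => hG.opn (opn u (isOpenImmersion_spm u a s.away)) hA

lemma ppf_field [Finite k] [CharZero E] (hP : Pub T hT) : PPF T (aff k k) :=
  fun i => pf_of_dimLE hT hP i _
    (fun x => (dimLE_of_DL (dl_field k) x).trans (by exact_mod_cast Nat.zero_le i))

lemma ppf_poly [Finite k] [CharZero E] (hP : Pub T hT) (n : ℕ) :
    PPF T (aff k (MvPolynomial (Fin n) k)) :=
  (Asm.s_PLY k (fun A [CommRing A] [Algebra k A] [Algebra.FiniteType k A] => PPF T (aff k A))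
    (cls0_ppf hT hP) (fun A _ _ _ h => ppf_line hT hP A h) k n).1 (ppf_field hP)

/-- One polynomial: from a system of `m + 1` quadratic forms to the hypersurface `g = 0`. -/
lemma gg_hyper_of (hULZ : S_ULZ) (hUGM : S_UGM) (hUDT : S_UDT) (hUSB : S_USB) (hUST : S_UST)
    (hUHY : S_UHY.{v}) (hUGA : S_UGA) (hTGM : S_TGM.{v}) (hTZE : S_TZE.{v}) (hTOD : S_TOD.{v})
    (hTBU : S_TBU.{v}) [Finite k] [CharZero E] (hP : Pub2 T hT) (h2 : (2 : k) ≠ 0) (d : ℕ)
    (hlow : ∀ X : Var k, X.DimLE d → GG T X) (ho : OddTate T (d + 2))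
    (g : MvPolynomial (Fin (d + 2)) k) :
    GG T (aff k (MvPolynomial (Fin (d + 2)) k ⧸ Ideal.span {g})) := by
  have hG : GGC T := t_TGG k E T hT hP.toPub hP.sectionZero hP.etale
  have hpoly := ppf_poly hP.toPub (T := T) (d + 2)
  have h2B : (2 : MvPolynomial (Fin (d + 2)) k) ≠ 0 := by
    intro h
    apply h2
    have h3 : MvPolynomial.C (2 : k) = (0 : MvPolynomial (Fin (d + 2)) k) := by
      rw [← h]
      exact map_ofNat _ 2
    exact MvPolynomial.C_eq_zero.mp h3
  by_cases hg : g = 0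
  · subst hg
    refine (clsT_gg hG).iso (A := MvPolynomial (Fin (d + 2)) k) ?_ (fun i => (hpoly i).1)
    have h1 : Ideal.span {(0 : MvPolynomial (Fin (d + 2)) k)} = ⊥ := by simp
    exact ((Ideal.quotientEquivAlgOfEq k h1).trans
      (AlgEquiv.quotientBot k (MvPolynomial (Fin (d + 2)) k))).symm
  obtain ⟨s, f, P, hf, hPu, heq⟩ := hULZ k (d + 2) 1
    (MvPolynomial.C g * MvPolynomial.X 0 ^ 2)
    ((MvPolynomial.isHomogeneous_C_mul_X_pow g 0 2))
  have hdet : (gram (gen f)).det ≠ 0 := by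
    have h3 : gram (gen f) = lgram (lsub P (hyp (MvPolynomial.C g * MvPolynomial.X 0 ^ 2 :
        MvPolynomial (Fin 1) (MvPolynomial (Fin (d + 2)) k)) s)) := by
      rw [heq]
      rfl
    have h4 := hUGM _ (1 + 2 * s) (hyp (MvPolynomial.C g * MvPolynomial.X 0 ^ 2 :
        MvPolynomial (Fin 1) (MvPolynomial (Fin (d + 2)) k)) s) P ?_
    · rw [h3, h4, Matrix.det_mul, Matrix.det_mul, Matrix.det_transpose]
      exact mul_ne_zero (mul_ne_zero hPu.ne_zero (hUDT _ g s h2B hg)) hPu.ne_zero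
    · refine MvPolynomial.IsHomogeneous.add ?_ ?_
      · exact (MvPolynomial.isHomogeneous_C_mul_X_pow g 0 2).rename_isHomogeneous
      · refine MvPolynomial.IsHomogeneous.sum _ _ _ fun i _ => ?_
        exact (MvPolynomial.isHomogeneous_X _ _).mul (MvPolynomial.isHomogeneous_X _ _)
  have h5 : GG T (aff k (MvPolynomial (Fin (d + 2)) (MvPolynomial (Fin (1 + 2 * s)) k) ⧸
      Ideal.span {fs f})) := by
    refine hUST k (fun A [CommRing A] [Algebra k A] [Algebra.FiniteType k A] => GG T (aff k A))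
      (clsT_gg hG) (d + 2) (MvPolynomial (Fin (1 + 2 * s)) k) f ?_ (ho s f hf hdet)
    intro j hj
    have h6 : f '' {l : Fin (d + 2 + 1) | 1 ≤ l.1 ∧ l.1 ≤ j} =
        Set.range (fun l : Fin j => f ⟨l.1 + 1, by omega⟩) := by
      ext y
      constructor
      · rintro ⟨l, ⟨hl1, hl2⟩, rfl⟩
        refine ⟨⟨l.1 - 1, by omega⟩, congrArg f (Fin.ext ?_)⟩
        change l.1 - 1 + 1 = l.1
        omega
      · rintro ⟨l, rfl⟩
        refine ⟨_, ⟨?_, ?_⟩, rfl⟩
        · change 1 ≤ l.1 + 1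
          omega
        · change l.1 + 1 ≤ j
          have := l.2
          omega
    refine (clsT_gg hG).iso (Ideal.quotientEquivAlgOfEq k (congrArg Ideal.span h6.symm)) ?_
    rcases Nat.eq_zero_or_pos j with rfl | hj0
    · refine (clsT_gg hG).iso (A := MvPolynomial (Fin (1 + 2 * s)) k) ?_
        (fun i => (ppf_poly hP.toPub (T := T) (1 + 2 * s) i).1)
      have h1 : Ideal.span (Set.range (fun l : Fin 0 =>
          f ⟨l.1 + 1, by have := l.2; omega⟩)) = ⊥ := by
        rw [Set.range_eq_empty, Ideal.span_empty]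
      exact ((Ideal.quotientEquivAlgOfEq k h1).trans
        (AlgEquiv.quotientBot k (MvPolynomial (Fin (1 + 2 * s)) k))).symm
    · refine gg_of_built_of hTZE hTOD hTBU hP d hlow _ ?_
      exact built_quadrics (e := 0) _ hj0 (by omega)
        (dimLE_of_DL (dl_field k)) (fun l => (hf _).totalDegree_le)
  obtain ⟨e1⟩ := t_QSW k k (1 + 2 * s) (d + 2) f
  have h6 := (clsT_gg hG).iso e1 h5
  obtain ⟨e2⟩ := hUSB k (MvPolynomial (Fin (d + 2)) k) (1 + 2 * s)
    (hyp (MvPolynomial.C g * MvPolynomial.X 0 ^ 2) s) P hPu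
  rw [heq] at e2
  have h7 := (clsT_gg hG).iso e2 h6
  have h8 := hUHY k E T hT hP.toPub hP.sectionZero hG (MvPolynomial (Fin (d + 2)) k) 1 s
    (MvPolynomial.C g * MvPolynomial.X 0 ^ 2) hpoly h7
  obtain ⟨u, hu⟩ := hUGA k (MvPolynomial (Fin (d + 2)) k) g
  have h9 := (clsT_gg hG).opn _ u hu h8
  exact hTGM k E T hT hP.toPub hP.sectionZero _ h9

/-- Universality: the conjecture of Tate for systems of `d + 2` quadratic forms implies the conjecture
of Tate in dimension at most `d`. -/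
theorem universal_of (hULZ : S_ULZ) (hUGM : S_UGM) (hUDT : S_UDT) (hUSB : S_USB) (hUST : S_UST)
    (hUHY : S_UHY.{v}) (hUGA : S_UGA) (hUNO : S_UNO.{v}) (hUPD : S_UPD.{v}) (hTGM : S_TGM.{v})
    (hTZE : S_TZE.{v}) (hTOD : S_TOD.{v}) (hTBU : S_TBU.{v}) [Finite k] [CharZero E]
    (hP : Pub2 T hT) (h2 : (2 : k) ≠ 0) (d : ℕ) (ho : OddTate T (d + 1)) :
    ∀ X : Var k, X.DimLE d → GG T X := by
  have hG : GGC T := t_TGG k E T hT hP.toPub hP.sectionZero hP.etale
  induction d with
  | zero =>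
    intro X hX i
    exact (pf_of_dimLE hT hP.toPub i X
      (fun x => (hX x).trans (by exact_mod_cast Nat.zero_le i))).1
  | succ d ih =>
    have hlow := ih (hUPD k E T (d + 1) ho)
    exact hUNO k E T hG d hlow (gg_hyper_of hULZ hUGM hUDT hUSB hUST hUHY hUGA hTGM hTZE hTOD hTBU
      hP h2 d hlow ho)

lemma oddGen_of_det {s q : ℕ} (f : Fin (q + 1) → MvPolynomial (Fin (1 + 2 * s)) k)
    (h : (gram (gen f)).det ≠ 0) : OddGen k 0 f := by
  intro p _
  have hinj : Function.Injective (genHom q p) := by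
    have h1 : Function.Injective (Ideal.Quotient.mk p.asIdeal) := by
      rw [RingHom.injective_iff_ker_eq_bot, Ideal.mk_ker]
      exact (Ideal.eq_bot_or_top p.asIdeal).resolve_right p.isPrime.ne_top
    have h5 : Function.Injective (algebraMap (MvPolynomial (Fin q) (k ⧸ p.asIdeal))
        (FractionRing (MvPolynomial (Fin q) (k ⧸ p.asIdeal)))) := IsFractionRing.injective _ _
    exact h5.comp (MvPolynomial.map_injective _ h1)
  have h3 : ((gram (gen f)).map (genHom q p)).det ≠ 0 := by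
    have h4 : ((gram (gen f)).map (genHom q p)).det = genHom q p (gram (gen f)).det :=
      (RingHom.map_det _ _).symm
    rw [h4]
    exact (map_ne_zero_iff _ hinj).mpr h
  rw [Matrix.rank_of_isUnit _ ((Matrix.isUnit_iff_isUnit_det _).mpr (isUnit_iff_ne_zero.mpr h3))]
  rw [Fintype.card_fin]
  exact ⟨s, by ring⟩

/-- The system belongs to the class. -/
lemma built_oddTate (h2 : (2 : k) ≠ 0) (d : ℕ) {s : ℕ}
    (f : Fin (d + 1 + 1) → MvPolynomial (Fin (1 + 2 * s)) k) (hf : ∀ j, (f j).IsHomogeneous 2)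
    (h : (gram (gen f)).det ≠ 0) :
    Built k d (aff k (MvPolynomial (Fin (1 + 2 * s)) k ⧸ Ideal.span (Set.range f))) :=
  built_odd h2 (Nat.zero_le d) (by omega) (dimLE_of_DL (dl_field k)) f hf (oddGen_of_det f h)

end QCV
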