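import Pool.Agent.QCV.StU

/-!
# UAF: an integral variety contains an affine open subvariety of the same dimension

Proof of `QCV.S_UAF`.
-/

set_option autoImplicit false

open CategoryTheory AlgebraicGeometry Limits Polynomial TopologicalSpace

namespace QCV

open Pool.Agent.Lib_helper55.Beil Pool.Agent.Lib_helper66.OneP CUB

namespace UAF_aux

variable {k : Type} [Field k]

theorem generic_max (X : Var k) [IsIntegral X.X] (y : X.X) (h : y ⤳ genericPoint X.X) :
    y = genericPoint X.X :=
  (h.antisymm (genericPoint_specializes y)).eq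

/-- An affine integral variety is the spectrum of a domain of finite type. -/
theorem exists_domain (V : Var k) [IsAffine V.X] [IsIntegral V.X] :
    ∃ (A : Type) (_ : CommRing A) (_ : IsDomain A) (_ : Algebra k A) (_ : Algebra.FiniteType k A),
      Nonempty (VIso (aff k A) V) := by
  obtain ⟨A, iA, iB, iC, ⟨s⟩⟩ := exists_aff V
  have hne : Nonempty (aff k A).X := ⟨s.e.inv (genericPoint V.X)⟩
  have hint : IsIntegral (aff k A).X := isIntegral_of_isOpenImmersion s.e.hom
  have hd : IsDomain A := by
    have h1 : IsIntegral (Spec (CommRingCat.of A)) := hint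
    exact (affine_isIntegral_iff (CommRingCat.of A)).1 h1
  exact ⟨A, iA, hd, iB, iC, ⟨s⟩⟩

end UAF_aux

open UAF_aux in
theorem t_UAF : S_UAF := by
  intro k _ _ X _
  obtain ⟨U, hU1, -, hU3, -, hU5, -⟩ := exists_nice X (genericPoint X.X)
    (fun y hy => generic_max X y hy) ⊤ trivial
  obtain ⟨A, iA, hd, iB, iC, ⟨s⟩⟩ := exists_domain (openVar X U)
  have hopen : IsOpenImmersion (openVarIn X U).g := (openVarIn X U).isOpen
  have hopen2 : IsOpenImmersion (s.e.hom ≫ (openVarIn X U).g) := inferInstance
  let j : OpenIn (aff k A) X :=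
    { g := s.e.hom ≫ (openVarIn X U).g
      comm := by rw [Category.assoc, (openVarIn X U).comm, s.comm]
      isOpen := hopen2 }
  refine ⟨A, iA, hd, iB, iC, j, ?_⟩
  have hj : IsOpenImmersion j.g := hopen2
  have h1 := dim_map j.g j.comm (genericPoint (aff k A).X)
  have h2 : j.g (genericPoint (aff k A).X) = genericPoint X.X :=
    genericPoint_eq_of_isOpenImmersion j.g
  rw [h2] at h1
  exact h1.symm

end QCV
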